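import Pool.Agent.Lib.MP_4a7072_co.Scale

/-!
A certificate checker for nets of cubes with creases along lattice lines.
-/

set_option autoImplicit false

namespace Pool.Agent.Lib.MP_4a7072_co

open Set

/-- Entry `i` of a table packed into a natural number, `w` bits per entry. -/
def tab (T w i : ℕ) : ℕ := (T >>> (w * i)) % 2 ^ w

/-- Cells of the box `[0, K)^2`. -/
def inBox (K : ℕ) (c : ℤ × ℤ) : Bool := decide (0 ≤ c.1 ∧ c.1 < K ∧ 0 ≤ c.2 ∧ c.2 < K)

/-- Index of a cell of the box. -/
def idx (K : ℕ) (c : ℤ × ℤ) : ℕ := c.1.toNat * K + c.2.toNat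

/-- Membership test given by the bit mask `M`. -/
def memb (K M : ℕ) (c : ℤ × ℤ) : Bool := inBox K c && M.testBit (idx K c)

/-- The set of cells given by the bit mask `M`. -/
def cellsOf (K M : ℕ) : Finset (ℤ × ℤ) :=
  ((Finset.range K ×ˢ Finset.range K).filter fun c => M.testBit (c.1 * K + c.2) = true).image
    fun c => ((c.1 : ℤ), (c.2 : ℤ))

theorem mem_cellsOf {K M : ℕ} {c : ℤ × ℤ} : c ∈ cellsOf K M ↔ memb K M c = true := by
  unfold cellsOf memb inBox idx
  simp only [Finset.mem_image, Finset.mem_filter, Finset.mem_product, Finset.mem_range,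
    Bool.and_eq_true, decide_eq_true_eq]
  constructor
  · rintro ⟨d, ⟨⟨h1, h2⟩, h3⟩, rfl⟩
    simp only [Int.toNat_natCast]
    exact ⟨⟨by omega, by omega, by omega, by omega⟩, h3⟩
  · rintro ⟨⟨h1, h2, h3, h4⟩, h5⟩
    exact ⟨(c.1.toNat, c.2.toNat), ⟨⟨by simp only; omega, by simp only; omega⟩, h5⟩,
      Prod.ext (by simp only; omega) (by simp only; omega)⟩

theorem card_cellsOf (K M : ℕ) : (cellsOf K M).card =
    ((Finset.range K ×ˢ Finset.range K).filter fun c => M.testBit (c.1 * K + c.2) = true).card := by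
  unfold cellsOf
  apply Finset.card_image_of_injective
  intro c d h
  simp only [Prod.mk.injEq, Nat.cast_inj] at h
  exact Prod.ext h.1 h.2

/-- A test holds on all cells of the box. -/
def allBox (K : ℕ) (p : ℤ × ℤ → Bool) : Bool :=
  (List.range K).all fun x => (List.range K).all fun y => p ((x : ℤ), (y : ℤ))

theorem allBox_spec {K : ℕ} {p : ℤ × ℤ → Bool} (h : allBox K p = true) {c : ℤ × ℤ}
    (hc : inBox K c = true) : p c = true := by
  unfold allBox at h
  unfold inBox at hc
  simp only [List.all_eq_true, List.mem_range] at h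
  simp only [decide_eq_true_eq] at hc
  have := h c.1.toNat (by omega) c.2.toNat (by omega)
  have e : (((c.1.toNat : ℕ) : ℤ), ((c.2.toNat : ℕ) : ℤ)) = c :=
    Prod.ext (by simp only; omega) (by simp only; omega)
  rwa [e] at this

theorem inBox_of_memb {K M : ℕ} {c : ℤ × ℤ} (h : memb K M c = true) : inBox K c = true := by
  unfold memb at h
  simp only [Bool.and_eq_true] at h
  exact h.1

/-- `d` is a cell of the box, on the same side as `c`, of smaller rank. -/
def lower (K M R w : ℕ) (c d : ℤ × ℤ) : Bool :=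
  inBox K d && (memb K M d == memb K M c) && decide (tab R w (idx K d) < tab R w (idx K c))

/-- Connectivity test, for the set and for its complement. -/
def connOK (K M R w : ℕ) (b : ℤ × ℤ) : Bool :=
  memb K M b && !memb K M (0, 0) && allBox K fun c =>
    c == b || c == (0, 0) || lower K M R w c (c.1 + 1, c.2) || lower K M R w c (c.1 - 1, c.2) ||
      lower K M R w c (c.1, c.2 + 1) || lower K M R w c (c.1, c.2 - 1)

theorem conn_of_connOK {K M R w : ℕ} {b : ℤ × ℤ} (h : connOK K M R w b = true) :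
    IsPolyomino (cellsOf K M) ∧ HoleFree (cellsOf K M) := by
  unfold connOK at h
  simp only [Bool.and_eq_true, Bool.not_eq_true'] at h
  obtain ⟨⟨hb, h0⟩, hall⟩ := h
  have key : ∀ (m : Bool) (A : Set (ℤ × ℤ)) (base : ℤ × ℤ), (∀ c, c ∈ A ↔ memb K M c = m) →
      (b ∈ A → b = base) → ((0, 0) ∈ A → (0, 0) = base) →
      ∀ n : ℕ, ∀ c, inBox K c = true → c ∈ A → tab R w (idx K c) = n → Joined' A c base := by
    intro m A base hA h1 h2 n
    induction n using Nat.strong_induction_on with
    | _ n ih =>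
      intro c hc hcA hn
      have := allBox_spec hall hc
      simp only [Bool.or_eq_true, beq_iff_eq] at this
      have step : ∀ d, lower K M R w c d = true → EdgeAdj c d → Joined' A c base := by
        intro d hd hadj
        unfold lower at hd
        simp only [Bool.and_eq_true, beq_iff_eq, decide_eq_true_eq] at hd
        have hdA : d ∈ A := (hA d).2 (hd.1.2.trans ((hA c).1 hcA))
        exact (Joined'.single hcA hdA hadj).trans (ih _ (hn ▸ hd.2) d hd.1.1 hdA rfl)
      rcases this with ((((e | e) | e) | e) | e) | e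
      · subst e; rw [← h1 hcA]; exact Joined'.refl _ _
      · subst e; rw [← h2 hcA]; exact Joined'.refl _ _
      · exact step _ e (by simp [EdgeAdj])
      · exact step _ e (by simp [EdgeAdj])
      · exact step _ e (by simp [EdgeAdj])
      · exact step _ e (by simp [EdgeAdj])
  refine ⟨⟨⟨b, mem_cellsOf.2 hb⟩, edgeConnected_of_base b fun c hc => ?_⟩,
    edgeConnected_of_base (0, 0) fun c hc => ?_⟩
  · refine key true _ b (fun c => mem_cellsOf) (fun _ => rfl) (fun h => ?_) _ c
      (inBox_of_memb (mem_cellsOf.1 hc)) hc rfl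
    rw [Finset.mem_coe, mem_cellsOf, h0] at h
    exact absurd h (by simp)
  · have hA : ∀ c, c ∈ ((cellsOf K M : Set (ℤ × ℤ))ᶜ) ↔ memb K M c = false := by
      intro c
      rw [mem_compl_iff, Finset.mem_coe, mem_cellsOf]; simp
    by_cases hin : inBox K c = true
    · refine key false _ (0, 0) hA (fun h => ?_) (fun _ => rfl) _ c hin hc rfl
      rw [hA, hb] at h
      exact absurd h (by simp)
    · have out : ∀ x y : ℤ, (x < 0 ∨ (K : ℤ) ≤ x ∨ y < 0 ∨ (K : ℤ) ≤ y) →
          (x, y) ∈ ((cellsOf K M : Set (ℤ × ℤ))ᶜ) := by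
        intro x y h
        rw [hA]
        unfold memb inBox
        simp only [Bool.and_eq_false_imp, decide_eq_true_eq]
        intro h'
        omega
      have fin : Joined' ((cellsOf K M : Set (ℤ × ℤ))ᶜ) (-1, 0) (0, 0) :=
        Joined'.single (out _ _ (by omega)) ((hA _).2 h0) (by simp [EdgeAdj])
      have row : ∀ x y : ℤ, (y < 0 ∨ (K : ℤ) ≤ y) →
          Joined' ((cellsOf K M : Set (ℤ × ℤ))ᶜ) (x, y) (0, 0) := fun x y h =>
        ((joined_h x (-1) y fun i _ _ => out i y (by omega)).trans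
          (joined_v (-1) y 0 fun i _ _ => out (-1) i (by omega))).trans fin
      obtain ⟨x, y⟩ := c
      unfold inBox at hin
      simp only [decide_eq_true_eq] at hin
      by_cases hy : y < 0 ∨ (K : ℤ) ≤ y
      · exact row x y hy
      · exact (joined_v x y (-1) fun i _ _ => out x i (by omega)).trans (row x (-1) (by omega))

/-- The vertex data given by the table `T`. -/
def vert (K T : ℕ) (x y : ℤ) (k : Fin 3) : ℤ := tab T 8 (3 * idx K (x, y) + k.val)

instance (V : ℤ → ℤ → Fin 3 → ℤ) (c : ℤ × ℤ) : Decidable (GoodCell V c) := by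
  unfold GoodCell; infer_instance

instance (V : ℤ → ℤ → Fin 3 → ℤ) (L : ℤ) (c : ℤ × ℤ) : Decidable (OnSurface V L c) := by
  unfold OnSurface; infer_instance

/-- The doubled centre of the unit square `(m, n)` on side `s` of the face pair `k0`. -/
def ctr (L : ℕ) (k0 : Fin 3) (s : ℕ) (m n : ℕ) (k : Fin 3) : ℤ :=
  if k = k0 then 2 * L * s else if k = k0 + 1 then 2 * m + 1 else 2 * n + 1

/-- The cell covering a given unit square of the surface, read from the table `I`. -/
def pre (L I : ℕ) (k0 : Fin 3) (s m n : ℕ) : ℤ × ℤ :=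
  (tab I 8 (2 * (((k0.val * 2 + s) * L + m) * L + n)),
    tab I 8 (2 * (((k0.val * 2 + s) * L + m) * L + n) + 1))

/-- Surjectivity test. -/
def surjOK (K M T L I : ℕ) : Bool :=
  [(0 : Fin 3), 1, 2].all fun k0 => (List.range 2).all fun s => (List.range L).all fun m =>
    (List.range L).all fun n => memb K M (pre L I k0 s m n) &&
      decide (∀ k, vert K T (pre L I k0 s m n).1 (pre L I k0 s m n).2 k
        + vert K T ((pre L I k0 s m n).1 + 1) ((pre L I k0 s m n).2 + 1) k = ctr L k0 s m n k)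

/-- The doubled image of a stratum. -/
def img (V : ℤ → ℤ → Fin 3 → ℤ) (c : ℤ × ℤ) (τ1 τ2 : ℤ) (k : Fin 3) : ℤ :=
  2 * V c.1 c.2 k + τ1 * e1 V c k + τ2 * e2 V c k

/-- Lookup of the interior stratum over a doubled point of the surface. -/
def back (L J : ℕ) (z : Fin 3 → ℤ) : ℕ :=
  tab J 20 (((z 0).toNat * (2 * L + 1) + (z 1).toNat) * (2 * L + 1) + (z 2).toNat)

/-- Test of one stratum. -/
def stratOK (K M T L J : ℕ) (c : ℤ × ℤ) (τ1 τ2 : ℤ) : Bool :=
  decide ((back L J (img (vert K T) c τ1 τ2) : ℤ) =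
    if memb K M (c.1 + τ1 - 1, c.2) && memb K M (c.1, c.2 + τ2 - 1) &&
      memb K M (c.1 + τ1 - 1, c.2 + τ2 - 1)
    then (2 * c.1 + τ1) * (2 * K + 1) + (2 * c.2 + τ2) + 1 else 0)

/-- Test of all cells. -/
def cellsOK (K M T L J : ℕ) : Bool :=
  allBox K fun c => !memb K M c || (decide (GoodCell (vert K T) c) &&
    decide (OnSurface (vert K T) L c) &&
    [(0 : ℤ), 1, 2].all fun τ1 => [(0 : ℤ), 1, 2].all fun τ2 => stratOK K M T L J c τ1 τ2)

theorem foldsInto_of_check {K M T L I J : ℕ} (hL : 0 < L) (h1 : cellsOK K M T L J = true)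
    (h2 : surjOK K M T L I = true) : FoldsInto (region (cellsOf K M)) (cubeSurface L) := by
  have hc : ∀ c ∈ cellsOf K M, GoodCell (vert K T) c ∧ OnSurface (vert K T) L c ∧
      ∀ τ1 τ2 : ℤ, 0 ≤ τ1 → τ1 ≤ 2 → 0 ≤ τ2 → τ2 ≤ 2 → stratOK K M T L J c τ1 τ2 = true := by
    intro c hc
    have hm := mem_cellsOf.1 hc
    have := allBox_spec h1 (inBox_of_memb hm)
    simp only [hm, Bool.not_true, Bool.false_or, Bool.and_eq_true, decide_eq_true_eq,
      List.all_eq_true] at this
    refine ⟨this.1.1, this.1.2, fun τ1 τ2 a b c d => this.2 τ1 ?_ τ2 ?_⟩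
    · simp only [List.mem_cons, List.not_mem_nil, or_false]; omega
    · simp only [List.mem_cons, List.not_mem_nil, or_false]; omega
  refine foldsInto_of_data (vert K T) _ L hL (fun c h => (hc c h).1) (fun c h => (hc c h).2.1)
    ?_ ?_
  · intro w k0 hw0 hw
    unfold surjOK at h2
    simp only [List.all_eq_true, List.mem_range, Bool.and_eq_true, decide_eq_true_eq] at h2
    have n1 : k0 + 1 ≠ k0 := by fin_cases k0 <;> decide
    have n2 : k0 + 2 ≠ k0 := by fin_cases k0 <;> decide
    have n3 : k0 + 2 ≠ k0 + 1 := by fin_cases k0 <;> decide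
    have a := hw _ n1
    have b := hw _ n2
    obtain ⟨s, hs, hs'⟩ : ∃ s : ℕ, s < 2 ∧ w k0 = 2 * L * s := by
      rcases hw0 with h | h
      · exact ⟨0, by omega, by simp [h]⟩
      · exact ⟨1, by omega, by simp [h]⟩
    have := h2 k0 (by fin_cases k0 <;> simp) s hs (w (k0 + 1) / 2).toNat (by omega)
      (w (k0 + 2) / 2).toNat (by omega)
    refine ⟨_, mem_cellsOf.2 this.1, fun k => ?_⟩
    rw [this.2 k]
    have hk : k = k0 ∨ k = k0 + 1 ∨ k = k0 + 2 := by
      fin_cases k0 <;> fin_cases k <;> decide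
    unfold ctr
    rcases hk with rfl | rfl | rfl
    · rw [if_pos rfl, hs']
    · rw [if_neg n1, if_pos rfl]; omega
    · rw [if_neg n2, if_neg n3]; omega
  · intro c hcS d hdS τ1 τ2 σ1 σ2 a1 a2 a3 a4 b1 b2 b3 b4 m1 m2 m3 hE
    have p := (hc c hcS).2.2 τ1 τ2 a1 a2 a3 a4
    have q := (hc d hdS).2.2 σ1 σ2 b1 b2 b3 b4
    unfold stratOK at p q
    have hE' : img (vert K T) c τ1 τ2 = img (vert K T) d σ1 σ2 := funext hE
    rw [mem_cellsOf.1 m1, mem_cellsOf.1 m2, mem_cellsOf.1 m3, hE'] at p
    simp only [Bool.and_self, if_true, decide_eq_true_eq] at p q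
    have bc := inBox_of_memb (mem_cellsOf.1 hcS)
    have bd := inBox_of_memb (mem_cellsOf.1 hdS)
    unfold inBox at bc bd
    simp only [decide_eq_true_eq] at bc bd
    rw [p] at q
    have pos : 0 ≤ (2 * c.1 + τ1) * (2 * (K : ℤ) + 1) := mul_nonneg (by omega) (by omega)
    split_ifs at q with hq
    · have e : 2 * c.1 + τ1 = 2 * d.1 + σ1 := by
        by_contra hne
        rcases lt_or_gt_of_ne hne with h | h
        · have : (2 * c.1 + τ1 + 1) * (2 * (K : ℤ) + 1) ≤ (2 * d.1 + σ1) * (2 * K + 1) :=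
            mul_le_mul_of_nonneg_right (by omega) (by omega)
          nlinarith
        · have : (2 * d.1 + σ1 + 1) * (2 * (K : ℤ) + 1) ≤ (2 * c.1 + τ1) * (2 * K + 1) :=
            mul_le_mul_of_nonneg_right (by omega) (by omega)
          nlinarith
      refine ⟨e, ?_⟩
      rw [e] at q
      omega
    · omega

theorem twoPiece_of_check {a b c K Ma Mb Mc : ℕ}
    (hU : allBox K (fun x => (memb K Mc x == (memb K Ma x || memb K Mb x)) &&
      !(memb K Ma x && memb K Mb x)) = true)
    (ca : IsPolyomino (cellsOf K Ma) ∧ HoleFree (cellsOf K Ma))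
    (cb : IsPolyomino (cellsOf K Mb) ∧ HoleFree (cellsOf K Mb))
    (cc : IsPolyomino (cellsOf K Mc) ∧ HoleFree (cellsOf K Mc))
    (hcard : (cellsOf K Mc).card = 6 * c ^ 2)
    (fa : FoldsInto (region (cellsOf K Ma)) (cubeSurface a))
    (fb : FoldsInto (region (cellsOf K Mb)) (cubeSurface b))
    (fc : FoldsInto (region (cellsOf K Mc)) (cubeSurface c)) : TwoPieceDissection a b c := by
  have hU' : cellsOf K Mc = cellsOf K Ma ∪ cellsOf K Mb := by
    ext x
    rw [Finset.mem_union, mem_cellsOf, mem_cellsOf, mem_cellsOf]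
    by_cases hx : inBox K x = true
    · have := allBox_spec hU hx
      simp only [Bool.and_eq_true, beq_iff_eq] at this
      rw [this.1]; simp
    · unfold memb
      simp [hx]
  have hD : Disjoint (cellsOf K Ma) (cellsOf K Mb) := by
    rw [Finset.disjoint_left]
    intro x h1 h2
    rw [mem_cellsOf] at h1 h2
    have := allBox_spec hU (inBox_of_memb h1)
    simp [h1, h2] at this
  exact ⟨_, _, _, ca.1, cb.1, cc.1, ca.2, cb.2, cc.2, hcard, by rw [hU', region_union],
    disjoint_interior_region hD, fc, fa, fb⟩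

end Pool.Agent.Lib.MP_4a7072_co
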