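import Pool.Agent.Lib.MP_4a7072_co.NW

/-!
The curves at scale `k`: every coarse step is replaced by a straight or an S-shaped path.
-/

set_option autoImplicit false

namespace Pool.Agent.Lib.MP_4a7072_co
namespace NP

/-- The S-shaped path for a diagonal step. -/
def sw (k h : ℤ) (d : Dir) : List Dir :=
  List.replicate h.toNat d ++ List.replicate k.toNat (d + 1) ++ List.replicate (k - h).toNat d

/-- The path at scale `k` for the step number `l` in direction `d`. -/
def fw (k e c l : ℤ) (d : Dir) : List Dir :=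
  if e = 0 then List.replicate k.toNat d else if (l + c) % 2 = 0 then sw k 1 d else sw k (k - 1) d

/-- The shadow of the path that replaces the step from `u` to `v`. -/
def ESh (e : ℤ) (u v : Pt) (X Y : ℤ) : Prop :=
  (X = 2 * u.1 ∧ Y = 2 * u.2) ∨ (X = 2 * v.1 ∧ Y = 2 * v.2) ∨ (X = u.1 + v.1 ∧ Y = u.2 + v.2) ∨
  (e = 1 ∧ v.1 - u.1 = v.2 - u.2 ∧ X = u.1 + v.1 ∧ (Y = u.2 + v.2 + 1 ∨ Y = u.2 + v.2 - 1)) ∨
  (e = 1 ∧ v.1 - u.1 = u.2 - v.2 ∧ Y = u.2 + v.2 ∧ (X = u.1 + v.1 + 1 ∨ X = u.1 + v.1 - 1))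

theorem psi_range {k x : ℤ} (hk : 2 ≤ k) (h0 : 0 ≤ x) (h1 : x ≤ k) : 0 ≤ psi k x ∧ psi k x ≤ 2 := by
  have a := psi_mono hk h0
  have b := psi_mono hk h1
  have c := psi_mul (show 0 < k by omega) 1
  rw [psi_zero] at a
  rw [mul_one] at c
  omega

theorem psi_in {k x : ℤ} (h0 : 0 < x) (h1 : x < k) : psi k x = 1 := by
  simpa using psi_mid h0 h1 0

theorem psi_self {k : ℤ} (hk : 0 < k) : psi k k = 2 := by simpa using psi_mul hk 1

theorem line_arc {k : ℤ} (hk : 2 ≤ k) : SArc k (0, 0) (List.replicate k.toNat 0) (1, 0)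
    fun X Y => 0 ≤ X ∧ X ≤ 2 ∧ Y = 0 := by
  have h := Arc.line (0, 0) 0 k.toNat
  rw [Int.toNat_of_nonneg (by omega)] at h
  have e0 : k • ((0, 0) : Pt) = (0, 0) := by simp
  have e1 : k • ((1, 0) : Pt) = (0, 0) + k • dv 0 := by simp [dv]
  rw [SArc, e0, e1]
  refine h.mono ?_
  rintro z ⟨i, a, b, rfl⟩
  have := psi_range hk a b
  simpa [dv, psi_zero] using this

theorem sw_arc {k h : ℤ} (h0 : 0 < h) (h1 : h < k) : SArc k (0, 0) (sw k h 0) (1, 1)
    fun X Y => (X = 0 ∧ Y = 0) ∨ (X = 2 ∧ Y = 2) ∨ (X = 1 ∧ 0 ≤ Y ∧ Y ≤ 2) := by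
  have hk : 2 ≤ k := by omega
  have a1 := Arc.line (0, 0) 0 h.toNat
  have a2 := Arc.line (h, 0) 1 k.toNat
  have a3 := Arc.line (h, k) 0 (k - h).toNat
  rw [Int.toNat_of_nonneg (by omega)] at a1 a2 a3
  rw [show ((0, 0) : Pt) + h • dv 0 = (h, 0) by simp [dv]] at a1
  rw [show ((h, 0) : Pt) + k • dv 1 = (h, k) by simp [dv]] at a2
  rw [show ((h, k) : Pt) + (k - h) • dv 0 = k • ((1, 1) : Pt) by simp [dv]] at a3
  rw [SArc, show k • ((0, 0) : Pt) = (0, 0) by simp]
  refine ((a1.append a2 ?_).append a3 ?_).mono ?_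
  · rintro z ⟨i, a, b, rfl⟩ ⟨j, c, d, e⟩
    simp [dv] at e ⊢
    omega
  · rintro z (⟨i, a, b, rfl⟩ | ⟨i, a, b, rfl⟩) ⟨j, c, d, e⟩ <;> simp [dv] at e ⊢ <;> omega
  · rintro z ((⟨i, a, b, rfl⟩ | ⟨i, a, b, rfl⟩) | ⟨i, a, b, rfl⟩)
    · rcases eq_or_lt_of_le a with rfl | a
      · simp [psi_zero]
      · simp [dv, psi_zero, psi_in a (show i < k by omega)]
    · simpa [dv, psi_in h0 h1] using psi_range hk a b
    · rcases eq_or_lt_of_le b with rfl | b
      · simp [dv, psi_self (show 0 < k by omega)]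
      · simp [dv, psi_self (show 0 < k by omega),
          psi_in (show 0 < h + i by omega) (show h + i < k by omega)]

theorem rot_sw (t : Dir) (k h : ℤ) (d : Dir) : rot t (sw k h d) = sw k h (d + t) := by
  simp only [sw, rot_append, rot_replicate, add_right_comm d 1 t]

theorem back_sw (t : Dir) (k h : ℤ) (d : Dir) : back t (sw k h d) = sw k (k - h) (d + 2 + t) := by
  have e : ∀ d t : Dir, d + 1 + 2 + t = d + 2 + t + 1 := by decide
  simp only [sw, back_append, back_replicate, sub_sub_cancel, List.append_assoc, e]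

theorem sw_arc' {k h : ℤ} (h0 : 0 < h) (h1 : h < k) (u : Pt) (d : Dir) :
    SArc k u (sw k h d) (u + stepv 1 d) (ESh 1 u (u + stepv 1 d)) := by
  have hk : 0 < k := by omega
  have a := sw_arc h0 h1
  rcases dir_cases d with rfl | rfl | rfl | rfl
  · refine ((a.shift hk u).cast (by simp) (by ext <;> simp [stepv, dv, add_comm])).mono ?_
    intro X Y h; simp [ESh, stepv, dv]; omega
  · have b := a.rot1 hk u
    rw [rot_sw] at b
    refine (b.cast (by simp [rotP1]) (by ext <;> simp [stepv, dv, rotP1, add_comm])).mono ?_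
    intro X Y h; simp [ESh, stepv, dv]; omega
  · have b := a.rot2 hk u
    rw [rot_sw] at b
    refine (b.cast (by simp [rotP2]) (by ext <;> simp [stepv, dv, rotP2, add_comm])).mono ?_
    intro X Y h; simp [ESh, stepv, dv]; omega
  · have b := a.rot3 hk u
    rw [rot_sw] at b
    refine (b.cast (by simp [rotP3]) (by ext <;> simp [stepv, dv, rotP3, add_comm])).mono ?_
    intro X Y h; simp [ESh, stepv, dv]; omega

theorem line_arc' {k : ℤ} (hk : 2 ≤ k) (u : Pt) (d : Dir) :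
    SArc k u (List.replicate k.toNat d) (u + stepv 0 d) (ESh 0 u (u + stepv 0 d)) := by
  have hk0 : 0 < k := by omega
  have a := line_arc hk
  rcases dir_cases d with rfl | rfl | rfl | rfl
  · refine ((a.shift hk0 u).cast (by simp) (by ext <;> simp [stepv, dv, add_comm])).mono ?_
    intro X Y h; simp [ESh, stepv, dv]; omega
  · have b := a.rot1 hk0 u
    rw [rot_replicate] at b
    refine (b.cast (by simp [rotP1]) (by ext <;> simp [stepv, dv, rotP1, add_comm])).mono ?_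
    intro X Y h; simp [ESh, stepv, dv]; omega
  · have b := a.rot2 hk0 u
    rw [rot_replicate] at b
    refine (b.cast (by simp [rotP2]) (by ext <;> simp [stepv, dv, rotP2, add_comm])).mono ?_
    intro X Y h; simp [ESh, stepv, dv]; omega
  · have b := a.rot3 hk0 u
    rw [rot_replicate] at b
    refine (b.cast (by simp [rotP3]) (by ext <;> simp [stepv, dv, rotP3, add_comm])).mono ?_
    intro X Y h; simp [ESh, stepv, dv]; omega

theorem fw_arc {k e : ℤ} (hk : 2 ≤ k) (he : e = 0 ∨ e = 1) (c l : ℤ) (u : Pt) (d : Dir) :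
    SArc k u (fw k e c l d) (u + stepv e d) (ESh e u (u + stepv e d)) := by
  rcases he with rfl | rfl
  · exact line_arc' hk u d
  · unfold fw
    rw [if_neg one_ne_zero]
    split_ifs
    · exact sw_arc' one_pos (by omega) u d
    · exact sw_arc' (by omega) (by omega) u d

theorem fw_back (k e : ℤ) {c l l' : ℤ} (h : (l + l') % 2 = 1) (t d : Dir) :
    back t (fw k e c l d) = fw k e c l' (d + 2 + t) := by
  unfold fw
  split_ifs
  · exact back_replicate _ _ _
  · omega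
  · exact back_sw _ _ _ _
  · rw [back_sw, sub_sub_cancel]
  · omega

theorem fw_ne {k : ℤ} (hk : 2 ≤ k) (e c l : ℤ) (d : Dir) : fw k e c l d ≠ [] := by
  have : k.toNat ≠ 0 := by omega
  unfold fw sw
  split_ifs <;> simp [this]

theorem stepv_inj {e : ℤ} {d d' : Dir} (h : stepv e d = stepv e d') : d = d' := by
  unfold stepv at h
  split_ifs at h <;> revert d d' <;> decide

theorem Stp.coord {e : ℤ} {u v : Pt} (he : e = 0 ∨ e = 1) (h : Stp e u v) :
    (e = 0 ∧ ((v.2 = u.2 ∧ (v.1 = u.1 + 1 ∨ v.1 = u.1 - 1)) ∨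
      (v.1 = u.1 ∧ (v.2 = u.2 + 1 ∨ v.2 = u.2 - 1)))) ∨
    (e = 1 ∧ (v.1 = u.1 + 1 ∨ v.1 = u.1 - 1) ∧ (v.2 = u.2 + 1 ∨ v.2 = u.2 - 1)) := by
  obtain ⟨d, rfl⟩ := h
  rcases he with rfl | rfl <;> rcases dir_cases d with rfl | rfl | rfl | rfl <;>
    simp [stepv, dv, sub_eq_add_neg]

theorem esh_inter {e X Y : ℤ} {u v u' v' : Pt} (he : e = 0 ∨ e = 1) (h : Stp e u v)
    (h' : Stp e u' v') (hp : e = 1 → (u.1 + u.2 + u'.1 + u'.2) % 2 = 0) (g : ESh e u v X Y)
    (g' : ESh e u' v' X Y) :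
    (((X = 2 * u.1 ∧ Y = 2 * u.2) ∨ (X = 2 * v.1 ∧ Y = 2 * v.2)) ∧
      ((X = 2 * u'.1 ∧ Y = 2 * u'.2) ∨ (X = 2 * v'.1 ∧ Y = 2 * v'.2))) ∨
    (u = u' ∧ v = v') ∨ (u = v' ∧ v = u') := by
  simp only [Prod.ext_iff]
  have c := h.coord he
  have c' := h'.coord he
  have m : u.1 + v.1 = u'.1 + v'.1 → u.2 + v.2 = u'.2 + v'.2 →
      ((u.1 = u'.1 ∧ u.2 = u'.2) ∧ v.1 = v'.1 ∧ v.2 = v'.2) ∨
        (u.1 = v'.1 ∧ u.2 = v'.2) ∧ v.1 = u'.1 ∧ v.2 = u'.2 := fun a b => by
    clear g g'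
    rcases c with ⟨e0, c | c⟩ | ⟨e1, c | c, d | d⟩ <;>
      rcases c' with ⟨e0', c' | c'⟩ | ⟨e1', c' | c', d' | d'⟩ <;> omega
  have o : ∀ {u v : Pt}, Stp e u v → ESh e u v X Y →
      ((X = 2 * u.1 ∧ Y = 2 * u.2) ∨ (X = 2 * v.1 ∧ Y = 2 * v.2)) ∨ (X % 2 = 1 ∨ Y % 2 = 1) ∧
      ((X = u.1 + v.1 ∧ Y = u.2 + v.2 ∧ (e = 1 → X % 2 = 1 ∧ Y % 2 = 1)) ∨
      (e = 1 ∧ X = u.1 + v.1 ∧ X % 2 = 1 ∧ Y % 2 = 0 ∧ (Y = u.2 + v.2 + 1 ∨ Y = u.2 + v.2 - 1) ∧
        u.2 + v.2 - (u.1 + v.1) = 2 * (u.2 - u.1)) ∨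
      (e = 1 ∧ Y = u.2 + v.2 ∧ X % 2 = 0 ∧ Y % 2 = 1 ∧ (X = u.1 + v.1 + 1 ∨ X = u.1 + v.1 - 1) ∧
        u.2 + v.2 + (u.1 + v.1) = 2 * (u.2 + u.1))) := fun {u v} h g => by
    have c := h.coord he
    clear m c' hp
    rcases g with g | g | g | g | g
    · exact Or.inl (Or.inl g)
    · exact Or.inl (Or.inr g)
    · exact Or.inr ⟨by omega, Or.inl (by omega)⟩
    · exact Or.inr ⟨by omega, Or.inr (Or.inl (by omega))⟩
    · exact Or.inr ⟨by omega, Or.inr (Or.inr (by omega))⟩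
  clear c c'
  rcases o h g with a | ⟨a, b⟩ <;> rcases o h' g' with a' | ⟨a', b'⟩
  · exact Or.inl ⟨a, a'⟩
  · exfalso; clear m o g g' b'; omega
  · exfalso; clear m o g g' b; omega
  · refine Or.inr (m ?_ ?_) <;> clear m o g g' a a' <;> rcases b with b | b | b <;>
      rcases b' with b' | b' | b' <;> omega

theorem esh_box {e X Y s1 s2 t1 t2 : ℤ} {u v : Pt} (he : e = 0 ∨ e = 1) (h : Stp e u v)
    (g : ESh e u v X Y)
    (hu : s1 ≤ 2 * (u.1 + u.2) ∧ 2 * (u.1 + u.2) ≤ s2 ∧ t1 ≤ 2 * (u.2 - u.1) ∧ 2 * (u.2 - u.1) ≤ t2)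
    (hv : s1 ≤ 2 * (v.1 + v.2) ∧ 2 * (v.1 + v.2) ≤ s2 ∧ t1 ≤ 2 * (v.2 - v.1) ∧ 2 * (v.2 - v.1) ≤ t2) :
    Box s1 s2 t1 t2 e X Y := by
  have c := h.coord he
  refine ⟨?_, ?_, ?_⟩ <;> rcases g with g | g | g | g | g <;> omega

theorem esh_near {e X Y : ℤ} {u v : Pt} (he : e = 0 ∨ e = 1) (g : ESh e u v X Y) :
    (∀ s, s ≤ 2 * (u.1 + u.2) → s ≤ 2 * (v.1 + v.2) → s - e ≤ X + Y) ∧
    (∀ s, 2 * (u.1 + u.2) ≤ s → 2 * (v.1 + v.2) ≤ s → X + Y ≤ s + e) ∧
    ∀ t, t ≤ 2 * (u.2 - u.1) → t ≤ 2 * (v.2 - v.1) → t - e ≤ Y - X := by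
  refine ⟨fun s a b => ?_, fun s a b => ?_, fun s a b => ?_⟩ <;>
    rcases g with g | g | g | g | g <;> omega

theorem blk_esh {e X Y x y : ℤ} {s s' : Prop} {u v : Pt} (he : e = 0 ∨ e = 1) (h : Stp e u v)
    (hp : e = 1 → (u.1 + u.2 + x + y) % 2 = 0) (g : ESh e u v X Y)
    (b : Blk e s s' (X - 2 * x) (Y - 2 * y)) :
    (s' ∧ ((u = (x, y) ∧ v.1 + v.2 < x + y) ∨ (v = (x, y) ∧ u.1 + u.2 < x + y))) ∨
    (¬s' ∧ ((u = (x, y) ∧ x + y < v.1 + v.2) ∨ (v = (x, y) ∧ x + y < u.1 + u.2))) ∨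
    (¬(s ↔ s') ∧ ((u = (x - 1, y + 1) ∧ v = (x, y)) ∨ (u = (x, y) ∧ v = (x - 1, y + 1)))) := by
  simp only [Prod.ext_iff]
  have c := h.coord he
  unfold ESh at g
  rcases b with ⟨e0, b⟩ | ⟨e1, b⟩
  · have c0 := (c.resolve_right (by omega)).2
    clear c hp he
    rcases b with b | b | ⟨a, b⟩ | ⟨a, b⟩
    · exfalso
      obtain ⟨k36, k37⟩ := b
      rcases g with ⟨k13, -⟩ | ⟨k16, -⟩ | ⟨k19, k20⟩ | ⟨k22, -⟩ | ⟨k29, -⟩
      · omega
      · omega
      · rcases c0 with ⟨k2, -⟩ | ⟨k7, -⟩ <;> omega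
      · omega
      · omega
    · exfalso
      obtain ⟨k36, k37⟩ := b
      rcases g with ⟨k13, -⟩ | ⟨k16, -⟩ | ⟨k19, k20⟩ | ⟨k22, -⟩ | ⟨k29, -⟩
      · omega
      · omega
      · rcases c0 with ⟨k2, -⟩ | ⟨k7, -⟩ <;> omega
      · omega
      · omega
    · refine Or.inl ⟨a, ?_⟩
      rcases g with ⟨k13, k14⟩ | ⟨k16, k17⟩ | ⟨k19, k20⟩ | ⟨k22, -⟩ | ⟨k29, -⟩
      · rcases b with ⟨k37, -⟩ | ⟨-, k43⟩ <;> omega
      · rcases b with ⟨k37, -⟩ | ⟨-, k43⟩ <;> omega
      · rcases b with ⟨k37, k38⟩ | ⟨k42, k43⟩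
        · rcases c0 with ⟨k2, k3⟩ | ⟨k7, -⟩
          · rcases k38 with k39 | k40
            · rcases k3 with k4 | k5
              · refine .inr ?_; omega
              · refine .inl ?_; omega
            · omega
          · omega
        · rcases c0 with ⟨k2, -⟩ | ⟨k7, k8⟩
          · omega
          · rcases k8 with k9 | k10
            · refine .inr ?_; omega
            · refine .inl ?_; omega
      · omega
      · omega
    · refine Or.inr (Or.inl ⟨a, ?_⟩)
      rcases g with ⟨k13, k14⟩ | ⟨k16, k17⟩ | ⟨k19, k20⟩ | ⟨k22, -⟩ | ⟨k29, -⟩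
      · rcases b with ⟨k37, -⟩ | ⟨-, k43⟩ <;> omega
      · rcases b with ⟨k37, -⟩ | ⟨-, k43⟩ <;> omega
      · rcases b with ⟨k37, k38⟩ | ⟨k42, k43⟩
        · rcases c0 with ⟨k2, k3⟩ | ⟨k7, -⟩
          · rcases k38 with k39 | k40
            · rcases k3 with k4 | k5
              · refine .inl ?_; omega
              · refine .inr ?_; omega
            · omega
          · omega
        · rcases c0 with ⟨k2, -⟩ | ⟨k7, k8⟩
          · omega
          · rcases k8 with k9 | k10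
            · refine .inl ?_; omega
            · refine .inr ?_; omega
      · omega
      · omega
  · have c1 := (c.resolve_left (by omega)).2
    have hq := hp e1
    clear c hp he
    rcases b with ⟨a, b⟩ | ⟨a, b⟩ | ⟨a, b⟩ | ⟨a, b⟩ | ⟨a, a', b⟩ | ⟨a, a', b⟩ | ⟨a, a', b⟩
    · exfalso
      obtain ⟨k1, k4⟩ := c1
      obtain ⟨k33, k34⟩ := b
      clear e1
      rcases k1 with k2 | k3
      · rcases g with ⟨k10, k11⟩ | ⟨k13, k14⟩ | ⟨k16, -⟩ | ⟨-, -, k21, -⟩ | ⟨-, k27, k28, -⟩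
        · omega
        · rcases k4 with k5 | k6 <;> omega
        · omega
        · omega
        · omega
      · rcases g with ⟨k10, k11⟩ | ⟨k13, k14⟩ | ⟨k16, -⟩ | ⟨-, -, k21, -⟩ | ⟨-, k27, k28, -⟩
        · omega
        · rcases k4 with k5 | k6 <;> omega
        · omega
        · omega
        · omega
    · exfalso
      obtain ⟨k1, k4⟩ := c1
      obtain ⟨k33, k34⟩ := b
      clear e1
      rcases k1 with k2 | k3
      · rcases g with ⟨k10, k11⟩ | ⟨k13, k14⟩ | ⟨k16, -⟩ | ⟨-, -, k21, -⟩ | ⟨-, k27, k28, -⟩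
        · omega
        · rcases k4 with k5 | k6 <;> omega
        · omega
        · omega
        · omega
      · rcases g with ⟨k10, k11⟩ | ⟨k13, k14⟩ | ⟨k16, -⟩ | ⟨-, -, k21, -⟩ | ⟨-, k27, k28, -⟩
        · omega
        · rcases k4 with k5 | k6 <;> omega
        · omega
        · omega
        · omega
    · refine Or.inl ⟨a, ?_⟩
      obtain ⟨k1, k4⟩ := c1
      clear e1
      rcases b with ⟨k34, k35, k36⟩ | ⟨k38, k39⟩
      · rcases g with ⟨k10, -⟩ | ⟨k13, -⟩ | ⟨k16, k17⟩ | ⟨-, k20, k21, k22⟩ | ⟨-, k27, k28, k29⟩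
        · omega
        · omega
        · rcases k1 with k2 | k3
          · rcases k4 with k5 | k6
            · refine .inr ?_; omega
            · omega
          · rcases k4 with k5 | k6
            · omega
            · refine .inl ?_; omega
        · rcases k1 with k2 | k3
          · rcases k22 with k23 | k24
            · refine .inr ?_; omega
            · refine .inr ?_; omega
          · rcases k22 with k23 | k24
            · refine .inl ?_; omega
            · refine .inl ?_; omega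
        · rcases k29 with k30 | k31
          · rcases k1 with k2 | k3 <;> omega
          · rcases k1 with k2 | k3 <;> omega
      · rcases k1 with k2 | k3
        · rcases g with ⟨k10, k11⟩ | ⟨k13, k14⟩ | ⟨k16, -⟩ | ⟨-, -, k21, -⟩ | ⟨-, k27, k28, -⟩
          · omega
          · rcases k4 with k5 | k6 <;> omega
          · omega
          · omega
          · omega
        · rcases g with ⟨k10, k11⟩ | ⟨k13, k14⟩ | ⟨k16, -⟩ | ⟨-, -, k21, -⟩ | ⟨-, k27, k28, -⟩
          · omega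
          · rcases k4 with k5 | k6 <;> omega
          · omega
          · omega
          · omega
    · refine Or.inr (Or.inl ⟨a, ?_⟩)
      obtain ⟨k1, k4⟩ := c1
      clear e1
      rcases b with ⟨k34, k35, k36⟩ | ⟨k38, k39⟩
      · rcases g with ⟨k10, -⟩ | ⟨k13, -⟩ | ⟨k16, k17⟩ | ⟨-, k20, k21, k22⟩ | ⟨-, k27, k28, k29⟩
        · omega
        · omega
        · rcases k1 with k2 | k3
          · rcases k4 with k5 | k6
            · refine .inl ?_; omega
            · omega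
          · rcases k4 with k5 | k6
            · omega
            · refine .inr ?_; omega
        · rcases k22 with k23 | k24
          · omega
          · rcases k1 with k2 | k3
            · refine .inl ?_; omega
            · refine .inr ?_; omega
        · rcases k29 with k30 | k31
          · rcases k1 with k2 | k3 <;> omega
          · omega
      · rcases k1 with k2 | k3
        · rcases g with ⟨k10, k11⟩ | ⟨k13, k14⟩ | ⟨k16, -⟩ | ⟨-, -, k21, -⟩ | ⟨-, k27, k28, -⟩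
          · omega
          · rcases k4 with k5 | k6 <;> omega
          · omega
          · omega
          · omega
        · rcases g with ⟨k10, k11⟩ | ⟨k13, k14⟩ | ⟨k16, -⟩ | ⟨-, -, k21, -⟩ | ⟨-, k27, k28, -⟩
          · omega
          · rcases k4 with k5 | k6 <;> omega
          · omega
          · omega
          · omega
    · refine Or.inr (Or.inl ⟨a', ?_⟩)
      obtain ⟨k1, k4⟩ := c1
      obtain ⟨k33, k34⟩ := b
      clear e1
      rcases g with ⟨k10, -⟩ | ⟨k13, -⟩ | ⟨-, k17⟩ | ⟨-, k20, k21, k22⟩ | ⟨-, k27, k28, -⟩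
      · omega
      · omega
      · rcases k4 with k5 | k6 <;> omega
      · rcases k22 with k23 | k24
        · rcases k1 with k2 | k3
          · refine .inl ?_; omega
          · refine .inr ?_; omega
        · omega
      · rcases k1 with k2 | k3 <;> omega
    · refine Or.inr (Or.inr ⟨fun i => a (i.2 a'), ?_⟩)
      obtain ⟨k1, k4⟩ := c1
      obtain ⟨k33, k34, k35⟩ := b
      clear e1
      rcases g with ⟨-, k11⟩ | ⟨-, k14⟩ | ⟨k16, k17⟩ | ⟨-, k20, k21, k22⟩ | ⟨-, k27, k28, k29⟩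
      · omega
      · omega
      · rcases k1 with k2 | k3
        · rcases k4 with k5 | k6
          · omega
          · refine .inl ?_; omega
        · rcases k4 with k5 | k6
          · refine .inr ?_; omega
          · omega
      · rcases k22 with k23 | k24
        · rcases k1 with k2 | k3 <;> omega
        · omega
      · rcases k29 with k30 | k31
        · rcases k1 with k2 | k3
          · refine .inl ?_; omega
          · refine .inr ?_; omega
        · omega
    · refine Or.inr (Or.inr ⟨fun i => a' (i.1 a), ?_⟩)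
      obtain ⟨k1, k4⟩ := c1
      obtain ⟨k33, k34, k35⟩ := b
      clear e1
      rcases g with ⟨-, k11⟩ | ⟨-, k14⟩ | ⟨k16, k17⟩ | ⟨-, k20, k21, k22⟩ | ⟨-, k27, k28, k29⟩
      · omega
      · omega
      · rcases k1 with k2 | k3
        · rcases k4 with k5 | k6
          · omega
          · refine .inl ?_; omega
        · rcases k4 with k5 | k6
          · refine .inr ?_; omega
          · omega
      · rcases k22 with k23 | k24
        · rcases k1 with k2 | k3 <;> omega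
        · rcases k1 with k2 | k3 <;> omega
      · rcases k1 with k2 | k3
        · rcases k29 with k30 | k31
          · refine .inl ?_; omega
          · refine .inl ?_; omega
        · rcases k29 with k30 | k31
          · refine .inr ?_; omega
          · refine .inr ?_; omega

/-- The shadow of the part of the curve between the indices `i` and `j`. -/
def On (e : ℤ) (w : ℤ → Pt) (i j X Y : ℤ) : Prop :=
  (X = 2 * (w i).1 ∧ Y = 2 * (w i).2) ∨ ∃ l, i ≤ l ∧ l < j ∧ ESh e (w l) (w (l + 1)) X Y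

namespace WB0

variable {e n m : ℤ} (W : WB0 e n m) (t : Dir) (Z : Pt)

/-- The curve turned by `t` and moved to `Z`. -/
def aw (l : ℤ) : Pt := rotP t (W.w l) + Z

/-- Its words at scale `k`. -/
def aE (k c l : ℤ) : List Dir := fw k e c l (W.d l + t)

theorem aw_step (l : ℤ) : W.aw t Z (l + 1) = W.aw t Z l + stepv e (W.d l + t) := by
  rw [aw, aw, W.step, rotP_add, stepv_rot, add_right_comm]

theorem aw_stp (l : ℤ) : Stp e (W.aw t Z l) (W.aw t Z (l + 1)) := ⟨_, W.aw_step t Z l⟩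

theorem aw_inj {l l' : ℤ} (h : W.aw t Z l = W.aw t Z l') : l = l' := by
  apply W.inj
  rw [← rotP_neg_rotP t (W.w l), add_right_cancel h, rotP_neg_rotP]

theorem par (he : e = 1) (l : ℤ) : ((W.w l).1 + (W.w l).2) % 2 = 0 := by
  induction l with
  | zero => rw [W.w0]; rfl
  | succ l ih => have := (W.stp l).coord (Or.inr he); omega
  | pred l ih =>
    have := (W.stp (-(l : ℤ) - 1)).coord (Or.inr he)
    rw [sub_add_cancel] at this
    omega

theorem aw_par (he : e = 1) (l : ℤ) :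
    ((W.aw t Z l).1 + (W.aw t Z l).2 + Z.1 + Z.2) % 2 = 0 := by
  have := W.par he l
  rcases dir_cases t with rfl | rfl | rfl | rfl <;> simp [aw, rotP] <;> omega

theorem esh_lt (he : e = 0 ∨ e = 1) {l l' X Y : ℤ} (h : l < l')
    (g : ESh e (W.aw t Z l) (W.aw t Z (l + 1)) X Y)
    (g' : ESh e (W.aw t Z l') (W.aw t Z (l' + 1)) X Y) :
    X = 2 * (W.aw t Z l').1 ∧ Y = 2 * (W.aw t Z l').2 := by
  have i : ∀ a b, (W.aw t Z a).1 = (W.aw t Z b).1 → (W.aw t Z a).2 = (W.aw t Z b).2 → a = b :=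
    fun a b c d => W.aw_inj t Z (Prod.ext c d)
  rcases esh_inter he (W.aw_stp t Z l) (W.aw_stp t Z l') (fun e1 => by
    have := W.aw_par t Z e1 l; have := W.aw_par t Z e1 l'; omega) g g' with
    ⟨a | a, b | b⟩ | ⟨a, -⟩ | ⟨a, -⟩
  · exact b
  · have := i l (l' + 1) (by omega) (by omega); omega
  · exact b
  · have := i (l + 1) (l' + 1) (by omega) (by omega); omega
  · have := W.aw_inj t Z a; omega
  · have := W.aw_inj t Z a; omega

theorem esh_vertex (he : e = 0 ∨ e = 1) {l i : ℤ}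
    (g : ESh e (W.aw t Z l) (W.aw t Z (l + 1)) (2 * (W.aw t Z i).1) (2 * (W.aw t Z i).2)) :
    i = l ∨ i = l + 1 := by
  have j : ∀ a b, (W.aw t Z a).1 = (W.aw t Z b).1 → (W.aw t Z a).2 = (W.aw t Z b).2 → a = b :=
    fun a b c d => W.aw_inj t Z (Prod.ext c d)
  rcases esh_inter he (W.aw_stp t Z l) (W.aw_stp t Z i) (fun e1 => by
    have := W.aw_par t Z e1 l; have := W.aw_par t Z e1 i; omega) g (Or.inl ⟨rfl, rfl⟩) with
    ⟨a | a, -⟩ | ⟨a, -⟩ | ⟨-, a⟩
  · exact Or.inl (j _ _ (by omega) (by omega))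
  · exact Or.inr (j _ _ (by omega) (by omega))
  · exact Or.inl (W.aw_inj t Z a).symm
  · exact Or.inr (W.aw_inj t Z a).symm

theorem arc_one {k : ℤ} (hk : 2 ≤ k) (he : e = 0 ∨ e = 1) (c l : ℤ) :
    SArc k (W.aw t Z l) (W.aE t k c l) (W.aw t Z (l + 1))
      (ESh e (W.aw t Z l) (W.aw t Z (l + 1))) := by
  rw [aw_step]
  exact fw_arc hk he c l _ _

theorem arc {k : ℤ} (hk : 2 ≤ k) (he : e = 0 ∨ e = 1) (c i j : ℤ) (h : i ≤ j) :
    SArc k (W.aw t Z i) (seg (W.aE t k c) i j) (W.aw t Z j) (On e (W.aw t Z) i j) :=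
  SArc.seg (by omega) h (fun l _ _ => W.arc_one t Z hk he c l)
    (fun _ _ _ _ _ a _ b d => W.esh_lt t Z he a b d)
    fun l a _ b => by have := W.esh_vertex t Z he b; omega

theorem d_per (l : ℤ) : W.d (l + 2 * W.q) = W.d l := by
  have h := W.step (l + 2 * W.q)
  rw [add_right_comm, W.per, W.per, W.step, add_right_comm, add_right_inj] at h
  exact (stepv_inj h).symm

theorem d_turn {c i : ℤ} {B : Pt} (h0 : W.w (c - i) - B = rotP 1 (W.w (c + i) - B))
    (h1 : W.w (c - (i + 1)) - B = rotP 1 (W.w (c + (i + 1)) - B)) :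
    W.d (c + i) = W.d (c - 1 - i) + 2 + 3 := by
  have s1 := W.step (c + i)
  have s2 := W.step (c - 1 - i)
  rw [show c - 1 - i + 1 = c - i by ring] at s2
  rw [show c - (i + 1) = c - 1 - i by ring, ← add_assoc, s1, add_sub_right_comm, rotP_add, ← h0,
    s2, stepv_rot] at h1
  have h2 : stepv e (W.d (c + i) + 1) = stepv e (W.d (c - 1 - i) + 2) := by
    rw [← stepv_rot e 2, rotP2]
    simp only [Prod.ext_iff, Prod.fst_add, Prod.snd_add, Prod.fst_sub, Prod.snd_sub] at h1 ⊢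
    omega
  rw [← stepv_inj h2]
  exact (by decide : ∀ d : Dir, d = d + 1 + 3) _

theorem sym {k : ℤ} (hk : 2 ≤ k) (he : e = 0 ∨ e = 1) (c : ℤ) :
    Sym k (W.aE t k c) (W.aw t Z) W.q W.β (rotP t (n, n)) where
  qpos := W.qpos
  ne := fun l => fw_ne hk _ _ _ _
  per := fun l => by
    simp only [aE, d_per, fw, show (l + 2 * W.q + c) % 2 = (l + c) % 2 by omega]
  symA := fun i a b => by
    have h := W.d_turn (c := 0) (i := i) (B := 0)
      (by rw [zero_sub, zero_add, sub_zero, sub_zero]; exact W.symA i a b.le)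
      (by rw [zero_sub, zero_add, sub_zero, sub_zero]; exact W.symA _ (by omega) b)
    rw [zero_add, zero_sub] at h
    rw [aE, aE, fw_back k e (l' := i) (by omega), h]
    congr 1
    exact (by decide : ∀ d t : Dir, d + 2 + 3 + t = d + t + 2 + 3) _ _
  symB := fun i a b => by
    have h := W.d_turn (W.symB i a b.le) (W.symB _ (by omega) b)
    rw [aE, aE, fw_back k e (l' := W.β + i) (by omega), h]
    congr 1
    exact (by decide : ∀ d t : Dir, d + 2 + 3 + t = d + t + 2 + 3) _ _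
  pos := fun l => (W.arc_one t Z hk he c l).1
  wper := fun l => by rw [aw, aw, W.per, rotP_add, add_right_comm]

end WB0

end NP
end Pool.Agent.Lib.MP_4a7072_co
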