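import Pool.Agent.Lib.MP_4a7072_co.DW
import Pool.Agent.Lib.MP_4a7072_co.NFine

/-!
The curve of unit steps that belongs to a periodic curve of diagonal steps.
-/

set_option autoImplicit false

namespace Pool.Agent.Lib.MP_4a7072_co
namespace NP

/-- A periodic curve of unit steps in the strip `a ≤ y ≤ 2 a`. -/
structure FC (a d : ℤ) where
  r : ℤ → Dir
  f : ℤ → Pt
  Q : ℤ
  B : ℤ
  j : ℤ
  sym : Sym 1 (fun t => [r t]) f Q B (2 * a, 0)
  hQ : 2 ≤ Q
  step : ∀ t, f (t + 1) = f t + dv (r t)
  inj : ∀ t t', (f t).1 = (f t').1 → (f t).2 = (f t').2 → t = t'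
  f0 : f 0 = (0, a)
  fQ : f Q = (a, 2 * a)
  fB : f B = (2 * d, a)
  fB1 : f (B - Q) = (2 * d - a, 2 * a)
  strip : ∀ t, a ≤ (f t).2 ∧ (f t).2 ≤ 2 * a
  mA : ∀ t, (0 ≤ t → 0 ≤ (f t).1) ∧ (t ≤ 0 → (f t).1 ≤ 0) ∧ (Q ≤ t → a ≤ (f t).1) ∧
    (t ≤ -Q → (f t).1 ≤ -a) ∧ (t ≤ Q → (f t).1 ≤ a)
  mB : ∀ t, (B ≤ t → 2 * d ≤ (f t).1) ∧ (t ≤ B → (f t).1 ≤ 2 * d) ∧
    (B + Q ≤ t → 2 * d + a ≤ (f t).1) ∧ (t ≤ B - Q → (f t).1 ≤ 2 * d - a) ∧
    (t ≤ B + Q → (f t).1 ≤ 2 * d + a) ∧ (B - Q ≤ t → 2 * d - a ≤ (f t).1)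
  hj : 2 * j = B - 2 * Q
  side : ∀ t, (t < j → (f t).1 < d - a) ∧ (t = j → (f t).1 = d - a) ∧ (j < t → d - a < (f t).1)
  prev : (f (j - 1)).1 = d - a - 1 ∧ (f (j - 1)).2 = (f j).2
  nA : ∀ t, ((f t).2 = a → (f t).1 ≠ a ∧ (f t).1 ≠ a + 1) ∧ ((f t).2 = 2 * a → (f t).1 ≠ 0)
  nB : ∀ t, ((f t).2 = a → (f t).1 ≠ 2 * d - a) ∧ ((f t).2 = 2 * a → (f t).1 ≠ 2 * d)
  high : 2 * d < a → ∀ t, Q ≤ t → t ≤ Q + B → a + 2 * d ≤ (f t).2
  low : d < a → a < 2 * d → B ≤ 2 * Q ∧ ∀ t, B ≤ t → t ≤ 2 * Q → (f t).2 ≤ 2 * d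
  dg : ∀ t, Q ≤ t → t ≤ Q + B → (f j).2 < (f t).2 + d
  peak : ∀ i, 0 ≤ i → i ≤ Q → (f (B - Q + i)).1 = 2 * d + a - (f (B - Q - i)).2 ∧
    (f (B - Q + i)).2 = 3 * a - 2 * d + (f (B - Q - i)).1

namespace WB0

variable {n m : ℤ} (W : WB0 1 n m)

/-- The curve turned by an eighth of a turn and stretched. -/
def cp (l : ℤ) : Pt := ((W.w l).1 + (W.w l).2, n + (W.w l).2 - (W.w l).1)

/-- The curve of unit steps. -/
def fc (t : ℤ) : Pt := W.cp (t / 2) + (t % 2) • dv (W.d (t / 2))

theorem cp_step (l : ℤ) : W.cp (l + 1) = W.cp l + (2 : ℤ) • dv (W.d l) := by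
  rw [cp, cp, W.step]
  rcases dir_cases (W.d l) with h | h | h | h <;> rw [h] <;> ext <;> simp [stepv, dv] <;> ring

theorem fc_even (l : ℤ) : W.fc (2 * l) = W.cp l := by
  rw [fc, show 2 * l / 2 = l by omega, show 2 * l % 2 = 0 by omega, zero_smul, add_zero]

theorem fc_odd (l : ℤ) : W.fc (2 * l + 1) = W.cp l + dv (W.d l) := by
  rw [fc, show (2 * l + 1) / 2 = l by omega, show (2 * l + 1) % 2 = 1 by omega, one_smul]

theorem fc_step (t : ℤ) : W.fc (t + 1) = W.fc t + dv (W.d (t / 2)) := by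
  obtain ⟨l, rfl | rfl⟩ : ∃ l, t = 2 * l ∨ t = 2 * l + 1 := ⟨t / 2, by omega⟩
  · rw [fc_odd, fc_even, show 2 * l / 2 = l by omega]
  · rw [show 2 * l + 1 + 1 = 2 * (l + 1) by ring, fc_even, fc_odd, cp_step,
      show (2 * l + 1) / 2 = l by omega, two_smul, add_assoc]

theorem ev (l : ℤ) : (W.fc (2 * l)).1 = (W.w l).1 + (W.w l).2 ∧
    (W.fc (2 * l)).2 = n + (W.w l).2 - (W.w l).1 := by
  rw [fc_even]
  exact ⟨rfl, rfl⟩

theorem od (l : ℤ) :
    2 * (W.fc (2 * l + 1)).1 = (W.w l).1 + (W.w l).2 + ((W.w (l + 1)).1 + (W.w (l + 1)).2) ∧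
    2 * (W.fc (2 * l + 1)).2 =
      2 * n + ((W.w l).2 - (W.w l).1) + ((W.w (l + 1)).2 - (W.w (l + 1)).1) := by
  have h := W.cp_step l
  rw [fc_odd]
  simp only [cp, Prod.ext_iff, Prod.fst_add, Prod.snd_add, Prod.smul_fst, Prod.smul_snd,
    smul_eq_mul] at h ⊢
  omega

theorem stc (l : ℤ) : ((W.w (l + 1)).1 = (W.w l).1 + 1 ∨ (W.w (l + 1)).1 = (W.w l).1 - 1) ∧
    ((W.w (l + 1)).2 = (W.w l).2 + 1 ∨ (W.w (l + 1)).2 = (W.w l).2 - 1) := by
  have := (W.stp l).coord (Or.inr rfl)
  omega

theorem par1 (l : ℤ) : ((W.w l).1 + l) % 2 = 0 := by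
  induction l with
  | zero => rw [W.w0]; rfl
  | succ l ih => have := W.stc l; omega
  | pred l ih =>
    have := W.stc (-(l : ℤ) - 1)
    rw [sub_add_cancel] at this
    omega

theorem fc_inj (t t' : ℤ) (h1 : (W.fc t).1 = (W.fc t').1) (h2 : (W.fc t).2 = (W.fc t').2) :
    t = t' := by
  have i : ∀ l l', (W.w l).1 = (W.w l').1 → (W.w l).2 = (W.w l').2 → l = l' := fun l l' a b =>
    W.inj l l' (Prod.ext a b)
  obtain ⟨l, rfl | rfl⟩ : ∃ l, t = 2 * l ∨ t = 2 * l + 1 := ⟨t / 2, by omega⟩ <;>
    obtain ⟨l', rfl | rfl⟩ : ∃ l, t' = 2 * l ∨ t' = 2 * l + 1 := ⟨t' / 2, by omega⟩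
  · have := W.ev l
    have := W.ev l'
    have := i l l' (by omega) (by omega)
    omega
  · have := W.ev l
    have := W.od l'
    have := W.stc l'
    have := W.par rfl l
    have := W.par rfl l'
    omega
  · have := W.od l
    have := W.ev l'
    have := W.stc l
    have := W.par rfl l
    have := W.par rfl l'
    omega
  · have a := W.od l
    have b := W.od l'
    have sx : (W.w l).1 + (W.w (l + 1)).1 = (W.w l').1 + (W.w (l' + 1)).1 := by omega
    have sy : (W.w l).2 + (W.w (l + 1)).2 = (W.w l').2 + (W.w (l' + 1)).2 := by omega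
    clear a b h1 h2
    have key : ∀ x x1 x' x1' : ℤ, x + x1 = x' + x1' → (x1 = x + 1 ∨ x1 = x - 1) →
        (x1' = x' + 1 ∨ x1' = x' - 1) →
        x = x' ∨ (x = x1' ∧ x1 = x' ∧ (x = x' + 1 ∨ x = x' - 1)) := by
      rintro x x1 x' x1' s (c | c) (d | d)
      · exact .inl (by omega)
      · exact .inr ⟨by omega, by omega, .inr (by omega)⟩
      · exact .inr ⟨by omega, by omega, .inl (by omega)⟩
      · exact .inl (by omega)
    have e := W.par rfl l
    have g := W.par rfl l'
    rcases key _ _ _ _ sx (W.stc l).1 (W.stc l').1 with hx | hx <;>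
      rcases key _ _ _ _ sy (W.stc l).2 (W.stc l').2 with hy | hy
    · rw [i l l' hx hy]
    · exfalso
      have := hy.2.2
      clear hy sx sy
      omega
    · exfalso
      have := hx.2.2
      clear hx sx sy
      omega
    · have := i _ _ hx.1 hy.1
      have := i _ _ hx.2.1 hy.2.1
      omega

theorem fc_per (t : ℤ) : W.fc (t + 2 * (2 * W.q)) = W.fc t + (2 * n, 0) := by
  rw [fc, fc, show (t + 2 * (2 * W.q)) / 2 = t / 2 + 2 * W.q by omega,
    show (t + 2 * (2 * W.q)) % 2 = t % 2 by omega, W.d_per, cp, cp, W.per]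
  ext <;> simp <;> ring

theorem fc_sym : Sym 1 (fun t => [W.d (t / 2)]) W.fc (2 * W.q) (2 * W.β) (2 * n, 0) where
  qpos := by have := W.qpos; omega
  ne := fun l => by simp
  per := fun l => by rw [show (l + 2 * (2 * W.q)) / 2 = l / 2 + 2 * W.q by omega, W.d_per]
  symA := fun t a b => by
    have h := W.d_turn (c := 0) (i := t / 2) (B := 0)
      (by rw [zero_sub, zero_add, sub_zero, sub_zero]; exact W.symA _ (by omega) (by omega))
      (by rw [zero_sub, zero_add, sub_zero, sub_zero]; exact W.symA _ (by omega) (by omega))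
    rw [zero_add, zero_sub] at h
    rw [h, show (-1 - t) / 2 = -1 - t / 2 by omega]
    rfl
  symB := fun t a b => by
    have h := W.d_turn (W.symB (t / 2) (by omega) (by omega)) (W.symB _ (by omega) (by omega))
    rw [show (2 * W.β + t) / 2 = W.β + t / 2 by omega, h,
      show (2 * W.β - 1 - t) / 2 = W.β - 1 - t / 2 by omega]
    rfl
  pos := fun l => by rw [one_smul, one_smul, fc_step]; rfl
  wper := W.fc_per

theorem fc_mir (h : W.Mir) (t : ℤ) : (W.fc (2 * W.β - t)).1 = 2 * m - (W.fc t).1 ∧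
    (W.fc (2 * W.β - t)).2 = (W.fc t).2 := by
  obtain ⟨l, rfl | rfl⟩ : ∃ l, t = 2 * l ∨ t = 2 * l + 1 := ⟨t / 2, by omega⟩
  · have := W.ev l
    have := W.ev (W.β - l)
    have := h l
    rw [← mul_sub]
    omega
  · have := W.od l
    have e := W.od (W.β - (l + 1))
    have := h l
    have := h (l + 1)
    rw [show W.β - (l + 1) + 1 = W.β - l by ring] at e
    rw [show 2 * W.β - (2 * l + 1) = 2 * (W.β - (l + 1)) + 1 by ring]
    omega

theorem fc_symB {i : ℤ} (a : 0 ≤ i) (b : i ≤ 2 * W.q) :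
    (W.fc (2 * W.β - i)).1 = 2 * m + n - (W.fc (2 * W.β + i)).2 ∧
    (W.fc (2 * W.β - i)).2 = n - 2 * m + (W.fc (2 * W.β + i)).1 := by
  obtain ⟨l, rfl | rfl⟩ : ∃ l, i = 2 * l ∨ i = 2 * l + 1 := ⟨i / 2, by omega⟩
  · have := W.ev (W.β + l)
    have := W.ev (W.β - l)
    have := W.symB' (i := l) (by omega) (by omega)
    rw [← mul_sub, ← mul_add]
    omega
  · have e1 := W.od (W.β + l)
    have e := W.od (W.β - (l + 1))
    have := W.symB' (i := l) (by omega) (by omega)
    have := W.symB' (i := l + 1) (by omega) (by omega)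
    rw [show W.β - (l + 1) + 1 = W.β - l by ring] at e
    rw [add_assoc W.β] at e1
    rw [show 2 * W.β - (2 * l + 1) = 2 * (W.β - (l + 1)) + 1 by ring,
      show 2 * W.β + (2 * l + 1) = 2 * (W.β + l) + 1 by ring]
    omega

/-- A point with even coordinates is a point of the coarse curve. -/
theorem fc_ee (he : n % 2 = 0) (t : ℤ) (h1 : (W.fc t).1 % 2 = 0) (h2 : (W.fc t).2 % 2 = 0) :
    ∃ l, (W.fc t).1 = (W.w l).1 + (W.w l).2 ∧ (W.fc t).2 = n + (W.w l).2 - (W.w l).1 := by
  obtain ⟨l, rfl | rfl⟩ : ∃ l, t = 2 * l ∨ t = 2 * l + 1 := ⟨t / 2, by omega⟩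
  · exact ⟨l, W.ev l⟩
  · have := W.od l
    have := W.stc l
    have := W.par rfl l
    omega

theorem noA (hn : 2 < n) (l : ℤ) (h1 : (W.w l).1 + (W.w l).2 = n) (h2 : (W.w l).2 = (W.w l).1) :
    False := by
  have m := W.monoA l
  have m' := (W.monoA (l - 2 * W.q)).1
  have p := W.per1 (l - 2 * W.q)
  rw [sub_add_cancel] at p
  rcases le_total l W.q with c | c
  · have := W.symA' (i := l) (by omega) c
    have := W.kA (-l) (by omega) (by omega)
    omega
  · have s := W.symA' (i := 2 * W.q - l) (by omega) (by omega)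
    rw [neg_sub] at s
    have := W.kA (2 * W.q - l) (by omega) (by omega)
    omega

theorem noB (hn : 2 < n) (l : ℤ) (h1 : (W.w l).1 + (W.w l).2 = 2 * m - n)
    (h2 : (W.w l).2 = (W.w l).1) : False := by
  have m := W.monoB l
  have m' := (W.monoB (l + 2 * W.q)).2.1
  have p := W.per1 l
  rcases le_total l (W.β - W.q) with c | c
  · have s := W.symB' (i := l + 2 * W.q - W.β) (by omega) (by omega)
    rw [add_sub_cancel] at s
    have := W.kB (W.β - (l + 2 * W.q - W.β)) (by omega) (by omega)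
    omega
  · have s := W.symB' (i := W.β - l) (by omega) (by omega)
    rw [sub_sub_cancel] at s
    have := W.kB (W.β + (W.β - l)) (by omega) (by omega)
    omega

theorem fc_side (h : W.Mir) (hn : 0 < n) (t : ℤ) : (t < W.β - 2 * W.q → (W.fc t).1 < m - n) ∧
    (t = W.β - 2 * W.q → (W.fc t).1 = m - n) ∧ (W.β - 2 * W.q < t → m - n < (W.fc t).1) := by
  have hq := W.qpos
  have mir : ∀ t, (W.fc (2 * (W.β - 2 * W.q) - t)).1 = 2 * (m - n) - (W.fc t).1 ∧
      (W.fc (2 * (W.β - 2 * W.q) - t)).2 = (W.fc t).2 := fun t => by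
    have h1 := W.fc_mir h t
    have h2 := W.fc_per (2 * (W.β - 2 * W.q) - t)
    rw [show 2 * (W.β - 2 * W.q) - t + 2 * (2 * W.q) = 2 * W.β - t by ring] at h2
    simp only [Prod.ext_iff, Prod.fst_add, Prod.snd_add] at h2
    omega
  have eq : ∀ t, (W.fc t).1 = m - n → t = W.β - 2 * W.q := fun t e => by
    have := mir t
    have := W.fc_inj (2 * (W.β - 2 * W.q) - t) t (by omega) (by omega)
    omega
  have gt : ∀ t, W.β - 2 * W.q < t → m - n < (W.fc t).1 := fun t a => by
    by_contra c
    have k : ∀ s : ℕ, (W.fc (t + s)).1 < m - n := fun s => by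
      induction s with
      | zero => have := eq t; simp only [Nat.cast_zero, add_zero]; omega
      | succ s ih =>
        have e := eq (t + s + 1)
        have st := W.fc_step (t + s)
        rw [Nat.cast_succ, ← add_assoc]
        rcases dir_cases (W.d ((t + s) / 2)) with g | g | g | g <;> rw [g] at st <;>
          simp [Prod.ext_iff, dv] at st <;> omega
    have p := per_mul W.fc_per (m - n - (W.fc t).1) t
    have k1 := k (2 * (2 * W.q) * (m - n - (W.fc t).1)).toNat
    rw [Int.toNat_of_nonneg (by have : 0 ≤ m - n - (W.fc t).1 := by omega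
                                positivity), p] at k1
    simp only [Prod.fst_add, Prod.smul_fst, smul_eq_mul] at k1
    nlinarith
  refine ⟨fun a => ?_, fun a => ?_, gt t⟩
  · have := mir t
    have := gt (2 * (W.β - 2 * W.q) - t) (by omega)
    omega
  · have := mir t
    rw [show 2 * (W.β - 2 * W.q) - t = t by omega] at this
    omega

end WB0

theorem exists_FC (a d : ℤ) (ha : 2 < a) (hd : 0 < d) (hc : IsCoprime a d) (he : a % 2 = 0)
    (ho : d % 2 = 1) : Nonempty (FC a d) := by
  obtain ⟨⟨W, dep, big⟩, mir, dg⟩ := exists_WM a d (by omega) hc he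
  change W.Mir at mir
  change W.Dg at dg
  have hq := W.qpos
  have cs : ∀ t : ℤ, ∃ l, t = 2 * l ∨ t = 2 * l + 1 := fun t => ⟨t / 2, by omega⟩
  have pβ := W.par1 W.β
  rw [W.wβ] at pβ
  simp only at pβ
  obtain ⟨l0, hl⟩ : ∃ l0, W.β - 2 * W.q = 2 * l0 + 1 := ⟨(W.β - 2 * W.q) / 2, by omega⟩
  have side := W.fc_side mir (by omega)
  clear pβ ho
  have hj : (W.fc (W.β - 2 * W.q)).2 = a + (W.w l0).2 - (W.w l0).1 ∧
      (W.fc (W.β - 2 * W.q - 1)).1 = d - a - 1 ∧
      (W.fc (W.β - 2 * W.q - 1)).2 = a + (W.w l0).2 - (W.w l0).1 := by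
    have h1 := (side _).2.1 rfl
    have h2 := (side (W.β - 2 * W.q - 1)).1 (by omega)
    rw [hl] at h1 h2 ⊢
    rw [add_sub_cancel_right] at h2 ⊢
    have := W.ev l0
    have := W.od l0
    have := W.stc l0
    have := W.par rfl l0
    omega
  refine ⟨{
    r := fun t => W.d (t / 2)
    f := W.fc
    Q := 2 * W.q
    B := 2 * W.β
    j := W.β - 2 * W.q
    sym := W.fc_sym
    hQ := by omega
    step := W.fc_step
    inj := W.fc_inj
    f0 := ?_
    fQ := ?_
    fB := ?_
    fB1 := ?_
    strip := fun t => ?_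
    mA := fun t => ?_
    mB := fun t => ?_
    hj := by ring
    side := side
    prev := by omega
    nA := fun t => ⟨fun h => ⟨fun g => ?_, fun g => ?_⟩, fun h g => ?_⟩
    nB := fun t => ⟨fun h g => ?_, fun h g => ?_⟩
    high := fun h t b c => ?_
    low := fun h h' => ⟨by have := W.ord2 h h'; omega, fun t b c => ?_⟩
    dg := fun t b c => ?_
    peak := fun i b c => ?_ }⟩
  · have := W.fc_even 0
    rw [mul_zero] at this
    rw [this, WB0.cp, W.w0]
    simp
  · rw [W.fc_even, WB0.cp, W.wq]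
    ext <;> simp; ring
  · rw [W.fc_even, WB0.cp, W.wβ]
    ext <;> simp; ring
  · have := W.symB' W.qpos.le le_rfl
    have h := W.per1 (W.β - W.q)
    rw [show W.β - W.q + 2 * W.q = W.β + W.q by ring] at h
    rw [← mul_sub, W.fc_even, WB0.cp]
    ext <;> simp only <;> omega
  · obtain ⟨l, rfl | rfl⟩ := cs t
    · have := W.ev l
      have := W.strip l
      omega
    · have := W.od l
      have := W.strip l
      have := W.strip (l + 1)
      omega
  · obtain ⟨l, rfl | rfl⟩ := cs t
    · have e := (W.ev l).1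
      have m := W.monoA l
      refine ⟨fun _ => ?_, fun _ => ?_, fun _ => ?_, fun _ => ?_, fun _ => ?_⟩
      · have := m.1 (by clear m; omega)
        clear m; omega
      · have := m.2.1 (by clear m; omega)
        clear m; omega
      · have := m.2.2.1 (by clear m; omega)
        clear m; omega
      · have := m.2.2.2.1 (by clear m; omega)
        clear m; omega
      · have := m.2.2.2.2.1 (by clear m; omega)
        clear m; omega
    · have e := (W.od l).1
      have m := W.monoA l
      have m' := W.monoA (l + 1)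
      refine ⟨fun _ => ?_, fun _ => ?_, fun _ => ?_, fun _ => ?_, fun _ => ?_⟩
      · have := m.1 (by clear m m'; omega)
        have := m'.1 (by clear m m'; omega)
        clear m m'; omega
      · have := m.2.1 (by clear m m'; omega)
        have := m'.2.1 (by clear m m'; omega)
        clear m m'; omega
      · have := m.2.2.1 (by clear m m'; omega)
        have := m'.2.2.1 (by clear m m'; omega)
        clear m m'; omega
      · have := m.2.2.2.1 (by clear m m'; omega)
        have := m'.2.2.2.1 (by clear m m'; omega)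
        clear m m'; omega
      · have := m.2.2.2.2.1 (by clear m m'; omega)
        have := m'.2.2.2.2.1 (by clear m m'; omega)
        clear m m'; omega
  · obtain ⟨l, rfl | rfl⟩ := cs t
    · have e := (W.ev l).1
      have m := W.monoB l
      refine ⟨fun _ => ?_, fun _ => ?_, fun _ => ?_, fun _ => ?_, fun _ => ?_, fun _ => ?_⟩
      · have := m.1 (by clear m; omega)
        clear m; omega
      · have := m.2.1 (by clear m; omega)
        clear m; omega
      · have := m.2.2.1 (by clear m; omega)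
        clear m; omega
      · have := m.2.2.2.1 (by clear m; omega)
        clear m; omega
      · have := m.2.2.2.2.1 (by clear m; omega)
        clear m; omega
      · have := m.2.2.2.2.2 (by clear m; omega)
        clear m; omega
    · have e := (W.od l).1
      have m := W.monoB l
      have m' := W.monoB (l + 1)
      refine ⟨fun _ => ?_, fun _ => ?_, fun _ => ?_, fun _ => ?_, fun _ => ?_, fun _ => ?_⟩
      · have := m.1 (by clear m m'; omega)
        have := m'.1 (by clear m m'; omega)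
        clear m m'; omega
      · have := m.2.1 (by clear m m'; omega)
        have := m'.2.1 (by clear m m'; omega)
        clear m m'; omega
      · have := m.2.2.1 (by clear m m'; omega)
        have := m'.2.2.1 (by clear m m'; omega)
        clear m m'; omega
      · have := m.2.2.2.1 (by clear m m'; omega)
        have := m'.2.2.2.1 (by clear m m'; omega)
        clear m m'; omega
      · have := m.2.2.2.2.1 (by clear m m'; omega)
        have := m'.2.2.2.2.1 (by clear m m'; omega)
        clear m m'; omega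
      · have := m.2.2.2.2.2 (by clear m m'; omega)
        have := m'.2.2.2.2.2 (by clear m m'; omega)
        clear m m'; omega
  · obtain ⟨l, h1⟩ := W.fc_ee he t (by omega) (by omega)
    exact W.noA ha l (by omega) (by omega)
  · obtain ⟨l, rfl | rfl⟩ := cs t
    · have := W.ev l
      have := W.par rfl l
      omega
    · have := W.od l
      have := W.stc l
      have := W.par rfl l
      rcases le_total (W.w l).1 (W.w (l + 1)).1 with c | c
      · exact W.noA ha l (by omega) (by omega)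
      · exact W.noA ha (l + 1) (by omega) (by omega)
  · obtain ⟨l, h1⟩ := W.fc_ee he t (by omega) (by omega)
    have := W.kA l (by omega) (by omega)
    omega
  · obtain ⟨l, h1⟩ := W.fc_ee he t (by omega) (by omega)
    exact W.noB ha l (by omega) (by omega)
  · obtain ⟨l, h1⟩ := W.fc_ee he t (by omega) (by omega)
    have := W.kB l (by omega) (by omega)
    omega
  · obtain ⟨l, rfl | rfl⟩ := cs t
    · have := W.ev l
      have := W.high hd h (l := l) (by omega) (by omega)
      omega
    · have := W.od l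
      have := W.high hd h (l := l) (by omega) (by omega)
      have := W.high hd h (l := l + 1) (by omega) (by omega)
      omega
  · obtain ⟨l, rfl | rfl⟩ := cs t
    · have := W.ev l
      have := W.low h h' (l := l) (by omega) (by omega)
      omega
    · have := W.od l
      have := W.low h h' (l := l) (by omega) (by omega)
      have := W.low h h' (l := l + 1) (by omega) (by omega)
      omega
  · have p := W.per1 l0
    obtain ⟨l, rfl | rfl⟩ := cs t
    · have := W.ev l
      have := dg hd l (l0 + 2 * W.q) (by omega) (by omega) (by omega)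
      omega
    · have := W.od l
      have := dg hd l (l0 + 2 * W.q) (by omega) (by omega) (by omega)
      have := dg hd (l + 1) (l0 + 2 * W.q) (by omega) (by omega) (by omega)
      omega
  · have h1 := W.fc_symB (i := 2 * W.q - i) (by omega) (by omega)
    have h2 := W.fc_per (2 * W.β - 2 * W.q - i)
    rw [show 2 * W.β - (2 * W.q - i) = 2 * W.β - 2 * W.q + i by ring,
      show 2 * W.β + (2 * W.q - i) = 2 * W.β - 2 * W.q - i + 2 * (2 * W.q) by ring, h2] at h1
    simp only [Prod.fst_add, Prod.snd_add] at h1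
    omega

end NP
end Pool.Agent.Lib.MP_4a7072_co
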