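import Pool.Agent.Lib.MP_4a7072_co.DWords
import Pool.Agent.Lib.MP_4a7072_co.DFine

/-!
Existence of the design for an even shorter leg.
-/

set_option autoImplicit false
set_option linter.unnecessarySeqFocus false

namespace Pool.Agent.Lib.MP_4a7072_co
namespace NP

namespace FC

variable {a d : ℤ} (C : FC a d)

/-- The point `(X, Y)` lies on the curve between the indices `i` and `j`. -/
def On (i j X Y : ℤ) : Prop := ∃ t, i ≤ t ∧ t ≤ j ∧ (C.f t).1 = X ∧ (C.f t).2 = Y

theorem arc {i j : ℤ} (h : i ≤ j) :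
    CArc (C.f i) (seg (fun t => [C.r t]) i j) (C.f j) (C.On i j) := by
  induction j, h using Int.leInduction with
  | base =>
    rw [seg_self]
    exact Arc.nil ⟨i, le_rfl, le_rfl, rfl, rfl⟩
  | succ j hj ih =>
    rw [seg_succ _ hj]
    have s := C.step j
    have s' := s
    simp only [Prod.ext_iff, Prod.fst_add, Prod.snd_add] at s'
    refine (ih.append (CArc.one _ _) ?_).mv rfl s.symm ?_
    · rintro X Y ⟨t, a, b, c, e⟩ (g | g)
      · exact g
      · have := C.inj t (j + 1) (by omega) (by omega)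
        omega
    · rintro X Y (⟨t, a, b, c⟩ | g | g)
      · exact ⟨t, a, by omega, c⟩
      · exact ⟨j, hj, by omega, g.1.symm, g.2.symm⟩
      · exact ⟨j + 1, by omega, le_rfl, by omega, by omega⟩

theorem per (t : ℤ) : (C.f (t + 2 * C.Q)).1 = (C.f t).1 + 2 * a ∧
    (C.f (t + 2 * C.Q)).2 = (C.f t).2 := by
  rw [C.sym.wper]
  simp

theorem per' (t : ℤ) : (C.f (t - 2 * C.Q)).1 = (C.f t).1 - 2 * a ∧
    (C.f (t - 2 * C.Q)).2 = (C.f t).2 := by
  have := C.per (t - 2 * C.Q)
  rw [sub_add_cancel] at this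
  omega

theorem fold {t t' s : ℤ} (h : t ≤ C.B - C.Q) (h' : t' ≤ C.B - C.Q)
    (e : (C.f t).1 = 2 * d - a - s ∧ (C.f t).2 = 2 * a)
    (e' : (C.f t').1 = 2 * d - a ∧ (C.f t').2 = 2 * a - s) : s = 0 := by
  by_cases c : C.B - 2 * C.Q ≤ t
  · have p := C.peak (C.B - C.Q - t) (by omega) (by omega)
    rw [sub_sub_cancel] at p
    have := C.inj t' (C.B - C.Q + (C.B - C.Q - t)) (by omega) (by omega)
    have b := C.fB1
    rw [show C.B - C.Q = t by omega, Prod.ext_iff] at b
    simp only at b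
    omega
  · have := C.per t
    have := (C.mB (t + 2 * C.Q)).2.1 (by omega)
    have := C.strip t'
    have := (C.nB (t + 2 * C.Q)).2 (by omega)
    omega

end FC

theorem mk7 (p : P7) (C : FC p.a (p.b - p.a)) (J : ℤ) (ho : p.b % 2 = 1) (he : p.a % 4 = 0)
    (hk : (p.k = 1 ∧ J = C.j ∧ (C.f J).2 = p.a + p.g ∧
        ∀ t, (C.f t).1 = p.b - 2 * p.a - 1 → (C.f t).2 ≠ p.a) ∨
      (p.k ≠ 1 ∧ (C.f J).1 = p.b - 2 * p.a - 1 ∧ (C.f J).2 = p.a ∧ (p.k = 2 ↔ (C.f C.j).2 = p.a) ∧
        3 * p.a < 2 * p.b))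
    (hl : ∀ t, J ≤ t → p.lam ≤ (C.f t).1) (hB : p.b < 2 * p.a → 3 * p.a < 2 * p.b → C.B - 2 * C.Q ≤ J) :
    Nonempty (D7 p) := by
  have u := p.aux
  have hk' := p.hk
  have hQ := C.hQ
  have hj := C.hj
  have sj := (C.side C.j).2.1 rfl
  have Jj : J ≤ C.j ∧ (p.k ≠ 1 → J < C.j) := by
    have := C.side J
    omega
  have fJ : (p.k = 1 ∧ C.f J = (p.b - 2 * p.a, p.a + p.g)) ∨
      (p.k ≠ 1 ∧ C.f J = (p.b - 2 * p.a - 1, p.a)) := by
    rcases hk with ⟨k, rfl, h, -⟩ | ⟨k, h, h', -⟩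
    · exact Or.inl ⟨k, Prod.ext (by simp only; omega) h⟩
    · exact Or.inr ⟨k, Prod.ext h h'⟩
  have XJ : (p.k = 1 ∧ (C.f J).1 = p.b - 2 * p.a ∧ (C.f J).2 = p.a + p.g) ∨
      (p.k ≠ 1 ∧ (C.f J).1 = p.b - 2 * p.a - 1 ∧ (C.f J).2 = p.a) :=
    fJ.imp (fun h => ⟨h.1, by rw [h.2], by rw [h.2]⟩) fun h => ⟨h.1, by rw [h.2], by rw [h.2]⟩
  have f0 : (C.f 0).1 = 0 ∧ (C.f 0).2 = p.a := by rw [C.f0]; exact ⟨rfl, rfl⟩
  have jB : C.j < C.B - C.Q ∧ C.j < C.Q := by
    have := C.mA C.j
    have := C.mB C.j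
    omega
  have hJ : -C.Q < J := by
    have := C.mA J
    have := p.hε
    omega
  have B0 : 0 < C.B := by
    have h := (C.mA C.B).2.1
    rw [C.fB] at h
    simp only at h
    omega
  have sJ : (p.b < 2 * p.a ∧ J < 0) ∨ (p.b = 2 * p.a + 1 ∧ J = 0) ∨ (2 * p.a + 1 < p.b ∧ 0 < J) := by
    have m := C.mA J
    rcases p.hb2 with h | h | h
    · exact Or.inl (by omega)
    · refine Or.inr (Or.inl ⟨h, ?_⟩)
      rcases hk with ⟨-, -, -, g⟩ | g
      · exact absurd f0.2 (g 0 (by omega))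
      · exact C.inj _ _ (by omega) (by omega)
    · exact Or.inr (Or.inr (by omega))
  obtain ⟨L, x, y, M1, M2, w⟩ := p.exists_wd _ fJ
  have eg : ∀ t, J ≤ t → t ≤ C.B + C.Q → p.EG (C.f t).1 (C.f t).2 := fun t a b => by
    have s := C.side t
    have s' := C.side (t - 2 * C.Q)
    have e := C.per' t
    have st := C.strip t
    refine ⟨?_, ?_, ?_, ?_, ?_⟩
    · have := hl t a
      have := C.mB t
      omega
    · by_cases c : t = J
      · rw [c]; omega
      · omega
    · by_cases c : t = C.j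
      · rw [c]; rcases hk with ⟨-, rfl, -⟩ | h <;> omega
      · by_cases c' : t - 2 * C.Q = C.j
        · rw [c'] at e; rcases hk with ⟨-, rfl, -⟩ | h <;> omega
        · omega
    · have := (C.nA t).1
      omega
    · have := (C.nA t).1
      have := C.mA t
      have := p.hε
      have := fun h => C.high h t
      omega
  have ts : ∀ X Y, C.On J (C.B - C.Q) X Y ∨ (X = p.b - 2 * p.a ∧ p.a ≤ Y ∧ Y ≤ p.a + p.g) →
      p.ET X Y := by
    rintro X Y (⟨t, a, b, rfl, rfl⟩ | h)
    · have := hl t a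
      have := C.mB t
      have := C.strip t
      exact ⟨by omega⟩
    · exact ⟨by omega⟩
  have on : ∀ X Y, C.On J (C.B - C.Q) X Y ∨ (X = p.b - 2 * p.a ∧ p.a ≤ Y ∧ Y ≤ p.a + p.g) →
      X = 2 * p.b - 3 * p.a ∨ Y = 2 * p.a → C.On J (C.B - C.Q) X Y := by
    rintro X Y (h | h) g
    · exact h
    · exact ⟨J, le_rfl, by omega, by omega, by omega⟩
  have dg : ∀ Y, C.On J (C.B - C.Q) (2 * p.b - 3 * p.a) Y → (C.f C.j).2 < Y + (p.b - p.a) := by
    rintro Y ⟨t, a, b, c, rfl⟩
    have := C.side t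
    have := C.dg (t + 2 * C.Q) (by omega) (by omega)
    have := C.per t
    omega
  have lo : p.b < 2 * p.a → 3 * p.a < 2 * p.b → ∀ t, J ≤ t → t ≤ C.j →
      (C.f t).2 ≤ 2 * (p.b - p.a) := fun h h' t a b => by
    obtain ⟨h1, h2⟩ := C.low (by omega) (by omega)
    have := hB h h'
    have := h2 (t + 2 * C.Q) (by omega) (by omega)
    have := C.per t
    omega
  have b1 : C.f (C.B - C.Q) = (2 * p.b - 3 * p.a, 2 * p.a) := by
    rw [C.fB1]; ext <;> simp only; ring
  have aZ := (C.arc (show J ≤ C.B - C.Q by omega)).mv rfl b1 fun _ _ h => h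
  obtain ⟨T, kind, aT⟩ : ∃ T, ((p.k = 1 ∧ x = [] ∧ y ≠ [] ∧
      T = y ++ seg (fun t => [C.r t]) J (C.B - C.Q)) ∨
      (p.k = 2 ∧ y = [] ∧ x ≠ [] ∧ T ≠ [] ∧ seg (fun t => [C.r t]) J (C.B - C.Q) = x ++ T) ∨
      (p.k = 3 ∧ y = [] ∧ x ≠ [] ∧ T = back 0 x ++ seg (fun t => [C.r t]) J (C.B - C.Q))) ∧
      CArc (p.b - 2 * p.a, p.a) T (2 * p.b - 3 * p.a, 2 * p.a) fun X Y =>
        C.On J (C.B - C.Q) X Y ∨ (X = p.b - 2 * p.a ∧ p.a ≤ Y ∧ Y ≤ p.a + p.g) := by
    rcases w.hx with ⟨k, hx⟩ | ⟨k, hx⟩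
    · have e := (fJ.resolve_right (by omega)).2
      refine ⟨_, Or.inl ⟨k, hx, ?_, rfl⟩, ?_⟩
      · rw [w.hy]
        simp only [ne_eq, List.replicate_eq_nil_iff]
        omega
      · rw [w.hy]
        refine (((p.arc_leg (by omega)).mv rfl e.symm fun _ _ h => h).append aZ ?_).mono
          fun X Y h => h.symm
        rintro X Y h ⟨t, a, b, c, g⟩
        have := C.side t
        obtain rfl : t = J := by omega
        omega
    have hy : y = [] := by rw [w.hy, show p.g.toNat = 0 by omega]; rfl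
    by_cases k2 : p.k = 2
    · have pr := C.prev
      obtain rfl : J = C.j - 1 := C.inj _ _ (by omega) (by omega)
      have s := C.step (C.j - 1)
      rw [sub_add_cancel, Prod.ext_iff] at s
      have r0 : C.r (C.j - 1) = 0 := by
        rcases dir_cases (C.r (C.j - 1)) with h | h | h | h
        · exact h
        all_goals
          rw [h] at s
          simp [dv] at s
          omega
      have a := C.arc jB.1.le
      refine ⟨_, Or.inr (Or.inl ⟨k2, hy, by simp [hx], fun h => ?_, ?_⟩),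
        a.mv (Prod.ext (by simp only; omega) (by simp only; omega)) b1
          fun X Y ⟨t, a, h⟩ => Or.inl ⟨t, by omega, h⟩⟩
      · have := a.1
        rw [h] at this
        have := C.inj _ _ (congrArg Prod.fst this) (congrArg Prod.snd this)
        omega
      · have := seg_one (fun t => [C.r t]) (C.j - 1)
        rw [sub_add_cancel] at this
        rw [seg_append _ (j := C.j) (by omega) jB.1.le, this, r0, hx]
    · refine ⟨_, Or.inr (Or.inr ⟨by omega, hy, by simp [hx], rfl⟩), ?_⟩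
      rw [hx]
      have a : CArc (p.b - 2 * p.a, p.a) (back 0 [0]) (C.f J) fun X Y =>
          Y = p.a ∧ (X = p.b - 2 * p.a ∨ X = p.b - 2 * p.a - 1) :=
        (CArc.one _ 2).mv rfl (by ext <;> simp [dv] <;> omega) fun X Y h => by
          simp [dv] at h
          omega
      refine (a.append aZ ?_).mono ?_
      · rintro X Y h ⟨t, a, b, c, g⟩
        have := C.side t
        by_cases i : t = C.j
        · rw [i] at g
          omega
        · omega
      · rintro X Y (h | h)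
        · by_cases i : X = p.b - 2 * p.a
          · exact Or.inr (by omega)
          · exact Or.inl ⟨J, le_rfl, by omega, by omega, by omega⟩
        · exact Or.inl h
  refine ⟨{
    E := fun t => [C.r t]
    f := C.f
    Q := C.Q
    B := C.B
    J := J
    L := L
    x := x
    y := y
    T := T
    M1 := M1
    M2 := M2
    R := stair (p.a - 1 - p.ε).toNat
    TS := fun X Y => C.On J (C.B - C.Q) X Y ∨ (X = p.b - 2 * p.a ∧ p.a ≤ Y ∧ Y ≤ p.a + p.g)
    GS := C.On J (C.B + C.Q)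
    sym := C.sym
    hQ := hQ
    f0 := C.f0
    fQ := C.fQ
    fB := by rw [C.fB]; ext <;> simp only; ring
    fB1 := b1
    hJ := by omega
    sJ := sJ
    fJ := fJ
    kind := kind
    L_ne := w.L_ne
    M1_ne := w.M1_ne
    M2_ne := w.M2_ne
    R_ne := by obtain ⟨R, h⟩ := stair_cons (p.a - 1 - p.ε).toNat; simp [h]
    eM := w.eM
    R0 := stair_cons _
    arcL := w.arcL
    endL := w.endL
    arcS := w.arcS
    arcM := w.arcM
    arcM1 := w.arcM1
    arcM2 := w.arcM2
    arcY := w.arcY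
    arcR := p.arcR
    arcV := (C.arc (by omega)).mv rfl (C.sym.wper J) ?_
    arcG := (C.arc (by omega)).mv rfl ?_ fun _ _ h => h
    arcT := aT
    gs := ?_
    ts := ts
    n1 := fun X Y h g => ?_
    n2 := fun X Y h g => ?_
    fold1 := fun X Y h g e => ?_
    fold2 := fun X Y h g e => ?_ }⟩
  · rintro _ _ ⟨t, a, b, rfl, rfl⟩
    have e := C.per' t
    have s' := C.side (t - 2 * C.Q)
    refine ⟨eg t a (by omega), ?_, ?_, ?_, ?_⟩
    · by_cases c : t - 2 * C.Q = J
      · rw [c] at e; omega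
      · omega
    · rcases hk with ⟨-, -, -, h⟩ | h
      · have := h (t - 2 * C.Q)
        omega
      · omega
    · have := (C.nA t).2
      have := (C.nA (t - 2 * C.Q)).2
      omega
    · have := C.inj t 0
      omega
  · have := C.per (C.B - C.Q)
    rw [show C.B - C.Q + 2 * C.Q = C.B + C.Q by ring, b1] at this
    exact Prod.ext (by simp only at this ⊢; omega) this.2
  · rintro _ _ ⟨t, a, b, rfl, rfl⟩
    exact eg t a b
  · obtain ⟨t, a, b, c, e⟩ := g
    have l := (ts X Y h).lin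
    have st := C.strip t
    have s := C.side t
    by_cases i : 3 * p.a < 2 * p.b
    · have := lo (by omega) i t a (by omega)
      omega
    · obtain rfl : t = C.j := by omega
      have := dg Y (by
        have := on X Y h (by omega)
        rwa [show X = 2 * p.b - 3 * p.a by omega] at this)
      omega
  · have l := (ts X Y h).lin
    have g1 := g.lin
    have g2 := g.d0
    obtain ⟨k, rfl, e, -⟩ := hk.resolve_right (by omega)
    by_cases i : 3 * p.a < 2 * p.b
    · have := lo (by omega) i _ le_rfl le_rfl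
      omega
    · have := dg Y (by
        have := on X Y h (by omega)
        rwa [show X = 2 * p.b - 3 * p.a by omega] at this)
      omega
  · obtain ⟨t, -, a, b⟩ := on _ _ h (Or.inr rfl)
    obtain ⟨t', -, a', b'⟩ := on _ _ g (Or.inl rfl)
    have := C.fold (s := 2 * p.a - Y) a a' (by omega) (by omega)
    omega
  · obtain ⟨t, -, a, b⟩ := h
    obtain ⟨t', -, a', b'⟩ := on _ _ g (Or.inl rfl)
    have := C.per' t
    have := C.fold (t := t - 2 * C.Q) (s := 2 * p.a - Y) (by omega) a' (by omega) (by omega)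
    omega

theorem exists_D7 (a b : ℤ) (ha : 0 < a) (hab : a < b) (hb : b < 3 * a) (hc : IsCoprime a b)
    (he : a % 4 = 0) (ho : b % 2 = 1) : ∃ p : P7, p.a = a ∧ p.b = b ∧ Nonempty (D7 p) := by
  obtain ⟨C⟩ := exists_FC a (b - a) (by omega) (by omega)
    (by simpa [sub_eq_add_neg] using hc.add_mul_left_right (-1)) (by omega) (by omega)
  have hQ := C.hQ
  have hj := C.hj
  by_cases h : ∃ J, (C.f J).1 = b - 2 * a - 1 ∧ (C.f J).2 = a
  · obtain ⟨J, h1, h2⟩ := h
    have e := C.per J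
    have n := (C.nA (J + 2 * C.Q)).1 (by omega)
    have d3 : a + 3 ≤ b := by omega
    have d2 : 3 * a < 2 * b := by
      by_contra c
      have := C.mA (J + 2 * C.Q)
      have := C.mB (J + 2 * C.Q)
      have := C.high (by omega) (J + 2 * C.Q) (by omega) (by omega)
      omega
    have hB : b < 2 * a → C.B - 2 * C.Q ≤ J := fun g => by
      by_contra c
      have := C.mB (J + 2 * C.Q)
      have f := C.fB
      rw [Prod.ext_iff] at f
      simp only at f
      have := C.inj (J + 2 * C.Q) C.B (by omega) (by omega)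
      omega
    obtain ⟨lam, l1, l2, l3⟩ : ∃ lam, lam < b - 2 * a ∧
        (-a + 1 + 1 ≤ lam ∧ 2 * (b - 2 * a - lam) < a ∧ (b < 2 * a ∨ 0 ≤ lam)) ∧
        ∀ t, J ≤ t → lam ≤ (C.f t).1 := by
      by_cases g : b < 2 * a
      · refine ⟨2 * b - 4 * a, by omega, by omega, fun t c => ?_⟩
        have := hB g
        have := C.per t
        have := (C.mB (t + 2 * C.Q)).1 (by omega)
        omega
      by_cases g' : 2 * b < 5 * a
      · refine ⟨0, by omega, by omega, fun t c => (C.mA t).1 ?_⟩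
        by_contra i
        have := (C.mA J).2.1 (by omega)
        have f := C.f0
        rw [Prod.ext_iff] at f
        simp only at f
        have := C.inj J 0 (by omega) (by omega)
        omega
      · refine ⟨2 * b - 5 * a, by omega, by omega, fun t c => ?_⟩
        have := (C.nB (J + 2 * C.Q)).1 (by omega)
        have := C.mB (J + 2 * C.Q)
        have := C.per t
        have := (C.mB (t + 2 * C.Q)).2.2.2.2.2 (by omega)
        omega
    obtain ⟨k, k1, k2⟩ : ∃ k : ℤ, (k = 2 ∨ k = 3) ∧ (k = 2 ↔ (C.f C.j).2 = a) := by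
      by_cases g : (C.f C.j).2 = a
      · exact ⟨2, Or.inl rfl, iff_of_true rfl g⟩
      · exact ⟨3, Or.inr rfl, iff_of_false (by decide) g⟩
    exact ⟨⟨a, b, 0, lam, 1, k, by omega, hab, hb, by omega, Or.inr ⟨rfl, d3⟩,
      Or.inr ⟨k1, rfl, rfl, l1⟩, l2⟩, rfl, rfl,
      mk7 _ C J ho he (Or.inr ⟨by simp only; omega, h1, h2, k2, d2⟩) l3 fun g _ => hB g⟩
  · have pr := C.prev
    have st := C.strip C.j
    have h0 : (C.f C.j).2 ≠ a := fun g => h ⟨C.j - 1, by omega, by omega⟩
    obtain ⟨ε, hε⟩ : ∃ ε : ℤ, (ε = 0 ∧ b = a + 1) ∨ (ε = 1 ∧ a + 3 ≤ b) := by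
      by_cases g : b = a + 1
      · exact ⟨0, Or.inl ⟨rfl, g⟩⟩
      · exact ⟨1, Or.inr ⟨rfl, by omega⟩⟩
    refine ⟨⟨a, b, (C.f C.j).2 - a, b - 2 * a, ε, 1, by omega, hab, hb, by omega, hε,
      Or.inl ⟨rfl, by omega, by omega, rfl⟩, by omega⟩, rfl, rfl,
      mk7 _ C C.j ho he (Or.inl ⟨rfl, rfl, by simp only; omega, fun t c g => h ⟨t, c, g⟩⟩)
        (fun t c => ?_) fun g g' => ?_⟩
    · have := C.side t
      simp only
      omega
    · have := (C.low (by simp only at g; omega) (by simp only at g'; omega)).1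
      omega

theorem twoPiece_even (a b c : ℕ) (ha : 0 < a) (hab : a < b) (hb : b < 3 * a)
    (h : a ^ 2 + b ^ 2 = c ^ 2) (hc : Nat.gcd a b = 1) (he : a % 2 = 0) :
    TwoPieceDissection a b c := by
  have ho : b % 2 = 1 := by
    by_contra g
    have := Nat.dvd_gcd (Nat.dvd_of_mod_eq_zero he) (Nat.dvd_of_mod_eq_zero (show b % 2 = 0 by omega))
    rw [hc] at this
    omega
  have h4 : a % 4 = 0 := by
    by_contra g
    have h8 : (a ^ 2 + b ^ 2) % 8 = c ^ 2 % 8 := by rw [h]
    rw [Nat.add_mod, Nat.pow_mod a, Nat.pow_mod b, Nat.pow_mod c] at h8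
    have ha8 : a % 8 = 2 ∨ a % 8 = 6 := by omega
    have hb8 : b % 8 = 1 ∨ b % 8 = 3 ∨ b % 8 = 5 ∨ b % 8 = 7 := by omega
    have hc8 : c % 8 < 8 := Nat.mod_lt _ (by norm_num)
    generalize c % 8 = r at h8 hc8
    rcases ha8 with e | e <;> rcases hb8 with f | f | f | f <;> rw [e, f] at h8 <;>
      interval_cases r <;> simp at h8
  obtain ⟨p, e1, e2, ⟨D⟩⟩ := exists_D7 a b (by omega) (by omega) (by omega)
    (Nat.isCoprime_iff_coprime.2 hc) (by omega) (by omega)
  exact D.twoPiece e1 e2 h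

end NP
end Pool.Agent.Lib.MP_4a7072_co
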