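import Pool.Agent.Lib.MP_4a7072_co.DEnv

/-!
The vertices of the three lattices are marked or lie outside.
-/

set_option autoImplicit false
set_option linter.unnecessarySeqFocus false

namespace Pool.Agent.Lib.MP_4a7072_co
namespace NP

section Rays

variable {A : ℤ → ℤ → Prop} {X Y : ℤ}

theorem OutE.step (d : Dir) (h : ¬A X Y) (ho : OutE A (X + (dv d).1) (Y + (dv d).2)) :
    OutE A X Y :=
  fun P w hc hA => Out.step hc (fun m => h (hA _ m)) (d := d) (ho P w hc hA)

theorem OutE.rayE (h : ∀ X', X ≤ X' → ¬A X' Y) : OutE A X Y := fun _ _ hc hA =>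
  out_of_region hc (fun W => X ≤ W.1 ∧ W.2 = Y) 0 (fun W a m => h _ a.1 (a.2 ▸ hA W m))
    (fun W a => .inl (by simp [dv]; omega)) ⟨le_rfl, rfl⟩

theorem OutE.rayN (h : ∀ Y', Y ≤ Y' → ¬A X Y') : OutE A X Y := fun _ _ hc hA =>
  out_of_region hc (fun W => Y ≤ W.2 ∧ W.1 = X) 1 (fun W a m => h _ a.1 (a.2 ▸ hA W m))
    (fun W a => .inl (by simp [dv]; omega)) ⟨le_rfl, rfl⟩

theorem OutE.rayW (h : ∀ X', X' ≤ X → ¬A X' Y) : OutE A X Y := fun _ _ hc hA =>
  out_of_region hc (fun W => W.1 ≤ X ∧ W.2 = Y) 2 (fun W a m => h _ a.1 (a.2 ▸ hA W m))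
    (fun W a => .inl (by simp [dv]; omega)) ⟨le_rfl, rfl⟩

theorem OutE.rayS (h : ∀ Y', Y' ≤ Y → ¬A X Y') : OutE A X Y := fun _ _ hc hA =>
  out_of_region hc (fun W => W.2 ≤ Y ∧ W.1 = X) 3 (fun W a m => h _ a.1 (a.2 ▸ hA W m))
    (fun W a => .inl (by simp [dv]; omega)) ⟨le_rfl, rfl⟩

theorem OutE.mono {B : ℤ → ℤ → Prop} (h : OutE A X Y) (hB : ∀ X Y, B X Y → A X Y) : OutE B X Y :=
  fun P w hc hA => h P w hc fun z hz => hB _ _ (hA z hz)

end Rays

namespace P7

variable {p : P7} {X Y : ℤ}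

/-! ### Points that do not lie on a quarter of the small piece -/

theorem nq1 (h : p.EQ X Y) : ¬(2 * p.a ≤ Y ∧ (2 * p.a < Y ∨ X = 0 ∨ X = 2 * p.a)) := by
  have := p.aux
  have := p.hb2
  rcases h with h | h | h
  · have := h.lin; have := h.d0; omega
  · have := h.lin; have := h.d7; omega
  · have := h.lin; have := h.d0; omega

theorem nq2 (h : p.EQ X Y) (g : X ≤ -p.a) : X = -p.a ∧ Y = p.a := by
  have := p.aux
  rcases h with h | h | h
  · have := h.lin; omega
  · have := h.lin; omega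
  · have := h.lin; have := h.d0; have := h.d1; omega

theorem nq3 (h : p.EQ X Y) (hb : 2 * p.a + 1 < p.b)
    (g : p.a ≤ Y ∧ (X = -1 ∨ (X = 0 ∧ Y = p.a))) : False := by
  have := p.aux
  have := p.hb2
  have := p.hl
  rcases h with h | h | h
  · have := h.lin; omega
  · have := h.lin; have := h.d8; omega
  · have := h.lin; have := h.d0; have := h.d2; omega

theorem nq4 (h : p.EQ X Y) (hk : p.k ≠ 1) : X < p.b := by
  have := p.aux
  rcases h with h | h | h
  · have := h.d3; omega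
  · have := h.d5; omega
  · have := h.lin; omega

/-- A rough description of the free boundary of the small piece. -/
theorem Eα.rough (h : p.Eα X Y) : p.EQ X Y ∨ p.EQ Y (-X) ∨ (p.EQ (-X) (-Y) ∧ X ≤ p.a - 1 - p.ε) ∨
    (0 ≤ X ∧ -p.a ≤ Y ∧ Y < p.a ∧ X ≤ p.a - p.ε ∧ (X < p.a - p.ε ∨ Y = p.a - 1 - p.ε) ∧
      (Y = -p.a → X = p.a - 1) ∧ (Y < 0 → X + Y ≤ 0)) := by
  have := p.aux
  rcases h with h | h | h | h | h | h | h
  · exact .inl (E0.eq (.inl h))
  · exact .inl (.inr (.inl h))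
  · exact .inl (.inr (.inr h))
  · exact .inr (.inl h)
  · exact .inr (.inr (.inl ⟨h.eq, by have := h.lin; omega⟩))
  · have := h.lin; exact .inr (.inr (.inr (by omega)))
  · have := h.lin; exact .inr (.inr (.inr (by omega)))

theorem Eπ.rough (h : p.Eπ X Y) : p.a - 1 ≤ X ∧ X ≤ p.b ∧ p.a - 2 ≤ Y ∧ Y ≤ p.a ∧
    (X < p.a ∨ p.a - 1 ≤ Y) := by
  have := p.aux
  rcases h with h | h
  · have := h.lin; have := h.d2; omega
  · have := h.lin; omega

/-! ### The small cube -/

theorem aE (g : p.b < X ∨ (p.a - p.ε ≤ X ∧ Y ≤ p.a - 3)) : OutE p.EA X Y := by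
  have := p.aux
  refine .rayE fun X' a h => ?_
  rcases h with h | h
  · rcases h.rough with h | h | ⟨h, _⟩ | h <;> first | omega | (have := h.lin; omega)
  · have := h.rough; omega

theorem aN (g : (2 * p.a ≤ Y ∧ (2 * p.a < Y ∨ X = 0 ∨ X = 2 * p.a) ∧ -p.a + 1 < X) ∨
    (p.b < Y ∧ X ≤ -p.a)) : OutE p.EA X Y := by
  have := p.aux
  refine .rayN fun Y' a h => ?_
  rcases h with h | h
  · rcases h.rough with h | h | ⟨h, -⟩ | h
    · have := nq1 h; have := nq2 h; omega
    · have := h.lin; omega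
    · have := h.lin; omega
    · omega
  · have := h.rough; omega

theorem aW (g : (X ≤ -2 * p.a ∧ (X < -2 * p.a ∨ Y = 0 ∨ Y = 2 * p.a) ∧ -p.a + 1 < Y) ∨
    (X < -p.b ∧ Y ≤ -p.a)) : OutE p.EA X Y := by
  have := p.aux
  refine .rayW fun X' a h => ?_
  rcases h with h | h
  · rcases h.rough with h | h | ⟨h, -⟩ | h
    · have := h.lin; omega
    · have := nq1 h; have := nq2 h; omega
    · have := h.lin; omega
    · omega
  · have := h.rough; omega

theorem aS (g : Y ≤ -2 * p.a ∧ (Y < -2 * p.a ∨ X = 0 ∨ X = -2 * p.a)) : OutE p.EA X Y := by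
  have := p.aux
  refine .rayS fun Y' a h => ?_
  rcases h with h | h
  · rcases h.rough with h | h | ⟨h, -⟩ | h
    · have := h.lin; omega
    · have := h.lin; omega
    · have := nq1 h; omega
    · omega
  · have := h.rough; omega

theorem a1 (hb : 2 * p.a + 1 < p.b) (g : X = 0 ∧ Y = p.a) : OutE p.EA X Y := by
  have := p.aux
  have key : ∀ X Y, p.a ≤ Y ∧ (X = -1 ∨ (X = 0 ∧ Y = p.a)) → ¬p.EA X Y := by
    rintro X Y g (h | h)
    · rcases h.rough with h | h | ⟨h, -⟩ | h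
      · exact nq3 h hb g
      · have := h.lin; omega
      · have := h.lin; omega
      · omega
    · have := h.rough; omega
  exact .step 2 (key _ _ (by omega)) (.rayN fun Y' a => key _ _ (by simp [dv] at a ⊢; omega))

theorem a2 (hb : 2 * p.a + 1 < p.b) (g : X = -p.a ∧ Y = 0) : OutE p.EA X Y := by
  have := p.aux
  have key : ∀ X Y, p.a ≤ -X ∧ (Y = -1 ∨ (Y = 0 ∧ -X = p.a)) → ¬p.EA X Y := by
    rintro X Y g (h | h)
    · rcases h.rough with h | h | ⟨h, -⟩ | h
      · have := h.lin; omega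
      · exact nq3 h hb g
      · have := h.lin; omega
      · omega
    · have := h.rough; omega
  exact .step 3 (key _ _ (by omega)) (.rayW fun Y' a => key _ _ (by simp [dv] at a ⊢; omega))

theorem a3 (hb : 2 * p.a + 1 < p.b) (g : X = 0 ∧ Y = -p.a) : OutE p.EA X Y := by
  have := p.aux
  have key : ∀ X Y, p.a ≤ -Y ∧ (-X = -1 ∨ (-X = 0 ∧ -Y = p.a)) → ¬p.EA X Y := by
    rintro X Y g (h | h)
    · rcases h.rough with h | h | ⟨h, -⟩ | h
      · have := h.lin; omega
      · have := h.lin; omega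
      · exact nq3 h hb g
      · omega
    · have := h.rough; omega
  exact .step 0 (key _ _ (by omega)) (.rayS fun Y' a => key _ _ (by simp [dv] at a ⊢; omega))

theorem covA (p : P7) (m n : ℤ) : p.LA (m * p.a, n * p.a) ∨ OutE p.EA (m * p.a) (n * p.a) := by
  have := p.aux
  have := p.hb2
  have l : ∀ {m c : ℤ}, m ≤ c → m * p.a ≤ c * p.a :=
    fun h => mul_le_mul_of_nonneg_right h (by omega)
  rcases (by omega : n ≤ -3 ∨ n = -2 ∨ n = -1 ∨ n = 0 ∨ n = 1 ∨ n = 2 ∨ 3 ≤ n) with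
    hn | rfl | rfl | rfl | rfl | rfl | hn <;>
  rcases (by omega : m ≤ -3 ∨ m = -2 ∨ m = -1 ∨ m = 0 ∨ m = 1 ∨ m = 2 ∨ 3 ≤ m) with
    hm | rfl | rfl | rfl | rfl | rfl | hm
  all_goals
    try have gn := l hn
    try have gm := l hm
  · exact .inr (aS (by omega))
  · exact .inr (aS (by omega))
  · exact .inr (aS (by omega))
  · exact .inr (aS (by omega))
  · exact .inr (aE (by omega))
  · exact .inr (aE (by omega))
  · exact .inr (aE (by omega))
  · exact .inr (aW (by omega))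
  · exact .inr (aS (by omega))
  · exact .inl (.inr (.inr (.inr (.inr (.inr (.inr (.inl (Prod.ext (by ring) (by ring)))))))))
  · exact .inr (aS (by omega))
  · exact .inr (aE (by omega))
  · exact .inr (aE (by omega))
  · exact .inr (aE (by omega))
  · exact .inr (aW (by omega))
  · by_cases c : 2 * p.a + 1 ≤ p.b
    · exact .inl (.inr (.inr (.inr (.inr (.inr (.inr (.inr (.inr ⟨c, (.inr (.inr (Prod.ext (by ring) (by ring))))⟩))))))))
    · exact .inr (aW (by omega))
  · exact .inl (.inr (.inr (.inr (.inl (Prod.ext (by ring) (by ring))))))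
  · by_cases c : p.b ≤ 2 * p.a + 1
    · exact .inl (.inr (.inr (.inr (.inr (.inr (.inr (.inr (.inl ⟨c, (.inr (.inr (Prod.ext (by ring) (by ring))))⟩))))))))
    · exact .inr (a3 (by omega) (by omega))
  · exact .inr (aE (by omega))
  · exact .inr (aE (by omega))
  · exact .inr (aE (by omega))
  · exact .inr (aW (by omega))
  · exact .inr (aW (by omega))
  · by_cases c : p.b ≤ 2 * p.a + 1
    · exact .inl (.inr (.inr (.inr (.inr (.inr (.inr (.inr (.inl ⟨c, (.inr (.inl (Prod.ext (by ring) (by ring))))⟩))))))))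
    · exact .inr (a2 (by omega) (by omega))
  · exact .inl (.inl (Prod.ext (by ring) (by ring)))
  · exact .inr (aE (by omega))
  · exact .inr (aE (by omega))
  · exact .inr (aE (by omega))
  · exact .inr (aW (by omega))
  · exact .inl (.inr (.inr (.inr (.inr (.inr (.inl (Prod.ext (by ring) (by ring))))))))
  · exact .inl (.inr (.inr (.inl (Prod.ext (by ring) (by ring)))))
  · by_cases c : p.b ≤ 2 * p.a + 1
    · exact .inl (.inr (.inr (.inr (.inr (.inr (.inr (.inr (.inl ⟨c, (.inl (Prod.ext (by ring) (by ring)))⟩))))))))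
    · exact .inr (a1 (by omega) (by omega))
  · exact .inl (.inr (.inl (Prod.ext (by ring) (by ring))))
  · by_cases c : 2 * p.a + 1 ≤ p.b
    · exact .inl (.inr (.inr (.inr (.inr (.inr (.inr (.inr (.inr ⟨c, (.inl (Prod.ext (by ring) (by ring)))⟩))))))))
    · exact .inr (aE (by omega))
  · exact .inr (aE (by omega))
  · exact .inr (aW (by omega))
  · exact .inr (aW (by omega))
  · by_cases c : 2 * p.a + 1 ≤ p.b
    · exact .inl (.inr (.inr (.inr (.inr (.inr (.inr (.inr (.inr ⟨c, (.inr (.inl (Prod.ext (by ring) (by ring))))⟩))))))))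
    · exact .inr (aN (by omega))
  · exact .inr (aN (by omega))
  · exact .inl (.inr (.inr (.inr (.inr (.inl (Prod.ext (by ring) (by ring)))))))
  · exact .inr (aN (by omega))
  · exact .inr (aE (by omega))
  · exact .inr (aW (by omega))
  · exact .inr (aN (by omega))
  · exact .inr (aN (by omega))
  · exact .inr (aN (by omega))
  · exact .inr (aN (by omega))
  · exact .inr (aN (by omega))
  · exact .inr (aE (by omega))

theorem memA (p : P7) (W : Pt) (h : p.LA W) : ∃ m n : ℤ, W = (m * p.a, n * p.a) := by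
  rcases h with h | h | h | h | h | h | h | ⟨-, h | h | h⟩ | ⟨-, h | h | h⟩ <;> subst h
  exacts [⟨0, 0, by simp⟩, ⟨1, 1, by simp⟩, ⟨-1, 1, by simp⟩, ⟨-1, -1, by simp⟩, ⟨1, 2, by simp⟩,
    ⟨-2, 1, by simp⟩, ⟨-1, -2, by simp⟩, ⟨0, 1, by simp⟩, ⟨-1, 0, by simp⟩, ⟨0, -1, by simp⟩,
    ⟨2, 1, by simp⟩, ⟨-1, 2, by simp⟩, ⟨-2, -1, by simp⟩]

/-! ### The middle cube -/

theorem nb1 (h : p.Eq X Y) (hk : p.k = 3) : ¬(X ≤ -2 * p.b ∧ Y = 0) := by
  have := p.aux
  rcases h with h | h | h | h | h | h | h | h <;> have := h.lin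
  · omega
  · omega
  · have := h.d3; omega
  · have := h.d2; omega
  all_goals omega

theorem nb2 (h : p.Eq X Y) (hk : p.k ≠ 2) : ¬(X ≤ -2 * p.b ∧ Y = -2 * p.a) := by
  have := p.aux
  rcases h with h | h | h | h | h | h | h | h <;> have := h.lin
  · omega
  · omega
  · omega
  · have := h.d2; omega
  all_goals omega

theorem nb3 (h : p.Eq X Y) : ¬(X = -2 * p.b - p.ε ∧ Y ≤ p.b - 3 * p.a + p.ε) := by
  have := p.aux
  rcases h with h | h | h | h | h | h | h | h <;> have := h.lin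
  · omega
  · omega
  · have := h.d1; omega
  · have := h.d4; omega
  all_goals omega

theorem nb4 (h : p.Eq X Y) : X ≤ -p.b → 2 * Y < 2 * p.b - p.a := by
  have := p.aux
  rcases h with h | h | h | h | h | h | h | h <;> have := h.lin <;> omega

theorem b0W (g : (X ≤ -p.b ∧ (p.b ≤ Y ∨ Y < -p.a - p.b)) ∨ X < -2 * p.b - 1 ∨
    (p.k = 3 ∧ X ≤ -2 * p.b ∧ Y = 0)) : ¬p.EB0 X Y := by
  have := p.aux
  rintro (h | h | h | h | h) <;> have := h.lin
  · have := nb1 h; omega
  all_goals omega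

theorem b0S (g : (Y ≤ -p.b ∧ p.a + p.b < X) ∨ Y < -2 * p.b - 1 ∨
    (p.k = 3 ∧ Y ≤ -2 * p.b ∧ X = 0) ∨ (p.k ≠ 2 ∧ Y ≤ -2 * p.b ∧ X = 2 * p.a) ∨
    (X ≤ -p.b ∧ Y < -p.a - p.b)) : ¬p.EB0 X Y := by
  have := p.aux
  rintro (h | h | h | h | h) <;> have := h.lin
  · omega
  · have := nb1 h; have := nb2 h; omega
  all_goals omega

theorem b0E (g : 2 * p.b + 1 < X ∨ (p.k = 3 ∧ 2 * p.b ≤ X ∧ Y = 0) ∨
    (p.k ≠ 2 ∧ 2 * p.b ≤ X ∧ Y = 2 * p.a) ∨ (Y ≤ -p.b ∧ p.a + p.b < X)) : ¬p.EB0 X Y := by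
  have := p.aux
  rintro (h | h | h | h | h) <;> have := h.lin
  · omega
  · omega
  · have := nb1 h; have := nb2 h; omega
  all_goals omega

theorem b0N (g : p.a + p.b < Y ∨ (X < -1 ∧ p.b ≤ Y) ∨ (X ≤ 0 ∧ p.b < Y) ∨
    (X = p.b - p.a ∧ p.a + p.b ≤ Y) ∨ (X ≤ -p.b ∧ 2 * p.b - p.a ≤ 2 * Y)) : ¬p.EB0 X Y := by
  have := p.aux
  rintro (h | h | h | h | h) <;> have := h.lin
  · have := nb4 h; omega
  all_goals omega

theorem covB (p : P7) (m n : ℤ) : p.LB (m * p.b, n * p.b) ∨
    OutE p.EB (p.a + 2 * p.b + m * p.b) (2 * p.a - p.b + n * p.b) := by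
  have := p.aux
  have l : ∀ {m c : ℤ}, m ≤ c → m * p.b ≤ c * p.b :=
    fun h => mul_le_mul_of_nonneg_right h (by omega)
  rcases (by omega : n ≤ -3 ∨ n = -2 ∨ n = -1 ∨ n = 0 ∨ n = 1 ∨ 2 ≤ n) with
    hn | rfl | rfl | rfl | rfl | hn <;>
  rcases (by omega : m ≤ -3 ∨ m = -2 ∨ m = -1 ∨ m = 0 ∨ m = 1 ∨ m = 2 ∨ 3 ≤ m) with
    hm | rfl | rfl | rfl | rfl | rfl | hm
  all_goals
    try have gn := l hn
    try have gm := l hm
  · exact .inr (.rayS fun _ _ => b0S (by omega))
  · exact .inr (.rayS fun _ _ => b0S (by omega))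
  · exact .inr (.rayS fun _ _ => b0S (by omega))
  · exact .inr (.rayS fun _ _ => b0S (by omega))
  · exact .inr (.rayS fun _ _ => b0S (by omega))
  · exact .inr (.rayS fun _ _ => b0S (by omega))
  · exact .inr (.rayS fun _ _ => b0S (by omega))
  · exact .inr (.rayW fun _ _ => b0W (by omega))
  · exact .inr (.rayW fun _ _ => b0W (by omega))
  · exact .inr (.rayW fun _ _ => b0W (by omega))
  · by_cases c : p.k = 3
    · exact .inr (.rayS fun _ _ => b0S (by omega))
    · exact .inl (.inr (.inr (.inr (.inr (.inr (.inr (.inr (.inr (.inr (.inr (.inr ⟨c, (.inr (.inl (Prod.ext (by ring) (by ring))))⟩)))))))))))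
  · exact .inl (.inr (.inr (.inr (.inr (.inr (.inr (.inl (Prod.ext (by ring) (by ring)))))))))
  · exact .inr (.rayS fun _ _ => b0S (by omega))
  · exact .inr (.rayE fun _ _ => b0E (by omega))
  · exact .inr (.rayW fun _ _ => b0W (by omega))
  · exact .inl (.inr (.inr (.inr (.inr (.inr (.inl (Prod.ext (by ring) (by ring))))))))
  · exact .inl (.inr (.inr (.inr (.inr (.inr (.inr (.inr (.inr (.inl (Prod.ext (by ring) (by ring)))))))))))
  · exact .inl (.inr (.inr (.inl (Prod.ext (by ring) (by ring)))))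
  · exact .inl (.inr (.inr (.inr (.inr (.inr (.inr (.inr (.inr (.inr (.inl (Prod.ext (by ring) (by ring))))))))))))
  · exact .inr (.rayS fun _ _ => b0S (by omega))
  · exact .inr (.rayE fun _ _ => b0E (by omega))
  · exact .inr (.rayW fun _ _ => b0W (by omega))
  · by_cases c : p.k = 3
    · exact .inr (.rayW fun _ _ => b0W (by omega))
    · exact .inl (.inr (.inr (.inr (.inr (.inr (.inr (.inr (.inr (.inr (.inr (.inr ⟨c, (.inl (Prod.ext (by ring) (by ring)))⟩)))))))))))
  · exact .inl (.inr (.inl (Prod.ext (by ring) (by ring))))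
  · exact .inl (.inl (Prod.ext (by ring) (by ring)))
  · exact .inl (.inr (.inr (.inr (.inl (Prod.ext (by ring) (by ring))))))
  · by_cases c : p.k = 3
    · exact .inr (.rayE fun _ _ => b0E (by omega))
    · exact .inl (.inr (.inr (.inr (.inr (.inr (.inr (.inr (.inr (.inr (.inr (.inr ⟨c, (.inr (.inr (Prod.ext (by ring) (by ring))))⟩)))))))))))
  · exact .inr (.rayE fun _ _ => b0E (by omega))
  · exact .inr (.rayW fun _ _ => b0W (by omega))
  · exact .inr (.rayW fun _ _ => b0W (by omega))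
  · exact .inr (.rayW fun _ _ => b0W (by omega))
  · exact .inl (.inr (.inr (.inr (.inr (.inl (Prod.ext (by ring) (by ring)))))))
  · exact .inl (.inr (.inr (.inr (.inr (.inr (.inr (.inr (.inr (.inr (.inr (.inl (Prod.ext (by ring) (by ring)))))))))))))
  · exact .inl (.inr (.inr (.inr (.inr (.inr (.inr (.inr (.inl (Prod.ext (by ring) (by ring))))))))))
  · exact .inr (.rayE fun _ _ => b0E (by omega))
  · exact .inr (.rayN fun _ _ => b0N (by omega))
  · exact .inr (.rayN fun _ _ => b0N (by omega))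
  · exact .inr (.rayN fun _ _ => b0N (by omega))
  · exact .inr (.rayN fun _ _ => b0N (by omega))
  · exact .inr (.rayN fun _ _ => b0N (by omega))
  · exact .inr (.rayN fun _ _ => b0N (by omega))
  · exact .inr (.rayN fun _ _ => b0N (by omega))

theorem memB (p : P7) (W : Pt) (h : p.LB W) : ∃ m n : ℤ, W = (m * p.b, n * p.b) := by
  rcases h with h | h | h | h | h | h | h | h | h | h | h | ⟨-, h | h | h⟩ <;> subst h
  exacts [⟨0, 0, by simp⟩, ⟨-1, 0, by simp⟩, ⟨0, -1, by simp⟩, ⟨1, 0, by simp⟩, ⟨0, 1, by simp⟩,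
    ⟨-2, -1, by simp⟩, ⟨1, -2, by simp⟩, ⟨2, 1, by simp⟩, ⟨-1, -1, by simp⟩, ⟨1, -1, by simp⟩,
    ⟨1, 1, by simp⟩, ⟨-2, 0, by simp⟩, ⟨0, -2, by simp⟩, ⟨2, 0, by simp⟩]

/-! ### The large cube -/

theorem Eα.box (h : p.Eα X Y) : (-p.b ≤ X ∨ -2 * p.a ≤ X) ∧ X ≤ p.b ∧ -2 * p.a ≤ Y ∧
    (Y ≤ p.b ∨ Y ≤ 2 * p.a) := by
  have := p.aux
  rcases h.rough with h | h | ⟨h, _⟩ | h <;> first | omega | (have := h.lin; omega)

theorem EB.box (h : p.EB X Y) : p.a - 1 ≤ X := by
  have := p.aux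
  rcases h with h | h | h | h | h <;> have := h.lin <;> omega

theorem cW (g : (X < -p.b ∧ X < -2 * p.a) ∨ (p.k ≠ 1 ∧ X = -p.b ∧ Y = -p.a)) : OutE p.EC X Y := by
  have := p.aux
  refine .rayW fun X' a h => ?_
  rcases h with h | h
  · have := h.box
    rcases h.rough with h | h | ⟨h, _⟩ | h
    · have := h.lin; omega
    · have := nq2 h; omega
    · have := nq4 h; omega
    · omega
  · have := h.box; omega

theorem cS (g : (Y < -2 * p.a ∧ (X < p.a - 1 ∨ Y < 2 * p.a - 3 * p.b - 1 ∨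
    (X ≤ p.a + p.b ∧ Y < p.a - 2 * p.b))) ∨
    (p.k ≠ 2 ∧ X = 3 * p.a + 2 * p.b ∧ Y = 2 * p.a - 3 * p.b)) : OutE p.EC X Y := by
  have := p.aux
  refine .rayS fun Y' a h => ?_
  rcases h with h | h
  · have := h.box; omega
  · have := h.box
    exact b0S (by omega) h

theorem cE (g : p.a + 4 * p.b + 1 < X ∨ (2 * p.a + 3 * p.b < X ∧ Y ≤ 2 * p.a - 2 * p.b) ∨
    (p.k ≠ 2 ∧ X = p.a + 4 * p.b ∧ Y = 4 * p.a - p.b)) : OutE p.EC X Y := by
  have := p.aux
  refine .rayE fun X' a h => ?_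
  rcases h with h | h
  · have := h.box; omega
  · exact b0E (by omega) h

theorem cN (g : (3 * p.a < Y ∧ p.b < Y) ∨ (2 * p.a < Y ∧ p.b < Y ∧ X < p.a + 2 * p.b - 1) ∨
    (p.b < X ∧ X < p.a + 2 * p.b - 1 ∧ 2 * p.a ≤ Y) ∨ (X = 3 * p.b ∧ Y = 3 * p.a) ∨
    (p.k ≠ 1 ∧ X = -p.a ∧ Y = p.b)) : OutE p.EC X Y := by
  have := p.aux
  refine .rayN fun Y' a h => ?_
  rcases h with h | h
  · have := h.box
    rcases h.rough with h | h | ⟨h, _⟩ | h
    · have := nq2 h; omega
    · have := nq4 h; omega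
    · have := h.lin; omega
    · omega
  · have := h.box
    exact b0N (by omega) h

theorem cM (g : X = p.a - p.ε ∧ Y ≤ -p.a + p.ε) : OutE p.EC X Y := by
  have := p.aux
  refine .rayS fun Y' a h => ?_
  rcases h with h | h | h | h | h | h
  · rcases h.rough with h | h | ⟨h, _⟩ | h <;> first | omega | (have := h.lin; omega)
  · exact nb3 h (by omega)
  all_goals (have := h.lin; omega)

theorem c0 (hk : p.k ≠ 2) (g : X = p.a ∧ Y = -p.b) : OutE p.EC X Y := by
  have := p.aux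
  by_cases e : p.ε = 0
  · exact cM (by omega)
  refine .step 2 ?_ (cM (by simp [dv]; omega))
  rintro (h | h | h | h | h | h)
  · rcases h.rough with h | h | ⟨h, _⟩ | h <;> first | omega | (have := h.lin; omega)
  · rcases h with h | h | h | h | h | h | h | h <;> have := h.lin
    · omega
    · omega
    · omega
    · have := h.d2; omega
    all_goals omega
  all_goals (have := h.lin; omega)

theorem covC (p : P7) (m n : ℤ) : p.LC (m * p.b - n * p.a, m * p.a + n * p.b) ∨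
    OutE p.EC (m * p.b - n * p.a) (m * p.a + n * p.b) := by
  have := p.aux
  have l : ∀ {m c : ℤ}, m ≤ c → m * p.a ≤ c * p.a ∧ m * p.b - m * p.a ≤ c * p.b - c * p.a :=
    fun h => ⟨mul_le_mul_of_nonneg_right h (by omega), by nlinarith⟩
  rcases (by omega : n ≤ -4 ∨ n = -3 ∨ n = -2 ∨ n = -1 ∨ n = 0 ∨ n = 1 ∨ 2 ≤ n) with
    hn | rfl | rfl | rfl | rfl | rfl | hn <;>
  rcases (by omega : m ≤ -2 ∨ m = -1 ∨ m = 0 ∨ m = 1 ∨ m = 2 ∨ m = 3 ∨ m = 4 ∨ 5 ≤ m) with
    hm | rfl | rfl | rfl | rfl | rfl | rfl | hm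
  all_goals
    try have gn := l hn
    try have gm := l hm
  · exact .inr (cS (by omega))
  · exact .inr (cS (by omega))
  · exact .inr (cS (by omega))
  · exact .inr (cS (by omega))
  · exact .inr (cS (by omega))
  · exact .inr (cE (by omega))
  · exact .inr (cE (by omega))
  · exact .inr (cE (by omega))
  · exact .inr (cS (by omega))
  · exact .inr (cS (by omega))
  · exact .inr (cS (by omega))
  · exact .inr (cS (by omega))
  · by_cases c : p.k = 2
    · exact .inl (.inr (.inr (.inr (.inr (.inr (.inr (.inr (.inr (.inr ⟨c, (.inr (.inl (Prod.ext (by ring) (by ring))))⟩)))))))))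
    · exact .inr (cS (by omega))
  · exact .inr (cE (by omega))
  · exact .inr (cE (by omega))
  · exact .inr (cE (by omega))
  · exact .inr (cS (by omega))
  · exact .inr (cS (by omega))
  · exact .inr (cS (by omega))
  · exact .inl (.inr (.inr (.inr (.inl (Prod.ext (by ring) (by ring))))))
  · exact .inl (.inr (.inr (.inr (.inr (.inr (.inl (Prod.ext (by ring) (by ring))))))))
  · exact .inl (.inr (.inr (.inr (.inr (.inr (.inr (.inr (.inl (Prod.ext (by ring) (by ring))))))))))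
  · exact .inr (cE (by omega))
  · exact .inr (cE (by omega))
  · exact .inr (cS (by omega))
  · exact .inr (cS (by omega))
  · by_cases c : p.k = 2
    · exact .inl (.inr (.inr (.inr (.inr (.inr (.inr (.inr (.inr (.inr ⟨c, (.inl (Prod.ext (by ring) (by ring)))⟩)))))))))
    · exact .inr (c0 c (by omega))
  · exact .inl (.inr (.inr (.inl (Prod.ext (by ring) (by ring)))))
  · exact .inl (.inr (.inr (.inr (.inr (.inl (Prod.ext (by ring) (by ring)))))))
  · exact .inl (.inr (.inr (.inr (.inr (.inr (.inr (.inl (Prod.ext (by ring) (by ring)))))))))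
  · by_cases c : p.k = 2
    · exact .inl (.inr (.inr (.inr (.inr (.inr (.inr (.inr (.inr (.inr ⟨c, (.inr (.inr (Prod.ext (by ring) (by ring))))⟩)))))))))
    · exact .inr (cE (by omega))
  · exact .inr (cE (by omega))
  · exact .inr (cW (by omega))
  · by_cases c : p.k = 1
    · exact .inl (.inr (.inr (.inr (.inr (.inr (.inr (.inr (.inr (.inl ⟨c, (.inr (Prod.ext (by ring) (by ring)))⟩)))))))))
    · exact .inr (cW (by omega))
  · exact .inl (.inl (Prod.ext (by ring) (by ring)))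
  · exact .inl (.inr (.inl (Prod.ext (by ring) (by ring))))
  · exact .inr (cN (by omega))
  · exact .inr (cN (by omega))
  · exact .inr (cN (by omega))
  · exact .inr (cN (by omega))
  · exact .inr (cW (by omega))
  · exact .inr (cW (by omega))
  · by_cases c : p.k = 1
    · exact .inl (.inr (.inr (.inr (.inr (.inr (.inr (.inr (.inr (.inl ⟨c, (.inl (Prod.ext (by ring) (by ring)))⟩)))))))))
    · exact .inr (cN (by omega))
  · exact .inr (cN (by omega))
  · exact .inr (cN (by omega))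
  · exact .inr (cN (by omega))
  · exact .inr (cN (by omega))
  · exact .inr (cN (by omega))
  · exact .inr (cW (by omega))
  · exact .inr (cW (by omega))
  · exact .inr (cN (by omega))
  · exact .inr (cN (by omega))
  · exact .inr (cN (by omega))
  · exact .inr (cN (by omega))
  · exact .inr (cN (by omega))
  · exact .inr (cN (by omega))

theorem memC (p : P7) (W : Pt) (h : p.LC W) :
    ∃ m n : ℤ, W = (m * p.b - n * p.a, m * p.a + n * p.b) := by
  rcases h with h | h | h | h | h | h | h | h | ⟨-, h | h⟩ | ⟨-, h | h | h⟩ <;> subst h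
  exacts [⟨0, 0, by simp⟩, ⟨1, 0, by simp⟩, ⟨1, -1, by ext <;> simp <;> ring⟩,
    ⟨1, -2, by ext <;> simp <;> ring⟩, ⟨2, -1, by ext <;> simp <;> ring⟩,
    ⟨2, -2, by ext <;> simp <;> ring⟩, ⟨3, -1, by ext <;> simp <;> ring⟩,
    ⟨3, -2, by ext <;> simp <;> ring⟩, ⟨0, 1, by simp⟩, ⟨-1, 0, by simp⟩, ⟨0, -1, by simp⟩,
    ⟨2, -3, by ext <;> simp <;> ring⟩, ⟨4, -1, by ext <;> simp <;> ring⟩]

end P7
end NP
end Pool.Agent.Lib.MP_4a7072_co
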