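import Pool.Agent.Lib.MP_4a7072_co.DW
import Pool.Agent.Lib.MP_4a7072_co.NFine

/-!
Periodic curves with four centres of rotation whose half period lies in a rectangle.
-/

set_option autoImplicit false

namespace Pool.Agent.Lib.MP_4a7072_co
namespace NP

namespace WB0

variable {e n m : ℤ} (W : WB0 e n m)

/-- The curve is invariant under a glide reflection. -/
def Gl : Prop := ∀ l, (W.w (l + W.q)).1 = (W.w l).2 ∧ (W.w (l + W.q)).2 = (W.w l).1 + n

theorem gl_of (h : ∀ i, 0 ≤ i → i ≤ W.q →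
    (W.w (W.q - i)).1 = (W.w i).1 ∧ (W.w (W.q - i)).2 = n - (W.w i).2) : W.Gl := by
  have hq := W.qpos
  intro l
  have h1 := Int.mul_ediv_add_emod (l + W.q) (2 * W.q)
  have h2 := Int.emod_nonneg (l + W.q) (show 2 * W.q ≠ 0 by omega)
  have h3 := Int.emod_lt_of_pos (l + W.q) (show 0 < 2 * W.q by omega)
  generalize (l + W.q) / (2 * W.q) = s at h1
  obtain ⟨r, a, b, rfl⟩ : ∃ r, -W.q ≤ r ∧ r ≤ W.q ∧ l = r + 2 * W.q * s :=
    ⟨(l + W.q) % (2 * W.q) - W.q, by omega, by omega, by omega⟩
  have h5 := W.pers s r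
  have h6 := W.pers s (r + W.q)
  rw [add_right_comm]
  rcases le_total r 0 with c | c
  · have h7 := h (-r) (by omega) (by omega)
    have h8 := W.symA' (i := -r) (by omega) (by omega)
    rw [neg_neg] at h8
    rw [show W.q - -r = r + W.q by ring] at h7
    omega
  · have h7 := h r c b
    have h8 := W.symA' (i := W.q - r) (by omega) (by omega)
    have h9 := W.per1 (-(W.q - r))
    rw [show -(W.q - r) + 2 * W.q = r + W.q by ring] at h9
    omega

theorem Gl.refl {W : WB0 e n m} (h : W.Gl) {i : ℤ} (a : 0 ≤ i) (b : i ≤ W.q) :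
    (W.w (W.q - i)).1 = (W.w i).1 ∧ (W.w (W.q - i)).2 = n - (W.w i).2 := by
  have h1 := h (-i)
  have h2 := W.symA' a b
  rw [neg_add_eq_sub] at h1
  omega

theorem Gl.mirror {W : WB0 e n m} (h : W.Gl) (hn : n ≠ 2) : (W.mirror hn).Gl := fun l => by
  have h1 := h (-l)
  have h2 := W.per1 (-(l + W.q))
  rw [show -(l + W.q) + 2 * W.q = -l + W.q by ring] at h2
  change -(W.w (-(l + W.q))).2 = -(W.w (-l)).1 ∧ -(W.w (-(l + W.q))).1 = -(W.w (-l)).2 + n
  omega

end WB0

theorem exists_WS (e n m : ℤ) (hn : 0 < n) (hc : IsCoprime n m)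
    (he : (e = 0 ∧ n % 2 = 1) ∨ (e = 1 ∧ n % 2 = 0)) : ∃ W : WB e n m, W.Mir ∧ W.Gl := by
  obtain ⟨N, hN⟩ : ∃ N : ℕ, n < N := ⟨n.toNat + 1, by omega⟩
  induction N generalizing n m with
  | zero => omega
  | succ N ih =>
    have wide : ∀ m, IsCoprime n m → 0 < m → 2 * m < n → ∃ W : WB e n m, W.Mir ∧ W.Gl :=
      fun m c a b => by
      have c' : IsCoprime (n - 2 * m) m := by
        have := c.add_mul_right_left (-2)
        rwa [neg_mul, ← sub_eq_add_neg] at this
      obtain ⟨W, mir, gl⟩ := ih (n - 2 * m) m (by omega) c' (by omega) (by omega)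
      obtain ⟨W', e1, e2, old, tr⟩ := W.widen' (by omega) a
      have hq := W.qpos
      have hβ := (W'.ord1 a (by omega)).1
      have F2 : ∀ t, 0 ≤ t → t ≤ W.β → (W'.w (2 * W.β - t)).1 = (W.w t).2 ∧
          (W'.w (2 * W.β - t)).2 = 2 * m - (W.w t).1 := fun t c d => by
        have h := W'.symB' (i := W.β - t) (by omega) (by omega)
        rw [e1, sub_sub_cancel, old t c d, show W.β + (W.β - t) = 2 * W.β - t by ring] at h
        omega
      have old' : ∀ l, 0 ≤ l → l ≤ W.β + W.q →
          (W'.w l).1 = (W.w l).1 ∧ (W'.w l).2 = (W.w l).2 := fun l c d => by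
        by_cases f : l ≤ W.β
        · rw [old l c f]; exact ⟨rfl, rfl⟩
        have s := W.symB' (i := l - W.β) (by omega) (by omega)
        rw [add_sub_cancel, show W.β - (l - W.β) = 2 * W.β - l by ring] at s
        by_cases g : l ≤ 2 * W.β
        · have h := F2 (2 * W.β - l) (by omega) (by omega)
          rw [sub_sub_cancel] at h
          omega
        · have t := W.symA' (i := l - 2 * W.β) (by omega) (by omega)
          have h := tr (l - 2 * W.β) (by omega) (by omega)
          rw [neg_sub] at t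
          rw [add_sub_cancel] at h
          omega
      have half : ∀ i, 0 ≤ i → i ≤ W.q + W.β → 2 * i ≤ 2 * W.β + W.q →
          (W'.w (W'.q - i)).1 = (W'.w i).1 ∧
            (W'.w (W'.q - i)).2 = n - 2 * m + 2 * m - (W'.w i).2 := fun i c d f => by
        have h0 := old' i c (by omega)
        rw [e2]
        by_cases g : i ≤ W.q
        · have h1 := gl.refl c g
          have h2 := tr (W.q - i) (by omega) (by omega)
          rw [← add_sub_assoc] at h2
          omega
        · have h1 := gl (i - W.q)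
          have h2 := F2 (i - W.q) (by omega) (by omega)
          rw [sub_add_cancel] at h1
          rw [show 2 * W.β - (i - W.q) = 2 * W.β + W.q - i by ring] at h2
          omega
      have : ∃ W : WB e (n - 2 * m + 2 * m) m, W.Mir ∧ W.Gl := by
        refine ⟨W', W'.mir_of hβ fun l a b => ?_, W'.gl_of fun i c d => ?_⟩
        · rw [e1] at b ⊢
          rw [old _ a b, old _ (by omega) (by omega)]
          exact mir l
        · by_cases f : 2 * i ≤ 2 * W.β + W.q
          · exact half i c (by omega) f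
          · have := half (W'.q - i) (by omega) (by omega) (by omega)
            rw [sub_sub_cancel] at this
            omega
      rwa [sub_add_cancel] at this
    by_cases h : 0 < m ∧ 2 * m < n
    · exact wide m hc h.1 h.2
    have fin : (0 < m → n < 2 * m) → (∃ W : WB0 e n m, W.Mir ∧ W.Gl) →
        ∃ W : WB e n m, W.Mir ∧ W.Gl :=
      fun g ⟨W, hW⟩ => ⟨W.toWB g fun _ => by omega, hW⟩
    have ne : 0 < m → n ≠ 2 * m ∨ n = 2 := fun a => by
      by_cases b : n = 2 * m
      · right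
        have := Int.isUnit_iff.1 (hc.isUnit_of_dvd' ⟨2, by rw [b, mul_comm]⟩ dvd_rfl)
        omega
      · exact Or.inl b
    have h1 := Int.mul_ediv_add_emod m n
    have h2 := Int.emod_nonneg m hn.ne'
    have h3 := Int.emod_lt_of_pos m hn
    have c0 : IsCoprime n (m % n) := by
      have := hc.add_mul_left_right (-(m / n))
      rwa [show m + n * -(m / n) = m % n by linarith] at this
    by_cases n1 : n = 1
    · subst n1
      obtain ⟨W⟩ := exists_one
      obtain rfl : e = 0 := by omega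
      have hq := W.qpos
      have β0 : W.β = 0 := W.inj _ _ (by rw [W.wβ, W.w0])
      have q1 : W.q = 1 := by
        have a := W.monoA 1
        have b := W.strip 1
        have c := (W.stp 0).coord (Or.inl rfl)
        rw [W.w0, zero_add] at c
        simp only at c
        exact W.inj _ _ (by rw [W.wq]; exact Prod.ext (by simp only; omega) (by simp only; omega))
      have par : ∀ l, (W.w l).1 + (W.w l).2 = l := fun l => by
        have h := W.pers (l / 2) (l % 2)
        have w1 := W.wq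
        rw [q1] at h w1
        rw [show l % 2 + 2 * 1 * (l / 2) = l by omega] at h
        obtain g | g : l % 2 = 0 ∨ l % 2 = 1 := by omega
        · rw [g, W.w0] at h
          simp only at h
          omega
        · rw [g, w1] at h
          simp only at h
          omega
      have mir : W.Mir := fun l => by
        have := par l
        have := par (W.β - l)
        have := W.strip l
        have := W.strip (W.β - l)
        omega
      have gl : W.Gl := fun l => by
        have := par l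
        have := par (l + W.q)
        have := W.strip l
        have := W.strip (l + W.q)
        omega
      have W' : ∃ W : WB0 0 1 (0 + m * 1), W.Mir ∧ W.Gl := ⟨_, mir.shift m, gl⟩
      rw [zero_add, mul_one] at W'
      exact fin (by omega) W'
    have m0 : m % n ≠ 0 := fun z => by
      rw [z, isCoprime_zero_right, Int.isUnit_iff] at c0
      omega
    by_cases n2 : n = 2
    · subst n2
      obtain rfl : e = 1 := by omega
      obtain ⟨W, e1, e2⟩ := exists_two'
      have w0 := W.w0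
      have w1 := W.wβ
      have w2 := W.wq
      have mir : W.Mir := W.mir_of (by omega) fun l a b => by
        obtain rfl | rfl : l = 0 ∨ l = W.β := by omega
        · simp [w0, w1]
        · simp [w0, w1]
      have gl : W.Gl := W.gl_of fun l a b => by
        obtain rfl | rfl | rfl : l = 0 ∨ l = W.β ∨ l = W.q := by omega
        · simp [w0, w2]
        · rw [show W.q - W.β = W.β by omega]
          simp [w1]
        · simp [w0, w2]
      by_cases m1 : m = 1
      · subst m1
        exact ⟨W, mir, gl⟩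
      · have W' : ∃ W : WB0 1 2 (1 + m / 2 * 2), W.Mir ∧ W.Gl := ⟨_, mir.shift (m / 2), gl⟩
        rw [show 1 + m / 2 * 2 = m by omega] at W'
        exact fin (by omega) W'
    have nm : 2 * (m % n) ≠ n := fun z => by
      have := Int.isUnit_iff.1 (c0.isUnit_of_dvd' ⟨2, by omega⟩ dvd_rfl)
      omega
    rcases lt_or_gt_of_ne nm with g | g
    · obtain ⟨W, mir, gl⟩ := wide _ c0 (by omega) g
      have W' : ∃ W : WB0 e n (m % n + m / n * n), W.Mir ∧ W.Gl := ⟨_, mir.shift (m / n), gl⟩
      rw [show m % n + m / n * n = m by linarith] at W'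
      exact fin (by omega) W'
    · have c1 : IsCoprime n (n - m % n) := by
        have := c0.neg_right.add_mul_left_right 1
        rwa [mul_one, neg_add_eq_sub] at this
      obtain ⟨W, mir, gl⟩ := wide _ c1 (by omega) (by omega)
      have W' : ∃ W : WB0 e n (-(n - m % n) + (m / n + 1) * n), W.Mir ∧ W.Gl :=
        ⟨_, (mir.mirror n2).shift (m / n + 1), gl.mirror n2⟩
      rw [show -(n - m % n) + (m / n + 1) * n = m by linarith] at W'
      exact fin (by omega) W'

/-- A simple periodic curve, invariant, locally, under quarter turns about `(0, 0)` and `(m, m)`,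
whose half period from `(0, 0)` to `(0, n)` lies in the rectangle `[0, m] × [0, n]`. -/
structure WD (e n m : ℤ) where
  w : ℤ → Pt
  d : ℤ → Dir
  q : ℤ
  β : ℤ
  hβ : 0 < β ∧ β < q
  step : ∀ l, w (l + 1) = w l + stepv e (d l)
  w0 : w 0 = (0, 0)
  wq : w q = (0, n)
  wβ : w β = (m, m)
  per : ∀ l, w (l + 2 * q) = w l + (n, n)
  inj : ∀ l l', w l = w l' → l = l'
  symA : ∀ i, 0 ≤ i → i ≤ q → w (-i) = rotP 1 (w i)
  symB : ∀ i, 0 ≤ i → i ≤ q → w (β - i) - (m, m) = rotP 1 (w (β + i) - (m, m))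
  box : ∀ l, 0 ≤ l → l ≤ q → 0 ≤ (w l).1 ∧ (w l).1 ≤ m ∧ 0 ≤ (w l).2 ∧ (w l).2 ≤ n ∧
    (l ≤ β → (w l).2 ≤ m) ∧ (β ≤ l → m ≤ (w l).2) ∧ (l ≤ q - β → (w l).2 ≤ n - m) ∧
    (q - β ≤ l → n - m ≤ (w l).2)
  k0 : ∀ l, 0 ≤ l → l ≤ q → (w l).1 = 0 → ((w l).2 = m → e = 0 ∧ m = 1 ∧ l < β) ∧
    ((w l).2 = n - m → e = 0 ∧ m = 1 ∧ q - β < l)
  km : ∀ l, 0 ≤ l → l ≤ q → (w l).1 = m → ((w l).2 = 0 → e = 0 ∧ m = 1) ∧
    ((w l).2 = n → e = 0 ∧ m = 1)
  mir : ∀ l, 0 ≤ l → l ≤ β → (w (β - l)).1 = m - (w l).2 ∧ (w (β - l)).2 = m - (w l).1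
  refl : ∀ l, 0 ≤ l → l ≤ q → (w (q - l)).1 = (w l).1 ∧ (w (q - l)).2 = n - (w l).2

/-- Extension of a half period in a rectangle to a periodic curve. -/
theorem extendD {e n m q : ℤ} (hq : 0 < q) (hn : m < n) (F : ℤ → Pt) (F0 : F 0 = (0, 0))
    (Fq : F q = (0, n)) (st : ∀ i, 0 ≤ i → i < q → Stp e (F i) (F (i + 1)))
    (box : ∀ i, 0 ≤ i → i ≤ q → 0 ≤ (F i).1 ∧ (F i).1 ≤ m ∧ 0 ≤ (F i).2 ∧ (F i).2 ≤ n)
    (inj : ∀ i j, 0 ≤ i → i ≤ q → 0 ≤ j → j ≤ q → F i = F j → i = j)
    (cA : ∀ i j, 0 ≤ i → i ≤ q → 0 ≤ j → j ≤ q → (F i).1 = -(F j).2 → (F i).2 = (F j).1 → j = 0)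
    (cM : ∀ i j, 0 ≤ i → i ≤ q → 0 ≤ j → j ≤ q → (F i).1 = n - (F j).2 → (F i).2 = (F j).1 + n →
      i = q) :
    ∃ w : ℤ → Pt, (∀ i, 0 ≤ i → i ≤ q → w i = F i) ∧ (∀ i, 0 ≤ i → i ≤ q → w (-i) = rotP 1 (F i)) ∧
      (∀ l, w (l + 2 * q) = w l + (n, n)) ∧ (∀ l, Stp e (w l) (w (l + 1))) ∧
      (∀ l l', w l = w l' → l = l') := by
  have hq2 : 0 < 2 * q := by omega
  obtain ⟨G, hG⟩ : ∃ G : ℤ → Pt, G = fun r => if 0 ≤ r then F r else rotP 1 (F (-r)) := ⟨_, rfl⟩
  obtain ⟨w, hw⟩ : ∃ w : ℤ → Pt,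
    w = fun l => G ((l + q) % (2 * q) - q) + ((l + q) / (2 * q)) • ((n, n) : Pt) := ⟨_, rfl⟩
  have per : ∀ l, w (l + 2 * q) = w l + (n, n) := fun l => by
    simp only [hw]
    rw [add_right_comm, Int.add_emod_right, Int.add_ediv_of_dvd_right dvd_rfl,
      Int.ediv_self hq2.ne', add_smul, one_smul, add_assoc]
  have base : ∀ r, -q ≤ r → r < q → w r = G r := fun r a b => by
    simp only [hw]
    rw [Int.emod_eq_of_lt (by omega) (by omega), Int.ediv_eq_zero_of_lt (by omega) (by omega),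
      add_sub_cancel_right, zero_smul, add_zero]
  have neg : ∀ i, 0 ≤ i → i ≤ q → w (-i) = rotP 1 (F i) := fun i a b => by
    rw [base _ (by omega) (by omega), hG]
    simp only [neg_neg]
    split_ifs with h
    · rw [show i = 0 by omega, neg_zero, F0]; rfl
    · rfl
  have pos : ∀ i, 0 ≤ i → i ≤ q → w i = F i := fun i a b => by
    rcases eq_or_lt_of_le b with rfl | h
    · have := per (-i)
      rw [show -i + 2 * i = i by ring, neg i a b, Fq] at this
      rw [this, Fq]
      ext <;> simp [rotP1]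
    · rw [base _ (by omega) h, hG]
      exact if_pos a
  have dec : ∀ l, ∃ r s, -q ≤ r ∧ r < q ∧ l = r + 2 * q * s := fun l => by
    have h1 := Int.mul_ediv_add_emod (l + q) (2 * q)
    have h2 := Int.emod_nonneg (l + q) hq2.ne'
    have h3 := Int.emod_lt_of_pos (l + q) hq2
    exact ⟨(l + q) % (2 * q) - q, (l + q) / (2 * q), by omega, by omega, by omega⟩
  have val : ∀ r, -q ≤ r → r < q → (0 ≤ r ∧ w r = F r) ∨ (r < 0 ∧ w r = rotP 1 (F (-r))) :=
    fun r a b => by
      rcases le_or_gt 0 r with h | h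
      · exact Or.inl ⟨h, pos r h b.le⟩
      · exact Or.inr ⟨h, by rw [← neg (-r) (by omega) (by omega), neg_neg]⟩
  have hm : 0 ≤ m := by have := box 0 le_rfl hq.le; omega
  refine ⟨w, pos, neg, per, fun l => ?_, fun l l' h => ?_⟩
  · obtain ⟨r, s, a, b, rfl⟩ := dec l
    rw [add_right_comm, per_mul per, per_mul per]
    refine Stp.add ?_ _
    rcases val r a b with ⟨c, d⟩ | ⟨c, d⟩
    · rw [d, pos _ (by omega) (by omega)]
      exact st r c b
    · have := neg (-(r + 1)) (by omega) (by omega)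
      rw [neg_neg] at this
      rw [d, this]
      have s := (st (-(r + 1)) (by omega) (by omega)).symm.rot 1
      rwa [show -(r + 1) + 1 = -r by ring] at s
  · obtain ⟨r, s, a, b, rfl⟩ := dec l
    obtain ⟨r', s', a', b', rfl⟩ := dec l'
    rw [per_mul per, per_mul per] at h
    have m1 : s' + 2 ≤ s → s' * n + 2 * n ≤ s * n := fun h => by nlinarith
    have m2 : s + 2 ≤ s' → s * n + 2 * n ≤ s' * n := fun h => by nlinarith
    have m3 : s = s' + 1 → s * n = s' * n + n := fun h => by rw [h]; ring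
    have m4 : s' = s + 1 → s' * n = s * n + n := fun h => by rw [h]; ring
    have m5 : s' = s → s' * n = s * n := fun h => by rw [h]
    suffices r = r' ∧ s = s' by rw [this.1, this.2]
    rcases val r a b with ⟨c, d⟩ | ⟨c, d⟩ <;> rcases val r' a' b' with ⟨c', d'⟩ | ⟨c', d'⟩ <;>
      rw [d, d'] at h <;>
      simp only [Prod.ext_iff, rotP1, Prod.fst_add, Prod.snd_add, Prod.smul_fst, Prod.smul_snd,
        smul_eq_mul] at h
    · have := box r c b.le
      have := box r' c' b'.le
      have e : s = s' := by omega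
      exact ⟨inj r r' c b.le c' b'.le (Prod.ext (by omega) (by omega)), e⟩
    · have := box r c b.le
      have := box (-r') (by omega) (by omega)
      have := cA r (-r') c b.le (by omega) (by omega)
      have := cM r (-r') c b.le (by omega) (by omega)
      omega
    · have := box r' c' b'.le
      have := box (-r) (by omega) (by omega)
      have := cA r' (-r) c' b'.le (by omega) (by omega)
      have := cM r' (-r) c' b'.le (by omega) (by omega)
      omega
    · have := box (-r) (by omega) (by omega)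
      have := box (-r') (by omega) (by omega)
      have e : s = s' := by omega
      have := inj (-r) (-r') (by omega) (by omega) (by omega) (by omega)
        (Prod.ext (by omega) (by omega))
      exact ⟨by omega, e⟩

theorem WB0.noA' {e n m : ℤ} (W : WB0 e n m) (l : ℤ) (h1 : (W.w l).1 + (W.w l).2 = n)
    (h2 : (W.w l).2 = (W.w l).1) : n = 2 := by
  have hq := W.qpos
  have m := W.monoA l
  have m' := (W.monoA (l - 2 * W.q)).1
  have p := W.per1 (l - 2 * W.q)
  rw [sub_add_cancel] at p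
  by_cases n0 : n = 0
  · have := W.inj W.q 0 (by rw [W.wq, W.w0, n0])
    omega
  have := W.n_nonneg
  rcases le_total l W.q with c | c
  · have := W.symA' (i := l) (by omega) c
    have := W.kA (-l) (by omega) (by omega)
    omega
  · have s := W.symA' (i := 2 * W.q - l) (by omega) (by omega)
    rw [neg_sub] at s
    have := W.kA (2 * W.q - l) (by omega) (by omega)
    omega

theorem WB0.noB' {e n m : ℤ} (W : WB0 e n m) (l : ℤ) (h1 : (W.w l).1 + (W.w l).2 = 2 * m - n)
    (h2 : (W.w l).2 = (W.w l).1) : n = 2 := by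
  have hq := W.qpos
  have m := W.monoB l
  have m' := (W.monoB (l + 2 * W.q)).2.1
  have p := W.per1 l
  by_cases n0 : n = 0
  · have := W.inj W.q 0 (by rw [W.wq, W.w0, n0])
    omega
  have := W.n_nonneg
  rcases le_total l (W.β - W.q) with c | c
  · have s := W.symB' (i := l + 2 * W.q - W.β) (by omega) (by omega)
    rw [add_sub_cancel] at s
    have := W.kB (W.β - (l + 2 * W.q - W.β)) (by omega) (by omega)
    omega
  · have s := W.symB' (i := W.β - l) (by omega) (by omega)
    rw [sub_sub_cancel] at s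
    have := W.kB (W.β + (W.β - l)) (by omega) (by omega)
    omega

/-- The curve in rectangles is made from arcs of a curve in a strip. -/
theorem exists_WD_of {e e' n m N M s : ℤ} (G : WB0 e' N M) (mir : G.Mir) (gl : G.Gl) (hm : 0 < m) (hn : m < n)
    (hs : (e = 1 ∧ s = 1 ∧ m % 2 = 1) ∨ (e = 0 ∧ s = 2)) (hN : N = s * m) (hM : 2 * M = s * n - 2 * N)
    (g : ℤ → Pt) (hg : ∀ l, s * (g l).1 = N + (G.w (l - G.q)).1 - (G.w (l - G.q)).2 ∧
      s * (g l).2 = N + (G.w (l - G.q)).1 + (G.w (l - G.q)).2)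
    (st : ∀ l, Stp e (g l) (g (l + 1))) :
    ∃ W : WD e n m, W.β = G.q ∧ W.q = G.β + 2 * G.q ∧ ∀ l, 0 ≤ l → l ≤ W.q + W.β → W.w l = g l := by
  have hq := G.qpos
  have h0 : 0 < G.β + G.q := by
    have := (G.monoA G.β).2.2.2.1
    rw [G.wβ] at this
    simp only at this
    rcases hs with ⟨-, rfl, -⟩ | ⟨-, rfl⟩ <;> omega
  have ginj : ∀ i j, (g i).1 = (g j).1 → (g i).2 = (g j).2 → i = j := fun i j a b => by
    have h1 := hg i
    have h2 := hg j
    rw [a, b] at h1
    have := G.inj (i - G.q) (j - G.q) (Prod.ext (by omega) (by omega))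
    omega
  have gper : ∀ l, (g (l + 2 * G.q)).1 = (g l).1 ∧ (g (l + 2 * G.q)).2 = (g l).2 + 2 * m :=
    fun l => by
      have h1 := hg l
      have h2 := hg (l + 2 * G.q)
      have h3 := G.per1 (l - G.q)
      rw [show l + 2 * G.q - G.q = l - G.q + 2 * G.q by ring] at h2
      rcases hs with ⟨-, rfl, -⟩ | ⟨-, rfl⟩ <;> omega
  have gA : ∀ i, 0 ≤ i → i ≤ G.q →
      (g (G.q - i)).1 = 2 * m - (g (G.q + i)).2 ∧ (g (G.q - i)).2 = (g (G.q + i)).1 := fun i a b => by
    have h1 := hg (G.q - i)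
    have h2 := hg (G.q + i)
    have h3 := G.symA' a b
    rw [sub_sub_cancel_left] at h1
    rw [add_sub_cancel_left] at h2
    rcases hs with ⟨-, rfl, -⟩ | ⟨-, rfl⟩ <;> omega
  have gB : ∀ i, 0 ≤ i → i ≤ G.q → (g (G.β + 2 * G.q + i)).1 = n - (g (G.β + 2 * G.q - i)).2 ∧
      (g (G.β + 2 * G.q + i)).2 = n + (g (G.β + 2 * G.q - i)).1 := fun i a b => by
    have h1 := hg (G.β + 2 * G.q - i)
    have h2 := hg (G.β + 2 * G.q + i)
    have h3 := G.symB' (i := G.q - i) (by omega) (by omega)
    have h4 := G.per1 (G.β - (G.q - i))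
    rw [show G.β + 2 * G.q - i - G.q = G.β + (G.q - i) by ring] at h1
    rw [show G.β + 2 * G.q + i - G.q = G.β - (G.q - i) + 2 * G.q by ring] at h2
    rcases hs with ⟨-, rfl, -⟩ | ⟨-, rfl⟩ <;> omega
  have gβ : g G.q = (m, m) := by
    have h := hg G.q
    rw [sub_self, G.w0] at h
    simp only at h
    rcases hs with ⟨-, rfl, -⟩ | ⟨-, rfl⟩ <;> exact Prod.ext (by simp only; omega) (by simp only; omega)
  have g0 : g 0 = (0, 0) := by
    have h := hg 0
    have h2 := G.symA' hq.le le_rfl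
    rw [G.wq] at h2
    rw [zero_sub] at h
    simp only at h2
    rcases hs with ⟨-, rfl, -⟩ | ⟨-, rfl⟩ <;> exact Prod.ext (by simp only; omega) (by simp only; omega)
  have gq : g (G.β + 2 * G.q) = (0, n) := by
    have h := hg (G.β + 2 * G.q)
    have h2 := G.symB' hq.le le_rfl
    have h3 := G.per1 (G.β - G.q)
    rw [show G.β - G.q + 2 * G.q = G.β + G.q by ring] at h3
    rw [show G.β + 2 * G.q - G.q = G.β + G.q by ring] at h
    rcases hs with ⟨-, rfl, -⟩ | ⟨-, rfl⟩ <;> exact Prod.ext (by simp only; omega) (by simp only; omega)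
  have box : ∀ l, 0 ≤ l → l ≤ G.β + 2 * G.q → 0 ≤ (g l).1 ∧ (g l).1 ≤ m ∧ 0 ≤ (g l).2 ∧
      (g l).2 ≤ n ∧ (l ≤ G.q → (g l).2 ≤ m) ∧ (G.q ≤ l → m ≤ (g l).2) ∧
      (l ≤ G.β + 2 * G.q - G.q → (g l).2 ≤ n - m) ∧
      (G.β + 2 * G.q - G.q ≤ l → n - m ≤ (g l).2) := fun l a b => by
    have h := hg l
    have h1 := G.strip (l - G.q)
    have h2 := G.monoA (l - G.q)
    have h3 := G.monoB (l - G.q)
    rcases hs with ⟨-, rfl, -⟩ | ⟨-, rfl⟩ <;>
      exact ⟨by omega, by omega, by omega, by omega, by omega, by omega, by omega, by omega⟩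
  have k0 : ∀ l, (g l).1 = 0 → ((g l).2 = m → e = 0 ∧ m = 1 ∧ l < G.q) ∧
      ((g l).2 = n - m → e = 0 ∧ m = 1 ∧ G.β + 2 * G.q - G.q < l) := fun l a => by
    have h := hg l
    have h1 := G.kA (l - G.q)
    have h2 := G.kB (l - G.q)
    rcases hs with ⟨rfl, rfl, _⟩ | ⟨rfl, rfl⟩ <;> exact ⟨fun _ => by omega, fun _ => by omega⟩
  obtain ⟨w, pos, neg, per, stw, winj⟩ := extendD (e := e) (q := G.β + 2 * G.q) (by omega) hn g g0 gq
    (fun i _ _ => st i) (fun i a b => by have := box i a b; omega)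
    (fun i j _ _ _ _ h => ginj i j (by rw [h]) (by rw [h]))
    (fun i j a b c d f h => by
      have b1 := box i a b
      have b2 := box j c d
      by_cases u : i ≤ G.q
      · have h1 := gA (G.q - i) (by omega) (by omega)
        have h2 := gper (-i)
        rw [sub_sub_cancel, show G.q + (G.q - i) = -i + 2 * G.q by ring] at h1
        have := ginj j (-i) (by omega) (by omega)
        omega
      · have := (k0 i (by omega)).1 (by omega)
        omega)
    (fun i j a b c d f h => by
      have b1 := box i a b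
      have b2 := box j c d
      by_cases u : G.β + G.q ≤ j
      · have h1 := gB (G.β + 2 * G.q - j) (by omega) (by omega)
        rw [sub_sub_cancel] at h1
        have := ginj i (G.β + 2 * G.q + (G.β + 2 * G.q - j)) (by omega) (by omega)
        omega
      · have := (k0 j (by omega)).2 (by omega)
        omega)
  have old : ∀ l, 0 ≤ l → l ≤ G.β + 2 * G.q + G.q → w l = g l := fun l a b => by
    by_cases c : l ≤ G.β + 2 * G.q
    · exact pos l a c
    have h1 := gB (l - (G.β + 2 * G.q)) (by omega) (by omega)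
    have h2 := per (-(G.β + 2 * G.q - (l - (G.β + 2 * G.q))))
    rw [neg _ (by omega) (by omega), show -(G.β + 2 * G.q - (l - (G.β + 2 * G.q))) +
      2 * (G.β + 2 * G.q) = l by ring] at h2
    rw [add_sub_cancel] at h1
    rw [h2]
    ext <;> simp only [rotP1, Prod.fst_add, Prod.snd_add] <;> omega
  refine ⟨{
    w := w
    d := fun l => (stw l).choose
    q := G.β + 2 * G.q
    β := G.q
    hβ := by omega
    step := fun l => (stw l).choose_spec
    w0 := by rw [pos 0 le_rfl (by omega), g0]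
    wq := by rw [pos _ (by omega) le_rfl, gq]
    wβ := by rw [pos _ (by omega) (by omega), gβ]
    per := per
    inj := winj
    symA := fun i a b => by rw [neg i a b, pos i a b]
    symB := fun i a b => ?_
    box := fun l a b => by rw [pos l a b]; exact box l a b
    k0 := fun l a b => by rw [pos l a b]; exact k0 l
    km := fun l a b c => ?_
    mir := fun l a b => ?_
    refl := fun l a b => ?_ }, rfl, rfl, old⟩
  · rw [old (G.q + i) (by omega) (by omega)]
    by_cases c : i ≤ G.q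
    · have := gA i a c
      rw [old _ (by omega) (by omega)]
      ext <;> simp only [rotP1, Prod.fst_sub, Prod.snd_sub] <;> omega
    · have h1 := neg (i - G.q) (by omega) (by omega)
      have h2 := gper (i - G.q)
      rw [neg_sub] at h1
      rw [show i - G.q + 2 * G.q = G.q + i by ring] at h2
      rw [h1]
      ext <;> simp only [rotP1, Prod.fst_sub, Prod.snd_sub] <;> omega
  · rw [pos l a b] at c ⊢
    have h := hg l
    have p := G.per1 (l - G.q)
    have p' := G.per1 (l - G.q - 2 * G.q)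
    rw [sub_add_cancel] at p'
    refine ⟨fun f => ?_, fun f => ?_⟩
    · have := G.noA' (l - G.q + 2 * G.q)
      rcases hs with ⟨rfl, rfl, _⟩ | ⟨rfl, rfl⟩ <;> omega
    · have := G.noB' (l - G.q - 2 * G.q)
      rcases hs with ⟨rfl, rfl, _⟩ | ⟨rfl, rfl⟩ <;> omega
  · rw [pos l a (by omega), pos _ (by omega) (by omega)]
    have h1 := hg l
    have h2 := hg (G.q - l)
    have h3 := gl (l - G.q)
    have h4 := G.symA' a b
    rw [sub_add_cancel] at h3
    rw [sub_sub_cancel_left] at h2
    rcases hs with ⟨-, rfl, -⟩ | ⟨-, rfl⟩ <;> omega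
  · rw [pos l a b, pos _ (by omega) (by omega)]
    have h1 := hg l
    have h2 := hg (G.β + 2 * G.q - l)
    have h3 := mir (l - G.q)
    rw [show G.β + 2 * G.q - l - G.q = G.β - (l - G.q) by ring] at h2
    rcases hs with ⟨-, rfl, -⟩ | ⟨-, rfl⟩ <;> omega

theorem exists_WD_even (n m : ℤ) (hm : 0 < m) (hn : m < n) (hc : IsCoprime n m) (he : n % 2 = 0) :
    ∃ (G : WB 0 m (n / 2 - m)) (W : WD 1 n m), W.β = G.q ∧ W.q = G.β + 2 * G.q ∧
      ∀ l, 0 ≤ l → l ≤ W.q + W.β → (W.w l).1 = m + (G.w (l - G.q)).1 - (G.w (l - G.q)).2 ∧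
        (W.w l).2 = m + (G.w (l - G.q)).1 + (G.w (l - G.q)).2 := by
  have ho : m % 2 = 1 := by
    by_contra h
    have := Int.isUnit_iff.1 (hc.isUnit_of_dvd' (Int.dvd_of_emod_eq_zero he)
      (Int.dvd_of_emod_eq_zero (show m % 2 = 0 by omega)))
    omega
  have c : IsCoprime m (n / 2 - m) := by
    obtain ⟨u, v, h⟩ := hc
    refine ⟨v + 2 * u, 2 * u, ?_⟩
    have : n = 2 * (n / 2) := by omega
    linear_combination h - u * this
  obtain ⟨G, mir, gl⟩ := exists_WS 0 m (n / 2 - m) hm c (Or.inl ⟨rfl, ho⟩)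
  obtain ⟨W, h1, h2, h3⟩ := exists_WD_of (e := 1) (s := 1) G.toWB0 mir gl hm hn (Or.inl ⟨rfl, rfl, ho⟩)
    (by ring) (by omega) (fun l => (m + (G.w (l - G.q)).1 - (G.w (l - G.q)).2,
      m + (G.w (l - G.q)).1 + (G.w (l - G.q)).2)) (fun l => by simp) fun l => by
      refine ⟨G.d (l - G.q), ?_⟩
      rw [show l + 1 - G.q = l - G.q + 1 by ring, G.step]
      rcases dir_cases (G.d (l - G.q)) with h | h | h | h <;> rw [h] <;> ext <;>
        simp [stepv, dv] <;> ring
  exact ⟨G, W, h1, h2, fun l a b => by rw [h3 l a b]; exact ⟨rfl, rfl⟩⟩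

theorem exists_WD_odd (n m : ℤ) (hm : 0 < m) (hn : m < n) (hc : IsCoprime n m) (he : n % 2 = 1) :
    ∃ (G : WB 1 (2 * m) (n - 2 * m)) (W : WD 0 n m), W.β = G.q ∧ W.q = G.β + 2 * G.q ∧
      ∀ l, 0 ≤ l → l ≤ W.q + W.β →
        2 * (W.w l).1 = 2 * m + (G.w (l - G.q)).1 - (G.w (l - G.q)).2 ∧
        2 * (W.w l).2 = 2 * m + (G.w (l - G.q)).1 + (G.w (l - G.q)).2 := by
  have c : IsCoprime (2 * m) (n - 2 * m) := by
    have c2 : IsCoprime 2 n := ⟨-(n / 2), 1, by omega⟩
    have := (c2.mul_left hc.symm).add_mul_left_right (-1)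
    rwa [mul_neg_one, ← sub_eq_add_neg] at this
  obtain ⟨G, mir, gl⟩ := exists_WS 1 (2 * m) (n - 2 * m) (by omega) c (Or.inr ⟨rfl, by omega⟩)
  have hg : ∀ l, 2 * (m + ((G.w l).1 - (G.w l).2) / 2) = 2 * m + (G.w l).1 - (G.w l).2 ∧
      2 * (m + ((G.w l).1 + (G.w l).2) / 2) = 2 * m + (G.w l).1 + (G.w l).2 := fun l => by
    have := G.par rfl l
    omega
  obtain ⟨W, h1, h2, h3⟩ := exists_WD_of (e := 0) (s := 2) G.toWB0 mir gl hm hn (Or.inr ⟨rfl, rfl⟩)
    rfl (by omega) (fun l => (m + ((G.w (l - G.q)).1 - (G.w (l - G.q)).2) / 2,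
      m + ((G.w (l - G.q)).1 + (G.w (l - G.q)).2) / 2)) (fun l => hg _) fun l => by
      refine ⟨G.d (l - G.q) + 1, ?_⟩
      have := G.par rfl (l - G.q)
      rw [show l + 1 - G.q = l - G.q + 1 by ring, G.step]
      rcases dir_cases (G.d (l - G.q)) with h | h | h | h <;> rw [h] <;> ext <;>
        simp [stepv, dv] <;> omega
  exact ⟨G, W, h1, h2, fun l a b => by rw [h3 l a b]; exact hg _⟩

theorem exists_WD (e n m : ℤ) (hm : 0 < m) (hn : m < n) (hc : IsCoprime n m)
    (he : (e = 0 ∧ n % 2 = 1) ∨ (e = 1 ∧ n % 2 = 0)) : Nonempty (WD e n m) := by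
  rcases he with ⟨rfl, h⟩ | ⟨rfl, h⟩
  · obtain ⟨-, W, -⟩ := exists_WD_odd n m hm hn hc h
    exact ⟨W⟩
  · obtain ⟨-, W, -⟩ := exists_WD_even n m hm hn hc h
    exact ⟨W⟩

end NP
end Pool.Agent.Lib.MP_4a7072_co
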