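import Pool.Agent.Lib.MP_4a7072_co.NWDefs

/-!
Existence of the periodic curves with four centres of rotation, by a Euclidean recursion.
-/

set_option autoImplicit false

namespace Pool.Agent.Lib.MP_4a7072_co
namespace NP

theorem rotP1 (z : Pt) : rotP 1 z = (-z.2, z.1) := rfl
theorem rotP2 (z : Pt) : rotP 2 z = (-z.1, -z.2) := rfl
theorem rotP3 (z : Pt) : rotP 3 z = (z.2, -z.1) := rfl

/-- A quasi-periodic function that stays in two boxes near `c` is monotone with respect to `c`. -/
theorem corr {f : ℤ → ℤ} {q n c : ℤ} (hq : 0 < q) (hn : 0 ≤ n) (per : ∀ l, f (l + 2 * q) = f l + 2 * n)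
    (b1 : ∀ i, 0 ≤ i → i ≤ q → f c ≤ f (c + i) ∧ f (c + i) ≤ f c + n)
    (b2 : ∀ i, 0 ≤ i → i ≤ q → f c - n ≤ f (c - i) ∧ f (c - i) ≤ f c) (l : ℤ) :
    (c ≤ l → f c ≤ f l) ∧ (l ≤ c → f l ≤ f c) ∧ (c + q ≤ l → f c + n ≤ f l) ∧
      (l ≤ c - q → f l ≤ f c - n) ∧ (l ≤ c + q → f l ≤ f c + n) ∧ (c - q ≤ l → f c - n ≤ f l) := by
  have mid : ∀ l, c - q ≤ l → l ≤ c + q → (c ≤ l → f c ≤ f l) ∧ (l ≤ c → f l ≤ f c) ∧
      f c - n ≤ f l ∧ f l ≤ f c + n := by
    intro l h1 h2
    rcases lt_trichotomy l c with h | rfl | h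
    · have := b2 (c - l) (by omega) (by omega)
      rw [sub_sub_cancel] at this
      omega
    · omega
    · have := b1 (l - c) (by omega) (by omega)
      rw [add_sub_cancel] at this
      omega
  have up : ∀ t : ℕ, ∀ l, l ≤ c + t → c - q ≤ l → f c - n ≤ f l := by
    intro t
    induction t with
    | zero => exact fun l a b => (mid l b (by omega)).2.2.1
    | succ t ih =>
      intro l a b
      by_cases h : l ≤ c + q
      · exact (mid l b h).2.2.1
      · have := ih (l - 2 * q) (by omega) (by omega)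
        have e := per (l - 2 * q)
        rw [sub_add_cancel] at e
        omega
  have down : ∀ t : ℕ, ∀ l, c - t ≤ l → l ≤ c + q → f l ≤ f c + n := by
    intro t
    induction t with
    | zero => exact fun l a b => (mid l (by omega) b).2.2.2
    | succ t ih =>
      intro l a b
      by_cases h : c - q ≤ l
      · exact (mid l h b).2.2.2
      · have := ih (l + 2 * q) (by omega) (by omega)
        have e := per l
        omega
  have u : ∀ l, c - q ≤ l → f c - n ≤ f l := fun l => up (l - c).toNat l (by omega)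
  have d : ∀ l, l ≤ c + q → f l ≤ f c + n := fun l => down (c - l).toNat l (by omega)
  have u' : c + q ≤ l → f c + n ≤ f l := fun h => by
    have := u (l - 2 * q) (by omega)
    have e := per (l - 2 * q)
    rw [sub_add_cancel] at e
    omega
  have d' : l ≤ c - q → f l ≤ f c - n := fun h => by
    have := d (l + 2 * q) (by omega)
    have e := per l
    omega
  refine ⟨fun h => ?_, fun h => ?_, u', d', d l, u l⟩
  · by_cases g : l ≤ c + q
    · exact (mid l (by omega) g).1 h
    · have := u' (by omega); omega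
  · by_cases g : c - q ≤ l
    · exact (mid l g (by omega)).2.1 h
    · have := d' (by omega); omega

theorem per_mul {w : ℤ → Pt} {q : ℤ} {τ : Pt} (per : ∀ l, w (l + 2 * q) = w l + τ) (s l : ℤ) :
    w (l + 2 * q * s) = w l + s • τ := by
  induction s with
  | zero => simp
  | succ s ih => rw [mul_add, mul_one, ← add_assoc, per, ih, add_smul, one_smul, add_assoc]
  | pred s ih =>
    have := per (l + 2 * q * (-(s : ℤ) - 1))
    rw [show l + 2 * q * (-(s : ℤ) - 1) + 2 * q = l + 2 * q * -(s : ℤ) by ring, ih] at this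
    rw [sub_smul, one_smul, ← add_sub_assoc, this, add_sub_cancel_right]

/-- One step of the coarse curve. -/
def Stp (e : ℤ) (u v : Pt) : Prop := ∃ d, v = u + stepv e d

theorem stepv_rot (e : ℤ) (t d : Dir) : rotP t (stepv e d) = stepv e (d + t) := by
  unfold stepv
  split_ifs
  · exact rotP_dv t d
  · rw [rotP_add, rotP_dv, rotP_dv, add_right_comm d 1 t]

theorem Stp.symm {e : ℤ} {u v : Pt} (h : Stp e u v) : Stp e v u := by
  obtain ⟨d, rfl⟩ := h
  refine ⟨d + 2, ?_⟩
  rw [← stepv_rot, rotP2]
  ext <;> simp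

theorem Stp.rot {e : ℤ} {u v : Pt} (h : Stp e u v) (t : Dir) : Stp e (rotP t u) (rotP t v) := by
  obtain ⟨d, rfl⟩ := h
  exact ⟨d + t, by rw [rotP_add, stepv_rot]⟩

theorem Stp.add {e : ℤ} {u v : Pt} (h : Stp e u v) (c : Pt) : Stp e (u + c) (v + c) := by
  obtain ⟨d, rfl⟩ := h
  exact ⟨d, add_right_comm _ _ _⟩

theorem Stp.mirror {e : ℤ} {u v : Pt} (h : Stp e u v) : Stp e (-u.2, -u.1) (-v.2, -v.1) := by
  obtain ⟨d, rfl⟩ := h
  unfold Stp stepv
  split_ifs
  · exact ⟨3 - d, by rcases dir_cases d with rfl | rfl | rfl | rfl <;> ext <;> simp [dv] <;> ring⟩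
  · exact ⟨2 - d, by rcases dir_cases d with rfl | rfl | rfl | rfl <;> ext <;> simp [dv] <;> ring⟩

namespace WB0

variable {e n m : ℤ} (W : WB0 e n m)

theorem stp (l : ℤ) : Stp e (W.w l) (W.w (l + 1)) := ⟨_, W.step l⟩

include W in
theorem n_nonneg : 0 ≤ n := by have := W.strip 0; omega

theorem perξ (l : ℤ) : (W.w (l + 2 * W.q)).1 + (W.w (l + 2 * W.q)).2 =
    (W.w l).1 + (W.w l).2 + 2 * n := by
  rw [W.per]; simp only [Prod.fst_add, Prod.snd_add]; ring

theorem symA' {i : ℤ} (h : 0 ≤ i) (h' : i ≤ W.q) :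
    (W.w (-i)).1 = -(W.w i).2 ∧ (W.w (-i)).2 = (W.w i).1 := by
  rw [W.symA i h h']; exact ⟨rfl, rfl⟩

theorem symB' {i : ℤ} (h : 0 ≤ i) (h' : i ≤ W.q) :
    (W.w (W.β - i)).1 = 2 * m - (W.w (W.β + i)).2 ∧ (W.w (W.β - i)).2 = (W.w (W.β + i)).1 := by
  have := W.symB i h h'
  simp only [rotP1, Prod.ext_iff, Prod.fst_sub, Prod.snd_sub] at this
  omega

theorem monoA (l : ℤ) : (0 ≤ l → 0 ≤ (W.w l).1 + (W.w l).2) ∧ (l ≤ 0 → (W.w l).1 + (W.w l).2 ≤ 0) ∧
    (W.q ≤ l → n ≤ (W.w l).1 + (W.w l).2) ∧ (l ≤ -W.q → (W.w l).1 + (W.w l).2 ≤ -n) ∧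
    (l ≤ W.q → (W.w l).1 + (W.w l).2 ≤ n) ∧ (-W.q ≤ l → -n ≤ (W.w l).1 + (W.w l).2) := by
  have := corr (f := fun l => (W.w l).1 + (W.w l).2) (c := 0) W.qpos W.n_nonneg W.perξ
    (fun i a b => by
      have := W.symA' a b; have := W.strip (-i); simp only [W.w0, zero_add]; omega)
    (fun i a b => by
      have := W.symA' a b; have := W.strip i; simp only [W.w0, zero_sub]; omega) l
  simpa only [W.w0, add_zero, zero_add, zero_sub] using this

theorem monoB (l : ℤ) : (W.β ≤ l → 2 * m ≤ (W.w l).1 + (W.w l).2) ∧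
    (l ≤ W.β → (W.w l).1 + (W.w l).2 ≤ 2 * m) ∧
    (W.β + W.q ≤ l → 2 * m + n ≤ (W.w l).1 + (W.w l).2) ∧
    (l ≤ W.β - W.q → (W.w l).1 + (W.w l).2 ≤ 2 * m - n) ∧
    (l ≤ W.β + W.q → (W.w l).1 + (W.w l).2 ≤ 2 * m + n) ∧
    (W.β - W.q ≤ l → 2 * m - n ≤ (W.w l).1 + (W.w l).2) := by
  have := corr (f := fun l => (W.w l).1 + (W.w l).2) (c := W.β) W.qpos W.n_nonneg W.perξ
    (fun i a b => by
      have := W.symB' a b; have := W.strip (W.β - i); simp only [W.wβ]; omega)
    (fun i a b => by
      have := W.symB' a b; have := W.strip (W.β + i); simp only [W.wβ]; omega) l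
  simpa only [W.wβ, ← two_mul] using this

/-- The same curve with another centre. -/
def shift (s : ℤ) : WB0 e n (m + s * n) where
  w := W.w
  d := W.d
  q := W.q
  β := W.β + 2 * W.q * s
  qpos := W.qpos
  step := W.step
  w0 := W.w0
  wq := W.wq
  wβ := by rw [per_mul W.per, W.wβ]; rfl
  per := W.per
  inj := W.inj
  strip := W.strip
  symA := W.symA
  symB := fun i a b => by
    have := W.symB' a b
    rw [add_sub_right_comm, add_right_comm, per_mul W.per, per_mul W.per]
    ext <;> simp [rotP1] <;> omega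
  kA := W.kA
  kB := fun l a b => by
    have e := per_mul W.per s (l - 2 * W.q * s)
    rw [sub_add_cancel] at e
    rw [e] at a b
    simp only [Prod.fst_add, Prod.snd_add, Prod.smul_fst, Prod.smul_snd, smul_eq_mul] at a b
    have := W.kB (l - 2 * W.q * s) (by omega) (by omega)
    omega

theorem stp_mirror (l : ℤ) : Stp e (-(W.w (-l)).2, -(W.w (-l)).1)
    (-(W.w (-(l + 1))).2, -(W.w (-(l + 1))).1) := by
  have := (W.stp (-(l + 1))).symm.mirror
  rwa [show -(l + 1) + 1 = -l by ring] at this

/-- The mirror image of the curve. -/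
noncomputable def mirror (hn : n ≠ 2) : WB0 e n (-m) where
  w := fun l => (-(W.w (-l)).2, -(W.w (-l)).1)
  d := fun l => (W.stp_mirror l).choose
  q := W.q
  β := -W.β
  qpos := W.qpos
  step := fun l => (W.stp_mirror l).choose_spec
  w0 := by simp [W.w0]
  wq := by
    have := W.symA' W.qpos.le le_rfl
    rw [W.wq] at this
    ext <;> simp [this]
  wβ := by simp [W.wβ]
  per := fun l => by
    have := W.per (-(l + 2 * W.q))
    rw [show -(l + 2 * W.q) + 2 * W.q = -l by ring] at this
    rw [this]
    ext <;> simp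
  inj := fun l l' h => by
    simp only [Prod.ext_iff, neg_inj] at h
    exact neg_injective (W.inj _ _ (Prod.ext h.2 h.1))
  strip := fun l => by have := W.strip (-l); simp only; omega
  symA := fun i a b => by
    have := W.symA' a b
    ext <;> simp [rotP1, this]
  symB := fun i a b => by
    have := W.symB' a b
    rw [show -(-W.β - i) = W.β + i by ring, show -(-W.β + i) = W.β - i by ring]
    ext <;> simp [rotP1] <;> omega
  kA := fun l a b => absurd (W.kA (-l) (by simp only at a; omega) (by simp only at b; omega)).1 hn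
  kB := fun l a b => absurd (W.kB (-l) (by simp only at a; omega) (by simp only at b; omega)).1 hn

/-- The depth bounds are trivial when the strip is narrow. -/
def toWB (h : 0 < m → n < 2 * m) (he : e = 1 → n % 2 = 0) : WB e n m where
  toWB0 := W
  dep := fun hm l a b => by
    have := h hm
    have := W.strip l
    refine ⟨by omega, fun c d f => ?_⟩
    have := he d
    have := W.kB l f
    omega
  big := fun hm hn => by have := h hm; omega

end WB0

/-- Extension of a half period to a periodic curve. -/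
theorem extend {e n q : ℤ} (hq : 0 < q) (hn : 0 < n) (F : ℤ → Pt) (F0 : F 0 = (0, 0))
    (Fq : F q = (0, n)) (st : ∀ i, 0 ≤ i → i < q → Stp e (F i) (F (i + 1)))
    (box : ∀ i, 0 ≤ i → i ≤ q → 0 ≤ (F i).1 + (F i).2 ∧ (F i).1 + (F i).2 ≤ n ∧
      0 ≤ (F i).2 - (F i).1 ∧ (F i).2 - (F i).1 ≤ n)
    (inj : ∀ i j, 0 ≤ i → i ≤ q → 0 ≤ j → j ≤ q → F i = F j → i = j)
    (cA : ∀ i j, 0 ≤ i → i ≤ q → 0 ≤ j → j ≤ q → (F i).1 = -(F j).2 → (F i).2 = (F j).1 → j = 0)
    (cM : ∀ i j, 0 ≤ i → i ≤ q → 0 ≤ j → j ≤ q → (F i).1 = n - (F j).2 → (F i).2 = (F j).1 + n →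
      i = q) :
    ∃ w : ℤ → Pt, (∀ i, 0 ≤ i → i ≤ q → w i = F i) ∧ (∀ i, 0 ≤ i → i ≤ q → w (-i) = rotP 1 (F i)) ∧
      (∀ l, w (l + 2 * q) = w l + (n, n)) ∧ (∀ l, Stp e (w l) (w (l + 1))) ∧
      (∀ l l', w l = w l' → l = l') ∧ ∀ l, 0 ≤ (w l).2 - (w l).1 ∧ (w l).2 - (w l).1 ≤ n := by
  have hq2 : 0 < 2 * q := by omega
  obtain ⟨G, hG⟩ : ∃ G : ℤ → Pt, G = fun r => if 0 ≤ r then F r else rotP 1 (F (-r)) := ⟨_, rfl⟩
  obtain ⟨w, hw⟩ : ∃ w : ℤ → Pt,
    w = fun l => G ((l + q) % (2 * q) - q) + ((l + q) / (2 * q)) • ((n, n) : Pt) := ⟨_, rfl⟩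
  have per : ∀ l, w (l + 2 * q) = w l + (n, n) := fun l => by
    simp only [hw]
    rw [add_right_comm, Int.add_emod_right, Int.add_ediv_of_dvd_right dvd_rfl,
      Int.ediv_self hq2.ne', add_smul, one_smul, add_assoc]
  have base : ∀ r, -q ≤ r → r < q → w r = G r := fun r a b => by
    simp only [hw]
    rw [Int.emod_eq_of_lt (by omega) (by omega), Int.ediv_eq_zero_of_lt (by omega) (by omega),
      add_sub_cancel_right, zero_smul, add_zero]
  have neg : ∀ i, 0 ≤ i → i ≤ q → w (-i) = rotP 1 (F i) := fun i a b => by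
    rw [base _ (by omega) (by omega), hG]
    simp only [neg_neg]
    split_ifs with h
    · rw [show i = 0 by omega, neg_zero, F0]; rfl
    · rfl
  have pos : ∀ i, 0 ≤ i → i ≤ q → w i = F i := fun i a b => by
    rcases eq_or_lt_of_le b with rfl | h
    · have := per (-i)
      rw [show -i + 2 * i = i by ring, neg i a b, Fq] at this
      rw [this, Fq]
      ext <;> simp [rotP1]
    · rw [base _ (by omega) h, hG]
      exact if_pos a
  have dec : ∀ l, ∃ r s, -q ≤ r ∧ r < q ∧ l = r + 2 * q * s := fun l => by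
    have h1 := Int.mul_ediv_add_emod (l + q) (2 * q)
    have h2 := Int.emod_nonneg (l + q) hq2.ne'
    have h3 := Int.emod_lt_of_pos (l + q) hq2
    exact ⟨(l + q) % (2 * q) - q, (l + q) / (2 * q), by omega, by omega, by omega⟩
  have val : ∀ r, -q ≤ r → r < q → (0 ≤ r ∧ w r = F r) ∨ (r < 0 ∧ w r = rotP 1 (F (-r))) :=
    fun r a b => by
      rcases le_or_gt 0 r with h | h
      · exact Or.inl ⟨h, pos r h b.le⟩
      · exact Or.inr ⟨h, by rw [← neg (-r) (by omega) (by omega), neg_neg]⟩
  refine ⟨w, pos, neg, per, fun l => ?_, fun l l' h => ?_, fun l => ?_⟩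
  · obtain ⟨r, s, a, b, rfl⟩ := dec l
    rw [add_right_comm, per_mul per, per_mul per]
    refine Stp.add ?_ _
    rcases val r a b with ⟨c, d⟩ | ⟨c, d⟩
    · rw [d, pos _ (by omega) (by omega)]
      exact st r c b
    · have := neg (-(r + 1)) (by omega) (by omega)
      rw [neg_neg] at this
      rw [d, this]
      have s := (st (-(r + 1)) (by omega) (by omega)).symm.rot 1
      rwa [show -(r + 1) + 1 = -r by ring] at s
  · obtain ⟨r, s, a, b, rfl⟩ := dec l
    obtain ⟨r', s', a', b', rfl⟩ := dec l'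
    rw [per_mul per, per_mul per] at h
    have m1 : s' + 2 ≤ s → s' * n + 2 * n ≤ s * n := fun h => by nlinarith
    have m2 : s + 2 ≤ s' → s * n + 2 * n ≤ s' * n := fun h => by nlinarith
    have m3 : s = s' + 1 → s * n = s' * n + n := fun h => by rw [h]; ring
    have m4 : s' = s + 1 → s' * n = s * n + n := fun h => by rw [h]; ring
    have m5 : s' = s → s' * n = s * n := fun h => by rw [h]
    suffices r = r' ∧ s = s' by rw [this.1, this.2]
    rcases val r a b with ⟨c, d⟩ | ⟨c, d⟩ <;> rcases val r' a' b' with ⟨c', d'⟩ | ⟨c', d'⟩ <;>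
      rw [d, d'] at h <;>
      simp only [Prod.ext_iff, rotP1, Prod.fst_add, Prod.snd_add, Prod.smul_fst, Prod.smul_snd,
        smul_eq_mul] at h
    · have := box r c b.le
      have := box r' c' b'.le
      have e : s = s' := by omega
      exact ⟨inj r r' c b.le c' b'.le (Prod.ext (by omega) (by omega)), e⟩
    · have := box r c b.le
      have := box (-r') (by omega) (by omega)
      have := cA r (-r') c b.le (by omega) (by omega)
      have := cM r (-r') c b.le (by omega) (by omega)
      omega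
    · have := box r' c' b'.le
      have := box (-r) (by omega) (by omega)
      have := cA r' (-r) c' b'.le (by omega) (by omega)
      have := cM r' (-r) c' b'.le (by omega) (by omega)
      omega
    · have := box (-r) (by omega) (by omega)
      have := box (-r') (by omega) (by omega)
      have e : s = s' := by omega
      have := inj (-r) (-r') (by omega) (by omega) (by omega) (by omega)
        (Prod.ext (by omega) (by omega))
      omega
  · obtain ⟨r, s, a, b, rfl⟩ := dec l
    rw [per_mul per]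
    rcases val r a b with ⟨c, d⟩ | ⟨c, d⟩ <;> rw [d] <;>
      simp only [rotP1, Prod.fst_add, Prod.snd_add, Prod.smul_fst, Prod.smul_snd, smul_eq_mul]
    · have := box r c b.le; omega
    · have := box (-r) (by omega) (by omega); omega

/-- The step of the recursion: the strip gets wider by `2 m`. -/
theorem WB.widen {e n m : ℤ} (W : WB e n m) (hn : 0 < n) (hm : 0 < m) :
    Nonempty (WB e (n + 2 * m) m) := by
  obtain ⟨W, dep, -⟩ := W
  have dep := dep hm
  have hq := W.qpos
  have hp : 0 < W.β := by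
    have := (W.monoA W.β).2.1
    rw [W.wβ] at this
    simp only at this
    omega
  obtain ⟨F, hF⟩ : ∃ F : ℤ → Pt, F = fun i => if i ≤ W.β then W.w i else if i ≤ 2 * W.β then
    ((W.w (2 * W.β - i)).2, 2 * m - (W.w (2 * W.β - i)).1) else
    ((W.w (i - 2 * W.β)).1, (W.w (i - 2 * W.β)).2 + 2 * m) := ⟨_, rfl⟩
  have F1 : ∀ i, i ≤ W.β → F i = W.w i := fun i a => by rw [hF]; exact if_pos a
  have F2 : ∀ i, W.β ≤ i → i ≤ 2 * W.β →
      F i = ((W.w (2 * W.β - i)).2, 2 * m - (W.w (2 * W.β - i)).1) := fun i a b => by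
    rcases eq_or_lt_of_le a with rfl | a
    · rw [F1 _ le_rfl, show 2 * W.β - W.β = W.β by ring, W.wβ]
      ext <;> simp only; ring
    · simp only [hF, if_neg a.not_ge, if_pos b]
  have F3 : ∀ i, 2 * W.β ≤ i →
      F i = ((W.w (i - 2 * W.β)).1, (W.w (i - 2 * W.β)).2 + 2 * m) := fun i a => by
    rcases eq_or_lt_of_le a with rfl | a
    · rw [F2 _ (by omega) le_rfl, sub_self, W.w0]; simp
    · simp only [hF, if_neg a.not_ge, if_neg (show ¬i ≤ W.β by omega)]
  clear hF
  -- the three parts of the half period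
  have part : ∀ i, 0 ≤ i → i ≤ 2 * W.β + W.q → ∃ j, 0 ≤ j ∧
      (0 ≤ (W.w j).1 + (W.w j).2 ∧ 0 ≤ (W.w j).2 - (W.w j).1 ∧ (W.w j).2 - (W.w j).1 ≤ n) ∧
      ((i = j ∧ j ≤ W.β ∧ (F i).1 = (W.w j).1 ∧ (F i).2 = (W.w j).2 ∧
        (W.w j).1 + (W.w j).2 ≤ 2 * m ∧ (W.w j).2 - (W.w j).1 < 2 * m) ∨
      (i = 2 * W.β - j ∧ j ≤ W.β ∧ (F i).1 = (W.w j).2 ∧ (F i).2 = 2 * m - (W.w j).1 ∧
        (W.w j).1 + (W.w j).2 ≤ 2 * m) ∨
      (i = 2 * W.β + j ∧ j ≤ W.q ∧ (F i).1 = (W.w j).1 ∧ (F i).2 = (W.w j).2 + 2 * m ∧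
        (W.w j).1 + (W.w j).2 ≤ n)) := by
    intro i a b
    by_cases c : i ≤ W.β
    · exact ⟨i, a, ⟨(W.monoA _).1 a, W.strip _⟩, Or.inl ⟨rfl, c, by rw [F1 i c], by rw [F1 i c],
        (W.monoB _).2.1 c, (dep i a c).1⟩⟩
    by_cases d : i ≤ 2 * W.β
    · exact ⟨2 * W.β - i, by omega, ⟨(W.monoA _).1 (by omega), W.strip _⟩, Or.inr (Or.inl
        ⟨by omega, by omega, by rw [F2 i (by omega) d], by rw [F2 i (by omega) d],
        (W.monoB _).2.1 (by omega)⟩)⟩
    · exact ⟨i - 2 * W.β, by omega, ⟨(W.monoA _).1 (by omega), W.strip _⟩, Or.inr (Or.inr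
        ⟨by omega, by omega, by rw [F3 i (by omega)], by rw [F3 i (by omega)],
        (W.monoA _).2.2.2.2.1 (by omega)⟩)⟩
  have inj : ∀ i j, (W.w i).1 = (W.w j).1 → (W.w i).2 = (W.w j).2 → i = j := fun i j a b =>
    W.inj i j (Prod.ext a b)
  -- quarter turns about the centres
  have tA : ∀ i j, 0 ≤ i → 0 ≤ j → (W.w i).1 = -(W.w j).2 → (W.w i).2 = (W.w j).1 →
      i = 0 ∧ j = 0 := by
    intro i j a b c d
    by_cases h : j ≤ W.q
    · have := W.symA' b h
      have := inj i (-j) (by omega) (by omega)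
      omega
    · have := (W.monoA i).1 a
      have := (W.monoA j).2.2.1 (by omega)
      have := W.strip i
      have := W.strip j
      have := W.kA i (by omega) (by omega)
      omega
  have tB : ∀ i j, i ≤ W.β → j ≤ W.β → (W.w i).1 = (W.w j).2 → (W.w i).2 = 2 * m - (W.w j).1 →
      i = W.β ∧ j = W.β := by
    intro i j a b c d
    by_cases h : W.β - W.q ≤ j
    · have := W.symB' (i := W.β - j) (by omega) (by omega)
      rw [sub_sub_cancel] at this
      have := inj i (W.β + (W.β - j)) (by omega) (by omega)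
      omega
    · have := (W.monoB i).2.1 a
      have := (W.monoB j).2.2.2.1 (by omega)
      have := W.strip i
      have := W.strip j
      have := W.kB i (by omega) (by omega)
      omega
  have tM : ∀ i j, 0 ≤ i → i ≤ W.q → 0 ≤ j → j ≤ W.q → (W.w i).1 = n - (W.w j).2 →
      (W.w i).2 = (W.w j).1 + n → i = W.q := by
    intro i j a b c d f g
    have := W.symA' c d
    have h := W.per (-j)
    simp only [Prod.ext_iff, Prod.fst_add, Prod.snd_add] at h
    have := inj i (-j + 2 * W.q) (by omega) (by omega)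
    omega
  have box : ∀ i, 0 ≤ i → i ≤ 2 * W.β + W.q → 0 ≤ (F i).1 + (F i).2 ∧
      (F i).1 + (F i).2 ≤ n + 2 * m ∧ 0 ≤ (F i).2 - (F i).1 ∧ (F i).2 - (F i).1 ≤ n + 2 * m := by
    intro i a b
    obtain ⟨j, c, d, h⟩ := part i a b
    omega
  obtain ⟨w, pos, neg, per, st, winj, strip⟩ := extend (e := e) (n := n + 2 * m)
    (q := 2 * W.β + W.q) (by omega) (by omega) F (by rw [F1 _ hp.le, W.w0])
    (by rw [F3 _ (by omega), add_sub_cancel_left, W.wq])
    (fun i a b => by
      by_cases c : i + 1 ≤ W.β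
      · rw [F1 _ c, F1 _ (by omega)]; exact W.stp i
      by_cases d : i + 1 ≤ 2 * W.β
      · rw [F2 _ (by omega) d, F2 _ (by omega) (by omega)]
        have := (((W.stp (2 * W.β - (i + 1))).symm).rot 3).add (0, 2 * m)
        rw [show 2 * W.β - (i + 1) + 1 = 2 * W.β - i by ring] at this
        simpa only [rotP3, Prod.mk_add_mk, add_zero, neg_add_eq_sub] using this
      · rw [F3 _ (by omega), F3 _ (by omega), add_sub_right_comm]
        have := (W.stp (i - 2 * W.β)).add (0, 2 * m)
        simpa only [Prod.add_def, add_zero] using this)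
    box
    (fun i i' a b a' b' h => by
      obtain ⟨j, c, d, g⟩ := part i a b
      obtain ⟨j', c', d', g'⟩ := part i' a' b'
      rw [Prod.ext_iff] at h
      rcases g with g | g | g <;> rcases g' with g' | g' | g'
      · have := inj j j' (by omega) (by omega); omega
      · have := tB j j' (by omega) (by omega) (by omega) (by omega); omega
      · omega
      · have := tB j' j (by omega) (by omega) (by omega) (by omega); omega
      · have := inj j j' (by omega) (by omega); omega
      · have := tA j j' c c' (by omega) (by omega); omega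
      · omega
      · have := tA j' j c' c (by omega) (by omega); omega
      · have := inj j j' (by omega) (by omega); omega)
    (fun i i' a b a' b' h h' => by
      obtain ⟨j, c, d, g⟩ := part i a b
      obtain ⟨j', c', d', g'⟩ := part i' a' b'
      have := tA j j' c c'
      rcases g with g | g | g <;> rcases g' with g' | g' | g' <;> omega)
    (fun i i' a b a' b' h h' => by
      obtain ⟨j, c, d, g⟩ := part i a b
      obtain ⟨j', c', d', g'⟩ := part i' a' b'
      rcases g' with g' | g' | g'
      · omega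
      · omega
      rcases g with g | g | g
      · omega
      · have := W.kA j (by omega) (by omega); omega
      · have := tM j j' c (by omega) c' (by omega) (by omega) (by omega); omega)
  have neg' : ∀ i, 0 ≤ i → i ≤ 2 * W.β + W.q → (w (-i)).1 = -(w i).2 ∧ (w (-i)).2 = (w i).1 :=
    fun i a b => by rw [neg i a b, pos i a b]; exact ⟨rfl, rfl⟩
  have old : ∀ l, 0 ≤ l → l ≤ W.β + W.q → (w l).1 = (W.w l).1 ∧ (w l).2 = (W.w l).2 := by
    intro l a b
    rw [pos l a (by omega)]
    by_cases c : l ≤ W.β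
    · rw [F1 l c]; exact ⟨rfl, rfl⟩
    have s := W.symB' (i := l - W.β) (by omega) (by omega)
    rw [add_sub_cancel, show W.β - (l - W.β) = 2 * W.β - l by ring] at s
    by_cases d : l ≤ 2 * W.β
    · rw [F2 l (by omega) d]; simp only; omega
    · have t := W.symA' (i := l - 2 * W.β) (by omega) (by omega)
      rw [neg_sub] at t
      rw [F3 l (by omega)]; simp only; omega
  have tr : ∀ l, 0 ≤ l → l ≤ W.β + W.q →
      (w (2 * W.β + l)).1 = (W.w l).1 ∧ (w (2 * W.β + l)).2 = (W.w l).2 + 2 * m := by
    intro l a b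
    by_cases c : l ≤ W.q
    · rw [pos _ (by omega) (by omega), F3 _ (by omega), add_sub_cancel_left]; exact ⟨rfl, rfl⟩
    have p1 := per (-(2 * W.β + 2 * W.q - l))
    have p2 := W.per (l - 2 * W.q)
    rw [show -(2 * W.β + 2 * W.q - l) + 2 * (2 * W.β + W.q) = 2 * W.β + l by ring,
      neg _ (by omega) (by omega)] at p1
    rw [sub_add_cancel] at p2
    rw [p1, p2]
    by_cases d : l ≤ 2 * W.q
    · have t := W.symA' (i := 2 * W.q - l) (by omega) (by omega)
      rw [neg_sub] at t
      rw [F3 _ (by omega), show 2 * W.β + 2 * W.q - l - 2 * W.β = 2 * W.q - l by ring]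
      simp only [rotP1, Prod.fst_add, Prod.snd_add]
      omega
    · rw [F2 _ (by omega) (by omega),
        show 2 * W.β - (2 * W.β + 2 * W.q - l) = l - 2 * W.q by ring]
      simp only [rotP1, Prod.fst_add, Prod.snd_add]
      omega
  have mono := corr (f := fun l => (w l).1 + (w l).2) (c := 0) (n := n + 2 * m)
    (show 0 < 2 * W.β + W.q by omega) (by omega)
    (fun l => by rw [per]; simp only [Prod.fst_add, Prod.snd_add]; ring)
    (fun i a b => by
      have := box i a b
      rw [zero_add, pos i a b, pos 0 le_rfl (by omega), F1 _ hp.le, W.w0]; simp only; omega)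
    (fun i a b => by
      have := box i a b
      rw [zero_sub, neg i a b, pos 0 le_rfl (by omega), F1 _ hp.le, W.w0]
      simp only [rotP1]; omega)
  rw [pos 0 le_rfl (by omega), F1 _ hp.le, W.w0] at mono
  simp only [add_zero, zero_add, zero_sub] at mono
  refine ⟨{
    w := w
    d := fun l => (st l).choose
    q := 2 * W.β + W.q
    β := W.β
    qpos := by omega
    step := fun l => (st l).choose_spec
    w0 := by rw [pos 0 le_rfl (by omega), F1 _ hp.le, W.w0]
    wq := by rw [pos _ (by omega) le_rfl, F3 _ (by omega), add_sub_cancel_left, W.wq]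
    wβ := by rw [pos _ hp.le (by omega), F1 _ le_rfl, W.wβ]
    per := per
    inj := winj
    strip := strip
    symA := fun i a b => by rw [neg i a b, pos i a b]
    symB := fun i a b => ?_
    kA := fun l a b => ?_
    kB := fun l a b => ?_
    dep := fun _ l a b => ?_
    big := fun _ _ => ⟨by omega, fun l a b => ?_, fun l a b => ?_⟩ }⟩
  · by_cases c : i ≤ W.β
    · rw [pos _ (by omega) (by omega), pos _ (by omega) (by omega), F1 _ (by omega),
        F2 _ (by omega) (by omega), show 2 * W.β - (W.β + i) = W.β - i by ring]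
      ext <;> simp [rotP1]; ring
    · have h1 := neg' (i - W.β) (by omega) (by omega)
      have h2 := old (i - W.β) (by omega) (by omega)
      have h3 := tr (i - W.β) (by omega) (by omega)
      rw [neg_sub] at h1
      rw [show 2 * W.β + (i - W.β) = W.β + i by ring] at h3
      ext <;> simp only [rotP1, Prod.fst_sub, Prod.snd_sub] <;> omega
  · exfalso
    have m1 := (mono l).2.2.1
    have m2 := (mono l).2.2.2.1
    rcases le_total 0 l with c | c
    · obtain ⟨j, d, f, g⟩ := part l c (by omega)
      rw [pos l c (by omega)] at a b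
      omega
    · obtain ⟨j, d, f, g⟩ := part (-l) (by omega) (by omega)
      have h := neg (-l) (by omega) (by omega)
      rw [neg_neg] at h
      rw [h] at a b
      simp only [rotP1] at a b
      have := W.kB j
      omega
  · exfalso
    have m1 := (mono l).2.2.1
    have m2 := (mono l).2.1
    obtain ⟨j, d, f, g⟩ := part l (by omega) (by omega)
    rw [pos l (by omega) (by omega)] at a b
    have := W.kA j
    omega
  · have := old l a (by omega)
    have := dep l a b
    omega
  · have := old l a (by omega)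
    have := W.strip l
    omega
  · rw [pos l (by omega) b, F3 l a]
    have := W.strip (l - 2 * W.β)
    simp only
    omega

theorem exists_one : Nonempty (WB0 0 1 0) := by
  obtain ⟨w, pos, neg, per, st, winj, strip⟩ := extend (e := 0) (n := 1) (q := 1) one_pos one_pos
    (fun i => (0, i)) rfl rfl
    (fun i a b => ⟨1, by simp [stepv, dv]⟩) (fun i a b => by simp only; omega)
    (fun i j _ _ _ _ h => by simpa using h) (fun i j _ _ _ _ h _ => by simp only at h; omega)
    (fun i j _ _ _ _ _ h => by simp only at h; omega)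
  have par : ∀ l, (w l).1 + (w l).2 = l := fun l => by
    have h := per_mul per (l / 2) (l % 2)
    rw [show l % 2 + 2 * 1 * (l / 2) = l by omega, pos (l % 2) (by omega) (by omega)] at h
    rw [h]
    simp only [Prod.fst_add, Prod.snd_add, Prod.smul_fst, Prod.smul_snd, smul_eq_mul]
    omega
  exact ⟨{
    w := w
    d := fun l => (st l).choose
    q := 1
    β := 0
    qpos := one_pos
    step := fun l => (st l).choose_spec
    w0 := pos 0 le_rfl zero_le_one
    wq := pos 1 zero_le_one le_rfl
    wβ := pos 0 le_rfl zero_le_one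
    per := per
    inj := winj
    strip := strip
    symA := fun i a b => by rw [neg i a b, pos i a b]
    symB := fun i a b => by
      rw [zero_sub, zero_add, neg i a b, pos i a b]; ext <;> simp [rotP1]
    kA := fun l a b => by omega
    kB := fun l a b => by omega }⟩

theorem exists_two : Nonempty (WB 1 2 1) := by
  obtain ⟨w, pos, neg, per, st, winj, strip⟩ := extend (e := 1) (n := 2) (q := 2) two_pos two_pos
    (fun i => (i % 2, i)) rfl rfl
    (fun i a b => by
      obtain rfl | rfl : i = 0 ∨ i = 1 := by omega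
      · exact ⟨0, by decide⟩
      · exact ⟨1, by decide⟩)
    (fun i a b => by simp only; omega)
    (fun i j _ _ _ _ h => congrArg Prod.snd h) (fun i j _ _ _ _ h _ => by simp only at h; omega)
    (fun i j _ _ _ _ _ h => by simp only at h; omega)
  have val : ∀ l, ∃ s, (l = 4 * s - 1 ∧ w l = (2 * s - 1, 2 * s + 1)) ∨
      (l = 4 * s ∧ w l = (2 * s, 2 * s)) ∨ (l = 4 * s + 1 ∧ w l = (2 * s + 1, 2 * s + 1)) ∨
      (l = 4 * s + 2 ∧ w l = (2 * s, 2 * s + 2)) := fun l => by
    have h := per_mul per ((l + 1) / 4) ((l + 1) % 4 - 1)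
    rw [show (l + 1) % 4 - 1 + 2 * 2 * ((l + 1) / 4) = l by omega] at h
    refine ⟨(l + 1) / 4, ?_⟩
    have h1 := neg 1 (by omega) (by omega)
    have h2 := pos 0 (by omega) (by omega)
    have h3 := pos 1 (by omega) (by omega)
    have h4 := pos 2 (by omega) (by omega)
    obtain g | g | g | g : (l + 1) % 4 - 1 = -1 ∨ (l + 1) % 4 - 1 = 0 ∨ (l + 1) % 4 - 1 = 1 ∨
      (l + 1) % 4 - 1 = 2 := by omega
    all_goals
      rw [g] at h
      simp only [h, h1, h2, h3, h4, rotP1, Prod.ext_iff, Prod.fst_add, Prod.snd_add, Prod.smul_fst,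
        Prod.smul_snd, smul_eq_mul]
      omega
  exact ⟨{
    w := w
    d := fun l => (st l).choose
    q := 2
    β := 1
    qpos := two_pos
    step := fun l => (st l).choose_spec
    w0 := pos 0 le_rfl (by omega)
    wq := pos 2 (by omega) le_rfl
    wβ := pos 1 (by omega) (by omega)
    per := per
    inj := winj
    strip := strip
    symA := fun i a b => by rw [neg i a b, pos i a b]
    symB := fun i a b => by
      obtain ⟨s, h⟩ := val (1 - i)
      obtain ⟨t, g⟩ := val (1 + i)
      simp only [Prod.ext_iff, rotP1, Prod.fst_sub, Prod.snd_sub] at h g ⊢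
      omega
    kA := fun l a b => by
      obtain ⟨s, h⟩ := val l
      simp only [Prod.ext_iff] at h
      omega
    kB := fun l a b => by
      obtain ⟨s, h⟩ := val l
      simp only [Prod.ext_iff] at h
      omega
    dep := fun _ l a b => by
      obtain ⟨s, h⟩ := val l
      simp only [Prod.ext_iff] at h
      omega
    big := by omega }⟩

theorem exists_WB (e n m : ℤ) (hn : 0 < n) (hc : IsCoprime n m)
    (he : (e = 0 ∧ n % 2 = 1) ∨ (e = 1 ∧ n % 2 = 0)) : Nonempty (WB e n m) := by
  obtain ⟨N, hN⟩ : ∃ N : ℕ, n < N := ⟨n.toNat + 1, by omega⟩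
  induction N generalizing n m with
  | zero => omega
  | succ N ih =>
    have wide : ∀ m, IsCoprime n m → 0 < m → 2 * m < n → Nonempty (WB e n m) := fun m c a b => by
      have c' : IsCoprime (n - 2 * m) m := by
        have := c.add_mul_right_left (-2)
        rwa [neg_mul, ← sub_eq_add_neg] at this
      obtain ⟨W⟩ := ih (n - 2 * m) m (by omega) c' (by omega) (by omega)
      have := W.widen (by omega) a
      rwa [sub_add_cancel] at this
    by_cases h : 0 < m ∧ 2 * m < n
    · exact wide m hc h.1 h.2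
    have ne : 0 < m → n ≠ 2 * m ∨ n = 2 := fun a => by
      by_cases b : n = 2 * m
      · right
        have := Int.isUnit_iff.1 (hc.isUnit_of_dvd' ⟨2, by rw [b, mul_comm]⟩ dvd_rfl)
        omega
      · exact Or.inl b
    have h1 := Int.mul_ediv_add_emod m n
    have h2 := Int.emod_nonneg m hn.ne'
    have h3 := Int.emod_lt_of_pos m hn
    have c0 : IsCoprime n (m % n) := by
      have := hc.add_mul_left_right (-(m / n))
      rwa [show m + n * -(m / n) = m % n by linarith] at this
    by_cases n1 : n = 1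
    · subst n1
      obtain ⟨W⟩ := exists_one
      have W' := W.shift m
      rw [zero_add, mul_one] at W'
      obtain rfl : e = 0 := by omega
      exact ⟨W'.toWB (by omega) (by omega)⟩
    have m0 : m % n ≠ 0 := fun z => by
      rw [z, isCoprime_zero_right, Int.isUnit_iff] at c0
      omega
    by_cases n2 : n = 2
    · subst n2
      obtain ⟨W⟩ := exists_two
      obtain rfl : e = 1 := by omega
      by_cases m1 : m = 1
      · subst m1
        exact ⟨W⟩
      · have W' := W.toWB0.shift (m / 2)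
        rw [show 1 + m / 2 * 2 = m by omega] at W'
        exact ⟨W'.toWB (by omega) (by omega)⟩
    have nm : 2 * (m % n) ≠ n := fun z => by
      have := Int.isUnit_iff.1 (c0.isUnit_of_dvd' ⟨2, by omega⟩ dvd_rfl)
      omega
    rcases lt_or_gt_of_ne nm with g | g
    · obtain ⟨W⟩ := wide _ c0 (by omega) g
      have W' := W.toWB0.shift (m / n)
      rw [show m % n + m / n * n = m by linarith] at W'
      exact ⟨W'.toWB (by omega) (by omega)⟩
    · have c1 : IsCoprime n (n - m % n) := by
        have := c0.neg_right.add_mul_left_right 1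
        rwa [mul_one, neg_add_eq_sub] at this
      obtain ⟨W⟩ := wide _ c1 (by omega) (by omega)
      have W' := (W.toWB0.mirror n2).shift (m / n + 1)
      rw [show -(n - m % n) + (m / n + 1) * n = m by linarith] at W'
      exact ⟨W'.toWB (by omega) (by omega)⟩

end NP
end Pool.Agent.Lib.MP_4a7072_co
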