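import Pool.Agent.Lib.MP_4a7072_co.NTree
import Pool.Agent.Lib.MP_4a7072_co.NW

/-!
A design for primitive triples whose shorter leg is even: parameters, envelopes and data.
-/

set_option autoImplicit false

namespace Pool.Agent.Lib.MP_4a7072_co
namespace NP

/-- A simple path from `P` to `Q`, the coordinates of whose points satisfy `A`. -/
def CArc (P : Pt) (w : List Dir) (Q : Pt) (A : ℤ → ℤ → Prop) : Prop :=
  Arc P w Q fun z => A z.1 z.2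

/-- The point `(X, Y)` is outside every closed path whose points satisfy `A`. -/
def OutE (A : ℤ → ℤ → Prop) (X Y : ℤ) : Prop :=
  ∀ P w, endP P w = P → (∀ z ∈ verts P w, A z.1 z.2) → Out P w (X, Y)

/-- The numerical parameters of the design. -/
structure P7 where
  a : ℤ
  b : ℤ
  g : ℤ
  lam : ℤ
  ε : ℤ
  k : ℤ
  ha : 4 ≤ a
  hab : a < b
  hb : b < 3 * a
  hb2 : b ≤ 2 * a - 1 ∨ b = 2 * a + 1 ∨ 2 * a + 3 ≤ b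
  hε : (ε = 0 ∧ b = a + 1) ∨ (ε = 1 ∧ a + 3 ≤ b)
  hk : (k = 1 ∧ 0 < g ∧ g ≤ a ∧ lam = b - 2 * a) ∨
    ((k = 2 ∨ k = 3) ∧ g = 0 ∧ ε = 1 ∧ lam < b - 2 * a)
  hl : -a + 1 + ε ≤ lam ∧ 2 * (b - 2 * a - lam) < a ∧ (b < 2 * a ∨ 0 ≤ lam)

namespace P7

variable (p : P7)

/-- Points of the path `S`. -/
structure ES (X Y : ℤ) : Prop where
  lin : -p.a ≤ X ∧ X ≤ p.b - 2 * p.a ∧ p.a - p.ε ≤ Y ∧ Y ≤ p.a
  d1 : Y = p.a ∨ (-p.a + 1 ≤ X ∧ X < p.b - 2 * p.a)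
  d2 : Y < p.a ∨ X ≤ -p.a + 1 ∨ p.b - 2 * p.a - 1 ≤ X

/-- Points of the common part of `S` and `M`. -/
structure EL (X Y : ℤ) : Prop extends p.ES X Y where
  d3 : p.k = 1 ∨ X < p.b - 2 * p.a

/-- Points of the path `M`. -/
structure EM (X Y : ℤ) : Prop where
  lin : -p.a ≤ X ∧ X ≤ p.b - 2 * p.a ∧ p.a - p.ε ≤ Y ∧ Y ≤ p.a + p.g
  d0 : Y ≤ p.a ∨ X = p.b - 2 * p.a
  d1 : p.a ≤ Y ∨ (-p.a + 1 ≤ X ∧ X < p.b - 2 * p.a)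
  d2 : Y < p.a ∨ X ≤ -p.a + 1 ∨ p.b - 2 * p.a - 1 ≤ X
  d3 : p.k = 1 ∨ X < p.b - 2 * p.a

/-- Points of the second part of `M`. -/
structure EM2 (X Y : ℤ) : Prop extends p.EM X Y where
  d4 : -p.a + 1 + p.ε ≤ X

/-- Points of the first part of `M`. -/
structure EM1 (X Y : ℤ) : Prop where
  lin : -p.a ≤ X ∧ X ≤ -p.a + 1 + p.ε ∧ p.a - p.ε ≤ Y ∧ Y ≤ p.a
  d1 : Y = p.a ∨ -p.a + 1 ≤ X
  d2 : Y < p.a ∨ X ≤ -p.a + 1

/-- Points of the curve after the hub. -/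
structure EG (X Y : ℤ) : Prop where
  lin : p.lam ≤ X ∧ X ≤ 2 * p.b - p.a ∧ p.a ≤ Y ∧ Y ≤ 2 * p.a
  d1 : p.k ≠ 1 ∨ X ≠ p.b - 2 * p.a ∨ Y = p.a + p.g
  d2 : p.k = 2 ∨ Y ≠ p.a ∨ (X ≠ p.b - 2 * p.a ∧ X ≠ p.b)
  d3 : Y ≠ p.a ∨ (X ≠ p.a ∧ X ≠ p.a + 1)
  d4 : p.ε = 1 ∨ X < p.a ∨ p.a < Y

/-- Points of one period of the curve after the hub. -/
structure EV (X Y : ℤ) : Prop extends p.EG X Y where
  d5 : X < p.b ∨ (p.k = 1 ∧ X = p.b ∧ Y = p.a + p.g)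
  d6 : p.k ≠ 1 ∨ X ≠ p.b - 1 ∨ Y ≠ p.a
  d7 : Y ≠ 2 * p.a ∨ (X ≠ 0 ∧ X ≠ 2 * p.a)
  d8 : p.b ≤ 2 * p.a + 1 ∨ X ≠ 0 ∨ Y ≠ p.a

/-- Points of the path `T`. -/
structure ET (X Y : ℤ) : Prop where
  lin : p.lam ≤ X ∧ X ≤ 2 * p.b - 3 * p.a ∧ p.a ≤ Y ∧ Y ≤ 2 * p.a

/-- Points of the radial cut of the small piece. -/
structure ER (X Y : ℤ) : Prop where
  lin : -p.a + 1 + p.ε ≤ X ∧ X ≤ 0 ∧ 0 ≤ Y ∧ Y ≤ p.a - p.ε ∧ 0 ≤ X + Y ∧ X + Y ≤ 1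

/-- Points of the radial cut of the larger piece. -/
structure EB1 (X Y : ℤ) : Prop where
  lin : -p.b ≤ X ∧ X ≤ 0 ∧ -1 ≤ Y ∧ Y ≤ 0
  d1 : Y = -1 ∨ X = -p.b ∨ X = 0

/-- A quarter of the small piece. -/
def EQ (X Y : ℤ) : Prop := p.EM (X - 2 * p.a) Y ∨ p.EV X Y ∨ p.EM X Y

/-- The last quarter of the small piece. -/
def EQ2 (X Y : ℤ) : Prop := p.EM (X - 2 * p.a) Y ∨ p.EV X Y ∨ p.EM2 X Y

/-- The free part of the boundary of the small piece. -/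
def Eα (X Y : ℤ) : Prop :=
  (p.k = 1 ∧ X = p.b ∧ p.a ≤ Y ∧ Y ≤ p.a + p.g) ∨ p.EV X Y ∨ p.EM X Y ∨ p.EQ Y (-X) ∨
    p.EQ2 (-X) (-Y) ∨ p.ER (-X) (-Y) ∨ p.ER (-Y) X

/-- The interface. -/
def Eπ (X Y : ℤ) : Prop := p.EM1 (-Y) X ∨ p.EL (X - 2 * p.a) Y

/-- A quarter of the larger piece (coordinates relative to its centre), given the sets of points
of `T` and of the curve after the hub. -/
def Eq' (T G : ℤ → ℤ → Prop) (x y : ℤ) : Prop :=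
  T (2 * p.b - 3 * p.a - y) (x + p.b + 2 * p.a) ∨ p.ES (x + 2 * p.b - p.a) (y - p.b + 2 * p.a) ∨
    p.EM (p.b - 2 * p.a - y) (x + 2 * p.b + p.a) ∨ G (p.b - 2 * p.a - y) (x + 2 * p.b + p.a) ∨
    T (-2 * p.a - x) (p.a - p.b - y) ∨ p.ES (-2 * p.a - y) (x + p.a + p.b) ∨
    p.ES (x - p.a + p.b) (y + 2 * p.a) ∨ T (p.b - 3 * p.a - y) (x + 2 * p.a)

/-- A quarter of the larger piece. -/
def Eq (x y : ℤ) : Prop := p.Eq' p.ET p.EG x y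

/-- The boundary of the larger piece, relative to its centre. -/
def EB0 (x y : ℤ) : Prop :=
  p.Eq x y ∨ p.Eq y (-x) ∨ p.Eq (-x) (-y) ∨ p.EB1 (-y) x ∨ p.EB1 x y

/-- The boundary of the larger piece. -/
def EB (X Y : ℤ) : Prop := p.EB0 (X - (p.a + 2 * p.b)) (Y - (2 * p.a - p.b))

/-- The boundary of the small piece. -/
def EA (X Y : ℤ) : Prop := p.Eα X Y ∨ p.Eπ X Y

/-- The boundary of the union. -/
def EC (X Y : ℤ) : Prop := p.Eα X Y ∨ p.EB X Y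

/-- The marked vertices of the small cube. -/
def LA (W : Pt) : Prop :=
  W = (0, 0) ∨ W = (p.a, p.a) ∨ W = (-p.a, p.a) ∨ W = (-p.a, -p.a) ∨ W = (p.a, 2 * p.a) ∨
    W = (-2 * p.a, p.a) ∨ W = (-p.a, -2 * p.a) ∨
    (p.b ≤ 2 * p.a + 1 ∧ (W = (0, p.a) ∨ W = (-p.a, 0) ∨ W = (0, -p.a))) ∨
    (2 * p.a + 1 ≤ p.b ∧ (W = (2 * p.a, p.a) ∨ W = (-p.a, 2 * p.a) ∨ W = (-2 * p.a, -p.a)))

/-- The marked vertices of the middle cube, relative to the centre. -/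
def LB (W : Pt) : Prop :=
  W = (0, 0) ∨ W = (-p.b, 0) ∨ W = (0, -p.b) ∨ W = (p.b, 0) ∨ W = (0, p.b) ∨
    W = (-2 * p.b, -p.b) ∨ W = (p.b, -2 * p.b) ∨ W = (2 * p.b, p.b) ∨ W = (-p.b, -p.b) ∨
    W = (p.b, -p.b) ∨ W = (p.b, p.b) ∨
    (p.k ≠ 3 ∧ (W = (-2 * p.b, 0) ∨ W = (0, -2 * p.b) ∨ W = (2 * p.b, 0)))

/-- The marked vertices of the large cube. -/
def LC (W : Pt) : Prop :=
  W = (0, 0) ∨ W = (p.b, p.a) ∨ W = (p.b + p.a, p.a - p.b) ∨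
    W = (p.b + 2 * p.a, p.a - 2 * p.b) ∨ W = (2 * p.b + p.a, 2 * p.a - p.b) ∨
    W = (2 * p.b + 2 * p.a, 2 * p.a - 2 * p.b) ∨ W = (3 * p.b + p.a, 3 * p.a - p.b) ∨
    W = (3 * p.b + 2 * p.a, 3 * p.a - 2 * p.b) ∨
    (p.k = 1 ∧ (W = (-p.a, p.b) ∨ W = (-p.b, -p.a))) ∨
    (p.k = 2 ∧ (W = (p.a, -p.b) ∨ W = (2 * p.b + 3 * p.a, 2 * p.a - 3 * p.b) ∨
      W = (4 * p.b + p.a, 4 * p.a - p.b)))

end P7

/-- The data of the design. -/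
structure D7 (p : P7) where
  E : ℤ → List Dir
  f : ℤ → Pt
  Q : ℤ
  B : ℤ
  J : ℤ
  L : List Dir
  x : List Dir
  y : List Dir
  T : List Dir
  M1 : List Dir
  M2 : List Dir
  R : List Dir
  TS : ℤ → ℤ → Prop
  GS : ℤ → ℤ → Prop
  sym : Sym 1 E f Q B (2 * p.a, 0)
  hQ : 2 ≤ Q
  f0 : f 0 = (0, p.a)
  fQ : f Q = (p.a, 2 * p.a)
  fB : f B = (2 * p.b - 2 * p.a, p.a)
  fB1 : f (B - Q) = (2 * p.b - 3 * p.a, 2 * p.a)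
  hJ : -Q < J ∧ J < Q ∧ J < B - Q
  sJ : (p.b < 2 * p.a ∧ J < 0) ∨ (p.b = 2 * p.a + 1 ∧ J = 0) ∨ (2 * p.a + 1 < p.b ∧ 0 < J)
  fJ : (p.k = 1 ∧ f J = (p.b - 2 * p.a, p.a + p.g)) ∨ (p.k ≠ 1 ∧ f J = (p.b - 2 * p.a - 1, p.a))
  kind : (p.k = 1 ∧ x = [] ∧ y ≠ [] ∧ T = y ++ seg E J (B - Q)) ∨
    (p.k = 2 ∧ y = [] ∧ x ≠ [] ∧ T ≠ [] ∧ seg E J (B - Q) = x ++ T) ∨
    (p.k = 3 ∧ y = [] ∧ x ≠ [] ∧ T = back 0 x ++ seg E J (B - Q))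
  L_ne : L ≠ []
  M1_ne : M1 ≠ []
  M2_ne : M2 ≠ []
  R_ne : R ≠ []
  eM : L ++ y = M1 ++ M2
  R0 : ∃ R', R = 3 :: R'
  arcL : CArc (-p.a, p.a) L (endP (-p.a, p.a) L) p.EL
  endL : (p.k = 1 ∧ endP (-p.a, p.a) L = (p.b - 2 * p.a, p.a)) ∨
    (p.k ≠ 1 ∧ endP (-p.a, p.a) L = (p.b - 2 * p.a - 1, p.a))
  arcS : CArc (-p.a, p.a) (L ++ x) (p.b - 2 * p.a, p.a) p.ES
  arcM : CArc (-p.a, p.a) (L ++ y) (f J) p.EM
  arcM1 : CArc (-p.a, p.a) M1 (-p.a + 1 + p.ε, p.a - p.ε) p.EM1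
  arcM2 : CArc (-p.a + 1 + p.ε, p.a - p.ε) M2 (f J) p.EM2
  arcY : CArc (endP (-p.a, p.a) L) y (f J) fun X Y =>
    (p.k = 1 ∧ X = p.b - 2 * p.a ∧ p.a ≤ Y ∧ Y ≤ p.a + p.g) ∨
      (p.k ≠ 1 ∧ X = p.b - 2 * p.a - 1 ∧ Y = p.a)
  arcR : CArc (-p.a + 1 + p.ε, p.a - p.ε) R (0, 0) p.ER
  arcV : CArc (f J) (seg E J (J + 2 * Q)) (f J + (2 * p.a, 0)) p.EV
  arcG : CArc (f J) (seg E J (B + Q)) (2 * p.b - p.a, 2 * p.a) GS
  arcT : CArc (p.b - 2 * p.a, p.a) T (2 * p.b - 3 * p.a, 2 * p.a) TS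
  gs : ∀ X Y, GS X Y → p.EG X Y
  ts : ∀ X Y, TS X Y → p.ET X Y
  n1 : ∀ X Y, TS X Y → GS (X - (p.b - p.a)) (Y + (p.b - p.a)) → False
  n2 : ∀ X Y, TS X Y → p.EM (X - (p.b - p.a)) (Y + (p.b - p.a)) → False
  fold1 : ∀ X Y, TS X (2 * p.a) → TS (2 * p.b - 3 * p.a) Y →
    X - Y = 2 * p.b - 5 * p.a → Y = 2 * p.a
  fold2 : ∀ X Y, GS X (2 * p.a) → TS (2 * p.b - 3 * p.a) Y →
    X - Y = 2 * p.b - 3 * p.a → Y = 2 * p.a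

namespace D7

variable {p : P7} (D : D7 p)

/-- The path from `(-a, a)` to `(b - 2 a, a)`. -/
def S : List Dir := D.L ++ D.x

/-- The path from `(-a, a)` to the hub. -/
def M : List Dir := D.L ++ D.y

/-- One period of the curve. -/
def V : List Dir := seg D.E D.J (D.J + 2 * D.Q)

/-- The curve from the hub to the first peak of the second kind. -/
def Z : List Dir := seg D.E D.J (D.B - D.Q)

/-- A quarter of the boundary of the small piece, from `(a, a)` to `(-a, a)`. -/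
def qa : List Dir := D.M ++ back 0 D.V ++ back 0 D.M

/-- The free part of the boundary of the small piece. -/
def α : List Dir :=
  D.y ++ back 0 D.V ++ back 0 D.M ++ rot 1 D.qa ++ rot 2 (D.M ++ back 0 D.V ++ back 0 D.M2) ++
    (rot 2 D.R ++ back 3 D.R)

/-- The interface. -/
def π : List Dir := back 3 D.M1 ++ D.L

/-- The last part of a quarter of the larger piece. -/
def tail : List Dir :=
  rot 3 (D.V ++ D.Z) ++ back 2 D.T ++ back 3 D.S ++ D.S ++ rot 3 D.T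

/-- A quarter of the boundary of the larger piece. -/
def qb : List Dir := back 3 D.T ++ back 0 D.S ++ rot 3 D.M ++ D.tail

end D7

/-- The radial cut of the larger piece. -/
def RB (b : ℤ) : List Dir := [3] ++ List.replicate b.toNat 0 ++ [1]

namespace D7

variable {p : P7} (D : D7 p)

/-- The free part of the boundary of the larger piece. -/
def β : List Dir :=
  rot 3 D.M2 ++ D.tail ++ rot 1 D.qb ++ rot 2 D.qb ++ (rot 3 (RB p.b) ++ back 0 (RB p.b)) ++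
    (back 3 D.T ++ back 0 D.x)

/-- The first end of the interface. -/
def H : Pt := endP (-p.a, p.a) D.L + (2 * p.a, 0)

end D7

end NP
end Pool.Agent.Lib.MP_4a7072_co
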