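import Pool.Agent.Lib.MP_4a7072_co.DDefs

/-!
Intersections of the envelopes of the design for an even shorter leg.
-/

set_option autoImplicit false

namespace Pool.Agent.Lib.MP_4a7072_co
namespace NP
namespace P7

variable {p : P7} {X Y : ℤ}

theorem aux (p : P7) : 4 ≤ p.a ∧ p.a < p.b ∧ p.b < 3 * p.a ∧ 0 ≤ p.ε ∧ p.ε ≤ 1 ∧
    p.a + 1 + 2 * p.ε ≤ p.b ∧ 0 ≤ p.g ∧ p.g ≤ p.a ∧ p.lam ≤ p.b - 2 * p.a ∧
    -p.a + 1 + p.ε ≤ p.lam ∧ 2 * (p.b - 2 * p.a - p.lam) < p.a := by
  have h1 := p.ha; have h2 := p.hab; have h3 := p.hb; have h4 := p.hε; have h5 := p.hk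
  have h6 := p.hl
  omega

/-! ### The small piece -/

theorem m_g (h : p.EM X Y) (g : p.EG X Y) :
    (p.k = 1 ∧ X = p.b - 2 * p.a ∧ Y = p.a + p.g) ∨
      (p.k ≠ 1 ∧ X = p.b - 2 * p.a - 1 ∧ Y = p.a) := by
  have := p.aux; have := p.hk; have := h.lin; have := g.lin; have := h.d0; have := h.d2
  have := h.d3; have := g.d1
  omega

theorem m_v (h : p.EM (X - 2 * p.a) Y) (g : p.EV X Y) :
    (p.k = 1 ∧ X = p.b ∧ Y = p.a + p.g) ∨ (p.k ≠ 1 ∧ X = p.b - 1 ∧ Y = p.a) := by
  have := p.aux; have := p.hk; have := h.lin; have := g.lin; have := h.d0; have := h.d2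
  have := h.d3; have := g.d3; have := g.d5; have := g.d6
  omega

theorem EQ2.eq (h : p.EQ2 X Y) : p.EQ X Y := h.imp_right (Or.imp_right fun a => a.toEM)

theorem EQ.lin (h : p.EQ X Y) : -p.a ≤ X ∧ X ≤ p.b ∧ p.a - p.ε ≤ Y ∧ Y ≤ 2 * p.a := by
  have := p.aux
  rcases h with h | h | h
  · have := h.lin; omega
  · have := h.lin; have := h.d5; omega
  · have := h.lin; omega

theorem EQ2.lin (h : p.EQ2 X Y) : -p.a + 1 + p.ε ≤ X := by
  have := p.aux
  rcases h with h | h | h
  · have := h.lin; omega
  · have := h.lin; omega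
  · exact h.d4

theorem q_q (h : p.EQ X Y) (g : p.EQ Y (-X)) : X = -p.a ∧ Y = p.a := by
  have := p.aux
  have := g.lin
  rcases h with h | h | h
  · have := h.lin; omega
  · have := h.lin; omega
  have := h.lin; have := h.d0; have := h.d1
  rcases g with g | g | g
  · have := g.lin; have := g.d1; omega
  · have := g.lin; have := g.d3; omega
  · have := g.lin; have := g.d1; omega

/-- The first part of the free boundary of the small piece. -/
def E0 (p : P7) (X Y : ℤ) : Prop :=
  (p.k = 1 ∧ X = p.b ∧ p.a ≤ Y ∧ Y ≤ p.a + p.g) ∨ p.EV X Y ∨ p.EM X Y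

theorem E0.eq (h : p.E0 X Y) : p.EQ X Y := by
  have := p.aux
  rcases h with h | h | h
  · exact .inl ⟨by omega, by omega, by omega, by omega, by omega⟩
  · exact .inr (.inl h)
  · exact .inr (.inr h)

theorem α_π (h : p.Eα X Y) (g : p.Eπ X Y) :
    ((p.k = 1 ∧ X = p.b ∧ Y = p.a) ∨ (p.k ≠ 1 ∧ X = p.b - 1 ∧ Y = p.a)) ∨
      (X = p.a - p.ε ∧ Y = p.a - 1 - p.ε) := by
  have := p.aux
  rcases g with g | g <;> have := g.lin <;> rcases h with h | h | h | h | h | h | h
  · omega
  · have := h.lin; have := h.d3; have := g.d1; omega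
  · have := h.lin; have := h.d1; have := g.d1; have := g.d2; omega
  · have := h.lin; omega
  · have := h.eq.lin; omega
  · have := h.lin; omega
  · have := h.lin; have := g.d2; omega
  · omega
  · have := m_v ⟨by omega, by omega, by have := g.d1; omega, g.d2, g.d3⟩ h
    have := p.hk
    omega
  · have := h.lin; omega
  · have := h.lin; omega
  · have := h.eq.lin; omega
  · have := h.lin; omega
  · have := h.lin; omega

/-! ### The larger piece -/

theorem Eq'.mono {T G T' G' : ℤ → ℤ → Prop} (h : p.Eq' T G X Y) (hT : ∀ X Y, T X Y → T' X Y)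
    (hG : ∀ X Y, G X Y → G' X Y) : p.Eq' T' G' X Y := by
  rcases h with h | h | h | h | h | h | h | h
  · exact .inl (hT _ _ h)
  · exact .inr (.inl h)
  · exact .inr (.inr (.inl h))
  · exact .inr (.inr (.inr (.inl (hG _ _ h))))
  · exact .inr (.inr (.inr (.inr (.inl (hT _ _ h)))))
  · exact .inr (.inr (.inr (.inr (.inr (.inl h)))))
  · exact .inr (.inr (.inr (.inr (.inr (.inr (.inl h))))))
  · exact .inr (.inr (.inr (.inr (.inr (.inr (.inr (hT _ _ h)))))))

theorem Eq.lin (h : p.Eq X Y) : -2 * p.b - 1 ≤ X ∧ X ≤ 0 ∧ -p.a - p.b ≤ Y ∧ Y < p.b ∧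
    (X ≤ -p.b ∨ 2 * Y < -p.a) ∧ (X ≤ -p.b ∨ -p.b ≤ Y ∨ 2 * X < p.a - 2 * p.b) := by
  have := p.aux
  rcases h with h | h | h | h | h | h | h | h <;> have := h.lin <;> omega

theorem α_b (h : p.Eα X Y) (g : p.EB X Y) :
    ((p.k = 1 ∧ X = p.b ∧ Y = p.a) ∨ (p.k ≠ 1 ∧ X = p.b - 1 ∧ Y = p.a)) ∨
      (X = p.a - p.ε ∧ Y = p.a - 1 - p.ε) := by
  have := p.aux
  have hx : X ≤ p.b ∧ (p.a - p.ε ≤ Y ∨ X ≤ p.a - p.ε) := by
    rcases h with h | h | h | h | h | h | h
    · omega
    · have := h.lin; have := h.d5; omega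
    · have := h.lin; omega
    · have := h.lin; omega
    · have := h.lin; omega
    · have := h.lin; omega
    · have := h.lin; omega
  rcases g with g | g | g | g | g
  · rcases g with g | g | g | g | g | g | g | g <;> have := g.lin
    · have := p.hk
      rcases h with h | h | h | h | h | h | h
      · omega
      · have := h.d5; omega
      · have := h.lin; omega
      · have := h.lin; omega
      · have := h.lin; omega
      · have := h.lin; omega
      · have := h.lin; omega
    · by_cases c : p.k = 1 ∨ X < p.b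
      · refine α_π h (.inr ⟨⟨by omega, by have := g.d1; omega, by have := g.d2; omega⟩, by omega⟩)
      · exfalso
        rcases h with h | h | h | h | h | h | h
        · omega
        · have := h.d5; omega
        · have := h.lin; omega
        · have := h.lin; omega
        · have := h.lin; omega
        · have := h.lin; omega
        · have := h.lin; omega
    · by_cases c : p.a - 1 - p.ε ≤ Y
      · refine α_π h (.inl ⟨by have := g.d0; have := p.hε; have := p.hk; omega,
          by have := g.d0; have := g.d1; omega, by have := g.d0; have := g.d2; omega⟩)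
      · exfalso
        rcases h with h | h | h | h | h | h | h
        · omega
        · have := h.lin; omega
        · have := h.lin; omega
        · have := h.lin; omega
        · have := h.lin; omega
        · have := h.lin; omega
        · have := h.lin; omega
    · rcases h with h | h | h | h | h | h | h
      · omega
      · have := h.lin; omega
      · have := h.lin; omega
      · have := h.lin; omega
      · have := h.lin; omega
      · have := h.lin; omega
      · have := h.lin; omega
    all_goals omega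
  · rcases g with g | g | g | g | g | g | g | g <;> have := g.lin <;> omega
  · have := g.lin; omega
  · have := g.lin; omega
  · have := g.lin; omega

end P7
end NP
end Pool.Agent.Lib.MP_4a7072_co
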