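import Pool.Agent.Lib.MP_4a7072_co.DDefs

/-!
The three boundaries of the design for an even shorter leg are contours of trees.
-/

set_option autoImplicit false
set_option linter.unnecessarySeqFocus false
set_option linter.unusedSimpArgs false
set_option linter.unreachableTactic false
set_option linter.unusedTactic false

namespace Pool.Agent.Lib.MP_4a7072_co
namespace NP

open RTree (endP_append endP_add marked_append marked_add back_cons)

theorem back_nil (t : Dir) : back t [] = [] := rfl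

theorem TreeOK.rotate {P : Pt} {u v : List Dir} {L : List Pt} (hc : dsp (u ++ v) = 0)
    (h : TreeOK (endP P u) (v ++ u) L) : TreeOK P (u ++ v) L := by
  replace hc : endP P (u ++ v) = P := by rw [endP_dsp, hc, add_zero]
  obtain ⟨u', v', m, f, l, t, θ, h1, h2, h3, h4⟩ := h
  rcases List.append_eq_append_iff.1 h1 with ⟨s, rfl, rfl⟩ | ⟨s, rfl, rfl⟩
  · refine ⟨s, v' ++ v, m, f, l, t, θ, by simp, by simp [h2], h3, fun W => ?_⟩
    rw [← h4 W, endP_append, ← endP_append P _ v, hc]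
  · exact ⟨u ++ u', s, m, f, l, t, θ, by simp, by simp [h2], h3,
      fun W => by rw [← h4 W, endP_append]⟩

/-- Three quarters of a pinwheel, closed by a tree `r`. -/
theorem pinG {μ o₁ o₂ r : List Dir} {K : List Pt} {O Z A B B' : Pt} (hr : TB r K 2 2) (hμ : μ ≠ [])
    (h1 : o₁ ≠ []) (h2 : o₂ ≠ []) (hA : Z + dsp μ + dsp o₁ = A)
    (hZ : A + dsp o₂ = rho O 1 Z + dsp μ)
    (hR : rho O 3 Z + rotP 2 (dsp μ) + dsp r = Z + dsp μ)
    (h : (∃ X, X ≠ [] ∧ o₁ = X ++ back 1 (o₂ ++ X) ∧ Z + dsp μ + dsp X = B ∧ B' = B) ∨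
      (∃ X, X ≠ [] ∧ o₂ = back 3 (X ++ o₁) ++ X ∧ A + dsp (back 3 (X ++ o₁)) = B ∧ B' = B) ∨
      ∃ X Y, X ≠ [] ∧ Y ≠ [] ∧ o₁ = X ++ Y ∧ o₂ = back 3 o₁ ∧ Z + dsp μ = B ∧ A + dsp o₂ = B') :
    TreeOK (Z + dsp μ) (o₁ ++ o₂ ++ back 0 μ ++ rot 1 (μ ++ (o₁ ++ o₂) ++ back 0 μ) ++
        rot 2 (μ ++ (o₁ ++ o₂)) ++ r)
      (K.map (· + (rho O 3 Z + rotP 2 (dsp μ))) ++ [rho O 1 Z, rho O 2 Z, A, rho O 1 A, rho O 2 A,
        B, rho O 1 B, rho O 2 B, B', rho O 1 B', rho O 2 B']) := by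
  have T := (TB.leaf (back_ne (t := 0) hμ)).tu
  rcases h with ⟨X, hX, rfl, hB, rfl⟩ | ⟨X, hX, rfl, hB, rfl⟩ | ⟨X, Y, hX, hY, rfl, rfl, hB, hB'⟩
  · have TX := (TB.leaf hX).tu
    refine ((hr.tu.rot 2).cat (TX.rot 2) |>.cat ((T.cat (TX.rot 1)).core h2) |>.rot 2).ok
      (u := X ++ back 1 (o₂ ++ X) ++ o₂ ++ back 0 μ ++
        rot 1 (μ ++ (X ++ back 1 (o₂ ++ X) ++ o₂) ++ back 0 μ) ++
        rot 2 (μ ++ (X ++ back 1 (o₂ ++ X) ++ o₂))) (v := r)
      rfl (by
        simp [rot_append, back_append, back_back, rot_back, rot_rot, rot_zero])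
      fun W => ?_
    rw [show List.map _ _ = K.map (· + (rho O 3 Z + rotP 2 (dsp μ))) ++ [B', A, rho O 1 Z,
      rho O 1 B', rho O 1 A, rho O 2 Z, rho O 2 B', rho O 2 A] from ?_]
    · simp only [List.mem_cons, List.not_mem_nil, List.mem_append]
      tauto
    subst hA hB
    simp only [List.map_append, List.map_map, List.append_assoc]
    congr 1
    · refine List.map_congr_left fun z _ => ?_
      simp only [Function.comp_def,
        dsp_append, dsp_rot, dsp_back, rho, Prod.ext_iff, rotP_zero, rotP_1, rotP_2,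
        rotP_3, Prod.fst_add, Prod.snd_add, Prod.fst_sub, Prod.snd_sub, Prod.fst_neg, Prod.snd_neg] at hZ hR ⊢
      omega
    · simp only [List.map_cons, List.map_nil, List.cons_append, List.nil_append, Function.comp_def,
        dsp_append, dsp_rot, dsp_back, rho, List.cons.injEq, Prod.ext_iff, rotP_zero, rotP_1, rotP_2,
        rotP_3, Prod.fst_add, Prod.snd_add, Prod.fst_sub, Prod.snd_sub, Prod.fst_neg, Prod.snd_neg,
        Prod.fst_zero, Prod.snd_zero, Fin.reduceAdd, and_true] at hZ hR ⊢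
      omega
  · have TX := (TB.leaf (back_ne (t := 3) hX)).tu
    refine (((hr.tu.rot 2).cat ((TX.cat T).core (back_ne (t := 3) h1))).cat TX |>.rot 2).ok
      (u := o₁ ++ (back 3 (X ++ o₁) ++ X) ++ back 0 μ ++
        rot 1 (μ ++ (o₁ ++ (back 3 (X ++ o₁) ++ X)) ++ back 0 μ) ++
        rot 2 (μ ++ (o₁ ++ (back 3 (X ++ o₁) ++ X)))) (v := r)
      rfl (by
        simp [rot_append, back_append, back_back, rot_back, rot_rot, rot_zero])
      fun W => ?_
    rw [show List.map _ _ = K.map (· + (rho O 3 Z + rotP 2 (dsp μ))) ++ [A, B', rho O 1 Z,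
      rho O 1 A, rho O 1 B', rho O 2 Z, rho O 2 A, rho O 2 B'] from ?_]
    · simp only [List.mem_cons, List.not_mem_nil, List.mem_append]
      tauto
    subst hA hB
    simp only [List.map_append, List.map_map, List.append_assoc]
    refine congrArg₂ _ (List.map_congr_left fun z _ => ?_) ?_
    all_goals
      simp only [List.map_cons, List.map_nil, List.cons_append, List.nil_append, Function.comp_def,
        dsp_append, dsp_rot, dsp_back, rho, List.cons.injEq, Prod.ext_iff, rotP_zero, rotP_1, rotP_2,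
        rotP_3, Prod.fst_add, Prod.snd_add, Prod.fst_sub, Prod.snd_sub, Prod.fst_neg, Prod.snd_neg,
        Prod.fst_zero, Prod.snd_zero, Fin.reduceAdd, and_true] at hZ hR ⊢
      omega
  · refine ((hr.vtx (back_ne (t := 1) hX)).tu.cat
      ((((TB.leaf (back_ne (t := 0) hμ)).vtx (back_ne (t := 3) hX)).tu.core
        (back_ne (t := 3) hY)).rot 2)).ok
      (u := X ++ Y ++ back 3 (X ++ Y) ++ back 0 μ ++
        rot 1 (μ ++ (X ++ Y ++ back 3 (X ++ Y)) ++ back 0 μ) ++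
        rot 2 (μ ++ (X ++ Y ++ back 3 Y))) (v := back 1 X ++ r)
      (by simp [rot_append, back_append, rot_back]) (by
        simp [rot_append, back_append, back_back, rot_back, rot_rot, rot_zero])
      fun W => ?_
    rw [show List.map _ _ = rho O 2 B' :: (K.map (· + (rho O 3 Z + rotP 2 (dsp μ))) ++ [B, A, B',
      rho O 1 Z, rho O 1 B, rho O 1 A, rho O 1 B', rho O 2 Z, rho O 2 B, rho O 2 A]) from ?_]
    · simp only [List.mem_cons, List.not_mem_nil, List.mem_append]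
      tauto
    subst hA hB hB'
    simp only [List.map_append, List.map_map, List.append_assoc, List.map_cons, List.cons_append]
    refine congrArg₂ _ ?_ (congrArg₂ _ (List.map_congr_left fun z _ => ?_) ?_)
    all_goals
      simp only [List.map_cons, List.map_nil, List.cons_append, List.nil_append, Function.comp_def,
        dsp_append, dsp_rot, dsp_back, rho, List.cons.injEq, Prod.ext_iff, rotP_zero, rotP_1, rotP_2,
        rotP_3, Prod.fst_add, Prod.snd_add, Prod.fst_sub, Prod.snd_sub, Prod.fst_neg, Prod.snd_neg,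
        Prod.fst_zero, Prod.snd_zero, Fin.reduceAdd, and_true] at hZ hR ⊢
      omega

/-- The boundary of the union. -/
theorem uni7 {L x y M2 V Z T R S qa qb tl : List Dir} {α β : ℤ} (hL : L ≠ []) (hR : R ≠ [])
    (hS : S ≠ []) (d1 : dsp (L ++ x) = (β - α, 0)) (d2 : dsp V = (2 * α, 0))
    (d3 : dsp T = (β - α, α)) (d4 : dsp (L ++ y) + dsp R = (α, -α) + dsp M2) (d5 : dsp S = (β, 0))
    (ea : qa = L ++ y ++ back 0 V ++ back 0 (L ++ y))
    (et : tl = rot 3 (V ++ Z) ++ back 2 T ++ back 3 (L ++ x) ++ (L ++ x) ++ rot 3 T)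
    (eb : qb = back 3 T ++ back 0 (L ++ x) ++ rot 3 (L ++ y) ++ tl) {K : List Pt}
    (h : (x = [] ∧ y ≠ [] ∧ T = y ++ Z ∧ K = [(-α, β), (-β, -α)]) ∨
      (y = [] ∧ x ≠ [] ∧ T ≠ [] ∧ Z = x ++ T ∧
        K = [(α, -β), (2 * β + 3 * α, 2 * α - 3 * β), (4 * β + α, 4 * α - β)]) ∨
      (y = [] ∧ x ≠ [] ∧ T = back 0 x ++ Z ∧ K = [])) :
    TreeOK ((α, α) + dsp L)
      (y ++ back 0 V ++ back 0 (L ++ y) ++ rot 1 qa ++ rot 2 (L ++ y ++ back 0 V ++ back 0 M2) ++
        (rot 2 R ++ back 3 R) ++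
        (rot 3 M2 ++ tl ++ rot 1 qb ++ rot 2 qb ++ (rot 3 S ++ back 0 S) ++ (back 3 T ++ back 0 x)))
      ([(0, 0), (β, α), (β + α, α - β), (β + 2 * α, α - 2 * β), (2 * β + α, 2 * α - β),
        (2 * β + 2 * α, 2 * α - 2 * β), (3 * β + α, 3 * α - β), (3 * β + 2 * α, 3 * α - 2 * β)] ++
        K) := by
  have D0 := (TB.leaf (back_ne (t := 0) (List.append_ne_nil_of_left_ne_nil hL x))).tu.zip
    (back 3 T)
  have D1 := D0.cat ((TB.leaf hS).tu.rot 2)
  have G1 := ((TB.leaf hR).tu.zip (back 0 M2)).zip (back 0 V)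
  have G := fun {g K t n} (h : TU g K t n) =>
    ((h.rot 1).zip (back 0 (L ++ y))).zip (back 0 V)
  subst ea eb et
  rcases h with ⟨rfl, hy, rfl, rfl⟩ | ⟨rfl, hx, hT, rfl, rfl⟩ | ⟨rfl, hx, rfl, rfl⟩
  · have F := fun {g K t n} (h : TU g K t n) =>
      (((h.cat ((D0.zip Z).rot t)).zipB hy).vtx hL).tu
    refine (((G (F (G (F G1)))).cat ((D1.zip Z).rot 1)).cat (TB.leaf (back_ne (t := 3) hy)).tu).ok
      (u := y) (by simp only [List.append_assoc]; rfl) (by
        simp [rot_append, back_append, back_back, rot_back, back_rot, rot_rot, rot_zero, back_nil])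
      fun W => ?_
    rw [show List.map _ _ = [(-α, β), (-β, -α), (0, 0), (β + α, α - β), (β + 2 * α, α - 2 * β),
      (2 * β + 2 * α, 2 * α - 2 * β), (3 * β + 2 * α, 3 * α - 2 * β), (3 * β + α, 3 * α - β),
      (2 * β + α, 2 * α - β), (β, α)] from ?_]
    · simp only [List.mem_cons, List.not_mem_nil, List.mem_append]
      tauto
    simp only [List.map_cons, List.map_nil, List.cons_append, List.nil_append, List.append_nil,
      dsp_append, dsp_rot, dsp_back, List.cons.injEq, Prod.ext_iff, rotP_zero, rotP_1, rotP_2,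
      rotP_3, Prod.fst_add, Prod.snd_add, Prod.fst_neg, Prod.snd_neg, dsp_nil, Prod.fst_zero,
      Prod.snd_zero, Fin.reduceAdd, and_true] at d1 d2 d3 d4 d5 ⊢
    omega
  · have F := fun {g K t n} (h : TU g K t n) =>
      (h.cat (((D0.zipB hT).vtx hx).tu.rot t)).zip L
    refine ((G (F (G (F G1)))).cat (((D1.zipB hT).vtx hx).tu.rot 1)).ok
      (u := []) rfl (by
        simp [rot_append, back_append, back_back, rot_back, back_rot, rot_rot, rot_zero])
      fun W => ?_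
    rw [show List.map _ _ = [(0, 0), (α, -β), (β + α, α - β), (β + 2 * α, α - 2 * β),
      (2 * β + 3 * α, 2 * α - 3 * β), (2 * β + 2 * α, 2 * α - 2 * β),
      (3 * β + 2 * α, 3 * α - 2 * β), (4 * β + α, 4 * α - β), (3 * β + α, 3 * α - β),
      (2 * β + α, 2 * α - β), (β, α)] from ?_]
    · simp only [List.mem_cons, List.not_mem_nil, List.mem_append]
      tauto
    simp only [List.map_cons, List.map_nil, List.cons_append, List.nil_append, List.append_nil,
      dsp_append, dsp_rot, dsp_back, List.cons.injEq, Prod.ext_iff, rotP_zero, rotP_1, rotP_2,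
      rotP_3, Prod.fst_add, Prod.snd_add, Prod.fst_neg, Prod.snd_neg, dsp_nil, Prod.fst_zero,
      Prod.snd_zero, Fin.reduceAdd, and_true] at d1 d2 d3 d4 d5 ⊢
    omega
  · have F := fun {g K t n} (h : TU g K t n) =>
      ((h.cat ((D0.zip Z).rot t)).cat ((TB.leaf (rot_ne (t := 1) hx)).tu.rot t)).zip L
    refine (((G (F (G (F G1)))).cat ((D1.zip Z).rot 1)).cat (TB.leaf (rot_ne (t := 3) hx)).tu).ok
      (u := []) rfl (by
        simp [rot_append, back_append, back_back, rot_back, back_rot, rot_rot, rot_zero])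
      fun W => ?_
    rw [show List.map _ _ = [(0, 0), (β + α, α - β), (β + 2 * α, α - 2 * β),
      (2 * β + 2 * α, 2 * α - 2 * β), (3 * β + 2 * α, 3 * α - 2 * β), (3 * β + α, 3 * α - β),
      (2 * β + α, 2 * α - β), (β, α)] from ?_]
    · simp only [List.mem_cons, List.not_mem_nil, List.mem_append]
      tauto
    simp only [List.map_cons, List.map_nil, List.cons_append, List.nil_append, List.append_nil,
      dsp_append, dsp_rot, dsp_back, List.cons.injEq, Prod.ext_iff, rotP_zero, rotP_1, rotP_2,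
      rotP_3, Prod.fst_add, Prod.snd_add, Prod.fst_neg, Prod.snd_neg, dsp_nil, Prod.fst_zero,
      Prod.snd_zero, Fin.reduceAdd, and_true] at d1 d2 d3 d4 d5 ⊢
    omega

theorem Sym.dsp_seg {E : ℤ → List Dir} {f : ℤ → Pt} {q β : ℤ} {τ : Pt} (S : Sym 1 E f q β τ)
    {i j : ℤ} (h : i ≤ j) : dsp (seg E i j) = f j - f i := by
  induction j, h using Int.leInduction with
  | base => rw [seg_self, sub_self]; rfl
  | succ j hj ih =>
    have := S.pos j
    rw [one_smul, one_smul, endP_dsp] at this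
    rw [seg_succ E hj, dsp_append, ih, ← this]
    abel

theorem mem_map_add {l : List Pt} {O W : Pt} : W ∈ l.map (· + O) ↔ W - O ∈ l := by
  simp only [List.mem_map, ← eq_sub_iff_add_eq, exists_eq_right]

theorem CArc.dsp_eq {P Q : Pt} {w : List Dir} {A : ℤ → ℤ → Prop} (h : CArc P w Q A) :
    dsp w = Q - P := by
  have := h.1
  rw [endP_dsp] at this
  exact eq_sub_of_add_eq' this

theorem dsp_RB {b : ℤ} (hb : 0 ≤ b) : dsp (RB b) = (b, 0) := by
  simp only [RB, dsp_append]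
  simp only [dsp, endP_replicate, Int.toNat_of_nonneg hb, endP]
  ext <;> simp [dv]

namespace D7

variable {p : P7} (D : D7 p)

theorem dV : dsp D.V = (2 * p.a, 0) := D.arcV.dsp_eq.trans (add_sub_cancel_left _ _)

theorem eU : seg D.E D.J (D.B + D.Q) = D.V ++ D.Z := by
  have := D.hJ
  have := D.hQ
  rw [seg_append D.E (j := D.J + 2 * D.Q) (by omega) (by omega),
    seg_per D.sym.per D.J (D.B - D.Q) (D.J + 2 * D.Q) (D.B + D.Q) rfl (by ring)]
  rfl

theorem eH : D.V ++ D.Z =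
    D.Z ++ seg D.E (D.B - D.Q) D.B ++ back 3 (seg D.E (D.B - D.Q) D.B) := by
  have := D.hJ
  have := D.hQ
  rw [← D.eU, ← seg_sym D.sym.qpos.le D.sym.symB, Z, ← seg_append _ (by omega) (by omega),
    ← seg_append _ (by omega) (by omega)]

theorem treeA (hc : dsp (D.α ++ D.π) = 0) :
    ∃ K, TreeOK D.H (D.α ++ D.π) K ∧ ∀ W, W ∈ K ↔ p.LA W := by
  have hJ := D.hJ
  have hQ := D.hQ
  have s := seg_sym (E := D.E) (c := 0) (s := 3) D.sym.qpos.le fun t h0 h1 => by
    rw [zero_add, D.sym.symA t h0 h1]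
    congr 2
  rw [zero_add, zero_sub] at s
  have dM : dsp D.M = _ := D.arcM.dsp_eq
  have dM1 := D.arcM1.dsp_eq
  have dM2 := D.arcM2.dsp_eq
  have dR := D.arcR.dsp_eq
  have d := fun i j h => D.sym.dsp_seg (i := i) (j := j) h
  have fJ := D.sym.wper D.J
  have f2 := D.sym.wper 0
  rw [zero_add, D.f0] at f2
  have hr := ((TB.leaf (rot_ne (t := 2) D.R_ne)).tu.cat
    (TB.leaf (back_ne (t := 3) D.M1_ne)).tu).zipB (back_ne (t := 2) D.M2_ne)
  obtain ⟨B, B', hB, h⟩ : ∃ B B' : Pt, ((p.b ≤ 2 * p.a + 1 ∧ B' = (0, p.a)) ∨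
      (2 * p.a + 1 < p.b ∧ B' = (2 * p.a, p.a))) ∧
      ((2 * p.a + 1 ≤ p.b ∧ B = (2 * p.a, p.a)) ∨ (p.b < 2 * p.a ∧ B = (0, p.a))) ∧
      ((∃ X, X ≠ [] ∧ back 0 (seg D.E D.Q (D.J + 2 * D.Q)) =
        X ++ back 1 (back 0 (seg D.E D.J D.Q) ++ X) ∧ (p.a, p.a) + dsp D.M + dsp X = B ∧ B' = B) ∨
      (∃ X, X ≠ [] ∧ back 0 (seg D.E D.J D.Q) =
        back 3 (X ++ back 0 (seg D.E D.Q (D.J + 2 * D.Q))) ++ X ∧
        (p.a, 2 * p.a) + dsp (back 3 (X ++ back 0 (seg D.E D.Q (D.J + 2 * D.Q)))) = B ∧ B' = B) ∨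
      ∃ X Y, X ≠ [] ∧ Y ≠ [] ∧ back 0 (seg D.E D.Q (D.J + 2 * D.Q)) = X ++ Y ∧
        back 0 (seg D.E D.J D.Q) = back 3 (back 0 (seg D.E D.Q (D.J + 2 * D.Q))) ∧
        (p.a, p.a) + dsp D.M = B ∧ (p.a, 2 * p.a) + dsp (back 0 (seg D.E D.J D.Q)) = B') := by
    have e2 : seg D.E D.Q (2 * D.Q) = seg D.E (-D.Q) 0 :=
      seg_per D.sym.per _ _ _ _ (by ring) (by ring)
    rcases D.sJ with ⟨h, h'⟩ | ⟨h, h'⟩ | ⟨h, h'⟩
    · have e : back 0 (seg D.E 0 D.Q) =
          back 3 (back 0 (seg D.E D.J 0) ++ back 0 (seg D.E D.Q (D.J + 2 * D.Q))) := by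
        rw [s, seg_per D.sym.per (-D.Q) D.J D.Q _ (by ring) rfl, ← back_append,
          ← seg_append _ hJ.1.le h'.le, back_back, back_back]
        rfl
      refine ⟨(0, p.a), (0, p.a), .inl ⟨by omega, rfl⟩, .inr ⟨h, rfl⟩, .inr (.inl
        ⟨back 0 (seg D.E D.J 0), back_ne (seg_ne D.sym.ne h'), ?_, ?_, rfl⟩)⟩
      · rw [← e, ← back_append, ← seg_append _ h'.le (by omega)]
      · rw [← e, dsp_back, d _ _ (by omega), D.fQ, D.f0]
        ext <;> simp [rotP_zero]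
    · refine ⟨(2 * p.a, p.a), (0, p.a), .inl ⟨by omega, rfl⟩, .inl ⟨by omega, rfl⟩, .inr (.inr
        ⟨back 0 (seg D.E (D.Q + 1) (D.J + 2 * D.Q)), back 0 (seg D.E D.Q (D.Q + 1)),
          back_ne (seg_ne D.sym.ne (by omega)), back_ne (seg_ne D.sym.ne (by omega)), ?_, ?_, ?_,
          ?_⟩)⟩
      · rw [← back_append, ← seg_append _ (by omega) (by omega)]
      · rw [h', zero_add, e2, s, back_back, back_back]
        rfl
      · rw [dM, h', D.f0]
        ext <;> simp <;> ring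
      · rw [h', dsp_back, d _ _ (by omega), D.fQ, D.f0]
        ext <;> simp [rotP_zero]
    · have e : seg D.E (2 * D.Q) (D.J + 2 * D.Q) = seg D.E 0 D.J :=
        seg_per D.sym.per _ _ _ _ (by ring) rfl
      refine ⟨(2 * p.a, p.a), (2 * p.a, p.a), .inr ⟨h, rfl⟩, .inl ⟨by omega, rfl⟩, .inl
        ⟨back 0 (seg D.E 0 D.J), back_ne (seg_ne D.sym.ne h'), ?_, ?_, rfl⟩⟩
      · rw [← back_append, ← seg_append _ h'.le hJ.2.1.le,
          seg_append D.E (i := D.Q) (j := 2 * D.Q) (by omega) (by omega), e, e2, s, back_append,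
          back_back 0 3, back_rot]
        rfl
      · rw [dM, dsp_back, d _ _ h'.le, D.f0]
        ext <;> simp [rotP_zero] <;> ring
  have t := pinG (μ := D.M) (O := 0) (Z := (p.a, p.a)) (A := (p.a, 2 * p.a)) hr
    (List.append_ne_nil_of_left_ne_nil D.L_ne _) (back_ne (seg_ne D.sym.ne (by omega)))
    (back_ne (seg_ne D.sym.ne hJ.2.1))
    (by
      rw [dM, dsp_back, d _ _ (by omega), fJ, D.fQ]
      ext <;> simp [rotP_zero] <;> ring)
    (by
      rw [dM, dsp_back, d _ _ hJ.2.1.le, D.fQ]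
      ext <;> simp [rotP_zero, rho, rotP_1])
    (by
      simp only [dsp_append, dsp_back, dsp_rot, dM, dM1, dM2, dR]
      ext <;> simp [rho, rotP_1, rotP_2, rotP_3] <;> ring) h.2
  rw [← back_append, ← seg_append _ hJ.2.1.le (by omega)] at t
  have e : D.α ++ D.π = D.y ++ (back 0 D.V ++ back 0 D.M ++ rot 1 D.qa ++
      rot 2 (D.M ++ back 0 D.V ++ back 0 D.M2) ++ (rot 2 D.R ++ back 3 D.R) ++ D.π) := by
    simp only [α, List.append_assoc]
  rw [e] at hc ⊢
  refine ⟨_, TreeOK.rotate hc (t.cast ?_ ?_ fun W => Iff.rfl), fun W => ?_⟩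
  · rw [H, M, dsp_append, endP_dsp, endP_dsp]
    ext <;> simp <;> ring
  · simp only [π, List.append_assoc, D.eM]
    simp [qa, V, rot_append, back_back, back_rot, rot_back, rot_zero]
  · rw [show List.map _ _ = [(0, 0), (p.a, p.a)] from ?_]
    · simp only [P7.LA, List.mem_cons, List.not_mem_nil, List.mem_append, rho, zero_add, sub_zero,
        rotP_1, rotP_2, or_false, neg_mul]
      rcases hB with ⟨h1, rfl⟩ | ⟨h1, rfl⟩ <;> rcases h.1 with ⟨h2, rfl⟩ | ⟨h2, rfl⟩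
      · simp only [h1, h2, neg_zero, true_and, or_assoc]
        constructor <;> rintro (h | h | h | h | h | h | h | h | h | h | h | h | h) <;>
          simp only [h, true_or, or_true]
      · simp only [h1, show ¬2 * p.a + 1 ≤ p.b by omega, neg_zero, true_and, false_and, or_false,
          or_assoc]
        constructor
        · rintro (h | h | h | h | h | h | h | h | h | h | h | h | h) <;>
            simp only [h, true_or, or_true]
        · rintro (h | h | h | h | h | h | h | h | h | h) <;> simp only [h, true_or, or_true]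
      · simp only [h2, h1.not_ge, true_and, false_and, false_or, or_assoc]
        constructor
        · rintro (h | h | h | h | h | h | h | h | h | h | h | h | h) <;>
            simp only [h, true_or, or_true]
        · rintro (h | h | h | h | h | h | h | h | h | h) <;> simp only [h, true_or, or_true]
      · omega
    · simp only [List.map_cons, List.map_nil, List.cons_append, List.nil_append, dsp_append,
        dsp_back, dsp_rot, dM, dM1, dM2, dR, List.cons.injEq, and_true]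
      constructor <;> ext <;> simp [rho, rotP_1, rotP_2, rotP_3] <;> ring

theorem treeB (hc : dsp (D.β ++ back 0 D.π) = 0) :
    ∃ K, TreeOK (p.a - p.ε, p.a - 1 - p.ε) (D.β ++ back 0 D.π) K ∧
      ∀ W, W ∈ K ↔ p.LB (W - (p.a + 2 * p.b, 2 * p.a - p.b)) := by
  have hJ := D.hJ
  have hQ := D.hQ
  have hb : 0 ≤ p.b := by have := p.ha; have := p.hab; omega
  have dS : dsp D.S = _ := D.arcS.dsp_eq
  have dT := D.arcT.dsp_eq
  have dM1 := D.arcM1.dsp_eq
  have dL := D.arcL.dsp_eq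
  have dZ : dsp D.Z = _ := D.sym.dsp_seg hJ.2.2.le
  have dH := D.sym.dsp_seg (i := D.B - D.Q) (j := D.B) (by omega)
  have hH := seg_ne D.sym.ne (i := D.B - D.Q) (j := D.B) (by omega)
  have eH := D.eH
  rw [D.fB, D.fB1] at dH
  rw [D.fB1] at dZ
  generalize seg D.E (D.B - D.Q) D.B = H at dH hH eH
  have hS : D.S ≠ [] := List.append_ne_nil_of_left_ne_nil D.L_ne _
  have hR : RB p.b ≠ [] := by simp [RB]
  have dR := dsp_RB hb
  have e1 : D.β ++ back 0 D.π = (rot 3 D.M2 ++ D.tail ++ rot 1 D.qb ++ rot 2 D.qb ++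
      (rot 3 (RB p.b) ++ back 0 (RB p.b))) ++ (back 3 D.T ++ back 0 D.S ++ rot 3 D.M1) := by
    simp [β, π, S, back_append, back_back]
  have e2 : (back 3 D.T ++ back 0 D.S ++ rot 3 D.M1) ++ (rot 3 D.M2 ++ D.tail ++ rot 1 D.qb ++
      rot 2 D.qb ++ (rot 3 (RB p.b) ++ back 0 (RB p.b))) =
      D.qb ++ rot 1 D.qb ++ rot 2 D.qb ++ (rot 3 (RB p.b) ++ back 0 (RB p.b)) := by
    nth_rw 3 [qb]
    rw [M, D.eM, rot_append]
    simp only [List.append_assoc]
  rw [e1] at hc ⊢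
  have e3 : endP (p.a - p.ε, p.a - 1 - p.ε) (rot 3 D.M2 ++ D.tail ++ rot 1 D.qb ++ rot 2 D.qb ++
      (rot 3 (RB p.b) ++ back 0 (RB p.b))) = (p.a + p.b, 2 * p.a - p.b) := by
    rw [dsp_append] at hc
    rw [endP_dsp, eq_neg_of_add_eq_zero_left hc]
    simp only [dsp_append, dsp_back, dsp_rot, dS, dT, dM1]
    ext <;> simp [rotP_zero, rotP_3] <;> ring
  have hc' := hc
  rw [dsp_append, add_comm, ← dsp_append, e2] at hc'
  suffices h : ∃ K, TreeOK (p.a + p.b, 2 * p.a - p.b) (D.qb ++ rot 1 D.qb ++ rot 2 D.qb ++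
      (rot 3 (RB p.b) ++ back 0 (RB p.b))) K ∧
      ∀ W, W ∈ K ↔ p.LB (W - (p.a + 2 * p.b, 2 * p.a - p.b)) by
    obtain ⟨K, h, h'⟩ := h
    exact ⟨K, TreeOK.rotate hc (by rwa [e2, e3]), h'⟩
  have key : ∀ {μ o₁ o₂ : List Dir} {B : Pt}, μ ≠ [] → o₁ ≠ [] → o₂ ≠ [] →
      D.qb = μ ++ (o₁ ++ o₂) ++ back 0 μ →
      (p.a + p.b, 2 * p.a - p.b) + dsp μ + dsp o₁ = (p.a, 2 * p.a - 2 * p.b) →
      (p.a, 2 * p.a - 2 * p.b) + dsp o₂ = (p.a + 2 * p.b, 2 * p.a - 2 * p.b) + dsp μ →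
      ((p.k = 3 ∧ B = (p.a + p.b, 2 * p.a - 2 * p.b)) ∨ (p.k ≠ 3 ∧ B = (p.a, 2 * p.a - p.b))) →
      ((∃ X, X ≠ [] ∧ o₂ = back 3 (X ++ o₁) ++ X ∧
        (p.a, 2 * p.a - 2 * p.b) + dsp (back 3 (X ++ o₁)) = B ∧
        ((p.a + p.b, 2 * p.a - 2 * p.b) : Pt) = B) ∨
      ∃ X Y, X ≠ [] ∧ Y ≠ [] ∧ o₁ = X ++ Y ∧ o₂ = back 3 o₁ ∧
        (p.a + p.b, 2 * p.a - p.b) + dsp μ = B ∧
        (p.a, 2 * p.a - 2 * p.b) + dsp o₂ = (p.a + p.b, 2 * p.a - 2 * p.b)) →
      ∃ K, TreeOK (p.a + p.b, 2 * p.a - p.b) (D.qb ++ rot 1 D.qb ++ rot 2 D.qb ++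
        (rot 3 (RB p.b) ++ back 0 (RB p.b))) K ∧
        ∀ W, W ∈ K ↔ p.LB (W - (p.a + 2 * p.b, 2 * p.a - p.b)) := by
    intro μ o₁ o₂ B hμ h1 h2 eq hA hZ hB h
    have t := pinG (O := (p.a + 2 * p.b, 2 * p.a - p.b))
      ((TB.leaf (rot_ne (t := 3) hR)).vtx (back_ne (t := 2) hμ)) hμ h1 h2 hA
      (hZ.trans (by ext <;> simp [rho, rotP_1] <;> omega)) (by
        simp only [dsp_append, dsp_back, dsp_rot, dR]
        ext <;> simp [rho, rotP_1, rotP_2, rotP_3, rotP_zero] <;> ring) (.inr h)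
    have e : D.qb ++ rot 1 D.qb ++ rot 2 D.qb ++ (rot 3 (RB p.b) ++ back 0 (RB p.b)) =
        μ ++ (o₁ ++ o₂ ++ back 0 μ ++ rot 1 D.qb ++ rot 2 D.qb ++
          (rot 3 (RB p.b) ++ back 0 (RB p.b))) := by
      nth_rw 1 [eq]
      simp only [List.append_assoc]
    rw [e] at hc' ⊢
    refine ⟨_, TreeOK.rotate hc' (t.cast (endP_dsp _ _).symm ?_ fun W => Iff.rfl), fun W => ?_⟩
    · simp [eq, rot_append, back_back, back_rot, rot_back, rot_zero]
    · rcases hB with ⟨h1, rfl⟩ | ⟨h1, rfl⟩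
      · rw [show List.map _ _ ++ _ = [(0, p.b), (0, 0), (-p.b, 0), (0, -p.b), (p.b, 0),
          (-2 * p.b, -p.b), (p.b, -2 * p.b), (2 * p.b, p.b), (-p.b, -p.b), (p.b, -p.b), (p.b, p.b),
          (-p.b, -p.b), (p.b, -p.b), (p.b, p.b)].map
            (· + (p.a + 2 * p.b, 2 * p.a - p.b)) from ?_, mem_map_add]
        · simp only [P7.LB, List.mem_cons, List.not_mem_nil, h1, ne_eq, not_true, false_and,
            or_false]
          constructor
          · rintro (h | h | h | h | h | h | h | h | h | h | h | h | h | h) <;>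
              simp only [h, true_or, or_true]
          · rintro (h | h | h | h | h | h | h | h | h | h | h) <;> simp only [h, true_or, or_true]
        · simp only [List.map_cons, List.map_nil, List.cons_append, List.nil_append, dsp_append,
            dsp_back, dsp_rot, dR, List.cons.injEq, and_true, rho, rotP_1, rotP_2, rotP_3,
            Prod.ext_iff, Prod.fst_add, Prod.snd_add, Prod.fst_sub, Prod.snd_sub, Prod.fst_neg,
            Prod.snd_neg]
          omega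
      · rw [show List.map _ _ ++ _ = [(0, p.b), (0, 0), (-p.b, 0), (0, -p.b), (p.b, 0),
          (-2 * p.b, -p.b), (p.b, -2 * p.b), (2 * p.b, p.b), (-2 * p.b, 0), (0, -2 * p.b),
          (2 * p.b, 0), (-p.b, -p.b), (p.b, -p.b), (p.b, p.b)].map
            (· + (p.a + 2 * p.b, 2 * p.a - p.b)) from ?_, mem_map_add]
        · simp only [P7.LB, List.mem_cons, List.not_mem_nil, h1, ne_eq, not_false_iff, true_and,
            or_false]
          constructor <;> rintro (h | h | h | h | h | h | h | h | h | h | h | h | h | h) <;>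
            simp only [h, true_or, or_true]
        · simp only [List.map_cons, List.map_nil, List.cons_append, List.nil_append, dsp_append,
            dsp_back, dsp_rot, dR, List.cons.injEq, and_true, rho, rotP_1, rotP_2, rotP_3,
            Prod.ext_iff, Prod.fst_add, Prod.snd_add, Prod.fst_sub, Prod.snd_sub, Prod.fst_neg,
            Prod.snd_neg]
          omega
  by_cases k3 : p.k = 3
  · obtain ⟨ey, hx, eT⟩ : D.y = [] ∧ D.x ≠ [] ∧ D.T = back 0 D.x ++ D.Z := by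
      rcases D.kind with h | h | h
      · omega
      · omega
      · exact h.2
    have dx : dsp D.x = dsp D.S - dsp D.L := by rw [S, dsp_append, add_sub_cancel_left]
    obtain ⟨-, eL⟩ := D.endL.resolve_left fun h => by omega
    obtain ⟨-, fJ⟩ := D.fJ.resolve_left fun h => by omega
    rw [eL] at dL
    rw [fJ] at dZ
    refine key (μ := back 3 D.T ++ back 0 D.S ++ rot 3 D.L) (o₁ := rot 3 (D.Z ++ H))
      (o₂ := back 3 (back 3 D.x ++ rot 3 (D.Z ++ H)) ++ back 3 D.x)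
      (List.append_ne_nil_of_right_ne_nil _ (rot_ne D.L_ne))
      (rot_ne (List.append_ne_nil_of_right_ne_nil _ hH))
      (List.append_ne_nil_of_right_ne_nil _ (back_ne hx)) ?_ ?_ ?_ (.inl ⟨k3, rfl⟩)
      (.inl ⟨_, back_ne hx, rfl, ?_, rfl⟩)
    · rw [qb, tail, eH, M, ey, S, eT]
      simp [rot_append, back_append, back_back, back_rot, rot_back, rot_zero]
    all_goals
      simp only [dsp_append, dsp_back, dsp_rot, dx, dS, dT, dL, dZ, dH]
      ext <;> simp [rotP_zero, rotP_3] <;> ring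
  · obtain ⟨hT, e⟩ : D.T ≠ [] ∧ D.M ++ D.Z = D.S ++ D.T := by
      rcases D.kind with ⟨-, h1, h2, h3⟩ | ⟨-, h1, -, h2, h3⟩ | h
      · rw [M, S, h1, h3]
        exact ⟨List.append_ne_nil_of_left_ne_nil h2 _, by simp [Z]⟩
      · rw [M, S, Z, h1, h3]
        exact ⟨h2, by simp⟩
      · omega
    refine key (μ := back 3 D.T ++ back 0 D.S ++ rot 3 D.S) (o₁ := rot 3 (D.T ++ H))
      (o₂ := back 3 (rot 3 (D.T ++ H))) (List.append_ne_nil_of_right_ne_nil _ (rot_ne hS))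
      (rot_ne (List.append_ne_nil_of_right_ne_nil _ hH))
      (back_ne (rot_ne (List.append_ne_nil_of_right_ne_nil _ hH))) ?_ ?_ ?_ (.inr ⟨k3, rfl⟩)
      (.inr ⟨rot 3 D.T, rot 3 H, rot_ne hT, rot_ne hH, rot_append _ _ _, rfl, ?_, ?_⟩)
    · have : rot 3 D.M ++ rot 3 D.Z = rot 3 D.S ++ rot 3 D.T := by
        rw [← rot_append, e, rot_append]
      rw [qb, tail, eH, rot_append, rot_append]
      simp only [← List.append_assoc]
      rw [List.append_assoc _ (rot 3 D.M), this]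
      simp [rot_append, back_append, back_back, back_rot, rot_back, rot_zero]
    all_goals
      simp only [dsp_append, dsp_back, dsp_rot, dS, dT, dH]
      ext <;> simp [rotP_zero, rotP_3] <;> ring

theorem treeC : ∃ K, TreeOK D.H (D.α ++ D.β) K ∧ ∀ W, W ∈ K ↔ p.LC W := by
  have hb : 0 ≤ p.b := by have := p.ha; have := p.hab; omega
  obtain ⟨K, hK, h⟩ : ∃ K : List Pt, ((p.k = 1 ∧ K = [(-p.a, p.b), (-p.b, -p.a)]) ∨
      (p.k = 2 ∧ K = [(p.a, -p.b), (2 * p.b + 3 * p.a, 2 * p.a - 3 * p.b),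
        (4 * p.b + p.a, 4 * p.a - p.b)]) ∨ (p.k = 3 ∧ K = [])) ∧
      ((D.x = [] ∧ D.y ≠ [] ∧ D.T = D.y ++ D.Z ∧ K = [(-p.a, p.b), (-p.b, -p.a)]) ∨
      (D.y = [] ∧ D.x ≠ [] ∧ D.T ≠ [] ∧ D.Z = D.x ++ D.T ∧ K = [(p.a, -p.b),
        (2 * p.b + 3 * p.a, 2 * p.a - 3 * p.b), (4 * p.b + p.a, 4 * p.a - p.b)]) ∨
      (D.y = [] ∧ D.x ≠ [] ∧ D.T = back 0 D.x ++ D.Z ∧ K = [])) := by
    rcases D.kind with ⟨h, h1, h2, h3⟩ | ⟨h, h1, h2, h3, h4⟩ | ⟨h, h1, h2, h3⟩
    · exact ⟨_, .inl ⟨h, rfl⟩, .inl ⟨h1, h2, h3, rfl⟩⟩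
    · exact ⟨_, .inr (.inl ⟨h, rfl⟩), .inr (.inl ⟨h1, h2, h3, h4, rfl⟩)⟩
    · exact ⟨_, .inr (.inr ⟨h, rfl⟩), .inr (.inr ⟨h1, h2, h3, rfl⟩)⟩
  refine ⟨_, (uni7 (M2 := D.M2) (R := D.R) (S := RB p.b) (qa := D.qa) (qb := D.qb) (tl := D.tail)
    D.L_ne D.R_ne (by simp [RB]) ?_ D.dV ?_ ?_ (dsp_RB hb) rfl rfl rfl h).cast ?_ rfl
    fun W => Iff.rfl, fun W => ?_⟩
  · rw [D.arcS.dsp_eq]
    ext <;> simp <;> ring
  · rw [D.arcT.dsp_eq]
    ext <;> simp <;> ring
  · rw [D.arcM.dsp_eq, D.arcR.dsp_eq, D.arcM2.dsp_eq]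
    ext <;> simp <;> ring
  · rw [H, endP_dsp]
    ext <;> simp <;> ring
  · rcases hK with ⟨h1, rfl⟩ | ⟨h1, rfl⟩ | ⟨h1, rfl⟩ <;>
      simp [P7.LC, h1, or_assoc]

end D7

end NP
end Pool.Agent.Lib.MP_4a7072_co
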