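import Pool.Agent.Lib.MP_4a7072_co.NEnv

/-!
Intersections of the envelopes of the pieces of the pinwheel design.
-/

set_option autoImplicit false

namespace Pool.Agent.Lib.MP_4a7072_co
namespace NP
namespace Par

variable (p : Par) {X Y : ℤ}

theorem ls_win (g0 : p.Ls X Y) (g1 : p.Win X Y) :
    X = 2 * p.x0 ∧ Y = 4 * p.a - 2 * p.x0 := by
  have := p.aux
  all_goals (have := g0.lin; have := g1.lin)
  · have := g0.d4; omega

theorem lst_win (g0 : p.Ls (X - 2 * p.a) (Y + 2 * p.a)) (g1 : p.Win X Y) :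
    X = 2 * p.x0 + 2 * p.a ∧ Y = 2 * p.a - 2 * p.x0 := by
  have := p.aux
  all_goals (have := g0.lin; have := g1.lin)
  · have := g0.d4; have := g1.d1; omega

theorem qa_qa1 (g0 : p.Qa X Y) (g1 : p.Qa (-Y) X) :
    X = 2 * p.a ∧ Y = 0 := by
  have := p.aux
  rcases g0 with g0 | g0 | g0 <;> rcases g1 with g1 | g1 | g1
  all_goals (have := g0.lin; have := g1.lin; try omega)
  · have := g0.d5; have := g1.d6; omega
  · have := g0.d1; omega

theorem qa_qa2 (g0 : p.Qa X Y) (g1 : p.Qa (-X) (-Y)) :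
    False := by
  have := p.aux
  rcases g0 with g0 | g0 | g0 <;> rcases g1 with g1 | g1 | g1
  all_goals (have := g0.lin; have := g1.lin; omega)

theorem ra_ra (g0 : p.Ra X Y) (g1 : p.Ra Y (-X)) :
    X = 0 ∧ Y = 0 := by
  have := p.aux
  all_goals (have := g0.lin; have := g1.lin)
  · have := g1.d1; omega

theorem rr_qa0 (g0 : p.RR X Y) (g1 : p.Qa X Y) :
    X = 0 ∧ Y = 2 * p.a := by
  have := p.aux
  rcases g0 with g0 | g0 <;> rcases g1 with g1 | g1 | g1
  all_goals (have := g0.lin; have := g1.lin; try omega)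
  · have := g0.d1; have := g1.d5; omega

theorem rr_qa1 (g0 : p.RR X Y) (g1 : p.Qa (-Y) X) :
    False := by
  have := p.aux
  rcases g0 with g0 | g0 <;> rcases g1 with g1 | g1 | g1
  all_goals (have := g0.lin; have := g1.lin; omega)

theorem rr_qa2 (g0 : p.RR X Y) (g1 : p.Qa (-X) (-Y)) :
    X = -2 * p.a ∧ Y = 0 := by
  have := p.aux
  rcases g0 with g0 | g0 <;> rcases g1 with g1 | g1 | g1
  all_goals (have := g0.lin; have := g1.lin; try omega)
  · have := g1.d1; omega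

theorem mu_ls (g0 : p.Mu X Y) (g1 : p.Ls X Y) :
    X = 2 * p.x0 ∧ Y = 4 * p.a - 2 * p.x0 := by
  have := p.aux
  all_goals (have := g0.lin; have := g1.lin)
  · have := g1.d4; omega

theorem om_mub (g0 : p.Om X Y) (g1 : p.Mu (X - 2 * p.b) (Y - 2 * p.b)) :
    False := by
  have := p.aux
  all_goals (have := g0.lin; have := g1.lin; omega)

theorem ls_mub (g0 : p.Ls X Y) (g1 : p.Mu (X - 2 * p.b) (Y - 2 * p.b)) :
    False := by
  have := p.aux
  all_goals (have := g0.lin; have := g1.lin; omega)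

theorem ls_lsb (g0 : p.Ls X Y) (g1 : p.Ls (X - 2 * p.b) (Y - 2 * p.b)) :
    False := by
  have := p.aux
  all_goals (have := g0.lin; have := g1.lin; omega)

theorem le_lsb (g0 : X + Y ≤ 2 * p.a + 5) (g1 : p.Ls (X - 2 * p.b) (Y - 2 * p.b)) :
    False := by
  have := p.aux
  all_goals (have := g1.lin; omega)

theorem mu_mub (g0 : p.Mu X Y) (g1 : p.Mu (X - 2 * p.b) (Y - 2 * p.b)) :
    False := by
  have := p.aux
  all_goals (have := g0.lin; have := g1.lin; omega)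

theorem mu_lsb (g0 : p.Mu X Y) (g1 : p.Ls (X - 2 * p.b) (Y - 2 * p.b)) :
    False := by
  have := p.aux
  all_goals (have := g0.lin; have := g1.lin; omega)

theorem mu_om (g0 : p.Mu X Y) (g1 : p.Om X Y) :
    False := by
  have := p.aux
  all_goals (have := g0.lin; have := g1.lin)
  · have := g1.d4; omega

theorem qb_qb1 (g0 : p.Ls (X - 2 * p.b) (Y - 2 * p.b) ∨ p.Om X Y ∨ p.Ls X Y ∨ p.Mu X Y)
    (g1 : p.Qb (6 * p.a + 2 * p.b - Y) (2 * p.a - 6 * p.b + X)) :
    False := by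
  have := p.aux
  rcases g0 with g0 | g0 | g0 | g0 <;> rcases g1 with g1 | g1 | g1 | g1 | g1
  all_goals (have := g0.lin; have := g1.lin; omega)

theorem mub_qb1 (g0 : p.Mu (X - 2 * p.b) (Y - 2 * p.b))
    (g1 : p.Qb2 (6 * p.a + 2 * p.b - Y) (2 * p.a - 6 * p.b + X)) :
    False := by
  have := p.aux
  rcases g1 with g1 | g1 | g1 | g1
  all_goals (have := g0.lin; have := g1.lin; omega)

theorem qb_qb2 (g0 : p.Qb X Y) (g1 : p.Qb (4 * p.a + 8 * p.b - X) (8 * p.a - 4 * p.b - Y)) :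
    False := by
  have := p.aux
  rcases g0 with g0 | g0 | g0 | g0 | g0 <;> rcases g1 with g1 | g1 | g1 | g1 | g1
  all_goals (have := g0.lin; have := g1.lin; omega)

theorem rb_rb (g0 : p.Rb X Y) (g1 : p.Rb (6 * p.b - 2 * p.a + Y) (6 * p.a + 2 * p.b - X)) :
    X = 2 * p.a + 4 * p.b ∧ Y = 4 * p.a - 2 * p.b := by
  have := p.aux
  all_goals (have := g0.lin; have := g1.lin; omega)

theorem rrb_qb0 (g0 : p.RRb X Y) (g1 : p.Qb X Y) :
    X = 2 * p.a + 2 * p.b ∧ Y = 4 * p.a - 2 * p.b := by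
  have := p.aux
  rcases g0 with g0 | g0 <;> rcases g1 with g1 | g1 | g1 | g1 | g1
  all_goals (have := g0.lin; have := g1.lin; omega)

theorem rrb_qb1 (g0 : p.RRb X Y) (g1 : p.Qb (6 * p.a + 2 * p.b - Y) (2 * p.a - 6 * p.b + X)) :
    False := by
  have := p.aux
  rcases g0 with g0 | g0 <;> rcases g1 with g1 | g1 | g1 | g1 | g1
  all_goals (have := g0.lin; have := g1.lin; omega)

theorem rrb_qb2 (g0 : p.RRb X Y) (g1 : p.Qb (4 * p.a + 8 * p.b - X) (8 * p.a - 4 * p.b - Y)) :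
    X = 2 * p.a + 4 * p.b ∧ Y = 4 * p.a - 4 * p.b := by
  have := p.aux
  rcases g0 with g0 | g0 <;> rcases g1 with g1 | g1 | g1 | g1 | g1
  all_goals (have := g0.lin; have := g1.lin; try omega)
  · have := g1.d2; omega

theorem a1_mid (g0 : p.A1 X Y) (g1 : p.Mid X Y) :
    X = 2 * p.x0 + 2 * p.a ∧ Y = 2 * p.a - 2 * p.x0 := by
  have := p.aux
  rcases g0 with (g0 | g0) | (g0 | g0 | g0) | (g0 | g0 | g0) | g0 <;> rcases g1 with ⟨m, g1⟩ |
      ⟨m, g1⟩
  all_goals (have := g0.lin; have := g1.lin; try omega)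
  · have := g0.d4; have := g1.d1; omega
  · have := g0.d4; omega

theorem a1_a3 (g0 : p.A1 X Y) (g1 : p.A3 X Y) :
    X = 0 ∧ Y = 2 * p.a := by
  have := p.aux
  rcases g0 with (g0 | g0) | (g0 | g0 | g0) | (g0 | g0 | g0) | g0 <;> rcases g1 with (g1 | g1) |
      (g1 | g1 | g1 | g1 | g1) | (g1 | g1 | g1 | g1 | g1) | g1 | g1 | g1
  all_goals (have := g0.lin; have := g1.lin; try omega)
  · have := g0.d1; omega
  · have := g1.d1; have := g1.d3; omega
  · have := g1.d3; omega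

theorem mid_a3 (g0 : p.Mid X Y) (g1 : p.A3 X Y) :
    X = 2 * p.a + 2 * p.b ∧ Y = 4 * p.a - 2 * p.b := by
  have := p.aux
  rcases g0 with ⟨m, g0⟩ | ⟨m, g0⟩ <;> rcases g1 with (g1 | g1) | (g1 | g1 | g1 | g1 | g1) |
      (g1 | g1 | g1 | g1 | g1) | g1 | g1 | g1
  all_goals (have := g0.lin; have := g1.lin; try omega)
  · have := g0.d1; omega
  · have := g1.d4; omega

end Par
end NP
end Pool.Agent.Lib.MP_4a7072_co
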