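import Pool.Agent.Lib.MP_4a7072_co.NPair

/-!
Regions outside the three curves of the pinwheel design.
-/

set_option autoImplicit false

namespace Pool.Agent.Lib.MP_4a7072_co
namespace NP
namespace Par

variable (p : Par) {X Y : ℤ}

theorem dis_a01 (g0 : 6 * p.a + 2 ≤ (X + Y) ∧ (Y - X) ≤ 2 * p.a - 4) (g1 : p.EA X Y) :
    False := by
  have := p.aux
  rcases g1 with (g1 | g1) | (g1 | g1 | g1) | (g1 | g1 | g1) | (g1 | g1 | g1)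
  all_goals (have := g1.lin; omega)

theorem dis_a02 (g0 : 4 * p.a ≤ (X + Y) ∧ 4 * p.a - 4 * p.x0 + 2 ≤ (Y - X) ∧ (Y - X) ≤ 1)
    (g1 : p.EA X Y) :
    False := by
  have := p.aux
  rcases g1 with (g1 | g1) | (g1 | g1 | g1) | (g1 | g1 | g1) | (g1 | g1 | g1)
  all_goals (have := g1.lin; try omega)
  · have := g1.d4; omega
  · have := g1.d4; omega

theorem dis_a03 (g0 : 2 * p.a ≤ (X + Y) ∧ (Y - X) ≤ -4 * p.x0 - 2) (g1 : p.EA X Y) :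
    False := by
  have := p.aux
  rcases g1 with (g1 | g1) | (g1 | g1 | g1) | (g1 | g1 | g1) | (g1 | g1 | g1)
  all_goals (have := g1.lin; omega)

theorem dis_a04 (g0 : 2 * p.a - 1 ≤ (X + Y) ∧ (X + Y) ≤ 2 * p.a ∧ (Y - X) ≤ -6 * p.a)
    (g1 : p.EA X Y) :
    False := by
  have := p.aux
  rcases g1 with (g1 | g1) | (g1 | g1 | g1) | (g1 | g1 | g1) | (g1 | g1 | g1)
  all_goals (have := g1.lin; try omega)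
  · have := g1.d1; omega
  · have := g1.d1; omega

theorem dis_a31 (g0 : 6 * p.a + 2 ≤ ((-Y) + X) ∧ (X - (-Y)) ≤ 2 * p.a - 4) (g1 : p.EA X Y) :
    False := by
  have := p.aux
  rcases g1 with (g1 | g1) | (g1 | g1 | g1) | (g1 | g1 | g1) | (g1 | g1 | g1)
  all_goals (have := g1.lin; omega)

theorem dis_a32 (g0 : 4 * p.a ≤ ((-Y) + X) ∧ 4 * p.a - 4 * p.x0 + 2 ≤ (X - (-Y)) ∧
    (X - (-Y)) ≤ 1) (g1 : p.EA X Y) :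
    False := by
  have := p.aux
  rcases g1 with (g1 | g1) | (g1 | g1 | g1) | (g1 | g1 | g1) | (g1 | g1 | g1)
  all_goals (have := g1.lin; try omega)
  · have := g1.d4; omega
  · have := g1.d4; omega

theorem dis_a33 (g0 : 2 * p.a ≤ ((-Y) + X) ∧ (X - (-Y)) ≤ -4 * p.x0 - 2) (g1 : p.EA X Y) :
    False := by
  have := p.aux
  rcases g1 with (g1 | g1) | (g1 | g1 | g1) | (g1 | g1 | g1) | (g1 | g1 | g1)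
  all_goals (have := g1.lin; omega)

theorem dis_a34 (g0 : 2 * p.a - 1 ≤ ((-Y) + X) ∧ ((-Y) + X) ≤ 2 * p.a ∧ (X - (-Y)) ≤ -6 * p.a)
    (g1 : p.EA X Y) :
    False := by
  have := p.aux
  rcases g1 with (g1 | g1) | (g1 | g1 | g1) | (g1 | g1 | g1) | (g1 | g1 | g1)
  all_goals (have := g1.lin; try omega)
  · have := g1.d1; omega
  · have := g1.d1; omega

theorem dis_a21 (g0 : 6 * p.a + 2 ≤ ((-X) + (-Y)) ∧ ((-Y) - (-X)) ≤ 2 * p.a - 4) (g1 : p.EA X Y) :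
    False := by
  have := p.aux
  rcases g1 with (g1 | g1) | (g1 | g1 | g1) | (g1 | g1 | g1) | (g1 | g1 | g1)
  all_goals (have := g1.lin; omega)

theorem dis_a22 (g0 : 4 * p.a ≤ ((-X) + (-Y)) ∧ 4 * p.a - 4 * p.x0 + 2 ≤ ((-Y) - (-X)) ∧
    ((-Y) - (-X)) ≤ 1) (g1 : p.EA X Y) :
    False := by
  have := p.aux
  rcases g1 with (g1 | g1) | (g1 | g1 | g1) | (g1 | g1 | g1) | (g1 | g1 | g1)
  all_goals (have := g1.lin; try omega)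
  · have := g1.d4; omega
  · have := g1.d4; omega

theorem dis_a23 (g0 : 2 * p.a ≤ ((-X) + (-Y)) ∧ ((-Y) - (-X)) ≤ -4 * p.x0 - 2) (g1 : p.EA X Y) :
    False := by
  have := p.aux
  rcases g1 with (g1 | g1) | (g1 | g1 | g1) | (g1 | g1 | g1) | (g1 | g1 | g1)
  all_goals (have := g1.lin; omega)

theorem dis_a24 (g0 : 2 * p.a - 1 ≤ ((-X) + (-Y)) ∧ ((-X) + (-Y)) ≤ 2 * p.a ∧
    ((-Y) - (-X)) ≤ -6 * p.a) (g1 : p.EA X Y) :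
    False := by
  have := p.aux
  rcases g1 with (g1 | g1) | (g1 | g1 | g1) | (g1 | g1 | g1) | (g1 | g1 | g1)
  all_goals (have := g1.lin; try omega)
  · have := g1.d1; omega
  · have := g1.d1; omega

theorem dis_a15 (g0 : 2 * p.a ≤ (Y - X) ∧ 4 - 2 * p.a ≤ (X + Y) ∧ (2 * p.a + 2 ≤ (Y - X) ∨
    2 * p.a + 2 ≤ (X + Y))) (g1 : p.EA X Y) :
    False := by
  have := p.aux
  rcases g1 with (g1 | g1) | (g1 | g1 | g1) | (g1 | g1 | g1) | (g1 | g1 | g1)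
  all_goals (have := g1.lin; omega)

theorem dis_a6 (g0 : X ≤ -2 ∧ 1 - p.e1 ≤ Y ∧ -4 ≤ (X + Y) ∧ (X + Y) ≤ 0) (g1 : p.EA X Y) :
    False := by
  have := p.aux
  rcases g1 with (g1 | g1) | (g1 | g1 | g1) | (g1 | g1 | g1) | (g1 | g1 | g1)
  all_goals (have := g1.lin; try omega)
  · have := g1.d1; omega

theorem dis_b01 (g0 : 2 * p.a + 2 ≤ (Y - X) ∧ (X + Y) ≤ 6 * p.a + 4 * p.b - 2) (g1 : p.EB X Y) :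
    False := by
  have := p.aux
  rcases g1 with (g1 | g1) | (g1 | g1 | g1 | g1 | g1) | (g1 | g1 | g1 | g1 | g1) | (g1 | g1 |
      g1 | g1 | g1)
  all_goals (have := g1.lin; omega)

theorem dis_b02 (g0 : (X + Y) ≤ 2 * p.a - 4 ∧ 2 * p.a - 4 * p.b ≤ (Y - X) ∧
    (2 * p.a - 4 * p.b + 2 ≤ (Y - X) ∨ (X + Y) ≤ 6 * p.a - 4 * p.b)) (g1 : p.EB X Y) :
    False := by
  have := p.aux
  rcases g1 with (g1 | g1) | (g1 | g1 | g1 | g1 | g1) | (g1 | g1 | g1 | g1 | g1) | (g1 | g1 |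
      g1 | g1 | g1)
  all_goals (have := g1.lin; omega)

theorem dis_b03 (g0 : 2 * p.a < p.b ∧ (X + Y) ≤ 2 * p.a - 2 ∧ 2 * p.a - 2 * p.b ≤ (Y - X) ∧
    (Y - X) ≤ 2 * p.a - 2 * p.b + 1) (g1 : p.EB X Y) :
    False := by
  have := p.aux
  rcases g1 with (g1 | g1) | (g1 | g1 | g1 | g1 | g1) | (g1 | g1 | g1 | g1 | g1) | (g1 | g1 |
      g1 | g1 | g1)
  all_goals (have := g1.lin; try omega)
  · have := g1.d1; omega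

theorem dis_b04 (g0 : p.b < 2 * p.a ∧ X = 2 * p.a + 2 * p.b ∧ 4 * p.a ≤ Y) (g1 : p.EB X Y) :
    False := by
  have := p.aux
  rcases g1 with (g1 | g1) | (g1 | g1 | g1 | g1 | g1) | (g1 | g1 | g1 | g1 | g1) | (g1 | g1 |
      g1 | g1 | g1)
  all_goals (have := g1.lin; try omega)
  · have := p.hT; have := p.he; have := p.hpar; have := g1.d3; omega

theorem dis_b31 (g0 : 2 * p.a + 2 ≤ ((2 * p.a - 6 * p.b + X) - (6 * p.a + 2 * p.b - Y)) ∧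
    ((6 * p.a + 2 * p.b - Y) + (2 * p.a - 6 * p.b + X)) ≤ 6 * p.a + 4 * p.b - 2) (g1 : p.EB X Y) :
    False := by
  have := p.aux
  rcases g1 with (g1 | g1) | (g1 | g1 | g1 | g1 | g1) | (g1 | g1 | g1 | g1 | g1) | (g1 | g1 |
      g1 | g1 | g1)
  all_goals (have := g1.lin; omega)

theorem dis_b32 (g0 : ((6 * p.a + 2 * p.b - Y) + (2 * p.a - 6 * p.b + X)) ≤ 2 * p.a - 4 ∧
    2 * p.a - 4 * p.b ≤ ((2 * p.a - 6 * p.b + X) - (6 * p.a + 2 * p.b - Y)) ∧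
    (2 * p.a - 4 * p.b + 2 ≤ ((2 * p.a - 6 * p.b + X) - (6 * p.a + 2 * p.b - Y)) ∨
    ((6 * p.a + 2 * p.b - Y) + (2 * p.a - 6 * p.b + X)) ≤ 6 * p.a - 4 * p.b)) (g1 : p.EB X Y) :
    False := by
  have := p.aux
  rcases g1 with (g1 | g1) | (g1 | g1 | g1 | g1 | g1) | (g1 | g1 | g1 | g1 | g1) | (g1 | g1 |
      g1 | g1 | g1)
  all_goals (have := g1.lin; omega)

theorem dis_b33 (g0 : 2 * p.a < p.b ∧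
    ((6 * p.a + 2 * p.b - Y) + (2 * p.a - 6 * p.b + X)) ≤ 2 * p.a - 2 ∧
    2 * p.a - 2 * p.b ≤ ((2 * p.a - 6 * p.b + X) - (6 * p.a + 2 * p.b - Y)) ∧
    ((2 * p.a - 6 * p.b + X) - (6 * p.a + 2 * p.b - Y)) ≤ 2 * p.a - 2 * p.b + 1) (g1 : p.EB X Y) :
    False := by
  have := p.aux
  rcases g1 with (g1 | g1) | (g1 | g1 | g1 | g1 | g1) | (g1 | g1 | g1 | g1 | g1) | (g1 | g1 |
      g1 | g1 | g1)
  all_goals (have := g1.lin; try omega)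
  · have := g1.d1; omega

theorem dis_b34 (g0 : p.b < 2 * p.a ∧ (6 * p.a + 2 * p.b - Y) = 2 * p.a + 2 * p.b ∧
    4 * p.a ≤ (2 * p.a - 6 * p.b + X)) (g1 : p.EB X Y) :
    False := by
  have := p.aux
  rcases g1 with (g1 | g1) | (g1 | g1 | g1 | g1 | g1) | (g1 | g1 | g1 | g1 | g1) | (g1 | g1 |
      g1 | g1 | g1)
  all_goals (have := g1.lin; try omega)
  · have := p.hT; have := p.he; have := p.hpar; have := g1.d3; omega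

theorem dis_b21 (g0 : 2 * p.a + 2 ≤ ((8 * p.a - 4 * p.b - Y) - (4 * p.a + 8 * p.b - X)) ∧
    ((4 * p.a + 8 * p.b - X) + (8 * p.a - 4 * p.b - Y)) ≤ 6 * p.a + 4 * p.b - 2) (g1 : p.EB X Y) :
    False := by
  have := p.aux
  rcases g1 with (g1 | g1) | (g1 | g1 | g1 | g1 | g1) | (g1 | g1 | g1 | g1 | g1) | (g1 | g1 |
      g1 | g1 | g1)
  all_goals (have := g1.lin; omega)

theorem dis_b22 (g0 : ((4 * p.a + 8 * p.b - X) + (8 * p.a - 4 * p.b - Y)) ≤ 2 * p.a - 4 ∧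
    2 * p.a - 4 * p.b ≤ ((8 * p.a - 4 * p.b - Y) - (4 * p.a + 8 * p.b - X)) ∧
    (2 * p.a - 4 * p.b + 2 ≤ ((8 * p.a - 4 * p.b - Y) - (4 * p.a + 8 * p.b - X)) ∨
    ((4 * p.a + 8 * p.b - X) + (8 * p.a - 4 * p.b - Y)) ≤ 6 * p.a - 4 * p.b)) (g1 : p.EB X Y) :
    False := by
  have := p.aux
  rcases g1 with (g1 | g1) | (g1 | g1 | g1 | g1 | g1) | (g1 | g1 | g1 | g1 | g1) | (g1 | g1 |
      g1 | g1 | g1)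
  all_goals (have := g1.lin; omega)

theorem dis_b23 (g0 : 2 * p.a < p.b ∧
    ((4 * p.a + 8 * p.b - X) + (8 * p.a - 4 * p.b - Y)) ≤ 2 * p.a - 2 ∧
    2 * p.a - 2 * p.b ≤ ((8 * p.a - 4 * p.b - Y) - (4 * p.a + 8 * p.b - X)) ∧
    ((8 * p.a - 4 * p.b - Y) - (4 * p.a + 8 * p.b - X)) ≤ 2 * p.a - 2 * p.b + 1) (g1 : p.EB X Y) :
    False := by
  have := p.aux
  rcases g1 with (g1 | g1) | (g1 | g1 | g1 | g1 | g1) | (g1 | g1 | g1 | g1 | g1) | (g1 | g1 |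
      g1 | g1 | g1)
  all_goals (have := g1.lin; try omega)
  · have := g1.d1; omega

theorem dis_b24 (g0 : p.b < 2 * p.a ∧ (4 * p.a + 8 * p.b - X) = 2 * p.a + 2 * p.b ∧
    4 * p.a ≤ (8 * p.a - 4 * p.b - Y)) (g1 : p.EB X Y) :
    False := by
  have := p.aux
  rcases g1 with (g1 | g1) | (g1 | g1 | g1 | g1 | g1) | (g1 | g1 | g1 | g1 | g1) | (g1 | g1 |
      g1 | g1 | g1)
  all_goals (have := g1.lin; try omega)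
  · have := p.hT; have := p.he; have := p.hpar; have := g1.d3; omega

theorem dis_b15 (g0 : (X + Y) ≤ 6 * p.a ∧ (Y - X) ≤ 2 * p.a - 6 * p.b ∧ ((X + Y) ≤ 6 * p.a - 2 ∨
    (Y - X) ≤ 2 * p.a - 12 * p.b)) (g1 : p.EB X Y) :
    False := by
  have := p.aux
  rcases g1 with (g1 | g1) | (g1 | g1 | g1 | g1 | g1) | (g1 | g1 | g1 | g1 | g1) | (g1 | g1 |
      g1 | g1 | g1)
  all_goals (have := g1.lin; omega)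

theorem dis_b6 (g0 : X ≤ 2 * p.a + 4 * p.b - 1 ∧ Y ≤ 4 * p.a - 2 * p.b - 1 ∧
    2 * p.a - 6 * p.b - 2 ≤ (Y - X) ∧ (Y - X) ≤ 2 * p.a - 6 * p.b + 2) (g1 : p.EB X Y) :
    False := by
  have := p.aux
  rcases g1 with (g1 | g1) | (g1 | g1 | g1 | g1 | g1) | (g1 | g1 | g1 | g1 | g1) | (g1 | g1 |
      g1 | g1 | g1)
  all_goals (have := g1.lin; omega)

theorem dis_c1 (g0 : 2 * p.a + 2 ≤ (Y - X) ∧ 4 - 2 * p.a ≤ (X + Y)) (g1 : p.EC X Y) :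
    False := by
  have := p.aux
  rcases g1 with ((g1 | g1) | (g1 | g1 | g1) | (g1 | g1 | g1) | g1) | (⟨m, g1⟩ | ⟨m, g1⟩) |
      ((g1 | g1) | (g1 | g1 | g1 | g1 | g1) | (g1 | g1 | g1 | g1 | g1) | g1 | g1 | g1)
  all_goals (have := g1.lin; omega)

theorem dis_c2 (g0 : 6 * p.a + 4 * p.b + 2 ≤ (X + Y) ∧ 6 * p.a - 4 * p.b + 4 ≤ (Y - X))
    (g1 : p.EC X Y) :
    False := by
  have := p.aux
  rcases g1 with ((g1 | g1) | (g1 | g1 | g1) | (g1 | g1 | g1) | g1) | (⟨m, g1⟩ | ⟨m, g1⟩) |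
      ((g1 | g1) | (g1 | g1 | g1 | g1 | g1) | (g1 | g1 | g1 | g1 | g1) | g1 | g1 | g1)
  all_goals (have := g1.lin; omega)

theorem dis_c3 (g0 : 4 * p.x0 + 2 ≤ (Y - X)) (g1 : p.EC X Y) :
    False := by
  have := p.aux
  rcases g1 with ((g1 | g1) | (g1 | g1 | g1) | (g1 | g1 | g1) | g1) | (⟨m, g1⟩ | ⟨m, g1⟩) |
      ((g1 | g1) | (g1 | g1 | g1 | g1 | g1) | (g1 | g1 | g1 | g1 | g1) | g1 | g1 | g1)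
  all_goals (have := g1.lin; omega)

theorem dis_c4 (g0 : 6 * p.a + 8 * p.b + 2 ≤ (X + Y)) (g1 : p.EC X Y) :
    False := by
  have := p.aux
  rcases g1 with ((g1 | g1) | (g1 | g1 | g1) | (g1 | g1 | g1) | g1) | (⟨m, g1⟩ | ⟨m, g1⟩) |
      ((g1 | g1) | (g1 | g1 | g1 | g1 | g1) | (g1 | g1 | g1 | g1 | g1) | g1 | g1 | g1)
  all_goals (have := g1.lin; omega)

theorem dis_c5 (g0 : 10 * p.a + 4 * p.b + 4 ≤ (X + Y) ∧ (Y - X) ≤ 2 * p.a - 8 * p.b - 2)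
    (g1 : p.EC X Y) :
    False := by
  have := p.aux
  rcases g1 with ((g1 | g1) | (g1 | g1 | g1) | (g1 | g1 | g1) | g1) | (⟨m, g1⟩ | ⟨m, g1⟩) |
      ((g1 | g1) | (g1 | g1 | g1 | g1 | g1) | (g1 | g1 | g1 | g1 | g1) | g1 | g1 | g1)
  all_goals (have := g1.lin; omega)

theorem dis_c6 (g0 : (Y - X) ≤ 2 * p.a - 12 * p.b - 2) (g1 : p.EC X Y) :
    False := by
  have := p.aux
  rcases g1 with ((g1 | g1) | (g1 | g1 | g1) | (g1 | g1 | g1) | g1) | (⟨m, g1⟩ | ⟨m, g1⟩) |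
      ((g1 | g1) | (g1 | g1 | g1 | g1 | g1) | (g1 | g1 | g1 | g1 | g1) | g1 | g1 | g1)
  all_goals (have := g1.lin; omega)

theorem dis_c7 (g0 : (X + Y) ≤ -4 * p.x0 - 2 ∧ (X + Y) ≤ -6 * p.a - 2) (g1 : p.EC X Y) :
    False := by
  have := p.aux
  rcases g1 with ((g1 | g1) | (g1 | g1 | g1) | (g1 | g1 | g1) | g1) | (⟨m, g1⟩ | ⟨m, g1⟩) |
      ((g1 | g1) | (g1 | g1 | g1 | g1 | g1) | (g1 | g1 | g1 | g1 | g1) | g1 | g1 | g1)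
  all_goals (have := g1.lin; omega)

theorem dis_c8 (g0 : (X + Y) ≤ 6 * p.a - 2 ∧ (Y - X) ≤ -4 * p.x0 - 2 ∧
    (Y - X) ≤ 2 * p.a - 4 * p.b - 2 ∧ (Y - X) ≤ -6 * p.a - 2) (g1 : p.EC X Y) :
    False := by
  have := p.aux
  rcases g1 with ((g1 | g1) | (g1 | g1 | g1) | (g1 | g1 | g1) | g1) | (⟨m, g1⟩ | ⟨m, g1⟩) |
      ((g1 | g1) | (g1 | g1 | g1 | g1 | g1) | (g1 | g1 | g1 | g1 | g1) | g1 | g1 | g1)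
  all_goals (have := g1.lin; omega)

theorem dis_c9 (g0 : (X + Y) ≤ 2 * p.a + 1 ∧ (Y - X) ≤ -6 * p.a - 2) (g1 : p.EC X Y) :
    False := by
  have := p.aux
  rcases g1 with ((g1 | g1) | (g1 | g1 | g1) | (g1 | g1 | g1) | g1) | (⟨m, g1⟩ | ⟨m, g1⟩) |
      ((g1 | g1) | (g1 | g1 | g1 | g1 | g1) | (g1 | g1 | g1 | g1 | g1) | g1 | g1 | g1)
  all_goals (have := g1.lin; try omega)
  · have := g1.d1; omega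
  · have := g1.d3; omega

theorem dis_c10 (g0 : p.b < 2 * p.a ∧ 2 * p.a - 2 * p.b ≤ (X + Y) ∧
    (X + Y) ≤ 2 * p.a - 2 * p.b + 1 ∧ (Y - X) ≤ -2 * p.a - 2 * p.b) (g1 : p.EC X Y) :
    False := by
  have := p.aux
  rcases g1 with ((g1 | g1) | (g1 | g1 | g1) | (g1 | g1 | g1) | g1) | (⟨m, g1⟩ | ⟨m, g1⟩) |
      ((g1 | g1) | (g1 | g1 | g1 | g1 | g1) | (g1 | g1 | g1 | g1 | g1) | g1 | g1 | g1)
  all_goals (have := g1.lin; try omega)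
  · have := p.hx; omega

theorem dis_c11 (g0 : p.b < 2 * p.a ∧ 2 * p.b - 2 * p.a - 1 ≤ (Y - X) ∧
    (Y - X) ≤ 2 * p.b - 2 * p.a ∧ (X + Y) ≤ -2 * p.a - 2 * p.b) (g1 : p.EC X Y) :
    False := by
  have := p.aux
  rcases g1 with ((g1 | g1) | (g1 | g1 | g1) | (g1 | g1 | g1) | g1) | (⟨m, g1⟩ | ⟨m, g1⟩) |
      ((g1 | g1) | (g1 | g1 | g1 | g1 | g1) | (g1 | g1 | g1 | g1 | g1) | g1 | g1 | g1)
  all_goals (have := g1.lin; try omega)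
  · have := p.hx; omega

theorem dis_c12 (g0 : (X + Y) ≤ -6 * p.a - 2 ∧ 4 - 2 * p.a ≤ (Y - X)) (g1 : p.EC X Y) :
    False := by
  have := p.aux
  rcases g1 with ((g1 | g1) | (g1 | g1 | g1) | (g1 | g1 | g1) | g1) | (⟨m, g1⟩ | ⟨m, g1⟩) |
      ((g1 | g1) | (g1 | g1 | g1 | g1 | g1) | (g1 | g1 | g1 | g1 | g1) | g1 | g1 | g1)
  all_goals (have := g1.lin; omega)

theorem dis_c13 (g0 : X ≤ -2 ∧ 1 - p.e1 ≤ Y ∧ -4 ≤ (X + Y) ∧ (X + Y) ≤ 0) (g1 : p.EC X Y) :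
    False := by
  have := p.aux
  rcases g1 with ((g1 | g1) | (g1 | g1 | g1) | (g1 | g1 | g1) | g1) | (⟨m, g1⟩ | ⟨m, g1⟩) |
      ((g1 | g1) | (g1 | g1 | g1 | g1 | g1) | (g1 | g1 | g1 | g1 | g1) | g1 | g1 | g1)
  all_goals (have := g1.lin; try omega)
  · have := g1.d1; omega

theorem esc_a01 (h : 6 * p.a + 2 ≤ (X + Y) ∧ (Y - X) ≤ 2 * p.a - 4) :
    Esc p.EA X Y :=
  ⟨fun X Y => 6 * p.a + 2 ≤ (X + Y) ∧ (Y - X) ≤ 2 * p.a - 4,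
    h, fun _ _ => p.dis_a01, Or.inl fun X Y h => by omega⟩

theorem esc_a02 (h : 4 * p.a ≤ (X + Y) ∧ 4 * p.a - 4 * p.x0 + 2 ≤ (Y - X) ∧ (Y - X) ≤ 1) :
    Esc p.EA X Y :=
  ⟨fun X Y => 4 * p.a ≤ (X + Y) ∧ 4 * p.a - 4 * p.x0 + 2 ≤ (Y - X) ∧ (Y - X) ≤ 1,
    h, fun _ _ => p.dis_a02, Or.inl fun X Y h => by omega⟩

theorem esc_a03 (h : 2 * p.a ≤ (X + Y) ∧ (Y - X) ≤ -4 * p.x0 - 2) :
    Esc p.EA X Y :=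
  ⟨fun X Y => 2 * p.a ≤ (X + Y) ∧ (Y - X) ≤ -4 * p.x0 - 2,
    h, fun _ _ => p.dis_a03, Or.inl fun X Y h => by omega⟩

theorem esc_a04 (h : 2 * p.a - 1 ≤ (X + Y) ∧ (X + Y) ≤ 2 * p.a ∧ (Y - X) ≤ -6 * p.a) :
    Esc p.EA X Y :=
  ⟨fun X Y => 2 * p.a - 1 ≤ (X + Y) ∧ (X + Y) ≤ 2 * p.a ∧ (Y - X) ≤ -6 * p.a,
    h, fun _ _ => p.dis_a04, Or.inr <| Or.inr <| Or.inr fun X Y h => by omega⟩

theorem esc_a31 (h : 6 * p.a + 2 ≤ ((-Y) + X) ∧ (X - (-Y)) ≤ 2 * p.a - 4) :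
    Esc p.EA X Y :=
  ⟨fun X Y => 6 * p.a + 2 ≤ ((-Y) + X) ∧ (X - (-Y)) ≤ 2 * p.a - 4,
    h, fun _ _ => p.dis_a31, Or.inr <| Or.inr <| Or.inr fun X Y h => by omega⟩

theorem esc_a32 (h : 4 * p.a ≤ ((-Y) + X) ∧ 4 * p.a - 4 * p.x0 + 2 ≤ (X - (-Y)) ∧ (X - (-Y)) ≤ 1) :
    Esc p.EA X Y :=
  ⟨fun X Y => 4 * p.a ≤ ((-Y) + X) ∧ 4 * p.a - 4 * p.x0 + 2 ≤ (X - (-Y)) ∧ (X - (-Y)) ≤ 1,
    h, fun _ _ => p.dis_a32, Or.inr <| Or.inr <| Or.inr fun X Y h => by omega⟩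

theorem esc_a33 (h : 2 * p.a ≤ ((-Y) + X) ∧ (X - (-Y)) ≤ -4 * p.x0 - 2) :
    Esc p.EA X Y :=
  ⟨fun X Y => 2 * p.a ≤ ((-Y) + X) ∧ (X - (-Y)) ≤ -4 * p.x0 - 2,
    h, fun _ _ => p.dis_a33, Or.inr <| Or.inr <| Or.inr fun X Y h => by omega⟩

theorem esc_a34 (h : 2 * p.a - 1 ≤ ((-Y) + X) ∧ ((-Y) + X) ≤ 2 * p.a ∧ (X - (-Y)) ≤ -6 * p.a) :
    Esc p.EA X Y :=
  ⟨fun X Y => 2 * p.a - 1 ≤ ((-Y) + X) ∧ ((-Y) + X) ≤ 2 * p.a ∧ (X - (-Y)) ≤ -6 * p.a,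
    h, fun _ _ => p.dis_a34, Or.inr <| Or.inr <| Or.inl fun X Y h => by omega⟩

theorem esc_a21 (h : 6 * p.a + 2 ≤ ((-X) + (-Y)) ∧ ((-Y) - (-X)) ≤ 2 * p.a - 4) :
    Esc p.EA X Y :=
  ⟨fun X Y => 6 * p.a + 2 ≤ ((-X) + (-Y)) ∧ ((-Y) - (-X)) ≤ 2 * p.a - 4,
    h, fun _ _ => p.dis_a21, Or.inr <| Or.inr <| Or.inl fun X Y h => by omega⟩

theorem esc_a22 (h : 4 * p.a ≤ ((-X) + (-Y)) ∧ 4 * p.a - 4 * p.x0 + 2 ≤ ((-Y) - (-X)) ∧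
    ((-Y) - (-X)) ≤ 1) :
    Esc p.EA X Y :=
  ⟨fun X Y => 4 * p.a ≤ ((-X) + (-Y)) ∧ 4 * p.a - 4 * p.x0 + 2 ≤ ((-Y) - (-X)) ∧ ((-Y) - (-X)) ≤ 1,
    h, fun _ _ => p.dis_a22, Or.inr <| Or.inr <| Or.inl fun X Y h => by omega⟩

theorem esc_a23 (h : 2 * p.a ≤ ((-X) + (-Y)) ∧ ((-Y) - (-X)) ≤ -4 * p.x0 - 2) :
    Esc p.EA X Y :=
  ⟨fun X Y => 2 * p.a ≤ ((-X) + (-Y)) ∧ ((-Y) - (-X)) ≤ -4 * p.x0 - 2,
    h, fun _ _ => p.dis_a23, Or.inr <| Or.inr <| Or.inl fun X Y h => by omega⟩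

theorem esc_a24 (h : 2 * p.a - 1 ≤ ((-X) + (-Y)) ∧ ((-X) + (-Y)) ≤ 2 * p.a ∧
    ((-Y) - (-X)) ≤ -6 * p.a) :
    Esc p.EA X Y :=
  ⟨fun X Y => 2 * p.a - 1 ≤ ((-X) + (-Y)) ∧ ((-X) + (-Y)) ≤ 2 * p.a ∧ ((-Y) - (-X)) ≤ -6 * p.a,
    h, fun _ _ => p.dis_a24, Or.inr <| Or.inl fun X Y h => by omega⟩

theorem esc_a15 (h : 2 * p.a ≤ (Y - X) ∧ 4 - 2 * p.a ≤ (X + Y) ∧ (2 * p.a + 2 ≤ (Y - X) ∨
    2 * p.a + 2 ≤ (X + Y))) :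
    Esc p.EA X Y :=
  ⟨fun X Y => 2 * p.a ≤ (Y - X) ∧ 4 - 2 * p.a ≤ (X + Y) ∧ (2 * p.a + 2 ≤ (Y - X) ∨
      2 * p.a + 2 ≤ (X + Y)),
    h, fun _ _ => p.dis_a15, Or.inr <| Or.inl fun X Y h => by omega⟩

theorem esc_a6 (h : X ≤ -2 ∧ 1 - p.e1 ≤ Y ∧ -4 ≤ (X + Y) ∧ (X + Y) ≤ 0) :
    Esc p.EA X Y :=
  ⟨fun X Y => X ≤ -2 ∧ 1 - p.e1 ≤ Y ∧ -4 ≤ (X + Y) ∧ (X + Y) ≤ 0,
    h, fun _ _ => p.dis_a6, Or.inr <| Or.inl fun X Y h => by omega⟩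

theorem esc_b01 (h : 2 * p.a + 2 ≤ (Y - X) ∧ (X + Y) ≤ 6 * p.a + 4 * p.b - 2) :
    Esc p.EB X Y :=
  ⟨fun X Y => 2 * p.a + 2 ≤ (Y - X) ∧ (X + Y) ≤ 6 * p.a + 4 * p.b - 2,
    h, fun _ _ => p.dis_b01, Or.inr <| Or.inl fun X Y h => by omega⟩

theorem esc_b02 (h : (X + Y) ≤ 2 * p.a - 4 ∧ 2 * p.a - 4 * p.b ≤ (Y - X) ∧
    (2 * p.a - 4 * p.b + 2 ≤ (Y - X) ∨ (X + Y) ≤ 6 * p.a - 4 * p.b)) :
    Esc p.EB X Y :=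
  ⟨fun X Y => (X + Y) ≤ 2 * p.a - 4 ∧ 2 * p.a - 4 * p.b ≤ (Y - X) ∧
      (2 * p.a - 4 * p.b + 2 ≤ (Y - X) ∨ (X + Y) ≤ 6 * p.a - 4 * p.b),
    h, fun _ _ => p.dis_b02, Or.inr <| Or.inl fun X Y h => by omega⟩

theorem esc_b03 (h : 2 * p.a < p.b ∧ (X + Y) ≤ 2 * p.a - 2 ∧ 2 * p.a - 2 * p.b ≤ (Y - X) ∧
    (Y - X) ≤ 2 * p.a - 2 * p.b + 1) :
    Esc p.EB X Y :=
  ⟨fun X Y => 2 * p.a < p.b ∧ (X + Y) ≤ 2 * p.a - 2 ∧ 2 * p.a - 2 * p.b ≤ (Y - X) ∧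
      (Y - X) ≤ 2 * p.a - 2 * p.b + 1,
    h, fun _ _ => p.dis_b03, Or.inr <| Or.inr <| Or.inl fun X Y h => by omega⟩

theorem esc_b04 (h : p.b < 2 * p.a ∧ X = 2 * p.a + 2 * p.b ∧ 4 * p.a ≤ Y) :
    Esc p.EB X Y :=
  ⟨fun X Y => p.b < 2 * p.a ∧ X = 2 * p.a + 2 * p.b ∧ 4 * p.a ≤ Y,
    h, fun _ _ => p.dis_b04, Or.inr <| Or.inl fun X Y h => by omega⟩

theorem esc_b31 (h : 2 * p.a + 2 ≤ ((2 * p.a - 6 * p.b + X) - (6 * p.a + 2 * p.b - Y)) ∧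
    ((6 * p.a + 2 * p.b - Y) + (2 * p.a - 6 * p.b + X)) ≤ 6 * p.a + 4 * p.b - 2) :
    Esc p.EB X Y :=
  ⟨fun X Y => 2 * p.a + 2 ≤ ((2 * p.a - 6 * p.b + X) - (6 * p.a + 2 * p.b - Y)) ∧
      ((6 * p.a + 2 * p.b - Y) + (2 * p.a - 6 * p.b + X)) ≤ 6 * p.a + 4 * p.b - 2,
    h, fun _ _ => p.dis_b31, Or.inl fun X Y h => by omega⟩

theorem esc_b32 (h : ((6 * p.a + 2 * p.b - Y) + (2 * p.a - 6 * p.b + X)) ≤ 2 * p.a - 4 ∧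
    2 * p.a - 4 * p.b ≤ ((2 * p.a - 6 * p.b + X) - (6 * p.a + 2 * p.b - Y)) ∧
    (2 * p.a - 4 * p.b + 2 ≤ ((2 * p.a - 6 * p.b + X) - (6 * p.a + 2 * p.b - Y)) ∨
    ((6 * p.a + 2 * p.b - Y) + (2 * p.a - 6 * p.b + X)) ≤ 6 * p.a - 4 * p.b)) :
    Esc p.EB X Y :=
  ⟨fun X Y => ((6 * p.a + 2 * p.b - Y) + (2 * p.a - 6 * p.b + X)) ≤ 2 * p.a - 4 ∧
      2 * p.a - 4 * p.b ≤ ((2 * p.a - 6 * p.b + X) - (6 * p.a + 2 * p.b - Y)) ∧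
      (2 * p.a - 4 * p.b + 2 ≤ ((2 * p.a - 6 * p.b + X) - (6 * p.a + 2 * p.b - Y)) ∨
      ((6 * p.a + 2 * p.b - Y) + (2 * p.a - 6 * p.b + X)) ≤ 6 * p.a - 4 * p.b),
    h, fun _ _ => p.dis_b32, Or.inl fun X Y h => by omega⟩

theorem esc_b33 (h : 2 * p.a < p.b ∧
    ((6 * p.a + 2 * p.b - Y) + (2 * p.a - 6 * p.b + X)) ≤ 2 * p.a - 2 ∧
    2 * p.a - 2 * p.b ≤ ((2 * p.a - 6 * p.b + X) - (6 * p.a + 2 * p.b - Y)) ∧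
    ((2 * p.a - 6 * p.b + X) - (6 * p.a + 2 * p.b - Y)) ≤ 2 * p.a - 2 * p.b + 1) :
    Esc p.EB X Y :=
  ⟨fun X Y => 2 * p.a < p.b ∧ ((6 * p.a + 2 * p.b - Y) + (2 * p.a - 6 * p.b + X)) ≤ 2 * p.a - 2 ∧
      2 * p.a - 2 * p.b ≤ ((2 * p.a - 6 * p.b + X) - (6 * p.a + 2 * p.b - Y)) ∧
      ((2 * p.a - 6 * p.b + X) - (6 * p.a + 2 * p.b - Y)) ≤ 2 * p.a - 2 * p.b + 1,
    h, fun _ _ => p.dis_b33, Or.inr <| Or.inl fun X Y h => by omega⟩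

theorem esc_b34 (h : p.b < 2 * p.a ∧ (6 * p.a + 2 * p.b - Y) = 2 * p.a + 2 * p.b ∧
    4 * p.a ≤ (2 * p.a - 6 * p.b + X)) :
    Esc p.EB X Y :=
  ⟨fun X Y => p.b < 2 * p.a ∧ (6 * p.a + 2 * p.b - Y) = 2 * p.a + 2 * p.b ∧
      4 * p.a ≤ (2 * p.a - 6 * p.b + X),
    h, fun _ _ => p.dis_b34, Or.inl fun X Y h => by omega⟩

theorem esc_b21 (h : 2 * p.a + 2 ≤ ((8 * p.a - 4 * p.b - Y) - (4 * p.a + 8 * p.b - X)) ∧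
    ((4 * p.a + 8 * p.b - X) + (8 * p.a - 4 * p.b - Y)) ≤ 6 * p.a + 4 * p.b - 2) :
    Esc p.EB X Y :=
  ⟨fun X Y => 2 * p.a + 2 ≤ ((8 * p.a - 4 * p.b - Y) - (4 * p.a + 8 * p.b - X)) ∧
      ((4 * p.a + 8 * p.b - X) + (8 * p.a - 4 * p.b - Y)) ≤ 6 * p.a + 4 * p.b - 2,
    h, fun _ _ => p.dis_b21, Or.inr <| Or.inr <| Or.inr fun X Y h => by omega⟩

theorem esc_b22 (h : ((4 * p.a + 8 * p.b - X) + (8 * p.a - 4 * p.b - Y)) ≤ 2 * p.a - 4 ∧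
    2 * p.a - 4 * p.b ≤ ((8 * p.a - 4 * p.b - Y) - (4 * p.a + 8 * p.b - X)) ∧
    (2 * p.a - 4 * p.b + 2 ≤ ((8 * p.a - 4 * p.b - Y) - (4 * p.a + 8 * p.b - X)) ∨
    ((4 * p.a + 8 * p.b - X) + (8 * p.a - 4 * p.b - Y)) ≤ 6 * p.a - 4 * p.b)) :
    Esc p.EB X Y :=
  ⟨fun X Y => ((4 * p.a + 8 * p.b - X) + (8 * p.a - 4 * p.b - Y)) ≤ 2 * p.a - 4 ∧
      2 * p.a - 4 * p.b ≤ ((8 * p.a - 4 * p.b - Y) - (4 * p.a + 8 * p.b - X)) ∧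
      (2 * p.a - 4 * p.b + 2 ≤ ((8 * p.a - 4 * p.b - Y) - (4 * p.a + 8 * p.b - X)) ∨
      ((4 * p.a + 8 * p.b - X) + (8 * p.a - 4 * p.b - Y)) ≤ 6 * p.a - 4 * p.b),
    h, fun _ _ => p.dis_b22, Or.inr <| Or.inr <| Or.inr fun X Y h => by omega⟩

theorem esc_b23 (h : 2 * p.a < p.b ∧
    ((4 * p.a + 8 * p.b - X) + (8 * p.a - 4 * p.b - Y)) ≤ 2 * p.a - 2 ∧
    2 * p.a - 2 * p.b ≤ ((8 * p.a - 4 * p.b - Y) - (4 * p.a + 8 * p.b - X)) ∧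
    ((8 * p.a - 4 * p.b - Y) - (4 * p.a + 8 * p.b - X)) ≤ 2 * p.a - 2 * p.b + 1) :
    Esc p.EB X Y :=
  ⟨fun X Y => 2 * p.a < p.b ∧ ((4 * p.a + 8 * p.b - X) + (8 * p.a - 4 * p.b - Y)) ≤ 2 * p.a - 2 ∧
      2 * p.a - 2 * p.b ≤ ((8 * p.a - 4 * p.b - Y) - (4 * p.a + 8 * p.b - X)) ∧
      ((8 * p.a - 4 * p.b - Y) - (4 * p.a + 8 * p.b - X)) ≤ 2 * p.a - 2 * p.b + 1,
    h, fun _ _ => p.dis_b23, Or.inl fun X Y h => by omega⟩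

theorem esc_b24 (h : p.b < 2 * p.a ∧ (4 * p.a + 8 * p.b - X) = 2 * p.a + 2 * p.b ∧
    4 * p.a ≤ (8 * p.a - 4 * p.b - Y)) :
    Esc p.EB X Y :=
  ⟨fun X Y => p.b < 2 * p.a ∧ (4 * p.a + 8 * p.b - X) = 2 * p.a + 2 * p.b ∧
      4 * p.a ≤ (8 * p.a - 4 * p.b - Y),
    h, fun _ _ => p.dis_b24, Or.inr <| Or.inr <| Or.inr fun X Y h => by omega⟩

theorem esc_b15 (h : (X + Y) ≤ 6 * p.a ∧ (Y - X) ≤ 2 * p.a - 6 * p.b ∧ ((X + Y) ≤ 6 * p.a - 2 ∨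
    (Y - X) ≤ 2 * p.a - 12 * p.b)) :
    Esc p.EB X Y :=
  ⟨fun X Y => (X + Y) ≤ 6 * p.a ∧ (Y - X) ≤ 2 * p.a - 6 * p.b ∧ ((X + Y) ≤ 6 * p.a - 2 ∨
      (Y - X) ≤ 2 * p.a - 12 * p.b),
    h, fun _ _ => p.dis_b15, Or.inr <| Or.inr <| Or.inl fun X Y h => by omega⟩

theorem esc_b6 (h : X ≤ 2 * p.a + 4 * p.b - 1 ∧ Y ≤ 4 * p.a - 2 * p.b - 1 ∧
    2 * p.a - 6 * p.b - 2 ≤ (Y - X) ∧ (Y - X) ≤ 2 * p.a - 6 * p.b + 2) :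
    Esc p.EB X Y :=
  ⟨fun X Y => X ≤ 2 * p.a + 4 * p.b - 1 ∧ Y ≤ 4 * p.a - 2 * p.b - 1 ∧
      2 * p.a - 6 * p.b - 2 ≤ (Y - X) ∧ (Y - X) ≤ 2 * p.a - 6 * p.b + 2,
    h, fun _ _ => p.dis_b6, Or.inr <| Or.inr <| Or.inl fun X Y h => by omega⟩

theorem esc_c1 (h : 2 * p.a + 2 ≤ (Y - X) ∧ 4 - 2 * p.a ≤ (X + Y)) :
    Esc p.EC X Y :=
  ⟨fun X Y => 2 * p.a + 2 ≤ (Y - X) ∧ 4 - 2 * p.a ≤ (X + Y),
    h, fun _ _ => p.dis_c1, Or.inr <| Or.inl fun X Y h => by omega⟩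

theorem esc_c2 (h : 6 * p.a + 4 * p.b + 2 ≤ (X + Y) ∧ 6 * p.a - 4 * p.b + 4 ≤ (Y - X)) :
    Esc p.EC X Y :=
  ⟨fun X Y => 6 * p.a + 4 * p.b + 2 ≤ (X + Y) ∧ 6 * p.a - 4 * p.b + 4 ≤ (Y - X),
    h, fun _ _ => p.dis_c2, Or.inr <| Or.inl fun X Y h => by omega⟩

theorem esc_c3 (h : 4 * p.x0 + 2 ≤ (Y - X)) :
    Esc p.EC X Y :=
  ⟨fun X Y => 4 * p.x0 + 2 ≤ (Y - X),
    h, fun _ _ => p.dis_c3, Or.inr <| Or.inl fun X Y h => by omega⟩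

theorem esc_c4 (h : 6 * p.a + 8 * p.b + 2 ≤ (X + Y)) :
    Esc p.EC X Y :=
  ⟨fun X Y => 6 * p.a + 8 * p.b + 2 ≤ (X + Y),
    h, fun _ _ => p.dis_c4, Or.inl fun X Y h => by omega⟩

theorem esc_c5 (h : 10 * p.a + 4 * p.b + 4 ≤ (X + Y) ∧ (Y - X) ≤ 2 * p.a - 8 * p.b - 2) :
    Esc p.EC X Y :=
  ⟨fun X Y => 10 * p.a + 4 * p.b + 4 ≤ (X + Y) ∧ (Y - X) ≤ 2 * p.a - 8 * p.b - 2,
    h, fun _ _ => p.dis_c5, Or.inl fun X Y h => by omega⟩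

theorem esc_c6 (h : (Y - X) ≤ 2 * p.a - 12 * p.b - 2) :
    Esc p.EC X Y :=
  ⟨fun X Y => (Y - X) ≤ 2 * p.a - 12 * p.b - 2,
    h, fun _ _ => p.dis_c6, Or.inr <| Or.inr <| Or.inr fun X Y h => by omega⟩

theorem esc_c7 (h : (X + Y) ≤ -4 * p.x0 - 2 ∧ (X + Y) ≤ -6 * p.a - 2) :
    Esc p.EC X Y :=
  ⟨fun X Y => (X + Y) ≤ -4 * p.x0 - 2 ∧ (X + Y) ≤ -6 * p.a - 2,
    h, fun _ _ => p.dis_c7, Or.inr <| Or.inr <| Or.inr fun X Y h => by omega⟩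

theorem esc_c8 (h : (X + Y) ≤ 6 * p.a - 2 ∧ (Y - X) ≤ -4 * p.x0 - 2 ∧
    (Y - X) ≤ 2 * p.a - 4 * p.b - 2 ∧ (Y - X) ≤ -6 * p.a - 2) :
    Esc p.EC X Y :=
  ⟨fun X Y => (X + Y) ≤ 6 * p.a - 2 ∧ (Y - X) ≤ -4 * p.x0 - 2 ∧ (Y - X) ≤ 2 * p.a - 4 * p.b - 2 ∧
      (Y - X) ≤ -6 * p.a - 2,
    h, fun _ _ => p.dis_c8, Or.inr <| Or.inr <| Or.inr fun X Y h => by omega⟩

theorem esc_c9 (h : (X + Y) ≤ 2 * p.a + 1 ∧ (Y - X) ≤ -6 * p.a - 2) :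
    Esc p.EC X Y :=
  ⟨fun X Y => (X + Y) ≤ 2 * p.a + 1 ∧ (Y - X) ≤ -6 * p.a - 2,
    h, fun _ _ => p.dis_c9, Or.inr <| Or.inr <| Or.inr fun X Y h => by omega⟩

theorem esc_c10 (h : p.b < 2 * p.a ∧ 2 * p.a - 2 * p.b ≤ (X + Y) ∧
    (X + Y) ≤ 2 * p.a - 2 * p.b + 1 ∧ (Y - X) ≤ -2 * p.a - 2 * p.b) :
    Esc p.EC X Y :=
  ⟨fun X Y => p.b < 2 * p.a ∧ 2 * p.a - 2 * p.b ≤ (X + Y) ∧ (X + Y) ≤ 2 * p.a - 2 * p.b + 1 ∧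
      (Y - X) ≤ -2 * p.a - 2 * p.b,
    h, fun _ _ => p.dis_c10, Or.inr <| Or.inr <| Or.inr fun X Y h => by omega⟩

theorem esc_c11 (h : p.b < 2 * p.a ∧ 2 * p.b - 2 * p.a - 1 ≤ (Y - X) ∧
    (Y - X) ≤ 2 * p.b - 2 * p.a ∧ (X + Y) ≤ -2 * p.a - 2 * p.b) :
    Esc p.EC X Y :=
  ⟨fun X Y => p.b < 2 * p.a ∧ 2 * p.b - 2 * p.a - 1 ≤ (Y - X) ∧ (Y - X) ≤ 2 * p.b - 2 * p.a ∧
      (X + Y) ≤ -2 * p.a - 2 * p.b,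
    h, fun _ _ => p.dis_c11, Or.inr <| Or.inr <| Or.inl fun X Y h => by omega⟩

theorem esc_c12 (h : (X + Y) ≤ -6 * p.a - 2 ∧ 4 - 2 * p.a ≤ (Y - X)) :
    Esc p.EC X Y :=
  ⟨fun X Y => (X + Y) ≤ -6 * p.a - 2 ∧ 4 - 2 * p.a ≤ (Y - X),
    h, fun _ _ => p.dis_c12, Or.inr <| Or.inr <| Or.inl fun X Y h => by omega⟩

theorem esc_c13 (h : X ≤ -2 ∧ 1 - p.e1 ≤ Y ∧ -4 ≤ (X + Y) ∧ (X + Y) ≤ 0) :
    Esc p.EC X Y :=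
  ⟨fun X Y => X ≤ -2 ∧ 1 - p.e1 ≤ Y ∧ -4 ≤ (X + Y) ∧ (X + Y) ≤ 0,
    h, fun _ _ => p.dis_c13, Or.inr <| Or.inl fun X Y h => by omega⟩


end Par
end NP
end Pool.Agent.Lib.MP_4a7072_co
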