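import Pool.Agent.Lib.MP_4a7072_co.NNet
import Pool.Agent.Lib.MP_4a7072_co.NReg
import Pool.Agent.Lib.MP_4a7072_co.NPair

/-!
The three boundaries of the pinwheel design are simple closed paths that run counterclockwise.
-/

set_option autoImplicit false

namespace Pool.Agent.Lib.MP_4a7072_co
namespace NP

open RTree (endP_append edges_append)

variable {k : ℤ} {p : Par}

theorem sCg {A : ℤ → ℤ → Prop} {x y x' y' : ℤ} (h : A x y) (e : x = x') (e' : y = y') : A x' y' :=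
  e ▸ e' ▸ h

theorem SArc.sMv {P Q P' Q' : Pt} {w : List Dir} {A B : ℤ → ℤ → Prop} (h : SArc k P w Q A)
    (e : P = P') (e' : Q = Q') (hA : ∀ X Y, A X Y → B X Y) : SArc k P' w Q' B :=
  (h.cast e e').mono hA

theorem sMem_edges_left {P : Pt} {u : List Dir} {e : Pt × Dir} (h : e ∈ edges P u) (v : List Dir) :
    e ∈ edges P (u ++ v) := by
  rw [edges_append]
  exact List.mem_append_left _ h

theorem sMem_edges_right {P Q : Pt} {u v : List Dir} {e : Pt × Dir} (hu : endP P u = Q)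
    (h : e ∈ edges Q v) : e ∈ edges P (u ++ v) := by
  rw [edges_append, hu]
  exact List.mem_append_right _ h

theorem sMem_edges_line (P : Pt) (d : Dir) {i n : ℕ} (h : i < n) :
    (P + (i : ℤ) • dv d, d) ∈ edges P (List.replicate n d) := by
  obtain ⟨m, rfl⟩ := Nat.exists_eq_add_of_lt h
  rw [add_assoc, List.replicate_add]
  exact sMem_edges_right (endP_replicate P d i) List.mem_cons_self

theorem sPsi_small (hk : 2 ≤ k) {x : ℤ} (h0 : -1 ≤ x) (h1 : x ≤ 1) : psi k x = x := by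
  have e : psi k 1 = 1 := by simpa using psi_mid (k := k) one_pos (by omega) 0
  obtain rfl | rfl | rfl : x = -1 ∨ x = 0 ∨ x = 1 := by omega
  · rw [psi_neg (by omega), e]
  · exact psi_zero k
  · exact e

/-! ### The radial cuts -/

theorem sArcRa (hk : 2 ≤ k) (p : Par) : SArc k (0, p.a) (Ra k p) (0, 0) p.Ra := by
  have hp := p.aux
  have hka : 0 < k * p.a := by nlinarith [hp.1]
  have e1 : (p.e1.toNat : ℤ) = p.e1 := Int.toNat_of_nonneg (by omega)
  have e2 : ((k * p.a).toNat : ℤ) = k * p.a := Int.toNat_of_nonneg hka.le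
  have h1 := Arc.line (k • ((0, p.a) : Pt)) 2 p.e1.toNat
  have h2 := Arc.line (-p.e1, k * p.a) 3 (k * p.a).toNat
  have h3 := Arc.line (-p.e1, 0) 0 p.e1.toNat
  rw [e1] at h1 h3
  rw [e2] at h2
  rw [show k • ((0, p.a) : Pt) + p.e1 • dv 2 = (-p.e1, k * p.a) by ext <;> simp [dv]] at h1
  rw [show ((-p.e1, k * p.a) : Pt) + (k * p.a) • dv 3 = (-p.e1, 0) by ext <;> simp [dv]] at h2
  rw [show ((-p.e1, 0) : Pt) + p.e1 • dv 0 = k • ((0, 0) : Pt) by ext <;> simp [dv]] at h3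
  have t : psi k (k * p.a) = 2 * p.a := psi_mul (by omega) _
  refine ((h1.append h2 ?_).append h3 ?_).mono ?_
  · rintro z ⟨i, -, -, rfl⟩ ⟨j, -, -, e⟩
    simp [dv] at e ⊢
    omega
  · rintro z (⟨i, -, -, rfl⟩ | ⟨i, -, -, rfl⟩) ⟨j, -, -, e⟩ <;> simp [dv] at e ⊢ <;> omega
  · rintro z (( ⟨i, a, b, rfl⟩ | ⟨i, a, b, rfl⟩) | ⟨i, a, b, rfl⟩)
    · refine sCg (A := p.Ra) (x := -i) (y := 2 * p.a) ⟨by omega, by omega⟩ ?_ ?_
      · simpa [dv] using (sPsi_small hk (x := -i) (by omega) (by omega)).symm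
      · simpa [dv] using t.symm
    · have m1 := psi_mono hk (show k * p.a - i ≤ k * p.a by omega)
      have m2 := psi_mono hk (show 0 ≤ k * p.a - i by omega)
      rw [psi_zero] at m2
      refine sCg (A := p.Ra) (x := -p.e1) (y := psi k (k * p.a - i)) ⟨by omega, by omega⟩ ?_ ?_
      · simpa [dv] using (sPsi_small hk (x := -p.e1) (by omega) (by omega)).symm
      · simp [dv, sub_eq_add_neg]
    · refine sCg (A := p.Ra) (x := -p.e1 + i) (y := 0) ⟨by omega, by omega⟩ ?_ ?_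
      · simpa [dv] using (sPsi_small hk (x := -p.e1 + i) (by omega) (by omega)).symm
      · simp [dv, psi_zero]

theorem sArcRR (hk : 2 ≤ k) (p : Par) :
    SArc k (0, p.a) (Ra k p ++ back 1 (Ra k p)) (-p.a, 0) p.RR := by
  have h : SArc k (0, 0) (back 1 (Ra k p)) (-p.a, 0) fun X Y => p.Ra Y (-X) := by
    have := (sArcRa hk p).back.rot1 (by omega) 0
    rw [rot_back] at this
    exact this.sMv (by simp [rotP]) (by simp [rotP]) fun X Y h => sCg h (by simp) (by simp)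
  exact (sArcRa hk p).append (by omega) h fun X Y a b => by simpa using p.ra_ra a b

theorem sEdgeRR (hk : 2 ≤ k) (p : Par) :
    (((-k, -p.e1) : Pt), (2 : Dir)) ∈ edges (k • ((0, p.a) : Pt)) (Ra k p ++ back 1 (Ra k p)) := by
  have hp := p.aux
  have hka : k < k * p.a := by nlinarith [hp.1]
  refine sMem_edges_right (sArcRa hk p).1 ?_
  rw [Ra, back_append, back_append, back_replicate, back_replicate, back_replicate]
  refine sMem_edges_right (endP_replicate _ _ _) (sMem_edges_left ?_ _)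
  have e : ((-k, -p.e1) : Pt) =
      k • ((0, 0) : Pt) + (p.e1.toNat : ℤ) • dv 3 + (k.toNat : ℤ) • dv 2 := by
    rw [Int.toNat_of_nonneg (by omega), Int.toNat_of_nonneg (by omega)]
    ext <;> simp [dv]
  rw [e]
  exact sMem_edges_line _ 2 (show k.toNat < (k * p.a).toNat by omega)

theorem sCcwRR (hk : 2 ≤ k) {P : Pt} {w : List Dir} (h : endP P w = P) {E : ℤ → ℤ → Prop}
    (hE : ∀ z ∈ verts P w, E (psi k z.1) (psi k z.2))
    (he : (((-k, -p.e1) : Pt), (2 : Dir)) ∈ edges P w) (hs : Esc E (-2) (1 - p.e1)) : Ccw P w := by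
  have hp := p.aux
  refine ccw_of_out he (out_of_esc hk h hE (sCg hs ?_ ?_))
  · simpa [dv] using (psi_mul (k := k) (by omega) (-1)).symm
  · change _ = psi k (-p.e1 + 1)
    rw [sPsi_small hk (by omega) (by omega)]
    ring

theorem sLength_Ra (hk : 2 ≤ k) (p : Par) : 2 < (Ra k p).length := by
  have hka : 2 < k * p.a := by nlinarith [p.ha]
  simp only [Ra, List.length_append, List.length_replicate]
  omega

theorem sArcRb (hk : 2 ≤ k) (p : Par) :
    SArc k (p.a + p.b, 2 * p.a - p.b) (Rb k p) (p.a + 2 * p.b, 2 * p.a - p.b) p.Rb := by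
  have hp := p.aux
  have hkb : 0 < k * p.b := by nlinarith [hp.1, hp.2.1]
  have h := Arc.line (k • ((p.a + p.b, 2 * p.a - p.b) : Pt)) 0 (k * p.b).toNat
  rw [Int.toNat_of_nonneg hkb.le, show k • ((p.a + p.b, 2 * p.a - p.b) : Pt) + (k * p.b) • dv 0 =
    k • ((p.a + 2 * p.b, 2 * p.a - p.b) : Pt) by ext <;> simp [dv]; ring] at h
  refine h.mono ?_
  rintro z ⟨i, a, b, rfl⟩
  have m1 := psi_mono hk (show k * (p.a + p.b) ≤ k * (p.a + p.b) + i by omega)
  have m2 := psi_mono hk (show k * (p.a + p.b) + i ≤ k * (p.a + 2 * p.b) by linarith)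
  rw [psi_mul (by omega)] at m1 m2
  refine sCg (A := p.Rb) (x := psi k (k * (p.a + p.b) + i)) (y := 2 * (2 * p.a - p.b))
    ⟨by omega⟩ (by simp [dv]) ?_
  simpa [dv] using (psi_mul (k := k) (by omega) (2 * p.a - p.b)).symm

theorem sArcRRb (hk : 2 ≤ k) (p : Par) : SArc k (p.a + p.b, 2 * p.a - p.b)
    (Rb k p ++ back 1 (Rb k p)) (p.a + 2 * p.b, 2 * p.a - 2 * p.b) p.RRb := by
  have h : SArc k (p.a + 2 * p.b, 2 * p.a - p.b) (back 1 (Rb k p))
      (p.a + 2 * p.b, 2 * p.a - 2 * p.b)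
      fun X Y => p.Rb (6 * p.b - 2 * p.a + Y) (6 * p.a + 2 * p.b - X) := by
    have := (sArcRb hk p).back.rot1 (by omega) (3 * p.a + p.b, p.a - 3 * p.b)
    rw [rot_back] at this
    exact this.sMv (by ext <;> simp [rotP] <;> ring) (by ext <;> simp [rotP] <;> ring)
      fun X Y h => sCg h (by ring) (by ring)
  exact (sArcRb hk p).append (by omega) h fun X Y a b => by
    have := p.rb_rb a b
    dsimp only
    omega

namespace Des

variable (D : Des k p)

include D in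
theorem sKpos : 0 < k := by have := D.hk; omega

theorem sWJ : D.w0 (D.J - 2 * D.q0) = (p.x0 + p.a, p.a - p.x0) := by
  have := D.S0.wper (D.J - 2 * D.q0)
  rw [sub_add_cancel, D.yJ] at this
  rw [eq_sub_of_add_eq this.symm]
  ext <;> simp
  ring

theorem sWβ : D.w1 (D.β1 - 2 * D.q1) = (p.b, p.a + p.b) := by
  have := D.S1.wper (D.β1 - 2 * D.q1)
  rw [sub_add_cancel, D.b1] at this
  rw [eq_sub_of_add_eq this.symm]
  ext <;> simp

theorem sβ_le : D.β0 ≤ D.J := by
  have := D.hJ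
  have := D.S0.qpos
  omega

/-! ### The small piece -/

theorem sArcSig : SArc k (p.a, 0) D.sig (p.x0 + p.a, p.a - p.x0)
    fun X Y => D.Es (X - 2 * p.a) (Y + 2 * p.a) :=
  (D.arcS.shift D.sKpos (p.a, -p.a)).sMv (by simp) (by ext <;> simp; ring)
    fun X Y h => sCg h rfl (by ring)

theorem sArcQa : SArc k (p.a, 0) D.qa (0, p.a) p.Qa := by
  have h2 : SArc k (p.x0 + p.a, p.a - p.x0) (seg D.E0 (D.J - 2 * D.q0) D.J)
      (p.x0, 2 * p.a - p.x0) p.Win :=
    (D.arc0 _ _ (by have := D.S0.qpos; omega)).sMv D.sWJ D.yJ D.win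
  refine ((D.sArcSig.append D.sKpos h2 fun X Y a b => ?_).append D.sKpos D.arcS.back ?_).mono ?_
  · have := p.lst_win (D.ls _ _ a) b
    dsimp only
    omega
  · rintro X Y (a | a) b
    · exact (D.self X Y b a).elim
    · have := p.ls_win (D.ls _ _ b) a
      dsimp only
      omega
  · rintro X Y ((a | a) | a)
    · exact .inl (D.ls _ _ a)
    · exact .inr (.inl a)
    · exact .inr (.inr (D.ls _ _ a))

theorem sArcQa2 : SArc k (-p.a, 0) (rot 2 D.qa) (0, -p.a) fun X Y => p.Qa (-X) (-Y) :=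
  (D.sArcQa.rot2 D.sKpos 0).sMv (by simp [rotP]) (by simp [rotP]) fun X Y h => sCg h (by simp) (by simp)

theorem sArcQa3 : SArc k (0, -p.a) (rot 3 D.qa) (p.a, 0) fun X Y => p.Qa (-Y) X :=
  (D.sArcQa.rot3 D.sKpos 0).sMv (by simp [rotP]) (by simp [rotP]) fun X Y h => sCg h (by simp) (by simp)

theorem sArcQa23 : SArc k (-p.a, 0) (rot 2 D.qa ++ rot 3 D.qa) (p.a, 0)
    fun X Y => p.Qa (-X) (-Y) ∨ p.Qa (-Y) X :=
  D.sArcQa2.append D.sKpos D.sArcQa3 fun X Y a b => by
    have := p.qa_qa1 b a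
    dsimp only
    omega

theorem simpleA : Simple (k • ((-p.a, 0) : Pt)) D.wA ∧
    Ccw (k • ((-p.a, 0) : Pt)) D.wA ∧
    ∀ z ∈ verts (k • ((-p.a, 0) : Pt)) D.wA, p.EA (psi k z.1) (psi k z.2) := by
  have hp := p.aux
  have h := D.sArcQa23.append D.sKpos D.sArcQa (by
    rintro X Y (a | a) b
    · exact (p.qa_qa2 b a).elim
    · simpa using p.qa_qa1 b a)
  obtain ⟨s, e⟩ := h.simple D.sKpos (sArcRR D.hk p) (by
    rintro X Y ((a | a) | a) b
    · exact .inl (by simpa using p.rr_qa2 b a)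
    · exact (p.rr_qa1 b a).elim
    · exact .inr (by simpa using p.rr_qa0 b a)) (by
    have := sLength_Ra D.hk p
    simp only [List.length_append]
    omega)
  have e' : ∀ z ∈ verts (k • ((-p.a, 0) : Pt)) D.wA, p.EA (psi k z.1) (psi k z.2) := fun z hz => by
    rcases e z hz with ((a | a) | a) | a
    · exact .inr (.inl a)
    · exact .inr (.inr (.inl a))
    · exact .inr (.inr (.inr a))
    · exact .inl a
  exact ⟨s, sCcwRR D.hk s.1 e' (sMem_edges_right h.1 (sEdgeRR D.hk p)) (p.esc_a6 (by omega)), e'⟩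

/-! ### The larger piece -/

/-- The points of a quarter of the larger piece. -/
def sQs (X Y : ℤ) : Prop :=
  D.On0 D.β0 D.J (X - 2 * p.b) (Y - 2 * p.b) ∨
    (p.Ls (X - 2 * p.b) (Y - 2 * p.b) ∨ p.Om X Y ∨ p.Ls X Y) ∨ D.On0 D.β0 D.J X Y

variable {D} in
theorem sQs.qb {X Y : ℤ} (h : D.sQs X Y) : p.Qb X Y := by
  rcases h with a | (a | a | a) | a
  · exact .inl (D.mu _ _ a)
  · exact .inr (.inl a)
  · exact .inr (.inr (.inl a))
  · exact .inr (.inr (.inr (.inl a)))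
  · exact .inr (.inr (.inr (.inr (D.mu _ _ a))))

variable {D} in
theorem sQs.rot {X Y : ℤ} (h : D.sQs X Y)
    (h' : D.sQs (6 * p.a + 2 * p.b - Y) (2 * p.a - 6 * p.b + X)) :
    X = 2 * p.a + 4 * p.b ∧ Y = 4 * p.a := by
  rcases h with a | (a | a | a) | a
  · rcases h' with b | b | b
    · exact (p.mub_qb1 (D.mu _ _ a) (.inl (D.mu _ _ b))).elim
    · exact (p.mub_qb1 (D.mu _ _ a) (.inr b)).elim
    · exact D.frot X Y a b
  · exact (p.qb_qb1 (.inl a) h'.qb).elim
  · exact (p.qb_qb1 (.inr (.inl a)) h'.qb).elim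
  · exact (p.qb_qb1 (.inr (.inr (.inl a))) h'.qb).elim
  · exact (p.qb_qb1 (.inr (.inr (.inr (D.mu _ _ a)))) h'.qb).elim

theorem sArcMu : SArc k (p.a + p.b, 2 * p.a - p.b) (seg D.E0 D.β0 D.J) (p.x0, 2 * p.a - p.x0)
    (D.On0 D.β0 D.J) := (D.arc0 _ _ D.sβ_le).cast D.b0 D.yJ

theorem sArcHd : SArc k (p.a + 2 * p.b, 2 * p.a) (seg D.E0 D.β0 D.J ++ back 0 D.sig)
    (p.b, p.a + p.b) fun X Y => D.On0 D.β0 D.J (X - 2 * p.b) (Y - 2 * p.b) ∨
      D.Es (X - 2 * p.b) (Y - 2 * p.b) := by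
  refine ((D.sArcMu.append D.sKpos D.arcS.back fun X Y a b => ?_).shift D.sKpos (p.b, p.b)).cast
    (by ext <;> simp; ring) (by simp)
  have := p.mu_ls (D.mu _ _ a) (D.ls _ _ b)
  dsimp only
  omega

theorem sArcQb : SArc k (p.a + 2 * p.b, 2 * p.a) D.qb (p.a + p.b, 2 * p.a - p.b) D.sQs := by
  have h3 := (D.arc1 (D.β1 - 2 * D.q1) (D.β1 - 1) (by have := D.S1.qpos; omega)).cast D.sWβ rfl
  refine (((D.sArcHd.append D.sKpos h3 ?_).append D.sKpos D.arcE ?_).append D.sKpos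
    D.sArcMu.back ?_).mono ?_
  · rintro X Y (a | a) b
    · exact (p.om_mub (D.om1 _ _ b) (D.mu _ _ a)).elim
    · have := D.s3 X Y a b
      dsimp only
      omega
  · rintro X Y ((a | a) | a) (b | b)
    · exact (p.ls_mub (D.ls _ _ b) (D.mu _ _ a)).elim
    · exact (p.om_mub (D.om2 _ _ b).1 (D.mu _ _ a)).elim
    · exact (p.ls_lsb (D.ls _ _ b) (D.ls _ _ a)).elim
    · exact (p.le_lsb (D.om2 _ _ b).2 (D.ls _ _ a)).elim
    · exact (D.s1 X Y b a).elim
    · exact D.on11 X Y a b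
  · rintro X Y (((a | a) | a) | a | a) b
    · exact (p.mu_mub (D.mu _ _ b) (D.mu _ _ a)).elim
    · exact (p.mu_lsb (D.mu _ _ b) (D.ls _ _ a)).elim
    · exact (p.mu_om (D.mu _ _ b) (D.om1 _ _ a)).elim
    · have := p.mu_ls (D.mu _ _ b) (D.ls _ _ a)
      dsimp only
      omega
    · exact (p.mu_om (D.mu _ _ b) (D.om2 _ _ a).1).elim
  · rintro X Y ((((a | a) | a) | a | a) | a)
    · exact .inl a
    · exact .inr (.inl (.inl (D.ls _ _ a)))
    · exact .inr (.inl (.inr (.inl (D.om1 _ _ a))))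
    · exact .inr (.inl (.inr (.inr (D.ls _ _ a))))
    · exact .inr (.inl (.inr (.inl (D.om2 _ _ a).1)))
    · exact .inr (.inr a)

theorem sArcQb23 : SArc k (p.a + 2 * p.b, 2 * p.a - 2 * p.b) (rot 2 D.qb ++ rot 3 D.qb)
    (p.a + 2 * p.b, 2 * p.a) fun X Y => D.sQs (4 * p.a + 8 * p.b - X) (8 * p.a - 4 * p.b - Y) ∨
      D.sQs (6 * p.a + 2 * p.b - Y) (2 * p.a - 6 * p.b + X) := by
  have h2 : SArc k (p.a + 2 * p.b, 2 * p.a - 2 * p.b) (rot 2 D.qb) (p.a + 3 * p.b, 2 * p.a - p.b)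
      fun X Y => D.sQs (4 * p.a + 8 * p.b - X) (8 * p.a - 4 * p.b - Y) :=
    (D.sArcQb.rot2 D.sKpos (2 * p.a + 4 * p.b, 4 * p.a - 2 * p.b)).sMv
      (by ext <;> simp [rotP] <;> ring) (by ext <;> simp [rotP] <;> ring)
      fun X Y h => sCg h (by ring) (by ring)
  have h3 : SArc k (p.a + 3 * p.b, 2 * p.a - p.b) (rot 3 D.qb) (p.a + 2 * p.b, 2 * p.a)
      fun X Y => D.sQs (6 * p.a + 2 * p.b - Y) (2 * p.a - 6 * p.b + X) :=
    (D.sArcQb.rot3 D.sKpos (3 * p.b - p.a, 3 * p.a + p.b)).sMv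
      (by ext <;> simp [rotP] <;> ring) (by ext <;> simp [rotP] <;> ring)
      fun X Y h => sCg h (by ring) (by ring)
  refine h2.append D.sKpos h3 fun X Y a b => ?_
  have := b.rot (sCg a (by ring) (by ring))
  dsimp only
  omega

theorem simpleB : Simple (k • ((p.a + 2 * p.b, 2 * p.a - 2 * p.b) : Pt)) D.wB ∧
    Ccw (k • ((p.a + 2 * p.b, 2 * p.a - 2 * p.b) : Pt)) D.wB ∧
    ∀ z ∈ verts (k • ((p.a + 2 * p.b, 2 * p.a - 2 * p.b) : Pt)) D.wB,
      p.EB (psi k z.1) (psi k z.2) := by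
  have hp := p.aux
  have hk := D.hk
  have hkb : k * 2 < k * p.b := by nlinarith [hp.1, hp.2.1]
  have h := D.sArcQb23.append D.sKpos D.sArcQb (by
    rintro X Y (a | a) b
    · exact (p.qb_qb2 b.qb a.qb).elim
    · have := b.rot a
      dsimp only
      omega)
  obtain ⟨s, e⟩ := h.simple D.sKpos (sArcRRb D.hk p) (by
    rintro X Y ((a | a) | a) b
    · have := p.rrb_qb2 b a.qb
      dsimp only
      omega
    · exact (p.rrb_qb1 b a.qb).elim
    · have := p.rrb_qb0 b a.qb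
      dsimp only
      omega) (by
    simp only [List.length_append, Rb, List.length_replicate]
    omega)
  have e' : ∀ z ∈ verts (k • ((p.a + 2 * p.b, 2 * p.a - 2 * p.b) : Pt)) D.wB,
      p.EB (psi k z.1) (psi k z.2) := fun z hz => by
    rcases e z hz with ((a | a) | a) | a
    · exact .inr (.inl a.qb)
    · exact .inr (.inr (.inl a.qb))
    · exact .inr (.inr (.inr a.qb))
    · exact .inl a
  refine ⟨s, ccw_of_out (Q := k • ((p.a + 2 * p.b, 2 * p.a - p.b) : Pt) + (k.toNat : ℤ) • dv 3)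
    (d := 3) (sMem_edges_right h.1 (sMem_edges_right (sArcRb hk p).1 ?_)) (out_of_esc hk s.1 e'
      (sCg (p.esc_b6 (X := 2 * (p.a + 2 * p.b - 1) + 1) (Y := 2 * (2 * p.a - p.b - 1)) (by omega))
        ?_ ?_)), e'⟩
  · rw [Rb, back_replicate]
    exact sMem_edges_line _ 3 (by omega)
  · rw [← psi_mid (k := k) (j := k - 1) (by omega) (by omega)]
    congr 1
    change _ = (_ + _ • dv 3 + dv 2).1
    simp [dv]
    ring
  · rw [← psi_mul D.sKpos, Int.toNat_of_nonneg (by omega)]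
    congr 1
    change _ = (_ + _ • dv 3 + dv 2).2
    simp [dv]
    ring

/-! ### The union -/

theorem sArcC1 : SArc k (0, p.a) D.wC1 (p.x0 + p.a, p.a - p.x0) p.A1 := by
  have hp := p.aux
  rw [wC1, List.append_assoc _ (rot 2 D.qa)]
  refine (((sArcRR D.hk p).append D.sKpos D.sArcQa23 ?_).append D.sKpos D.sArcSig ?_).mono ?_
  · rintro X Y a (b | b)
    · simpa using p.rr_qa2 a b
    · exact (p.rr_qa1 a b).elim
  · rintro X Y (a | a | a) b
    · have := p.rr_qa0 a (.inl (D.ls _ _ b))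
      have := (D.ls _ _ b).lin
      omega
    · exact (p.qa_qa2 (.inl (D.ls _ _ b)) a).elim
    · simpa using p.qa_qa1 (.inl (D.ls _ _ b)) a
  · rintro X Y ((a | a | a) | a)
    · exact .inl a
    · exact .inr (.inl a)
    · exact .inr (.inr (.inl a))
    · exact .inr (.inr (.inr (D.ls _ _ a)))

theorem sArcC2 : SArc k (p.x0 + p.a, p.a - p.x0) D.wC2 (p.a + p.b, 2 * p.a - p.b) p.Mid := by
  have := D.S0.qpos
  rw [wC2, M]
  rcases D.hJ with ⟨h1, h2⟩ | ⟨h1, h2⟩
  · rw [max_eq_right (by omega), seg_self]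
    exact List.append_nil _ ▸ (D.arc0 _ _ (by omega)).sMv D.sWJ D.b0 fun X Y => D.mid1 X Y h1
  · rw [max_eq_left (by omega), seg_self]
    exact (D.arc0 _ _ (by omega)).back.sMv D.sWJ D.b0 fun X Y => D.mid2 X Y h1

theorem sArcC3 : SArc k (p.a + p.b, 2 * p.a - p.b) D.wC3 (0, p.a) p.A3 := by
  have hp := p.aux
  have h3 := (D.arc1 (D.β1 - 2 * D.q1) D.β1 (by have := D.S1.qpos; omega)).sMv D.sWβ D.b1
    fun _ _ h => h
  have e : D.wC3 = Rb k p ++ back 1 (Rb k p) ++ (rot 2 D.qb ++ rot 3 D.qb) ++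
      (seg D.E0 D.β0 D.J ++ back 0 D.sig ++ seg D.E1 (D.β1 - 2 * D.q1) D.β1) := by
    simp only [wC3, List.append_assoc]
  rw [e]
  refine (((sArcRRb D.hk p).append D.sKpos D.sArcQb23 ?_).append D.sKpos
    (D.sArcHd.append D.sKpos h3 ?_) ?_).mono ?_
  · rintro X Y a (b | b)
    · have := p.rrb_qb2 a b.qb
      dsimp only
      omega
    · exact (p.rrb_qb1 a b.qb).elim
  · rintro X Y (a | a) b
    · exact (p.om_mub (D.om _ _ b) (D.mu _ _ a)).elim
    · have := D.s2 X Y a b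
      dsimp only
      omega
  · intro X Y a b
    have c : D.sQs X Y := by
      rcases b with (b | b) | b
      · exact .inl b
      · exact .inr (.inl (.inl (D.ls _ _ b)))
      · exact .inr (.inl (.inr (.inl (D.om _ _ b))))
    rcases a with a | a | a
    · have := p.rrb_qb0 a c.qb
      rcases b with (b | b) | b
      · have := (D.mu _ _ b).lin
        omega
      · have := (D.ls _ _ b).lin
        omega
      · have := (D.om _ _ b).lin
        omega
    · exact (p.qb_qb2 c.qb a.qb).elim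
    · have := c.rot a
      dsimp only
      omega
  · rintro X Y ((a | a | a) | (a | a) | a)
    · exact .inl a
    · exact .inr (.inl a.qb)
    · exact .inr (.inr (.inl a.qb))
    · exact .inr (.inr (.inr (.inl (D.mu _ _ a))))
    · exact .inr (.inr (.inr (.inr (.inl (D.ls _ _ a)))))
    · exact .inr (.inr (.inr (.inr (.inr (D.om _ _ a)))))

theorem simpleC : Simple (k • ((0, p.a) : Pt)) D.wC ∧
    Ccw (k • ((0, p.a) : Pt)) D.wC ∧
    ∀ z ∈ verts (k • ((0, p.a) : Pt)) D.wC, p.EC (psi k z.1) (psi k z.2) := by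
  have hp := p.aux
  obtain ⟨s, e⟩ := (D.sArcC1.append D.sKpos D.sArcC2 fun X Y a b => by
      have := p.a1_mid a b
      dsimp only
      omega).simple D.sKpos D.sArcC3 (by
    rintro X Y (a | a) b
    · exact .inl (by simpa using p.a1_a3 a b)
    · have := p.mid_a3 a b
      dsimp only
      omega) (by
    have := sLength_Ra D.hk p
    simp only [wC1, List.length_append]
    omega)
  have e' : ∀ z ∈ verts (k • ((0, p.a) : Pt)) D.wC, p.EC (psi k z.1) (psi k z.2) :=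
    fun z hz => or_assoc.1 (e z hz)
  exact ⟨s, sCcwRR D.hk s.1 e' (sMem_edges_left (sMem_edges_left (sMem_edges_left (sMem_edges_left
    (sMem_edges_left (sEdgeRR D.hk p) _) _) _) _) _) (p.esc_c13 (by omega)), e'⟩

end Des

end NP
end Pool.Agent.Lib.MP_4a7072_co
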