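import Pool.Agent.Lib.MP_4a7072_co.NW

/-!
The periodic curves with four centres of rotation have a mirror symmetry.
-/

set_option autoImplicit false

namespace Pool.Agent.Lib.MP_4a7072_co
namespace NP

namespace WB0

variable {e n m : ℤ} (W : WB0 e n m)

/-- The curve is symmetric about the line halfway between the two centres. -/
def Mir : Prop := ∀ l, (W.w (W.β - l)).1 = m - (W.w l).2 ∧ (W.w (W.β - l)).2 = m - (W.w l).1

/-- A bound for the height at which the curve crosses the line of symmetry. -/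
def Dg : Prop := 0 < m → ∀ l l0, W.q ≤ l → l ≤ W.q + W.β → 2 * l0 + 1 = W.β + 2 * W.q →
  (W.w l0).2 - (W.w l0).1 < (W.w l).2 - (W.w l).1 + m

theorem pers (s l : ℤ) : (W.w (l + 2 * W.q * s)).1 = (W.w l).1 + s * n ∧
    (W.w (l + 2 * W.q * s)).2 = (W.w l).2 + s * n := by
  rw [per_mul W.per]
  simp

theorem per1 (l : ℤ) : (W.w (l + 2 * W.q)).1 = (W.w l).1 + n ∧
    (W.w (l + 2 * W.q)).2 = (W.w l).2 + n := by
  rw [W.per]
  simp

theorem mir_of (hβ : 0 < W.β) (h : ∀ l, 0 ≤ l → l ≤ W.β →
    (W.w (W.β - l)).1 = m - (W.w l).2 ∧ (W.w (W.β - l)).2 = m - (W.w l).1) : W.Mir := by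
  have hq := W.qpos
  have up : ∀ t : ℕ, ∀ l : ℤ, 0 ≤ l → l ≤ t → l ≤ W.β + W.q →
      (W.w (W.β - l)).1 = m - (W.w l).2 ∧ (W.w (W.β - l)).2 = m - (W.w l).1 := by
    intro t
    induction t with
    | zero => exact fun l a b _ => h l a (by omega)
    | succ t ih =>
      intro l a b c
      by_cases d : l ≤ W.β
      · exact h l a d
      have h1 := ih (l - W.β) (by omega) (by omega) (by omega)
      have h2 := W.symA' (i := l - W.β) (by omega) (by omega)
      have h3 := W.symB' (i := l - W.β) (by omega) (by omega)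
      rw [neg_sub] at h2
      rw [add_sub_cancel] at h3
      omega
  have mid : ∀ l, -W.q ≤ l → l ≤ W.q →
      (W.w (W.β - l)).1 = m - (W.w l).2 ∧ (W.w (W.β - l)).2 = m - (W.w l).1 := by
    intro l a b
    rcases le_total 0 l with c | c
    · exact up l.toNat l c (by omega) (by omega)
    · have := up (W.β - l).toNat (W.β - l) (by omega) (by omega) (by omega)
      rw [sub_sub_cancel] at this
      omega
  intro l
  have h1 := Int.mul_ediv_add_emod (l + W.q) (2 * W.q)
  have h2 := Int.emod_nonneg (l + W.q) (show 2 * W.q ≠ 0 by omega)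
  have h3 := Int.emod_lt_of_pos (l + W.q) (show 0 < 2 * W.q by omega)
  generalize (l + W.q) / (2 * W.q) = s at h1
  obtain ⟨r, a, b, rfl⟩ : ∃ r, -W.q ≤ r ∧ r ≤ W.q ∧ l = r + 2 * W.q * s :=
    ⟨(l + W.q) % (2 * W.q) - W.q, by omega, by omega, by omega⟩
  have h4 := mid r a b
  have h5 := W.pers s r
  have h6 := W.pers s (W.β - (r + 2 * W.q * s))
  rw [show W.β - (r + 2 * W.q * s) + 2 * W.q * s = W.β - r by ring] at h6
  omega

theorem Mir.shift {W : WB0 e n m} (h : W.Mir) (s : ℤ) : (W.shift s).Mir := fun l => by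
  have h1 := h l
  have h2 := W.pers s (W.β - l)
  change (W.w (W.β + 2 * W.q * s - l)).1 = _ - (W.w l).2 ∧
    (W.w (W.β + 2 * W.q * s - l)).2 = _ - (W.w l).1
  rw [add_sub_right_comm]
  omega

theorem Mir.mirror {W : WB0 e n m} (h : W.Mir) (hn : n ≠ 2) : (W.mirror hn).Mir := fun l => by
  have h1 := h (-l)
  change -(W.w (-(-W.β - l))).2 = _ - -(W.w (-l)).1 ∧ -(W.w (-(-W.β - l))).1 = _ - -(W.w (-l)).2
  rw [show -(-W.β - l) = W.β - -l by ring]
  omega

/-- The order of the centres when the second centre lies in the first quarter of the period. -/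
theorem ord1 (h0 : 0 < m) (h : 2 * m < n) : 0 < W.β ∧ 2 * W.β < W.q := by
  have h1 := W.monoA W.β
  rw [W.wβ] at h1
  simp only at h1
  have h2 := W.symB' (i := W.β) (by omega) (by omega)
  have h3 := (W.monoA (W.β + W.β)).2.2.1
  rw [sub_self, W.w0] at h2
  simp only at h2
  omega

/-- The order of the centres when the second centre lies in the second quarter of the period. -/
theorem ord2 (h0 : m < n) (h : n < 2 * m) : W.β < 2 * W.q ∧ 3 * W.q < 2 * W.β := by
  have h1 := W.monoA W.β
  have h2 := (W.monoA (W.β - 2 * W.q)).1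
  have h3 := W.perξ (W.β - 2 * W.q)
  rw [sub_add_cancel, W.wβ] at h3
  rw [W.wβ] at h1
  simp only at h1 h3
  have h4 := W.symB' (i := 2 * W.q - W.β) (by omega) (by omega)
  have h5 := W.per1 0
  have h6 := (W.monoA (W.β - (2 * W.q - W.β))).2.2.2.2.1
  rw [add_sub_cancel] at h4
  rw [zero_add, W.w0] at h5
  simp only at h5
  omega

theorem low (h0 : m < n) (h : n < 2 * m) {l : ℤ} (a : W.β ≤ l) (b : l ≤ 2 * W.q) :
    (W.w l).2 - (W.w l).1 ≤ 2 * m - n := by
  have h1 := W.ord2 h0 h
  have h2 := W.symB' (i := l - W.β) (by omega) (by omega)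
  have h3 := (W.monoA (W.β - (l - W.β))).2.2.1 (by omega)
  rw [add_sub_cancel] at h2
  omega

theorem high (h0 : 0 < m) (h : 2 * m < n) {l : ℤ} (c : W.q ≤ l) (b : l ≤ W.q + W.β) :
    2 * m ≤ (W.w l).2 - (W.w l).1 := by
  have h1 := W.ord1 h0 h
  have h2 := W.symA' (i := 2 * W.q - l) (by omega) (by omega)
  have h3 := W.per1 (-(2 * W.q - l))
  have h4 := (W.monoB (2 * W.q - l)).1 (by omega)
  rw [show -(2 * W.q - l) + 2 * W.q = l by ring] at h3
  omega

theorem dg_of (h : 0 < m → n < 2 * m) (hne : m ≠ n) : W.Dg := fun hm l l0 _ _ c => by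
  have h1 := W.strip l
  have h2 := W.strip l0
  rcases lt_or_gt_of_ne hne with g | g
  · have := W.ord2 g (h hm)
    have := W.low g (h hm) (l := l0) (by omega) (by omega)
    omega
  · omega

end WB0

/-- The step of the recursion: the strip gets wider by `2 m`. -/
theorem WB.widen' {e n m : ℤ} (W : WB e n m) (hn : 0 < n) (hm : 0 < m) :
    ∃ W' : WB e (n + 2 * m) m, W'.β = W.β ∧ W'.q = 2 * W.β + W.q ∧
      (∀ l, 0 ≤ l → l ≤ W.β → W'.w l = W.w l) ∧ ∀ l, 0 ≤ l → l ≤ W.β + W.q →
      (W'.w (2 * W.β + l)).1 = (W.w l).1 ∧ (W'.w (2 * W.β + l)).2 = (W.w l).2 + 2 * m := by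
  obtain ⟨W, dep, -⟩ := W
  have dep := dep hm
  have hq := W.qpos
  have hp : 0 < W.β := by
    have := (W.monoA W.β).2.1
    rw [W.wβ] at this
    simp only at this
    omega
  obtain ⟨F, hF⟩ : ∃ F : ℤ → Pt, F = fun i => if i ≤ W.β then W.w i else if i ≤ 2 * W.β then
    ((W.w (2 * W.β - i)).2, 2 * m - (W.w (2 * W.β - i)).1) else
    ((W.w (i - 2 * W.β)).1, (W.w (i - 2 * W.β)).2 + 2 * m) := ⟨_, rfl⟩
  have F1 : ∀ i, i ≤ W.β → F i = W.w i := fun i a => by rw [hF]; exact if_pos a
  have F2 : ∀ i, W.β ≤ i → i ≤ 2 * W.β →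
      F i = ((W.w (2 * W.β - i)).2, 2 * m - (W.w (2 * W.β - i)).1) := fun i a b => by
    rcases eq_or_lt_of_le a with rfl | a
    · rw [F1 _ le_rfl, show 2 * W.β - W.β = W.β by ring, W.wβ]
      ext <;> simp only; ring
    · simp only [hF, if_neg a.not_ge, if_pos b]
  have F3 : ∀ i, 2 * W.β ≤ i →
      F i = ((W.w (i - 2 * W.β)).1, (W.w (i - 2 * W.β)).2 + 2 * m) := fun i a => by
    rcases eq_or_lt_of_le a with rfl | a
    · rw [F2 _ (by omega) le_rfl, sub_self, W.w0]; simp
    · simp only [hF, if_neg a.not_ge, if_neg (show ¬i ≤ W.β by omega)]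
  clear hF
  -- the three parts of the half period
  have part : ∀ i, 0 ≤ i → i ≤ 2 * W.β + W.q → ∃ j, 0 ≤ j ∧
      (0 ≤ (W.w j).1 + (W.w j).2 ∧ 0 ≤ (W.w j).2 - (W.w j).1 ∧ (W.w j).2 - (W.w j).1 ≤ n) ∧
      ((i = j ∧ j ≤ W.β ∧ (F i).1 = (W.w j).1 ∧ (F i).2 = (W.w j).2 ∧
        (W.w j).1 + (W.w j).2 ≤ 2 * m ∧ (W.w j).2 - (W.w j).1 < 2 * m) ∨
      (i = 2 * W.β - j ∧ j ≤ W.β ∧ (F i).1 = (W.w j).2 ∧ (F i).2 = 2 * m - (W.w j).1 ∧
        (W.w j).1 + (W.w j).2 ≤ 2 * m) ∨
      (i = 2 * W.β + j ∧ j ≤ W.q ∧ (F i).1 = (W.w j).1 ∧ (F i).2 = (W.w j).2 + 2 * m ∧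
        (W.w j).1 + (W.w j).2 ≤ n)) := by
    intro i a b
    by_cases c : i ≤ W.β
    · exact ⟨i, a, ⟨(W.monoA _).1 a, W.strip _⟩, Or.inl ⟨rfl, c, by rw [F1 i c], by rw [F1 i c],
        (W.monoB _).2.1 c, (dep i a c).1⟩⟩
    by_cases d : i ≤ 2 * W.β
    · exact ⟨2 * W.β - i, by omega, ⟨(W.monoA _).1 (by omega), W.strip _⟩, Or.inr (Or.inl
        ⟨by omega, by omega, by rw [F2 i (by omega) d], by rw [F2 i (by omega) d],
        (W.monoB _).2.1 (by omega)⟩)⟩
    · exact ⟨i - 2 * W.β, by omega, ⟨(W.monoA _).1 (by omega), W.strip _⟩, Or.inr (Or.inr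
        ⟨by omega, by omega, by rw [F3 i (by omega)], by rw [F3 i (by omega)],
        (W.monoA _).2.2.2.2.1 (by omega)⟩)⟩
  have inj : ∀ i j, (W.w i).1 = (W.w j).1 → (W.w i).2 = (W.w j).2 → i = j := fun i j a b =>
    W.inj i j (Prod.ext a b)
  -- quarter turns about the centres
  have tA : ∀ i j, 0 ≤ i → 0 ≤ j → (W.w i).1 = -(W.w j).2 → (W.w i).2 = (W.w j).1 →
      i = 0 ∧ j = 0 := by
    intro i j a b c d
    by_cases h : j ≤ W.q
    · have := W.symA' b h
      have := inj i (-j) (by omega) (by omega)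
      omega
    · have := (W.monoA i).1 a
      have := (W.monoA j).2.2.1 (by omega)
      have := W.strip i
      have := W.strip j
      have := W.kA i (by omega) (by omega)
      omega
  have tB : ∀ i j, i ≤ W.β → j ≤ W.β → (W.w i).1 = (W.w j).2 → (W.w i).2 = 2 * m - (W.w j).1 →
      i = W.β ∧ j = W.β := by
    intro i j a b c d
    by_cases h : W.β - W.q ≤ j
    · have := W.symB' (i := W.β - j) (by omega) (by omega)
      rw [sub_sub_cancel] at this
      have := inj i (W.β + (W.β - j)) (by omega) (by omega)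
      omega
    · have := (W.monoB i).2.1 a
      have := (W.monoB j).2.2.2.1 (by omega)
      have := W.strip i
      have := W.strip j
      have := W.kB i (by omega) (by omega)
      omega
  have tM : ∀ i j, 0 ≤ i → i ≤ W.q → 0 ≤ j → j ≤ W.q → (W.w i).1 = n - (W.w j).2 →
      (W.w i).2 = (W.w j).1 + n → i = W.q := by
    intro i j a b c d f g
    have := W.symA' c d
    have h := W.per (-j)
    simp only [Prod.ext_iff, Prod.fst_add, Prod.snd_add] at h
    have := inj i (-j + 2 * W.q) (by omega) (by omega)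
    omega
  have box : ∀ i, 0 ≤ i → i ≤ 2 * W.β + W.q → 0 ≤ (F i).1 + (F i).2 ∧
      (F i).1 + (F i).2 ≤ n + 2 * m ∧ 0 ≤ (F i).2 - (F i).1 ∧ (F i).2 - (F i).1 ≤ n + 2 * m := by
    intro i a b
    obtain ⟨j, c, d, h⟩ := part i a b
    omega
  obtain ⟨w, pos, neg, per, st, winj, strip⟩ := extend (e := e) (n := n + 2 * m)
    (q := 2 * W.β + W.q) (by omega) (by omega) F (by rw [F1 _ hp.le, W.w0])
    (by rw [F3 _ (by omega), add_sub_cancel_left, W.wq])
    (fun i a b => by
      by_cases c : i + 1 ≤ W.β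
      · rw [F1 _ c, F1 _ (by omega)]; exact W.stp i
      by_cases d : i + 1 ≤ 2 * W.β
      · rw [F2 _ (by omega) d, F2 _ (by omega) (by omega)]
        have := (((W.stp (2 * W.β - (i + 1))).symm).rot 3).add (0, 2 * m)
        rw [show 2 * W.β - (i + 1) + 1 = 2 * W.β - i by ring] at this
        simpa only [rotP3, Prod.mk_add_mk, add_zero, neg_add_eq_sub] using this
      · rw [F3 _ (by omega), F3 _ (by omega), add_sub_right_comm]
        have := (W.stp (i - 2 * W.β)).add (0, 2 * m)
        simpa only [Prod.add_def, add_zero] using this)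
    box
    (fun i i' a b a' b' h => by
      obtain ⟨j, c, d, g⟩ := part i a b
      obtain ⟨j', c', d', g'⟩ := part i' a' b'
      rw [Prod.ext_iff] at h
      rcases g with g | g | g <;> rcases g' with g' | g' | g'
      · have := inj j j' (by omega) (by omega); omega
      · have := tB j j' (by omega) (by omega) (by omega) (by omega); omega
      · omega
      · have := tB j' j (by omega) (by omega) (by omega) (by omega); omega
      · have := inj j j' (by omega) (by omega); omega
      · have := tA j j' c c' (by omega) (by omega); omega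
      · omega
      · have := tA j' j c' c (by omega) (by omega); omega
      · have := inj j j' (by omega) (by omega); omega)
    (fun i i' a b a' b' h h' => by
      obtain ⟨j, c, d, g⟩ := part i a b
      obtain ⟨j', c', d', g'⟩ := part i' a' b'
      have := tA j j' c c'
      rcases g with g | g | g <;> rcases g' with g' | g' | g' <;> omega)
    (fun i i' a b a' b' h h' => by
      obtain ⟨j, c, d, g⟩ := part i a b
      obtain ⟨j', c', d', g'⟩ := part i' a' b'
      rcases g' with g' | g' | g'
      · omega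
      · omega
      rcases g with g | g | g
      · omega
      · have := W.kA j (by omega) (by omega); omega
      · have := tM j j' c (by omega) c' (by omega) (by omega) (by omega); omega)
  have neg' : ∀ i, 0 ≤ i → i ≤ 2 * W.β + W.q → (w (-i)).1 = -(w i).2 ∧ (w (-i)).2 = (w i).1 :=
    fun i a b => by rw [neg i a b, pos i a b]; exact ⟨rfl, rfl⟩
  have old : ∀ l, 0 ≤ l → l ≤ W.β + W.q → (w l).1 = (W.w l).1 ∧ (w l).2 = (W.w l).2 := by
    intro l a b
    rw [pos l a (by omega)]
    by_cases c : l ≤ W.β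
    · rw [F1 l c]; exact ⟨rfl, rfl⟩
    have s := W.symB' (i := l - W.β) (by omega) (by omega)
    rw [add_sub_cancel, show W.β - (l - W.β) = 2 * W.β - l by ring] at s
    by_cases d : l ≤ 2 * W.β
    · rw [F2 l (by omega) d]; simp only; omega
    · have t := W.symA' (i := l - 2 * W.β) (by omega) (by omega)
      rw [neg_sub] at t
      rw [F3 l (by omega)]; simp only; omega
  have tr : ∀ l, 0 ≤ l → l ≤ W.β + W.q →
      (w (2 * W.β + l)).1 = (W.w l).1 ∧ (w (2 * W.β + l)).2 = (W.w l).2 + 2 * m := by
    intro l a b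
    by_cases c : l ≤ W.q
    · rw [pos _ (by omega) (by omega), F3 _ (by omega), add_sub_cancel_left]; exact ⟨rfl, rfl⟩
    have p1 := per (-(2 * W.β + 2 * W.q - l))
    have p2 := W.per (l - 2 * W.q)
    rw [show -(2 * W.β + 2 * W.q - l) + 2 * (2 * W.β + W.q) = 2 * W.β + l by ring,
      neg _ (by omega) (by omega)] at p1
    rw [sub_add_cancel] at p2
    rw [p1, p2]
    by_cases d : l ≤ 2 * W.q
    · have t := W.symA' (i := 2 * W.q - l) (by omega) (by omega)
      rw [neg_sub] at t
      rw [F3 _ (by omega), show 2 * W.β + 2 * W.q - l - 2 * W.β = 2 * W.q - l by ring]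
      simp only [rotP1, Prod.fst_add, Prod.snd_add]
      omega
    · rw [F2 _ (by omega) (by omega),
        show 2 * W.β - (2 * W.β + 2 * W.q - l) = l - 2 * W.q by ring]
      simp only [rotP1, Prod.fst_add, Prod.snd_add]
      omega
  have mono := corr (f := fun l => (w l).1 + (w l).2) (c := 0) (n := n + 2 * m)
    (show 0 < 2 * W.β + W.q by omega) (by omega)
    (fun l => by rw [per]; simp only [Prod.fst_add, Prod.snd_add]; ring)
    (fun i a b => by
      have := box i a b
      rw [zero_add, pos i a b, pos 0 le_rfl (by omega), F1 _ hp.le, W.w0]; simp only; omega)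
    (fun i a b => by
      have := box i a b
      rw [zero_sub, neg i a b, pos 0 le_rfl (by omega), F1 _ hp.le, W.w0]
      simp only [rotP1]; omega)
  rw [pos 0 le_rfl (by omega), F1 _ hp.le, W.w0] at mono
  simp only [add_zero, zero_add, zero_sub] at mono
  refine ⟨{
    w := w
    d := fun l => (st l).choose
    q := 2 * W.β + W.q
    β := W.β
    qpos := by omega
    step := fun l => (st l).choose_spec
    w0 := by rw [pos 0 le_rfl (by omega), F1 _ hp.le, W.w0]
    wq := by rw [pos _ (by omega) le_rfl, F3 _ (by omega), add_sub_cancel_left, W.wq]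
    wβ := by rw [pos _ hp.le (by omega), F1 _ le_rfl, W.wβ]
    per := per
    inj := winj
    strip := strip
    symA := fun i a b => by rw [neg i a b, pos i a b]
    symB := fun i a b => ?_
    kA := fun l a b => ?_
    kB := fun l a b => ?_
    dep := fun _ l a b => ?_
    big := fun _ _ => ⟨by omega, fun l a b => ?_, fun l a b => ?_⟩ }, rfl, rfl,
    fun l a (b : l ≤ W.β) => (pos l a (by omega)).trans (F1 l b), tr⟩
  · by_cases c : i ≤ W.β
    · rw [pos _ (by omega) (by omega), pos _ (by omega) (by omega), F1 _ (by omega),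
        F2 _ (by omega) (by omega), show 2 * W.β - (W.β + i) = W.β - i by ring]
      ext <;> simp [rotP1]; ring
    · have h1 := neg' (i - W.β) (by omega) (by omega)
      have h2 := old (i - W.β) (by omega) (by omega)
      have h3 := tr (i - W.β) (by omega) (by omega)
      rw [neg_sub] at h1
      rw [show 2 * W.β + (i - W.β) = W.β + i by ring] at h3
      ext <;> simp only [rotP1, Prod.fst_sub, Prod.snd_sub] <;> omega
  · exfalso
    have m1 := (mono l).2.2.1
    have m2 := (mono l).2.2.2.1
    rcases le_total 0 l with c | c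
    · obtain ⟨j, d, f, g⟩ := part l c (by omega)
      rw [pos l c (by omega)] at a b
      omega
    · obtain ⟨j, d, f, g⟩ := part (-l) (by omega) (by omega)
      have h := neg (-l) (by omega) (by omega)
      rw [neg_neg] at h
      rw [h] at a b
      simp only [rotP1] at a b
      have := W.kB j
      omega
  · exfalso
    have m1 := (mono l).2.2.1
    have m2 := (mono l).2.1
    obtain ⟨j, d, f, g⟩ := part l (by omega) (by omega)
    rw [pos l (by omega) (by omega)] at a b
    have := W.kA j
    omega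
  · have := old l a (by omega)
    have := dep l a b
    omega
  · have := old l a (by omega)
    have := W.strip l
    omega
  · rw [pos l (by omega) b, F3 l a]
    have := W.strip (l - 2 * W.β)
    simp only
    omega

theorem exists_two' : ∃ W : WB 1 2 1, W.β = 1 ∧ W.q = 2 := by
  obtain ⟨w, pos, neg, per, st, winj, strip⟩ := extend (e := 1) (n := 2) (q := 2) two_pos two_pos
    (fun i => (i % 2, i)) rfl rfl
    (fun i a b => by
      obtain rfl | rfl : i = 0 ∨ i = 1 := by omega
      · exact ⟨0, by decide⟩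
      · exact ⟨1, by decide⟩)
    (fun i a b => by simp only; omega)
    (fun i j _ _ _ _ h => congrArg Prod.snd h) (fun i j _ _ _ _ h _ => by simp only at h; omega)
    (fun i j _ _ _ _ _ h => by simp only at h; omega)
  have val : ∀ l, ∃ s, (l = 4 * s - 1 ∧ w l = (2 * s - 1, 2 * s + 1)) ∨
      (l = 4 * s ∧ w l = (2 * s, 2 * s)) ∨ (l = 4 * s + 1 ∧ w l = (2 * s + 1, 2 * s + 1)) ∨
      (l = 4 * s + 2 ∧ w l = (2 * s, 2 * s + 2)) := fun l => by
    have h := per_mul per ((l + 1) / 4) ((l + 1) % 4 - 1)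
    rw [show (l + 1) % 4 - 1 + 2 * 2 * ((l + 1) / 4) = l by omega] at h
    refine ⟨(l + 1) / 4, ?_⟩
    have h1 := neg 1 (by omega) (by omega)
    have h2 := pos 0 (by omega) (by omega)
    have h3 := pos 1 (by omega) (by omega)
    have h4 := pos 2 (by omega) (by omega)
    obtain g | g | g | g : (l + 1) % 4 - 1 = -1 ∨ (l + 1) % 4 - 1 = 0 ∨ (l + 1) % 4 - 1 = 1 ∨
      (l + 1) % 4 - 1 = 2 := by omega
    all_goals
      rw [g] at h
      simp only [h, h1, h2, h3, h4, rotP1, Prod.ext_iff, Prod.fst_add, Prod.snd_add, Prod.smul_fst,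
        Prod.smul_snd, smul_eq_mul]
      omega
  exact ⟨{
    w := w
    d := fun l => (st l).choose
    q := 2
    β := 1
    qpos := two_pos
    step := fun l => (st l).choose_spec
    w0 := pos 0 le_rfl (by omega)
    wq := pos 2 (by omega) le_rfl
    wβ := pos 1 (by omega) (by omega)
    per := per
    inj := winj
    strip := strip
    symA := fun i a b => by rw [neg i a b, pos i a b]
    symB := fun i a b => by
      obtain ⟨s, h⟩ := val (1 - i)
      obtain ⟨t, g⟩ := val (1 + i)
      simp only [Prod.ext_iff, rotP1, Prod.fst_sub, Prod.snd_sub] at h g ⊢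
      omega
    kA := fun l a b => by
      obtain ⟨s, h⟩ := val l
      simp only [Prod.ext_iff] at h
      omega
    kB := fun l a b => by
      obtain ⟨s, h⟩ := val l
      simp only [Prod.ext_iff] at h
      omega
    dep := fun _ l a b => by
      obtain ⟨s, h⟩ := val l
      simp only [Prod.ext_iff] at h
      omega
    big := by omega }, rfl, rfl⟩

theorem exists_WM (n m : ℤ) (hn : 0 < n) (hc : IsCoprime n m) (he : n % 2 = 0) :
    ∃ W : WB 1 n m, W.Mir ∧ W.Dg := by
  obtain ⟨N, hN⟩ : ∃ N : ℕ, n < N := ⟨n.toNat + 1, by omega⟩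
  induction N generalizing n m with
  | zero => omega
  | succ N ih =>
    have wide : ∀ m, IsCoprime n m → 0 < m → 2 * m < n → ∃ W : WB 1 n m, W.Mir ∧ W.Dg :=
      fun m c a b => by
      have c' : IsCoprime (n - 2 * m) m := by
        have := c.add_mul_right_left (-2)
        rwa [neg_mul, ← sub_eq_add_neg] at this
      obtain ⟨W, mir, dg⟩ := ih (n - 2 * m) m (by omega) c' (by omega) (by omega)
      obtain ⟨W', e1, e2, old, tr⟩ := W.widen' (by omega) a
      have hq := W.qpos
      have hβ := (W'.ord1 a (by omega)).1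
      have : ∃ W : WB 1 (n - 2 * m + 2 * m) m, W.Mir ∧ W.Dg := by
        refine ⟨W', W'.mir_of hβ fun l a b => ?_, fun _ l l0 a b c => ?_⟩
        · rw [e1] at b ⊢
          rw [old _ a b, old _ (by omega) (by omega)]
          exact mir l
        · have h1 := tr (l - 2 * W.β) (by omega) (by omega)
          have h2 := tr (l0 - 2 * W.β) (by omega) (by omega)
          have h3 := dg ‹_› (l - 2 * W.β) (l0 - 2 * W.β) (by omega) (by omega) (by omega)
          rw [add_sub_cancel] at h1 h2
          omega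
      rwa [sub_add_cancel] at this
    by_cases h : 0 < m ∧ 2 * m < n
    · exact wide m hc h.1 h.2
    have n1 : n ≠ 1 := by omega
    have mn : m ≠ n := fun z => by
      rw [z, isCoprime_self, Int.isUnit_iff] at hc
      omega
    have fin : (0 < m → n < 2 * m) → (∃ W : WB0 1 n m, W.Mir) → ∃ W : WB 1 n m, W.Mir ∧ W.Dg :=
      fun g ⟨W, hW⟩ => ⟨W.toWB g fun _ => he, hW, W.dg_of g mn⟩
    have ne : 0 < m → n ≠ 2 * m ∨ n = 2 := fun a => by
      by_cases b : n = 2 * m
      · right
        have := Int.isUnit_iff.1 (hc.isUnit_of_dvd' ⟨2, by rw [b, mul_comm]⟩ dvd_rfl)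
        omega
      · exact Or.inl b
    have h1 := Int.mul_ediv_add_emod m n
    have h2 := Int.emod_nonneg m hn.ne'
    have h3 := Int.emod_lt_of_pos m hn
    have c0 : IsCoprime n (m % n) := by
      have := hc.add_mul_left_right (-(m / n))
      rwa [show m + n * -(m / n) = m % n by linarith] at this
    have m0 : m % n ≠ 0 := fun z => by
      rw [z, isCoprime_zero_right, Int.isUnit_iff] at c0
      omega
    by_cases n2 : n = 2
    · subst n2
      obtain ⟨W, e1, e2⟩ := exists_two'
      have w0 := W.w0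
      have w1 := W.wβ
      have mir : W.Mir := W.mir_of (by omega) fun l a b => by
        obtain rfl | rfl : l = 0 ∨ l = W.β := by omega
        · simp [w0, w1]
        · simp [w0, w1]
      by_cases m1 : m = 1
      · subst m1
        refine ⟨W, mir, fun _ l l0 a b c => ?_⟩
        have := W.strip l0
        obtain rfl | rfl : l = W.q ∨ l = -1 + 2 * W.q := by omega
        · rw [W.wq]
          simp only
          omega
        · have := W.per1 (-1)
          have := W.symA' (i := 1) (by omega) (by omega)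
          rw [e1] at w1
          rw [w1] at this
          simp only at this
          omega
      · have W' : ∃ W : WB0 1 2 (1 + m / 2 * 2), W.Mir := ⟨_, mir.shift (m / 2)⟩
        rw [show 1 + m / 2 * 2 = m by omega] at W'
        exact fin (by omega) W'
    have nm : 2 * (m % n) ≠ n := fun z => by
      have := Int.isUnit_iff.1 (c0.isUnit_of_dvd' ⟨2, by omega⟩ dvd_rfl)
      omega
    rcases lt_or_gt_of_ne nm with g | g
    · obtain ⟨W, mir, -⟩ := wide _ c0 (by omega) g
      have W' : ∃ W : WB0 1 n (m % n + m / n * n), W.Mir := ⟨_, mir.shift (m / n)⟩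
      rw [show m % n + m / n * n = m by linarith] at W'
      exact fin (by omega) W'
    · have c1 : IsCoprime n (n - m % n) := by
        have := c0.neg_right.add_mul_left_right 1
        rwa [mul_one, neg_add_eq_sub] at this
      obtain ⟨W, mir, -⟩ := wide _ c1 (by omega) (by omega)
      have W' : ∃ W : WB0 1 n (-(n - m % n) + (m / n + 1) * n), W.Mir :=
        ⟨_, (mir.mirror n2).shift (m / n + 1)⟩
      rw [show -(n - m % n) + (m / n + 1) * n = m by linarith] at W'
      exact fin (by omega) W'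

end NP
end Pool.Agent.Lib.MP_4a7072_co
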