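import Pool.Agent.Lib.MP_4a7072_co.DSimple

/-!
The short paths of the design for an even shorter leg.
-/

set_option autoImplicit false
set_option linter.unnecessarySeqFocus false

namespace Pool.Agent.Lib.MP_4a7072_co
namespace NP

/-- A staircase. -/
def stair : ℕ → List Dir
  | 0 => [3]
  | n + 1 => [3] ++ ([0] ++ stair n)

theorem stair_arc (n : ℕ) : CArc (-n, n + 1) (stair n) (0, 0) fun X Y =>
    -n ≤ X ∧ X ≤ 0 ∧ 0 ≤ Y ∧ Y ≤ n + 1 ∧ 0 ≤ X + Y ∧ X + Y ≤ 1 := by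
  induction n with
  | zero =>
    refine (CArc.one (0, 1) 3).mv (by simp) (by simp [dv]) fun X Y h => ?_
    simp [dv] at h
    omega
  | succ n ih =>
    have h1 : CArc (-(n + 1 : ℕ), (n + 1 : ℕ) + 1) [3] (-n - 1, n + 1) fun X Y =>
        X = -n - 1 ∧ (Y = n + 1 ∨ Y = n + 2) :=
      (CArc.one _ 3).mv rfl (by ext <;> simp [dv]; ring) fun X Y h => by
        simp [dv] at h
        omega
    have h2 : CArc (-n - 1, n + 1) [0] (-n, n + 1) fun X Y =>
        Y = n + 1 ∧ (X = -n ∨ X = -n - 1) :=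
      (CArc.one _ 0).mv rfl (by ext <;> simp [dv]) fun X Y h => by
        simp [dv] at h
        omega
    refine (h1.append (h2.append ih fun X Y a b => ?_) fun X Y a b => ?_).mono fun X Y h => ?_
    · simp only
      omega
    · simp only
      omega
    · push_cast
      omega

theorem stair_cons (n : ℕ) : ∃ R', stair n = 3 :: R' := by
  cases n <;> exact ⟨_, rfl⟩

namespace P7

variable (p : P7)

theorem arcR : CArc (-p.a + 1 + p.ε, p.a - p.ε) (stair (p.a - 1 - p.ε).toNat) (0, 0) p.ER := by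
  have := p.aux
  have h := stair_arc (p.a - 1 - p.ε).toNat
  rw [Int.toNat_of_nonneg (by omega)] at h
  exact h.mv (by ext <;> simp only <;> ring) rfl fun X Y g => ⟨by omega⟩

/-- The short paths. -/
structure Wd (H : Pt) (L x y M1 M2 : List Dir) : Prop where
  hx : (p.k = 1 ∧ x = []) ∨ (p.k ≠ 1 ∧ x = [0])
  hy : y = List.replicate p.g.toNat 1
  L_ne : L ≠ []
  M1_ne : M1 ≠ []
  M2_ne : M2 ≠ []
  eM : L ++ y = M1 ++ M2
  arcL : CArc (-p.a, p.a) L (endP (-p.a, p.a) L) p.EL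
  endL : (p.k = 1 ∧ endP (-p.a, p.a) L = (p.b - 2 * p.a, p.a)) ∨
    (p.k ≠ 1 ∧ endP (-p.a, p.a) L = (p.b - 2 * p.a - 1, p.a))
  arcS : CArc (-p.a, p.a) (L ++ x) (p.b - 2 * p.a, p.a) p.ES
  arcM : CArc (-p.a, p.a) (L ++ y) H p.EM
  arcM1 : CArc (-p.a, p.a) M1 (-p.a + 1 + p.ε, p.a - p.ε) p.EM1
  arcM2 : CArc (-p.a + 1 + p.ε, p.a - p.ε) M2 H p.EM2
  arcY : CArc (endP (-p.a, p.a) L) y H fun X Y =>
    (p.k = 1 ∧ X = p.b - 2 * p.a ∧ p.a ≤ Y ∧ Y ≤ p.a + p.g) ∨
      (p.k ≠ 1 ∧ X = p.b - 2 * p.a - 1 ∧ Y = p.a)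

theorem arc_leg (hg : 0 ≤ p.g) : CArc (p.b - 2 * p.a, p.a) (List.replicate p.g.toNat 1)
    (p.b - 2 * p.a, p.a + p.g) fun X Y => X = p.b - 2 * p.a ∧ p.a ≤ Y ∧ Y ≤ p.a + p.g :=
  (CArc.line _ 1 hg).mv rfl (by ext <;> simp [dv]) fun X Y ⟨i, h⟩ => by
    simp [dv] at h
    omega

theorem exists_wd (H : Pt) (hH : (p.k = 1 ∧ H = (p.b - 2 * p.a, p.a + p.g)) ∨
    (p.k ≠ 1 ∧ H = (p.b - 2 * p.a - 1, p.a))) : ∃ L x y M1 M2, p.Wd H L x y M1 M2 := by
  have hk := p.hk
  have ha := p.ha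
  have leg := p.arc_leg (by omega)
  rcases p.hε with ⟨e, hb⟩ | ⟨e, hb⟩
  · obtain ⟨k, rfl⟩ := hH.resolve_right (by omega)
    have h1 : CArc (-p.a, p.a) [0] (p.b - 2 * p.a, p.a) fun X Y =>
        Y = p.a ∧ (X = -p.a ∨ X = -p.a + 1) :=
      (CArc.one _ 0).mv rfl (by ext <;> simp [dv]; omega) fun X Y h => by
        simp [dv] at h
        omega
    have e1 : ((p.b - 2 * p.a, p.a) : Pt) = (-p.a + 1 + p.ε, p.a - p.ε) := by
      ext <;> simp only <;> omega
    refine ⟨[0], [], _, [0], _, Or.inl ⟨k, rfl⟩, rfl, by simp, by simp, ?_, rfl, ?_,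
      Or.inl ⟨k, h1.1⟩, ?_, ?_, ?_, ?_, ?_⟩
    · simp only [ne_eq, List.replicate_eq_nil_iff]
      omega
    · exact h1.mv rfl h1.1.symm fun X Y h => ⟨⟨by omega, by omega, by omega⟩, by omega⟩
    · exact h1.mono fun X Y h => ⟨by omega, by omega, by omega⟩
    · exact (h1.append leg fun X Y a b => by simp only; omega).mono fun X Y h =>
        ⟨by omega, by omega, by omega, by omega, by omega⟩
    · exact h1.mv rfl e1 fun X Y h => ⟨by omega, by omega, by omega⟩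
    · exact leg.mv e1 rfl fun X Y h =>
        ⟨⟨by omega, by omega, by omega, by omega, by omega⟩, by omega⟩
    · exact leg.mv h1.1.symm rfl fun X Y h => Or.inl ⟨k, h⟩
  have m1 : CArc (-p.a, p.a) ([0] ++ [3] ++ [0]) (-p.a + 1 + p.ε, p.a - p.ε) fun X Y =>
      (Y = p.a ∧ (X = -p.a ∨ X = -p.a + 1)) ∨ (Y = p.a - 1 ∧ (X = -p.a + 1 ∨ X = -p.a + 2)) := by
    refine (((CArc.one (-p.a, p.a) 0).append (CArc.one _ 3) fun X Y a b => ?_).append
      (CArc.one _ 0) fun X Y a b => ?_).mv rfl (by ext <;> simp [dv] <;> omega) fun X Y h => ?_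
    all_goals simp [dv] at *
    all_goals omega
  have m2 : CArc (-p.a + 1 + p.ε, p.a - p.ε) (List.replicate (p.b - p.a - 3).toNat 0 ++ [1])
      (p.b - 2 * p.a - 1, p.a) fun X Y => (Y = p.a - 1 ∧ -p.a + 2 ≤ X ∧ X ≤ p.b - 2 * p.a - 1) ∨
        (Y = p.a ∧ X = p.b - 2 * p.a - 1) := by
    refine ((CArc.line (-p.a + 1 + p.ε, p.a - p.ε) 0 (n := p.b - p.a - 3) (by omega)).append
      (CArc.one _ 1) ?_).mv rfl (by ext <;> simp [dv] <;> omega) ?_
    · rintro X Y ⟨i, a⟩ b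
      simp [dv] at a b ⊢
      omega
    · rintro X Y (⟨i, a⟩ | a) <;> simp [dv] at a <;> omega
  have m3 : CArc (p.b - 2 * p.a - 1, p.a) [0] (p.b - 2 * p.a, p.a) fun X Y =>
      Y = p.a ∧ (X = p.b - 2 * p.a - 1 ∨ X = p.b - 2 * p.a) :=
    (CArc.one _ 0).mv rfl (by ext <;> simp [dv]) fun X Y h => by
      simp [dv] at h
      omega
  have m12 := m1.append m2 fun X Y a b => by simp only; omega
  have m123 := m12.append m3 fun X Y a b => by simp only; omega
  rcases hH with ⟨k, rfl⟩ | ⟨k, rfl⟩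
  · have m23 := m2.append m3 fun X Y a b => by simp only; omega
    refine ⟨_, [], _, _, _, Or.inl ⟨k, rfl⟩, rfl, by simp, by simp, by simp, ?_,
      m123.mv rfl m123.1.symm fun X Y h => ⟨⟨by omega, by omega, by omega⟩, by omega⟩,
      Or.inl ⟨k, m123.1⟩, ?_, ?_, m1.mono fun X Y h => ⟨by omega, by omega, by omega⟩,
      (m23.append leg fun X Y a b => by simp only; omega).mono fun X Y h =>
        ⟨⟨by omega, by omega, by omega, by omega, by omega⟩, by omega⟩,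
      leg.mv m123.1.symm rfl fun X Y h => Or.inl ⟨k, h⟩⟩
    · simp only [List.append_assoc]
    · rw [List.append_nil]
      exact m123.mono fun X Y h => ⟨by omega, by omega, by omega⟩
    · exact (m123.append leg fun X Y a b => by simp only; omega).mono fun X Y h =>
        ⟨by omega, by omega, by omega, by omega, by omega⟩
  · have g0 : p.g.toNat = 0 := by omega
    refine ⟨_, [0], [], _, _, Or.inr ⟨k, rfl⟩, by rw [g0]; rfl, by simp, by simp, by simp,
      List.append_nil _,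
      m12.mv rfl m12.1.symm fun X Y h => ⟨⟨by omega, by omega, by omega⟩, by omega⟩,
      Or.inr ⟨k, m12.1⟩, m123.mono fun X Y h => ⟨by omega, by omega, by omega⟩, ?_,
      m1.mono fun X Y h => ⟨by omega, by omega, by omega⟩,
      m2.mono fun X Y h => ⟨⟨by omega, by omega, by omega, by omega, by omega⟩, by omega⟩, ?_⟩
    · rw [List.append_nil]
      exact m12.mono fun X Y h => ⟨by omega, by omega, by omega, by omega, by omega⟩
    · rw [m12.1]
      exact Arc.nil (Or.inr ⟨k, rfl, rfl⟩)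

end P7

end NP
end Pool.Agent.Lib.MP_4a7072_co
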