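import Mathlib

/-!
Definitions for the two-piece cube dissection problem: polyominoes, the surface of a cube,
folding a plane set into a surface.
-/

set_option autoImplicit false

namespace Pool.Agent.Lib.MP_4a7072_co

open Set

/-- The closed unit square of the integer lattice with lower left corner `c`. -/
def unitSq (c : ℤ × ℤ) : Set (EuclideanSpace ℝ (Fin 2)) :=
  {p | (c.1 : ℝ) ≤ p 0 ∧ p 0 ≤ (c.1 : ℝ) + 1 ∧ (c.2 : ℝ) ≤ p 1 ∧ p 1 ≤ (c.2 : ℝ) + 1}

/-- The unit squares with lower left corners `c` and `d` share an edge. -/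
def EdgeAdj (c d : ℤ × ℤ) : Prop := |c.1 - d.1| + |c.2 - d.2| = 1

/-- Any two cells of `A` are joined by a chain of cells of `A`, consecutive ones sharing an edge. -/
def EdgeConnected (A : Set (ℤ × ℤ)) : Prop :=
  ∀ c ∈ A, ∀ d ∈ A, Relation.ReflTransGen (fun x y => x ∈ A ∧ y ∈ A ∧ EdgeAdj x y) c d

/-- A polyomino, given by its finite nonempty set of cells, connected through shared edges. -/
def IsPolyomino (S : Finset (ℤ × ℤ)) : Prop :=
  S.Nonempty ∧ EdgeConnected (S : Set (ℤ × ℤ))

/-- The cells outside `S` are connected through shared edges: a polyomino with this property has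
no hole and no pinch point, it is a simple polygon. -/
def HoleFree (S : Finset (ℤ × ℤ)) : Prop := EdgeConnected ((S : Set (ℤ × ℤ))ᶜ)

/-- The subset of the plane covered by the closed unit squares of the cells in `S`. -/
def region (S : Finset (ℤ × ℤ)) : Set (EuclideanSpace ℝ (Fin 2)) := ⋃ c ∈ S, unitSq c

/-- The surface of the cube `[0, L]^3`. -/
def cubeSurface (L : ℝ) : Set (EuclideanSpace ℝ (Fin 3)) :=
  {z | (∀ k, 0 ≤ z k ∧ z k ≤ L) ∧ ∃ k, z k = 0 ∨ z k = L}

/-- `P` folds into `Q`: a continuous map from `P` onto `Q` that preserves the length (total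
variation) of every path in `P` and such that the image of an interior point of `P` has no other
preimage in `P`. -/
def FoldsInto (P : Set (EuclideanSpace ℝ (Fin 2))) (Q : Set (EuclideanSpace ℝ (Fin 3))) : Prop :=
  ∃ f : EuclideanSpace ℝ (Fin 2) → EuclideanSpace ℝ (Fin 3),
    ContinuousOn f P ∧ f '' P = Q ∧
    (∀ γ : ℝ → EuclideanSpace ℝ (Fin 2), ContinuousOn γ (Icc 0 1) → MapsTo γ (Icc 0 1) P →
      eVariationOn (f ∘ γ) (Icc 0 1) = eVariationOn γ (Icc 0 1)) ∧
    (∀ x ∈ interior P, ∀ y ∈ P, f y = f x → y = x)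

/-- There is a polyomino of area `6 c^2` folding into the surface of the `c`-cube, divided into
two polyominoes folding into the surfaces of the `a`-cube and of the `b`-cube; all three are
simple polygons. -/
def TwoPieceDissection (a b c : ℕ) : Prop :=
  ∃ Sa Sb Sc : Finset (ℤ × ℤ),
    IsPolyomino Sa ∧ IsPolyomino Sb ∧ IsPolyomino Sc ∧
    HoleFree Sa ∧ HoleFree Sb ∧ HoleFree Sc ∧
    Sc.card = 6 * c ^ 2 ∧
    region Sc = region Sa ∪ region Sb ∧
    Disjoint (interior (region Sa)) (interior (region Sb)) ∧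
    FoldsInto (region Sc) (cubeSurface c) ∧
    FoldsInto (region Sa) (cubeSurface a) ∧
    FoldsInto (region Sb) (cubeSurface b)

end Pool.Agent.Lib.MP_4a7072_co
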