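import Pool.Agent.Lib.MP_4a7072_co.FGen

/-!
Staircases, symmetries of doubled curves, and crossings of a line of symmetry.
-/

set_option autoImplicit false
set_option linter.unnecessarySeqFocus false
set_option linter.unusedSimpArgs false

namespace Pool.Agent.Lib.MP_4a7072_co
namespace NP

theorem arc_fun {w : ℤ → Pt} {d : ℤ → Dir} (step : ∀ l, w (l + 1) = w l + dv (d l))
    (inj : ∀ l l', (w l).1 = (w l').1 → (w l).2 = (w l').2 → l = l') {i j : ℤ} (h : i ≤ j) :
    CArc (w i) (seg (fun l => [d l]) i j) (w j)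
      fun X Y => ∃ l, i ≤ l ∧ l ≤ j ∧ (w l).1 = X ∧ (w l).2 = Y := by
  induction j, h using Int.leInduction with
  | base =>
    rw [seg_self]
    exact Arc.nil ⟨i, le_rfl, le_rfl, rfl, rfl⟩
  | succ j hj ih =>
    rw [seg_succ _ hj]
    have s := step j
    have s' : (w (j + 1)).1 = (w j).1 + (dv (d j)).1 ∧ (w (j + 1)).2 = (w j).2 + (dv (d j)).2 := by
      rw [s]
      exact ⟨rfl, rfl⟩
    refine (ih.append (CArc.one _ _) ?_).mv rfl s.symm ?_
    · rintro X Y ⟨t, a, b, c, e⟩ (g | g)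
      · exact g
      · have := inj t (j + 1) (by omega) (by omega)
        omega
    · rintro X Y (⟨t, a, b, c⟩ | g | g)
      · exact ⟨t, a, by omega, c⟩
      · exact ⟨j, hj, by omega, g.1.symm, g.2.symm⟩
      · exact ⟨j + 1, by omega, le_rfl, by omega, by omega⟩

/-- The directions of a staircase with steps of length two. -/
def stD (l : ℤ) : Dir := if l % 4 < 2 then 2 else 1

/-- The points of a staircase with steps of length two. -/
def stP (l : ℤ) : Pt := (-(2 * (l / 4) + min (l % 4) 2), 2 * (l / 4) + max (l % 4 - 2) 0)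

/-- A staircase with steps of length two. -/
def stw (n : ℤ) : List Dir := seg (fun l => [stD l]) 0 n

theorem stP_step (l : ℤ) : stP (l + 1) = stP l + dv (stD l) := by
  unfold stD
  split_ifs with h <;> ext <;> simp [stP, dv] <;> omega

theorem stw_ne {n : ℤ} (h : 0 < n) : stw n ≠ [] := seg_ne (fun _ => by simp) h

theorem stw_arc {n x y : ℤ} (h : 0 ≤ n) (h1 : y - x = n) (h2 : x + y = -1) :
    CArc (0, 0) (stw n) (x, y) fun X Y => 0 ≤ Y - X ∧ Y - X ≤ n ∧
      (X + Y = -1 ∨ ((X + Y = 0 ∨ X + Y = -2) ∧ X % 2 = 0)) := by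
  refine (arc_fun stP_step (fun l l' a b => ?_) h).mv (by simp [stP]) ?_ ?_
  · simp only [stP] at a b
    omega
  · ext <;> simp only [stP] <;> omega
  · rintro X Y ⟨l, a, b, c, e⟩
    simp only [stP] at c e
    omega

theorem ivt_up {f : ℤ → ℤ} (hf : ∀ l, f (l + 1) ≤ f l + 1) {i j c : ℤ} (h : i ≤ j) (h0 : f i < c)
    (hne : ∀ l, i ≤ l → l ≤ j → f l ≠ c) : f j < c := by
  induction j, h using Int.leInduction with
  | base => exact h0
  | succ j hj ih =>
    have := ih fun l a b => hne l a (by omega)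
    have := hf j
    have := hne (j + 1) (by omega) le_rfl
    omega

namespace UC

variable {τ τ' : Pt} (C : UC τ)

/-- The same curve with the period written differently. -/
def cast (h : τ = τ') : UC τ' :=
  { C with per := fun l => h ▸ C.per l }

theorem dw_gl {n : ℤ}
    (h : ∀ l, (C.w (l + C.q)).1 = (C.w l).2 ∧ (C.w (l + C.q)).2 = (C.w l).1 + n) (t : ℤ) :
    (C.dw (t + 2 * C.q)).1 = (C.dw t).2 ∧ (C.dw (t + 2 * C.q)).2 = (C.dw t).1 + 2 * n := by
  have h1 := C.dw_eq t
  have h2 := C.dw_eq (t + 2 * C.q)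
  have h3 := h (t / 2)
  have h4 := h ((t + 1) / 2)
  rw [show (t + 2 * C.q) / 2 = t / 2 + C.q by omega,
    show (t + 2 * C.q + 1) / 2 = (t + 1) / 2 + C.q by omega] at h2
  omega

theorem dw_mir {m β : ℤ}
    (h : ∀ l, (C.w (β - l)).1 = m - (C.w l).2 ∧ (C.w (β - l)).2 = m - (C.w l).1) (t : ℤ) :
    (C.dw (2 * β - t)).1 = 2 * m - (C.dw t).2 ∧ (C.dw (2 * β - t)).2 = 2 * m - (C.dw t).1 := by
  have h1 := C.dw_eq t
  have h2 := C.dw_eq (2 * β - t)
  have h3 := h (t / 2)
  have h4 := h ((t + 1) / 2)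
  rw [show (2 * β - t) / 2 = β - (t + 1) / 2 by omega,
    show (2 * β - t + 1) / 2 = β - t / 2 by omega] at h2
  omega

/-- The crossing of the line of symmetry. -/
theorem cross {b : ℤ} (hb : 0 < b) (hb2 : b % 2 = 0) (hβ : 0 ≤ C.β) (wβ : C.w C.β = (b, b))
    (ev : ∀ l, (C.w l).1 % 2 = 0 ∨ (C.w l).2 % 2 = 0)
    (mir : ∀ l, (C.w (C.β - l)).1 = b - (C.w l).2 ∧ (C.w (C.β - l)).2 = b - (C.w l).1) :
    ∃ K, 2 * K + 2 = C.β ∧ (C.w K).1 + (C.w K).2 = b - 1 ∧
      (∀ l, 0 ≤ l → l < K → (C.w l).1 + (C.w l).2 < b - 1) ∧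
      ∀ l, K < l → l ≤ C.β → b - 1 < (C.w l).1 + (C.w l).2 := by
  have z := C.w0'
  have hf : ∀ l, (C.w (l + 1)).1 + (C.w (l + 1)).2 ≤ (C.w l).1 + (C.w l).2 + 1 := fun l => by
    have := C.stc l
    omega
  have un : ∀ l, (C.w l).1 + (C.w l).2 = b → C.β - l = l := fun l h => by
    have := mir l
    exact C.inj _ _ (by omega) (by omega)
  obtain ⟨j, h0, h1, h2⟩ : ∃ j, 0 ≤ j ∧ j ≤ C.β ∧ (C.w j).1 + (C.w j).2 = b := by
    by_contra h
    have := ivt_up (f := fun l => (C.w l).1 + (C.w l).2) (c := b) hf hβ (by omega)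
      fun l a c e => h ⟨l, a, c, e⟩
    simp only [wβ] at this
    omega
  have hj := un j h2
  have lo : ∀ l, 0 ≤ l → l < j → (C.w l).1 + (C.w l).2 < b := fun l a c =>
    ivt_up (f := fun l => (C.w l).1 + (C.w l).2) (c := b) hf a (by omega)
      fun l' _ c' e => by have := un l' e; omega
  have j0 : j ≠ 0 := by
    rintro rfl
    omega
  have s := C.stc (j - 1)
  rw [sub_add_cancel] at s
  have := lo (j - 1) (by omega) (by omega)
  refine ⟨j - 1, by omega, by omega, fun l a c => ?_, fun l a c => ?_⟩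
  · have h3 := lo l a (by omega)
    have h4 := lo (l + 1) (by omega) (by omega)
    have l0 : l = 0 ∨ 0 ≤ l - 1 := by omega
    rcases l0 with rfl | l0
    · omega
    have h5 := lo (l - 1) l0 (by omega)
    have s1 := C.stc l
    have s2 := C.stc (l - 1)
    rw [sub_add_cancel] at s2
    have e1 := ev (l + 1)
    have e2 := ev (l - 1)
    have i := C.inj (l + 1) (l - 1)
    omega
  · rcases eq_or_lt_of_le (show j ≤ l by omega) with rfl | g
    · omega
    · have := lo (C.β - l) (by omega) (by omega)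
      have := mir l
      omega

end UC

namespace WD

variable {n m : ℤ} (W : WD 0 n m)

theorem pers (s l : ℤ) : (W.w (l + 2 * W.q * s)).1 = (W.w l).1 + s * n ∧
    (W.w (l + 2 * W.q * s)).2 = (W.w l).2 + s * n := by
  rw [per_mul W.per]
  simp

theorem symA' {i : ℤ} (h : 0 ≤ i) (h' : i ≤ W.q) :
    (W.w (-i)).1 = -(W.w i).2 ∧ (W.w (-i)).2 = (W.w i).1 := by
  rw [W.symA i h h']
  exact ⟨rfl, rfl⟩

theorem symB' {i : ℤ} (h : 0 ≤ i) (h' : i ≤ W.q) :
    (W.w (W.β - i)).1 = 2 * m - (W.w (W.β + i)).2 ∧ (W.w (W.β - i)).2 = (W.w (W.β + i)).1 := by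
  have := W.symB i h h'
  simp only [Prod.ext_iff, rotP1, Prod.fst_sub, Prod.snd_sub] at this
  omega

theorem gl5 (l : ℤ) : (W.w (l + W.q)).1 = (W.w l).2 ∧ (W.w (l + W.q)).2 = (W.w l).1 + n := by
  have hq := W.hβ
  have h1 := Int.mul_ediv_add_emod (l + W.q) (2 * W.q)
  have h2 := Int.emod_nonneg (l + W.q) (show 2 * W.q ≠ 0 by omega)
  have h3 := Int.emod_lt_of_pos (l + W.q) (show 0 < 2 * W.q by omega)
  generalize (l + W.q) / (2 * W.q) = s at h1
  obtain ⟨r, a, b, rfl⟩ : ∃ r, -W.q ≤ r ∧ r ≤ W.q ∧ l = r + 2 * W.q * s :=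
    ⟨(l + W.q) % (2 * W.q) - W.q, by omega, by omega, by omega⟩
  have h5 := W.pers s r
  have h6 := W.pers s (r + W.q)
  rw [add_right_comm]
  rcases le_total r 0 with c | c
  · have h7 := W.refl (-r) (by omega) (by omega)
    have h8 := W.symA' (i := -r) (by omega) (by omega)
    rw [neg_neg] at h8
    rw [show W.q - -r = r + W.q by ring] at h7
    omega
  · have h7 := W.refl r c b
    have h8 := W.symA' (i := W.q - r) (by omega) (by omega)
    have h9 := W.pers 1 (-(W.q - r))
    rw [show -(W.q - r) + 2 * W.q * 1 = r + W.q by ring] at h9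
    omega

theorem mir5 (l : ℤ) :
    (W.w (W.β - l)).1 = m - (W.w l).2 ∧ (W.w (W.β - l)).2 = m - (W.w l).1 := by
  have hq := W.hβ
  have up : ∀ t : ℕ, ∀ l : ℤ, 0 ≤ l → l ≤ t → l ≤ W.β + W.q →
      (W.w (W.β - l)).1 = m - (W.w l).2 ∧ (W.w (W.β - l)).2 = m - (W.w l).1 := by
    intro t
    induction t with
    | zero => exact fun l a b _ => W.mir l a (by omega)
    | succ t ih =>
      intro l a b c
      by_cases d : l ≤ W.β
      · exact W.mir l a d
      have h1 := ih (l - W.β) (by omega) (by omega) (by omega)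
      have h2 := W.symA' (i := l - W.β) (by omega) (by omega)
      have h3 := W.symB' (i := l - W.β) (by omega) (by omega)
      rw [neg_sub] at h2
      rw [add_sub_cancel] at h3
      omega
  have mid : ∀ l, -W.q ≤ l → l ≤ W.q →
      (W.w (W.β - l)).1 = m - (W.w l).2 ∧ (W.w (W.β - l)).2 = m - (W.w l).1 := by
    intro l a b
    rcases le_total 0 l with c | c
    · exact up l.toNat l c (by omega) (by omega)
    · have := up (W.β - l).toNat (W.β - l) (by omega) (by omega) (by omega)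
      rw [sub_sub_cancel] at this
      omega
  have h1 := Int.mul_ediv_add_emod (l + W.q) (2 * W.q)
  have h2 := Int.emod_nonneg (l + W.q) (show 2 * W.q ≠ 0 by omega)
  have h3 := Int.emod_lt_of_pos (l + W.q) (show 0 < 2 * W.q by omega)
  generalize (l + W.q) / (2 * W.q) = s at h1
  obtain ⟨r, a, b, rfl⟩ : ∃ r, -W.q ≤ r ∧ r ≤ W.q ∧ l = r + 2 * W.q * s :=
    ⟨(l + W.q) % (2 * W.q) - W.q, by omega, by omega, by omega⟩
  have h4 := mid r a b
  have h5 := W.pers s r
  have h6 := W.pers s (W.β - (r + 2 * W.q * s))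
  rw [show W.β - (r + 2 * W.q * s) + 2 * W.q * s = W.β - r by ring] at h6
  omega

theorem stp_mir (l : ℤ) : ∃ d, ((-(W.w (-(l + 1))).2, -(W.w (-(l + 1))).1) : Pt) =
    (-(W.w (-l)).2, -(W.w (-l)).1) + dv d := by
  have := (show Stp 0 _ _ from ⟨_, W.step (-(l + 1))⟩).symm.mirror
  rwa [show -(l + 1) + 1 = -l by ring] at this

/-- The mirror image of the curve, with the second centre moved by `k` periods. -/
noncomputable def mirU (k : ℤ) : UC (n, n) where
  w := fun l => (-(W.w (-l)).2, -(W.w (-l)).1)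
  d := fun l => (W.stp_mir l).choose
  q := W.q
  β := -W.β + 2 * W.q * k
  qpos := by have := W.hβ; omega
  step := fun l => (W.stp_mir l).choose_spec
  w0 := by simp [W.w0]
  per := fun l => by
    have := W.per (-(l + 2 * W.q))
    rw [show -(l + 2 * W.q) + 2 * W.q = -l by ring] at this
    rw [this]
    ext <;> simp
  inj := fun l l' a b => by
    simp only [neg_inj] at a b
    exact neg_injective (W.inj _ _ (Prod.ext b a))
  symA := fun i a b => by
    have := W.symA' a b
    simp only [neg_neg]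
    omega
  symB := fun i a b => by
    have := W.symB' a b
    have h0 := W.pers (-k) W.β
    have h1 := W.pers (-k) (W.β + i)
    have h2 := W.pers (-k) (W.β - i)
    rw [W.wβ] at h0
    rw [show -(-W.β + 2 * W.q * k - i) = W.β + i + 2 * W.q * -k by ring,
      show -(-W.β + 2 * W.q * k + i) = W.β - i + 2 * W.q * -k by ring,
      show -(-W.β + 2 * W.q * k) = W.β + 2 * W.q * -k by ring]
    simp only at h0 ⊢
    omega

end WD

end NP
end Pool.Agent.Lib.MP_4a7072_co
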