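import Pool.Agent.Lib.MP_4a7072_co.F5Defs

/-!
The vertices of the three lattices are marked or lie outside.
-/

set_option autoImplicit false
set_option linter.unnecessarySeqFocus false
set_option linter.unusedSimpArgs false
set_option linter.unusedVariables false
set_option linter.unreachableTactic false
set_option linter.unusedTactic false

namespace Pool.Agent.Lib.MP_4a7072_co
namespace NP


namespace D5

variable (D : D5)

theorem cov_h0 : 3 * D.a < D.b ∧ 2 ≤ D.u ∧ D.u < D.a ∧ 0 ≤ D.s ∧ 2 * D.s < D.a ∧ D.s ≤ D.u := by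
  obtain ⟨-, -, h3, h4, h5, h6, h7, -⟩ := D.aux
  refine ⟨h4, by omega, h6, ?_⟩
  clear h3
  omega

theorem cov_h1 : 0 ≤ D.e ∧ D.e ≤ 1 ∧ 0 ≤ D.t ∧ D.t < D.a ∧ D.t + 2 * D.s ≤ D.a ∧
    -D.s ≤ D.b - 1 - 2 * D.p ∧ D.b - 1 - 2 * D.p ≤ 2 * D.a + D.s := by
  obtain ⟨-, -, -, -, h5, h6, h7, h8, h9, -⟩ := D.aux
  refine ⟨?_, ?_, ?_, ?_, ?_, h8, h9⟩ <;> omega

theorem covA1 (ht : 0 < D.t) (m n : ℤ) : (0 + (m * D.a - n * 0), 0 + (m * 0 + n * D.a)) ∈ D.KA1 ∨
    OutE D.EA (0 + (m * D.a - n * 0)) (0 + (m * 0 + n * D.a)) := by
  have hx := D.cov_h0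
  have l : ∀ {m c : ℤ}, m ≤ c → 1 * (m * D.a) ≤ 1 * (c * D.a) := fun h =>
    by linarith [mul_le_mul_of_nonneg_right h (show 0 ≤ D.a by omega)]
  rcases (by omega : n ≤ -4 ∨ n = -3 ∨ n = -2 ∨ n = -1 ∨ n = 0 ∨ n = 1 ∨ 2 ≤ n) with hn | rfl | rfl | rfl | rfl | rfl | hn <;>
  rcases (by omega : m ≤ -4 ∨ m = -3 ∨ m = -2 ∨ m = -1 ∨ m = 0 ∨ m = 1 ∨ m = 2 ∨ m = 3 ∨ 4 ≤ m) with hm | rfl | rfl | rfl | rfl | rfl | rfl | rfl | hm
  all_goals
    try have gn := l hn
    try have gm := l hm
    try clear hn
    try clear hm
    clear l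
  · refine .inr ?_
    refine .rayE fun V _ h => ?_
    have := h.lin.2.2.2.1; omega
  · refine .inr ?_
    refine .rayE fun V _ h => ?_
    have := h.lin.2.2.2.1; omega
  · refine .inr ?_
    refine .rayE fun V _ h => ?_
    have := h.lin.2.2.2.1; omega
  · refine .inr ?_
    refine .rayE fun V _ h => ?_
    have := h.lin.2.2.2.1; omega
  · refine .inr ?_
    refine .rayE fun V _ h => ?_
    have := h.lin.2.2.2.1; omega
  · refine .inr ?_
    refine .rayE fun V _ h => ?_
    have := h.lin.2.2.2.1; omega
  · refine .inr ?_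
    refine .rayE fun V _ h => ?_
    have := h.lin.2.2.2.1; omega
  · refine .inr ?_
    refine .rayE fun V _ h => ?_
    have := h.lin.2.2.2.1; omega
  · refine .inr ?_
    refine .rayE fun V _ h => ?_
    have := h.lin.1; omega
  · refine .inr ?_
    refine .rayN fun V _ h => ?_
    have := h.lin.2.1; omega
  · refine .inr ?_
    refine .rayW fun V _ h => ?_
    have := h.lin.2.2.2.2.2.1; omega
  · refine .inr ?_
    refine .rayW fun V _ h => ?_
    have := h.lin.2.2.2.2.2.1; omega
  · refine .inr ?_
    refine .rayW fun V _ h => ?_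
    have := h.lin.2.2.2.2.2.1; omega
  · refine .inr ?_
    refine .rayW fun V _ h => ?_
    rcases h with h | h
    · rcases h with ((h | h) | h) | h
      · have := h.lin.2.2.2.1; omega
      · rcases h with (h | h) | h
        · have := D.aux; have := h.lin.1; omega
        · have := h.lin.2.2; omega
        · have := D.cov_h1; have := h.lin.2.1; omega
      · rcases h with (h | h) | h
        · have := h.lin.1; omega
        · have := h.lin.2.2; omega
        · have := h.lin.1; omega
      · have := h.lin.1; omega
    · have := D.cov_h1; have := h.lin.2.2.2.1; omega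
  · refine .inr ?_
    refine .rayE fun V _ h => ?_
    have := h.lin.2.2.2.2.2.2.2; omega
  · refine .inr ?_
    refine .rayE fun V _ h => ?_
    have := h.lin.2.2.2.2.2.2.2; omega
  · refine .inr ?_
    refine .rayE fun V _ h => ?_
    have := h.lin.2.2.2.2.2.2.2; omega
  · refine .inr ?_
    refine .rayE fun V _ h => ?_
    have := h.lin.1; omega
  · refine .inr ?_
    refine .rayN fun V _ h => ?_
    have := h.lin.2.1; omega
  · refine .inr ?_
    refine .rayW fun V _ h => ?_
    have := h.lin.2.2.2.2.2.1; omega
  · refine .inr ?_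
    refine .rayW fun V _ h => ?_
    have := h.lin.2.2.2.2.2.1; omega
  · exact .inl (.tail _ (.tail _ (.tail _ (.tail _ (.tail _ (.tail _ (mem_hd (by ring1) (by ring1))))))))
  · exact .inl (.tail _ (.tail _ (.tail _ (.tail _ (.tail _ (.tail _ (.tail _ (.tail _ (.tail _ (mem_hd (by ring1) (by ring1)))))))))))
  · refine .inr ?_
    refine .rayE fun V _ h => ?_
    rcases h with h | h
    · rcases h with ((h | h) | h) | h
      · have := h.lin.1; omega
      · have := h.lin.1; omega
      · rcases h with (h | h) | h
        · have := D.aux; have := h.lin; omega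
        · have := D.cov_h1; have := h.lin.2.1; omega
        · have := h.lin.2.2; omega
      · have := h.lin.1; omega
    · have := D.cov_h1; have := h.lin.2.2.2.1; omega
  · refine .inr ?_
    refine .rayE fun V _ h => ?_
    have := h.lin.2.2.2.2.2.2.2; omega
  · refine .inr ?_
    refine .rayE fun V _ h => ?_
    have := h.lin.2.2.2.2.2.2.2; omega
  · refine .inr ?_
    refine .rayE fun V _ h => ?_
    have := h.lin.1; omega
  · refine .inr ?_
    refine .rayN fun V _ h => ?_
    have := h.lin.2.1; omega
  · refine .inr ?_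
    refine .rayW fun V _ h => ?_
    have := h.lin.2.2.2.2.2.1; omega
  · refine .inr ?_
    refine .rayW fun V _ h => ?_
    rcases h with h | h
    · rcases h with ((h | h) | h) | h
      · have := h.lin.2.2.2.1; omega
      · rcases h with (h | h) | h
        · have := D.aux; have := h.lin; omega
        · have := h.lin.2.2; omega
        · have := h.lin.1; omega
      · have := h.lin.2.2.1; omega
      · have := h.lin.1; omega
    · have := h.lin.2.1; omega
  · refine .inr ?_
    refine .rayW fun V _ h => ?_
    rcases h with h | h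
    · rcases h with ((h | h) | h) | h
      · have := h.lin.2.2.2.1; omega
      · rcases h with (h | h) | h
        · have := D.aux; have := h.lin; omega
        · have := h.lin.2.2; omega
        · have := h.lin.1; omega
      · have := h.lin.2.2.1; omega
      · have := h.lin.1; omega
    · have := h.lin.2.1; omega
  · exact .inl (.tail _ (.tail _ (.tail _ (.tail _ (mem_hd (by ring1) (by ring1))))))
  · refine .inr ?_
    refine .rayS fun V _ h => ?_
    rcases h with h | h
    · rcases h with ((h | h) | h) | h
      · have := h.lin.1; omega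
      · have := h.lin.1; omega
      · rcases h with (h | h) | h
        · have := D.aux; have := h.lin; omega
        · have := h.lin.2.2; omega
        · have := h.lin.1; omega
      · have := h.lin.1; omega
    · have := D.cov_h1; have := h.lin.2.2.2.1; omega
  · exact .inl (.tail _ (.tail _ (.tail _ (.tail _ (.tail _ (.tail _ (.tail _ (mem_hd (by ring1) (by ring1)))))))))
  · refine .inr ?_
    refine .rayE fun V _ h => ?_
    have := h.lin.2.2.2.2.2.2.2; omega
  · refine .inr ?_
    refine .rayE fun V _ h => ?_
    have := h.lin.1; omega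
  · refine .inr ?_
    refine .rayN fun V _ h => ?_
    have := h.lin.2.1; omega
  · refine .inr ?_
    refine .rayN fun V _ h => ?_
    rcases h with h | h
    · rcases h with ((h | h) | h) | h
      · rcases h with (h | h) | h
        · have := D.aux; have := h.lin.1; omega
        · have := h.lin.2.2; omega
        · have := D.cov_h1; have := h.lin.2.1; omega
      · rcases h with (h | h) | h
        · have := h.lin.1; omega
        · have := h.lin.2.2; omega
        · have := h.lin.1; omega
      · have := h.lin.2.2.1; omega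
      · have := h.lin.1; omega
    · have := h.lin.2.1; omega
  · exact .inl (.tail _ (.tail _ (.tail _ (.tail _ (.tail _ (.tail _ (.tail _ (.tail _ (mem_hd (by ring1) (by ring1))))))))))
  · exact .inl (.tail _ (.tail _ (.tail _ (mem_hd (by ring1) (by ring1)))))
  · exact .inl (.tail _ (mem_hd (by ring1) (by ring1)))
  · exact .inl (mem_hd (by ring1) (by ring1))
  · exact .inl (.tail _ (.tail _ (.tail _ (.tail _ (.tail _ (.tail _ (.tail _ (.tail _ (.tail _ (.tail _ (mem_hd (by ring1) (by ring1))))))))))))
  · refine .inr ?_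
    refine .rayE fun V _ h => ?_
    rcases h with h | h
    · rcases h with ((h | h) | h) | h
      · have := h.lin.1; omega
      · have := h.lin.1; omega
      · rcases h with (h | h) | h
        · have := h.lin.1; omega
        · have := h.lin.2.2; omega
        · have := D.cov_h1; have := h.lin.2.1; omega
      · have := h.lin.1; omega
    · have := h.lin.1; omega
  · refine .inr ?_
    refine .rayE fun V _ h => ?_
    have := h.lin.1; omega
  · refine .inr ?_
    refine .rayN fun V _ h => ?_
    have := h.lin.2.1; omega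
  · refine .inr ?_
    refine .rayN fun V _ h => ?_
    have := h.lin.2.2.2.2.2.2.1; omega
  · exact .inl (.tail _ (.tail _ (.tail _ (.tail _ (.tail _ (mem_hd (by ring1) (by ring1)))))))
  · refine .inr ?_
    refine .rayN fun V _ h => ?_
    rcases h with h | h
    · rcases h with ((h | h) | h) | h
      · rcases h with (h | h) | h
        · have := D.aux; have := h.lin.1; omega
        · have := h.lin.2.2; omega
        · have := h.lin.1; omega
      · have := h.lin.2.2.1; omega
      · have := h.lin.1; omega
      · have := h.lin.1; omega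
    · have := h.lin.2.1; omega
  · exact .inl (.tail _ (.tail _ (mem_hd (by ring1) (by ring1))))
  · refine .inr ?_
    refine .rayE fun V _ h => ?_
    rcases h with h | h
    · rcases h with ((h | h) | h) | h
      · have := h.lin.1; omega
      · have := h.lin.1; omega
      · have := h.lin.1; omega
      · have := D.aux; have := h.lin; omega
    · have := D.cov_h1; have := h.lin.2.2.2.2.1; omega
  · refine .inr ?_
    refine .rayE fun V _ h => ?_
    rcases h with h | h
    · rcases h with ((h | h) | h) | h
      · have := h.lin.1; omega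
      · have := h.lin.1; omega
      · have := h.lin.1; omega
      · have := D.aux; have := h.lin; omega
    · have := h.lin.1; omega
  · refine .inr ?_
    refine .rayE fun V _ h => ?_
    have := h.lin.2.2.2.2.1; omega
  · refine .inr ?_
    refine .rayE fun V _ h => ?_
    have := h.lin.1; omega
  · refine .inr ?_
    refine .rayE fun V _ h => ?_
    have := h.lin.2.2.1; omega
  · refine .inr ?_
    refine .rayE fun V _ h => ?_
    have := h.lin.2.2.1; omega
  · refine .inr ?_
    refine .rayE fun V _ h => ?_
    have := h.lin.2.2.1; omega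
  · refine .inr ?_
    refine .rayE fun V _ h => ?_
    have := h.lin.2.2.1; omega
  · refine .inr ?_
    refine .rayE fun V _ h => ?_
    have := h.lin.2.2.1; omega
  · refine .inr ?_
    refine .rayE fun V _ h => ?_
    have := h.lin.2.2.1; omega
  · refine .inr ?_
    refine .rayE fun V _ h => ?_
    have := h.lin.2.2.1; omega
  · refine .inr ?_
    refine .rayE fun V _ h => ?_
    have := h.lin.2.2.1; omega
  · refine .inr ?_
    refine .rayE fun V _ h => ?_
    have := h.lin.1; omega

theorem covA0 (ht : D.t = 0) (m n : ℤ) : (0 + (m * D.a - n * 0), 0 + (m * 0 + n * D.a)) ∈ D.KA0 ∨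
    OutE D.EA (0 + (m * D.a - n * 0)) (0 + (m * 0 + n * D.a)) := by
  have hx := D.cov_h0
  have l : ∀ {m c : ℤ}, m ≤ c → 1 * (m * D.a) ≤ 1 * (c * D.a) := fun h =>
    by linarith [mul_le_mul_of_nonneg_right h (show 0 ≤ D.a by omega)]
  rcases (by omega : n ≤ -4 ∨ n = -3 ∨ n = -2 ∨ n = -1 ∨ n = 0 ∨ n = 1 ∨ 2 ≤ n) with hn | rfl | rfl | rfl | rfl | rfl | hn <;>
  rcases (by omega : m ≤ -4 ∨ m = -3 ∨ m = -2 ∨ m = -1 ∨ m = 0 ∨ m = 1 ∨ m = 2 ∨ m = 3 ∨ 4 ≤ m) with hm | rfl | rfl | rfl | rfl | rfl | rfl | rfl | hm
  all_goals
    try have gn := l hn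
    try have gm := l hm
    try clear hn
    try clear hm
    clear l
  · refine .inr ?_
    refine .rayE fun V _ h => ?_
    have := h.lin.2.2.2.1; omega
  · refine .inr ?_
    refine .rayE fun V _ h => ?_
    have := h.lin.2.2.2.1; omega
  · refine .inr ?_
    refine .rayE fun V _ h => ?_
    have := h.lin.2.2.2.1; omega
  · refine .inr ?_
    refine .rayE fun V _ h => ?_
    have := h.lin.2.2.2.1; omega
  · refine .inr ?_
    refine .rayE fun V _ h => ?_
    have := h.lin.2.2.2.1; omega
  · refine .inr ?_
    refine .rayE fun V _ h => ?_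
    have := h.lin.2.2.2.1; omega
  · refine .inr ?_
    refine .rayE fun V _ h => ?_
    have := h.lin.2.2.2.1; omega
  · refine .inr ?_
    refine .rayE fun V _ h => ?_
    have := h.lin.2.2.2.1; omega
  · refine .inr ?_
    refine .rayE fun V _ h => ?_
    have := h.lin.1; omega
  · refine .inr ?_
    refine .rayN fun V _ h => ?_
    have := h.lin.2.1; omega
  · refine .inr ?_
    refine .rayW fun V _ h => ?_
    have := h.lin.2.2.2.2.2.1; omega
  · refine .inr ?_
    refine .rayW fun V _ h => ?_
    have := h.lin.2.2.2.2.2.1; omega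
  · refine .inr ?_
    refine .rayW fun V _ h => ?_
    have := h.lin.2.2.2.2.2.1; omega
  · refine .inr ?_
    refine .rayW fun V _ h => ?_
    rcases h with h | h
    · rcases h with ((h | h) | h) | h
      · have := h.lin.2.2.2.1; omega
      · rcases h with (h | h) | h
        · have := D.aux; have := h.lin.1; omega
        · have := h.lin.2.2; omega
        · have := h.lin.2.1; omega
      · rcases h with (h | h) | h
        · have := h.lin.1; omega
        · have := h.lin.2.1; omega
        · have := h.lin.1; omega
      · have := h.lin.1; omega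
    · have := D.cov_h1; have := h.lin.2.2.2.1; omega
  · refine .inr ?_
    refine .rayE fun V _ h => ?_
    have := h.lin.2.2.2.2.2.2.2; omega
  · refine .inr ?_
    refine .rayE fun V _ h => ?_
    have := h.lin.2.2.2.2.2.2.2; omega
  · refine .inr ?_
    refine .rayE fun V _ h => ?_
    have := h.lin.2.2.2.2.2.2.2; omega
  · refine .inr ?_
    refine .rayE fun V _ h => ?_
    have := h.lin.1; omega
  · refine .inr ?_
    refine .rayN fun V _ h => ?_
    have := h.lin.2.1; omega
  · refine .inr ?_
    refine .rayW fun V _ h => ?_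
    have := h.lin.2.2.2.2.2.1; omega
  · refine .inr ?_
    refine .rayW fun V _ h => ?_
    have := h.lin.2.2.2.2.2.1; omega
  · exact .inl (.tail _ (.tail _ (.tail _ (.tail _ (.tail _ (.tail _ (mem_hd (by ring1) (by ring1))))))))
  · exact .inl (.tail _ (.tail _ (.tail _ (.tail _ (.tail _ (.tail _ (.tail _ (.tail _ (.tail _ (.tail _ (.tail _ (.tail _ (mem_hd (by ring1) (by ring1))))))))))))))
  · refine .inr ?_
    refine .rayE fun V _ h => ?_
    rcases h with h | h
    · rcases h with ((h | h) | h) | h
      · have := h.lin.1; omega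
      · have := h.lin.1; omega
      · rcases h with (h | h) | h
        · have := D.aux; have := h.lin.1; omega
        · have := h.lin.2.1; omega
        · have := h.lin.2.2; omega
      · have := h.lin.1; omega
    · have := D.cov_h1; have := h.lin.2.2.2.1; omega
  · refine .inr ?_
    refine .rayE fun V _ h => ?_
    have := h.lin.2.2.2.2.2.2.2; omega
  · refine .inr ?_
    refine .rayE fun V _ h => ?_
    have := h.lin.2.2.2.2.2.2.2; omega
  · refine .inr ?_
    refine .rayE fun V _ h => ?_
    have := h.lin.1; omega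
  · refine .inr ?_
    refine .rayN fun V _ h => ?_
    have := h.lin.2.1; omega
  · refine .inr ?_
    refine .rayW fun V _ h => ?_
    have := h.lin.2.2.2.2.2.1; omega
  · refine .inr ?_
    refine .rayW fun V _ h => ?_
    rcases h with h | h
    · rcases h with ((h | h) | h) | h
      · have := h.lin.2.2.2.1; omega
      · rcases h with (h | h) | h
        · have := D.aux; have := h.lin.1; omega
        · have := h.lin.2.1; omega
        · have := h.lin.1; omega
      · have := h.lin.2.2.1; omega
      · have := h.lin.1; omega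
    · have := h.lin.2.1; omega
  · exact .inl (.tail _ (.tail _ (.tail _ (.tail _ (.tail _ (.tail _ (.tail _ (.tail _ (.tail _ (mem_hd (by ring1) (by ring1)))))))))))
  · exact .inl (.tail _ (.tail _ (.tail _ (.tail _ (mem_hd (by ring1) (by ring1))))))
  · exact .inl (.tail _ (.tail _ (.tail _ (.tail _ (.tail _ (.tail _ (.tail _ (.tail _ (.tail _ (.tail _ (mem_hd (by ring1) (by ring1))))))))))))
  · exact .inl (.tail _ (.tail _ (.tail _ (.tail _ (.tail _ (.tail _ (.tail _ (mem_hd (by ring1) (by ring1)))))))))
  · refine .inr ?_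
    refine .rayE fun V _ h => ?_
    have := h.lin.2.2.2.2.2.2.2; omega
  · refine .inr ?_
    refine .rayE fun V _ h => ?_
    have := h.lin.1; omega
  · refine .inr ?_
    refine .rayN fun V _ h => ?_
    have := h.lin.2.1; omega
  · refine .inr ?_
    refine .rayN fun V _ h => ?_
    rcases h with h | h
    · rcases h with ((h | h) | h) | h
      · rcases h with (h | h) | h
        · have := D.aux; have := h.lin.1; omega
        · have := h.lin.2.2; omega
        · have := h.lin.2.1; omega
      · rcases h with (h | h) | h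
        · have := h.lin.1; omega
        · have := h.lin.2.1; omega
        · have := h.lin.1; omega
      · have := h.lin.2.2.1; omega
      · have := h.lin.1; omega
    · have := h.lin.2.1; omega
  · exact .inl (.tail _ (.tail _ (.tail _ (.tail _ (.tail _ (.tail _ (.tail _ (.tail _ (.tail _ (.tail _ (.tail _ (mem_hd (by ring1) (by ring1)))))))))))))
  · exact .inl (.tail _ (.tail _ (.tail _ (mem_hd (by ring1) (by ring1)))))
  · exact .inl (.tail _ (mem_hd (by ring1) (by ring1)))
  · exact .inl (mem_hd (by ring1) (by ring1))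
  · exact .inl (.tail _ (.tail _ (.tail _ (.tail _ (.tail _ (.tail _ (.tail _ (.tail _ (.tail _ (.tail _ (.tail _ (.tail _ (.tail _ (mem_hd (by ring1) (by ring1)))))))))))))))
  · refine .inr ?_
    refine .rayE fun V _ h => ?_
    rcases h with h | h
    · rcases h with ((h | h) | h) | h
      · have := h.lin.1; omega
      · have := h.lin.1; omega
      · rcases h with (h | h) | h
        · have := h.lin.1; omega
        · have := h.lin.2.2; omega
        · have := h.lin.2.1; omega
      · have := h.lin.1; omega
    · have := h.lin.1; omega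
  · refine .inr ?_
    refine .rayE fun V _ h => ?_
    have := h.lin.1; omega
  · refine .inr ?_
    refine .rayN fun V _ h => ?_
    have := h.lin.2.1; omega
  · refine .inr ?_
    refine .rayN fun V _ h => ?_
    have := h.lin.2.2.2.2.2.2.1; omega
  · exact .inl (.tail _ (.tail _ (.tail _ (.tail _ (.tail _ (mem_hd (by ring1) (by ring1)))))))
  · exact .inl (.tail _ (.tail _ (.tail _ (.tail _ (.tail _ (.tail _ (.tail _ (.tail _ (mem_hd (by ring1) (by ring1))))))))))
  · exact .inl (.tail _ (.tail _ (mem_hd (by ring1) (by ring1))))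
  · refine .inr ?_
    refine .rayE fun V _ h => ?_
    rcases h with h | h
    · rcases h with ((h | h) | h) | h
      · have := h.lin.1; omega
      · have := h.lin.1; omega
      · have := h.lin.1; omega
      · have := D.aux; have := h.lin.1; omega
    · have := D.cov_h1; have := h.lin.2.2.2.2.1; omega
  · refine .inr ?_
    refine .rayE fun V _ h => ?_
    rcases h with h | h
    · rcases h with ((h | h) | h) | h
      · have := h.lin.1; omega
      · have := h.lin.1; omega
      · have := h.lin.1; omega
      · have := D.aux; have := h.lin.1; omega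
    · have := h.lin.1; omega
  · refine .inr ?_
    refine .rayE fun V _ h => ?_
    have := h.lin.2.2.2.2.1; omega
  · refine .inr ?_
    refine .rayE fun V _ h => ?_
    have := h.lin.1; omega
  · refine .inr ?_
    refine .rayE fun V _ h => ?_
    have := h.lin.2.2.1; omega
  · refine .inr ?_
    refine .rayE fun V _ h => ?_
    have := h.lin.2.2.1; omega
  · refine .inr ?_
    refine .rayE fun V _ h => ?_
    have := h.lin.2.2.1; omega
  · refine .inr ?_
    refine .rayE fun V _ h => ?_
    have := h.lin.2.2.1; omega
  · refine .inr ?_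
    refine .rayE fun V _ h => ?_
    have := h.lin.2.2.1; omega
  · refine .inr ?_
    refine .rayE fun V _ h => ?_
    have := h.lin.2.2.1; omega
  · refine .inr ?_
    refine .rayE fun V _ h => ?_
    have := h.lin.2.2.1; omega
  · refine .inr ?_
    refine .rayE fun V _ h => ?_
    have := h.lin.2.2.1; omega
  · refine .inr ?_
    refine .rayE fun V _ h => ?_
    have := h.lin.1; omega

theorem memA1 : ∀ W ∈ D.KA1, ∃ m n : ℤ, W.1 = 0 + (m * D.a - n * 0) ∧ W.2 = 0 + (m * 0 + n * D.a) := by
  have hx := D.cov_h0
  intro W h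
  simp only [KA1, List.mem_cons, List.not_mem_nil, or_false] at h
  rcases h with rfl | rfl | rfl | rfl | rfl | rfl | rfl | rfl | rfl | rfl | rfl | rfl | rfl | rfl
  · exact ⟨1, 0, by dsimp only; ring1, by dsimp only; ring1⟩
  · exact ⟨0, 0, by dsimp only; ring1, by dsimp only; ring1⟩
  · exact ⟨0, 1, by dsimp only; ring1, by dsimp only; ring1⟩
  · exact ⟨-1, 0, by dsimp only; ring1, by dsimp only; ring1⟩
  · exact ⟨0, -1, by dsimp only; ring1, by dsimp only; ring1⟩
  · exact ⟨-2, 1, by dsimp only; ring1, by dsimp only; ring1⟩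
  · exact ⟨-1, -2, by dsimp only; ring1, by dsimp only; ring1⟩
  · exact ⟨2, -1, by dsimp only; ring1, by dsimp only; ring1⟩
  · exact ⟨-2, 0, by dsimp only; ring1, by dsimp only; ring1⟩
  · exact ⟨0, -2, by dsimp only; ring1, by dsimp only; ring1⟩
  · exact ⟨2, 0, by dsimp only; ring1, by dsimp only; ring1⟩
  · exact ⟨-2, 0, by dsimp only; ring1, by dsimp only; ring1⟩
  · exact ⟨0, -2, by dsimp only; ring1, by dsimp only; ring1⟩
  · exact ⟨2, 0, by dsimp only; ring1, by dsimp only; ring1⟩

theorem memA0 : ∀ W ∈ D.KA0, ∃ m n : ℤ, W.1 = 0 + (m * D.a - n * 0) ∧ W.2 = 0 + (m * 0 + n * D.a) := by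
  have hx := D.cov_h0
  intro W h
  simp only [KA0, List.mem_cons, List.not_mem_nil, or_false] at h
  rcases h with rfl | rfl | rfl | rfl | rfl | rfl | rfl | rfl | rfl | rfl | rfl | rfl | rfl | rfl
  · exact ⟨1, 0, by dsimp only; ring1, by dsimp only; ring1⟩
  · exact ⟨0, 0, by dsimp only; ring1, by dsimp only; ring1⟩
  · exact ⟨0, 1, by dsimp only; ring1, by dsimp only; ring1⟩
  · exact ⟨-1, 0, by dsimp only; ring1, by dsimp only; ring1⟩
  · exact ⟨0, -1, by dsimp only; ring1, by dsimp only; ring1⟩
  · exact ⟨-2, 1, by dsimp only; ring1, by dsimp only; ring1⟩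
  · exact ⟨-1, -2, by dsimp only; ring1, by dsimp only; ring1⟩
  · exact ⟨2, -1, by dsimp only; ring1, by dsimp only; ring1⟩
  · exact ⟨-1, 1, by dsimp only; ring1, by dsimp only; ring1⟩
  · exact ⟨-1, -1, by dsimp only; ring1, by dsimp only; ring1⟩
  · exact ⟨1, -1, by dsimp only; ring1, by dsimp only; ring1⟩
  · exact ⟨-2, 0, by dsimp only; ring1, by dsimp only; ring1⟩
  · exact ⟨0, -2, by dsimp only; ring1, by dsimp only; ring1⟩
  · exact ⟨2, 0, by dsimp only; ring1, by dsimp only; ring1⟩

theorem covB (m n : ℤ) : ((D.a - 2 * D.b) + (m * D.b - n * 0), (-2 * D.a - D.b) + (m * 0 + n * D.b)) ∈ D.KB ∨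
    OutE D.EB ((D.a - 2 * D.b) + (m * D.b - n * 0)) ((-2 * D.a - D.b) + (m * 0 + n * D.b)) := by
  have hx := D.cov_h0
  have l : ∀ {m c : ℤ}, m ≤ c → 1 * (m * D.b) ≤ 1 * (c * D.b) := fun h =>
    by linarith [mul_le_mul_of_nonneg_right h (show 0 ≤ D.b by omega)]
  rcases (by omega : n ≤ -3 ∨ n = -2 ∨ n = -1 ∨ n = 0 ∨ n = 1 ∨ n = 2 ∨ 3 ≤ n) with hn | rfl | rfl | rfl | rfl | rfl | hn <;>
  rcases (by omega : m ≤ -3 ∨ m = -2 ∨ m = -1 ∨ m = 0 ∨ m = 1 ∨ 2 ≤ m) with hm | rfl | rfl | rfl | rfl | hm
  all_goals
    try have gn := l hn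
    try have gm := l hm
    try clear hn
    try clear hm
    clear l
  · refine .inr ?_
    refine .rayE fun V _ h => ?_
    have := h.lin.2.2.2.1; omega
  · refine .inr ?_
    refine .rayE fun V _ h => ?_
    have := h.lin.2.2.2.1; omega
  · refine .inr ?_
    refine .rayE fun V _ h => ?_
    have := h.lin.2.2.2.1; omega
  · refine .inr ?_
    refine .rayE fun V _ h => ?_
    have := h.lin.2.2.2.1; omega
  · refine .inr ?_
    refine .rayE fun V _ h => ?_
    have := h.lin.2.2.2.1; omega
  · refine .inr ?_
    refine .rayE fun V _ h => ?_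
    have := h.lin.1; omega
  · refine .inr ?_
    refine .rayN fun V _ h => ?_
    have := h.lin.2.1; omega
  · refine .inr ?_
    refine .rayW fun V _ h => ?_
    have := h.lin.2.2.2.2.2.1; omega
  · exact .inl (.tail _ (.tail _ (.tail _ (.tail _ (.tail _ (.tail _ (.tail _ (mem_hd (by ring1) (by ring1)))))))))
  · refine .inr ?_
    refine .rayE fun V _ h => ?_
    rcases h with h | h
    · rcases h with (h | h) | h
      · have := h.lin.2.2.2.2.2.2.2; omega
      · have := h.lin.2.1; omega
      · have := h.lin.2.2.2.2.2.2.1; omega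
    · have := h.lin.2.2.2.1; omega
  · refine .inr ?_
    refine .rayE fun V _ h => ?_
    have := h.lin.2.2.2.2.2.2.2; omega
  · refine .inr ?_
    refine .rayE fun V _ h => ?_
    have := h.lin.1; omega
  · refine .inr ?_
    refine .rayN fun V _ h => ?_
    have := h.lin.2.1; omega
  · refine .inr ?_
    refine .rayW fun V _ h => ?_
    rcases h with h | h
    · rcases h with (h | h) | h
      · have := h.lin.2.1; omega
      · have := h.lin.2.1; omega
      · have := h.lin.1; omega
    · have := h.lin.2.1; omega
  · exact .inl (.tail _ (.tail _ (.tail _ (.tail _ (.tail _ (.tail _ (.tail _ (.tail _ (.tail _ (.tail _ (mem_hd (by ring1) (by ring1))))))))))))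
  · exact .inl (mem_hd (by ring1) (by ring1))
  · refine .inr ?_
    refine .rayE fun V _ h => ?_
    rcases h with h | h
    · rcases h with (h | h) | h
      · have := h.lin.2.2.2.2.2.2.2; omega
      · have := h.lin.2.1; omega
      · have := h.lin.2.1; omega
    · have := h.lin.2.2.2.2.2.2.2; omega
  · refine .inr ?_
    refine .rayE fun V _ h => ?_
    have := h.lin.1; omega
  · refine .inr ?_
    refine .rayN fun V _ h => ?_
    have := h.lin.2.1; omega
  · refine .inr ?_
    refine .rayW fun V _ h => ?_
    rcases h with h | h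
    · rcases h with (h | h) | h
      · have := h.lin.2.1; omega
      · have := h.lin.2.2.2.2.2.2.1; omega
      · have := h.lin.1; omega
    · have := h.lin.2.1; omega
  · exact .inl (.tail _ (.tail _ (.tail _ (.tail _ (mem_hd (by ring1) (by ring1))))))
  · exact .inl (.tail _ (mem_hd (by ring1) (by ring1)))
  · exact .inl (.tail _ (.tail _ (mem_hd (by ring1) (by ring1))))
  · refine .inr ?_
    refine .rayE fun V _ h => ?_
    have := h.lin.1; omega
  · refine .inr ?_
    refine .rayN fun V _ h => ?_
    have := h.lin.2.1; omega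
  · exact .inl (.tail _ (.tail _ (.tail _ (.tail _ (.tail _ (.tail _ (mem_hd (by ring1) (by ring1))))))))
  · exact .inl (.tail _ (.tail _ (.tail _ (.tail _ (.tail _ (.tail _ (.tail _ (.tail _ (.tail _ (mem_hd (by ring1) (by ring1)))))))))))
  · exact .inl (.tail _ (.tail _ (.tail _ (mem_hd (by ring1) (by ring1)))))
  · exact .inl (.tail _ (.tail _ (.tail _ (.tail _ (.tail _ (.tail _ (.tail _ (.tail _ (mem_hd (by ring1) (by ring1))))))))))
  · refine .inr ?_
    refine .rayE fun V _ h => ?_
    have := h.lin.1; omega
  · refine .inr ?_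
    refine .rayN fun V _ h => ?_
    have := h.lin.2.1; omega
  · refine .inr ?_
    refine .rayN fun V _ h => ?_
    have := h.lin.2.2.2.2.2.2.1; omega
  · refine .inr ?_
    refine .rayN fun V _ h => ?_
    rcases h with h | h
    · rcases h with (h | h) | h
      · have := h.lin.2.1; omega
      · have := h.lin.1; omega
      · have := h.lin.2.2.2.2.2.1; omega
    · have := h.lin.2.1; omega
  · refine .inr ?_
    refine .rayN fun V _ h => ?_
    rcases h with h | h
    · rcases h with (h | h) | h
      · have := h.lin.2.2.2.2.2.2.1; omega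
      · have := h.lin.1; omega
      · have := h.lin.2.2.2.2.2.1; omega
    · have := h.lin.2.2.1; omega
  · exact .inl (.tail _ (.tail _ (.tail _ (.tail _ (.tail _ (mem_hd (by ring1) (by ring1)))))))
  · refine .inr ?_
    refine .rayE fun V _ h => ?_
    have := h.lin.1; omega
  · refine .inr ?_
    refine .rayE fun V _ h => ?_
    have := h.lin.2.2.1; omega
  · refine .inr ?_
    refine .rayE fun V _ h => ?_
    have := h.lin.2.2.1; omega
  · refine .inr ?_
    refine .rayE fun V _ h => ?_
    have := h.lin.2.2.1; omega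
  · refine .inr ?_
    refine .rayE fun V _ h => ?_
    have := h.lin.2.2.1; omega
  · refine .inr ?_
    refine .rayE fun V _ h => ?_
    have := h.lin.2.2.1; omega
  · refine .inr ?_
    refine .rayE fun V _ h => ?_
    have := h.lin.1; omega

theorem memB : ∀ W ∈ D.KB, ∃ m n : ℤ, W.1 = (D.a - 2 * D.b) + (m * D.b - n * 0) ∧ W.2 = (-2 * D.a - D.b) + (m * 0 + n * D.b) := by
  have hx := D.cov_h0
  intro W h
  simp only [KB, List.mem_cons, List.not_mem_nil, or_false] at h
  rcases h with rfl | rfl | rfl | rfl | rfl | rfl | rfl | rfl | rfl | rfl | rfl | rfl | rfl | rfl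
  · exact ⟨0, -1, by dsimp only; ring1, by dsimp only; ring1⟩
  · exact ⟨0, 0, by dsimp only; ring1, by dsimp only; ring1⟩
  · exact ⟨1, 0, by dsimp only; ring1, by dsimp only; ring1⟩
  · exact ⟨0, 1, by dsimp only; ring1, by dsimp only; ring1⟩
  · exact ⟨-1, 0, by dsimp only; ring1, by dsimp only; ring1⟩
  · exact ⟨1, 2, by dsimp only; ring1, by dsimp only; ring1⟩
  · exact ⟨-2, 1, by dsimp only; ring1, by dsimp only; ring1⟩
  · exact ⟨-1, -2, by dsimp only; ring1, by dsimp only; ring1⟩
  · exact ⟨1, 1, by dsimp only; ring1, by dsimp only; ring1⟩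
  · exact ⟨-1, 1, by dsimp only; ring1, by dsimp only; ring1⟩
  · exact ⟨-1, -1, by dsimp only; ring1, by dsimp only; ring1⟩
  · exact ⟨1, 1, by dsimp only; ring1, by dsimp only; ring1⟩
  · exact ⟨-1, 1, by dsimp only; ring1, by dsimp only; ring1⟩
  · exact ⟨-1, -1, by dsimp only; ring1, by dsimp only; ring1⟩

theorem covC (m n : ℤ) : (0 + (m * D.b - n * D.a), 0 + (m * D.a + n * D.b)) ∈ D.KC ∨
    OutE D.EC (0 + (m * D.b - n * D.a)) (0 + (m * D.a + n * D.b)) := by
  have hx := D.cov_h0
  have l : ∀ {m c : ℤ}, m ≤ c → 1 * (m * D.a) ≤ 1 * (c * D.a) ∧ 1 * (m * D.b) + (-3) * (m * D.a) ≤ 1 * (c * D.b) + (-3) * (c * D.a) := fun h =>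
    ⟨by linarith [mul_le_mul_of_nonneg_right h (show 0 ≤ D.a by omega)], by linarith [mul_le_mul_of_nonneg_right h (show 0 ≤ D.b - 3 * D.a by omega)]⟩
  rcases (by omega : n ≤ -3 ∨ n = -2 ∨ n = -1 ∨ n = 0 ∨ 1 ≤ n) with hn | rfl | rfl | rfl | hn <;>
  rcases (by omega : m ≤ -4 ∨ m = -3 ∨ m = -2 ∨ m = -1 ∨ m = 0 ∨ 1 ≤ m) with hm | rfl | rfl | rfl | rfl | hm
  all_goals
    try have gn := l hn
    try have gm := l hm
    try clear hn
    try clear hm
    clear l
  · refine .inr ?_
    refine .rayE fun V _ h => ?_
    have := h.lin.2.2.2.1; omega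
  · refine .inr ?_
    refine .rayE fun V _ h => ?_
    rcases h with h | h
    · have := h.lin.2.2.2.1; omega
    · rcases h with h | h
      · have := h.lin.2.2.2.2.2.2.2; omega
      · have := h.lin.2.2; omega
  · refine .inr ?_
    refine .rayE fun V _ h => ?_
    rcases h with h | h
    · have := h.lin.2.2.2.1; omega
    · rcases h with h | h
      · have := h.lin.2.2.2.2.2.2.2; omega
      · have := h.lin.2.2.2.2.2.2.2; omega
  · refine .inr ?_
    refine .rayE fun V _ h => ?_
    have := D.cov_h1; have := h.lin.2.2.2.2.2.2.2; omega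
  · refine .inr ?_
    refine .rayE fun V _ h => ?_
    have := D.cov_h1; have := h.lin.2.2.2.2.2.2.2; omega
  · refine .inr ?_
    refine .rayE fun V _ h => ?_
    have := h.lin.1; omega
  · refine .inr ?_
    refine .rayW fun V _ h => ?_
    have := h.lin.2.2.2.2.2.1; omega
  · exact .inl (.tail _ (.tail _ (.tail _ (.tail _ (.tail _ (mem_hd (by ring1) (by ring1)))))))
  · refine .inr ?_
    refine .rayE fun V _ h => ?_
    rcases h with h | h
    · have := h.lin.2.2.2.1; omega
    · rcases h with h | h
      · rcases h with ((h | h) | h) | h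
        · have := h.lin.2.2.2.1; omega
        · have := h.lin.2.1; omega
        · have := h.lin.2.1; omega
        · have := h.lin.2.2.2.2.2.2.2; omega
      · have := h.lin.2.2; omega
  · refine .inr ?_
    refine .rayE fun V _ h => ?_
    rcases h with h | h
    · have := h.lin.2.2.2.1; omega
    · rcases h with h | h
      · have := h.lin.2.2.2.2.2.2.2; omega
      · have := h.lin.2.2.2.2.2.2.2; omega
  · refine .inr ?_
    refine .rayE fun V _ h => ?_
    rcases h with h | h
    · have := h.lin.2.2.2.1; omega
    · have := h.lin.1; omega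
  · refine .inr ?_
    refine .rayE fun V _ h => ?_
    have := h.lin.1; omega
  · refine .inr ?_
    refine .rayW fun V _ h => ?_
    rcases h with h | h
    · have := h.lin.2.1; omega
    · rcases h with h | h
      · rcases h with ((h | h) | h) | h
        · have := h.lin.2.1; omega
        · have := h.lin.2.1; omega
        · have := h.lin.1; omega
        · have := h.lin.2.1; omega
      · have := h.lin.2.2.2.2.2.1; omega
  · exact .inl (.tail _ (.tail _ (.tail _ (.tail _ (mem_hd (by ring1) (by ring1))))))
  · exact .inl (.tail _ (.tail _ (.tail _ (.tail _ (.tail _ (.tail _ (mem_hd (by ring1) (by ring1))))))))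
  · exact .inl (.tail _ (.tail _ (.tail _ (.tail _ (.tail _ (.tail _ (.tail _ (mem_hd (by ring1) (by ring1)))))))))
  · refine .inr ?_
    refine .rayE fun V _ h => ?_
    rcases h with h | h
    · have := h.lin.2.2.2.1; omega
    · have := h.lin.1; omega
  · refine .inr ?_
    refine .rayE fun V _ h => ?_
    have := h.lin.1; omega
  · refine .inr ?_
    refine .rayW fun V _ h => ?_
    rcases h with h | h
    · have := h.lin.2.1; omega
    · rcases h with h | h
      · rcases h with ((h | h) | h) | h
        · have := h.lin.2.1; omega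
        · have := h.lin.2.2.2.2.2.2.1; omega
        · have := h.lin.1; omega
        · have := h.lin.2.1; omega
      · have := h.lin.2.2.2.2.2.1; omega
  · exact .inl (.tail _ (.tail _ (.tail _ (mem_hd (by ring1) (by ring1)))))
  · exact .inl (.tail _ (.tail _ (mem_hd (by ring1) (by ring1))))
  · exact .inl (.tail _ (mem_hd (by ring1) (by ring1)))
  · exact .inl (mem_hd (by ring1) (by ring1))
  · refine .inr ?_
    refine .rayE fun V _ h => ?_
    have := h.lin.2.2.2.2.1; omega
  · refine .inr ?_
    refine .rayN fun V _ h => ?_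
    have := h.lin.2.1; omega
  · refine .inr ?_
    refine .rayN fun V _ h => ?_
    have := h.lin.2.2.2.2.2.2.1; omega
  · refine .inr ?_
    refine .rayN fun V _ h => ?_
    rcases h with h | h
    · have := h.lin.2.1; omega
    · rcases h with h | h
      · rcases h with ((h | h) | h) | h
        · have := h.lin.2.1; omega
        · have := h.lin.1; omega
        · have := h.lin.2.2.2.2.2.1; omega
        · have := h.lin.2.1; omega
      · have := h.lin.2.2.1; omega
  · refine .inr ?_
    refine .rayN fun V _ h => ?_
    rcases h with h | h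
    · have := h.lin.2.1; omega
    · rcases h with h | h
      · rcases h with ((h | h) | h) | h
        · have := h.lin.2.2.2.2.2.2.1; omega
        · have := h.lin.1; omega
        · have := h.lin.2.2.2.2.2.1; omega
        · have := h.lin.2.2.1; omega
      · have := h.lin.2.2.1; omega
  · refine .inr ?_
    refine .rayE fun V _ h => ?_
    have := h.lin.2.2.1; omega
  · refine .inr ?_
    refine .rayE fun V _ h => ?_
    have := h.lin.2.2.1; omega

theorem memC : ∀ W ∈ D.KC, ∃ m n : ℤ, W.1 = 0 + (m * D.b - n * D.a) ∧ W.2 = 0 + (m * D.a + n * D.b) := by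
  have hx := D.cov_h0
  intro W h
  simp only [KC, List.mem_cons, List.not_mem_nil, or_false] at h
  rcases h with rfl | rfl | rfl | rfl | rfl | rfl | rfl | rfl
  · exact ⟨0, 0, by dsimp only; ring1, by dsimp only; ring1⟩
  · exact ⟨-1, 0, by dsimp only; ring1, by dsimp only; ring1⟩
  · exact ⟨-2, 0, by dsimp only; ring1, by dsimp only; ring1⟩
  · exact ⟨-3, 0, by dsimp only; ring1, by dsimp only; ring1⟩
  · exact ⟨-3, -1, by dsimp only; ring1, by dsimp only; ring1⟩
  · exact ⟨-3, -2, by dsimp only; ring1, by dsimp only; ring1⟩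
  · exact ⟨-2, -1, by dsimp only; ring1, by dsimp only; ring1⟩
  · exact ⟨-1, -1, by dsimp only; ring1, by dsimp only; ring1⟩

end D5

end NP
end Pool.Agent.Lib.MP_4a7072_co
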