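import Pool.Agent.Lib.MP_4a7072_co.F5Base

/-!
The curve of a design for an odd shorter leg `a` and `3 a < b`.
-/

set_option autoImplicit false
set_option linter.unnecessarySeqFocus false
set_option linter.unusedSimpArgs false
set_option linter.unusedVariables false
set_option linter.unreachableTactic false
set_option linter.unusedTactic false

namespace Pool.Agent.Lib.MP_4a7072_co
namespace NP

/-- The curve of the design. -/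
structure D50 where
  a : ℤ
  b : ℤ
  u : ℤ
  t : ℤ
  e : ℤ
  s : ℤ
  J : ℤ
  C : UC (2 * a, 2 * a)
  aux0' : a % 2 = 1 ∧ b % 2 = 0 ∧ u % 2 = 0 ∧ 3 * a < b ∧ 0 < u ∧ u < a ∧ ((e = 0 ∧ s = 0 ∧ a < 2 * u ∧ t = 2 * u - a) ∨ (e = 1 ∧ s = u ∧ 2 * u < a ∧ 0 ≤ t ∧ t ≤ a - 2 * u))
  wq : C.w C.q = (0, 2 * a)
  wβ : C.w C.β = (b, b)
  wJ : C.w J = (0, a + t)
  hJ0 : 0 ≤ J ∧ J ≤ C.q
  ev : ∀ l, (C.w l).1 % 2 = 0 ∨ (C.w l).2 % 2 = 0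
  gl : ∀ l, (C.w (l + C.q)).1 = (C.w l).2 ∧ (C.w (l + C.q)).2 = (C.w l).1 + 2 * a
  mir : ∀ l, (C.w (C.β - l)).1 = b - (C.w l).2 ∧ (C.w (C.β - l)).2 = b - (C.w l).1
  hβ : 0 ≤ C.β
  eI' : ∀ l, 0 ≤ l → l ≤ C.q → 0 ≤ (C.w l).2 ∧ (C.w l).2 ≤ 2 * a ∧ 0 ≤ (C.w l).2 - (C.w l).1 ∧ (C.w l).1 + (C.w l).2 ≤ 2 * a ∧ (C.w l).2 - (C.w l).1 ≤ 2 * a + s ∧ -s ≤ (C.w l).1 + (C.w l).2 ∧ ((e = 0 ∧ ((C.w l).1 + (C.w l).2 ≤ 2 * a - 2 * u ∨ 2 * u ≤ (C.w l).2 - (C.w l).1)) ∨ (e = 1 ∧ -u ≤ (C.w l).1 ∧ (C.w l).1 ≤ 0 ∧ ((C.w l).1 < 0 ∨ (C.w l).2 ≤ a - t ∨ a + t ≤ (C.w l).2)))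
  eF' : ∀ l, J ≤ l → l ≤ C.q → (C.w l).2 ≤ 2 * a ∧ (C.w l).1 + (C.w l).2 ≤ 2 * a ∧ (C.w l).2 - (C.w l).1 ≤ 2 * a + s ∧ ((e = 0 ∧ 2 * a - 2 * u ≤ (C.w l).1 + (C.w l).2 ∧ 2 * u ≤ (C.w l).2 - (C.w l).1) ∨ (e = 1 ∧ -u ≤ (C.w l).1 ∧ (C.w l).1 ≤ 0 ∧ ((C.w l).1 < 0 ∨ a + t ≤ (C.w l).2) ∧ (a < (C.w l).2 ∨ ((C.w l).2 = a ∧ (C.w l).1 = 0))))

namespace D50

variable (D : D50)

theorem aux0 : D.a % 2 = 1 ∧ D.b % 2 = 0 ∧ D.u % 2 = 0 ∧ 3 * D.a < D.b ∧ 0 < D.u ∧ D.u < D.a ∧ ((D.e = 0 ∧ D.s = 0 ∧ D.a < 2 * D.u ∧ D.t = 2 * D.u - D.a) ∨ (D.e = 1 ∧ D.s = D.u ∧ 2 * D.u < D.a ∧ 0 ≤ D.t ∧ D.t ≤ D.a - 2 * D.u)) := D.aux0'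

theorem eI (l : ℤ) (h : 0 ≤ l) (h' : l ≤ D.C.q) : 0 ≤ (D.C.w l).2 ∧ (D.C.w l).2 ≤ 2 * D.a ∧ 0 ≤ (D.C.w l).2 - (D.C.w l).1 ∧ (D.C.w l).1 + (D.C.w l).2 ≤ 2 * D.a ∧ (D.C.w l).2 - (D.C.w l).1 ≤ 2 * D.a + D.s ∧ -D.s ≤ (D.C.w l).1 + (D.C.w l).2 ∧ ((D.e = 0 ∧ ((D.C.w l).1 + (D.C.w l).2 ≤ 2 * D.a - 2 * D.u ∨ 2 * D.u ≤ (D.C.w l).2 - (D.C.w l).1)) ∨ (D.e = 1 ∧ -D.u ≤ (D.C.w l).1 ∧ (D.C.w l).1 ≤ 0 ∧ ((D.C.w l).1 < 0 ∨ (D.C.w l).2 ≤ D.a - D.t ∨ D.a + D.t ≤ (D.C.w l).2))) := D.eI' l h h'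

theorem eF (l : ℤ) (h : D.J ≤ l) (h' : l ≤ D.C.q) : (D.C.w l).2 ≤ 2 * D.a ∧ (D.C.w l).1 + (D.C.w l).2 ≤ 2 * D.a ∧ (D.C.w l).2 - (D.C.w l).1 ≤ 2 * D.a + D.s ∧ ((D.e = 0 ∧ 2 * D.a - 2 * D.u ≤ (D.C.w l).1 + (D.C.w l).2 ∧ 2 * D.u ≤ (D.C.w l).2 - (D.C.w l).1) ∨ (D.e = 1 ∧ -D.u ≤ (D.C.w l).1 ∧ (D.C.w l).1 ≤ 0 ∧ ((D.C.w l).1 < 0 ∨ D.a + D.t ≤ (D.C.w l).2) ∧ (D.a < (D.C.w l).2 ∨ ((D.C.w l).2 = D.a ∧ (D.C.w l).1 = 0)))) := D.eF' l h h'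

theorem hJ : 0 < D.J ∧ D.J + 1 < D.C.q := by
  have := D.aux0
  have := D.hJ0
  have z := D.C.w0'
  have s := D.C.stc D.J
  have h1 := D.wJ
  have h2 := D.wq
  rw [Prod.ext_iff] at h1 h2
  simp only at h1 h2
  refine ⟨lt_of_le_of_ne (by omega) fun h => ?_, ?_⟩
  · rw [← h] at h1
    omega
  · by_contra h
    obtain h | h : D.C.q = D.J ∨ D.C.q = D.J + 1 := by omega
    all_goals
      rw [h] at h2
      omega

theorem eG (l : ℤ) (h : 0 ≤ l) (h' : l ≤ D.J) : 0 ≤ (D.C.w l).2 ∧ (D.C.w l).2 ≤ 2 * D.a ∧ 0 ≤ (D.C.w l).2 - (D.C.w l).1 ∧ (D.C.w l).1 + (D.C.w l).2 ≤ 2 * D.a ∧ (D.C.w l).2 - (D.C.w l).1 ≤ 2 * D.a + D.s ∧ -D.s ≤ (D.C.w l).1 + (D.C.w l).2 ∧ ((D.e = 0 ∧ ((D.C.w l).1 + (D.C.w l).2 ≤ 2 * D.a - 2 * D.u ∨ 2 * D.u ≤ (D.C.w l).2 - (D.C.w l).1)) ∨ (D.e = 1 ∧ -D.u ≤ (D.C.w l).1 ∧ (D.C.w l).1 ≤ 0 ∧ ((D.C.w l).1 < 0 ∨ (D.C.w l).2 ≤ D.a - D.t ∨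 D.a + D.t ≤ (D.C.w l).2))) ∧ ((D.C.w l).1 < 0 ∨ 0 < (D.C.w l).1 ∨ (D.C.w l).2 < 2 * D.a) := by
  have := D.hJ
  have h1 := D.eI l h (by omega)
  have h2 := D.C.inj l D.C.q
  rw [D.wq] at h2
  simp only at h2
  refine ⟨h1.1, h1.2.1, h1.2.2.1, h1.2.2.2.1, h1.2.2.2.2.1, h1.2.2.2.2.2.1, h1.2.2.2.2.2.2, ?_⟩
  have := h1.2.1
  omega

theorem eA (l : ℤ) (h : D.J - 2 * D.C.q ≤ l) (h' : l ≤ -D.C.q) : ((D.C.w l).2 + 2 * D.a) ≤ 2 * D.a ∧ ((D.C.w l).1 + 2 * D.a) + ((D.C.w l).2 + 2 * D.a) ≤ 2 * D.a ∧ ((D.C.w l).2 + 2 * D.a) - ((D.C.w l).1 + 2 * D.a) ≤ 2 * D.a + D.s ∧ ((D.e = 0 ∧ 2 * D.a - 2 * D.u ≤ ((D.C.w l).1 + 2 * D.a) + ((D.C.w l).2 + 2 * D.a) ∧ 2 * D.u ≤ ((D.C.w l).2 + 2 * D.a) - ((D.C.w l).1 + 2 * D.a)) ∨ (D.e = 1 ∧ -D.u ≤ ((D.C.w l).1 + 2 * D.a) ∧ ((D.C.w l).1 + 2 * D.a) ≤ 0 ∧ (((D.C.w l).1 + 2 * D.a) < 0 ∨ D.a + D.t ≤ ((D.C.w l).2 + 2 * D.a))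 ∧ (D.a < ((D.C.w l).2 + 2 * D.a) ∨ (((D.C.w l).2 + 2 * D.a) = D.a ∧ ((D.C.w l).1 + 2 * D.a) = 0)))) := by
  have h1 := D.eF (l + 2 * D.C.q) (by omega) (by omega)
  have p := D.C.per' l
  simp only at p
  rw [p.1, p.2] at h1
  exact h1

theorem eR (l : ℤ) (h : -D.C.q ≤ l) (h' : l ≤ 0) : 0 ≤ (-(D.C.w l).1) ∧ (-(D.C.w l).1) ≤ 2 * D.a ∧ 0 ≤ (-(D.C.w l).1) - ((D.C.w l).2) ∧ ((D.C.w l).2) + (-(D.C.w l).1) ≤ 2 * D.a ∧ (-(D.C.w l).1) - ((D.C.w l).2) ≤ 2 * D.a + D.s ∧ -D.s ≤ ((D.C.w l).2) + (-(D.C.w l).1) ∧ ((D.e = 0 ∧ (((D.C.w l).2) + (-(D.C.w l).1) ≤ 2 * D.a - 2 * D.u ∨ 2 * D.u ≤ (-(D.C.w l).1) - ((D.C.w l).2))) ∨ (D.e = 1 ∧ -D.u ≤ ((D.C.w l).2) ∧ ((D.C.w l).2) ≤ 0 ∧ (((D.C.w l).2) < 0 ∨ (-(D.C.w l).1) ≤ D.a - D.t ∨ D.a + D.t ≤ (-(D.C.w l).1)))) := by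
  have h1 := D.eI (-l) (by omega) (by omega)
  have p := D.C.symA (-l) (by omega) (by omega)
  rw [neg_neg] at p
  rw [← p.2, show (D.C.w (-l)).2 = -(D.C.w l).1 by omega] at h1
  exact h1

theorem e0 (l : ℤ) (h : 0 ≤ l) : -D.s ≤ (D.C.w l).2 - (D.C.w l).1 ∧ (D.C.w l).2 - (D.C.w l).1 ≤ 2 * D.a + D.s ∧ 0 ≤ (D.C.w l).2 ∧ -D.s ≤ (D.C.w l).1 + (D.C.w l).2 ∧ (D.e = 0 ∨ (-D.u ≤ (D.C.w l).1 ∧ ((D.C.w l).1 ≤ 0 ∨ 2 * D.a - D.u ≤ (D.C.w l).2))) := by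
  have := D.aux0
  have hq := D.C.qpos
  obtain ⟨n, hn⟩ : ∃ n : ℕ, l ≤ n := ⟨l.toNat, by omega⟩
  induction n generalizing l with
  | zero =>
    have := D.eI l h (by omega)
    omega
  | succ n ih =>
    rcases le_total l D.C.q with c | c
    · have := D.eI l h c
      omega
    · have := ih (l - D.C.q) (by omega) (by omega)
      have g := D.gl (l - D.C.q)
      rw [sub_add_cancel] at g
      omega

theorem eGE (l : ℤ) (h : D.C.q ≤ l) : -D.s ≤ (D.C.w l).2 - (D.C.w l).1 ∧ (D.C.w l).2 - (D.C.w l).1 ≤ 2 * D.a + D.s ∧ 0 ≤ (D.C.w l).1 ∧ 2 * D.a - D.s ≤ (D.C.w l).1 + (D.C.w l).2 ∧ (D.e = 0 ∨ (2 * D.a - D.u ≤ (D.C.w l).2 ∧ ((D.C.w l).2 ≤ 2 * D.a ∨ 2 * D.a - D.u ≤ (D.C.w l).1))) := by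
  have := D.aux0
  have := D.e0 (l - D.C.q) (by omega)
  have g := D.gl (l - D.C.q)
  rw [sub_add_cancel] at g
  omega

theorem eLE (l : ℤ) (h : l ≤ D.C.β - D.C.q) : (D.C.w l).2 ≤ D.b ∧ (D.C.w l).1 + (D.C.w l).2 ≤ 2 * D.b - 2 * D.a + D.s ∧ (D.e = 0 ∨ ((D.C.w l).1 ≤ D.b - 2 * D.a + D.u ∧ (D.b - 2 * D.a ≤ (D.C.w l).1 ∨ (D.C.w l).2 ≤ D.b - 2 * D.a + D.u))) := by
  have := D.aux0
  have := D.eGE (D.C.β - l) (by omega)
  have := D.mir l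
  omega

theorem wβq : D.C.w (D.C.β - D.C.q) = (D.b - 2 * D.a, D.b) := by
  have := D.mir D.C.q
  rw [D.wq] at this
  exact Prod.ext this.1 (this.2.trans (sub_zero _))

theorem wJ2 : D.C.w (D.J - 2 * D.C.q) = (-2 * D.a, D.t - D.a) := by
  have p := D.C.per' (D.J - 2 * D.C.q)
  rw [sub_add_cancel, D.wJ] at p
  simp only at p
  ext <;> simp only <;> omega

theorem sBQ {i i' X1 Y1 X2 Y2 : ℤ} (a : D.C.On i (D.C.β - D.C.q) X1 Y1)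
    (b : D.C.On i' (D.C.β - D.C.q) X2 Y2)
    (e : X2 = 2 * D.b - 2 * D.a - Y1 ∧ Y2 = X1 + 2 * D.a) :
    X1 = D.b - 2 * D.a ∧ Y1 = D.b := by
  obtain ⟨l, a1, a2, rfl, rfl⟩ := a
  obtain ⟨l', b1, b2, b3, b4⟩ := b
  have := D.aux0
  have hq := D.C.qpos
  by_cases g : D.C.β - 2 * D.C.q ≤ l
  · have s := D.C.symB (l + 2 * D.C.q - D.C.β) (by omega) (by omega)
    have p := D.C.per' l
    rw [show D.C.β + (l + 2 * D.C.q - D.C.β) = l + 2 * D.C.q by ring, D.wβ] at s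
    simp only at p s
    have := D.C.inj l' (D.C.β - (l + 2 * D.C.q - D.C.β)) (by omega) (by omega)
    rw [show l = D.C.β - D.C.q by omega, D.wβq]
    exact ⟨rfl, rfl⟩
  · have h1 := (D.eLE l' b2).2
    have h2 := (D.eLE (l + D.C.q) (by omega)).2
    have h3 := D.gl l
    have h4 := (D.e0 (D.C.β - l) (by omega)).2.1
    have h5 := (D.e0 (D.C.β - l') (by omega)).1
    have := D.mir l
    have := D.mir l'
    have := D.ev l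
    exfalso
    omega

end D50

/-- The data of the design. -/
structure D5 extends D50 where
  p : ℤ
  K : ℤ
  aux1 : -s ≤ b - 1 - 2 * p ∧ b - 1 - 2 * p ≤ 2 * a + s ∧ (e = 0 ∨ b - 1 - p ≤ 2 * a ∨ 2 * a - u ≤ p)
  hK : C.q < K ∧ K < C.β - C.q
  wK : C.w K = (p, b - 1 - p)
  lo : ∀ l, 0 ≤ l → l ≤ K → (C.w l).1 + (C.w l).2 ≤ b - 1 ∧ ((C.w l).1 + (C.w l).2 < b - 1 ∨ (C.w l).1 = p)
  hi : ∀ l, K ≤ l → l ≤ C.β → b - 1 ≤ (C.w l).1 + (C.w l).2 ∧ (b - 1 < (C.w l).1 + (C.w l).2 ∨ (C.w l).1 = p)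

theorem D50.ext5 (D : D50) : ∃ E : D5, E.toD50 = D := by
  have := D.aux0
  obtain ⟨K, h1, h2, h3, h4⟩ := D.C.cross (by omega) (by omega) D.hβ D.wβ D.ev D.mir
  have hβ := D.hβ
  have hq : D.C.q < K := by
    by_contra h
    have z := D.C.w0'
    rcases (by omega : K = -1 ∨ 0 ≤ K) with rfl | k
    · have := D.C.stc (-1)
      rw [show (-1 : ℤ) + 1 = 0 by rfl] at this
      omega
    · have := D.eI K k (by omega)
      omega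
  have g := D.eGE K hq.le
  refine ⟨⟨D, (D.C.w K).1, K, by omega, by omega, Prod.ext rfl (by simp only; omega),
    fun l a b => ?_, fun l a b => ?_⟩, rfl⟩
  · rcases b.eq_or_lt with rfl | c
    · omega
    · have := h3 l a c
      omega
  · rcases a.eq_or_lt with rfl | c
    · omega
    · have := h4 l c b
      omega

theorem exists_D50_N (a b u k : ℤ) (h : a % 2 = 1 ∧ b % 2 = 0 ∧ u % 2 = 0 ∧ 3 * a < b ∧ u < a ∧ a < 2 * u)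
    (hk : b + u = k * (2 * a)) (hc : IsCoprime a (-(u / 2))) : ∃ D : D50, D.a = a ∧ D.b = b := by
  obtain ⟨W, mir, gl⟩ := exists_WS 0 a _ (by omega) hc (.inl ⟨rfl, h.1⟩)
  obtain ⟨V, ev, mir, gl⟩ : ∃ V : WB0 0 (2 * a) (-u), V.Ev ∧ V.Mir ∧ V.Gl := by
    rw [show -u = 2 * -(u / 2) by omega]
    exact ⟨W.toWB0.dbl h.1, W.toWB0.dbl_par _, W.toWB0.toUC.dw_mir mir, W.toWB0.toUC.dw_gl gl⟩
  have hq := V.qpos
  have c1 := V.wβq'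
  have m1 := V.monoA (V.β + V.q)
  have c2 := gl.refl (i := V.β + V.q) (by omega) (by omega)
  have m2 := (V.monoB (V.q - (V.β + V.q))).2.2.1
  have c3 := V.symB' (i := 2 * V.β + 2 * V.q - V.q - V.β) (by omega) (by omega)
  have c4 := V.per1 (V.β - (2 * V.β + 2 * V.q - V.q - V.β))
  have c5 := V.per1 (-V.q)
  have c6 := gl (-V.q)
  have c7 := V.wq
  rw [show V.β - (2 * V.β + 2 * V.q - V.q - V.β) = -V.q by ring] at c3 c4
  rw [show -V.q + 2 * V.q = V.q by ring, V.wq] at c5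
  rw [show V.β + (2 * V.β + 2 * V.q - V.q - V.β) = 2 * V.β + V.q by ring] at c3
  have c8 := gl.refl (i := 2 * V.β + V.q) (by omega) (by omega)
  simp only at c5
  have m3 := (V.monoB (V.q - (2 * V.β + V.q))).2.2.2.2.1
  have key : ∀ l, V.β + V.q ≤ l → l ≤ V.q → 2 * u ≤ (V.w l).2 - (V.w l).1 := fun l a b => by
    have := gl.refl (i := l) (by omega) b
    have := (V.monoB (V.q - l)).2.2.2.2.1 (by omega)
    omega
  have e : -u + k * (2 * a) = b := by omega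
  refine ⟨⟨a, b, u, 2 * u - a, 0, 0, V.q - (2 * V.β + V.q), (V.shift k).toUC, by omega, V.wq,
    e ▸ (V.shift k).wβ, Prod.ext (by change (V.w _).1 = 0; omega) (by change (V.w _).2 = a + _; omega),
    by change _ ∧ _ ≤ V.q; omega, ev, gl, e ▸ mir.shift k, ?_, fun l h0 h1 => ?_, fun l h0 h1 => ?_⟩,
    rfl, rfl⟩
  · have := ((V.shift k).monoA (V.shift k).β).2.1
    rw [(V.shift k).wβ] at this
    change 0 ≤ (V.shift k).β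
    simp only at this
    omega
  · change l ≤ V.q at h1
    have := V.strip l
    have := V.monoA l
    have := key l
    have := (V.monoB l).2.2.2.2.1
    dsimp only [WB0.toUC, WB0.shift]
    omega
  · change l ≤ V.q at h1
    have := V.strip l
    have := V.monoA l
    have := key l
    have := (V.monoB l).2.2.1
    dsimp only [WB0.toUC, WB0.shift]
    omega

theorem exists_D50_D (a b u k : ℤ) (h : a % 2 = 1 ∧ b % 2 = 0 ∧ u % 2 = 0 ∧ 3 * a < b ∧ 0 < u ∧ 2 * u < a)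
    (hk : b + u = k * (2 * a)) (hc : IsCoprime a (u / 2)) : ∃ D : D50, D.a = a ∧ D.b = b := by
  obtain ⟨m, rfl⟩ : ∃ m, u = 2 * m := ⟨u / 2, by omega⟩
  rw [show 2 * m / 2 = m by omega] at hc
  obtain ⟨W⟩ := exists_WD 0 a m (by omega) (by omega) hc (.inl ⟨rfl, h.1⟩)
  have hq := W.hβ
  have hk' : k * (2 * a) = 2 * (k * a) := by ring
  have uw : ∀ l, 0 ≤ l → l ≤ W.q →
      ((W.mirU k).w l).1 = -(W.w l).1 ∧ ((W.mirU k).w l).2 = (W.w l).2 := fun l a b => by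
    have := W.symA' a b
    simp only [WD.mirU]
    omega
  obtain ⟨C, cq, cβ, cw⟩ : ∃ C : UC (2 * a, 2 * a), C.q = 2 * W.q ∧
      C.β = 2 * (W.mirU k).β ∧ C.w = (W.mirU k).dw :=
    ⟨(W.mirU k).dbl.cast (by rw [two_mul]; rfl), rfl, rfl, rfl⟩
  have box : ∀ l, 0 ≤ l → l ≤ C.q → -(2 * m) ≤ (C.w l).1 ∧ (C.w l).1 ≤ 0 ∧ 0 ≤ (C.w l).2 ∧
      (C.w l).2 ≤ 2 * a ∧ (C.w (C.q - l)).1 = (C.w l).1 ∧
      (C.w (C.q - l)).2 = 2 * a - (C.w l).2 := fun l a b => by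
    have h1 := (W.mirU k).dw_eq l
    have h2 := (W.mirU k).dw_eq (C.q - l)
    rw [show (C.q - l) / 2 = W.q - (l + 1) / 2 by omega,
      show (C.q - l + 1) / 2 = W.q - l / 2 by omega] at h2
    have := uw (l / 2) (by omega) (by omega)
    have := uw ((l + 1) / 2) (by omega) (by omega)
    have := uw (W.q - l / 2) (by omega) (by omega)
    have := uw (W.q - (l + 1) / 2) (by omega) (by omega)
    have := W.refl (l / 2) (by omega) (by omega)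
    have := W.refl ((l + 1) / 2) (by omega) (by omega)
    have b1 := W.box (l / 2) (by omega) (by omega)
    have b2 := W.box ((l + 1) / 2) (by omega) (by omega)
    have := b1.1
    have := b1.2.1
    have := b1.2.2.1
    have := b1.2.2.2.1
    have := b2.1
    have := b2.2.1
    have := b2.2.2.1
    have := b2.2.2.2.1
    clear b1 b2
    rw [cw]
    omega
  have z := C.w0'
  have wq := box 0 le_rfl C.qpos.le
  rw [sub_zero] at wq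
  have ex : ∃ j : ℕ, (j : ℤ) ≤ a - 4 * m ∧ ∃ l, 0 ≤ l ∧ l ≤ C.q ∧ (C.w l).1 = 0 ∧ (C.w l).2 = a + j := by
    have h1 := W.symB' hq.1.le hq.2.le
    rw [sub_self, W.w0] at h1
    simp only at h1
    have h2 : W.β + W.β ≤ W.q := by
      by_contra g
      have h3 := W.gl5 (W.β + W.β - W.q)
      rw [sub_add_cancel] at h3
      have := (W.box (W.β + W.β - W.q) (by omega) (by omega)).1
      omega
    have h3 := uw (W.β + W.β) (by omega) h2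
    have h4 := (W.mirU k).dw_even (W.β + W.β)
    have h5 := box (2 * (W.β + W.β)) (by omega) (by omega)
    rw [← cw] at h4
    exact ⟨(a - 4 * m).toNat, by omega, C.q - 2 * (W.β + W.β), by omega, by omega, by omega, by omega⟩
  classical
  obtain ⟨ht, J, J0, J1, J2, J3⟩ := Nat.find_spec ex
  have mn : ∀ l, 0 ≤ l → l ≤ C.q → (C.w l).1 = 0 → a ≤ (C.w l).2 →
      a + Nat.find ex ≤ (C.w l).2 := fun l h0 h1 h2 h3 => by
    by_contra g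
    exact Nat.find_min ex (m := ((C.w l).2 - a).toNat) (by omega)
      ⟨by omega, l, h0, h1, h2, by omega⟩
  generalize Nat.find ex = t at *
  have lo : ∀ l, 0 ≤ l → l < W.q → (C.w l).2 < a := fun l h0 h1 =>
    ivt_up (f := fun l => (C.w l).2) (fun l => by have := C.stc l; omega) h0 (by omega)
      fun l' a b c => by
        have := box l' a (by omega)
        have := C.inj (C.q - l') l' (by omega) (by omega)
        omega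
  have jq : W.q ≤ J := by
    by_contra g
    have := lo J J0 (by omega)
    omega
  have gl : ∀ l, (C.w (l + C.q)).1 = (C.w l).2 ∧ (C.w (l + C.q)).2 = (C.w l).1 + 2 * a := by
    rw [cq, cw]
    refine (W.mirU k).dw_gl fun l => ?_
    have h1 := W.gl5 (-(l + W.q))
    have h2 := W.gl5 (-l - W.q - W.q + W.q)
    have h3 := W.pers 1 (-(l + W.q))
    have h4 := W.gl5 (-l)
    rw [show -(l + W.q) + 2 * W.q * 1 = -l + W.q by ring] at h3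
    simp only [WD.mirU]
    omega
  have mir : ∀ l, (C.w (C.β - l)).1 = b - (C.w l).2 ∧ (C.w (C.β - l)).2 = b - (C.w l).1 := by
    rw [cβ, cw, show b = 2 * (k * a - m) by omega]
    refine (W.mirU k).dw_mir fun l => ?_
    have h1 := W.mir5 (-l)
    have h2 := W.pers (-k) (W.β - -l)
    simp only [WD.mirU]
    rw [show -(-W.β + 2 * W.q * k - l) = W.β - -l + 2 * W.q * -k by ring]
    rw [neg_mul] at h2
    omega
  have wβ := mir 0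
  rw [sub_zero] at wβ
  refine ⟨⟨a, b, 2 * m, t, 1, 2 * m, J, C, by omega, Prod.ext (by simp only; omega) (by simp only; omega),
    Prod.ext (by simp only; omega) (by simp only; omega), Prod.ext J2 J3, ⟨J0, J1⟩,
    fun l => by rw [cw]; exact (W.mirU k).dw_par l, gl, mir, ?_, fun l h0 h1 => ?_,
    fun l h0 h1 => ?_⟩, rfl, rfl⟩
  · have : 1 ≤ k := by
      by_contra g
      have := mul_nonpos_of_nonpos_of_nonneg (show k ≤ 0 by omega) (show 0 ≤ a by omega)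
      omega
    have := mul_le_mul_of_nonneg_left this (show 0 ≤ 2 * W.q by omega)
    rw [cβ]
    simp only [WD.mirU]
    omega
  · have := box l h0 h1
    have := mn l h0 h1
    have := mn (C.q - l) (by omega) (by omega)
    omega
  · have := box l (by omega) h1
    have := mn l (by omega) h1
    rcases (by omega : l = W.q ∨ W.q < l) with rfl | g
    · obtain rfl : J = W.q := by omega
      rw [show C.q - W.q = W.q by omega] at *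
      omega
    · have := lo (C.q - l) (by omega) (by omega)
      omega

theorem exists_D5 (a b : ℤ) (ha : a % 2 = 1) (hb : b % 2 = 0) (h0 : 0 < a) (h3 : 3 * a < b)
    (hr : a < b % (2 * a)) (hc : IsCoprime a b) : ∃ D : D5, D.a = a ∧ D.b = b := by
  have h1 := Int.mul_ediv_add_emod b (2 * a)
  have h2 := Int.emod_lt_of_pos b (show 0 < 2 * a by omega)
  generalize b / (2 * a) = k at h1
  generalize b % (2 * a) = r at *
  obtain ⟨x, y, hc⟩ := hc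
  have hk : 2 * a * k = 2 * (a * k) := by ring
  obtain ⟨m, hm⟩ : ∃ m, 2 * a - r = 2 * m := ⟨(2 * a - r) / 2, by omega⟩
  have e : b + 2 * m = (k + 1) * (2 * a) := by linear_combination -h1 - hm
  have c : IsCoprime a m := ⟨x + y * (2 * k + 2), -2 * y, by linear_combination hc - y * e⟩
  obtain ⟨D, h⟩ : ∃ D : D50, D.a = a ∧ D.b = b := by
    rcases le_total (4 * m) a with g | g
    · exact exists_D50_D a b (2 * m) _ (by omega) e (by rwa [show 2 * m / 2 = m by omega])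
    · exact exists_D50_N a b (2 * m) _ (by omega) e
        (by rw [show 2 * m / 2 = m by omega]; exact c.neg_right)
  obtain ⟨E, rfl⟩ := D.ext5
  exact ⟨E, h⟩

end NP
end Pool.Agent.Lib.MP_4a7072_co
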