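import Pool.Agent.Lib.MP_4a7072_co.F5Cur

/-!
A design for an odd shorter leg `a` and `3 a < b`: words and envelopes.
-/

set_option autoImplicit false
set_option linter.unnecessarySeqFocus false
set_option linter.unusedSimpArgs false
set_option linter.unusedVariables false
set_option linter.unreachableTactic false
set_option linter.unusedTactic false

namespace Pool.Agent.Lib.MP_4a7072_co
namespace NP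


namespace D5

variable (D : D5)

theorem aux : D.a % 2 = 1 ∧ D.b % 2 = 0 ∧ D.u % 2 = 0 ∧ 3 * D.a < D.b ∧ 0 < D.u ∧ D.u < D.a ∧ ((D.e = 0 ∧ D.s = 0 ∧ D.a < 2 * D.u ∧ D.t = 2 * D.u - D.a) ∨ (D.e = 1 ∧ D.s = D.u ∧ 2 * D.u < D.a ∧ 0 ≤ D.t ∧ D.t ≤ D.a - 2 * D.u)) ∧ -D.s ≤ D.b - 1 - 2 * D.p ∧ D.b - 1 - 2 * D.p ≤ 2 * D.a + D.s ∧ (D.e = 0 ∨ D.b - 1 - D.p ≤ 2 * D.a ∨ 2 * D.a - D.u ≤ D.p) := by
  obtain ⟨h1, h2, h3, h4, h5, h6, h7⟩ := D.aux0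
  exact ⟨h1, h2, h3, h4, h5, h6, h7, D.aux1⟩

theorem ord : 0 < D.J ∧ D.J + 1 < D.C.q ∧ D.C.q < D.K ∧ D.K < D.C.β - D.C.q :=
  ⟨D.hJ.1, D.hJ.2, D.hK⟩

/-- A part of the curve. -/
def G : List Dir := D.C.Z 0 D.J

/-- A part of the curve. -/
def A : List Dir := D.C.Z (D.J - 2 * D.C.q) 0

/-- A part of the curve. -/
def Q : List Dir := D.C.Z (D.J - 2 * D.C.q) D.J

/-- A part of the curve. -/
def M : List Dir := D.C.Z D.J D.K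

/-- A part of the curve. -/
def N : List Dir := D.C.Z D.K (D.C.β - D.C.q)

/-- A part of the curve. -/
def O : List Dir := D.C.Z D.J (D.C.β - D.C.q)

/-- A part of the curve. -/
def L : List Dir := D.C.Z (D.J - 2 * D.C.q) (D.C.β - D.C.q)

/-- A part of the curve. -/
def F : List Dir := D.C.Z D.J D.C.q

/-- A part of the curve. -/
def T : List Dir := D.C.Z (D.C.β - D.C.q) D.C.β

/-- A staircase. -/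
def S : List Dir := stw (2 * D.b - 2 * D.a - 2 * D.p - 1)

/-- The points of a part of the curve. -/
def PG (X Y : ℤ) : Prop := D.C.On 0 D.J X Y

variable {D} in
theorem PG.on {X Y : ℤ} (h : D.PG X Y) : D.C.On 0 D.J X Y := h

theorem arcG : CArc (0, 0) D.G (0, D.a + D.t) D.PG :=
  (D.C.arc (by have := D.ord; omega)).mv (D.C.w0.trans (by ext <;> dsimp only <;> omega))
    (D.wJ.trans (by ext <;> dsimp only <;> omega)) fun _ _ h => h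

variable {D} in
theorem PG.lin {X Y : ℤ} (h : D.PG X Y) :
    (0 ≤ Y ∧ Y ≤ 2 * D.a ∧ 0 ≤ Y - X ∧ X + Y ≤ 2 * D.a ∧ Y - X ≤ 2 * D.a + D.s ∧ -D.s ≤ X + Y ∧ ((D.e = 0 ∧ (X + Y ≤ 2 * D.a - 2 * D.u ∨ 2 * D.u ≤ Y - X)) ∨ (D.e = 1 ∧ -D.u ≤ X ∧ X ≤ 0 ∧ (X < 0 ∨ Y ≤ D.a - D.t ∨ D.a + D.t ≤ Y))) ∧ (X < 0 ∨ 0 < X ∨ Y < 2 * D.a)) ∧ (X % 2 = 0 ∨ Y % 2 = 0) := by
  obtain ⟨l, h1, h2, rfl, rfl⟩ := h
  have := D.ord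
  exact ⟨D.eG l h1 h2, D.ev l⟩

/-- The points of a part of the curve. -/
def PA (X Y : ℤ) : Prop := D.C.On (D.J - 2 * D.C.q) 0 X Y

variable {D} in
theorem PA.on {X Y : ℤ} (h : D.PA X Y) : D.C.On (D.J - 2 * D.C.q) 0 X Y := h

theorem arcA : CArc (-2 * D.a, D.t - D.a) D.A (0, 0) D.PA :=
  (D.C.arc (by have := D.ord; omega)).mv (D.wJ2.trans (by ext <;> dsimp only <;> omega))
    (D.C.w0.trans (by ext <;> dsimp only <;> omega)) fun _ _ h => h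

variable {D} in
theorem PA.lin {X Y : ℤ} (h : D.PA X Y) :
    (((Y + 2 * D.a) ≤ 2 * D.a ∧ (X + 2 * D.a) + (Y + 2 * D.a) ≤ 2 * D.a ∧ (Y + 2 * D.a) - (X + 2 * D.a) ≤ 2 * D.a + D.s ∧ ((D.e = 0 ∧ 2 * D.a - 2 * D.u ≤ (X + 2 * D.a) + (Y + 2 * D.a) ∧ 2 * D.u ≤ (Y + 2 * D.a) - (X + 2 * D.a)) ∨ (D.e = 1 ∧ -D.u ≤ (X + 2 * D.a) ∧ (X + 2 * D.a) ≤ 0 ∧ ((X + 2 * D.a) < 0 ∨ D.a + D.t ≤ (Y + 2 * D.a)) ∧ (D.a < (Y + 2 * D.a) ∨ ((Y + 2 * D.a) = D.a ∧ (X + 2 * D.a) = 0))))) ∨ (0 ≤ (-X) ∧ (-X) ≤ 2 * D.a ∧ 0 ≤ (-X) - (Y) ∧ (Y) + (-X) ≤ 2 * D.a ∧ (-X) - (Y) ≤ 2 * D.a + D.s ∧ -D.s ≤ (Y) + (-X) ∧ ((D.e = 0 ∧ ((Y) + (-X) ≤ 2 * D.a - 2 * D.u ∨ 2 * D.u ≤ (-X) - (Y))) ∨ (D.e = 1 ∧ -D.u ≤ (Y) ∧ (Y) ≤ 0 ∧ ((Y) < 0 ∨ (-X) ≤ D.a - D.t ∨ D.a + D.t ≤ (-X)))))) ∧ (X % 2 = 0 ∨ Y % 2 = 0) := by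
  obtain ⟨l, h1, h2, rfl, rfl⟩ := h
  have := D.ord
  refine ⟨?_, D.ev l⟩
  rcases le_total l (-D.C.q) with h | h
  · exact .inl (D.eA l h1 h)
  · exact .inr (D.eR l h h2)

/-- The points of a part of the curve. -/
def PQ (X Y : ℤ) : Prop := D.C.On (D.J - 2 * D.C.q) D.J X Y

variable {D} in
theorem PQ.on {X Y : ℤ} (h : D.PQ X Y) : D.C.On (D.J - 2 * D.C.q) D.J X Y := h

theorem arcQ : CArc (-2 * D.a, D.t - D.a) D.Q (0, D.a + D.t) D.PQ :=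
  (D.C.arc (by have := D.ord; omega)).mv (D.wJ2.trans (by ext <;> dsimp only <;> omega))
    (D.wJ.trans (by ext <;> dsimp only <;> omega)) fun _ _ h => h

variable {D} in
theorem PQ.lin {X Y : ℤ} (h : D.PQ X Y) :
    (((Y + 2 * D.a) ≤ 2 * D.a ∧ (X + 2 * D.a) + (Y + 2 * D.a) ≤ 2 * D.a ∧ (Y + 2 * D.a) - (X + 2 * D.a) ≤ 2 * D.a + D.s ∧ ((D.e = 0 ∧ 2 * D.a - 2 * D.u ≤ (X + 2 * D.a) + (Y + 2 * D.a) ∧ 2 * D.u ≤ (Y + 2 * D.a) - (X + 2 * D.a)) ∨ (D.e = 1 ∧ -D.u ≤ (X + 2 * D.a) ∧ (X + 2 * D.a) ≤ 0 ∧ ((X + 2 * D.a) < 0 ∨ D.a + D.t ≤ (Y + 2 * D.a)) ∧ (D.a < (Y + 2 * D.a) ∨ ((Y + 2 * D.a) = D.a ∧ (X + 2 * D.a) = 0))))) ∨ (0 ≤ (-X) ∧ (-X) ≤ 2 * D.a ∧ 0 ≤ (-X) - (Y) ∧ (Y) + (-X) ≤ 2 * D.a ∧ (-X) - (Y) ≤ 2 * D.a + D.s ∧ -D.s ≤ (Y) + (-X) ∧ ((D.e = 0 ∧ ((Y) + (-X) ≤ 2 * D.a - 2 * D.u ∨ 2 * D.u ≤ (-X) - (Y)))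 ∨ (D.e = 1 ∧ -D.u ≤ (Y) ∧ (Y) ≤ 0 ∧ ((Y) < 0 ∨ (-X) ≤ D.a - D.t ∨ D.a + D.t ≤ (-X))))) ∨ (0 ≤ Y ∧ Y ≤ 2 * D.a ∧ 0 ≤ Y - X ∧ X + Y ≤ 2 * D.a ∧ Y - X ≤ 2 * D.a + D.s ∧ -D.s ≤ X + Y ∧ ((D.e = 0 ∧ (X + Y ≤ 2 * D.a - 2 * D.u ∨ 2 * D.u ≤ Y - X)) ∨ (D.e = 1 ∧ -D.u ≤ X ∧ X ≤ 0 ∧ (X < 0 ∨ Y ≤ D.a - D.t ∨ D.a + D.t ≤ Y))) ∧ (X < 0 ∨ 0 < X ∨ Y < 2 * D.a))) ∧ (X % 2 = 0 ∨ Y % 2 = 0) := by
  obtain ⟨l, h1, h2, rfl, rfl⟩ := h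
  have := D.ord
  refine ⟨?_, D.ev l⟩
  rcases le_total l (-D.C.q) with h | h
  · exact .inl (D.eA l h1 h)
  rcases le_total l 0 with g | g
  · exact .inr (.inl (D.eR l h g))
  · exact .inr (.inr (D.eG l g h2))

/-- The points of a part of the curve. -/
def PM (X Y : ℤ) : Prop := D.C.On D.J D.K X Y

variable {D} in
theorem PM.on {X Y : ℤ} (h : D.PM X Y) : D.C.On D.J D.K X Y := h

theorem arcM : CArc (0, D.a + D.t) D.M (D.p, D.b - D.p - 1) D.PM :=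
  (D.C.arc (by have := D.ord; omega)).mv (D.wJ.trans (by ext <;> dsimp only <;> omega))
    (D.wK.trans (by ext <;> dsimp only <;> omega)) fun _ _ h => h

variable {D} in
theorem PM.lin {X Y : ℤ} (h : D.PM X Y) :
    ((Y ≤ 2 * D.a ∧ X + Y ≤ 2 * D.a ∧ Y - X ≤ 2 * D.a + D.s ∧ ((D.e = 0 ∧ 2 * D.a - 2 * D.u ≤ X + Y ∧ 2 * D.u ≤ Y - X) ∨ (D.e = 1 ∧ -D.u ≤ X ∧ X ≤ 0 ∧ (X < 0 ∨ D.a + D.t ≤ Y) ∧ (D.a < Y ∨ (Y = D.a ∧ X = 0))))) ∨ (-D.s ≤ Y - X ∧ Y - X ≤ 2 * D.a + D.s ∧ 0 ≤ X ∧ 2 * D.a - D.s ≤ X + Y ∧ (D.e = 0 ∨ (2 * D.a - D.u ≤ Y ∧ (Y ≤ 2 * D.a ∨ 2 * D.a - D.u ≤ X))))) ∧ (X + Y ≤ D.b - 1 ∧ (X + Y < D.b - 1 ∨ X = D.p)) ∧ (X % 2 = 0 ∨ Y % 2 = 0) := by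
  obtain ⟨l, h1, h2, rfl, rfl⟩ := h
  have := D.ord
  refine ⟨?_, D.lo l (by omega) h2, D.ev l⟩
  rcases le_total l D.C.q with h | h
  · exact .inl (D.eF l h1 h)
  · exact .inr (D.eGE l h)

/-- The points of a part of the curve. -/
def PN (X Y : ℤ) : Prop := D.C.On D.K (D.C.β - D.C.q) X Y

variable {D} in
theorem PN.on {X Y : ℤ} (h : D.PN X Y) : D.C.On D.K (D.C.β - D.C.q) X Y := h

theorem arcN : CArc (D.p, D.b - D.p - 1) D.N (D.b - 2 * D.a, D.b) D.PN :=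
  (D.C.arc (by have := D.ord; omega)).mv (D.wK.trans (by ext <;> dsimp only <;> omega))
    (D.wβq.trans (by ext <;> dsimp only <;> omega)) fun _ _ h => h

variable {D} in
theorem PN.lin {X Y : ℤ} (h : D.PN X Y) :
    (-D.s ≤ Y - X ∧ Y - X ≤ 2 * D.a + D.s ∧ 0 ≤ X ∧ 2 * D.a - D.s ≤ X + Y ∧ (D.e = 0 ∨ (2 * D.a - D.u ≤ Y ∧ (Y ≤ 2 * D.a ∨ 2 * D.a - D.u ≤ X)))) ∧ (Y ≤ D.b ∧ X + Y ≤ 2 * D.b - 2 * D.a + D.s ∧ (D.e = 0 ∨ (X ≤ D.b - 2 * D.a + D.u ∧ (D.b - 2 * D.a ≤ X ∨ Y ≤ D.b - 2 * D.a + D.u)))) ∧ (D.b - 1 ≤ X + Y ∧ (D.b - 1 < X + Y ∨ X = D.p)) ∧ (X % 2 = 0 ∨ Y % 2 = 0) := by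
  obtain ⟨l, h1, h2, rfl, rfl⟩ := h
  have := D.ord
  exact ⟨D.eGE l (by omega), D.eLE l h2, D.hi l h1 (by omega), D.ev l⟩

/-- The points of a part of the curve. -/
def PO (X Y : ℤ) : Prop := D.C.On D.J (D.C.β - D.C.q) X Y

variable {D} in
theorem PO.on {X Y : ℤ} (h : D.PO X Y) : D.C.On D.J (D.C.β - D.C.q) X Y := h

theorem arcO : CArc (0, D.a + D.t) D.O (D.b - 2 * D.a, D.b) D.PO :=
  (D.C.arc (by have := D.ord; omega)).mv (D.wJ.trans (by ext <;> dsimp only <;> omega))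
    (D.wβq.trans (by ext <;> dsimp only <;> omega)) fun _ _ h => h

variable {D} in
theorem PO.lin {X Y : ℤ} (h : D.PO X Y) :
    ((Y ≤ 2 * D.a ∧ X + Y ≤ 2 * D.a ∧ Y - X ≤ 2 * D.a + D.s ∧ ((D.e = 0 ∧ 2 * D.a - 2 * D.u ≤ X + Y ∧ 2 * D.u ≤ Y - X) ∨ (D.e = 1 ∧ -D.u ≤ X ∧ X ≤ 0 ∧ (X < 0 ∨ D.a + D.t ≤ Y) ∧ (D.a < Y ∨ (Y = D.a ∧ X = 0))))) ∨ (-D.s ≤ Y - X ∧ Y - X ≤ 2 * D.a + D.s ∧ 0 ≤ X ∧ 2 * D.a - D.s ≤ X + Y ∧ (D.e = 0 ∨ (2 * D.a - D.u ≤ Y ∧ (Y ≤ 2 * D.a ∨ 2 * D.a - D.u ≤ X))))) ∧ (Y ≤ D.b ∧ X + Y ≤ 2 * D.b - 2 * D.a + D.s ∧ (D.e = 0 ∨ (X ≤ D.b - 2 * D.a + D.u ∧ (D.b - 2 * D.a ≤ X ∨ Y ≤ D.b - 2 * D.a + D.u)))) ∧ (X % 2 = 0 ∨ Y % 2 = 0) := by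
  obtain ⟨l, h1, h2, rfl, rfl⟩ := h
  have := D.ord
  refine ⟨?_, D.eLE l h2, D.ev l⟩
  rcases le_total l D.C.q with h | h
  · exact .inl (D.eF l h1 h)
  · exact .inr (D.eGE l h)

/-- The points of a part of the curve. -/
def PL (X Y : ℤ) : Prop := D.C.On (D.J - 2 * D.C.q) (D.C.β - D.C.q) X Y

variable {D} in
theorem PL.on {X Y : ℤ} (h : D.PL X Y) : D.C.On (D.J - 2 * D.C.q) (D.C.β - D.C.q) X Y := h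

theorem arcL : CArc (-2 * D.a, D.t - D.a) D.L (D.b - 2 * D.a, D.b) D.PL :=
  (D.C.arc (by have := D.ord; omega)).mv (D.wJ2.trans (by ext <;> dsimp only <;> omega))
    (D.wβq.trans (by ext <;> dsimp only <;> omega)) fun _ _ h => h

variable {D} in
theorem PL.lin {X Y : ℤ} (h : D.PL X Y) :
    (((Y + 2 * D.a) ≤ 2 * D.a ∧ (X + 2 * D.a) + (Y + 2 * D.a) ≤ 2 * D.a ∧ (Y + 2 * D.a) - (X + 2 * D.a) ≤ 2 * D.a + D.s ∧ ((D.e = 0 ∧ 2 * D.a - 2 * D.u ≤ (X + 2 * D.a) + (Y + 2 * D.a) ∧ 2 * D.u ≤ (Y + 2 * D.a) - (X + 2 * D.a)) ∨ (D.e = 1 ∧ -D.u ≤ (X + 2 * D.a) ∧ (X + 2 * D.a) ≤ 0 ∧ ((X + 2 * D.a) < 0 ∨ D.a + D.t ≤ (Y + 2 * D.a)) ∧ (D.a < (Y + 2 * D.a) ∨ ((Y + 2 * D.a) = D.a ∧ (X + 2 * D.a) = 0))))) ∨ (0 ≤ (-X) ∧ (-X) ≤ 2 * D.a ∧ 0 ≤ (-X) - (Y) ∧ (Y) + (-X) ≤ 2 * D.a ∧ (-X) - (Y) ≤ 2 * D.a + D.s ∧ -D.s ≤ (Y)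 + (-X) ∧ ((D.e = 0 ∧ ((Y) + (-X) ≤ 2 * D.a - 2 * D.u ∨ 2 * D.u ≤ (-X) - (Y))) ∨ (D.e = 1 ∧ -D.u ≤ (Y) ∧ (Y) ≤ 0 ∧ ((Y) < 0 ∨ (-X) ≤ D.a - D.t ∨ D.a + D.t ≤ (-X))))) ∨ (0 ≤ Y ∧ Y ≤ 2 * D.a ∧ 0 ≤ Y - X ∧ X + Y ≤ 2 * D.a ∧ Y - X ≤ 2 * D.a + D.s ∧ -D.s ≤ X + Y ∧ ((D.e = 0 ∧ (X + Y ≤ 2 * D.a - 2 * D.u ∨ 2 * D.u ≤ Y - X)) ∨ (D.e = 1 ∧ -D.u ≤ X ∧ X ≤ 0 ∧ (X < 0 ∨ Y ≤ D.a - D.t ∨ D.a + D.t ≤ Y)))) ∨ (-D.s ≤ Y - X ∧ Y - X ≤ 2 * D.a + D.s ∧ 0 ≤ X ∧ 2 * D.a - D.s ≤ X + Y ∧ (D.e = 0 ∨ (2 * D.a - D.u ≤ Y ∧ (Y ≤ 2 * D.a ∨ 2 * D.a - D.u ≤ X))))) ∧ (Y ≤ D.b ∧ X + Y ≤ 2 * D.b - 2 * D.a + D.s ∧ (D.e = 0 ∨ (X ≤ D.b - 2 * D.a + D.u ∧ (D.b - 2 * D.a ≤ X ∨ Y ≤ D.b - 2 * D.a + D.u)))) ∧ (X % 2 = 0 ∨ Y % 2 = 0) := by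
  obtain ⟨l, h1, h2, rfl, rfl⟩ := h
  have := D.ord
  refine ⟨?_, D.eLE l h2, D.ev l⟩
  rcases le_total l (-D.C.q) with h | h
  · exact .inl (D.eA l h1 h)
  rcases le_total l 0 with g | g
  · exact .inr (.inl (D.eR l h g))
  rcases le_total l D.C.q with k | k
  · exact .inr (.inr (.inl (D.eI l g k)))
  · exact .inr (.inr (.inr (D.eGE l k)))

/-- The points of a path. -/
def Lt (X Y : ℤ) : Prop := 0 ≤ X ∧ X ≤ D.t ∧ Y = 0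

variable {D} in
theorem Lt.lin {X Y : ℤ} (h : D.Lt X Y) : 0 ≤ X ∧ X ≤ D.t ∧ Y = 0 := h

theorem arcLt : CArc (0, 0) (ea D.t) (D.t, 0) D.Lt := by
  have := D.aux
  exact ea_arc (by omega)

/-- The points of a path. -/
def Le (X Y : ℤ) : Prop := 0 ≤ X ∧ X ≤ D.e ∧ Y = 0

variable {D} in
theorem Le.lin {X Y : ℤ} (h : D.Le X Y) : 0 ≤ X ∧ X ≤ D.e ∧ Y = 0 := h

theorem arcLe : CArc (0, 0) (ea D.e) (D.e, 0) D.Le := by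
  have := D.aux
  exact ea_arc (by omega)

/-- The points of a path. -/
def L1 (_ : D5) (X Y : ℤ) : Prop := 0 ≤ X ∧ X ≤ 1 ∧ Y = 0

variable {D} in
theorem L1.lin {X Y : ℤ} (h : D.L1 X Y) : 0 ≤ X ∧ X ≤ 1 ∧ Y = 0 := h

theorem arcL1 : CArc (0, 0) (ea 1) (1, 0) D.L1 := by
  have := D.aux
  exact ea_arc (by omega)

/-- The points of a path. -/
def La (X Y : ℤ) : Prop := 0 ≤ X ∧ X ≤ D.a - 1 ∧ Y = 0

variable {D} in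
theorem La.lin {X Y : ℤ} (h : D.La X Y) : 0 ≤ X ∧ X ≤ D.a - 1 ∧ Y = 0 := h

theorem arcLa : CArc (0, 0) (ea (D.a - 1)) (D.a - 1, 0) D.La := by
  have := D.aux
  exact ea_arc (by omega)

/-- The points of a path. -/
def Lb (X Y : ℤ) : Prop := 0 ≤ X ∧ X ≤ D.b ∧ Y = 0

variable {D} in
theorem Lb.lin {X Y : ℤ} (h : D.Lb X Y) : 0 ≤ X ∧ X ≤ D.b ∧ Y = 0 := h

theorem arcLb : CArc (0, 0) (ea D.b) (D.b, 0) D.Lb := by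
  have := D.aux
  exact ea_arc (by omega)

/-- The points of a path. -/
def Ls (X Y : ℤ) : Prop := 0 ≤ Y - X ∧ Y - X ≤ 2 * D.b - 2 * D.a - 2 * D.p - 1 ∧ (X + Y = -1 ∨ ((X + Y = 0 ∨ X + Y = -2) ∧ X % 2 = 0))

variable {D} in
theorem Ls.lin {X Y : ℤ} (h : D.Ls X Y) : 0 ≤ Y - X ∧ Y - X ≤ 2 * D.b - 2 * D.a - 2 * D.p - 1 ∧ (X + Y = -1 ∨ ((X + Y = 0 ∨ X + Y = -2) ∧ X % 2 = 0)) := h

theorem arcLs : CArc (0, 0) D.S (D.a + D.p - D.b, D.b - D.a - D.p - 1) D.Ls := by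
  have := D.aux
  exact stw_arc (by omega) (by omega) (by omega)

theorem sQM {X1 Y1 X2 Y2 : ℤ} (a : D.PQ X1 Y1) (b : D.PM X2 Y2) (e : X2 = X1 ∧ Y2 = Y1) :
    X1 = 0 ∧ Y1 = D.a + D.t := by
  obtain ⟨rfl, rfl⟩ := e
  have := UC.On.meet a b
  rwa [D.wJ] at this

/-- A part of a boundary: its points. -/
def RR (X Y : ℤ) : Prop :=
  ((D.Le (0 - Y) (X - D.a) ∨
    D.L1 (D.a - X) ((-D.e) - Y)) ∨
    D.La ((D.a - 1) - X) ((-D.e) - Y)) ∨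
    D.Le (Y - (-D.e)) (0 - X)

/-- A part of a boundary: its word. -/
def wR : List Dir :=
  rot 3 (ea D.e) ++ rot 2 (ea 1) ++ rot 2 (ea (D.a - 1)) ++ rot 1 (ea D.e)

variable {D} in
theorem RR.lin {X Y : ℤ} (h : D.RR X Y) :
    X ≤ D.a ∧ -X ≤ 0 ∧ Y ≤ 0 ∧ -Y ≤ D.e ∧ X + Y ≤ D.a ∧ -X - Y ≤ D.e ∧ Y - X ≤ 0 ∧ X - Y ≤ D.a + D.e := by
  have := D.aux
  rcases h with ((h | h) | h) | h
  · have := h.lin; omega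
  · have := h.lin; omega
  · have := h.lin; omega
  · have := h.lin; omega

/-- A part of a boundary: its points. -/
def RA (X Y : ℤ) : Prop :=
  D.RR X Y ∨
    D.RR (Y - 0) (0 - X)

/-- A part of a boundary: its word. -/
def wRA : List Dir :=
  D.wR ++ back 1 D.wR

variable {D} in
theorem RA.lin {X Y : ℤ} (h : D.RA X Y) :
    X ≤ D.a ∧ -X ≤ 0 ∧ Y ≤ D.a ∧ -Y ≤ D.e ∧ X + Y ≤ D.a + D.e ∧ -X - Y ≤ D.e ∧ Y - X ≤ D.a ∧ X - Y ≤ D.a + D.e := by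
  have := D.aux
  rcases h with h | h
  · have := h.lin; omega
  · have := h.lin; omega

/-- A part of a boundary: its points. -/
def A1 (X Y : ℤ) : Prop :=
  (D.PA (X - 0) (Y - D.a) ∨
    D.Lt (Y - 0) ((-2 * D.a) - X)) ∨
    D.Lt ((-2 * D.a) - X) (0 - Y)

/-- A part of a boundary: its word. -/
def wA1 : List Dir :=
  back 0 D.A ++ back 1 (ea D.t) ++ rot 2 (ea D.t)

variable {D} in
theorem A1.lin {X Y : ℤ} (h : D.A1 X Y) :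
    X ≤ 0 ∧ -X ≤ 3 * D.a + D.s - 1 ∧ Y ≤ D.a + D.u ∧ -Y ≤ 0 ∧ X + Y ≤ D.a ∧ -X - Y ≤ 3 * D.a + D.s - 2 ∧ Y - X ≤ 3 * D.a + D.s ∧ X - Y ≤ D.s - D.a := by
  have := D.aux
  rcases h with (h | h) | h
  · have := h.lin; omega
  · have := h.lin; omega
  · have := h.lin; omega

/-- A part of a boundary: its points. -/
def IA (X Y : ℤ) : Prop :=
  (D.PQ (Y - 0) ((-D.a) - X) ∨
    D.Lt (0 - X) ((-2 * D.a) - Y)) ∨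
    D.Lt ((-2 * D.a) - Y) (X - 0)

/-- A part of a boundary: its word. -/
def π : List Dir :=
  back 1 D.Q ++ back 2 (ea D.t) ++ rot 3 (ea D.t)

variable {D} in
theorem IA.lin {X Y : ℤ} (h : D.IA X Y) :
    X ≤ 0 ∧ -X ≤ 3 * D.a ∧ Y ≤ D.u ∧ -Y ≤ 3 * D.a + D.s - 1 ∧ X + Y ≤ D.s - D.a ∧ -X - Y ≤ 3 * D.a + D.s ∧ Y - X ≤ 3 * D.a ∧ X - Y ≤ 3 * D.a + D.s - 2 := by
  have := D.aux
  rcases h with (h | h) | h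
  · have := h.lin; omega
  · have := h.lin; omega
  · have := h.lin; omega

/-- A part of a boundary: its points. -/
def A3 (X Y : ℤ) : Prop :=
  ((D.A1 X Y ∨
    D.IA X Y) ∨
    D.IA (Y - 0) (0 - X)) ∨
    D.PG (0 - Y) (X - D.a)

/-- A part of a boundary: its word. -/
def wA3 : List Dir :=
  D.wA1 ++ D.π ++ rot 1 D.π ++ back 3 D.G

variable {D} in
theorem A3.lin {X Y : ℤ} (h : D.A3 X Y) :
    X ≤ 3 * D.a + D.s - 1 ∧ -X ≤ 3 * D.a + D.s ∧ Y ≤ D.a + D.u ∧ -Y ≤ 3 * D.a + D.s ∧ X + Y ≤ 3 * D.a + D.s ∧ -X - Y ≤ 3 * D.a + D.s ∧ Y - X ≤ 3 * D.a + D.s ∧ X - Y ≤ 3 * D.a + D.s := by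
  have := D.aux
  rcases h with ((h | h) | h) | h
  · have := h.lin; omega
  · have := h.lin; omega
  · have := h.lin; omega
  · have := h.lin; omega

/-- A part of a boundary: its points. -/
def UU (X Y : ℤ) : Prop :=
  D.Ls (X - (D.b - D.a)) (Y - D.a) ∨
    D.PN X Y

/-- A part of a boundary: its word. -/
def wU : List Dir :=
  D.S ++ D.N

variable {D} in
theorem UU.lin {X Y : ℤ} (h : D.UU X Y) :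
    X ≤ D.b - D.a ∧ -X ≤ 0 ∧ Y ≤ D.b ∧ -Y ≤ -D.a ∧ X + Y ≤ 2 * D.b + D.s - 2 * D.a ∧ -X - Y ≤ -D.b + 2 ∧ Y - X ≤ 2 * D.a + D.s ∧ X - Y ≤ D.b - 2 * D.a := by
  have := D.aux
  rcases h with h | h
  · have := h.lin; omega
  · have := h.lin; omega

/-- A part of a boundary: its points. -/
def SX (X Y : ℤ) : Prop :=
  (D.Lt (Y - D.a) (0 - X) ∨
    D.PM X Y) ∨
    D.Ls (X - (D.b - D.a)) (Y - D.a)

/-- A part of a boundary: its word. -/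
def wS : List Dir :=
  rot 1 (ea D.t) ++ D.M ++ back 0 D.S

variable {D} in
theorem SX.lin {X Y : ℤ} (h : D.SX X Y) :
    X ≤ D.b - D.a ∧ -X ≤ D.u ∧ Y ≤ 2 * D.a + D.p + D.s ∧ -Y ≤ -D.a ∧ X + Y ≤ D.b ∧ -X - Y ≤ D.u - D.a - 1 ∧ Y - X ≤ 2 * D.a + D.s ∧ X - Y ≤ D.b - 2 * D.a := by
  have := D.aux
  rcases h with (h | h) | h
  · have := h.lin; omega
  · have := h.lin; omega
  · have := h.lin; omega

/-- A part of a boundary: its points. -/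
def B1 (X Y : ℤ) : Prop :=
  ((D.UU (Y - (2 * D.a - D.b)) ((2 * D.b) - X) ∨
    D.SX (X - D.b) (Y - 0)) ∨
    D.SX (Y - D.a) ((D.a + D.b) - X)) ∨
    D.SX ((2 * D.b - D.a) - X) ((D.a + D.b) - Y)

/-- A part of a boundary: its word. -/
def wB1 : List Dir :=
  back 1 D.wU ++ back 0 D.wS ++ rot 1 D.wS ++ back 2 D.wS

variable {D} in
theorem B1.lin {X Y : ℤ} (h : D.B1 X Y) :
    X ≤ 2 * D.b + D.u - D.a ∧ -X ≤ D.a + D.p + D.s - D.b ∧ Y ≤ D.b ∧ -Y ≤ D.p + D.s + D.u - 1 ∧ X + Y ≤ 3 * D.b + D.u - D.a - 1 ∧ -X - Y ≤ D.s - D.b ∧ Y - X ≤ 0 ∧ X - Y ≤ 2 * D.b - 2 * D.a + 2 := by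
  have := D.aux
  rcases h with ((h | h) | h) | h
  · have := h.lin; omega
  · have := h.lin; omega
  · have := h.lin; omega
  · have := h.lin; omega

/-- A part of a boundary: its points. -/
def B2 (X Y : ℤ) : Prop :=
  ((D.Lt ((2 * D.b - D.a) - X) (D.b - Y) ∨
    D.PL (Y - (2 * D.a + D.b)) ((2 * D.b - 2 * D.a) - X)) ∨
    D.UU (X - 0) (Y - D.b)) ∨
    D.UU (Y - (2 * D.a)) (D.b - X)

/-- A part of a boundary: its word. -/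
def wB2 : List Dir :=
  rot 2 (ea D.t) ++ rot 1 D.L ++ back 0 D.wU ++ rot 1 D.wU

variable {D} in
theorem B2.lin {X Y : ℤ} (h : D.B2 X Y) :
    X ≤ 2 * D.b - D.a ∧ -X ≤ 0 ∧ Y ≤ D.a + 2 * D.b + D.s ∧ -Y ≤ -2 * D.a ∧ X + Y ≤ 3 * D.b + D.s ∧ -X - Y ≤ D.s - D.b ∧ Y - X ≤ 2 * D.a + D.b + D.s ∧ X - Y ≤ D.b + D.u - D.a - 1 := by
  have := D.aux
  rcases h with ((h | h) | h) | h
  · have := h.lin; omega
  · have := h.lin; omega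
  · have := h.lin; omega
  · have := h.lin; omega

/-- A part of a boundary: its points. -/
def QB (X Y : ℤ) : Prop :=
  D.B1 X Y ∨
    D.B2 X Y

/-- A part of a boundary: its word. -/
def qb : List Dir :=
  D.wB1 ++ D.wB2

variable {D} in
theorem QB.lin {X Y : ℤ} (h : D.QB X Y) :
    X ≤ 2 * D.b + D.u - D.a ∧ -X ≤ 0 ∧ Y ≤ D.a + 2 * D.b + D.s ∧ -Y ≤ D.p + D.s + D.u - 1 ∧ X + Y ≤ 3 * D.b + D.s ∧ -X - Y ≤ D.s - D.b ∧ Y - X ≤ 2 * D.a + D.b + D.s ∧ X - Y ≤ 2 * D.b - 2 * D.a + 2 := by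
  have := D.aux
  rcases h with h | h
  · have := h.lin; omega
  · have := h.lin; omega

/-- A part of a boundary: its points. -/
def B3 (X Y : ℤ) : Prop :=
  (D.QB (X - (D.a - 2 * D.b)) (Y - (-2 * D.a - D.b)) ∨
    D.QB (Y - (-2 * D.a - D.b)) ((D.a - 2 * D.b) - X)) ∨
    D.QB ((D.a - 2 * D.b) - X) ((-2 * D.a - D.b) - Y)

/-- A part of a boundary: its word. -/
def wB3 : List Dir :=
  D.qb ++ rot 1 D.qb ++ rot 2 D.qb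

variable {D} in
theorem B3.lin {X Y : ℤ} (h : D.B3 X Y) :
    X ≤ D.u ∧ -X ≤ 4 * D.b + D.s ∧ Y ≤ D.b + D.s - D.a ∧ -Y ≤ 3 * D.a + 3 * D.b + D.s ∧ X + Y ≤ D.s - D.a ∧ -X - Y ≤ D.a + 6 * D.b + D.s ∧ Y - X ≤ 4 * D.b + D.s - 3 * D.a ∧ X - Y ≤ 4 * D.a + D.b + D.s := by
  have := D.aux
  rcases h with (h | h) | h
  · have := h.lin; omega
  · have := h.lin; omega
  · have := h.lin; omega

/-- A part of a boundary: its points. -/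
def RB (X Y : ℤ) : Prop :=
  D.Lb (Y - (-2 * D.a - 2 * D.b)) ((D.a - 2 * D.b) - X) ∨
    D.Lb ((D.a - D.b) - X) ((-2 * D.a - D.b) - Y)

/-- A part of a boundary: its word. -/
def wRB : List Dir :=
  rot 1 (ea D.b) ++ back 2 (ea D.b)

variable {D} in
theorem RB.lin {X Y : ℤ} (h : D.RB X Y) :
    X ≤ D.a - D.b ∧ -X ≤ 2 * D.b - D.a ∧ Y ≤ -2 * D.a - D.b ∧ -Y ≤ 2 * D.a + 2 * D.b ∧ X + Y ≤ -D.a - 2 * D.b ∧ -X - Y ≤ D.a + 4 * D.b ∧ Y - X ≤ D.b - 3 * D.a ∧ X - Y ≤ 3 * D.a := by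
  have := D.aux
  rcases h with h | h
  · have := h.lin; omega
  · have := h.lin; omega

/-- A part of a boundary: its points. -/
def A2 (X Y : ℤ) : Prop :=
  (D.IA (Y - 0) (0 - X) ∨
    D.PG (0 - Y) (X - D.a)) ∨
    D.RA X Y

/-- A part of a boundary: its word. -/
def wA2 : List Dir :=
  rot 1 D.π ++ back 3 D.G ++ D.wRA

variable {D} in
theorem A2.lin {X Y : ℤ} (h : D.A2 X Y) :
    X ≤ 3 * D.a + D.s - 1 ∧ -X ≤ D.u ∧ Y ≤ D.a ∧ -Y ≤ 3 * D.a ∧ X + Y ≤ 3 * D.a + D.s ∧ -X - Y ≤ 3 * D.a ∧ Y - X ≤ D.a ∧ X - Y ≤ 3 * D.a + D.s := by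
  have := D.aux
  rcases h with (h | h) | h
  · have := h.lin; omega
  · have := h.lin; omega
  · have := h.lin; omega

/-- A part of a boundary: its points. -/
def C1 (X Y : ℤ) : Prop :=
  (((D.UU (Y - (-2 * D.b)) (D.a - X) ∨
    D.SX (X - (D.a - D.b)) (Y - (-2 * D.a - D.b))) ∨
    D.SX (Y - (-D.a - D.b)) ((2 * D.a - D.b) - X)) ∨
    D.Ls ((D.a - D.b) - X) ((-2 * D.a) - Y)) ∨
    D.PM (0 - X) ((-D.a) - Y)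

/-- A part of a boundary: its word. -/
def wC1 : List Dir :=
  back 1 D.wU ++ back 0 D.wS ++ rot 1 D.wS ++ rot 2 D.S ++ back 2 D.M

variable {D} in
theorem C1.lin {X Y : ℤ} (h : D.C1 X Y) :
    X ≤ D.u ∧ -X ≤ D.b + D.p + D.s ∧ Y ≤ -2 * D.a ∧ -Y ≤ 2 * D.a + D.b + D.p + D.s + D.u - 1 ∧ X + Y ≤ D.u - 2 * D.a - 1 ∧ -X - Y ≤ D.a + 2 * D.b + D.s ∧ Y - X ≤ D.b - 3 * D.a ∧ X - Y ≤ D.a + D.b + 2 := by
  have := D.aux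
  rcases h with (((h | h) | h) | h) | h
  · have := h.lin; omega
  · have := h.lin; omega
  · have := h.lin; omega
  · have := h.lin; omega
  · have := h.lin; omega

/-- A part of a boundary: its points. -/
def C0 (X Y : ℤ) : Prop :=
  (D.PO (Y - 0) ((-D.a) - X) ∨
    D.UU (X - (D.a - 2 * D.b)) (Y - (-2 * D.a))) ∨
    D.UU (Y - (-D.b)) ((D.a - D.b) - X)

/-- A part of a boundary: its word. -/
def wC0 : List Dir :=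
  rot 1 D.O ++ back 0 D.wU ++ rot 1 D.wU

variable {D} in
theorem C0.lin {X Y : ℤ} (h : D.C0 X Y) :
    X ≤ -2 * D.a ∧ -X ≤ 2 * D.b - D.a ∧ Y ≤ D.b + D.s - D.a ∧ -Y ≤ D.b ∧ X + Y ≤ D.s - D.a ∧ -X - Y ≤ D.a + 2 * D.b + D.s ∧ Y - X ≤ 2 * D.b + D.s - D.a ∧ X - Y ≤ D.u - 2 * D.a - 1 := by
  have := D.aux
  rcases h with (h | h) | h
  · have := h.lin; omega
  · have := h.lin; omega
  · have := h.lin; omega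

/-- A part of a boundary: its points. -/
def C2 (X Y : ℤ) : Prop :=
  ((D.C0 X Y ∨
    D.QB (Y - (-2 * D.a - D.b)) ((D.a - 2 * D.b) - X)) ∨
    D.QB ((D.a - 2 * D.b) - X) ((-2 * D.a - D.b) - Y)) ∨
    D.RB X Y

/-- A part of a boundary: its word. -/
def wC2 : List Dir :=
  D.wC0 ++ rot 1 D.qb ++ rot 2 D.qb ++ D.wRB

variable {D} in
theorem C2.lin {X Y : ℤ} (h : D.C2 X Y) :
    X ≤ -2 * D.a ∧ -X ≤ 4 * D.b + D.s ∧ Y ≤ D.b + D.s - D.a ∧ -Y ≤ 3 * D.a + 3 * D.b + D.s ∧ X + Y ≤ D.s - D.a ∧ -X - Y ≤ D.a + 6 * D.b + D.s ∧ Y - X ≤ 4 * D.b + D.s - 3 * D.a ∧ X - Y ≤ 5 * D.a + D.s := by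
  have := D.aux
  rcases h with ((h | h) | h) | h
  · have := h.lin; omega
  · have := h.lin; omega
  · have := h.lin; omega
  · have := h.lin; omega

/-- A part of a boundary: its points. -/
def AL (X Y : ℤ) : Prop :=
  D.A2 X Y ∨
    D.A1 X Y

/-- A part of a boundary: its word. -/
def α : List Dir :=
  D.wA2 ++ D.wA1

variable {D} in
theorem AL.lin {X Y : ℤ} (h : D.AL X Y) :
    X ≤ 3 * D.a + D.s - 1 ∧ -X ≤ 3 * D.a + D.s - 1 ∧ Y ≤ D.a + D.u ∧ -Y ≤ 3 * D.a ∧ X + Y ≤ 3 * D.a + D.s ∧ -X - Y ≤ 3 * D.a + D.s ∧ Y - X ≤ 3 * D.a + D.s ∧ X - Y ≤ 3 * D.a + D.s := by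
  have := D.aux
  rcases h with h | h
  · have := h.lin; omega
  · have := h.lin; omega

/-- A part of a boundary: its points. -/
def BE (X Y : ℤ) : Prop :=
  D.C2 X Y ∨
    D.C1 X Y

/-- A part of a boundary: its word. -/
def β : List Dir :=
  D.wC2 ++ D.wC1

variable {D} in
theorem BE.lin {X Y : ℤ} (h : D.BE X Y) :
    X ≤ D.u ∧ -X ≤ 4 * D.b + D.s ∧ Y ≤ D.b + D.s - D.a ∧ -Y ≤ 3 * D.a + 3 * D.b + D.s ∧ X + Y ≤ D.s - D.a ∧ -X - Y ≤ D.a + 6 * D.b + D.s ∧ Y - X ≤ 4 * D.b + D.s - 3 * D.a ∧ X - Y ≤ 2 * D.a + D.b + D.p + D.s + 2 * D.u - 1 := by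
  have := D.aux
  rcases h with h | h
  · have := h.lin; omega
  · have := h.lin; omega

/-- A part of a boundary: its points. -/
def EA (X Y : ℤ) : Prop :=
  D.A3 X Y ∨
    D.RA X Y

variable {D} in
theorem EA.lin {X Y : ℤ} (h : D.EA X Y) :
    X ≤ 3 * D.a + D.s - 1 ∧ -X ≤ 3 * D.a + D.s ∧ Y ≤ D.a + D.u ∧ -Y ≤ 3 * D.a + D.s ∧ X + Y ≤ 3 * D.a + D.s ∧ -X - Y ≤ 3 * D.a + D.s ∧ Y - X ≤ 3 * D.a + D.s ∧ X - Y ≤ 3 * D.a + D.s := by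
  have := D.aux
  rcases h with h | h
  · have := h.lin; omega
  · have := h.lin; omega

/-- A part of a boundary: its points. -/
def EB (X Y : ℤ) : Prop :=
  D.B3 X Y ∨
    D.RB X Y

variable {D} in
theorem EB.lin {X Y : ℤ} (h : D.EB X Y) :
    X ≤ D.u ∧ -X ≤ 4 * D.b + D.s ∧ Y ≤ D.b + D.s - D.a ∧ -Y ≤ 3 * D.a + 3 * D.b + D.s ∧ X + Y ≤ D.s - D.a ∧ -X - Y ≤ D.a + 6 * D.b + D.s ∧ Y - X ≤ 4 * D.b + D.s - 3 * D.a ∧ X - Y ≤ 4 * D.a + D.b + D.s := by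
  have := D.aux
  rcases h with h | h
  · have := h.lin; omega
  · have := h.lin; omega

/-- A part of a boundary: its points. -/
def EC (X Y : ℤ) : Prop :=
  D.AL X Y ∨
    D.BE X Y

variable {D} in
theorem EC.lin {X Y : ℤ} (h : D.EC X Y) :
    X ≤ 3 * D.a + D.s - 1 ∧ -X ≤ 4 * D.b + D.s ∧ Y ≤ D.b + D.s - D.a ∧ -Y ≤ 3 * D.a + 3 * D.b + D.s ∧ X + Y ≤ 3 * D.a + D.s ∧ -X - Y ≤ D.a + 6 * D.b + D.s ∧ Y - X ≤ 4 * D.b + D.s - 3 * D.a ∧ X - Y ≤ 2 * D.a + D.b + D.p + D.s + 2 * D.u - 1 := by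
  have := D.aux
  rcases h with h | h
  · have := h.lin; omega
  · have := h.lin; omega

/-- The marked points. -/
def KA1 : List Pt :=
  [(D.a, 0), (0, 0), (0, D.a), (-D.a, 0), (0, -D.a), (-2 * D.a, D.a), (-D.a, -2 * D.a), (2 * D.a, -D.a), (-2 * D.a, 0), (0, -2 * D.a), (2 * D.a, 0), (-2 * D.a, 0), (0, -2 * D.a), (2 * D.a, 0)]

/-- The marked points. -/
def KA0 : List Pt :=
  [(D.a, 0), (0, 0), (0, D.a), (-D.a, 0), (0, -D.a), (-2 * D.a, D.a), (-D.a, -2 * D.a), (2 * D.a, -D.a), (-D.a, D.a), (-D.a, -D.a), (D.a, -D.a), (-2 * D.a, 0), (0, -2 * D.a), (2 * D.a, 0)]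

/-- The marked points. -/
def KB : List Pt :=
  [(D.a - 2 * D.b, -2 * D.a - 2 * D.b), (D.a - 2 * D.b, -2 * D.a - D.b), (D.a - D.b, -2 * D.a - D.b), (D.a - 2 * D.b, -2 * D.a), (D.a - 3 * D.b, -2 * D.a - D.b), (D.a - D.b, D.b - 2 * D.a), (D.a - 4 * D.b, -2 * D.a), (D.a - 3 * D.b, -2 * D.a - 3 * D.b), (D.a - D.b, -2 * D.a), (D.a - 3 * D.b, -2 * D.a), (D.a - 3 * D.b, -2 * D.a - 2 * D.b), (D.a - D.b, -2 * D.a), (D.a - 3 * D.b, -2 * D.a), (D.a - 3 * D.b, -2 * D.a - 2 * D.b)]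

/-- The marked points. -/
def KC : List Pt :=
  [(0, 0), (-D.b, -D.a), (-2 * D.b, -2 * D.a), (-3 * D.b, -3 * D.a), (D.a - 3 * D.b, -3 * D.a - D.b), (2 * D.a - 3 * D.b, -3 * D.a - 2 * D.b), (D.a - 2 * D.b, -2 * D.a - D.b), (D.a - D.b, -D.a - D.b)]

end D5

end NP
end Pool.Agent.Lib.MP_4a7072_co
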