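import Pool.Agent.Lib.MP_4a7072_co.F5Simple
import Pool.Agent.Lib.MP_4a7072_co.F5Cov

/-!
The design for `3 a < b` gives a dissection.
-/

set_option autoImplicit false
set_option linter.unnecessarySeqFocus false
set_option linter.unusedSimpArgs false
set_option linter.unusedVariables false
set_option linter.unreachableTactic false
set_option linter.unusedTactic false

namespace Pool.Agent.Lib.MP_4a7072_co
namespace NP


namespace D5

variable (D : D5)

theorem eA2 : D.A = D.F ++ back 1 (D.G ++ D.F) := by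
  have := D.ord
  have h := D.C.ZA D.C.qpos.le le_rfl
  rw [G, F, ← D.C.Z_append (by omega) (by omega), h, back13, A,
    D.C.Z_append (j := -D.C.q) (by omega) (by omega),
    ← D.C.Z_per (i' := D.J) (j' := D.C.q) (by ring) (by ring)]

theorem eL2 : D.L = D.M ++ D.N ++ D.T ++ back 3 D.T := by
  have := D.ord
  have h := D.C.ZB D.C.qpos.le le_rfl
  rw [T, ← h, M, N, ← D.C.Z_append (by omega) (by omega), ← D.C.Z_append (by omega) (by omega),
    ← D.C.Z_append (by omega) (by omega), L,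
    ← D.C.Z_per (i' := D.J) (j' := D.C.β + D.C.q) (by ring) (by ring)]

theorem dG : dsp D.G = (0, D.a + D.t) := by
  rw [D.arcG.dsp_eq]
  ext <;> simp only [Prod.fst_sub, Prod.snd_sub] <;> omega

theorem dA : dsp D.A = (2 * D.a, D.a - D.t) := by
  rw [D.arcA.dsp_eq]
  ext <;> simp only [Prod.fst_sub, Prod.snd_sub] <;> omega

theorem dM : dsp D.M = (D.p, D.b - D.a - D.p - D.t - 1) := by
  rw [D.arcM.dsp_eq]
  ext <;> simp only [Prod.fst_sub, Prod.snd_sub] <;> omega

theorem dN : dsp D.N = (D.b - 2 * D.a - D.p, D.p + 1) := by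
  rw [D.arcN.dsp_eq]
  ext <;> simp only [Prod.fst_sub, Prod.snd_sub] <;> omega

theorem dS : dsp D.S = (D.a + D.p - D.b, D.b - D.a - D.p - 1) := by
  rw [D.arcLs.dsp_eq]
  ext <;> simp only [Prod.fst_sub, Prod.snd_sub] <;> omega

theorem dR : dsp D.wR = (-D.a, 0) := by
  rw [D.arcRR.dsp_eq]
  ext <;> simp only [Prod.fst_sub, Prod.snd_sub] <;> omega

theorem dF : dsp D.F = (0, D.a - D.t) := by
  have := D.ord
  rw [F, D.C.Z_dsp (by omega), D.wq, D.wJ]
  ext <;> simp only [Prod.fst_sub, Prod.snd_sub] <;> omega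

theorem dT : dsp D.T = (2 * D.a, 0) := by
  have := D.ord
  rw [T, D.C.Z_dsp (by omega), D.wβ, D.wβq]
  ext <;> simp only [Prod.fst_sub, Prod.snd_sub] <;> omega

theorem dt : dsp (ea D.t) = (D.t, 0) := dsp_ea (by have := D.aux; omega)

theorem db : dsp (ea D.b) = (D.b, 0) := dsp_ea (by have := D.aux; omega)

theorem nR : D.wR ≠ [] :=
  List.append_ne_nil_of_left_ne_nil (List.append_ne_nil_of_left_ne_nil
    (List.append_ne_nil_of_right_ne_nil _ (rot_ne (ea_ne (by omega)))) _) _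

theorem treeA1 (ht : 0 < D.t) : TreeOK (0, D.a) (D.wA3 ++ D.wRA) D.KA1 := by
  have := D.aux
  have := D.ord
  have nG : D.G ≠ [] := D.C.Z_ne (by omega)
  have nF : D.F ≠ [] := D.C.Z_ne (by omega)
  have nM : D.M ≠ [] := D.C.Z_ne (by omega)
  have nN : D.N ≠ [] := D.C.Z_ne (by omega)
  have nT : rot 1 (ea D.t) ++ D.M ≠ [] := List.append_ne_nil_of_right_ne_nil _ nM
  have nS : D.S ≠ [] := stw_ne (by have := D.arcN.stop.lin; have := D.arcN.start.lin; omega)
  have nR := D.nR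
  have nb : ea D.b ≠ [] := ea_ne (by omega)
  refine (pinH (μ := rot 1 D.G) (o₁ := rot 1 D.F)
    (o₂ := back 3 (rot 2 (ea D.t) ++ rot 1 D.F) ++ rot 2 (ea D.t))
    (R := D.wR) (q := D.wA1 ++ back 1 D.G) (O := (0, 0)) (Z := (0, D.a)) (A := (-2 * D.a, D.a)) (B := (-2 * D.a, 0)) (B' := (-2 * D.a, 0))
    (rot_ne nG) nR (rot_ne nF) (List.append_ne_nil_of_right_ne_nil _ (rot_ne (ea_ne ht))) ?_ ?_ ?_ ?_
    (.inr (.inl ⟨_, rot_ne (ea_ne ht), rfl, ?_, rfl⟩))).cast rfl ?_ fun W => ?_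
  · simp [wA1, eA2, rot_append, back_append, back_back, rot_back, back_rot, rot_rot, rot_zero, back_ea]
  · simp only [List.map_cons, List.map_nil, List.cons_append, List.nil_append, List.append_nil,
      dsp_append, dsp_rot, dsp_back, List.cons.injEq, Prod.ext_iff, rotP_zero, rotP_1, rotP_2,
      rotP_3, Prod.fst_add, Prod.snd_add, Prod.fst_neg, Prod.snd_neg, dsp_nil, Prod.fst_zero,
      Prod.snd_zero, Prod.fst_sub, Prod.snd_sub, rho, Fin.reduceAdd, and_true, true_and, D.dG, D.dA, D.dF, D.dM, D.dN, D.dT, D.dS, D.dR, D.dt, D.db]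
    omega
  · simp only [List.map_cons, List.map_nil, List.cons_append, List.nil_append, List.append_nil,
      dsp_append, dsp_rot, dsp_back, List.cons.injEq, Prod.ext_iff, rotP_zero, rotP_1, rotP_2,
      rotP_3, Prod.fst_add, Prod.snd_add, Prod.fst_neg, Prod.snd_neg, dsp_nil, Prod.fst_zero,
      Prod.snd_zero, Prod.fst_sub, Prod.snd_sub, rho, Fin.reduceAdd, and_true, true_and, D.dG, D.dA, D.dF, D.dM, D.dN, D.dT, D.dS, D.dR, D.dt, D.db]
    omega
  · simp only [List.map_cons, List.map_nil, List.cons_append, List.nil_append, List.append_nil,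
      dsp_append, dsp_rot, dsp_back, List.cons.injEq, Prod.ext_iff, rotP_zero, rotP_1, rotP_2,
      rotP_3, Prod.fst_add, Prod.snd_add, Prod.fst_neg, Prod.snd_neg, dsp_nil, Prod.fst_zero,
      Prod.snd_zero, Prod.fst_sub, Prod.snd_sub, rho, Fin.reduceAdd, and_true, true_and, D.dG, D.dA, D.dF, D.dM, D.dN, D.dT, D.dS, D.dR, D.dt, D.db]
    omega
  · simp only [List.map_cons, List.map_nil, List.cons_append, List.nil_append, List.append_nil,
      dsp_append, dsp_rot, dsp_back, List.cons.injEq, Prod.ext_iff, rotP_zero, rotP_1, rotP_2,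
      rotP_3, Prod.fst_add, Prod.snd_add, Prod.fst_neg, Prod.snd_neg, dsp_nil, Prod.fst_zero,
      Prod.snd_zero, Prod.fst_sub, Prod.snd_sub, rho, Fin.reduceAdd, and_true, true_and, D.dG, D.dA, D.dF, D.dM, D.dN, D.dT, D.dS, D.dR, D.dt, D.db]
    omega
  · simp [wA3, wRA, π, wA1, eQ, rot_append, back_append, back_back, rot_back, back_rot, rot_rot, rot_zero, back_ea]
  · rw [show _ :: _ = D.KA1 from ?_]
    simp only [List.map_cons, List.map_nil, List.cons_append, List.nil_append, List.append_nil,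
      dsp_append, dsp_rot, dsp_back, List.cons.injEq, Prod.ext_iff, rotP_zero, rotP_1, rotP_2,
      rotP_3, Prod.fst_add, Prod.snd_add, Prod.fst_neg, Prod.snd_neg, dsp_nil, Prod.fst_zero,
      Prod.snd_zero, Prod.fst_sub, Prod.snd_sub, rho, Fin.reduceAdd, and_true, true_and, KA1]
    omega

theorem treeA0 (ht : D.t = 0) : TreeOK (0, D.a) (D.wA3 ++ D.wRA) D.KA0 := by
  have := D.aux
  have := D.ord
  have nG : D.G ≠ [] := D.C.Z_ne (by omega)
  have nF : D.F ≠ [] := D.C.Z_ne (by omega)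
  have nM : D.M ≠ [] := D.C.Z_ne (by omega)
  have nN : D.N ≠ [] := D.C.Z_ne (by omega)
  have nT : rot 1 (ea D.t) ++ D.M ≠ [] := List.append_ne_nil_of_right_ne_nil _ nM
  have nS : D.S ≠ [] := stw_ne (by have := D.arcN.stop.lin; have := D.arcN.start.lin; omega)
  have nR := D.nR
  have nb : ea D.b ≠ [] := ea_ne (by omega)
  refine (pinH (μ := rot 1 D.G) (o₁ := rot 1 D.F)
    (o₂ := back 3 (rot 1 D.F))
    (R := D.wR) (q := D.wA1 ++ back 1 D.G) (O := (0, 0)) (Z := (0, D.a)) (A := (-2 * D.a, D.a)) (B := (-D.a, D.a)) (B' := (-2 * D.a, 0))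
    (rot_ne nG) nR (rot_ne nF) (back_ne (rot_ne nF)) ?_ ?_ ?_ ?_
    (.inr (.inr ⟨rot 1 (D.C.Z D.J (D.J + 1)), rot 1 (D.C.Z (D.J + 1) D.C.q),
      rot_ne (D.C.Z_ne (by omega)), rot_ne (D.C.Z_ne (by omega)),
      by rw [← rot_append, ← D.C.Z_append (by omega) (by omega)]; rfl, rfl, ?_, ?_⟩))).cast rfl ?_ fun W => ?_
  · simp [wA1, eA2, ht, show ea 0 = [] from rfl, show ∀ t, rot t [] = [] from fun _ => rfl, back_nil, rot_append, back_append, back_back, rot_back, back_rot, rot_rot, rot_zero, back_ea]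
  · simp only [List.map_cons, List.map_nil, List.cons_append, List.nil_append, List.append_nil,
      dsp_append, dsp_rot, dsp_back, List.cons.injEq, Prod.ext_iff, rotP_zero, rotP_1, rotP_2,
      rotP_3, Prod.fst_add, Prod.snd_add, Prod.fst_neg, Prod.snd_neg, dsp_nil, Prod.fst_zero,
      Prod.snd_zero, Prod.fst_sub, Prod.snd_sub, rho, Fin.reduceAdd, and_true, true_and, D.dG, D.dA, D.dF, D.dM, D.dN, D.dT, D.dS, D.dR, D.dt, D.db]
    omega
  · simp only [List.map_cons, List.map_nil, List.cons_append, List.nil_append, List.append_nil,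
      dsp_append, dsp_rot, dsp_back, List.cons.injEq, Prod.ext_iff, rotP_zero, rotP_1, rotP_2,
      rotP_3, Prod.fst_add, Prod.snd_add, Prod.fst_neg, Prod.snd_neg, dsp_nil, Prod.fst_zero,
      Prod.snd_zero, Prod.fst_sub, Prod.snd_sub, rho, Fin.reduceAdd, and_true, true_and, D.dG, D.dA, D.dF, D.dM, D.dN, D.dT, D.dS, D.dR, D.dt, D.db]
    omega
  · simp only [List.map_cons, List.map_nil, List.cons_append, List.nil_append, List.append_nil,
      dsp_append, dsp_rot, dsp_back, List.cons.injEq, Prod.ext_iff, rotP_zero, rotP_1, rotP_2,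
      rotP_3, Prod.fst_add, Prod.snd_add, Prod.fst_neg, Prod.snd_neg, dsp_nil, Prod.fst_zero,
      Prod.snd_zero, Prod.fst_sub, Prod.snd_sub, rho, Fin.reduceAdd, and_true, true_and, D.dG, D.dA, D.dF, D.dM, D.dN, D.dT, D.dS, D.dR, D.dt, D.db]
    omega
  · simp only [List.map_cons, List.map_nil, List.cons_append, List.nil_append, List.append_nil,
      dsp_append, dsp_rot, dsp_back, List.cons.injEq, Prod.ext_iff, rotP_zero, rotP_1, rotP_2,
      rotP_3, Prod.fst_add, Prod.snd_add, Prod.fst_neg, Prod.snd_neg, dsp_nil, Prod.fst_zero,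
      Prod.snd_zero, Prod.fst_sub, Prod.snd_sub, rho, Fin.reduceAdd, and_true, true_and, D.dG, D.dA, D.dF, D.dM, D.dN, D.dT, D.dS, D.dR, D.dt, D.db]
    omega
  · simp only [List.map_cons, List.map_nil, List.cons_append, List.nil_append, List.append_nil,
      dsp_append, dsp_rot, dsp_back, List.cons.injEq, Prod.ext_iff, rotP_zero, rotP_1, rotP_2,
      rotP_3, Prod.fst_add, Prod.snd_add, Prod.fst_neg, Prod.snd_neg, dsp_nil, Prod.fst_zero,
      Prod.snd_zero, Prod.fst_sub, Prod.snd_sub, rho, Fin.reduceAdd, and_true, true_and, D.dG, D.dA, D.dF, D.dM, D.dN, D.dT, D.dS, D.dR, D.dt, D.db]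
    omega
  · simp [wA3, wRA, π, wA1, eQ, rot_append, back_append, back_back, rot_back, back_rot, rot_rot, rot_zero, back_ea]
  · rw [show _ :: _ = D.KA0 from ?_]
    simp only [List.map_cons, List.map_nil, List.cons_append, List.nil_append, List.append_nil,
      dsp_append, dsp_rot, dsp_back, List.cons.injEq, Prod.ext_iff, rotP_zero, rotP_1, rotP_2,
      rotP_3, Prod.fst_add, Prod.snd_add, Prod.fst_neg, Prod.snd_neg, dsp_nil, Prod.fst_zero,
      Prod.snd_zero, Prod.fst_sub, Prod.snd_sub, rho, Fin.reduceAdd, and_true, true_and, KA0]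
    omega

theorem treeB : TreeOK (D.a - D.b, -2 * D.a - D.b) (D.wB3 ++ D.wRB) D.KB := by
  have := D.aux
  have := D.ord
  have nG : D.G ≠ [] := D.C.Z_ne (by omega)
  have nF : D.F ≠ [] := D.C.Z_ne (by omega)
  have nM : D.M ≠ [] := D.C.Z_ne (by omega)
  have nN : D.N ≠ [] := D.C.Z_ne (by omega)
  have nT : rot 1 (ea D.t) ++ D.M ≠ [] := List.append_ne_nil_of_right_ne_nil _ nM
  have nS : D.S ≠ [] := stw_ne (by have := D.arcN.stop.lin; have := D.arcN.start.lin; omega)
  have nR := D.nR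
  have nb : ea D.b ≠ [] := ea_ne (by omega)
  refine (pinH (μ := back 1 D.wU ++ D.S) (o₁ := back 0 (rot 1 (ea D.t) ++ D.M) ++ rot 1 D.wS ++ back 1 (back 0 (D.N ++ D.T) ++ (back 0 (rot 1 (ea D.t) ++ D.M) ++ rot 1 D.wS)))
    (o₂ := back 0 (D.N ++ D.T))
    (R := rot 1 (ea D.b)) (q := D.qb) (O := (D.a - 2 * D.b, -2 * D.a - D.b)) (Z := (D.a - D.b, -2 * D.a - D.b)) (A := (D.a - D.b, D.b - 2 * D.a)) (B := (D.a - D.b, -2 * D.a)) (B' := (D.a - D.b, -2 * D.a))
    (List.append_ne_nil_of_right_ne_nil _ nS) (rot_ne nb) (by simp [back, nM]) (by simp [back, nN]) ?_ ?_ ?_ ?_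
    (.inl ⟨_, by simp [back, nM], rfl, ?_, rfl⟩)).cast rfl ?_ fun W => ?_
  · simp [qb, wB1, wB2, wU, wS, eL2, rot_append, back_append, back_back, rot_back, back_rot, rot_rot, rot_zero, back_ea]
  · simp only [List.map_cons, List.map_nil, List.cons_append, List.nil_append, List.append_nil,
      dsp_append, dsp_rot, dsp_back, List.cons.injEq, Prod.ext_iff, rotP_zero, rotP_1, rotP_2,
      rotP_3, Prod.fst_add, Prod.snd_add, Prod.fst_neg, Prod.snd_neg, dsp_nil, Prod.fst_zero,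
      Prod.snd_zero, Prod.fst_sub, Prod.snd_sub, rho, Fin.reduceAdd, and_true, true_and, D.dG, D.dA, D.dF, D.dM, D.dN, D.dT, D.dS, D.dR, D.dt, D.db, wU, wS]
    omega
  · simp only [List.map_cons, List.map_nil, List.cons_append, List.nil_append, List.append_nil,
      dsp_append, dsp_rot, dsp_back, List.cons.injEq, Prod.ext_iff, rotP_zero, rotP_1, rotP_2,
      rotP_3, Prod.fst_add, Prod.snd_add, Prod.fst_neg, Prod.snd_neg, dsp_nil, Prod.fst_zero,
      Prod.snd_zero, Prod.fst_sub, Prod.snd_sub, rho, Fin.reduceAdd, and_true, true_and, D.dG, D.dA, D.dF, D.dM, D.dN, D.dT, D.dS, D.dR, D.dt, D.db, wU, wS]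
    omega
  · simp only [List.map_cons, List.map_nil, List.cons_append, List.nil_append, List.append_nil,
      dsp_append, dsp_rot, dsp_back, List.cons.injEq, Prod.ext_iff, rotP_zero, rotP_1, rotP_2,
      rotP_3, Prod.fst_add, Prod.snd_add, Prod.fst_neg, Prod.snd_neg, dsp_nil, Prod.fst_zero,
      Prod.snd_zero, Prod.fst_sub, Prod.snd_sub, rho, Fin.reduceAdd, and_true, true_and, D.dG, D.dA, D.dF, D.dM, D.dN, D.dT, D.dS, D.dR, D.dt, D.db, wU, wS]
    omega
  · simp only [List.map_cons, List.map_nil, List.cons_append, List.nil_append, List.append_nil,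
      dsp_append, dsp_rot, dsp_back, List.cons.injEq, Prod.ext_iff, rotP_zero, rotP_1, rotP_2,
      rotP_3, Prod.fst_add, Prod.snd_add, Prod.fst_neg, Prod.snd_neg, dsp_nil, Prod.fst_zero,
      Prod.snd_zero, Prod.fst_sub, Prod.snd_sub, rho, Fin.reduceAdd, and_true, true_and, D.dG, D.dA, D.dF, D.dM, D.dN, D.dT, D.dS, D.dR, D.dt, D.db, wU, wS]
    omega
  · simp [wB3, wRB, back_rot]
  · rw [show _ :: _ = D.KB from ?_]
    simp only [List.map_cons, List.map_nil, List.cons_append, List.nil_append, List.append_nil,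
      dsp_append, dsp_rot, dsp_back, List.cons.injEq, Prod.ext_iff, rotP_zero, rotP_1, rotP_2,
      rotP_3, Prod.fst_add, Prod.snd_add, Prod.fst_neg, Prod.snd_neg, dsp_nil, Prod.fst_zero,
      Prod.snd_zero, Prod.fst_sub, Prod.snd_sub, rho, Fin.reduceAdd, and_true, true_and, KB]
    omega

theorem treeC : TreeOK (0, -2 * D.a - D.t) (D.α ++ D.β) D.KC := by
  have := D.aux
  have := D.ord
  have nG : D.G ≠ [] := D.C.Z_ne (by omega)
  have nF : D.F ≠ [] := D.C.Z_ne (by omega)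
  have nM : D.M ≠ [] := D.C.Z_ne (by omega)
  have nN : D.N ≠ [] := D.C.Z_ne (by omega)
  have nT : rot 1 (ea D.t) ++ D.M ≠ [] := List.append_ne_nil_of_right_ne_nil _ nM
  have nS : D.S ≠ [] := stw_ne (by have := D.arcN.stop.lin; have := D.arcN.start.lin; omega)
  have nR := D.nR
  have nb : ea D.b ≠ [] := ea_ne (by omega)
  refine (((((((((TB.leaf nR).tu.cat ((((((((TB.leaf (back_ne (t := 0) nS)).tu.zip (back 0 D.N)).zip (rot 1 D.N)).cat (((TB.leaf (back_ne (t := 1) nT)).tu.zip (rot 1 D.S)).zip (back 2 D.S))).zip (rot 1 D.M)).zip (rot 2 (ea D.t))).zip (back 1 (ea D.t))).zip (back 0 D.A))).zip (back 3 D.G)).cat (((((TB.leaf (back_ne (t := 1) nS)).tu.zip (back 1 D.N)).zip (rot 2 D.N)).cat (((TB.leaf (back_ne (t := 2) nT)).tu.zip (rot 2 D.S)).zip (back 3 D.S))).zip (rot 2 D.M))).zip ((ea D.t))).zip (back 3 (ea D.t))).zip (back 2 D.A)).zip (back 2 D.G)).cat ((((((TB.leaf (back_ne (t := 2) nS)).tu.zip (back 2 D.N)).cat (TB.leaf (rot_ne (t :=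 1) nb)).tu).zip (rot 3 D.N)).cat (((TB.leaf (back_ne (t := 0) nT)).tu.zip (D.S)).zip (back 1 D.S))).zip (rot 3 D.M))).ok
    (u := []) rfl (by
      simp [α, β, wA1, wA2, wC0, wC1, wC2, wRA, wRB, π, qb, wB1, wB2, wU, wS, eL, eQ, eO, rot_append, back_append, back_back, rot_back, back_rot, rot_rot, rot_zero, back_ea])
    fun W => ?_
  rw [show List.map _ _ = D.KC from ?_]
  simp only [List.map_cons, List.map_nil, List.cons_append, List.nil_append, List.append_nil,
      dsp_append, dsp_rot, dsp_back, List.cons.injEq, Prod.ext_iff, rotP_zero, rotP_1, rotP_2,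
      rotP_3, Prod.fst_add, Prod.snd_add, Prod.fst_neg, Prod.snd_neg, dsp_nil, Prod.fst_zero,
      Prod.snd_zero, Prod.fst_sub, Prod.snd_sub, rho, Fin.reduceAdd, and_true, true_and, D.dG, D.dA, D.dF, D.dM, D.dN, D.dT, D.dS, D.dR, D.dt, D.db, KC]
  omega

include D in
theorem twoPiece {a b c : ℕ} (ha : D.a = a) (hb : D.b = b) (h : a ^ 2 + b ^ 2 = c ^ 2) :
    TwoPieceDissection a b c := by
  have := D.aux
  have hZ : (a : ℤ) ^ 2 + (b : ℤ) ^ 2 = (c : ℤ) ^ 2 := by exact_mod_cast h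
  let Λa : Lat := ⟨D.a, 0, a, by omega, le_rfl, by rw [ha]; ring⟩
  let Λb : Lat := ⟨D.b, 0, b, by omega, le_rfl, by rw [hb]; ring⟩
  let Λc : Lat := ⟨D.b, D.a, c, by omega, by omega, by rw [ha, hb]; linear_combination hZ⟩
  have nA : Net Λa (0, 0) (0, D.a) (D.wA3 ++ D.wRA) := by
    rcases (by omega : 0 < D.t ∨ D.t = 0) with ht | ht
    · exact net_env D.sA0.1 D.sA2 D.sA0.2 (D.treeA1 ht) D.memA1 (D.covA1 ht)
    · exact net_env D.sA0.1 D.sA2 D.sA0.2 (D.treeA0 ht) D.memA0 (D.covA0 ht)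
  have nB : Net Λb (D.a - 2 * D.b, -2 * D.a - D.b) _ _ := net_env D.sB0.1 D.sB2 D.sB0.2 D.treeB D.memB D.covB
  have nC : Net Λc (0, 0) _ ([] ++ _) := net_env D.sC0.1 D.sC2 D.sC0.2 D.treeC D.memC D.covC
  rw [D.eA'] at nA
  rw [D.eB'] at nB
  refine twoPiece_of_net (Λa := Λa) (Λb := Λb) (Λc := Λc) rfl rfl h nA nB nC
    (List.append_nil _) ?_ ?_
  · rw [D.covC1.1, D.arcA1.1, D.arcIA.1]
  · rw [D.arcA1.1, D.arcIA.1]
    rfl

end D5

theorem twoPiece_529 (a b c : ℕ) (hab : 3 * a < b) (hr : a < b % (2 * a))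
    (h : a ^ 2 + b ^ 2 = c ^ 2) (hc : Nat.Coprime a b) (ho : a % 2 = 1) (he : b % 2 = 0) :
    TwoPieceDissection a b c := by
  obtain ⟨D, ha, hb⟩ := exists_D5 a b (by omega) (by omega) (by omega) (by omega)
    (by exact_mod_cast hr) (Nat.isCoprime_iff_coprime.2 hc)
  exact D.twoPiece ha hb h

end NP
end Pool.Agent.Lib.MP_4a7072_co
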