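import Pool.Agent.Lib.MP_4a7072_co.F5Defs

/-!
The boundaries of the design for `3 a < b` are simple closed paths.
-/

set_option autoImplicit false
set_option linter.unnecessarySeqFocus false
set_option linter.unusedSimpArgs false
set_option linter.unusedVariables false
set_option linter.unreachableTactic false
set_option linter.unusedTactic false

namespace Pool.Agent.Lib.MP_4a7072_co
namespace NP


namespace D5

variable (D : D5)

theorem arcRR : CArc (D.a, 0) D.wR (0, 0) D.RR := by
  have := D.aux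
  have h0 := D.arcLe.p3 (P' := (D.a, 0)) (Q' := (D.a, -D.e)) D.a 0 (by dsimp only; omega)
  have h1 := D.arcL1.p2 (P' := (D.a, -D.e)) (Q' := (D.a - 1, -D.e)) D.a (-D.e) (by dsimp only; omega)
  have h2 := D.arcLa.p2 (P' := (D.a - 1, -D.e)) (Q' := (0, -D.e)) (D.a - 1) (-D.e) (by dsimp only; omega)
  have h3 := D.arcLe.p1 (P' := (0, -D.e)) (Q' := (0, 0)) 0 (-D.e) (by dsimp only; omega)
  refine ((h0.append h1 ?_).append h2 ?_).append h3 ?_
  · intro X Y a b
    show X = D.a ∧ Y = -D.e
    have ha := a.lin; have hb := b.lin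
    obtain ⟨-, k27, k28⟩ := ha
    obtain ⟨-, -, k32⟩ := hb
    clear this
    lia
  · intro X Y a b
    show X = D.a - 1 ∧ Y = -D.e
    rcases a with a | a
    · have ha := a.lin; have hb := b.lin
      obtain ⟨-, -, k28⟩ := ha
      obtain ⟨k30, -⟩ := hb
      clear this
      lia
    · have ha := a.lin; have hb := b.lin
      obtain ⟨-, k27, k28⟩ := ha
      obtain ⟨k30, -⟩ := hb
      clear this
      lia
  · intro X Y a b
    show X = 0 ∧ Y = -D.e
    rcases a with (a | a) | a
    · have ha := a.lin; have hb := b.lin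
      obtain ⟨k1, -⟩ := this
      obtain ⟨-, -, k28⟩ := ha
      obtain ⟨-, -, k32⟩ := hb
      lia
    · have ha := a.lin; have hb := b.lin
      obtain ⟨k1, -, k3, -, k5, k6, -⟩ := this
      obtain ⟨k26, k27, -⟩ := ha
      obtain ⟨-, -, k32⟩ := hb
      lia
    · have ha := a.lin; have hb := b.lin
      obtain ⟨-, k27, k28⟩ := ha
      obtain ⟨-, -, k32⟩ := hb
      clear this
      lia

theorem arcRA : CArc (D.a, 0) D.wRA (0, D.a) D.RA := by
  have := D.aux
  have h0 := D.arcRR
  have h1 := D.arcRR.b1 (Q' := (0, 0)) (P' := (0, D.a)) 0 0 (by dsimp only; omega)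
  refine h0.append h1 ?_
  · intro X Y a b
    show X = 0 ∧ Y = 0
    rcases a with ((a | a) | a) | a
    · have ha := a.lin; have hb := b.lin
      obtain ⟨k1, -, k3, -, k5, k6, k7, -⟩ := this
      obtain ⟨-, -, k28⟩ := ha
      obtain ⟨-, -, k32, k33, -⟩ := hb
      rcases k7 with ⟨k9, -⟩ | ⟨k14, -⟩ <;> lia
    · have ha := a.lin; have hb := b.lin
      obtain ⟨k1, -, k3, -, k5, k6, -⟩ := this
      obtain ⟨k26, k27, k28⟩ := ha
      obtain ⟨-, -, k32, -, -, k35, -⟩ := hb
      lia
    · have ha := a.lin; have hb := b.lin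
      obtain ⟨-, k27, k28⟩ := ha
      obtain ⟨-, k31, -, k33, -, k35, -⟩ := hb
      clear this
      lia
    · have ha := a.lin; have hb := b.lin
      obtain ⟨-, k27, k28⟩ := ha
      obtain ⟨-, k31, -⟩ := hb
      clear this
      lia

theorem arcA1 : CArc (0, D.a) D.wA1 (-2 * D.a - D.t, 0) D.A1 := by
  have := D.aux
  have h0 := D.arcA.b0 (Q' := (0, D.a)) (P' := (-2 * D.a, D.t)) 0 D.a (by dsimp only; omega)
  have h1 := D.arcLt.b1 (Q' := (-2 * D.a, D.t)) (P' := (-2 * D.a, 0)) (-2 * D.a) 0 (by dsimp only; omega)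
  have h2 := D.arcLt.p2 (P' := (-2 * D.a, 0)) (Q' := (-2 * D.a - D.t, 0)) (-2 * D.a) 0 (by dsimp only; omega)
  refine (h0.append h1 ?_).append h2 ?_
  · intro X Y a b
    show X = -2 * D.a ∧ Y = D.t
    have ha := a.lin; have hb := b.lin
    obtain ⟨k1, -, k3, -, k5, k6, k7, -⟩ := this
    obtain ⟨k26, -⟩ := ha
    obtain ⟨-, k74, k75⟩ := hb
    rcases k26 with ⟨-, -, -, k31⟩ | ⟨-, -, -, k52, k53, -⟩
    · rcases k31 with ⟨k33, -, k35⟩ | ⟨-, -, -, k40, -⟩
      · rcases k7 with ⟨-, -, -, k12⟩ | ⟨k14, -⟩ <;> lia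
      · rcases k40 with k41 | k42 <;> lia
    · rcases k7 with ⟨-, k10, -, k12⟩ | ⟨-, k15, -, -, k18⟩ <;> lia
  · intro X Y a b
    show X = -2 * D.a ∧ Y = 0
    rcases a with a | a
    · have ha := a.lin; have hb := b.lin
      obtain ⟨k1, -, k3, -⟩ := this
      obtain ⟨k26, k69⟩ := ha
      obtain ⟨k73, -, k75⟩ := hb
      rcases k26 with ⟨-, -, -, k31⟩ | ⟨-, k50, -⟩
      · rcases k69 with k70 | k71
        · rcases k31 with ⟨-, k34, k35⟩ | ⟨-, -, -, -, k43⟩
          · lia
          · rcases k43 with k44 | ⟨-, k47⟩ <;> lia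
        · lia
      · lia
    · have ha := a.lin; have hb := b.lin
      obtain ⟨k26, -, k28⟩ := ha
      obtain ⟨-, -, k32⟩ := hb
      clear this
      lia

theorem arcIA : CArc (-2 * D.a - D.t, 0) D.π (0, -2 * D.a - D.t) D.IA := by
  have := D.aux
  have h0 := D.arcQ.b1 (Q' := (-2 * D.a - D.t, 0)) (P' := (-D.t, -2 * D.a)) (-D.a) 0 (by dsimp only; omega)
  have h1 := D.arcLt.b2 (Q' := (-D.t, -2 * D.a)) (P' := (0, -2 * D.a)) 0 (-2 * D.a) (by dsimp only; omega)
  have h2 := D.arcLt.p3 (P' := (0, -2 * D.a)) (Q' := (0, -2 * D.a - D.t)) 0 (-2 * D.a) (by dsimp only; omega)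
  refine (h0.append h1 ?_).append h2 ?_
  · intro X Y a b
    show X = -D.t ∧ Y = -2 * D.a
    have ha := a.lin; have hb := b.lin
    obtain ⟨k1, -, k3, -, k5, k6, k7, -⟩ := this
    obtain ⟨k26, -⟩ := ha
    obtain ⟨k98, k99, k100⟩ := hb
    rcases k26 with ⟨-, -, -, k31⟩ | ⟨-, -, -, k52, k53, -⟩ | ⟨k70, -, -, -, k74, k75, -⟩
    · rcases k31 with ⟨k33, -, k35⟩ | ⟨-, -, -, k40, -⟩
      · rcases k7 with ⟨-, -, -, k12⟩ | ⟨k14, -⟩ <;> lia
      · rcases k40 with k41 | k42 <;> lia
    · rcases k7 with ⟨-, k10, -, k12⟩ | ⟨-, k15, -, -, k18⟩ <;> lia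
    · rcases k7 with ⟨-, k10, -⟩ | ⟨-, k15, -⟩ <;> lia
  · intro X Y a b
    show X = 0 ∧ Y = -2 * D.a
    rcases a with a | a
    · have ha := a.lin; have hb := b.lin
      obtain ⟨k1, -, k3, -⟩ := this
      obtain ⟨k26, k94⟩ := ha
      obtain ⟨k98, -, k100⟩ := hb
      rcases k26 with ⟨-, -, -, k31⟩ | ⟨-, k50, -⟩ | ⟨k70, k71, -⟩
      · rcases k94 with k95 | k96
        · rcases k31 with ⟨-, k34, k35⟩ | ⟨-, -, -, -, k43⟩
          · lia
          · rcases k43 with k44 | ⟨-, k47⟩ <;> lia
        · lia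
      · lia
      · lia
    · have ha := a.lin; have hb := b.lin
      obtain ⟨k26, -, k28⟩ := ha
      obtain ⟨-, -, k32⟩ := hb
      clear this
      lia

theorem arcA3 : CArc (0, D.a) D.wA3 (D.a, 0) D.A3 := by
  have := D.aux
  have h0 := D.arcA1
  have h1 := D.arcIA
  have h2 := D.arcIA.p1 (P' := (0, -2 * D.a - D.t)) (Q' := (2 * D.a + D.t, 0)) 0 0 (by dsimp only; omega)
  have h3 := D.arcG.b3 (Q' := (2 * D.a + D.t, 0)) (P' := (D.a, 0)) D.a 0 (by dsimp only; omega)
  refine ((h0.append h1 ?_).append h2 ?_).append h3 ?_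
  · intro X Y a b
    show X = -2 * D.a - D.t ∧ Y = 0
    rcases b with (b | b) | b
    · rcases a with (a | a) | a
      · have ha := a.lin; have hb := b.lin
        obtain ⟨k1, -, k3, -, -, k6, k7, -⟩ := this
        obtain ⟨k26, k69⟩ := ha
        obtain ⟨k73, k141⟩ := hb
        rcases k7 with ⟨k9, k10, k11, -⟩ | ⟨k14, -, -, k17, -⟩
        · rcases k69 with k70 | k71
          · rcases k141 with k142 | k143
            · rcases k26 with ⟨-, k29, -, k31⟩ | ⟨k49, -, -, -, k53, -⟩
              · rcases k31 with ⟨-, k34, k35⟩ | ⟨k37, -⟩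
                · rcases k73 with ⟨k75, -⟩ | ⟨k96, -⟩ | ⟨-, -, -, -, -, -, k123, -⟩
                  · lia
                  · lia
                  · rcases k123 with ⟨-, k126⟩ | ⟨k130, -⟩
                    · rcases k126 with k127 | k128 <;> lia
                    · lia
                · lia
              · rcases k73 with ⟨-, k76, -⟩ | ⟨-, -, -, -, -, k101, -⟩ | ⟨-, -, k119, -⟩ <;> lia
            · lia
          · rcases k141 with k142 | k143
            · lia
            · rcases k26 with ⟨-, k29, -, k31⟩ | ⟨k49, -, -, -, k53, -⟩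
              · rcases k31 with ⟨-, k34, k35⟩ | ⟨k37, -⟩
                · rcases k73 with ⟨k75, -⟩ | ⟨k96, -⟩ | ⟨-, -, -, -, -, -, k123, -⟩
                  · lia
                  · lia
                  · rcases k123 with ⟨-, k126⟩ | ⟨k130, -⟩
                    · rcases k126 with k127 | k128 <;> lia
                    · lia
                · lia
              · rcases k73 with ⟨-, k76, -⟩ | ⟨-, -, -, -, -, k101, -⟩ | ⟨-, -, k119, -⟩ <;> lia
        · rcases k26 with ⟨-, k29, -, k31⟩ | ⟨-, -, k51, -, -, -, k55⟩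
          · rcases k31 with ⟨k33, -⟩ | ⟨-, -, k39, k40, k43⟩
            · lia
            · rcases k43 with k44 | ⟨k46, k47⟩
              · rcases k73 with ⟨k75, -⟩ | ⟨k96, -⟩ | ⟨-, -, -, -, -, -, k123, -⟩
                · lia
                · lia
                · rcases k123 with ⟨k125, -⟩ | ⟨-, -, k132, -⟩ <;> lia
              · rcases k40 with k41 | k42 <;> lia
          · rcases k55 with ⟨k57, -⟩ | ⟨-, k63, -⟩
            · lia
            · rcases k73 with ⟨-, k76, -⟩ | ⟨k96, -⟩ | ⟨-, -, -, -, -, -, k123, -⟩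
              · lia
              · lia
              · rcases k123 with ⟨k125, -⟩ | ⟨-, -, k132, -⟩ <;> lia
      · have ha := a.lin; have hb := b.lin
        obtain ⟨k1, -, k3, -, k5, k6, k7, -⟩ := this
        obtain ⟨k26, k27, k28⟩ := ha
        obtain ⟨k30, -⟩ := hb
        rcases k30 with ⟨k32, -⟩ | ⟨k53, k54, k55, -⟩ | ⟨-, -, -, -, -, -, k80, -⟩
        · lia
        · lia
        · rcases k80 with ⟨k82, k83⟩ | ⟨-, -, k89, k90⟩
          · rcases k7 with ⟨-, -, k11, -⟩ | ⟨k14, -⟩
            · rcases k83 with k84 | k85 <;> lia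
            · lia
          · rcases k90 with k91 | k92 | k93 <;> lia
      · have ha := a.lin; have hb := b.lin
        obtain ⟨k1, -, k3, -, k5, k6, k7, -⟩ := this
        obtain ⟨k26, k27, k28⟩ := ha
        obtain ⟨k30, -⟩ := hb
        rcases k30 with ⟨k32, -⟩ | ⟨-, -, k55, -⟩ | ⟨-, -, -, -, -, -, k80, -⟩
        · lia
        · lia
        · rcases k80 with ⟨k82, k83⟩ | ⟨-, -, -, k90⟩
          · rcases k7 with ⟨-, -, k11, k12⟩ | ⟨k14, -⟩
            · rcases k83 with k84 | k85 <;> lia
            · lia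
          · rcases k90 with k91 | k92 | k93 <;> lia
    · have ha := a.lin; have hb := b.lin
      obtain ⟨k1, -, k3, -, k5, k6, -⟩ := this
      obtain ⟨-, -, -, k29, -⟩ := ha
      obtain ⟨-, -, k37⟩ := hb
      lia
    · have ha := a.lin; have hb := b.lin
      obtain ⟨k1, -, k3, -, k5, k6, -⟩ := this
      obtain ⟨-, -, -, k29, -⟩ := ha
      obtain ⟨k35, -⟩ := hb
      lia
  · intro X Y a b
    show X = 0 ∧ Y = -2 * D.a - D.t
    rcases a with a | a
    · have ha := a.lin; have hb := b.lin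
      obtain ⟨k1, -, k3, -, -, -, k7, -⟩ := this
      obtain ⟨k26, -, -, k29, k30, k31, -, k33⟩ := ha
      obtain ⟨k35, -, k37, -, k39, -⟩ := hb
      rcases k7 with ⟨-, k10, -⟩ | ⟨-, k15, k16, -⟩ <;> lia
    · rcases b with (b | b) | b
      · rcases a with (a | a) | a
        · have ha := a.lin; have hb := b.lin
          obtain ⟨k1, -, k3, -, k5, k6, k7, -⟩ := this
          obtain ⟨k26, k94⟩ := ha
          obtain ⟨k98, k166⟩ := hb
          rcases k26 with ⟨-, k29, -, k31⟩ | ⟨k49, -, k51, -, k53, k54, k55⟩ | ⟨k70, -, k72, -, k74, k75, -⟩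
          · rcases k7 with ⟨k9, -, k11, -⟩ | ⟨k14, -, -, k17, -⟩
            · rcases k31 with ⟨-, k34, k35⟩ | ⟨k37, -⟩
              · rcases k94 with k95 | k96
                · rcases k166 with k167 | k168
                  · rcases k98 with ⟨k100, -⟩ | ⟨k121, -⟩ | ⟨-, -, -, -, -, -, k148, -⟩
                    · lia
                    · lia
                    · rcases k148 with ⟨-, k151⟩ | ⟨k155, -⟩
                      · rcases k151 with k152 | k153 <;> lia
                      · lia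
                  · lia
                · rcases k166 with k167 | k168
                  · lia
                  · rcases k98 with ⟨k100, -⟩ | ⟨k121, -⟩ | ⟨-, -, -, -, -, -, k148, -⟩
                    · lia
                    · lia
                    · rcases k148 with ⟨-, k151⟩ | ⟨k155, -⟩
                      · rcases k151 with k152 | k153 <;> lia
                      · lia
              · lia
            · rcases k31 with ⟨k33, -⟩ | ⟨-, -, k39, k40, k43⟩
              · lia
              · rcases k43 with k44 | ⟨k46, k47⟩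
                · rcases k98 with ⟨k100, -⟩ | ⟨k121, -⟩ | ⟨-, -, -, -, -, -, k148, -⟩
                  · lia
                  · lia
                  · rcases k148 with ⟨k150, -⟩ | ⟨-, -, k157, -⟩ <;> lia
                · rcases k40 with k41 | k42 <;> lia
          · rcases k7 with ⟨-, k10, -⟩ | ⟨k14, -⟩
            · rcases k94 with k95 | k96
              · rcases k166 with k167 | k168
                · rcases k98 with ⟨-, k101, -⟩ | ⟨-, -, k123, -, -, k126, -⟩ | ⟨-, -, k144, -⟩ <;> lia
                · lia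
              · rcases k166 with k167 | k168
                · lia
                · rcases k98 with ⟨-, k101, -⟩ | ⟨-, -, k123, -, -, k126, -⟩ | ⟨-, -, k144, -⟩ <;> lia
            · rcases k55 with ⟨k57, -⟩ | ⟨-, k63, -⟩
              · lia
              · rcases k98 with ⟨-, k101, -⟩ | ⟨k121, -⟩ | ⟨-, -, -, -, -, -, k148, -⟩
                · lia
                · lia
                · rcases k148 with ⟨k150, -⟩ | ⟨-, -, k157, -⟩ <;> lia
          · rcases k98 with ⟨-, k101, -⟩ | ⟨k121, -, k123, -⟩ | ⟨-, -, k144, k145, -⟩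
            · lia
            · lia
            · rcases k7 with ⟨-, k10, -⟩ | ⟨-, k15, -⟩ <;> lia
        · have ha := a.lin; have hb := b.lin
          obtain ⟨k1, -, k3, -, k5, k6, k7, -⟩ := this
          obtain ⟨k26, k27, k28⟩ := ha
          obtain ⟨k30, -⟩ := hb
          rcases k30 with ⟨k32, -⟩ | ⟨k53, k54, k55, -⟩ | ⟨-, -, -, -, -, -, k80, -⟩
          · lia
          · lia
          · rcases k80 with ⟨k82, k83⟩ | ⟨-, -, k89, k90⟩
            · rcases k7 with ⟨-, -, k11, -⟩ | ⟨k14, -⟩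
              · rcases k83 with k84 | k85 <;> lia
              · lia
            · rcases k90 with k91 | k92 | k93 <;> lia
        · have ha := a.lin; have hb := b.lin
          obtain ⟨k1, -, k3, -, k5, k6, k7, -⟩ := this
          obtain ⟨k26, k27, k28⟩ := ha
          obtain ⟨k30, -⟩ := hb
          rcases k30 with ⟨k32, -⟩ | ⟨-, -, k55, -⟩ | ⟨-, -, -, -, -, -, k80, -⟩
          · lia
          · lia
          · rcases k80 with ⟨k82, k83⟩ | ⟨-, -, -, k90⟩
            · rcases k7 with ⟨-, -, k11, k12⟩ | ⟨k14, -⟩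
              · rcases k83 with k84 | k85 <;> lia
              · lia
            · rcases k90 with k91 | k92 | k93 <;> lia
      · have ha := a.lin; have hb := b.lin
        obtain ⟨k1, -⟩ := this
        obtain ⟨k26, k27, -⟩ := ha
        obtain ⟨-, -, k37⟩ := hb
        lia
      · have ha := a.lin; have hb := b.lin
        obtain ⟨k1, -, k3, -, k5, k6, -⟩ := this
        obtain ⟨k26, -⟩ := ha
        obtain ⟨k35, -⟩ := hb
        lia
  · intro X Y a b
    show X = 2 * D.a + D.t ∧ Y = 0
    rcases a with (a | a) | a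
    · have ha := a.lin; have hb := b.lin
      obtain ⟨k1, -⟩ := this
      obtain ⟨k26, -, -, k29, k30, -⟩ := ha
      obtain ⟨⟨k35, k36, k37, -, -, -, -, -⟩, -⟩ := hb
      lia
    · have ha := a.lin; have hb := b.lin
      obtain ⟨k1, -, k3, -, -, k6, -⟩ := this
      obtain ⟨k26, -, k28, -⟩ := ha
      obtain ⟨⟨-, -, k37, -, -, -, -, -⟩, -⟩ := hb
      lia
    · rcases a with (a | a) | a
      · have ha := a.lin; have hb := b.lin
        obtain ⟨k1, -, k3, -, k5, k6, k7, -⟩ := this
        obtain ⟨k26, k94⟩ := ha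
        obtain ⟨⟨-, -, k100, k101, -, -, k104, -⟩, k122⟩ := hb
        rcases k7 with ⟨k9, k10, k11, -⟩ | ⟨k14, k15, -, k17, -⟩
        · rcases k26 with ⟨-, -, -, k31⟩ | ⟨-, -, -, -, k53, -⟩ | ⟨-, -, -, -, -, k75, -⟩
          · rcases k31 with ⟨-, k34, k35⟩ | ⟨k37, -⟩
            · rcases k104 with ⟨-, k107⟩ | ⟨k111, -⟩
              · rcases k94 with k95 | k96
                · rcases k122 with k123 | k124
                  · rcases k107 with k108 | k109 <;> lia
                  · lia
                · rcases k122 with k123 | k124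
                  · lia
                  · rcases k107 with k108 | k109 <;> lia
              · lia
            · lia
          · rcases k94 with k95 | k96
            · rcases k122 with k123 | k124 <;> lia
            · rcases k122 with k123 | k124 <;> lia
          · lia
        · rcases k26 with ⟨-, -, -, k31⟩ | ⟨-, -, -, -, -, -, k55⟩ | ⟨k70, -, -, -, k74, k75, -⟩
          · rcases k94 with k95 | k96
            · rcases k104 with ⟨k106, -⟩ | ⟨-, -, k113, k114⟩
              · lia
              · rcases k31 with ⟨k33, -⟩ | ⟨-, -, k39, -, k43⟩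
                · lia
                · rcases k43 with k44 | ⟨k46, k47⟩
                  · lia
                  · rcases k114 with k115 | k116 | k117 <;> lia
            · rcases k31 with ⟨k33, -⟩ | ⟨-, -, -, -, k43⟩
              · lia
              · rcases k104 with ⟨k106, -⟩ | ⟨-, -, k113, -⟩
                · lia
                · rcases k43 with k44 | ⟨k46, -⟩ <;> lia
          · rcases k104 with ⟨k106, -⟩ | ⟨-, -, k113, -⟩
            · lia
            · rcases k55 with ⟨k57, -⟩ | ⟨-, k63, -⟩ <;> lia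
          · lia
      · have ha := a.lin; have hb := b.lin
        obtain ⟨k1, -, k3, -, -, -, k7, -⟩ := this
        obtain ⟨k26, k27, k28⟩ := ha
        obtain ⟨⟨-, -, -, -, -, -, k36, -⟩, -⟩ := hb
        rcases k36 with ⟨k38, k39⟩ | ⟨-, -, k45, k46⟩
        · rcases k7 with ⟨-, -, k11, -⟩ | ⟨k14, -⟩
          · rcases k39 with k40 | k41 <;> lia
          · lia
        · rcases k46 with k47 | k48 | k49 <;> lia
      · have ha := a.lin; have hb := b.lin
        obtain ⟨k1, -, k3, -, -, -, k7, -⟩ := this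
        obtain ⟨k26, k27, k28⟩ := ha
        obtain ⟨⟨-, -, -, -, -, -, k36, -⟩, -⟩ := hb
        rcases k36 with ⟨k38, k39⟩ | ⟨-, -, -, k46⟩
        · rcases k7 with ⟨-, -, k11, k12⟩ | ⟨k14, -⟩
          · rcases k39 with k40 | k41 <;> lia
          · lia
        · rcases k46 with k47 | k48 | k49 <;> lia

theorem arcUU : CArc (D.b - D.a, D.a) D.wU (D.b - 2 * D.a, D.b) D.UU := by
  have := D.aux
  have h0 := D.arcLs.p0 (P' := (D.b - D.a, D.a)) (Q' := (D.p, D.b - D.p - 1)) (D.b - D.a) D.a (by dsimp only; omega)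
  have h1 := D.arcN
  refine h0.append h1 ?_
  · intro X Y a b
    show X = D.p ∧ Y = D.b - D.p - 1
    have ha := a.lin; have hb := b.lin
    obtain ⟨k1, k2, -⟩ := this
    obtain ⟨-, k27, k28⟩ := ha
    obtain ⟨-, -, ⟨k56, k57⟩, k60⟩ := hb
    rcases k57 with k58 | k59
    · rcases k28 with k29 | ⟨k31, k34⟩
      · lia
      · rcases k60 with k61 | k62
        · lia
        · rcases k31 with k32 | k33 <;> lia
    · lia

theorem arcSX : CArc (0, D.a) D.wS (D.b - D.a, D.a) D.SX := by
  have := D.aux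
  have h0 := D.arcLt.p1 (P' := (0, D.a)) (Q' := (0, D.a + D.t)) 0 D.a (by dsimp only; omega)
  have h1 := D.arcM
  have h2 := D.arcLs.b0 (Q' := (D.p, D.b - D.p - 1)) (P' := (D.b - D.a, D.a)) (D.b - D.a) D.a (by dsimp only; omega)
  refine (h0.append h1 ?_).append h2 ?_
  · intro X Y a b
    show X = 0 ∧ Y = D.a + D.t
    have ha := a.lin; have hb := b.lin
    obtain ⟨k1, -, k3, -, k5, k6, k7, -⟩ := this
    obtain ⟨-, k27, k28⟩ := ha
    obtain ⟨k30, -⟩ := hb
    rcases k30 with ⟨-, -, -, k35⟩ | ⟨-, k54, -, k56, -⟩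
    · rcases k35 with ⟨k37, -, k39⟩ | ⟨-, -, -, k44, -⟩
      · rcases k7 with ⟨-, -, -, k12⟩ | ⟨k14, -⟩ <;> lia
      · rcases k44 with k45 | k46 <;> lia
    · rcases k7 with ⟨-, k10, -, k12⟩ | ⟨-, k15, -, -, k18⟩ <;> lia
  · intro X Y a b
    show X = D.p ∧ Y = D.b - D.p - 1
    rcases a with a | a
    · have ha := a.lin; have hb := b.lin
      obtain ⟨k1, k2, k3, k4, k5, k6, k7, -, k20, -⟩ := this
      obtain ⟨-, k27, k28⟩ := ha
      obtain ⟨-, k31, k32⟩ := hb
      rcases k32 with k33 | ⟨-, k38⟩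
      · rcases k7 with ⟨-, -, -, k12⟩ | ⟨-, k15, -⟩ <;> lia
      · lia
    · have ha := a.lin; have hb := b.lin
      obtain ⟨k1, k2, -⟩ := this
      obtain ⟨-, ⟨k60, k61⟩, k64⟩ := ha
      obtain ⟨-, -, k70⟩ := hb
      rcases k70 with k71 | ⟨k73, k76⟩
      · rcases k61 with k62 | k63 <;> lia
      · rcases k73 with k74 | k75
        · lia
        · rcases k64 with k65 | k66 <;> lia

theorem arcB1 : CArc (D.b, 0) D.wB1 (2 * D.b - D.a, D.b) D.B1 := by
  have := D.aux
  have h0 := D.arcUU.b1 (Q' := (D.b, 0)) (P' := (2 * D.b - D.a, D.a)) (2 * D.b) (2 * D.a - D.b) (by dsimp only; omega)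
  have h1 := D.arcSX.b0 (Q' := (2 * D.b - D.a, D.a)) (P' := (D.b, D.a)) D.b 0 (by dsimp only; omega)
  have h2 := D.arcSX.p1 (P' := (D.b, D.a)) (Q' := (D.b, D.b)) (D.a + D.b) D.a (by dsimp only; omega)
  have h3 := D.arcSX.b2 (Q' := (D.b, D.b)) (P' := (2 * D.b - D.a, D.b)) (2 * D.b - D.a) (D.a + D.b) (by dsimp only; omega)
  refine ((h0.append h1 ?_).append h2 ?_).append h3 ?_
  · intro X Y a b
    show X = 2 * D.b - D.a ∧ Y = D.a
    rcases a with a | a
    · have ha := a.lin; have hb := b.lin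
      obtain ⟨k1, k2, -⟩ := this
      obtain ⟨k26, -, k28⟩ := ha
      obtain ⟨k36, -, -, k39, -, -, -, k43⟩ := hb
      rcases k28 with k29 | ⟨k31, -⟩
      · lia
      · rcases k31 with k32 | k33 <;> lia
    · have ha := a.lin; have hb := b.lin
      obtain ⟨k1, k2, k3, -, -, k6, k7, -⟩ := this
      obtain ⟨⟨k26, -, -, -, -⟩, ⟨-, k38, k39⟩, -, k50⟩ := ha
      obtain ⟨-, -, -, k57, -⟩ := hb
      rcases k7 with ⟨-, k10, -⟩ | ⟨k14, -⟩
      · rcases k50 with k51 | k52 <;> lia
      · rcases k39 with k40 | ⟨k42, -⟩ <;> lia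
  · intro X Y a b
    show X = D.b ∧ Y = D.a
    rcases a with a | a
    · have ha := a.lin; have hb := b.lin
      obtain ⟨k1, k2, k3, -, -, k6, k7, -⟩ := this
      obtain ⟨-, -, k28, -, k30, -, k32, -⟩ := ha
      obtain ⟨-, -, -, k38, -, k40, -⟩ := hb
      rcases k7 with ⟨-, k10, -⟩ | ⟨-, k15, k16, -⟩ <;> lia
    · rcases a with (a | a) | a
      · rcases b with (b | b) | b
        · have ha := a.lin; have hb := b.lin
          obtain ⟨k26, -, k28⟩ := ha
          obtain ⟨-, -, k32⟩ := hb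
          clear this
          lia
        · have ha := a.lin; have hb := b.lin
          obtain ⟨k1, k2, k3, -, k5, -, k7, -⟩ := this
          obtain ⟨k26, k27, k28⟩ := ha
          obtain ⟨k30, -, k68⟩ := hb
          rcases k68 with k69 | k70
          · rcases k30 with ⟨-, -, -, k35⟩ | ⟨k53, -, -, k56, -⟩
            · rcases k35 with ⟨-, k38, k39⟩ | ⟨-, -, k43, -⟩ <;> lia
            · rcases k7 with ⟨-, k10, -⟩ | ⟨-, k15, -, -, k18⟩ <;> lia
          · lia
        · have ha := a.lin; have hb := b.lin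
          obtain ⟨k1, k2, k3, k4, k5, k6, k7, -⟩ := this
          obtain ⟨-, k27, k28⟩ := ha
          obtain ⟨k30, -, k32⟩ := hb
          rcases k7 with ⟨-, -, -, k12⟩ | ⟨-, -, -, -, k18⟩
          · rcases k32 with k33 | ⟨k35, -⟩
            · lia
            · rcases k35 with k36 | k37 <;> lia
          · rcases k32 with k33 | ⟨k35, -⟩
            · lia
            · rcases k35 with k36 | k37 <;> lia
      · rcases b with (b | b) | b
        · have ha := a.lin; have hb := b.lin
          obtain ⟨k1, k2, k3, -⟩ := this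
          obtain ⟨k26, -, k64⟩ := ha
          obtain ⟨k68, -, k70⟩ := hb
          rcases k26 with ⟨-, -, -, k31⟩ | ⟨-, -, k51, -⟩
          · rcases k64 with k65 | k66
            · rcases k31 with ⟨-, k34, k35⟩ | ⟨-, -, -, -, k43⟩
              · lia
              · rcases k43 with k44 | ⟨-, k47⟩ <;> lia
            · lia
          · lia
        · have ha := a.lin; have hb := b.lin
          obtain ⟨k1, k2, k3, -, -, k6, k7, -⟩ := this
          obtain ⟨k26, -, k64⟩ := ha
          obtain ⟨k68, -, k106⟩ := hb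
          rcases k7 with ⟨k9, k10, -⟩ | ⟨k14, -, k16, -⟩
          · rcases k64 with k65 | k66
            · rcases k106 with k107 | k108
              · rcases k68 with ⟨-, -, -, k73⟩ | ⟨k91, -, -, k94, -⟩
                · rcases k73 with ⟨-, k76, k77⟩ | ⟨k79, -⟩
                  · rcases k26 with ⟨-, -, -, k31⟩ | ⟨-, -, k51, -⟩
                    · rcases k31 with ⟨-, k34, -⟩ | ⟨k37, -⟩ <;> lia
                    · lia
                  · lia
                · rcases k26 with ⟨-, -, k30, -⟩ | ⟨-, -, -, k52, -⟩ <;> lia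
              · lia
            · rcases k106 with k107 | k108
              · lia
              · rcases k68 with ⟨-, -, -, k73⟩ | ⟨k91, -, -, k94, -⟩
                · rcases k73 with ⟨-, k76, k77⟩ | ⟨k79, -⟩
                  · rcases k26 with ⟨-, -, -, k31⟩ | ⟨-, -, k51, -⟩
                    · rcases k31 with ⟨-, k34, -⟩ | ⟨k37, -⟩ <;> lia
                    · lia
                  · lia
                · rcases k26 with ⟨-, -, k30, -⟩ | ⟨-, -, -, k52, -⟩ <;> lia
          · rcases k26 with ⟨-, -, -, k31⟩ | ⟨-, -, k51, -, k53⟩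
            · rcases k64 with k65 | k66
              · rcases k68 with ⟨-, -, -, k73⟩ | ⟨-, -, -, -, k95⟩
                · rcases k31 with ⟨k33, -⟩ | ⟨-, -, k39, -, k43⟩
                  · lia
                  · rcases k43 with k44 | ⟨k46, k47⟩
                    · rcases k73 with ⟨k75, -⟩ | ⟨-, -, k81, -⟩ <;> lia
                    · lia
                · rcases k95 with k96 | ⟨k98, -⟩
                  · lia
                  · rcases k31 with ⟨k33, -⟩ | ⟨-, k38, -⟩ <;> lia
              · rcases k31 with ⟨k33, -⟩ | ⟨-, k38, -, -, k43⟩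
                · lia
                · rcases k43 with k44 | ⟨k46, -⟩
                  · rcases k68 with ⟨-, -, -, k73⟩ | ⟨-, -, -, -, k95⟩
                    · rcases k73 with ⟨k75, -⟩ | ⟨-, -, k81, -⟩ <;> lia
                    · rcases k95 with k96 | ⟨k98, -⟩ <;> lia
                  · lia
            · rcases k68 with ⟨-, -, -, k73⟩ | ⟨-, -, -, -, k95⟩
              · rcases k73 with ⟨k75, -⟩ | ⟨-, -, k81, -⟩
                · lia
                · rcases k53 with k54 | ⟨k56, -⟩ <;> lia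
              · rcases k95 with k96 | ⟨k98, -⟩ <;> lia
        · have ha := a.lin; have hb := b.lin
          obtain ⟨k1, k2, k3, k4, k5, k6, k7, -⟩ := this
          obtain ⟨k26, ⟨k60, -⟩, -⟩ := ha
          obtain ⟨-, -, k70⟩ := hb
          rcases k7 with ⟨-, k10, -⟩ | ⟨-, k15, k16, -⟩
          · rcases k26 with ⟨-, -, k30, -⟩ | ⟨k49, k50, k51, k52, -⟩
            · rcases k70 with k71 | ⟨k73, k76⟩
              · lia
              · rcases k73 with k74 | k75 <;> lia
            · rcases k70 with k71 | ⟨k73, k76⟩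
              · lia
              · rcases k73 with k74 | k75 <;> lia
          · rcases k26 with ⟨-, -, k30, -⟩ | ⟨-, k50, k51, -⟩
            · rcases k70 with k71 | ⟨k73, k76⟩
              · lia
              · rcases k73 with k74 | k75 <;> lia
            · rcases k70 with k71 | ⟨k73, k76⟩
              · lia
              · rcases k73 with k74 | k75 <;> lia
      · have ha := a.lin; have hb := b.lin
        obtain ⟨k1, k2, k3, k4, k5, k6, k7, -, k20, -⟩ := this
        obtain ⟨-, k27, k28⟩ := ha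
        obtain ⟨k36, -, -, k39, k40, k41, -, k43⟩ := hb
        rcases k28 with k29 | ⟨k31, k34⟩
        · rcases k7 with ⟨-, k10, -⟩ | ⟨-, k15, -⟩ <;> lia
        · rcases k31 with k32 | k33
          · lia
          · rcases k7 with ⟨-, k10, -⟩ | ⟨-, k15, -⟩ <;> lia
  · intro X Y a b
    show X = D.b ∧ Y = D.b
    rcases a with (a | a) | a
    · have ha := a.lin; have hb := b.lin
      obtain ⟨k1, k2, k3, k4, -, k6, k7, -⟩ := this
      obtain ⟨k26, k27, -, k29, k30, -, -, k33⟩ := ha
      obtain ⟨-, -, -, -, k39, -, k41, -⟩ := hb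
      rcases k7 with ⟨-, k10, -⟩ | ⟨-, k15, -⟩ <;> lia
    · rcases a with (a | a) | a
      · have ha := a.lin; have hb := b.lin
        obtain ⟨-, k2, -⟩ := this
        obtain ⟨-, -, k28⟩ := ha
        obtain ⟨-, -, -, k33, k34, -⟩ := hb
        lia
      · have ha := a.lin; have hb := b.lin
        obtain ⟨-, ⟨k60, -⟩, -⟩ := ha
        obtain ⟨-, -, -, -, k72, -⟩ := hb
        clear this
        lia
      · rcases b with (b | b) | b
        · have ha := a.lin; have hb := b.lin
          obtain ⟨k1, k2, k3, k4, k5, k6, k7, -⟩ := this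
          obtain ⟨k26, -, k28⟩ := ha
          obtain ⟨-, k37, k38⟩ := hb
          rcases k28 with k29 | ⟨k31, -⟩
          · lia
          · rcases k31 with k32 | k33
            · rcases k7 with ⟨-, -, -, k12⟩ | ⟨-, -, -, -, k18⟩ <;> lia
            · lia
        · have ha := a.lin; have hb := b.lin
          obtain ⟨-, -, k28⟩ := ha
          obtain ⟨-, ⟨k70, -⟩, -⟩ := hb
          clear this
          rcases k28 with k29 | ⟨k31, -⟩
          · lia
          · rcases k31 with k32 | k33 <;> lia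
        · have ha := a.lin; have hb := b.lin
          obtain ⟨k1, k2, -⟩ := this
          obtain ⟨-, -, k28⟩ := ha
          obtain ⟨-, -, k38⟩ := hb
          rcases k28 with k29 | ⟨k31, k34⟩
          · rcases k38 with k39 | ⟨k41, -⟩
            · lia
            · rcases k41 with k42 | k43 <;> lia
          · rcases k38 with k39 | ⟨-, k44⟩
            · rcases k31 with k32 | k33 <;> lia
            · lia
    · have ha := a.lin; have hb := b.lin
      obtain ⟨-, k2, -⟩ := this
      obtain ⟨k26, -, -, k29, -⟩ := ha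
      obtain ⟨k35, -, -, -, k39, -⟩ := hb
      lia

theorem arcB2 : CArc (2 * D.b - D.a, D.b) D.wB2 (0, D.b) D.B2 := by
  have := D.aux
  have h0 := D.arcLt.p2 (P' := (2 * D.b - D.a, D.b)) (Q' := (2 * D.b - D.a - D.t, D.b)) (2 * D.b - D.a) D.b (by dsimp only; omega)
  have h1 := D.arcL.p1 (P' := (2 * D.b - D.a - D.t, D.b)) (Q' := (D.b - 2 * D.a, 2 * D.b)) (2 * D.b - 2 * D.a) (2 * D.a + D.b) (by dsimp only; omega)
  have h2 := D.arcUU.b0 (Q' := (D.b - 2 * D.a, 2 * D.b)) (P' := (D.b - D.a, D.a + D.b)) 0 D.b (by dsimp only; omega)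
  have h3 := D.arcUU.p1 (P' := (D.b - D.a, D.a + D.b)) (Q' := (0, D.b)) D.b (2 * D.a) (by dsimp only; omega)
  refine ((h0.append h1 ?_).append h2 ?_).append h3 ?_
  · intro X Y a b
    show X = 2 * D.b - D.a - D.t ∧ Y = D.b
    have ha := a.lin; have hb := b.lin
    obtain ⟨k1, k2, k3, -, k5, k6, k7, -⟩ := this
    obtain ⟨k26, k27, k28⟩ := ha
    obtain ⟨k30, -⟩ := hb
    rcases k30 with ⟨-, -, -, k35⟩ | ⟨-, -, -, k56, k57, -⟩ | ⟨k74, -, -, -, k78, k79, -⟩ | ⟨-, -, k97, -⟩
    · rcases k35 with ⟨k37, -, k39⟩ | ⟨-, -, -, k44, -⟩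
      · rcases k7 with ⟨-, -, -, k12⟩ | ⟨k14, -⟩ <;> lia
      · rcases k44 with k45 | k46 <;> lia
    · rcases k7 with ⟨-, k10, -, k12⟩ | ⟨-, k15, -, -, k18⟩ <;> lia
    · rcases k7 with ⟨-, k10, -⟩ | ⟨-, k15, -⟩ <;> lia
    · lia
  · intro X Y a b
    show X = D.b - 2 * D.a ∧ Y = 2 * D.b
    rcases a with a | a
    · have ha := a.lin; have hb := b.lin
      obtain ⟨k1, k2, k3, -, k5, k6, -⟩ := this
      obtain ⟨-, -, k28⟩ := ha
      obtain ⟨-, -, -, k33, -⟩ := hb
      lia
    · rcases b with b | b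
      · have ha := a.lin; have hb := b.lin
        obtain ⟨k1, k2, k3, k4, k5, k6, -⟩ := this
        obtain ⟨k26, ⟨k102, -, -⟩, k111⟩ := ha
        obtain ⟨k115, -, k117⟩ := hb
        rcases k117 with k118 | ⟨k120, k123⟩
        · rcases k26 with ⟨-, k29, -⟩ | ⟨-, -, -, k52, -⟩ | ⟨-, k71, -⟩ | ⟨-, -, k93, -⟩ <;> lia
        · rcases k111 with k112 | k113
          · rcases k120 with k121 | k122 <;> lia
          · lia
      · have := D.toD50.sBQ a.on b.on (by omega); lia
  · intro X Y a b
    show X = D.b - D.a ∧ Y = D.a + D.b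
    rcases a with (a | a) | a
    · have ha := a.lin; have hb := b.lin
      obtain ⟨k1, k2, k3, k4, -, k6, k7, k19, k20, -⟩ := this
      obtain ⟨-, k27, -⟩ := ha
      obtain ⟨-, -, k32, k33, -⟩ := hb
      rcases k7 with ⟨-, -, -, k12⟩ | ⟨-, k15, -, -, k18⟩ <;> lia
    · have ha := a.lin; have hb := b.lin
      obtain ⟨k1, k2, k3, k4, k5, k6, -⟩ := this
      obtain ⟨k26, ⟨k102, -, -⟩, -⟩ := ha
      obtain ⟨k115, k116, k117, k118, -, -, -, k122⟩ := hb
      rcases k26 with ⟨k28, -⟩ | ⟨-, k50, k51, -⟩ | ⟨-, k71, -⟩ | ⟨-, -, k93, -⟩ <;> lia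
    · rcases b with b | b
      · have ha := a.lin; have hb := b.lin
        obtain ⟨k1, k2, -⟩ := this
        obtain ⟨k26, -, -, k29, -, -, -, k33⟩ := ha
        obtain ⟨-, -, k37⟩ := hb
        rcases k37 with k38 | ⟨k40, -⟩
        · lia
        · rcases k40 with k41 | k42 <;> lia
      · have ha := a.lin; have hb := b.lin
        obtain ⟨k1, k2, k3, k4, k5, k6, k7, -⟩ := this
        obtain ⟨-, -, -, -, -, k31, -⟩ := ha
        obtain ⟨⟨k35, -, -, -, -⟩, -⟩ := hb
        rcases k7 with ⟨-, k10, -⟩ | ⟨-, k15, k16, -⟩ <;> lia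

theorem arcQB : CArc (D.b, 0) D.qb (0, D.b) D.QB := by
  have := D.aux
  have h0 := D.arcB1
  have h1 := D.arcB2
  refine h0.append h1 ?_
  · intro X Y a b
    show X = 2 * D.b - D.a ∧ Y = D.b
    rcases b with ((b | b) | b) | b
    · rcases a with ((a | a) | a) | a
      · have ha := a.lin; have hb := b.lin
        obtain ⟨k1, k2, -⟩ := this
        obtain ⟨k26, k27, -⟩ := ha
        obtain ⟨-, -, k37⟩ := hb
        lia
      · have ha := a.lin; have hb := b.lin
        obtain ⟨k1, k2, k3, k4, k5, k6, k7, -⟩ := this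
        obtain ⟨-, -, -, -, k30, -, k32, -⟩ := ha
        obtain ⟨-, k36, k37⟩ := hb
        rcases k7 with ⟨-, -, -, k12⟩ | ⟨-, k15, -⟩ <;> lia
      · have ha := a.lin; have hb := b.lin
        obtain ⟨k1, k2, k3, k4, k5, k6, k7, -⟩ := this
        obtain ⟨k26, -, -, k29, k30, -⟩ := ha
        obtain ⟨-, k36, k37⟩ := hb
        rcases k7 with ⟨-, -, -, k12⟩ | ⟨-, -, -, -, k18⟩ <;> lia
      · rcases a with (a | a) | a
        · have ha := a.lin; have hb := b.lin
          obtain ⟨k26, -, k28⟩ := ha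
          obtain ⟨-, -, k32⟩ := hb
          clear this
          lia
        · have ha := a.lin; have hb := b.lin
          obtain ⟨k1, k2, k3, -, k5, -, k7, -⟩ := this
          obtain ⟨k26, -, k64⟩ := ha
          obtain ⟨k68, k69, k70⟩ := hb
          rcases k64 with k65 | k66
          · rcases k26 with ⟨-, -, -, k31⟩ | ⟨k49, -, -, k52, -⟩
            · rcases k31 with ⟨-, k34, k35⟩ | ⟨-, -, k39, -⟩ <;> lia
            · rcases k7 with ⟨-, k10, -⟩ | ⟨-, k15, -, -, k18⟩ <;> lia
          · lia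
        · have ha := a.lin; have hb := b.lin
          obtain ⟨k1, k2, k3, k4, k5, k6, k7, -⟩ := this
          obtain ⟨k26, -, k28⟩ := ha
          obtain ⟨-, k37, k38⟩ := hb
          rcases k7 with ⟨-, -, -, k12⟩ | ⟨-, -, -, -, k18⟩
          · rcases k28 with k29 | ⟨k31, -⟩
            · lia
            · rcases k31 with k32 | k33 <;> lia
          · rcases k28 with k29 | ⟨k31, -⟩
            · lia
            · rcases k31 with k32 | k33 <;> lia
    · rcases a with ((a | a) | a) | a
      · have ha := a.lin; have hb := b.lin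
        obtain ⟨k1, k2, k3, k4, k5, k6, k7, -⟩ := this
        obtain ⟨k26, k27, k28, -, k30, -, -, k33⟩ := ha
        obtain ⟨k35, ⟨k111, -, -⟩, -⟩ := hb
        rcases k35 with ⟨-, -, k39, -⟩ | ⟨-, k59, -⟩ | ⟨-, -, -, -, -, k84, -⟩ | ⟨-, -, k102, -⟩
        · rcases k7 with ⟨-, k10, -⟩ | ⟨-, k15, -⟩ <;> lia
        · lia
        · rcases k7 with ⟨-, k10, -⟩ | ⟨-, k15, -⟩ <;> lia
        · lia
      · have ha := a.lin; have hb := b.lin
        obtain ⟨k1, k2, k3, k4, k5, k6, k7, -⟩ := this
        obtain ⟨-, k27, -, -, k30, -, k32, -⟩ := ha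
        obtain ⟨k35, ⟨k111, -, -⟩, -⟩ := hb
        rcases k35 with ⟨-, -, k39, -⟩ | ⟨-, -, -, k61, -⟩ | ⟨-, -, -, -, -, k84, -⟩ | ⟨-, -, k102, -⟩
        · rcases k7 with ⟨-, k10, -⟩ | ⟨-, k15, -⟩ <;> lia
        · lia
        · rcases k7 with ⟨-, k10, -⟩ | ⟨-, k15, -⟩ <;> lia
        · lia
      · have ha := a.lin; have hb := b.lin
        obtain ⟨k1, k2, k3, k4, k5, k6, k7, -⟩ := this
        obtain ⟨k26, -, -, k29, k30, -, -, k33⟩ := ha
        obtain ⟨k35, ⟨k111, -, -⟩, -⟩ := hb
        rcases k35 with ⟨k37, -⟩ | ⟨-, k59, -, k61, -⟩ | ⟨k79, k80, -, -, k83, k84, -⟩ | ⟨-, -, k102, -⟩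
        · lia
        · lia
        · rcases k7 with ⟨-, k10, -⟩ | ⟨-, k15, -⟩ <;> lia
        · lia
      · rcases a with (a | a) | a
        · have ha := a.lin; have hb := b.lin
          obtain ⟨k1, k2, k3, -, k5, k6, -⟩ := this
          obtain ⟨k26, -, k28⟩ := ha
          obtain ⟨k30, -, k115⟩ := hb
          rcases k30 with ⟨-, -, -, k35⟩ | ⟨-, k54, -⟩ | ⟨k74, k75, -⟩ | ⟨-, -, k97, -⟩
          · rcases k35 with ⟨-, k38, k39⟩ | ⟨-, -, -, -, k47⟩
            · rcases k115 with k116 | k117 <;> lia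
            · rcases k47 with k48 | ⟨-, k51⟩ <;> lia
          · lia
          · lia
          · lia
        · have ha := a.lin; have hb := b.lin
          obtain ⟨k1, k2, k3, -, k5, k6, k7, k19, k20, -⟩ := this
          obtain ⟨k26, -, k64⟩ := ha
          obtain ⟨k68, -, k153⟩ := hb
          rcases k7 with ⟨k9, k10, -⟩ | ⟨k14, k15, k16, -⟩
          · rcases k68 with ⟨-, -, k72, k73⟩ | ⟨-, k92, -, k94, k95, -⟩ | ⟨k112, k113, k114, -, k116, k117, -⟩ | ⟨-, k134, k135, -⟩
            · rcases k73 with ⟨-, k76, -⟩ | ⟨k79, -⟩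
              · rcases k64 with k65 | k66
                · rcases k153 with k154 | k155
                  · rcases k26 with ⟨-, -, -, k31⟩ | ⟨-, -, -, k52, -⟩
                    · rcases k31 with ⟨-, -, k35⟩ | ⟨k37, -⟩ <;> lia
                    · lia
                  · lia
                · rcases k153 with k154 | k155
                  · lia
                  · rcases k26 with ⟨-, -, -, k31⟩ | ⟨-, -, -, k52, -⟩
                    · rcases k31 with ⟨-, -, k35⟩ | ⟨k37, -⟩ <;> lia
                    · lia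
              · lia
            · rcases k26 with ⟨-, -, -, k31⟩ | ⟨k49, -, -, k52, -⟩
              · rcases k31 with ⟨-, -, k35⟩ | ⟨k37, -⟩ <;> lia
              · rcases k64 with k65 | k66 <;> lia
            · rcases k26 with ⟨-, -, -, k31⟩ | ⟨k49, -, -, k52, -⟩
              · rcases k31 with ⟨-, k34, k35⟩ | ⟨k37, -⟩ <;> lia
              · lia
            · rcases k26 with ⟨-, -, -, k31⟩ | ⟨k49, -, -, k52, -⟩
              · rcases k31 with ⟨-, k34, k35⟩ | ⟨k37, -⟩ <;> lia
              · lia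
          · rcases k26 with ⟨k28, k29, -, k31⟩ | ⟨k49, -, k51, -, k53⟩
            · rcases k31 with ⟨k33, -⟩ | ⟨-, -, k39, -, k43⟩
              · lia
              · rcases k43 with k44 | ⟨k46, k47⟩
                · rcases k68 with ⟨-, -, -, k73⟩ | ⟨-, k92, -⟩ | ⟨k112, -⟩ | ⟨-, -, k135, -⟩
                  · rcases k73 with ⟨k75, -⟩ | ⟨-, -, -, -, k85⟩
                    · lia
                    · rcases k85 with k86 | ⟨-, k89⟩ <;> lia
                  · lia
                  · lia
                  · lia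
                · lia
            · rcases k53 with k54 | ⟨k56, -⟩
              · lia
              · rcases k68 with ⟨-, -, -, k73⟩ | ⟨-, k92, -⟩ | ⟨-, -, -, -, -, k117, -⟩ | ⟨-, -, k135, -⟩
                · rcases k73 with ⟨k75, -⟩ | ⟨-, k80, -⟩ <;> lia
                · lia
                · lia
                · lia
        · have ha := a.lin; have hb := b.lin
          obtain ⟨k1, k2, k3, k4, k5, k6, k7, -⟩ := this
          obtain ⟨k26, -, k28⟩ := ha
          obtain ⟨k36, ⟨k112, -, -⟩, -⟩ := hb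
          rcases k28 with k29 | ⟨k31, k34⟩
          · rcases k36 with ⟨-, -, k40, -⟩ | ⟨-, -, -, k62, -⟩ | ⟨k80, -, -, -, k84, -⟩ | ⟨-, -, k103, -⟩
            · rcases k7 with ⟨-, k10, -⟩ | ⟨-, k15, -⟩ <;> lia
            · lia
            · rcases k7 with ⟨-, k10, -⟩ | ⟨-, k15, -⟩ <;> lia
            · lia
          · rcases k31 with k32 | k33
            · rcases k36 with ⟨-, -, k40, -⟩ | ⟨-, -, -, k62, -⟩ | ⟨-, -, -, -, k84, -⟩ | ⟨-, -, k103, -⟩
              · rcases k7 with ⟨-, k10, -⟩ | ⟨-, k15, -⟩ <;> lia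
              · lia
              · rcases k7 with ⟨-, k10, -⟩ | ⟨-, k15, -⟩ <;> lia
              · lia
            · rcases k36 with ⟨-, -, k40, -⟩ | ⟨-, -, -, k62, -⟩ | ⟨-, -, -, -, k84, -⟩ | ⟨-, -, k103, -⟩
              · rcases k7 with ⟨-, k10, -⟩ | ⟨-, k15, k16, -⟩ <;> lia
              · lia
              · rcases k7 with ⟨-, k10, -⟩ | ⟨-, k15, k16, -⟩ <;> lia
              · lia
    · have ha := a.lin; have hb := b.lin
      obtain ⟨k1, k2, k3, -, k5, k6, -⟩ := this
      obtain ⟨-, -, k28, -⟩ := ha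
      obtain ⟨-, -, -, k38, -⟩ := hb
      lia
    · have ha := a.lin; have hb := b.lin
      obtain ⟨k1, -, k3, -, k5, k6, -⟩ := this
      obtain ⟨-, -, -, -, -, -, k32, -⟩ := ha
      obtain ⟨-, -, -, -, -, k40, -⟩ := hb
      lia

variable {D} in
theorem qqb {X1 Y1 X2 Y2 : ℤ} (a : D.QB X1 Y1) (b : D.QB X2 Y2)
    (e : X2 = Y1 ∧ Y2 = -X1) :
    X1 = 0 ∧ Y1 = D.b := by
  have := D.aux
  rcases a with a | a
  · have ha := a.lin; have hb := b.lin
    obtain ⟨k1, k2, k3, -, k5, k6, k7, -⟩ := this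
    obtain ⟨k26, k27⟩ := e
    obtain ⟨-, -, -, -, k33, k34, k35, k36⟩ := ha
    obtain ⟨-, -, -, -, -, k43, -⟩ := hb
    rcases k7 with ⟨-, k10, -⟩ | ⟨-, k15, k16, -⟩ <;> lia
  · rcases b with b | b
    · rcases a with ((a | a) | a) | a
      · have ha := a.lin; have hb := b.lin
        obtain ⟨k1, k2, k3, -, k5, k6, k7, -⟩ := this
        obtain ⟨k26, k27⟩ := e
        obtain ⟨-, k30, k31⟩ := ha
        obtain ⟨k33, -, k35, -, -, k38, -, k40⟩ := hb
        rcases k7 with ⟨-, -, -, k12⟩ | ⟨-, k15, k16, -, k18⟩ <;> lia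
      · have ha := a.lin; have hb := b.lin
        obtain ⟨k1, k2, k3, k4, k5, k6, k7, -⟩ := this
        obtain ⟨k26, k27⟩ := e
        obtain ⟨-, ⟨k105, -, -⟩, -⟩ := ha
        obtain ⟨-, -, -, -, -, k123, -, k125⟩ := hb
        rcases k7 with ⟨-, k10, -⟩ | ⟨-, k15, k16, -⟩ <;> lia
      · have ha := a.lin; have hb := b.lin
        obtain ⟨k1, k2, k3, -, k5, k6, -⟩ := this
        obtain ⟨k26, k27⟩ := e
        obtain ⟨-, -, -, -, -, k34, -⟩ := ha
        obtain ⟨-, -, -, -, -, -, -, k45⟩ := hb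
        lia
      · rcases b with ((b | b) | b) | b
        · rcases a with a | a
          · have ha := a.lin; have hb := b.lin
            obtain ⟨k1, k2, -⟩ := this
            obtain ⟨k26, k27⟩ := e
            obtain ⟨-, -, k31⟩ := ha
            obtain ⟨-, k40, k41, -⟩ := hb
            rcases k31 with k32 | ⟨k34, k37⟩
            · lia
            · rcases k34 with k35 | k36 <;> lia
          · rcases b with b | b
            · have ha := a.lin; have hb := b.lin
              obtain ⟨k1, k2, k3, k4, -, k6, k7, -, k20, k21⟩ := this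
              obtain ⟨k26, k27⟩ := e
              obtain ⟨⟨k29, -, -, -, -⟩, ⟨-, k41, -⟩, -⟩ := ha
              obtain ⟨-, k58, k59⟩ := hb
              rcases k7 with ⟨-, k10, -⟩ | ⟨k14, k15, k16, -⟩
              · lia
              · rcases k21 with k22 | k23 | k24
                · lia
                · lia
                · rcases k59 with k60 | ⟨k62, k65⟩
                  · lia
                  · rcases k62 with k63 | k64 <;> lia
            · have := D.toD50.sBQ b.on a.on (by omega); lia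
        · have ha := a.lin; have hb := b.lin
          obtain ⟨k1, -, k3, -, k5, k6, -⟩ := this
          obtain ⟨-, k27⟩ := e
          obtain ⟨-, -, k31, -⟩ := ha
          obtain ⟨-, -, -, k41, -⟩ := hb
          lia
        · have ha := a.lin; have hb := b.lin
          obtain ⟨k1, -, k3, -, -, k6, -⟩ := this
          obtain ⟨-, k27⟩ := e
          obtain ⟨-, -, k31, -⟩ := ha
          obtain ⟨-, k39, -⟩ := hb
          lia
        · have ha := a.lin; have hb := b.lin
          obtain ⟨k1, k2, k3, -, -, k6, -⟩ := this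
          obtain ⟨k26, k27⟩ := e
          obtain ⟨-, -, k31, -⟩ := ha
          obtain ⟨-, k39, -, -, k42, -⟩ := hb
          lia
    · have ha := a.lin; have hb := b.lin
      obtain ⟨k1, -, k3, -, k5, k6, -⟩ := this
      obtain ⟨-, k27⟩ := e
      obtain ⟨-, k30, -⟩ := ha
      obtain ⟨-, -, -, k41, -⟩ := hb
      lia

theorem arcB3 : CArc (D.a - D.b, -2 * D.a - D.b) D.wB3 (D.a - 2 * D.b, -2 * D.a - 2 * D.b) D.B3 := by
  have := D.aux
  have h0 := D.arcQB.p0 (P' := (D.a - D.b, -2 * D.a - D.b)) (Q' := (D.a - 2 * D.b, -2 * D.a)) (D.a - 2 * D.b) (-2 * D.a - D.b) (by dsimp only; omega)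
  have h1 := D.arcQB.p1 (P' := (D.a - 2 * D.b, -2 * D.a)) (Q' := (D.a - 3 * D.b, -2 * D.a - D.b)) (D.a - 2 * D.b) (-2 * D.a - D.b) (by dsimp only; omega)
  have h2 := D.arcQB.p2 (P' := (D.a - 3 * D.b, -2 * D.a - D.b)) (Q' := (D.a - 2 * D.b, -2 * D.a - 2 * D.b)) (D.a - 2 * D.b) (-2 * D.a - D.b) (by dsimp only; omega)
  refine (h0.append h1 ?_).append h2 ?_
  · intro X Y a b
    show X = D.a - 2 * D.b ∧ Y = -2 * D.a
    have := qqb a b (by omega); lia
  · intro X Y a b
    show X = D.a - 3 * D.b ∧ Y = -2 * D.a - D.b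
    rcases a with a | a
    · have ha := a.lin; have hb := b.lin
      obtain ⟨k1, k2, k3, -, k5, k6, k7, -⟩ := this
      obtain ⟨k26, k27, -, -, -, k31, -⟩ := ha
      obtain ⟨-, k36, -, -, -, k40, -, k42⟩ := hb
      rcases k7 with ⟨-, k10, -⟩ | ⟨-, k15, k16, -⟩ <;> lia
    · have := qqb a b (by omega); lia

theorem arcRB : CArc (D.a - 2 * D.b, -2 * D.a - 2 * D.b) D.wRB (D.a - D.b, -2 * D.a - D.b) D.RB := by
  have := D.aux
  have h0 := D.arcLb.p1 (P' := (D.a - 2 * D.b, -2 * D.a - 2 * D.b)) (Q' := (D.a - 2 * D.b, -2 * D.a - D.b)) (D.a - 2 * D.b) (-2 * D.a - 2 * D.b) (by dsimp only; omega)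
  have h1 := D.arcLb.b2 (Q' := (D.a - 2 * D.b, -2 * D.a - D.b)) (P' := (D.a - D.b, -2 * D.a - D.b)) (D.a - D.b) (-2 * D.a - D.b) (by dsimp only; omega)
  refine h0.append h1 ?_
  · intro X Y a b
    show X = D.a - 2 * D.b ∧ Y = -2 * D.a - D.b
    have ha := a.lin; have hb := b.lin
    obtain ⟨-, k27, k28⟩ := ha
    obtain ⟨-, -, k32⟩ := hb
    clear this
    lia

theorem sA0 : Simple (0, D.a) (D.wA3 ++ D.wRA) ∧
    ∀ z ∈ verts (0, D.a) (D.wA3 ++ D.wRA), D.EA z.1 z.2 := by
  have := D.aux
  refine D.arcA3.simple D.arcRA (fun X Y a b => ?_) (by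
    have := length_ea (n := D.a - 1) (by omega)
    simp only [wRA, wR, List.length_append, length_rot, length_back]
    omega)
  show (X = 0 ∧ Y = D.a) ∨ (X = D.a ∧ Y = 0)
  rcases a with ((a | a) | a) | a
  · rcases b with b | b
    · have ha := a.lin; have hb := b.lin
      obtain ⟨k1, -, k3, -, -, k6, k7, -⟩ := this
      obtain ⟨k26, -, -, k29, -, -, -, k33⟩ := ha
      obtain ⟨k35, k36, k37, -⟩ := hb
      rcases k7 with ⟨-, k10, -⟩ | ⟨-, k15, -⟩ <;> lia
    · rcases b with ((b | b) | b) | b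
      · have ha := a.lin; have hb := b.lin
        obtain ⟨k1, -⟩ := this
        obtain ⟨k26, -, -, k29, -⟩ := ha
        obtain ⟨k35, -, k37⟩ := hb
        lia
      · have ha := a.lin; have hb := b.lin
        obtain ⟨k1, -, -, -, -, -, k7, -⟩ := this
        obtain ⟨k26, k27, -, k29, -, -, -, k33⟩ := ha
        obtain ⟨k35, k36, k37⟩ := hb
        rcases k7 with ⟨k9, k10, -⟩ | ⟨k14, -⟩ <;> lia
      · have ha := a.lin; have hb := b.lin
        obtain ⟨k1, -, -, -, -, -, k7, -⟩ := this
        obtain ⟨k26, -, -, -, -, -, -, k33⟩ := ha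
        obtain ⟨k35, -, k37⟩ := hb
        rcases k7 with ⟨k9, k10, -⟩ | ⟨k14, -⟩ <;> lia
      · have ha := a.lin; have hb := b.lin
        obtain ⟨k1, -, k3, -, -, k6, k7, -⟩ := this
        obtain ⟨k26, -, -, k29, k30, -, -, k33⟩ := ha
        obtain ⟨-, k36, k37⟩ := hb
        rcases k7 with ⟨-, k10, -⟩ | ⟨-, k15, -⟩ <;> lia
  · have ha := a.lin; have hb := b.lin
    obtain ⟨k1, -, k3, -, k5, k6, k7, -⟩ := this
    obtain ⟨k26, k27, -, -, k30, -⟩ := ha
    obtain ⟨-, k36, -, k38, -, -, -, k42⟩ := hb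
    rcases k7 with ⟨k9, k10, -⟩ | ⟨k14, k15, k16, -⟩ <;> lia
  · rcases b with b | b
    · rcases a with (a | a) | a
      · have ha := a.lin; have hb := b.lin
        obtain ⟨k1, -, k3, -, k5, k6, k7, -⟩ := this
        obtain ⟨k26, -⟩ := ha
        obtain ⟨k98, -, k100, k101, k102, k103, -⟩ := hb
        rcases k26 with ⟨-, k29, -⟩ | ⟨-, -, -, -, -, k54, k55⟩ | ⟨k70, k71, -, -, -, k75, -⟩
        · lia
        · rcases k7 with ⟨k9, k10, -⟩ | ⟨k14, -, k16, -⟩
          · lia
          · rcases k55 with ⟨k57, -⟩ | ⟨-, k63, -⟩ <;> lia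
        · rcases k7 with ⟨k9, -⟩ | ⟨k14, k15, k16, -⟩ <;> lia
      · have ha := a.lin; have hb := b.lin
        obtain ⟨k1, -⟩ := this
        obtain ⟨-, -, k28⟩ := ha
        obtain ⟨k30, k31, -⟩ := hb
        lia
      · have ha := a.lin; have hb := b.lin
        obtain ⟨k1, -, k3, -, k5, k6, -⟩ := this
        obtain ⟨k26, -⟩ := ha
        obtain ⟨k30, -⟩ := hb
        lia
    · have ha := a.lin; have hb := b.lin
      obtain ⟨k1, -, k3, -, k5, k6, k7, -⟩ := this
      obtain ⟨k26, k27, -, -, k30, -⟩ := ha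
      obtain ⟨-, k36, k37, k38, -⟩ := hb
      rcases k7 with ⟨k9, k10, -⟩ | ⟨k14, k15, k16, -⟩ <;> lia
  · rcases b with b | b
    · have ha := a.lin; have hb := b.lin
      obtain ⟨k1, -⟩ := this
      obtain ⟨⟨k26, -, k28, -, -, -, -, -⟩, -⟩ := ha
      obtain ⟨k54, -, k56, -⟩ := hb
      lia
    · have ha := a.lin; have hb := b.lin
      obtain ⟨k1, -, k3, -, k5, k6, k7, -⟩ := this
      obtain ⟨⟨k26, k27, k28, -, -, k31, -, -⟩, -⟩ := ha
      obtain ⟨-, k55, -, k57, -, k59, -, k61⟩ := hb
      rcases k7 with ⟨k9, -⟩ | ⟨k14, k15, k16, -⟩ <;> lia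

theorem sA1 : OutE D.EA (D.a - 1) (-D.e + 1) := by
  have := D.aux
  refine .rayN fun V _ h => ?_
  rcases h with h | h
  · rcases h with ((h | h) | h) | h
    · have := h.lin; lia
    · have := h.lin; lia
    · rcases h with (h | h) | h
      · have := h.lin; lia
      · have := h.lin; lia
      · have := h.lin; lia
    · have := h.lin; lia
  · rcases h with h | h
    · rcases h with ((h | h) | h) | h
      · have := h.lin; lia
      · have := h.lin; lia
      · have := h.lin; lia
      · have := h.lin; lia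
    · have := h.lin; lia

theorem sA2 : Ccw (0, D.a) (D.wA3 ++ D.wRA) := by
  have := D.aux
  exact ccw_env (Q := (D.a - 1, -D.e)) (d := 2) D.sA0.1 D.sA0.2 (sMem_edges_right D.arcA3.1 (sMem_edges_left (sMem_edges_left (sMem_edges_right ((D.arcLe.p3 (P' := (D.a, 0)) (Q' := (D.a, -D.e)) D.a 0 (by dsimp only; omega)).cov.append (D.arcL1.p2 (P' := (D.a, -D.e)) (Q' := (D.a - 1, -D.e)) D.a (-D.e) (by dsimp only; omega)).cov).1 (edge_ea _ 2 (by omega))) _) _))
    D.sA1 (by ext <;> simp [dv] <;> omega)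

theorem sB0 : Simple (D.a - D.b, -2 * D.a - D.b) (D.wB3 ++ D.wRB) ∧
    ∀ z ∈ verts (D.a - D.b, -2 * D.a - D.b) (D.wB3 ++ D.wRB), D.EB z.1 z.2 := by
  have := D.aux
  refine D.arcB3.simple D.arcRB (fun X Y a b => ?_) (by
    have := length_ea (n := D.b) (by omega)
    simp only [wRB, List.length_append, length_rot, length_back]
    omega)
  show (X = D.a - D.b ∧ Y = -2 * D.a - D.b) ∨ (X = D.a - 2 * D.b ∧ Y = -2 * D.a - 2 * D.b)
  rcases a with (a | a) | a
  · rcases a with a | a
    · rcases a with ((a | a) | a) | a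
      · have ha := a.lin; have hb := b.lin
        obtain ⟨k1, k2, -⟩ := this
        obtain ⟨-, -, k28, -⟩ := ha
        obtain ⟨k35, k36, k37, k38, -, -, -, k42⟩ := hb
        lia
      · have ha := a.lin; have hb := b.lin
        obtain ⟨k1, k2, k3, -, -, k6, -⟩ := this
        obtain ⟨-, -, -, -, -, k31, -⟩ := ha
        obtain ⟨-, -, -, -, k39, -⟩ := hb
        lia
      · have ha := a.lin; have hb := b.lin
        obtain ⟨k1, k2, k3, -, -, k6, -⟩ := this
        obtain ⟨-, k27, -⟩ := ha
        obtain ⟨-, -, k37, -⟩ := hb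
        lia
      · have ha := a.lin; have hb := b.lin
        obtain ⟨k1, k2, k3, -, -, k6, -⟩ := this
        obtain ⟨k26, k27, -, k29, k30, -⟩ := ha
        obtain ⟨k35, k36, k37, -⟩ := hb
        lia
    · have ha := a.lin; have hb := b.lin
      obtain ⟨k1, k2, k3, -, k5, k6, -⟩ := this
      obtain ⟨-, -, -, k29, -⟩ := ha
      obtain ⟨-, -, k37, -⟩ := hb
      lia
  · have ha := a.lin; have hb := b.lin
    obtain ⟨k1, k2, k3, -, k5, k6, k7, -⟩ := this
    obtain ⟨k26, k27, -, -, -, k31, -, k33⟩ := ha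
    obtain ⟨-, k36, k37, k38, -, k40, -⟩ := hb
    rcases k7 with ⟨-, k10, -⟩ | ⟨-, k15, k16, -⟩ <;> lia
  · rcases a with a | a
    · have ha := a.lin; have hb := b.lin
      obtain ⟨k1, k2, k3, -, k5, k6, k7, -⟩ := this
      obtain ⟨k26, -, -, -, -, k31, k32, k33⟩ := ha
      obtain ⟨-, k36, k37, -, -, -, k41, k42⟩ := hb
      rcases k7 with ⟨-, k10, -⟩ | ⟨-, k15, k16, -⟩ <;> lia
    · rcases a with ((a | a) | a) | a
      · have ha := a.lin; have hb := b.lin
        obtain ⟨k1, k2, -⟩ := this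
        obtain ⟨-, -, k28⟩ := ha
        obtain ⟨-, k31, -, -, -, -, -, k37⟩ := hb
        lia
      · have ha := a.lin; have hb := b.lin
        obtain ⟨k1, k2, k3, k4, k5, k6, -⟩ := this
        obtain ⟨-, ⟨k102, -, -⟩, -⟩ := ha
        obtain ⟨-, k116, -⟩ := hb
        lia
      · have ha := a.lin; have hb := b.lin
        obtain ⟨k1, k2, k3, -, k5, k6, -⟩ := this
        obtain ⟨-, -, -, k29, -⟩ := ha
        obtain ⟨-, -, -, k38, -⟩ := hb
        lia
      · rcases a with a | a
        · have ha := a.lin; have hb := b.lin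
          obtain ⟨k1, k2, k3, k4, -, k6, k7, -, k20, -⟩ := this
          obtain ⟨-, k27, k28⟩ := ha
          obtain ⟨-, k37, -, -, -, k41, -⟩ := hb
          rcases k7 with ⟨-, k10, -⟩ | ⟨-, k15, -⟩
          · lia
          · rcases k28 with k29 | ⟨k31, k34⟩
            · lia
            · rcases k31 with k32 | k33 <;> lia
        · have ha := a.lin; have hb := b.lin
          obtain ⟨k1, k2, k3, -, k5, k6, k7, -⟩ := this
          obtain ⟨⟨-, k27, -, -, -⟩, ⟨k37, -, k39⟩, -⟩ := ha
          obtain ⟨-, k55, -, k57, -⟩ := hb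
          rcases k7 with ⟨-, k10, -⟩ | ⟨k14, -⟩
          · lia
          · rcases k39 with k40 | ⟨-, k43⟩
            · lia
            · rcases k43 with k44 | k45 <;> lia

theorem sB1 : OutE D.EB (D.a - 2 * D.b + 1) (-2 * D.a - 2 * D.b) := by
  have := D.aux
  refine .rayE fun V _ h => ?_
  rcases h with h | h
  · rcases h with (h | h) | h
    · have := h.lin; lia
    · have := h.lin; lia
    · have := h.lin; lia
  · have := h.lin; lia

theorem sB2 : Ccw (D.a - D.b, -2 * D.a - D.b) (D.wB3 ++ D.wRB) := by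
  have := D.aux
  exact ccw_env (Q := (D.a - 2 * D.b, -2 * D.a - 2 * D.b)) (d := 1) D.sB0.1 D.sB0.2 (sMem_edges_right D.arcB3.1 (sMem_edges_left (edge_ea _ 1 (by omega)) _))
    D.sB1 (by ext <;> simp [dv] <;> omega)

theorem covA2 : Cov (0, -2 * D.a - D.t) D.wA2 (0, D.a) D.A2 := by
  have := D.aux
  have h0 := (D.arcIA.p1 (P' := (0, -2 * D.a - D.t)) (Q' := (2 * D.a + D.t, 0)) 0 0 (by dsimp only; omega)).cov
  have h1 := (D.arcG.b3 (Q' := (2 * D.a + D.t, 0)) (P' := (D.a, 0)) D.a 0 (by dsimp only; omega)).cov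
  have h2 := (D.arcRA).cov
  exact (h0.append h1).append h2

theorem covC1 : Cov (D.a - D.b, -2 * D.a - D.b) D.wC1 (0, -2 * D.a - D.t) D.C1 := by
  have := D.aux
  have h0 := (D.arcUU.b1 (Q' := (D.a - D.b, -2 * D.a - D.b)) (P' := (0, -D.a - D.b)) D.a (-2 * D.b) (by dsimp only; omega)).cov
  have h1 := (D.arcSX.b0 (Q' := (0, -D.a - D.b)) (P' := (D.a - D.b, -D.a - D.b)) (D.a - D.b) (-2 * D.a - D.b) (by dsimp only; omega)).cov
  have h2 := (D.arcSX.p1 (P' := (D.a - D.b, -D.a - D.b)) (Q' := (D.a - D.b, -2 * D.a)) (2 * D.a - D.b) (-D.a - D.b) (by dsimp only; omega)).cov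
  have h3 := (D.arcLs.p2 (P' := (D.a - D.b, -2 * D.a)) (Q' := (-D.p, D.p - D.a - D.b + 1)) (D.a - D.b) (-2 * D.a) (by dsimp only; omega)).cov
  have h4 := (D.arcM.b2 (Q' := (-D.p, D.p - D.a - D.b + 1)) (P' := (0, -2 * D.a - D.t)) 0 (-D.a) (by dsimp only; omega)).cov
  exact (((h0.append h1).append h2).append h3).append h4

theorem covC0 : Cov (-2 * D.a - D.t, 0) D.wC0 (D.a - 2 * D.b, -2 * D.a) D.C0 := by
  have := D.aux
  have h0 := (D.arcO.p1 (P' := (-2 * D.a - D.t, 0)) (Q' := (-D.a - D.b, D.b - 2 * D.a)) (-D.a) 0 (by dsimp only; omega)).cov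
  have h1 := (D.arcUU.b0 (Q' := (-D.a - D.b, D.b - 2 * D.a)) (P' := (-D.b, -D.a)) (D.a - 2 * D.b) (-2 * D.a) (by dsimp only; omega)).cov
  have h2 := (D.arcUU.p1 (P' := (-D.b, -D.a)) (Q' := (D.a - 2 * D.b, -2 * D.a)) (D.a - D.b) (-D.b) (by dsimp only; omega)).cov
  exact (h0.append h1).append h2

theorem covC2 : Cov (-2 * D.a - D.t, 0) D.wC2 (D.a - D.b, -2 * D.a - D.b) D.C2 := by
  have := D.aux
  have h0 := D.covC0
  have h1 := (D.arcQB.p1 (P' := (D.a - 2 * D.b, -2 * D.a)) (Q' := (D.a - 3 * D.b, -2 * D.a - D.b)) (D.a - 2 * D.b) (-2 * D.a - D.b) (by dsimp only; omega)).cov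
  have h2 := (D.arcQB.p2 (P' := (D.a - 3 * D.b, -2 * D.a - D.b)) (Q' := (D.a - 2 * D.b, -2 * D.a - 2 * D.b)) (D.a - 2 * D.b) (-2 * D.a - D.b) (by dsimp only; omega)).cov
  have h3 := (D.arcRB).cov
  exact ((h0.append h1).append h2).append h3

theorem eQ : D.Q = D.A ++ D.G := by
  have := D.ord
  exact D.C.Z_append (by omega) (by omega)

theorem eO : D.O = D.M ++ D.N := by
  have := D.ord
  exact D.C.Z_append (by omega) (by omega)

theorem eL : D.L = D.Q ++ D.O := by
  have := D.ord
  exact D.C.Z_append (by omega) (by omega)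

theorem eA' : D.wA3 ++ D.wRA = D.wA1 ++ (D.π ++ D.wA2) := by
  simp [wA3, wA2]

theorem eB' : D.wB3 ++ D.wRB = D.wC1 ++ (back 0 D.π ++ D.wC2) := by
  simp [wB3, wC1, wC2, wC0, π, qb, wB1, wB2, wS, eL, rot_append, back_append, back_rot, back_back,
    rot_back, rot_rot, back_ea]

theorem π_ne : D.π ≠ [] := by
  have := D.ord
  exact List.append_ne_nil_of_left_ne_nil (List.append_ne_nil_of_left_ne_nil
    (back_ne (D.C.Z_ne (by omega))) _) _

theorem arcAL : CArc (0, -2 * D.a - D.t) D.α (-2 * D.a - D.t, 0) D.AL :=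
  Simple.rest (D.eA' ▸ D.sA0.1) D.π_ne D.covA2 D.arcA1.cov D.arcIA.1

theorem arcBE : CArc (-2 * D.a - D.t, 0) D.β (0, -2 * D.a - D.t) D.BE :=
  Simple.rest (D.eB' ▸ D.sB0.1) (back_ne D.π_ne) D.covC2 D.covC1 D.arcIA.back.1

theorem sC0 : Simple (0, -2 * D.a - D.t) (D.α ++ D.β) ∧
    ∀ z ∈ verts (0, -2 * D.a - D.t) (D.α ++ D.β), D.EC z.1 z.2 := by
  have := D.aux
  refine D.arcAL.simple D.arcBE (fun X Y a b => ?_) (by
    have := length_ea (n := D.a - 1) (by omega)
    simp only [α, wA2, wRA, wR, List.length_append, length_rot, length_back]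
    omega)
  show (X = 0 ∧ Y = -2 * D.a - D.t) ∨ (X = -2 * D.a - D.t ∧ Y = 0)
  rcases b with b | b
  · rcases a with a | a
    · have ha := a.lin; have hb := b.lin
      obtain ⟨k1, -, k3, -, k5, k6, -⟩ := this
      obtain ⟨-, k27, -⟩ := ha
      obtain ⟨k35, -⟩ := hb
      lia
    · rcases b with ((b | b) | b) | b
      · rcases b with (b | b) | b
        · rcases a with (a | a) | a
          · have ha := a.lin; have hb := b.lin
            obtain ⟨k1, -, k3, -, k5, k6, k7, -⟩ := this
            obtain ⟨k26, k69⟩ := ha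
            obtain ⟨k73, -, k116⟩ := hb
            rcases k7 with ⟨k9, k10, -⟩ | ⟨k14, -, k16, k17, -⟩
            · rcases k26 with ⟨-, -, k30, k31⟩ | ⟨-, k50, -, k52, k53, -⟩
              · rcases k31 with ⟨-, k34, -⟩ | ⟨k37, -⟩
                · rcases k69 with k70 | k71
                  · rcases k116 with k117 | k118
                    · rcases k73 with ⟨-, -, -, k78⟩ | ⟨-, -, -, k99, -⟩
                      · rcases k78 with ⟨-, -, k82⟩ | ⟨k84, -⟩ <;> lia
                      · lia
                    · lia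
                  · rcases k116 with k117 | k118
                    · lia
                    · rcases k73 with ⟨-, -, -, k78⟩ | ⟨-, -, -, k99, -⟩
                      · rcases k78 with ⟨-, -, k82⟩ | ⟨k84, -⟩ <;> lia
                      · lia
                · lia
              · rcases k73 with ⟨-, -, -, k78⟩ | ⟨k96, -, -, k99, -⟩
                · rcases k78 with ⟨-, -, k82⟩ | ⟨k84, -⟩ <;> lia
                · rcases k116 with k117 | k118 <;> lia
            · rcases k26 with ⟨-, -, -, k31⟩ | ⟨-, k50, -, -, -, -, k55⟩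
              · rcases k116 with k117 | k118
                · rcases k69 with k70 | k71
                  · rcases k73 with ⟨-, -, -, k78⟩ | ⟨-, -, -, -, k100⟩
                    · rcases k31 with ⟨k33, -⟩ | ⟨-, -, k39, k40, k43⟩
                      · lia
                      · rcases k43 with k44 | ⟨k46, k47⟩
                        · rcases k78 with ⟨k80, -⟩ | ⟨-, -, k86, -⟩ <;> lia
                        · rcases k40 with k41 | k42 <;> lia
                    · rcases k100 with k101 | ⟨k103, -⟩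
                      · lia
                      · rcases k31 with ⟨k33, -⟩ | ⟨-, k38, -⟩ <;> lia
                  · lia
                · rcases k73 with ⟨-, -, -, k78⟩ | ⟨-, -, -, -, k100⟩
                  · rcases k31 with ⟨k33, -⟩ | ⟨-, -, k39, -, k43⟩
                    · lia
                    · rcases k78 with ⟨k80, -⟩ | ⟨-, -, k86, -⟩
                      · lia
                      · rcases k43 with k44 | ⟨-, k47⟩ <;> lia
                  · rcases k100 with k101 | ⟨k103, -⟩
                    · lia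
                    · rcases k31 with ⟨k33, -⟩ | ⟨-, k38, -⟩ <;> lia
              · rcases k73 with ⟨-, -, -, k78⟩ | ⟨-, -, -, -, k100⟩
                · rcases k78 with ⟨k80, -⟩ | ⟨-, -, k86, -⟩
                  · lia
                  · rcases k55 with ⟨k57, -⟩ | ⟨-, k63, -⟩ <;> lia
                · rcases k100 with k101 | ⟨k103, -⟩ <;> lia
          · have ha := a.lin; have hb := b.lin
            obtain ⟨k1, -, k3, -, k5, -, k7, -⟩ := this
            obtain ⟨k26, k27, k28⟩ := ha
            obtain ⟨k30, -, k73⟩ := hb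
            rcases k73 with k74 | k75
            · rcases k30 with ⟨-, -, -, k35⟩ | ⟨k53, -, -, k56, -⟩
              · rcases k35 with ⟨-, k38, k39⟩ | ⟨-, -, k43, k44, -⟩
                · lia
                · rcases k44 with k45 | k46 <;> lia
              · rcases k7 with ⟨-, k10, -⟩ | ⟨-, k15, -, -, k18⟩ <;> lia
            · lia
          · have ha := a.lin; have hb := b.lin
            obtain ⟨k1, -, k3, -, k5, k6, k7, -⟩ := this
            obtain ⟨-, k27, k28⟩ := ha
            obtain ⟨k30, -⟩ := hb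
            rcases k30 with ⟨-, -, -, k35⟩ | ⟨-, k54, -, k56, -⟩
            · rcases k35 with ⟨k37, -, k39⟩ | ⟨-, -, -, k44, -⟩
              · rcases k7 with ⟨-, -, -, k12⟩ | ⟨k14, -⟩ <;> lia
              · rcases k44 with k45 | k46 <;> lia
            · rcases k7 with ⟨-, k10, -, k12⟩ | ⟨-, k15, -, -, k18⟩ <;> lia
        · rcases b with b | b
          · have ha := a.lin; have hb := b.lin
            obtain ⟨k1, k2, k3, k4, -, k6, k7, -, k20, -⟩ := this
            obtain ⟨-, k27, -, k29, -, k31, -⟩ := ha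
            obtain ⟨k35, k36, k37⟩ := hb
            rcases k7 with ⟨-, k10, -⟩ | ⟨-, k15, -⟩
            · rcases k37 with k38 | ⟨k40, k43⟩
              · lia
              · rcases k40 with k41 | k42 <;> lia
            · rcases k37 with k38 | ⟨k40, k43⟩
              · lia
              · rcases k40 with k41 | k42 <;> lia
          · have ha := a.lin; have hb := b.lin
            obtain ⟨k1, k2, k3, k4, -, -, k7, -⟩ := this
            obtain ⟨-, k27, -, -, -, k31, -⟩ := ha
            obtain ⟨-, ⟨-, k47, k48⟩, -⟩ := hb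
            rcases k7 with ⟨-, k10, -⟩ | ⟨k14, k15, k16, -⟩
            · lia
            · rcases k48 with k49 | ⟨k51, -⟩ <;> lia
        · have ha := a.lin; have hb := b.lin
          obtain ⟨k1, -, k3, -, k5, k6, -⟩ := this
          obtain ⟨-, -, -, k29, -⟩ := ha
          obtain ⟨k35, -⟩ := hb
          lia
      · have ha := a.lin; have hb := b.lin
        obtain ⟨k1, k2, k3, k4, -, k6, k7, -⟩ := this
        obtain ⟨-, -, -, -, -, k31, k32, k33⟩ := ha
        obtain ⟨-, -, -, -, k39, k40, -, k42⟩ := hb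
        rcases k7 with ⟨-, k10, -⟩ | ⟨-, k15, k16, -⟩ <;> lia
      · have ha := a.lin; have hb := b.lin
        obtain ⟨k1, k2, k3, -, k5, k6, k7, -⟩ := this
        obtain ⟨-, k27, -, k29, -, -, -, k33⟩ := ha
        obtain ⟨k35, k36, -, -, -, k40, -, k42⟩ := hb
        rcases k7 with ⟨-, k10, -⟩ | ⟨-, k15, k16, -⟩ <;> lia
      · have ha := a.lin; have hb := b.lin
        obtain ⟨k1, k2, k3, -, k5, k6, -⟩ := this
        obtain ⟨-, -, -, k29, -⟩ := ha
        obtain ⟨-, k36, -, -, k39, -⟩ := hb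
        lia
  · rcases a with a | a
    · rcases a with (a | a) | a
      · rcases b with (((b | b) | b) | b) | b
        · have ha := a.lin; have hb := b.lin
          obtain ⟨k1, k2, k3, k4, -, k6, -⟩ := this
          obtain ⟨-, k27, k28, -⟩ := ha
          obtain ⟨-, -, -, -, -, -, -, k42⟩ := hb
          lia
        · have ha := a.lin; have hb := b.lin
          obtain ⟨k1, k2, k3, k4, -, k6, -⟩ := this
          obtain ⟨-, k27, k28, -⟩ := ha
          obtain ⟨-, -, -, -, k39, -⟩ := hb
          lia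
        · have ha := a.lin; have hb := b.lin
          obtain ⟨k1, k2, k3, k4, -, k6, -⟩ := this
          obtain ⟨-, -, k28, -, -, -, k32, -⟩ := ha
          obtain ⟨-, -, -, -, -, k40, -, k42⟩ := hb
          lia
        · have ha := a.lin; have hb := b.lin
          obtain ⟨k1, k2, k3, k4, k5, k6, -⟩ := this
          obtain ⟨-, k27, k28, -, -, -, k32, -⟩ := ha
          obtain ⟨-, -, k37⟩ := hb
          rcases k37 with k38 | ⟨k40, k43⟩
          · lia
          · rcases k40 with k41 | k42 <;> lia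
        · rcases a with (a | a) | a
          · have := D.sQM a b (by omega); lia
          · have ha := a.lin; have hb := b.lin
            obtain ⟨k1, -, k3, -, k5, k6, -⟩ := this
            obtain ⟨-, -, k28⟩ := ha
            obtain ⟨k30, -⟩ := hb
            rcases k30 with ⟨k32, -, -, k35⟩ | ⟨-, -, k55, -⟩
            · rcases k35 with ⟨-, k38, -⟩ | ⟨-, k42, -⟩ <;> lia
            · lia
          · have ha := a.lin; have hb := b.lin
            obtain ⟨k1, -, k3, -, k5, k6, -⟩ := this
            obtain ⟨k26, -, k28⟩ := ha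
            obtain ⟨k30, -⟩ := hb
            rcases k30 with ⟨k32, -, -, k35⟩ | ⟨-, -, k55, -⟩
            · rcases k35 with ⟨-, k38, k39⟩ | ⟨-, k42, -⟩ <;> lia
            · lia
      · have ha := a.lin; have hb := b.lin
        obtain ⟨k1, -, k3, -, -, k6, -⟩ := this
        obtain ⟨⟨k26, -, -, -, -, -, -, -⟩, -⟩ := ha
        obtain ⟨k54, -⟩ := hb
        lia
      · have ha := a.lin; have hb := b.lin
        obtain ⟨k1, -, k3, -, -, k6, k7, -⟩ := this
        obtain ⟨k26, k27, -, k29, -, -, -, k33⟩ := ha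
        obtain ⟨-, -, k37, -, k39, -⟩ := hb
        rcases k7 with ⟨k9, -⟩ | ⟨k14, -⟩ <;> lia
    · have ha := a.lin; have hb := b.lin
      obtain ⟨k1, -, k3, -, k5, k6, -⟩ := this
      obtain ⟨-, -, -, k29, -⟩ := ha
      obtain ⟨-, -, k37, -⟩ := hb
      lia

theorem sC1 : OutE D.EC (D.a - 2 * D.b + 1) (-2 * D.a - 2 * D.b) := by
  have := D.aux
  refine .rayE fun V _ h => ?_
  rcases h with h | h
  · have := h.lin; lia
  · rcases h with h | h
    · rcases h with ((h | h) | h) | h
      · have := h.lin; lia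
      · have := h.lin; lia
      · have := h.lin; lia
      · have := h.lin; lia
    · have := h.lin; lia

theorem sC2 : Ccw (0, -2 * D.a - D.t) (D.α ++ D.β) := by
  have := D.aux
  exact ccw_env (Q := (D.a - 2 * D.b, -2 * D.a - 2 * D.b)) (d := 1) D.sC0.1 D.sC0.2 (sMem_edges_right D.arcAL.1 (sMem_edges_left (sMem_edges_right ((D.covC0.append (D.arcQB.p1 (P' := (D.a - 2 * D.b, -2 * D.a)) (Q' := (D.a - 3 * D.b, -2 * D.a - D.b)) (D.a - 2 * D.b) (-2 * D.a - D.b) (by dsimp only; omega)).cov).append (D.arcQB.p2 (P' := (D.a - 3 * D.b, -2 * D.a - D.b)) (Q' := (D.a - 2 * D.b, -2 * D.a - 2 * D.b)) (D.a - 2 * D.b) (-2 * D.a - D.b) (by dsimp only; omega)).cov).1 (sMem_edges_left (edge_ea _ 1 (by omega)) _)) _))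
    D.sC1 (by ext <;> simp [dv] <;> omega)

end D5

end NP
end Pool.Agent.Lib.MP_4a7072_co
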