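import Pool.Agent.Lib.MP_4a7072_co.FEDefs

/-!
The vertices of the three lattices are marked or lie outside.
-/

set_option autoImplicit false
set_option linter.unnecessarySeqFocus false
set_option linter.unusedSimpArgs false
set_option linter.unusedVariables false
set_option linter.unreachableTactic false
set_option linter.unusedTactic false

namespace Pool.Agent.Lib.MP_4a7072_co
namespace NP


namespace DE

variable (D : DE)

theorem cov_h0 : D.a = D.d + D.h ∧ D.b = D.d + 2 * D.h ∧ 2 ≤ D.d ∧ 2 * D.d < D.h := by
  obtain ⟨h1, h2, h3, -, -, -, h7, h8, -⟩ := D.aux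
  exact ⟨h1, h2, by omega, h8⟩

theorem cov_h1 : 0 ≤ D.e ∧ D.e ≤ 1 ∧ 0 < D.k ∧ D.k < D.d := by
  obtain ⟨-, -, -, h4, h5, -, -, -, -, h10⟩ := D.aux
  exact ⟨h4, h5, h10⟩

theorem covA (m n : ℤ) : (0 + (m * D.a - n * 0), 0 + (m * 0 + n * D.a)) ∈ D.KA ∨
    OutE D.EA (0 + (m * D.a - n * 0)) (0 + (m * 0 + n * D.a)) := by
  have hx := D.cov_h0
  have l : ∀ {m c : ℤ}, m ≤ c → 1 * (m * D.a) ≤ 1 * (c * D.a) := fun h =>
    by linarith [mul_le_mul_of_nonneg_right h (show 0 ≤ D.a by omega)]
  rcases (by omega : n ≤ -3 ∨ n = -2 ∨ n = -1 ∨ n = 0 ∨ n = 1 ∨ n = 2 ∨ 3 ≤ n) with hn | rfl | rfl | rfl | rfl | rfl | hn <;>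
  rcases (by omega : m ≤ -3 ∨ m = -2 ∨ m = -1 ∨ m = 0 ∨ m = 1 ∨ m = 2 ∨ 3 ≤ m) with hm | rfl | rfl | rfl | rfl | rfl | hm
  all_goals
    try have gn := l hn
    try have gm := l hm
    try clear hn
    try clear hm
    clear l
  · refine .inr ?_
    refine .rayE fun V _ h => ?_
    have := h.lin.2.2.2.1; omega
  · refine .inr ?_
    refine .rayE fun V _ h => ?_
    have := h.lin.2.2.2.1; omega
  · refine .inr ?_
    refine .rayE fun V _ h => ?_
    have := h.lin.2.2.2.1; omega
  · refine .inr ?_
    refine .rayE fun V _ h => ?_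
    have := h.lin.2.2.2.1; omega
  · refine .inr ?_
    refine .rayE fun V _ h => ?_
    have := h.lin.2.2.2.1; omega
  · refine .inr ?_
    refine .rayE fun V _ h => ?_
    have := h.lin.1; omega
  · refine .inr ?_
    refine .rayE fun V _ h => ?_
    have := h.lin.1; omega
  · refine .inr ?_
    refine .rayN fun V _ h => ?_
    have := h.lin.2.1; omega
  · refine .inr ?_
    refine .rayW fun V _ h => ?_
    have := h.lin.2.2.2.2.2.1; omega
  · exact .inl (.tail _ (.tail _ (.tail _ (.tail _ (.tail _ (.tail _ (.tail _ (mem_hd (by omega) (by omega)))))))))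
  · exact .inl (.tail _ (.tail _ (.tail _ (.tail _ (.tail _ (.tail _ (.tail _ (.tail _ (.tail _ (.tail _ (mem_hd (by ring1) (by omega))))))))))))
  · refine .inr ?_
    refine .rayE fun V _ h => ?_
    have := h.lin.2.2.2.2.2.2.2; omega
  · refine .inr ?_
    refine .rayE fun V _ h => ?_
    have := h.lin.1; omega
  · refine .inr ?_
    refine .rayE fun V _ h => ?_
    have := h.lin.1; omega
  · refine .inr ?_
    refine .rayN fun V _ h => ?_
    have := h.lin.2.1; omega
  · refine .inr ?_
    refine .rayW fun V _ h => ?_
    rcases h with h | h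
    · rcases h with (h | h) | h
      · have := h.lin.2.1; omega
      · have := h.lin.2.1; omega
      · have := h.lin.1; omega
    · have := h.lin.2.1; omega
  · refine .inr ?_
    refine .rayW fun V _ h => ?_
    rcases h with h | h
    · rcases h with (h | h) | h
      · have := h.lin.2.1; omega
      · have := h.lin.2.1; omega
      · rcases h with (h | h) | h
        · rcases h with (h | h) | h
          · have := D.aux; have := h.lin; omega
          · have := h.lin.2.2; omega
          · have := h.lin.1; omega
        · have := h.lin.2.2.2.1; omega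
        · have := h.lin.1; omega
    · have := h.lin.2.1; omega
  · exact .inl (mem_hd (by ring1) (by omega))
  · refine .inr ?_
    refine .rayE fun V _ h => ?_
    rcases h with h | h
    · rcases h with (h | h) | h
      · have := h.lin.2.2.2.1; omega
      · have := h.lin.2.1; omega
      · have := h.lin.2.1; omega
    · have := h.lin.2.2.2.2.2.2.2; omega
  · refine .inr ?_
    refine .rayE fun V _ h => ?_
    have := h.lin.1; omega
  · refine .inr ?_
    refine .rayE fun V _ h => ?_
    have := h.lin.1; omega
  · refine .inr ?_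
    refine .rayN fun V _ h => ?_
    have := h.lin.2.1; omega
  · exact .inl (.tail _ (.tail _ (.tail _ (.tail _ (.tail _ (.tail _ (.tail _ (.tail _ (.tail _ (mem_hd (by omega) (by ring1)))))))))))
  · exact .inl (.tail _ (.tail _ (.tail _ (.tail _ (mem_hd (by omega) (by ring1))))))
  · exact .inl (.tail _ (mem_hd (by ring1) (by ring1)))
  · exact .inl (.tail _ (.tail _ (mem_hd (by omega) (by ring1))))
  · refine .inr ?_
    refine .rayE fun V _ h => ?_
    have := h.lin.1; omega
  · refine .inr ?_
    refine .rayE fun V _ h => ?_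
    have := h.lin.1; omega
  · refine .inr ?_
    refine .rayN fun V _ h => ?_
    have := h.lin.2.1; omega
  · exact .inl (.tail _ (.tail _ (.tail _ (.tail _ (.tail _ (.tail _ (mem_hd (by omega) (by omega))))))))
  · refine .inr ?_
    refine .rayN fun V _ h => ?_
    rcases h with h | h
    · rcases h with (h | h) | h
      · have := h.lin.2.1; omega
      · rcases h with (h | h) | h
        · rcases h with (h | h) | h
          · have := D.aux; have := h.lin; omega
          · have := h.lin.2.2; omega
          · have := h.lin.1; omega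
        · have := h.lin.2.2.2.1; omega
        · have := h.lin.1; omega
      · have := h.lin.2.2.2.1; omega
    · have := h.lin.2.1; omega
  · exact .inl (.tail _ (.tail _ (.tail _ (mem_hd (by ring1) (by omega)))))
  · refine .inr ?_
    refine .rayE fun V _ h => ?_
    rcases h with h | h
    · rcases h with (h | h) | h
      · rcases h with (h | h) | h
        · rcases h with (h | h) | h
          · have := D.aux; have := h.lin; omega
          · have := h.lin.2.2; omega
          · have := h.lin.1; omega
        · have := h.lin.2.2.2.1; omega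
        · have := h.lin.1; omega
      · have := h.lin.2.2.2.1; omega
      · have := h.lin.2.1; omega
    · have := h.lin.2.2.1; omega
  · refine .inr ?_
    refine .rayE fun V _ h => ?_
    have := h.lin.1; omega
  · refine .inr ?_
    refine .rayE fun V _ h => ?_
    have := h.lin.1; omega
  · refine .inr ?_
    refine .rayN fun V _ h => ?_
    have := h.lin.2.1; omega
  · refine .inr ?_
    refine .rayN fun V _ h => ?_
    have := h.lin.2.2.2.2.2.2.1; omega
  · refine .inr ?_
    refine .rayN fun V _ h => ?_
    rcases h with h | h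
    · rcases h with (h | h) | h
      · have := h.lin.2.1; omega
      · have := h.lin.1; omega
      · have := h.lin.2.2.2.1; omega
    · have := h.lin.2.1; omega
  · exact .inl (.tail _ (.tail _ (.tail _ (.tail _ (.tail _ (.tail _ (.tail _ (.tail _ (mem_hd (by ring1) (by omega))))))))))
  · exact .inl (.tail _ (.tail _ (.tail _ (.tail _ (.tail _ (mem_hd (by omega) (by omega)))))))
  · refine .inr ?_
    refine .rayE fun V _ h => ?_
    have := h.lin.1; omega
  · refine .inr ?_
    refine .rayE fun V _ h => ?_
    have := h.lin.1; omega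
  · refine .inr ?_
    refine .rayE fun V _ h => ?_
    have := h.lin.2.2.1; omega
  · refine .inr ?_
    refine .rayE fun V _ h => ?_
    have := h.lin.2.2.1; omega
  · refine .inr ?_
    refine .rayE fun V _ h => ?_
    have := h.lin.2.2.1; omega
  · refine .inr ?_
    refine .rayE fun V _ h => ?_
    have := h.lin.2.2.1; omega
  · refine .inr ?_
    refine .rayE fun V _ h => ?_
    have := h.lin.2.2.1; omega
  · refine .inr ?_
    refine .rayE fun V _ h => ?_
    have := h.lin.1; omega
  · refine .inr ?_
    refine .rayE fun V _ h => ?_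
    have := h.lin.1; omega

theorem memA : ∀ W ∈ D.KA, ∃ m n : ℤ, W.1 = 0 + (m * D.a - n * 0) ∧ W.2 = 0 + (m * 0 + n * D.a) := by
  have hx := D.cov_h0
  intro W h
  simp only [KA, List.mem_cons, List.not_mem_nil, or_false] at h
  rcases h with rfl | rfl | rfl | rfl | rfl | rfl | rfl | rfl | rfl | rfl | rfl | rfl | rfl | rfl
  · exact ⟨0, -1, by dsimp only; ring1, by dsimp only; omega⟩
  · exact ⟨0, 0, by dsimp only; ring1, by dsimp only; ring1⟩
  · exact ⟨1, 0, by dsimp only; omega, by dsimp only; ring1⟩
  · exact ⟨0, 1, by dsimp only; ring1, by dsimp only; omega⟩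
  · exact ⟨-1, 0, by dsimp only; omega, by dsimp only; ring1⟩
  · exact ⟨1, 2, by dsimp only; omega, by dsimp only; omega⟩
  · exact ⟨-2, 1, by dsimp only; omega, by dsimp only; omega⟩
  · exact ⟨-1, -2, by dsimp only; omega, by dsimp only; omega⟩
  · exact ⟨0, 2, by dsimp only; ring1, by dsimp only; omega⟩
  · exact ⟨-2, 0, by dsimp only; omega, by dsimp only; ring1⟩
  · exact ⟨0, -2, by dsimp only; ring1, by dsimp only; omega⟩
  · exact ⟨0, 2, by dsimp only; ring1, by dsimp only; omega⟩
  · exact ⟨-2, 0, by dsimp only; omega, by dsimp only; ring1⟩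
  · exact ⟨0, -2, by dsimp only; ring1, by dsimp only; omega⟩

theorem covB (m n : ℤ) : ((-D.d) + (m * D.b - n * 0), (3 * D.d + 5 * D.h) + (m * 0 + n * D.b)) ∈ D.KB ∨
    OutE D.EB ((-D.d) + (m * D.b - n * 0)) ((3 * D.d + 5 * D.h) + (m * 0 + n * D.b)) := by
  have hx := D.cov_h0
  have l : ∀ {m c : ℤ}, m ≤ c → 1 * (m * D.b) ≤ 1 * (c * D.b) := fun h =>
    by linarith [mul_le_mul_of_nonneg_right h (show 0 ≤ D.b by omega)]
  rcases (by omega : n ≤ -3 ∨ n = -2 ∨ n = -1 ∨ n = 0 ∨ n = 1 ∨ n = 2 ∨ 3 ≤ n) with hn | rfl | rfl | rfl | rfl | rfl | hn <;>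
  rcases (by omega : m ≤ -3 ∨ m = -2 ∨ m = -1 ∨ m = 0 ∨ m = 1 ∨ m = 2 ∨ 3 ≤ m) with hm | rfl | rfl | rfl | rfl | rfl | hm
  all_goals
    try have gn := l hn
    try have gm := l hm
    try clear hn
    try clear hm
    clear l
  · refine .inr ?_
    refine .rayE fun V _ h => ?_
    have := h.lin.2.2.2.1; omega
  · refine .inr ?_
    refine .rayE fun V _ h => ?_
    have := h.lin.2.2.2.1; omega
  · refine .inr ?_
    refine .rayE fun V _ h => ?_
    have := h.lin.2.2.2.1; omega
  · refine .inr ?_
    refine .rayE fun V _ h => ?_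
    have := h.lin.2.2.2.1; omega
  · refine .inr ?_
    refine .rayE fun V _ h => ?_
    have := h.lin.2.2.2.1; omega
  · refine .inr ?_
    refine .rayE fun V _ h => ?_
    have := h.lin.2.2.2.1; omega
  · refine .inr ?_
    refine .rayE fun V _ h => ?_
    have := h.lin.1; omega
  · refine .inr ?_
    refine .rayE fun V _ h => ?_
    have := h.lin.2.2.2.1; omega
  · refine .inr ?_
    refine .rayE fun V _ h => ?_
    have := h.lin.2.2.2.1; omega
  · refine .inr ?_
    refine .rayE fun V _ h => ?_
    have := h.lin.2.2.2.1; omega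
  · refine .inr ?_
    refine .rayE fun V _ h => ?_
    have := h.lin.2.2.2.1; omega
  · refine .inr ?_
    refine .rayE fun V _ h => ?_
    have := h.lin.2.2.2.1; omega
  · refine .inr ?_
    refine .rayE fun V _ h => ?_
    have := h.lin.2.2.2.1; omega
  · refine .inr ?_
    refine .rayE fun V _ h => ?_
    have := h.lin.1; omega
  · refine .inr ?_
    refine .rayN fun V _ h => ?_
    have := h.lin.2.1; omega
  · refine .inr ?_
    refine .rayW fun V _ h => ?_
    have := h.lin.2.2.2.2.2.1; omega
  · refine .inr ?_
    refine .rayW fun V _ h => ?_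
    rcases h with h | h
    · rcases h with (h | h) | h
      · have := h.lin.2.1; omega
      · have := h.lin.2.1; omega
      · have := h.lin.2.2.1; omega
    · have := h.lin.2.2.2.2.2.1; omega
  · exact .inl (.tail _ (.tail _ (mem_hd (by ring1) (by omega))))
  · refine .inr ?_
    refine .rayS fun V _ h => ?_
    rcases h with h | h
    · rcases h with (h | h) | h
      · rcases h with (h | h) | h
        · rcases h with ((h | h) | h) | h
          · have := h.lin.2.2.2.1; omega
          · have := h.lin.1; omega
          · have := h.lin.2.2.1; omega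
          · have := h.lin.2.2.2.2.2.2.2; omega
        · have := h.lin.2.2.2.2.2.1; omega
        · have := h.lin.2.2.2.1; omega
      · have := h.lin.2.1; omega
      · have := h.lin.2.1; omega
    · have := h.lin.1; omega
  · exact .inl (.tail _ (.tail _ (.tail _ (.tail _ (.tail _ (mem_hd (by omega) (by omega)))))))
  · refine .inr ?_
    refine .rayE fun V _ h => ?_
    have := h.lin.1; omega
  · refine .inr ?_
    refine .rayN fun V _ h => ?_
    have := h.lin.2.1; omega
  · exact .inl (.tail _ (.tail _ (.tail _ (.tail _ (.tail _ (.tail _ (.tail _ (.tail _ (.tail _ (.tail _ (mem_hd (by omega) (by ring1))))))))))))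
  · exact .inl (mem_hd (by omega) (by ring1))
  · exact .inl (.tail _ (mem_hd (by ring1) (by ring1)))
  · exact .inl (.tail _ (.tail _ (.tail _ (mem_hd (by omega) (by ring1)))))
  · exact .inl (.tail _ (.tail _ (.tail _ (.tail _ (.tail _ (.tail _ (.tail _ (.tail _ (mem_hd (by omega) (by ring1))))))))))
  · refine .inr ?_
    refine .rayE fun V _ h => ?_
    have := h.lin.1; omega
  · refine .inr ?_
    refine .rayN fun V _ h => ?_
    have := h.lin.2.1; omega
  · exact .inl (.tail _ (.tail _ (.tail _ (.tail _ (.tail _ (.tail _ (.tail _ (mem_hd (by omega) (by omega)))))))))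
  · refine .inr ?_
    refine .rayN fun V _ h => ?_
    rcases h with h | h
    · rcases h with (h | h) | h
      · have := h.lin.2.1; omega
      · have := h.lin.2.2.1; omega
      · rcases h with (h | h) | h
        · rcases h with ((h | h) | h) | h
          · have := h.lin.2.2.2.1; omega
          · have := h.lin.1; omega
          · have := h.lin.2.2.1; omega
          · have := h.lin.2.2.2.2.2.2.2; omega
        · have := h.lin.2.2.2.2.2.1; omega
        · have := h.lin.2.2.2.1; omega
    · have := h.lin.2.2.1; omega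
  · exact .inl (.tail _ (.tail _ (.tail _ (.tail _ (mem_hd (by ring1) (by omega))))))
  · refine .inr ?_
    refine .rayE fun V _ h => ?_
    rcases h with h | h
    · rcases h with (h | h) | h
      · have := h.lin.2.2.1; omega
      · rcases h with (h | h) | h
        · rcases h with ((h | h) | h) | h
          · have := h.lin.2.2.2.1; omega
          · have := h.lin.1; omega
          · have := h.lin.2.2.1; omega
          · have := h.lin.2.2.2.2.2.2.2; omega
        · have := h.lin.2.2.2.2.2.1; omega
        · have := h.lin.2.2.2.1; omega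
      · have := h.lin.2.1; omega
    · have := h.lin.1; omega
  · refine .inr ?_
    refine .rayE fun V _ h => ?_
    rcases h with h | h
    · rcases h with (h | h) | h
      · have := h.lin.2.2.1; omega
      · have := h.lin.2.2.2.1; omega
      · have := h.lin.2.1; omega
    · have := h.lin.1; omega
  · refine .inr ?_
    refine .rayE fun V _ h => ?_
    have := h.lin.1; omega
  · refine .inr ?_
    refine .rayN fun V _ h => ?_
    have := h.lin.2.1; omega
  · refine .inr ?_
    refine .rayN fun V _ h => ?_
    have := h.lin.2.2.2.2.2.2.1; omega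
  · refine .inr ?_
    refine .rayN fun V _ h => ?_
    rcases h with h | h
    · rcases h with (h | h) | h
      · have := h.lin.2.1; omega
      · have := h.lin.2.2.1; omega
      · have := h.lin.2.2.2.1; omega
    · have := h.lin.2.2.1; omega
  · exact .inl (.tail _ (.tail _ (.tail _ (.tail _ (.tail _ (.tail _ (.tail _ (.tail _ (.tail _ (mem_hd (by ring1) (by omega)))))))))))
  · exact .inl (.tail _ (.tail _ (.tail _ (.tail _ (.tail _ (.tail _ (mem_hd (by omega) (by omega))))))))
  · refine .inr ?_
    refine .rayE fun V _ h => ?_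
    have := h.lin.2.2.2.2.1; omega
  · refine .inr ?_
    refine .rayE fun V _ h => ?_
    have := h.lin.1; omega
  · refine .inr ?_
    refine .rayE fun V _ h => ?_
    have := h.lin.2.2.1; omega
  · refine .inr ?_
    refine .rayE fun V _ h => ?_
    have := h.lin.2.2.1; omega
  · refine .inr ?_
    refine .rayE fun V _ h => ?_
    have := h.lin.2.2.1; omega
  · refine .inr ?_
    refine .rayE fun V _ h => ?_
    have := h.lin.2.2.1; omega
  · refine .inr ?_
    refine .rayE fun V _ h => ?_
    have := h.lin.2.2.1; omega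
  · refine .inr ?_
    refine .rayE fun V _ h => ?_
    have := h.lin.2.2.1; omega
  · refine .inr ?_
    refine .rayE fun V _ h => ?_
    have := h.lin.1; omega

theorem memB : ∀ W ∈ D.KB, ∃ m n : ℤ, W.1 = (-D.d) + (m * D.b - n * 0) ∧ W.2 = (3 * D.d + 5 * D.h) + (m * 0 + n * D.b) := by
  have hx := D.cov_h0
  intro W h
  simp only [KB, List.mem_cons, List.not_mem_nil, or_false] at h
  rcases h with rfl | rfl | rfl | rfl | rfl | rfl | rfl | rfl | rfl | rfl | rfl | rfl | rfl | rfl
  · exact ⟨-1, 0, by dsimp only; omega, by dsimp only; ring1⟩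
  · exact ⟨0, 0, by dsimp only; ring1, by dsimp only; ring1⟩
  · exact ⟨0, -1, by dsimp only; ring1, by dsimp only; omega⟩
  · exact ⟨1, 0, by dsimp only; omega, by dsimp only; ring1⟩
  · exact ⟨0, 1, by dsimp only; ring1, by dsimp only; omega⟩
  · exact ⟨2, -1, by dsimp only; omega, by dsimp only; omega⟩
  · exact ⟨1, 2, by dsimp only; omega, by dsimp only; omega⟩
  · exact ⟨-2, 1, by dsimp only; omega, by dsimp only; omega⟩
  · exact ⟨2, 0, by dsimp only; omega, by dsimp only; ring1⟩
  · exact ⟨0, 2, by dsimp only; ring1, by dsimp only; omega⟩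
  · exact ⟨-2, 0, by dsimp only; omega, by dsimp only; ring1⟩
  · exact ⟨2, 0, by dsimp only; omega, by dsimp only; ring1⟩
  · exact ⟨0, 2, by dsimp only; ring1, by dsimp only; omega⟩
  · exact ⟨-2, 0, by dsimp only; omega, by dsimp only; ring1⟩

theorem covC (m n : ℤ) : (0 + (m * D.b - n * D.a), 0 + (m * D.a + n * D.b)) ∈ D.KC ∨
    OutE D.EC (0 + (m * D.b - n * D.a)) (0 + (m * D.a + n * D.b)) := by
  have hx := D.cov_h0
  have l : ∀ {m c : ℤ}, m ≤ c → 3 * (m * D.b) + (-5) * (m * D.a) ≤ 3 * (c * D.b) + (-5) * (c * D.a) ∧ 2 * (m * D.a) + (-1) * (m * D.b) ≤ 2 * (c * D.a) + (-1) * (c * D.b) := fun h =>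
    ⟨by linarith [mul_le_mul_of_nonneg_right h (show 0 ≤ 3 * D.b - 5 * D.a by omega)], by linarith [mul_le_mul_of_nonneg_right h (show 0 ≤ 2 * D.a - D.b by omega)]⟩
  rcases (by omega : n ≤ -2 ∨ n = -1 ∨ n = 0 ∨ n = 1 ∨ n = 2 ∨ n = 3 ∨ n = 4 ∨ 5 ≤ n) with hn | rfl | rfl | rfl | rfl | rfl | rfl | hn <;>
  rcases (by omega : m ≤ -3 ∨ m = -2 ∨ m = -1 ∨ m = 0 ∨ m = 1 ∨ m = 2 ∨ m = 3 ∨ 4 ≤ m) with hm | rfl | rfl | rfl | rfl | rfl | rfl | hm
  all_goals
    try have gn := l hn
    try have gm := l hm
    try clear hn
    try clear hm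
    clear l
  · refine .inr ?_
    refine .rayE fun V _ h => ?_
    have := h.lin.2.2.2.1; omega
  · refine .inr ?_
    refine .rayE fun V _ h => ?_
    have := h.lin.2.2.2.1; omega
  · refine .inr ?_
    refine .rayE fun V _ h => ?_
    have := h.lin.2.2.2.1; omega
  · refine .inr ?_
    refine .rayE fun V _ h => ?_
    have := h.lin.2.2.2.1; omega
  · refine .inr ?_
    refine .rayE fun V _ h => ?_
    have := h.lin.1; omega
  · refine .inr ?_
    refine .rayE fun V _ h => ?_
    have := h.lin.1; omega
  · refine .inr ?_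
    refine .rayE fun V _ h => ?_
    have := h.lin.1; omega
  · refine .inr ?_
    refine .rayE fun V _ h => ?_
    have := h.lin.1; omega
  · refine .inr ?_
    refine .rayE fun V _ h => ?_
    have := h.lin.2.2.2.1; omega
  · refine .inr ?_
    refine .rayE fun V _ h => ?_
    have := h.lin.2.2.2.1; omega
  · refine .inr ?_
    refine .rayW fun V _ h => ?_
    have := h.lin.2.2.2.2.2.1; omega
  · refine .inr ?_
    refine .rayE fun V _ h => ?_
    have := h.lin.2.2.2.2.2.2.2; omega
  · refine .inr ?_
    refine .rayE fun V _ h => ?_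
    have := h.lin.2.2.2.2.2.2.2; omega
  · refine .inr ?_
    refine .rayE fun V _ h => ?_
    have := h.lin.1; omega
  · refine .inr ?_
    refine .rayE fun V _ h => ?_
    have := h.lin.1; omega
  · refine .inr ?_
    refine .rayE fun V _ h => ?_
    have := h.lin.1; omega
  · refine .inr ?_
    refine .rayE fun V _ h => ?_
    have := h.lin.2.2.2.1; omega
  · refine .inr ?_
    refine .rayW fun V _ h => ?_
    have := h.lin.2.2.2.2.2.1; omega
  · refine .inr ?_
    refine .rayW fun V _ h => ?_
    rcases h with h | h
    · rcases h with h | h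
      · rcases h with ((h | h) | h) | h
        · have := h.lin.2.1; omega
        · have := h.lin.2.1; omega
        · have := h.lin.1; omega
        · have := h.lin.2.1; omega
      · have := h.lin.2.1; omega
    · have := h.lin.2.2.2.2.2.1; omega
  · exact .inl (mem_hd (by ring1) (by ring1))
  · refine .inr ?_
    refine .rayE fun V _ h => ?_
    rcases h with h | h
    · have := h.lin.1; omega
    · have := h.lin.2.2.2.2.2.2.2; omega
  · refine .inr ?_
    refine .rayE fun V _ h => ?_
    rcases h with h | h
    · have := h.lin.1; omega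
    · have := h.lin.2.2.2.2.2.2.2; omega
  · refine .inr ?_
    refine .rayE fun V _ h => ?_
    have := h.lin.1; omega
  · refine .inr ?_
    refine .rayE fun V _ h => ?_
    have := h.lin.1; omega
  · refine .inr ?_
    refine .rayN fun V _ h => ?_
    have := h.lin.2.1; omega
  · refine .inr ?_
    refine .rayN fun V _ h => ?_
    have := h.lin.2.1; omega
  · refine .inr ?_
    refine .rayW fun V _ h => ?_
    rcases h with h | h
    · have := h.lin.2.2.2.2.2.2.1; omega
    · have := h.lin.2.2.2.2.2.1; omega
  · refine .inr ?_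
    refine .rayW fun V _ h => ?_
    rcases h with h | h
    · rcases h with h | h
      · rcases h with ((h | h) | h) | h
        · have := h.lin.2.1; omega
        · have := h.lin.1; omega
        · have := h.lin.2.2.2.1; omega
        · have := h.lin.2.1; omega
      · have := h.lin.2.1; omega
    · have := D.cov_h1; have := h.lin.2.2.2.1; omega
  · exact .inl (.tail _ (mem_hd (by omega) (by omega)))
  · exact .inl (.tail _ (.tail _ (mem_hd (by omega) (by omega))))
  · refine .inr ?_
    refine .rayE fun V _ h => ?_
    have := h.lin.1; omega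
  · refine .inr ?_
    refine .rayE fun V _ h => ?_
    have := h.lin.1; omega
  · refine .inr ?_
    refine .rayN fun V _ h => ?_
    have := h.lin.2.1; omega
  · refine .inr ?_
    refine .rayN fun V _ h => ?_
    have := h.lin.2.1; omega
  · refine .inr ?_
    refine .rayW fun V _ h => ?_
    rcases h with h | h
    · have := h.lin.2.1; omega
    · have := h.lin.2.2.2.2.2.1; omega
  · refine .inr ?_
    refine .rayW fun V _ h => ?_
    rcases h with h | h
    · have := h.lin.2.2.2.2.2.2.1; omega
    · rcases h with h | h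
      · rcases h with ((h | h) | h) | h
        · have := h.lin.2.1; omega
        · have := h.lin.2.1; omega
        · have := h.lin.2.2.1; omega
        · have := h.lin.2.2.2.2.2.1; omega
      · have := h.lin.2.1; omega
  · exact .inl (.tail _ (.tail _ (.tail _ (.tail _ (.tail _ (.tail _ (.tail _ (mem_hd (by omega) (by omega)))))))))
  · exact .inl (.tail _ (.tail _ (.tail _ (mem_hd (by omega) (by omega)))))
  · refine .inr ?_
    refine .rayE fun V _ h => ?_
    have := h.lin.2.2.2.2.1; omega
  · refine .inr ?_
    refine .rayE fun V _ h => ?_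
    have := h.lin.1; omega
  · refine .inr ?_
    refine .rayN fun V _ h => ?_
    have := h.lin.2.1; omega
  · refine .inr ?_
    refine .rayN fun V _ h => ?_
    have := h.lin.2.1; omega
  · refine .inr ?_
    refine .rayN fun V _ h => ?_
    have := h.lin.2.1; omega
  · exact .inl (.tail _ (.tail _ (.tail _ (.tail _ (.tail _ (.tail _ (mem_hd (by omega) (by omega))))))))
  · exact .inl (.tail _ (.tail _ (.tail _ (.tail _ (.tail _ (mem_hd (by omega) (by omega)))))))
  · exact .inl (.tail _ (.tail _ (.tail _ (.tail _ (mem_hd (by omega) (by omega))))))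
  · refine .inr ?_
    refine .rayE fun V _ h => ?_
    have := h.lin.2.2.2.2.1; omega
  · refine .inr ?_
    refine .rayE fun V _ h => ?_
    have := h.lin.1; omega
  · refine .inr ?_
    refine .rayN fun V _ h => ?_
    have := h.lin.2.1; omega
  · refine .inr ?_
    refine .rayN fun V _ h => ?_
    have := h.lin.2.1; omega
  · refine .inr ?_
    refine .rayN fun V _ h => ?_
    have := h.lin.2.1; omega
  · refine .inr ?_
    refine .rayN fun V _ h => ?_
    have := h.lin.2.2.2.2.2.2.1; omega
  · refine .inr ?_
    refine .rayN fun V _ h => ?_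
    have := h.lin.2.2.2.2.2.2.1; omega
  · refine .inr ?_
    refine .rayE fun V _ h => ?_
    have := h.lin.2.2.1; omega
  · refine .inr ?_
    refine .rayE fun V _ h => ?_
    have := h.lin.2.2.1; omega
  · refine .inr ?_
    refine .rayE fun V _ h => ?_
    have := h.lin.2.2.1; omega
  · refine .inr ?_
    refine .rayN fun V _ h => ?_
    have := h.lin.2.1; omega
  · refine .inr ?_
    refine .rayN fun V _ h => ?_
    have := h.lin.2.1; omega
  · refine .inr ?_
    refine .rayN fun V _ h => ?_
    have := h.lin.2.1; omega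
  · refine .inr ?_
    refine .rayE fun V _ h => ?_
    have := h.lin.2.2.1; omega
  · refine .inr ?_
    refine .rayE fun V _ h => ?_
    have := h.lin.2.2.1; omega
  · refine .inr ?_
    refine .rayE fun V _ h => ?_
    have := h.lin.2.2.1; omega
  · refine .inr ?_
    refine .rayE fun V _ h => ?_
    have := h.lin.2.2.1; omega
  · refine .inr ?_
    refine .rayE fun V _ h => ?_
    have := h.lin.2.2.1; omega

theorem memC : ∀ W ∈ D.KC, ∃ m n : ℤ, W.1 = 0 + (m * D.b - n * D.a) ∧ W.2 = 0 + (m * D.a + n * D.b) := by
  have hx := D.cov_h0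
  intro W h
  simp only [KC, List.mem_cons, List.not_mem_nil, or_false] at h
  rcases h with rfl | rfl | rfl | rfl | rfl | rfl | rfl | rfl
  · exact ⟨0, 0, by dsimp only; ring1, by dsimp only; ring1⟩
  · exact ⟨1, 1, by dsimp only; omega, by dsimp only; omega⟩
  · exact ⟨2, 1, by dsimp only; omega, by dsimp only; omega⟩
  · exact ⟨2, 2, by dsimp only; omega, by dsimp only; omega⟩
  · exact ⟨2, 3, by dsimp only; omega, by dsimp only; omega⟩
  · exact ⟨1, 3, by dsimp only; omega, by dsimp only; omega⟩
  · exact ⟨0, 3, by dsimp only; omega, by dsimp only; omega⟩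
  · exact ⟨1, 2, by dsimp only; omega, by dsimp only; omega⟩

end DE

end NP
end Pool.Agent.Lib.MP_4a7072_co
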