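import Pool.Agent.Lib.MP_4a7072_co.FESimple
import Pool.Agent.Lib.MP_4a7072_co.FECov

/-!
The design for `5 a < 3 b < 6 a` gives a dissection.
-/

set_option autoImplicit false
set_option linter.unnecessarySeqFocus false
set_option linter.unusedSimpArgs false
set_option linter.unusedVariables false
set_option linter.unreachableTactic false
set_option linter.unusedTactic false

namespace Pool.Agent.Lib.MP_4a7072_co
namespace NP


namespace DE

variable (D : DE)

theorem eT : back 1 D.T ++ D.O = D.P ++ (D.G ++ back 1 D.G) := by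
  have := D.ord
  have h1 := D.C.ZBQ D.C.qpos.le le_rfl
  have h2 := D.C.ZQ (i := D.C.q - D.J) (by omega) (by omega)
  rw [add_sub_cancel_right] at h1
  rw [sub_sub_cancel] at h2
  rw [T, O, P, G, ← h1, ← h2, ← D.C.Z_append (by omega) (by omega),
    ← D.C.Z_append (by omega) (by omega),
    ← D.C.Z_per (i := D.C.β) (j := -D.J) (i' := D.C.β + D.C.q + D.C.q)
      (j' := D.C.q + (D.C.q - D.J)) (by ring) (by ring), ← D.C.Z_append (by omega) (by omega)]

theorem eT' (r : List Dir) :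
    back 2 D.T ++ (rot 1 D.O ++ r) = rot 1 D.P ++ (rot 1 D.G ++ (back 2 D.G ++ r)) := by
  have := congrArg (fun w => rot 1 w ++ r) D.eT
  simpa [rot_append, rot_back] using this

theorem dB : dsp D.B = (2 * D.h - D.d + 1, D.e) := by
  rw [D.arcB.dsp_eq]
  ext <;> simp only [Prod.fst_sub, Prod.snd_sub] <;> omega

theorem dU : dsp D.U = (2 * D.d - D.e - D.k, D.d - D.k) := by
  rw [D.arcU.dsp_eq]
  ext <;> simp only [Prod.fst_sub, Prod.snd_sub] <;> omega

theorem dM : dsp D.M = (3 * D.d + D.e - D.k - 1, D.k - 1) := by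
  rw [D.arcM.dsp_eq]
  ext <;> simp only [Prod.fst_sub, Prod.snd_sub] <;> omega

theorem dF : dsp D.F = (D.e - D.k, D.e + D.k - 1) := by
  rw [D.arcLs.dsp_eq]
  ext <;> simp only [Prod.fst_sub, Prod.snd_sub] <;> omega

theorem dR : dsp D.wR = (0, D.d + D.h) := by
  rw [D.arcRR.dsp_eq]
  ext <;> simp only [Prod.fst_sub, Prod.snd_sub] <;> omega

theorem dμ : dsp D.μ = (D.h - 2 * D.d + 1, D.e) := by
  rw [D.arcMU.dsp_eq]
  ext <;> simp only [Prod.fst_sub, Prod.snd_sub] <;> omega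

theorem dω : dsp D.ω = (D.d + 2 * D.h, D.d) := by
  rw [D.arcOM.dsp_eq]
  ext <;> simp only [Prod.fst_sub, Prod.snd_sub] <;> omega

theorem dA : dsp D.A = (D.e + D.k - 1, D.k - D.d - D.e) := by
  have := D.ord
  rw [A, D.C.Z_dsp (by omega), D.C.w0, D.wnJ]
  ext <;> simp only [Prod.fst_sub, Prod.snd_sub] <;> omega

theorem dP : dsp D.P = (D.d + D.e + 2 * D.h - D.k, D.e + D.k - D.d - 1) := by
  have := D.ord
  rw [P, D.C.Z_dsp (by omega), D.wJ, D.wβq]
  ext <;> simp only [Prod.fst_sub, Prod.snd_sub] <;> omega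

theorem dG : dsp D.G = (D.k - D.e, D.d - D.e - D.k + 1) := by
  have := D.ord
  rw [G, D.C.Z_dsp (by omega), D.wq, D.wJ]
  ext <;> simp only [Prod.fst_sub, Prod.snd_sub] <;> omega

theorem db : dsp (ea D.b) = (D.b, 0) := dsp_ea (by have := D.aux; omega)

theorem treeA : TreeOK (D.d + D.h, 0) (D.wA3 ++ D.wRA) D.KA := by
  have := D.aux
  have := D.ord
  have nA : D.A ≠ [] := D.C.Z_ne (by omega)
  have nB : D.B ≠ [] := D.C.Z_ne (by omega)
  have nU : D.U ≠ [] := D.C.Z_ne (by omega)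
  have nP : D.P ≠ [] := D.C.Z_ne (by omega)
  have nG : D.G ≠ [] := D.C.Z_ne (by omega)
  have nF : D.F ≠ [] := stv_ne (by omega)
  have nμ := D.nμ
  have nR : D.wR ≠ [] := List.append_ne_nil_of_right_ne_nil _ (ea_ne (by omega))
  have nb : ea D.b ≠ [] := ea_ne (by omega)
  refine (pinH (μ := rot 1 D.B) (o₁ := rot 1 D.M ++ back 1 D.F)
    (o₂ := back 3 (rot 1 D.μ ++ (rot 1 D.M ++ back 1 D.F)) ++ rot 1 D.μ)
    (R := D.wR) (q := D.qa) (O := (0, 0)) (Z := (D.d + D.h, 0)) (A := (D.d + D.h, 2 * D.d + 2 * D.h)) (B := (0, 2 * D.d + 2 * D.h)) (B' := (0, 2 * D.d + 2 * D.h))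
    (rot_ne nB) nR (List.append_ne_nil_of_right_ne_nil _ (back_ne nF)) (List.append_ne_nil_of_right_ne_nil _ (rot_ne nμ)) ?_ ?_ ?_ ?_
    (.inr (.inl ⟨_, rot_ne nμ, rfl, ?_, rfl⟩))).cast rfl ?_ fun W => ?_
  · simp [qa, wA0, π, eL, rot_append, back_append, back_back, rot_back, back_rot, rot_rot, rot_zero]
  · simp only [List.map_cons, List.map_nil, List.cons_append, List.nil_append, List.append_nil,
      dsp_append, dsp_rot, dsp_back, List.cons.injEq, Prod.ext_iff, rotP_zero, rotP_1, rotP_2,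
      rotP_3, Prod.fst_add, Prod.snd_add, Prod.fst_neg, Prod.snd_neg, dsp_nil, Prod.fst_zero,
      Prod.snd_zero, Prod.fst_sub, Prod.snd_sub, rho, Fin.reduceAdd, and_true, true_and, D.dA, D.dB, D.dU, D.dF, D.dR, D.dμ, D.db, D.dM]
    omega
  · simp only [List.map_cons, List.map_nil, List.cons_append, List.nil_append, List.append_nil,
      dsp_append, dsp_rot, dsp_back, List.cons.injEq, Prod.ext_iff, rotP_zero, rotP_1, rotP_2,
      rotP_3, Prod.fst_add, Prod.snd_add, Prod.fst_neg, Prod.snd_neg, dsp_nil, Prod.fst_zero,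
      Prod.snd_zero, Prod.fst_sub, Prod.snd_sub, rho, Fin.reduceAdd, and_true, true_and, D.dA, D.dB, D.dU, D.dF, D.dR, D.dμ, D.db, D.dM]
    omega
  · simp only [List.map_cons, List.map_nil, List.cons_append, List.nil_append, List.append_nil,
      dsp_append, dsp_rot, dsp_back, List.cons.injEq, Prod.ext_iff, rotP_zero, rotP_1, rotP_2,
      rotP_3, Prod.fst_add, Prod.snd_add, Prod.fst_neg, Prod.snd_neg, dsp_nil, Prod.fst_zero,
      Prod.snd_zero, Prod.fst_sub, Prod.snd_sub, rho, Fin.reduceAdd, and_true, true_and, D.dA, D.dB, D.dU, D.dF, D.dR, D.dμ, D.db, D.dM]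
    omega
  · simp only [List.map_cons, List.map_nil, List.cons_append, List.nil_append, List.append_nil,
      dsp_append, dsp_rot, dsp_back, List.cons.injEq, Prod.ext_iff, rotP_zero, rotP_1, rotP_2,
      rotP_3, Prod.fst_add, Prod.snd_add, Prod.fst_neg, Prod.snd_neg, dsp_nil, Prod.fst_zero,
      Prod.snd_zero, Prod.fst_sub, Prod.snd_sub, rho, Fin.reduceAdd, and_true, true_and, D.dA, D.dB, D.dU, D.dF, D.dR, D.dμ, D.db, D.dM]
    omega
  · simp [wA3, wRA]
  · rw [show _ :: _ = D.KA from ?_]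
    simp only [List.map_cons, List.map_nil, List.cons_append, List.nil_append, List.append_nil,
      dsp_append, dsp_rot, dsp_back, List.cons.injEq, Prod.ext_iff, rotP_zero, rotP_1, rotP_2,
      rotP_3, Prod.fst_add, Prod.snd_add, Prod.fst_neg, Prod.snd_neg, dsp_nil, Prod.fst_zero,
      Prod.snd_zero, Prod.fst_sub, Prod.snd_sub, rho, Fin.reduceAdd, and_true, true_and, KA]
    omega

theorem treeB : TreeOK (-D.d, 2 * D.d + 3 * D.h) (D.wB3 ++ D.wRB) D.KB := by
  have := D.aux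
  have := D.ord
  have nA : D.A ≠ [] := D.C.Z_ne (by omega)
  have nB : D.B ≠ [] := D.C.Z_ne (by omega)
  have nU : D.U ≠ [] := D.C.Z_ne (by omega)
  have nP : D.P ≠ [] := D.C.Z_ne (by omega)
  have nG : D.G ≠ [] := D.C.Z_ne (by omega)
  have nF : D.F ≠ [] := stv_ne (by omega)
  have nμ := D.nμ
  have nR : D.wR ≠ [] := List.append_ne_nil_of_right_ne_nil _ (ea_ne (by omega))
  have nb : ea D.b ≠ [] := ea_ne (by omega)
  refine (pinH (μ := D.ω ++ rot 2 D.F) (o₁ := back 2 D.P)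
    (o₂ := back 3 (back 2 D.G ++ (back 2 D.P)) ++ back 2 D.G)
    (R := ea D.b) (q := D.qb) (O := (-D.d, 3 * D.d + 5 * D.h)) (Z := (-D.d, 2 * D.d + 3 * D.h)) (A := (D.d + 4 * D.h, 2 * D.d + 3 * D.h)) (B := (D.d + 4 * D.h, 3 * D.d + 5 * D.h)) (B' := (D.d + 4 * D.h, 3 * D.d + 5 * D.h))
    (List.append_ne_nil_of_right_ne_nil _ (rot_ne nF)) nb (back_ne nP) (List.append_ne_nil_of_right_ne_nil _ (back_ne nG)) ?_ ?_ ?_ ?_
    (.inr (.inl ⟨_, back_ne nG, rfl, ?_, rfl⟩))).cast rfl ?_ fun W => ?_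
  · simp [qb, wMD, eL2, D.eT', rot_append, back_append, back_back, rot_back, back_rot, rot_rot, rot_zero]
  · simp only [List.map_cons, List.map_nil, List.cons_append, List.nil_append, List.append_nil,
      dsp_append, dsp_rot, dsp_back, List.cons.injEq, Prod.ext_iff, rotP_zero, rotP_1, rotP_2,
      rotP_3, Prod.fst_add, Prod.snd_add, Prod.fst_neg, Prod.snd_neg, dsp_nil, Prod.fst_zero,
      Prod.snd_zero, Prod.fst_sub, Prod.snd_sub, rho, Fin.reduceAdd, and_true, true_and, D.dA, D.dB, D.dU, D.dF, D.dR, D.dμ, D.db, D.dω, D.dP, D.dG]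
    omega
  · simp only [List.map_cons, List.map_nil, List.cons_append, List.nil_append, List.append_nil,
      dsp_append, dsp_rot, dsp_back, List.cons.injEq, Prod.ext_iff, rotP_zero, rotP_1, rotP_2,
      rotP_3, Prod.fst_add, Prod.snd_add, Prod.fst_neg, Prod.snd_neg, dsp_nil, Prod.fst_zero,
      Prod.snd_zero, Prod.fst_sub, Prod.snd_sub, rho, Fin.reduceAdd, and_true, true_and, D.dA, D.dB, D.dU, D.dF, D.dR, D.dμ, D.db, D.dω, D.dP, D.dG]
    omega
  · simp only [List.map_cons, List.map_nil, List.cons_append, List.nil_append, List.append_nil,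
      dsp_append, dsp_rot, dsp_back, List.cons.injEq, Prod.ext_iff, rotP_zero, rotP_1, rotP_2,
      rotP_3, Prod.fst_add, Prod.snd_add, Prod.fst_neg, Prod.snd_neg, dsp_nil, Prod.fst_zero,
      Prod.snd_zero, Prod.fst_sub, Prod.snd_sub, rho, Fin.reduceAdd, and_true, true_and, D.dA, D.dB, D.dU, D.dF, D.dR, D.dμ, D.db, D.dω, D.dP, D.dG]
    omega
  · simp only [List.map_cons, List.map_nil, List.cons_append, List.nil_append, List.append_nil,
      dsp_append, dsp_rot, dsp_back, List.cons.injEq, Prod.ext_iff, rotP_zero, rotP_1, rotP_2,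
      rotP_3, Prod.fst_add, Prod.snd_add, Prod.fst_neg, Prod.snd_neg, dsp_nil, Prod.fst_zero,
      Prod.snd_zero, Prod.fst_sub, Prod.snd_sub, rho, Fin.reduceAdd, and_true, true_and, D.dA, D.dB, D.dU, D.dF, D.dR, D.dμ, D.db, D.dω, D.dP, D.dG]
    omega
  · simp [wB3, wRB]
  · rw [show _ :: _ = D.KB from ?_]
    simp only [List.map_cons, List.map_nil, List.cons_append, List.nil_append, List.append_nil,
      dsp_append, dsp_rot, dsp_back, List.cons.injEq, Prod.ext_iff, rotP_zero, rotP_1, rotP_2,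
      rotP_3, Prod.fst_add, Prod.snd_add, Prod.fst_neg, Prod.snd_neg, dsp_nil, Prod.fst_zero,
      Prod.snd_zero, Prod.fst_sub, Prod.snd_sub, rho, Fin.reduceAdd, and_true, true_and, KB]
    omega

theorem treeC : TreeOK (-D.e, 3 * D.h + 1) (D.α ++ D.β) D.KC := by
  have := D.aux
  have := D.ord
  have nA : D.A ≠ [] := D.C.Z_ne (by omega)
  have nB : D.B ≠ [] := D.C.Z_ne (by omega)
  have nU : D.U ≠ [] := D.C.Z_ne (by omega)
  have nP : D.P ≠ [] := D.C.Z_ne (by omega)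
  have nG : D.G ≠ [] := D.C.Z_ne (by omega)
  have nF : D.F ≠ [] := stv_ne (by omega)
  have nμ := D.nμ
  have nR : D.wR ≠ [] := List.append_ne_nil_of_right_ne_nil _ (ea_ne (by omega))
  have nb : ea D.b ≠ [] := ea_ne (by omega)
  refine ((((((((((((((((((((((((((((((((TB.leaf nR).tu.cat ((((((((TB.leaf (back_ne (t := 3) nμ)).tu.zip (back 3 D.U)).zip (D.F)).zip (back 1 D.F)).zip (back 0 D.A)).zip (rot 1 D.A)).zip (rot 1 D.U)).zip (rot 1 D.B))).zip (back 3 D.B)).cat ((((((((TB.leaf (rot_ne (t := 3) nA)).tu.zip (rot 3 D.U)).zip (rot 3 D.μ)).zip (back 0 D.μ)).zip (back 0 D.U)).zip (rot 1 D.F)).zip (back 2 D.F)).zip (rot 1 D.U))).zip (rot 3 D.μ)).zip (back 2 D.μ)).zip (back 2 D.U)).zip (back 2 D.A)).zip (rot 1 D.A)).cat ((TB.leaf (back_ne (t := 0) nμ)).tu.zip (back 0 D.U))).zip (rot 2 D.F)).zip (back 3 D.F)).zip (back 2 D.A)).zip (rot 3 D.A)).zip (rot 3 D.U)).zip (rot 3 D.B)).zip (back 2 D.B)).cat ((((((((TB.leaf nA).tu.zip (D.U)).zip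 (D.μ)).zip (back 1 D.μ)).zip (back 1 D.U)).zip (rot 2 D.F)).zip (back 3 D.F)).zip (rot 2 D.U))).zip (rot 2 D.μ)).zip (back 1 D.μ)).zip (back 1 D.U)).zip (back 1 D.A)).zip (D.A)).cat ((TB.leaf (back_ne (t := 1) nμ)).tu.zip (back 1 D.U))).zip (rot 1 D.F)).zip (back 2 D.F)).zip (back 1 D.A)).zip (rot 2 D.A)).zip (rot 2 D.U)).zip (rot 2 D.B)).zip (back 1 D.B)).cat (((((((((TB.leaf (rot_ne (t := 1) nA)).tu.zip (rot 1 D.U)).zip (rot 1 D.μ)).zip (back 2 D.μ)).zip (back 2 D.U)).zip (rot 3 D.F)).cat (TB.leaf nb).tu).zip (back 0 D.F)).zip (rot 3 D.U))).ok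
    (u := []) rfl (by
      simp [α, β, wA0, wA2, π, wC0, wC1, wC2, wRA, wRB, qa, qb, ω, ν, κ, wN0, wMD, eL, eM, eK, eI, eO, rot_append, back_append, back_back, rot_back, back_rot, rot_rot, rot_zero, back_ea])
    fun W => ?_
  rw [show List.map _ _ = D.KC from ?_]
  simp only [List.map_cons, List.map_nil, List.cons_append, List.nil_append, List.append_nil,
      dsp_append, dsp_rot, dsp_back, List.cons.injEq, Prod.ext_iff, rotP_zero, rotP_1, rotP_2,
      rotP_3, Prod.fst_add, Prod.snd_add, Prod.fst_neg, Prod.snd_neg, dsp_nil, Prod.fst_zero,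
      Prod.snd_zero, Prod.fst_sub, Prod.snd_sub, rho, Fin.reduceAdd, and_true, true_and, D.dA, D.dB, D.dU, D.dF, D.dR, D.dμ, D.db, KC]
  omega

include D in
theorem twoPiece {a b c : ℕ} (ha : D.a = a) (hb : D.b = b) (h : a ^ 2 + b ^ 2 = c ^ 2) :
    TwoPieceDissection a b c := by
  have := D.aux
  have hZ : (a : ℤ) ^ 2 + (b : ℤ) ^ 2 = (c : ℤ) ^ 2 := by exact_mod_cast h
  let Λa : Lat := ⟨D.a, 0, a, by omega, le_rfl, by rw [ha]; ring⟩
  let Λb : Lat := ⟨D.b, 0, b, by omega, le_rfl, by rw [hb]; ring⟩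
  let Λc : Lat := ⟨D.b, D.a, c, by omega, by omega, by rw [ha, hb]; linear_combination hZ⟩
  have nA : Net Λa (0, 0) _ _ := net_env D.sA0.1 D.sA2 D.sA0.2 D.treeA D.memA D.covA
  have nB : Net Λb (-D.d, 3 * D.d + 5 * D.h) _ _ := net_env D.sB0.1 D.sB2 D.sB0.2 D.treeB D.memB D.covB
  have nC : Net Λc (0, 0) _ ([] ++ _) := net_env D.sC0.1 D.sC2 D.sC0.2 D.treeC D.memC D.covC
  rw [D.eA'] at nA
  rw [D.eB'] at nB
  refine twoPiece_of_net (Λa := Λa) (Λb := Λb) (Λc := Λc) rfl rfl h nA nB nC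
    (List.append_nil _) ?_ ?_
  · rw [D.covC1.1, D.arcA0.1, D.arcPI.1]
  · rw [D.arcA0.1, D.arcPI.1]
    rfl

end DE

theorem twoPiece_E (a b c : ℕ) (h1 : 5 * a < 3 * b) (h2 : b < 2 * a)
    (h : a ^ 2 + b ^ 2 = c ^ 2) (hc : Nat.Coprime a b) (ho : a % 2 = 1) (h4 : b % 4 = 0) :
    TwoPieceDissection a b c := by
  obtain ⟨D, ha, hb⟩ := exists_DE a b (by omega) (by omega) (by omega) (by omega)
    (Nat.isCoprime_iff_coprime.2 hc)
  exact D.twoPiece ha hb h

end NP
end Pool.Agent.Lib.MP_4a7072_co
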