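import Pool.Agent.Lib.MP_4a7072_co.FJSimple
import Pool.Agent.Lib.MP_4a7072_co.FJCov

/-!
The design for `4 a < 3 b < 5 a` gives a dissection.
-/

set_option autoImplicit false
set_option linter.unnecessarySeqFocus false
set_option linter.unusedSimpArgs false
set_option linter.unusedVariables false
set_option linter.unreachableTactic false
set_option linter.unusedTactic false

namespace Pool.Agent.Lib.MP_4a7072_co
namespace NP


namespace DJ

variable (D : DJ)

theorem eH : D.H = D.I ++ D.G := by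
  have := D.ord
  exact D.C.Z_append (by omega) (by omega)

theorem eS : D.S = D.A ++ D.H := by
  have := D.ord
  exact D.C.Z_append (by omega) (by omega)

theorem eY : D.Y = D.N ++ D.T := by
  have := D.ord
  exact D.C.Z_append (by omega) (by omega)

theorem eM : D.M = D.Y ++ D.U := by
  have := D.ord
  exact D.C.Z_append (by omega) (by omega)

theorem eL2 : D.L = D.G ++ D.M := by
  have := D.ord
  exact D.C.Z_append (by omega) (by omega)

theorem eA2 : D.A = back 1 D.I := by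
  rw [I, D.C.ZA D.C.qpos.le le_rfl, back13, A]

theorem eU : D.U = back 1 D.T := by
  have h := D.C.ZBQ D.C.qpos.le le_rfl
  rw [D.C.Z_per (i := D.C.β - D.C.q) (j := D.C.β) (i' := D.C.β + D.C.q)
      (j' := D.C.β + D.C.q + D.C.q) (by ring) (by ring),
    D.C.Z_per (i := D.C.β - 2 * D.C.q) (j := D.C.β - D.C.q) (i' := D.C.β + D.C.q - D.C.q)
      (j' := D.C.β + D.C.q) (by ring) (by ring)] at h
  exact h

theorem eh : ea D.h = ea 1 ++ ea (D.h - 1) := by
  have := D.aux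
  rw [← ea_add (by omega) (by omega), add_sub_cancel]

theorem ec0 : ea (D.h - 1) ++ ea 1 = ea 1 ++ ea (D.h - 1) := by
  have := D.aux
  rw [← ea_add (by omega) (by omega), ← ea_add (by omega) (by omega), add_comm]

theorem ec1 (r : List Dir) : ea (D.h - 1) ++ (ea 1 ++ r) = ea 1 ++ (ea (D.h - 1) ++ r) := by
  rw [← List.append_assoc, D.ec0, List.append_assoc]

theorem ec2 (t : Dir) :
    rot t (ea (D.h - 1)) ++ rot t (ea 1) = rot t (ea 1) ++ rot t (ea (D.h - 1)) := by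
  rw [← rot_append, D.ec0, rot_append]

theorem ec3 (t : Dir) (r : List Dir) :
    rot t (ea (D.h - 1)) ++ (rot t (ea 1) ++ r) = rot t (ea 1) ++ (rot t (ea (D.h - 1)) ++ r) := by
  rw [← List.append_assoc, D.ec2, List.append_assoc]

theorem dA : dsp D.A = (D.d, 0) := by
  rw [D.arcA.dsp_eq]
  ext <;> simp only [Prod.fst_sub, Prod.snd_sub] <;> omega

theorem dG : dsp D.G = (D.p, 2 * D.h - D.d - D.p - 1) := by
  rw [D.arcG.dsp_eq]
  ext <;> simp only [Prod.fst_sub, Prod.snd_sub] <;> omega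

theorem dN : dsp D.N = (2 * D.h - D.p, D.p + 1) := by
  rw [D.arcN.dsp_eq]
  ext <;> simp only [Prod.fst_sub, Prod.snd_sub] <;> omega

theorem dF : dsp D.F = (D.p - D.h, D.h - D.p - 1) := by
  rw [D.arcLs.dsp_eq]
  ext <;> simp only [Prod.fst_sub, Prod.snd_sub] <;> omega

theorem dR : dsp D.wR = (-D.d + 1, D.d) := by
  rw [D.arcRR.dsp_eq]
  ext <;> simp only [Prod.fst_sub, Prod.snd_sub] <;> omega

theorem dM : dsp D.M = (D.d + 2 * D.h - D.p, D.d + D.p + 1) := by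
  rw [D.arcM.dsp_eq]
  ext <;> simp only [Prod.fst_sub, Prod.snd_sub] <;> omega

theorem dS : dsp D.S = (D.d + D.p, 2 * D.h - D.p - 1) := by
  rw [D.arcS.dsp_eq]
  ext <;> simp only [Prod.fst_sub, Prod.snd_sub] <;> omega

theorem dY : dsp D.Y = (2 * D.h - D.p, D.d + D.p + 1) := by
  rw [D.arcY.dsp_eq]
  ext <;> simp only [Prod.fst_sub, Prod.snd_sub] <;> omega

theorem dI : dsp D.I = (0, D.d) := by
  have := D.ord
  rw [I, D.C.Z_dsp (by omega), D.wq, D.C.w0]
  ext <;> simp only [Prod.fst_sub, Prod.snd_sub] <;> omega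

theorem dT : dsp D.T = (0, D.d) := by
  have := D.ord
  rw [T, D.C.Z_dsp (by omega), D.wβ1, D.wβ2]
  ext <;> simp only [Prod.fst_sub, Prod.snd_sub] <;> omega

theorem dU : dsp D.U = (D.d, 0) := by
  have := D.ord
  rw [U, D.C.Z_dsp (by omega), D.wβ, D.wβ1]
  ext <;> simp only [Prod.fst_sub, Prod.snd_sub] <;> omega

theorem dx (_ : DJ) : dsp (ea 1) = (1, 0) := dsp_ea (by omega)

theorem dy : dsp (ea (D.h - 1)) = (D.h - 1, 0) := dsp_ea (by have := D.aux; omega)

theorem dh : dsp (ea D.h) = (D.h, 0) := dsp_ea (by have := D.aux; omega)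

theorem db : dsp (ea D.b) = (D.b, 0) := dsp_ea (by have := D.aux; omega)

theorem treeA : TreeOK (D.d, D.d - 1) (D.wA3 ++ D.wRA) D.KA := by
  have := D.aux
  have := D.ord
  have nI : D.I ≠ [] := D.C.Z_ne (by omega)
  have nM : D.M ≠ [] := D.C.Z_ne (by omega)
  have nF : D.F ≠ [] := stw_ne (by omega)
  have nR : D.wR ≠ [] := List.append_ne_nil_of_left_ne_nil (rot_ne (ea_ne (by omega))) _
  have nx : ea 1 ≠ [] := ea_ne (by omega)
  have ny : ea (D.h - 1) ≠ [] := ea_ne (by omega)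
  have nh : ea D.h ≠ [] := ea_ne (by omega)
  have nb : ea D.b ≠ [] := ea_ne (by omega)
  refine (pinX (μ := D.F) (o := back 0 D.M) (X₁ := back 0 D.G ++ rot 1 (ea (D.h - 1)))
    (X₂ := rot 1 (ea 1) ++ ea D.h ++ back 3 (ea D.h))
    (R := D.wR) (q := D.qa) (O := (0, 0)) (P := (D.d, D.d - 1)) (A := (D.d + D.h, 2 * D.d + 2 * D.h)) (B := (D.d + D.h, D.d + D.h)) (Z := (0, D.d + D.h))
    nF nR (back_ne nM) (List.append_ne_nil_of_right_ne_nil _ (back_ne nh)) ?_ ?_ ?_ ?_ ?_ ?_).cast rfl ?_ fun W => ?_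
  · simp [qa, wA0, wA4, eL2, eh, D.ec0, D.ec1, D.ec2, D.ec3, rot_append, back_append, back_back, rot_back, back_rot, rot_rot, rot_zero, back_ea]
  · simp only [List.map_cons, List.map_nil, List.cons_append, List.nil_append, List.append_nil,
      dsp_append, dsp_rot, dsp_back, List.cons.injEq, Prod.ext_iff, rotP_zero, rotP_1, rotP_2,
      rotP_3, Prod.fst_add, Prod.snd_add, Prod.fst_neg, Prod.snd_neg, dsp_nil, Prod.fst_zero,
      Prod.snd_zero, Prod.fst_sub, Prod.snd_sub, rho, Fin.reduceAdd, and_true, true_and, D.dA, D.dI, D.dG, D.dN, D.dT, D.dU, D.dF, D.dR, D.dx, D.dy, D.dh, D.db, D.dM]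
    omega
  · simp only [List.map_cons, List.map_nil, List.cons_append, List.nil_append, List.append_nil,
      dsp_append, dsp_rot, dsp_back, List.cons.injEq, Prod.ext_iff, rotP_zero, rotP_1, rotP_2,
      rotP_3, Prod.fst_add, Prod.snd_add, Prod.fst_neg, Prod.snd_neg, dsp_nil, Prod.fst_zero,
      Prod.snd_zero, Prod.fst_sub, Prod.snd_sub, rho, Fin.reduceAdd, and_true, true_and, D.dA, D.dI, D.dG, D.dN, D.dT, D.dU, D.dF, D.dR, D.dx, D.dy, D.dh, D.db, D.dM]
    omega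
  · simp only [List.map_cons, List.map_nil, List.cons_append, List.nil_append, List.append_nil,
      dsp_append, dsp_rot, dsp_back, List.cons.injEq, Prod.ext_iff, rotP_zero, rotP_1, rotP_2,
      rotP_3, Prod.fst_add, Prod.snd_add, Prod.fst_neg, Prod.snd_neg, dsp_nil, Prod.fst_zero,
      Prod.snd_zero, Prod.fst_sub, Prod.snd_sub, rho, Fin.reduceAdd, and_true, true_and, D.dA, D.dI, D.dG, D.dN, D.dT, D.dU, D.dF, D.dR, D.dx, D.dy, D.dh, D.db, D.dM]
    omega
  · simp only [List.map_cons, List.map_nil, List.cons_append, List.nil_append, List.append_nil,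
      dsp_append, dsp_rot, dsp_back, List.cons.injEq, Prod.ext_iff, rotP_zero, rotP_1, rotP_2,
      rotP_3, Prod.fst_add, Prod.snd_add, Prod.fst_neg, Prod.snd_neg, dsp_nil, Prod.fst_zero,
      Prod.snd_zero, Prod.fst_sub, Prod.snd_sub, rho, Fin.reduceAdd, and_true, true_and, D.dA, D.dI, D.dG, D.dN, D.dT, D.dU, D.dF, D.dR, D.dx, D.dy, D.dh, D.db, D.dM]
    omega
  · simp only [List.map_cons, List.map_nil, List.cons_append, List.nil_append, List.append_nil,
      dsp_append, dsp_rot, dsp_back, List.cons.injEq, Prod.ext_iff, rotP_zero, rotP_1, rotP_2,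
      rotP_3, Prod.fst_add, Prod.snd_add, Prod.fst_neg, Prod.snd_neg, dsp_nil, Prod.fst_zero,
      Prod.snd_zero, Prod.fst_sub, Prod.snd_sub, rho, Fin.reduceAdd, and_true, true_and, D.dA, D.dI, D.dG, D.dN, D.dT, D.dU, D.dF, D.dR, D.dx, D.dy, D.dh, D.db, D.dM]
    omega
  · simp [wA3, wRA]
  · rw [show _ :: _ = D.KA from ?_]
    simp only [List.map_cons, List.map_nil, List.cons_append, List.nil_append, List.append_nil,
      dsp_append, dsp_rot, dsp_back, List.cons.injEq, Prod.ext_iff, rotP_zero, rotP_1, rotP_2,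
      rotP_3, Prod.fst_add, Prod.snd_add, Prod.fst_neg, Prod.snd_neg, dsp_nil, Prod.fst_zero,
      Prod.snd_zero, Prod.fst_sub, Prod.snd_sub, rho, Fin.reduceAdd, and_true, true_and, KA]
    omega

theorem treeB : TreeOK (3 * D.d + 6 * D.h, 4 * D.d + 5 * D.h) (D.wB3 ++ D.wRB) D.KB := by
  have := D.aux
  have := D.ord
  have nI : D.I ≠ [] := D.C.Z_ne (by omega)
  have nM : D.M ≠ [] := D.C.Z_ne (by omega)
  have nF : D.F ≠ [] := stw_ne (by omega)
  have nR : D.wR ≠ [] := List.append_ne_nil_of_left_ne_nil (rot_ne (ea_ne (by omega))) _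
  have nx : ea 1 ≠ [] := ea_ne (by omega)
  have ny : ea (D.h - 1) ≠ [] := ea_ne (by omega)
  have nh : ea D.h ≠ [] := ea_ne (by omega)
  have nb : ea D.b ≠ [] := ea_ne (by omega)
  refine (pinH (μ := rot 1 D.I) (o₁ := back 0 (ea D.h) ++ rot 1 D.wS)
    (o₂ := back 3 (back 0 D.wY ++ rot 1 D.F ++ back 1 D.G ++ (back 0 (ea D.h) ++ rot 1 D.wS)) ++ (back 0 D.wY ++ rot 1 D.F ++ back 1 D.G))
    (R := rot 2 (ea D.b)) (q := D.qb) (O := (3 * D.d + 6 * D.h, 3 * D.d + 3 * D.h)) (Z := (3 * D.d + 6 * D.h, 4 * D.d + 5 * D.h)) (A := (2 * D.d + 4 * D.h, 5 * D.d + 7 * D.h)) (B := (2 * D.d + 4 * D.h, 4 * D.d + 5 * D.h)) (B' := (2 * D.d + 4 * D.h, 4 * D.d + 5 * D.h))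
    (rot_ne nI) (rot_ne nb) (List.append_ne_nil_of_left_ne_nil (back_ne nh) _) (by simp [rot, nF]) ?_ ?_ ?_ ?_
    (.inr (.inl ⟨_, by simp [rot, nF], rfl, ?_, rfl⟩))).cast rfl ?_ fun W => ?_
  · simp [qb, wB0, wB2, wS, eH, eA2, rot_append, back_append, back_back, rot_back, back_rot, rot_rot, rot_zero, back_ea]
  · simp only [List.map_cons, List.map_nil, List.cons_append, List.nil_append, List.append_nil,
      dsp_append, dsp_rot, dsp_back, List.cons.injEq, Prod.ext_iff, rotP_zero, rotP_1, rotP_2,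
      rotP_3, Prod.fst_add, Prod.snd_add, Prod.fst_neg, Prod.snd_neg, dsp_nil, Prod.fst_zero,
      Prod.snd_zero, Prod.fst_sub, Prod.snd_sub, rho, Fin.reduceAdd, and_true, true_and, D.dA, D.dI, D.dG, D.dN, D.dT, D.dU, D.dF, D.dR, D.dx, D.dy, D.dh, D.db, D.dS, D.dY, wS, wY]
    omega
  · simp only [List.map_cons, List.map_nil, List.cons_append, List.nil_append, List.append_nil,
      dsp_append, dsp_rot, dsp_back, List.cons.injEq, Prod.ext_iff, rotP_zero, rotP_1, rotP_2,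
      rotP_3, Prod.fst_add, Prod.snd_add, Prod.fst_neg, Prod.snd_neg, dsp_nil, Prod.fst_zero,
      Prod.snd_zero, Prod.fst_sub, Prod.snd_sub, rho, Fin.reduceAdd, and_true, true_and, D.dA, D.dI, D.dG, D.dN, D.dT, D.dU, D.dF, D.dR, D.dx, D.dy, D.dh, D.db, D.dS, D.dY, wS, wY]
    omega
  · simp only [List.map_cons, List.map_nil, List.cons_append, List.nil_append, List.append_nil,
      dsp_append, dsp_rot, dsp_back, List.cons.injEq, Prod.ext_iff, rotP_zero, rotP_1, rotP_2,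
      rotP_3, Prod.fst_add, Prod.snd_add, Prod.fst_neg, Prod.snd_neg, dsp_nil, Prod.fst_zero,
      Prod.snd_zero, Prod.fst_sub, Prod.snd_sub, rho, Fin.reduceAdd, and_true, true_and, D.dA, D.dI, D.dG, D.dN, D.dT, D.dU, D.dF, D.dR, D.dx, D.dy, D.dh, D.db, D.dS, D.dY, wS, wY]
    omega
  · simp only [List.map_cons, List.map_nil, List.cons_append, List.nil_append, List.append_nil,
      dsp_append, dsp_rot, dsp_back, List.cons.injEq, Prod.ext_iff, rotP_zero, rotP_1, rotP_2,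
      rotP_3, Prod.fst_add, Prod.snd_add, Prod.fst_neg, Prod.snd_neg, dsp_nil, Prod.fst_zero,
      Prod.snd_zero, Prod.fst_sub, Prod.snd_sub, rho, Fin.reduceAdd, and_true, true_and, D.dA, D.dI, D.dG, D.dN, D.dT, D.dU, D.dF, D.dR, D.dx, D.dy, D.dh, D.db, D.dS, D.dY, wS, wY]
    omega
  · simp [wB3, wRB, back_rot]
  · rw [show _ :: _ = D.KB from ?_]
    simp only [List.map_cons, List.map_nil, List.cons_append, List.nil_append, List.append_nil,
      dsp_append, dsp_rot, dsp_back, List.cons.injEq, Prod.ext_iff, rotP_zero, rotP_1, rotP_2,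
      rotP_3, Prod.fst_add, Prod.snd_add, Prod.fst_neg, Prod.snd_neg, dsp_nil, Prod.fst_zero,
      Prod.snd_zero, Prod.fst_sub, Prod.snd_sub, rho, Fin.reduceAdd, and_true, true_and, KB]
    omega

theorem treeC : TreeOK (D.d + D.h + D.p + 1, 2 * D.d + D.p) (D.α ++ D.β) D.KC := by
  have := D.aux
  have := D.ord
  have nI : D.I ≠ [] := D.C.Z_ne (by omega)
  have nM : D.M ≠ [] := D.C.Z_ne (by omega)
  have nF : D.F ≠ [] := stw_ne (by omega)
  have nR : D.wR ≠ [] := List.append_ne_nil_of_left_ne_nil (rot_ne (ea_ne (by omega))) _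
  have nx : ea 1 ≠ [] := ea_ne (by omega)
  have ny : ea (D.h - 1) ≠ [] := ea_ne (by omega)
  have nh : ea D.h ≠ [] := ea_ne (by omega)
  have nb : ea D.b ≠ [] := ea_ne (by omega)
  refine (((((((((((((((((TB.leaf (rot_ne (t := 1) ny)).tu.zip (rot 1 (ea 1))).zip (back 0 (ea 1))).zip (back 0 (ea (D.h - 1)))).cat ((((((((((((((((((((TB.leaf (rot_ne (t := 2) ny)).tu.zip (rot 2 (ea 1))).zip (back 1 (ea 1))).zip (back 1 (ea (D.h - 1)))).cat ((((((((((((((TB.leaf nR).tu.cat (((((((TB.leaf ny).tu.zip ((ea 1))).zip (back 3 (ea 1))).zip (back 3 (ea (D.h - 1)))).zip ((ea (D.h - 1)))).zip ((ea 1))).zip (rot 1 (ea 1)))).zip ((ea (D.h - 1)))).zip (back 3 D.G)).zip (rot 3 D.F)).zip (back 2 D.F)).zip (back 2 D.N)).zip (back 2 D.T)).zip (back 2 D.U)).zip (rot 3 D.N)).cat (((((((TB.leaf (back_ne (t := 2) nx)).tu.zip (back 2 (ea (D.h - 1)))).zip (back 2 D.A)).zip (back 2 D.I)).zip (back 2 D.G)).zip (rot 2 D.F)).zip (back 1 D.F))).zip (rot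 3 D.G)).zip (rot 3 D.I)).zip (rot 3 D.A))).zip (rot 2 (ea (D.h - 1)))).zip (rot 2 (ea 1))).zip (rot 3 (ea 1))).zip (rot 3 (ea (D.h - 1)))).zip (back 2 D.G)).zip (rot 2 D.F)).zip (back 1 D.F)).zip (back 1 D.N)).zip (back 1 D.T)).zip (back 1 D.U)).zip (rot 2 D.N)).cat ((((((TB.leaf (rot_ne (t := 2) nb)).tu.cat (((TB.leaf (back_ne (t := 0) nx)).tu.zip (back 0 (ea (D.h - 1)))).zip (back 0 D.A))).zip (back 3 D.I)).zip (back 3 D.G)).zip (rot 3 D.F)).zip (back 2 D.F))).zip (rot 2 D.G)).zip (rot 2 D.I)).zip (rot 2 D.A))).zip (rot 1 (ea (D.h - 1)))).zip (rot 1 (ea 1))).zip (rot 2 (ea 1))).zip (rot 2 (ea (D.h - 1)))).zip (back 1 D.G)).zip (rot 1 D.F)).zip (back 0 D.F)).zip (back 0 D.N)).zip (back 0 D.T)).zip (back 0 D.U)).zip (rot 1 D.N)).cat (((((((TB.leaf (back_ne (t := 1) nx)).tu.zip (back 1 (ea (D.h - 1)))).zip (back 1 D.A)).zip (back 1 D.I)).zip (back 1 D.G)).zip (rot 1 D.F)).zip (back 0 D.F))).ok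
    (u := []) rfl (by
      simp [α, β, wA0, wA2, wA4, wC1, wC2, wRA, wRB, qa, qb, wB0, wB2, wY, wS, eL, eS, eH, eM, eY, eU, eh, D.ec0, D.ec1, D.ec2, D.ec3, rot_append, back_append, back_back, rot_back, back_rot, rot_rot, rot_zero, back_ea])
    fun W => ?_
  rw [show List.map _ _ = D.KC from ?_]
  simp only [List.map_cons, List.map_nil, List.cons_append, List.nil_append, List.append_nil,
      dsp_append, dsp_rot, dsp_back, List.cons.injEq, Prod.ext_iff, rotP_zero, rotP_1, rotP_2,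
      rotP_3, Prod.fst_add, Prod.snd_add, Prod.fst_neg, Prod.snd_neg, dsp_nil, Prod.fst_zero,
      Prod.snd_zero, Prod.fst_sub, Prod.snd_sub, rho, Fin.reduceAdd, and_true, true_and, D.dA, D.dI, D.dG, D.dN, D.dT, D.dU, D.dF, D.dR, D.dx, D.dy, D.dh, D.db, KC]
  omega

include D in
theorem twoPiece {a b c : ℕ} (ha : D.a = a) (hb : D.b = b) (h : a ^ 2 + b ^ 2 = c ^ 2) :
    TwoPieceDissection a b c := by
  have := D.aux
  have hZ : (a : ℤ) ^ 2 + (b : ℤ) ^ 2 = (c : ℤ) ^ 2 := by exact_mod_cast h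
  let Λa : Lat := ⟨D.a, 0, a, by omega, le_rfl, by rw [ha]; ring⟩
  let Λb : Lat := ⟨D.b, 0, b, by omega, le_rfl, by rw [hb]; ring⟩
  let Λc : Lat := ⟨D.b, D.a, c, by omega, by omega, by rw [ha, hb]; linear_combination hZ⟩
  have nA : Net Λa (0, 0) _ _ := net_env D.sA0.1 D.sA2 D.sA0.2 D.treeA D.memA D.covA
  have nB : Net Λb (3 * D.d + 6 * D.h, 3 * D.d + 3 * D.h) _ _ := net_env D.sB0.1 D.sB2 D.sB0.2 D.treeB D.memB D.covB
  have nC : Net Λc (0, 0) _ ([] ++ _) := net_env D.sC0.1 D.sC2 D.sC0.2 D.treeC D.memC D.covC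
  rw [D.eA'] at nA
  rw [D.eB'] at nB
  refine twoPiece_of_net (Λa := Λa) (Λb := Λb) (Λc := Λc) rfl rfl h nA nB nC
    (List.append_nil _) ?_ ?_
  · rw [D.covC1.1, D.arcA0.1, D.arcπ.1]
  · rw [D.arcA0.1, D.arcπ.1]
    rfl

end DJ

theorem twoPiece_J (a b c : ℕ) (h1 : 4 * a < 3 * b) (h2 : 3 * b < 5 * a)
    (h : a ^ 2 + b ^ 2 = c ^ 2) (hc : Nat.Coprime a b) (ho : a % 2 = 1) (h4 : b % 4 = 0) :
    TwoPieceDissection a b c := by
  obtain ⟨D, ha, hb⟩ := exists_DJ a b (by omega) (by omega) (by omega) (by omega)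
    (Nat.isCoprime_iff_coprime.2 hc)
  exact D.twoPiece ha hb h

end NP
end Pool.Agent.Lib.MP_4a7072_co
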