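import Pool.Agent.Lib.MP_4a7072_co.FIMain
import Pool.Agent.Lib.MP_4a7072_co.FJMain
import Pool.Agent.Lib.MP_4a7072_co.FEMain

/-!
The dissection for an odd shorter leg `a` and `a < b < 2 a`.
-/

set_option autoImplicit false

namespace Pool.Agent.Lib.MP_4a7072_co
namespace NP

theorem twoPiece_IE (a b c : ℕ) (h1 : a < b) (h2 : b < 2 * a) (h3 : 3 * b ≠ 4 * a)
    (h : a ^ 2 + b ^ 2 = c ^ 2) (hc : Nat.Coprime a b) (ho : a % 2 = 1) (h4 : b % 4 = 0) :
    TwoPieceDissection a b c := by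
  rcases lt_or_gt_of_ne h3 with g | g
  · exact twoPiece_I a b c h1 g h hc ho h4
  rcases lt_or_gt_of_ne (show 3 * b ≠ 5 * a by omega) with g' | g'
  · exact twoPiece_J a b c g g' h hc ho h4
  · exact twoPiece_E a b c g' h2 h hc ho h4

end NP
end Pool.Agent.Lib.MP_4a7072_co
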