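import Pool.Agent.Lib.MP_4a7072_co.DD
import Pool.Agent.Lib.MP_4a7072_co.DWords

/-!
Periodic curves of unit steps with four centres of rotation: words, arcs, doubling.
-/

set_option autoImplicit false
set_option linter.unnecessarySeqFocus false

namespace Pool.Agent.Lib.MP_4a7072_co
namespace NP

/-- A simple periodic curve of unit steps that is invariant, locally, under quarter turns about
the points with the indices `0` and `β`. -/
structure UC (τ : Pt) where
  w : ℤ → Pt
  d : ℤ → Dir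
  q : ℤ
  β : ℤ
  qpos : 0 < q
  step : ∀ l, w (l + 1) = w l + dv (d l)
  w0 : w 0 = (0, 0)
  per : ∀ l, w (l + 2 * q) = w l + τ
  inj : ∀ l l', (w l).1 = (w l').1 → (w l).2 = (w l').2 → l = l'
  symA : ∀ i, 0 ≤ i → i ≤ q → (w (-i)).1 = -(w i).2 ∧ (w (-i)).2 = (w i).1
  symB : ∀ i, 0 ≤ i → i ≤ q → (w (β - i)).1 = (w β).1 + (w β).2 - (w (β + i)).2 ∧
    (w (β - i)).2 = (w β).2 - (w β).1 + (w (β + i)).1

theorem dv_inj' : ∀ d d' : Dir, dv d = dv d' → d = d' := by decide

theorem dv_turn : ∀ d d' : Dir, (dv d).1 = -(dv d').2 → (dv d).2 = (dv d').1 → d = d' + 1 := by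
  decide

namespace UC

variable {τ : Pt} (C : UC τ)

/-- The steps of the curve. -/
def E (l : ℤ) : List Dir := [C.d l]

/-- The word of the curve between two indices. -/
def Z (i j : ℤ) : List Dir := seg C.E i j

/-- The point `(X, Y)` lies on the curve between the indices `i` and `j`. -/
def On (i j X Y : ℤ) : Prop := ∃ l, i ≤ l ∧ l ≤ j ∧ (C.w l).1 = X ∧ (C.w l).2 = Y

theorem step' (l : ℤ) : (C.w (l + 1)).1 = (C.w l).1 + (dv (C.d l)).1 ∧
    (C.w (l + 1)).2 = (C.w l).2 + (dv (C.d l)).2 := by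
  rw [C.step]
  exact ⟨rfl, rfl⟩

theorem stc (l : ℤ) : ((C.w (l + 1)).2 = (C.w l).2 ∧
      ((C.w (l + 1)).1 = (C.w l).1 + 1 ∨ (C.w (l + 1)).1 = (C.w l).1 - 1)) ∨
    ((C.w (l + 1)).1 = (C.w l).1 ∧
      ((C.w (l + 1)).2 = (C.w l).2 + 1 ∨ (C.w (l + 1)).2 = (C.w l).2 - 1)) := by
  have h := C.step' l
  rcases dir_cases (C.d l) with g | g | g | g <;> rw [g] at h <;> simp [dv] at h <;> omega

theorem per' (l : ℤ) : (C.w (l + 2 * C.q)).1 = (C.w l).1 + τ.1 ∧
    (C.w (l + 2 * C.q)).2 = (C.w l).2 + τ.2 := by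
  rw [C.per]
  exact ⟨rfl, rfl⟩

theorem w0' : (C.w 0).1 = 0 ∧ (C.w 0).2 = 0 := by
  rw [C.w0]
  exact ⟨rfl, rfl⟩

theorem d_per (l : ℤ) : C.d (l + 2 * C.q) = C.d l := by
  have h := C.step (l + 2 * C.q)
  rw [add_right_comm, C.per, C.per, C.step, add_right_comm, add_right_inj] at h
  exact (dv_inj' _ _ h).symm

theorem sym : Sym 1 C.E C.w C.q C.β τ where
  qpos := C.qpos
  ne := fun l => by simp [E]
  per := fun l => by rw [E, E, C.d_per]
  symA := fun t a b => by
    have h1 := C.symA t a b.le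
    have h2 := C.symA (t + 1) (by omega) b
    have h3 := C.step' t
    have h4 := C.step' (-1 - t)
    rw [show -1 - t + 1 = -t by ring] at h4
    rw [show -(t + 1) = -1 - t by ring] at h2
    have := dv_turn (C.d t) (C.d (-1 - t)) (by omega) (by omega)
    rw [E, E, this]
    exact congrArg (· :: []) ((by decide : ∀ d : Dir, d + 1 = d + 2 + 3) _)
  symB := fun t a b => by
    have h1 := C.symB t a b.le
    have h2 := C.symB (t + 1) (by omega) b
    have h3 := C.step' (C.β + t)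
    have h4 := C.step' (C.β - 1 - t)
    rw [show C.β - 1 - t + 1 = C.β - t by ring] at h4
    rw [show C.β - (t + 1) = C.β - 1 - t by ring, ← add_assoc] at h2
    have := dv_turn (C.d (C.β + t)) (C.d (C.β - 1 - t)) (by omega) (by omega)
    rw [E, E, this]
    exact congrArg (· :: []) ((by decide : ∀ d : Dir, d + 1 = d + 2 + 3) _)
  pos := fun l => by rw [one_smul, one_smul, C.step]; rfl
  wper := C.per

theorem arc {i j : ℤ} (h : i ≤ j) : CArc (C.w i) (C.Z i j) (C.w j) (C.On i j) := by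
  unfold Z
  induction j, h using Int.leInduction with
  | base =>
    rw [seg_self]
    exact Arc.nil ⟨i, le_rfl, le_rfl, rfl, rfl⟩
  | succ j hj ih =>
    rw [seg_succ _ hj]
    have s := C.step j
    have s' := C.step' j
    refine (ih.append (CArc.one _ _) ?_).mv rfl s.symm ?_
    · rintro X Y ⟨t, a, b, c, e⟩ (g | g)
      · exact g
      · have := C.inj t (j + 1) (by omega) (by omega)
        omega
    · rintro X Y (⟨t, a, b, c⟩ | g | g)
      · exact ⟨t, a, by omega, c⟩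
      · exact ⟨j, hj, by omega, g.1.symm, g.2.symm⟩
      · exact ⟨j + 1, by omega, le_rfl, by omega, by omega⟩

theorem Z_self (i : ℤ) : C.Z i i = [] := seg_self _ _

theorem Z_append {i j l : ℤ} (h : i ≤ j) (h' : j ≤ l) : C.Z i l = C.Z i j ++ C.Z j l :=
  seg_append _ h h'

theorem Z_ne {i j : ℤ} (h : i < j) : C.Z i j ≠ [] := seg_ne C.sym.ne h

theorem Z_per {i j i' j' : ℤ} (hi : i' = i + 2 * C.q) (hj : j' = j + 2 * C.q) :
    C.Z i' j' = C.Z i j := seg_per C.sym.per i j i' j' hi hj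

theorem Z_dsp {i j : ℤ} (h : i ≤ j) : dsp (C.Z i j) = C.w j - C.w i := C.sym.dsp_seg h

/-- The turn about the point with index `0`. -/
theorem ZA {i : ℤ} (h : 0 ≤ i) (h' : i ≤ C.q) : C.Z 0 i = back 3 (C.Z (-i) 0) := by
  have s := seg_sym (E := C.E) (c := 0) (s := 3) h fun t h0 h1 => by
    rw [zero_add, C.sym.symA t h0 (by omega)]
    congr 2
  rwa [zero_add, zero_sub] at s

/-- The turn about the point with index `β`. -/
theorem ZB {i : ℤ} (h : 0 ≤ i) (h' : i ≤ C.q) :
    C.Z C.β (C.β + i) = back 3 (C.Z (C.β - i) C.β) :=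
  seg_sym h fun t h0 h1 => C.sym.symB t h0 (by omega)

/-- The turn about the point with index `q`. -/
theorem ZQ {i : ℤ} (h : 0 ≤ i) (h' : i ≤ C.q) :
    C.Z C.q (C.q + i) = back 1 (C.Z (C.q - i) C.q) :=
  seg_sym h fun t h0 h1 => by
    have s := C.sym.symA (C.q - 1 - t) (by omega) (by omega)
    have p := C.sym.per (-1 - (C.q - 1 - t))
    rw [show -1 - (C.q - 1 - t) + 2 * C.q = C.q + t by ring] at p
    rw [s, back13, p]

/-- The turn about the point with index `β + q`. -/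
theorem ZBQ {i : ℤ} (h : 0 ≤ i) (h' : i ≤ C.q) :
    C.Z (C.β + C.q) (C.β + C.q + i) = back 1 (C.Z (C.β + C.q - i) (C.β + C.q)) :=
  seg_sym h fun t h0 h1 => by
    have s := C.sym.symB (C.q - 1 - t) (by omega) (by omega)
    have p := C.sym.per (C.β - 1 - (C.q - 1 - t))
    rw [show C.β - 1 - (C.q - 1 - t) + 2 * C.q = C.β + C.q + t by ring] at p
    rw [show C.β + (C.q - 1 - t) = C.β + C.q - 1 - t by ring] at s
    rw [s, back13, p]

variable {C} in
theorem On.mono {i j i' j' X Y : ℤ} (h : C.On i j X Y) (a : i' ≤ i) (b : j ≤ j') :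
    C.On i' j' X Y := by
  obtain ⟨l, c, e, f⟩ := h
  exact ⟨l, by omega, by omega, f⟩

variable {C} in
theorem On.meet {i j k X Y : ℤ} (h : C.On i j X Y) (g : C.On j k X Y) :
    X = (C.w j).1 ∧ Y = (C.w j).2 := by
  obtain ⟨l, c, e, f⟩ := h
  obtain ⟨l', c', e', f'⟩ := g
  have := C.inj l l' (by omega) (by omega)
  rw [show j = l by omega]
  omega

/-- The points of the doubled curve. -/
def dw (t : ℤ) : Pt := C.w (t / 2) + C.w ((t + 1) / 2)

theorem dw_even (l : ℤ) : (C.dw (2 * l)).1 = 2 * (C.w l).1 ∧ (C.dw (2 * l)).2 = 2 * (C.w l).2 := by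
  rw [dw, show 2 * l / 2 = l by omega, show (2 * l + 1) / 2 = l by omega]
  simp only [Prod.fst_add, Prod.snd_add]
  omega

theorem dw_odd (l : ℤ) : (C.dw (2 * l + 1)).1 = (C.w l).1 + (C.w (l + 1)).1 ∧
    (C.dw (2 * l + 1)).2 = (C.w l).2 + (C.w (l + 1)).2 := by
  rw [dw, show (2 * l + 1) / 2 = l by omega, show (2 * l + 1 + 1) / 2 = l + 1 by omega]
  exact ⟨rfl, rfl⟩

theorem dw_eq (t : ℤ) : (C.dw t).1 = (C.w (t / 2)).1 + (C.w ((t + 1) / 2)).1 ∧
    (C.dw t).2 = (C.w (t / 2)).2 + (C.w ((t + 1) / 2)).2 := ⟨rfl, rfl⟩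

theorem dw_par (t : ℤ) : (C.dw t).1 % 2 = 0 ∨ (C.dw t).2 % 2 = 0 := by
  obtain ⟨l, rfl | rfl⟩ : ∃ l, t = 2 * l ∨ t = 2 * l + 1 := ⟨t / 2, by omega⟩
  · have := C.dw_even l
    omega
  · have := C.dw_odd l
    have := C.stc l
    omega

/-- The doubled curve. -/
def dbl : UC (τ + τ) where
  w := C.dw
  d := fun t => C.d (t / 2)
  q := 2 * C.q
  β := 2 * C.β
  qpos := by have := C.qpos; omega
  step := fun t => by
    rw [dw, dw, show (t + 1 + 1) / 2 = t / 2 + 1 by omega, C.step]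
    abel
  w0 := by rw [dw]; simp [C.w0]
  per := fun t => by
    rw [dw, dw, show (t + 2 * (2 * C.q)) / 2 = t / 2 + 2 * C.q by omega,
      show (t + 2 * (2 * C.q) + 1) / 2 = (t + 1) / 2 + 2 * C.q by omega, C.per, C.per]
    abel
  inj := fun t t' h1 h2 => by
    obtain ⟨l, rfl | rfl⟩ : ∃ l, t = 2 * l ∨ t = 2 * l + 1 := ⟨t / 2, by omega⟩ <;>
      obtain ⟨l', rfl | rfl⟩ : ∃ l, t' = 2 * l ∨ t' = 2 * l + 1 := ⟨t' / 2, by omega⟩
    · have := C.dw_even l
      have := C.dw_even l'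
      have := C.inj l l' (by omega) (by omega)
      omega
    · have := C.dw_even l
      have := C.dw_odd l'
      have := C.stc l'
      omega
    · have := C.dw_odd l
      have := C.dw_even l'
      have := C.stc l
      omega
    · have a := C.dw_odd l
      have b := C.dw_odd l'
      have c := C.stc l
      have d := C.stc l'
      have : ((C.w l).1 = (C.w l').1 ∧ (C.w l).2 = (C.w l').2) ∨
          ((C.w l).1 = (C.w (l' + 1)).1 ∧ (C.w l).2 = (C.w (l' + 1)).2 ∧
            (C.w (l + 1)).1 = (C.w l').1 ∧ (C.w (l + 1)).2 = (C.w l').2) := by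
        rcases c with ⟨c, c' | c'⟩ | ⟨c, c' | c'⟩ <;> rcases d with ⟨d, d' | d'⟩ | ⟨d, d' | d'⟩ <;>
          omega
      rcases this with h | h
      · rw [C.inj l l' h.1 h.2]
      · have := C.inj _ _ h.1 h.2.1
        have := C.inj _ _ h.2.2.1 h.2.2.2
        omega
  symA := fun i a b => by
    have h1 := C.symA (i / 2) (by omega) (by omega)
    have h2 := C.symA ((i + 1) / 2) (by omega) (by omega)
    have h3 := C.dw_eq i
    have h4 := C.dw_eq (-i)
    rw [show -i / 2 = -((i + 1) / 2) by omega, show (-i + 1) / 2 = -(i / 2) by omega] at h4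
    omega
  symB := fun i a b => by
    have h1 := C.symB (i / 2) (by omega) (by omega)
    have h2 := C.symB ((i + 1) / 2) (by omega) (by omega)
    have h3 := C.dw_eq (2 * C.β + i)
    have h4 := C.dw_eq (2 * C.β - i)
    have h5 := C.dw_even C.β
    rw [show (2 * C.β + i) / 2 = C.β + i / 2 by omega,
      show (2 * C.β + i + 1) / 2 = C.β + (i + 1) / 2 by omega] at h3
    rw [show (2 * C.β - i) / 2 = C.β - (i + 1) / 2 by omega,
      show (2 * C.β - i + 1) / 2 = C.β - i / 2 by omega] at h4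
    omega

end UC

namespace WB0

variable {n m : ℤ} (W : WB0 0 n m)

/-- The curve as a curve of unit steps. -/
def toUC : UC (n, n) where
  w := W.w
  d := W.d
  q := W.q
  β := W.β
  qpos := W.qpos
  step := W.step
  w0 := W.w0
  per := W.per
  inj := fun l l' a b => W.inj l l' (Prod.ext a b)
  symA := fun _ a b => W.symA' a b
  symB := fun i a b => by
    have := W.symB' a b
    rw [W.wβ]
    simp only
    omega

/-- The doubled curve. -/
def dbl (hn : n % 2 = 1) : WB0 0 (2 * n) (2 * m) where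
  w := W.toUC.dw
  d := W.toUC.dbl.d
  q := 2 * W.q
  β := 2 * W.β
  qpos := W.toUC.dbl.qpos
  step := W.toUC.dbl.step
  w0 := W.toUC.dbl.w0
  wq := by
    have h := W.toUC.dw_even W.q
    change _ = 2 * (W.w W.q).1 ∧ _ = 2 * (W.w W.q).2 at h
    rw [W.wq] at h
    exact Prod.ext h.1 h.2
  wβ := by
    have h := W.toUC.dw_even W.β
    change _ = 2 * (W.w W.β).1 ∧ _ = 2 * (W.w W.β).2 at h
    rw [W.wβ] at h
    exact Prod.ext h.1 h.2
  per := fun l => (W.toUC.dbl.per l).trans (by rw [two_mul]; rfl)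
  inj := fun l l' h => W.toUC.dbl.inj l l' (congrArg Prod.fst h) (congrArg Prod.snd h)
  strip := fun l => by
    have h := W.toUC.dw_eq l
    have h1 := W.strip (l / 2)
    have h2 := W.strip ((l + 1) / 2)
    change _ = (W.w _).1 + (W.w _).1 ∧ _ = (W.w _).2 + (W.w _).2 at h
    omega
  symA := fun i a b => by
    have := W.toUC.dbl.symA i a b
    exact Prod.ext this.1 this.2
  symB := fun i a b => by
    have := W.toUC.dbl.symB i a b
    have h := W.toUC.dw_even W.β
    change _ = 2 * (W.w W.β).1 ∧ _ = 2 * (W.w W.β).2 at h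
    rw [W.wβ] at h
    change (W.toUC.dw (2 * W.β - i)).1 = (W.toUC.dw (2 * W.β)).1 + (W.toUC.dw (2 * W.β)).2 -
      (W.toUC.dw (2 * W.β + i)).2 ∧ (W.toUC.dw (2 * W.β - i)).2 = (W.toUC.dw (2 * W.β)).2 -
      (W.toUC.dw (2 * W.β)).1 + (W.toUC.dw (2 * W.β + i)).1 at this
    ext <;> simp only [rotP1, Prod.fst_sub, Prod.snd_sub] at h ⊢ <;> omega
  kA := fun l a b => by
    have := W.toUC.dw_par l
    omega
  kB := fun l a b => by
    have := W.toUC.dw_par l
    omega

theorem dbl_par (hn : n % 2 = 1) (l : ℤ) :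
    ((W.dbl hn).w l).1 % 2 = 0 ∨ ((W.dbl hn).w l).2 % 2 = 0 := W.toUC.dw_par l

theorem wβq' : (W.w (W.β + W.q)).1 = m ∧ (W.w (W.β + W.q)).2 = m + n := by
  have := W.symB' W.qpos.le le_rfl
  have h := W.per1 (W.β - W.q)
  rw [show W.β - W.q + 2 * W.q = W.β + W.q by ring] at h
  omega

/-- No point of the curve has two odd coordinates. -/
def Ev : Prop := ∀ l, (W.w l).1 % 2 = 0 ∨ (W.w l).2 % 2 = 0

variable {W} {i j i' j' X Y : ℤ}

theorem tA (h : W.Ev) (hn : n % 4 = 2) (a : W.toUC.On i j X Y) (b : W.toUC.On i' j' Y (-X))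
    (c : 0 ≤ i) (c' : 0 ≤ i') : X = 0 ∧ Y = 0 := by
  obtain ⟨l, a1, a2, a3, a4⟩ := a
  obtain ⟨l', b1, b2, b3, b4⟩ := b
  change (W.w _).1 = _ at a3 b3
  change (W.w _).2 = _ at a4 b4
  have s := W.strip l
  have s' := W.strip l'
  have m1 := (W.monoA l).1 (by omega)
  by_cases g : l' ≤ W.q
  · have := W.symA' (i := l') (by omega) g
    have := W.inj l (-l') (Prod.ext (by omega) (by omega))
    obtain rfl : l = 0 := by omega
    rw [W.w0] at a3 a4
    exact ⟨a3.symm, a4.symm⟩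
  · have := (W.monoA l').2.2.1 (by omega)
    have := h l'
    omega

theorem tB (h : W.Ev) (hn : n % 4 = 2) (hm : m % 2 = 0) (a : W.toUC.On i j (m + X) (m + Y))
    (b : W.toUC.On i' j' (m + Y) (m - X)) (c : j ≤ W.β) (c' : j' ≤ W.β) : X = 0 ∧ Y = 0 := by
  obtain ⟨l, a1, a2, a3, a4⟩ := a
  obtain ⟨l', b1, b2, b3, b4⟩ := b
  change (W.w _).1 = _ at a3 b3
  change (W.w _).2 = _ at a4 b4
  have s := W.strip l
  have s' := W.strip l'
  have m1 := (W.monoB l').2.1 (by omega)
  by_cases g : W.β - W.q ≤ l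
  · have e := W.symB' (i := W.β - l) (by omega) (by omega)
    rw [sub_sub_cancel] at e
    have := W.inj l' (W.β + (W.β - l)) (Prod.ext (by omega) (by omega))
    have e := W.wβ
    rw [show W.β = l by omega, Prod.ext_iff] at e
    simp only at e
    omega
  · have := (W.monoB l).2.2.2.1 (by omega)
    have := h l
    omega

theorem tQ (h : W.Ev) (hn : n % 4 = 2) (a : W.toUC.On i j X (n + Y))
    (b : W.toUC.On i' j' Y (n - X)) (c : W.q ≤ i) (c' : W.q ≤ i') : X = 0 ∧ Y = 0 := by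
  obtain ⟨l, a1, a2, a3, a4⟩ := a
  obtain ⟨l', b1, b2, b3, b4⟩ := b
  change (W.w _).1 = _ at a3 b3
  change (W.w _).2 = _ at a4 b4
  have s := W.strip l
  have s' := W.strip l'
  have m1 := (W.monoA l').2.2.1 (by omega)
  have p := W.per1 (l - 2 * W.q)
  rw [sub_add_cancel] at p
  by_cases g : l ≤ 2 * W.q
  · have e := W.symA' (i := 2 * W.q - l) (by omega) (by omega)
    rw [neg_sub] at e
    have := W.inj l' (2 * W.q - l) (Prod.ext (by omega) (by omega))
    have e := W.wq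
    rw [show W.q = l by omega, Prod.ext_iff] at e
    simp only at e
    omega
  · have := (W.monoA (l - 2 * W.q)).1 (by omega)
    have := h l
    omega

theorem tBQ (h : W.Ev) (hn : n % 4 = 2) (hm : m % 2 = 0)
    (a : W.toUC.On i j (m + X) (m + n + Y)) (b : W.toUC.On i' j' (m + Y) (m + n - X))
    (c : j ≤ W.β + W.q) (c' : j' ≤ W.β + W.q) : X = 0 ∧ Y = 0 := by
  obtain ⟨l, a1, a2, a3, a4⟩ := a
  obtain ⟨l', b1, b2, b3, b4⟩ := b
  change (W.w _).1 = _ at a3 b3
  change (W.w _).2 = _ at a4 b4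
  have s := W.strip l
  have s' := W.strip l'
  have m1 := (W.monoB l).2.2.2.2.1 (by omega)
  by_cases g : W.β ≤ l'
  · have e := W.symB' (i := l' - W.β) (by omega) (by omega)
    rw [add_sub_cancel] at e
    have p := W.per1 (W.β - (l' - W.β))
    have := W.inj l (W.β - (l' - W.β) + 2 * W.q) (Prod.ext (by omega) (by omega))
    have e := W.wβq'
    rw [show W.β + W.q = l by omega] at e
    omega
  · have := (W.monoB l').2.1 (by omega)
    have := h l'
    omega

end WB0

end NP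
end Pool.Agent.Lib.MP_4a7072_co
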