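import Pool.Agent.Lib.MP_4a7072_co.F5Base

/-!
A refinement of a curve in which every step is replaced by a path of four steps, and the curve of
a design for an odd shorter leg `a` and `5 a < 3 b < 6 a`.
-/

set_option autoImplicit false
set_option linter.unnecessarySeqFocus false
set_option linter.unusedSimpArgs false

namespace Pool.Agent.Lib.MP_4a7072_co
namespace NP

/-- The data of the design. -/
structure DE where
  a : ℤ
  b : ℤ
  d : ℤ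
  h : ℤ
  k : ℤ
  e : ℤ
  J : ℤ
  aux' : a = d + h ∧ b = d + 2 * h ∧ d % 4 = 2 ∧ 0 ≤ e ∧ e ≤ 1 ∧ h % 4 = 1 + 2 * e ∧ 0 < d ∧
    2 * d < h ∧ k % 2 = 1 ∧ 0 < k ∧ k < d
  C : UC (2 * d, 0)
  ord' : C.β < -2 * C.q ∧ 0 < J ∧ J < C.q ∧ 4 ≤ C.q
  wq : C.w C.q = (d, d)
  wβ : C.w C.β = (-d - 2 * h, 0)
  wJ : C.w J = (d + e - k, e + k - 1)
  wF : C.w (1 + e - 2 * C.q) = (-2 * d + 1, e)
  st : ∀ l, 0 ≤ (C.w l).2 ∧ (C.w l).2 ≤ d ∧
    (0 < (C.w l).2 ∨ ((C.w l).1 + (C.w l).2) % 4 = 0 ∨ ((C.w l).1 + (C.w l).2) % 4 = 1 + 2 * e) ∧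
    ((C.w l).2 < d ∨ ((C.w l).1 + (C.w l).2) % 4 = 0 ∨ ((C.w l).1 + (C.w l).2) % 4 = 3 - 2 * e)
  ge : ∀ l, C.β ≤ l → -d - 2 * h ≤ (C.w l).1 ∧ (-d - 2 * h < (C.w l).1 ∨
    ((C.w l).1 + (C.w l).2) % 4 = 0 ∨ ((C.w l).1 + (C.w l).2) % 4 = 3 - 2 * e)
  ge' : ∀ l, C.β + C.q ≤ l → -2 * h ≤ (C.w l).1
  le : ∀ l, l ≤ 0 → (C.w l).1 ≤ 0 ∧ ((C.w l).1 < 0 ∨
    ((C.w l).1 + (C.w l).2) % 4 = 0 ∨ ((C.w l).1 + (C.w l).2) % 4 = 1 + 2 * e)
  le' : ∀ l, l ≤ -C.q → (C.w l).1 ≤ -d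
  lo : ∀ l, l ≤ J → (C.w l).1 + (C.w l).2 ≤ d + e ∧ ((C.w l).1 + (C.w l).2 ≤ d - 2 ∨
    ((C.w l).1 + (C.w l).2 = d - 1 ∧ (C.w l).1 % 2 = e) ∨
    ((C.w l).2 = k - 1 + e ∧ d - k - e ≤ (C.w l).1 ∧ (C.w l).1 ≤ d - k + e))
  hr : ∀ l, l ≤ -J → d - 1 + 2 * e ≤ (C.w l).2 - (C.w l).1 ∧ (d + 2 ≤ (C.w l).2 - (C.w l).1 ∨
    ((C.w l).2 - (C.w l).1 = d + 1 ∧ (C.w l).2 % 2 = e) ∨
    ((C.w l).2 = d - k + e ∧ e - k - 1 ≤ (C.w l).1 ∧ (C.w l).1 ≤ 1 - k - e))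
  gf : ∀ l, 1 + e - 2 * C.q ≤ l → -2 * d ≤ (C.w l).1 ∧ (-2 * d < (C.w l).1 ∨ (e < (C.w l).2 ∧
    (((C.w l).1 + (C.w l).2) % 4 = 0 ∨ ((C.w l).1 + (C.w l).2) % 4 = 3 - 2 * e)))
  lf : ∀ l, l ≤ 1 + e - 2 * C.q → (C.w l).1 ≤ 1 - 2 * d ∧ ((C.w l).1 < -2 * d ∨
    ((C.w l).1 = -2 * d ∧
      (((C.w l).1 + (C.w l).2) % 4 = 0 ∨ ((C.w l).1 + (C.w l).2) % 4 = 1 + 2 * e)) ∨
    (-2 * d ≤ (C.w l).1 ∧ (C.w l).2 = e))

theorem exists_dir {P Q : Pt} (h : (Q.2 = P.2 ∧ (Q.1 = P.1 + 1 ∨ Q.1 = P.1 - 1)) ∨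
    (Q.1 = P.1 ∧ (Q.2 = P.2 + 1 ∨ Q.2 = P.2 - 1))) : ∃ d, Q = P + dv d := by
  rcases h with ⟨h, g | g⟩ | ⟨h, g | g⟩
  · exact ⟨0, by ext <;> simp [dv] <;> omega⟩
  · exact ⟨2, by ext <;> simp [dv] <;> omega⟩
  · exact ⟨1, by ext <;> simp [dv] <;> omega⟩
  · exact ⟨3, by ext <;> simp [dv] <;> omega⟩

/-- The point `(X, Y)` is the `r`-th point of the refinement of the step from `(x, y)` to
`(x', y')`. -/
def QR (e r x y x' y' X Y : ℤ) : Prop :=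
  (r = 0 ∧ x' = x ∧ y' = y ∧ X = 2 * (x + y) ∧ Y = 2 * (y - x)) ∨
  (((y' = y ∧ (x' = x + 1 ∨ x' = x - 1)) ∨ (x' = x ∧ (y' = y + 1 ∨ y' = y - 1))) ∧
    ((r = 2 ∧ X = x + x' + y + y' ∧ Y = y + y' - x - x') ∨
      (e = 0 ∧ r = 1 ∧ X = 2 * x + y + y' ∧ Y = 2 * y - x - x') ∨
      (e = 0 ∧ r = 3 ∧ X = 2 * x' + y + y' ∧ Y = 2 * y' - x - x') ∨
      (e = 1 ∧ r = 1 ∧ X = x + x' + 2 * y ∧ Y = y + y' - 2 * x) ∨
      (e = 1 ∧ r = 3 ∧ X = x + x' + 2 * y' ∧ Y = y + y' - 2 * x')))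

namespace QR

variable {e r s x y x' y' X Y c : ℤ}

theorem geX (h : QR e r x y x' y' X Y) (h1 : c ≤ 2 * (x + y)) (h2 : c ≤ 2 * (x' + y')) :
    c ≤ X ∧ (c < X ∨ (X + Y) % 4 = 0 ∨ (X + Y) % 4 = 3 - 2 * e) := by
  rcases h with h | ⟨a | a, h | h | h | h | h⟩ <;> omega

theorem leX (h : QR e r x y x' y' X Y) (h1 : 2 * (x + y) ≤ c) (h2 : 2 * (x' + y') ≤ c) :
    X ≤ c ∧ (X < c ∨ (X + Y) % 4 = 0 ∨ (X + Y) % 4 = 1 + 2 * e) := by
  rcases h with h | ⟨a | a, h | h | h | h | h⟩ <;> omega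

theorem geY (h : QR e r x y x' y' X Y) (h1 : c ≤ 2 * (y - x)) (h2 : c ≤ 2 * (y' - x')) :
    c ≤ Y ∧ (c < Y ∨ (X + Y) % 4 = 0 ∨ (X + Y) % 4 = 1 + 2 * e) := by
  rcases h with h | ⟨a | a, h | h | h | h | h⟩ <;> omega

theorem leY (h : QR e r x y x' y' X Y) (h1 : 2 * (y - x) ≤ c) (h2 : 2 * (y' - x') ≤ c) :
    Y ≤ c ∧ (Y < c ∨ (X + Y) % 4 = 0 ∨ (X + Y) % 4 = 3 - 2 * e) := by
  rcases h with h | ⟨a | a, h | h | h | h | h⟩ <;> omega

theorem leS (h : QR e r x y x' y' X Y) (h1 : y ≤ c) (h2 : y' ≤ c) :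
    X + Y ≤ 4 * c ∨ (X + Y = 4 * c + 1 ∧ X % 2 = e) := by
  rcases h with h | ⟨a | a, h | h | h | h | h⟩ <;> omega

theorem geD (h : QR e r x y x' y' X Y) (h1 : x ≤ -c) (h2 : x' ≤ -c) :
    4 * c ≤ Y - X ∨ (Y - X = 4 * c - 1 ∧ Y % 2 = e) := by
  rcases h with h | ⟨a | a, h | h | h | h | h⟩ <;> omega

theorem mid (h : QR e r x y x' y' X Y) : (r = 0 ∧ X % 2 = 0 ∧ Y % 2 = 0) ∨ (r ≠ 0 ∧
    ((X = x + x' + y + y' ∧ Y = y + y' - x - x' ∧ X % 2 = 1 ∧ Y % 2 = 1) ∨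
      (X % 2 = 1 ∧ Y % 2 = 0 ∧ x + x' + y + y' = X ∧
        (y + y' - x - x' = Y + 1 ∨ y + y' - x - x' = Y - 1) ∧ (y + y') % 2 = 1 - e) ∨
      (X % 2 = 0 ∧ Y % 2 = 1 ∧ y + y' - x - x' = Y ∧
        (x + x' + y + y' = X + 1 ∨ x + x' + y + y' = X - 1) ∧ (y + y') % 2 = e))) := by
  rcases h with h | ⟨⟨a, b⟩ | ⟨a, b⟩, h | h | h | h | h⟩
  · exact .inl ⟨h.1, by omega, by omega⟩
  · exact .inr ⟨by omega, .inl ⟨h.2.1, h.2.2, by omega, by omega⟩⟩
  · exact .inr ⟨by omega, .inr (.inr ⟨by omega, by omega, by omega, by omega, by omega⟩)⟩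
  · exact .inr ⟨by omega, .inr (.inr ⟨by omega, by omega, by omega, by omega, by omega⟩)⟩
  · exact .inr ⟨by omega, .inr (.inl ⟨by omega, by omega, by omega, by omega, by omega⟩)⟩
  · exact .inr ⟨by omega, .inr (.inl ⟨by omega, by omega, by omega, by omega, by omega⟩)⟩
  · exact .inr ⟨by omega, .inl ⟨h.2.1, h.2.2, by omega, by omega⟩⟩
  · exact .inr ⟨by omega, .inr (.inl ⟨by omega, by omega, by omega, by omega, by omega⟩)⟩
  · exact .inr ⟨by omega, .inr (.inl ⟨by omega, by omega, by omega, by omega, by omega⟩)⟩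
  · exact .inr ⟨by omega, .inr (.inr ⟨by omega, by omega, by omega, by omega, by omega⟩)⟩
  · exact .inr ⟨by omega, .inr (.inr ⟨by omega, by omega, by omega, by omega, by omega⟩)⟩

theorem zero (h : QR e r x y x' y' X Y) (hr : r = 0) : X = 2 * (x + y) ∧ Y = 2 * (y - x) := by
  rcases h with h | ⟨-, h⟩
  · exact h.2.2.2
  · exfalso
    omega

theorem one (h : QR e r x y x' y' X Y) (hr : r = 1) :
    (e = 0 ∧ X = 2 * x + y + y' ∧ Y = 2 * y - x - x') ∨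
      (e = 1 ∧ X = x + x' + 2 * y ∧ Y = y + y' - 2 * x) := by
  rcases h with h | ⟨-, h | h | h | h | h⟩
  · exact absurd h.1 (by omega)
  · exact absurd h.1 (by omega)
  · exact .inl ⟨h.1, h.2.2⟩
  · exact absurd h.2.1 (by omega)
  · exact .inr ⟨h.1, h.2.2⟩
  · exact absurd h.2.1 (by omega)

theorem two (h : QR e r x y x' y' X Y) (hr : r = 2) :
    X = x + x' + y + y' ∧ Y = y + y' - x - x' := by
  rcases h with h | ⟨-, h | h | h | h | h⟩
  · exact absurd h.1 (by omega)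
  · exact h.2
  · exact absurd h.2.1 (by omega)
  · exact absurd h.2.1 (by omega)
  · exact absurd h.2.1 (by omega)
  · exact absurd h.2.1 (by omega)

theorem three (h : QR e r x y x' y' X Y) (hr : r = 3) :
    (e = 0 ∧ X = 2 * x' + y + y' ∧ Y = 2 * y' - x - x') ∨
      (e = 1 ∧ X = x + x' + 2 * y' ∧ Y = y + y' - 2 * x') := by
  rcases h with h | ⟨-, h | h | h | h | h⟩
  · exact absurd h.1 (by omega)
  · exact absurd h.1 (by omega)
  · exact absurd h.2.1 (by omega)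
  · exact .inl ⟨h.1, h.2.2⟩
  · exact absurd h.2.1 (by omega)
  · exact .inr ⟨h.1, h.2.2⟩

theorem mid_eq {u v u' v' : ℤ} (h : QR e r x y x' y' X Y) (g : QR e s u v u' v' X Y) :
    (r = 0 ∧ s = 0 ∧ x = u ∧ y = v) ∨
      (r ≠ 0 ∧ s ≠ 0 ∧ x + x' = u + u' ∧ y + y' = v + v') := by
  rcases h.mid with a | ⟨a, b⟩ <;> rcases g.mid with a' | ⟨a', b'⟩
  · have c := h.zero a.1
    have c' := g.zero a'.1
    exact .inl ⟨a.1, a'.1, by omega, by omega⟩
  · exfalso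
    rcases b' with b' | b' | b' <;> omega
  · exfalso
    rcases b with b | b | b <;> omega
  · refine .inr ⟨a, a', ?_⟩
    clear a a'
    have : y + y' = v + v' ∧ x + x' + y + y' - (u + u' + v + v') = 0 := by
      rcases b with b | b | b <;> rcases b' with b' | b' | b' <;> constructor <;> omega
    clear b b'
    omega

theorem same (h : QR e r x y x' y' X Y) (g : QR e s x y x' y' X Y) : r = s := by
  rcases h with h | ⟨⟨a, b | b⟩ | ⟨a, b | b⟩, h | h | h | h | h⟩ <;>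
    rcases g with g | ⟨g', g⟩ <;> omega

theorem stp0 {X' Y' : ℤ}
    (c : (y' = y ∧ (x' = x + 1 ∨ x' = x - 1)) ∨ (x' = x ∧ (y' = y + 1 ∨ y' = y - 1)))
    (a : X = 2 * (x + y) ∧ Y = 2 * (y - x))
    (b : (e = 0 ∧ X' = 2 * x + y + y' ∧ Y' = 2 * y - x - x') ∨
      (e = 1 ∧ X' = x + x' + 2 * y ∧ Y' = y + y' - 2 * x)) :
    (Y' = Y ∧ (X' = X + 1 ∨ X' = X - 1)) ∨ (X' = X ∧ (Y' = Y + 1 ∨ Y' = Y - 1)) := by
  obtain ⟨rfl, rfl⟩ := a
  rcases b with ⟨-, rfl, rfl⟩ | ⟨-, rfl, rfl⟩ <;>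
    rcases c with ⟨rfl, rfl | rfl⟩ | ⟨rfl, rfl | rfl⟩
  · exact .inr ⟨by ring1, .inr (by ring1)⟩
  · exact .inr ⟨by ring1, .inl (by ring1)⟩
  · exact .inl ⟨by ring1, .inl (by ring1)⟩
  · exact .inl ⟨by ring1, .inr (by ring1)⟩
  · exact .inl ⟨by ring1, .inl (by ring1)⟩
  · exact .inl ⟨by ring1, .inr (by ring1)⟩
  · exact .inr ⟨by ring1, .inl (by ring1)⟩
  · exact .inr ⟨by ring1, .inr (by ring1)⟩

theorem stp1 {X' Y' : ℤ}
    (c : (y' = y ∧ (x' = x + 1 ∨ x' = x - 1)) ∨ (x' = x ∧ (y' = y + 1 ∨ y' = y - 1)))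
    (a : (e = 0 ∧ X = 2 * x + y + y' ∧ Y = 2 * y - x - x') ∨
      (e = 1 ∧ X = x + x' + 2 * y ∧ Y = y + y' - 2 * x))
    (b : X' = x + x' + y + y' ∧ Y' = y + y' - x - x') :
    (Y' = Y ∧ (X' = X + 1 ∨ X' = X - 1)) ∨ (X' = X ∧ (Y' = Y + 1 ∨ Y' = Y - 1)) := by
  obtain ⟨rfl, rfl⟩ := b
  rcases a with ⟨-, rfl, rfl⟩ | ⟨-, rfl, rfl⟩ <;>
    rcases c with ⟨rfl, rfl | rfl⟩ | ⟨rfl, rfl | rfl⟩
  · exact .inl ⟨by ring1, .inl (by ring1)⟩
  · exact .inl ⟨by ring1, .inr (by ring1)⟩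
  · exact .inr ⟨by ring1, .inl (by ring1)⟩
  · exact .inr ⟨by ring1, .inr (by ring1)⟩
  · exact .inr ⟨by ring1, .inr (by ring1)⟩
  · exact .inr ⟨by ring1, .inl (by ring1)⟩
  · exact .inl ⟨by ring1, .inl (by ring1)⟩
  · exact .inl ⟨by ring1, .inr (by ring1)⟩

theorem stp2 {X' Y' : ℤ}
    (c : (y' = y ∧ (x' = x + 1 ∨ x' = x - 1)) ∨ (x' = x ∧ (y' = y + 1 ∨ y' = y - 1)))
    (a : X = x + x' + y + y' ∧ Y = y + y' - x - x')
    (b : (e = 0 ∧ X' = 2 * x' + y + y' ∧ Y' = 2 * y' - x - x') ∨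
      (e = 1 ∧ X' = x + x' + 2 * y' ∧ Y' = y + y' - 2 * x')) :
    (Y' = Y ∧ (X' = X + 1 ∨ X' = X - 1)) ∨ (X' = X ∧ (Y' = Y + 1 ∨ Y' = Y - 1)) := by
  obtain ⟨rfl, rfl⟩ := a
  rcases b with ⟨-, rfl, rfl⟩ | ⟨-, rfl, rfl⟩ <;>
    rcases c with ⟨rfl, rfl | rfl⟩ | ⟨rfl, rfl | rfl⟩
  · exact .inl ⟨by ring1, .inl (by ring1)⟩
  · exact .inl ⟨by ring1, .inr (by ring1)⟩
  · exact .inr ⟨by ring1, .inl (by ring1)⟩
  · exact .inr ⟨by ring1, .inr (by ring1)⟩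
  · exact .inr ⟨by ring1, .inr (by ring1)⟩
  · exact .inr ⟨by ring1, .inl (by ring1)⟩
  · exact .inl ⟨by ring1, .inl (by ring1)⟩
  · exact .inl ⟨by ring1, .inr (by ring1)⟩

theorem stp3 {X' Y' : ℤ}
    (c : (y' = y ∧ (x' = x + 1 ∨ x' = x - 1)) ∨ (x' = x ∧ (y' = y + 1 ∨ y' = y - 1)))
    (a : (e = 0 ∧ X = 2 * x' + y + y' ∧ Y = 2 * y' - x - x') ∨
      (e = 1 ∧ X = x + x' + 2 * y' ∧ Y = y + y' - 2 * x'))
    (b : X' = 2 * (x' + y') ∧ Y' = 2 * (y' - x')) :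
    (Y' = Y ∧ (X' = X + 1 ∨ X' = X - 1)) ∨ (X' = X ∧ (Y' = Y + 1 ∨ Y' = Y - 1)) := by
  obtain ⟨rfl, rfl⟩ := b
  rcases a with ⟨-, rfl, rfl⟩ | ⟨-, rfl, rfl⟩ <;>
    rcases c with ⟨rfl, rfl | rfl⟩ | ⟨rfl, rfl | rfl⟩
  · exact .inr ⟨by ring1, .inr (by ring1)⟩
  · exact .inr ⟨by ring1, .inl (by ring1)⟩
  · exact .inl ⟨by ring1, .inl (by ring1)⟩
  · exact .inl ⟨by ring1, .inr (by ring1)⟩
  · exact .inl ⟨by ring1, .inl (by ring1)⟩
  · exact .inl ⟨by ring1, .inr (by ring1)⟩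
  · exact .inr ⟨by ring1, .inl (by ring1)⟩
  · exact .inr ⟨by ring1, .inr (by ring1)⟩

end QR

namespace UC

variable {τ : Pt} (C : UC τ) (e : ℤ)

/-- The points of the refined curve. -/
def qw (t : ℤ) : Pt :=
  ((C.w ((t + 1 - e) / 4)).1 + (C.w ((t + 2 + e) / 4)).1 + (C.w ((t + e) / 4)).2 +
      (C.w ((t + 3 - e) / 4)).2,
    (C.w ((t + 1 - e) / 4)).2 + (C.w ((t + 2 + e) / 4)).2 - (C.w ((t + e) / 4)).1 -
      (C.w ((t + 3 - e) / 4)).1)

variable {e}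

theorem qw_of {t i j i' j' : ℤ} (h1 : (t + 1 - e) / 4 = i) (h2 : (t + 2 + e) / 4 = j)
    (h3 : (t + e) / 4 = i') (h4 : (t + 3 - e) / 4 = j') :
    (C.qw e t).1 = (C.w i).1 + (C.w j).1 + (C.w i').2 + (C.w j').2 ∧
      (C.qw e t).2 = (C.w i).2 + (C.w j).2 - (C.w i').1 - (C.w j').1 := by
  subst h1 h2 h3 h4
  exact ⟨rfl, rfl⟩

theorem qw_rel' (he : e = 0 ∨ e = 1) {t l : ℤ} (h : 4 * l < t) (h' : t < 4 * l + 4) :
    QR e (t % 4) (C.w l).1 (C.w l).2 (C.w (l + 1)).1 (C.w (l + 1)).2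
      (C.qw e t).1 (C.qw e t).2 := by
  refine .inr ⟨C.stc l, ?_⟩
  rcases (by omega : t = 4 * l + 2 ∨ (e = 0 ∧ t = 4 * l + 1) ∨ (e = 0 ∧ t = 4 * l + 3) ∨
    (e = 1 ∧ t = 4 * l + 1) ∨ (e = 1 ∧ t = 4 * l + 3)) with g | g | g | g | g
  · have := C.qw_of (e := e) (t := t) (i := l) (j := l + 1) (i' := l) (j' := l + 1)
      (by omega) (by omega) (by omega) (by omega)
    clear he
    exact .inl ⟨by omega, this.1, by omega⟩
  · clear he
    have := C.qw_of (e := e) (t := t) (i := l) (j := l) (i' := l) (j' := l + 1)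
      (by omega) (by omega) (by omega) (by omega)
    exact .inr (.inl ⟨g.1, by omega, by omega, by omega⟩)
  · clear he
    have := C.qw_of (e := e) (t := t) (i := l + 1) (j := l + 1) (i' := l) (j' := l + 1)
      (by omega) (by omega) (by omega) (by omega)
    exact .inr (.inr (.inl ⟨g.1, by omega, by omega, by omega⟩))
  · clear he
    have := C.qw_of (e := e) (t := t) (i := l) (j := l + 1) (i' := l) (j' := l)
      (by omega) (by omega) (by omega) (by omega)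
    exact .inr (.inr (.inr (.inl ⟨g.1, by omega, by omega, by omega⟩)))
  · clear he
    have := C.qw_of (e := e) (t := t) (i := l) (j := l + 1) (i' := l + 1) (j' := l + 1)
      (by omega) (by omega) (by omega) (by omega)
    exact .inr (.inr (.inr (.inr ⟨g.1, by omega, by omega, by omega⟩)))

theorem qw_four (he : e = 0 ∨ e = 1) {t l : ℤ} (h : t = 4 * l) :
    (C.qw e t).1 = 2 * ((C.w l).1 + (C.w l).2) ∧ (C.qw e t).2 = 2 * ((C.w l).2 - (C.w l).1) := by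
  have := C.qw_of (e := e) (t := t) (i := l) (j := l) (i' := l) (j' := l)
    (by omega) (by omega) (by omega) (by omega)
  omega

theorem qw_rel (he : e = 0 ∨ e = 1) (t : ℤ) :
    QR e (t % 4) (C.w (t / 4)).1 (C.w (t / 4)).2 (C.w ((t + 3) / 4)).1 (C.w ((t + 3) / 4)).2
      (C.qw e t).1 (C.qw e t).2 := by
  by_cases h : t % 4 = 0
  · rw [show (t + 3) / 4 = t / 4 by omega]
    exact .inl ⟨h, rfl, rfl, C.qw_four he (by omega)⟩
  · rw [show (t + 3) / 4 = t / 4 + 1 by omega]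
    exact C.qw_rel' he (by omega) (by omega)

theorem qw_stp (he : e = 0 ∨ e = 1) (t : ℤ) : ∃ d, C.qw e (t + 1) = C.qw e t + dv d := by
  refine exists_dir ?_
  obtain ⟨l, h | h | h | h⟩ : ∃ l, t = 4 * l ∨ t = 4 * l + 1 ∨ t = 4 * l + 2 ∨ t = 4 * l + 3 :=
    ⟨t / 4, by omega⟩
  · have a := C.qw_four he h
    have b := (C.qw_rel' he (t := t + 1) (l := l) (by omega) (by omega)).one (by omega)
    exact QR.stp0 (C.stc l) a b
  · have a := (C.qw_rel' he (t := t) (l := l) (by omega) (by omega)).one (by omega)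
    have b := (C.qw_rel' he (t := t + 1) (l := l) (by omega) (by omega)).two (by omega)
    exact QR.stp1 (C.stc l) a b
  · have a := (C.qw_rel' he (t := t) (l := l) (by omega) (by omega)).two (by omega)
    have b := (C.qw_rel' he (t := t + 1) (l := l) (by omega) (by omega)).three (by omega)
    exact QR.stp2 (C.stc l) a b
  · have a := (C.qw_rel' he (t := t) (l := l) (by omega) (by omega)).three (by omega)
    have b := C.qw_four he (t := t + 1) (l := l + 1) (by omega)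
    exact QR.stp3 (C.stc l) a b

/-- The refined curve. -/
noncomputable def quad (he : e = 0 ∨ e = 1) : UC (2 * (τ.1 + τ.2), 2 * (τ.2 - τ.1)) where
  w := C.qw e
  d := fun t => (C.qw_stp he t).choose
  q := 4 * C.q
  β := 4 * C.β
  qpos := by have := C.qpos; omega
  step := fun t => (C.qw_stp he t).choose_spec
  w0 := by
    have := C.qw_four he (t := 0) (l := 0) rfl
    rw [C.w0] at this
    exact Prod.ext this.1 this.2
  per := fun t => by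
    have h1 := C.qw_of (e := e) (t := t) rfl rfl rfl rfl
    have h2 := C.qw_of (e := e) (t := t + 2 * (4 * C.q)) (i := (t + 1 - e) / 4 + 2 * C.q)
      (j := (t + 2 + e) / 4 + 2 * C.q) (i' := (t + e) / 4 + 2 * C.q)
      (j' := (t + 3 - e) / 4 + 2 * C.q) (by omega) (by omega) (by omega) (by omega)
    simp only [C.per, Prod.fst_add, Prod.snd_add] at h2
    ext <;> simp only [Prod.fst_add, Prod.snd_add] <;> omega
  inj := fun t t' h1 h2 => by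
    have a := C.qw_rel he t
    have b := C.qw_rel he t'
    rw [← h1, ← h2] at b
    have : t / 4 = t' / 4 ∧ (t + 3) / 4 = (t' + 3) / 4 := by
      rcases a.mid_eq b with g | g
      · have := C.inj _ _ g.2.2.1 g.2.2.2
        omega
      · have c := C.dw_odd (t / 4)
        have c' := C.dw_odd (t' / 4)
        rw [show (t + 3) / 4 = t / 4 + 1 by omega, show (t' + 3) / 4 = t' / 4 + 1 by omega] at g
        have := C.dbl.inj (2 * (t / 4) + 1) (2 * (t' / 4) + 1) (c.1.trans (g.2.2.1.trans c'.1.symm))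
          (c.2.trans (g.2.2.2.trans c'.2.symm))
        omega
    rw [← this.1, ← this.2] at b
    have := a.same b
    omega
  symA := fun i a b => by
    have h1 := C.symA ((i + 1 - e) / 4) (by omega) (by omega)
    have h2 := C.symA ((i + 2 + e) / 4) (by omega) (by omega)
    have h3 := C.symA ((i + e) / 4) (by omega) (by omega)
    have h4 := C.symA ((i + 3 - e) / 4) (by omega) (by omega)
    have h5 := C.qw_of (e := e) (t := i) rfl rfl rfl rfl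
    have h6 := C.qw_of (e := e) (t := -i) (i := -((i + 2 + e) / 4)) (j := -((i + 1 - e) / 4))
      (i' := -((i + 3 - e) / 4)) (j' := -((i + e) / 4)) (by omega) (by omega) (by omega) (by omega)
    omega
  symB := fun i a b => by
    have h1 := C.symB ((i + 1 - e) / 4) (by omega) (by omega)
    have h2 := C.symB ((i + 2 + e) / 4) (by omega) (by omega)
    have h3 := C.symB ((i + e) / 4) (by omega) (by omega)
    have h4 := C.symB ((i + 3 - e) / 4) (by omega) (by omega)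
    have h5 := C.qw_of (e := e) (t := 4 * C.β + i) (i := C.β + (i + 1 - e) / 4)
      (j := C.β + (i + 2 + e) / 4) (i' := C.β + (i + e) / 4) (j' := C.β + (i + 3 - e) / 4)
      (by omega) (by omega) (by omega) (by omega)
    have h6 := C.qw_of (e := e) (t := 4 * C.β - i) (i := C.β - (i + 2 + e) / 4)
      (j := C.β - (i + 1 - e) / 4) (i' := C.β - (i + 3 - e) / 4) (j' := C.β - (i + e) / 4)
      (by omega) (by omega) (by omega) (by omega)
    have h7 := C.qw_four he (t := 4 * C.β) rfl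
    clear he a b
    constructor <;> omega

end UC

/-- A staircase with steps of length two, starting in the middle of a step. -/
def stv (e n : ℤ) : List Dir := seg (fun l => [stD l]) (1 + 2 * e) (1 + 2 * e + n)

theorem stv_ne {e n : ℤ} (h : 0 < n) : stv e n ≠ [] := seg_ne (fun _ => by simp) (by omega)

theorem stv_arc {e k : ℤ} (he : e = 0 ∨ e = 1) (hk : k % 2 = 1) (h0 : 0 < k) :
    CArc (0, 0) (stv e (2 * k - 1)) (e - k, e + k - 1) fun X Y => 0 ≤ Y - X ∧ Y - X ≤ 2 * k - 1 ∧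
      (X + Y = 0 ∨ ((X + Y = 1 ∨ X + Y = -1) ∧ X % 2 = 1 - e)) := by
  refine ((arc_fun stP_step (fun l l' a b => ?_) (by omega)).p0 (1 + e) (-e) ?_).mono ?_
  · simp only [stP] at a b
    omega
  · simp only [stP]
    omega
  · rintro X Y ⟨l, a, b, c, g⟩
    simp only [stP] at c g
    omega

namespace WB0

variable {n m : ℤ} {W : WB0 0 n m}

/-- The crossing of the line of reflection. -/
theorem Gl.cross (h : W.Gl) (hn : n % 2 = 1) (h0 : 0 < n) : ∃ l0, 2 * l0 + 1 = W.q ∧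
    2 * (W.w l0).2 + 1 = n ∧ (W.w (l0 + 1)).1 = (W.w l0).1 ∧
    (W.w (l0 + 1)).2 = (W.w l0).2 + 1 ∧ (∀ l, l ≤ l0 → 2 * (W.w l).2 < n) ∧
    ∀ l, l < -l0 → 2 * (W.w l).1 < -n := by
  have hq := W.qpos
  have lo : ∀ l, 0 ≤ l → 2 * l ≤ W.q → 2 * (W.w l).2 < n := fun l a => by
    induction l, a using Int.leInduction with
    | base =>
      intro _
      rw [W.w0]
      exact h0
    | succ l a ih =>
      intro b
      have := ih (by omega)
      have s := W.toUC.stc l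
      have r := h.refl a (by omega)
      dsimp only [toUC] at s
      by_contra c
      have := W.inj (W.q - l) (l + 1) (Prod.ext (by omega) (by omega))
      omega
  have od : W.q % 2 = 1 := by
    by_contra c
    have r := h.refl (i := W.q / 2) (by omega) (by omega)
    rw [show W.q - W.q / 2 = W.q / 2 by omega] at r
    omega
  have r := h.refl (i := W.q / 2) (by omega) (by omega)
  rw [show W.q - W.q / 2 = W.q / 2 + 1 by omega] at r
  have s := W.toUC.stc (W.q / 2)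
  dsimp only [toUC] at s
  have := lo (W.q / 2) (by omega) (by omega)
  refine ⟨W.q / 2, by omega, by omega, by omega, by omega, fun l a => ?_, fun l a => ?_⟩
  · rcases le_total 0 l with b | b
    · exact lo l b (by omega)
    · have := (W.monoA l).2.1 b
      have := W.strip l
      omega
  · rcases le_total (-W.q) l with b | b
    · have e := W.symA' (i := -l) (by omega) (by omega)
      rw [neg_neg] at e
      have r := h.refl (i := -l) (by omega) (by omega)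
      have := lo (W.q - -l) (by omega) (by omega)
      omega
    · have := (W.monoA l).2.2.2.1 b
      have := W.strip l
      omega

end WB0

section

variable {e n x y x' y' X Y : ℤ}

theorem de_j1 (k2 : 2 * y + 1 = n) (k3 : x' = x) (k4 : y' = y + 1)
    (g : (e = 0 ∧ X = 2 * x + y + y' ∧ Y = 2 * y - x - x') ∨
      (e = 1 ∧ X = x + x' + 2 * y ∧ Y = y + y' - 2 * x)) :
    X = n + 2 * x - e ∧ Y = n - 2 * x - 1 + e := by
  rcases g with g | g <;> constructor <;> omega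

theorem de_j2 (k2 : 2 * y + 1 = n) (k3 : x' = x) (k4 : y' = y + 1)
    (g : X = x + x' + y + y' ∧ Y = y + y' - x - x') : X = n + 2 * x ∧ Y = n - 2 * x := by
  constructor <;> omega

theorem de_j3 (k2 : 2 * y + 1 = n) (k3 : x' = x) (k4 : y' = y + 1)
    (g : (e = 0 ∧ X = 2 * x' + y + y' ∧ Y = 2 * y' - x - x') ∨
      (e = 1 ∧ X = x + x' + 2 * y' ∧ Y = y + y' - 2 * x')) :
    X = n + 2 * x + e ∧ Y = n - 2 * x + 1 - e := by
  rcases g with g | g <;> constructor <;> omega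

theorem de_f0 (p0 : 0 = x + n ∧ 0 = y + n) (g : X = 2 * (x + y) ∧ Y = 2 * (y - x)) :
    X = -4 * n ∧ Y = 0 := by
  constructor <;> omega

theorem de_f1 (p0 : 0 = x + n ∧ 0 = y + n) (p1 : x' = -n ∧ y' = 1 - n)
    (g : (e = 0 ∧ X = 2 * x + y + y' ∧ Y = 2 * y - x - x') ∨
      (e = 1 ∧ X = x + x' + 2 * y ∧ Y = y + y' - 2 * x)) :
    X = -4 * n + 1 - e ∧ Y = e := by
  rcases g with g | g <;> constructor <;> omega

theorem de_f2 (p0 : 0 = x + n ∧ 0 = y + n) (p1 : x' = -n ∧ y' = 1 - n)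
    (g : X = x + x' + y + y' ∧ Y = y + y' - x - x') : X = -4 * n + 1 ∧ Y = 1 := by
  constructor <;> omega

variable {l j X' Y' X'' Y'' : ℤ}

theorem de_lo1 (he : 0 ≤ e ∧ e ≤ 1) (k2 : 2 * y + 1 = n)
    (h : X + Y ≤ 4 * y ∨ (X + Y = 4 * y + 1 ∧ X % 2 = e)) : X + Y ≤ 2 * n + e ∧
      (X + Y ≤ 2 * n - 2 ∨ (X + Y = 2 * n - 1 ∧ X % 2 = e) ∨ (Y = n - 2 * x - 1 + e ∧
        2 * n - (n - 2 * x) - e ≤ X ∧ X ≤ 2 * n - (n - 2 * x) + e)) := by
  rcases h with h | h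
  · exact ⟨by omega, .inl (by omega)⟩
  · exact ⟨by omega, .inr (.inl ⟨by omega, h.2⟩)⟩

theorem de_lo2 (he : 0 ≤ e ∧ e ≤ 1) (g : l ≤ 4 * j + 1 + 2 * e)
    (h : (l = 4 * j + 1 ∧ X = n + 2 * x - e ∧ Y = n - 2 * x - 1 + e) ∨
      (l = 4 * j + 2 ∧ X = n + 2 * x ∧ Y = n - 2 * x) ∨
      (l = 4 * j + 3 ∧ X = n + 2 * x + e ∧ Y = n - 2 * x + 1 - e)) : X + Y ≤ 2 * n + e ∧
      (X + Y ≤ 2 * n - 2 ∨ (X + Y = 2 * n - 1 ∧ X % 2 = e) ∨ (Y = n - 2 * x - 1 + e ∧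
        2 * n - (n - 2 * x) - e ≤ X ∧ X ≤ 2 * n - (n - 2 * x) + e)) := by
  rcases h with h | h | h <;> exact ⟨by omega, .inr (.inr ⟨by omega, by omega, by omega⟩)⟩

theorem de_hr1 (he : 0 ≤ e ∧ e ≤ 1) (k2 : 2 * y + 1 = n)
    (h : 4 * (y + 1) ≤ Y - X ∨ (Y - X = 4 * (y + 1) - 1 ∧ Y % 2 = e)) :
    2 * n - 1 + 2 * e ≤ Y - X ∧ (2 * n + 2 ≤ Y - X ∨ (Y - X = 2 * n + 1 ∧ Y % 2 = e) ∨
      (Y = 2 * n - (n - 2 * x) + e ∧ e - (n - 2 * x) - 1 ≤ X ∧ X ≤ 1 - (n - 2 * x) - e)) := by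
  rcases h with h | h
  · exact ⟨by omega, .inl (by omega)⟩
  · exact ⟨by omega, .inr (.inl ⟨by omega, h.2⟩)⟩

theorem de_hr2 (he : 0 ≤ e ∧ e ≤ 1) (g : l ≤ -(4 * j + 1 + 2 * e))
    (h : (-l = 4 * j + 1 ∧ X' = n + 2 * x - e ∧ Y' = n - 2 * x - 1 + e) ∨
      (-l = 4 * j + 2 ∧ X' = n + 2 * x ∧ Y' = n - 2 * x) ∨
      (-l = 4 * j + 3 ∧ X' = n + 2 * x + e ∧ Y' = n - 2 * x + 1 - e))
    (s : X = -Y' ∧ Y = X') :
    2 * n - 1 + 2 * e ≤ Y - X ∧ (2 * n + 2 ≤ Y - X ∨ (Y - X = 2 * n + 1 ∧ Y % 2 = e) ∨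
      (Y = 2 * n - (n - 2 * x) + e ∧ e - (n - 2 * x) - 1 ≤ X ∧ X ≤ 1 - (n - 2 * x) - e)) := by
  rcases h with h | h | h <;> exact ⟨by omega, .inr (.inr ⟨by omega, by omega, by omega⟩)⟩

theorem de_gf (he : 0 ≤ e ∧ e ≤ 1) (g : 1 + e - 2 * (4 * j) ≤ l)
    (a : -4 * n ≤ X ∧ (-4 * n < X ∨ (X + Y) % 4 = 0 ∨ (X + Y) % 4 = 3 - 2 * e)) (b : 0 ≤ Y)
    (v : (-8 * j = -8 * j ∧ X' = -4 * n ∧ Y' = 0) ∨
      (-8 * j = -8 * j + 1 ∧ X' = -4 * n + 1 - e ∧ Y' = e) ∨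
      (-8 * j = -8 * j + 2 ∧ X' = -4 * n + 1 ∧ Y' = 1))
    (v' : (-8 * j + 1 = -8 * j ∧ X'' = -4 * n ∧ Y'' = 0) ∨
      (-8 * j + 1 = -8 * j + 1 ∧ X'' = -4 * n + 1 - e ∧ Y'' = e) ∨
      (-8 * j + 1 = -8 * j + 2 ∧ X'' = -4 * n + 1 ∧ Y'' = 1))
    (i : X = X' → Y = Y' → l = -8 * j) (i' : X = X'' → Y = Y'' → l = -8 * j + 1) :
    -2 * (2 * n) ≤ X ∧ (-2 * (2 * n) < X ∨
      (e < Y ∧ ((X + Y) % 4 = 0 ∨ (X + Y) % 4 = 3 - 2 * e))) := by
  obtain ⟨a, a' | a'⟩ := a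
  · clear v v' i i'
    exact ⟨by omega, .inl (by omega)⟩
  rcases a.eq_or_lt with c | c
  swap
  · clear v v' i i' a'
    exact ⟨by omega, .inl (by omega)⟩
  refine ⟨by clear v v' i i' a'; omega, .inr ⟨?_, a'⟩⟩
  clear a'
  replace v : X' = -4 * n ∧ Y' = 0 := by
    rcases v with v | v | v
    · exact v.2
    · exact absurd v.1 (by clear v' i i'; omega)
    · exact absurd v.1 (by clear v' i i'; omega)
  replace v' : X'' = -4 * n + 1 - e ∧ Y'' = e := by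
    rcases v' with v' | v' | v'
    · exact absurd v'.1 (by clear i i'; omega)
    · exact v'.2
    · exact absurd v'.1 (by clear i i'; omega)
  by_contra k
  rcases (by clear i i'; omega : Y = 0 ∨ (Y = 1 ∧ e = 1)) with k' | k'
  · have := i (by clear i i'; omega) (by clear i i'; omega)
    clear i i'
    omega
  · have := i' (by clear i i'; omega) (by clear i i'; omega)
    clear i i'
    omega

theorem de_lf1 (a : X ≤ -4 * n ∧ (X < -4 * n ∨ (X + Y) % 4 = 0 ∨ (X + Y) % 4 = 1 + 2 * e)) :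
    X ≤ 1 - 2 * (2 * n) ∧ (X < -2 * (2 * n) ∨
      (X = -2 * (2 * n) ∧ ((X + Y) % 4 = 0 ∨ (X + Y) % 4 = 1 + 2 * e)) ∨
      (-2 * (2 * n) ≤ X ∧ Y = e)) := by
  obtain ⟨a, a' | a'⟩ := a
  · exact ⟨by omega, .inl (by omega)⟩
  rcases a.eq_or_lt with c | c
  · exact ⟨by clear a'; omega, .inr (.inl ⟨by clear a'; omega, a'⟩)⟩
  · clear a'
    exact ⟨by omega, .inl (by omega)⟩

theorem de_lf2 (he : 0 ≤ e ∧ e ≤ 1) (g : l ≤ 1 + e - 2 * (4 * j)) (c : -8 * j < l)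
    (v : (l = -8 * j ∧ X = -4 * n ∧ Y = 0) ∨ (l = -8 * j + 1 ∧ X = -4 * n + 1 - e ∧ Y = e) ∨
      (l = -8 * j + 2 ∧ X = -4 * n + 1 ∧ Y = 1)) :
    X ≤ 1 - 2 * (2 * n) ∧ (X < -2 * (2 * n) ∨
      (X = -2 * (2 * n) ∧ ((X + Y) % 4 = 0 ∨ (X + Y) % 4 = 1 + 2 * e)) ∨
      (-2 * (2 * n) ≤ X ∧ Y = e)) := by
  rcases v with v | v | v <;> exact ⟨by omega, .inr (.inr ⟨by omega, by omega⟩)⟩

end

theorem exists_DE (a b : ℤ) (ha : a % 2 = 1) (hb : b % 4 = 0) (h1 : 5 * a < 3 * b)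
    (h2 : b < 2 * a) (hc : IsCoprime a b) : ∃ D : DE, D.a = a ∧ D.b = b := by
  obtain ⟨m, rfl⟩ : ∃ m, b = 4 * m := ⟨b / 4, by omega⟩
  obtain ⟨n, rfl⟩ : ∃ n, a = n + 2 * m := ⟨a - 2 * m, by ring⟩
  obtain ⟨x, y, hc⟩ := hc
  have c : IsCoprime n (-m) := ⟨x, -(2 * x + 4 * y), by linear_combination hc⟩
  obtain ⟨W0, -, gl⟩ := exists_WS 0 _ _ (by omega) c (.inl ⟨rfl, by omega⟩)
  generalize W0.toWB0 = W at gl
  obtain ⟨l0, k1, k2, k3, k4, k5, k6⟩ := gl.cross (by omega) (by omega)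
  obtain ⟨e, he, he'⟩ : ∃ e : ℤ, (e = 0 ∨ e = 1) ∧ (2 * m - n) % 4 = 1 + 2 * e :=
    ⟨(2 * m - n) % 4 / 2, by omega, by omega⟩
  have hq := W.qpos
  have rel := W.toUC.qw_rel he
  have four := fun t l => W.toUC.qw_four he (t := t) (l := l)
  have rel' := fun t l => W.toUC.qw_rel' he (t := t) (l := l)
  have inj := (W.toUC.quad he).inj
  have sym := (W.toUC.quad he).symA
  dsimp only [UC.quad] at inj sym
  have mF : ∀ l, (-2 * W.q ≤ l → -2 * n ≤ (W.w l).1 + (W.w l).2) ∧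
      (l ≤ -2 * W.q → (W.w l).1 + (W.w l).2 ≤ -2 * n) := fun l => by
    have b := W.monoA (l + 2 * W.q)
    have a := W.per1 l
    exact ⟨fun h => by linarith only [b.1 (by linarith only [h]), a.1, a.2],
      fun h => by linarith only [b.2.1 (by linarith only [h]), a.1, a.2]⟩
  have p0 := W.per1 (-2 * W.q)
  rw [show -2 * W.q + 2 * W.q = 0 by ring, W.w0] at p0
  have p1 : (W.w (-2 * W.q + 1)).1 = -n ∧ (W.w (-2 * W.q + 1)).2 = 1 - n := by
    have s := W.toUC.stc (-2 * W.q)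
    have := (mF (-2 * W.q + 1)).1 (by omega)
    have := W.strip (-2 * W.q + 1)
    dsimp only [WB0.toUC] at s
    omega
  have s0 := W.strip l0
  have s1 := W.strip (l0 + 1)
  have hβ := (mF W.β).1
  rw [W.wβ] at hβ
  have vJ : ∀ t, 4 * l0 < t → t < 4 * l0 + 4 →
      (t = 4 * l0 + 1 ∧ (W.toUC.qw e t).1 = n + 2 * (W.w l0).1 - e ∧
        (W.toUC.qw e t).2 = n - 2 * (W.w l0).1 - 1 + e) ∨
      (t = 4 * l0 + 2 ∧ (W.toUC.qw e t).1 = n + 2 * (W.w l0).1 ∧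
        (W.toUC.qw e t).2 = n - 2 * (W.w l0).1) ∨
      (t = 4 * l0 + 3 ∧ (W.toUC.qw e t).1 = n + 2 * (W.w l0).1 + e ∧
        (W.toUC.qw e t).2 = n - 2 * (W.w l0).1 + 1 - e) := fun t a b => by
    have r := rel' t l0 a b
    rcases (by omega : t = 4 * l0 + 1 ∨ t = 4 * l0 + 2 ∨ t = 4 * l0 + 3) with c | c | c
    · have g := r.one (by omega)
      dsimp only [WB0.toUC] at g ⊢
      exact .inl ⟨c, de_j1 k2 k3 k4 g⟩
    · have g := r.two (by omega)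
      dsimp only [WB0.toUC] at g ⊢
      exact .inr (.inl ⟨c, de_j2 k2 k3 k4 g⟩)
    · have g := r.three (by omega)
      dsimp only [WB0.toUC] at g ⊢
      exact .inr (.inr ⟨c, de_j3 k2 k3 k4 g⟩)
  have vF : ∀ t, -8 * W.q ≤ t → t ≤ -8 * W.q + 2 →
      (t = -8 * W.q ∧ (W.toUC.qw e t).1 = -4 * n ∧ (W.toUC.qw e t).2 = 0) ∨
      (t = -8 * W.q + 1 ∧ (W.toUC.qw e t).1 = -4 * n + 1 - e ∧ (W.toUC.qw e t).2 = e) ∨
      (t = -8 * W.q + 2 ∧ (W.toUC.qw e t).1 = -4 * n + 1 ∧ (W.toUC.qw e t).2 = 1) := fun t a b => by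
    rcases (by omega : t = -8 * W.q ∨ t = -8 * W.q + 1 ∨ t = -8 * W.q + 2) with c | c | c
    · have g := four t (-2 * W.q) (by omega)
      dsimp only [WB0.toUC] at g ⊢
      exact .inl ⟨c, de_f0 p0 g⟩
    · have g := (rel' t (-2 * W.q) (by omega) (by omega)).one (by omega)
      dsimp only [WB0.toUC] at g ⊢
      exact .inr (.inl ⟨c, de_f1 p0 p1 g⟩)
    · have g := (rel' t (-2 * W.q) (by omega) (by omega)).two (by omega)
      dsimp only [WB0.toUC] at g ⊢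
      exact .inr (.inr ⟨c, de_f2 p0 p1 g⟩)
  refine ⟨⟨n + 2 * m, 4 * m, 2 * n, 2 * m - n, n - 2 * (W.w l0).1, e, 4 * l0 + 1 + 2 * e,
    by omega, (W.toUC.quad he).cast (by ext <;> simp only <;> ring), ?_, ?_, ?_, ?_, ?_,
    fun l => ?_, fun l g => ?_, fun l g => ?_, fun l g => ?_, fun l g => ?_, fun l g => ?_,
    fun l g => ?_, fun l g => ?_, fun l g => ?_⟩, rfl, rfl⟩
  all_goals dsimp only [UC.cast, UC.quad] at *
  · dsimp only [WB0.toUC] at *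
    omega
  all_goals
    clear ha hb h1 h2 hc c he' s0 s1 hβ k3 k4 gl
    replace he : 0 ≤ e ∧ e ≤ 1 := by omega
  · have := four _ W.q rfl
    dsimp only [WB0.toUC] at this ⊢
    rw [W.wq] at this
    ext <;> simp only at this ⊢ <;> omega
  · have := four _ W.β rfl
    dsimp only [WB0.toUC] at this ⊢
    rw [W.wβ] at this
    ext <;> simp only at this ⊢ <;> omega
  · have := vJ (4 * l0 + 1 + 2 * e) (by omega) (by omega)
    ext <;> simp only <;> omega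
  · have := vF (1 + e - 2 * (4 * W.toUC.q)) (by dsimp only [WB0.toUC]; omega)
      (by dsimp only [WB0.toUC]; omega)
    have : W.toUC.q = W.q := rfl
    ext <;> simp only <;> omega
  · have s := W.strip (l / 4)
    have s' := W.strip ((l + 3) / 4)
    have a := (rel l).geY (c := 0) (by dsimp only [WB0.toUC]; omega)
      (by dsimp only [WB0.toUC]; omega)
    have b := (rel l).leY (c := 2 * n) (by dsimp only [WB0.toUC]; omega)
      (by dsimp only [WB0.toUC]; omega)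
    exact ⟨a.1, b.1, a.2, b.2⟩
  · change 4 * W.β ≤ l at g
    have s := (W.monoB (l / 4)).1 (by omega)
    have s' := (W.monoB ((l + 3) / 4)).1 (by omega)
    exact (rel l).geX (by dsimp only [WB0.toUC]; omega) (by dsimp only [WB0.toUC]; omega)
  · change 4 * W.β + 4 * W.q ≤ l at g
    have s := (W.monoB (l / 4)).2.2.1 (by omega)
    have s' := (W.monoB ((l + 3) / 4)).2.2.1 (by omega)
    exact ((rel l).geX (by dsimp only [WB0.toUC]; omega) (by dsimp only [WB0.toUC]; omega)).1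
  · have s := (W.monoA (l / 4)).2.1 (by omega)
    have s' := (W.monoA ((l + 3) / 4)).2.1 (by omega)
    exact (rel l).leX (by dsimp only [WB0.toUC]; omega) (by dsimp only [WB0.toUC]; omega)
  · change l ≤ -(4 * W.q) at g
    have s := (W.monoA (l / 4)).2.2.2.1 (by omega)
    have s' := (W.monoA ((l + 3) / 4)).2.2.2.1 (by omega)
    exact ((rel l).leX (by dsimp only [WB0.toUC]; omega) (by dsimp only [WB0.toUC]; omega)).1
  · rcases le_or_gt l (4 * l0) with c | c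
    · have s := k5 (l / 4) (by omega)
      have s' := k5 ((l + 3) / 4) (by omega)
      exact de_lo1 he k2 ((rel l).leS (c := (W.w l0).2) (by dsimp only [WB0.toUC]; omega)
        (by dsimp only [WB0.toUC]; omega))
    · exact de_lo2 he g (vJ l c (by omega))
  · rcases le_or_gt l (-4 * l0 - 4) with c | c
    · have s := k6 (l / 4) (by omega)
      have s' := k6 ((l + 3) / 4) (by omega)
      exact de_hr1 he k2 ((rel l).geD (c := (W.w l0).2 + 1) (by dsimp only [WB0.toUC]; omega)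
        (by dsimp only [WB0.toUC]; omega))
    · have := sym (-l) (by omega) (by dsimp only [WB0.toUC]; omega)
      rw [neg_neg] at this
      exact de_hr2 he g (vJ (-l) (by omega) (by omega)) this
  · change 1 + e - 2 * (4 * W.q) ≤ l at g
    have s := (mF (l / 4)).1 (by omega)
    have s' := (mF ((l + 3) / 4)).1 (by omega)
    have t := W.strip (l / 4)
    have t' := W.strip ((l + 3) / 4)
    exact de_gf he g ((rel l).geX (c := -4 * n) (by dsimp only [WB0.toUC]; omega)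
      (by dsimp only [WB0.toUC]; omega)) ((rel l).geY (c := 0) (by dsimp only [WB0.toUC]; omega)
      (by dsimp only [WB0.toUC]; omega)).1 (vF (-8 * W.q) (by omega) (by omega))
      (vF (-8 * W.q + 1) (by omega) (by omega)) (inj l (-8 * W.q)) (inj l (-8 * W.q + 1))
  · change l ≤ 1 + e - 2 * (4 * W.q) at g
    rcases le_or_gt l (-8 * W.q) with c | c
    · have s := (mF (l / 4)).2 (by omega)
      have s' := (mF ((l + 3) / 4)).2 (by omega)
      exact de_lf1 ((rel l).leX (c := -4 * n) (by dsimp only [WB0.toUC]; omega)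
        (by dsimp only [WB0.toUC]; omega))
    · exact de_lf2 he g c (vF l (by omega) (by omega))

end NP
end Pool.Agent.Lib.MP_4a7072_co
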