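import Pool.Agent.Lib.MP_4a7072_co.FEBase

/-!
A design for an odd shorter leg `a` and `5 a < 3 b < 6 a`: words and envelopes.
-/

set_option autoImplicit false
set_option linter.unnecessarySeqFocus false
set_option linter.unusedSimpArgs false
set_option linter.unusedVariables false
set_option linter.unreachableTactic false
set_option linter.unusedTactic false

namespace Pool.Agent.Lib.MP_4a7072_co
namespace NP


namespace DE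

variable (D : DE)

theorem aux : D.a = D.d + D.h ∧ D.b = D.d + 2 * D.h ∧ D.d % 4 = 2 ∧ 0 ≤ D.e ∧ D.e ≤ 1 ∧ D.h % 4 = 1 + 2 * D.e ∧ 0 < D.d ∧ 2 * D.d < D.h ∧ D.k % 2 = 1 ∧ 0 < D.k ∧ D.k < D.d := D.aux'

theorem ord : D.C.β < -2 * D.C.q ∧ 0 < D.J ∧ D.J < D.C.q ∧ 4 ≤ D.C.q := D.ord'

theorem wnJ : D.C.w (-D.J) = (1 - D.e - D.k, D.d + D.e - D.k) := by
  have := D.ord
  have := D.C.symA D.J (by omega) (by omega)
  rw [D.wJ] at this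
  ext <;> simp only at this ⊢ <;> omega

theorem wβq : D.C.w (D.C.β + D.C.q) = (-2 * D.h, D.d) := by
  have h1 := D.C.symB _ D.C.qpos.le le_rfl
  have h2 := D.C.per' (D.C.β - D.C.q)
  rw [show D.C.β - D.C.q + 2 * D.C.q = D.C.β + D.C.q by ring] at h2
  rw [D.wβ] at h1
  ext <;> simp only at h1 h2 ⊢ <;> omega

/-- A part of the curve. -/
def L : List Dir := D.C.Z D.C.β D.J

/-- A part of the curve. -/
def M : List Dir := D.C.Z (1 + D.e - 2 * D.C.q) D.J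

/-- A part of the curve. -/
def B : List Dir := D.C.Z D.C.β (1 + D.e - 2 * D.C.q)

/-- A part of the curve. -/
def O : List Dir := D.C.Z D.C.β (-D.J)

/-- A part of the curve. -/
def U : List Dir := D.C.Z (1 + D.e - 2 * D.C.q) (-D.J)

/-- A part of the curve. -/
def K : List Dir := D.C.Z (1 + D.e - 2 * D.C.q) 0

/-- A part of the curve. -/
def A : List Dir := D.C.Z (-D.J) 0

/-- A part of the curve. -/
def I : List Dir := D.C.Z 0 D.J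

/-- A part of the curve. -/
def P : List Dir := D.C.Z (D.C.β + D.C.q) D.J

/-- A part of the curve. -/
def G : List Dir := D.C.Z D.J D.C.q

/-- A part of the curve. -/
def T : List Dir := D.C.Z D.C.β (D.C.β + D.C.q)

/-- A staircase. -/
def F : List Dir := stv D.e (2 * D.k - 1)

/-- The points of a part of the curve. -/
def PL (X Y : ℤ) : Prop := D.C.On D.C.β D.J X Y

variable {D} in
theorem PL.on {X Y : ℤ} (h : D.PL X Y) : D.C.On D.C.β D.J X Y := h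

theorem arcL : CArc (-D.d - 2 * D.h, 0) D.L (D.d + D.e - D.k, D.e + D.k - 1) D.PL :=
  (D.C.arc (by have := D.ord; have := D.aux; omega)).mv (D.wβ.trans (by ext <;> dsimp only <;> omega))
    (D.wJ.trans (by ext <;> dsimp only <;> omega)) fun _ _ h => h

variable {D} in
theorem PL.lin {X Y : ℤ} (h : D.PL X Y) :
    0 ≤ Y ∧ Y ≤ D.d ∧ (0 < Y ∨ (X + Y) % 4 = 0 ∨ (X + Y) % 4 = 1 + 2 * D.e) ∧ (Y < D.d ∨ (X + Y) % 4 = 0 ∨ (X + Y) % 4 = 3 - 2 * D.e) ∧ -D.d - 2 * D.h ≤ X ∧ (-D.d - 2 * D.h < X ∨ (X + Y) % 4 = 0 ∨ (X + Y) % 4 = 3 - 2 * D.e) ∧ X + Y ≤ D.d + D.e ∧ (X + Y ≤ D.d - 2 ∨ (X + Y = D.d - 1 ∧ X % 2 = D.e) ∨ (Y = D.k - 1 + D.e ∧ D.d - D.k - D.e ≤ X ∧ X ≤ D.d - D.k + D.e)) := by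
  obtain ⟨l, h1, h2, rfl, rfl⟩ := h
  have s := D.st l
  have g := D.ge l h1
  exact ⟨s.1, s.2.1, s.2.2.1, s.2.2.2, g.1, g.2, D.lo l h2⟩

/-- The points of a part of the curve. -/
def PM (X Y : ℤ) : Prop := D.C.On (1 + D.e - 2 * D.C.q) D.J X Y

variable {D} in
theorem PM.on {X Y : ℤ} (h : D.PM X Y) : D.C.On (1 + D.e - 2 * D.C.q) D.J X Y := h

theorem arcM : CArc (-2 * D.d + 1, D.e) D.M (D.d + D.e - D.k, D.e + D.k - 1) D.PM :=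
  (D.C.arc (by have := D.ord; have := D.aux; omega)).mv (D.wF.trans (by ext <;> dsimp only <;> omega))
    (D.wJ.trans (by ext <;> dsimp only <;> omega)) fun _ _ h => h

variable {D} in
theorem PM.lin {X Y : ℤ} (h : D.PM X Y) :
    0 ≤ Y ∧ Y ≤ D.d ∧ (0 < Y ∨ (X + Y) % 4 = 0 ∨ (X + Y) % 4 = 1 + 2 * D.e) ∧ (Y < D.d ∨ (X + Y) % 4 = 0 ∨ (X + Y) % 4 = 3 - 2 * D.e) ∧ -2 * D.d ≤ X ∧ (-2 * D.d < X ∨ (D.e < Y ∧ ((X + Y) % 4 = 0 ∨ (X + Y) % 4 = 3 - 2 * D.e))) ∧ X + Y ≤ D.d + D.e ∧ (X + Y ≤ D.d - 2 ∨ (X + Y = D.d - 1 ∧ X % 2 = D.e) ∨ (Y = D.k - 1 + D.e ∧ D.d - D.k - D.e ≤ X ∧ X ≤ D.d - D.k + D.e)) := by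
  obtain ⟨l, h1, h2, rfl, rfl⟩ := h
  have s := D.st l
  have g := D.gf l h1
  exact ⟨s.1, s.2.1, s.2.2.1, s.2.2.2, g.1, g.2, D.lo l h2⟩

/-- The points of a part of the curve. -/
def PB (X Y : ℤ) : Prop := D.C.On D.C.β (1 + D.e - 2 * D.C.q) X Y

variable {D} in
theorem PB.on {X Y : ℤ} (h : D.PB X Y) : D.C.On D.C.β (1 + D.e - 2 * D.C.q) X Y := h

theorem arcB : CArc (-D.d - 2 * D.h, 0) D.B (-2 * D.d + 1, D.e) D.PB :=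
  (D.C.arc (by have := D.ord; have := D.aux; omega)).mv (D.wβ.trans (by ext <;> dsimp only <;> omega))
    (D.wF.trans (by ext <;> dsimp only <;> omega)) fun _ _ h => h

variable {D} in
theorem PB.lin {X Y : ℤ} (h : D.PB X Y) :
    0 ≤ Y ∧ Y ≤ D.d ∧ (0 < Y ∨ (X + Y) % 4 = 0 ∨ (X + Y) % 4 = 1 + 2 * D.e) ∧ (Y < D.d ∨ (X + Y) % 4 = 0 ∨ (X + Y) % 4 = 3 - 2 * D.e) ∧ -D.d - 2 * D.h ≤ X ∧ (-D.d - 2 * D.h < X ∨ (X + Y) % 4 = 0 ∨ (X + Y) % 4 = 3 - 2 * D.e) ∧ X ≤ 1 - 2 * D.d ∧ (X < -2 * D.d ∨ (X = -2 * D.d ∧ ((X + Y) % 4 = 0 ∨ (X + Y) % 4 = 1 + 2 * D.e)) ∨ (-2 * D.d ≤ X ∧ Y = D.e)) := by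
  obtain ⟨l, h1, h2, rfl, rfl⟩ := h
  have s := D.st l
  have g := D.ge l h1
  exact ⟨s.1, s.2.1, s.2.2.1, s.2.2.2, g.1, g.2, D.lf l h2⟩

/-- The points of a part of the curve. -/
def PO (X Y : ℤ) : Prop := D.C.On D.C.β (-D.J) X Y

variable {D} in
theorem PO.on {X Y : ℤ} (h : D.PO X Y) : D.C.On D.C.β (-D.J) X Y := h

theorem arcO : CArc (-D.d - 2 * D.h, 0) D.O (-D.e - D.k + 1, D.d + D.e - D.k) D.PO :=
  (D.C.arc (by have := D.ord; have := D.aux; omega)).mv (D.wβ.trans (by ext <;> dsimp only <;> omega))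
    (D.wnJ.trans (by ext <;> dsimp only <;> omega)) fun _ _ h => h

variable {D} in
theorem PO.lin {X Y : ℤ} (h : D.PO X Y) :
    0 ≤ Y ∧ Y ≤ D.d ∧ (0 < Y ∨ (X + Y) % 4 = 0 ∨ (X + Y) % 4 = 1 + 2 * D.e) ∧ (Y < D.d ∨ (X + Y) % 4 = 0 ∨ (X + Y) % 4 = 3 - 2 * D.e) ∧ -D.d - 2 * D.h ≤ X ∧ (-D.d - 2 * D.h < X ∨ (X + Y) % 4 = 0 ∨ (X + Y) % 4 = 3 - 2 * D.e) ∧ D.d - 1 + 2 * D.e ≤ Y - X ∧ (D.d + 2 ≤ Y - X ∨ (Y - X = D.d + 1 ∧ Y % 2 = D.e) ∨ (Y = D.d - D.k + D.e ∧ D.e - D.k - 1 ≤ X ∧ X ≤ 1 - D.k - D.e)) := by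
  obtain ⟨l, h1, h2, rfl, rfl⟩ := h
  have s := D.st l
  have g := D.ge l h1
  exact ⟨s.1, s.2.1, s.2.2.1, s.2.2.2, g.1, g.2, D.hr l h2⟩

/-- The points of a part of the curve. -/
def PU (X Y : ℤ) : Prop := D.C.On (1 + D.e - 2 * D.C.q) (-D.J) X Y

variable {D} in
theorem PU.on {X Y : ℤ} (h : D.PU X Y) : D.C.On (1 + D.e - 2 * D.C.q) (-D.J) X Y := h

theorem arcU : CArc (-2 * D.d + 1, D.e) D.U (-D.e - D.k + 1, D.d + D.e - D.k) D.PU :=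
  (D.C.arc (by have := D.ord; have := D.aux; omega)).mv (D.wF.trans (by ext <;> dsimp only <;> omega))
    (D.wnJ.trans (by ext <;> dsimp only <;> omega)) fun _ _ h => h

variable {D} in
theorem PU.lin {X Y : ℤ} (h : D.PU X Y) :
    0 ≤ Y ∧ Y ≤ D.d ∧ (0 < Y ∨ (X + Y) % 4 = 0 ∨ (X + Y) % 4 = 1 + 2 * D.e) ∧ (Y < D.d ∨ (X + Y) % 4 = 0 ∨ (X + Y) % 4 = 3 - 2 * D.e) ∧ -2 * D.d ≤ X ∧ (-2 * D.d < X ∨ (D.e < Y ∧ ((X + Y) % 4 = 0 ∨ (X + Y) % 4 = 3 - 2 * D.e))) ∧ D.d - 1 + 2 * D.e ≤ Y - X ∧ (D.d + 2 ≤ Y - X ∨ (Y - X = D.d + 1 ∧ Y % 2 = D.e) ∨ (Y = D.d - D.k + D.e ∧ D.e - D.k - 1 ≤ X ∧ X ≤ 1 - D.k - D.e)) := by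
  obtain ⟨l, h1, h2, rfl, rfl⟩ := h
  have s := D.st l
  have g := D.gf l h1
  exact ⟨s.1, s.2.1, s.2.2.1, s.2.2.2, g.1, g.2, D.hr l h2⟩

/-- The points of a part of the curve. -/
def PK (X Y : ℤ) : Prop := D.C.On (1 + D.e - 2 * D.C.q) 0 X Y

variable {D} in
theorem PK.on {X Y : ℤ} (h : D.PK X Y) : D.C.On (1 + D.e - 2 * D.C.q) 0 X Y := h

theorem arcK : CArc (-2 * D.d + 1, D.e) D.K (0, 0) D.PK :=
  (D.C.arc (by have := D.ord; have := D.aux; omega)).mv (D.wF.trans (by ext <;> dsimp only <;> omega))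
    (D.C.w0.trans (by ext <;> dsimp only <;> omega)) fun _ _ h => h

variable {D} in
theorem PK.lin {X Y : ℤ} (h : D.PK X Y) :
    0 ≤ Y ∧ Y ≤ D.d ∧ (0 < Y ∨ (X + Y) % 4 = 0 ∨ (X + Y) % 4 = 1 + 2 * D.e) ∧ (Y < D.d ∨ (X + Y) % 4 = 0 ∨ (X + Y) % 4 = 3 - 2 * D.e) ∧ -2 * D.d ≤ X ∧ (-2 * D.d < X ∨ (D.e < Y ∧ ((X + Y) % 4 = 0 ∨ (X + Y) % 4 = 3 - 2 * D.e))) ∧ X ≤ 0 ∧ (X < 0 ∨ (X + Y) % 4 = 0 ∨ (X + Y) % 4 = 1 + 2 * D.e) := by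
  obtain ⟨l, h1, h2, rfl, rfl⟩ := h
  have s := D.st l
  have g := D.gf l h1
  exact ⟨s.1, s.2.1, s.2.2.1, s.2.2.2, g.1, g.2, D.le l h2⟩

/-- The points of a path. -/
def Le (X Y : ℤ) : Prop := 0 ≤ X ∧ X ≤ D.e ∧ Y = 0

variable {D} in
theorem Le.lin {X Y : ℤ} (h : D.Le X Y) : 0 ≤ X ∧ X ≤ D.e ∧ Y = 0 := h

theorem arcLe : CArc (0, 0) (ea D.e) (D.e, 0) D.Le := by
  have := D.aux
  exact (ea_arc (by omega)).mv rfl (by ext <;> dsimp only <;> omega) fun X Y h => ⟨h.1, by omega, h.2.2⟩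

/-- The points of a path. -/
def L1 (_ : DE) (X Y : ℤ) : Prop := 0 ≤ X ∧ X ≤ 1 ∧ Y = 0

variable {D} in
theorem L1.lin {X Y : ℤ} (h : D.L1 X Y) : 0 ≤ X ∧ X ≤ 1 ∧ Y = 0 := h

theorem arcL1 : CArc (0, 0) (ea 1) (1, 0) D.L1 := by
  have := D.aux
  exact (ea_arc (by omega)).mv rfl (by ext <;> dsimp only <;> omega) fun X Y h => ⟨h.1, by omega, h.2.2⟩

/-- The points of a path. -/
def Lu (X Y : ℤ) : Prop := 0 ≤ X ∧ X ≤ D.h - 2 * D.d - D.e + 1 ∧ Y = 0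

variable {D} in
theorem Lu.lin {X Y : ℤ} (h : D.Lu X Y) : 0 ≤ X ∧ X ≤ D.h - 2 * D.d - D.e + 1 ∧ Y = 0 := h

theorem arcLu : CArc (0, 0) (ea (D.h - 2 * D.d - D.e + 1)) (D.h - 2 * D.d - D.e + 1, 0) D.Lu := by
  have := D.aux
  exact (ea_arc (by omega)).mv rfl (by ext <;> dsimp only <;> omega) fun X Y h => ⟨h.1, by omega, h.2.2⟩

/-- The points of a path. -/
def Lf (X Y : ℤ) : Prop := 0 ≤ X ∧ X ≤ D.e + 1 ∧ Y = 0

variable {D} in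
theorem Lf.lin {X Y : ℤ} (h : D.Lf X Y) : 0 ≤ X ∧ X ≤ D.e + 1 ∧ Y = 0 := h

theorem arcLf : CArc (0, 0) (ea (D.e + 1)) (D.e + 1, 0) D.Lf := by
  have := D.aux
  exact (ea_arc (by omega)).mv rfl (by ext <;> dsimp only <;> omega) fun X Y h => ⟨h.1, by omega, h.2.2⟩

/-- The points of a path. -/
def La (X Y : ℤ) : Prop := 0 ≤ X ∧ X ≤ D.d + D.h ∧ Y = 0

variable {D} in
theorem La.lin {X Y : ℤ} (h : D.La X Y) : 0 ≤ X ∧ X ≤ D.d + D.h ∧ Y = 0 := h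

theorem arcLa : CArc (0, 0) (ea D.a) (D.d + D.h, 0) D.La := by
  have := D.aux
  exact (ea_arc (by omega)).mv rfl (by ext <;> dsimp only <;> omega) fun X Y h => ⟨h.1, by omega, h.2.2⟩

/-- The points of a path. -/
def Lb (X Y : ℤ) : Prop := 0 ≤ X ∧ X ≤ D.d + 2 * D.h ∧ Y = 0

variable {D} in
theorem Lb.lin {X Y : ℤ} (h : D.Lb X Y) : 0 ≤ X ∧ X ≤ D.d + 2 * D.h ∧ Y = 0 := h

theorem arcLb : CArc (0, 0) (ea D.b) (D.d + 2 * D.h, 0) D.Lb := by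
  have := D.aux
  exact (ea_arc (by omega)).mv rfl (by ext <;> dsimp only <;> omega) fun X Y h => ⟨h.1, by omega, h.2.2⟩

/-- The points of a path. -/
def Ls (X Y : ℤ) : Prop := 0 ≤ Y - X ∧ Y - X ≤ 2 * D.k - 1 ∧ (X + Y = 0 ∨ ((X + Y = 1 ∨ X + Y = -1) ∧ X % 2 = 1 - D.e))

variable {D} in
theorem Ls.lin {X Y : ℤ} (h : D.Ls X Y) : 0 ≤ Y - X ∧ Y - X ≤ 2 * D.k - 1 ∧ (X + Y = 0 ∨ ((X + Y = 1 ∨ X + Y = -1) ∧ X % 2 = 1 - D.e)) := h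

theorem arcLs : CArc (0, 0) D.F (D.e - D.k, D.e + D.k - 1) D.Ls := by
  have := D.aux
  exact stv_arc (by omega) (by omega) (by omega)

section

variable {X1 Y1 X2 Y2 j j' : ℤ}

theorem sB (a : D.C.On D.C.β j X1 Y1) (b : D.C.On D.C.β j' X2 Y2)
    (e : X2 = Y1 - (D.d + 2 * D.h) ∧ Y2 = -D.d - 2 * D.h - X1) :
    X1 = -D.d - 2 * D.h ∧ Y1 = 0 := by
  have := D.aux
  obtain ⟨l, a1, a2, rfl, rfl⟩ := a
  obtain ⟨l', b1, b2, rfl, rfl⟩ := b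
  have s := D.st l
  have s' := D.st l'
  have m := (D.ge l a1).1
  by_cases g : l' ≤ D.C.β + D.C.q
  · have y := D.C.symB (l' - D.C.β) (by omega) (by omega)
    rw [add_sub_cancel, D.wβ] at y
    have := D.C.inj l (D.C.β - (l' - D.C.β)) (by simp only at y; omega) (by simp only at y; omega)
    rw [show l = D.C.β by omega, D.wβ]
    exact ⟨rfl, rfl⟩
  · have := D.ge' l' (by omega)
    omega

theorem sA (a : D.PK X1 Y1) (b : D.PK X2 Y2) (e : X2 = Y1 ∧ Y2 = -X1) : X1 = 0 ∧ Y1 = 0 := by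
  have := D.aux
  obtain ⟨l, a1, a2, rfl, rfl⟩ := a
  obtain ⟨l', b1, b2, rfl, rfl⟩ := b
  have s := D.st l
  have s' := D.st l'
  have m := (D.le l' b2).1
  by_cases g : -D.C.q ≤ l
  · have y := D.C.symA (-l) (by omega) (by omega)
    rw [neg_neg] at y
    have := D.C.inj l' (-l) (by omega) (by omega)
    rw [show l = 0 by omega]
    exact D.C.w0'
  · have := D.le' l (by omega)
    omega

theorem sF (a : D.PB X1 Y1) (b : D.PU X2 Y2) (e : X2 = X1 ∧ Y2 = Y1) :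
    X1 = -2 * D.d + 1 ∧ Y1 = D.e := by
  obtain ⟨rfl, rfl⟩ := e
  have := UC.On.meet a b
  rwa [D.wF] at this

end

/-- A part of a boundary: its points. -/
def MU (X Y : ℤ) : Prop :=
  ((D.Le X Y ∨
    D.L1 (0 - Y) (X - D.e)) ∨
    D.Lu (X - D.e) (Y - (-1))) ∨
    D.Lf (Y - (-1)) ((D.h - 2 * D.d + 1) - X)

/-- A part of a boundary: its word. -/
def μ : List Dir :=
  (ea D.e) ++ rot 3 (ea 1) ++ (ea (D.h - 2 * D.d - D.e + 1)) ++ rot 1 (ea (D.e + 1))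

variable {D} in
theorem MU.lin {X Y : ℤ} (h : D.MU X Y) :
    -1 ≤ Y ∧ Y ≤ D.e ∧ 0 ≤ X ∧ X ≤ D.h - 2 * D.d + 1 ∧ ((Y = 0 ∧ X ≤ D.e) ∨ (Y = -1 ∧ D.e ≤ X) ∨ X = D.h - 2 * D.d + 1) := by
  have := D.aux
  rcases h with ((h | h) | h) | h
  · have := h.lin; omega
  · have := h.lin; omega
  · have := h.lin; omega
  · have := h.lin; omega

/-- A part of a boundary: its points. -/
def A0 (X Y : ℤ) : Prop :=
  (D.PL (Y - (D.d + 2 * D.h)) ((D.d + D.h) - X) ∨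
    D.Ls (Y - (2 * D.d + 2 * D.h)) ((D.d + D.h) - X)) ∨
    D.Ls (X - (D.d + D.h)) (Y - (2 * D.d + 2 * D.h))

/-- A part of a boundary: its word. -/
def wA0 : List Dir :=
  rot 1 D.L ++ back 1 D.F ++ D.F

variable {D} in
theorem A0.lin {X Y : ℤ} (h : D.A0 X Y) :
    X ≤ D.d + D.h ∧ -X ≤ -D.h ∧ Y ≤ 2 * D.d + 2 * D.h + D.k ∧ -Y ≤ 0 ∧ X + Y ≤ 3 * D.d + 3 * D.h + 1 ∧ -X - Y ≤ -D.h - 1 ∧ Y - X ≤ D.d + D.h + 2 * D.k - 1 ∧ X - Y ≤ D.d + D.h := by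
  have := D.aux
  rcases h with (h | h) | h
  · have := h.lin; omega
  · have := h.lin; omega
  · have := h.lin; omega

/-- A part of a boundary: its points. -/
def PI (X Y : ℤ) : Prop :=
  (D.PM (X - D.h) (Y - (2 * D.d + 2 * D.h)) ∨
    D.MU (X - 0) (Y - (2 * D.d + 2 * D.h))) ∨
    D.MU (Y - (2 * D.d + 2 * D.h)) (0 - X)

/-- A part of a boundary: its word. -/
def π : List Dir :=
  back 0 D.M ++ back 0 D.μ ++ rot 1 D.μ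

variable {D} in
theorem PI.lin {X Y : ℤ} (h : D.PI X Y) :
    X ≤ D.d + D.e + D.h - 1 ∧ -X ≤ D.e ∧ (Y ≤ 3 * D.d + 2 * D.h ∨ Y ≤ 3 * D.h + 1) ∧ -Y ≤ -2 * D.d - 2 * D.h + 1 ∧ X + Y ≤ 3 * D.d + 2 * D.e + 3 * D.h - 1 ∧ -X - Y ≤ -2 * D.d - D.e - 2 * D.h + 1 ∧ (Y - X ≤ 7 * D.d + D.h - 3 ∨ Y - X ≤ D.e + 3 * D.h + 1) ∧ X - Y ≤ -D.d - D.h - 1 := by
  have := D.aux
  rcases h with (h | h) | h
  · have := h.lin; omega
  · have := h.lin; omega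
  · have := h.lin; omega

/-- A part of a boundary: its points. -/
def QA (X Y : ℤ) : Prop :=
  (D.A0 X Y ∨
    D.PI X Y) ∨
    D.PB (Y - (2 * D.d + 3 * D.h)) (0 - X)

/-- A part of a boundary: its word. -/
def qa : List Dir :=
  D.wA0 ++ D.π ++ back 1 D.B

variable {D} in
theorem QA.lin {X Y : ℤ} (h : D.QA X Y) :
    X ≤ D.d + D.h ∧ -X ≤ D.d ∧ Y ≤ 3 * D.d + 3 * D.e + 3 * D.h - 1 ∧ -Y ≤ 0 ∧ X + Y ≤ 3 * D.d + 3 * D.h + 1 ∧ -X - Y ≤ -D.h - 1 ∧ Y - X ≤ D.d + 3 * D.h ∧ X - Y ≤ D.d + D.h := by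
  have := D.aux
  rcases h with (h | h) | h
  · have := h.lin; omega
  · have := h.lin; omega
  · have := h.lin; omega

/-- A part of a boundary: its points. -/
def A3 (X Y : ℤ) : Prop :=
  (D.QA X Y ∨
    D.QA (Y - 0) (0 - X)) ∨
    D.QA (0 - X) (0 - Y)

/-- A part of a boundary: its word. -/
def wA3 : List Dir :=
  D.qa ++ rot 1 D.qa ++ rot 2 D.qa

variable {D} in
theorem A3.lin {X Y : ℤ} (h : D.A3 X Y) :
    X ≤ D.d + D.h ∧ -X ≤ 2 * D.d + 3 * D.h ∧ Y ≤ 2 * D.d + 3 * D.h ∧ -Y ≤ 2 * D.d + 3 * D.h ∧ X + Y ≤ 3 * D.d + 3 * D.h + 1 ∧ -X - Y ≤ 3 * D.d + 3 * D.h + 1 ∧ Y - X ≤ 3 * D.d + 3 * D.h + 1 ∧ X - Y ≤ D.d + 3 * D.h := by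
  have := D.aux
  rcases h with (h | h) | h
  · have := h.lin; omega
  · have := h.lin; omega
  · have := h.lin; omega

/-- A part of a boundary: its points. -/
def RR (X Y : ℤ) : Prop :=
  (D.L1 (0 - X) ((-D.d - D.h) - Y) ∨
    D.La (Y - (-D.d - D.h)) ((-1) - X)) ∨
    D.L1 (X - (-1)) (Y - 0)

/-- A part of a boundary: its word. -/
def wR : List Dir :=
  rot 2 (ea 1) ++ rot 1 (ea D.a) ++ (ea 1)

variable {D} in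
theorem RR.lin {X Y : ℤ} (h : D.RR X Y) :
    X ≤ 0 ∧ -X ≤ 1 ∧ Y ≤ 0 ∧ -Y ≤ D.d + D.h ∧ X + Y ≤ 0 ∧ -X - Y ≤ D.d + D.h + 1 ∧ Y - X ≤ 1 ∧ X - Y ≤ D.d + D.h := by
  have := D.aux
  rcases h with (h | h) | h
  · have := h.lin; omega
  · have := h.lin; omega
  · have := h.lin; omega

/-- A part of a boundary: its points. -/
def RA (X Y : ℤ) : Prop :=
  D.RR X Y ∨
    D.RR (Y - 0) (0 - X)

/-- A part of a boundary: its word. -/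
def wRA : List Dir :=
  D.wR ++ back 1 D.wR

variable {D} in
theorem RA.lin {X Y : ℤ} (h : D.RA X Y) :
    X ≤ D.d + D.h ∧ -X ≤ 1 ∧ Y ≤ 0 ∧ -Y ≤ D.d + D.h ∧ X + Y ≤ D.d + D.h ∧ -X - Y ≤ D.d + D.h + 1 ∧ Y - X ≤ 1 ∧ X - Y ≤ D.d + D.h + 1 := by
  have := D.aux
  rcases h with h | h
  · have := h.lin; omega
  · have := h.lin; omega

/-- A part of a boundary: its points. -/
def N0 (X Y : ℤ) : Prop :=
  D.Ls (Y - D.d) (0 - X) ∨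
    D.PU (X - 0) (Y - 0)

/-- A part of a boundary: its word. -/
def wN0 : List Dir :=
  rot 1 D.F ++ back 0 D.U

variable {D} in
theorem N0.lin {X Y : ℤ} (h : D.N0 X Y) :
    X ≤ 0 ∧ -X ≤ 2 * D.d ∧ Y ≤ D.d ∧ -Y ≤ 0 ∧ X + Y ≤ D.d ∧ -X - Y ≤ 2 * D.d - D.e - 1 ∧ Y - X ≤ 3 * D.d - 1 ∧ X - Y ≤ -D.d + 1 := by
  have := D.aux
  rcases h with h | h
  · have := h.lin; omega
  · have := h.lin; omega

/-- A part of a boundary: its points. -/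
def NU (X Y : ℤ) : Prop :=
  D.N0 X Y ∨
    D.MU (X - (-D.h)) (Y - 0)

/-- A part of a boundary: its word. -/
def ν : List Dir :=
  D.wN0 ++ back 0 D.μ

variable {D} in
theorem NU.lin {X Y : ℤ} (h : D.NU X Y) :
    X ≤ 0 ∧ -X ≤ D.h ∧ Y ≤ D.d ∧ -Y ≤ 1 ∧ X + Y ≤ D.d ∧ -X - Y ≤ D.h - D.e + 1 ∧ (Y - X ≤ 3 * D.d - 1 ∨ Y - X ≤ D.h) ∧ X - Y ≤ -D.d + 1 := by
  have := D.aux
  rcases h with h | h
  · have := h.lin; omega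
  · have := h.lin; omega

/-- A part of a boundary: its points. -/
def KK (X Y : ℤ) : Prop :=
  D.MU (X - (-D.h)) (Y - 0) ∨
    D.PK X Y

/-- A part of a boundary: its word. -/
def κ : List Dir :=
  D.μ ++ D.K

variable {D} in
theorem KK.lin {X Y : ℤ} (h : D.KK X Y) :
    X ≤ 0 ∧ -X ≤ D.h ∧ Y ≤ D.d ∧ -Y ≤ 1 ∧ X + Y ≤ D.d - 1 ∧ -X - Y ≤ D.h - D.e + 1 ∧ (Y - X ≤ 3 * D.d - 1 ∨ Y - X ≤ D.h) ∧ X - Y ≤ 0 := by
  have := D.aux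
  rcases h with h | h
  · have := h.lin; omega
  · have := h.lin; omega

/-- A part of a boundary: its points. -/
def OM (X Y : ℤ) : Prop :=
  ((D.NU (Y - (-D.d - 2 * D.h)) (D.d - X) ∨
    D.KK (X - (D.d + D.h)) (Y - (-D.d - 3 * D.h))) ∨
    D.KK ((-D.d - 3 * D.h) - Y) (X - (D.d + D.h))) ∨
    D.NU (X - (D.d + 2 * D.h)) (Y - (-D.d - 2 * D.h))

/-- A part of a boundary: its word. -/
def ω : List Dir :=
  rot 1 D.ν ++ D.κ ++ back 3 D.κ ++ back 0 D.ν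

variable {D} in
theorem OM.lin {X Y : ℤ} (h : D.OM X Y) :
    X ≤ D.d + 2 * D.h ∧ -X ≤ 0 ∧ Y ≤ -2 * D.h ∧ -Y ≤ D.d + 3 * D.h + 1 ∧ X + Y ≤ D.d ∧ -X - Y ≤ D.d + 3 * D.h ∧ Y - X ≤ -D.d - 2 * D.h ∧ X - Y ≤ 3 * D.d + 4 * D.h - 1 := by
  have := D.aux
  rcases h with ((h | h) | h) | h
  · have := h.lin; omega
  · have := h.lin; omega
  · have := h.lin; omega
  · have := h.lin; omega

/-- A part of a boundary: its points. -/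
def MD (X Y : ℤ) : Prop :=
  ((D.Ls ((D.d + 2 * D.h) - X) ((-2 * D.h) - Y) ∨
    D.PL ((2 * D.d + 2 * D.h) - X) ((-2 * D.h) - Y)) ∨
    D.PO (Y - D.d) ((3 * D.d + 4 * D.h) - X)) ∨
    D.Ls ((2 * D.d + 4 * D.h) - X) (D.d - Y)

/-- A part of a boundary: its word. -/
def wMD : List Dir :=
  rot 2 D.F ++ back 2 D.L ++ rot 1 D.O ++ back 2 D.F

variable {D} in
theorem MD.lin {X Y : ℤ} (h : D.MD X Y) :
    X ≤ 3 * D.d + 4 * D.h ∧ -X ≤ -D.d - 2 * D.h ∧ Y ≤ D.d ∧ -Y ≤ D.d + 2 * D.h ∧ X + Y ≤ 3 * D.d + 4 * D.h + 1 ∧ -X - Y ≤ -D.d + 1 ∧ Y - X ≤ -D.d - 4 * D.h ∧ X - Y ≤ 4 * D.d + 6 * D.h - 1 := by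
  have := D.aux
  rcases h with ((h | h) | h) | h
  · have := h.lin; omega
  · have := h.lin; omega
  · have := h.lin; omega
  · have := h.lin; omega

/-- A part of a boundary: its points. -/
def QB (X Y : ℤ) : Prop :=
  (D.OM X Y ∨
    D.MD X Y) ∨
    D.OM (X - (D.d + 2 * D.h)) (Y - (D.d + 2 * D.h))

/-- A part of a boundary: its word. -/
def qb : List Dir :=
  D.ω ++ D.wMD ++ back 0 D.ω

variable {D} in
theorem QB.lin {X Y : ℤ} (h : D.QB X Y) :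
    X ≤ 3 * D.d + 4 * D.h ∧ -X ≤ 0 ∧ Y ≤ D.d ∧ -Y ≤ D.d + 3 * D.h + 1 ∧ X + Y ≤ 3 * D.d + 4 * D.h + 1 ∧ -X - Y ≤ D.d + 3 * D.h ∧ Y - X ≤ -D.d - 2 * D.h ∧ X - Y ≤ 4 * D.d + 6 * D.h - 1 := by
  have := D.aux
  rcases h with (h | h) | h
  · have := h.lin; omega
  · have := h.lin; omega
  · have := h.lin; omega

/-- A part of a boundary: its points. -/
def B3 (X Y : ℤ) : Prop :=
  (D.QB (X - (-D.d)) (Y - (3 * D.d + 5 * D.h)) ∨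
    D.QB (Y - (3 * D.d + 5 * D.h)) ((-D.d) - X)) ∨
    D.QB ((-D.d) - X) ((3 * D.d + 5 * D.h) - Y)

/-- A part of a boundary: its word. -/
def wB3 : List Dir :=
  D.qb ++ rot 1 D.qb ++ rot 2 D.qb

variable {D} in
theorem B3.lin {X Y : ℤ} (h : D.B3 X Y) :
    X ≤ 2 * D.d + 4 * D.h ∧ -X ≤ 4 * D.d + 4 * D.h ∧ Y ≤ 6 * D.d + 9 * D.h ∧ -Y ≤ -2 * D.d - 2 * D.h + 1 ∧ X + Y ≤ 6 * D.d + 11 * D.h - 1 ∧ -X - Y ≤ D.d - D.h + 1 ∧ Y - X ≤ 8 * D.d + 11 * D.h - 1 ∧ X - Y ≤ D.h - 1 := by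
  have := D.aux
  rcases h with (h | h) | h
  · have := h.lin; omega
  · have := h.lin; omega
  · have := h.lin; omega

/-- A part of a boundary: its points. -/
def RB (X Y : ℤ) : Prop :=
  D.Lb (X - (-2 * D.d - 2 * D.h)) (Y - (3 * D.d + 5 * D.h)) ∨
    D.Lb (Y - (2 * D.d + 3 * D.h)) ((-D.d) - X)

/-- A part of a boundary: its word. -/
def wRB : List Dir :=
  (ea D.b) ++ back 1 (ea D.b)

variable {D} in
theorem RB.lin {X Y : ℤ} (h : D.RB X Y) :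
    X ≤ -D.d ∧ -X ≤ 2 * D.d + 2 * D.h ∧ Y ≤ 3 * D.d + 5 * D.h ∧ -Y ≤ -2 * D.d - 3 * D.h ∧ X + Y ≤ 2 * D.d + 5 * D.h ∧ -X - Y ≤ -D.d - 3 * D.h ∧ Y - X ≤ 5 * D.d + 7 * D.h ∧ X - Y ≤ -3 * D.d - 3 * D.h := by
  have := D.aux
  rcases h with h | h
  · have := h.lin; omega
  · have := h.lin; omega

/-- A part of a boundary: its points. -/
def A2 (X Y : ℤ) : Prop :=
  ((D.PB (Y - (2 * D.d + 3 * D.h)) (0 - X) ∨
    D.QA (Y - 0) (0 - X)) ∨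
    D.QA (0 - X) (0 - Y)) ∨
    D.RA X Y

/-- A part of a boundary: its word. -/
def wA2 : List Dir :=
  back 1 D.B ++ rot 1 D.qa ++ rot 2 D.qa ++ D.wRA

variable {D} in
theorem A2.lin {X Y : ℤ} (h : D.A2 X Y) :
    X ≤ D.d + D.h ∧ -X ≤ 2 * D.d + 3 * D.h ∧ Y ≤ 3 * D.h + 1 ∧ -Y ≤ 2 * D.d + 3 * D.h ∧ X + Y ≤ 3 * D.h - D.e + 1 ∧ -X - Y ≤ 3 * D.d + 3 * D.h + 1 ∧ Y - X ≤ 3 * D.d + 3 * D.h + 1 ∧ X - Y ≤ D.d + 3 * D.h := by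
  have := D.aux
  rcases h with ((h | h) | h) | h
  · have := h.lin; omega
  · have := h.lin; omega
  · have := h.lin; omega
  · have := h.lin; omega

/-- A part of a boundary: its points. -/
def C1 (X Y : ℤ) : Prop :=
  D.N0 (Y - (2 * D.d + 3 * D.h)) (0 - X)

/-- A part of a boundary: its word. -/
def wC1 : List Dir :=
  rot 1 D.wN0

variable {D} in
theorem C1.lin {X Y : ℤ} (h : D.C1 X Y) :
    X ≤ 0 ∧ -X ≤ D.d ∧ Y ≤ 2 * D.d + 3 * D.h ∧ -Y ≤ -3 * D.h ∧ X + Y ≤ D.d + 3 * D.h + 1 ∧ -X - Y ≤ D.d - 3 * D.h - 1 ∧ Y - X ≤ 3 * D.d + 3 * D.h ∧ X - Y ≤ -D.e - 3 * D.h - 1 := by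
  have := D.aux
  unfold C1 at h
  · have := h.lin; omega

/-- A part of a boundary: its points. -/
def C0 (X Y : ℤ) : Prop :=
  (((D.PU ((2 * D.d + 2 * D.h) - Y) (X - D.h) ∨
    D.MU ((2 * D.d + 3 * D.h) - Y) (X - D.h)) ∨
    D.NU (X - (2 * D.h)) (Y - (2 * D.d + 3 * D.h))) ∨
    D.MD (X - (-D.d)) (Y - (3 * D.d + 5 * D.h))) ∨
    D.OM (X - (2 * D.h)) (Y - (4 * D.d + 7 * D.h))

/-- A part of a boundary: its word. -/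
def wC0 : List Dir :=
  back 3 D.U ++ back 3 D.μ ++ back 0 D.ν ++ D.wMD ++ back 0 D.ω

variable {D} in
theorem C0.lin {X Y : ℤ} (h : D.C0 X Y) :
    X ≤ 2 * D.d + 4 * D.h ∧ -X ≤ -D.h + 1 ∧ Y ≤ 4 * D.d + 5 * D.h ∧ -Y ≤ -2 * D.d - 2 * D.e - 2 * D.h + 1 ∧ X + Y ≤ 5 * D.d + 9 * D.h + 1 ∧ -X - Y ≤ -3 * D.d - 3 * D.h + 1 ∧ Y - X ≤ 3 * D.d + 3 * D.h ∧ X - Y ≤ D.h - 1 := by
  have := D.aux
  rcases h with (((h | h) | h) | h) | h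
  · have := h.lin; omega
  · have := h.lin; omega
  · have := h.lin; omega
  · have := h.lin; omega
  · have := h.lin; omega

/-- A part of a boundary: its points. -/
def C2 (X Y : ℤ) : Prop :=
  ((D.C0 X Y ∨
    D.QB (Y - (3 * D.d + 5 * D.h)) ((-D.d) - X)) ∨
    D.QB ((-D.d) - X) ((3 * D.d + 5 * D.h) - Y)) ∨
    D.RB X Y

/-- A part of a boundary: its word. -/
def wC2 : List Dir :=
  D.wC0 ++ rot 1 D.qb ++ rot 2 D.qb ++ D.wRB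

variable {D} in
theorem C2.lin {X Y : ℤ} (h : D.C2 X Y) :
    X ≤ 2 * D.d + 4 * D.h ∧ -X ≤ 4 * D.d + 4 * D.h ∧ Y ≤ 6 * D.d + 9 * D.h ∧ -Y ≤ -2 * D.d - 2 * D.e - 2 * D.h + 1 ∧ X + Y ≤ 6 * D.d + 11 * D.h - 1 ∧ -X - Y ≤ D.d - D.h + 1 ∧ Y - X ≤ 8 * D.d + 11 * D.h - 1 ∧ X - Y ≤ D.h - 1 := by
  have := D.aux
  rcases h with ((h | h) | h) | h
  · have := h.lin; omega
  · have := h.lin; omega
  · have := h.lin; omega
  · have := h.lin; omega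

/-- A part of a boundary: its points. -/
def AL (X Y : ℤ) : Prop :=
  D.A2 X Y ∨
    D.A0 X Y

/-- A part of a boundary: its word. -/
def α : List Dir :=
  D.wA2 ++ D.wA0

variable {D} in
theorem AL.lin {X Y : ℤ} (h : D.AL X Y) :
    X ≤ D.d + D.h ∧ -X ≤ 2 * D.d + 3 * D.h ∧ Y ≤ 4 * D.d + 4 * D.h + 1 ∧ -Y ≤ 2 * D.d + 3 * D.h ∧ X + Y ≤ 3 * D.d + 3 * D.h + 1 ∧ -X - Y ≤ 3 * D.d + 3 * D.h + 1 ∧ Y - X ≤ 3 * D.d + 3 * D.h + 1 ∧ X - Y ≤ D.d + 3 * D.h := by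
  have := D.aux
  rcases h with h | h
  · have := h.lin; omega
  · have := h.lin; omega

/-- A part of a boundary: its points. -/
def BE (X Y : ℤ) : Prop :=
  D.C2 X Y ∨
    D.C1 X Y

/-- A part of a boundary: its word. -/
def β : List Dir :=
  D.wC2 ++ D.wC1

variable {D} in
theorem BE.lin {X Y : ℤ} (h : D.BE X Y) :
    X ≤ 2 * D.d + 4 * D.h ∧ -X ≤ 4 * D.d + 4 * D.h ∧ Y ≤ 6 * D.d + 9 * D.h ∧ -Y ≤ -2 * D.d - 2 * D.e - 2 * D.h + 1 ∧ X + Y ≤ 6 * D.d + 11 * D.h - 1 ∧ -X - Y ≤ D.d - D.h + 1 ∧ Y - X ≤ 8 * D.d + 11 * D.h - 1 ∧ X - Y ≤ D.h - 1 := by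
  have := D.aux
  rcases h with h | h
  · have := h.lin; omega
  · have := h.lin; omega

/-- A part of a boundary: its points. -/
def EA (X Y : ℤ) : Prop :=
  D.A3 X Y ∨
    D.RA X Y

variable {D} in
theorem EA.lin {X Y : ℤ} (h : D.EA X Y) :
    X ≤ D.d + D.h ∧ -X ≤ 2 * D.d + 3 * D.h ∧ Y ≤ 2 * D.d + 3 * D.h ∧ -Y ≤ 2 * D.d + 3 * D.h ∧ X + Y ≤ 3 * D.d + 3 * D.h + 1 ∧ -X - Y ≤ 3 * D.d + 3 * D.h + 1 ∧ Y - X ≤ 3 * D.d + 3 * D.h + 1 ∧ X - Y ≤ D.d + 3 * D.h := by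
  have := D.aux
  rcases h with h | h
  · have := h.lin; omega
  · have := h.lin; omega

/-- A part of a boundary: its points. -/
def EB (X Y : ℤ) : Prop :=
  D.B3 X Y ∨
    D.RB X Y

variable {D} in
theorem EB.lin {X Y : ℤ} (h : D.EB X Y) :
    X ≤ 2 * D.d + 4 * D.h ∧ -X ≤ 4 * D.d + 4 * D.h ∧ Y ≤ 6 * D.d + 9 * D.h ∧ -Y ≤ -2 * D.d - 2 * D.h + 1 ∧ X + Y ≤ 6 * D.d + 11 * D.h - 1 ∧ -X - Y ≤ D.d - D.h + 1 ∧ Y - X ≤ 8 * D.d + 11 * D.h - 1 ∧ X - Y ≤ D.h - 1 := by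
  have := D.aux
  rcases h with h | h
  · have := h.lin; omega
  · have := h.lin; omega

/-- A part of a boundary: its points. -/
def EC (X Y : ℤ) : Prop :=
  D.AL X Y ∨
    D.BE X Y

variable {D} in
theorem EC.lin {X Y : ℤ} (h : D.EC X Y) :
    X ≤ 2 * D.d + 4 * D.h ∧ -X ≤ 4 * D.d + 4 * D.h ∧ Y ≤ 6 * D.d + 9 * D.h ∧ -Y ≤ 2 * D.d + 3 * D.h ∧ X + Y ≤ 6 * D.d + 11 * D.h - 1 ∧ -X - Y ≤ 3 * D.d + 3 * D.h + 1 ∧ Y - X ≤ 8 * D.d + 11 * D.h - 1 ∧ X - Y ≤ D.d + 3 * D.h := by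
  have := D.aux
  rcases h with h | h
  · have := h.lin; omega
  · have := h.lin; omega

/-- The marked points. -/
def KA : List Pt :=
  [(0, -D.d - D.h), (0, 0), (D.d + D.h, 0), (0, D.d + D.h), (-D.d - D.h, 0), (D.d + D.h, 2 * D.d + 2 * D.h), (-2 * D.d - 2 * D.h, D.d + D.h), (-D.d - D.h, -2 * D.d - 2 * D.h), (0, 2 * D.d + 2 * D.h), (-2 * D.d - 2 * D.h, 0), (0, -2 * D.d - 2 * D.h), (0, 2 * D.d + 2 * D.h), (-2 * D.d - 2 * D.h, 0), (0, -2 * D.d - 2 * D.h)]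

/-- The marked points. -/
def KB : List Pt :=
  [(-2 * D.d - 2 * D.h, 3 * D.d + 5 * D.h), (-D.d, 3 * D.d + 5 * D.h), (-D.d, 2 * D.d + 3 * D.h), (2 * D.h, 3 * D.d + 5 * D.h), (-D.d, 4 * D.d + 7 * D.h), (D.d + 4 * D.h, 2 * D.d + 3 * D.h), (2 * D.h, 5 * D.d + 9 * D.h), (-3 * D.d - 4 * D.h, 4 * D.d + 7 * D.h), (D.d + 4 * D.h, 3 * D.d + 5 * D.h), (-D.d, 5 * D.d + 9 * D.h), (-3 * D.d - 4 * D.h, 3 * D.d + 5 * D.h), (D.d + 4 * D.h, 3 * D.d + 5 * D.h), (-D.d, 5 * D.d + 9 * D.h), (-3 * D.d - 4 * D.h, 3 * D.d + 5 * D.h)]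

/-- The marked points. -/
def KC : List Pt :=
  [(0, 0), (D.h, 2 * D.d + 3 * D.h), (D.d + 3 * D.h, 3 * D.d + 4 * D.h), (2 * D.h, 4 * D.d + 6 * D.h), (D.h - D.d, 5 * D.d + 8 * D.h), (-2 * D.d - D.h, 4 * D.d + 7 * D.h), (-3 * D.d - 3 * D.h, 3 * D.d + 6 * D.h), (-D.d, 3 * D.d + 5 * D.h)]

end DE

end NP
end Pool.Agent.Lib.MP_4a7072_co
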