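import Pool.Agent.Lib.MP_4a7072_co.FEDefs

/-!
The boundaries of the design for `5 a < 3 b < 6 a` are simple closed paths.
-/

set_option autoImplicit false
set_option linter.unnecessarySeqFocus false
set_option linter.unusedSimpArgs false
set_option linter.unusedVariables false
set_option linter.unreachableTactic false
set_option linter.unusedTactic false

namespace Pool.Agent.Lib.MP_4a7072_co
namespace NP


namespace DE

variable (D : DE)

theorem eL : D.L = D.B ++ D.M := by
  have := D.ord
  have := D.aux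
  exact D.C.Z_append (by omega) (by omega)

theorem eM : D.M = D.K ++ D.I := by
  have := D.ord
  have := D.aux
  exact D.C.Z_append (by omega) (by omega)

theorem eK : D.K = D.U ++ D.A := by
  have := D.ord
  have := D.aux
  exact D.C.Z_append (by omega) (by omega)

theorem eO : D.O = D.B ++ D.U := by
  have := D.ord
  have := D.aux
  exact D.C.Z_append (by omega) (by omega)

theorem eL2 : D.L = D.T ++ D.P := by
  have := D.ord
  have := D.aux
  exact D.C.Z_append (by omega) (by omega)

theorem eI : D.I = back 3 D.A := by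
  have := D.ord
  exact D.C.ZA (by omega) (by omega)

theorem arcMU : CArc (0, 0) D.μ (D.h - 2 * D.d + 1, D.e) D.MU := by
  have := D.aux
  have h0 := D.arcLe
  have h1 := D.arcL1.p3 (P' := (D.e, 0)) (Q' := (D.e, -1)) D.e 0 (by dsimp only; omega)
  have h2 := D.arcLu.p0 (P' := (D.e, -1)) (Q' := (D.h - 2 * D.d + 1, -1)) D.e (-1) (by dsimp only; omega)
  have h3 := D.arcLf.p1 (P' := (D.h - 2 * D.d + 1, -1)) (Q' := (D.h - 2 * D.d + 1, D.e)) (D.h - 2 * D.d + 1) (-1) (by dsimp only; omega)
  refine ((h0.append h1 ?_).append h2 ?_).append h3 ?_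
  · intro X Y a b
    show X = D.e ∧ Y = 0
    have ha := a.lin; have hb := b.lin
    obtain ⟨-, k14, k15⟩ := ha
    obtain ⟨-, -, k19⟩ := hb
    clear this
    lia
  · intro X Y a b
    show X = D.e ∧ Y = -1
    rcases a with a | a
    · have ha := a.lin; have hb := b.lin
      obtain ⟨-, -, k15⟩ := ha
      obtain ⟨-, -, k19⟩ := hb
      clear this
      lia
    · have ha := a.lin; have hb := b.lin
      obtain ⟨-, k14, k15⟩ := ha
      obtain ⟨-, -, k19⟩ := hb
      clear this
      lia
  · intro X Y a b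
    show X = D.h - 2 * D.d + 1 ∧ Y = -1
    rcases a with (a | a) | a
    · have ha := a.lin; have hb := b.lin
      obtain ⟨-, k2, k3, k4, k5, k6, -, k8, -⟩ := this
      obtain ⟨-, k14, -⟩ := ha
      obtain ⟨-, -, k19⟩ := hb
      lia
    · have ha := a.lin; have hb := b.lin
      obtain ⟨-, k2, k3, k4, k5, k6, -⟩ := this
      obtain ⟨-, -, k15⟩ := ha
      obtain ⟨-, -, k19⟩ := hb
      lia
    · have ha := a.lin; have hb := b.lin
      obtain ⟨-, k14, k15⟩ := ha
      obtain ⟨-, -, k19⟩ := hb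
      clear this
      lia

theorem arcA0 : CArc (D.d + D.h, 0) D.wA0 (D.d + D.e + D.h - D.k, 2 * D.d + D.e + 2 * D.h + D.k - 1) D.A0 := by
  have := D.aux
  have h0 := D.arcL.p1 (P' := (D.d + D.h, 0)) (Q' := (D.d + D.h - D.e - D.k + 1, 2 * D.d + D.e + 2 * D.h - D.k)) (D.d + D.h) (D.d + 2 * D.h) (by dsimp only; omega)
  have h1 := D.arcLs.b1 (Q' := (D.d + D.h - D.e - D.k + 1, 2 * D.d + D.e + 2 * D.h - D.k)) (P' := (D.d + D.h, 2 * D.d + 2 * D.h)) (D.d + D.h) (2 * D.d + 2 * D.h) (by dsimp only; omega)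
  have h2 := D.arcLs.p0 (P' := (D.d + D.h, 2 * D.d + 2 * D.h)) (Q' := (D.d + D.e + D.h - D.k, 2 * D.d + D.e + 2 * D.h + D.k - 1)) (D.d + D.h) (2 * D.d + 2 * D.h) (by dsimp only; omega)
  refine (h0.append h1 ?_).append h2 ?_
  · intro X Y a b
    show X = D.d + D.h - D.e - D.k + 1 ∧ Y = 2 * D.d + D.e + 2 * D.h - D.k
    have ha := a.lin; have hb := b.lin
    obtain ⟨-, k2, k3, -, -, k6, -, -, k9, -⟩ := this
    obtain ⟨-, -, -, -, -, -, -, k29⟩ := ha
    obtain ⟨-, k40, k41⟩ := hb
    rcases k29 with k30 | ⟨k32, k33⟩ | ⟨k35, -, k37⟩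
    · rcases k41 with k42 | ⟨k44, -⟩
      · lia
      · rcases k44 with k45 | k46 <;> lia
    · rcases k41 with k42 | ⟨-, k47⟩ <;> lia
    · lia
  · intro X Y a b
    show X = D.d + D.h ∧ Y = 2 * D.d + 2 * D.h
    rcases a with a | a
    · have ha := a.lin; have hb := b.lin
      obtain ⟨-, k2, k3, -, -, k6, -, -, k9, k10, -⟩ := this
      obtain ⟨-, -, -, -, -, -, -, k29⟩ := ha
      obtain ⟨k39, -, k41⟩ := hb
      rcases k29 with k30 | ⟨k32, -⟩ | ⟨k35, -, k37⟩
      · lia
      · lia
      · rcases k41 with k42 | ⟨-, k47⟩ <;> lia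
    · have ha := a.lin; have hb := b.lin
      obtain ⟨-, k2, k3, -, -, k6, -⟩ := this
      obtain ⟨k13, -, k15⟩ := ha
      obtain ⟨k23, -, k25⟩ := hb
      rcases k15 with k16 | ⟨k18, k21⟩
      · rcases k25 with k26 | ⟨k28, -⟩
        · lia
        · rcases k28 with k29 | k30 <;> lia
      · rcases k18 with k19 | k20
        · rcases k25 with k26 | ⟨-, k31⟩ <;> lia
        · lia

theorem arcPI : CArc (D.d + D.e + D.h - D.k, 2 * D.d + D.e + 2 * D.h + D.k - 1) D.π (-D.e, 3 * D.h + 1) D.PI := by
  have := D.aux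
  have h0 := D.arcM.b0 (Q' := (D.d + D.e + D.h - D.k, 2 * D.d + D.e + 2 * D.h + D.k - 1)) (P' := (D.h - 2 * D.d + 1, 2 * D.d + D.e + 2 * D.h)) D.h (2 * D.d + 2 * D.h) (by dsimp only; omega)
  have h1 := D.arcMU.b0 (Q' := (D.h - 2 * D.d + 1, 2 * D.d + D.e + 2 * D.h)) (P' := (0, 2 * D.d + 2 * D.h)) 0 (2 * D.d + 2 * D.h) (by dsimp only; omega)
  have h2 := D.arcMU.p1 (P' := (0, 2 * D.d + 2 * D.h)) (Q' := (-D.e, 3 * D.h + 1)) 0 (2 * D.d + 2 * D.h) (by dsimp only; omega)
  refine (h0.append h1 ?_).append h2 ?_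
  · intro X Y a b
    show X = D.h - 2 * D.d + 1 ∧ Y = 2 * D.d + D.e + 2 * D.h
    have ha := a.lin; have hb := b.lin
    obtain ⟨-, k2, k3, k4, k5, k6, -⟩ := this
    obtain ⟨k13, -, k15, -, -, k24, -⟩ := ha
    obtain ⟨-, k43, -, k45, -⟩ := hb
    rcases k24 with k25 | ⟨k27, -⟩
    · rcases k15 with k16 | k17 | k18 <;> lia
    · lia
  · intro X Y a b
    show X = 0 ∧ Y = 2 * D.d + 2 * D.h
    rcases a with a | a
    · have ha := a.lin; have hb := b.lin
      obtain ⟨-, k2, k3, k4, k5, k6, -, k8, -⟩ := this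
      obtain ⟨k13, -, -, -, k23, k24, -⟩ := ha
      obtain ⟨k42, -, -, k45, -⟩ := hb
      rcases k24 with k25 | ⟨k27, k28⟩
      · lia
      · rcases k28 with k29 | k30 <;> lia
    · have ha := a.lin; have hb := b.lin
      obtain ⟨-, k2, k3, k4, -, k6, -, k8, -⟩ := this
      obtain ⟨-, -, k15, k16, k17⟩ := ha
      obtain ⟨k26, -, k28, -, k30⟩ := hb
      rcases k17 with ⟨k19, k20⟩ | ⟨k22, -⟩ | k24
      · rcases k30 with ⟨k32, -⟩ | ⟨k35, k36⟩ | k37 <;> lia
      · lia
      · lia

theorem arcQA : CArc (D.d + D.h, 0) D.qa (0, D.d + D.h) D.QA := by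
  have := D.aux
  have h0 := D.arcA0
  have h1 := D.arcPI
  have h2 := D.arcB.b1 (Q' := (-D.e, 3 * D.h + 1)) (P' := (0, D.d + D.h)) 0 (2 * D.d + 3 * D.h) (by dsimp only; omega)
  refine (h0.append h1 ?_).append h2 ?_
  · intro X Y a b
    show X = D.d + D.e + D.h - D.k ∧ Y = 2 * D.d + D.e + 2 * D.h + D.k - 1
    rcases b with (b | b) | b
    · rcases a with (a | a) | a
      · have ha := a.lin; have hb := b.lin
        obtain ⟨-, k2, k3, k4, k5, k6, -, -, k9, k10, -⟩ := this
        obtain ⟨k13, -, -, -, -, -, k28, k29⟩ := ha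
        obtain ⟨k39, -, k41, -, -, -, -, k58⟩ := hb
        rcases k29 with k30 | ⟨k32, -⟩ | ⟨k35, -, k37⟩
        · lia
        · lia
        · rcases k41 with k42 | k43 | k44
          · lia
          · lia
          · rcases k58 with k59 | ⟨k61, -⟩ | ⟨k64, -, k66⟩ <;> lia
      · have ha := a.lin; have hb := b.lin
        obtain ⟨-, k2, k3, -, -, k6, -⟩ := this
        obtain ⟨k13, -, k15⟩ := ha
        obtain ⟨k23, -, k25, -⟩ := hb
        rcases k15 with k16 | ⟨k18, k21⟩
        · rcases k25 with k26 | k27 | k28 <;> lia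
        · rcases k18 with k19 | k20
          · rcases k25 with k26 | k27 | k28 <;> lia
          · lia
      · have ha := a.lin; have hb := b.lin
        obtain ⟨-, k2, k3, -, -, k6, -, -, k9, -⟩ := this
        obtain ⟨-, k14, k15⟩ := ha
        obtain ⟨-, -, -, -, -, -, -, k42⟩ := hb
        rcases k42 with k43 | ⟨k45, k46⟩ | ⟨k48, -, k50⟩
        · rcases k15 with k16 | ⟨k18, -⟩
          · lia
          · rcases k18 with k19 | k20 <;> lia
        · rcases k15 with k16 | ⟨-, k21⟩ <;> lia
        · lia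
    · have ha := a.lin; have hb := b.lin
      obtain ⟨-, k2, k3, -, -, k6, k7, -⟩ := this
      obtain ⟨-, k14, -⟩ := ha
      obtain ⟨-, -, -, k25, -⟩ := hb
      lia
    · have ha := a.lin; have hb := b.lin
      obtain ⟨-, k2, k3, -, -, k6, k7, k8, -⟩ := this
      obtain ⟨-, k14, -, k16, -⟩ := ha
      obtain ⟨k22, -, -, k25, -⟩ := hb
      lia
  · intro X Y a b
    show X = -D.e ∧ Y = 3 * D.h + 1
    rcases a with a | a
    · have ha := a.lin; have hb := b.lin
      obtain ⟨-, -, -, -, -, k6, -⟩ := this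
      obtain ⟨-, k14, -, k16, -⟩ := ha
      obtain ⟨k22, -, -, -, -, -, k37, -⟩ := hb
      lia
    · rcases a with (a | a) | a
      · have ha := a.lin; have hb := b.lin
        obtain ⟨-, k2, k3, -, -, k6, -, k8, -⟩ := this
        obtain ⟨-, -, -, -, k23, -⟩ := ha
        obtain ⟨k42, -⟩ := hb
        lia
      · have ha := a.lin; have hb := b.lin
        obtain ⟨-, k2, k3, k4, k5, k6, -, k8, -⟩ := this
        obtain ⟨k13, k14, k15, -, k17⟩ := ha
        obtain ⟨k26, -, k28, -⟩ := hb
        rcases k28 with k29 | k30 | k31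
        · lia
        · rcases k17 with ⟨k19, -⟩ | ⟨k22, k23⟩ | k24 <;> lia
        · lia
      · have ha := a.lin; have hb := b.lin
        obtain ⟨-, k2, k3, k4, k5, k6, -⟩ := this
        obtain ⟨-, k14, k15, k16, k17⟩ := ha
        obtain ⟨k26, -, k28, -⟩ := hb
        rcases k17 with ⟨k19, k20⟩ | ⟨k22, -⟩ | k24
        · rcases k28 with k29 | k30 | k31 <;> lia
        · lia
        · rcases k28 with k29 | k30 | k31 <;> lia

variable {D} in
theorem qqa {X1 Y1 X2 Y2 : ℤ} (a : D.QA X1 Y1) (b : D.QA X2 Y2)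
    (e : X2 = Y1 ∧ Y2 = -X1) :
    X1 = 0 ∧ Y1 = D.d + D.h := by
  have := D.aux
  rcases a with (a | a) | a
  · have ha := a.lin; have hb := b.lin
    obtain ⟨-, k2, k3, -, -, k6, k7, k8, -⟩ := this
    obtain ⟨-, k14⟩ := e
    obtain ⟨-, k17, -⟩ := ha
    obtain ⟨-, -, -, k28, -⟩ := hb
    lia
  · have ha := a.lin; have hb := b.lin
    obtain ⟨-, k2, k3, -, -, k6, -⟩ := this
    obtain ⟨k13, k14⟩ := e
    obtain ⟨k16, -, -, -, -, k23, -, k27⟩ := ha
    obtain ⟨k29, -, k31, -⟩ := hb
    lia
  · rcases b with (b | b) | b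
    · rcases b with (b | b) | b
      · have := D.sB a.on b.on (by omega); lia
      · have ha := a.lin; have hb := b.lin
        obtain ⟨-, k2, k3, -, -, k6, -, -, k9, -, k11⟩ := this
        obtain ⟨k13, k14⟩ := e
        obtain ⟨-, k17, -, -, -, -, k31, -⟩ := ha
        obtain ⟨-, k44, -⟩ := hb
        lia
      · have ha := a.lin; have hb := b.lin
        obtain ⟨-, k2, k3, -, -, k6, -, -, k9, -, k11⟩ := this
        obtain ⟨k13, k14⟩ := e
        obtain ⟨-, k17, -, -, k26, -, k31, -⟩ := ha
        obtain ⟨k43, k44, -⟩ := hb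
        lia
    · have ha := a.lin; have hb := b.lin
      obtain ⟨-, k2, k3, -, k5, k6, -⟩ := this
      obtain ⟨k13, k14⟩ := e
      obtain ⟨-, k17, -, -, k26, -, k31, -⟩ := ha
      obtain ⟨k43, k44, -, -, -, -, -, k54⟩ := hb
      lia
    · have ha := a.lin; have hb := b.lin
      obtain ⟨-, k2, k3, -, -, k6, -⟩ := this
      obtain ⟨-, k14⟩ := e
      obtain ⟨k16, k17, -⟩ := ha
      obtain ⟨-, -, -, -, k53, -, k58, -⟩ := hb
      lia

theorem arcA3 : CArc (D.d + D.h, 0) D.wA3 (0, -D.d - D.h) D.A3 := by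
  have := D.aux
  have h0 := D.arcQA
  have h1 := D.arcQA.p1 (P' := (0, D.d + D.h)) (Q' := (-D.d - D.h, 0)) 0 0 (by dsimp only; omega)
  have h2 := D.arcQA.p2 (P' := (-D.d - D.h, 0)) (Q' := (0, -D.d - D.h)) 0 0 (by dsimp only; omega)
  refine (h0.append h1 ?_).append h2 ?_
  · intro X Y a b
    show X = 0 ∧ Y = D.d + D.h
    have := qqa a b (by omega); lia
  · intro X Y a b
    show X = -D.d - D.h ∧ Y = 0
    rcases a with a | a
    · have ha := a.lin; have hb := b.lin
      obtain ⟨-, k2, k3, -, -, k6, k7, k8, -⟩ := this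
      obtain ⟨-, k14, -, k16, -⟩ := ha
      obtain ⟨-, -, -, k25, -, k27, -⟩ := hb
      lia
    · have := qqa a b (by omega); lia

theorem arcRR : CArc (0, -D.d - D.h) D.wR (0, 0) D.RR := by
  have := D.aux
  have h0 := D.arcL1.p2 (P' := (0, -D.d - D.h)) (Q' := (-1, -D.d - D.h)) 0 (-D.d - D.h) (by dsimp only; omega)
  have h1 := D.arcLa.p1 (P' := (-1, -D.d - D.h)) (Q' := (-1, 0)) (-1) (-D.d - D.h) (by dsimp only; omega)
  have h2 := D.arcL1.p0 (P' := (-1, 0)) (Q' := (0, 0)) (-1) 0 (by dsimp only; omega)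
  refine (h0.append h1 ?_).append h2 ?_
  · intro X Y a b
    show X = -1 ∧ Y = -D.d - D.h
    have ha := a.lin; have hb := b.lin
    obtain ⟨-, k14, k15⟩ := ha
    obtain ⟨-, -, k19⟩ := hb
    clear this
    lia
  · intro X Y a b
    show X = -1 ∧ Y = 0
    rcases a with a | a
    · have ha := a.lin; have hb := b.lin
      obtain ⟨-, k2, k3, -, -, k6, -⟩ := this
      obtain ⟨-, -, k15⟩ := ha
      obtain ⟨-, -, k19⟩ := hb
      lia
    · have ha := a.lin; have hb := b.lin
      obtain ⟨-, k14, k15⟩ := ha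
      obtain ⟨-, -, k19⟩ := hb
      clear this
      lia

theorem arcRA : CArc (0, -D.d - D.h) D.wRA (D.d + D.h, 0) D.RA := by
  have := D.aux
  have h0 := D.arcRR
  have h1 := D.arcRR.b1 (Q' := (0, 0)) (P' := (D.d + D.h, 0)) 0 0 (by dsimp only; omega)
  refine h0.append h1 ?_
  · intro X Y a b
    show X = 0 ∧ Y = 0
    rcases a with (a | a) | a
    · have ha := a.lin; have hb := b.lin
      obtain ⟨-, k2, k3, -, -, k6, k7, k8, -⟩ := this
      obtain ⟨-, -, k15⟩ := ha
      obtain ⟨k17, k18, -⟩ := hb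
      lia
    · have ha := a.lin; have hb := b.lin
      obtain ⟨-, -, k15⟩ := ha
      obtain ⟨-, -, k19, -⟩ := hb
      clear this
      lia
    · have ha := a.lin; have hb := b.lin
      obtain ⟨-, k14, k15⟩ := ha
      obtain ⟨-, -, k19, -⟩ := hb
      clear this
      lia

theorem arcN0 : CArc (0, D.d) D.wN0 (-2 * D.d + 1, D.e) D.N0 := by
  have := D.aux
  have h0 := D.arcLs.p1 (P' := (0, D.d)) (Q' := (-D.e - D.k + 1, D.d + D.e - D.k)) 0 D.d (by dsimp only; omega)
  have h1 := D.arcU.b0 (Q' := (-D.e - D.k + 1, D.d + D.e - D.k)) (P' := (-2 * D.d + 1, D.e)) 0 0 (by dsimp only; omega)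
  refine h0.append h1 ?_
  · intro X Y a b
    show X = -D.e - D.k + 1 ∧ Y = D.d + D.e - D.k
    have ha := a.lin; have hb := b.lin
    obtain ⟨-, k2, k3, -, -, -, -, -, k9, -⟩ := this
    obtain ⟨-, k14, k15⟩ := ha
    obtain ⟨-, -, -, -, -, -, -, k42⟩ := hb
    rcases k42 with k43 | ⟨k45, k46⟩ | ⟨k48, -, k50⟩
    · rcases k15 with k16 | ⟨k18, -⟩
      · lia
      · rcases k18 with k19 | k20 <;> lia
    · rcases k15 with k16 | ⟨-, k21⟩ <;> lia
    · lia

theorem arcNU : CArc (0, D.d) D.ν (-D.h, 0) D.NU := by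
  have := D.aux
  have h0 := D.arcN0
  have h1 := D.arcMU.b0 (Q' := (-2 * D.d + 1, D.e)) (P' := (-D.h, 0)) (-D.h) 0 (by dsimp only; omega)
  refine h0.append h1 ?_
  · intro X Y a b
    show X = -2 * D.d + 1 ∧ Y = D.e
    have ha := a.lin; have hb := b.lin
    obtain ⟨-, k2, k3, -⟩ := this
    obtain ⟨-, k14, -, -, -, k18, -⟩ := ha
    obtain ⟨-, k23, -, k25, -⟩ := hb
    lia

theorem arcKK : CArc (-D.h, 0) D.κ (0, 0) D.KK := by
  have := D.aux
  have h0 := D.arcMU.p0 (P' := (-D.h, 0)) (Q' := (-2 * D.d + 1, D.e)) (-D.h) 0 (by dsimp only; omega)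
  have h1 := D.arcK
  refine h0.append h1 ?_
  · intro X Y a b
    show X = -2 * D.d + 1 ∧ Y = D.e
    have ha := a.lin; have hb := b.lin
    obtain ⟨-, k2, k3, k4, k5, -⟩ := this
    obtain ⟨-, k14, -, k16, -⟩ := ha
    obtain ⟨k26, -, k28, -, -, k37, -⟩ := hb
    rcases k37 with k38 | ⟨k40, -⟩
    · rcases k28 with k29 | k30 | k31 <;> lia
    · lia

theorem arcOM : CArc (0, -D.d - 2 * D.h) D.ω (D.d + 2 * D.h, -2 * D.h) D.OM := by
  have := D.aux
  have h0 := D.arcNU.p1 (P' := (0, -D.d - 2 * D.h)) (Q' := (D.d, -D.d - 3 * D.h)) D.d (-D.d - 2 * D.h) (by dsimp only; omega)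
  have h1 := D.arcKK.p0 (P' := (D.d, -D.d - 3 * D.h)) (Q' := (D.d + D.h, -D.d - 3 * D.h)) (D.d + D.h) (-D.d - 3 * D.h) (by dsimp only; omega)
  have h2 := D.arcKK.b3 (Q' := (D.d + D.h, -D.d - 3 * D.h)) (P' := (D.d + D.h, -D.d - 2 * D.h)) (D.d + D.h) (-D.d - 3 * D.h) (by dsimp only; omega)
  have h3 := D.arcNU.b0 (Q' := (D.d + D.h, -D.d - 2 * D.h)) (P' := (D.d + 2 * D.h, -2 * D.h)) (D.d + 2 * D.h) (-D.d - 2 * D.h) (by dsimp only; omega)
  refine ((h0.append h1 ?_).append h2 ?_).append h3 ?_
  · intro X Y a b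
    show X = D.d ∧ Y = -D.d - 3 * D.h
    rcases b with b | b
    · have ha := a.lin; have hb := b.lin
      obtain ⟨-, k2, k3, -, -, k6, -, k8, -⟩ := this
      obtain ⟨-, k14, -, k16, -, k18, -⟩ := ha
      obtain ⟨-, -, k26, k27, k28⟩ := hb
      rcases k28 with ⟨k30, k31⟩ | ⟨k33, -⟩ | k35 <;> lia
    · rcases a with a | a
      · have ha := a.lin; have hb := b.lin
        obtain ⟨-, k2, k3, -, -, k6, -, k8, -⟩ := this
        obtain ⟨-, -, -, k16, -⟩ := ha
        obtain ⟨-, -, -, -, k32, -⟩ := hb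
        lia
      · have ha := a.lin; have hb := b.lin
        obtain ⟨-, k2, k3, k4, k5, k6, -, k8, -⟩ := this
        obtain ⟨k13, -, k15, k16, -⟩ := ha
        obtain ⟨-, -, -, -, k36, k37, -⟩ := hb
        rcases k37 with k38 | ⟨k40, k41⟩
        · lia
        · rcases k41 with k42 | k43 <;> lia
  · intro X Y a b
    show X = D.d + D.h ∧ Y = -D.d - 3 * D.h
    rcases a with a | a
    · have ha := a.lin; have hb := b.lin
      obtain ⟨-, k2, k3, -, -, k6, k7, -⟩ := this
      obtain ⟨-, -, -, -, -, -, -, k22⟩ := ha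
      obtain ⟨-, -, -, -, -, -, -, k33⟩ := hb
      lia
    · rcases a with a | a
      · have ha := a.lin; have hb := b.lin
        obtain ⟨-, k2, k3, -, -, k6, k7, -⟩ := this
        obtain ⟨-, -, -, k16, -⟩ := ha
        obtain ⟨-, -, -, k29, -⟩ := hb
        lia
      · rcases b with b | b
        · have ha := a.lin; have hb := b.lin
          obtain ⟨-, k2, k3, -, -, k6, k7, -⟩ := this
          obtain ⟨-, k14, -⟩ := ha
          obtain ⟨-, -, -, k40, -⟩ := hb
          lia
        · have := D.sA b a (by omega); lia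
  · intro X Y a b
    show X = D.d + D.h ∧ Y = -D.d - 2 * D.h
    rcases a with (a | a) | a
    · have ha := a.lin; have hb := b.lin
      obtain ⟨-, k2, k3, -, -, k6, k7, k8, -⟩ := this
      obtain ⟨-, -, -, k16, k17, -⟩ := ha
      obtain ⟨-, k25, -, -, -, -, -, k33⟩ := hb
      lia
    · have ha := a.lin; have hb := b.lin
      obtain ⟨-, k2, k3, -, -, k6, k7, k8, -⟩ := this
      obtain ⟨k13, -, -, -, k17, -⟩ := ha
      obtain ⟨-, k25, -, k27, -, -, -, k33⟩ := hb
      lia
    · rcases a with a | a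
      · have ha := a.lin; have hb := b.lin
        obtain ⟨-, k2, k3, -, -, k6, -, k8, -⟩ := this
        obtain ⟨-, -, k15, k16, k17⟩ := ha
        obtain ⟨-, k27, -, k29, -, k31, -⟩ := hb
        rcases k17 with ⟨k19, k20⟩ | ⟨k22, -⟩ | k24 <;> lia
      · rcases b with b | b
        · have ha := a.lin; have hb := b.lin
          obtain ⟨-, k2, k3, -, -, k6, -, k8, -⟩ := this
          obtain ⟨-, -, -, -, k23, -⟩ := ha
          obtain ⟨-, -, -, k40, -⟩ := hb
          lia
        · have ha := a.lin; have hb := b.lin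
          obtain ⟨-, k2, k3, k4, k5, k6, -, k8, -⟩ := this
          obtain ⟨k13, -, -, -, k23, k24, -⟩ := ha
          obtain ⟨k37, -, -, k40, -⟩ := hb
          rcases k24 with k25 | ⟨k27, k28⟩
          · lia
          · rcases k28 with k29 | k30 <;> lia

theorem arcMD : CArc (D.d + 2 * D.h, -2 * D.h) D.wMD (2 * D.d + 4 * D.h, D.d) D.MD := by
  have := D.aux
  have h0 := D.arcLs.p2 (P' := (D.d + 2 * D.h, -2 * D.h)) (Q' := (D.d + 2 * D.h + D.k - D.e, -D.e - 2 * D.h - D.k + 1)) (D.d + 2 * D.h) (-2 * D.h) (by dsimp only; omega)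
  have h1 := D.arcL.b2 (Q' := (D.d + 2 * D.h + D.k - D.e, -D.e - 2 * D.h - D.k + 1)) (P' := (3 * D.d + 4 * D.h, -2 * D.h)) (2 * D.d + 2 * D.h) (-2 * D.h) (by dsimp only; omega)
  have h2 := D.arcO.p1 (P' := (3 * D.d + 4 * D.h, -2 * D.h)) (Q' := (2 * D.d + 4 * D.h + D.k - D.e, D.d - D.e - D.k + 1)) (3 * D.d + 4 * D.h) D.d (by dsimp only; omega)
  have h3 := D.arcLs.b2 (Q' := (2 * D.d + 4 * D.h + D.k - D.e, D.d - D.e - D.k + 1)) (P' := (2 * D.d + 4 * D.h, D.d)) (2 * D.d + 4 * D.h) D.d (by dsimp only; omega)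
  refine ((h0.append h1 ?_).append h2 ?_).append h3 ?_
  · intro X Y a b
    show X = D.d + 2 * D.h + D.k - D.e ∧ Y = -D.e - 2 * D.h - D.k + 1
    have ha := a.lin; have hb := b.lin
    obtain ⟨-, k2, k3, -, -, k6, -, -, k9, -⟩ := this
    obtain ⟨-, k14, k15⟩ := ha
    obtain ⟨-, -, -, -, -, -, -, k39⟩ := hb
    rcases k39 with k40 | ⟨k42, k43⟩ | ⟨k45, -, k47⟩
    · rcases k15 with k16 | ⟨k18, -⟩
      · lia
      · rcases k18 with k19 | k20 <;> lia
    · rcases k15 with k16 | ⟨-, k21⟩ <;> lia
    · lia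
  · intro X Y a b
    show X = 3 * D.d + 4 * D.h ∧ Y = -2 * D.h
    rcases a with a | a
    · have ha := a.lin; have hb := b.lin
      obtain ⟨-, k2, k3, k4, k5, k6, k7, k8, -⟩ := this
      obtain ⟨k13, -, k15⟩ := ha
      obtain ⟨-, k24, -, -, k33, -, k38, -⟩ := hb
      rcases k15 with k16 | ⟨k18, k21⟩
      · lia
      · rcases k18 with k19 | k20 <;> lia
    · have := D.sB b.on a.on (by omega); lia
  · intro X Y a b
    show X = 2 * D.d + 4 * D.h + D.k - D.e ∧ Y = D.d - D.e - D.k + 1
    rcases a with (a | a) | a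
    · have ha := a.lin; have hb := b.lin
      obtain ⟨-, k2, k3, -, -, k6, k7, k8, -⟩ := this
      obtain ⟨-, -, k15⟩ := ha
      obtain ⟨-, -, k25⟩ := hb
      rcases k15 with k16 | ⟨k18, k21⟩
      · rcases k25 with k26 | ⟨k28, -⟩
        · lia
        · rcases k28 with k29 | k30 <;> lia
      · rcases k18 with k19 | k20
        · rcases k25 with k26 | ⟨k28, -⟩
          · lia
          · rcases k28 with k29 | k30 <;> lia
        · rcases k25 with k26 | ⟨k28, -⟩
          · lia
          · rcases k28 with k29 | k30 <;> lia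
    · have ha := a.lin; have hb := b.lin
      obtain ⟨-, k2, k3, -, -, k6, k7, k8, k9, -, k11⟩ := this
      obtain ⟨k13, -⟩ := ha
      obtain ⟨-, k40, k41⟩ := hb
      rcases k41 with k42 | ⟨k44, k47⟩
      · lia
      · rcases k44 with k45 | k46 <;> lia
    · have ha := a.lin; have hb := b.lin
      obtain ⟨-, k2, k3, -, -, k6, -, -, k9, -⟩ := this
      obtain ⟨-, -, -, -, -, -, -, k29⟩ := ha
      obtain ⟨-, k40, k41⟩ := hb
      rcases k29 with k30 | ⟨k32, k33⟩ | ⟨k35, -, k37⟩
      · rcases k41 with k42 | ⟨k44, -⟩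
        · lia
        · rcases k44 with k45 | k46 <;> lia
      · rcases k41 with k42 | ⟨-, k47⟩ <;> lia
      · lia

theorem arcQB : CArc (0, -D.d - 2 * D.h) D.qb (D.d + 2 * D.h, 0) D.QB := by
  have := D.aux
  have h0 := D.arcOM
  have h1 := D.arcMD
  have h2 := D.arcOM.b0 (Q' := (2 * D.d + 4 * D.h, D.d)) (P' := (D.d + 2 * D.h, 0)) (D.d + 2 * D.h) (D.d + 2 * D.h) (by dsimp only; omega)
  refine (h0.append h1 ?_).append h2 ?_
  · intro X Y a b
    show X = D.d + 2 * D.h ∧ Y = -2 * D.h
    rcases a with ((a | a) | a) | a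
    · have ha := a.lin; have hb := b.lin
      obtain ⟨-, k2, k3, -, -, k6, -⟩ := this
      obtain ⟨k13, k14, -, k16, -⟩ := ha
      obtain ⟨-, k25, -, k27, -⟩ := hb
      lia
    · have ha := a.lin; have hb := b.lin
      obtain ⟨-, k2, k3, -, -, k6, -⟩ := this
      obtain ⟨k13, k14, -⟩ := ha
      obtain ⟨-, k25, -⟩ := hb
      lia
    · have ha := a.lin; have hb := b.lin
      obtain ⟨-, k2, k3, -, -, k6, k7, k8, -⟩ := this
      obtain ⟨k13, k14, k15, -, k17, -⟩ := ha
      obtain ⟨-, -, -, k27, -, k29, -⟩ := hb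
      lia
    · rcases a with a | a
      · rcases b with ((b | b) | b) | b
        · rcases a with a | a
          · have ha := a.lin; have hb := b.lin
            obtain ⟨-, k2, k3, -, -, k6, -⟩ := this
            obtain ⟨k13, -, k15⟩ := ha
            obtain ⟨k23, -, k25⟩ := hb
            rcases k15 with k16 | ⟨k18, k21⟩
            · rcases k25 with k26 | ⟨k28, -⟩
              · lia
              · rcases k28 with k29 | k30 <;> lia
            · rcases k18 with k19 | k20
              · lia
              · rcases k25 with k26 | ⟨-, k31⟩ <;> lia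
          · have ha := a.lin; have hb := b.lin
            obtain ⟨-, k2, k3, -, -, k6, -, -, k9, k10, -⟩ := this
            obtain ⟨-, -, -, -, -, -, -, k32⟩ := ha
            obtain ⟨k42, -, k44⟩ := hb
            rcases k32 with k33 | ⟨k35, -⟩ | ⟨k38, -, k40⟩
            · lia
            · lia
            · rcases k44 with k45 | ⟨k47, k50⟩
              · lia
              · rcases k47 with k48 | k49 <;> lia
        · rcases a with a | a
          · have ha := a.lin; have hb := b.lin
            obtain ⟨-, k2, k3, -, -, k6, -, -, k9, k10, -⟩ := this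
            obtain ⟨k13, -, k15⟩ := ha
            obtain ⟨-, -, -, -, -, -, -, k39⟩ := hb
            rcases k39 with k40 | ⟨k42, -⟩ | ⟨k45, -, k47⟩
            · lia
            · lia
            · rcases k15 with k16 | ⟨-, k21⟩ <;> lia
          · have ha := a.lin; have hb := b.lin
            obtain ⟨-, k2, k3, -, k5, k6, -, -, k9, k10, -⟩ := this
            obtain ⟨-, k14, -, -, -, -, -, k32⟩ := ha
            obtain ⟨-, -, -, -, -, -, k57, k58⟩ := hb
            rcases k32 with k33 | ⟨k35, k36⟩ | ⟨k38, -, k40⟩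
            · lia
            · lia
            · rcases k58 with k59 | ⟨k61, -⟩ | ⟨k64, -⟩ <;> lia
        · have ha := a.lin; have hb := b.lin
          obtain ⟨-, k2, k3, -, -, k6, k7, k8, -⟩ := this
          obtain ⟨k13, -⟩ := ha
          obtain ⟨-, k23, -⟩ := hb
          lia
        · have ha := a.lin; have hb := b.lin
          obtain ⟨-, k2, k3, k4, k5, k6, k7, k8, -⟩ := this
          obtain ⟨k13, -, -, -, k17, -, -, k20⟩ := ha
          obtain ⟨k22, -, k24⟩ := hb
          rcases k24 with k25 | ⟨k27, k30⟩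
          · lia
          · rcases k27 with k28 | k29 <;> lia
      · have ha := a.lin; have hb := b.lin
        obtain ⟨-, k2, k3, -, -, k6, k7, -⟩ := this
        obtain ⟨-, -, -, k16, -⟩ := ha
        obtain ⟨-, k27, -⟩ := hb
        lia
  · intro X Y a b
    show X = 2 * D.d + 4 * D.h ∧ Y = D.d
    rcases a with a | a
    · have ha := a.lin; have hb := b.lin
      obtain ⟨-, k2, k3, -, -, k6, -⟩ := this
      obtain ⟨k13, -, k15, -, -, -, k19, -⟩ := ha
      obtain ⟨-, k23, -, -, -, k27, -⟩ := hb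
      lia
    · rcases b with ((b | b) | b) | b
      · have ha := a.lin; have hb := b.lin
        obtain ⟨-, k2, k3, -, -, k6, k7, k8, -⟩ := this
        obtain ⟨-, -, -, -, -, -, k19, -⟩ := ha
        obtain ⟨-, k23, -, k25, -, -, -, k31⟩ := hb
        lia
      · rcases b with b | b
        · rcases a with ((a | a) | a) | a
          · have ha := a.lin; have hb := b.lin
            obtain ⟨-, k2, k3, -, -, k6, -, -, k9, -, k11⟩ := this
            obtain ⟨-, k14, k15⟩ := ha
            obtain ⟨-, -, k25, -⟩ := hb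
            rcases k15 with k16 | ⟨k18, k21⟩
            · lia
            · rcases k18 with k19 | k20 <;> lia
          · have ha := a.lin; have hb := b.lin
            obtain ⟨-, k2, k3, -, -, k6, k7, k8, -⟩ := this
            obtain ⟨k13, -⟩ := ha
            obtain ⟨k39, -⟩ := hb
            lia
          · have ha := a.lin; have hb := b.lin
            obtain ⟨-, k2, k3, -, -, k6, k7, k8, -⟩ := this
            obtain ⟨-, k14, -⟩ := ha
            obtain ⟨-, -, -, k42, -⟩ := hb
            lia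
          · have ha := a.lin; have hb := b.lin
            obtain ⟨-, k2, k3, -, -, k6, k7, k8, -⟩ := this
            obtain ⟨k13, -, k15⟩ := ha
            obtain ⟨-, -, -, k26, -⟩ := hb
            rcases k15 with k16 | ⟨k18, k21⟩
            · lia
            · rcases k18 with k19 | k20 <;> lia
        · rcases a with ((a | a) | a) | a
          · have ha := a.lin; have hb := b.lin
            obtain ⟨-, k2, k3, -, -, k6, -, k8, k9, -, k11⟩ := this
            obtain ⟨-, k14, k15⟩ := ha
            obtain ⟨-, -, -, -, k33, -⟩ := hb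
            rcases k15 with k16 | ⟨k18, k21⟩
            · lia
            · rcases k18 with k19 | k20 <;> lia
          · have ha := a.lin; have hb := b.lin
            obtain ⟨-, k2, k3, -, -, k6, k7, k8, -⟩ := this
            obtain ⟨k13, -⟩ := ha
            obtain ⟨k39, -⟩ := hb
            lia
          · have ha := a.lin; have hb := b.lin
            obtain ⟨-, k2, k3, -, -, k6, k7, k8, -⟩ := this
            obtain ⟨-, k14, -⟩ := ha
            obtain ⟨-, -, -, -, -, -, k57, -⟩ := hb
            lia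
          · have ha := a.lin; have hb := b.lin
            obtain ⟨-, k2, k3, -, -, k6, k7, k8, k9, -, k11⟩ := this
            obtain ⟨k13, k14, k15⟩ := ha
            obtain ⟨-, k24, -, -, -, -, k41, -⟩ := hb
            rcases k15 with k16 | ⟨k18, k21⟩
            · lia
            · rcases k18 with k19 | k20 <;> lia
      · rcases b with b | b
        · rcases a with ((a | a) | a) | a
          · have ha := a.lin; have hb := b.lin
            obtain ⟨-, k2, k3, -, -, k6, k7, k8, -⟩ := this
            obtain ⟨k13, -, k15⟩ := ha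
            obtain ⟨-, -, -, k26, -⟩ := hb
            rcases k15 with k16 | ⟨k18, k21⟩
            · lia
            · rcases k18 with k19 | k20 <;> lia
          · have ha := a.lin; have hb := b.lin
            obtain ⟨-, k2, k3, -, -, k6, k7, k8, -⟩ := this
            obtain ⟨k13, -⟩ := ha
            obtain ⟨-, -, -, k42, -⟩ := hb
            lia
          · have ha := a.lin; have hb := b.lin
            obtain ⟨-, k2, k3, k4, k5, k6, -⟩ := this
            obtain ⟨-, k14, -, -, k23, -⟩ := ha
            obtain ⟨-, k40, k41, -⟩ := hb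
            lia
          · have ha := a.lin; have hb := b.lin
            obtain ⟨-, k2, k3, -, -, k6, -, -, k9, -, k11⟩ := this
            obtain ⟨-, k14, k15⟩ := ha
            obtain ⟨-, -, k25, -⟩ := hb
            rcases k15 with k16 | ⟨k18, k21⟩
            · lia
            · rcases k18 with k19 | k20 <;> lia
        · rcases a with ((a | a) | a) | a
          · have ha := a.lin; have hb := b.lin
            obtain ⟨-, k2, k3, -, -, k6, k7, k8, k9, -, k11⟩ := this
            obtain ⟨k13, k14, k15⟩ := ha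
            obtain ⟨k23, -, -, -, -, -, k41, -⟩ := hb
            rcases k15 with k16 | ⟨k18, k21⟩
            · lia
            · rcases k18 with k19 | k20 <;> lia
          · have ha := a.lin; have hb := b.lin
            obtain ⟨-, k2, k3, -, -, k6, k7, k8, -⟩ := this
            obtain ⟨k13, -⟩ := ha
            obtain ⟨-, -, -, -, -, -, k57, -⟩ := hb
            lia
          · have ha := a.lin; have hb := b.lin
            obtain ⟨-, k2, k3, -, -, k6, k7, k8, -⟩ := this
            obtain ⟨-, k14, -⟩ := ha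
            obtain ⟨-, k40, -⟩ := hb
            lia
          · have ha := a.lin; have hb := b.lin
            obtain ⟨-, k2, k3, -, -, k6, -, k8, k9, -, k11⟩ := this
            obtain ⟨-, k14, k15⟩ := ha
            obtain ⟨-, -, -, -, k33, -⟩ := hb
            rcases k15 with k16 | ⟨k18, k21⟩
            · lia
            · rcases k18 with k19 | k20 <;> lia
      · rcases b with b | b
        · rcases a with ((a | a) | a) | a
          · have ha := a.lin; have hb := b.lin
            obtain ⟨-, k2, k3, k4, k5, k6, k7, k8, -⟩ := this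
            obtain ⟨k13, -, k15⟩ := ha
            obtain ⟨-, k24, -, k26, -, -, -, k30⟩ := hb
            rcases k15 with k16 | ⟨k18, k21⟩
            · lia
            · rcases k18 with k19 | k20 <;> lia
          · have ha := a.lin; have hb := b.lin
            obtain ⟨-, k2, k3, -, -, k6, k7, k8, -⟩ := this
            obtain ⟨k13, -⟩ := ha
            obtain ⟨-, -, -, k42, -⟩ := hb
            lia
          · rcases b with b | b
            · have ha := a.lin; have hb := b.lin
              obtain ⟨-, k2, k3, -, -, k6, -⟩ := this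
              obtain ⟨-, k14, -, k19, -⟩ := ha
              obtain ⟨k39, -, k41⟩ := hb
              rcases k41 with k42 | ⟨k44, k47⟩
              · lia
              · rcases k44 with k45 | k46
                · lia
                · rcases k19 with k20 | k21 | k22 <;> lia
            · have ha := a.lin; have hb := b.lin
              obtain ⟨-, k2, k3, k4, -, k6, -, -, k9, k10, -⟩ := this
              obtain ⟨-, k14, -, k19, -⟩ := ha
              obtain ⟨-, k40, -, -, -, -, k57, k58⟩ := hb
              rcases k19 with k20 | k21 | k22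
              · rcases k58 with k59 | ⟨k61, -⟩ | ⟨k64, -⟩ <;> lia
              · lia
              · lia
          · rcases b with b | b
            · have ha := a.lin; have hb := b.lin
              obtain ⟨-, k2, k3, -, -, k6, -⟩ := this
              obtain ⟨k13, -, k15⟩ := ha
              obtain ⟨k23, -, k25⟩ := hb
              rcases k15 with k16 | ⟨k18, k21⟩
              · rcases k25 with k26 | ⟨k28, -⟩
                · lia
                · rcases k28 with k29 | k30 <;> lia
              · rcases k18 with k19 | k20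
                · rcases k25 with k26 | ⟨-, k31⟩ <;> lia
                · lia
            · have ha := a.lin; have hb := b.lin
              obtain ⟨-, k2, k3, -, -, k6, -, -, k9, k10, -⟩ := this
              obtain ⟨k13, -, k15⟩ := ha
              obtain ⟨-, -, -, -, -, -, k41, k42⟩ := hb
              rcases k42 with k43 | ⟨k45, -⟩ | ⟨k48, -⟩
              · lia
              · lia
              · rcases k15 with k16 | ⟨k18, k21⟩
                · lia
                · rcases k18 with k19 | k20 <;> lia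
        · rcases a with ((a | a) | a) | a
          · have ha := a.lin; have hb := b.lin
            obtain ⟨-, k2, k3, -, -, k6, k7, k8, k9, -, k11⟩ := this
            obtain ⟨-, k14, k15⟩ := ha
            obtain ⟨-, -, k25, -⟩ := hb
            rcases k15 with k16 | ⟨k18, k21⟩
            · lia
            · rcases k18 with k19 | k20 <;> lia
          · have ha := a.lin; have hb := b.lin
            obtain ⟨-, k2, k3, -, -, k6, k7, k8, -⟩ := this
            obtain ⟨k13, -⟩ := ha
            obtain ⟨k39, -⟩ := hb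
            lia
          · have ha := a.lin; have hb := b.lin
            obtain ⟨-, k2, k3, -, -, k6, k7, -⟩ := this
            obtain ⟨-, k14, -⟩ := ha
            obtain ⟨-, -, -, k42, -⟩ := hb
            lia
          · have ha := a.lin; have hb := b.lin
            obtain ⟨-, k2, k3, -, k5, k6, k7, -, k9, -, k11⟩ := this
            obtain ⟨k13, k14, k15⟩ := ha
            obtain ⟨-, k24, -, k26, -⟩ := hb
            rcases k15 with k16 | ⟨k18, k21⟩
            · lia
            · rcases k18 with k19 | k20 <;> lia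

variable {D} in
theorem qqb {X1 Y1 X2 Y2 : ℤ} (a : D.QB X1 Y1) (b : D.QB X2 Y2)
    (e : X2 = Y1 ∧ Y2 = -X1) :
    X1 = D.d + 2 * D.h ∧ Y1 = 0 := by
  have := D.aux
  rcases a with (a | a) | a
  · have ha := a.lin; have hb := b.lin
    obtain ⟨-, k2, k3, -, -, k6, -⟩ := this
    obtain ⟨k13, k14⟩ := e
    obtain ⟨-, -, k18, -, -, -, k22, -⟩ := ha
    obtain ⟨-, k26, -, -, -, k30, -⟩ := hb
    lia
  · have ha := a.lin; have hb := b.lin
    obtain ⟨-, k2, k3, -, -, k6, k7, k8, -⟩ := this
    obtain ⟨k13, k14⟩ := e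
    obtain ⟨-, -, -, -, k20, -, k22, -⟩ := ha
    obtain ⟨-, k26, -, -, -, k30, -⟩ := hb
    lia
  · rcases b with (b | b) | b
    · rcases a with ((a | a) | a) | a
      · rcases b with ((b | b) | b) | b
        · rcases a with a | a
          · rcases b with b | b
            · rcases a with a | a
              · rcases b with b | b
                · have ha := a.lin; have hb := b.lin
                  obtain ⟨-, k2, k3, -, -, k6, -⟩ := this
                  obtain ⟨k13, k14⟩ := e
                  obtain ⟨k16, -, k18⟩ := ha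
                  obtain ⟨k26, -, k28⟩ := hb
                  rcases k18 with k19 | ⟨k21, k24⟩
                  · rcases k28 with k29 | ⟨k31, -⟩
                    · lia
                    · rcases k31 with k32 | k33 <;> lia
                  · rcases k21 with k22 | k23
                    · lia
                    · rcases k28 with k29 | ⟨-, k34⟩ <;> lia
                · have ha := a.lin; have hb := b.lin
                  obtain ⟨-, k2, k3, -, -, k6, -⟩ := this
                  obtain ⟨k13, k14⟩ := e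
                  obtain ⟨k16, -, k18⟩ := ha
                  obtain ⟨-, k27, -, k32, -⟩ := hb
                  rcases k18 with k19 | ⟨k21, k24⟩
                  · lia
                  · rcases k21 with k22 | k23
                    · lia
                    · rcases k32 with k33 | k34 | k35 <;> lia
              · rcases b with b | b
                · have ha := a.lin; have hb := b.lin
                  obtain ⟨-, k2, k3, -, -, k6, -, -, k9, k10, -⟩ := this
                  obtain ⟨k13, k14⟩ := e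
                  obtain ⟨-, -, -, -, -, -, -, k35⟩ := ha
                  obtain ⟨k45, -, k47⟩ := hb
                  rcases k35 with k36 | ⟨k38, -⟩ | ⟨k41, -, k43⟩
                  · lia
                  · lia
                  · rcases k47 with k48 | ⟨k50, k53⟩
                    · lia
                    · rcases k50 with k51 | k52 <;> lia
                · have ha := a.lin; have hb := b.lin
                  obtain ⟨-, k2, k3, k4, -, k6, -, -, k9, k10, -⟩ := this
                  obtain ⟨k13, k14⟩ := e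
                  obtain ⟨-, k17, -, -, -, -, k34, k35⟩ := ha
                  obtain ⟨-, k46, -, k51, -⟩ := hb
                  rcases k51 with k52 | k53 | k54
                  · rcases k35 with k36 | ⟨k38, -⟩ | ⟨-, -, k43⟩ <;> lia
                  · lia
                  · lia
            · have ha := a.lin; have hb := b.lin
              obtain ⟨-, k2, k3, -, -, k6, k7, -⟩ := this
              obtain ⟨-, k14⟩ := e
              obtain ⟨-, -, -, k19, -⟩ := ha
              obtain ⟨-, -, -, k28, -⟩ := hb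
              lia
          · have ha := a.lin; have hb := b.lin
            obtain ⟨-, k2, k3, -, -, -, k7, -⟩ := this
            obtain ⟨k13, -⟩ := e
            obtain ⟨-, -, -, k19, -⟩ := ha
            obtain ⟨-, -, k31, -⟩ := hb
            lia
        · have ha := a.lin; have hb := b.lin
          obtain ⟨-, k2, k3, -, -, -, k7, -⟩ := this
          obtain ⟨k13, -⟩ := e
          obtain ⟨k16, -⟩ := ha
          obtain ⟨-, k28, -⟩ := hb
          lia
        · have ha := a.lin; have hb := b.lin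
          obtain ⟨-, k2, k3, -, -, k6, k7, -⟩ := this
          obtain ⟨k13, k14⟩ := e
          obtain ⟨-, -, -, -, k20, -⟩ := ha
          obtain ⟨-, -, -, -, -, -, -, k36⟩ := hb
          lia
        · have ha := a.lin; have hb := b.lin
          obtain ⟨-, k2, k3, -, -, k6, k7, -⟩ := this
          obtain ⟨k13, -⟩ := e
          obtain ⟨-, k17, -, -, k20, -, -, k25⟩ := ha
          obtain ⟨-, k28, -⟩ := hb
          lia
      · have ha := a.lin; have hb := b.lin
        obtain ⟨-, k2, k3, -, -, k6, -, k8, -⟩ := this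
        obtain ⟨k13, k14⟩ := e
        obtain ⟨-, k17, k18, -⟩ := ha
        obtain ⟨-, -, -, -, -, k32, k33, -⟩ := hb
        lia
      · have ha := a.lin; have hb := b.lin
        obtain ⟨-, k2, k3, -, -, k6, k7, -⟩ := this
        obtain ⟨k13, k14⟩ := e
        obtain ⟨-, k17, -, k19, -⟩ := ha
        obtain ⟨-, k28, -, -, -, k32, -⟩ := hb
        lia
      · have ha := a.lin; have hb := b.lin
        obtain ⟨-, k2, k3, -, -, k6, k7, -⟩ := this
        obtain ⟨k13, k14⟩ := e
        obtain ⟨-, k17, k18, -⟩ := ha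
        obtain ⟨-, -, -, k30, -, k32, -⟩ := hb
        lia
    · have ha := a.lin; have hb := b.lin
      obtain ⟨-, k2, k3, -, -, k6, -⟩ := this
      obtain ⟨k13, k14⟩ := e
      obtain ⟨-, k17, -, -, -, -, k22, -⟩ := ha
      obtain ⟨-, -, k27, k28, -, k30, -⟩ := hb
      lia
    · have ha := a.lin; have hb := b.lin
      obtain ⟨-, k2, k3, -, -, k6, -⟩ := this
      obtain ⟨k13, k14⟩ := e
      obtain ⟨-, -, -, -, -, k21, k22, -⟩ := ha
      obtain ⟨-, -, -, -, -, k30, -, k32⟩ := hb
      lia

theorem arcB3 : CArc (-D.d, 2 * D.d + 3 * D.h) D.wB3 (-2 * D.d - 2 * D.h, 3 * D.d + 5 * D.h) D.B3 := by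
  have := D.aux
  have h0 := D.arcQB.p0 (P' := (-D.d, 2 * D.d + 3 * D.h)) (Q' := (2 * D.h, 3 * D.d + 5 * D.h)) (-D.d) (3 * D.d + 5 * D.h) (by dsimp only; omega)
  have h1 := D.arcQB.p1 (P' := (2 * D.h, 3 * D.d + 5 * D.h)) (Q' := (-D.d, 4 * D.d + 7 * D.h)) (-D.d) (3 * D.d + 5 * D.h) (by dsimp only; omega)
  have h2 := D.arcQB.p2 (P' := (-D.d, 4 * D.d + 7 * D.h)) (Q' := (-2 * D.d - 2 * D.h, 3 * D.d + 5 * D.h)) (-D.d) (3 * D.d + 5 * D.h) (by dsimp only; omega)
  refine (h0.append h1 ?_).append h2 ?_
  · intro X Y a b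
    show X = 2 * D.h ∧ Y = 3 * D.d + 5 * D.h
    have := qqb a b (by omega); lia
  · intro X Y a b
    show X = -D.d ∧ Y = 4 * D.d + 7 * D.h
    rcases a with a | a
    · have ha := a.lin; have hb := b.lin
      obtain ⟨-, k2, k3, -, -, k6, -⟩ := this
      obtain ⟨-, k14, -, -, -, k18, k19, -⟩ := ha
      obtain ⟨-, k23, k24, -⟩ := hb
      lia
    · have := qqb a b (by omega); lia

theorem arcRB : CArc (-2 * D.d - 2 * D.h, 3 * D.d + 5 * D.h) D.wRB (-D.d, 2 * D.d + 3 * D.h) D.RB := by
  have := D.aux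
  have h0 := D.arcLb.p0 (P' := (-2 * D.d - 2 * D.h, 3 * D.d + 5 * D.h)) (Q' := (-D.d, 3 * D.d + 5 * D.h)) (-2 * D.d - 2 * D.h) (3 * D.d + 5 * D.h) (by dsimp only; omega)
  have h1 := D.arcLb.b1 (Q' := (-D.d, 3 * D.d + 5 * D.h)) (P' := (-D.d, 2 * D.d + 3 * D.h)) (-D.d) (2 * D.d + 3 * D.h) (by dsimp only; omega)
  refine h0.append h1 ?_
  · intro X Y a b
    show X = -D.d ∧ Y = 3 * D.d + 5 * D.h
    have ha := a.lin; have hb := b.lin
    obtain ⟨-, k14, k15⟩ := ha
    obtain ⟨-, -, k19⟩ := hb
    clear this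
    lia

theorem sA0 : Simple (D.d + D.h, 0) (D.wA3 ++ D.wRA) ∧
    ∀ z ∈ verts (D.d + D.h, 0) (D.wA3 ++ D.wRA), D.EA z.1 z.2 := by
  have := D.aux
  refine D.arcA3.simple D.arcRA (fun X Y a b => ?_) (by
    have := length_ea (n := D.a) (by omega)
    simp only [wRA, wR, List.length_append, length_rot, length_back]
    omega)
  show (X = D.d + D.h ∧ Y = 0) ∨ (X = 0 ∧ Y = -D.d - D.h)
  rcases a with (a | a) | a
  · rcases a with (a | a) | a
    · rcases b with b | b
      · have ha := a.lin; have hb := b.lin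
        obtain ⟨-, k2, k3, -, -, k6, k7, k8, -⟩ := this
        obtain ⟨-, -, -, k16, -, k18, -⟩ := ha
        obtain ⟨k22, -, k24, -⟩ := hb
        lia
      · rcases b with (b | b) | b
        · have ha := a.lin; have hb := b.lin
          obtain ⟨k13, -, -, k16, -⟩ := ha
          obtain ⟨k22, -, k24⟩ := hb
          clear this
          refine .inl ?_; lia
        · have ha := a.lin; have hb := b.lin
          obtain ⟨-, -, -, k16, -⟩ := ha
          obtain ⟨-, -, k24⟩ := hb
          clear this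
          lia
        · have ha := a.lin; have hb := b.lin
          obtain ⟨-, k2, k3, -, -, k6, k7, k8, -⟩ := this
          obtain ⟨-, -, -, k16, -, k18, -⟩ := ha
          obtain ⟨-, k23, k24⟩ := hb
          lia
    · have ha := a.lin; have hb := b.lin
      obtain ⟨-, k2, k3, -, -, k6, -⟩ := this
      obtain ⟨-, -, -, k18, -⟩ := ha
      obtain ⟨-, -, k28, k29, -⟩ := hb
      lia
    · have ha := a.lin; have hb := b.lin
      obtain ⟨-, k2, k3, -, -, k6, -⟩ := this
      obtain ⟨-, -, -, -, k23, -⟩ := ha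
      obtain ⟨-, -, k42, -, k44, k45, -⟩ := hb
      lia
  · have ha := a.lin; have hb := b.lin
    obtain ⟨-, k2, k3, -, -, k6, k7, k8, -⟩ := this
    obtain ⟨-, -, -, -, -, k18, -⟩ := ha
    obtain ⟨-, -, -, -, -, -, k28, -⟩ := hb
    lia
  · rcases a with (a | a) | a
    · have ha := a.lin; have hb := b.lin
      obtain ⟨-, k2, k3, -, -, k6, k7, k8, -⟩ := this
      obtain ⟨-, k14, -⟩ := ha
      obtain ⟨-, k23, -⟩ := hb
      lia
    · have ha := a.lin; have hb := b.lin
      obtain ⟨-, k2, k3, -, k5, k6, -⟩ := this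
      obtain ⟨-, k14, -, -, -, k20, -, k24⟩ := ha
      obtain ⟨k26, -, -, k29, -, -, -, k33⟩ := hb
      lia
    · rcases b with b | b
      · have ha := a.lin; have hb := b.lin
        obtain ⟨k13, -, -, -, k23, -⟩ := ha
        obtain ⟨k40, -, -, k43, -⟩ := hb
        clear this
        refine .inr ?_; lia
      · have ha := a.lin; have hb := b.lin
        obtain ⟨-, k2, k3, -, -, k6, k7, k8, -⟩ := this
        obtain ⟨k13, -, -, -, k23, -⟩ := ha
        obtain ⟨-, k41, -, k43, -⟩ := hb
        lia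

theorem sA1 : OutE D.EA 0 (-D.d - D.h + 1) := by
  have := D.aux
  refine .rayE fun V _ h => ?_
  rcases h with h | h
  · rcases h with (h | h) | h
    · have := h.lin; lia
    · have := h.lin; lia
    · rcases h with (h | h) | h
      · have := h.lin; lia
      · have := h.lin; lia
      · have := h.lin; lia
  · rcases h with h | h
    · rcases h with (h | h) | h
      · have := h.lin; lia
      · have := h.lin; lia
      · have := h.lin; lia
    · have := h.lin; lia

theorem sA2 : Ccw (D.d + D.h, 0) (D.wA3 ++ D.wRA) := by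
  have := D.aux
  exact ccw_env (Q := (0, -D.d - D.h)) (d := 2) D.sA0.1 D.sA0.2 (sMem_edges_right D.arcA3.1 (sMem_edges_left (sMem_edges_left (sMem_edges_left (edge_ea _ 2 (by omega)) _) _) _))
    D.sA1 (by ext <;> simp [dv] <;> omega)

theorem sB0 : Simple (-D.d, 2 * D.d + 3 * D.h) (D.wB3 ++ D.wRB) ∧
    ∀ z ∈ verts (-D.d, 2 * D.d + 3 * D.h) (D.wB3 ++ D.wRB), D.EB z.1 z.2 := by
  have := D.aux
  refine D.arcB3.simple D.arcRB (fun X Y a b => ?_) (by
    have := length_ea (n := D.b) (by omega)
    simp only [wRB, List.length_append, length_rot, length_back]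
    omega)
  show (X = -D.d ∧ Y = 2 * D.d + 3 * D.h) ∨ (X = -2 * D.d - 2 * D.h ∧ Y = 3 * D.d + 5 * D.h)
  rcases a with (a | a) | a
  · have ha := a.lin; have hb := b.lin
    obtain ⟨-, k2, k3, -, -, k6, -⟩ := this
    obtain ⟨-, k14, -, -, -, -, k19, -⟩ := ha
    obtain ⟨k22, -, -, k25, -⟩ := hb
    refine .inl ?_; lia
  · have ha := a.lin; have hb := b.lin
    obtain ⟨-, k2, k3, -, -, k6, k7, k8, -⟩ := this
    obtain ⟨-, k14, -, -, -, -, k19, -⟩ := ha
    obtain ⟨k22, -, k24, k25, -, -, -, k29⟩ := hb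
    lia
  · have ha := a.lin; have hb := b.lin
    obtain ⟨-, k2, k3, -, -, k6, -⟩ := this
    obtain ⟨-, -, -, -, -, -, k19, -⟩ := ha
    obtain ⟨-, k23, k24, -, -, -, k28, -⟩ := hb
    refine .inr ?_; lia

theorem sB1 : OutE D.EB (-2 * D.d - 2 * D.h) (3 * D.d + 5 * D.h - 1) := by
  have := D.aux
  refine .rayS fun V _ h => ?_
  rcases h with h | h
  · rcases h with (h | h) | h
    · have := h.lin; lia
    · have := h.lin; lia
    · have := h.lin; lia
  · have := h.lin; lia

theorem sB2 : Ccw (-D.d, 2 * D.d + 3 * D.h) (D.wB3 ++ D.wRB) := by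
  have := D.aux
  exact ccw_env (Q := (-2 * D.d - 2 * D.h, 3 * D.d + 5 * D.h)) (d := 0) D.sB0.1 D.sB0.2 (sMem_edges_right D.arcB3.1 (sMem_edges_left (by simpa only [rot_zero] using edge_ea _ 0 (show 0 < D.b by omega)) _))
    D.sB1 (by ext <;> simp [dv] <;> omega)

theorem covA2 : Cov (-D.e, 3 * D.h + 1) D.wA2 (D.d + D.h, 0) D.A2 := by
  have := D.aux
  have h0 := (D.arcB.b1 (Q' := (-D.e, 3 * D.h + 1)) (P' := (0, D.d + D.h)) 0 (2 * D.d + 3 * D.h) (by dsimp only; omega)).cov
  have h1 := (D.arcQA.p1 (P' := (0, D.d + D.h)) (Q' := (-D.d - D.h, 0)) 0 0 (by dsimp only; omega)).cov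
  have h2 := (D.arcQA.p2 (P' := (-D.d - D.h, 0)) (Q' := (0, -D.d - D.h)) 0 0 (by dsimp only; omega)).cov
  have h3 := (D.arcRA).cov
  exact ((h0.append h1).append h2).append h3

theorem covC1 : Cov (-D.d, 2 * D.d + 3 * D.h) D.wC1 (-D.e, 3 * D.h + 1) D.C1 := by
  have := D.aux
  have h0 := (D.arcN0.p1 (P' := (-D.d, 2 * D.d + 3 * D.h)) (Q' := (-D.e, 3 * D.h + 1)) 0 (2 * D.d + 3 * D.h) (by dsimp only; omega)).cov
  exact h0

theorem covC0 : Cov (D.d + D.e + D.h - D.k, 2 * D.d + D.e + 2 * D.h + D.k - 1) D.wC0 (2 * D.h, 3 * D.d + 5 * D.h) D.C0 := by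
  have := D.aux
  have h0 := (D.arcU.b3 (Q' := (D.d + D.e + D.h - D.k, 2 * D.d + D.e + 2 * D.h + D.k - 1)) (P' := (D.e + D.h, 4 * D.d + 2 * D.h - 1)) D.h (2 * D.d + 2 * D.h) (by dsimp only; omega)).cov
  have h1 := (D.arcMU.b3 (Q' := (D.e + D.h, 4 * D.d + 2 * D.h - 1)) (P' := (D.h, 2 * D.d + 3 * D.h)) D.h (2 * D.d + 3 * D.h) (by dsimp only; omega)).cov
  have h2 := (D.arcNU.b0 (Q' := (D.h, 2 * D.d + 3 * D.h)) (P' := (2 * D.h, 3 * D.d + 3 * D.h)) (2 * D.h) (2 * D.d + 3 * D.h) (by dsimp only; omega)).cov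
  have h3 := (D.arcMD.p0 (P' := (2 * D.h, 3 * D.d + 3 * D.h)) (Q' := (D.d + 4 * D.h, 4 * D.d + 5 * D.h)) (-D.d) (3 * D.d + 5 * D.h) (by dsimp only; omega)).cov
  have h4 := (D.arcOM.b0 (Q' := (D.d + 4 * D.h, 4 * D.d + 5 * D.h)) (P' := (2 * D.h, 3 * D.d + 5 * D.h)) (2 * D.h) (4 * D.d + 7 * D.h) (by dsimp only; omega)).cov
  exact (((h0.append h1).append h2).append h3).append h4

theorem covC2 : Cov (D.d + D.e + D.h - D.k, 2 * D.d + D.e + 2 * D.h + D.k - 1) D.wC2 (-D.d, 2 * D.d + 3 * D.h) D.C2 := by
  have := D.aux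
  have h0 := D.covC0
  have h1 := (D.arcQB.p1 (P' := (2 * D.h, 3 * D.d + 5 * D.h)) (Q' := (-D.d, 4 * D.d + 7 * D.h)) (-D.d) (3 * D.d + 5 * D.h) (by dsimp only; omega)).cov
  have h2 := (D.arcQB.p2 (P' := (-D.d, 4 * D.d + 7 * D.h)) (Q' := (-2 * D.d - 2 * D.h, 3 * D.d + 5 * D.h)) (-D.d) (3 * D.d + 5 * D.h) (by dsimp only; omega)).cov
  have h3 := (D.arcRB).cov
  exact ((h0.append h1).append h2).append h3

theorem eA' : D.wA3 ++ D.wRA = D.wA0 ++ (D.π ++ D.wA2) := by
  simp [wA3, wA2, qa]

theorem eqb : D.qb = D.wC1 ++ (back 0 D.π ++ D.wC0) := by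
  simp [qb, ω, ν, κ, π, wC1, wC0, eM, eK, eI, rot_append, back_append, back_back, rot_back, back_rot, rot_rot, rot_zero]

theorem eB' : D.wB3 ++ D.wRB = D.wC1 ++ (back 0 D.π ++ D.wC2) := by
  rw [wB3, wC2]
  nth_rw 1 [D.eqb]
  simp only [List.append_assoc]

theorem nμ : D.μ ≠ [] := by
  have := D.aux
  exact List.append_ne_nil_of_right_ne_nil _ (rot_ne (ea_ne (by omega)))

theorem π_ne : D.π ≠ [] := List.append_ne_nil_of_right_ne_nil _ (rot_ne D.nμ)

theorem arcAL : CArc (-D.e, 3 * D.h + 1) D.α (D.d + D.e + D.h - D.k, 2 * D.d + D.e + 2 * D.h + D.k - 1) D.AL :=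
  Simple.rest (D.eA' ▸ D.sA0.1) D.π_ne D.covA2 D.arcA0.cov D.arcPI.1

theorem arcBE : CArc (D.d + D.e + D.h - D.k, 2 * D.d + D.e + 2 * D.h + D.k - 1) D.β (-D.e, 3 * D.h + 1) D.BE :=
  Simple.rest (D.eB' ▸ D.sB0.1) (back_ne D.π_ne) D.covC2 D.covC1 D.arcPI.back.1

theorem sC0 : Simple (-D.e, 3 * D.h + 1) (D.α ++ D.β) ∧
    ∀ z ∈ verts (-D.e, 3 * D.h + 1) (D.α ++ D.β), D.EC z.1 z.2 := by
  have := D.aux
  refine D.arcAL.simple D.arcBE (fun X Y a b => ?_) (by
    have := length_ea (n := D.a) (by omega)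
    simp only [α, wA2, wRA, wR, List.length_append, length_rot, length_back]
    omega)
  show (X = -D.e ∧ Y = 3 * D.h + 1) ∨ (X = D.d + D.e + D.h - D.k ∧ Y = 2 * D.d + D.e + 2 * D.h + D.k - 1)
  rcases b with b | b
  · rcases b with ((b | b) | b) | b
    · rcases a with a | a
      · have ha := a.lin; have hb := b.lin
        obtain ⟨-, k2, k3, k4, -, k6, k7, -⟩ := this
        obtain ⟨-, -, -, -, k17, -⟩ := ha
        obtain ⟨-, -, -, -, -, k27, -⟩ := hb
        lia
      · rcases b with (((b | b) | b) | b) | b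
        · rcases a with (a | a) | a
          · have ha := a.lin; have hb := b.lin
            obtain ⟨-, k2, k3, k4, k5, k6, -, -, k9, k10, -⟩ := this
            obtain ⟨k13, -, -, -, -, -, k28, -⟩ := ha
            obtain ⟨-, -, -, -, -, -, -, k58⟩ := hb
            rcases k58 with k59 | ⟨k61, k62⟩ | ⟨k64, k65, k66⟩
            · lia
            · lia
            · refine .inr ?_; lia
          · have ha := a.lin; have hb := b.lin
            obtain ⟨-, k2, k3, -, -, k6, -, -, k9, k10, -⟩ := this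
            obtain ⟨k13, -, k15⟩ := ha
            obtain ⟨-, -, -, -, -, -, -, k42⟩ := hb
            rcases k42 with k43 | ⟨k45, -⟩ | ⟨k48, -, k50⟩
            · lia
            · lia
            · rcases k15 with k16 | ⟨k18, k21⟩
              · lia
              · rcases k18 with k19 | k20 <;> lia
          · have ha := a.lin; have hb := b.lin
            obtain ⟨-, k2, k3, -, -, k6, -, -, k9, -⟩ := this
            obtain ⟨-, k14, k15⟩ := ha
            obtain ⟨-, -, -, -, -, -, -, k42⟩ := hb
            rcases k42 with k43 | ⟨k45, k46⟩ | ⟨k48, -, k50⟩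
            · rcases k15 with k16 | ⟨k18, -⟩
              · lia
              · rcases k18 with k19 | k20 <;> lia
            · rcases k15 with k16 | ⟨-, k21⟩ <;> lia
            · refine .inr ?_; lia
        · have ha := a.lin; have hb := b.lin
          obtain ⟨-, k2, k3, -, -, k6, -, -, k9, -, k11⟩ := this
          obtain ⟨k13, -, -, -, -, -, k19, -⟩ := ha
          obtain ⟨-, -, -, k25, -⟩ := hb
          lia
        · have ha := a.lin; have hb := b.lin
          obtain ⟨-, k2, k3, -, -, k6, -, -, k9, -, k11⟩ := this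
          obtain ⟨-, -, -, -, -, -, k19, -⟩ := ha
          obtain ⟨-, -, -, -, -, -, -, k31⟩ := hb
          lia
        · have ha := a.lin; have hb := b.lin
          obtain ⟨-, k2, k3, -, -, k6, -, k8, k9, -, k11⟩ := this
          obtain ⟨k13, -, -, -, -, -, k19, -⟩ := ha
          obtain ⟨-, -, -, k25, -⟩ := hb
          lia
        · have ha := a.lin; have hb := b.lin
          obtain ⟨-, k2, k3, -, -, k6, -, k8, -⟩ := this
          obtain ⟨-, k14, -, -, k17, -⟩ := ha
          obtain ⟨-, k23, -, -, -, -, -, k29⟩ := hb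
          lia
    · have ha := a.lin; have hb := b.lin
      obtain ⟨-, k2, k3, -, -, k6, k7, k8, -⟩ := this
      obtain ⟨-, -, -, -, k17, -, k19, -⟩ := ha
      obtain ⟨-, -, -, -, -, k27, k28, -⟩ := hb
      lia
    · have ha := a.lin; have hb := b.lin
      obtain ⟨-, k2, k3, -, -, k6, -⟩ := this
      obtain ⟨-, k14, -, -, -, -, k19, -⟩ := ha
      obtain ⟨-, k23, k24, -, -, k27, k28, -⟩ := hb
      lia
    · rcases a with a | a
      · have ha := a.lin; have hb := b.lin
        obtain ⟨-, k2, k3, -, -, k6, k7, -⟩ := this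
        obtain ⟨-, -, k15, -⟩ := ha
        obtain ⟨-, -, -, k25, -⟩ := hb
        lia
      · have ha := a.lin; have hb := b.lin
        obtain ⟨-, k2, k3, -, -, k6, -⟩ := this
        obtain ⟨k13, k14, -⟩ := ha
        obtain ⟨k22, k23, -⟩ := hb
        lia
  · rcases a with a | a
    · rcases a with ((a | a) | a) | a
      · unfold C1 at b
        · rcases b with b | b
          · have ha := a.lin; have hb := b.lin
            obtain ⟨-, k2, k3, -, -, k6, -, -, k9, -, k11⟩ := this
            obtain ⟨-, k14, -, -, -, -, k28, -⟩ := ha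
            obtain ⟨-, k41, -⟩ := hb
            lia
          · have := D.sF a b (by omega); lia
      · have ha := a.lin; have hb := b.lin
        obtain ⟨-, k2, k3, -, -, k6, -, k8, -⟩ := this
        obtain ⟨-, -, -, -, -, -, -, k20⟩ := ha
        obtain ⟨-, -, -, k25, -, -, k28, -⟩ := hb
        lia
      · have ha := a.lin; have hb := b.lin
        obtain ⟨-, k2, k3, -, -, k6, -, k8, -⟩ := this
        obtain ⟨-, k14, -, -, -, -, -, k20⟩ := ha
        obtain ⟨-, -, -, -, -, k27, -⟩ := hb
        lia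
      · have ha := a.lin; have hb := b.lin
        obtain ⟨-, k2, k3, -, -, k6, -, k8, -⟩ := this
        obtain ⟨-, -, -, -, k17, -⟩ := ha
        obtain ⟨-, -, -, k25, -, -, k28, -⟩ := hb
        lia
    · have ha := a.lin; have hb := b.lin
      obtain ⟨-, k2, k3, -, -, k6, -, k8, k9, -, k11⟩ := this
      obtain ⟨-, -, -, -, -, -, k19, -⟩ := ha
      obtain ⟨-, -, -, k25, k26, -⟩ := hb
      lia

theorem sC1 : OutE D.EC 0 (-D.d - D.h + 1) := by
  have := D.aux
  refine .rayE fun V _ h => ?_
  rcases h with h | h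
  · rcases h with h | h
    · rcases h with ((h | h) | h) | h
      · have := h.lin; lia
      · have := h.lin; lia
      · rcases h with (h | h) | h
        · have := h.lin; lia
        · have := h.lin; lia
        · have := h.lin; lia
      · rcases h with h | h
        · rcases h with (h | h) | h
          · have := h.lin; lia
          · have := h.lin; lia
          · have := h.lin; lia
        · have := h.lin; lia
    · have := h.lin; lia
  · have := h.lin; lia

theorem sC2 : Ccw (-D.e, 3 * D.h + 1) (D.α ++ D.β) := by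
  have := D.aux
  exact ccw_env (Q := (0, -D.d - D.h)) (d := 2) D.sC0.1 D.sC0.2 (sMem_edges_left (sMem_edges_left (sMem_edges_right (((D.arcB.b1 (Q' := (-D.e, 3 * D.h + 1)) (P' := (0, D.d + D.h)) 0 (2 * D.d + 3 * D.h) (by dsimp only; omega)).cov.append (D.arcQA.p1 (P' := (0, D.d + D.h)) (Q' := (-D.d - D.h, 0)) 0 0 (by dsimp only; omega)).cov).append (D.arcQA.p2 (P' := (-D.d - D.h, 0)) (Q' := (0, -D.d - D.h)) 0 0 (by dsimp only; omega)).cov).1 (sMem_edges_left (sMem_edges_left (sMem_edges_left (edge_ea _ 2 (by omega)) _) _) _)) _) _)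
    D.sC1 (by ext <;> simp [dv] <;> omega)

end DE

end NP
end Pool.Agent.Lib.MP_4a7072_co
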