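import Pool.Agent.Lib.MP_4a7072_co.FBase

/-!
General tools: placing arcs, nets from envelopes, pinwheels.
-/

set_option autoImplicit false
set_option linter.unnecessarySeqFocus false
set_option linter.unusedSimpArgs false

namespace Pool.Agent.Lib.MP_4a7072_co
namespace NP

open RTree (endP_append edges_append)

section

variable {P Q R P' Q' : Pt} {u v w : List Dir} {A B : ℤ → ℤ → Prop}

theorem CArc.p0 (h : CArc P w Q A) (c e : ℤ)
    (g : P'.1 = c + P.1 ∧ P'.2 = e + P.2 ∧ Q'.1 = c + Q.1 ∧ Q'.2 = e + Q.2) :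
    CArc P' w Q' fun X Y => A (X - c) (Y - e) :=
  h.shift (c, e) (Prod.ext (by simp only [Prod.fst_add]; omega) (by simp only [Prod.snd_add]; omega))
    (Prod.ext (by simp only [Prod.fst_add]; omega) (by simp only [Prod.snd_add]; omega))
    fun _ _ a => a

theorem CArc.p1 (h : CArc P w Q A) (c e : ℤ)
    (g : P'.1 = c - P.2 ∧ P'.2 = e + P.1 ∧ Q'.1 = c - Q.2 ∧ Q'.2 = e + Q.1) :
    CArc P' (rot 1 w) Q' fun X Y => A (Y - e) (c - X) :=
  h.rot1 (c, e) (Prod.ext g.1.symm g.2.1.symm) (Prod.ext g.2.2.1.symm g.2.2.2.symm) fun _ _ a => a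

theorem CArc.p2 (h : CArc P w Q A) (c e : ℤ)
    (g : P'.1 = c - P.1 ∧ P'.2 = e - P.2 ∧ Q'.1 = c - Q.1 ∧ Q'.2 = e - Q.2) :
    CArc P' (rot 2 w) Q' fun X Y => A (c - X) (e - Y) :=
  h.rot2 (c, e) (Prod.ext g.1.symm g.2.1.symm) (Prod.ext g.2.2.1.symm g.2.2.2.symm) fun _ _ a => a

theorem CArc.p3 (h : CArc P w Q A) (c e : ℤ)
    (g : P'.1 = c + P.2 ∧ P'.2 = e - P.1 ∧ Q'.1 = c + Q.2 ∧ Q'.2 = e - Q.1) :
    CArc P' (rot 3 w) Q' fun X Y => A (e - Y) (X - c) :=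
  h.rot3 (c, e) (Prod.ext g.1.symm g.2.1.symm) (Prod.ext g.2.2.1.symm g.2.2.2.symm) fun _ _ a => a

theorem CArc.b0 (h : CArc P w Q A) (c e : ℤ)
    (g : Q'.1 = c + Q.1 ∧ Q'.2 = e + Q.2 ∧ P'.1 = c + P.1 ∧ P'.2 = e + P.2) :
    CArc Q' (MP_4a7072_co.back 0 w) P' fun X Y => A (X - c) (Y - e) := h.back.p0 c e g

theorem CArc.b1 (h : CArc P w Q A) (c e : ℤ)
    (g : Q'.1 = c - Q.2 ∧ Q'.2 = e + Q.1 ∧ P'.1 = c - P.2 ∧ P'.2 = e + P.1) :
    CArc Q' (MP_4a7072_co.back 1 w) P' fun X Y => A (Y - e) (c - X) :=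
  h.backs 1 fun h => h.p1 c e g

theorem CArc.b2 (h : CArc P w Q A) (c e : ℤ)
    (g : Q'.1 = c - Q.1 ∧ Q'.2 = e - Q.2 ∧ P'.1 = c - P.1 ∧ P'.2 = e - P.2) :
    CArc Q' (MP_4a7072_co.back 2 w) P' fun X Y => A (c - X) (e - Y) :=
  h.backs 2 fun h => h.p2 c e g

theorem CArc.b3 (h : CArc P w Q A) (c e : ℤ)
    (g : Q'.1 = c + Q.2 ∧ Q'.2 = e - Q.1 ∧ P'.1 = c + P.2 ∧ P'.2 = e - P.1) :
    CArc Q' (MP_4a7072_co.back 3 w) P' fun X Y => A (e - Y) (X - c) :=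
  h.backs 3 fun h => h.p3 c e g

/-- A path from `P` to `Q`, the coordinates of whose points satisfy `A`. -/
def Cov (P : Pt) (w : List Dir) (Q : Pt) (A : ℤ → ℤ → Prop) : Prop :=
  endP P w = Q ∧ ∀ z ∈ pts P w, A z.1 z.2

theorem CArc.cov (h : CArc P w Q A) : Cov P w Q A := ⟨h.1, (arc_iff.1 h).2.2⟩

theorem Cov.append (h : Cov P u Q A) (h' : Cov Q v R B) :
    Cov P (u ++ v) R fun X Y => A X Y ∨ B X Y := by
  obtain ⟨rfl, h1⟩ := h
  refine ⟨by rw [endP_append, h'.1], fun z hz => ?_⟩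
  rw [pts_append] at hz
  exact (List.mem_append.1 hz).imp (fun a => h1 z (List.mem_append_left _ a)) (h'.2 z)

/-- The part of a simple closed path outside a given arc. -/
theorem Simple.rest {π : List Dir} {H : Pt} (s : Simple P (u ++ (π ++ v))) (hπ : π ≠ [])
    (h1 : Cov H v P A) (h2 : Cov P u Q B) (e : endP Q π = H) :
    CArc H (v ++ u) Q fun X Y => A X Y ∨ B X Y := by
  have c := h1.append h2
  have s1 := s.rotate
  rw [h2.1, List.append_assoc] at s1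
  have s2 := s1.rotate
  rw [e] at s2
  have a := Simple.arc (A := fun _ _ => True) s2 hπ fun _ _ => trivial
  rw [c.1] at a
  exact arc_iff.2 ⟨c.1, (arc_iff.1 a).2.1, c.2⟩

end

theorem net_env {Λ : Lat} {o P : Pt} {w : List Dir} {E : ℤ → ℤ → Prop} {K : List Pt}
    (s : Simple P w) (c : Ccw P w) (e : ∀ z ∈ verts P w, E z.1 z.2) (t : TreeOK P w K)
    (mem : ∀ W ∈ K, ∃ m n : ℤ, W.1 = o.1 + (m * Λ.p - n * Λ.q) ∧ W.2 = o.2 + (m * Λ.q + n * Λ.p))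
    (cov : ∀ m n : ℤ, (o.1 + (m * Λ.p - n * Λ.q), o.2 + (m * Λ.q + n * Λ.p)) ∈ K ∨
      OutE E (o.1 + (m * Λ.p - n * Λ.q)) (o.2 + (m * Λ.q + n * Λ.p))) : Net Λ o P w := by
  refine ⟨s, c, K, t, fun W hW => ?_, ?_⟩
  · obtain ⟨m, n, h1, h2⟩ := mem W hW
    exact ⟨(m, n), Prod.ext (by simp only [Lat.gm, Prod.fst_sub, h1]; ring)
      (by simp only [Lat.gm, Prod.snd_sub, h2]; ring)⟩
  · rintro W ⟨⟨m, n⟩, hT⟩
    obtain rfl : W = (o.1 + (m * Λ.p - n * Λ.q), o.2 + (m * Λ.q + n * Λ.p)) := by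
      rw [eq_add_of_sub_eq hT]
      ext <;> simp [Lat.gm] <;> ring
    exact (cov m n).imp_right fun h => h _ _ s.1 e

/-- Three quarters of a pinwheel and a radial cut. -/
theorem pinH {μ o₁ o₂ R q : List Dir} {O Z A B B' : Pt} (hμ : μ ≠ []) (hR : R ≠ [])
    (h1 : o₁ ≠ []) (h2 : o₂ ≠ []) (eq : q = μ ++ (o₁ ++ o₂) ++ back 0 μ)
    (hO : rho O 3 Z + dsp R = O) (hA : Z + dsp μ + dsp o₁ = A)
    (hZ : A + dsp o₂ = rho O 1 Z + dsp μ)
    (h : (∃ X, X ≠ [] ∧ o₁ = X ++ back 1 (o₂ ++ X) ∧ Z + dsp μ + dsp X = B ∧ B' = B) ∨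
      (∃ X, X ≠ [] ∧ o₂ = back 3 (X ++ o₁) ++ X ∧ A + dsp (back 3 (X ++ o₁)) = B ∧ B' = B) ∨
      ∃ X Y, X ≠ [] ∧ Y ≠ [] ∧ o₁ = X ++ Y ∧ o₂ = back 3 o₁ ∧ Z + dsp μ = B ∧ A + dsp o₂ = B') :
    TreeOK Z (q ++ rot 1 q ++ rot 2 q ++ (R ++ back 1 R))
      [rho O 3 Z, O, Z, rho O 1 Z, rho O 2 Z, A, rho O 1 A, rho O 2 A,
        B, rho O 1 B, rho O 2 B, B', rho O 1 B', rho O 2 B'] := by
  have t := pinG (O := O) ((TB.leaf hR).vtx (back_ne (t := 2) hμ)) hμ h1 h2 hA hZ (by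
    simp only [dsp_append, dsp_rot, dsp_back, rho, Prod.ext_iff, rotP_zero, rotP_1, rotP_2,
      rotP_3, Prod.fst_add, Prod.snd_add, Prod.fst_sub, Prod.snd_sub, Prod.fst_neg, Prod.snd_neg,
      Fin.reduceAdd] at hO ⊢
    omega) h
  have e : q ++ rot 1 q ++ rot 2 q ++ (R ++ back 1 R) =
      μ ++ (o₁ ++ o₂ ++ back 0 μ ++ rot 1 q ++ rot 2 q ++ (R ++ back 1 R)) := by
    nth_rw 1 [eq]
    simp only [List.append_assoc]
  have hc : dsp (μ ++ (o₁ ++ o₂ ++ back 0 μ ++ rot 1 q ++ rot 2 q ++ (R ++ back 1 R))) = 0 := by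
    subst eq
    simp only [dsp_append, dsp_rot, dsp_back, rho, Prod.ext_iff, rotP_zero, rotP_1, rotP_2,
      rotP_3, Prod.fst_add, Prod.snd_add, Prod.fst_sub, Prod.snd_sub, Prod.fst_neg, Prod.snd_neg,
      Prod.fst_zero, Prod.snd_zero] at hO hA hZ ⊢
    omega
  rw [e]
  refine TreeOK.rotate hc (t.cast (endP_dsp _ _).symm ?_ fun W => ?_)
  · simp [eq, rot_append, back_back, back_rot, rot_back, rot_zero]
  · rw [show List.map _ _ = [rho O 3 Z, O, Z] from ?_]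
    · rfl
    · simp only [List.map_cons, List.map_nil, List.cons_append, List.nil_append, dsp_append,
        dsp_back, dsp_rot, List.cons.injEq, and_true, rho, rotP_1, rotP_2, rotP_3,
        Prod.ext_iff, Prod.fst_add, Prod.snd_add, Prod.fst_sub, Prod.snd_sub, Prod.fst_neg,
        Prod.snd_neg] at hO ⊢
      omega

/-- A straight path to the east. -/
def ea (n : ℤ) : List Dir := List.replicate n.toNat 0

theorem ea_ne {n : ℤ} (h : 0 < n) : ea n ≠ [] := by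
  simp only [ea, ne_eq, List.replicate_eq_nil_iff]
  omega

theorem ea_arc {n : ℤ} (h : 0 ≤ n) :
    CArc (0, 0) (ea n) (n, 0) fun X Y => 0 ≤ X ∧ X ≤ n ∧ Y = 0 :=
  (CArc.line (0, 0) 0 h).mv rfl (by ext <;> simp [dv]) fun X Y ⟨i, g⟩ => by
    simp [dv] at g
    omega

theorem ea_add {m n : ℤ} (h : 0 ≤ m) (h' : 0 ≤ n) : ea (m + n) = ea m ++ ea n := by
  rw [ea, ea, ea, Int.toNat_add h h', List.replicate_add]

theorem back_ea (t : Dir) (n : ℤ) : back t (ea n) = rot (2 + t) (ea n) := by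
  rw [ea, back_replicate, rot_replicate]
  congr 1
  revert t
  decide

theorem dsp_ea {n : ℤ} (h : 0 ≤ n) : dsp (ea n) = (n, 0) := by
  rw [(ea_arc h).dsp_eq]
  ext <;> simp

theorem length_ea {n : ℤ} (h : 0 ≤ n) : ((ea n).length : ℤ) = n := by
  rw [ea, List.length_replicate, Int.toNat_of_nonneg h]

theorem mem_hd {x y p q : ℤ} {l : List Pt} (h : x = p) (h' : y = q) : (x, y) ∈ (p, q) :: l :=
  h ▸ h' ▸ List.mem_cons_self

section

variable {A : ℤ → ℤ → Prop} {X Y : ℤ}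

theorem OutE.stepE (h : ¬A X Y) (ho : OutE A (X + 1) Y) : OutE A X Y :=
  .step 0 h (by simpa [dv] using ho)

theorem OutE.stepN (h : ¬A X Y) (ho : OutE A X (Y + 1)) : OutE A X Y :=
  .step 1 h (by simpa [dv] using ho)

theorem OutE.stepW (h : ¬A X Y) (ho : OutE A (X - 1) Y) : OutE A X Y :=
  .step 2 h (by simpa [dv, sub_eq_add_neg] using ho)

theorem OutE.stepS (h : ¬A X Y) (ho : OutE A X (Y - 1)) : OutE A X Y :=
  .step 3 h (by simpa [dv, sub_eq_add_neg] using ho)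

end

theorem edge_ea (P : Pt) (t : Dir) {n : ℤ} (h : 0 < n) : (P, t) ∈ edges P (rot t (ea n)) := by
  obtain ⟨k, hk⟩ : ∃ k, n.toNat = k + 1 := ⟨n.toNat - 1, by omega⟩
  rw [ea, hk, rot_replicate, zero_add, List.replicate_succ]
  exact List.mem_cons_self

theorem ccw_env {P Q : Pt} {w : List Dir} {d : Dir} {A : ℤ → ℤ → Prop} {X Y : ℤ}
    (s : Simple P w) (e : ∀ z ∈ verts P w, A z.1 z.2) (he : (Q, d) ∈ edges P w)
    (ho : OutE A X Y) (h : Q + dv (d + 3) = (X, Y)) : Ccw P w :=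
  ccw_of_out he (h ▸ ho _ _ s.1 e)

end NP
end Pool.Agent.Lib.MP_4a7072_co
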