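import Pool.Agent.Lib.MP_4a7072_co.FGen

/-!
A design for an odd shorter leg `a` and `3 b < 4 a`: data, words and envelopes.
-/

set_option autoImplicit false
set_option linter.unnecessarySeqFocus false
set_option linter.unusedSimpArgs false
set_option linter.unusedVariables false
set_option linter.unreachableTactic false
set_option linter.unusedTactic false

namespace Pool.Agent.Lib.MP_4a7072_co
namespace NP

/-- The data of the design. -/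
structure DI where
  a : ℤ
  b : ℤ
  e : ℤ
  g : ℤ
  aux' : a = 3 * e + g ∧ b = 4 * e + g ∧ 0 < e ∧ e % 2 = 1 ∧ 0 < g ∧ g % 4 = 0
  W : WB0 0 (2 * e) (2 * e + g)
  ev : W.Ev

namespace DI

variable (D : DI)

theorem aux : D.a = 3 * D.e + D.g ∧ D.b = 4 * D.e + D.g ∧ 0 < D.e ∧ D.e % 2 = 1 ∧ 0 < D.g ∧ D.g % 4 = 0 := D.aux'

/-- The curve. -/
def C : UC (2 * D.e, 2 * D.e) := D.W.toUC

theorem ord : 0 < D.C.q ∧ D.C.q < D.C.β := by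
  have := D.aux
  have := D.W.qpos
  have h := (D.W.monoA D.W.β).2.2.2.2.1
  rw [D.W.wβ] at h
  change 0 < D.W.q ∧ D.W.q < D.W.β
  simp only at h
  omega

theorem wq : D.C.w D.C.q = (0, 2 * D.e) := D.W.wq

theorem wβ : D.C.w D.C.β = (2 * D.e + D.g, 2 * D.e + D.g) := D.W.wβ

theorem wβq : D.C.w (D.C.β + D.C.q) = (2 * D.e + D.g, 4 * D.e + D.g) := by
  have := D.W.wβq'
  exact Prod.ext this.1 (this.2.trans (by simp only; omega))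

theorem wβ2 : D.C.w (D.C.β + 2 * D.C.q) = (4 * D.e + D.g, 4 * D.e + D.g) := by
  rw [D.C.per, D.wβ]
  ext <;> simp only [Prod.fst_add, Prod.snd_add] <;> omega

/-- A part of the curve. -/
def U : List Dir := D.C.Z 0 D.C.β

/-- A part of the curve. -/
def Y : List Dir := D.C.Z 0 (D.C.β + D.C.q)

/-- A part of the curve. -/
def T : List Dir := D.C.Z D.C.β (D.C.β + D.C.q)

/-- A part of the curve. -/
def G : List Dir := D.C.Z D.C.q D.C.β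

/-- A part of the curve. -/
def H : List Dir := D.C.Z D.C.β (D.C.β + 2 * D.C.q)

/-- A part of the curve. -/
def I : List Dir := D.C.Z 0 D.C.q

/-- The points of a part of the curve. -/
def PU (X Y : ℤ) : Prop := D.C.On 0 D.C.β X Y

variable {D} in
theorem PU.on {X Y : ℤ} (h : D.PU X Y) : D.C.On 0 D.C.β X Y := h

theorem arcU : CArc (0, 0) D.U (2 * D.e + D.g, 2 * D.e + D.g) D.PU :=
  (D.C.arc (by have := D.ord; omega)).mv D.C.w0 D.wβ fun _ _ h => h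

variable {D} in
theorem PU.lin {X Y : ℤ} (h : D.PU X Y) :
    0 ≤ Y - X ∧ Y - X ≤ 2 * D.e ∧ 0 ≤ X + Y ∧ X + Y ≤ 4 * D.e + 2 * D.g ∧ (X % 2 = 0 ∨ Y % 2 = 0) := by
  obtain ⟨l, h1, h2, rfl, rfl⟩ := h
  have := D.aux
  have := D.ord
  have := D.W.strip l
  have := D.ev l
  have := D.W.monoA l
  have := D.W.monoB l
  have := (D.W.monoB (l - 2 * D.W.q)).2.1
  have p := D.W.per1 (l - 2 * D.W.q)
  rw [sub_add_cancel] at p
  simp only [C, WB0.toUC] at *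
  omega

/-- The points of a part of the curve. -/
def PY (X Y : ℤ) : Prop := D.C.On 0 (D.C.β + D.C.q) X Y

variable {D} in
theorem PY.on {X Y : ℤ} (h : D.PY X Y) : D.C.On 0 (D.C.β + D.C.q) X Y := h

theorem arcY : CArc (0, 0) D.Y (2 * D.e + D.g, 4 * D.e + D.g) D.PY :=
  (D.C.arc (by have := D.ord; omega)).mv D.C.w0 D.wβq fun _ _ h => h

variable {D} in
theorem PY.lin {X Y : ℤ} (h : D.PY X Y) :
    0 ≤ Y - X ∧ Y - X ≤ 2 * D.e ∧ 0 ≤ X + Y ∧ X + Y ≤ 6 * D.e + 2 * D.g ∧ (X % 2 = 0 ∨ Y % 2 = 0) := by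
  obtain ⟨l, h1, h2, rfl, rfl⟩ := h
  have := D.aux
  have := D.ord
  have := D.W.strip l
  have := D.ev l
  have := D.W.monoA l
  have := D.W.monoB l
  have := (D.W.monoB (l - 2 * D.W.q)).2.1
  have p := D.W.per1 (l - 2 * D.W.q)
  rw [sub_add_cancel] at p
  simp only [C, WB0.toUC] at *
  omega

/-- The points of a part of the curve. -/
def PT (X Y : ℤ) : Prop := D.C.On D.C.β (D.C.β + D.C.q) X Y

variable {D} in
theorem PT.on {X Y : ℤ} (h : D.PT X Y) : D.C.On D.C.β (D.C.β + D.C.q) X Y := h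

theorem arcT : CArc (2 * D.e + D.g, 2 * D.e + D.g) D.T (2 * D.e + D.g, 4 * D.e + D.g) D.PT :=
  (D.C.arc (by have := D.ord; omega)).mv D.wβ D.wβq fun _ _ h => h

variable {D} in
theorem PT.lin {X Y : ℤ} (h : D.PT X Y) :
    0 ≤ Y - X ∧ Y - X ≤ 2 * D.e ∧ 4 * D.e + 2 * D.g ≤ X + Y ∧ X + Y ≤ 6 * D.e + 2 * D.g ∧ (X % 2 = 0 ∨ Y % 2 = 0) := by
  obtain ⟨l, h1, h2, rfl, rfl⟩ := h
  have := D.aux
  have := D.ord
  have := D.W.strip l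
  have := D.ev l
  have := D.W.monoA l
  have := D.W.monoB l
  have := (D.W.monoB (l - 2 * D.W.q)).2.1
  have p := D.W.per1 (l - 2 * D.W.q)
  rw [sub_add_cancel] at p
  simp only [C, WB0.toUC] at *
  omega

/-- The points of a part of the curve. -/
def PG (X Y : ℤ) : Prop := D.C.On D.C.q D.C.β X Y

variable {D} in
theorem PG.on {X Y : ℤ} (h : D.PG X Y) : D.C.On D.C.q D.C.β X Y := h

theorem arcG : CArc (0, 2 * D.e) D.G (2 * D.e + D.g, 2 * D.e + D.g) D.PG :=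
  (D.C.arc (by have := D.ord; omega)).mv D.wq D.wβ fun _ _ h => h

variable {D} in
theorem PG.lin {X Y : ℤ} (h : D.PG X Y) :
    0 ≤ Y - X ∧ Y - X ≤ 2 * D.e ∧ 2 * D.e ≤ X + Y ∧ X + Y ≤ 4 * D.e + 2 * D.g ∧ (X % 2 = 0 ∨ Y % 2 = 0) := by
  obtain ⟨l, h1, h2, rfl, rfl⟩ := h
  have := D.aux
  have := D.ord
  have := D.W.strip l
  have := D.ev l
  have := D.W.monoA l
  have := D.W.monoB l
  have := (D.W.monoB (l - 2 * D.W.q)).2.1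
  have p := D.W.per1 (l - 2 * D.W.q)
  rw [sub_add_cancel] at p
  simp only [C, WB0.toUC] at *
  omega

/-- The points of a part of the curve. -/
def PH (X Y : ℤ) : Prop := D.C.On D.C.β (D.C.β + 2 * D.C.q) X Y

variable {D} in
theorem PH.on {X Y : ℤ} (h : D.PH X Y) : D.C.On D.C.β (D.C.β + 2 * D.C.q) X Y := h

theorem arcH : CArc (2 * D.e + D.g, 2 * D.e + D.g) D.H (4 * D.e + D.g, 4 * D.e + D.g) D.PH :=
  (D.C.arc (by have := D.ord; omega)).mv D.wβ D.wβ2 fun _ _ h => h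

variable {D} in
theorem PH.lin {X Y : ℤ} (h : D.PH X Y) :
    0 ≤ Y - X ∧ Y - X ≤ 2 * D.e ∧ 4 * D.e + 2 * D.g ≤ X + Y ∧ X + Y ≤ 8 * D.e + 2 * D.g ∧ (X % 2 = 0 ∨ Y % 2 = 0) := by
  obtain ⟨l, h1, h2, rfl, rfl⟩ := h
  have := D.aux
  have := D.ord
  have := D.W.strip l
  have := D.ev l
  have := D.W.monoA l
  have := D.W.monoB l
  have := (D.W.monoB (l - 2 * D.W.q)).2.1
  have p := D.W.per1 (l - 2 * D.W.q)
  rw [sub_add_cancel] at p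
  simp only [C, WB0.toUC] at *
  omega

/-- The points of a straight path. -/
def Le (X Y : ℤ) : Prop := 0 ≤ X ∧ X ≤ D.e ∧ Y = 0

variable {D} in
theorem Le.lin {X Y : ℤ} (h : D.Le X Y) : 0 ≤ X ∧ X ≤ D.e ∧ Y = 0 := h

theorem arcLe : CArc (0, 0) (ea D.e) (D.e, 0) D.Le := by
  have := D.aux
  exact (ea_arc (by omega)).mv rfl (by ext <;> simp only <;> omega) fun X Y h => ⟨h.1, by omega, h.2.2⟩

/-- The points of a straight path. -/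
def Lg (X Y : ℤ) : Prop := 0 ≤ X ∧ X ≤ D.g ∧ Y = 0

variable {D} in
theorem Lg.lin {X Y : ℤ} (h : D.Lg X Y) : 0 ≤ X ∧ X ≤ D.g ∧ Y = 0 := h

theorem arcLg : CArc (0, 0) (ea D.g) (D.g, 0) D.Lg := by
  have := D.aux
  exact (ea_arc (by omega)).mv rfl (by ext <;> simp only <;> omega) fun X Y h => ⟨h.1, by omega, h.2.2⟩

/-- The points of a straight path. -/
def Lxy (X Y : ℤ) : Prop := 0 ≤ X ∧ X ≤ D.e + D.g ∧ Y = 0

variable {D} in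
theorem Lxy.lin {X Y : ℤ} (h : D.Lxy X Y) : 0 ≤ X ∧ X ≤ D.e + D.g ∧ Y = 0 := h

theorem arcLxy : CArc (0, 0) (ea D.e ++ ea D.g) (D.e + D.g, 0) D.Lxy := by
  have := D.aux
  rw [← ea_add (by omega) (by omega)]
  exact (ea_arc (by omega)).mv rfl (by ext <;> simp only <;> omega) fun X Y h => ⟨h.1, by omega, h.2.2⟩

/-- The points of a straight path. -/
def Lyx (X Y : ℤ) : Prop := 0 ≤ X ∧ X ≤ D.e + D.g ∧ Y = 0

variable {D} in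
theorem Lyx.lin {X Y : ℤ} (h : D.Lyx X Y) : 0 ≤ X ∧ X ≤ D.e + D.g ∧ Y = 0 := h

theorem arcLyx : CArc (0, 0) (ea D.g ++ ea D.e) (D.e + D.g, 0) D.Lyx := by
  have := D.aux
  rw [← ea_add (by omega) (by omega)]
  exact (ea_arc (by omega)).mv rfl (by ext <;> simp only <;> omega) fun X Y h => ⟨h.1, by omega, h.2.2⟩

/-- The points of a straight path. -/
def La (X Y : ℤ) : Prop := 0 ≤ X ∧ X ≤ 3 * D.e + D.g ∧ Y = 0

variable {D} in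
theorem La.lin {X Y : ℤ} (h : D.La X Y) : 0 ≤ X ∧ X ≤ 3 * D.e + D.g ∧ Y = 0 := h

theorem arcLa : CArc (0, 0) (ea D.a) (3 * D.e + D.g, 0) D.La := by
  have := D.aux
  exact (ea_arc (by omega)).mv rfl (by ext <;> simp only <;> omega) fun X Y h => ⟨h.1, by omega, h.2.2⟩

/-- The points of a straight path. -/
def Lb (X Y : ℤ) : Prop := 0 ≤ X ∧ X ≤ 4 * D.e + D.g ∧ Y = 0

variable {D} in
theorem Lb.lin {X Y : ℤ} (h : D.Lb X Y) : 0 ≤ X ∧ X ≤ 4 * D.e + D.g ∧ Y = 0 := h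

theorem arcLb : CArc (0, 0) (ea D.b) (4 * D.e + D.g, 0) D.Lb := by
  have := D.aux
  exact (ea_arc (by omega)).mv rfl (by ext <;> simp only <;> omega) fun X Y h => ⟨h.1, by omega, h.2.2⟩

section

variable {X1 Y1 X2 Y2 i j i' j' : ℤ}

theorem sA (a : D.C.On 0 j X1 Y1) (b : D.C.On 0 j' X2 Y2) (e : X2 = Y1 ∧ Y2 = -X1) :
    X1 = 0 ∧ Y1 = 0 := by
  have := D.aux
  obtain ⟨rfl, rfl⟩ := e
  exact WB0.tA D.ev (by omega) a b le_rfl le_rfl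

theorem sBQ (a : D.C.On i (D.C.β + D.C.q) X1 Y1) (b : D.C.On i' (D.C.β + D.C.q) X2 Y2)
    (e : X2 = Y1 - 2 * D.e ∧ Y2 = 6 * D.e + 2 * D.g - X1) :
    X1 = 2 * D.e + D.g ∧ Y1 = 4 * D.e + D.g := by
  have := D.aux
  have := WB0.tBQ (X := X1 - (2 * D.e + D.g)) (Y := Y1 - (4 * D.e + D.g)) D.ev (by omega) (by omega)
    (sCg a (by omega) (by omega)) (sCg b (by omega) (by omega)) le_rfl le_rfl
  omega

theorem sQ (a : D.C.On D.C.q j X1 Y1) (b : D.C.On D.C.q j' X2 Y2)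
    (e : X2 = Y1 - 2 * D.e ∧ Y2 = 2 * D.e - X1) : X1 = 0 ∧ Y1 = 2 * D.e := by
  have := D.aux
  have := WB0.tQ (X := X1) (Y := Y1 - 2 * D.e) D.ev (by omega)
    (sCg a (by omega) (by omega)) (sCg b (by omega) (by omega)) le_rfl le_rfl
  omega

theorem sGH (a : D.PG X1 Y1) (b : D.PH X2 Y2) (e : X2 = X1 ∧ Y2 = Y1) :
    X1 = 2 * D.e + D.g ∧ Y1 = 2 * D.e + D.g := by
  obtain ⟨rfl, rfl⟩ := e
  have := UC.On.meet a b
  rwa [D.wβ] at this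

theorem sB (a : D.C.On i j X1 Y1) (b : D.PU X2 Y2)
    (e : X2 = Y1 - 2 * D.e ∧ Y2 = 6 * D.e + 2 * D.g - X1)
    (hj : j ≤ D.C.β + 2 * D.C.q) :
    X1 = 4 * D.e + D.g ∧ Y1 = 4 * D.e + D.g := by
  have := D.aux
  obtain ⟨l, h1, h2, h3, h4⟩ := a
  have p := D.C.per' (l - 2 * D.C.q)
  rw [sub_add_cancel] at p
  have := WB0.tB (X := X1 - (4 * D.e + D.g)) (Y := Y1 - (4 * D.e + D.g)) D.ev (by omega) (by omega)
    (i := l - 2 * D.C.q) (j := l - 2 * D.C.q) ⟨l - 2 * D.C.q, le_rfl, le_rfl,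
      show (D.C.w _).1 = _ by simp only at p; omega, show (D.C.w _).2 = _ by simp only at p; omega⟩
    (sCg b (by omega) (by omega)) (show _ ≤ D.C.β by omega) le_rfl
  omega

end

/-- A part of a boundary: its points. -/
def H1 (X Y : ℤ) : Prop :=
  ((D.PU (X - (-2 * D.e - D.g)) (Y - D.e) ∨
    D.PY (Y - D.e) ((-2 * D.e - D.g) - X)) ∨
    D.PT (X - (-8 * D.e - 3 * D.g)) (Y - (-D.e))) ∨
    D.Lg ((D.e + D.g) - Y) (X - (-6 * D.e - 2 * D.g))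

/-- A part of a boundary: its word. -/
def wH1 : List Dir :=
  back 0 D.U ++ rot 1 D.Y ++ back 0 D.T ++ rot 3 (ea D.g)

variable {D} in
theorem H1.lin {X Y : ℤ} (h : D.H1 X Y) :
    X ≤ 0 ∧ -X ≤ 7 * D.e + 2 * D.g ∧ Y ≤ 4 * D.e + D.g ∧ -Y ≤ 0 ∧ X + Y ≤ 3 * D.e + D.g ∧ -X - Y ≤ 5 * D.e + 2 * D.g ∧ Y - X ≤ 9 * D.e + 3 * D.g ∧ X - Y ≤ -3 * D.e - D.g := by
  have := D.aux
  rcases h with ((h | h) | h) | h
  · have := h.lin; omega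
  · have := h.lin; omega
  · have := h.lin; omega
  · have := h.lin; omega

/-- A part of a boundary: its points. -/
def L1 (X Y : ℤ) : Prop :=
  ((D.Le (D.e - Y) (X - (-6 * D.e - 2 * D.g)) ∨
    D.Lxy ((-6 * D.e - 2 * D.g) - X) (0 - Y)) ∨
    D.PG (Y - (-2 * D.e - D.g)) ((-5 * D.e - 2 * D.g) - X)) ∨
    D.PG (X - (-7 * D.e - 2 * D.g)) (Y - (-4 * D.e - D.g))

/-- A part of a boundary: its word. -/
def wL1 : List Dir :=
  rot 3 (ea D.e) ++ rot 2 (ea D.e ++ ea D.g) ++ back 1 D.G ++ D.G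

variable {D} in
theorem L1.lin {X Y : ℤ} (h : D.L1 X Y) :
    X ≤ -5 * D.e - D.g ∧ -X ≤ 8 * D.e + 3 * D.g ∧ Y ≤ D.e ∧ -Y ≤ 3 * D.e + D.g ∧ (X + Y ≤ -7 * D.e - D.g ∨ X + Y ≤ -5 * D.e - 2 * D.g) ∧ -X - Y ≤ 9 * D.e + 3 * D.g ∧ Y - X ≤ 7 * D.e + 3 * D.g ∧ X - Y ≤ -3 * D.e - D.g := by
  have := D.aux
  rcases h with ((h | h) | h) | h
  · have := h.lin; omega
  · have := h.lin; omega
  · have := h.lin; omega
  · have := h.lin; omega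

/-- A part of a boundary: its points. -/
def QA (X Y : ℤ) : Prop :=
  (D.H1 X Y ∨
    D.L1 X Y) ∨
    D.PH (X - (-7 * D.e - 2 * D.g)) (Y - (-4 * D.e - D.g))

/-- A part of a boundary: its word. -/
def qa : List Dir :=
  D.wH1 ++ D.wL1 ++ D.H

variable {D} in
theorem QA.lin {X Y : ℤ} (h : D.QA X Y) :
    X ≤ 0 ∧ -X ≤ 8 * D.e + 3 * D.g ∧ Y ≤ 4 * D.e + D.g ∧ -Y ≤ 3 * D.e + D.g ∧ X + Y ≤ 3 * D.e + D.g ∧ -X - Y ≤ 9 * D.e + 3 * D.g ∧ Y - X ≤ 9 * D.e + 3 * D.g ∧ X - Y ≤ -3 * D.e - D.g := by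
  have := D.aux
  rcases h with (h | h) | h
  · have := h.lin; omega
  · have := h.lin; omega
  · have := h.lin; omega

/-- A part of a boundary: its points. -/
def A3 (X Y : ℤ) : Prop :=
  (D.QA X Y ∨
    D.QA (Y - 0) (0 - X)) ∨
    D.QA (0 - X) (0 - Y)

/-- A part of a boundary: its word. -/
def wA3 : List Dir :=
  D.qa ++ rot 1 D.qa ++ rot 2 D.qa

variable {D} in
theorem A3.lin {X Y : ℤ} (h : D.A3 X Y) :
    X ≤ 8 * D.e + 3 * D.g ∧ -X ≤ 8 * D.e + 3 * D.g ∧ Y ≤ 4 * D.e + D.g ∧ -Y ≤ 8 * D.e + 3 * D.g ∧ X + Y ≤ 9 * D.e + 3 * D.g ∧ -X - Y ≤ 9 * D.e + 3 * D.g ∧ Y - X ≤ 9 * D.e + 3 * D.g ∧ X - Y ≤ 9 * D.e + 3 * D.g := by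
  have := D.aux
  rcases h with (h | h) | h
  · have := h.lin; omega
  · have := h.lin; omega
  · have := h.lin; omega

/-- A part of a boundary: its points. -/
def RA (X Y : ℤ) : Prop :=
  D.La ((3 * D.e + D.g) - X) (0 - Y) ∨
    D.La ((3 * D.e + D.g) - Y) (X - 0)

/-- A part of a boundary: its word. -/
def wRA : List Dir :=
  rot 2 (ea D.a) ++ back 3 (ea D.a)

variable {D} in
theorem RA.lin {X Y : ℤ} (h : D.RA X Y) :
    X ≤ 3 * D.e + D.g ∧ -X ≤ 0 ∧ Y ≤ 3 * D.e + D.g ∧ -Y ≤ 0 ∧ X + Y ≤ 3 * D.e + D.g ∧ -X - Y ≤ 0 ∧ Y - X ≤ 3 * D.e + D.g ∧ X - Y ≤ 3 * D.e + D.g := by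
  have := D.aux
  rcases h with h | h
  · have := h.lin; omega
  · have := h.lin; omega

/-- A part of a boundary: its points. -/
def B1 (X Y : ℤ) : Prop :=
  (D.PG (Y - 0) ((6 * D.e + D.g) - X) ∨
    D.Lyx (X - (4 * D.e)) (Y - (2 * D.e + D.g))) ∨
    D.Le (Y - (2 * D.e + D.g)) ((5 * D.e + D.g) - X)

/-- A part of a boundary: its word. -/
def wB1 : List Dir :=
  rot 1 D.G ++ (ea D.g ++ ea D.e) ++ rot 1 (ea D.e)

variable {D} in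
theorem B1.lin {X Y : ℤ} (h : D.B1 X Y) :
    X ≤ 5 * D.e + D.g ∧ -X ≤ -3 * D.e ∧ Y ≤ 3 * D.e + D.g ∧ -Y ≤ 0 ∧ X + Y ≤ 8 * D.e + 2 * D.g ∧ -X - Y ≤ -4 * D.e - D.g ∧ Y - X ≤ D.g - 2 * D.e ∧ X - Y ≤ 4 * D.e + D.g := by
  have := D.aux
  rcases h with (h | h) | h
  · have := h.lin; omega
  · have := h.lin; omega
  · have := h.lin; omega

/-- A part of a boundary: its points. -/
def B2 (X Y : ℤ) : Prop :=
  (((((((((D.Le ((5 * D.e + D.g) - X) ((3 * D.e + D.g) - Y) ∨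
    D.Le (Y - (3 * D.e + D.g)) ((4 * D.e + D.g) - X)) ∨
    D.Lg ((4 * D.e + D.g) - X) ((4 * D.e + D.g) - Y)) ∨
    D.PT (Y - (2 * D.e)) ((6 * D.e + D.g) - X)) ∨
    D.PY ((4 * D.e + D.g) - X) ((8 * D.e + 2 * D.g) - Y)) ∨
    D.PY (Y - (8 * D.e + 2 * D.g)) ((4 * D.e + D.g) - X)) ∨
    D.PT (X - (-2 * D.e - D.g)) (Y - (6 * D.e + 2 * D.g))) ∨
    D.Lyx ((8 * D.e + 3 * D.g) - Y) (X - 0)) ∨
    D.Le (X - 0) (Y - (7 * D.e + 2 * D.g))) ∨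
    D.Le ((7 * D.e + 2 * D.g) - Y) (X - D.e)) ∨
    D.Lxy (D.e - X) ((6 * D.e + 2 * D.g) - Y)

/-- A part of a boundary: its word. -/
def wB2 : List Dir :=
  rot 2 (ea D.e) ++ rot 1 (ea D.e) ++ rot 2 (ea D.g) ++ rot 1 D.T ++ back 2 D.Y ++ rot 1 D.Y ++ back 0 D.T ++ rot 3 (ea D.g ++ ea D.e) ++ (ea D.e) ++ rot 3 (ea D.e) ++ rot 2 (ea D.e ++ ea D.g)

variable {D} in
theorem B2.lin {X Y : ℤ} (h : D.B2 X Y) :
    X ≤ 5 * D.e + D.g ∧ (-X ≤ D.e ∨ -X ≤ D.g) ∧ Y ≤ 11 * D.e + 3 * D.g ∧ -Y ≤ -3 * D.e - D.g ∧ X + Y ≤ 12 * D.e + 3 * D.g ∧ -X - Y ≤ -6 * D.e - D.g ∧ Y - X ≤ 10 * D.e + 3 * D.g ∧ X - Y ≤ 2 * D.e := by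
  have := D.aux
  rcases h with (((((((((h | h) | h) | h) | h) | h) | h) | h) | h) | h) | h
  · have := h.lin; omega
  · have := h.lin; omega
  · have := h.lin; omega
  · have := h.lin; omega
  · have := h.lin; omega
  · have := h.lin; omega
  · have := h.lin; omega
  · have := h.lin; omega
  · have := h.lin; omega
  · have := h.lin; omega
  · have := h.lin; omega

/-- A part of a boundary: its points. -/
def QB (X Y : ℤ) : Prop :=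
  (D.B1 X Y ∨
    D.B2 X Y) ∨
    D.PG (Y - (4 * D.e + D.g)) ((2 * D.e) - X)

/-- A part of a boundary: its word. -/
def qb : List Dir :=
  D.wB1 ++ D.wB2 ++ back 1 D.G

variable {D} in
theorem QB.lin {X Y : ℤ} (h : D.QB X Y) :
    X ≤ 5 * D.e + D.g ∧ -X ≤ D.e + D.g ∧ Y ≤ 11 * D.e + 3 * D.g ∧ -Y ≤ 0 ∧ X + Y ≤ 12 * D.e + 3 * D.g ∧ -X - Y ≤ -4 * D.e - D.g ∧ Y - X ≤ 10 * D.e + 3 * D.g ∧ X - Y ≤ 4 * D.e + D.g := by
  have := D.aux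
  rcases h with (h | h) | h
  · have := h.lin; omega
  · have := h.lin; omega
  · have := h.lin; omega

/-- A part of a boundary: its points. -/
def B3 (X Y : ℤ) : Prop :=
  (D.QB (X - (11 * D.e + 3 * D.g)) (Y - (2 * D.e + D.g)) ∨
    D.QB (Y - (2 * D.e + D.g)) ((11 * D.e + 3 * D.g) - X)) ∨
    D.QB ((11 * D.e + 3 * D.g) - X) ((2 * D.e + D.g) - Y)

/-- A part of a boundary: its word. -/
def wB3 : List Dir :=
  D.qb ++ rot 1 D.qb ++ rot 2 D.qb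

variable {D} in
theorem B3.lin {X Y : ℤ} (h : D.B3 X Y) :
    X ≤ 16 * D.e + 4 * D.g ∧ -X ≤ 0 ∧ Y ≤ 13 * D.e + 4 * D.g ∧ -Y ≤ 9 * D.e + 2 * D.g ∧ X + Y ≤ 25 * D.e + 7 * D.g ∧ -X - Y ≤ -D.e - D.g ∧ Y - X ≤ 3 * D.e + D.g ∧ X - Y ≤ 19 * D.e + 5 * D.g := by
  have := D.aux
  rcases h with (h | h) | h
  · have := h.lin; omega
  · have := h.lin; omega
  · have := h.lin; omega

/-- A part of a boundary: its points. -/
def RB (X Y : ℤ) : Prop :=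
  D.Lb (Y - (-2 * D.e)) ((11 * D.e + 3 * D.g) - X) ∨
    D.Lb ((15 * D.e + 4 * D.g) - X) ((2 * D.e + D.g) - Y)

/-- A part of a boundary: its word. -/
def wRB : List Dir :=
  rot 1 (ea D.b) ++ back 2 (ea D.b)

variable {D} in
theorem RB.lin {X Y : ℤ} (h : D.RB X Y) :
    X ≤ 15 * D.e + 4 * D.g ∧ -X ≤ -11 * D.e - 3 * D.g ∧ Y ≤ 2 * D.e + D.g ∧ -Y ≤ 2 * D.e ∧ X + Y ≤ 17 * D.e + 5 * D.g ∧ -X - Y ≤ -9 * D.e - 3 * D.g ∧ Y - X ≤ -9 * D.e - 2 * D.g ∧ X - Y ≤ 13 * D.e + 3 * D.g := by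
  have := D.aux
  rcases h with h | h
  · have := h.lin; omega
  · have := h.lin; omega

/-- A part of a boundary: its points. -/
def A1 (X Y : ℤ) : Prop :=
  (D.QA X Y ∨
    D.QA (Y - 0) (0 - X)) ∨
    D.H1 (0 - X) (0 - Y)

/-- A part of a boundary: its word. -/
def wA1 : List Dir :=
  D.qa ++ rot 1 D.qa ++ rot 2 D.wH1

variable {D} in
theorem A1.lin {X Y : ℤ} (h : D.A1 X Y) :
    X ≤ 7 * D.e + 2 * D.g ∧ -X ≤ 8 * D.e + 3 * D.g ∧ Y ≤ 4 * D.e + D.g ∧ -Y ≤ 8 * D.e + 3 * D.g ∧ X + Y ≤ 5 * D.e + 2 * D.g ∧ -X - Y ≤ 9 * D.e + 3 * D.g ∧ Y - X ≤ 9 * D.e + 3 * D.g ∧ X - Y ≤ 9 * D.e + 3 * D.g := by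
  have := D.aux
  rcases h with (h | h) | h
  · have := h.lin; omega
  · have := h.lin; omega
  · have := h.lin; omega

/-- A part of a boundary: its points. -/
def A2 (X Y : ℤ) : Prop :=
  D.PH ((7 * D.e + 2 * D.g) - X) ((4 * D.e + D.g) - Y) ∨
    D.RA X Y

/-- A part of a boundary: its word. -/
def wA2 : List Dir :=
  rot 2 D.H ++ D.wRA

variable {D} in
theorem A2.lin {X Y : ℤ} (h : D.A2 X Y) :
    X ≤ 6 * D.e + D.g ∧ -X ≤ 0 ∧ Y ≤ 3 * D.e + D.g ∧ -Y ≤ D.e ∧ X + Y ≤ 7 * D.e + D.g ∧ -X - Y ≤ 0 ∧ Y - X ≤ 3 * D.e + D.g ∧ X - Y ≤ 5 * D.e + D.g := by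
  have := D.aux
  rcases h with h | h
  · have := h.lin; omega
  · have := h.lin; omega

/-- A part of a boundary: its points. -/
def C1 (X Y : ℤ) : Prop :=
  (D.QB (X - (11 * D.e + 3 * D.g)) (Y - (2 * D.e + D.g)) ∨
    D.B1 (Y - (2 * D.e + D.g)) ((11 * D.e + 3 * D.g) - X)) ∨
    D.B2 (Y - (2 * D.e + D.g)) ((11 * D.e + 3 * D.g) - X)

/-- A part of a boundary: its word. -/
def wC1 : List Dir :=
  D.qb ++ rot 1 D.wB1 ++ rot 1 D.wB2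

variable {D} in
theorem C1.lin {X Y : ℤ} (h : D.C1 X Y) :
    X ≤ 16 * D.e + 4 * D.g ∧ -X ≤ 0 ∧ Y ≤ 13 * D.e + 4 * D.g ∧ -Y ≤ 0 ∧ X + Y ≤ 25 * D.e + 7 * D.g ∧ -X - Y ≤ -3 * D.e - D.g ∧ Y - X ≤ 3 * D.e + D.g ∧ X - Y ≤ 13 * D.e + 3 * D.g := by
  have := D.aux
  rcases h with (h | h) | h
  · have := h.lin; omega
  · have := h.lin; omega
  · have := h.lin; omega

/-- A part of a boundary: its points. -/
def C2 (X Y : ℤ) : Prop :=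
  (D.B2 ((11 * D.e + 3 * D.g) - X) ((2 * D.e + D.g) - Y) ∨
    D.PG ((-2 * D.e) - Y) (X - (9 * D.e + 3 * D.g))) ∨
    D.RB X Y

/-- A part of a boundary: its word. -/
def wC2 : List Dir :=
  rot 2 D.wB2 ++ back 3 D.G ++ D.wRB

variable {D} in
theorem C2.lin {X Y : ℤ} (h : D.C2 X Y) :
    X ≤ 15 * D.e + 4 * D.g ∧ -X ≤ -6 * D.e - 2 * D.g ∧ Y ≤ 2 * D.e + D.g ∧ -Y ≤ 9 * D.e + 2 * D.g ∧ X + Y ≤ 17 * D.e + 5 * D.g ∧ -X - Y ≤ -D.e - D.g ∧ Y - X ≤ -7 * D.e - 2 * D.g ∧ X - Y ≤ 19 * D.e + 5 * D.g := by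
  have := D.aux
  rcases h with (h | h) | h
  · have := h.lin; omega
  · have := h.lin; omega
  · have := h.lin; omega

/-- A part of a boundary: its points. -/
def AL (X Y : ℤ) : Prop :=
  D.A2 X Y ∨
    D.A1 X Y

/-- A part of a boundary: its word. -/
def α : List Dir :=
  D.wA2 ++ D.wA1

variable {D} in
theorem AL.lin {X Y : ℤ} (h : D.AL X Y) :
    X ≤ 7 * D.e + 2 * D.g ∧ -X ≤ 8 * D.e + 3 * D.g ∧ Y ≤ 4 * D.e + D.g ∧ -Y ≤ 8 * D.e + 3 * D.g ∧ X + Y ≤ 9 * D.e + 2 * D.g ∧ -X - Y ≤ 9 * D.e + 3 * D.g ∧ Y - X ≤ 9 * D.e + 3 * D.g ∧ X - Y ≤ 9 * D.e + 3 * D.g := by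
  have := D.aux
  rcases h with h | h
  · have := h.lin; omega
  · have := h.lin; omega

/-- A part of a boundary: its points. -/
def BE (X Y : ℤ) : Prop :=
  D.C2 X Y ∨
    D.C1 X Y

/-- A part of a boundary: its word. -/
def β : List Dir :=
  D.wC2 ++ D.wC1

variable {D} in
theorem BE.lin {X Y : ℤ} (h : D.BE X Y) :
    X ≤ 16 * D.e + 4 * D.g ∧ -X ≤ 0 ∧ Y ≤ 13 * D.e + 4 * D.g ∧ -Y ≤ 9 * D.e + 2 * D.g ∧ X + Y ≤ 25 * D.e + 7 * D.g ∧ -X - Y ≤ -D.e - D.g ∧ Y - X ≤ 3 * D.e + D.g ∧ X - Y ≤ 19 * D.e + 5 * D.g := by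
  have := D.aux
  rcases h with h | h
  · have := h.lin; omega
  · have := h.lin; omega

/-- A part of a boundary: its points. -/
def EA (X Y : ℤ) : Prop :=
  D.A3 X Y ∨
    D.RA X Y

variable {D} in
theorem EA.lin {X Y : ℤ} (h : D.EA X Y) :
    X ≤ 8 * D.e + 3 * D.g ∧ -X ≤ 8 * D.e + 3 * D.g ∧ Y ≤ 4 * D.e + D.g ∧ -Y ≤ 8 * D.e + 3 * D.g ∧ X + Y ≤ 9 * D.e + 3 * D.g ∧ -X - Y ≤ 9 * D.e + 3 * D.g ∧ Y - X ≤ 9 * D.e + 3 * D.g ∧ X - Y ≤ 9 * D.e + 3 * D.g := by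
  have := D.aux
  rcases h with h | h
  · have := h.lin; omega
  · have := h.lin; omega

/-- A part of a boundary: its points. -/
def EB (X Y : ℤ) : Prop :=
  D.B3 X Y ∨
    D.RB X Y

variable {D} in
theorem EB.lin {X Y : ℤ} (h : D.EB X Y) :
    X ≤ 16 * D.e + 4 * D.g ∧ -X ≤ 0 ∧ Y ≤ 13 * D.e + 4 * D.g ∧ -Y ≤ 9 * D.e + 2 * D.g ∧ X + Y ≤ 25 * D.e + 7 * D.g ∧ -X - Y ≤ -D.e - D.g ∧ Y - X ≤ 3 * D.e + D.g ∧ X - Y ≤ 19 * D.e + 5 * D.g := by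
  have := D.aux
  rcases h with h | h
  · have := h.lin; omega
  · have := h.lin; omega

/-- A part of a boundary: its points. -/
def EC (X Y : ℤ) : Prop :=
  D.AL X Y ∨
    D.BE X Y

variable {D} in
theorem EC.lin {X Y : ℤ} (h : D.EC X Y) :
    X ≤ 16 * D.e + 4 * D.g ∧ -X ≤ 8 * D.e + 3 * D.g ∧ Y ≤ 13 * D.e + 4 * D.g ∧ -Y ≤ 9 * D.e + 3 * D.g ∧ X + Y ≤ 25 * D.e + 7 * D.g ∧ -X - Y ≤ 9 * D.e + 3 * D.g ∧ Y - X ≤ 9 * D.e + 3 * D.g ∧ X - Y ≤ 19 * D.e + 5 * D.g := by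
  have := D.aux
  rcases h with h | h
  · have := h.lin; omega
  · have := h.lin; omega

/-- The marked points. -/
def KA : List Pt :=
  [(3 * D.e + D.g, 0), (0, 0), (0, 3 * D.e + D.g), (-3 * D.e - D.g, 0), (0, -3 * D.e - D.g), (-6 * D.e - 2 * D.g, 3 * D.e + D.g), (-3 * D.e - D.g, -6 * D.e - 2 * D.g), (6 * D.e + 2 * D.g, -3 * D.e - D.g), (-6 * D.e - 2 * D.g, 0), (0, -6 * D.e - 2 * D.g), (6 * D.e + 2 * D.g, 0), (-6 * D.e - 2 * D.g, 0), (0, -6 * D.e - 2 * D.g), (6 * D.e + 2 * D.g, 0)]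

/-- The marked points. -/
def KB : List Pt :=
  [(11 * D.e + 3 * D.g, -2 * D.e), (11 * D.e + 3 * D.g, 2 * D.e + D.g), (15 * D.e + 4 * D.g, 2 * D.e + D.g), (11 * D.e + 3 * D.g, 6 * D.e + 2 * D.g), (7 * D.e + 2 * D.g, 2 * D.e + D.g), (15 * D.e + 4 * D.g, 10 * D.e + 3 * D.g), (3 * D.e + D.g, 6 * D.e + 2 * D.g), (7 * D.e + 2 * D.g, -6 * D.e - D.g), (15 * D.e + 4 * D.g, 6 * D.e + 2 * D.g), (7 * D.e + 2 * D.g, 6 * D.e + 2 * D.g), (7 * D.e + 2 * D.g, -2 * D.e), (11 * D.e + 3 * D.g, 10 * D.e + 3 * D.g), (3 * D.e + D.g, 2 * D.e + D.g), (11 * D.e + 3 * D.g, -6 * D.e - D.g)]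

/-- The marked points. -/
def KC : List Pt :=
  [(0, 0), (7 * D.e + 2 * D.g, -D.e), (10 * D.e + 3 * D.g, -5 * D.e - D.g), (11 * D.e + 3 * D.g, 2 * D.e + D.g), (15 * D.e + 4 * D.g, 5 * D.e + 2 * D.g), (12 * D.e + 3 * D.g, 9 * D.e + 3 * D.g), (8 * D.e + 2 * D.g, 6 * D.e + 2 * D.g), (4 * D.e + D.g, 3 * D.e + D.g)]

end DI

end NP
end Pool.Agent.Lib.MP_4a7072_co
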