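import Pool.Agent.Lib.MP_4a7072_co.FISimple
import Pool.Agent.Lib.MP_4a7072_co.FICov

/-!
The design for `3 b < 4 a` gives a dissection.
-/

set_option autoImplicit false
set_option linter.unnecessarySeqFocus false
set_option linter.unusedSimpArgs false
set_option linter.unusedVariables false
set_option linter.unreachableTactic false
set_option linter.unusedTactic false

namespace Pool.Agent.Lib.MP_4a7072_co
namespace NP


namespace DI

variable (D : DI)

theorem eU : D.U = D.I ++ D.G := by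
  have := D.ord
  exact D.C.Z_append (by omega) (by omega)

theorem eY : D.Y = D.I ++ D.G ++ D.T := by
  have := D.ord
  rw [← eU]
  exact D.C.Z_append (by omega) (by omega)

theorem eH : D.H = D.T ++ back 1 D.T := by
  have := D.ord
  have h := D.C.ZBQ D.C.qpos.le le_rfl
  rw [add_sub_cancel_right, show D.C.β + D.C.q + D.C.q = D.C.β + 2 * D.C.q by ring] at h
  rw [H, D.C.Z_append (j := D.C.β + D.C.q) (by omega) (by omega), h]
  rfl

theorem eG : D.G ++ D.H = back 1 D.I ++ (D.I ++ D.G) := by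
  have := D.ord
  have h := D.C.ZQ D.C.qpos.le le_rfl
  rw [sub_self] at h
  rw [G, H, I, ← D.C.Z_append (by omega) (by omega), ← h,
    ← D.C.Z_append (i := 0) (by omega) (by omega),
    ← D.C.Z_per (i := 0) (j := D.C.β) (i' := D.C.q + D.C.q) (j' := D.C.β + 2 * D.C.q) (by ring) rfl,
    ← D.C.Z_append (by omega) (by omega)]

theorem dI : dsp D.I = (0, 2 * D.e) := by
  rw [I, D.C.Z_dsp D.C.qpos.le, D.wq, D.C.w0]
  simp

theorem dG : dsp D.G = (2 * D.e + D.g, D.g) := by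
  rw [D.arcG.dsp_eq]
  ext <;> simp

theorem dT : dsp D.T = (0, 2 * D.e) := by
  rw [D.arcT.dsp_eq]
  ext <;> simp
  ring

theorem dx : dsp (ea D.e) = (D.e, 0) := dsp_ea (by have := D.aux; omega)

theorem dy : dsp (ea D.g) = (D.g, 0) := dsp_ea (by have := D.aux; omega)

theorem da : dsp (ea D.a) = (D.a, 0) := dsp_ea (by have := D.aux; omega)

theorem db : dsp (ea D.b) = (D.b, 0) := dsp_ea (by have := D.aux; omega)

theorem treeA : TreeOK (0, 3 * D.e + D.g) (D.wA3 ++ D.wRA) D.KA := by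
  have := D.aux
  have := D.ord
  have nI : D.I ≠ [] := D.C.Z_ne (by omega)
  have nG : D.G ≠ [] := D.C.Z_ne (by omega)
  have nT : D.T ≠ [] := D.C.Z_ne (by omega)
  have nx : ea D.e ≠ [] := ea_ne (by omega)
  have ny : ea D.g ≠ [] := ea_ne (by omega)
  have na : ea D.a ≠ [] := ea_ne (by omega)
  have nb : ea D.b ≠ [] := ea_ne (by omega)
  refine (pinH (μ := back 0 (D.I ++ D.G) ++ rot 1 (D.I ++ D.G)) (o₁ := rot 1 D.T)
    (o₂ := back 3 (rot 2 (ea D.e ++ ea D.g) ++ rot 1 D.T) ++ rot 2 (ea D.e ++ ea D.g))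
    (R := rot 2 (ea D.a)) (q := D.qa) (O := (0, 0)) (Z := (0, 3 * D.e + D.g)) (A := (-6 * D.e - 2 * D.g, 3 * D.e + D.g)) (B := (-6 * D.e - 2 * D.g, 0)) (B' := (-6 * D.e - 2 * D.g, 0))
    (by simp [back, nI]) (rot_ne na) (rot_ne nT) (by simp [rot, nx]) ?_ ?_ ?_ ?_
    (.inr (.inl ⟨_, by simp [rot, nx], rfl, ?_, rfl⟩))).cast rfl ?_ fun W => ?_
  · simp [qa, wH1, wL1, eU, eY, eG, rot_append, back_append, back_back, rot_back, back_rot, rot_rot, rot_zero, back_ea]
  · simp only [List.map_cons, List.map_nil, List.cons_append, List.nil_append, List.append_nil,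
      dsp_append, dsp_rot, dsp_back, List.cons.injEq, Prod.ext_iff, rotP_zero, rotP_1, rotP_2,
      rotP_3, Prod.fst_add, Prod.snd_add, Prod.fst_neg, Prod.snd_neg, dsp_nil, Prod.fst_zero,
      Prod.snd_zero, Prod.fst_sub, Prod.snd_sub, rho, Fin.reduceAdd, and_true, true_and, D.dI, D.dG, D.dT, D.dx, D.dy, D.da, D.db]
    omega
  · simp only [List.map_cons, List.map_nil, List.cons_append, List.nil_append, List.append_nil,
      dsp_append, dsp_rot, dsp_back, List.cons.injEq, Prod.ext_iff, rotP_zero, rotP_1, rotP_2,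
      rotP_3, Prod.fst_add, Prod.snd_add, Prod.fst_neg, Prod.snd_neg, dsp_nil, Prod.fst_zero,
      Prod.snd_zero, Prod.fst_sub, Prod.snd_sub, rho, Fin.reduceAdd, and_true, true_and, D.dI, D.dG, D.dT, D.dx, D.dy, D.da, D.db]
    omega
  · simp only [List.map_cons, List.map_nil, List.cons_append, List.nil_append, List.append_nil,
      dsp_append, dsp_rot, dsp_back, List.cons.injEq, Prod.ext_iff, rotP_zero, rotP_1, rotP_2,
      rotP_3, Prod.fst_add, Prod.snd_add, Prod.fst_neg, Prod.snd_neg, dsp_nil, Prod.fst_zero,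
      Prod.snd_zero, Prod.fst_sub, Prod.snd_sub, rho, Fin.reduceAdd, and_true, true_and, D.dI, D.dG, D.dT, D.dx, D.dy, D.da, D.db]
    omega
  · simp only [List.map_cons, List.map_nil, List.cons_append, List.nil_append, List.append_nil,
      dsp_append, dsp_rot, dsp_back, List.cons.injEq, Prod.ext_iff, rotP_zero, rotP_1, rotP_2,
      rotP_3, Prod.fst_add, Prod.snd_add, Prod.fst_neg, Prod.snd_neg, dsp_nil, Prod.fst_zero,
      Prod.snd_zero, Prod.fst_sub, Prod.snd_sub, rho, Fin.reduceAdd, and_true, true_and, D.dI, D.dG, D.dT, D.dx, D.dy, D.da, D.db]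
    omega
  · simp [wA3, wRA, back_rot]
  · rw [show _ :: _ = D.KA from ?_]
    simp only [List.map_cons, List.map_nil, List.cons_append, List.nil_append, List.append_nil,
      dsp_append, dsp_rot, dsp_back, List.cons.injEq, Prod.ext_iff, rotP_zero, rotP_1, rotP_2,
      rotP_3, Prod.fst_add, Prod.snd_add, Prod.fst_neg, Prod.snd_neg, dsp_nil, Prod.fst_zero,
      Prod.snd_zero, Prod.fst_sub, Prod.snd_sub, rho, Fin.reduceAdd, and_true, true_and, KA]
    omega

theorem treeB : TreeOK (15 * D.e + 4 * D.g, 2 * D.e + D.g) (D.wB3 ++ D.wRB) D.KB := by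
  have := D.aux
  have := D.ord
  have nI : D.I ≠ [] := D.C.Z_ne (by omega)
  have nG : D.G ≠ [] := D.C.Z_ne (by omega)
  have nT : D.T ≠ [] := D.C.Z_ne (by omega)
  have nx : ea D.e ≠ [] := ea_ne (by omega)
  have ny : ea D.g ≠ [] := ea_ne (by omega)
  have na : ea D.a ≠ [] := ea_ne (by omega)
  have nb : ea D.b ≠ [] := ea_ne (by omega)
  refine (pinH (μ := D.wB1 ++ rot 2 (ea D.e) ++ rot 1 (ea D.e))
    (o₁ := rot 2 (ea D.g) ++ (rot 1 D.T ++ back 2 D.Y))
    (o₂ := back 3 (rot 2 (ea D.g) ++ (rot 1 D.T ++ back 2 D.Y)))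
    (R := rot 1 (ea D.b)) (q := D.qb) (O := (11 * D.e + 3 * D.g, 2 * D.e + D.g)) (Z := (15 * D.e + 4 * D.g, 2 * D.e + D.g)) (A := (15 * D.e + 4 * D.g, 10 * D.e + 3 * D.g)) (B := (15 * D.e + 4 * D.g, 6 * D.e + 2 * D.g)) (B' := (11 * D.e + 3 * D.g, 10 * D.e + 3 * D.g))
    (by simp [rot, nx]) (rot_ne nb) (by simp [rot, ny]) (by simp [back, rot, ny]) ?_ ?_ ?_ ?_
    (.inr (.inr ⟨_, _, rot_ne ny, by simp [rot, nT], rfl, rfl, ?_, ?_⟩))).cast rfl ?_ fun W => ?_
  · simp [qb, wB1, wB2, rot_append, back_append, back_back, rot_back, back_rot, rot_rot, rot_zero, back_ea]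
  · simp only [List.map_cons, List.map_nil, List.cons_append, List.nil_append, List.append_nil,
      dsp_append, dsp_rot, dsp_back, List.cons.injEq, Prod.ext_iff, rotP_zero, rotP_1, rotP_2,
      rotP_3, Prod.fst_add, Prod.snd_add, Prod.fst_neg, Prod.snd_neg, dsp_nil, Prod.fst_zero,
      Prod.snd_zero, Prod.fst_sub, Prod.snd_sub, rho, Fin.reduceAdd, and_true, true_and, D.dI, D.dG, D.dT, D.dx, D.dy, D.da, D.db, wB1, eY]
    omega
  · simp only [List.map_cons, List.map_nil, List.cons_append, List.nil_append, List.append_nil,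
      dsp_append, dsp_rot, dsp_back, List.cons.injEq, Prod.ext_iff, rotP_zero, rotP_1, rotP_2,
      rotP_3, Prod.fst_add, Prod.snd_add, Prod.fst_neg, Prod.snd_neg, dsp_nil, Prod.fst_zero,
      Prod.snd_zero, Prod.fst_sub, Prod.snd_sub, rho, Fin.reduceAdd, and_true, true_and, D.dI, D.dG, D.dT, D.dx, D.dy, D.da, D.db, wB1, eY]
    omega
  · simp only [List.map_cons, List.map_nil, List.cons_append, List.nil_append, List.append_nil,
      dsp_append, dsp_rot, dsp_back, List.cons.injEq, Prod.ext_iff, rotP_zero, rotP_1, rotP_2,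
      rotP_3, Prod.fst_add, Prod.snd_add, Prod.fst_neg, Prod.snd_neg, dsp_nil, Prod.fst_zero,
      Prod.snd_zero, Prod.fst_sub, Prod.snd_sub, rho, Fin.reduceAdd, and_true, true_and, D.dI, D.dG, D.dT, D.dx, D.dy, D.da, D.db, wB1, eY]
    omega
  · simp only [List.map_cons, List.map_nil, List.cons_append, List.nil_append, List.append_nil,
      dsp_append, dsp_rot, dsp_back, List.cons.injEq, Prod.ext_iff, rotP_zero, rotP_1, rotP_2,
      rotP_3, Prod.fst_add, Prod.snd_add, Prod.fst_neg, Prod.snd_neg, dsp_nil, Prod.fst_zero,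
      Prod.snd_zero, Prod.fst_sub, Prod.snd_sub, rho, Fin.reduceAdd, and_true, true_and, D.dI, D.dG, D.dT, D.dx, D.dy, D.da, D.db, wB1, eY]
    omega
  · simp only [List.map_cons, List.map_nil, List.cons_append, List.nil_append, List.append_nil,
      dsp_append, dsp_rot, dsp_back, List.cons.injEq, Prod.ext_iff, rotP_zero, rotP_1, rotP_2,
      rotP_3, Prod.fst_add, Prod.snd_add, Prod.fst_neg, Prod.snd_neg, dsp_nil, Prod.fst_zero,
      Prod.snd_zero, Prod.fst_sub, Prod.snd_sub, rho, Fin.reduceAdd, and_true, true_and, D.dI, D.dG, D.dT, D.dx, D.dy, D.da, D.db, wB1, eY]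
    omega
  · simp [wB3, wRB, back_rot]
  · rw [show _ :: _ = D.KB from ?_]
    simp only [List.map_cons, List.map_nil, List.cons_append, List.nil_append, List.append_nil,
      dsp_append, dsp_rot, dsp_back, List.cons.injEq, Prod.ext_iff, rotP_zero, rotP_1, rotP_2,
      rotP_3, Prod.fst_add, Prod.snd_add, Prod.fst_neg, Prod.snd_neg, dsp_nil, Prod.fst_zero,
      Prod.snd_zero, Prod.fst_sub, Prod.snd_sub, rho, Fin.reduceAdd, and_true, true_and, KB]
    omega

theorem treeC : TreeOK (5 * D.e + D.g, 2 * D.e) (D.α ++ D.β) D.KC := by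
  have := D.aux
  have := D.ord
  have nI : D.I ≠ [] := D.C.Z_ne (by omega)
  have nG : D.G ≠ [] := D.C.Z_ne (by omega)
  have nT : D.T ≠ [] := D.C.Z_ne (by omega)
  have nx : ea D.e ≠ [] := ea_ne (by omega)
  have ny : ea D.g ≠ [] := ea_ne (by omega)
  have na : ea D.a ≠ [] := ea_ne (by omega)
  have nb : ea D.b ≠ [] := ea_ne (by omega)
  refine (((((TB.leaf (rot_ne (t := 2) na)).tu.cat (((((((((((((((((((((((((((((((((((((((((TB.leaf nx).tu.zip (rot 1 (ea D.g))).zip (back 2 D.T)).zip (rot 3 D.T)).zip (rot 3 D.G)).zip (rot 3 D.I)).zip (back 2 D.I)).zip (back 2 D.G)).zip (back 2 D.T)).zip (rot 1 D.T)).cat (((TB.leaf (rot_ne (t := 2) nx)).tu.zip (rot 1 (ea D.e))).zip (rot 1 (ea D.g)))).zip (rot 1 D.G)).cat (TB.leaf (rot_ne (t := 1) nb)).tu).zip (back 2 D.G)).zip (rot 3 (ea D.g))).zip (rot 3 (ea D.e))).zip ((ea D.e))).cat (TB.leaf (rot_ne (t := 2) nx)).tu).zip ((ea D.g))).zip (back 1 D.T)).zip (rot 2 D.T)).zip (rot 2 D.G)).zip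 (rot 2 D.I)).zip (back 1 D.I)).zip (back 1 D.G)).zip (back 1 D.T)).zip (D.T)).cat (((TB.leaf nx).tu.zip (rot 3 (ea D.e))).zip (rot 3 (ea D.g)))).zip (D.G)).zip (back 1 D.G)).zip (rot 2 (ea D.g))).zip (rot 2 (ea D.e))).zip (rot 3 (ea D.e))).cat (TB.leaf (rot_ne (t := 3) nx)).tu).zip (rot 3 (ea D.g))).zip (back 0 D.T)).zip (rot 1 D.T)).zip (rot 1 D.G)).zip (rot 1 D.I)).zip (back 0 D.I)).zip (back 0 D.G))).zip (back 3 D.T)).zip (rot 2 D.T)).cat (((TB.leaf (rot_ne (t := 1) nx)).tu.zip ((ea D.e))).zip ((ea D.g)))).ok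
    (u := []) rfl (by
      simp [α, β, wA1, wA2, wC1, wC2, wRA, wRB, qa, qb, wH1, wL1, wB1, wB2, eU, eY, eH, rot_append, back_append, back_back, rot_back, back_rot, rot_rot, rot_zero, back_ea])
    fun W => ?_
  rw [show List.map _ _ = D.KC from ?_]
  simp only [List.map_cons, List.map_nil, List.cons_append, List.nil_append, List.append_nil,
      dsp_append, dsp_rot, dsp_back, List.cons.injEq, Prod.ext_iff, rotP_zero, rotP_1, rotP_2,
      rotP_3, Prod.fst_add, Prod.snd_add, Prod.fst_neg, Prod.snd_neg, dsp_nil, Prod.fst_zero,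
      Prod.snd_zero, Prod.fst_sub, Prod.snd_sub, rho, Fin.reduceAdd, and_true, true_and, D.dI, D.dG, D.dT, D.dx, D.dy, D.da, D.db, KC]
  omega

include D in
theorem twoPiece {a b c : ℕ} (ha : D.a = a) (hb : D.b = b) (h : a ^ 2 + b ^ 2 = c ^ 2) :
    TwoPieceDissection a b c := by
  have := D.aux
  have hZ : (a : ℤ) ^ 2 + (b : ℤ) ^ 2 = (c : ℤ) ^ 2 := by exact_mod_cast h
  let Λa : Lat := ⟨D.a, 0, a, by omega, le_rfl, by rw [ha]; ring⟩
  let Λb : Lat := ⟨D.b, 0, b, by omega, le_rfl, by rw [hb]; ring⟩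
  let Λc : Lat := ⟨D.b, D.a, c, by omega, by omega, by rw [ha, hb]; linear_combination hZ⟩
  have nA : Net Λa (0, 0) _ _ := net_env D.sA0.1 D.sA2 D.sA0.2 D.treeA D.memA D.covA
  have nB : Net Λb (11 * D.e + 3 * D.g, 2 * D.e + D.g) _ _ := net_env D.sB0.1 D.sB2 D.sB0.2 D.treeB D.memB D.covB
  have nC : Net Λc (0, 0) _ ([] ++ _) := net_env D.sC0.1 D.sC2 D.sC0.2 D.treeC D.memC D.covC
  rw [D.eA] at nA
  rw [D.eB] at nB
  refine twoPiece_of_net (Λa := Λa) (Λb := Λb) (Λc := Λc) rfl rfl h nA nB nC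
    (List.append_nil _) ?_ ?_
  · rw [D.covC1.1, D.covA1.1, D.arcπ.1]
  · rw [D.covA1.1, D.arcπ.1]
    rfl

end DI

theorem twoPiece_I (a b c : ℕ) (hab : a < b) (hb : 3 * b < 4 * a) (h : a ^ 2 + b ^ 2 = c ^ 2)
    (hc : Nat.Coprime a b) (ho : a % 2 = 1) (h4 : b % 4 = 0) : TwoPieceDissection a b c := by
  obtain ⟨u, v, huv⟩ : IsCoprime (a : ℤ) b := Nat.isCoprime_iff_coprime.2 hc
  obtain ⟨k, hk⟩ : ∃ k : ℤ, b = 2 * k := ⟨b / 2, by omega⟩
  have c1 : IsCoprime ((b : ℤ) - a) ((a : ℤ) - k) :=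
    ⟨u + 2 * v, 2 * u + 2 * v, by rw [hk] at huv ⊢; linear_combination huv⟩
  obtain ⟨W⟩ := exists_WB 0 _ _ (by omega) c1 (Or.inl ⟨rfl, by omega⟩)
  have e : 2 * ((a : ℤ) - k) = 2 * ((b : ℤ) - a) + (4 * a - 3 * b) := by omega
  obtain ⟨V, hV⟩ : ∃ V : WB0 0 (2 * ((b : ℤ) - a)) (2 * ((b : ℤ) - a) + (4 * a - 3 * b)), V.Ev :=
    e ▸ ⟨W.toWB0.dbl (by omega), W.toWB0.dbl_par _⟩
  exact DI.twoPiece ⟨a, b, b - a, 4 * a - 3 * b, by omega, V, hV⟩ rfl rfl h

end NP
end Pool.Agent.Lib.MP_4a7072_co
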