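import Pool.Agent.Lib.MP_4a7072_co.FIDefs

/-!
The boundaries of the design for `3 b < 4 a` are simple closed paths.
-/

set_option autoImplicit false
set_option linter.unnecessarySeqFocus false
set_option linter.unusedSimpArgs false
set_option linter.unusedVariables false
set_option linter.unreachableTactic false
set_option linter.unusedTactic false

namespace Pool.Agent.Lib.MP_4a7072_co
namespace NP


namespace DI

variable (D : DI)

theorem arcH1 : CArc (0, 3 * D.e + D.g) D.wH1 (-6 * D.e - 2 * D.g, D.e) D.H1 := by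
  have := D.aux
  have h0 := D.arcU.b0 (Q' := (0, 3 * D.e + D.g)) (P' := (-2 * D.e - D.g, D.e)) (-2 * D.e - D.g) D.e (by dsimp only; omega)
  have h1 := D.arcY.p1 (P' := (-2 * D.e - D.g, D.e)) (Q' := (-6 * D.e - 2 * D.g, 3 * D.e + D.g)) (-2 * D.e - D.g) D.e (by dsimp only; omega)
  have h2 := D.arcT.b0 (Q' := (-6 * D.e - 2 * D.g, 3 * D.e + D.g)) (P' := (-6 * D.e - 2 * D.g, D.e + D.g)) (-8 * D.e - 3 * D.g) (-D.e) (by dsimp only; omega)
  have h3 := D.arcLg.p3 (P' := (-6 * D.e - 2 * D.g, D.e + D.g)) (Q' := (-6 * D.e - 2 * D.g, D.e)) (-6 * D.e - 2 * D.g) (D.e + D.g) (by dsimp only; omega)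
  refine ((h0.append h1 ?_).append h2 ?_).append h3 ?_
  · intro X Y a b
    show X = -2 * D.e - D.g ∧ Y = D.e
    have := D.sA a b (by omega); omega
  · intro X Y a b
    show X = -6 * D.e - 2 * D.g ∧ Y = 3 * D.e + D.g
    rcases a with a | a
    · have := a.lin; have := b.lin; omega
    · have := D.sBQ b.on a.on (by omega); omega
  · intro X Y a b
    show X = -6 * D.e - 2 * D.g ∧ Y = D.e + D.g
    rcases a with (a | a) | a
    · have := a.lin; have := b.lin; omega
    · have := a.lin; have := b.lin; omega
    · have := a.lin; have := b.lin; omega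

theorem arcL1 : CArc (-6 * D.e - 2 * D.g, D.e) D.wL1 (-5 * D.e - D.g, -2 * D.e) D.L1 := by
  have := D.aux
  have h0 := D.arcLe.p3 (P' := (-6 * D.e - 2 * D.g, D.e)) (Q' := (-6 * D.e - 2 * D.g, 0)) (-6 * D.e - 2 * D.g) D.e (by dsimp only; omega)
  have h1 := D.arcLxy.p2 (P' := (-6 * D.e - 2 * D.g, 0)) (Q' := (-7 * D.e - 3 * D.g, 0)) (-6 * D.e - 2 * D.g) 0 (by dsimp only; omega)
  have h2 := D.arcG.b1 (Q' := (-7 * D.e - 3 * D.g, 0)) (P' := (-7 * D.e - 2 * D.g, -2 * D.e - D.g)) (-5 * D.e - 2 * D.g) (-2 * D.e - D.g) (by dsimp only; omega)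
  have h3 := D.arcG.p0 (P' := (-7 * D.e - 2 * D.g, -2 * D.e - D.g)) (Q' := (-5 * D.e - D.g, -2 * D.e)) (-7 * D.e - 2 * D.g) (-4 * D.e - D.g) (by dsimp only; omega)
  refine ((h0.append h1 ?_).append h2 ?_).append h3 ?_
  · intro X Y a b
    show X = -6 * D.e - 2 * D.g ∧ Y = 0
    have := a.lin; have := b.lin; omega
  · intro X Y a b
    show X = -7 * D.e - 3 * D.g ∧ Y = 0
    rcases a with a | a
    · have := a.lin; have := b.lin; omega
    · have := a.lin; have := b.lin; omega
  · intro X Y a b
    show X = -7 * D.e - 2 * D.g ∧ Y = -2 * D.e - D.g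
    rcases a with (a | a) | a
    · have := a.lin; have := b.lin; omega
    · have := a.lin; have := b.lin; omega
    · have := D.sQ b a (by omega); omega

theorem arcQA : CArc (0, 3 * D.e + D.g) D.qa (-3 * D.e - D.g, 0) D.QA := by
  have := D.aux
  have h0 := D.arcH1
  have h1 := D.arcL1
  have h2 := D.arcH.p0 (P' := (-5 * D.e - D.g, -2 * D.e)) (Q' := (-3 * D.e - D.g, 0)) (-7 * D.e - 2 * D.g) (-4 * D.e - D.g) (by dsimp only; omega)
  refine (h0.append h1 ?_).append h2 ?_
  · intro X Y a b
    show X = -6 * D.e - 2 * D.g ∧ Y = D.e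
    rcases a with ((a | a) | a) | a
    · have := a.lin; have := b.lin; omega
    · have := a.lin; have := b.lin; omega
    · have := a.lin; have := b.lin; omega
    · have := a.lin; have := b.lin; omega
  · intro X Y a b
    show X = -5 * D.e - D.g ∧ Y = -2 * D.e
    rcases a with a | a
    · rcases a with ((a | a) | a) | a
      · have := a.lin; have := b.lin; omega
      · have := a.lin; have := b.lin; omega
      · have := a.lin; have := b.lin; omega
      · have := a.lin; have := b.lin; omega
    · rcases a with ((a | a) | a) | a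
      · have := a.lin; have := b.lin; omega
      · have := a.lin; have := b.lin; omega
      · have := a.lin; have := b.lin; omega
      · have := D.sGH a b (by omega); omega

variable {D} in
theorem qqa {X1 Y1 X2 Y2 : ℤ} (a : D.QA X1 Y1) (b : D.QA X2 Y2)
    (e : X2 = Y1 ∧ Y2 = -X1) :
    X1 = -3 * D.e - D.g ∧ Y1 = 0 := by
  have := D.aux
  rcases a with (a | a) | a
  · have := a.lin; have := b.lin; omega
  · have := a.lin; have := b.lin; omega
  · rcases b with (b | b) | b
    · rcases b with ((b | b) | b) | b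
      · have := D.sB a.on b (by omega) (by have := D.ord; omega); omega
      · have := a.lin; have := b.lin; omega
      · have := a.lin; have := b.lin; omega
      · have := a.lin; have := b.lin; omega
    · have := a.lin; have := b.lin; omega
    · have := a.lin; have := b.lin; omega

theorem arcA3 : CArc (0, 3 * D.e + D.g) D.wA3 (3 * D.e + D.g, 0) D.A3 := by
  have := D.aux
  have h0 := D.arcQA
  have h1 := D.arcQA.p1 (P' := (-3 * D.e - D.g, 0)) (Q' := (0, -3 * D.e - D.g)) 0 0 (by dsimp only; omega)
  have h2 := D.arcQA.p2 (P' := (0, -3 * D.e - D.g)) (Q' := (3 * D.e + D.g, 0)) 0 0 (by dsimp only; omega)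
  refine (h0.append h1 ?_).append h2 ?_
  · intro X Y a b
    show X = -3 * D.e - D.g ∧ Y = 0
    have := qqa a b (by omega); omega
  · intro X Y a b
    show X = 0 ∧ Y = -3 * D.e - D.g
    rcases a with a | a
    · have := a.lin; have := b.lin; omega
    · have := qqa a b (by omega); omega

theorem arcRA : CArc (3 * D.e + D.g, 0) D.wRA (0, 3 * D.e + D.g) D.RA := by
  have := D.aux
  have h0 := D.arcLa.p2 (P' := (3 * D.e + D.g, 0)) (Q' := (0, 0)) (3 * D.e + D.g) 0 (by dsimp only; omega)
  have h1 := D.arcLa.b3 (Q' := (0, 0)) (P' := (0, 3 * D.e + D.g)) 0 (3 * D.e + D.g) (by dsimp only; omega)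
  refine h0.append h1 ?_
  · intro X Y a b
    show X = 0 ∧ Y = 0
    have := a.lin; have := b.lin; omega

theorem arcB1 : CArc (4 * D.e + D.g, 0) D.wB1 (5 * D.e + D.g, 3 * D.e + D.g) D.B1 := by
  have := D.aux
  have h0 := D.arcG.p1 (P' := (4 * D.e + D.g, 0)) (Q' := (4 * D.e, 2 * D.e + D.g)) (6 * D.e + D.g) 0 (by dsimp only; omega)
  have h1 := D.arcLyx.p0 (P' := (4 * D.e, 2 * D.e + D.g)) (Q' := (5 * D.e + D.g, 2 * D.e + D.g)) (4 * D.e) (2 * D.e + D.g) (by dsimp only; omega)
  have h2 := D.arcLe.p1 (P' := (5 * D.e + D.g, 2 * D.e + D.g)) (Q' := (5 * D.e + D.g, 3 * D.e + D.g)) (5 * D.e + D.g) (2 * D.e + D.g) (by dsimp only; omega)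
  refine (h0.append h1 ?_).append h2 ?_
  · intro X Y a b
    show X = 4 * D.e ∧ Y = 2 * D.e + D.g
    have := a.lin; have := b.lin; omega
  · intro X Y a b
    show X = 5 * D.e + D.g ∧ Y = 2 * D.e + D.g
    rcases a with a | a
    · have := a.lin; have := b.lin; omega
    · have := a.lin; have := b.lin; omega

theorem arcB2 : CArc (5 * D.e + D.g, 3 * D.e + D.g) D.wB2 (-D.g, 6 * D.e + 2 * D.g) D.B2 := by
  have := D.aux
  have h0 := D.arcLe.p2 (P' := (5 * D.e + D.g, 3 * D.e + D.g)) (Q' := (4 * D.e + D.g, 3 * D.e + D.g)) (5 * D.e + D.g) (3 * D.e + D.g) (by dsimp only; omega)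
  have h1 := D.arcLe.p1 (P' := (4 * D.e + D.g, 3 * D.e + D.g)) (Q' := (4 * D.e + D.g, 4 * D.e + D.g)) (4 * D.e + D.g) (3 * D.e + D.g) (by dsimp only; omega)
  have h2 := D.arcLg.p2 (P' := (4 * D.e + D.g, 4 * D.e + D.g)) (Q' := (4 * D.e, 4 * D.e + D.g)) (4 * D.e + D.g) (4 * D.e + D.g) (by dsimp only; omega)
  have h3 := D.arcT.p1 (P' := (4 * D.e, 4 * D.e + D.g)) (Q' := (2 * D.e, 4 * D.e + D.g)) (6 * D.e + D.g) (2 * D.e) (by dsimp only; omega)
  have h4 := D.arcY.b2 (Q' := (2 * D.e, 4 * D.e + D.g)) (P' := (4 * D.e + D.g, 8 * D.e + 2 * D.g)) (4 * D.e + D.g) (8 * D.e + 2 * D.g) (by dsimp only; omega)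
  have h5 := D.arcY.p1 (P' := (4 * D.e + D.g, 8 * D.e + 2 * D.g)) (Q' := (0, 10 * D.e + 3 * D.g)) (4 * D.e + D.g) (8 * D.e + 2 * D.g) (by dsimp only; omega)
  have h6 := D.arcT.b0 (Q' := (0, 10 * D.e + 3 * D.g)) (P' := (0, 8 * D.e + 3 * D.g)) (-2 * D.e - D.g) (6 * D.e + 2 * D.g) (by dsimp only; omega)
  have h7 := D.arcLyx.p3 (P' := (0, 8 * D.e + 3 * D.g)) (Q' := (0, 7 * D.e + 2 * D.g)) 0 (8 * D.e + 3 * D.g) (by dsimp only; omega)
  have h8 := D.arcLe.p0 (P' := (0, 7 * D.e + 2 * D.g)) (Q' := (D.e, 7 * D.e + 2 * D.g)) 0 (7 * D.e + 2 * D.g) (by dsimp only; omega)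
  have h9 := D.arcLe.p3 (P' := (D.e, 7 * D.e + 2 * D.g)) (Q' := (D.e, 6 * D.e + 2 * D.g)) D.e (7 * D.e + 2 * D.g) (by dsimp only; omega)
  have h10 := D.arcLxy.p2 (P' := (D.e, 6 * D.e + 2 * D.g)) (Q' := (-D.g, 6 * D.e + 2 * D.g)) D.e (6 * D.e + 2 * D.g) (by dsimp only; omega)
  refine (((((((((h0.append h1 ?_).append h2 ?_).append h3 ?_).append h4 ?_).append h5 ?_).append h6 ?_).append h7 ?_).append h8 ?_).append h9 ?_).append h10 ?_
  · intro X Y a b
    show X = 4 * D.e + D.g ∧ Y = 3 * D.e + D.g
    have := a.lin; have := b.lin; omega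
  · intro X Y a b
    show X = 4 * D.e + D.g ∧ Y = 4 * D.e + D.g
    rcases a with a | a
    · have := a.lin; have := b.lin; omega
    · have := a.lin; have := b.lin; omega
  · intro X Y a b
    show X = 4 * D.e ∧ Y = 4 * D.e + D.g
    rcases a with (a | a) | a
    · have := a.lin; have := b.lin; omega
    · have := a.lin; have := b.lin; omega
    · have := a.lin; have := b.lin; omega
  · intro X Y a b
    show X = 2 * D.e ∧ Y = 4 * D.e + D.g
    rcases a with ((a | a) | a) | a
    · have := a.lin; have := b.lin; omega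
    · have := a.lin; have := b.lin; omega
    · have := a.lin; have := b.lin; omega
    · have := D.sBQ a.on b.on (by omega); omega
  · intro X Y a b
    show X = 4 * D.e + D.g ∧ Y = 8 * D.e + 2 * D.g
    rcases a with (((a | a) | a) | a) | a
    · have := a.lin; have := b.lin; omega
    · have := a.lin; have := b.lin; omega
    · have := a.lin; have := b.lin; omega
    · have := a.lin; have := b.lin; omega
    · have := D.sA b a (by omega); omega
  · intro X Y a b
    show X = 0 ∧ Y = 10 * D.e + 3 * D.g
    rcases a with ((((a | a) | a) | a) | a) | a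
    · have := a.lin; have := b.lin; omega
    · have := a.lin; have := b.lin; omega
    · have := a.lin; have := b.lin; omega
    · have := a.lin; have := b.lin; omega
    · have := a.lin; have := b.lin; omega
    · have := D.sBQ b.on a.on (by omega); omega
  · intro X Y a b
    show X = 0 ∧ Y = 8 * D.e + 3 * D.g
    rcases a with (((((a | a) | a) | a) | a) | a) | a
    · have := a.lin; have := b.lin; omega
    · have := a.lin; have := b.lin; omega
    · have := a.lin; have := b.lin; omega
    · have := a.lin; have := b.lin; omega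
    · have := a.lin; have := b.lin; omega
    · have := a.lin; have := b.lin; omega
    · have := a.lin; have := b.lin; omega
  · intro X Y a b
    show X = 0 ∧ Y = 7 * D.e + 2 * D.g
    rcases a with ((((((a | a) | a) | a) | a) | a) | a) | a
    · have := a.lin; have := b.lin; omega
    · have := a.lin; have := b.lin; omega
    · have := a.lin; have := b.lin; omega
    · have := a.lin; have := b.lin; omega
    · have := a.lin; have := b.lin; omega
    · have := a.lin; have := b.lin; omega
    · have := a.lin; have := b.lin; omega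
    · have := a.lin; have := b.lin; omega
  · intro X Y a b
    show X = D.e ∧ Y = 7 * D.e + 2 * D.g
    rcases a with (((((((a | a) | a) | a) | a) | a) | a) | a) | a
    · have := a.lin; have := b.lin; omega
    · have := a.lin; have := b.lin; omega
    · have := a.lin; have := b.lin; omega
    · have := a.lin; have := b.lin; omega
    · have := a.lin; have := b.lin; omega
    · have := a.lin; have := b.lin; omega
    · have := a.lin; have := b.lin; omega
    · have := a.lin; have := b.lin; omega
    · have := a.lin; have := b.lin; omega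
  · intro X Y a b
    show X = D.e ∧ Y = 6 * D.e + 2 * D.g
    rcases a with ((((((((a | a) | a) | a) | a) | a) | a) | a) | a) | a
    · have := a.lin; have := b.lin; omega
    · have := a.lin; have := b.lin; omega
    · have := a.lin; have := b.lin; omega
    · have := a.lin; have := b.lin; omega
    · have := a.lin; have := b.lin; omega
    · have := a.lin; have := b.lin; omega
    · have := a.lin; have := b.lin; omega
    · have := a.lin; have := b.lin; omega
    · have := a.lin; have := b.lin; omega
    · have := a.lin; have := b.lin; omega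

theorem arcQB : CArc (4 * D.e + D.g, 0) D.qb (0, 4 * D.e + D.g) D.QB := by
  have := D.aux
  have h0 := D.arcB1
  have h1 := D.arcB2
  have h2 := D.arcG.b1 (Q' := (-D.g, 6 * D.e + 2 * D.g)) (P' := (0, 4 * D.e + D.g)) (2 * D.e) (4 * D.e + D.g) (by dsimp only; omega)
  refine (h0.append h1 ?_).append h2 ?_
  · intro X Y a b
    show X = 5 * D.e + D.g ∧ Y = 3 * D.e + D.g
    rcases a with (a | a) | a
    · have := a.lin; have := b.lin; omega
    · have := a.lin; have := b.lin; omega
    · have := a.lin; have := b.lin; omega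
  · intro X Y a b
    show X = -D.g ∧ Y = 6 * D.e + 2 * D.g
    rcases a with a | a
    · have := a.lin; have := b.lin; omega
    · rcases a with (((((((((a | a) | a) | a) | a) | a) | a) | a) | a) | a) | a
      · have := a.lin; have := b.lin; omega
      · have := a.lin; have := b.lin; omega
      · have := a.lin; have := b.lin; omega
      · have := a.lin; have := b.lin; omega
      · have := a.lin; have := b.lin; omega
      · have := a.lin; have := b.lin; omega
      · have := a.lin; have := b.lin; omega
      · have := a.lin; have := b.lin; omega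
      · have := a.lin; have := b.lin; omega
      · have := a.lin; have := b.lin; omega
      · have := a.lin; have := b.lin; omega

variable {D} in
theorem qqb {X1 Y1 X2 Y2 : ℤ} (a : D.QB X1 Y1) (b : D.QB X2 Y2)
    (e : X2 = Y1 ∧ Y2 = -X1) :
    X1 = 0 ∧ Y1 = 4 * D.e + D.g := by
  have := D.aux
  rcases a with (a | a) | a
  · have := a.lin; have := b.lin; omega
  · have := a.lin; have := b.lin; omega
  · rcases b with (b | b) | b
    · rcases b with (b | b) | b
      · have := D.sQ a b (by omega); omega
      · have := a.lin; have := b.lin; omega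
      · have := a.lin; have := b.lin; omega
    · have := a.lin; have := b.lin; omega
    · have := a.lin; have := b.lin; omega

theorem arcB3 : CArc (15 * D.e + 4 * D.g, 2 * D.e + D.g) D.wB3 (11 * D.e + 3 * D.g, -2 * D.e) D.B3 := by
  have := D.aux
  have h0 := D.arcQB.p0 (P' := (15 * D.e + 4 * D.g, 2 * D.e + D.g)) (Q' := (11 * D.e + 3 * D.g, 6 * D.e + 2 * D.g)) (11 * D.e + 3 * D.g) (2 * D.e + D.g) (by dsimp only; omega)
  have h1 := D.arcQB.p1 (P' := (11 * D.e + 3 * D.g, 6 * D.e + 2 * D.g)) (Q' := (7 * D.e + 2 * D.g, 2 * D.e + D.g)) (11 * D.e + 3 * D.g) (2 * D.e + D.g) (by dsimp only; omega)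
  have h2 := D.arcQB.p2 (P' := (7 * D.e + 2 * D.g, 2 * D.e + D.g)) (Q' := (11 * D.e + 3 * D.g, -2 * D.e)) (11 * D.e + 3 * D.g) (2 * D.e + D.g) (by dsimp only; omega)
  refine (h0.append h1 ?_).append h2 ?_
  · intro X Y a b
    show X = 11 * D.e + 3 * D.g ∧ Y = 6 * D.e + 2 * D.g
    have := qqb a b (by omega); omega
  · intro X Y a b
    show X = 7 * D.e + 2 * D.g ∧ Y = 2 * D.e + D.g
    rcases a with a | a
    · have := a.lin; have := b.lin; omega
    · have := qqb a b (by omega); omega

theorem arcRB : CArc (11 * D.e + 3 * D.g, -2 * D.e) D.wRB (15 * D.e + 4 * D.g, 2 * D.e + D.g) D.RB := by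
  have := D.aux
  have h0 := D.arcLb.p1 (P' := (11 * D.e + 3 * D.g, -2 * D.e)) (Q' := (11 * D.e + 3 * D.g, 2 * D.e + D.g)) (11 * D.e + 3 * D.g) (-2 * D.e) (by dsimp only; omega)
  have h1 := D.arcLb.b2 (Q' := (11 * D.e + 3 * D.g, 2 * D.e + D.g)) (P' := (15 * D.e + 4 * D.g, 2 * D.e + D.g)) (15 * D.e + 4 * D.g) (2 * D.e + D.g) (by dsimp only; omega)
  refine h0.append h1 ?_
  · intro X Y a b
    show X = 11 * D.e + 3 * D.g ∧ Y = 2 * D.e + D.g
    have := a.lin; have := b.lin; omega

theorem sA0 : Simple (0, 3 * D.e + D.g) (D.wA3 ++ D.wRA) ∧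
    ∀ z ∈ verts (0, 3 * D.e + D.g) (D.wA3 ++ D.wRA), D.EA z.1 z.2 := by
  have := D.aux
  refine D.arcA3.simple D.arcRA (fun X Y a b => ?_) (by
    have := length_ea (n := D.a) (by omega)
    simp only [wRA, List.length_append, length_rot, length_back]
    omega)
  show (X = 0 ∧ Y = 3 * D.e + D.g) ∨ (X = 3 * D.e + D.g ∧ Y = 0)
  rcases a with (a | a) | a
  · have := a.lin; have := b.lin; omega
  · have := a.lin; have := b.lin; omega
  · have := a.lin; have := b.lin; omega

theorem sA1 : OutE D.EA (3 * D.e + D.g) 1 := by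
  have := D.aux
  refine .rayN fun V _ h => ?_
  rcases h with h | h
  · rcases h with (h | h) | h
    · have := h.lin; omega
    · have := h.lin; omega
    · have := h.lin; omega
  · have := h.lin; omega

theorem sA2 : Ccw (0, 3 * D.e + D.g) (D.wA3 ++ D.wRA) := by
  have := D.aux
  exact ccw_env (Q := (3 * D.e + D.g, 0)) (d := 2) D.sA0.1 D.sA0.2 (sMem_edges_right D.arcA3.1 (sMem_edges_left (edge_ea _ 2 (by omega)) _))
    D.sA1 (by ext <;> simp [dv] <;> omega)

theorem sB0 : Simple (15 * D.e + 4 * D.g, 2 * D.e + D.g) (D.wB3 ++ D.wRB) ∧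
    ∀ z ∈ verts (15 * D.e + 4 * D.g, 2 * D.e + D.g) (D.wB3 ++ D.wRB), D.EB z.1 z.2 := by
  have := D.aux
  refine D.arcB3.simple D.arcRB (fun X Y a b => ?_) (by
    have := length_ea (n := D.b) (by omega)
    simp only [wRB, List.length_append, length_rot, length_back]
    omega)
  show (X = 15 * D.e + 4 * D.g ∧ Y = 2 * D.e + D.g) ∨ (X = 11 * D.e + 3 * D.g ∧ Y = -2 * D.e)
  rcases a with (a | a) | a
  · have := a.lin; have := b.lin; omega
  · have := a.lin; have := b.lin; omega
  · have := a.lin; have := b.lin; omega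

theorem sB1 : OutE D.EB (11 * D.e + 3 * D.g + 1) (-2 * D.e) := by
  have := D.aux
  refine .rayE fun V _ h => ?_
  rcases h with h | h
  · rcases h with (h | h) | h
    · have := h.lin; omega
    · have := h.lin; omega
    · have := h.lin; omega
  · have := h.lin; omega

theorem sB2 : Ccw (15 * D.e + 4 * D.g, 2 * D.e + D.g) (D.wB3 ++ D.wRB) := by
  have := D.aux
  exact ccw_env (Q := (11 * D.e + 3 * D.g, -2 * D.e)) (d := 1) D.sB0.1 D.sB0.2 (sMem_edges_right D.arcB3.1 (sMem_edges_left (edge_ea _ 1 (by omega)) _))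
    D.sB1 (by ext <;> simp [dv] <;> omega)

theorem covA1 : Cov (0, 3 * D.e + D.g) D.wA1 (6 * D.e + 2 * D.g, -D.e) D.A1 := by
  have := D.aux
  have h0 := (D.arcQA).cov
  have h1 := (D.arcQA.p1 (P' := (-3 * D.e - D.g, 0)) (Q' := (0, -3 * D.e - D.g)) 0 0 (by dsimp only; omega)).cov
  have h2 := (D.arcH1.p2 (P' := (0, -3 * D.e - D.g)) (Q' := (6 * D.e + 2 * D.g, -D.e)) 0 0 (by dsimp only; omega)).cov
  exact (h0.append h1).append h2

theorem covA2 : Cov (5 * D.e + D.g, 2 * D.e) D.wA2 (0, 3 * D.e + D.g) D.A2 := by
  have := D.aux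
  have h0 := (D.arcH.p2 (P' := (5 * D.e + D.g, 2 * D.e)) (Q' := (3 * D.e + D.g, 0)) (7 * D.e + 2 * D.g) (4 * D.e + D.g) (by dsimp only; omega)).cov
  have h1 := (D.arcRA).cov
  exact h0.append h1

theorem covC1 : Cov (15 * D.e + 4 * D.g, 2 * D.e + D.g) D.wC1 (5 * D.e + D.g, 2 * D.e) D.C1 := by
  have := D.aux
  have h0 := (D.arcQB.p0 (P' := (15 * D.e + 4 * D.g, 2 * D.e + D.g)) (Q' := (11 * D.e + 3 * D.g, 6 * D.e + 2 * D.g)) (11 * D.e + 3 * D.g) (2 * D.e + D.g) (by dsimp only; omega)).cov
  have h1 := (D.arcB1.p1 (P' := (11 * D.e + 3 * D.g, 6 * D.e + 2 * D.g)) (Q' := (8 * D.e + 2 * D.g, 7 * D.e + 2 * D.g)) (11 * D.e + 3 * D.g) (2 * D.e + D.g) (by dsimp only; omega)).cov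
  have h2 := (D.arcB2.p1 (P' := (8 * D.e + 2 * D.g, 7 * D.e + 2 * D.g)) (Q' := (5 * D.e + D.g, 2 * D.e)) (11 * D.e + 3 * D.g) (2 * D.e + D.g) (by dsimp only; omega)).cov
  exact (h0.append h1).append h2

theorem covC2 : Cov (6 * D.e + 2 * D.g, -D.e) D.wC2 (15 * D.e + 4 * D.g, 2 * D.e + D.g) D.C2 := by
  have := D.aux
  have h0 := (D.arcB2.p2 (P' := (6 * D.e + 2 * D.g, -D.e)) (Q' := (11 * D.e + 4 * D.g, -4 * D.e - D.g)) (11 * D.e + 3 * D.g) (2 * D.e + D.g) (by dsimp only; omega)).cov
  have h1 := (D.arcG.b3 (Q' := (11 * D.e + 4 * D.g, -4 * D.e - D.g)) (P' := (11 * D.e + 3 * D.g, -2 * D.e)) (9 * D.e + 3 * D.g) (-2 * D.e) (by dsimp only; omega)).cov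
  have h2 := (D.arcRB).cov
  exact (h0.append h1).append h2

/-- The interface. -/
def π : List Dir := rot 2 D.wL1

theorem eA : D.wA3 ++ D.wRA = D.wA1 ++ (D.π ++ D.wA2) := by
  simp [wA3, wA1, wA2, π, qa, rot_append]

theorem eB : D.wB3 ++ D.wRB = D.wC1 ++ (back 0 D.π ++ D.wC2) := by
  simp [wB3, wC1, wC2, π, qb, wB1, wL1, rot_append, back_append, back_rot, back_back, rot_back,
    rot_rot, back_ea]

theorem arcπ : CArc (6 * D.e + 2 * D.g, -D.e) D.π (5 * D.e + D.g, 2 * D.e) fun _ _ => True := by
  have := D.aux
  exact (D.arcL1.p2 (P' := (6 * D.e + 2 * D.g, -D.e)) (Q' := (5 * D.e + D.g, 2 * D.e)) 0 0 (by dsimp only; omega)).mono fun _ _ _ => trivial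

theorem π_ne : D.π ≠ [] := by
  have := D.ord
  exact rot_ne (List.append_ne_nil_of_right_ne_nil _ (D.C.Z_ne (by omega)))

theorem arcAL : CArc (5 * D.e + D.g, 2 * D.e) D.α (6 * D.e + 2 * D.g, -D.e) D.AL :=
  Simple.rest (D.eA ▸ D.sA0.1) D.π_ne D.covA2 D.covA1 D.arcπ.1

theorem arcBE : CArc (6 * D.e + 2 * D.g, -D.e) D.β (5 * D.e + D.g, 2 * D.e) D.BE :=
  Simple.rest (D.eB ▸ D.sB0.1) (back_ne D.π_ne) D.covC2 D.covC1 D.arcπ.back.1

theorem sC0 : Simple (5 * D.e + D.g, 2 * D.e) (D.α ++ D.β) ∧
    ∀ z ∈ verts (5 * D.e + D.g, 2 * D.e) (D.α ++ D.β), D.EC z.1 z.2 := by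
  have := D.aux
  refine D.arcAL.simple D.arcBE (fun X Y a b => ?_) (by
    have := length_ea (n := D.a) (by omega)
    simp only [α, wA2, wRA, List.length_append, length_rot, length_back]
    omega)
  show (X = 5 * D.e + D.g ∧ Y = 2 * D.e) ∨ (X = 6 * D.e + 2 * D.g ∧ Y = -D.e)
  rcases a with a | a
  · rcases b with b | b
    · have := a.lin; have := b.lin; omega
    · rcases b with (b | b) | b
      · have := a.lin; have := b.lin; omega
      · have := a.lin; have := b.lin; omega
      · rcases a with a | a
        · rcases b with (((((((((b | b) | b) | b) | b) | b) | b) | b) | b) | b) | b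
          · have := a.lin; have := b.lin; omega
          · have := a.lin; have := b.lin; omega
          · have := a.lin; have := b.lin; omega
          · have := a.lin; have := b.lin; omega
          · have := a.lin; have := b.lin; omega
          · have := a.lin; have := b.lin; omega
          · have := a.lin; have := b.lin; omega
          · have := a.lin; have := b.lin; omega
          · have := a.lin; have := b.lin; omega
          · have := a.lin; have := b.lin; omega
          · have := a.lin; have := b.lin; omega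
        · rcases a with a | a
          · have := a.lin; have := b.lin; omega
          · rcases b with (((((((((b | b) | b) | b) | b) | b) | b) | b) | b) | b) | b
            · have := a.lin; have := b.lin; omega
            · have := a.lin; have := b.lin; omega
            · have := a.lin; have := b.lin; omega
            · have := a.lin; have := b.lin; omega
            · have := a.lin; have := b.lin; omega
            · have := a.lin; have := b.lin; omega
            · have := a.lin; have := b.lin; omega
            · have := a.lin; have := b.lin; omega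
            · have := a.lin; have := b.lin; omega
            · have := a.lin; have := b.lin; omega
            · have := a.lin; have := b.lin; omega
  · rcases b with b | b
    · rcases a with (a | a) | a
      · have := a.lin; have := b.lin; omega
      · have := a.lin; have := b.lin; omega
      · rcases b with (b | b) | b
        · rcases b with (((((((((b | b) | b) | b) | b) | b) | b) | b) | b) | b) | b
          · have := a.lin; have := b.lin; omega
          · rcases a with ((a | a) | a) | a
            · have := a.lin; have := b.lin; omega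
            · have := a.lin; have := b.lin; omega
            · have := a.lin; have := b.lin; omega
            · have := a.lin; have := b.lin; omega
          · rcases a with ((a | a) | a) | a
            · have := a.lin; have := b.lin; omega
            · have := a.lin; have := b.lin; omega
            · have := a.lin; have := b.lin; omega
            · have := a.lin; have := b.lin; omega
          · have := a.lin; have := b.lin; omega
          · have := a.lin; have := b.lin; omega
          · have := a.lin; have := b.lin; omega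
          · have := a.lin; have := b.lin; omega
          · have := a.lin; have := b.lin; omega
          · have := a.lin; have := b.lin; omega
          · have := a.lin; have := b.lin; omega
          · have := a.lin; have := b.lin; omega
        · have := a.lin; have := b.lin; omega
        · have := a.lin; have := b.lin; omega
    · rcases b with (b | b) | b
      · have := a.lin; have := b.lin; omega
      · have := a.lin; have := b.lin; omega
      · rcases a with (a | a) | a
        · rcases a with (a | a) | a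
          · rcases b with (((((((((b | b) | b) | b) | b) | b) | b) | b) | b) | b) | b
            · have := a.lin; have := b.lin; omega
            · have := a.lin; have := b.lin; omega
            · have := a.lin; have := b.lin; omega
            · have := a.lin; have := b.lin; omega
            · have := a.lin; have := b.lin; omega
            · have := a.lin; have := b.lin; omega
            · have := a.lin; have := b.lin; omega
            · have := a.lin; have := b.lin; omega
            · have := a.lin; have := b.lin; omega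
            · have := a.lin; have := b.lin; omega
            · have := a.lin; have := b.lin; omega
          · have := a.lin; have := b.lin; omega
          · have := a.lin; have := b.lin; omega
        · have := a.lin; have := b.lin; omega
        · have := a.lin; have := b.lin; omega

theorem sC1 : OutE D.EC (11 * D.e + 3 * D.g + 1) (-2 * D.e) := by
  have := D.aux
  refine .rayE fun V _ h => ?_
  rcases h with h | h
  · have := h.lin; omega
  · rcases h with h | h
    · rcases h with (h | h) | h
      · have := h.lin; omega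
      · have := h.lin; omega
      · have := h.lin; omega
    · have := h.lin; omega

theorem sC2 : Ccw (5 * D.e + D.g, 2 * D.e) (D.α ++ D.β) := by
  have := D.aux
  exact ccw_env (Q := (11 * D.e + 3 * D.g, -2 * D.e)) (d := 1) D.sC0.1 D.sC0.2 (sMem_edges_right D.arcAL.1 (sMem_edges_left (sMem_edges_right ((D.arcB2.p2 (P' := (6 * D.e + 2 * D.g, -D.e)) (Q' := (11 * D.e + 4 * D.g, -4 * D.e - D.g)) (11 * D.e + 3 * D.g) (2 * D.e + D.g) (by dsimp only; omega)).cov.append (D.arcG.b3 (Q' := (11 * D.e + 4 * D.g, -4 * D.e - D.g)) (P' := (11 * D.e + 3 * D.g, -2 * D.e)) (9 * D.e + 3 * D.g) (-2 * D.e) (by dsimp only; omega)).cov).1 (sMem_edges_left (edge_ea _ 1 (by omega)) _)) _))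
    D.sC1 (by ext <;> simp [dv] <;> omega)

end DI

end NP
end Pool.Agent.Lib.MP_4a7072_co
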