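import Pool.Agent.Lib.MP_4a7072_co.F5Base

/-!
A pinwheel whose radial cut starts at a point that is not a vertex, and the curve of a design for
an odd shorter leg `a` and `4 a < 3 b < 5 a`.
-/

set_option autoImplicit false
set_option linter.unnecessarySeqFocus false
set_option linter.unusedSimpArgs false

namespace Pool.Agent.Lib.MP_4a7072_co
namespace NP

/-- Three quarters of a pinwheel and a cut that starts on the branch of the vertex `B`. -/
theorem pinX {μ o X₁ X₂ R q : List Dir} {O P A B Z : Pt} (hμ : μ ≠ []) (hR : R ≠ []) (ho : o ≠ [])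
    (h2 : X₂ ≠ [])
    (eq : q = X₂ ++ back 1 X₂ ++ back 1 X₁ ++ back 1 o ++ o ++ back 0 μ ++ rot 1 μ ++ rot 1 X₁)
    (hO : rho O 3 P + dsp R = O) (hB : P + dsp X₂ = B)
    (hA : P + dsp (X₂ ++ back 1 X₂ ++ back 1 X₁ ++ back 1 o) = A)
    (hZ : A + dsp o + dsp (back 0 μ) = Z) (hP : Z + dsp (rot 1 μ ++ rot 1 X₁) = rho O 1 P) :
    TreeOK P (q ++ rot 1 q ++ rot 2 q ++ (R ++ back 1 R))
      [O, B, rho O 1 B, rho O 2 B, A, rho O 1 A, rho O 2 A, Z, rho O 1 Z, rho O 2 Z] := by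
  have T := (TB.leaf (back_ne (t := 0) hμ)).tu
  have TX := (TB.leaf (List.append_ne_nil_of_right_ne_nil X₁ h2)).tu
  subst eq
  refine (((((T.cat (TX.rot 1)).core ho).rot 2).cat (T.rot 2)).cat
    (((TB.leaf hR).tu.cat (TB.leaf h2).tu).zip (rot 3 X₁))).ok
    (u := X₂ ++ back 1 X₂ ++ back 1 X₁)
    (v := back 1 o ++ o ++ back 0 μ ++ rot 1 μ ++ rot 1 X₁ ++
      rot 1 (X₂ ++ back 1 X₂ ++ back 1 X₁ ++ back 1 o ++ o ++ back 0 μ ++ rot 1 μ ++ rot 1 X₁) ++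
      rot 2 (X₂ ++ back 1 X₂ ++ back 1 X₁ ++ back 1 o ++ o ++ back 0 μ ++ rot 1 μ ++ rot 1 X₁) ++
      (R ++ back 1 R))
    (by simp only [List.append_assoc]) (by
      simp [rot_append, back_append, back_back, rot_back, back_rot, rot_rot, rot_zero])
    fun W => ?_
  rw [show List.map _ _ = [A, Z, rho O 1 B, rho O 1 A, rho O 1 Z, rho O 2 B, rho O 2 A, rho O 2 Z,
    O, B] from ?_]
  · simp only [List.mem_cons, List.not_mem_nil]
    tauto
  subst hA hB hZ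
  simp only [List.map_cons, List.map_nil, List.cons_append, List.nil_append,
    dsp_append, dsp_rot, dsp_back, rho, List.cons.injEq, Prod.ext_iff, rotP_zero, rotP_1, rotP_2,
    rotP_3, Prod.fst_add, Prod.snd_add, Prod.fst_sub, Prod.snd_sub, Prod.fst_neg, Prod.snd_neg,
    Prod.fst_zero, Prod.snd_zero, Fin.reduceAdd, and_true] at hO hP ⊢
  omega

/-- The data of the design. -/
structure DJ where
  a : ℤ
  b : ℤ
  d : ℤ
  h : ℤ
  p : ℤ
  K : ℤ
  aux' : a = d + h ∧ b = d + 2 * h ∧ d % 4 = 2 ∧ h % 2 = 1 ∧ 0 < d ∧ d < 2 * h ∧ h < 2 * d ∧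
    0 ≤ 2 * h - 1 - 2 * p ∧ 2 * h - 1 - 2 * p ≤ d
  W : WB0 0 d (d + 2 * h)
  ev : W.Ev
  hK : W.q < K ∧ K < W.β - 2 * W.q
  wK : W.w K = (p, 2 * h - 1 - p)
  lo : ∀ l, l ≤ K → (W.w l).1 + (W.w l).2 ≤ 2 * h - 1 ∧
    ((W.w l).1 + (W.w l).2 < 2 * h - 1 ∨ (W.w l).1 = p)
  hi : ∀ l, K ≤ l → 2 * h - 1 ≤ (W.w l).1 + (W.w l).2 ∧
    (2 * h - 1 < (W.w l).1 + (W.w l).2 ∨ (W.w l).1 = p)

theorem exists_DJ (a b : ℤ) (ha : a % 2 = 1) (hb : b % 4 = 0) (h1 : 4 * a < 3 * b)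
    (h2 : 3 * b < 5 * a) (hc : IsCoprime a b) : ∃ D : DJ, D.a = a ∧ D.b = b := by
  obtain ⟨k, rfl⟩ : ∃ k, b = 2 * k := ⟨b / 2, by omega⟩
  obtain ⟨x, y, hc⟩ := hc
  have c : IsCoprime (a - k) k := ⟨x, x + 2 * y, by linear_combination hc⟩
  obtain ⟨W, mir, -⟩ := exists_WS 0 _ _ (by omega) c (.inl ⟨rfl, by omega⟩)
  obtain ⟨V, ev, mir⟩ : ∃ V : WB0 0 (2 * a - 2 * k) (2 * a - 2 * k + 2 * (2 * k - a)),
      V.Ev ∧ V.Mir := by
    rw [show 2 * a - 2 * k + 2 * (2 * k - a) = 2 * k by ring, show 2 * a - 2 * k = 2 * (a - k) by ring]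
    exact ⟨W.toWB0.dbl (by omega), W.toWB0.dbl_par _, W.toWB0.toUC.dw_mir mir⟩
  have hq := V.qpos
  have e : 2 * a - 2 * k + 2 * (2 * k - a) + -1 * (2 * a - 2 * k) = 2 * (2 * k - a) := by ring
  have hw := (V.shift (-1)).wβ
  have hm := mir.shift (-1)
  have h0 := ((V.shift (-1)).monoA (V.shift (-1)).β).2.1
  rw [hw] at h0
  simp only at h0
  obtain ⟨K, k1, k2, k3, k4⟩ := (V.shift (-1)).toUC.cross (b := 2 * (2 * k - a)) (by omega) (by omega)
    (show 0 ≤ (V.shift (-1)).β by omega) (hw.trans (by rw [e])) ev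
    (fun l => by have := hm l; dsimp only [WB0.toUC] at this ⊢; omega)
  dsimp only [WB0.toUC, WB0.shift] at k1 k2 k3 k4
  have := (V.monoA K).2.2.2.2.1
  have := V.strip K
  refine ⟨⟨a, 2 * k, 2 * a - 2 * k, 2 * k - a, (V.w K).1, K, by omega, V, ev, by omega,
    Prod.ext rfl (by simp only; omega), fun l g => ?_, fun l g => ?_⟩, rfl, rfl⟩
  · rcases g.eq_or_lt with rfl | c
    · omega
    · have := k3 l
      have := (V.monoA l).2.1
      omega
  · rcases g.eq_or_lt with rfl | c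
    · omega
    · have := k4 l
      have := ((V.shift (-1)).monoB l).1
      dsimp only [WB0.shift] at this
      omega

end NP
end Pool.Agent.Lib.MP_4a7072_co
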