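import Pool.Agent.Lib.MP_4a7072_co.FJBase

/-!
A design for an odd shorter leg `a` and `4 a < 3 b < 5 a`: words and envelopes.
-/

set_option autoImplicit false
set_option linter.unnecessarySeqFocus false
set_option linter.unusedSimpArgs false
set_option linter.unusedVariables false
set_option linter.unreachableTactic false
set_option linter.unusedTactic false

namespace Pool.Agent.Lib.MP_4a7072_co
namespace NP


namespace DJ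

variable (D : DJ)

theorem aux : D.a = D.d + D.h ∧ D.b = D.d + 2 * D.h ∧ D.d % 4 = 2 ∧ D.h % 2 = 1 ∧ 0 < D.d ∧ D.d < 2 * D.h ∧ D.h < 2 * D.d ∧ 0 ≤ 2 * D.h - 1 - 2 * D.p ∧ 2 * D.h - 1 - 2 * D.p ≤ D.d := D.aux'

/-- The curve. -/
def C : UC (D.d, D.d) := D.W.toUC

theorem ord : 0 < D.C.q ∧ D.C.q < D.K ∧ D.K < D.C.β - 2 * D.C.q := ⟨D.W.qpos, D.hK⟩

theorem wq : D.C.w D.C.q = (0, D.d) := D.W.wq

theorem wβ : D.C.w D.C.β = (D.d + 2 * D.h, D.d + 2 * D.h) := D.W.wβ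

theorem wnq : D.C.w (-D.C.q) = (-D.d, 0) := by
  have := D.C.symA _ D.C.qpos.le le_rfl
  rw [D.wq] at this
  exact Prod.ext this.1 this.2

theorem wβ2 : D.C.w (D.C.β - 2 * D.C.q) = (2 * D.h, 2 * D.h) := by
  have := D.C.per' (D.C.β - 2 * D.C.q)
  rw [sub_add_cancel, D.wβ] at this
  ext <;> simp only at this ⊢ <;> omega

theorem wβ1 : D.C.w (D.C.β - D.C.q) = (2 * D.h, D.d + 2 * D.h) := by
  have := D.C.per' (D.C.β - D.C.q)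
  have h := D.W.wβq'
  rw [show D.C.β - D.C.q + 2 * D.C.q = D.C.β + D.C.q by ring] at this
  change (D.C.w (D.C.β + D.C.q)).1 = _ ∧ (D.C.w (D.C.β + D.C.q)).2 = _ at h
  ext <;> simp only at this ⊢ <;> omega

/-- A part of the curve. -/
def S : List Dir := D.C.Z (-D.C.q) D.K

/-- A part of the curve. -/
def A : List Dir := D.C.Z (-D.C.q) 0

/-- A part of the curve. -/
def H : List Dir := D.C.Z 0 D.K

/-- A part of the curve. -/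
def G : List Dir := D.C.Z D.C.q D.K

/-- A part of the curve. -/
def M : List Dir := D.C.Z D.K D.C.β

/-- A part of the curve. -/
def L : List Dir := D.C.Z D.C.q D.C.β

/-- A part of the curve. -/
def Y : List Dir := D.C.Z D.K (D.C.β - D.C.q)

/-- A part of the curve. -/
def N : List Dir := D.C.Z D.K (D.C.β - 2 * D.C.q)

/-- A part of the curve. -/
def I : List Dir := D.C.Z 0 D.C.q

/-- A part of the curve. -/
def T : List Dir := D.C.Z (D.C.β - 2 * D.C.q) (D.C.β - D.C.q)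

/-- A part of the curve. -/
def U : List Dir := D.C.Z (D.C.β - D.C.q) D.C.β

/-- A staircase. -/
def F : List Dir := stw (2 * D.h - 2 * D.p - 1)

/-- The points of a part of the curve. -/
def PS (X Y : ℤ) : Prop := D.C.On (-D.C.q) D.K X Y

variable {D} in
theorem PS.on {X Y : ℤ} (h : D.PS X Y) : D.C.On (-D.C.q) D.K X Y := h

theorem arcS : CArc (-D.d, 0) D.S (D.p, 2 * D.h - D.p - 1) D.PS :=
  (D.C.arc (by have := D.ord; omega)).mv (D.wnq.trans (by ext <;> dsimp only <;> omega))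
    (D.wK.trans (by ext <;> dsimp only <;> omega)) fun _ _ h => h

variable {D} in
theorem PS.lin {X Y : ℤ} (h : D.PS X Y) :
    0 ≤ Y - X ∧ Y - X ≤ D.d ∧ -D.d ≤ X + Y ∧ X + Y ≤ 2 * D.h - 1 ∧ (X + Y < 2 * D.h - 1 ∨ X = D.p) ∧ (X % 2 = 0 ∨ Y % 2 = 0) := by
  obtain ⟨l, h1, h2, rfl, rfl⟩ := h
  exact ⟨(D.W.strip l).1, (D.W.strip l).2,
    (D.W.monoA l).2.2.2.2.2 h1, (D.lo l h2).1, (D.lo l h2).2, D.ev l⟩

/-- The points of a part of the curve. -/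
def PA (X Y : ℤ) : Prop := D.C.On (-D.C.q) 0 X Y

variable {D} in
theorem PA.on {X Y : ℤ} (h : D.PA X Y) : D.C.On (-D.C.q) 0 X Y := h

theorem arcA : CArc (-D.d, 0) D.A (0, 0) D.PA :=
  (D.C.arc (by have := D.ord; omega)).mv (D.wnq.trans (by ext <;> dsimp only <;> omega))
    (D.C.w0.trans (by ext <;> dsimp only <;> omega)) fun _ _ h => h

variable {D} in
theorem PA.lin {X Y : ℤ} (h : D.PA X Y) :
    0 ≤ Y - X ∧ Y - X ≤ D.d ∧ -D.d ≤ X + Y ∧ X + Y ≤ 0 ∧ (X % 2 = 0 ∨ Y % 2 = 0) := by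
  obtain ⟨l, h1, h2, rfl, rfl⟩ := h
  exact ⟨(D.W.strip l).1, (D.W.strip l).2,
    (D.W.monoA l).2.2.2.2.2 h1, (D.W.monoA l).2.1 h2, D.ev l⟩

/-- The points of a part of the curve. -/
def PH (X Y : ℤ) : Prop := D.C.On 0 D.K X Y

variable {D} in
theorem PH.on {X Y : ℤ} (h : D.PH X Y) : D.C.On 0 D.K X Y := h

theorem arcH : CArc (0, 0) D.H (D.p, 2 * D.h - D.p - 1) D.PH :=
  (D.C.arc (by have := D.ord; omega)).mv (D.C.w0.trans (by ext <;> dsimp only <;> omega))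
    (D.wK.trans (by ext <;> dsimp only <;> omega)) fun _ _ h => h

variable {D} in
theorem PH.lin {X Y : ℤ} (h : D.PH X Y) :
    0 ≤ Y - X ∧ Y - X ≤ D.d ∧ 0 ≤ X + Y ∧ X + Y ≤ 2 * D.h - 1 ∧ (X + Y < 2 * D.h - 1 ∨ X = D.p) ∧ (X % 2 = 0 ∨ Y % 2 = 0) := by
  obtain ⟨l, h1, h2, rfl, rfl⟩ := h
  exact ⟨(D.W.strip l).1, (D.W.strip l).2,
    (D.W.monoA l).1 h1, (D.lo l h2).1, (D.lo l h2).2, D.ev l⟩

/-- The points of a part of the curve. -/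
def PG (X Y : ℤ) : Prop := D.C.On D.C.q D.K X Y

variable {D} in
theorem PG.on {X Y : ℤ} (h : D.PG X Y) : D.C.On D.C.q D.K X Y := h

theorem arcG : CArc (0, D.d) D.G (D.p, 2 * D.h - D.p - 1) D.PG :=
  (D.C.arc (by have := D.ord; omega)).mv (D.wq.trans (by ext <;> dsimp only <;> omega))
    (D.wK.trans (by ext <;> dsimp only <;> omega)) fun _ _ h => h

variable {D} in
theorem PG.lin {X Y : ℤ} (h : D.PG X Y) :
    0 ≤ Y - X ∧ Y - X ≤ D.d ∧ D.d ≤ X + Y ∧ X + Y ≤ 2 * D.h - 1 ∧ (X + Y < 2 * D.h - 1 ∨ X = D.p) ∧ (X % 2 = 0 ∨ Y % 2 = 0) := by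
  obtain ⟨l, h1, h2, rfl, rfl⟩ := h
  exact ⟨(D.W.strip l).1, (D.W.strip l).2,
    (D.W.monoA l).2.2.1 h1, (D.lo l h2).1, (D.lo l h2).2, D.ev l⟩

/-- The points of a part of the curve. -/
def PM (X Y : ℤ) : Prop := D.C.On D.K D.C.β X Y

variable {D} in
theorem PM.on {X Y : ℤ} (h : D.PM X Y) : D.C.On D.K D.C.β X Y := h

theorem arcM : CArc (D.p, 2 * D.h - D.p - 1) D.M (D.d + 2 * D.h, D.d + 2 * D.h) D.PM :=
  (D.C.arc (by have := D.ord; omega)).mv (D.wK.trans (by ext <;> dsimp only <;> omega))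
    (D.wβ.trans (by ext <;> dsimp only <;> omega)) fun _ _ h => h

variable {D} in
theorem PM.lin {X Y : ℤ} (h : D.PM X Y) :
    0 ≤ Y - X ∧ Y - X ≤ D.d ∧ 2 * D.h - 1 ≤ X + Y ∧ X + Y ≤ 2 * D.d + 4 * D.h ∧ (2 * D.h - 1 < X + Y ∨ X = D.p) ∧ (X % 2 = 0 ∨ Y % 2 = 0) := by
  obtain ⟨l, h1, h2, rfl, rfl⟩ := h
  exact ⟨(D.W.strip l).1, (D.W.strip l).2,
    (D.hi l h1).1, ((D.W.monoB l).2.1 h2).trans_eq (by ring), (D.hi l h1).2, D.ev l⟩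

/-- The points of a part of the curve. -/
def PL (X Y : ℤ) : Prop := D.C.On D.C.q D.C.β X Y

variable {D} in
theorem PL.on {X Y : ℤ} (h : D.PL X Y) : D.C.On D.C.q D.C.β X Y := h

theorem arcL : CArc (0, D.d) D.L (D.d + 2 * D.h, D.d + 2 * D.h) D.PL :=
  (D.C.arc (by have := D.ord; omega)).mv (D.wq.trans (by ext <;> dsimp only <;> omega))
    (D.wβ.trans (by ext <;> dsimp only <;> omega)) fun _ _ h => h

variable {D} in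
theorem PL.lin {X Y : ℤ} (h : D.PL X Y) :
    0 ≤ Y - X ∧ Y - X ≤ D.d ∧ D.d ≤ X + Y ∧ X + Y ≤ 2 * D.d + 4 * D.h ∧ (X % 2 = 0 ∨ Y % 2 = 0) := by
  obtain ⟨l, h1, h2, rfl, rfl⟩ := h
  exact ⟨(D.W.strip l).1, (D.W.strip l).2,
    (D.W.monoA l).2.2.1 h1, ((D.W.monoB l).2.1 h2).trans_eq (by ring), D.ev l⟩

/-- The points of a part of the curve. -/
def PY (X Y : ℤ) : Prop := D.C.On D.K (D.C.β - D.C.q) X Y

variable {D} in
theorem PY.on {X Y : ℤ} (h : D.PY X Y) : D.C.On D.K (D.C.β - D.C.q) X Y := h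

theorem arcY : CArc (D.p, 2 * D.h - D.p - 1) D.Y (2 * D.h, D.d + 2 * D.h) D.PY :=
  (D.C.arc (by have := D.ord; omega)).mv (D.wK.trans (by ext <;> dsimp only <;> omega))
    (D.wβ1.trans (by ext <;> dsimp only <;> omega)) fun _ _ h => h

variable {D} in
theorem PY.lin {X Y : ℤ} (h : D.PY X Y) :
    0 ≤ Y - X ∧ Y - X ≤ D.d ∧ 2 * D.h - 1 ≤ X + Y ∧ X + Y ≤ D.d + 4 * D.h ∧ (2 * D.h - 1 < X + Y ∨ X = D.p) ∧ (X % 2 = 0 ∨ Y % 2 = 0) := by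
  obtain ⟨l, h1, h2, rfl, rfl⟩ := h
  exact ⟨(D.W.strip l).1, (D.W.strip l).2,
    (D.hi l h1).1, ((D.W.monoB l).2.2.2.1 h2).trans_eq (by ring), (D.hi l h1).2, D.ev l⟩

/-- The points of a part of the curve. -/
def PN (X Y : ℤ) : Prop := D.C.On D.K (D.C.β - 2 * D.C.q) X Y

variable {D} in
theorem PN.on {X Y : ℤ} (h : D.PN X Y) : D.C.On D.K (D.C.β - 2 * D.C.q) X Y := h

theorem arcN : CArc (D.p, 2 * D.h - D.p - 1) D.N (2 * D.h, 2 * D.h) D.PN :=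
  (D.C.arc (by have := D.ord; omega)).mv (D.wK.trans (by ext <;> dsimp only <;> omega))
    (D.wβ2.trans (by ext <;> dsimp only <;> omega)) fun _ _ h => h

variable {D} in
theorem PN.lin {X Y : ℤ} (h : D.PN X Y) :
    0 ≤ Y - X ∧ Y - X ≤ D.d ∧ 2 * D.h - 1 ≤ X + Y ∧ X + Y ≤ 4 * D.h ∧ (2 * D.h - 1 < X + Y ∨ X = D.p) ∧ (X % 2 = 0 ∨ Y % 2 = 0) := by
  obtain ⟨l, h1, h2, rfl, rfl⟩ := h
  have u : (D.W.w l).1 + (D.W.w l).2 ≤ 4 * D.h := by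
    have h3 : l ≤ D.W.β - 2 * D.W.q := h2
    have := (D.W.monoB (l + 2 * D.W.q)).2.1 (by omega)
    have p := D.W.per1 l
    omega
  exact ⟨(D.W.strip l).1, (D.W.strip l).2,
    (D.hi l h1).1, u, (D.hi l h1).2, D.ev l⟩

/-- The points of a path. -/
def Lh (X Y : ℤ) : Prop := 0 ≤ X ∧ X ≤ D.h ∧ Y = 0

variable {D} in
theorem Lh.lin {X Y : ℤ} (h : D.Lh X Y) : 0 ≤ X ∧ X ≤ D.h ∧ Y = 0 := h

theorem arcLh : CArc (0, 0) (ea D.h) (D.h, 0) D.Lh := by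
  have := D.aux
  exact (ea_arc (by omega)).mv rfl (by ext <;> dsimp only <;> omega) fun X Y h => ⟨h.1, by omega, h.2.2⟩

/-- The points of a path. -/
def L1 (_ : DJ) (X Y : ℤ) : Prop := 0 ≤ X ∧ X ≤ 1 ∧ Y = 0

variable {D} in
theorem L1.lin {X Y : ℤ} (h : D.L1 X Y) : 0 ≤ X ∧ X ≤ 1 ∧ Y = 0 := h

theorem arcL1 : CArc (0, 0) (ea 1) (1, 0) D.L1 := by
  have := D.aux
  exact (ea_arc (by omega)).mv rfl (by ext <;> dsimp only <;> omega) fun X Y h => ⟨h.1, by omega, h.2.2⟩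

/-- The points of a path. -/
def Lg (X Y : ℤ) : Prop := 0 ≤ X ∧ X ≤ D.h - 1 ∧ Y = 0

variable {D} in
theorem Lg.lin {X Y : ℤ} (h : D.Lg X Y) : 0 ≤ X ∧ X ≤ D.h - 1 ∧ Y = 0 := h

theorem arcLg : CArc (0, 0) (ea (D.h - 1)) (D.h - 1, 0) D.Lg := by
  have := D.aux
  exact (ea_arc (by omega)).mv rfl (by ext <;> dsimp only <;> omega) fun X Y h => ⟨h.1, by omega, h.2.2⟩

/-- The points of a path. -/
def Ld (X Y : ℤ) : Prop := 0 ≤ X ∧ X ≤ D.d ∧ Y = 0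

variable {D} in
theorem Ld.lin {X Y : ℤ} (h : D.Ld X Y) : 0 ≤ X ∧ X ≤ D.d ∧ Y = 0 := h

theorem arcLd : CArc (0, 0) (ea D.d) (D.d, 0) D.Ld := by
  have := D.aux
  exact (ea_arc (by omega)).mv rfl (by ext <;> dsimp only <;> omega) fun X Y h => ⟨h.1, by omega, h.2.2⟩

/-- The points of a path. -/
def Le (X Y : ℤ) : Prop := 0 ≤ X ∧ X ≤ D.d - 1 ∧ Y = 0

variable {D} in
theorem Le.lin {X Y : ℤ} (h : D.Le X Y) : 0 ≤ X ∧ X ≤ D.d - 1 ∧ Y = 0 := h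

theorem arcLe : CArc (0, 0) (ea (D.d - 1)) (D.d - 1, 0) D.Le := by
  have := D.aux
  exact (ea_arc (by omega)).mv rfl (by ext <;> dsimp only <;> omega) fun X Y h => ⟨h.1, by omega, h.2.2⟩

/-- The points of a path. -/
def Lb (X Y : ℤ) : Prop := 0 ≤ X ∧ X ≤ D.d + 2 * D.h ∧ Y = 0

variable {D} in
theorem Lb.lin {X Y : ℤ} (h : D.Lb X Y) : 0 ≤ X ∧ X ≤ D.d + 2 * D.h ∧ Y = 0 := h

theorem arcLb : CArc (0, 0) (ea D.b) (D.d + 2 * D.h, 0) D.Lb := by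
  have := D.aux
  exact (ea_arc (by omega)).mv rfl (by ext <;> dsimp only <;> omega) fun X Y h => ⟨h.1, by omega, h.2.2⟩

/-- The points of a path. -/
def Ls (X Y : ℤ) : Prop := 0 ≤ Y - X ∧ Y - X ≤ 2 * D.h - 2 * D.p - 1 ∧ (X + Y = -1 ∨ ((X + Y = 0 ∨ X + Y = -2) ∧ X % 2 = 0))

variable {D} in
theorem Ls.lin {X Y : ℤ} (h : D.Ls X Y) : 0 ≤ Y - X ∧ Y - X ≤ 2 * D.h - 2 * D.p - 1 ∧ (X + Y = -1 ∨ ((X + Y = 0 ∨ X + Y = -2) ∧ X % 2 = 0)) := h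

theorem arcLs : CArc (0, 0) D.F (D.p - D.h, D.h - D.p - 1) D.Ls := by
  have := D.aux
  exact stw_arc (by omega) (by omega) (by omega)

section

variable {X1 Y1 X2 Y2 i j i' : ℤ}

theorem sB (a : D.C.On i j X1 Y1) (b : D.C.On i' D.C.β X2 Y2) (hj : j ≤ D.C.β)
    (e : X2 = Y1 ∧ Y2 = 2 * D.d + 4 * D.h - X1) :
    X1 = D.d + 2 * D.h ∧ Y1 = D.d + 2 * D.h := by
  have := D.aux
  have := WB0.tB (X := X1 - (D.d + 2 * D.h)) (Y := Y1 - (D.d + 2 * D.h)) D.ev (by omega) (by omega)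
    (sCg a (by omega) (by omega)) (sCg b (by omega) (by omega)) hj le_rfl
  omega

theorem sBQ (a : D.PY X1 Y1) (b : D.PY X2 Y2)
    (e : X2 = Y1 - D.d ∧ Y2 = D.d + 4 * D.h - X1) : X1 = 2 * D.h ∧ Y1 = D.d + 2 * D.h := by
  have := D.aux
  have := WB0.tBQ (W := D.W.shift (-1)) (X := X1 - 2 * D.h) (Y := Y1 - (D.d + 2 * D.h)) D.ev
    (by omega) (by omega) (sCg a.on (by omega) (by omega)) (sCg b.on (by omega) (by omega))
    (by dsimp only [WB0.shift, C, WB0.toUC]; omega) (by dsimp only [WB0.shift, C, WB0.toUC]; omega)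
  omega

theorem sAH (a : D.PA X1 Y1) (b : D.PH X2 Y2) (e : X2 = X1 ∧ Y2 = Y1) : X1 = 0 ∧ Y1 = 0 := by
  obtain ⟨rfl, rfl⟩ := e
  have := UC.On.meet a b
  rwa [D.C.w0] at this

end

/-- A part of a boundary: its points. -/
def A0 (X Y : ℤ) : Prop :=
  ((((D.L1 (Y - (D.d - 1)) (D.d - X) ∨
    D.Lh (X - D.d) (Y - D.d)) ∨
    D.Lh ((D.d + D.h) - Y) (X - (D.d + D.h))) ∨
    D.Lh (X - (D.d + D.h)) (Y - (D.d + D.h))) ∨
    D.Lh (Y - D.d) ((D.d + 2 * D.h) - X)) ∨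
    D.Lh (X - (D.d + 2 * D.h)) (Y - D.d)

/-- A part of a boundary: its word. -/
def wA0 : List Dir :=
  rot 1 (ea 1) ++ (ea D.h) ++ back 3 (ea D.h) ++ (ea D.h) ++ back 1 (ea D.h) ++ (ea D.h)

variable {D} in
theorem A0.lin {X Y : ℤ} (h : D.A0 X Y) :
    X ≤ D.d + 3 * D.h ∧ -X ≤ -D.d ∧ Y ≤ D.d + D.h ∧ -Y ≤ -D.d + 1 ∧ X + Y ≤ 2 * D.d + 3 * D.h ∧ -X - Y ≤ -2 * D.d + 1 ∧ Y - X ≤ 0 ∧ X - Y ≤ 3 * D.h := by
  have := D.aux
  rcases h with ((((h | h) | h) | h) | h) | h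
  · have := h.lin; omega
  · have := h.lin; omega
  · have := h.lin; omega
  · have := h.lin; omega
  · have := h.lin; omega
  · have := h.lin; omega

/-- A part of a boundary: its points. -/
def A4 (X Y : ℤ) : Prop :=
  (((D.PM (X - (-D.h)) (Y - D.d) ∨
    D.Ls (X - 0) (Y - (D.d + D.h))) ∨
    D.Ls (Y - (D.d + D.h)) (0 - X)) ∨
    D.PG (Y - D.d) (D.h - X)) ∨
    D.Lg ((D.h - D.d) - X) (D.d - Y)

/-- A part of a boundary: its word. -/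
def wA4 : List Dir :=
  back 0 D.M ++ back 0 D.F ++ rot 1 D.F ++ back 1 D.G ++ rot 2 (ea (D.h - 1))

variable {D} in
theorem A4.lin {X Y : ℤ} (h : D.A4 X Y) :
    X ≤ D.d + D.h ∧ -X ≤ D.d - 1 ∧ Y ≤ 3 * D.d + 4 * D.h - D.p ∧ -Y ≤ -D.d ∧ X + Y ≤ 3 * D.d + 3 * D.h ∧ -X - Y ≤ -1 ∧ Y - X ≤ 2 * D.d + D.h ∧ X - Y ≤ D.h - 2 * D.d := by
  have := D.aux
  rcases h with (((h | h) | h) | h) | h
  · have := h.lin; omega
  · have := h.lin; omega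
  · have := h.lin; omega
  · have := h.lin; omega
  · have := h.lin; omega

/-- A part of a boundary: its points. -/
def QA (X Y : ℤ) : Prop :=
  (D.A0 X Y ∨
    D.PL (Y - D.d) ((2 * D.d + 3 * D.h) - X)) ∨
    D.A4 X Y

/-- A part of a boundary: its word. -/
def qa : List Dir :=
  D.wA0 ++ rot 1 D.L ++ D.wA4

variable {D} in
theorem QA.lin {X Y : ℤ} (h : D.QA X Y) :
    X ≤ D.d + 4 * D.h ∧ -X ≤ D.d - 1 ∧ Y ≤ 3 * D.d + 2 * D.h ∧ -Y ≤ -D.d + 1 ∧ X + Y ≤ 3 * D.d + 3 * D.h ∧ -X - Y ≤ -1 ∧ Y - X ≤ 2 * D.d + D.h ∧ X - Y ≤ 3 * D.h := by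
  have := D.aux
  rcases h with (h | h) | h
  · have := h.lin; omega
  · have := h.lin; omega
  · have := h.lin; omega

/-- A part of a boundary: its points. -/
def A3 (X Y : ℤ) : Prop :=
  (D.QA X Y ∨
    D.QA (Y - 0) (0 - X)) ∨
    D.QA (0 - X) (0 - Y)

/-- A part of a boundary: its word. -/
def wA3 : List Dir :=
  D.qa ++ rot 1 D.qa ++ rot 2 D.qa

variable {D} in
theorem A3.lin {X Y : ℤ} (h : D.A3 X Y) :
    X ≤ D.d + 4 * D.h - 1 ∧ -X ≤ 2 * D.d + 3 * D.h + 1 ∧ Y ≤ 2 * D.d + 3 * D.h + 1 ∧ -Y ≤ 3 * D.d + 2 * D.h - 1 ∧ X + Y ≤ 3 * D.d + 3 * D.h ∧ -X - Y ≤ 3 * D.d + 3 * D.h ∧ Y - X ≤ 3 * D.d + 3 * D.h ∧ X - Y ≤ D.d + 3 * D.h + 2 := by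
  have := D.aux
  rcases h with (h | h) | h
  · have := h.lin; omega
  · have := h.lin; omega
  · have := h.lin; omega

/-- A part of a boundary: its points. -/
def RR (X Y : ℤ) : Prop :=
  D.Ld (Y - (-D.d)) ((D.d - 1) - X) ∨
    D.Le ((D.d - 1) - X) (0 - Y)

/-- A part of a boundary: its word. -/
def wR : List Dir :=
  rot 1 (ea D.d) ++ rot 2 (ea (D.d - 1))

variable {D} in
theorem RR.lin {X Y : ℤ} (h : D.RR X Y) :
    X ≤ D.d - 1 ∧ -X ≤ 0 ∧ Y ≤ 0 ∧ -Y ≤ D.d ∧ X + Y ≤ D.d - 1 ∧ -X - Y ≤ 1 ∧ Y - X ≤ 0 ∧ X - Y ≤ 2 * D.d - 1 := by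
  have := D.aux
  rcases h with h | h
  · have := h.lin; omega
  · have := h.lin; omega

/-- A part of a boundary: its points. -/
def RA (X Y : ℤ) : Prop :=
  D.RR X Y ∨
    D.RR (Y - 0) (0 - X)

/-- A part of a boundary: its word. -/
def wRA : List Dir :=
  D.wR ++ back 1 D.wR

variable {D} in
theorem RA.lin {X Y : ℤ} (h : D.RA X Y) :
    X ≤ D.d ∧ -X ≤ 0 ∧ Y ≤ D.d - 1 ∧ -Y ≤ D.d ∧ X + Y ≤ 2 * D.d - 1 ∧ -X - Y ≤ 1 ∧ Y - X ≤ D.d - 1 ∧ X - Y ≤ 2 * D.d - 1 := by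
  have := D.aux
  rcases h with h | h
  · have := h.lin; omega
  · have := h.lin; omega

/-- A part of a boundary: its points. -/
def SX (X Y : ℤ) : Prop :=
  (D.Lh (X - (-D.d - D.h)) (Y - 0) ∨
    D.PS X Y) ∨
    D.Ls (X - D.h) (Y - D.h)

/-- A part of a boundary: its word. -/
def wS : List Dir :=
  (ea D.h) ++ D.S ++ back 0 D.F

variable {D} in
theorem SX.lin {X Y : ℤ} (h : D.SX X Y) :
    X ≤ D.h ∧ -X ≤ D.d + D.h ∧ Y ≤ D.d + D.p ∧ -Y ≤ D.d + D.p ∧ X + Y ≤ 2 * D.h ∧ -X - Y ≤ D.d + D.h ∧ Y - X ≤ D.d + D.h ∧ X - Y ≤ 0 := by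
  have := D.aux
  rcases h with (h | h) | h
  · have := h.lin; omega
  · have := h.lin; omega
  · have := h.lin; omega

/-- A part of a boundary: its points. -/
def YY (X Y : ℤ) : Prop :=
  D.Ls (X - D.h) (Y - D.h) ∨
    D.PY X Y

/-- A part of a boundary: its word. -/
def wY : List Dir :=
  D.F ++ D.Y

variable {D} in
theorem YY.lin {X Y : ℤ} (h : D.YY X Y) :
    Y ≤ D.d + 2 * D.h ∧ -Y ≤ -D.h ∧ X + Y ≤ D.d + 4 * D.h ∧ -X - Y ≤ -2 * D.h + 2 ∧ Y - X ≤ D.d ∧ X - Y ≤ 0 := by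
  have := D.aux
  rcases h with h | h
  · have := h.lin; omega
  · have := h.lin; omega

/-- A part of a boundary: its points. -/
def B0 (X Y : ℤ) : Prop :=
  ((D.PA (X - 0) (Y - (D.d + 2 * D.h)) ∨
    D.Lh (X - (-D.d - D.h)) (Y - (D.d + 2 * D.h))) ∨
    D.SX (Y - (2 * D.d + 3 * D.h)) ((-D.d - D.h) - X)) ∨
    D.Ls (X - (-D.d - 2 * D.h)) (Y - (2 * D.d + 4 * D.h))

/-- A part of a boundary: its word. -/
def wB0 : List Dir :=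
  back 0 D.A ++ back 0 (ea D.h) ++ rot 1 D.wS ++ D.F

variable {D} in
theorem B0.lin {X Y : ℤ} (h : D.B0 X Y) :
    X ≤ 0 ∧ -X ≤ 2 * D.d + D.h + D.p ∧ Y ≤ 2 * D.d + 5 * D.h - D.p - 1 ∧ -Y ≤ D.p - 2 * D.h ∧ X + Y ≤ D.d + 2 * D.h ∧ -X - Y ≤ -D.h ∧ Y - X ≤ 3 * D.d + 8 * D.h - 2 * D.p - 1 ∧ X - Y ≤ -D.d - 2 * D.h := by
  have := D.aux
  rcases h with ((h | h) | h) | h
  · have := h.lin; omega
  · have := h.lin; omega
  · have := h.lin; omega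
  · have := h.lin; omega

/-- A part of a boundary: its points. -/
def B2 (X Y : ℤ) : Prop :=
  ((((((D.Lh (X - (-2 * D.d - 4 * D.h)) (Y - (2 * D.d + 3 * D.h)) ∨
    D.Lh ((2 * D.d + 3 * D.h) - Y) (X - (-2 * D.d - 4 * D.h))) ∨
    D.PG (X - (-2 * D.d - 4 * D.h)) (Y - (D.d + 2 * D.h))) ∨
    D.Ls (X - (-2 * D.d - 3 * D.h)) (Y - (D.d + 3 * D.h))) ∨
    D.YY ((D.d + 4 * D.h) - Y) (X - (-2 * D.d - 4 * D.h))) ∨
    D.YY (X - (-D.d - 4 * D.h)) (Y - 0)) ∨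
    D.Ls (Y - D.h) ((-D.d - 3 * D.h) - X)) ∨
    D.PH (Y - 0) ((-D.d - 2 * D.h) - X)

/-- A part of a boundary: its word. -/
def wB2 : List Dir :=
  back 0 (ea D.h) ++ rot 3 (ea D.h) ++ D.G ++ back 0 D.F ++ rot 3 D.wY ++ back 0 D.wY ++ rot 1 D.F ++ back 1 D.H

variable {D} in
theorem B2.lin {X Y : ℤ} (h : D.B2 X Y) :
    X ≤ -2 * D.h ∧ -X ≤ 2 * D.d + 4 * D.h ∧ Y ≤ 2 * D.d + 3 * D.h ∧ X + Y ≤ 0 ∧ -X - Y ≤ 2 * D.d + 2 * D.h ∧ Y - X ≤ 4 * D.d + 7 * D.h ∧ X - Y ≤ -D.d - 2 * D.h := by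
  have := D.aux
  rcases h with ((((((h | h) | h) | h) | h) | h) | h) | h
  · have := h.lin; omega
  · have := h.lin; omega
  · have := h.lin; omega
  · have := h.lin; omega
  · have := h.lin; omega
  · have := h.lin; omega
  · have := h.lin; omega
  · have := h.lin; omega

/-- A part of a boundary: its points. -/
def QB (X Y : ℤ) : Prop :=
  (D.B0 X Y ∨
    D.PS (X - (-D.d - 3 * D.h)) (Y - (2 * D.d + 3 * D.h))) ∨
    D.B2 X Y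

/-- A part of a boundary: its word. -/
def qb : List Dir :=
  D.wB0 ++ back 0 D.S ++ D.wB2

variable {D} in
theorem QB.lin {X Y : ℤ} (h : D.QB X Y) :
    X ≤ 0 ∧ -X ≤ 2 * D.d + 4 * D.h ∧ Y ≤ 3 * D.d + 3 * D.h + D.p ∧ -Y ≤ D.d + D.p - D.h ∧ X + Y ≤ D.d + 2 * D.h ∧ -X - Y ≤ 2 * D.d + 2 * D.h ∧ Y - X ≤ 4 * D.d + 7 * D.h ∧ X - Y ≤ -D.d - 2 * D.h := by
  have := D.aux
  rcases h with (h | h) | h
  · have := h.lin; omega
  · have := h.lin; omega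
  · have := h.lin; omega

/-- A part of a boundary: its points. -/
def B3 (X Y : ℤ) : Prop :=
  (D.QB (X - (3 * D.d + 6 * D.h)) (Y - (3 * D.d + 3 * D.h)) ∨
    D.QB (Y - (3 * D.d + 3 * D.h)) ((3 * D.d + 6 * D.h) - X)) ∨
    D.QB ((3 * D.d + 6 * D.h) - X) ((3 * D.d + 3 * D.h) - Y)

/-- A part of a boundary: its word. -/
def wB3 : List Dir :=
  D.qb ++ rot 1 D.qb ++ rot 2 D.qb

variable {D} in
theorem B3.lin {X Y : ℤ} (h : D.B3 X Y) :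
    X ≤ 5 * D.d + 10 * D.h ∧ -X ≤ D.p - 3 * D.h ∧ Y ≤ 6 * D.d + 6 * D.h + D.p ∧ -Y ≤ D.p ∧ X + Y ≤ 8 * D.d + 11 * D.h ∧ -X - Y ≤ -2 * D.d - 2 * D.h ∧ Y - X ≤ 4 * D.d + 4 * D.h ∧ X - Y ≤ 4 * D.d + 10 * D.h := by
  have := D.aux
  rcases h with (h | h) | h
  · have := h.lin; omega
  · have := h.lin; omega
  · have := h.lin; omega

/-- A part of a boundary: its points. -/
def RB (X Y : ℤ) : Prop :=
  D.Lb ((4 * D.d + 8 * D.h) - X) ((3 * D.d + 3 * D.h) - Y) ∨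
    D.Lb ((4 * D.d + 5 * D.h) - Y) (X - (3 * D.d + 6 * D.h))

/-- A part of a boundary: its word. -/
def wRB : List Dir :=
  rot 2 (ea D.b) ++ back 3 (ea D.b)

variable {D} in
theorem RB.lin {X Y : ℤ} (h : D.RB X Y) :
    X ≤ 4 * D.d + 8 * D.h ∧ -X ≤ -3 * D.d - 6 * D.h ∧ Y ≤ 4 * D.d + 5 * D.h ∧ -Y ≤ -3 * D.d - 3 * D.h ∧ X + Y ≤ 7 * D.d + 11 * D.h ∧ -X - Y ≤ -6 * D.d - 9 * D.h ∧ Y - X ≤ D.d - D.h ∧ X - Y ≤ D.d + 5 * D.h := by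
  have := D.aux
  rcases h with h | h
  · have := h.lin; omega
  · have := h.lin; omega

/-- A part of a boundary: its points. -/
def A2 (X Y : ℤ) : Prop :=
  (((D.PN (Y - (2 * D.d)) ((D.d + 3 * D.h) - X) ∨
    D.A4 X Y) ∨
    D.QA (Y - 0) (0 - X)) ∨
    D.QA (0 - X) (0 - Y)) ∨
    D.RA X Y

/-- A part of a boundary: its word. -/
def wA2 : List Dir :=
  rot 1 D.N ++ D.wA4 ++ rot 1 D.qa ++ rot 2 D.qa ++ D.wRA

variable {D} in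
theorem A2.lin {X Y : ℤ} (h : D.A2 X Y) :
    X ≤ D.d + 2 * D.h ∧ -X ≤ 2 * D.d + 3 * D.h + 1 ∧ Y ≤ 2 * D.d + 3 * D.h + 1 ∧ -Y ≤ 3 * D.d + 2 * D.h - 1 ∧ X + Y ≤ 3 * D.d + 3 * D.h ∧ -X - Y ≤ 3 * D.d + 3 * D.h ∧ Y - X ≤ 3 * D.d + 3 * D.h ∧ X - Y ≤ 2 * D.d + D.h := by
  have := D.aux
  rcases h with (((h | h) | h) | h) | h
  · have := h.lin; omega
  · have := h.lin; omega
  · have := h.lin; omega
  · have := h.lin; omega
  · have := h.lin; omega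

/-- A part of a boundary: its points. -/
def C1 (X Y : ℤ) : Prop :=
  D.QB (X - (3 * D.d + 6 * D.h)) (Y - (3 * D.d + 3 * D.h)) ∨
    D.B0 (Y - (3 * D.d + 3 * D.h)) ((3 * D.d + 6 * D.h) - X)

/-- A part of a boundary: its word. -/
def wC1 : List Dir :=
  D.qb ++ rot 1 D.wB0

variable {D} in
theorem C1.lin {X Y : ℤ} (h : D.C1 X Y) :
    X ≤ 3 * D.d + 6 * D.h ∧ -X ≤ -D.d - D.h - D.p - 1 ∧ Y ≤ 6 * D.d + 6 * D.h + D.p ∧ -Y ≤ D.p - D.d - 2 * D.h ∧ X + Y ≤ 7 * D.d + 11 * D.h ∧ -X - Y ≤ -3 * D.d - D.h - 2 * D.p - 1 ∧ Y - X ≤ 4 * D.d + 4 * D.h ∧ X - Y ≤ 2 * D.h := by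
  have := D.aux
  rcases h with h | h
  · have := h.lin; omega
  · have := h.lin; omega

/-- A part of a boundary: its points. -/
def C2 (X Y : ℤ) : Prop :=
  (D.B2 (Y - (3 * D.d + 3 * D.h)) ((3 * D.d + 6 * D.h) - X) ∨
    D.QB ((3 * D.d + 6 * D.h) - X) ((3 * D.d + 3 * D.h) - Y)) ∨
    D.RB X Y

/-- A part of a boundary: its word. -/
def wC2 : List Dir :=
  rot 1 D.wB2 ++ rot 2 D.qb ++ D.wRB

variable {D} in
theorem C2.lin {X Y : ℤ} (h : D.C2 X Y) :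
    X ≤ 5 * D.d + 10 * D.h ∧ -X ≤ -D.d - 3 * D.h ∧ Y ≤ 4 * D.d + 5 * D.h ∧ -Y ≤ D.p ∧ X + Y ≤ 8 * D.d + 11 * D.h ∧ -X - Y ≤ -2 * D.d - 2 * D.h ∧ Y - X ≤ D.d - D.h ∧ X - Y ≤ 4 * D.d + 10 * D.h := by
  have := D.aux
  rcases h with (h | h) | h
  · have := h.lin; omega
  · have := h.lin; omega
  · have := h.lin; omega

/-- A part of a boundary: its points. -/
def AL (X Y : ℤ) : Prop :=
  D.A2 X Y ∨
    D.A0 X Y

/-- A part of a boundary: its word. -/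
def α : List Dir :=
  D.wA2 ++ D.wA0

variable {D} in
theorem AL.lin {X Y : ℤ} (h : D.AL X Y) :
    X ≤ D.d + 3 * D.h ∧ -X ≤ 2 * D.d + 3 * D.h + 1 ∧ Y ≤ 2 * D.d + 3 * D.h + 1 ∧ -Y ≤ 3 * D.d + 2 * D.h - 1 ∧ X + Y ≤ 3 * D.d + 3 * D.h ∧ -X - Y ≤ 3 * D.d + 3 * D.h ∧ Y - X ≤ 3 * D.d + 3 * D.h ∧ X - Y ≤ 6 * D.h + 1 := by
  have := D.aux
  rcases h with h | h
  · have := h.lin; omega
  · have := h.lin; omega

/-- A part of a boundary: its points. -/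
def BE (X Y : ℤ) : Prop :=
  D.C2 X Y ∨
    D.C1 X Y

/-- A part of a boundary: its word. -/
def β : List Dir :=
  D.wC2 ++ D.wC1

variable {D} in
theorem BE.lin {X Y : ℤ} (h : D.BE X Y) :
    X ≤ 5 * D.d + 10 * D.h ∧ -X ≤ -D.d - D.h - D.p - 1 ∧ Y ≤ 6 * D.d + 6 * D.h + D.p ∧ -Y ≤ D.p ∧ X + Y ≤ 8 * D.d + 11 * D.h ∧ -X - Y ≤ -2 * D.d - 2 * D.h ∧ Y - X ≤ 4 * D.d + 4 * D.h ∧ X - Y ≤ 4 * D.d + 10 * D.h := by
  have := D.aux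
  rcases h with h | h
  · have := h.lin; omega
  · have := h.lin; omega

/-- A part of a boundary: its points. -/
def EA (X Y : ℤ) : Prop :=
  D.A3 X Y ∨
    D.RA X Y

variable {D} in
theorem EA.lin {X Y : ℤ} (h : D.EA X Y) :
    X ≤ D.d + 4 * D.h - 1 ∧ -X ≤ 2 * D.d + 3 * D.h + 1 ∧ Y ≤ 2 * D.d + 3 * D.h + 1 ∧ -Y ≤ 3 * D.d + 2 * D.h - 1 ∧ X + Y ≤ 3 * D.d + 3 * D.h ∧ -X - Y ≤ 3 * D.d + 3 * D.h ∧ Y - X ≤ 3 * D.d + 3 * D.h ∧ X - Y ≤ D.d + 3 * D.h + 2 := by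
  have := D.aux
  rcases h with h | h
  · have := h.lin; omega
  · have := h.lin; omega

/-- A part of a boundary: its points. -/
def EB (X Y : ℤ) : Prop :=
  D.B3 X Y ∨
    D.RB X Y

variable {D} in
theorem EB.lin {X Y : ℤ} (h : D.EB X Y) :
    X ≤ 5 * D.d + 10 * D.h ∧ -X ≤ D.p - 3 * D.h ∧ Y ≤ 6 * D.d + 6 * D.h + D.p ∧ -Y ≤ D.p ∧ X + Y ≤ 8 * D.d + 11 * D.h ∧ -X - Y ≤ -2 * D.d - 2 * D.h ∧ Y - X ≤ 4 * D.d + 4 * D.h ∧ X - Y ≤ 4 * D.d + 10 * D.h := by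
  have := D.aux
  rcases h with h | h
  · have := h.lin; omega
  · have := h.lin; omega

/-- A part of a boundary: its points. -/
def EC (X Y : ℤ) : Prop :=
  D.AL X Y ∨
    D.BE X Y

variable {D} in
theorem EC.lin {X Y : ℤ} (h : D.EC X Y) :
    X ≤ 5 * D.d + 10 * D.h ∧ -X ≤ 2 * D.d + 3 * D.h + 1 ∧ Y ≤ 6 * D.d + 6 * D.h + D.p ∧ -Y ≤ 3 * D.d + 2 * D.h - 1 ∧ X + Y ≤ 8 * D.d + 11 * D.h ∧ -X - Y ≤ 3 * D.d + 3 * D.h ∧ Y - X ≤ 4 * D.d + 4 * D.h ∧ X - Y ≤ 4 * D.d + 10 * D.h := by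
  have := D.aux
  rcases h with h | h
  · have := h.lin; omega
  · have := h.lin; omega

/-- The marked points. -/
def KA : List Pt :=
  [(0, 0), (D.d + D.h, D.d + D.h), (-D.d - D.h, D.d + D.h), (-D.d - D.h, -D.d - D.h), (D.d + D.h, 2 * D.d + 2 * D.h), (-2 * D.d - 2 * D.h, D.d + D.h), (-D.d - D.h, -2 * D.d - 2 * D.h), (0, D.d + D.h), (-D.d - D.h, 0), (0, -D.d - D.h)]

/-- The marked points. -/
def KB : List Pt :=
  [(4 * D.d + 8 * D.h, 3 * D.d + 3 * D.h), (3 * D.d + 6 * D.h, 3 * D.d + 3 * D.h), (3 * D.d + 6 * D.h, 4 * D.d + 5 * D.h), (2 * D.d + 4 * D.h, 3 * D.d + 3 * D.h), (3 * D.d + 6 * D.h, 2 * D.d + D.h), (2 * D.d + 4 * D.h, 5 * D.d + 7 * D.h), (D.d + 2 * D.h, 2 * D.d + D.h), (4 * D.d + 8 * D.h, D.d - D.h), (2 * D.d + 4 * D.h, 4 * D.d + 5 * D.h), (2 * D.d + 4 * D.h, 2 * D.d + D.h), (4 * D.d + 8 * D.h, 2 * D.d + D.h), (2 * D.d + 4 *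 D.h, 4 * D.d + 5 * D.h), (2 * D.d + 4 * D.h, 2 * D.d + D.h), (4 * D.d + 8 * D.h, 2 * D.d + D.h)]

/-- The marked points. -/
def KC : List Pt :=
  [(-D.d - D.h, D.d + 2 * D.h), (-D.d - 2 * D.h, -D.d - D.h), (0, 0), (D.d + 2 * D.h, D.d + D.h), (4 * D.d + 7 * D.h, 2 * D.d + D.h), (3 * D.d + 6 * D.h, 3 * D.d + 3 * D.h), (2 * D.d + 5 * D.h, 4 * D.d + 5 * D.h), (2 * D.d + 4 * D.h, 2 * D.d + 2 * D.h)]

end DJ

end NP
end Pool.Agent.Lib.MP_4a7072_co
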