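import Pool.Agent.Lib.MP_4a7072_co.FJDefs

/-!
The boundaries of the design for `4 a < 3 b < 5 a` are simple closed paths.
-/

set_option autoImplicit false
set_option linter.unnecessarySeqFocus false
set_option linter.unusedSimpArgs false
set_option linter.unusedVariables false
set_option linter.unreachableTactic false
set_option linter.unusedTactic false

namespace Pool.Agent.Lib.MP_4a7072_co
namespace NP


namespace DJ

variable (D : DJ)

theorem arcA0 : CArc (D.d, D.d - 1) D.wA0 (D.d + 3 * D.h, D.d) D.A0 := by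
  have := D.aux
  have h0 := D.arcL1.p1 (P' := (D.d, D.d - 1)) (Q' := (D.d, D.d)) D.d (D.d - 1) (by dsimp only; omega)
  have h1 := D.arcLh.p0 (P' := (D.d, D.d)) (Q' := (D.d + D.h, D.d)) D.d D.d (by dsimp only; omega)
  have h2 := D.arcLh.b3 (Q' := (D.d + D.h, D.d)) (P' := (D.d + D.h, D.d + D.h)) (D.d + D.h) (D.d + D.h) (by dsimp only; omega)
  have h3 := D.arcLh.p0 (P' := (D.d + D.h, D.d + D.h)) (Q' := (D.d + 2 * D.h, D.d + D.h)) (D.d + D.h) (D.d + D.h) (by dsimp only; omega)
  have h4 := D.arcLh.b1 (Q' := (D.d + 2 * D.h, D.d + D.h)) (P' := (D.d + 2 * D.h, D.d)) (D.d + 2 * D.h) D.d (by dsimp only; omega)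
  have h5 := D.arcLh.p0 (P' := (D.d + 2 * D.h, D.d)) (Q' := (D.d + 3 * D.h, D.d)) (D.d + 2 * D.h) D.d (by dsimp only; omega)
  refine ((((h0.append h1 ?_).append h2 ?_).append h3 ?_).append h4 ?_).append h5 ?_
  · intro X Y a b
    show X = D.d ∧ Y = D.d
    have := a.lin; have := b.lin; omega
  · intro X Y a b
    show X = D.d + D.h ∧ Y = D.d
    rcases a with a | a
    · have := a.lin; have := b.lin; omega
    · have := a.lin; have := b.lin; omega
  · intro X Y a b
    show X = D.d + D.h ∧ Y = D.d + D.h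
    rcases a with (a | a) | a
    · have := a.lin; have := b.lin; omega
    · have := a.lin; have := b.lin; omega
    · have := a.lin; have := b.lin; omega
  · intro X Y a b
    show X = D.d + 2 * D.h ∧ Y = D.d + D.h
    rcases a with ((a | a) | a) | a
    · have := a.lin; have := b.lin; omega
    · have := a.lin; have := b.lin; omega
    · have := a.lin; have := b.lin; omega
    · have := a.lin; have := b.lin; omega
  · intro X Y a b
    show X = D.d + 2 * D.h ∧ Y = D.d
    rcases a with (((a | a) | a) | a) | a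
    · have := a.lin; have := b.lin; omega
    · have := a.lin; have := b.lin; omega
    · have := a.lin; have := b.lin; omega
    · have := a.lin; have := b.lin; omega
    · have := a.lin; have := b.lin; omega

theorem arcA4 : CArc (D.d + D.h, 2 * D.d + 2 * D.h) D.wA4 (-D.d + 1, D.d) D.A4 := by
  have := D.aux
  have h0 := D.arcM.b0 (Q' := (D.d + D.h, 2 * D.d + 2 * D.h)) (P' := (D.p - D.h, D.d + 2 * D.h - D.p - 1)) (-D.h) D.d (by dsimp only; omega)
  have h1 := D.arcLs.b0 (Q' := (D.p - D.h, D.d + 2 * D.h - D.p - 1)) (P' := (0, D.d + D.h)) 0 (D.d + D.h) (by dsimp only; omega)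
  have h2 := D.arcLs.p1 (P' := (0, D.d + D.h)) (Q' := (D.p - D.h + 1, D.d + D.p)) 0 (D.d + D.h) (by dsimp only; omega)
  have h3 := D.arcG.b1 (Q' := (D.p - D.h + 1, D.d + D.p)) (P' := (D.h - D.d, D.d)) D.h D.d (by dsimp only; omega)
  have h4 := D.arcLg.p2 (P' := (D.h - D.d, D.d)) (Q' := (-D.d + 1, D.d)) (D.h - D.d) D.d (by dsimp only; omega)
  refine (((h0.append h1 ?_).append h2 ?_).append h3 ?_).append h4 ?_
  · intro X Y a b
    show X = D.p - D.h ∧ Y = D.d + 2 * D.h - D.p - 1
    have := a.lin; have := b.lin; omega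
  · intro X Y a b
    show X = 0 ∧ Y = D.d + D.h
    rcases a with a | a
    · have := a.lin; have := b.lin; omega
    · have := a.lin; have := b.lin; omega
  · intro X Y a b
    show X = D.p - D.h + 1 ∧ Y = D.d + D.p
    rcases a with (a | a) | a
    · have := a.lin; have := b.lin; omega
    · have := a.lin; have := b.lin; omega
    · have := a.lin; have := b.lin; omega
  · intro X Y a b
    show X = D.h - D.d ∧ Y = D.d
    rcases a with ((a | a) | a) | a
    · have := a.lin; have := b.lin; omega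
    · have := a.lin; have := b.lin; omega
    · have := a.lin; have := b.lin; omega
    · have := a.lin; have := b.lin; omega

theorem arcQA : CArc (D.d, D.d - 1) D.qa (-D.d + 1, D.d) D.QA := by
  have := D.aux
  have h0 := D.arcA0
  have h1 := D.arcL.p1 (P' := (D.d + 3 * D.h, D.d)) (Q' := (D.d + D.h, 2 * D.d + 2 * D.h)) (2 * D.d + 3 * D.h) D.d (by dsimp only; omega)
  have h2 := D.arcA4
  refine (h0.append h1 ?_).append h2 ?_
  · intro X Y a b
    show X = D.d + 3 * D.h ∧ Y = D.d
    rcases a with ((((a | a) | a) | a) | a) | a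
    · have := a.lin; have := b.lin; omega
    · have := a.lin; have := b.lin; omega
    · have := a.lin; have := b.lin; omega
    · have := a.lin; have := b.lin; omega
    · have := a.lin; have := b.lin; omega
    · have := a.lin; have := b.lin; omega
  · intro X Y a b
    show X = D.d + D.h ∧ Y = 2 * D.d + 2 * D.h
    rcases a with a | a
    · have := a.lin; have := b.lin; omega
    · rcases b with (((b | b) | b) | b) | b
      · have := D.sB b.on a.on (by have := D.ord; omega) (by omega); omega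
      · have := a.lin; have := b.lin; omega
      · have := a.lin; have := b.lin; omega
      · have := a.lin; have := b.lin; omega
      · have := a.lin; have := b.lin; omega

variable {D} in
theorem qqa {X1 Y1 X2 Y2 : ℤ} (a : D.QA X1 Y1) (b : D.QA X2 Y2)
    (e : X2 = Y1 ∧ Y2 = -X1) :
    X1 = -D.d + 1 ∧ Y1 = D.d := by
  have := D.aux
  rcases a with (a | a) | a
  · have := a.lin; have := b.lin; omega
  · have := a.lin; have := b.lin; omega
  · rcases b with (b | b) | b
    · rcases b with ((((b | b) | b) | b) | b) | b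
      · have := a.lin; have := b.lin; omega
      · have := a.lin; have := b.lin; omega
      · have := a.lin; have := b.lin; omega
      · have := a.lin; have := b.lin; omega
      · have := a.lin; have := b.lin; omega
      · have := a.lin; have := b.lin; omega
    · have := a.lin; have := b.lin; omega
    · have := a.lin; have := b.lin; omega

theorem arcA3 : CArc (D.d, D.d - 1) D.wA3 (D.d - 1, -D.d) D.A3 := by
  have := D.aux
  have h0 := D.arcQA
  have h1 := D.arcQA.p1 (P' := (-D.d + 1, D.d)) (Q' := (-D.d, -D.d + 1)) 0 0 (by dsimp only; omega)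
  have h2 := D.arcQA.p2 (P' := (-D.d, -D.d + 1)) (Q' := (D.d - 1, -D.d)) 0 0 (by dsimp only; omega)
  refine (h0.append h1 ?_).append h2 ?_
  · intro X Y a b
    show X = -D.d + 1 ∧ Y = D.d
    have := qqa a b (by omega); omega
  · intro X Y a b
    show X = -D.d ∧ Y = -D.d + 1
    rcases a with a | a
    · have := a.lin; have := b.lin; omega
    · have := qqa a b (by omega); omega

theorem arcRR : CArc (D.d - 1, -D.d) D.wR (0, 0) D.RR := by
  have := D.aux
  have h0 := D.arcLd.p1 (P' := (D.d - 1, -D.d)) (Q' := (D.d - 1, 0)) (D.d - 1) (-D.d) (by dsimp only; omega)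
  have h1 := D.arcLe.p2 (P' := (D.d - 1, 0)) (Q' := (0, 0)) (D.d - 1) 0 (by dsimp only; omega)
  refine h0.append h1 ?_
  · intro X Y a b
    show X = D.d - 1 ∧ Y = 0
    have := a.lin; have := b.lin; omega

theorem arcRA : CArc (D.d - 1, -D.d) D.wRA (D.d, D.d - 1) D.RA := by
  have := D.aux
  have h0 := D.arcRR
  have h1 := D.arcRR.b1 (Q' := (0, 0)) (P' := (D.d, D.d - 1)) 0 0 (by dsimp only; omega)
  refine h0.append h1 ?_
  · intro X Y a b
    show X = 0 ∧ Y = 0
    rcases b with b | b
    · have := a.lin; have := b.lin; omega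
    · have := a.lin; have := b.lin; omega

theorem arcSX : CArc (-D.d - D.h, 0) D.wS (D.h, D.h) D.SX := by
  have := D.aux
  have h0 := D.arcLh.p0 (P' := (-D.d - D.h, 0)) (Q' := (-D.d, 0)) (-D.d - D.h) 0 (by dsimp only; omega)
  have h1 := D.arcS
  have h2 := D.arcLs.b0 (Q' := (D.p, 2 * D.h - D.p - 1)) (P' := (D.h, D.h)) D.h D.h (by dsimp only; omega)
  refine (h0.append h1 ?_).append h2 ?_
  · intro X Y a b
    show X = -D.d ∧ Y = 0
    have := a.lin; have := b.lin; omega
  · intro X Y a b
    show X = D.p ∧ Y = 2 * D.h - D.p - 1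
    rcases a with a | a
    · have := a.lin; have := b.lin; omega
    · have := a.lin; have := b.lin; omega

theorem arcYY : CArc (D.h, D.h) D.wY (2 * D.h, D.d + 2 * D.h) D.YY := by
  have := D.aux
  have h0 := D.arcLs.p0 (P' := (D.h, D.h)) (Q' := (D.p, 2 * D.h - D.p - 1)) D.h D.h (by dsimp only; omega)
  have h1 := D.arcY
  refine h0.append h1 ?_
  · intro X Y a b
    show X = D.p ∧ Y = 2 * D.h - D.p - 1
    have := a.lin; have := b.lin; omega

theorem arcB0 : CArc (0, D.d + 2 * D.h) D.wB0 (D.p - D.d - 3 * D.h, 2 * D.d + 5 * D.h - D.p - 1) D.B0 := by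
  have := D.aux
  have h0 := D.arcA.b0 (Q' := (0, D.d + 2 * D.h)) (P' := (-D.d, D.d + 2 * D.h)) 0 (D.d + 2 * D.h) (by dsimp only; omega)
  have h1 := D.arcLh.b0 (Q' := (-D.d, D.d + 2 * D.h)) (P' := (-D.d - D.h, D.d + 2 * D.h)) (-D.d - D.h) (D.d + 2 * D.h) (by dsimp only; omega)
  have h2 := D.arcSX.p1 (P' := (-D.d - D.h, D.d + 2 * D.h)) (Q' := (-D.d - 2 * D.h, 2 * D.d + 4 * D.h)) (-D.d - D.h) (2 * D.d + 3 * D.h) (by dsimp only; omega)
  have h3 := D.arcLs.p0 (P' := (-D.d - 2 * D.h, 2 * D.d + 4 * D.h)) (Q' := (D.p - D.d - 3 * D.h, 2 * D.d + 5 * D.h - D.p - 1)) (-D.d - 2 * D.h) (2 * D.d + 4 * D.h) (by dsimp only; omega)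
  refine ((h0.append h1 ?_).append h2 ?_).append h3 ?_
  · intro X Y a b
    show X = -D.d ∧ Y = D.d + 2 * D.h
    have := a.lin; have := b.lin; omega
  · intro X Y a b
    show X = -D.d - D.h ∧ Y = D.d + 2 * D.h
    rcases a with a | a
    · have := a.lin; have := b.lin; omega
    · have := a.lin; have := b.lin; omega
  · intro X Y a b
    show X = -D.d - 2 * D.h ∧ Y = 2 * D.d + 4 * D.h
    rcases a with (a | a) | a
    · have := a.lin; have := b.lin; omega
    · have := a.lin; have := b.lin; omega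
    · have := a.lin; have := b.lin; omega

theorem arcB2 : CArc (-2 * D.d - 3 * D.h, 2 * D.d + 3 * D.h) D.wB2 (-D.d - 2 * D.h, 0) D.B2 := by
  have := D.aux
  have h0 := D.arcLh.b0 (Q' := (-2 * D.d - 3 * D.h, 2 * D.d + 3 * D.h)) (P' := (-2 * D.d - 4 * D.h, 2 * D.d + 3 * D.h)) (-2 * D.d - 4 * D.h) (2 * D.d + 3 * D.h) (by dsimp only; omega)
  have h1 := D.arcLh.p3 (P' := (-2 * D.d - 4 * D.h, 2 * D.d + 3 * D.h)) (Q' := (-2 * D.d - 4 * D.h, 2 * D.d + 2 * D.h)) (-2 * D.d - 4 * D.h) (2 * D.d + 3 * D.h) (by dsimp only; omega)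
  have h2 := D.arcG.p0 (P' := (-2 * D.d - 4 * D.h, 2 * D.d + 2 * D.h)) (Q' := (D.p - 2 * D.d - 4 * D.h, D.d + 4 * D.h - D.p - 1)) (-2 * D.d - 4 * D.h) (D.d + 2 * D.h) (by dsimp only; omega)
  have h3 := D.arcLs.b0 (Q' := (D.p - 2 * D.d - 4 * D.h, D.d + 4 * D.h - D.p - 1)) (P' := (-2 * D.d - 3 * D.h, D.d + 3 * D.h)) (-2 * D.d - 3 * D.h) (D.d + 3 * D.h) (by dsimp only; omega)
  have h4 := D.arcYY.p3 (P' := (-2 * D.d - 3 * D.h, D.d + 3 * D.h)) (Q' := (-D.d - 2 * D.h, D.d + 2 * D.h)) (-2 * D.d - 4 * D.h) (D.d + 4 * D.h) (by dsimp only; omega)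
  have h5 := D.arcYY.b0 (Q' := (-D.d - 2 * D.h, D.d + 2 * D.h)) (P' := (-D.d - 3 * D.h, D.h)) (-D.d - 4 * D.h) 0 (by dsimp only; omega)
  have h6 := D.arcLs.p1 (P' := (-D.d - 3 * D.h, D.h)) (Q' := (D.p - D.d - 4 * D.h + 1, D.p)) (-D.d - 3 * D.h) D.h (by dsimp only; omega)
  have h7 := D.arcH.b1 (Q' := (D.p - D.d - 4 * D.h + 1, D.p)) (P' := (-D.d - 2 * D.h, 0)) (-D.d - 2 * D.h) 0 (by dsimp only; omega)
  refine ((((((h0.append h1 ?_).append h2 ?_).append h3 ?_).append h4 ?_).append h5 ?_).append h6 ?_).append h7 ?_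
  · intro X Y a b
    show X = -2 * D.d - 4 * D.h ∧ Y = 2 * D.d + 3 * D.h
    have := a.lin; have := b.lin; omega
  · intro X Y a b
    show X = -2 * D.d - 4 * D.h ∧ Y = 2 * D.d + 2 * D.h
    rcases a with a | a
    · have := a.lin; have := b.lin; omega
    · have := a.lin; have := b.lin; omega
  · intro X Y a b
    show X = D.p - 2 * D.d - 4 * D.h ∧ Y = D.d + 4 * D.h - D.p - 1
    rcases a with (a | a) | a
    · have := a.lin; have := b.lin; omega
    · have := a.lin; have := b.lin; omega
    · have := a.lin; have := b.lin; omega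
  · intro X Y a b
    show X = -2 * D.d - 3 * D.h ∧ Y = D.d + 3 * D.h
    rcases a with ((a | a) | a) | a
    · rcases b with b | b
      · have := a.lin; have := b.lin; omega
      · have := a.lin; have := b.lin; omega
    · have := a.lin; have := b.lin; omega
    · have := a.lin; have := b.lin; omega
    · have := a.lin; have := b.lin; omega
  · intro X Y a b
    show X = -D.d - 2 * D.h ∧ Y = D.d + 2 * D.h
    rcases a with (((a | a) | a) | a) | a
    · have := a.lin; have := b.lin; omega
    · have := a.lin; have := b.lin; omega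
    · have := a.lin; have := b.lin; omega
    · have := a.lin; have := b.lin; omega
    · rcases a with a | a
      · have := a.lin; have := b.lin; omega
      · rcases b with b | b
        · have := a.lin; have := b.lin; omega
        · have := D.sBQ a b (by omega); omega
  · intro X Y a b
    show X = -D.d - 3 * D.h ∧ Y = D.h
    rcases a with ((((a | a) | a) | a) | a) | a
    · have := a.lin; have := b.lin; omega
    · have := a.lin; have := b.lin; omega
    · have := a.lin; have := b.lin; omega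
    · have := a.lin; have := b.lin; omega
    · have := a.lin; have := b.lin; omega
    · have := a.lin; have := b.lin; omega
  · intro X Y a b
    show X = D.p - D.d - 4 * D.h + 1 ∧ Y = D.p
    rcases a with (((((a | a) | a) | a) | a) | a) | a
    · have := a.lin; have := b.lin; omega
    · have := a.lin; have := b.lin; omega
    · have := a.lin; have := b.lin; omega
    · have := a.lin; have := b.lin; omega
    · have := a.lin; have := b.lin; omega
    · have := a.lin; have := b.lin; omega
    · have := a.lin; have := b.lin; omega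

theorem arcQB : CArc (0, D.d + 2 * D.h) D.qb (-D.d - 2 * D.h, 0) D.QB := by
  have := D.aux
  have h0 := D.arcB0
  have h1 := D.arcS.b0 (Q' := (D.p - D.d - 3 * D.h, 2 * D.d + 5 * D.h - D.p - 1)) (P' := (-2 * D.d - 3 * D.h, 2 * D.d + 3 * D.h)) (-D.d - 3 * D.h) (2 * D.d + 3 * D.h) (by dsimp only; omega)
  have h2 := D.arcB2
  refine (h0.append h1 ?_).append h2 ?_
  · intro X Y a b
    show X = D.p - D.d - 3 * D.h ∧ Y = 2 * D.d + 5 * D.h - D.p - 1
    rcases a with ((a | a) | a) | a
    · have := a.lin; have := b.lin; omega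
    · have := a.lin; have := b.lin; omega
    · rcases a with (a | a) | a
      · have := a.lin; have := b.lin; omega
      · have := a.lin; have := b.lin; omega
      · have := a.lin; have := b.lin; omega
    · have := a.lin; have := b.lin; omega
  · intro X Y a b
    show X = -2 * D.d - 3 * D.h ∧ Y = 2 * D.d + 3 * D.h
    rcases a with a | a
    · have := a.lin; have := b.lin; omega
    · rcases b with ((((((b | b) | b) | b) | b) | b) | b) | b
      · have := a.lin; have := b.lin; omega
      · have := a.lin; have := b.lin; omega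
      · have := a.lin; have := b.lin; omega
      · have := a.lin; have := b.lin; omega
      · rcases b with b | b
        · have := a.lin; have := b.lin; omega
        · have := a.lin; have := b.lin; omega
      · have := a.lin; have := b.lin; omega
      · have := a.lin; have := b.lin; omega
      · have := a.lin; have := b.lin; omega

variable {D} in
theorem qqb {X1 Y1 X2 Y2 : ℤ} (a : D.QB X1 Y1) (b : D.QB X2 Y2)
    (e : X2 = Y1 ∧ Y2 = -X1) :
    X1 = -D.d - 2 * D.h ∧ Y1 = 0 := by
  have := D.aux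
  rcases a with (a | a) | a
  · have := a.lin; have := b.lin; omega
  · have := a.lin; have := b.lin; omega
  · rcases b with (b | b) | b
    · rcases a with ((((((a | a) | a) | a) | a) | a) | a) | a
      · have := a.lin; have := b.lin; omega
      · have := a.lin; have := b.lin; omega
      · have := a.lin; have := b.lin; omega
      · have := a.lin; have := b.lin; omega
      · have := a.lin; have := b.lin; omega
      · have := a.lin; have := b.lin; omega
      · have := a.lin; have := b.lin; omega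
      · rcases b with ((b | b) | b) | b
        · have := D.sAH b a (by omega); omega
        · have := a.lin; have := b.lin; omega
        · have := a.lin; have := b.lin; omega
        · have := a.lin; have := b.lin; omega
    · have := a.lin; have := b.lin; omega
    · have := a.lin; have := b.lin; omega

theorem arcB3 : CArc (3 * D.d + 6 * D.h, 4 * D.d + 5 * D.h) D.wB3 (4 * D.d + 8 * D.h, 3 * D.d + 3 * D.h) D.B3 := by
  have := D.aux
  have h0 := D.arcQB.p0 (P' := (3 * D.d + 6 * D.h, 4 * D.d + 5 * D.h)) (Q' := (2 * D.d + 4 * D.h, 3 * D.d + 3 * D.h)) (3 * D.d + 6 * D.h) (3 * D.d + 3 * D.h) (by dsimp only; omega)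
  have h1 := D.arcQB.p1 (P' := (2 * D.d + 4 * D.h, 3 * D.d + 3 * D.h)) (Q' := (3 * D.d + 6 * D.h, 2 * D.d + D.h)) (3 * D.d + 6 * D.h) (3 * D.d + 3 * D.h) (by dsimp only; omega)
  have h2 := D.arcQB.p2 (P' := (3 * D.d + 6 * D.h, 2 * D.d + D.h)) (Q' := (4 * D.d + 8 * D.h, 3 * D.d + 3 * D.h)) (3 * D.d + 6 * D.h) (3 * D.d + 3 * D.h) (by dsimp only; omega)
  refine (h0.append h1 ?_).append h2 ?_
  · intro X Y a b
    show X = 2 * D.d + 4 * D.h ∧ Y = 3 * D.d + 3 * D.h
    have := qqb a b (by omega); omega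
  · intro X Y a b
    show X = 3 * D.d + 6 * D.h ∧ Y = 2 * D.d + D.h
    rcases a with a | a
    · have := a.lin; have := b.lin; omega
    · have := qqb a b (by omega); omega

theorem arcRB : CArc (4 * D.d + 8 * D.h, 3 * D.d + 3 * D.h) D.wRB (3 * D.d + 6 * D.h, 4 * D.d + 5 * D.h) D.RB := by
  have := D.aux
  have h0 := D.arcLb.p2 (P' := (4 * D.d + 8 * D.h, 3 * D.d + 3 * D.h)) (Q' := (3 * D.d + 6 * D.h, 3 * D.d + 3 * D.h)) (4 * D.d + 8 * D.h) (3 * D.d + 3 * D.h) (by dsimp only; omega)
  have h1 := D.arcLb.b3 (Q' := (3 * D.d + 6 * D.h, 3 * D.d + 3 * D.h)) (P' := (3 * D.d + 6 * D.h, 4 * D.d + 5 * D.h)) (3 * D.d + 6 * D.h) (4 * D.d + 5 * D.h) (by dsimp only; omega)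
  refine h0.append h1 ?_
  · intro X Y a b
    show X = 3 * D.d + 6 * D.h ∧ Y = 3 * D.d + 3 * D.h
    have := a.lin; have := b.lin; omega

theorem sA0 : Simple (D.d, D.d - 1) (D.wA3 ++ D.wRA) ∧
    ∀ z ∈ verts (D.d, D.d - 1) (D.wA3 ++ D.wRA), D.EA z.1 z.2 := by
  have := D.aux
  refine D.arcA3.simple D.arcRA (fun X Y a b => ?_) (by
    have := length_ea (n := D.d) (by omega)
    simp only [wRA, wR, List.length_append, length_rot, length_back]
    omega)
  show (X = D.d ∧ Y = D.d - 1) ∨ (X = D.d - 1 ∧ Y = -D.d)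
  rcases a with (a | a) | a
  · rcases a with (a | a) | a
    · have := a.lin; have := b.lin; omega
    · have := a.lin; have := b.lin; omega
    · have := a.lin; have := b.lin; omega
  · have := a.lin; have := b.lin; omega
  · rcases a with (a | a) | a
    · have := a.lin; have := b.lin; omega
    · have := a.lin; have := b.lin; omega
    · have := a.lin; have := b.lin; omega

theorem sA1 : OutE D.EA D.d (-D.d) := by
  have := D.aux
  refine .rayE fun V _ h => ?_
  rcases h with h | h
  · rcases h with (h | h) | h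
    · have := h.lin; omega
    · have := h.lin; omega
    · have := h.lin; omega
  · have := h.lin; omega

theorem sA2 : Ccw (D.d, D.d - 1) (D.wA3 ++ D.wRA) := by
  have := D.aux
  exact ccw_env (Q := (D.d - 1, -D.d)) (d := 1) D.sA0.1 D.sA0.2 (sMem_edges_right D.arcA3.1 (sMem_edges_left (sMem_edges_left (edge_ea _ 1 (by omega)) _) _))
    D.sA1 (by ext <;> simp [dv] <;> omega)

theorem sB0 : Simple (3 * D.d + 6 * D.h, 4 * D.d + 5 * D.h) (D.wB3 ++ D.wRB) ∧
    ∀ z ∈ verts (3 * D.d + 6 * D.h, 4 * D.d + 5 * D.h) (D.wB3 ++ D.wRB), D.EB z.1 z.2 := by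
  have := D.aux
  refine D.arcB3.simple D.arcRB (fun X Y a b => ?_) (by
    have := length_ea (n := D.b) (by omega)
    simp only [wRB, List.length_append, length_rot, length_back]
    omega)
  show (X = 3 * D.d + 6 * D.h ∧ Y = 4 * D.d + 5 * D.h) ∨ (X = 4 * D.d + 8 * D.h ∧ Y = 3 * D.d + 3 * D.h)
  rcases a with (a | a) | a
  · have := a.lin; have := b.lin; omega
  · have := a.lin; have := b.lin; omega
  · have := a.lin; have := b.lin; omega

theorem sB1 : OutE D.EB (4 * D.d + 8 * D.h) (3 * D.d + 3 * D.h + 1) := by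
  have := D.aux
  refine .rayN fun V _ h => ?_
  rcases h with h | h
  · rcases h with (h | h) | h
    · have := h.lin; omega
    · have := h.lin; omega
    · have := h.lin; omega
  · have := h.lin; omega

theorem sB2 : Ccw (3 * D.d + 6 * D.h, 4 * D.d + 5 * D.h) (D.wB3 ++ D.wRB) := by
  have := D.aux
  exact ccw_env (Q := (4 * D.d + 8 * D.h, 3 * D.d + 3 * D.h)) (d := 2) D.sB0.1 D.sB0.2 (sMem_edges_right D.arcB3.1 (sMem_edges_left (edge_ea _ 2 (by omega)) _))
    D.sB1 (by ext <;> simp [dv] <;> omega)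

theorem covA2 : Cov (D.d + D.h + D.p + 1, 2 * D.d + D.p) D.wA2 (D.d, D.d - 1) D.A2 := by
  have := D.aux
  have h0 := (D.arcN.p1 (P' := (D.d + D.h + D.p + 1, 2 * D.d + D.p)) (Q' := (D.d + D.h, 2 * D.d + 2 * D.h)) (D.d + 3 * D.h) (2 * D.d) (by dsimp only; omega)).cov
  have h1 := (D.arcA4).cov
  have h2 := (D.arcQA.p1 (P' := (-D.d + 1, D.d)) (Q' := (-D.d, -D.d + 1)) 0 0 (by dsimp only; omega)).cov
  have h3 := (D.arcQA.p2 (P' := (-D.d, -D.d + 1)) (Q' := (D.d - 1, -D.d)) 0 0 (by dsimp only; omega)).cov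
  have h4 := (D.arcRA).cov
  exact (((h0.append h1).append h2).append h3).append h4

theorem covC1 : Cov (3 * D.d + 6 * D.h, 4 * D.d + 5 * D.h) D.wC1 (D.d + D.h + D.p + 1, 2 * D.d + D.p) D.C1 := by
  have := D.aux
  have h0 := (D.arcQB.p0 (P' := (3 * D.d + 6 * D.h, 4 * D.d + 5 * D.h)) (Q' := (2 * D.d + 4 * D.h, 3 * D.d + 3 * D.h)) (3 * D.d + 6 * D.h) (3 * D.d + 3 * D.h) (by dsimp only; omega)).cov
  have h1 := (D.arcB0.p1 (P' := (2 * D.d + 4 * D.h, 3 * D.d + 3 * D.h)) (Q' := (D.d + D.h + D.p + 1, 2 * D.d + D.p)) (3 * D.d + 6 * D.h) (3 * D.d + 3 * D.h) (by dsimp only; omega)).cov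
  exact h0.append h1

theorem covC2 : Cov (D.d + 3 * D.h, D.d) D.wC2 (3 * D.d + 6 * D.h, 4 * D.d + 5 * D.h) D.C2 := by
  have := D.aux
  have h0 := (D.arcB2.p1 (P' := (D.d + 3 * D.h, D.d)) (Q' := (3 * D.d + 6 * D.h, 2 * D.d + D.h)) (3 * D.d + 6 * D.h) (3 * D.d + 3 * D.h) (by dsimp only; omega)).cov
  have h1 := (D.arcQB.p2 (P' := (3 * D.d + 6 * D.h, 2 * D.d + D.h)) (Q' := (4 * D.d + 8 * D.h, 3 * D.d + 3 * D.h)) (3 * D.d + 6 * D.h) (3 * D.d + 3 * D.h) (by dsimp only; omega)).cov
  have h2 := (D.arcRB).cov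
  exact (h0.append h1).append h2

/-- The interface. -/
def π : List Dir := rot 1 D.S

theorem eL : D.L = D.S ++ D.N := by
  have := D.ord
  rw [L, D.C.Z_append (j := D.K + 2 * D.C.q) (by omega) (by omega),
    D.C.Z_per (i := -D.C.q) (j := D.K) (by ring) rfl,
    D.C.Z_per (i := D.K) (j := D.C.β - 2 * D.C.q) rfl (by ring)]
  rfl

theorem eA' : D.wA3 ++ D.wRA = D.wA0 ++ (D.π ++ D.wA2) := by
  simp [wA3, wA2, π, qa, eL, rot_append]

theorem eB' : D.wB3 ++ D.wRB = D.wC1 ++ (back 0 D.π ++ D.wC2) := by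
  simp [wB3, wC1, wC2, π, qb, rot_append, back_rot, rot_back]

theorem π_ne : D.π ≠ [] := by
  have := D.ord
  exact rot_ne (D.C.Z_ne (by omega))

theorem arcπ : CArc (D.d + 3 * D.h, D.d) D.π (D.d + D.h + D.p + 1, 2 * D.d + D.p) fun _ _ => True := by
  have := D.aux
  exact (D.arcS.p1 (P' := (D.d + 3 * D.h, D.d)) (Q' := (D.d + D.h + D.p + 1, 2 * D.d + D.p)) (D.d + 3 * D.h) (2 * D.d) (by dsimp only; omega)).mono fun _ _ _ => trivial

theorem arcAL : CArc (D.d + D.h + D.p + 1, 2 * D.d + D.p) D.α (D.d + 3 * D.h, D.d) D.AL :=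
  Simple.rest (D.eA' ▸ D.sA0.1) D.π_ne D.covA2 D.arcA0.cov D.arcπ.1

theorem arcBE : CArc (D.d + 3 * D.h, D.d) D.β (D.d + D.h + D.p + 1, 2 * D.d + D.p) D.BE :=
  Simple.rest (D.eB' ▸ D.sB0.1) (back_ne D.π_ne) D.covC2 D.covC1 D.arcπ.back.1

theorem sC0 : Simple (D.d + D.h + D.p + 1, 2 * D.d + D.p) (D.α ++ D.β) ∧
    ∀ z ∈ verts (D.d + D.h + D.p + 1, 2 * D.d + D.p) (D.α ++ D.β), D.EC z.1 z.2 := by
  have := D.aux
  refine D.arcAL.simple D.arcBE (fun X Y a b => ?_) (by
    have := length_ea (n := D.d) (by omega)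
    simp only [α, wA2, wRA, wR, List.length_append, length_rot, length_back]
    omega)
  show (X = D.d + D.h + D.p + 1 ∧ Y = 2 * D.d + D.p) ∨ (X = D.d + 3 * D.h ∧ Y = D.d)
  rcases b with b | b
  · rcases a with a | a
    · have := a.lin; have := b.lin; omega
    · have := a.lin; have := b.lin; omega
  · rcases a with a | a
    · rcases b with b | b
      · have := a.lin; have := b.lin; omega
      · rcases a with (((a | a) | a) | a) | a
        · rcases b with ((b | b) | b) | b
          · have := a.lin; have := b.lin; omega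
          · have := a.lin; have := b.lin; omega
          · have := a.lin; have := b.lin; omega
          · have := a.lin; have := b.lin; omega
        · have := a.lin; have := b.lin; omega
        · have := a.lin; have := b.lin; omega
        · have := a.lin; have := b.lin; omega
        · have := a.lin; have := b.lin; omega
    · have := a.lin; have := b.lin; omega

theorem sC1 : OutE D.EC (4 * D.d + 8 * D.h) (3 * D.d + 3 * D.h + 1) := by
  have := D.aux
  refine .rayN fun V _ h => ?_
  rcases h with h | h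
  · have := h.lin; omega
  · rcases h with h | h
    · rcases h with (h | h) | h
      · have := h.lin; omega
      · have := h.lin; omega
      · have := h.lin; omega
    · have := h.lin; omega

theorem sC2 : Ccw (D.d + D.h + D.p + 1, 2 * D.d + D.p) (D.α ++ D.β) := by
  have := D.aux
  exact ccw_env (Q := (4 * D.d + 8 * D.h, 3 * D.d + 3 * D.h)) (d := 2) D.sC0.1 D.sC0.2 (sMem_edges_right D.arcAL.1 (sMem_edges_left (sMem_edges_right ((D.arcB2.p1 (P' := (D.d + 3 * D.h, D.d)) (Q' := (3 * D.d + 6 * D.h, 2 * D.d + D.h)) (3 * D.d + 6 * D.h) (3 * D.d + 3 * D.h) (by dsimp only; omega)).cov.append (D.arcQB.p2 (P' := (3 * D.d + 6 * D.h, 2 * D.d + D.h)) (Q' := (4 * D.d + 8 * D.h, 3 * D.d + 3 * D.h)) (3 * D.d + 6 * D.h) (3 * D.d + 3 * D.h) (by dsimp only; omega)).cov).1 (sMem_edges_left (edge_ea _ 2 (by omega)) _)) _))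
    D.sC1 (by ext <;> simp [dv] <;> omega)

end DJ

end NP
end Pool.Agent.Lib.MP_4a7072_co
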