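import Mathlib

/-!
Piecewise isometries preserve the length of paths.
-/

set_option autoImplicit false

namespace Pool.Agent.Lib.MP_4a7072_co

open Set

theorem edist_le_var_of_cover {E F ι : Type*} [PseudoEMetricSpace E] [PseudoEMetricSpace F]
    (g : ℝ → E) (h : ℝ → F) (K : ι → Set ℝ) (hK : ∀ k, IsClosed (K k))
    (hle : ∀ k, ∀ s ∈ K k, ∀ t ∈ K k, edist (g s) (g t) ≤ edist (h s) (h t)) (b : ℝ)
    (I : Finset ι) :
    ∀ a : ℝ, a ≤ b → (∀ t ∈ Icc a b, ∃ k ∈ I, t ∈ K k) →
      edist (g a) (g b) ≤ eVariationOn h (Icc a b) := by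
  classical
  induction I using Finset.strongInduction with
  | H I ih =>
    intro a hab hcov
    obtain ⟨k, hkI, hak⟩ := hcov a ⟨le_rfl, hab⟩
    have hcomp : IsCompact (K k ∩ Icc a b) := isCompact_Icc.inter_left (hK k)
    have hne : (K k ∩ Icc a b).Nonempty := ⟨a, hak, le_rfl, hab⟩
    obtain ⟨m, ⟨hmK, ham, hmb⟩, hmax⟩ := hcomp.exists_isGreatest hne
    have h1 : edist (g a) (g m) ≤ eVariationOn h (Icc a m) :=
      (hle k a hak m hmK).trans (eVariationOn.edist_le h ⟨le_rfl, ham⟩ ⟨ham, le_rfl⟩)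
    rcases eq_or_lt_of_le hmb with hEq | hlt
    · subst hEq; exact h1
    have hcl : IsClosed (⋃ j ∈ I.erase k, K j) :=
      (I.erase k).finite_toSet.isClosed_biUnion (fun j _ => hK j)
    have hsub : Ioc m b ⊆ ⋃ j ∈ I.erase k, K j := by
      intro t ht
      obtain ⟨j, hjI, htj⟩ := hcov t ⟨ham.trans ht.1.le, ht.2⟩
      have hjk : j ≠ k := by
        rintro rfl
        exact absurd (hmax ⟨htj, ham.trans ht.1.le, ht.2⟩) (not_le.2 ht.1)
      exact mem_biUnion (Finset.mem_coe.2 (Finset.mem_erase.2 ⟨hjk, hjI⟩)) htj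
    have hsub' : Icc m b ⊆ ⋃ j ∈ I.erase k, K j := by
      rw [← closure_Ioc hlt.ne]
      exact closure_minimal hsub hcl
    have h2 : edist (g m) (g b) ≤ eVariationOn h (Icc m b) := by
      refine ih (I.erase k) (Finset.erase_ssubset hkI) m hmb ?_
      intro t ht
      have := hsub' ht
      simp only [mem_iUnion] at this
      obtain ⟨j, hj, htj⟩ := this
      exact ⟨j, hj, htj⟩
    have h3 := eVariationOn.Icc_add_Icc h (s := univ) ham hmb (mem_univ m)
    simp only [univ_inter] at h3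
    calc edist (g a) (g b) ≤ edist (g a) (g m) + edist (g m) (g b) := edist_triangle _ _ _
      _ ≤ eVariationOn h (Icc a m) + eVariationOn h (Icc m b) := add_le_add h1 h2
      _ = eVariationOn h (Icc a b) := h3

theorem var_le_of_cover {E F ι : Type*} [PseudoEMetricSpace E] [PseudoEMetricSpace F]
    (g : ℝ → E) (h : ℝ → F) (K : ι → Set ℝ) (hK : ∀ k, IsClosed (K k))
    (hle : ∀ k, ∀ s ∈ K k, ∀ t ∈ K k, edist (g s) (g t) ≤ edist (h s) (h t))
    (I : Finset ι) (a b : ℝ) (hcov : ∀ t ∈ Icc a b, ∃ k ∈ I, t ∈ K k) :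
    eVariationOn g (Icc a b) ≤ eVariationOn h (Icc a b) := by
  refine iSup_le ?_
  rintro ⟨n, u, hu, us⟩
  have hstep : ∀ i, edist (g (u (i + 1))) (g (u i)) ≤ eVariationOn h (Icc (u i) (u (i + 1))) := by
    intro i
    rw [edist_comm]
    refine edist_le_var_of_cover g h K hK hle _ I _ (hu (Nat.le_succ i)) ?_
    intro t ht
    exact hcov t ⟨(us i).1.trans ht.1, ht.2.trans (us (i + 1)).2⟩
  calc ∑ i ∈ Finset.range n, edist (g (u (i + 1))) (g (u i))
      ≤ ∑ i ∈ Finset.range n, eVariationOn h (Icc (u i) (u (i + 1))) :=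
        Finset.sum_le_sum (fun i _ => hstep i)
    _ = eVariationOn h (Icc (u 0) (u n)) := eVariationOn.sum' h hu
    _ ≤ eVariationOn h (Icc a b) :=
        eVariationOn.mono h (Icc_subset_Icc (us 0).1 (us n).2)

/-- A map that is isometric on each member of a finite closed cover of `P` preserves lengths of
paths in `P`. -/
theorem var_comp_eq_of_pieces {E F ι : Type*} [PseudoEMetricSpace E] [PseudoEMetricSpace F]
    (f : E → F) (C : ι → Set E) (hC : ∀ k, IsClosed (C k)) (I : Finset ι)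
    (hiso : ∀ k ∈ I, ∀ x ∈ C k, ∀ y ∈ C k, edist (f x) (f y) = edist x y)
    (γ : ℝ → E) (hγ : ContinuousOn γ (Icc 0 1)) (hm : MapsTo γ (Icc 0 1) (⋃ k ∈ I, C k)) :
    eVariationOn (f ∘ γ) (Icc 0 1) = eVariationOn γ (Icc 0 1) := by
  classical
  let K : ι → Set ℝ := fun k => if k ∈ I then Icc 0 1 ∩ γ ⁻¹' C k else ∅
  have hK : ∀ k, IsClosed (K k) := by
    intro k
    by_cases hk : k ∈ I
    · simp only [K, if_pos hk]
      exact hγ.preimage_isClosed_of_isClosed isClosed_Icc (hC k)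
    · simp only [K, if_neg hk]; exact isClosed_empty
  have hcov : ∀ t ∈ Icc (0 : ℝ) 1, ∃ k ∈ I, t ∈ K k := by
    intro t ht
    have := hm ht
    simp only [mem_iUnion] at this
    obtain ⟨k, hk, htk⟩ := this
    refine ⟨k, hk, ?_⟩
    simp only [K, if_pos hk]
    exact ⟨ht, htk⟩
  have hEq : ∀ k, ∀ s ∈ K k, ∀ t ∈ K k, edist ((f ∘ γ) s) ((f ∘ γ) t) = edist (γ s) (γ t) := by
    intro k s hs t ht
    by_cases hk : k ∈ I
    · simp only [K, if_pos hk] at hs ht
      exact hiso k hk _ hs.2 _ ht.2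
    · simp only [K, if_neg hk] at hs; exact absurd hs (notMem_empty s)
  apply le_antisymm
  · exact var_le_of_cover _ _ K hK (fun k s hs t ht => (hEq k s hs t ht).le) I 0 1 hcov
  · exact var_le_of_cover _ _ K hK (fun k s hs t ht => (hEq k s hs t ht).ge) I 0 1 hcov

theorem continuousOn_of_pieces {E F ι : Type*} [PseudoEMetricSpace E] [PseudoEMetricSpace F]
    (f : E → F) (C : ι → Set E) (hC : ∀ k, IsClosed (C k)) (I : Finset ι)
    (hiso : ∀ k ∈ I, ∀ x ∈ C k, ∀ y ∈ C k, edist (f x) (f y) = edist x y) :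
    ContinuousOn f (⋃ k ∈ I, C k) := by
  classical
  induction I using Finset.induction_on with
  | empty => simp
  | insert a s ha ih =>
    rw [Finset.set_biUnion_insert]
    refine ContinuousOn.union_of_isClosed ?_ (ih fun k hk => hiso k (Finset.mem_insert_of_mem hk))
      (hC a) (s.finite_toSet.isClosed_biUnion (fun j _ => hC j))
    have : LipschitzOnWith 1 f (C a) := by
      intro x hx y hy
      rw [hiso a (Finset.mem_insert_self a s) x hx y hy]
      simp
    exact this.continuousOn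

end Pool.Agent.Lib.MP_4a7072_co
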