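import Pool.Agent.Lib.MP_4a7072_co.Defs
import Pool.Agent.Lib.MP_4a7072_co.Length

/-!
A combinatorial criterion for a union of lattice squares to fold into the surface of a cube,
with creases along lattice lines.
-/

set_option autoImplicit false

namespace Pool.Agent.Lib.MP_4a7072_co

open Set

/-- Bilinear interpolation of the vertex data `V` on the cell `(i, j)`. -/
noncomputable def bil (V : ℤ → ℤ → Fin 3 → ℤ) (i j : ℤ) (x y : ℝ) (k : Fin 3) : ℝ :=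
  (1 - (x - i)) * (1 - (y - j)) * V i j k + (x - i) * (1 - (y - j)) * V (i + 1) j k
    + (1 - (x - i)) * (y - j) * V i (j + 1) k + (x - i) * (y - j) * V (i + 1) (j + 1) k

/-- The folding map. -/
noncomputable def foldMap (V : ℤ → ℤ → Fin 3 → ℤ) (p : EuclideanSpace ℝ (Fin 2)) :
    EuclideanSpace ℝ (Fin 3) :=
  WithLp.toLp 2 (bil V ⌊p 0⌋ ⌊p 1⌋ (p 0) (p 1))

theorem floor_cases {i : ℤ} {x : ℝ} (h1 : (i : ℝ) ≤ x) (h2 : x ≤ (i : ℝ) + 1) :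
    ⌊x⌋ = i ∨ (⌊x⌋ = i + 1 ∧ x = (i : ℝ) + 1) := by
  rcases eq_or_lt_of_le h2 with h | h
  · right
    refine ⟨?_, h⟩
    rw [h]
    have : ((i : ℝ) + 1) = ((i + 1 : ℤ) : ℝ) := by push_cast; ring
    rw [this, Int.floor_intCast]
  · left
    exact Int.floor_eq_iff.2 ⟨h1, h⟩

theorem foldMap_apply (V : ℤ → ℤ → Fin 3 → ℤ) (c : ℤ × ℤ) (p : EuclideanSpace ℝ (Fin 2))
    (hp : p ∈ unitSq c) (k : Fin 3) : foldMap V p k = bil V c.1 c.2 (p 0) (p 1) k := by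
  obtain ⟨h1, h2, h3, h4⟩ := hp
  show bil V ⌊p 0⌋ ⌊p 1⌋ (p 0) (p 1) k = _
  rcases floor_cases h1 h2 with hx | ⟨hx, hx'⟩ <;> rcases floor_cases h3 h4 with hy | ⟨hy, hy'⟩
  · rw [hx, hy]
  · rw [hx, hy, hy']; unfold bil; push_cast; ring
  · rw [hx, hy, hx']; unfold bil; push_cast; ring
  · rw [hx, hy, hx', hy']; unfold bil; push_cast; ring

theorem isClosed_unitSq (c : ℤ × ℤ) : IsClosed (unitSq c) := by
  have h0 : Continuous fun p : EuclideanSpace ℝ (Fin 2) => p 0 := by fun_prop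
  have h1 : Continuous fun p : EuclideanSpace ℝ (Fin 2) => p 1 := by fun_prop
  exact (isClosed_le continuous_const h0).inter ((isClosed_le h0 continuous_const).inter
    ((isClosed_le continuous_const h1).inter (isClosed_le h1 continuous_const)))

/-- First edge vector of the image of a cell. -/
def e1 (V : ℤ → ℤ → Fin 3 → ℤ) (c : ℤ × ℤ) (k : Fin 3) : ℤ := V (c.1 + 1) c.2 k - V c.1 c.2 k

/-- Second edge vector of the image of a cell. -/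
def e2 (V : ℤ → ℤ → Fin 3 → ℤ) (c : ℤ × ℤ) (k : Fin 3) : ℤ := V c.1 (c.2 + 1) k - V c.1 c.2 k

/-- The four corners of the cell go to the corners of a unit square. -/
def GoodCell (V : ℤ → ℤ → Fin 3 → ℤ) (c : ℤ × ℤ) : Prop :=
  (∀ k, V (c.1 + 1) (c.2 + 1) k = V c.1 c.2 k + e1 V c k + e2 V c k) ∧
  e1 V c 0 * e1 V c 0 + e1 V c 1 * e1 V c 1 + e1 V c 2 * e1 V c 2 = 1 ∧
  e2 V c 0 * e2 V c 0 + e2 V c 1 * e2 V c 1 + e2 V c 2 * e2 V c 2 = 1 ∧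
  e1 V c 0 * e2 V c 0 + e1 V c 1 * e2 V c 1 + e1 V c 2 * e2 V c 2 = 0

theorem foldMap_affine (V : ℤ → ℤ → Fin 3 → ℤ) (c : ℤ × ℤ) (hc : GoodCell V c)
    (p : EuclideanSpace ℝ (Fin 2)) (hp : p ∈ unitSq c) (k : Fin 3) :
    foldMap V p k = V c.1 c.2 k + (p 0 - c.1) * e1 V c k + (p 1 - c.2) * e2 V c k := by
  rw [foldMap_apply V c p hp]
  unfold bil
  rw [hc.1 k]
  unfold e1 e2
  push_cast
  ring

theorem foldMap_edist (V : ℤ → ℤ → Fin 3 → ℤ) (c : ℤ × ℤ) (hc : GoodCell V c)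
    (p : EuclideanSpace ℝ (Fin 2)) (hp : p ∈ unitSq c) (q : EuclideanSpace ℝ (Fin 2))
    (hq : q ∈ unitSq c) : edist (foldMap V p) (foldMap V q) = edist p q := by
  rw [edist_dist, edist_dist, EuclideanSpace.dist_eq, EuclideanSpace.dist_eq]
  congr 2
  simp only [Fin.sum_univ_three, Fin.sum_univ_two, Real.dist_eq, sq_abs,
    foldMap_affine V c hc p hp, foldMap_affine V c hc q hq]
  have h1 : (e1 V c 0 : ℝ) * e1 V c 0 + e1 V c 1 * e1 V c 1 + e1 V c 2 * e1 V c 2 = 1 := by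
    exact_mod_cast hc.2.1
  have h2 : (e2 V c 0 : ℝ) * e2 V c 0 + e2 V c 1 * e2 V c 1 + e2 V c 2 * e2 V c 2 = 1 := by
    exact_mod_cast hc.2.2.1
  have h3 : (e1 V c 0 : ℝ) * e2 V c 0 + e1 V c 1 * e2 V c 1 + e1 V c 2 * e2 V c 2 = 0 := by
    exact_mod_cast hc.2.2.2
  linear_combination (p 0 - q 0) ^ 2 * h1 + (p 1 - q 1) ^ 2 * h2
    + 2 * (p 0 - q 0) * (p 1 - q 1) * h3

theorem sq_sum_one_cases {a b c : ℤ} (h : a * a + b * b + c * c = 1) :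
    (a = 1 ∧ b = 0 ∧ c = 0) ∨ (a = -1 ∧ b = 0 ∧ c = 0) ∨ (a = 0 ∧ b = 1 ∧ c = 0) ∨
    (a = 0 ∧ b = -1 ∧ c = 0) ∨ (a = 0 ∧ b = 0 ∧ c = 1) ∨ (a = 0 ∧ b = 0 ∧ c = -1) := by
  have ha : -1 ≤ a ∧ a ≤ 1 := by constructor <;> nlinarith [mul_self_nonneg b, mul_self_nonneg c]
  have hb : -1 ≤ b ∧ b ≤ 1 := by constructor <;> nlinarith [mul_self_nonneg a, mul_self_nonneg c]
  have hc : -1 ≤ c ∧ c ≤ 1 := by constructor <;> nlinarith [mul_self_nonneg b, mul_self_nonneg a]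
  obtain ⟨ha1, ha2⟩ := ha
  obtain ⟨hb1, hb2⟩ := hb
  obtain ⟨hc1, hc2⟩ := hc
  interval_cases a <;> interval_cases b <;> interval_cases c <;> simp_all

/-- The doubled stratum coordinate of a real number. -/
noncomputable def dbl (x : ℝ) : ℤ := ⌊x⌋ + ⌈x⌉

theorem dbl_int_add (n : ℤ) (x : ℝ) : dbl ((n : ℝ) + x) = 2 * n + dbl x := by
  unfold dbl
  rw [Int.floor_intCast_add, Int.ceil_intCast_add]; ring

theorem dbl_neg (x : ℝ) : dbl (-x) = -dbl x := by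
  unfold dbl
  rw [Int.floor_neg, Int.ceil_neg]; ring

theorem dbl_zero : dbl 0 = 0 := by simp [dbl]

theorem dbl_cases {s : ℝ} (h0 : 0 ≤ s) (h1 : s ≤ 1) :
    (dbl s = 0 ∧ s = 0) ∨ dbl s = 1 ∨ (dbl s = 2 ∧ s = 1) := by
  rcases eq_or_lt_of_le h0 with h | h
  · left; exact ⟨by rw [← h]; exact dbl_zero, h.symm⟩
  rcases eq_or_lt_of_le h1 with h' | h'
  · right; right; refine ⟨?_, h'⟩; rw [h']; simp [dbl]
  · right; left
    unfold dbl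
    have e1 : ⌊s⌋ = 0 := Int.floor_eq_iff.2 ⟨by simpa using h0, by simpa using h'⟩
    have e2 : ⌈s⌉ = 1 := Int.ceil_eq_iff.2 ⟨by simpa using h, by simpa using h1⟩
    rw [e1, e2]; rfl

theorem mem_Icc_of_dbl_eq {i : ℤ} {x y : ℝ} (h1 : (i : ℝ) ≤ x) (h2 : x ≤ (i : ℝ) + 1)
    (h : dbl y = dbl x) : (i : ℝ) ≤ y ∧ y ≤ (i : ℝ) + 1 := by
  unfold dbl at h
  have a1 : i ≤ ⌊x⌋ := Int.le_floor.2 h1
  have a2 : ⌈x⌉ ≤ i + 1 := Int.ceil_le.2 (by push_cast; exact h2)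
  have a3 : ⌊x⌋ ≤ ⌈x⌉ := Int.floor_le_ceil x
  have b1 : ⌊y⌋ ≤ ⌈y⌉ := Int.floor_le_ceil y
  have b2 : ⌈y⌉ ≤ ⌊y⌋ + 1 := Int.ceil_le_floor_add_one y
  have c1 : i ≤ ⌊y⌋ := by omega
  have c2 : ⌈y⌉ ≤ i + 1 := by omega
  refine ⟨Int.le_floor.1 c1, ?_⟩
  have := Int.ceil_le.1 c2
  push_cast at this
  exact this

theorem dbl_affine (V : ℤ → ℤ → Fin 3 → ℤ) (c : ℤ × ℤ) (hc : GoodCell V c) (s t : ℝ)
    (k : Fin 3) : dbl ((V c.1 c.2 k : ℝ) + s * e1 V c k + t * e2 V c k)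
      = 2 * V c.1 c.2 k + dbl s * e1 V c k + dbl t * e2 V c k := by
  obtain ⟨-, h1, h2, h3⟩ := hc
  rw [add_assoc, dbl_int_add, add_assoc]
  congr 1
  rcases sq_sum_one_cases h1 with ⟨a, b, c'⟩ | ⟨a, b, c'⟩ | ⟨a, b, c'⟩ | ⟨a, b, c'⟩ | ⟨a, b, c'⟩ |
      ⟨a, b, c'⟩ <;>
    rcases sq_sum_one_cases h2 with ⟨d, e, f⟩ | ⟨d, e, f⟩ | ⟨d, e, f⟩ | ⟨d, e, f⟩ | ⟨d, e, f⟩ |
      ⟨d, e, f⟩ <;>
    rw [a, b, c', d, e, f] at h3 <;>
    first
    | (exfalso; omega)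
    | (fin_cases k <;> simp [a, b, c', d, e, f, dbl_neg, dbl_zero])

theorem exists_cell_of_mem_region {S : Finset (ℤ × ℤ)} {p : EuclideanSpace ℝ (Fin 2)}
    (hp : p ∈ region S) : ∃ c ∈ S, p ∈ unitSq c := by
  unfold region at hp
  simp only [mem_iUnion] at hp
  obtain ⟨c, hc, h⟩ := hp
  exact ⟨c, hc, h⟩

theorem mem_region {S : Finset (ℤ × ℤ)} {p : EuclideanSpace ℝ (Fin 2)} {c : ℤ × ℤ}
    (hc : c ∈ S) (hp : p ∈ unitSq c) : p ∈ region S := by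
  unfold region
  simp only [mem_iUnion]
  exact ⟨c, hc, hp⟩

theorem cell_mem_of_mem_interior {S : Finset (ℤ × ℤ)} {p : EuclideanSpace ℝ (Fin 2)}
    (hp : p ∈ interior (region S)) (d : ℤ × ℤ) (hd : p ∈ unitSq d) : d ∈ S := by
  let q : EuclideanSpace ℝ (Fin 2) := WithLp.toLp 2 ![(d.1 : ℝ) + 1 / 2, (d.2 : ℝ) + 1 / 2]
  have hcont : Continuous fun t : ℝ => p + t • (q - p) := by fun_prop
  have hnh : (fun t : ℝ => p + t • (q - p)) ⁻¹' interior (region S) ∈ nhds (0 : ℝ) := by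
    apply hcont.continuousAt.preimage_mem_nhds
    simp only [zero_smul, add_zero]
    exact isOpen_interior.mem_nhds hp
  have hnh' : (fun t : ℝ => p + t • (q - p)) ⁻¹' interior (region S) ∩ Ioo 0 1 ∈
      nhdsWithin (0 : ℝ) (Ioi 0) :=
    Filter.inter_mem (mem_nhdsWithin_of_mem_nhds hnh) (Ioo_mem_nhdsGT one_pos)
  obtain ⟨t, ht, ht0, ht1⟩ := Filter.nonempty_of_mem hnh'
  obtain ⟨c, hc, h1, h2, h3, h4⟩ := exists_cell_of_mem_region (interior_subset ht)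
  obtain ⟨g1, g2, g3, g4⟩ := hd
  simp only [q, PiLp.add_apply, PiLp.smul_apply, PiLp.sub_apply, smul_eq_mul,
    Matrix.cons_val_zero, Matrix.cons_val_one] at h1 h2 h3 h4
  have k1 : (c.1 : ℝ) < d.1 + 1 := by nlinarith
  have k2 : (d.1 : ℝ) < c.1 + 1 := by nlinarith
  have k3 : (c.2 : ℝ) < d.2 + 1 := by nlinarith
  have k4 : (d.2 : ℝ) < c.2 + 1 := by nlinarith
  have l1 : c.1 < d.1 + 1 := by exact_mod_cast k1
  have l2 : d.1 < c.1 + 1 := by exact_mod_cast k2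
  have l3 : c.2 < d.2 + 1 := by exact_mod_cast k3
  have l4 : d.2 < c.2 + 1 := by exact_mod_cast k4
  have : d = c := Prod.ext (by omega) (by omega)
  rw [this]; exact hc

/-- The image of the cell lies on the surface of the cube. -/
def OnSurface (V : ℤ → ℤ → Fin 3 → ℤ) (L : ℤ) (c : ℤ × ℤ) : Prop :=
  (∀ k, 0 ≤ V c.1 c.2 k ∧ V c.1 c.2 k ≤ L ∧ 0 ≤ V (c.1 + 1) c.2 k ∧ V (c.1 + 1) c.2 k ≤ L ∧
    0 ≤ V c.1 (c.2 + 1) k ∧ V c.1 (c.2 + 1) k ≤ L ∧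
    0 ≤ V (c.1 + 1) (c.2 + 1) k ∧ V (c.1 + 1) (c.2 + 1) k ≤ L) ∧
  ∃ k, e1 V c k = 0 ∧ e2 V c k = 0 ∧ (V c.1 c.2 k = 0 ∨ V c.1 c.2 k = L)

theorem foldMap_mem_surface (V : ℤ → ℤ → Fin 3 → ℤ) (L : ℤ) (c : ℤ × ℤ) (hc : GoodCell V c)
    (hs : OnSurface V L c) (p : EuclideanSpace ℝ (Fin 2)) (hp : p ∈ unitSq c) :
    foldMap V p ∈ cubeSurface (L : ℝ) := by
  refine ⟨fun k => ?_, ?_⟩
  · rw [foldMap_apply V c p hp]
    obtain ⟨h1, h2, h3, h4⟩ := hp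
    obtain ⟨a1, a2, b1, b2, c1, c2, d1, d2⟩ := hs.1 k
    have a1' : (0 : ℝ) ≤ V c.1 c.2 k := by exact_mod_cast a1
    have a2' : (V c.1 c.2 k : ℝ) ≤ L := by exact_mod_cast a2
    have b1' : (0 : ℝ) ≤ V (c.1 + 1) c.2 k := by exact_mod_cast b1
    have b2' : (V (c.1 + 1) c.2 k : ℝ) ≤ L := by exact_mod_cast b2
    have c1' : (0 : ℝ) ≤ V c.1 (c.2 + 1) k := by exact_mod_cast c1
    have c2' : (V c.1 (c.2 + 1) k : ℝ) ≤ L := by exact_mod_cast c2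
    have d1' : (0 : ℝ) ≤ V (c.1 + 1) (c.2 + 1) k := by exact_mod_cast d1
    have d2' : (V (c.1 + 1) (c.2 + 1) k : ℝ) ≤ L := by exact_mod_cast d2
    unfold bil
    set s := p 0 - c.1 with hs'
    set t := p 1 - c.2 with ht'
    have s0 : 0 ≤ s := by linarith
    have s1 : 0 ≤ 1 - s := by linarith
    have t0 : 0 ≤ t := by linarith
    have t1 : 0 ≤ 1 - t := by linarith
    constructor
    · positivity
    · have e : (L : ℝ) = (1 - s) * (1 - t) * L + s * (1 - t) * L + (1 - s) * t * L + s * t * L := by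
        ring
      rw [e]
      gcongr
  · obtain ⟨k, h1, h2, h3⟩ := hs.2
    refine ⟨k, ?_⟩
    rw [foldMap_affine V c hc p hp, h1, h2]
    rcases h3 with h | h <;> simp [h]

theorem exists_preimage (V : ℤ → ℤ → Fin 3 → ℤ) (c : ℤ × ℤ) (hc : GoodCell V c)
    (z : EuclideanSpace ℝ (Fin 3)) (k0 : Fin 3) (w : Fin 3 → ℤ)
    (hw : ∀ k, V c.1 c.2 k + V (c.1 + 1) (c.2 + 1) k = w k)
    (hz0 : 2 * z k0 = w k0) (hev : w k0 % 2 = 0)
    (hz : ∀ k, (w k : ℝ) - 1 ≤ 2 * z k ∧ 2 * z k ≤ (w k : ℝ) + 1) :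
    ∃ p ∈ unitSq c, foldMap V p = z := by
  have hw' : ∀ k, w k = 2 * V c.1 c.2 k + e1 V c k + e2 V c k := by
    intro k; rw [← hw k, hc.1 k]; ring
  have hwR : ∀ k, (w k : ℝ) = 2 * V c.1 c.2 k + e1 V c k + e2 V c k := by
    intro k; exact_mod_cast hw' k
  let s : ℝ := (z 0 - V c.1 c.2 0) * e1 V c 0 + (z 1 - V c.1 c.2 1) * e1 V c 1
    + (z 2 - V c.1 c.2 2) * e1 V c 2
  let t : ℝ := (z 0 - V c.1 c.2 0) * e2 V c 0 + (z 1 - V c.1 c.2 1) * e2 V c 1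
    + (z 2 - V c.1 c.2 2) * e2 V c 2
  have key : 0 ≤ s ∧ s ≤ 1 ∧ 0 ≤ t ∧ t ≤ 1 ∧
      ∀ k, z k = V c.1 c.2 k + s * e1 V c k + t * e2 V c k := by
    obtain ⟨-, h1, h2, h3⟩ := hc
    have z0 := hz 0
    have z1 := hz 1
    have z2 := hz 2
    rw [hwR] at z0 z1 z2 hz0
    rw [hw'] at hev
    simp only [s, t, Fin.forall_fin_succ, Fin.succ_zero_eq_one, Fin.succ_one_eq_two,
      IsEmpty.forall_iff, and_true]
    have hk : k0 = 0 ∨ k0 = 1 ∨ k0 = 2 := by fin_cases k0 <;> simp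
    rcases sq_sum_one_cases h1 with ⟨a, b, c'⟩ | ⟨a, b, c'⟩ | ⟨a, b, c'⟩ | ⟨a, b, c'⟩ |
        ⟨a, b, c'⟩ | ⟨a, b, c'⟩ <;>
      rcases sq_sum_one_cases h2 with ⟨d, e, f⟩ | ⟨d, e, f⟩ | ⟨d, e, f⟩ | ⟨d, e, f⟩ | ⟨d, e, f⟩ |
        ⟨d, e, f⟩ <;>
      rw [a, b, c', d, e, f] at h3 <;>
      first
      | (exfalso; omega)
      | (rcases hk with rfl | rfl | rfl <;>
          simp only [a, b, c', d, e, f] at hev hz0 z0 z1 z2 ⊢ <;>
          first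
          | (exfalso; omega)
          | (push_cast at hz0 z0 z1 z2 ⊢
             refine ⟨?_, ?_, ?_, ?_, ?_, ?_, ?_⟩ <;> linarith [z0.1, z0.2, z1.1, z1.2, z2.1, z2.2]))
  obtain ⟨s0, s1, t0, t1, hzk⟩ := key
  have hp : (WithLp.toLp 2 ![(c.1 : ℝ) + s, (c.2 : ℝ) + t] : EuclideanSpace ℝ (Fin 2)) ∈
      unitSq c := by
    refine ⟨?_, ?_, ?_, ?_⟩ <;> simp <;> linarith
  refine ⟨_, hp, ?_⟩
  ext k
  rw [foldMap_affine V c hc _ hp, hzk k]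
  simp

/-- The criterion. -/
theorem foldsInto_of_data (V : ℤ → ℤ → Fin 3 → ℤ) (S : Finset (ℤ × ℤ)) (L : ℕ) (hL : 0 < L)
    (H1 : ∀ c ∈ S, GoodCell V c) (H2 : ∀ c ∈ S, OnSurface V L c)
    (H3 : ∀ (w : Fin 3 → ℤ) (k0 : Fin 3), (w k0 = 0 ∨ w k0 = 2 * L) →
      (∀ k, k ≠ k0 → w k % 2 = 1 ∧ 0 < w k ∧ w k < 2 * L) →
      ∃ c ∈ S, ∀ k, V c.1 c.2 k + V (c.1 + 1) (c.2 + 1) k = w k)
    (H4 : ∀ c ∈ S, ∀ d ∈ S, ∀ τ1 τ2 σ1 σ2 : ℤ, 0 ≤ τ1 → τ1 ≤ 2 → 0 ≤ τ2 → τ2 ≤ 2 →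
      0 ≤ σ1 → σ1 ≤ 2 → 0 ≤ σ2 → σ2 ≤ 2 →
      (c.1 + τ1 - 1, c.2) ∈ S → (c.1, c.2 + τ2 - 1) ∈ S → (c.1 + τ1 - 1, c.2 + τ2 - 1) ∈ S →
      (∀ k, 2 * V c.1 c.2 k + τ1 * e1 V c k + τ2 * e2 V c k
        = 2 * V d.1 d.2 k + σ1 * e1 V d k + σ2 * e2 V d k) →
      2 * c.1 + τ1 = 2 * d.1 + σ1 ∧ 2 * c.2 + τ2 = 2 * d.2 + σ2) :
    FoldsInto (region S) (cubeSurface L) := by
  have hiso : ∀ c ∈ S, ∀ x ∈ unitSq c, ∀ y ∈ unitSq c,
      edist (foldMap V x) (foldMap V y) = edist x y :=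
    fun c hc x hx y hy => foldMap_edist V c (H1 c hc) x hx y hy
  refine ⟨foldMap V, continuousOn_of_pieces _ unitSq isClosed_unitSq S hiso, ?_,
    fun γ hγ hm => var_comp_eq_of_pieces _ unitSq isClosed_unitSq S hiso γ hγ hm, ?_⟩
  · apply Subset.antisymm
    · rintro _ ⟨p, hp, rfl⟩
      obtain ⟨c, hc, hpc⟩ := exists_cell_of_mem_region hp
      have := foldMap_mem_surface V L c (H1 c hc) (H2 c hc) p hpc
      simpa using this
    · rintro z ⟨hz, k0, hk0⟩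
      let w : Fin 3 → ℤ := fun k =>
        if k = k0 then (if z k0 = 0 then 0 else 2 * L) else 2 * min ⌊z k⌋ (L - 1) + 1
      have hw0 : w k0 = if z k0 = 0 then 0 else 2 * L := by simp [w]
      have hwk : ∀ k, k ≠ k0 → w k = 2 * min ⌊z k⌋ (L - 1) + 1 := by
        intro k hk; simp [w, hk]
      have hz0 : 2 * z k0 = w k0 := by
        rw [hw0]
        by_cases h : z k0 = 0
        · simp [h]
        · rw [if_neg h]
          rcases hk0 with h' | h'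
          · exact absurd h' h
          · rw [h']; push_cast; ring
      have hw0' : w k0 = 0 ∨ w k0 = 2 * L := by
        rw [hw0]; by_cases h : z k0 = 0 <;> simp [h]
      obtain ⟨c, hc, hcw⟩ := H3 w k0 hw0' (by
        intro k hk
        rw [hwk k hk]
        have : 0 ≤ ⌊z k⌋ := Int.floor_nonneg.2 (hz k).1
        omega)
      obtain ⟨p, hp, hpz⟩ := exists_preimage V c (H1 c hc) z k0 w hcw hz0 (by omega) (by
        intro k
        by_cases hk : k = k0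
        · subst hk; rw [hz0]; constructor <;> linarith
        · rw [hwk k hk]
          have f1 := Int.floor_le (z k)
          have f2 := Int.lt_floor_add_one (z k)
          have f3 := (hz k).2
          rcases le_total ⌊z k⌋ ((L : ℤ) - 1) with h | h
          · rw [min_eq_left h]; push_cast; constructor <;> linarith
          · rw [min_eq_right h]
            have : (((L : ℤ) - 1 : ℤ) : ℝ) ≤ ⌊z k⌋ := by exact_mod_cast h
            push_cast at this ⊢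
            constructor <;> linarith)
      exact ⟨p, mem_region hc hp, hpz⟩
  · intro x hx y hy hxy
    obtain ⟨c, hc, hxc⟩ := exists_cell_of_mem_region (interior_subset hx)
    obtain ⟨d, hd, hyd⟩ := exists_cell_of_mem_region hy
    have hxc' := hxc
    have hyd' := hyd
    obtain ⟨x1, x2, x3, x4⟩ := hxc'
    obtain ⟨y1, y2, y3, y4⟩ := hyd'
    have t1 := dbl_cases (s := x 0 - c.1) (by linarith) (by linarith)
    have t2 := dbl_cases (s := x 1 - c.2) (by linarith) (by linarith)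
    have s1 := dbl_cases (s := y 0 - d.1) (by linarith) (by linarith)
    have s2 := dbl_cases (s := y 1 - d.2) (by linarith) (by linarith)
    have m1 : ((c.1 + dbl (x 0 - c.1) - 1 : ℤ) : ℝ) ≤ x 0 ∧
        x 0 ≤ ((c.1 + dbl (x 0 - c.1) - 1 : ℤ) : ℝ) + 1 := by
      rcases t1 with ⟨h, h'⟩ | h | ⟨h, h'⟩ <;> rw [h] <;> push_cast <;> constructor <;> linarith
    have m2 : ((c.2 + dbl (x 1 - c.2) - 1 : ℤ) : ℝ) ≤ x 1 ∧
        x 1 ≤ ((c.2 + dbl (x 1 - c.2) - 1 : ℤ) : ℝ) + 1 := by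
      rcases t2 with ⟨h, h'⟩ | h | ⟨h, h'⟩ <;> rw [h] <;> push_cast <;> constructor <;> linarith
    have hE := H4 c hc d hd (dbl (x 0 - c.1)) (dbl (x 1 - c.2)) (dbl (y 0 - d.1))
      (dbl (y 1 - d.2)) (by omega) (by omega) (by omega) (by omega) (by omega) (by omega)
      (by omega) (by omega)
      (cell_mem_of_mem_interior hx _ ⟨m1.1, m1.2, x3, x4⟩)
      (cell_mem_of_mem_interior hx _ ⟨x1, x2, m2.1, m2.2⟩)
      (cell_mem_of_mem_interior hx _ ⟨m1.1, m1.2, m2.1, m2.2⟩)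
      (by
        intro k
        rw [← dbl_affine V c (H1 c hc), ← dbl_affine V d (H1 d hd),
          ← foldMap_affine V c (H1 c hc) x hxc, ← foldMap_affine V d (H1 d hd) y hyd, hxy])
    have q0 : dbl (y 0) = dbl (x 0) := by
      have a := dbl_int_add c.1 (x 0 - c.1)
      have b := dbl_int_add d.1 (y 0 - d.1)
      rw [add_sub_cancel] at a b
      omega
    have q1 : dbl (y 1) = dbl (x 1) := by
      have a := dbl_int_add c.2 (x 1 - c.2)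
      have b := dbl_int_add d.2 (y 1 - d.2)
      rw [add_sub_cancel] at a b
      omega
    have hyc : y ∈ unitSq c :=
      ⟨(mem_Icc_of_dbl_eq x1 x2 q0).1, (mem_Icc_of_dbl_eq x1 x2 q0).2,
        (mem_Icc_of_dbl_eq x3 x4 q1).1, (mem_Icc_of_dbl_eq x3 x4 q1).2⟩
    have := hiso c hc y hyc x hxc
    rw [hxy, edist_self] at this
    exact edist_eq_zero.1 this.symm

end Pool.Agent.Lib.MP_4a7072_co
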