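import Pool.Agent.Lib.MP_4a7072_co.DD

/-!
The curve of unit steps of the design for an odd shorter leg.
-/

set_option autoImplicit false
set_option linter.unnecessarySeqFocus false

namespace Pool.Agent.Lib.MP_4a7072_co
namespace NP

/-- A periodic curve of unit steps with a hub. -/
structure GC (a M t : ℤ) where
  r : ℤ → Dir
  f : ℤ → Pt
  Q : ℤ
  B : ℤ
  J : ℤ
  ord : 0 < B ∧ B ≤ -J ∧ 2 * B - J ≤ Q
  step : ∀ l, f (l + 1) = f l + dv (r l)
  inj : ∀ l l', (f l).1 = (f l').1 → (f l).2 = (f l').2 → l = l'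
  per : ∀ l, f (l + 2 * Q) = f l + (4 * a, 0)
  f0 : (f 0).1 = -a - M ∧ (f 0).2 = -2 * a
  fB : (f B).1 = -a ∧ (f B).2 = -2 * a
  fJ : (f J).1 = -2 * a - t ∧ (f J).2 = -a + t
  fJ' : (f (J - 2 * B)).1 = -2 * a - t - M ∧ (f (J - 2 * B)).2 = -a + t + M
  sA : ∀ i, 0 ≤ i → i ≤ Q →
    (f (-i)).1 = -3 * a - M - (f i).2 ∧ (f (-i)).2 = (f i).1 - a + M
  sB : ∀ i, 0 ≤ i → i ≤ Q →
    (f (B - i)).1 = -3 * a - (f (B + i)).2 ∧ (f (B - i)).2 = (f (B + i)).1 - a
  par : ∀ l, (f l).1 % 2 = 1 ∨ (f l).2 % 2 = 0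
  strip : ∀ l, -4 * a - M ≤ 2 * (f l).2 ∧ 2 * (f l).2 ≤ M
  mP : ∀ l, (-Q ≤ l → -3 * a - M ≤ (f l).1 + (f l).2) ∧ (l ≤ B → (f l).1 + (f l).2 ≤ -3 * a)
  mN : ∀ l, (0 ≤ l → (f l).2 - (f l).1 ≤ -a + M) ∧ (l ≤ 0 → -a + M ≤ (f l).2 - (f l).1) ∧
    (l ≤ Q → -a ≤ (f l).2 - (f l).1) ∧ (-Q ≤ l → (f l).2 - (f l).1 ≤ 3 * a + M)
  mL : ∀ l, (B - Q ≤ l → (f l).2 - (f l).1 ≤ 3 * a) ∧ (l ≤ B - Q → 3 * a ≤ (f l).2 - (f l).1)
  mJ : ∀ l, (J ≤ l → (f l).2 - (f l).1 ≤ a + 2 * t) ∧ (l ≤ J → a + 2 * t ≤ (f l).2 - (f l).1) ∧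
    (J - 2 * B ≤ l → (f l).2 - (f l).1 ≤ a + 2 * t + 2 * M)

namespace WD

variable {n m : ℤ} (W : WD 1 n m)

theorem sA {i : ℤ} (a : 0 ≤ i) (b : i ≤ W.q) :
    (W.w (-i)).1 = -(W.w i).2 ∧ (W.w (-i)).2 = (W.w i).1 := by
  rw [W.symA i a b]
  exact ⟨rfl, rfl⟩

theorem sB {i : ℤ} (a : 0 ≤ i) (b : i ≤ W.q) :
    (W.w (W.β - i)).1 = 2 * m - (W.w (W.β + i)).2 ∧ (W.w (W.β - i)).2 = (W.w (W.β + i)).1 := by
  have := W.symB i a b
  simp only [rotP1, Prod.ext_iff, Prod.fst_sub, Prod.snd_sub] at this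
  omega

theorem p1 (l : ℤ) : (W.w (l + 2 * W.q)).1 = (W.w l).1 + n ∧
    (W.w (l + 2 * W.q)).2 = (W.w l).2 + n := by
  rw [W.per]
  simp

theorem inner {j : ℤ} (a : 0 ≤ j) (b : W.β + j ≤ W.q) :
    (W.w (j + 2 * W.β)).1 = (W.w j).1 ∧ (W.w (j + 2 * W.β)).2 = (W.w j).2 + 2 * m := by
  have := W.hβ
  have h1 := W.sB (i := W.β + j) (by omega) b
  have h2 := W.sA a (by omega)
  rw [show W.β - (W.β + j) = -j by ring, show W.β + (W.β + j) = j + 2 * W.β by ring] at h1
  omega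

/-- A point of the right side of the rectangle that separates the lower part of the curve from
the upper part. -/
def Chk (c h : ℤ) : Prop := 0 ≤ c ∧ c ≤ W.q ∧ (W.w c).1 = m ∧ (W.w c).2 = h ∧
  ∀ l, 0 ≤ l → l ≤ W.q → (l ≤ c → (W.w l).2 ≤ h) ∧ (c ≤ l → h ≤ (W.w l).2)

theorem chk0 : W.Chk W.β m := by
  have := W.hβ
  refine ⟨by omega, by omega, by rw [W.wβ], by rw [W.wβ], fun l a b => ?_⟩
  have := W.box l a b
  omega

variable {W} in
theorem Chk.next {c h : ℤ} (g : W.Chk c h) (hm : 0 < m) (hn : h + 2 * m < n) :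
    W.Chk (c + 2 * W.β) (h + 2 * m) := by
  obtain ⟨g1, g2, g3, g4, g5⟩ := g
  have := W.hβ
  have b := W.box c g1 g2
  have i := W.inner g1 (by omega)
  have k : c + 2 * W.β ≤ W.q := by
    by_contra k
    have h1 := W.sA (i := 2 * W.q - (c + 2 * W.β)) (by omega) (by omega)
    have h2 := W.p1 (-(2 * W.q - (c + 2 * W.β)))
    have h3 := W.box (2 * W.q - (c + 2 * W.β)) (by omega) (by omega)
    rw [show -(2 * W.q - (c + 2 * W.β)) + 2 * W.q = c + 2 * W.β by ring] at h2
    omega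
  refine ⟨by omega, k, by omega, by omega, fun l a a' => ?_⟩
  by_cases e : 2 * W.β ≤ l
  · have h1 := W.inner (j := l - 2 * W.β) (by omega) (by omega)
    have h2 := g5 (l - 2 * W.β) (by omega) (by omega)
    rw [sub_add_cancel] at h1
    omega
  · have h1 := W.box l a a'
    by_cases e' : l ≤ W.β
    · omega
    · have h2 := W.sB (i := l - W.β) (by omega) (by omega)
      have h3 := W.box (W.β - (l - W.β)) (by omega) (by omega)
      rw [add_sub_cancel] at h2
      omega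

variable {W} in
theorem Chk.refl {c h : ℤ} (g : W.Chk c h) : W.Chk (W.q - c) (n - h) := by
  obtain ⟨g1, g2, g3, g4, g5⟩ := g
  have := W.refl c g1 g2
  refine ⟨by omega, by omega, by omega, by omega, fun l a b => ?_⟩
  have h1 := W.refl l a b
  have h2 := g5 (W.q - l) (by omega) (by omega)
  omega

theorem chk (hm : 0 < m) (k : ℕ) (hk : m + 2 * (k * m) < n) : ∃ c, W.Chk c (m + 2 * (k * m)) := by
  induction k with
  | zero => exact ⟨_, by simpa using W.chk0⟩
  | succ k ih =>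
    rw [Nat.cast_succ, add_mul, one_mul] at hk ⊢
    obtain ⟨c, g⟩ := ih (by omega)
    exact ⟨_, by simpa only [mul_add, add_assoc] using g.next hm (by omega)⟩

theorem dec (hn : 0 < n) (l : ℤ) : ∃ r, -W.q ≤ r ∧ r ≤ W.q ∧
    (W.w l).2 - (W.w l).1 = (W.w r).2 - (W.w r).1 ∧ (l = r ∨
      (W.q < l ∧ (W.w r).1 + n ≤ (W.w l).1) ∨ (l < -W.q ∧ (W.w l).1 ≤ (W.w r).1 - n)) := by
  have hq : 0 < W.q := by have := W.hβ; omega
  by_cases h0 : l = W.q
  · exact ⟨l, by omega, by omega, rfl, .inl rfl⟩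
  have h1 := Int.mul_ediv_add_emod (l + W.q) (2 * W.q)
  have h2 := Int.emod_nonneg (l + W.q) (show 2 * W.q ≠ 0 by omega)
  have h3 := Int.emod_lt_of_pos (l + W.q) (show 0 < 2 * W.q by omega)
  generalize (l + W.q) / (2 * W.q) = s at h1
  obtain ⟨r, a, b, rfl⟩ : ∃ r, -W.q ≤ r ∧ r < W.q ∧ l = r + 2 * W.q * s :=
    ⟨(l + W.q) % (2 * W.q) - W.q, by omega, by omega, by omega⟩
  refine ⟨r, a, b.le, ?_, ?_⟩ <;> rw [per_mul W.per]
  · simp
  · simp only [Prod.fst_add, Prod.smul_fst, smul_eq_mul]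
    rcases lt_trichotomy s 0 with c | rfl | c
    · exact .inr (.inr ⟨by nlinarith, by nlinarith⟩)
    · exact .inl (by simp)
    · exact .inr (.inl ⟨lt_of_le_of_ne (by nlinarith) (Ne.symm h0), by nlinarith⟩)

theorem glob (hm : 0 < m) (hn : m < n) (l : ℤ) :
    (-m ≤ (W.w l).2 - (W.w l).1 ∧ (W.w l).2 - (W.w l).1 ≤ n + m) ∧
    ((-W.q ≤ l → 0 ≤ (W.w l).2) ∧ (l ≤ W.β → (W.w l).2 ≤ m)) ∧
    (0 ≤ l → 0 ≤ (W.w l).1) ∧ (l ≤ 0 → (W.w l).1 ≤ 0) ∧ (l ≤ W.q → (W.w l).1 ≤ m) ∧
    (-W.q ≤ l → -n ≤ (W.w l).1) := by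
  have := W.hβ
  obtain ⟨r, a, b, e, h⟩ := W.dec (by omega) l
  rcases lt_trichotomy r 0 with c | rfl | c
  · have h1 := W.sA (i := -r) (by omega) (by omega)
    have h2 := W.box (-r) (by omega) (by omega)
    rw [neg_neg] at h1
    rcases h with rfl | h | h <;> omega
  · rw [W.w0] at e h
    rcases h with rfl | h | h
    · rw [W.w0]
      simp only
      omega
    all_goals
      simp only at e h
      omega
  · have h2 := W.box r (by omega) (by omega)
    rcases h with rfl | h | h <;> omega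

variable {W} in
theorem Chk.glob {c h : ℤ} (g : W.Chk c h) (hm : 0 < m) (hn : m < n) (hh : h ≤ n - m) (l : ℤ) :
    (-c ≤ l → -h ≤ (W.w l).1) ∧ (l ≤ -c → (W.w l).1 ≤ -h) := by
  obtain ⟨g1, g2, g3, g4, g5⟩ := g
  have := W.box c g1 g2
  have := W.glob hm hn l
  obtain ⟨r, a, b, e, h⟩ := W.dec (by omega) l
  have := W.glob hm hn r
  rcases h with rfl | h | h
  · by_cases c : l ≤ 0
    · have h1 := W.sA (i := -l) (by omega) (by omega)
      have h2 := g5 (-l) (by omega) (by omega)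
      rw [neg_neg] at h1
      have := W.w0
      by_cases c' : l = 0
      · subst c'
        omega
      · omega
    · omega
  · omega
  · omega

theorem stc (l : ℤ) : ((W.w (l + 1)).1 = (W.w l).1 + 1 ∨ (W.w (l + 1)).1 = (W.w l).1 - 1) ∧
    ((W.w (l + 1)).2 = (W.w l).2 + 1 ∨ (W.w (l + 1)).2 = (W.w l).2 - 1) := by
  have := Stp.coord (.inr rfl) (⟨_, W.step l⟩ : Stp 1 _ _)
  omega

theorem parG (l : ℤ) : ((W.w l).1 + (W.w l).2) % 2 = 0 := by
  induction l with
  | zero => rw [W.w0]; rfl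
  | succ l ih => have := W.stc l; omega
  | pred l ih =>
    have := W.stc (-(l : ℤ) - 1)
    rw [sub_add_cancel] at this
    omega

variable (Z : Pt)

/-- The curve turned by an eighth of a turn and stretched. -/
def cp (l : ℤ) : Pt := (Z.1 + (W.w l).1 + (W.w l).2, Z.2 + (W.w l).2 - (W.w l).1)

/-- The curve of unit steps. -/
def fc (t : ℤ) : Pt := W.cp Z (t / 2) + (t % 2) • dv (W.d (t / 2))

theorem cp_step (l : ℤ) : W.cp Z (l + 1) = W.cp Z l + (2 : ℤ) • dv (W.d l) := by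
  rw [cp, cp, W.step]
  rcases dir_cases (W.d l) with h | h | h | h <;> rw [h] <;> ext <;> simp [stepv, dv] <;> ring

theorem fc_even (l : ℤ) : W.fc Z (2 * l) = W.cp Z l := by
  rw [fc, show 2 * l / 2 = l by omega, show 2 * l % 2 = 0 by omega, zero_smul, add_zero]

theorem fc_odd (l : ℤ) : W.fc Z (2 * l + 1) = W.cp Z l + dv (W.d l) := by
  rw [fc, show (2 * l + 1) / 2 = l by omega, show (2 * l + 1) % 2 = 1 by omega, one_smul]

theorem fc_step (t : ℤ) : W.fc Z (t + 1) = W.fc Z t + dv (W.d (t / 2)) := by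
  obtain ⟨l, rfl | rfl⟩ : ∃ l, t = 2 * l ∨ t = 2 * l + 1 := ⟨t / 2, by omega⟩
  · rw [fc_odd, fc_even, show 2 * l / 2 = l by omega]
  · rw [show 2 * l + 1 + 1 = 2 * (l + 1) by ring, fc_even, fc_odd, cp_step,
      show (2 * l + 1) / 2 = l by omega, two_smul, add_assoc]

theorem ev (l : ℤ) : (W.fc Z (2 * l)).1 = Z.1 + (W.w l).1 + (W.w l).2 ∧
    (W.fc Z (2 * l)).2 = Z.2 + (W.w l).2 - (W.w l).1 := by
  rw [fc_even]
  exact ⟨rfl, rfl⟩

theorem od (l : ℤ) :
    2 * (W.fc Z (2 * l + 1)).1 =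
      2 * Z.1 + ((W.w l).1 + (W.w l).2) + ((W.w (l + 1)).1 + (W.w (l + 1)).2) ∧
    2 * (W.fc Z (2 * l + 1)).2 =
      2 * Z.2 + ((W.w l).2 - (W.w l).1) + ((W.w (l + 1)).2 - (W.w (l + 1)).1) := by
  have h := W.cp_step Z l
  rw [fc_odd]
  simp only [cp, Prod.ext_iff, Prod.fst_add, Prod.snd_add, Prod.smul_fst, Prod.smul_snd,
    smul_eq_mul] at h ⊢
  omega

theorem fc_inj (t t' : ℤ) (h1 : (W.fc Z t).1 = (W.fc Z t').1) (h2 : (W.fc Z t).2 = (W.fc Z t').2) :
    t = t' := by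
  have i : ∀ l l', (W.w l).1 = (W.w l').1 → (W.w l).2 = (W.w l').2 → l = l' := fun l l' a b =>
    W.inj l l' (Prod.ext a b)
  obtain ⟨l, rfl | rfl⟩ : ∃ l, t = 2 * l ∨ t = 2 * l + 1 := ⟨t / 2, by omega⟩ <;>
    obtain ⟨l', rfl | rfl⟩ : ∃ l, t' = 2 * l ∨ t' = 2 * l + 1 := ⟨t' / 2, by omega⟩
  · have := W.ev Z l
    have := W.ev Z l'
    have := i l l' (by omega) (by omega)
    omega
  · have := W.ev Z l
    have := W.od Z l'
    have := W.stc l'
    have := W.parG l
    have := W.parG l'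
    omega
  · have := W.od Z l
    have := W.ev Z l'
    have := W.stc l
    have := W.parG l
    have := W.parG l'
    omega
  · have a := W.od Z l
    have b := W.od Z l'
    have c := W.stc l
    have d := W.stc l'
    have e := W.parG l
    have g := W.parG l'
    have : ((W.w l).1 = (W.w l').1 ∧ (W.w l).2 = (W.w l').2) ∨
        ((W.w l).1 = (W.w (l' + 1)).1 ∧ (W.w l).2 = (W.w (l' + 1)).2 ∧
          (W.w (l + 1)).1 = (W.w l').1 ∧ (W.w (l + 1)).2 = (W.w l').2) := by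
      rcases c with ⟨c | c, c' | c'⟩ <;> rcases d with ⟨d | d, d' | d'⟩ <;> omega
    rcases this with h | h
    · rw [i l l' h.1 h.2]
    · have := i _ _ h.1 h.2.1
      have := i _ _ h.2.2.1 h.2.2.2
      omega

end WD

theorem exists_GC (a m t : ℤ) (k : ℕ) (hm : 0 < m) (ha : a % 2 = 1) (hc : IsCoprime (2 * a) m)
    (ht : 0 < t ∧ 2 * m + t ≤ a) (hk : a + t = 2 * m + 2 * (k * m) ∨ a - t = 2 * (k * m)) :
    Nonempty (GC a (2 * m) t) := by
  obtain ⟨W⟩ := exists_WD 1 (2 * a) m hm (by omega) hc (.inr ⟨rfl, by omega⟩)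
  have hβ := W.hβ
  obtain ⟨c, g⟩ : ∃ c, W.Chk c (a + t - m) := by
    rcases hk with h | h
    · obtain ⟨c, g⟩ := W.chk hm k (by omega)
      exact ⟨c, by rwa [show m + 2 * (k * m) = a + t - m by omega] at g⟩
    · obtain ⟨c, g⟩ := W.chk hm k (by omega)
      exact ⟨_, by simpa only [show 2 * a - (m + 2 * (k * m)) = a + t - m by omega] using g.refl⟩
  have g' := g.next hm (by omega)
  have gL := W.chk0.refl
  have G := W.glob hm (by omega)
  have G1 := g.glob hm (by omega) (by omega)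
  have G2 := g'.glob hm (by omega) (by omega)
  have G3 := gL.glob hm (by omega) (by omega)
  have cs : ∀ t : ℤ, ∃ l, t = 2 * l ∨ t = 2 * l + 1 := fun t => ⟨t / 2, by omega⟩
  have ev := W.ev (-a - 2 * m, -2 * a)
  have od := W.od (-a - 2 * m, -2 * a)
  simp only at ev od
  refine ⟨{
    r := fun t => W.d (t / 2)
    f := W.fc (-a - 2 * m, -2 * a)
    Q := 2 * W.q
    B := 2 * W.β
    J := 2 * -c
    ord := ?_
    step := W.fc_step _
    inj := W.fc_inj _
    per := fun l => ?_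
    f0 := ?_
    fB := ?_
    fJ := ?_
    fJ' := ?_
    sA := fun i b b' => ?_
    sB := fun i b b' => ?_
    par := fun l => ?_
    strip := fun l => ?_
    mP := fun l => ?_
    mN := fun l => ?_
    mL := fun l => ?_
    mJ := fun l => ?_ }⟩
  · have := W.box c g.1 g.2.1
    have := g.2.2.2.1
    have := g'.2.1
    omega
  · obtain ⟨l, rfl | rfl⟩ := cs l
    · have := ev l
      have := ev (l + 2 * W.q)
      have := W.p1 l
      rw [← mul_add]
      ext <;> simp only [Prod.fst_add, Prod.snd_add] <;> omega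
    · have := od l
      have e := od (l + 2 * W.q)
      have := W.p1 l
      have := W.p1 (l + 1)
      rw [add_right_comm l] at e
      rw [show 2 * l + 1 + 2 * (2 * W.q) = 2 * (l + 2 * W.q) + 1 by ring]
      ext <;> simp only [Prod.fst_add, Prod.snd_add] <;> omega
  · have := ev 0
    rw [mul_zero, W.w0] at this
    simp only at this
    omega
  · have := ev W.β
    rw [W.wβ] at this
    simp only at this
    omega
  · have := ev (-c)
    have := W.sA g.1 g.2.1
    have := g.2.2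
    omega
  · have := ev (-(c + 2 * W.β))
    have := W.sA g'.1 g'.2.1
    have := g'.2.2
    rw [show 2 * -c - 2 * (2 * W.β) = 2 * -(c + 2 * W.β) by ring]
    omega
  · obtain ⟨l, rfl | rfl⟩ := cs i
    · have := ev l
      have := ev (-l)
      have := W.sA (i := l) (by omega) (by omega)
      rw [← mul_neg]
      omega
    · have := od l
      have e := od (-(l + 1))
      have := W.sA (i := l) (by omega) (by omega)
      have := W.sA (i := l + 1) (by omega) (by omega)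
      rw [show -(l + 1) + 1 = -l by ring] at e
      rw [show -(2 * l + 1) = 2 * -(l + 1) + 1 by ring]
      omega
  · obtain ⟨l, rfl | rfl⟩ := cs i
    · have := ev (W.β + l)
      have := ev (W.β - l)
      have := W.sB (i := l) (by omega) (by omega)
      rw [← mul_sub, ← mul_add]
      omega
    · have e1 := od (W.β + l)
      have e := od (W.β - (l + 1))
      have := W.sB (i := l) (by omega) (by omega)
      have := W.sB (i := l + 1) (by omega) (by omega)
      rw [show W.β - (l + 1) + 1 = W.β - l by ring] at e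
      rw [add_assoc W.β] at e1
      rw [show 2 * W.β - (2 * l + 1) = 2 * (W.β - (l + 1)) + 1 by ring,
        show 2 * W.β + (2 * l + 1) = 2 * (W.β + l) + 1 by ring]
      omega
  · obtain ⟨l, rfl | rfl⟩ := cs l
    · have := ev l
      have := W.parG l
      omega
    · have := od l
      have := W.parG l
      have := W.stc l
      omega
  · obtain ⟨l, rfl | rfl⟩ := cs l
    · have := ev l
      have := (G l).1
      omega
    · have := od l
      have := (G l).1
      have := (G (l + 1)).1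
      omega
  · obtain ⟨l, rfl | rfl⟩ := cs l
    · have := ev l
      have := (G l).2.1
      omega
    · have := od l
      have := (G l).2.1
      have := (G (l + 1)).2.1
      omega
  · obtain ⟨l, rfl | rfl⟩ := cs l
    · have := ev l
      have := (G l).2.2
      omega
    · have := od l
      have := (G l).2.2
      have := (G (l + 1)).2.2
      refine ⟨fun _ => ?_, fun _ => ?_, fun _ => ?_, fun _ => ?_⟩ <;> omega
  · obtain ⟨l, rfl | rfl⟩ := cs l
    · have := ev l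
      have := G3 l
      omega
    · have := od l
      have := G3 l
      have := G3 (l + 1)
      omega
  · obtain ⟨l, rfl | rfl⟩ := cs l
    · have := ev l
      have := G1 l
      have := G2 l
      omega
    · have := od l
      have := G1 l
      have := G1 (l + 1)
      have := G2 l
      have := G2 (l + 1)
      refine ⟨fun _ => ?_, fun _ => ?_, fun _ => ?_⟩ <;> omega

end NP
end Pool.Agent.Lib.MP_4a7072_co
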