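import Pool.Agent.Lib.MP_4a7072_co.GSimple
import Pool.Agent.Lib.MP_4a7072_co.GFine

/-!
Existence of the design for an odd shorter leg `a` and a longer leg that lies, modulo `4 a`,
between `2 a` and `3 a`.
-/

set_option autoImplicit false
set_option linter.unnecessarySeqFocus false

namespace Pool.Agent.Lib.MP_4a7072_co
namespace NP

theorem seg_sym2 {E : ℤ → List Dir} {c n : ℤ} {s : Dir}
    (h : ∀ t, 0 ≤ t → t < n → E (c + t) = back s (E (c - 1 - t))) (i j i' j' : ℤ)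
    (g : c ≤ i' ∧ i' ≤ j' ∧ j' ≤ c + n ∧ i + j' = 2 * c ∧ j + i' = 2 * c) :
    seg E i' j' = back s (seg E i j) := by
  have h1 := seg_sym (n := j' - c) (by omega) fun t a b => h t a (by omega)
  have h2 := seg_sym (n := i' - c) (by omega) fun t a b => h t a (by omega)
  rw [add_sub_cancel, show c - (j' - c) = i by omega] at h1
  rw [add_sub_cancel, show c - (i' - c) = j by omega] at h2
  rw [seg_append E (j := i') g.1 g.2.1, seg_append E (i := i) (j := j) (by omega) (by omega),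
    back_append, h2] at h1
  exact List.append_cancel_left h1

namespace GC

variable {a M t : ℤ} (C : GC a M t)

/-- The steps of the curve between the indices `i` and `j`. -/
def S (i j : ℤ) : List Dir := seg (fun l => [C.r l]) i j

/-- The point `(X, Y)` lies on the curve between the indices `i` and `j`. -/
def On (i j X Y : ℤ) : Prop := ∃ l, i ≤ l ∧ l ≤ j ∧ (C.f l).1 = X ∧ (C.f l).2 = Y

theorem arc0 {i j : ℤ} (h : i ≤ j) : CArc (C.f i) (C.S i j) (C.f j) (C.On i j) := by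
  unfold S
  induction j, h using Int.leInduction with
  | base =>
    rw [seg_self]
    exact Arc.nil ⟨i, le_rfl, le_rfl, rfl, rfl⟩
  | succ j hj ih =>
    rw [seg_succ _ hj]
    have s := C.step j
    have s' := s
    simp only [Prod.ext_iff, Prod.fst_add, Prod.snd_add] at s'
    refine (ih.append (CArc.one _ _) ?_).mv rfl s.symm ?_
    · rintro X Y ⟨t, a, b, c, e⟩ (g | g)
      · exact g
      · have := C.inj t (j + 1) (by omega) (by omega)
        omega
    · rintro X Y (⟨t, a, b, c⟩ | g | g)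
      · exact ⟨t, a, by omega, c⟩
      · exact ⟨j, hj, by omega, g.1.symm, g.2.symm⟩
      · exact ⟨j + 1, by omega, le_rfl, by omega, by omega⟩

theorem arc {i j x y x' y' : ℤ} (h : i ≤ j) (e : (C.f i).1 = x ∧ (C.f i).2 = y)
    (e' : (C.f j).1 = x' ∧ (C.f j).2 = y') : CArc (x, y) (C.S i j) (x', y') (C.On i j) :=
  (C.arc0 h).mv (Prod.ext e.1 e.2) (Prod.ext e'.1 e'.2) fun _ _ g => g

theorem app (i j l : ℤ) (h : i ≤ j ∧ j ≤ l) : C.S i l = C.S i j ++ C.S j l := seg_append _ h.1 h.2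

theorem S_ne {i j : ℤ} (h : i < j) : C.S i j ≠ [] := seg_ne (fun _ => by simp) h

theorem p1 (l l' : ℤ) (h : l' = l + 2 * C.Q) :
    (C.f l').1 = (C.f l).1 + 4 * a ∧ (C.f l').2 = (C.f l).2 := by
  rw [h, C.per]
  simp

theorem S_per (i j i' j' : ℤ) (h : i' = i + 2 * C.Q ∧ j' = j + 2 * C.Q) : C.S i' j' = C.S i j := by
  refine seg_per (fun l => ?_) _ _ _ _ h.1 h.2
  have h := C.step (l + 2 * C.Q)
  rw [add_right_comm, C.per, C.per, C.step, add_right_comm, add_right_inj] at h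
  rw [(by decide : ∀ d d' : Dir, dv d = dv d' → d = d') _ _ h]

theorem turn1 {c x y : ℤ} (h : ∀ i, 0 ≤ i → i ≤ C.Q →
      (C.f (c + i)).1 = x - (C.f (c - i)).2 ∧ (C.f (c + i)).2 = (C.f (c - i)).1 + y)
    (i j i' j' : ℤ) (g : c ≤ i' ∧ i' ≤ j' ∧ j' ≤ c + C.Q ∧ i + j' = 2 * c ∧ j + i' = 2 * c) :
    C.S i' j' = back 1 (C.S i j) := by
  refine seg_sym2 (fun l a b => ?_) _ _ _ _ g
  have h0 := h l a b.le
  have h1 := h (l + 1) (by omega) b
  have s1 := C.step (c + l)
  have s2 := C.step (c - 1 - l)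
  rw [show c - 1 - l + 1 = c - l by ring] at s2
  rw [show c - (l + 1) = c - 1 - l by ring, ← add_assoc] at h1
  rcases dir_cases (C.r (c + l)) with e | e | e | e <;>
    rcases dir_cases (C.r (c - 1 - l)) with e' | e' | e' | e' <;> rw [e] at s1 ⊢ <;>
    rw [e'] at s2 ⊢ <;> first
      | rfl
      | (simp [Prod.ext_iff, dv] at s1 s2; omega)

theorem turn3 {c x y : ℤ} (h : ∀ i, 0 ≤ i → i ≤ C.Q →
      (C.f (c - i)).1 = x - (C.f (c + i)).2 ∧ (C.f (c - i)).2 = (C.f (c + i)).1 + y)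
    (i j i' j' : ℤ) (g : c ≤ i' ∧ i' ≤ j' ∧ j' ≤ c + C.Q ∧ i + j' = 2 * c ∧ j + i' = 2 * c) :
    C.S i' j' = back 3 (C.S i j) := by
  refine seg_sym2 (fun l a b => ?_) _ _ _ _ g
  have h0 := h l a b.le
  have h1 := h (l + 1) (by omega) b
  have s1 := C.step (c + l)
  have s2 := C.step (c - 1 - l)
  rw [show c - 1 - l + 1 = c - l by ring] at s2
  rw [show c - (l + 1) = c - 1 - l by ring, ← add_assoc] at h1
  rcases dir_cases (C.r (c + l)) with e | e | e | e <;>
    rcases dir_cases (C.r (c - 1 - l)) with e' | e' | e' | e' <;> rw [e] at s1 ⊢ <;>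
    rw [e'] at s2 ⊢ <;> first
      | rfl
      | (simp [Prod.ext_iff, dv] at s1 s2; omega)

theorem cB (l l' : ℤ) (h : C.B ≤ l ∧ l ≤ C.B + C.Q ∧ l + l' = 2 * C.B) :
    (C.f l').1 = -3 * a - (C.f l).2 ∧ (C.f l').2 = (C.f l).1 - a := by
  have := C.sB (l - C.B) (by omega) (by omega)
  rwa [add_sub_cancel, show C.B - (l - C.B) = l' by omega] at this

theorem cL (l l' : ℤ) (h : C.B - C.Q ≤ l ∧ l ≤ C.B ∧ l + l' = 2 * (C.B - C.Q)) :
    (C.f l).1 = -3 * a - (C.f l').2 ∧ (C.f l).2 = (C.f l').1 + 3 * a := by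
  have := C.cB (l' + 2 * C.Q) l (by omega)
  have := C.p1 l' _ rfl
  omega

end GC

theorem mkG (p : PG) (C : GC p.a p.M p.t) (o : ℤ)
    (ho : (p.b = 2 * p.a + p.M ∧ o = 0) ∨ (6 * p.a + p.M ≤ p.b ∧ o ≤ -2 * C.Q))
    (hp : ∀ l, (C.f (l + o)).1 = (C.f l).1 + 2 * p.a + p.M - p.b ∧ (C.f (l + o)).2 = (C.f l).2) :
    Nonempty (DG p) := by
  have u := p.h
  have ord := C.ord
  have fJ := C.fJ
  have fB := C.fB
  have cA : ∀ l l', o ≤ l ∧ l ≤ o + C.Q ∧ l + l' = 2 * o →
      (C.f l').1 = -p.a - p.b - (C.f l).2 ∧ (C.f l').2 = (C.f l).1 + (p.b - 3 * p.a) :=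
    fun l l' h => by
      have := C.sA (l - o) (by omega) (by omega)
      have h1 := hp (l - o)
      have h2 := hp (-(l - o))
      rw [sub_add_cancel] at h1
      rw [show -(l - o) + o = l' by omega] at h2
      omega
  have cC : ∀ l l', o - C.Q ≤ l ∧ l ≤ o ∧ l + l' = 2 * (o - C.Q) →
      (C.f l).1 = -p.a - p.b - (C.f l').2 ∧ (C.f l).2 = (C.f l').1 + (p.a + p.b) :=
    fun l l' h => by
      have := cA (l' + 2 * C.Q) l (by omega)
      have := C.p1 l' _ rfl
      omega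
  have tA := C.turn3 (c := o) fun i a b => cA _ _ (by omega)
  have tB := C.turn3 (c := C.B) (y := -p.a) fun i a b => C.cB _ _ (by omega)
  have tC := C.turn1 (c := o - C.Q) fun i a b => cC _ _ (by omega)
  have tL := C.turn1 (c := C.B - C.Q) fun i a b => C.cL _ _ (by omega)
  have fo : (C.f o).1 = p.a - p.b ∧ (C.f o).2 = -2 * p.a := by
    have := hp 0
    have := C.f0
    rw [zero_add] at *
    omega
  have fC : (C.f (o - C.Q)).1 = -p.a - p.b ∧ (C.f (o - C.Q)).2 = 0 := by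
    have := cC (o - C.Q) (o - C.Q) (by omega)
    omega
  have fL : (C.f (C.B - C.Q)).1 = -3 * p.a ∧ (C.f (C.B - C.Q)).2 = 0 := by
    have := C.cL (C.B - C.Q) (C.B - C.Q) (by omega)
    omega
  have fV : (C.f (2 * C.B - C.J)).1 = p.t ∧ (C.f (2 * C.B - C.J)).2 = -p.a + p.t := by
    have := C.cB (2 * C.B - C.J) C.J (by omega)
    omega
  have mo : ∀ l, (o - C.Q ≤ l → -p.a - p.b ≤ (C.f l).1 + (C.f l).2) ∧
      (l ≤ o → (C.f l).1 + (C.f l).2 ≤ -p.a - p.b + p.M) ∧
      (o + C.Q ≤ l → 3 * p.a - p.b ≤ (C.f l).1 + (C.f l).2) ∧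
      (o ≤ l → (C.f l).2 - (C.f l).1 ≤ p.b - 3 * p.a) ∧
      (l ≤ o + C.Q → p.b - 3 * p.a - p.M ≤ (C.f l).2 - (C.f l).1) ∧
      (o - C.Q ≤ l → (C.f l).2 - (C.f l).1 ≤ p.a + p.b) := fun l => by
    have h := hp (l - o)
    rw [sub_add_cancel] at h
    have := C.mP (l - o)
    have := C.mN (l - o)
    have := (C.mP (l - o - 2 * C.Q)).1
    have := C.p1 (l - o - 2 * C.Q) (l - o) (by ring)
    refine ⟨fun _ => ?_, fun _ => ?_, fun _ => ?_, fun _ => ?_, fun _ => ?_, fun _ => ?_⟩ <;> omega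
  have ez : ∀ l, C.J ≤ l → l ≤ C.B → p.EZ (C.f l).1 (C.f l).2 := fun l a b => by
    have := C.par l
    have := C.mP l
    have := C.mN l
    have := C.mJ l
    exact ⟨by omega⟩
  have ez' : ∀ l, C.B ≤ l → l ≤ 2 * C.B - C.J →
      p.EZ (-3 * p.a - (C.f l).2) ((C.f l).1 - p.a) := fun l a b => by
    have := C.cB l (2 * C.B - l) (by omega)
    exact sCg (ez (2 * C.B - l) (by omega) (by omega)) this.1 this.2
  have ed : ∀ l, o - C.Q ≤ l → l ≤ C.J → p.ED (C.f l).1 (C.f l).2 := fun l a b => by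
    have := C.par l
    have := C.strip l
    have := C.mP l
    have := C.mJ l
    have := mo l
    exact ⟨by omega⟩
  have eZ : C.S C.J C.B ++ back 3 (C.S C.J C.B) = C.S C.J (2 * C.B - C.J) := by
    rw [C.app C.J C.B (2 * C.B - C.J) (by omega), tB C.J C.B C.B _ (by omega)]
  have dZ : dsp (C.S C.J C.B) = (p.a + p.t, -p.a - p.t) := by
    rw [(C.arc (by omega) fJ fB).dsp_eq]
    ext <;> simp <;> ring
  have aV : CArc (-2 * p.a - p.t, -p.a + p.t) (C.S C.J C.B ++ back 3 (C.S C.J C.B))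
      (p.t, -p.a + p.t) p.EV := by
    rw [eZ]
    refine (C.arc (by omega) fJ fV).mono ?_
    rintro _ _ ⟨l, a, b, rfl, rfl⟩
    exact (le_total l C.B).imp (ez l a) fun c => ez' l c b
  have aD : CArc (-p.a - p.b, 0) (C.S (o - C.Q) (C.B - C.Q) ++ C.S (C.B - C.Q) C.J)
      (-2 * p.a - p.t, -p.a + p.t) (C.On (o - C.Q) C.J) := by
    rw [← C.app _ _ _ (by omega)]
    exact C.arc (by omega) fC fJ
  have ys : ∀ X Y, C.On (C.B - C.Q) C.J X Y → p.EY X Y := by
    rintro _ _ ⟨l, a, b, rfl, rfl⟩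
    have := C.par l
    have := C.mP l
    have := C.mL l
    have := C.mJ l
    exact ⟨by omega⟩
  have ds : ∀ X Y, C.On (o - C.Q) C.J X Y → p.ED X Y := by
    rintro _ _ ⟨l, a, b, rfl, rfl⟩
    exact ed l a b
  have fY : ∀ X Y, C.On (C.B - C.Q) C.J X Y →
      C.On (C.B - C.Q) C.J (-3 * p.a - Y) (X + 3 * p.a) → Y = 0 := by
    rintro _ _ ⟨l, a, b, rfl, rfl⟩ ⟨l', a', b', c⟩
    have := C.cL l' (2 * (C.B - C.Q) - l') (by omega)
    have := C.inj l (2 * (C.B - C.Q) - l') (by omega) (by omega)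
    obtain rfl : l = C.B - C.Q := by omega
    exact fL.2
  have fD : ∀ X Y, C.On (o - C.Q) C.J X Y →
      C.On (o - C.Q) C.J (-p.a - p.b - Y) (X + p.a + p.b) → Y = 0 := by
    rintro _ _ ⟨l, a, b, rfl, rfl⟩ ⟨l', a', b', c⟩
    by_cases g : l' ≤ o
    · have := cC l' (2 * (o - C.Q) - l') (by omega)
      have := C.inj l (2 * (o - C.Q) - l') (by omega) (by omega)
      obtain rfl : l = o - C.Q := by omega
      exact fC.2
    · have := mo l
      have := mo l'
      omega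
  rcases ho with ⟨k, rfl⟩ | ⟨k, ho⟩
  · have fH : (C.f (-C.J)).1 = p.t - p.M ∧ (C.f (-C.J)).2 = -p.a + p.t - p.M := by
      have := cA (-C.J) C.J (by omega)
      omega
    have e1 := tA (C.J - 2 * C.B) C.J (-C.J) (2 * C.B - C.J) (by omega)
    refine ⟨{
      Y := C.S (C.B - C.Q) C.J
      Z := C.S C.J C.B
      g := C.S C.J 0
      D := C.S (0 - C.Q) (C.B - C.Q)
      F := C.S (C.J - 2 * C.B) C.J
      w0 := C.S C.J 0 ++ back 3 (C.S C.J 0)
      w1 := []
      hd := back 3 (C.S (C.J - 2 * C.B) C.J)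
      H := (p.t - p.M, -p.a + p.t - p.M)
      YS := C.On (C.B - C.Q) C.J
      GS := C.On C.J 0
      DS := C.On (0 - C.Q) C.J
      HS := C.On (-C.J) (2 * C.B - C.J)
      Y_ne := C.S_ne (by omega)
      Z_ne := C.S_ne (by omega)
      g_ne := C.S_ne (by omega)
      D_ne := C.S_ne (by omega)
      kind := .inl ⟨k, rfl, rfl, rfl, rfl⟩
      eV := ?_
      eF := ?_
      dZ := dZ
      arcV := aV
      arcH := e1 ▸ C.arc (by omega) fH fV
      arcY := C.arc (by omega) fL fJ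
      arcG := C.arc (by omega) fJ fo
      arcD := aD
      arcF := (C.arc (by omega) (by have := C.fJ'; omega) fJ).mono ?_
      ys := ys
      gs := ?_
      ds := ds
      hs := ?_
      foldY := fY
      foldG := ?_
      foldD := fD
      n0 := ?_
      n1 := fun _ _ h => by omega }⟩
    · rw [eZ, ← e1, ← tA C.J 0 0 (-C.J) (by omega), ← C.app _ _ _ (by omega),
        ← C.app _ _ _ (by omega)]
    · have e2 : C.S (2 * C.B - C.Q) C.J = C.S (0 - C.Q) (C.J - 2 * C.B) := by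
        rw [tL (2 * C.B - 2 * C.Q - C.J) (-C.Q) (2 * C.B - C.Q) C.J (by omega),
          tC (2 * C.B - 2 * C.Q - C.J) (-C.Q) (0 - C.Q) (C.J - 2 * C.B) (by omega)]
      rw [← tL (0 - C.Q) (C.B - C.Q) (C.B - C.Q) (2 * C.B - C.Q) (by omega), List.append_assoc,
        ← C.app (0 - C.Q) (C.B - C.Q) C.J (by omega),
        C.app (0 - C.Q) (C.J - 2 * C.B) C.J (by omega), ← e2,
        ← List.append_assoc, ← C.app (C.B - C.Q) (2 * C.B - C.Q) C.J (by omega)]
    · rintro _ _ ⟨l, a, b, rfl, rfl⟩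
      have := C.mJ l
      exact .inl ⟨ed l (by omega) b, by omega⟩
    · rintro _ _ ⟨l, a, b, rfl, rfl⟩
      have := C.par l
      have := C.mP l
      have := C.mN l
      have := C.mJ l
      exact ⟨by omega⟩
    · rintro _ _ ⟨l, a, b, rfl, rfl⟩
      have := cA l (-l) (by omega)
      have := C.mJ (-l)
      exact .inr ⟨ez' l (by omega) b, by omega⟩
    · rintro _ _ ⟨l, a, b, rfl, rfl⟩ ⟨l', a', b', c⟩
      have := cA (-l') l' (by omega)
      have := C.inj l (-l') (by omega) (by omega)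
      obtain rfl : l = 0 := by omega
      exact fo.2
    · rintro _ _ - ⟨l, a, b, rfl, rfl⟩ ⟨l', a', b', c⟩
      have := cA l (-l) (by omega)
      have := C.inj l' (-l) (by omega) (by omega)
      obtain rfl : l = -C.J := by omega
      exact fH.1
  · have fT : (C.f (2 * (C.B - C.Q) - C.J)).1 = p.t - 4 * p.a ∧
        (C.f (2 * (C.B - C.Q) - C.J)).2 = -p.a + p.t := by
      have := C.p1 (2 * (C.B - C.Q) - C.J) (2 * C.B - C.J) (by ring)
      omega
    have a1 : CArc (-p.b - p.t, p.b - 3 * p.a + p.t) (back 1 (C.S (o - C.Q) (2 * (C.B - C.Q) - C.J)))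
        (-p.a - p.b, 0) fun X Y =>
          C.On (o - C.Q) (2 * (C.B - C.Q) - C.J) (Y - p.a - p.b) (-p.a - p.b - X) :=
      (C.arc (by omega) fC fT).backs 1 fun h => h.rot1 (-p.a - p.b, p.a + p.b)
        (by ext <;> simp <;> ring) (by ext <;> simp) fun X Y h => sCg h (by ring) rfl
    refine ⟨{
      Y := C.S (C.B - C.Q) C.J
      Z := C.S C.J C.B
      g := back 0 (C.S o C.J)
      D := C.S (o - C.Q) (C.B - C.Q)
      F := back 1 (C.S (o - C.Q) (2 * (C.B - C.Q) - C.J)) ++ C.S (o - C.Q) C.J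
      w0 := []
      w1 := rot 3 (back 0 (C.S o C.J)) ++ back 0 (back 0 (C.S o C.J))
      hd := C.S C.J (2 * C.B - C.J)
      H := (-2 * p.a - p.t, -p.a + p.t)
      YS := C.On (C.B - C.Q) C.J
      GS := C.On o C.J
      DS := C.On (o - C.Q) C.J
      HS := C.On C.J (2 * C.B - C.J)
      Y_ne := C.S_ne (by omega)
      Z_ne := C.S_ne (by omega)
      g_ne := back_ne (C.S_ne (by omega))
      D_ne := C.S_ne (by omega)
      kind := .inr ⟨k, rfl, rfl, ?_, rfl⟩
      eV := eZ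
      eF := ?_
      dZ := dZ
      arcV := aV
      arcH := C.arc (by omega) fJ fV
      arcY := C.arc (by omega) fL fJ
      arcG := (C.arc (by omega) fo fJ).back
      arcD := aD
      arcF := (a1.append (C.arc (by omega) fC fJ) ?_).mono ?_
      ys := ys
      gs := ?_
      ds := ds
      hs := ?_
      foldY := fY
      foldG := ?_
      foldD := fD
      n0 := fun _ _ h => by omega
      n1 := ?_ }⟩
    · rw [back_back, rot_back, zero_add, zero_add, rot_zero, ← back_append,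
        C.S_per (C.J - 2 * C.Q) (2 * (C.B - C.Q) - C.J) C.J (2 * C.B - C.J) (by omega),
        C.app (o - C.Q) o C.J (by omega), tC (o - 2 * C.Q) (o - C.Q) (o - C.Q) o (by omega),
        ← List.append_assoc, ← back_append,
        ← C.app (o - 2 * C.Q) (o - C.Q) (2 * (C.B - C.Q) - C.J) (by omega)]
      nth_rw 2 [C.S_per (o - 2 * C.Q) (C.J - 2 * C.Q) o C.J (by omega)]
      rw [← C.app (o - 2 * C.Q) (C.J - 2 * C.Q) (2 * (C.B - C.Q) - C.J) (by omega)]
    · rw [List.append_assoc, ← C.app (o - C.Q) (C.B - C.Q) C.J (by omega),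
        C.app (o - C.Q) (2 * (C.B - C.Q) - C.J) (C.B - C.Q) (by omega), back_append,
        ← tL (2 * (C.B - C.Q) - C.J) (C.B - C.Q) (C.B - C.Q) C.J (by omega), List.append_assoc]
    · intro X Y g h
      have := fD (Y - p.a - p.b) (-p.a - p.b - X)
        (by obtain ⟨l, a, b, c⟩ := g; exact ⟨l, a, by omega, c⟩) (sCg h (by ring) (by ring))
      have := (ds _ _ h).lin
      obtain ⟨l, a, b, c⟩ := g
      have := mo l
      dsimp only
      omega
    · rintro X Y (⟨l, a, b, c⟩ | h)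
      · have := C.mL l
        have := C.p1 l _ rfl
        have := (C.mP (l + 2 * C.Q)).2
        have := (C.mN (l + 2 * C.Q)).1
        have : C.B ≤ l + 2 * C.Q → _ := fun h => (ez' (l + 2 * C.Q) h (by omega)).lin
        exact .inr ⟨sCg (ed l a (by omega)) c.1 c.2, by omega⟩
      · exact .inl ⟨ds _ _ h, .inl k⟩
    · rintro _ _ ⟨l, a, b, rfl, rfl⟩
      have := C.par l
      have := C.strip l
      have := C.mP l
      have := C.mJ l
      have := mo l
      exact ⟨by omega⟩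
    · rintro _ _ ⟨l, a, b, rfl, rfl⟩
      exact (le_total l C.B).imp (fun c => ⟨ez l a c, k⟩) fun c => ⟨ez' l c b, .inl k⟩
    · rintro _ _ ⟨l, a, b, rfl, rfl⟩ ⟨l', a', b', c⟩
      by_cases g : l ≤ o + C.Q
      · have := cA l (2 * o - l) (by omega)
        have := C.inj l' (2 * o - l) (by omega) (by omega)
        obtain rfl : l = o := by omega
        exact fo.2
      · have := mo l
        have := mo l'
        omega
    · rintro _ _ - ⟨l, a, b, rfl, rfl⟩ ⟨l', a', b', c⟩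
      have := C.inj l l' c.1.symm c.2.symm
      obtain rfl : l = C.J := by omega
      exact fJ.1

theorem exists_DG (a b : ℤ) (ha : 5 ≤ a) (hb : 0 ≤ b) (ho : a % 2 = 1) (h4 : b % 4 = 0)
    (hc : IsCoprime a b) (h : 2 * a < b % (4 * a) ∧ b % (4 * a) < 3 * a) :
    ∃ p : PG, p.a = a ∧ p.b = b ∧ Nonempty (DG p) := by
  have h1 := Int.mul_ediv_add_emod b (4 * a)
  have h2 : 0 ≤ b / (4 * a) := Int.ediv_nonneg hb (by omega)
  generalize b / (4 * a) = K at h1 h2
  obtain ⟨m, hm⟩ : ∃ m, b % (4 * a) = 2 * a + 2 * m := by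
    rw [mul_assoc] at h1
    exact ⟨(b % (4 * a) - 2 * a) / 2, by omega⟩
  rw [hm] at h h1
  have mo : m % 2 = 1 := by
    rw [mul_assoc] at h1
    omega
  have cm : IsCoprime (2 * a) m := by
    refine IsCoprime.mul_left ⟨-(m / 2), 1, by omega⟩ (IsCoprime.of_mul_right_right (y := 2) ?_)
    have := hc.add_mul_left_right (-(4 * K + 2))
    rwa [show b + a * -(4 * K + 2) = 2 * m by linear_combination -h1] at this
  have h3 := Int.mul_ediv_add_emod a (2 * m)
  have h5 := Int.emod_nonneg a (show 2 * m ≠ 0 by omega)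
  have h6 := Int.emod_lt_of_pos a (show 0 < 2 * m by omega)
  obtain ⟨k, hk⟩ := Int.eq_ofNat_of_zero_le (Int.ediv_nonneg (show 0 ≤ a by omega)
    (show 0 ≤ 2 * m by omega))
  rw [hk, show 2 * m * (k : ℤ) = 2 * (k * m) by ring] at h3
  have k1 : m ≤ k * m := by
    rcases k with _ | k
    · simp only [Nat.cast_zero, zero_mul] at h3
      omega
    · push_cast
      nlinarith
  obtain ⟨t, ht, hk⟩ : ∃ t, (t % 2 = 1 ∧ 0 < t ∧ t ≤ m ∧ 2 * m + t ≤ a) ∧
      (a + t = 2 * m + 2 * (k * m) ∨ a - t = 2 * (k * m)) := by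
    by_cases g : a % (2 * m) ≤ m
    · exact ⟨a % (2 * m), by omega, by omega⟩
    · exact ⟨2 * m - a % (2 * m), by omega, by omega⟩
  obtain ⟨C⟩ := exists_GC a m t k (by omega) ho cm (by omega) hk
  have ord := C.ord
  have hK : (K = 0 ∧ b = 2 * a + 2 * m) ∨ (1 ≤ K ∧ 6 * a + 2 * m ≤ b) := by
    rcases h2.eq_or_lt with rfl | g
    · exact .inl ⟨rfl, by omega⟩
    · exact .inr ⟨g, by nlinarith⟩
  refine ⟨⟨a, b, 2 * m, t, by omega⟩, rfl, rfl, mkG _ C (2 * C.Q * -K) ?_ fun l => ?_⟩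
  · rcases hK with ⟨rfl, g⟩ | ⟨g, g'⟩
    · exact .inl ⟨g, by simp⟩
    · exact .inr ⟨g', by nlinarith⟩
  · rw [per_mul C.per]
    simp only [Prod.fst_add, Prod.snd_add, Prod.smul_fst, Prod.smul_snd, smul_eq_mul]
    exact ⟨by linear_combination -h1, by ring⟩

theorem twoPiece_S1 (a b c : ℕ) (h : a ^ 2 + b ^ 2 = c ^ 2) (hc : Nat.gcd a b = 1)
    (ho : a % 2 = 1) (h1 : 2 * a < b % (4 * a)) (h2 : b % (4 * a) < 3 * a) :
    TwoPieceDissection a b c := by
  have h4 : b % 4 = 0 := by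
    have h8 : (a ^ 2 + b ^ 2) % 8 = c ^ 2 % 8 := by rw [h]
    rw [Nat.add_mod, Nat.pow_mod a, Nat.pow_mod b, Nat.pow_mod c] at h8
    have ha8 : a % 8 = 1 ∨ a % 8 = 3 ∨ a % 8 = 5 ∨ a % 8 = 7 := by omega
    have hb8 : b % 8 < 8 := Nat.mod_lt _ (by norm_num)
    have hc8 : c % 8 < 8 := Nat.mod_lt _ (by norm_num)
    have : b % 8 = 0 ∨ b % 8 = 4 := by
      generalize c % 8 = r at h8 hc8
      generalize b % 8 = s at h8 hb8
      rcases ha8 with e | e | e | e <;> rw [e] at h8 <;> interval_cases r <;> interval_cases s <;>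
        simp at h8 ⊢
    omega
  have h5 : 5 ≤ a := by
    by_contra g
    obtain rfl | rfl : a = 1 ∨ a = 3 := by omega
    · omega
    · have : b < c := by nlinarith
      have : b ≤ 4 := by nlinarith
      omega
  obtain ⟨p, e1, e2, ⟨D⟩⟩ := exists_DG a b (by omega) (by omega) (by omega) (by omega)
    (Nat.isCoprime_iff_coprime.2 hc) ⟨by exact_mod_cast h1, by exact_mod_cast h2⟩
  exact D.twoPiece e1 e2 h

end NP
end Pool.Agent.Lib.MP_4a7072_co
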