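import Pool.Agent.Lib.MP_4a7072_co.DSimple

/-!
A design for primitive triples whose shorter leg `a` is odd and whose longer leg lies, modulo
`4 a`, between `2 a` and `3 a`: parameters, envelopes and data.
-/

set_option autoImplicit false

namespace Pool.Agent.Lib.MP_4a7072_co
namespace NP

/-- The numerical parameters of the design. -/
structure PG where
  a : ℤ
  b : ℤ
  M : ℤ
  t : ℤ
  h : 5 ≤ a ∧ a % 2 = 1 ∧ b % 2 = 0 ∧ M % 2 = 0 ∧ t % 2 = 1 ∧ 0 < t ∧ 2 * t ≤ M ∧ M + t ≤ a ∧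
    (b = 2 * a + M ∨ 6 * a + M ≤ b)

namespace PG

variable (p : PG)

/-- Points of the curve between the hub and the lower tip. -/
structure EZ (X Y : ℤ) : Prop where
  lin : (X % 2 = 1 ∨ Y % 2 = 0) ∧ -3 * p.a - p.M ≤ X + Y ∧ X + Y ≤ -3 * p.a ∧ -p.a ≤ Y - X ∧
    Y - X ≤ p.a + 2 * p.t

/-- Points of the part of the curve that bounds the small piece. -/
def EV (X Y : ℤ) : Prop := p.EZ X Y ∨ p.EZ (-3 * p.a - Y) (X - p.a)

/-- Points of the curve between the upper tip and the hub. -/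
structure EY (X Y : ℤ) : Prop where
  lin : (X % 2 = 1 ∨ Y % 2 = 0) ∧ -3 * p.a - p.M ≤ X + Y ∧ X + Y ≤ -3 * p.a ∧
    p.a + 2 * p.t ≤ Y - X ∧ Y - X ≤ 3 * p.a

/-- Points of the stem and the short leg. -/
structure Esx (X Y : ℤ) : Prop where
  lin : (Y = -p.a + p.t ∧ -2 * p.a - p.t ≤ X ∧ X ≤ -2 * p.a) ∨
    (X = -2 * p.a ∧ -p.a ≤ Y ∧ Y ≤ -p.a + p.t)

/-- Points of the stem and the long leg. -/
structure Esy (X Y : ℤ) : Prop where
  lin : (Y = -p.a + p.t ∧ -2 * p.a - p.t ≤ X ∧ X ≤ -2 * p.a) ∨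
    (X = -2 * p.a ∧ -p.a + p.t ≤ Y ∧ Y ≤ 0)

/-- Points of the straight part of the interface. -/
structure Eπ (X Y : ℤ) : Prop where
  lin : (Y = -p.a + p.t ∧ -2 * p.a - p.t ≤ X ∧ X ≤ -2 * p.a) ∨
    (X = -2 * p.a ∧ -p.a ≤ Y ∧ Y ≤ -p.a + p.t) ∨ (Y = -p.a ∧ -2 * p.a ≤ X ∧ X ≤ -p.a) ∨
    (X = -p.a ∧ -p.a ≤ Y ∧ Y ≤ -p.t) ∨ (Y = -p.t ∧ -p.a ≤ X ∧ X ≤ -p.a + p.t)

/-- Points of the curve between the hub and the vertex of the middle cube. -/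
structure Eg (X Y : ℤ) : Prop where
  lin : (X % 2 = 1 ∨ Y % 2 = 0) ∧ -p.a - p.b ≤ X + Y ∧ X + Y ≤ -3 * p.a ∧
    ((p.b = 2 * p.a + p.M ∧ -p.a + p.M ≤ Y - X ∧ Y - X ≤ p.a + 2 * p.t) ∨
      (6 * p.a + p.M ≤ p.b ∧ -4 * p.a - p.M ≤ 2 * Y ∧ 2 * Y ≤ p.M ∧ p.a + 2 * p.t ≤ Y - X ∧
        Y - X ≤ p.b - 3 * p.a ∧ (p.b - 3 * p.a - p.M ≤ Y - X ∨ 3 * p.a - p.b ≤ X + Y)))

/-- Points of the curve between the vertex of the large cube and the hub. -/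
structure ED (X Y : ℤ) : Prop where
  lin : (X % 2 = 1 ∨ Y % 2 = 0) ∧ -4 * p.a - p.M ≤ 2 * Y ∧ 2 * Y ≤ p.M ∧ -p.a - p.b ≤ X + Y ∧
    X + Y ≤ -3 * p.a ∧ p.a + 2 * p.t ≤ Y - X ∧ Y - X ≤ p.a + p.b ∧
    (X + Y ≤ -p.a - p.b + p.M ∨ Y - X ≤ p.b - 3 * p.a)

/-- Points of the path `F`. -/
def EF (X Y : ℤ) : Prop :=
  (p.ED X Y ∧ (6 * p.a + p.M ≤ p.b ∨ Y - X ≤ p.a + 2 * p.t + 2 * p.M)) ∨
    (p.ED (Y - p.a - p.b) (-p.a - p.b - X) ∧ 6 * p.a + p.M ≤ p.b ∧ X + Y ≤ -3 * p.a ∧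
      Y - X ≤ 2 * p.b - 3 * p.a + 2 * p.t ∧
      (Y - X ≤ 2 * p.b - 5 * p.a ∨ -3 * p.a - p.M ≤ X + Y))

/-- Points of the first arc of the free boundary of the small piece. -/
def EH (X Y : ℤ) : Prop :=
  (p.EZ X Y ∧ 6 * p.a + p.M ≤ p.b) ∨ (p.EZ (-3 * p.a - Y) (X - p.a) ∧
    (6 * p.a + p.M ≤ p.b ∨ -p.a + 2 * p.t - 2 * p.M ≤ X + Y))

/-- Points of the radial cut of the small piece. -/
structure ER (X Y : ℤ) : Prop where
  lin : (X = -p.a + p.t ∧ -p.a + p.t + 1 ≤ Y ∧ Y ≤ -p.t) ∨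
    (-p.a + p.t < X ∧ X ≤ 0 ∧ Y ≤ 0 ∧ 0 ≤ Y - X ∧ Y - X ≤ 1)

/-- The boundary of the small piece after its first arc and before the interface. -/
def EA1 (X Y : ℤ) : Prop :=
  p.Eπ Y (-X) ∨ p.EV Y (-X) ∨ p.Eπ (-X) (-Y) ∨ p.EV (-X) (-Y) ∨ p.ER (-Y) X ∨ p.ER X Y

/-- The boundary of the small piece. -/
def EA (X Y : ℤ) : Prop := p.EV X Y ∨ p.EA1 X Y ∨ p.Eπ X Y

/-- A quarter of the larger piece (coordinates relative to its centre), given the sets of points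
of three arcs of the curve. -/
def Eq' (S G D : ℤ → ℤ → Prop) (x y : ℤ) : Prop :=
  S (y - 3 * p.a) (p.b - x) ∨ p.Esy (y - 3 * p.a) (p.b - x) ∨
    p.Esy (p.b - 2 * p.a - x) (p.a - y) ∨ S (p.b - 2 * p.a - x) (p.a - y) ∨
    S (y - 4 * p.a) (p.a + p.b - x) ∨ p.Eπ (p.a - y) (x - p.b - 2 * p.a) ∨
    G (p.a - y) (x - p.b - 2 * p.a) ∨ G (x + p.a - 2 * p.b) (y - 2 * p.a - p.b) ∨
    p.Eπ (x + p.a - 2 * p.b) (y - 2 * p.a - p.b) ∨
    p.EF (p.b - 2 * p.a - x) (2 * p.b - p.a - y) ∨ p.Esx (p.b - 2 * p.a - x) (2 * p.b - p.a - y) ∨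
    p.Esx (y - 2 * p.b - 2 * p.a) (p.b - p.a - x) ∨ D (y - 2 * p.b - 2 * p.a) (p.b - p.a - x) ∨
    D (-2 * p.a - x) (p.a + p.b - y) ∨ p.Esy (-2 * p.a - x) (p.a + p.b - y) ∨
    p.Esy (y - 3 * p.a - p.b) (-x) ∨ S (y - 3 * p.a - p.b) (-x)

/-- A quarter of the larger piece. -/
def Eq (x y : ℤ) : Prop := p.Eq' p.EY p.Eg p.ED x y

/-- The boundary of the larger piece, relative to its centre. -/
def EB0' (S G D : ℤ → ℤ → Prop) (x y : ℤ) : Prop :=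
  p.Eq' S G D x y ∨ p.Eq y (-x) ∨ p.Eq (-x) (-y) ∨ (x = 0 ∧ -p.b ≤ y ∧ y ≤ 0) ∨
    (y = 0 ∧ 0 ≤ x ∧ x ≤ p.b)

/-- The boundary of the larger piece, relative to its centre. -/
def EB0 (x y : ℤ) : Prop := p.EB0' p.EY p.Eg p.ED x y

/-- The boundary of the larger piece. -/
def EB (X Y : ℤ) : Prop := p.EB0 (X - (p.a - 2 * p.b)) (Y - (-2 * p.a - p.b))

/-- The boundary of the union. -/
def EC (X Y : ℤ) : Prop := p.EA X Y ∨ p.EB X Y

/-- The marked vertices of the small cube. -/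
def LA : List Pt :=
  [(-p.a, -2 * p.a), (p.a, -p.a), (p.a, -2 * p.a), (2 * p.a, -p.a), (p.a, p.a), (2 * p.a, p.a),
    (p.a, 2 * p.a), (0, 0), (-p.a, -p.a), (-2 * p.a, -p.a)]

/-- The marked vertices of the middle cube, relative to the centre. -/
def LB : List Pt :=
  [(0, -p.b), (0, 0), (p.b, 0), (0, p.b), (-p.b, 0), (p.b, 2 * p.b), (-2 * p.b, p.b),
    (-p.b, -2 * p.b), (p.b, p.b), (-p.b, p.b), (-p.b, -p.b)]

/-- The marked vertices of the large cube. -/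
def LC : List Pt :=
  [(0, 0), (-p.b, -p.a), (-2 * p.b, -2 * p.a), (-3 * p.b, -3 * p.a),
    (p.a - 3 * p.b, -3 * p.a - p.b), (2 * p.a - 3 * p.b, -3 * p.a - 2 * p.b),
    (p.a - 2 * p.b, -2 * p.a - p.b), (p.a - p.b, -p.a - p.b)]

/-- The stem. -/
def s : List Dir := List.replicate p.t.toNat 0

/-- The short leg. -/
def x : List Dir := List.replicate p.t.toNat 3

/-- The long leg. -/
def y : List Dir := List.replicate (p.a - p.t).toNat 1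

/-- The straight part of the interface. -/
def π : List Dir :=
  rot 2 p.s ++ rot 2 p.y ++ back 3 p.y ++ rot 3 p.x ++ back 0 p.x ++ back 0 p.s

/-- The radial cut of the larger piece. -/
def RB : List Dir := List.replicate p.b.toNat 2

end PG

/-- A staircase. -/
def zig : ℕ → List Dir
  | 0 => [0]
  | n + 1 => [0] ++ ([1] ++ zig n)

/-- The radial cut of the small piece. -/
def PG.R (p : PG) : List Dir :=
  List.replicate (p.a - 2 * p.t - 1).toNat 3 ++ zig (p.a - p.t - 1).toNat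

/-- The data of the design. -/
structure DG (p : PG) where
  Y : List Dir
  Z : List Dir
  g : List Dir
  D : List Dir
  F : List Dir
  w0 : List Dir
  w1 : List Dir
  hd : List Dir
  H : Pt
  YS : ℤ → ℤ → Prop
  GS : ℤ → ℤ → Prop
  DS : ℤ → ℤ → Prop
  HS : ℤ → ℤ → Prop
  Y_ne : Y ≠ []
  Z_ne : Z ≠ []
  g_ne : g ≠ []
  D_ne : D ≠ []
  kind : (p.b = 2 * p.a + p.M ∧ w0 = g ++ back 3 g ∧ w1 = [] ∧ hd = back 3 F ∧
      H = (p.t - p.M, -p.a + p.t - p.M)) ∨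
    (6 * p.a + p.M ≤ p.b ∧ w0 = [] ∧ w1 = rot 3 g ++ back 0 g ∧
      F = back 1 hd ++ rot 1 g ++ back 0 g ∧ H = (-2 * p.a - p.t, -p.a + p.t))
  eV : Z ++ back 3 Z = w0 ++ hd
  eF : Y ++ F = back 1 D ++ D ++ Y
  dZ : dsp Z = (p.a + p.t, -p.a - p.t)
  arcV : CArc (-2 * p.a - p.t, -p.a + p.t) (Z ++ back 3 Z) (p.t, -p.a + p.t) p.EV
  arcH : CArc H hd (p.t, -p.a + p.t) HS
  arcY : CArc (-3 * p.a, 0) Y (-2 * p.a - p.t, -p.a + p.t) YS
  arcG : CArc (-2 * p.a - p.t, -p.a + p.t) g (p.a - p.b, -2 * p.a) GS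
  arcD : CArc (-p.a - p.b, 0) (D ++ Y) (-2 * p.a - p.t, -p.a + p.t) DS
  arcF : CArc (-p.b - p.t, p.b - 3 * p.a + p.t) F (-2 * p.a - p.t, -p.a + p.t) p.EF
  ys : ∀ X Y, YS X Y → p.EY X Y
  gs : ∀ X Y, GS X Y → p.Eg X Y
  ds : ∀ X Y, DS X Y → p.ED X Y
  hs : ∀ X Y, HS X Y → p.EH X Y
  foldY : ∀ X Y, YS X Y → YS (-3 * p.a - Y) (X + 3 * p.a) → Y = 0
  foldG : ∀ X Y, GS X Y → GS (-p.a - p.b - Y) (X + p.b - 3 * p.a) → Y = -2 * p.a
  foldD : ∀ X Y, DS X Y → DS (-p.a - p.b - Y) (X + p.a + p.b) → Y = 0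
  n0 : ∀ X Y, p.b = 2 * p.a + p.M → HS X Y → GS (-p.a - p.b - Y) (X + p.b - 3 * p.a) →
    X = p.t - p.M
  n1 : ∀ X Y, 6 * p.a + p.M ≤ p.b → HS X Y → GS X Y → X = -2 * p.a - p.t

namespace DG

variable {p : PG} (D : DG p)

/-- The part of the curve that bounds the small piece. -/
def V : List Dir := D.Z ++ back 3 D.Z

/-- The boundary of the small piece after its first arc and before the interface. -/
def A1 : List Dir :=
  rot 1 p.π ++ rot 1 D.V ++ rot 2 p.π ++ rot 2 D.V ++ (rot 3 p.R ++ back 0 p.R)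

/-- The free part of the boundary of the small piece. -/
def α : List Dir := D.hd ++ D.A1

/-- The interface. -/
def ι : List Dir := p.π ++ D.w0

/-- The path from the upper tip to the end of the long leg. -/
def h : List Dir := D.Y ++ (p.s ++ p.y)

/-- The first part of a quarter of the larger piece. -/
def μ : List Dir := rot 1 D.h ++ back 2 D.h ++ rot 1 D.Y

/-- The last part of a quarter of the larger piece. -/
def L : List Dir :=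
  rot 2 (D.F ++ (p.s ++ p.x)) ++ back 1 (D.D ++ D.Y ++ (p.s ++ p.x)) ++
    rot 2 (D.D ++ D.Y ++ (p.s ++ p.y)) ++ back 1 D.h

/-- A quarter of the boundary of the larger piece. -/
def q : List Dir := D.μ ++ rot 3 p.π ++ (rot 3 D.g ++ back 0 D.g) ++ back 0 p.π ++ D.L

/-- The free part of the boundary of the larger piece. -/
def β : List Dir :=
  D.L ++ rot 1 D.q ++ rot 2 D.q ++ (rot 3 p.RB ++ back 0 p.RB) ++ (D.μ ++ rot 3 p.π ++ D.w1)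

end DG

end NP
end Pool.Agent.Lib.MP_4a7072_co
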