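import Pool.Agent.Lib.MP_4a7072_co.GDefs

/-!
The vertices of the three lattices are marked or lie outside (design for an odd shorter leg).
-/

set_option autoImplicit false
set_option linter.unnecessarySeqFocus false

namespace Pool.Agent.Lib.MP_4a7072_co
namespace NP
namespace PG

variable {p : PG} {X Y : ℤ}

theorem EV.lin (h : p.EV X Y) :
    ((X % 2 = 1 ∨ Y % 2 = 0) ∧ -3 * p.a - p.M ≤ X + Y ∧ X + Y ≤ -3 * p.a ∧ -p.a ≤ Y - X ∧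
      Y - X ≤ p.a + 2 * p.t) ∨
    ((X % 2 = 1 ∨ Y % 2 = 0) ∧ -p.a ≤ Y - X ∧ Y - X ≤ -p.a + p.M ∧ -3 * p.a ≤ X + Y ∧
      X + Y ≤ -p.a + 2 * p.t) := by
  have := p.h
  rcases h with h | h <;> have := h.lin <;> omega

theorem EH.lin (h : p.EH X Y) :
    ((X % 2 = 1 ∨ Y % 2 = 0) ∧ -3 * p.a - p.M ≤ X + Y ∧ X + Y ≤ -3 * p.a ∧ -p.a ≤ Y - X ∧
      Y - X ≤ p.a + 2 * p.t ∧ 6 * p.a + p.M ≤ p.b) ∨
    ((X % 2 = 1 ∨ Y % 2 = 0) ∧ -p.a ≤ Y - X ∧ Y - X ≤ -p.a + p.M ∧ -3 * p.a ≤ X + Y ∧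
      X + Y ≤ -p.a + 2 * p.t ∧ (6 * p.a + p.M ≤ p.b ∨ -p.a + 2 * p.t - 2 * p.M ≤ X + Y)) := by
  have := p.h
  rcases h with ⟨h, g⟩ | ⟨h, g⟩ <;> have := h.lin <;> omega

theorem EH.ev (h : p.EH X Y) : p.EV X Y := h.imp And.left And.left

theorem EF.lin (h : p.EF X Y) :
    ((X % 2 = 1 ∨ Y % 2 = 0) ∧ -4 * p.a - p.M ≤ 2 * Y ∧ 2 * Y ≤ p.M ∧ -p.a - p.b ≤ X + Y ∧
      X + Y ≤ -3 * p.a ∧ p.a + 2 * p.t ≤ Y - X ∧ Y - X ≤ p.a + p.b ∧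
      (X + Y ≤ -p.a - p.b + p.M ∨ Y - X ≤ p.b - 3 * p.a) ∧
      (6 * p.a + p.M ≤ p.b ∨ Y - X ≤ p.a + 2 * p.t + 2 * p.M)) ∨
    ((X % 2 = 1 ∨ Y % 2 = 0) ∧ -2 * p.a - 2 * p.b - p.M ≤ 2 * X ∧
      2 * X ≤ 2 * p.a - 2 * p.b + p.M ∧ p.a + p.b ≤ Y - X ∧ Y - X ≤ 2 * p.b - 3 * p.a + 2 * p.t ∧
      -p.a - p.b ≤ X + Y ∧ X + Y ≤ -3 * p.a ∧ 6 * p.a + p.M ≤ p.b ∧
      (Y - X ≤ p.a + p.b + p.M ∨ 3 * p.a - p.b ≤ X + Y) ∧
      (Y - X ≤ 2 * p.b - 5 * p.a ∨ -3 * p.a - p.M ≤ X + Y)) := by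
  have := p.h
  rcases h with ⟨h, g⟩ | ⟨h, g⟩ <;> have := h.lin <;> omega

theorem Eq'.mono {S G D S' G' D' : ℤ → ℤ → Prop} (h : p.Eq' S G D X Y)
    (hS : ∀ X Y, S X Y → S' X Y) (hG : ∀ X Y, G X Y → G' X Y) (hD : ∀ X Y, D X Y → D' X Y) :
    p.Eq' S' G' D' X Y :=
  h.imp (hS _ _) <| Or.imp_right <| Or.imp_right <| Or.imp (hS _ _) <| Or.imp (hS _ _) <|
    Or.imp_right <| Or.imp (hG _ _) <| Or.imp (hG _ _) <| Or.imp_right <| Or.imp_right <|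
    Or.imp_right <| Or.imp_right <| Or.imp (hD _ _) <| Or.imp (hD _ _) <| Or.imp_right <|
    Or.imp_right (hS _ _)

theorem Eq.lin (h : p.Eq X Y) : 0 ≤ X ∧ p.b ≤ X + Y ∧ -p.M ≤ 2 * Y ∧ X < 2 * p.b ∧
    2 * Y ≤ 4 * p.b + 2 * p.a + p.M ∧ (Y < 2 * p.b ∨ p.b - p.a < X) ∧
    (X < 2 * p.b - p.a ∨ Y ≠ p.b + 2 * p.a) := by
  have := p.h
  rcases h with h | h | h | h | h | h | h | h | h | h | h | h | h | h | h | h | h <;>
    have := h.lin <;> omega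

theorem EA.box (h : p.EA X Y) : -p.b < X ∧ X < p.b ∧ -p.b < Y ∧ Y < p.b := by
  have := p.h
  rcases h with h | (h | h | h | h | h | h) | h <;> have := h.lin <;> omega

/-! ### The small cube -/

theorem aN (g : (X ≤ 0 ∧ p.a ≤ Y) ∨ 3 * p.a ≤ Y ∨ (2 * p.a ≤ X ∧ 2 * p.a ≤ Y)) : ¬p.EA X Y := by
  have := p.h
  rintro (h | (h | h | h | h | h | h) | h) <;> have := h.lin <;> omega

theorem aW (g : (X ≤ -p.a ∧ 0 ≤ Y) ∨ X ≤ -3 * p.a ∨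
    (X ≤ -p.a + p.t ∧ Y = -p.t + 1)) : ¬p.EA X Y := by
  have := p.h
  rintro (h | (h | h | h | h | h | h) | h) <;> have := h.lin <;> omega

theorem aS (g : (X = 0 ∧ Y ≤ -p.a) ∨ Y ≤ -3 * p.a ∨ (X = 2 * p.a ∧ Y ≤ -2 * p.a) ∨
    (X = -2 * p.a ∧ Y ≤ -2 * p.a)) : ¬p.EA X Y := by
  have := p.h
  rintro (h | (h | h | h | h | h | h) | h) <;> have := h.lin <;> omega

theorem aE (g : (p.a ≤ X ∧ Y = 0) ∨ 3 * p.a ≤ X) : ¬p.EA X Y := by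
  have := p.h
  rintro (h | (h | h | h | h | h | h) | h) <;> have := h.lin <;> omega

theorem covA (p : PG) (m n : ℤ) : (m * p.a, n * p.a) ∈ p.LA ∨ OutE p.EA (m * p.a) (n * p.a) := by
  have := p.h
  have l : ∀ {m c : ℤ}, m ≤ c → m * p.a ≤ c * p.a :=
    fun h => mul_le_mul_of_nonneg_right h (by omega)
  rcases (by omega : n ≤ -3 ∨ n = -2 ∨ n = -1 ∨ n = 0 ∨ n = 1 ∨ n = 2 ∨ 3 ≤ n) with
    hn | rfl | rfl | rfl | rfl | rfl | hn <;>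
  rcases (by omega : m ≤ -3 ∨ m = -2 ∨ m = -1 ∨ m = 0 ∨ m = 1 ∨ m = 2 ∨ 3 ≤ m) with
    hm | rfl | rfl | rfl | rfl | rfl | hm
  all_goals
    try have gn := l hn
    try have gm := l hm
    first
    | exact .inr (.rayS fun _ _ => aS (by omega))
    | exact .inr (.rayN fun _ _ => aN (by omega))
    | exact .inr (.rayW fun _ _ => aW (by omega))
    | exact .inr (.rayE fun _ _ => aE (by omega))
    | exact .inl (by simp [LA])

theorem memA (p : PG) (W : Pt) (h : W ∈ p.LA) : ∃ m n : ℤ, W = (m * p.a, n * p.a) := by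
  simp only [LA, List.mem_cons, List.not_mem_nil, or_false] at h
  rcases h with h | h | h | h | h | h | h | h | h | h <;> subst h
  exacts [⟨-1, -2, by simp⟩, ⟨1, -1, by simp⟩, ⟨1, -2, by simp⟩, ⟨2, -1, by simp⟩, ⟨1, 1, by simp⟩,
    ⟨2, 1, by simp⟩, ⟨1, 2, by simp⟩, ⟨0, 0, by simp⟩, ⟨-1, -1, by simp⟩, ⟨-2, -1, by simp⟩]

/-! ### The middle cube -/

theorem bN (g : (X ≤ p.b - p.a ∧ 2 * p.b ≤ Y) ∨ 4 * p.b + 2 * p.a + p.M < 2 * Y ∨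
    (X = -p.b - 2 * p.a ∧ 2 * p.b - p.a ≤ Y)) : ¬p.EB0 X Y := by
  have := p.h
  rintro (h | h | h | h | h)
  · have := Eq.lin h; omega
  · have := h.lin; omega
  · have := h.lin; omega
  · omega
  · omega

theorem bW (g : (X ≤ -2 * p.b ∧ Y ≤ p.b - p.a) ∨ 2 * X < -4 * p.b - 2 * p.a - p.M ∨
    (X ≤ -2 * p.b + p.a ∧ Y = -p.b - 2 * p.a)) : ¬p.EB0 X Y := by
  have := p.h
  rintro (h | h | h | h | h)
  · have := Eq.lin h; omega
  · have := h.lin; omega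
  · have := h.lin; omega
  · omega
  · omega

theorem bS (g : (p.a - p.b ≤ X ∧ Y ≤ -2 * p.b) ∨ 2 * Y < -4 * p.b - 2 * p.a - p.M) : ¬p.EB0 X Y := by
  have := p.h
  rintro (h | h | h | h | h)
  · have := Eq.lin h; omega
  · have := h.lin; omega
  · have := h.lin; omega
  · omega
  · omega

theorem bE (g : 2 * p.b ≤ X ∨ (0 < X ∧ 2 * Y < -p.M)) :
    ¬p.EB0 X Y := by
  have := p.h
  rintro (h | h | h | h | h)
  · have := Eq.lin h; omega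
  · have := h.lin; omega
  · have := h.lin; omega
  · omega
  · omega

theorem covB (p : PG) (m n : ℤ) : (m * p.b, n * p.b) ∈ p.LB ∨
    OutE p.EB (p.a - 2 * p.b + m * p.b) (-2 * p.a - p.b + n * p.b) := by
  have := p.h
  have l : ∀ {m c : ℤ}, m ≤ c → m * p.b ≤ c * p.b :=
    fun h => mul_le_mul_of_nonneg_right h (by omega)
  rcases (by omega : n ≤ -3 ∨ n = -2 ∨ n = -1 ∨ n = 0 ∨ n = 1 ∨ n = 2 ∨ 3 ≤ n) with
    hn | rfl | rfl | rfl | rfl | rfl | hn <;>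
  rcases (by omega : m ≤ -3 ∨ m = -2 ∨ m = -1 ∨ m = 0 ∨ m = 1 ∨ 2 ≤ m) with
    hm | rfl | rfl | rfl | rfl | hm
  all_goals
    try have gn := l hn
    try have gm := l hm
    first
    | exact .inr (.rayS fun _ _ => bS (by omega))
    | exact .inr (.rayN fun _ _ => bN (by omega))
    | exact .inr (.rayW fun _ _ => bW (by omega))
    | exact .inr (.rayE fun _ _ => bE (by omega))
    | exact .inl (by simp [LB])

theorem memB (p : PG) (W : Pt) (h : W ∈ p.LB) : ∃ m n : ℤ, W = (m * p.b, n * p.b) := by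
  simp only [LB, List.mem_cons, List.not_mem_nil, or_false] at h
  rcases h with h | h | h | h | h | h | h | h | h | h | h <;> subst h
  exacts [⟨0, -1, by simp⟩, ⟨0, 0, by simp⟩, ⟨1, 0, by simp⟩, ⟨0, 1, by simp⟩, ⟨-1, 0, by simp⟩,
    ⟨1, 2, by simp⟩, ⟨-2, 1, by simp⟩, ⟨-1, -2, by simp⟩, ⟨1, 1, by simp⟩, ⟨-1, 1, by simp⟩,
    ⟨-1, -1, by simp⟩]

/-! ### The large cube -/

theorem cN (g : (X ≤ -p.b ∨ p.b ≤ Y) ∧
    ((X ≤ -p.b ∧ p.b - 2 * p.a ≤ Y) ∨ 2 * p.b - 2 * p.a + p.M < 2 * Y ∨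
      (X = -p.a - 3 * p.b ∧ p.b - 3 * p.a ≤ Y))) : OutE p.EC X Y := by
  have := p.h
  refine .rayN fun Y' a h => ?_
  rcases h with h | h
  · have := h.box; omega
  · exact bN (by omega) h

theorem cW (g : X ≤ -p.b ∧
    ((X ≤ p.a - 4 * p.b ∧ Y ≤ -3 * p.a) ∨ 2 * X < -8 * p.b - p.M ∨
      (X ≤ 2 * p.a - 4 * p.b ∧ Y = -4 * p.a - 2 * p.b))) : OutE p.EC X Y := by
  have := p.h
  refine .rayW fun X' a h => ?_
  rcases h with h | h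
  · have := h.box; omega
  · exact bW (by omega) h

theorem cS (g : (2 * p.a - 3 * p.b ≤ X ∧ Y ≤ -2 * p.a - 3 * p.b) ∨
    2 * Y < -6 * p.a - 6 * p.b - p.M) : OutE p.EC X Y := by
  have := p.h
  refine .rayS fun Y' a h => ?_
  rcases h with h | h
  · have := h.box; omega
  · exact bS (by omega) h

theorem cE (g : (p.b ≤ X ∨ Y ≤ -p.b) ∧
    (p.a ≤ X ∨ (p.a - 2 * p.b < X ∧ 2 * Y < -4 * p.a - 2 * p.b - p.M))) : OutE p.EC X Y := by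
  have := p.h
  refine .rayE fun X' a h => ?_
  rcases h with h | h
  · have := h.box; omega
  · exact bE (by omega) h

theorem covC (p : PG) (m n : ℤ) : (m * p.b - n * p.a, m * p.a + n * p.b) ∈ p.LC ∨
    OutE p.EC (m * p.b - n * p.a) (m * p.a + n * p.b) := by
  have := p.h
  have l : ∀ {m c : ℤ}, m ≤ c → m * p.a ≤ c * p.a ∧ m * p.b - 2 * (m * p.a) ≤ c * p.b - 2 * (c * p.a) :=
    fun h => ⟨mul_le_mul_of_nonneg_right h (by omega), by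
      nlinarith [mul_nonneg (sub_nonneg.2 h) (show 0 ≤ p.b - 2 * p.a by omega)]⟩
  rcases (by omega : n ≤ -4 ∨ n = -3 ∨ n = -2 ∨ n = -1 ∨ n = 0 ∨ n = 1 ∨ 2 ≤ n) with
    hn | rfl | rfl | rfl | rfl | rfl | hn <;>
  rcases (by omega : m ≤ -5 ∨ m = -4 ∨ m = -3 ∨ m = -2 ∨ m = -1 ∨ m = 0 ∨ 1 ≤ m) with
    hm | rfl | rfl | rfl | rfl | rfl | hm
  all_goals
    try have gn := l hn
    try have gm := l hm
    first
    | exact .inr (cS (by omega))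
    | exact .inr (cN (by omega))
    | exact .inr (cW (by omega))
    | exact .inr (cE (by omega))
    | exact .inl (by simp [LC, Prod.ext_iff] <;> omega)

theorem memC (p : PG) (W : Pt) (h : W ∈ p.LC) :
    ∃ m n : ℤ, W = (m * p.b - n * p.a, m * p.a + n * p.b) := by
  simp only [LC, List.mem_cons, List.not_mem_nil, or_false] at h
  rcases h with h | h | h | h | h | h | h | h <;> subst h
  exacts [⟨0, 0, by simp⟩, ⟨-1, 0, by simp⟩, ⟨-2, 0, by simp⟩, ⟨-3, 0, by simp⟩,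
    ⟨-3, -1, by ext <;> simp <;> ring⟩, ⟨-3, -2, by ext <;> simp <;> ring⟩,
    ⟨-2, -1, by ext <;> simp <;> ring⟩, ⟨-1, -1, by ext <;> simp <;> ring⟩]

end PG
end NP
end Pool.Agent.Lib.MP_4a7072_co
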