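import Pool.Agent.Lib.MP_4a7072_co.GDefs

/-!
The three boundaries of the design for an odd shorter leg are contours of trees.
-/

set_option autoImplicit false
set_option linter.unnecessarySeqFocus false
set_option linter.unusedSimpArgs false
set_option linter.unreachableTactic false
set_option linter.unusedTactic false

namespace Pool.Agent.Lib.MP_4a7072_co
namespace NP

theorem dsp_rep (d : Dir) {n : ℤ} (h : 0 ≤ n) : dsp (List.replicate n.toNat d) = n • dv d := by
  simp only [dsp, endP_replicate, Int.toNat_of_nonneg h, zero_add]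

theorem dsp_zig (n : ℕ) : dsp (zig n) = ((n : ℤ) + 1, (n : ℤ)) := by
  induction n with
  | zero => rfl
  | succ n ih =>
    simp only [zig, dsp_append, ih]
    ext <;> simp [dsp, endP, dv] <;> ring

theorem zig_ne (n : ℕ) : zig n ≠ [] := by cases n <;> simp [zig]

namespace PG

variable (p : PG)

theorem d_s : dsp p.s = (p.t, 0) := by
  have := p.h
  rw [s, dsp_rep _ (by omega)]
  simp [dv]

theorem d_x : dsp p.x = (0, -p.t) := by
  have := p.h
  rw [x, dsp_rep _ (by omega)]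
  simp [dv]

theorem d_y : dsp p.y = (0, p.a - p.t) := by
  have := p.h
  rw [y, dsp_rep _ (by omega)]
  simp [dv]

theorem d_RB : dsp p.RB = (-p.b, 0) := by
  have := p.h
  rw [RB, dsp_rep _ (by omega)]
  simp [dv]

theorem d_R : dsp p.R = (p.a - p.t, p.t) := by
  have := p.h
  rw [R, dsp_append, dsp_rep _ (by omega), dsp_zig, Int.toNat_of_nonneg (by omega)]
  ext <;> simp [dv] <;> ring

theorem x_ne : p.x ≠ [] := by
  have := p.h
  simp only [x, ne_eq, List.replicate_eq_nil_iff]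
  omega

theorem y_ne : p.y ≠ [] := by
  have := p.h
  simp only [y, ne_eq, List.replicate_eq_nil_iff]
  omega

theorem s_ne : p.s ≠ [] := by
  have := p.h
  simp only [s, ne_eq, List.replicate_eq_nil_iff]
  omega

theorem RB_ne : p.RB ≠ [] := by
  have := p.h
  simp only [RB, ne_eq, List.replicate_eq_nil_iff]
  omega

theorem R_ne : p.R ≠ [] := List.append_ne_nil_of_right_ne_nil _ (zig_ne _)

end PG

namespace DG

variable {p : PG} (D : DG p)

theorem dY : dsp D.Y = (p.a - p.t, -p.a + p.t) := by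
  rw [D.arcY.dsp_eq]
  ext <;> simp <;> ring

theorem dg : dsp D.g = (3 * p.a - p.b + p.t, -p.a - p.t) := by
  rw [D.arcG.dsp_eq]
  ext <;> simp <;> ring

theorem dF : dsp D.F = (p.b - 2 * p.a, 2 * p.a - p.b) := by
  rw [D.arcF.dsp_eq]
  ext <;> simp <;> ring

theorem dD : dsp D.D = (p.b - 2 * p.a, 0) := by
  have := D.arcD.dsp_eq
  rw [dsp_append, D.dY] at this
  rw [eq_sub_of_add_eq this]
  ext <;> simp <;> ring

theorem treeA : TreeOK (-2 * p.a - p.t, -p.a + p.t) (D.V ++ D.A1 ++ p.π) p.LA := by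
  have T := (((TB.leaf (rot_ne (t := 2) p.y_ne)).tu.cat
    (TB.leaf (rot_ne (t := 3) p.x_ne)).tu).zip (rot 2 p.s))
  have d1 := D.dZ
  have d2 := p.d_s
  have d3 := p.d_x
  have d4 := p.d_y
  have d5 := p.d_R
  refine ((((T.rot 3).core (back_ne (t := 1) D.Z_ne)).cat
    (TB.leaf (rot_ne (t := 3) p.R_ne)).tu).cat T).ok (u := []) rfl (by
      simp [V, A1, PG.π, rot_append, back_append, back_back, rot_back, back_rot, rot_rot, rot_zero])
    fun W => ?_
  rw [show List.map _ _ = p.LA from ?_]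
  simp only [PG.LA, List.map_cons, List.map_nil, List.cons_append, List.nil_append, List.append_nil,
    dsp_append, dsp_rot, dsp_back, List.cons.injEq, Prod.ext_iff, rotP_zero, rotP_1, rotP_2,
    rotP_3, Prod.fst_add, Prod.snd_add, Prod.fst_neg, Prod.snd_neg, dsp_nil, Prod.fst_zero,
    Prod.snd_zero, Fin.reduceAdd, and_true] at d1 d2 d3 d4 d5 ⊢
  omega

theorem eL : D.L = rot 2 (D.F ++ (p.s ++ p.x)) ++ back 1 (D.F ++ (p.s ++ p.x)) ++ back 0 D.μ := by
  have e : back 1 D.F ++ back 1 D.Y = back 1 D.Y ++ (back 1 D.D ++ rot 2 D.D) := by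
    rw [← back_append, D.eF]
    simp [back_append, back_back]
  simp only [L, μ, h, rot_append, back_append, back_back, back_rot, List.append_assoc,
    Fin.reduceAdd]
  rw [← List.append_assoc (back 1 D.F), e]
  simp only [List.append_assoc]

theorem treeB (hc : dsp (D.q ++ rot 1 D.q ++ rot 2 D.q ++ (rot 3 p.RB ++ back 0 p.RB)) = 0) :
    TreeOK (p.a - p.b, -2 * p.a - p.b) (D.q ++ rot 1 D.q ++ rot 2 D.q ++ (rot 3 p.RB ++ back 0 p.RB))
      (p.LB.map (· + (p.a - 2 * p.b, -2 * p.a - p.b))) := by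
  have d1 := D.dY
  have d2 := p.d_s
  have d3 := p.d_x
  have d4 := p.d_y
  have d5 := p.d_RB
  have d6 := D.dg
  have d7 := D.dF
  have hμ : D.μ ≠ [] := List.append_ne_nil_of_right_ne_nil _ (rot_ne D.Y_ne)
  have hX : rot 3 (p.π ++ D.g) ≠ [] := rot_ne (List.append_ne_nil_of_right_ne_nil _ D.g_ne)
  have hu : D.F ++ (p.s ++ p.x) ≠ [] :=
    List.append_ne_nil_of_right_ne_nil _ (List.append_ne_nil_of_right_ne_nil _ p.x_ne)
  have dμ : dsp D.μ = (2 * p.a - p.t, 2 * p.a - p.t) := by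
    simp only [μ, h, dsp_append, dsp_rot, dsp_back, d1, d2, d4]
    ext <;> simp [rotP_1, rotP_2] <;> ring
  have dπ : dsp p.π = (-p.a - 2 * p.t, -p.a + 2 * p.t) := by
    simp only [PG.π, dsp_append, dsp_rot, dsp_back, d2, d3, d4]
    ext <;> simp [rotP_zero, rotP_3, rotP_2] <;> ring
  have t := pinG (O := (p.a - 2 * p.b, -2 * p.a - p.b)) (Z := (p.a - p.b, -2 * p.a - p.b))
    (A := (p.a - p.b, -2 * p.a + p.b)) (B := (p.a - p.b, -2 * p.a)) (B' := (p.a - p.b, -2 * p.a))
    (o₁ := rot 3 (p.π ++ D.g) ++ back 1 (back 1 (D.F ++ (p.s ++ p.x)) ++ rot 3 (p.π ++ D.g)))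
    (o₂ := back 1 (D.F ++ (p.s ++ p.x)))
    ((TB.leaf (rot_ne (t := 3) p.RB_ne)).vtx (back_ne (t := 2) hμ)) hμ
    (List.append_ne_nil_of_left_ne_nil hX _) (back_ne hu)
    (by
      simp only [dsp_append, dsp_back, dsp_rot, dμ, dπ, d2, d3, d6, d7]
      ext <;> simp [rotP_1, rotP_3] <;> ring)
    (by
      simp only [dsp_append, dsp_back, dsp_rot, dμ, d2, d3, d7]
      ext <;> simp [rho, rotP_1] <;> ring)
    (by
      simp only [dsp_append, dsp_back, dsp_rot, dμ, d5]
      ext <;> simp [rho, rotP_1, rotP_2, rotP_3, rotP_zero] <;> ring)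
    (.inl ⟨_, hX, rfl, by
      simp only [dsp_append, dsp_rot, dμ, dπ, d6]
      ext <;> simp [rotP_3] <;> ring, rfl⟩)
  have eq : D.q = D.μ ++ ((rot 3 (p.π ++ D.g) ++
      back 1 (back 1 (D.F ++ (p.s ++ p.x)) ++ rot 3 (p.π ++ D.g))) ++
      back 1 (D.F ++ (p.s ++ p.x))) ++ back 0 D.μ := by
    rw [q, D.eL]
    simp [rot_append, back_append, back_back, back_rot]
  have e : D.q ++ rot 1 D.q ++ rot 2 D.q ++ (rot 3 p.RB ++ back 0 p.RB) =
      D.μ ++ (rot 3 (p.π ++ D.g) ++ back 1 (back 1 (D.F ++ (p.s ++ p.x)) ++ rot 3 (p.π ++ D.g)) ++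
        back 1 (D.F ++ (p.s ++ p.x)) ++ back 0 D.μ ++ rot 1 D.q ++ rot 2 D.q ++
        (rot 3 p.RB ++ back 0 p.RB)) := by
    nth_rw 1 [eq]
    simp only [List.append_assoc]
  rw [e] at hc ⊢
  refine TreeOK.rotate hc (t.cast (endP_dsp _ _).symm ?_ fun W => ?_)
  · simp [eq, rot_append, back_back, back_rot, rot_back, rot_zero]
  · rw [show List.map _ _ ++ _ = (p.LB ++ [(p.b, p.b), (-p.b, p.b), (-p.b, -p.b)]).map
      (· + (p.a - 2 * p.b, -2 * p.a - p.b)) from ?_, mem_map_add, mem_map_add]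
    · rw [List.mem_append, or_iff_left_iff_imp]
      simp only [PG.LB, List.mem_cons, List.not_mem_nil, or_false]
      rintro (h | h | h) <;> simp only [h, true_or, or_true]
    · simp only [PG.LB, List.map_cons, List.map_nil, List.cons_append, List.nil_append, dsp_append,
        dsp_back, dsp_rot, d5, dμ, List.cons.injEq, and_true, rho, rotP_1, rotP_2, rotP_3,
        Prod.ext_iff, Prod.fst_add, Prod.snd_add, Prod.fst_sub, Prod.snd_sub, Prod.fst_neg,
        Prod.snd_neg]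
      omega

theorem treeC : TreeOK D.H (D.α ++ D.β) p.LC := by
  have d1 := D.dY
  have d2 := p.d_s
  have d3 := p.d_x
  have d4 := p.d_y
  have d5 := p.d_RB
  have d6 := D.dg
  have d7 := D.dF
  have d8 := D.dD
  have d9 := p.d_R
  have d0 := D.dZ
  have hh : D.h ≠ [] := List.append_ne_nil_of_left_ne_nil D.Y_ne _
  have T1 := (TB.leaf (rot_ne (t := 1) hh)).tu
  have T2 := (TB.leaf (back_ne (t := 1) D.D_ne)).tu.zip (back 1 (D.Y ++ p.s))
  have C := fun {g K t n} (h : TU g K t n) =>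
    (T2.cat ((h.zip (back 1 D.Y)).zip (rot 2 p.y ++ back 1 p.y ++ back 1 p.s))).zip
      (rot 2 p.s ++ rot 2 p.x ++ back 1 p.x)
  have G0 := (TB.leaf (rot_ne (t := 3) p.R_ne)).tu
  have G1 := ((TB.leaf (rot_ne (t := 3) p.RB_ne)).tu.cat T1).rot 2
  have eV := D.eV
  rcases D.kind with ⟨k, e0, e1, e2, e3⟩ | ⟨k, e0, e1, e2, e3⟩
  · have S1 := ((G0.zip (rot 2 D.hd)).cat (C (T1.rot 1))).zip (rot 2 D.w0)
    have S2 := (((S1.zip (rot 2 p.π)).zip (rot 1 D.hd)).cat ((C (T1.rot 1)).rot 1)).zip (rot 1 D.w0)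
    refine (((S2.zip (rot 1 p.π)).zip D.hd).cat ((C G1).rot 2)).ok (u := []) rfl (by
      simp [α, β, A1, V, q, L, μ, h, PG.π, eV, e0, e1, e2, rot_append, back_append, back_back,
        rot_back, back_rot, rot_rot, rot_zero]) fun W => ?_
    rw [show List.map _ _ = p.LC from ?_]
    simp only [PG.LC, h, PG.π, e0, e2, e3, List.map_cons, List.map_nil, List.cons_append,
      List.nil_append, List.append_nil,
      dsp_append, dsp_rot, dsp_back, List.cons.injEq, Prod.ext_iff, rotP_zero, rotP_1, rotP_2,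
      rotP_3, Prod.fst_add, Prod.snd_add, Prod.fst_neg, Prod.snd_neg, dsp_nil, Prod.fst_zero,
      Prod.snd_zero, Fin.reduceAdd, and_true] at d1 d2 d3 d4 d5 d6 d7 d8 d9 ⊢
    omega
  · have C' := fun {g K t n} (h : TU g K t n) => (C h).zip (rot 3 D.g ++ back 2 D.g)
    have S1 := (G0.zip (rot 2 D.hd)).cat (C' (T1.rot 1))
    have S2 := ((S1.zip (rot 2 p.π)).zip (rot 1 D.hd)).cat ((C' (T1.rot 1)).rot 1)
    rw [e0, List.nil_append] at eV
    refine (((S2.zip (rot 1 p.π)).zip D.hd).cat ((C' G1).rot 2)).ok (u := []) rfl (by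
      simp [α, β, A1, V, q, L, μ, h, PG.π, eV, e1, e2, rot_append, back_append, back_back,
        rot_back, back_rot, rot_rot, rot_zero]) fun W => ?_
    rw [show List.map _ _ = p.LC from ?_]
    simp only [PG.LC, h, PG.π, ← eV, e3, List.map_cons, List.map_nil, List.cons_append,
      List.nil_append, List.append_nil,
      dsp_append, dsp_rot, dsp_back, List.cons.injEq, Prod.ext_iff, rotP_zero, rotP_1, rotP_2,
      rotP_3, Prod.fst_add, Prod.snd_add, Prod.fst_neg, Prod.snd_neg, dsp_nil, Prod.fst_zero,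
      Prod.snd_zero, Fin.reduceAdd, and_true] at d0 d1 d2 d3 d4 d5 d6 d8 d9 ⊢
    omega

end DG

end NP
end Pool.Agent.Lib.MP_4a7072_co
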