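import Pool.Agent.Lib.MP_4a7072_co.GEnv
import Pool.Agent.Lib.MP_4a7072_co.GTree

/-!
The three boundaries of the design for an odd shorter leg are simple closed paths.
-/

set_option autoImplicit false
set_option linter.unnecessarySeqFocus false
set_option linter.unusedVariables false
set_option linter.unusedSimpArgs false

namespace Pool.Agent.Lib.MP_4a7072_co
namespace NP

open RTree (endP_append edges_append)

theorem lineE (x y : ℤ) {n : ℤ} (hn : 0 ≤ n) : CArc (x, y) (List.replicate n.toNat 0) (x + n, y)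
    fun X Y => Y = y ∧ x ≤ X ∧ X ≤ x + n :=
  (CArc.line _ 0 hn).mv rfl (by ext <;> simp [dv]) fun X Y ⟨i, h⟩ => by
    simp [dv] at h
    lia

theorem lineN (x y : ℤ) {n : ℤ} (hn : 0 ≤ n) : CArc (x, y) (List.replicate n.toNat 1) (x, y + n)
    fun X Y => X = x ∧ y ≤ Y ∧ Y ≤ y + n :=
  (CArc.line _ 1 hn).mv rfl (by ext <;> simp [dv]) fun X Y ⟨i, h⟩ => by
    simp [dv] at h
    lia

theorem lineW (x y : ℤ) {n : ℤ} (hn : 0 ≤ n) : CArc (x, y) (List.replicate n.toNat 2) (x - n, y)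
    fun X Y => Y = y ∧ x - n ≤ X ∧ X ≤ x :=
  (CArc.line _ 2 hn).mv rfl (by ext <;> simp [dv]; ring) fun X Y ⟨i, h⟩ => by
    simp [dv] at h
    lia

theorem lineS (x y : ℤ) {n : ℤ} (hn : 0 ≤ n) : CArc (x, y) (List.replicate n.toNat 3) (x, y - n)
    fun X Y => X = x ∧ y - n ≤ Y ∧ Y ≤ y :=
  (CArc.line _ 3 hn).mv rfl (by ext <;> simp [dv]; ring) fun X Y ⟨i, h⟩ => by
    simp [dv] at h
    lia

theorem zig_arc (n : ℕ) : CArc (-n - 1, -n) (zig n) (0, 0) fun X Y =>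
    (X = -n - 1 ∧ Y = -n) ∨ (-n - 1 < X ∧ X ≤ 0 ∧ -n ≤ Y ∧ Y ≤ 0 ∧ 0 ≤ Y - X ∧ Y - X ≤ 1) := by
  induction n with
  | zero =>
    refine (CArc.one (-1, 0) 0).mv (by simp) (by simp [dv]) fun X Y h => ?_
    simp [dv] at h
    lia
  | succ n ih =>
    have h1 : CArc (-(n + 1 : ℕ) - 1, -(n + 1 : ℕ)) [0] (-n - 1, -n - 1) fun X Y =>
        Y = -n - 1 ∧ (X = -n - 1 ∨ X = -n - 2) :=
      (CArc.one _ 0).mv rfl (by ext <;> simp [dv] <;> ring) fun X Y h => by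
        simp [dv] at h
        lia
    have h2 : CArc (-n - 1, -n - 1) [1] (-n - 1, -n) fun X Y =>
        X = -n - 1 ∧ (Y = -n ∨ Y = -n - 1) :=
      (CArc.one _ 1).mv rfl (by ext <;> simp [dv]) fun X Y h => by
        simp [dv] at h
        lia
    refine (h1.append (h2.append ih fun X Y a b => ?_) fun X Y a b => ?_).mono fun X Y h => ?_
    · simp only
      lia
    · simp only
      lia
    · push_cast
      lia

theorem Net.rotate {Λ : Lat} {o P : Pt} {u v : List Dir} (h : Net Λ o P (u ++ v)) :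
    Net Λ o (endP P u) (v ++ u) := by
  obtain ⟨s, c, L, t, h1, h2⟩ := h
  refine ⟨s.rotate, Ccw.rotate s.1 c, L, TreeOK.rotate (D7.dsp_zero s.rotate) ?_, h1,
    fun W a => (h2 W a).imp_right (Out.rotate s.1)⟩
  rwa [← endP_append, s.1]

namespace PG

variable (p : PG)

/-! ### Bounding octagons of the envelopes -/

section Box

variable {p} {X Y : ℤ}

theorem Eπ.box (h : p.Eπ X Y) : -2 * p.a - p.t ≤ X ∧ X ≤ -p.a + p.t ∧ -p.a ≤ Y ∧ Y ≤ -p.t ∧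
    -3 * p.a ≤ X + Y ∧ X + Y ≤ -p.a ∧ 0 ≤ Y - X ∧ Y - X ≤ p.a + 2 * p.t := by
  obtain ⟨-, -, -, -, -, h1, h2, h3, -⟩ := p.h
  rcases h.lin with h | h | h | h | h <;> lia

theorem Esx.box (h : p.Esx X Y) : -2 * p.a - p.t ≤ X ∧ X ≤ -2 * p.a ∧ -p.a ≤ Y ∧ Y ≤ -p.a + p.t ∧
    -3 * p.a ≤ X + Y := by
  obtain ⟨-, -, -, -, -, h1, h2, h3, -⟩ := p.h
  rcases h.lin with h | h <;> lia

theorem Esy.box (h : p.Esy X Y) : -2 * p.a - p.t ≤ X ∧ X ≤ -2 * p.a ∧ -p.a + p.t ≤ Y ∧ Y ≤ 0 ∧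
    -3 * p.a ≤ X + Y ∧ Y - X ≤ 2 * p.a := by
  obtain ⟨-, -, -, -, -, h1, h2, h3, -⟩ := p.h
  rcases h.lin with h | h <;> lia

theorem ER.box (h : p.ER X Y) : -p.a + p.t ≤ X ∧ X ≤ 0 ∧ -p.a + p.t + 1 ≤ Y ∧ Y ≤ 0 ∧
    0 ≤ Y - X ∧ Y - X ≤ p.a - 2 * p.t := by
  obtain ⟨-, -, -, -, -, h1, h2, h3, -⟩ := p.h
  rcases h.lin with h | h <;> lia

theorem EV.box (h : p.EV X Y) : -3 * p.a - p.M ≤ X + Y ∧ X + Y ≤ -p.a + 2 * p.t ∧ -p.a ≤ Y - X ∧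
    Y - X ≤ p.a + 2 * p.t ∧ 2 * Y ≤ -2 * p.a + 2 * p.t + p.M := by
  obtain ⟨-, -, -, -, -, h1, h2, h3, -⟩ := p.h
  rcases h.lin with ⟨-, h⟩ | ⟨-, h⟩ <;> lia

theorem EH.box (h : p.EH X Y) : -3 * p.a - p.M ≤ X + Y ∧ X + Y ≤ -p.a + 2 * p.t ∧ -p.a ≤ Y - X ∧
    Y - X ≤ p.a + 2 * p.t ∧ 2 * Y ≤ -2 * p.a + 2 * p.t + p.M := h.ev.box

theorem EY.box (h : p.EY X Y) : True := trivial

theorem ED.box (h : p.ED X Y) : True := trivial

theorem Eg.box (h : p.Eg X Y) : -p.a + p.M ≤ Y - X ∧ Y - X ≤ p.b - p.a - p.M + 2 * p.t ∧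
    -4 * p.a - p.M ≤ 2 * Y ∧ 2 * Y ≤ p.M := by
  obtain ⟨-, -, -, -, -, h1, h2, h3, -⟩ := p.h
  obtain ⟨-, h4, h5, h | ⟨h6, h7, h8, h9, h10, -⟩⟩ := h.lin <;> lia

theorem EF.box (h : p.EF X Y) : -p.a - p.b ≤ X + Y ∧ X + Y ≤ -3 * p.a ∧ p.a + 2 * p.t ≤ Y - X ∧
    Y - X ≤ 2 * p.b - 3 * p.a + 2 * p.t ∧ -4 * p.a - p.M ≤ 2 * Y ∧
    -2 * p.a - 2 * p.b - p.M ≤ 2 * X := by
  obtain ⟨-, -, -, -, -, h1, h2, h3, h4⟩ := p.h
  rcases h.lin with ⟨-, g1, g2, g3, g4, g5, g6, -, g⟩ | ⟨-, g1, g2, g3, g4, g5, g6, g7, -⟩ <;> lia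

theorem le_b (p : PG) : 2 * p.a + p.M ≤ p.b := by
  have := p.h
  lia

theorem box7 (h : p.EH X Y ∨ p.EA1 X Y) : -3 * p.a - p.M ≤ X + Y ∧
    -4 * p.a - p.M - 2 * p.t ≤ 2 * X ∧ -4 * p.a - p.M - 2 * p.t ≤ 2 * Y ∧
    -3 * p.a - p.M ≤ Y - X ∧ Y - X ≤ 2 * p.a := by
  obtain ⟨-, -, -, -, -, h1, h2, h3, -⟩ := p.h
  rcases h with h | h | h | h | h | h | h <;> have := h.box <;> lia

end Box

theorem arc_sx : CArc (-2 * p.a - p.t, -p.a + p.t) (p.s ++ p.x) (-2 * p.a, -p.a) p.Esx := by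
  have hp := And.intro p.le_b p.h
  refine ((lineE _ _ (n := p.t) (by omega)).append (lineS _ _ (n := p.t) (by omega))
    fun X Y a b => ?_).mv rfl (by ext <;> simp) fun X Y h => ⟨by omega⟩
  simp only
  lia

theorem arc_sy : CArc (-2 * p.a - p.t, -p.a + p.t) (p.s ++ p.y) (-2 * p.a, 0) p.Esy := by
  have hp := And.intro p.le_b p.h
  refine ((lineE _ _ (n := p.t) (by omega)).append (lineN _ _ (n := p.a - p.t) (by omega))
    fun X Y a b => ?_).mv rfl (by ext <;> simp) fun X Y h => ⟨by omega⟩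
  simp only
  lia

theorem arcπ : CArc (-p.a + p.t, -p.t) p.π (-2 * p.a - p.t, -p.a + p.t) p.Eπ := by
  have hp := And.intro p.le_b p.h
  simp only [π, s, x, y, rot_replicate, back_replicate, Fin.reduceAdd]
  refine ((((((lineW _ _ (n := p.t) (by omega)).append (lineS _ _ (n := p.a - p.t) (by omega))
    fun X Y a b => ?_).append (lineW _ _ (n := p.a - p.t) (by omega)) fun X Y a b => ?_).append
    (lineW _ _ (n := p.t) (by omega)) fun X Y a b => ?_).append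
    (lineN _ _ (n := p.t) (by omega)) fun X Y a b => ?_).append
    (lineW _ _ (n := p.t) (by omega)) fun X Y a b => ?_).mv rfl (by ext <;> simp <;> ring)
    fun X Y h => ⟨?_⟩
  all_goals try simp only
  · obtain ⟨k14, k15, -⟩ := a; obtain ⟨k18, -⟩ := b; clear hp; lia
  · obtain ⟨-, k2, k3, -, k5, k6, -, k8, k9, -⟩ := hp
    obtain ⟨k23, -, k25⟩ := b
    rcases a with ⟨k15, -⟩ | ⟨k19, -⟩ <;> lia
  · obtain ⟨-, k2, k3, -, k5, k6, -, k8, k9, -⟩ := hp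
    obtain ⟨k27, -, k29⟩ := b
    rcases a with (⟨k15, -⟩ | ⟨k19, -, k21⟩) | ⟨-, k24, -⟩ <;> lia
  · obtain ⟨-, k2, k3, -, -, k6, k7, -⟩ := hp
    obtain ⟨k31, k32, -⟩ := b
    rcases a with ((⟨-, k16, -⟩ | ⟨k19, -⟩) | ⟨-, k24, -⟩) | ⟨k27, -⟩ <;> lia
  · obtain ⟨-, k2, k3, -, -, k6, k7, -⟩ := hp
    obtain ⟨k35, -, k37⟩ := b
    rcases a with (((⟨k15, -⟩ | ⟨k19, -⟩) | ⟨k23, -⟩) | ⟨k27, -⟩) | ⟨k31, -⟩ <;> lia
  · obtain ⟨-, k2, k3, -, k5, k6, k7, k8, k9, -⟩ := hp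
    rcases h with ((((⟨k15, k16, k17⟩ | ⟨k19, k20, k21⟩) | ⟨k23, k24, k25⟩) | ⟨k27, k28, k29⟩) | ⟨k31, k32, k33⟩) | ⟨k35, k36, k37⟩
    · refine .inr (.inr (.inr (.inr ?_))); lia
    · refine .inr (.inr (.inr (.inl ?_))); lia
    · refine .inr (.inr (.inl ?_)); lia
    · refine .inr (.inr (.inl ?_)); lia
    · refine .inr (.inl ?_); lia
    · refine .inl ?_; lia

theorem arcR : CArc (-p.a + p.t, -p.t) p.R (0, 0) p.ER := by
  have hp := And.intro p.le_b p.h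
  have h := zig_arc (p.a - p.t - 1).toNat
  rw [Int.toNat_of_nonneg (by omega)] at h
  refine ((lineS _ _ (n := p.a - 2 * p.t - 1) (by omega)).append
    (h.mv (by ext <;> simp only <;> ring) rfl fun _ _ g => g) fun X Y a b => ?_).mono
    fun X Y h => ⟨by omega⟩
  simp only
  lia

theorem edgeπ : (((-p.a + p.t, -p.t) : Pt), (2 : Dir)) ∈ edges (-p.a + p.t, -p.t) p.π := by
  have hp := And.intro p.le_b p.h
  obtain ⟨n, hn⟩ : ∃ n : ℕ, p.t.toNat = n + 1 := ⟨p.t.toNat - 1, by omega⟩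
  simp only [π, s, hn, rot_replicate, List.replicate_succ, List.cons_append, rot, List.map_cons]
  exact List.mem_cons_self

end PG

namespace DG

variable {p : PG} (D : DG p)

open PG

/-! ### The small piece -/

theorem arcA1 : CArc (p.t, -p.a + p.t) D.A1 (-p.a + p.t, -p.t) p.EA1 := by
  have hp := And.intro p.le_b p.h
  have h1 : CArc (p.t, -p.a + p.t) (rot 1 p.π) (p.a - p.t, -2 * p.a - p.t) fun X Y => p.Eπ Y (-X) :=
    p.arcπ.rot1 0 (by simp) (by ext <;> simp; ring) fun X Y h => by simpa using h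
  have h2 : CArc (p.a - p.t, -2 * p.a - p.t) (rot 1 D.V) (p.a - p.t, p.t) fun X Y => p.EV Y (-X) :=
    D.arcV.rot1 0 (by ext <;> simp; ring) (by ext <;> simp; ring) fun X Y h => by simpa using h
  have h3 : CArc (p.a - p.t, p.t) (rot 2 p.π) (2 * p.a + p.t, p.a - p.t)
      fun X Y => p.Eπ (-X) (-Y) :=
    p.arcπ.rot2 0 (by ext <;> simp; ring) (by ext <;> simp <;> ring) fun X Y h => by simpa using h
  have h4 : CArc (2 * p.a + p.t, p.a - p.t) (rot 2 D.V) (-p.t, p.a - p.t)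
      fun X Y => p.EV (-X) (-Y) :=
    D.arcV.rot2 0 (by ext <;> simp <;> ring) (by ext <;> simp; ring) fun X Y h => by simpa using h
  have h5 : CArc (-p.t, p.a - p.t) (rot 3 p.R) (0, 0) fun X Y => p.ER (-Y) X :=
    p.arcR.rot3 0 (by ext <;> simp; ring) (by simp) fun X Y h => by simpa using h
  refine ((((h1.append h2 ?_).append h3 ?_).append h4 ?_).append
    (h5.append p.arcR.back ?_) ?_).mono ?_
  · intro X Y a b
    have ha := And.intro a.box a.lin; have hb := And.intro b.box b.lin; dsimp only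
    obtain ⟨-, k2, k3, -, k5, k6, k7, -, k9, -⟩ := hp
    obtain ⟨⟨k14, -, k16, k17, k18, -, k20, -⟩, k22⟩ := ha
    obtain ⟨⟨-, -, k46, -, -⟩, k49⟩ := hb
    rcases k49 with ⟨k51, -, k55, -⟩ | ⟨-, -, k63, -⟩
    · rcases k22 with ⟨k24, -⟩ | ⟨k28, -⟩ | ⟨k32, k33, -⟩ | ⟨k36, -⟩ | ⟨k40, k41, -⟩
      · lia
      · rcases k51 with k52 | k53 <;> lia
      · rcases k51 with k52 | k53 <;> lia
      · lia
      · lia
    · lia
  · rintro X Y (a | a) b <;> have ha := And.intro a.box a.lin <;> have hb := And.intro b.box b.lin <;> dsimp only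
    · obtain ⟨-, k2, k3, -, -, k6, -⟩ := hp; obtain ⟨⟨-, k15, -, -, -, -, -, -⟩, -⟩ := ha; obtain ⟨⟨-, -, -, k47, -, -, -, -⟩, -⟩ := hb; lia
    · obtain ⟨-, -, k3, -, -, k6, -⟩ := hp; obtain ⟨⟨-, -, k16, -, -⟩, -⟩ := ha; obtain ⟨⟨-, k38, -, k40, -, k42, -, -⟩, -⟩ := hb; lia
  · rintro X Y ((a | a) | a) b <;> have ha := And.intro a.box a.lin <;> have hb := And.intro b.box b.lin <;> dsimp only
    · obtain ⟨-, k2, k3, -, k5, k6, -, k8, k9, -⟩ := hp; obtain ⟨⟨-, k15, k16, -, -, -, -, -⟩, -⟩ := ha; obtain ⟨⟨-, k45, -, -, k48⟩, -⟩ := hb; lia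
    · obtain ⟨-, k2, k3, -, k5, k6, -, k8, k9, -⟩ := hp
      obtain ⟨⟨-, k15, k16, -, k18⟩, -⟩ := ha
      obtain ⟨⟨-, k38, -, -, k41⟩, k42⟩ := hb
      rcases k42 with ⟨-, -, k48, -⟩ | ⟨-, -, k56, -⟩ <;> lia
    · obtain ⟨-, k2, k3, -, k5, k6, k7, -, k9, -⟩ := hp
      obtain ⟨⟨k14, -, k16, k17, k18, -, k20, -⟩, k22⟩ := ha
      obtain ⟨⟨-, -, k46, -, -⟩, k49⟩ := hb
      rcases k49 with ⟨k51, -, k55, -⟩ | ⟨-, -, k63, -⟩
      · rcases k22 with ⟨k24, -⟩ | ⟨k28, -⟩ | ⟨k32, k33, -⟩ | ⟨k36, -⟩ | ⟨k40, k41, -⟩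
        · lia
        · rcases k51 with k52 | k53 <;> lia
        · rcases k51 with k52 | k53 <;> lia
        · lia
        · lia
      · lia
  · intro X Y a b
    have ha := And.intro a.box a.lin; have hb := And.intro b.box b.lin; dsimp only
    obtain ⟨⟨-, k15, -, k17, k18, -⟩, -⟩ := ha
    obtain ⟨⟨-, -, -, k35, -, -⟩, -⟩ := hb
    clear hp
    lia
  · rintro X Y (((a | a) | a) | a) (b | b) <;> have ha := And.intro a.box a.lin <;> have hb := And.intro b.box b.lin <;> dsimp only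
    · obtain ⟨-, -, -, -, -, k6, k7, -⟩ := hp; obtain ⟨⟨-, -, -, k17, -, -, -, -⟩, -⟩ := ha; obtain ⟨⟨-, -, -, k47, -, -⟩, -⟩ := hb; lia
    · obtain ⟨⟨-, k15, -, -, -, -, -, -⟩, -⟩ := ha; obtain ⟨⟨-, -, k46, -, -, -⟩, -⟩ := hb; clear hp; lia
    · obtain ⟨-, -, k3, -, -, k6, -⟩ := hp; obtain ⟨⟨-, k15, -, -, -⟩, -⟩ := ha; obtain ⟨⟨-, k38, -, k40, k41, k42⟩, -⟩ := hb; lia
    · obtain ⟨-, -, k3, -, -, k6, -⟩ := hp; obtain ⟨⟨-, k15, -, -, -⟩, -⟩ := ha; obtain ⟨⟨-, -, -, -, k41, k42⟩, -⟩ := hb; lia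
    · obtain ⟨-, -, k3, -, -, k6, k7, -⟩ := hp; obtain ⟨⟨-, -, -, -, -, k19, -, -⟩, -⟩ := ha; obtain ⟨⟨-, -, -, -, -, k49⟩, -⟩ := hb; lia
    · obtain ⟨-, -, -, -, -, k6, k7, -⟩ := hp; obtain ⟨⟨-, -, -, k17, -, -, -, -⟩, -⟩ := ha; obtain ⟨⟨-, -, -, k47, -, -⟩, -⟩ := hb; lia
    · obtain ⟨-, k2, k3, -, k5, k6, -, k8, k9, -⟩ := hp
      obtain ⟨⟨-, k15, -, -, -⟩, -⟩ := ha
      obtain ⟨⟨k37, -, -, -, k41, k42⟩, k43⟩ := hb
      rcases k43 with ⟨k45, -, k47⟩ | ⟨-, -, -, -, k53⟩ <;> lia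
    · obtain ⟨-, -, k3, -, -, k6, -⟩ := hp; obtain ⟨⟨-, k15, -, -, -⟩, -⟩ := ha; obtain ⟨⟨-, k38, -, k40, k41, k42⟩, -⟩ := hb; lia
  · rintro X Y ((((a | a) | a) | a) | a | a)
    · exact .inl a
    · exact .inr (.inl a)
    · exact .inr (.inr (.inl a))
    · exact .inr (.inr (.inr (.inl a)))
    · exact .inr (.inr (.inr (.inr (.inl a))))
    · exact .inr (.inr (.inr (.inr (.inr a))))

theorem v_a1 {X Y : ℤ} (a : p.EV X Y) (b : p.EA1 X Y) : X = p.t ∧ Y = -p.a + p.t := by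
  have hp := And.intro p.le_b p.h
  have ha := And.intro a.box a.lin
  rcases b with b | b | b | b | b | b <;> have hb := And.intro b.box b.lin
  · obtain ⟨-, -, k3, -, -, k6, -⟩ := hp; obtain ⟨⟨-, -, k16, -, -⟩, -⟩ := ha; obtain ⟨⟨-, k38, -, k40, -, k42, -, -⟩, -⟩ := hb; lia
  · obtain ⟨-, -, k3, -, k5, k6, -, k8, k9, -⟩ := hp; obtain ⟨⟨-, k15, k16, -, -⟩, -⟩ := ha; obtain ⟨⟨-, -, -, -, k41⟩, -⟩ := hb; lia
  · obtain ⟨-, k2, k3, -, -, k6, -⟩ := hp; obtain ⟨⟨-, k15, -, -, -⟩, -⟩ := ha; obtain ⟨⟨-, -, -, k40, -, -, k43, -⟩, -⟩ := hb; lia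
  · obtain ⟨-, k2, k3, -, k5, k6, -, k8, k9, -⟩ := hp; obtain ⟨⟨-, k15, -, -, -⟩, -⟩ := ha; obtain ⟨⟨-, k38, k39, -, k41⟩, -⟩ := hb; lia
  · obtain ⟨-, -, k3, -, -, k6, -⟩ := hp; obtain ⟨⟨-, k15, -, -, -⟩, -⟩ := ha; obtain ⟨⟨-, -, -, -, k41, k42⟩, -⟩ := hb; lia
  · obtain ⟨-, -, k3, -, k5, k6, k7, -, k9, -⟩ := hp
    obtain ⟨⟨-, -, -, k17, -⟩, k19⟩ := ha
    obtain ⟨⟨-, -, k39, -, k41, -⟩, -⟩ := hb
    rcases k19 with ⟨-, -, k25, -⟩ | ⟨-, -, k33, -⟩ <;> lia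

theorem length_π : 2 < p.π.length := by
  have h1 := List.length_pos_iff.2 p.s_ne
  have h2 := List.length_pos_iff.2 p.x_ne
  simp only [π, List.length_append, length_rot, length_back]
  lia

theorem simpleA : Simple (-2 * p.a - p.t, -p.a + p.t) (D.V ++ D.A1 ++ p.π) ∧
    Ccw (-2 * p.a - p.t, -p.a + p.t) (D.V ++ D.A1 ++ p.π) ∧
    ∀ z ∈ verts (-2 * p.a - p.t, -p.a + p.t) (D.V ++ D.A1 ++ p.π), p.EA z.1 z.2 := by
  have hp := And.intro p.le_b p.h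
  have h0 := D.arcV.append D.arcA1 fun X Y a b => v_a1 a b
  obtain ⟨s, e⟩ := h0.simple p.arcπ (by
    rintro X Y (a | a | a | a | a | a | a) b <;> have ha := And.intro a.box a.lin <;> have hb := And.intro b.box b.lin <;> dsimp only
    · obtain ⟨-, k2, k3, -, k5, k6, k7, -, k9, -⟩ := hp
      obtain ⟨⟨-, -, k16, -, -⟩, k19⟩ := ha
      obtain ⟨⟨k37, -, k39, k40, k41, -, k43, -⟩, k45⟩ := hb
      rcases k19 with ⟨k21, -, k25, -⟩ | ⟨-, -, k33, -⟩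
      · rcases k45 with ⟨k47, -⟩ | ⟨k51, -⟩ | ⟨k55, k56, -⟩ | ⟨k59, -⟩ | ⟨k63, k64, -⟩
        · refine .inl ?_; lia
        · rcases k21 with k22 | k23 <;> lia
        · rcases k21 with k22 | k23 <;> lia
        · lia
        · lia
      · lia
    · obtain ⟨-, k2, k3, -⟩ := hp; obtain ⟨⟨-, -, -, -, -, k19, -, -⟩, -⟩ := ha; obtain ⟨⟨-, -, -, -, -, -, k50, -⟩, -⟩ := hb; lia
    · obtain ⟨-, k2, k3, -, k5, k6, -, k8, k9, -⟩ := hp; obtain ⟨⟨-, k15, -, k17, k18⟩, -⟩ := ha; obtain ⟨⟨-, k38, -, k40, -, -, k43, -⟩, -⟩ := hb; lia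
    · obtain ⟨-, k2, k3, -, -, k6, -⟩ := hp; obtain ⟨⟨-, k15, -, -, -, -, k20, -⟩, -⟩ := ha; obtain ⟨⟨-, -, -, k47, -, -, k50, -⟩, -⟩ := hb; lia
    · obtain ⟨-, k2, k3, -, -, k6, -⟩ := hp; obtain ⟨⟨-, k15, -, -, -⟩, -⟩ := ha; obtain ⟨⟨-, -, -, k40, -, -, k43, -⟩, -⟩ := hb; lia
    · obtain ⟨⟨-, -, k16, -, -, -⟩, -⟩ := ha; obtain ⟨⟨-, k33, -, -, -, -, -, -⟩, -⟩ := hb; clear hp; lia
    · obtain ⟨-, -, k3, -, -, k6, k7, -⟩ := hp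
      obtain ⟨⟨k14, -, k16, -, -, -⟩, -⟩ := ha
      obtain ⟨⟨-, k33, -, k35, -, -, -, -⟩, k40⟩ := hb
      rcases k40 with ⟨k42, -⟩ | ⟨-, -, k48⟩ | ⟨-, -, k52⟩ | ⟨k54, -⟩ | ⟨k58, -⟩
      · lia
      · lia
      · lia
      · lia
      · refine .inr ?_; lia
    ) (by have := length_π (p := p); rw [List.length_append]; omega)
  have e' : ∀ z ∈ verts (-2 * p.a - p.t, -p.a + p.t) (D.V ++ D.A1 ++ p.π), p.EA z.1 z.2 :=
    fun z hz => or_assoc.1 (e z hz)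
  refine ⟨s, ccw_of_out (sMem_edges_right h0.1 p.edgeπ) ?_, e'⟩
  exact OutE.rayW (A := p.EA) (X := -p.a + p.t + 0) (Y := -p.t + 1)
    (fun _ _ => aW (by omega)) _ _ s.1 e'

theorem eH : endP (-2 * p.a - p.t, -p.a + p.t) D.w0 = D.H := by
  have h1 := D.arcV.dsp_eq
  have h2 := D.arcH.dsp_eq
  rw [D.eV, dsp_append, h2] at h1
  rw [endP_dsp, eq_sub_of_add_eq h1]
  abel

theorem arcα : CArc D.H D.α (-p.a + p.t, -p.t) fun X Y => D.HS X Y ∨ p.EA1 X Y :=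
  D.arcH.append D.arcA1 fun X Y a b => v_a1 (D.hs _ _ a).ev b

/-! ### The larger piece -/

theorem arch : CArc (-3 * p.a, 0) D.h (-2 * p.a, 0) fun X Y => D.YS X Y ∨ p.Esy X Y := by
  have hp := And.intro p.le_b p.h
  refine D.arcY.append p.arc_sy fun X Y a b => ?_
  have ha := And.intro (D.ys _ _ a).box (D.ys _ _ a).lin; have hb := And.intro b.box b.lin; dsimp only
  obtain ⟨-, -, k3, -, -, k6, -⟩ := hp
  obtain ⟨-, -, -, k19, k20, -⟩ := ha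
  obtain ⟨⟨k23, -, k25, -, k27, -⟩, -⟩ := hb
  lia

theorem arcμ : CArc (p.b, 0) D.μ (2 * p.a + p.b - p.t, 2 * p.a - p.t) fun x y =>
    ((D.YS (y - 3 * p.a) (p.b - x) ∨ p.Esy (y - 3 * p.a) (p.b - x)) ∨
      D.YS (p.b - 2 * p.a - x) (p.a - y) ∨ p.Esy (p.b - 2 * p.a - x) (p.a - y)) ∨
      D.YS (y - 4 * p.a) (p.a + p.b - x) := by
  have hp := And.intro p.le_b p.h
  have h1 : CArc (p.b, 0) (rot 1 D.h) (p.b, p.a)
      fun x y => D.YS (y - 3 * p.a) (p.b - x) ∨ p.Esy (y - 3 * p.a) (p.b - x) :=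
    D.arch.rot1 (p.b, 3 * p.a) (by ext <;> simp) (by ext <;> simp; ring) fun X Y h => h
  have h2 : CArc (p.b, p.a) (back 2 D.h) (p.a + p.b, p.a)
      fun x y => D.YS (p.b - 2 * p.a - x) (p.a - y) ∨ p.Esy (p.b - 2 * p.a - x) (p.a - y) :=
    D.arch.backs 2 fun h => h.rot2 (p.b - 2 * p.a, p.a) (by ext <;> simp) (by ext <;> simp; ring)
      fun X Y h => h
  have h3 : CArc (p.a + p.b, p.a) (rot 1 D.Y) (2 * p.a + p.b - p.t, 2 * p.a - p.t)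
      fun x y => D.YS (y - 4 * p.a) (p.a + p.b - x) :=
    D.arcY.rot1 (p.a + p.b, 4 * p.a) (by ext <;> simp; ring) (by ext <;> simp <;> ring)
      fun X Y h => h
  refine (h1.append h2 ?_).append h3 ?_
  · rintro X Y (a | a) (b | b)
    · have ha := And.intro (D.ys _ _ a).box (D.ys _ _ a).lin; have hb := And.intro (D.ys _ _ b).box (D.ys _ _ b).lin; dsimp only
      obtain ⟨-, -, k3, k4, -, k6, k7, -⟩ := hp
      obtain ⟨-, -, -, k19, k20, -⟩ := ha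
      obtain ⟨-, -, -, k28, -, k30⟩ := hb
      lia
    · have ha := And.intro (D.ys _ _ a).box (D.ys _ _ a).lin; have hb := And.intro b.box b.lin; dsimp only
      obtain ⟨-, k2, k3, k4, -⟩ := hp
      obtain ⟨-, -, -, k19, -⟩ := ha
      obtain ⟨⟨-, -, -, -, -, k28⟩, -⟩ := hb
      lia
    · have ha := And.intro a.box a.lin; have hb := And.intro (D.ys _ _ b).box (D.ys _ _ b).lin; dsimp only
      obtain ⟨-, -, k3, k4, -, k6, k7, -⟩ := hp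
      obtain ⟨⟨-, k15, k16, -, k18, -⟩, -⟩ := ha
      obtain ⟨-, -, -, k35, -⟩ := hb
      lia
    · have ha := And.intro a.box a.lin; have hb := And.intro b.box b.lin; dsimp only
      obtain ⟨-, -, k3, k4, -⟩ := hp
      obtain ⟨⟨-, k15, -, k17, -, -⟩, -⟩ := ha
      obtain ⟨⟨-, -, -, k33, -, k35⟩, -⟩ := hb
      lia
  · rintro X Y ((a | a) | a | a) b <;> have hb := And.intro (D.ys _ _ b).box (D.ys _ _ b).lin <;> dsimp only
    · have ha := And.intro (D.ys _ _ a).box (D.ys _ _ a).lin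
      obtain ⟨-, -, k3, k4, -, k6, k7, -⟩ := hp
      obtain ⟨-, -, -, -, k20, -⟩ := ha
      obtain ⟨-, -, -, -, -, k30⟩ := hb
      lia
    · have ha := And.intro a.box a.lin
      obtain ⟨-, -, k3, k4, -, k6, k7, -⟩ := hp
      obtain ⟨⟨k14, -, k16, -, k18, -⟩, -⟩ := ha
      obtain ⟨-, -, -, k35, -, k37⟩ := hb
      lia
    · have ha := And.intro (D.ys _ _ a).box (D.ys _ _ a).lin
      have hc := D.foldY _ _ a (sCg b (by ring) (by ring))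
      obtain ⟨-, -, k3, k4, -⟩ := hp
      obtain ⟨-, -, -, -, -, k21⟩ := ha
      obtain ⟨-, -, -, k28, -⟩ := hb
      lia
    · have ha := And.intro a.box a.lin
      obtain ⟨-, k2, k3, k4, -, k6, -⟩ := hp
      obtain ⟨⟨k14, -, k16, -, k18, k19⟩, -⟩ := ha
      obtain ⟨-, -, -, k35, k36, k37⟩ := hb
      lia

theorem arcm : CArc (2 * p.a + p.b - p.t, 2 * p.a - p.t)
    (rot 3 p.π ++ ((rot 3 D.g ++ back 0 D.g) ++ back 0 p.π))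
    (2 * p.b - 2 * p.a + p.t, 2 * p.a + p.b - p.t) fun x y =>
      p.Eπ (p.a - y) (x - p.b - 2 * p.a) ∨ (D.GS (p.a - y) (x - p.b - 2 * p.a) ∨
        D.GS (x + p.a - 2 * p.b) (y - 2 * p.a - p.b)) ∨
        p.Eπ (x + p.a - 2 * p.b) (y - 2 * p.a - p.b) := by
  have hp := And.intro p.le_b p.h
  have h1 : CArc (2 * p.a + p.b - p.t, 2 * p.a - p.t) (rot 3 p.π)
      (p.a + p.b + p.t, 3 * p.a + p.t) fun x y => p.Eπ (p.a - y) (x - p.b - 2 * p.a) :=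
    p.arcπ.rot3 (p.b + 2 * p.a, p.a) (by ext <;> simp <;> ring) (by ext <;> simp <;> ring)
      fun X Y h => sCg h rfl (by ring)
  have h2 : CArc (p.a + p.b + p.t, 3 * p.a + p.t) (rot 3 D.g) (p.b, p.b)
      fun x y => D.GS (p.a - y) (x - p.b - 2 * p.a) :=
    D.arcG.rot3 (p.b + 2 * p.a, p.a) (by ext <;> simp <;> ring) (by ext <;> simp)
      fun X Y h => sCg h rfl (by ring)
  have h3 : CArc (p.b, p.b) (back 0 D.g) (2 * p.b - 3 * p.a - p.t, p.a + p.b + p.t)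
      fun x y => D.GS (x + p.a - 2 * p.b) (y - 2 * p.a - p.b) :=
    D.arcG.back.shift (2 * p.b - p.a, 2 * p.a + p.b) (by ext <;> simp; ring)
      (by ext <;> simp <;> ring) fun X Y h => sCg h (by ring) (by ring)
  have h4 : CArc (2 * p.b - 3 * p.a - p.t, p.a + p.b + p.t) (back 0 p.π)
      (2 * p.b - 2 * p.a + p.t, 2 * p.a + p.b - p.t)
      fun x y => p.Eπ (x + p.a - 2 * p.b) (y - 2 * p.a - p.b) :=
    p.arcπ.back.shift (2 * p.b - p.a, 2 * p.a + p.b) (by ext <;> simp <;> ring)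
      (by ext <;> simp <;> ring) fun X Y h => sCg h (by ring) (by ring)
  refine h1.append ((h2.append h3 ?_).append h4 ?_) ?_
  · intro X Y a b
    have ha := And.intro (D.gs _ _ a).box (D.gs _ _ a).lin; have hb := And.intro (D.gs _ _ b).box (D.gs _ _ b).lin
    have hc := D.foldG _ _ b (sCg a (by ring) (by ring))
    dsimp only
    obtain ⟨k1, -, k3, k4, k5, -⟩ := hp
    obtain ⟨-, -, k21, -, k23⟩ := ha
    obtain ⟨⟨k38, -, -, -⟩, -, k45, -⟩ := hb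
    rcases k23 with ⟨k25, -⟩ | ⟨-, -, -, -, k33, -⟩ <;> lia
  · rintro X Y (a | a) b <;> have ha := And.intro (D.gs _ _ a).box (D.gs _ _ a).lin <;> have hb := And.intro b.box b.lin <;> dsimp only
    · obtain ⟨k1, k2, k3, k4, k5, k6, k7, k8, k9, k10⟩ := hp
      obtain ⟨⟨-, k15, k16, k17⟩, -, k21, k22, -⟩ := ha
      obtain ⟨⟨-, k39, k40, -, k42, -, k44, k45⟩, -⟩ := hb
      rcases k10 with k11 | k12 <;> lia
    · obtain ⟨-, k2, k3, k4, k5, k6, -⟩ := hp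
      obtain ⟨⟨k14, -, k16, -⟩, k18, -, k22, -⟩ := ha
      obtain ⟨⟨k38, -, k40, k41, k42, -, -, -⟩, k46⟩ := hb
      rcases k46 with ⟨k48, -⟩ | ⟨k52, -⟩ | ⟨-, k57, -⟩ | ⟨k60, -⟩ | ⟨k64, k65, -⟩
      · lia
      · rcases k18 with k19 | k20 <;> lia
      · rcases k18 with k19 | k20 <;> lia
      · lia
      · lia
  · rintro X Y a ((b | b) | b) <;> have ha := And.intro a.box a.lin <;> dsimp only
    · have hb := And.intro (D.gs _ _ b).box (D.gs _ _ b).lin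
      obtain ⟨-, k2, k3, k4, k5, k6, -⟩ := hp
      obtain ⟨⟨k14, -, k16, k17, k18, -, -, -⟩, k22⟩ := ha
      obtain ⟨⟨k44, -, k46, -⟩, k48, -, k52, -⟩ := hb
      rcases k22 with ⟨k24, -⟩ | ⟨k28, -⟩ | ⟨k32, k33, -⟩ | ⟨k36, -⟩ | ⟨k40, k41, -⟩
      · lia
      · rcases k48 with k49 | k50 <;> lia
      · rcases k48 with k49 | k50 <;> lia
      · lia
      · lia
    · have hb := And.intro (D.gs _ _ b).box (D.gs _ _ b).lin
      obtain ⟨-, -, k3, k4, k5, k6, k7, k8, -⟩ := hp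
      obtain ⟨⟨-, -, -, -, k18, -, -, -⟩, -⟩ := ha
      obtain ⟨⟨k44, -, -, -⟩, -⟩ := hb
      lia
    · have hb := And.intro b.box b.lin
      obtain ⟨-, k2, k3, k4, -⟩ := hp
      obtain ⟨⟨-, -, -, -, k18, -, -, -⟩, -⟩ := ha
      obtain ⟨⟨-, -, -, -, -, -, k50, -⟩, -⟩ := hb
      lia

theorem arcL : CArc (2 * p.b - 2 * p.a + p.t, 2 * p.a + p.b - p.t) D.L (0, p.b) fun x y =>
    (((p.EF (p.b - 2 * p.a - x) (2 * p.b - p.a - y) ∨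
        p.Esx (p.b - 2 * p.a - x) (2 * p.b - p.a - y)) ∨
      D.DS (y - 2 * p.b - 2 * p.a) (p.b - p.a - x) ∨
        p.Esx (y - 2 * p.b - 2 * p.a) (p.b - p.a - x)) ∨
      D.DS (-2 * p.a - x) (p.a + p.b - y) ∨ p.Esy (-2 * p.a - x) (p.a + p.b - y)) ∨
      D.YS (y - 3 * p.a - p.b) (-x) ∨ p.Esy (y - 3 * p.a - p.b) (-x) := by
  have hp := And.intro p.le_b p.h
  have g1 := D.arcF.append p.arc_sx fun X Y a b => by
    have ha := And.intro a.box a.lin; have hb := And.intro b.box b.lin; dsimp only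
    obtain ⟨-, -, k3, -, -, k6, -⟩ := hp
    obtain ⟨⟨-, k15, k16, -, -, -⟩, -⟩ := ha
    obtain ⟨⟨k55, -, -, k58, k59⟩, -⟩ := hb
    lia
  have g2 := D.arcD.append p.arc_sx fun X Y a b => by
    have ha := And.intro (D.ds _ _ a).box (D.ds _ _ a).lin; have hb := And.intro b.box b.lin; dsimp only
    obtain ⟨-, -, k3, -, -, k6, -⟩ := hp
    obtain ⟨-, -, -, -, -, k21, k22, -⟩ := ha
    obtain ⟨⟨k28, -, -, k31, k32⟩, -⟩ := hb
    lia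
  have g3 := D.arcD.append p.arc_sy fun X Y a b => by
    have ha := And.intro (D.ds _ _ a).box (D.ds _ _ a).lin; have hb := And.intro b.box b.lin; dsimp only
    obtain ⟨-, -, k3, -, -, k6, -⟩ := hp
    obtain ⟨-, -, -, -, -, k21, k22, -⟩ := ha
    obtain ⟨⟨k28, -, k30, -, k32, -⟩, -⟩ := hb
    lia
  have h1 : CArc (2 * p.b - 2 * p.a + p.t, 2 * p.a + p.b - p.t) (rot 2 (D.F ++ (p.s ++ p.x)))
      (p.b, 2 * p.b) fun x y => p.EF (p.b - 2 * p.a - x) (2 * p.b - p.a - y) ∨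
        p.Esx (p.b - 2 * p.a - x) (2 * p.b - p.a - y) :=
    g1.rot2 (p.b - 2 * p.a, 2 * p.b - p.a) (by ext <;> simp <;> ring) (by ext <;> simp)
      fun X Y h => h
  have h2 : CArc (p.b, 2 * p.b) (back 1 (D.D ++ D.Y ++ (p.s ++ p.x))) (p.b - p.a, p.a + p.b)
      fun x y => D.DS (y - 2 * p.b - 2 * p.a) (p.b - p.a - x) ∨
        p.Esx (y - 2 * p.b - 2 * p.a) (p.b - p.a - x) :=
    g2.backs 1 fun h => h.rot1 (p.b - p.a, 2 * p.b + 2 * p.a) (by ext <;> simp)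
      (by ext <;> simp; ring) fun X Y h =>
        h.imp (fun h => sCg h (by ring) rfl) fun h => sCg h (by ring) rfl
  have h3 : CArc (p.b - p.a, p.a + p.b) (rot 2 (D.D ++ D.Y ++ (p.s ++ p.y))) (0, p.a + p.b)
      fun x y => D.DS (-2 * p.a - x) (p.a + p.b - y) ∨ p.Esy (-2 * p.a - x) (p.a + p.b - y) :=
    g3.rot2 (-2 * p.a, p.a + p.b) (by ext <;> simp; ring) (by ext <;> simp) fun X Y h => h
  have h4 : CArc (0, p.a + p.b) (back 1 D.h) (0, p.b)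
      fun x y => D.YS (y - 3 * p.a - p.b) (-x) ∨ p.Esy (y - 3 * p.a - p.b) (-x) :=
    D.arch.backs 1 fun h => h.rot1 (0, 3 * p.a + p.b) (by ext <;> simp; ring)
      (by ext <;> simp) fun X Y h =>
        h.imp (fun h => sCg h (by ring) (by ring)) fun h => sCg h (by ring) (by ring)
  refine ((h1.append h2 ?_).append h3 ?_).append h4 ?_
  · rintro X Y (a | a) (b | b) <;> have ha := And.intro a.box a.lin <;> dsimp only
    · have hb := And.intro (D.ds _ _ b).box (D.ds _ _ b).lin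
      obtain ⟨-, -, -, k4, -, k6, k7, -⟩ := hp
      obtain ⟨⟨-, k15, -, -, -, -⟩, -⟩ := ha
      obtain ⟨-, -, -, -, -, -, k63, -⟩ := hb
      lia
    · have hb := And.intro b.box b.lin
      obtain ⟨-, -, -, k4, -, k6, k7, -⟩ := hp
      obtain ⟨⟨-, -, k16, -, -, -⟩, -⟩ := ha
      obtain ⟨⟨-, -, -, -, k59⟩, -⟩ := hb
      lia
    · have hb := And.intro (D.ds _ _ b).box (D.ds _ _ b).lin
      obtain ⟨-, -, -, k4, -, k6, k7, -⟩ := hp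
      obtain ⟨⟨-, k15, -, k17, -⟩, -⟩ := ha
      obtain ⟨-, -, -, -, -, k36, k37, -⟩ := hb
      lia
    · have hb := And.intro b.box b.lin
      obtain ⟨-, -, -, k4, -⟩ := hp
      obtain ⟨⟨-, k15, k16, -, -⟩, -⟩ := ha
      obtain ⟨⟨-, -, k31, -, k33⟩, -⟩ := hb
      lia
  · rintro X Y ((a | a) | a | a) (b | b)
    · have ha := And.intro a.box a.lin; have hb := And.intro (D.ds _ _ b).box (D.ds _ _ b).lin; dsimp only
      obtain ⟨-, -, k3, k4, -, k6, k7, -⟩ := hp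
      obtain ⟨⟨-, k15, -, -, -, -⟩, -⟩ := ha
      obtain ⟨-, -, -, -, k61, -, k63, k64, -⟩ := hb
      lia
    · have ha := And.intro a.box a.lin; have hb := And.intro b.box b.lin; dsimp only
      obtain ⟨-, k2, k3, k4, -, k6, -⟩ := hp
      obtain ⟨⟨-, k15, k16, k17, -, -⟩, -⟩ := ha
      obtain ⟨⟨k55, -, k57, -, -, -⟩, -⟩ := hb
      lia
    · have ha := And.intro a.box a.lin; have hb := And.intro (D.ds _ _ b).box (D.ds _ _ b).lin; dsimp only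
      obtain ⟨-, k2, k3, k4, -⟩ := hp
      obtain ⟨⟨-, k15, -, -, -⟩, -⟩ := ha
      obtain ⟨-, -, -, -, k35, -, -, k38, -⟩ := hb
      lia
    · have ha := And.intro a.box a.lin; have hb := And.intro b.box b.lin; dsimp only
      obtain ⟨-, -, k3, k4, -⟩ := hp
      obtain ⟨⟨-, k15, k16, -, -⟩, -⟩ := ha
      obtain ⟨⟨-, -, -, k32, k33, -⟩, -⟩ := hb
      lia
    · have ha := And.intro (D.ds _ _ a).box (D.ds _ _ a).lin; have hb := And.intro (D.ds _ _ b).box (D.ds _ _ b).lin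
      have hc := D.foldD _ _ b (sCg a (by ring) (by ring))
      dsimp only
      obtain ⟨-, -, k3, k4, -⟩ := hp
      obtain ⟨-, -, -, -, k20, -, -, k23, -⟩ := ha
      obtain ⟨-, -, -, -, k34, -⟩ := hb
      lia
    · have ha := And.intro (D.ds _ _ a).box (D.ds _ _ a).lin; have hb := And.intro b.box b.lin; dsimp only
      obtain ⟨-, k2, k3, k4, -⟩ := hp
      obtain ⟨-, -, -, -, -, k21, -⟩ := ha
      obtain ⟨⟨-, -, -, -, -, k33⟩, -⟩ := hb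
      lia
    · have ha := And.intro a.box a.lin; have hb := And.intro (D.ds _ _ b).box (D.ds _ _ b).lin; dsimp only
      obtain ⟨k1, -, k3, k4, k5, k6, k7, k8, -⟩ := hp
      obtain ⟨⟨k14, -, -, -, -⟩, -⟩ := ha
      obtain ⟨-, -, -, -, k35, k36, k37, -⟩ := hb
      lia
    · have ha := And.intro a.box a.lin; have hb := And.intro b.box b.lin; dsimp only
      obtain ⟨-, -, k3, k4, -, k6, -⟩ := hp
      obtain ⟨⟨-, k15, -, k17, -⟩, -⟩ := ha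
      obtain ⟨⟨-, -, k31, k32, -, k34⟩, -⟩ := hb
      lia
  · rintro X Y (((a | a) | a | a) | a | a) (b | b)
    all_goals
      first | have ha := And.intro (D.ds _ _ a).box (D.ds _ _ a).lin | have ha := And.intro a.box a.lin
      first | have hb := And.intro (D.ys _ _ b).box (D.ys _ _ b).lin | have hb := And.intro b.box b.lin
      dsimp only
    · obtain ⟨-, k2, k3, k4, -, k6, -⟩ := hp; obtain ⟨⟨-, k15, -, k17, -, -⟩, -⟩ := ha; obtain ⟨-, -, -, k60, k61, -⟩ := hb; lia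
    · obtain ⟨-, -, -, k4, -, k6, k7, -⟩ := hp; obtain ⟨⟨-, -, k16, -, -, -⟩, -⟩ := ha; obtain ⟨⟨-, -, -, -, k59, -⟩, -⟩ := hb; lia
    · obtain ⟨k1, k2, k3, k4, k5, k6, k7, -⟩ := hp; obtain ⟨⟨-, k15, -, -, -⟩, -⟩ := ha; obtain ⟨-, -, k33, k34, k35, -⟩ := hb; lia
    · obtain ⟨k1, k2, k3, k4, k5, k6, k7, k8, -⟩ := hp; obtain ⟨⟨-, k15, k16, -, -⟩, -⟩ := ha; obtain ⟨⟨k29, -, k31, -, k33, -⟩, -⟩ := hb; lia
    · obtain ⟨k1, -, k3, k4, k5, k6, k7, -⟩ := hp; obtain ⟨-, -, -, k19, k20, -⟩ := ha; obtain ⟨-, -, -, -, k34, -⟩ := hb; lia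
    · obtain ⟨-, -, k3, k4, -, k6, k7, -⟩ := hp; obtain ⟨-, -, -, -, k20, k21, -, k23, -⟩ := ha; obtain ⟨⟨k28, -, k30, -, k32, -⟩, -⟩ := hb; lia
    · obtain ⟨k1, k2, k3, k4, k5, k6, -⟩ := hp; obtain ⟨⟨-, -, -, k17, k18⟩, -⟩ := ha; obtain ⟨-, -, k33, k34, k35, -⟩ := hb; lia
    · obtain ⟨k1, -, k3, k4, k5, k6, -, k8, -⟩ := hp; obtain ⟨⟨k14, k15, k16, k17, -⟩, -⟩ := ha; obtain ⟨⟨-, k30, k31, -, -, k34⟩, -⟩ := hb; lia
    · obtain ⟨-, -, k3, k4, -, k6, k7, -⟩ := hp; obtain ⟨-, -, -, -, -, k21, -⟩ := ha; obtain ⟨-, -, -, -, k34, -⟩ := hb; lia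
    · obtain ⟨-, -, k3, k4, -, k6, k7, -⟩ := hp; obtain ⟨-, -, -, -, -, k21, -⟩ := ha; obtain ⟨⟨-, k29, k30, -, k32, -⟩, -⟩ := hb; lia
    · obtain ⟨-, k2, k3, k4, -⟩ := hp; obtain ⟨⟨-, -, -, -, -, k19⟩, -⟩ := ha; obtain ⟨-, -, -, k35, -⟩ := hb; lia
    · obtain ⟨-, -, k3, k4, -⟩ := hp; obtain ⟨⟨-, k15, -, k17, -, k19⟩, -⟩ := ha; obtain ⟨⟨-, k31, -, -, -, -⟩, -⟩ := hb; lia

theorem m_L {X Y : ℤ} (a : p.Eπ (p.a - Y) (X - p.b - 2 * p.a) ∨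
      (p.Eg (p.a - Y) (X - p.b - 2 * p.a) ∨ p.Eg (X + p.a - 2 * p.b) (Y - 2 * p.a - p.b)) ∨
      p.Eπ (X + p.a - 2 * p.b) (Y - 2 * p.a - p.b))
    (b : p.EF (p.b - 2 * p.a - X) (2 * p.b - p.a - Y)) :
    X = 2 * p.b - 2 * p.a + p.t ∧ Y = 2 * p.a + p.b - p.t := by
  have hp := And.intro p.le_b p.h
  have hb := And.intro b.box b.lin
  rcases a with a | (a | a) | a <;> have ha := And.intro a.box a.lin
  · obtain ⟨k1, -, k3, k4, k5, k6, k7, k8, -⟩ := hp; obtain ⟨⟨k14, -, -, -, -, -, -, k21⟩, -⟩ := ha; obtain ⟨⟨-, k45, -, -, -, k49⟩, -⟩ := hb; lia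
  · obtain ⟨k1, -, k3, k4, k5, k6, k7, k8, -⟩ := hp; obtain ⟨⟨-, k15, -, -⟩, -, k21, k22, -⟩ := ha; obtain ⟨⟨-, k39, -, -, -, -⟩, -⟩ := hb; lia
  · obtain ⟨-, k2, k3, k4, -⟩ := hp; obtain ⟨-, -, -, k22, -⟩ := ha; obtain ⟨⟨-, k39, -, -, -, -⟩, -⟩ := hb; lia
  · obtain ⟨-, -, k3, k4, -, k6, -⟩ := hp; obtain ⟨⟨-, k15, -, k17, -, k19, -, -⟩, -⟩ := ha; obtain ⟨⟨-, k45, -, -, -, -⟩, -⟩ := hb; lia

theorem m_L' {X Y : ℤ} (a : p.Eπ (p.a - Y) (X - p.b - 2 * p.a) ∨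
      (p.Eg (p.a - Y) (X - p.b - 2 * p.a) ∨ p.Eg (X + p.a - 2 * p.b) (Y - 2 * p.a - p.b)) ∨
      p.Eπ (X + p.a - 2 * p.b) (Y - 2 * p.a - p.b))
    (b : p.ED (Y - 2 * p.b - 2 * p.a) (p.b - p.a - X) ∨ p.ED (-2 * p.a - X) (p.a + p.b - Y)) :
    False := by
  have hp := And.intro p.le_b p.h
  rcases b with b | b <;> have hb := And.intro b.box b.lin <;> rcases a with a | (a | a) | a <;> have ha := And.intro a.box a.lin
  · obtain ⟨-, k2, k3, k4, -⟩ := hp; obtain ⟨⟨-, -, -, -, k18, k19, -, -⟩, -⟩ := ha; obtain ⟨-, -, -, -, k50, k51, -⟩ := hb; lia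
  · obtain ⟨-, k2, k3, -⟩ := hp; obtain ⟨-, -, k21, -⟩ := ha; obtain ⟨-, -, -, -, k44, -⟩ := hb; lia
  · obtain ⟨-, -, k3, k4, k5, k6, -, k8, -⟩ := hp
    obtain ⟨⟨-, k15, -, -⟩, k18, -⟩ := ha
    obtain ⟨-, k39, -, -, k44, -⟩ := hb
    rcases k18 with k19 | k20
    · rcases k39 with k40 | k41 <;> lia
    · rcases k39 with k40 | k41 <;> lia
  · obtain ⟨k1, -, k3, k4, k5, k6, k7, k8, -⟩ := hp
    obtain ⟨⟨k14, k15, k16, k17, -, -, -, k21⟩, k22⟩ := ha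
    obtain ⟨-, k45, -, k49, k50, k51, -, k53, -⟩ := hb
    rcases k22 with ⟨k24, -⟩ | ⟨k28, -, k30⟩ | ⟨k32, k33, -⟩ | ⟨k36, -⟩ | ⟨k40, k41, -⟩
    · rcases k45 with k46 | k47 <;> lia
    · lia
    · lia
    · lia
    · lia
  · obtain ⟨-, k2, k3, k4, -, k6, -⟩ := hp; obtain ⟨⟨-, -, k16, -, -, -, -, k21⟩, -⟩ := ha; obtain ⟨-, -, -, -, k50, -, k52, k53, -⟩ := hb; lia
  · obtain ⟨-, -, k3, k4, k5, k6, k7, -, k9, -⟩ := hp; obtain ⟨⟨-, -, k16, -⟩, -⟩ := ha; obtain ⟨-, -, -, k43, k44, -⟩ := hb; lia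
  · obtain ⟨-, -, k3, k4, k5, k6, -, k8, -⟩ := hp
    obtain ⟨⟨-, k15, -, -⟩, k18, k21, -⟩ := ha
    obtain ⟨-, -, -, -, k44, -, -, k47, -⟩ := hb
    rcases k18 with k19 | k20 <;> lia
  · obtain ⟨k1, -, k3, k4, k5, k6, k7, k8, -⟩ := hp; obtain ⟨⟨-, -, -, -, k18, -, -, k21⟩, -⟩ := ha; obtain ⟨-, -, -, -, k50, -, -, k53, -⟩ := hb; lia

theorem arcq : CArc (p.b, 0) D.q (0, p.b) (p.Eq' D.YS D.GS D.DS) := by
  have hp := And.intro p.le_b p.h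
  have e : D.q = D.μ ++ (rot 3 p.π ++ ((rot 3 D.g ++ back 0 D.g) ++ back 0 p.π)) ++ D.L := by
    simp only [q, List.append_assoc]
  rw [e]
  refine ((D.arcμ.append D.arcm ?_).append D.arcL ?_).mono ?_
  · rintro X Y (((a | a) | a | a) | a) (b | (b | b) | b)
    all_goals
      first | have ha := And.intro (D.ys _ _ a).box (D.ys _ _ a).lin | have ha := And.intro a.box a.lin
      first | have hb := And.intro (D.gs _ _ b).box (D.gs _ _ b).lin | have hb := And.intro b.box b.lin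
      dsimp only
    · obtain ⟨-, k2, k3, k4, -, k6, -⟩ := hp; obtain ⟨-, -, -, k19, k20, -⟩ := ha; obtain ⟨⟨-, k24, -, k26, -, k28, -, -⟩, -⟩ := hb; lia
    · obtain ⟨-, k2, k3, k4, -⟩ := hp; obtain ⟨-, -, -, k19, -⟩ := ha; obtain ⟨-, -, -, k31, -⟩ := hb; lia
    · obtain ⟨-, k2, k3, k4, k5, -⟩ := hp; obtain ⟨-, -, k18, k19, -⟩ := ha; obtain ⟨⟨k23, -, k25, k26⟩, -⟩ := hb; lia
    · obtain ⟨-, k2, k3, k4, -⟩ := hp; obtain ⟨-, -, -, k19, -⟩ := ha; obtain ⟨⟨-, -, -, -, -, -, k29, -⟩, -⟩ := hb; lia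
    · obtain ⟨-, -, k3, k4, -, k6, k7, -⟩ := hp; obtain ⟨⟨-, k15, k16, -, k18, -⟩, -⟩ := ha; obtain ⟨⟨-, -, k32, -, -, -, -, -⟩, -⟩ := hb; lia
    · obtain ⟨-, -, k3, k4, k5, k6, k7, k8, -⟩ := hp; obtain ⟨⟨-, k15, k16, -, -, -⟩, -⟩ := ha; obtain ⟨⟨k30, -, -, -⟩, -⟩ := hb; lia
    · obtain ⟨k1, -, k3, k4, k5, k6, k7, k8, -⟩ := hp; obtain ⟨⟨-, k15, -, -, -, -⟩, -⟩ := ha; obtain ⟨⟨k30, k31, k32, k33⟩, -, k37, k38, -⟩ := hb; lia
    · obtain ⟨-, k2, k3, k4, -⟩ := hp; obtain ⟨⟨-, k15, -, k17, -, -⟩, -⟩ := ha; obtain ⟨⟨-, -, -, -, -, -, k36, -⟩, -⟩ := hb; lia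
    · obtain ⟨-, -, k3, k4, k5, k6, k7, -, k9, -⟩ := hp; obtain ⟨-, -, k18, -⟩ := ha; obtain ⟨⟨-, -, -, -, -, -, k29, -⟩, -⟩ := hb; lia
    · obtain ⟨-, -, k3, k4, k5, k6, k7, -⟩ := hp; obtain ⟨-, -, k18, -, k20, -⟩ := ha; obtain ⟨⟨k23, -, -, -⟩, -, -, k31, -⟩ := hb; lia
    · obtain ⟨-, -, k3, k4, k5, k6, k7, -⟩ := hp; obtain ⟨-, -, k18, k19, k20, -⟩ := ha; obtain ⟨⟨k23, -, -, -⟩, -⟩ := hb; lia
    · obtain ⟨-, -, k3, k4, -, k6, -⟩ := hp; obtain ⟨-, -, -, -, k20, -⟩ := ha; obtain ⟨⟨k23, k24, -, -, -, -, k29, -⟩, -⟩ := hb; lia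
    · obtain ⟨-, -, k3, k4, -, k6, k7, -⟩ := hp; obtain ⟨⟨-, -, k16, -, -, k19⟩, -⟩ := ha; obtain ⟨⟨-, k31, k32, -, -, -, -, -⟩, -⟩ := hb; lia
    · obtain ⟨-, -, k3, k4, k5, k6, k7, k8, -⟩ := hp; obtain ⟨⟨-, -, -, -, k18, -⟩, -⟩ := ha; obtain ⟨⟨k30, -, -, -⟩, -⟩ := hb; lia
    · obtain ⟨k1, -, k3, k4, k5, k6, k7, k8, -⟩ := hp; obtain ⟨⟨-, -, -, -, k18, -⟩, -⟩ := ha; obtain ⟨-, -, k37, k38, -⟩ := hb; lia
    · obtain ⟨-, -, k3, k4, -⟩ := hp; obtain ⟨⟨-, k15, -, -, k18, -⟩, -⟩ := ha; obtain ⟨⟨-, -, k32, -, -, k35, -, -⟩, -⟩ := hb; lia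
    · obtain ⟨-, -, k3, k4, -, k6, -⟩ := hp; obtain ⟨-, -, -, k19, k20, -⟩ := ha; obtain ⟨⟨-, k24, -, k26, -, k28, -, -⟩, -⟩ := hb; lia
    · obtain ⟨-, k2, k3, k4, -⟩ := hp; obtain ⟨-, -, -, k19, -⟩ := ha; obtain ⟨-, -, -, k31, -⟩ := hb; lia
    · obtain ⟨-, k2, k3, k4, k5, -⟩ := hp; obtain ⟨-, -, k18, k19, -⟩ := ha; obtain ⟨⟨k23, -, k25, k26⟩, -⟩ := hb; lia
    · obtain ⟨-, k2, k3, k4, -⟩ := hp; obtain ⟨-, -, -, k19, -⟩ := ha; obtain ⟨⟨-, -, -, -, -, -, k29, -⟩, -⟩ := hb; lia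
  · rintro X Y (a | a) b
    · have : 2 * Y < 4 * p.a + p.M := by
        rcases a with ((a | a) | a | a) | a
        all_goals
          first | have ha := And.intro (D.ys _ _ a).box (D.ys _ _ a).lin | have ha := And.intro a.box a.lin
        · obtain ⟨-, -, k3, k4, k5, k6, k7, -⟩ := hp; obtain ⟨-, -, k18, k19, k20, k21⟩ := ha; lia
        · obtain ⟨-, k2, k3, -, k5, k6, k7, k8, -⟩ := hp; obtain ⟨⟨-, k15, -, -, -, -⟩, -⟩ := ha; lia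
        · obtain ⟨-, -, k3, k4, k5, k6, k7, -⟩ := hp; obtain ⟨-, -, k18, -, k20, -⟩ := ha; lia
        · obtain ⟨-, -, k3, -, k5, k6, k7, k8, -⟩ := hp; obtain ⟨⟨-, -, k16, -, -, -⟩, -⟩ := ha; lia
        · obtain ⟨-, -, k3, k4, k5, k6, k7, k8, -⟩ := hp; obtain ⟨-, -, -, k19, k20, -⟩ := ha; lia
      have : 4 * p.a + p.M ≤ 2 * Y := by
        rcases b with (((b | b) | b | b) | b | b) | b | b
        all_goals
          first | have hb := And.intro (D.ys _ _ b).box (D.ys _ _ b).lin | have hb := And.intro (D.ds _ _ b).box (D.ds _ _ b).lin | have hb := And.intro b.box b.lin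
        · obtain ⟨k1, k2, k3, k4, k5, -⟩ := hp; obtain ⟨⟨-, k15, -, -, -, k19⟩, -⟩ := hb; lia
        · obtain ⟨k1, k2, k3, k4, k5, k6, k7, k8, -⟩ := hp; obtain ⟨⟨-, -, -, k17, -⟩, -⟩ := hb; lia
        · obtain ⟨k1, -, k3, k4, k5, k6, k7, -⟩ := hp; obtain ⟨-, -, -, -, k20, -, k22, k23, -⟩ := hb; lia
        · obtain ⟨k1, k2, k3, k4, k5, k6, k7, k8, -⟩ := hp; obtain ⟨⟨k14, -, -, -, -⟩, -⟩ := hb; lia
        · obtain ⟨k1, k2, k3, k4, k5, -⟩ := hp; obtain ⟨-, -, -, k19, -⟩ := hb; lia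
        · obtain ⟨k1, k2, k3, k4, k5, k6, k7, k8, -⟩ := hp; obtain ⟨⟨-, -, -, k17, -, -⟩, -⟩ := hb; lia
        · obtain ⟨k1, -, k3, k4, k5, -⟩ := hp; obtain ⟨-, -, k18, -, -, k21⟩ := hb; lia
        · obtain ⟨k1, k2, k3, k4, k5, k6, -, k8, -⟩ := hp; obtain ⟨⟨k14, -, -, -, -, -⟩, -⟩ := hb; lia
      lia
    · replace a := a.imp_right (Or.imp_left (Or.imp (D.gs _ _) (D.gs _ _)))
      rcases b with (((b | b) | b | b) | b | b) | b | b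
      · exact m_L a b
      rotate_left
      · exact (m_L' a (.inl (D.ds _ _ b))).elim
      rotate_left
      · exact (m_L' a (.inr (D.ds _ _ b))).elim
      all_goals
        first | have hb := And.intro (D.ys _ _ b).box (D.ys _ _ b).lin | have hb := And.intro b.box b.lin
        exfalso
        rcases a with a | (a | a) | a <;> have ha := And.intro a.box a.lin
      · obtain ⟨-, k2, k3, k4, -⟩ := hp; obtain ⟨⟨-, -, -, -, -, -, k20, -⟩, -⟩ := ha; obtain ⟨⟨-, -, -, -, k48, -⟩, -⟩ := hb; lia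
      · obtain ⟨-, -, k3, k4, k5, k6, k7, k8, -⟩ := hp; obtain ⟨⟨k14, -, -, -⟩, -⟩ := ha; obtain ⟨⟨-, -, -, -, k42, -⟩, -⟩ := hb; lia
      · obtain ⟨k1, -, k3, k4, k5, k6, k7, k8, -⟩ := hp; obtain ⟨-, -, k21, k22, -⟩ := ha; obtain ⟨⟨-, -, -, -, k42, -⟩, -⟩ := hb; lia
      · obtain ⟨k1, -, k3, k4, k5, k6, k7, k8, -⟩ := hp; obtain ⟨⟨-, -, -, -, k18, -, -, -⟩, -⟩ := ha; obtain ⟨⟨-, -, -, -, k48, -⟩, -⟩ := hb; lia
      · obtain ⟨-, -, k3, k4, -, k6, -⟩ := hp; obtain ⟨⟨k14, k15, -, -, -, -, k20, -⟩, -⟩ := ha; obtain ⟨-, -, -, -, k50, -⟩ := hb; lia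
      · obtain ⟨-, -, k3, k4, k5, k6, k7, -⟩ := hp; obtain ⟨⟨k14, -, -, -⟩, -⟩ := ha; obtain ⟨-, -, k42, k43, k44, -⟩ := hb; lia
      · obtain ⟨-, -, k3, k4, k5, k6, k7, -⟩ := hp; obtain ⟨⟨-, k15, -, -⟩, -, k21, k22, -⟩ := ha; obtain ⟨-, -, k42, -, k44, -⟩ := hb; lia
      · obtain ⟨k1, -, k3, k4, k5, k6, k7, k8, -⟩ := hp; obtain ⟨⟨-, -, -, -, k18, -, -, k21⟩, -⟩ := ha; obtain ⟨-, -, k48, -, k50, -⟩ := hb; lia
      · obtain ⟨k1, -, k3, k4, k5, k6, -, k8, -⟩ := hp; obtain ⟨⟨k14, k15, -, -, k18, -, -, -⟩, -⟩ := ha; obtain ⟨⟨k44, -, -, -, k48, -⟩, -⟩ := hb; lia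
      · obtain ⟨k1, -, k3, k4, k5, k6, -, k8, -⟩ := hp; obtain ⟨⟨-, k15, k16, -⟩, -⟩ := ha; obtain ⟨⟨k38, -, k40, -, k42, -⟩, -⟩ := hb; lia
      · obtain ⟨k1, -, k3, k4, k5, k6, k7, k8, -⟩ := hp; obtain ⟨⟨-, k15, -, -⟩, -, k21, k22, -⟩ := ha; obtain ⟨⟨-, -, -, -, k42, -⟩, -⟩ := hb; lia
      · obtain ⟨k1, -, k3, k4, k5, k6, k7, k8, -⟩ := hp; obtain ⟨⟨k14, -, -, -, -, -, -, -⟩, -⟩ := ha; obtain ⟨⟨-, -, k46, -, -, -⟩, -⟩ := hb; lia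
      · obtain ⟨k1, -, k3, k4, k5, k6, -, k8, -⟩ := hp; obtain ⟨⟨k14, k15, -, -, k18, -, -, k21⟩, -⟩ := ha; obtain ⟨⟨-, -, -, k47, -⟩, -⟩ := hb; lia
      · obtain ⟨k1, -, k3, k4, k5, k6, k7, k8, -⟩ := hp; obtain ⟨⟨k14, k15, -, -⟩, -, k21, -⟩ := ha; obtain ⟨⟨-, -, -, k41, -⟩, -⟩ := hb; lia
      · obtain ⟨k1, k2, k3, k4, k5, k6, -, k8, -⟩ := hp; obtain ⟨⟨-, k15, -, k17⟩, -, -, k22, -⟩ := ha; obtain ⟨⟨-, -, -, k41, -⟩, -⟩ := hb; lia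
      · obtain ⟨k1, -, k3, k4, k5, k6, k7, k8, -⟩ := hp; obtain ⟨⟨-, -, -, k17, -, k19, -, k21⟩, -⟩ := ha; obtain ⟨⟨-, -, -, k47, -⟩, -⟩ := hb; lia
      · obtain ⟨-, k2, k3, k4, -⟩ := hp; obtain ⟨⟨-, -, k16, -, -, -, -, -⟩, -⟩ := ha; obtain ⟨⟨-, -, k46, -, -⟩, -⟩ := hb; lia
      · obtain ⟨k1, -, k3, k4, k5, k6, k7, k8, -⟩ := hp; obtain ⟨⟨k14, k15, k16, -⟩, -, k21, -⟩ := ha; obtain ⟨⟨k38, -, k40, -, k42⟩, -⟩ := hb; lia
      · obtain ⟨k1, -, k3, k4, k5, k6, k7, k8, -⟩ := hp; obtain ⟨⟨-, k15, -, -⟩, -, k21, k22, -⟩ := ha; obtain ⟨⟨-, -, -, -, k42⟩, -⟩ := hb; lia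
      · obtain ⟨k1, -, k3, k4, k5, k6, k7, k8, -⟩ := hp; obtain ⟨⟨-, -, -, -, -, k19, -, k21⟩, -⟩ := ha; obtain ⟨⟨k44, -, -, -, k48⟩, -⟩ := hb; lia
  · rintro X Y (((((h | h) | h | h) | h) | h | (h | h) | h) | (((h | h) | h | h) | h | h) | h | h)
    all_goals simp only [Eq', h, true_or, or_true]

variable {D} in
theorem q_env {X Y : ℤ} (h : p.Eq' D.YS D.GS D.DS X Y) : p.Eq X Y := h.mono D.ys D.gs D.ds

variable {D} in
theorem q_q {X Y : ℤ} (h : p.Eq' D.YS D.GS D.DS X Y) (g : p.Eq' D.YS D.GS D.DS Y (-X)) :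
    X = 0 ∧ Y = p.b := by
  have hp := And.intro p.le_b p.h
  have hl := (q_env h).lin
  have h1 : D.YS (-X - 3 * p.a) (p.b - Y) ∨ (X = 0 ∧ Y = p.b) := by
    rcases g with g | g | g | g | g | g | g | g | g | g | g | g | g | g | g | g | g
    · exact .inl g
    all_goals
      first
        | have hb := And.intro (D.ys _ _ g).box (D.ys _ _ g).lin | have hb := And.intro (D.gs _ _ g).box (D.gs _ _ g).lin | have hb := And.intro (D.ds _ _ g).box (D.ds _ _ g).lin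
        | have hb := And.intro g.box g.lin
      refine .inr ?_
    · obtain ⟨-, k2, k3, k4, -⟩ := hp; obtain ⟨k14, k15, -⟩ := hl; obtain ⟨⟨-, -, -, k31, k32, k33⟩, -⟩ := hb; lia
    · obtain ⟨-, k2, k3, -⟩ := hp; obtain ⟨k14, -⟩ := hl; obtain ⟨⟨-, -, -, k31, -, -⟩, -⟩ := hb; lia
    · obtain ⟨-, k2, k3, k4, -⟩ := hp; obtain ⟨k14, k15, -⟩ := hl; obtain ⟨-, -, -, k33, -, k35⟩ := hb; lia
    · obtain ⟨-, -, k3, k4, k5, k6, k7, -, k9, -⟩ := hp; obtain ⟨k14, k15, -⟩ := hl; obtain ⟨-, -, k32, -, -, k35⟩ := hb; lia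
    · obtain ⟨-, k2, k3, k4, -, k6, -⟩ := hp; obtain ⟨k14, k15, -⟩ := hl; obtain ⟨⟨-, k29, k30, k31, -, k33, -, -⟩, -⟩ := hb; lia
    · obtain ⟨-, k2, k3, k4, -⟩ := hp; obtain ⟨-, k15, -⟩ := hl; obtain ⟨-, -, -, k36, -⟩ := hb; lia
    · obtain ⟨-, -, k3, k4, k5, -⟩ := hp; obtain ⟨k14, k15, -, k17, -⟩ := hl; obtain ⟨⟨k28, -, k30, k31⟩, -, k35, -⟩ := hb; lia
    · obtain ⟨-, k2, k3, k4, -⟩ := hp; obtain ⟨-, k15, -⟩ := hl; obtain ⟨⟨-, -, -, -, -, -, k34, -⟩, -⟩ := hb; lia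
    · obtain ⟨k1, -, k3, k4, k5, -⟩ := hp; obtain ⟨k14, -, -, k17, k18, -⟩ := hl; obtain ⟨⟨-, k29, -, -, -, -⟩, -⟩ := hb; lia
    · obtain ⟨k1, k2, k3, k4, k5, k6, -, k8, -⟩ := hp; obtain ⟨-, k15, -, -, k18, -⟩ := hl; obtain ⟨⟨-, -, -, k31, -⟩, -⟩ := hb; lia
    · obtain ⟨-, -, -, k4, -⟩ := hp; obtain ⟨k14, k15, -, k17, -⟩ := hl; obtain ⟨⟨-, -, -, -, k32⟩, -⟩ := hb; lia
    · obtain ⟨k1, -, k3, k4, k5, -⟩ := hp; obtain ⟨k14, k15, -, k17, -⟩ := hl; obtain ⟨-, -, k32, -, -, -, -, k37, -⟩ := hb; lia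
    · obtain ⟨-, k2, k3, -, k5, k6, k7, -, k9, -⟩ := hp; obtain ⟨k14, -, k16, -⟩ := hl; obtain ⟨-, -, -, -, -, -, -, k37, -⟩ := hb; lia
    · obtain ⟨-, k2, k3, k4, -⟩ := hp; obtain ⟨k14, k15, -, k17, -⟩ := hl; obtain ⟨⟨-, -, -, -, -, k33⟩, -⟩ := hb; lia
    · obtain ⟨-, -, -, k4, -⟩ := hp; obtain ⟨k14, k15, -, k17, -⟩ := hl; obtain ⟨⟨-, -, -, -, k32, -⟩, -⟩ := hb; lia
    · obtain ⟨k1, -, k3, k4, k5, k6, k7, -, k9, -⟩ := hp; obtain ⟨k14, -, k16, k17, -⟩ := hl; obtain ⟨-, -, k32, -⟩ := hb; lia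
  rcases h1 with g | g
  · have hb := And.intro (D.ys _ _ g).box (D.ys _ _ g).lin
    rcases h with h | h | h | h | h | h | h | h | h | h | h | h | h | h | h | h | h
    rotate_right
    · have ha := And.intro (D.ys _ _ h).box (D.ys _ _ h).lin
      have hc := D.foldY _ _ g (sCg h (by ring) (by ring))
      obtain ⟨-, -, -, k4, -⟩ := hp
      obtain ⟨k14, -⟩ := hl
      obtain ⟨-, -, -, k33, -⟩ := ha
      obtain ⟨-, -, -, -, -, k44⟩ := hb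
      lia
    all_goals
      first
        | have ha := And.intro (D.ys _ _ h).box (D.ys _ _ h).lin | have ha := And.intro (D.gs _ _ h).box (D.gs _ _ h).lin | have ha := And.intro (D.ds _ _ h).box (D.ds _ _ h).lin
        | have ha := And.intro h.box h.lin
    · obtain ⟨-, -, -, k4, -⟩ := hp; obtain ⟨k14, -, -, k17, -⟩ := hl; obtain ⟨-, -, -, k33, -⟩ := ha; obtain ⟨-, -, -, -, -, k44⟩ := hb; lia
    · obtain ⟨-, -, k3, k4, k5, k6, k7, -, k9, -⟩ := hp; obtain ⟨⟨-, -, -, -, -, k33⟩, -⟩ := ha; obtain ⟨-, -, k48, -⟩ := hb; clear hl; lia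
    · obtain ⟨-, -, k3, k4, k5, k6, k7, -, k9, -⟩ := hp; obtain ⟨⟨-, k29, -, k31, -, -⟩, -⟩ := ha; obtain ⟨-, -, k48, -⟩ := hb; clear hl; lia
    · obtain ⟨-, -, k3, k4, k5, k6, k7, -, k9, -⟩ := hp; obtain ⟨k14, -⟩ := hl; obtain ⟨-, -, -, k33, -⟩ := ha; obtain ⟨-, -, k41, -, -, k44⟩ := hb; lia
    · obtain ⟨-, -, -, k4, -⟩ := hp; obtain ⟨k14, -, -, k17, -⟩ := hl; obtain ⟨-, -, -, k33, -⟩ := ha; obtain ⟨-, -, -, -, -, k44⟩ := hb; lia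
    · obtain ⟨-, -, k3, k4, -⟩ := hp; obtain ⟨-, -, -, k17, -⟩ := hl; obtain ⟨⟨-, -, k30, -, k32, -, -, -⟩, -⟩ := ha; obtain ⟨-, -, -, -, -, k65⟩ := hb; lia
    · obtain ⟨-, k2, k3, k4, k5, -⟩ := hp; obtain ⟨⟨k28, -, -, -⟩, -⟩ := ha; obtain ⟨-, -, k56, -⟩ := hb; clear hl; lia
    · obtain ⟨k1, k2, k3, k4, k5, k6, -, k8, -⟩ := hp; obtain ⟨k14, -⟩ := hl; obtain ⟨⟨k28, k29, -, -⟩, -, k35, -⟩ := ha; obtain ⟨-, -, k56, -, -, k59⟩ := hb; lia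
    · obtain ⟨k1, -, k3, k4, k5, -⟩ := hp; obtain ⟨k14, -, -, k17, -⟩ := hl; obtain ⟨⟨-, -, -, -, k32, -, -, -⟩, -⟩ := ha; obtain ⟨-, -, k62, -⟩ := hb; lia
    · obtain ⟨-, -, -, k4, -, k6, k7, -⟩ := hp; obtain ⟨⟨-, -, k30, -, -, -⟩, -⟩ := ha; obtain ⟨-, -, -, -, -, k76⟩ := hb; clear hl; lia
    · obtain ⟨k1, k2, k3, k4, k5, -⟩ := hp; obtain ⟨k14, -⟩ := hl; obtain ⟨⟨-, k29, k30, -, -⟩, -⟩ := ha; obtain ⟨-, -, k47, -, -, k50⟩ := hb; lia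
    · obtain ⟨k1, -, k3, k4, k5, k6, -⟩ := hp; obtain ⟨k14, -⟩ := hl; obtain ⟨⟨k28, -, k30, -, -⟩, -⟩ := ha; obtain ⟨-, -, k47, -, k49, -⟩ := hb; lia
    · obtain ⟨k1, k2, k3, k4, k5, -⟩ := hp; obtain ⟨-, -, -, -, -, k35, -, k37, -⟩ := ha; obtain ⟨-, -, k46, -, -, k49⟩ := hb; clear hl; lia
    · obtain ⟨-, -, k3, k4, k5, k6, k7, -, k9, -⟩ := hp; obtain ⟨k14, -⟩ := hl; obtain ⟨-, -, -, -, -, k35, -⟩ := ha; obtain ⟨-, -, k46, -, -, k49⟩ := hb; lia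
    · obtain ⟨-, -, k3, k4, k5, k6, k7, -, k9, -⟩ := hp; obtain ⟨k14, -⟩ := hl; obtain ⟨⟨-, -, -, k31, -, -⟩, -⟩ := ha; obtain ⟨-, -, k48, -⟩ := hb; lia
    · obtain ⟨-, -, k3, k4, k5, k6, k7, -, k9, -⟩ := hp; obtain ⟨⟨-, -, -, -, -, k33⟩, -⟩ := ha; obtain ⟨-, -, k48, -⟩ := hb; clear hl; lia
  · exact g

theorem H' : (p.b = 2 * p.a + p.M ∧ D.H.1 = p.t - p.M ∧ D.H.2 = -p.a + p.t - p.M) ∨
    (6 * p.a + p.M ≤ p.b ∧ D.H.1 = -2 * p.a - p.t ∧ D.H.2 = -p.a + p.t) :=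
  D.kind.imp (fun h => ⟨h.1, by rw [h.2.2.2.2], by rw [h.2.2.2.2]⟩)
    fun h => ⟨h.1, by rw [h.2.2.2.2], by rw [h.2.2.2.2]⟩

/-- The points of the boundary of the larger piece. -/
def SB (X Y : ℤ) : Prop :=
  p.EB0' D.YS D.GS D.DS (X - (p.a - 2 * p.b)) (Y - (-2 * p.a - p.b))

variable {D} in
theorem SB.env {X Y : ℤ} (h : D.SB X Y) : p.EB X Y := Or.imp_left q_env h

theorem arcq3 : CArc (p.b, 0) (D.q ++ rot 1 D.q ++ rot 2 D.q) (0, -p.b) fun X Y =>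
    (p.Eq' D.YS D.GS D.DS X Y ∨ p.Eq' D.YS D.GS D.DS Y (-X)) ∨ p.Eq' D.YS D.GS D.DS (-X) (-Y) := by
  have hp := And.intro p.le_b p.h
  have h1 : CArc (0, p.b) (rot 1 D.q) (-p.b, 0) fun X Y => p.Eq' D.YS D.GS D.DS Y (-X) :=
    D.arcq.rot1 0 (by simp) (by simp) fun X Y h => by simpa using h
  have h2 : CArc (-p.b, 0) (rot 2 D.q) (0, -p.b) fun X Y => p.Eq' D.YS D.GS D.DS (-X) (-Y) :=
    D.arcq.rot2 0 (by simp) (by simp) fun X Y h => by simpa using h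
  refine (D.arcq.append h1 fun X Y a b => q_q a b).append h2 ?_
  rintro X Y (a | a) b
  · have ha := (q_env a).lin; have hb := (q_env b).lin; dsimp only
    obtain ⟨-, -, -, k4, -⟩ := hp
    obtain ⟨k14, k15, -, k17, -⟩ := ha
    obtain ⟨k28, k29, -⟩ := hb
    lia
  · have := q_q a b; dsimp only; lia

theorem edgeRB (P : Pt) : (P, (1 : Dir)) ∈ edges P (rot 3 p.RB ++ back 0 p.RB) := by
  have hp := And.intro p.le_b p.h
  obtain ⟨n, hn⟩ : ∃ n : ℕ, p.b.toNat = n + 1 := ⟨p.b.toNat - 1, by omega⟩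
  simp only [PG.RB, hn, rot_replicate, List.replicate_succ, List.cons_append, rot, List.map_cons]
  exact List.mem_cons_self

theorem simpleB0 :
    Simple (p.a - p.b, -2 * p.a - p.b)
      (D.q ++ rot 1 D.q ++ rot 2 D.q ++ (rot 3 p.RB ++ back 0 p.RB)) ∧
    Ccw (p.a - p.b, -2 * p.a - p.b)
      (D.q ++ rot 1 D.q ++ rot 2 D.q ++ (rot 3 p.RB ++ back 0 p.RB)) ∧
    ∀ z ∈ verts (p.a - p.b, -2 * p.a - p.b)
      (D.q ++ rot 1 D.q ++ rot 2 D.q ++ (rot 3 p.RB ++ back 0 p.RB)), D.SB z.1 z.2 := by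
  have hp := And.intro p.le_b p.h
  have h0 : CArc (p.a - p.b, -2 * p.a - p.b) (D.q ++ rot 1 D.q ++ rot 2 D.q)
      (p.a - 2 * p.b, -2 * p.a - 2 * p.b) fun X Y =>
        (p.Eq' D.YS D.GS D.DS (X - (p.a - 2 * p.b)) (Y - (-2 * p.a - p.b)) ∨
          p.Eq (Y - (-2 * p.a - p.b)) (-(X - (p.a - 2 * p.b)))) ∨
          p.Eq (-(X - (p.a - 2 * p.b))) (-(Y - (-2 * p.a - p.b))) :=
    D.arcq3.shift (p.a - 2 * p.b, -2 * p.a - p.b) (by ext <;> simp; ring) (by ext <;> simp; ring)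
      fun X Y h => h.imp (Or.imp_right q_env) q_env
  have h3 : CArc (p.a - 2 * p.b, -2 * p.a - 2 * p.b) (rot 3 p.RB ++ back 0 p.RB)
      (p.a - p.b, -2 * p.a - p.b) fun X Y =>
        (X = p.a - 2 * p.b ∧ -2 * p.a - 2 * p.b ≤ Y ∧ Y ≤ -2 * p.a - p.b) ∨
        (Y = -2 * p.a - p.b ∧ p.a - 2 * p.b ≤ X ∧ X ≤ p.a - p.b) := by
    simp only [PG.RB, rot_replicate, back_replicate, Fin.reduceAdd]
    refine ((lineN _ _ (n := p.b) (by omega)).append (lineE _ _ (n := p.b) (by omega))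
      fun X Y a b => ?_).mv rfl (by ext <;> simp <;> ring) fun X Y h => by lia
    simp only
    lia
  obtain ⟨s, e⟩ := h0.simple h3 (by
    rintro X Y ((a | a) | a) b <;> dsimp only
    · have ha := (q_env a).lin
      obtain ⟨-, -, k3, k4, -⟩ := hp
      obtain ⟨k14, k15, -, k17, -⟩ := ha
      rcases b with ⟨k29, -, k31⟩ | ⟨k33, -, k35⟩
      · lia
      · refine .inl ?_; lia
    · have ha := a.lin
      obtain ⟨-, -, k3, k4, -⟩ := hp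
      obtain ⟨k14, k15, -, k17, -⟩ := ha
      rcases b with ⟨k29, -, k31⟩ | ⟨k33, k34, -⟩ <;> lia
    · have ha := a.lin
      obtain ⟨-, -, k3, k4, -⟩ := hp
      obtain ⟨k14, k15, -, k17, -⟩ := ha
      rcases b with ⟨k29, k30, -⟩ | ⟨k33, k34, -⟩
      · refine .inr ?_; lia
      · lia
    ) (by
    simp only [List.length_append, length_rot, length_back, PG.RB, List.length_replicate]
    omega)
  have e' : ∀ z ∈ verts (p.a - p.b, -2 * p.a - p.b)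
      (D.q ++ rot 1 D.q ++ rot 2 D.q ++ (rot 3 p.RB ++ back 0 p.RB)), D.SB z.1 z.2 :=
    fun z hz => by
      rcases e z hz with ((a | a) | a) | a
      · exact .inl a
      · exact .inr (.inl a)
      · exact .inr (.inr (.inl a))
      · exact .inr (.inr (.inr (by omega)))
  refine ⟨s, ccw_of_out (sMem_edges_right h0.1 (edgeRB _)) ?_, e'⟩
  exact OutE.rayE (A := p.EB) (X := p.a - 2 * p.b + 1) (Y := -2 * p.a - 2 * p.b + 0)
    (fun _ _ => bE (by omega)) _ _ s.1 fun z hz => (e' z hz).env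

theorem eB : D.q ++ rot 1 D.q ++ rot 2 D.q ++ (rot 3 p.RB ++ back 0 p.RB) =
    (D.μ ++ (rot 3 p.π ++ ((rot 3 D.g ++ back 0 D.g) ++ back 0 p.π))) ++
      (D.L ++ rot 1 D.q ++ rot 2 D.q ++ (rot 3 p.RB ++ back 0 p.RB)) := by
  nth_rw 1 [q]
  simp only [List.append_assoc]

theorem eB' : (D.L ++ rot 1 D.q ++ rot 2 D.q ++ (rot 3 p.RB ++ back 0 p.RB)) ++
    (D.μ ++ (rot 3 p.π ++ ((rot 3 D.g ++ back 0 D.g) ++ back 0 p.π))) = D.β ++ back 0 D.ι := by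
  have e : D.w1 ++ back 0 D.w0 = rot 3 D.g ++ back 0 D.g := by
    rcases D.kind with ⟨-, e0, e1, -⟩ | ⟨-, e0, e1, -⟩ <;>
      simp [e0, e1, back_append, back_back, back_nil]
  rw [← e]
  simp only [β, ι, back_append, List.append_assoc]

theorem endB : endP (p.a - p.b, -2 * p.a - p.b)
    (D.μ ++ (rot 3 p.π ++ ((rot 3 D.g ++ back 0 D.g) ++ back 0 p.π))) = (-p.a + p.t, -p.t) := by
  rw [endP_dsp, dsp_append, D.arcμ.dsp_eq, D.arcm.dsp_eq]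
  ext <;> simp <;> ring

theorem dι : dsp D.ι = D.H - (-p.a + p.t, -p.t) := by
  rw [ι, dsp_append, p.arcπ.dsp_eq, ← D.eH, endP_dsp]
  abel

theorem arcβ : CArc (-p.a + p.t, -p.t) D.β D.H D.SB := by
  obtain ⟨s, -, e⟩ := D.simpleB0
  rw [D.eB] at s e
  have s' := s.rotate
  have e' := fun z hz => e z (((Jor.edges_rotate s.1).map _).subset hz)
  rw [D.endB, D.eB'] at s' e'
  refine (Simple.arc s' (back_ne (List.append_ne_nil_of_left_ne_nil ?_ _)) e').mv rfl ?_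
    fun _ _ h => h
  · have := length_π (p := p)
    exact List.ne_nil_of_length_pos (by omega)
  · have := s'.1
    rw [endP_append, endP_dsp, dsp_back, rotP_zero, D.dι] at this
    linear_combination (exp := 1) this

/-! ### The union -/

theorem far1 {X Y x y : ℤ} (a : p.EH X Y ∨ p.EA1 X Y)
    (e : x = X - (p.a - 2 * p.b) ∧ y = Y - (-2 * p.a - p.b))
    (b : p.EY (y - 3 * p.a) (p.b - x) ∨ p.Esy (y - 3 * p.a) (p.b - x) ∨
      p.Esy (p.b - 2 * p.a - x) (p.a - y) ∨ p.EY (p.b - 2 * p.a - x) (p.a - y) ∨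
      p.EY (y - 4 * p.a) (p.a + p.b - x)) : False := by
  have hp := And.intro p.le_b p.h
  have hx := box7 a
  have ha := a.imp (fun a => And.intro a.box a.lin) <| Or.imp (fun a => And.intro a.box a.lin) <|
    Or.imp (fun a => And.intro a.box a.lin) <| Or.imp (fun a => And.intro a.box a.lin) <|
    Or.imp (fun a => And.intro a.box a.lin) <| Or.imp (fun a => And.intro a.box a.lin)
      fun a => And.intro a.box a.lin
  rcases b with b | b | b | b | b <;> have hb := And.intro b.box b.lin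
  · obtain ⟨k1, -, k3, k4, k5, k6, k7, -⟩ := hp; obtain ⟨k14, k15⟩ := e; obtain ⟨k17, -, -, k20, -⟩ := hx; obtain ⟨-, -, -, k198, k199, -⟩ := hb; clear ha; lia
  · obtain ⟨k1, -, k3, k4, k5, k6, k7, k8, -⟩ := hp; obtain ⟨k14, k15⟩ := e; obtain ⟨k17, -, -, k20, -⟩ := hx; obtain ⟨⟨-, k194, k195, -, -, -⟩, -⟩ := hb; clear ha; lia
  · obtain ⟨k1, -, k3, k4, k5, k6, k7, k8, -⟩ := hp; obtain ⟨k14, k15⟩ := e; obtain ⟨k17, -, k19, -⟩ := hx; obtain ⟨⟨-, k194, -, -, k197, -⟩, -⟩ := hb; clear ha; lia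
  · obtain ⟨k1, k2, k3, k4, k5, k6, k7, k8, k9, -⟩ := hp
    obtain ⟨k14, k15⟩ := e
    obtain ⟨k17, k18, k19, -⟩ := hx
    obtain ⟨-, -, k197, k198, k199, k200⟩ := hb
    rcases ha with ⟨⟨-, -, k26, -, -⟩, -⟩ | ⟨⟨k51, -, -, k54, -, -, -, -⟩, -⟩ | ⟨⟨-, -, -, -, k85⟩, -⟩ | ⟨⟨-, -, -, -, -, k109, -, k111⟩, -⟩ | ⟨⟨-, -, -, k137, k138⟩, -⟩ | ⟨⟨-, -, k159, -, -, -⟩, -⟩ | ⟨⟨-, -, -, -, k179, -⟩, -⟩ <;> lia
  · obtain ⟨k1, -, k3, k4, k5, k6, k7, k8, -⟩ := hp; obtain ⟨k14, k15⟩ := e; obtain ⟨-, -, k19, k20, -⟩ := hx; obtain ⟨-, -, -, k198, k199, -⟩ := hb; clear ha; lia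

theorem far2 {X Y x y : ℤ} (a : p.EH X Y ∨ p.EA1 X Y)
    (e : x = X - (p.a - 2 * p.b) ∧ y = Y - (-2 * p.a - p.b))
    (b : p.Esx (p.b - 2 * p.a - x) (2 * p.b - p.a - y) ∨
      p.Esx (y - 2 * p.b - 2 * p.a) (p.b - p.a - x) ∨
      p.ED (y - 2 * p.b - 2 * p.a) (p.b - p.a - x)) : False := by
  have hp := And.intro p.le_b p.h
  have hx := box7 a
  have ha := a.imp (fun a => And.intro a.box a.lin) <| Or.imp (fun a => And.intro a.box a.lin) <|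
    Or.imp (fun a => And.intro a.box a.lin) <| Or.imp (fun a => And.intro a.box a.lin) <|
    Or.imp (fun a => And.intro a.box a.lin) <| Or.imp (fun a => And.intro a.box a.lin)
      fun a => And.intro a.box a.lin
  rcases b with b | b | b <;> have hb := And.intro b.box b.lin
  · obtain ⟨k1, k2, k3, k4, k5, k6, k7, k8, k9, -⟩ := hp
    obtain ⟨k14, k15⟩ := e
    obtain ⟨⟨k193, -, -, k196, k197⟩, -⟩ := hb
    clear hx
    rcases ha with ⟨⟨-, -, k26, k27, k28⟩, -⟩ | ⟨⟨k51, k52, -, -, -, k56, -, -⟩, -⟩ | ⟨⟨-, k82, k83, -, -⟩, -⟩ | ⟨⟨-, -, -, -, -, k109, -, -⟩, -⟩ | ⟨⟨-, k135, -, -, -⟩, -⟩ | ⟨⟨-, -, -, -, k161, -⟩, -⟩ | ⟨⟨-, -, -, k178, -, -⟩, -⟩ <;> lia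
  · obtain ⟨k1, k2, k3, k4, k5, k6, k7, k8, -⟩ := hp
    obtain ⟨k14, k15⟩ := e
    obtain ⟨-, k18, -⟩ := hx
    obtain ⟨⟨k193, k194, k195, -, k197⟩, -⟩ := hb
    rcases ha with ⟨⟨-, -, -, k27, k28⟩, -⟩ | ⟨⟨-, k52, -, -, -, k56, k57, k58⟩, -⟩ | ⟨⟨-, k82, k83, -, k85⟩, -⟩ | ⟨⟨-, -, -, -, k108, k109, -, -⟩, -⟩ | ⟨⟨-, k135, k136, k137, -⟩, -⟩ | ⟨⟨-, -, -, -, k161, -⟩, -⟩ | ⟨⟨-, -, -, k178, -, -⟩, -⟩ <;> lia
  · obtain ⟨k1, k2, k3, k4, k5, k6, k7, k8, -⟩ := hp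
    obtain ⟨k14, k15⟩ := e
    obtain ⟨-, -, k197, -, k199, k200, k201, -⟩ := hb
    clear hx
    rcases ha with ⟨⟨-, -, -, k27, -⟩, k29⟩ | ⟨⟨-, -, -, k54, -, k56, -, k58⟩, -⟩ | ⟨⟨-, -, -, k84, k85⟩, -⟩ | ⟨⟨-, k105, k106, k107, -, k109, k110, -⟩, -⟩ | ⟨⟨-, k135, -, -, -⟩, -⟩ | ⟨⟨-, k158, k159, -, -, -⟩, -⟩ | ⟨⟨-, -, -, -, -, k180⟩, -⟩
    · rcases k29 with ⟨-, -, -, -, -, k38⟩ | ⟨-, -, k44, -⟩ <;> lia
    · lia
    · lia
    · lia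
    · lia
    · lia
    · lia

theorem far3 {X Y x y : ℤ} (a : p.EH X Y ∨ p.EA1 X Y)
    (e : x = X - (p.a - 2 * p.b) ∧ y = Y - (-2 * p.a - p.b))
    (b : p.ED (-2 * p.a - x) (p.a + p.b - y) ∨ p.Esy (-2 * p.a - x) (p.a + p.b - y) ∨
      p.Esy (y - 3 * p.a - p.b) (-x) ∨ p.EY (y - 3 * p.a - p.b) (-x)) : False := by
  have hp := And.intro p.le_b p.h
  have hx := box7 a
  have ha := a.imp (fun a => And.intro a.box a.lin) <| Or.imp (fun a => And.intro a.box a.lin) <|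
    Or.imp (fun a => And.intro a.box a.lin) <| Or.imp (fun a => And.intro a.box a.lin) <|
    Or.imp (fun a => And.intro a.box a.lin) <| Or.imp (fun a => And.intro a.box a.lin)
      fun a => And.intro a.box a.lin
  rcases b with b | b | b | b <;> have hb := And.intro b.box b.lin
  · obtain ⟨k1, k2, k3, k4, k5, k6, k7, k8, k9, -⟩ := hp
    obtain ⟨k14, k15⟩ := e
    obtain ⟨k17, k18, k19, k20, -⟩ := hx
    obtain ⟨-, -, -, k198, k199, k200, -, k202, -⟩ := hb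
    rcases ha with ⟨-, k29⟩ | ⟨⟨-, k52, -, k54, -, -, -, -⟩, -⟩ | ⟨⟨-, -, -, -, k85⟩, -⟩ | ⟨⟨-, -, -, -, -, -, k110, -⟩, -⟩ | ⟨⟨-, -, k136, -, -⟩, -⟩ | ⟨⟨-, -, k159, -, -, -⟩, -⟩ | ⟨⟨-, -, k177, -, -, -⟩, -⟩
    · rcases k29 with ⟨-, -, -, -, -, k38⟩ | ⟨-, -, -, k45, -⟩ <;> lia
    · lia
    · lia
    · lia
    · lia
    · lia
    · lia
  · obtain ⟨k1, -, k3, k4, k5, k6, k7, k8, -⟩ := hp; obtain ⟨k14, k15⟩ := e; obtain ⟨k17, -, -, -, k21⟩ := hx; obtain ⟨⟨-, -, -, -, k197, k198⟩, -⟩ := hb; clear ha; lia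
  · obtain ⟨k1, -, k3, k4, k5, k6, k7, k8, -⟩ := hp; obtain ⟨k14, -⟩ := e; obtain ⟨-, k18, -⟩ := hx; obtain ⟨⟨-, -, k195, -, -, -⟩, -⟩ := hb; clear ha; lia
  · obtain ⟨k1, -, k3, k4, k5, k6, k7, -⟩ := hp; obtain ⟨k14, k15⟩ := e; obtain ⟨k17, -⟩ := hx; obtain ⟨-, -, k197, k198, k199, -⟩ := hb; clear ha; lia

theorem near1 {X Y x y : ℤ} (a : p.EH X Y ∨ p.EA1 X Y)
    (e : x = X - (p.a - 2 * p.b) ∧ y = Y - (-2 * p.a - p.b))
    (b : p.Eπ (p.a - y) (x - p.b - 2 * p.a)) :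
    p.b = 2 * p.a + p.M ∧ X = p.t - p.M ∧ Y = -p.a + p.t - p.M := by
  have hp := And.intro p.le_b p.h
  have hb := And.intro b.box b.lin
  have hx := box7 a
  have ha := a.imp (fun a => And.intro a.box a.lin) <| Or.imp (fun a => And.intro a.box a.lin) <|
    Or.imp (fun a => And.intro a.box a.lin) <| Or.imp (fun a => And.intro a.box a.lin) <|
    Or.imp (fun a => And.intro a.box a.lin) <| Or.imp (fun a => And.intro a.box a.lin)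
      fun a => And.intro a.box a.lin
  obtain ⟨k1, k2, k3, k4, k5, k6, k7, k8, -⟩ := hp
  obtain ⟨k14, k15⟩ := e
  obtain ⟨-, k18, k19, k20, -⟩ := hx
  obtain ⟨⟨k193, -, k195, k196, k197, k198, -, k200⟩, k201⟩ := hb
  rcases ha with ⟨⟨-, -, k26, -, -⟩, k29⟩ | ⟨⟨k51, -, -, k54, -, -, -, k58⟩, -⟩ | ⟨⟨-, -, -, k84, k85⟩, -⟩ | ⟨⟨k104, -, -, k107, -, k109, k110, k111⟩, -⟩ | ⟨⟨-, k135, -, -, -⟩, -⟩ | ⟨⟨-, k158, -, -, -, k162⟩, -⟩ | ⟨⟨-, -, -, -, k179, -⟩, -⟩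
  · rcases k29 with ⟨-, -, -, -, -, k38⟩ | ⟨-, -, -, -, -, k47⟩
    · lia
    · rcases k47 with k48 | k49 <;> lia
  · rcases k201 with ⟨k203, -⟩ | ⟨k207, -⟩ | ⟨k211, -⟩ | ⟨k215, -⟩ | ⟨-, k220, -⟩ <;> lia
  · lia
  · lia
  · lia
  · lia
  · lia

theorem near2 {X Y : ℤ} (a : p.EH X Y ∨ p.EA1 X Y) (b : p.Eπ X Y) :
    (6 * p.a + p.M ≤ p.b ∧ X = -2 * p.a - p.t ∧ Y = -p.a + p.t) ∨ (X = -p.a + p.t ∧ Y = -p.t) := by
  have hp := And.intro p.le_b p.h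
  have hb := And.intro b.box b.lin
  have hx := box7 a
  have ha := a.imp (fun a => And.intro a.box a.lin) <| Or.imp (fun a => And.intro a.box a.lin) <|
    Or.imp (fun a => And.intro a.box a.lin) <| Or.imp (fun a => And.intro a.box a.lin) <|
    Or.imp (fun a => And.intro a.box a.lin) <| Or.imp (fun a => And.intro a.box a.lin)
      fun a => And.intro a.box a.lin
  obtain ⟨-, k2, k3, -, k5, k6, k7, -, k9, -⟩ := hp
  obtain ⟨-, -, -, -, k18⟩ := hx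
  obtain ⟨⟨k190, k191, k192, k193, k194, k195, k196, -⟩, k198⟩ := hb
  rcases ha with ⟨⟨-, -, k23, -, -⟩, k26⟩ | ⟨⟨-, -, -, k51, -, -, -, -⟩, -⟩ | ⟨⟨-, -, -, k81, k82⟩, -⟩ | ⟨⟨-, k102, -, -, -, -, k107, -⟩, -⟩ | ⟨⟨-, k132, -, -, -⟩, -⟩ | ⟨⟨-, -, k156, -, -, -⟩, -⟩ | ⟨⟨k172, -, k174, -, -, -⟩, -⟩
  · rcases k26 with ⟨k28, -, k32, -, -, k35⟩ | ⟨-, -, k41, -⟩
    · rcases k198 with ⟨k200, -⟩ | ⟨k204, -⟩ | ⟨k208, k209, -⟩ | ⟨k212, -⟩ | ⟨k216, k217, -⟩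
      · refine .inl ?_; lia
      · rcases k28 with k29 | k30 <;> lia
      · rcases k28 with k29 | k30 <;> lia
      · lia
      · lia
    · lia
  · lia
  · lia
  · lia
  · lia
  · lia
  · rcases k198 with ⟨k200, -⟩ | ⟨-, -, k206⟩ | ⟨-, -, k210⟩ | ⟨k212, -⟩ | ⟨k216, -⟩
    · lia
    · lia
    · lia
    · lia
    · refine .inr ?_; lia

theorem near3 {X Y x y : ℤ} (a : p.EH X Y ∨ p.EA1 X Y)
    (e : x = X - (p.a - 2 * p.b) ∧ y = Y - (-2 * p.a - p.b))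
    (b : p.EF (p.b - 2 * p.a - x) (2 * p.b - p.a - y)) : X = -p.a + p.t ∧ Y = -p.t := by
  have hp := And.intro p.le_b p.h
  have hb := And.intro b.box b.lin
  have hx := box7 a
  have ha := a.imp (fun a => And.intro a.box a.lin) <| Or.imp (fun a => And.intro a.box a.lin) <|
    Or.imp (fun a => And.intro a.box a.lin) <| Or.imp (fun a => And.intro a.box a.lin) <|
    Or.imp (fun a => And.intro a.box a.lin) <| Or.imp (fun a => And.intro a.box a.lin)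
      fun a => And.intro a.box a.lin
  obtain ⟨k1, k2, k3, k4, k5, k6, k7, k8, k9, k10⟩ := hp
  obtain ⟨k14, k15⟩ := e
  obtain ⟨-, -, -, -, k21⟩ := hx
  obtain ⟨⟨k193, k194, -, k196, -, k198⟩, k199⟩ := hb
  rcases ha with ⟨⟨-, -, -, -, k28⟩, -⟩ | ⟨⟨-, -, -, k54, -, -, k57, -⟩, -⟩ | ⟨⟨-, k82, k83, -, k85⟩, -⟩ | ⟨⟨-, -, -, -, -, k109, k110, -⟩, -⟩ | ⟨⟨-, k135, k136, -, -⟩, -⟩ | ⟨⟨-, -, -, -, k161, -⟩, -⟩ | ⟨⟨k175, -, -, -, k179, k180⟩, k181⟩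
  · lia
  · lia
  · lia
  · lia
  · rcases k199 with ⟨-, -, k205, -, -, -, k209, -⟩ | ⟨-, -, -, -, -, -, -, -, -, k230⟩
    · rcases k10 with k11 | k12 <;> lia
    · rcases k230 with k231 | k232 <;> lia
  · rcases k199 with ⟨-, -, k205, -⟩ | ⟨-, -, -, -, -, -, -, -, -, k230⟩
    · rcases k10 with k11 | k12 <;> lia
    · rcases k230 with k231 | k232 <;> lia
  · rcases k181 with ⟨k183, -, k185⟩ | ⟨-, -, -, -, k191⟩ <;> lia

theorem near4 {X Y x y : ℤ} (a : p.EA1 X Y)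
    (e : x = X - (p.a - 2 * p.b) ∧ y = Y - (-2 * p.a - p.b))
    (b : p.Eg (p.a - y) (x - p.b - 2 * p.a) ∨ p.Eg (x + p.a - 2 * p.b) (y - 2 * p.a - p.b)) :
    False := by
  have hp := And.intro p.le_b p.h
  have hx := box7 (.inr a)
  have ha := Or.imp (fun a => And.intro a.box a.lin) (Or.imp (fun a => And.intro a.box a.lin) <|
    Or.imp (fun a => And.intro a.box a.lin) <| Or.imp (fun a => And.intro a.box a.lin) <|
    Or.imp (fun a => And.intro a.box a.lin) fun a => And.intro a.box a.lin) a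
  rcases b with b | b <;> have hb := And.intro b.box b.lin
  · obtain ⟨k1, k2, k3, k4, k5, k6, k7, k8, k9, -⟩ := hp
    obtain ⟨k14, k15⟩ := e
    obtain ⟨⟨-, k167, k168, k169⟩, -, k173, k174, -⟩ := hb
    clear hx
    rcases ha with ⟨⟨-, k25, -, k27, -, k29, -, -⟩, -⟩ | ⟨⟨-, -, k56, k57, k58⟩, -⟩ | ⟨⟨-, -, -, k80, -, k82, -, -⟩, -⟩ | ⟨⟨-, k108, -, -, k111⟩, -⟩ | ⟨⟨-, k131, -, -, -, -⟩, -⟩ | ⟨⟨-, -, k150, -, -, -⟩, -⟩ <;> lia
  · obtain ⟨-, k2, k3, k4, k5, k6, k7, k8, k9, -⟩ := hp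
    obtain ⟨k14, k15⟩ := e
    obtain ⟨k17, k18, -, -, k21⟩ := hx
    obtain ⟨⟨k166, -, -, k169⟩, -, -, k174, -⟩ := hb
    rcases ha with ⟨⟨-, -, -, -, -, k29, -, -⟩, -⟩ | ⟨⟨-, k55, -, k57, k58⟩, -⟩ | ⟨⟨-, -, -, -, -, k82, -, -⟩, -⟩ | ⟨⟨-, -, -, -, k111⟩, -⟩ | ⟨⟨-, -, -, -, k134, -⟩, -⟩ | ⟨⟨-, -, k150, -, -, k153⟩, -⟩ <;> lia

theorem α_β {X Y : ℤ} (a : D.HS X Y ∨ p.EA1 X Y) (b : D.SB X Y) :
    (X = D.H.1 ∧ Y = D.H.2) ∨ (X = -p.a + p.t ∧ Y = -p.t) := by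
  have hp := And.intro p.le_b p.h
  have hH := D.H'
  have a' := a.imp_left (D.hs _ _)
  have a'' : p.EA X Y := a'.imp EH.ev .inl
  have hx := a''.box
  rcases b with b | b | b | b | b
  · rcases or_assoc.2 (or_assoc.2 (or_assoc.2 (or_assoc.2 b))) with b | b | b | b | b | b | b
    · refine (far1 a' ⟨rfl, rfl⟩ ?_).elim
      simp only [or_assoc] at b
      exact b.imp (D.ys _ _) (.imp_right (.imp_right (.imp (D.ys _ _) (D.ys _ _))))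
    · have ha := near1 a' ⟨rfl, rfl⟩ b
      obtain ⟨k1, k2, k3, k4, k5, k6, -⟩ := hp
      obtain ⟨k28, k29, k30⟩ := ha
      clear hx
      rcases hH with ⟨-, k16, k17⟩ | ⟨k19, -⟩
      · refine .inl ?_; lia
      · lia
    · rcases a with a | a
      · have hb := And.intro (D.gs _ _ b).box (D.gs _ _ b).lin
        have ha := And.intro (D.hs _ _ a).box (D.hs _ _ a).lin
        have hc := fun k => D.n0 _ _ k a (sCg b (by ring) (by ring))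
        obtain ⟨k1, k2, k3, k4, k5, k6, -, k8, k9, -⟩ := hp
        obtain ⟨⟨k28, -, k30, -, k32⟩, -⟩ := ha
        obtain ⟨⟨-, k56, -, k58⟩, -, k62, -⟩ := hb
        clear hx
        rcases hH with ⟨k15, k16, k17⟩ | ⟨k19, -⟩
        · rcases imp_iff_not_or.1 hc with k79 | k82
          · rcases lt_or_gt_of_ne k79 with k80 | k81 <;> lia
          · refine .inl ?_; lia
        · lia
      · exact (near4 a ⟨rfl, rfl⟩ (.inl (D.gs _ _ b))).elim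
    · rcases a with a | a
      · have hb := And.intro (D.gs _ _ b).box (D.gs _ _ b).lin
        have ha := And.intro (D.hs _ _ a).box (D.hs _ _ a).lin
        have hc := fun k => D.n1 _ _ k a (sCg b (by ring) (by ring))
        obtain ⟨k1, k2, k3, k4, k5, k6, k7, -, k9, -⟩ := hp
        obtain ⟨⟨-, -, -, k31, -⟩, k33⟩ := ha
        obtain ⟨⟨k55, -, -, -⟩, -, -, k63, k64⟩ := hb
        clear hx
        rcases k64 with ⟨k66, -⟩ | ⟨k70, -, -, k73, -⟩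
        · rcases k33 with ⟨-, -, -, -, -, k42⟩ | ⟨-, -, k48, k49, -, k51⟩
          · lia
          · rcases k51 with k52 | k53 <;> lia
        · rcases hH with ⟨k15, -⟩ | ⟨-, k20, k21⟩
          · lia
          · rcases imp_iff_not_or.1 hc with k79 | k80
            · lia
            · refine .inl ?_; lia
      · exact (near4 a ⟨rfl, rfl⟩ (.inr (D.gs _ _ b))).elim
    · have ha := near2 a' (sCg b (by ring) (by ring))
      obtain ⟨k1, k2, k3, -, -, k6, -⟩ := hp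
      clear hx
      rcases ha with ⟨k29, k30, k31⟩ | ⟨k33, k34⟩
      · rcases hH with ⟨k15, -⟩ | ⟨-, k20, k21⟩
        · lia
        · refine .inl ?_; lia
      · refine .inr ?_; lia
    · exact .inr (near3 a' ⟨rfl, rfl⟩ b)
    · rcases or_assoc.2 (or_assoc.2 b) with b | b
      · exact (far2 a' ⟨rfl, rfl⟩ ((or_assoc.1 b).imp_right (.imp_right (D.ds _ _)))).elim
      · exact (far3 a' ⟨rfl, rfl⟩ (b.imp (D.ds _ _) (.imp_right (.imp_right (D.ys _ _))))).elim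
  · have hb := b.lin
    obtain ⟨k1, -, k3, k4, k5, -⟩ := hp
    obtain ⟨k23, -, k25, k26⟩ := hx
    obtain ⟨-, -, k30, -⟩ := hb
    clear hH
    lia
  · have hb := b.lin
    obtain ⟨-, k2, k3, k4, k5, k6, k7, -, k9, -⟩ := hp
    obtain ⟨-, -, k25, -⟩ := hx
    obtain ⟨-, -, k30, -⟩ := hb
    clear hH
    lia
  · obtain ⟨-, k2, k3, k4, -⟩ := hp
    obtain ⟨-, -, k25, -⟩ := hx
    obtain ⟨-, -, k30⟩ := b
    clear hH
    lia
  · obtain ⟨-, k2, k3, k4, -⟩ := hp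
    obtain ⟨-, -, k25, -⟩ := hx
    obtain ⟨k28, -⟩ := b
    clear hH
    lia

theorem simpleC : Simple D.H (D.α ++ D.β) ∧ Ccw D.H (D.α ++ D.β) ∧
    ∀ z ∈ verts D.H (D.α ++ D.β), p.EC z.1 z.2 := by
  have hp := And.intro p.le_b p.h
  obtain ⟨s, e⟩ := D.arcα.simple D.arcβ (fun X Y a b => D.α_β a b) (by
    have := length_π (p := p)
    simp only [α, A1, List.length_append, length_rot]
    omega)
  have e' : ∀ z ∈ verts D.H (D.α ++ D.β), p.EC z.1 z.2 := fun z hz =>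
    (e z hz).imp (fun a => a.imp (fun a => (D.hs _ _ a).ev) .inl) SB.env
  have h0 : endP (-p.a + p.t, -p.t) (D.L ++ rot 1 D.q ++ rot 2 D.q) =
      (p.a - 2 * p.b, -2 * p.a - 2 * p.b) := by
    simp only [endP_dsp, dsp_append, dsp_rot, D.arcL.dsp_eq, D.arcq.dsp_eq]
    ext <;> simp [rotP_1, rotP_2] <;> ring
  refine ⟨s, ccw_of_out (sMem_edges_right D.arcα.1
    (sMem_edges_left (sMem_edges_right h0 (edgeRB _)) _)) ?_, e'⟩
  exact cE (X := p.a - 2 * p.b + 1) (Y := -2 * p.a - 2 * p.b + 0) (by omega) _ _ s.1 e'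

include D in
theorem twoPiece {a b c : ℕ} (ha : p.a = a) (hb : p.b = b) (h : a ^ 2 + b ^ 2 = c ^ 2) :
    TwoPieceDissection a b c := by
  have hp := And.intro p.le_b p.h
  have hZ : (a : ℤ) ^ 2 + (b : ℤ) ^ 2 = (c : ℤ) ^ 2 := by exact_mod_cast h
  let Λa : Lat := ⟨p.a, 0, a, by omega, le_rfl, by rw [ha]; ring⟩
  let Λb : Lat := ⟨p.b, 0, b, by omega, le_rfl, by rw [hb]; ring⟩
  let Λc : Lat := ⟨p.b, p.a, c, by omega, by omega, by rw [ha, hb]; linear_combination hZ⟩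
  have nA : Net Λa 0 D.H (D.α ++ (D.ι ++ [])) := by
    have n : Net Λa 0 (-2 * p.a - p.t, -p.a + p.t) (D.V ++ D.A1 ++ p.π) := by
      obtain ⟨s, c, e⟩ := D.simpleA
      refine ⟨s, c, _, D.treeA, fun W hW => ?_, ?_⟩
      · obtain ⟨m, n, rfl⟩ := p.memA W hW
        exact ⟨(m, n), by ext <;> simp [Lat.gm, Λa] <;> ring⟩
      · rintro W ⟨⟨m, n⟩, hT⟩
        obtain rfl : W = (m * p.a, n * p.a) := by
          rw [eq_add_of_sub_eq hT]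
          ext <;> simp [Lat.gm, Λa] <;> ring
        exact (p.covA m n).imp_right fun h => h _ _ s.1 e
    rw [V, D.eV, List.append_assoc, List.append_assoc] at n
    have := n.rotate
    rw [D.eH] at this
    simpa only [α, ι, List.append_assoc, List.append_nil] using this
  have nB : Net Λb (p.a - 2 * p.b, -2 * p.a - p.b) (-p.a + p.t, -p.t)
      (D.β ++ (back 0 D.ι ++ [])) := by
    have n : Net Λb (p.a - 2 * p.b, -2 * p.a - p.b) (p.a - p.b, -2 * p.a - p.b)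
        (D.q ++ rot 1 D.q ++ rot 2 D.q ++ (rot 3 p.RB ++ back 0 p.RB)) := by
      obtain ⟨s, c, e⟩ := D.simpleB0
      refine ⟨s, c, _, D.treeB (D7.dsp_zero s), fun W hW => ?_, ?_⟩
      · obtain ⟨m, n, e⟩ := p.memB _ (mem_map_add.1 hW)
        exact ⟨(m, n), by rw [e]; ext <;> simp [Lat.gm, Λb] <;> ring⟩
      · rintro W ⟨⟨m, n⟩, hT⟩
        obtain rfl : W = (p.a - 2 * p.b + m * p.b, -2 * p.a - p.b + n * p.b) := by
          rw [eq_add_of_sub_eq hT]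
          ext <;> simp [Lat.gm, Λb] <;> ring
        exact (p.covB m n).imp (fun h => mem_map_add.2 (by simpa using h))
          fun h => h _ _ s.1 fun z hz => (e z hz).env
    rw [D.eB] at n
    have := n.rotate
    rwa [D.endB, D.eB', ← List.append_nil (back 0 D.ι)] at this
  have nC : Net Λc 0 D.H (D.α ++ D.β ++ []) := by
    obtain ⟨s, c, e⟩ := D.simpleC
    rw [List.append_nil]
    refine ⟨s, c, _, D.treeC, fun W hW => ?_, ?_⟩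
    · obtain ⟨m, n, rfl⟩ := p.memC W hW
      exact ⟨(m, n), by ext <;> simp [Lat.gm, Λc] <;> ring⟩
    · rintro W ⟨⟨m, n⟩, hT⟩
      obtain rfl : W = (m * p.b - n * p.a, m * p.a + n * p.b) := by
        rw [eq_add_of_sub_eq hT]
        ext <;> simp [Lat.gm, Λc] <;> ring
      exact (p.covC m n).imp_right fun h => h _ _ s.1 e
  have eι : endP (-p.a + p.t, -p.t) D.ι = D.H := by
    rw [endP_dsp, D.dι]
    abel
  refine twoPiece_of_net (Λa := Λa) (Λb := Λb) (Λc := Λc) rfl rfl h nA nB nC rfl ?_ ?_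
  · rw [D.arcα.1, eι, D.arcβ.1]
  · rw [endP_append, D.arcα.1, eι, D.arcβ.1]

end DG

end NP
end Pool.Agent.Lib.MP_4a7072_co
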