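import Pool.Agent.Lib.MP_4a7072_co.HFine

/-!
Existence of the design with long arms.
-/

set_option autoImplicit false
set_option linter.unnecessarySeqFocus false

namespace Pool.Agent.Lib.MP_4a7072_co
namespace NP

namespace FC

variable {a d : ℤ} (C : FC a d)

theorem pers (s t : ℤ) : (C.f (t + 2 * C.Q * s)).1 = (C.f t).1 + 2 * a * s ∧
    (C.f (t + 2 * C.Q * s)).2 = (C.f t).2 := by
  rw [per_mul C.sym.wper]
  simp [mul_comm]

theorem pers' (s t : ℤ) : (C.f (t - 2 * C.Q * s)).1 = (C.f t).1 - 2 * a * s ∧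
    (C.f (t - 2 * C.Q * s)).2 = (C.f t).2 := by
  have := C.pers s (t - 2 * C.Q * s)
  rw [sub_add_cancel] at this
  omega

theorem r_pers (s t : ℤ) : C.r (t + 2 * C.Q * s) = C.r t := by
  have h1 := C.step (t + 2 * C.Q * s)
  rw [add_right_comm, per_mul C.sym.wper, per_mul C.sym.wper, C.step, add_right_comm,
    add_right_inj] at h1
  rcases dir_cases (C.r t) with h | h | h | h <;>
    rcases dir_cases (C.r (t + 2 * C.Q * s)) with g | g | g | g <;> rw [h, g] at h1 ⊢ <;>
    simp [dv] at h1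

theorem sym' (s : ℤ) : Sym 1 (fun t => [C.r t]) (fun t => C.f (t + 2 * C.Q * s)) C.Q
    (C.B - 2 * C.Q * s) (2 * a, 0) where
  qpos := C.sym.qpos
  ne := C.sym.ne
  per := C.sym.per
  symA := C.sym.symA
  symB := fun t b c => by
    have := C.sym.symB t b c
    rw [← C.r_pers s, ← C.r_pers s (C.B - 2 * C.Q * s - 1 - t),
      show C.B - 2 * C.Q * s + t + 2 * C.Q * s = C.B + t by ring,
      show C.B - 2 * C.Q * s - 1 - t + 2 * C.Q * s = C.B - 1 - t by ring]
    exact this
  pos := fun l => by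
    have := C.sym.pos (l + 2 * C.Q * s)
    rw [C.r_pers] at this
    rw [add_right_comm]
    exact this
  wper := fun l => by rw [add_right_comm]; exact C.sym.wper _

/-- A vertical line that the curve crosses once. -/
def Bar (x : ℤ) : Prop := ∃ t0, ∀ t, (t0 ≤ t → x ≤ (C.f t).1) ∧
  (t < t0 → (C.f t).1 ≤ x ∧ ((C.f t).1 = x → (C.f t).2 ≠ a))

theorem Bar.shift {C : FC a d} {x : ℤ} (h : C.Bar x) (s : ℤ) : C.Bar (x + 2 * a * s) := by
  obtain ⟨t0, h⟩ := h
  refine ⟨t0 + 2 * C.Q * s, fun t => ?_⟩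
  have := h (t - 2 * C.Q * s)
  have := C.pers' s t
  omega

theorem bar1 : C.Bar 0 := ⟨0, fun t => by
  have := C.mA t
  have := C.inj t 0
  rw [C.f0] at this
  simp only at this
  omega⟩

theorem bar2 : C.Bar a := ⟨C.Q, fun t => by
  have := C.mA t
  have := (C.nA t).1
  omega⟩

theorem bar3 : C.Bar (2 * d) := ⟨C.B, fun t => by
  have := C.mB t
  have := C.inj t C.B
  rw [C.fB] at this
  simp only at this
  omega⟩

theorem bar4 : C.Bar (2 * d - a) := ⟨C.B - C.Q, fun t => by
  have := C.mB t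
  have := (C.nB t).1
  omega⟩

end FC

theorem mk8 (p : P8) (C : FC p.a (p.b - p.a)) (J : ℤ)
    (hk : ((p.k = 1 ∨ p.k = 4) ∧ J = C.j ∧ (C.f J).2 = p.a + p.g ∧
        (p.k = 1 → ∀ t, (C.f t).1 = p.b - 2 * p.a - 1 → (C.f t).2 ≠ p.a)) ∨
      ((p.k = 2 ∨ p.k = 3) ∧ (C.f J).1 = p.b - 2 * p.a - 1 ∧ (C.f J).2 = p.a ∧
        (p.k = 2 ↔ (C.f C.j).2 = p.a)))
    (hl : ∀ t, J ≤ t → p.lam ≤ (C.f t).1)
    (fr : ∀ t, p.a + p.N < (C.f t).2 ∨ (C.f t).1 < p.a - p.c - p.N + 1 ∨
      p.a + p.e + p.N < (C.f t).1) :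
    Nonempty (D8 p) := by
  have u := p.aux
  have hs := p.hs'
  have hQ := C.hQ
  have hj := C.hj
  have sj := (C.side C.j).2.1 rfl
  have Jj : J ≤ C.j ∧ (p.k = 2 ∨ p.k = 3 → J < C.j) := by
    have := C.side J
    omega
  have fJ : p.Hub (C.f J) := by
    rcases hk with ⟨k, rfl, h, -⟩ | ⟨k, h, h', -⟩
    · exact Or.inl ⟨k, Prod.ext (by simp only; omega) h⟩
    · exact Or.inr ⟨k, Prod.ext h h'⟩
  have XJ : ((p.k = 1 ∨ p.k = 4) ∧ (C.f J).1 = p.b - 2 * p.a ∧ (C.f J).2 = p.a + p.g) ∨
      ((p.k = 2 ∨ p.k = 3) ∧ (C.f J).1 = p.b - 2 * p.a - 1 ∧ (C.f J).2 = p.a) :=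
    fJ.imp (fun h => ⟨h.1, by rw [h.2], by rw [h.2]⟩) fun h => ⟨h.1, by rw [h.2], by rw [h.2]⟩
  have kJ : PLift (p.k = 1 ∨ p.k = 4 → J = C.j) := ⟨fun k => by
    rcases hk with h | h
    · exact h.2.1
    · omega⟩
  have kI : PLift (p.k = 2 ∨ p.k = 3 → (p.k = 2 ↔ (C.f C.j).2 = p.a)) := ⟨fun k => by
    rcases hk with h | h
    · omega
    · exact h.2.2.2⟩
  replace hk := PLift.up hk
  have f0 : (C.f 0).1 = 0 ∧ (C.f 0).2 = p.a := by rw [C.f0]; exact ⟨rfl, rfl⟩
  have fQ : (C.f C.Q).1 = p.a ∧ (C.f C.Q).2 = 2 * p.a := by rw [C.fQ]; exact ⟨rfl, rfl⟩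
  have jB : C.j < C.B - C.Q := by
    have := C.mB C.j
    omega
  obtain ⟨S, hS⟩ : ∃ S, S = 2 * C.Q * p.κ := ⟨_, rfl⟩
  have sh : ∀ t, (C.f (t - S)).1 = (C.f t).1 - p.off p.κ ∧ (C.f (t - S)).2 = (C.f t).2 :=
    fun t => hS ▸ C.pers' p.κ t
  have hJ : -C.Q < J - S ∧ J - S < C.Q := by
    have m := C.mA (J - S)
    have := sh J
    clear hk Jj
    refine ⟨lt_of_not_ge fun c => ?_, lt_of_not_ge fun c => ?_⟩
    · have := m.2.2.2.1 c
      have := p.hc'
      have := p.off_rel p.N p.κ
      clear m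
      omega
    · have := m.2.2.1 c
      have := p.hc'
      have := p.off_rel p.N p.κ
      clear m
      omega
  have sJ : (p.σ = -1 ∧ J - S < 0) ∨ (p.σ = 0 ∧ J - S = 0) ∨ (p.σ = 1 ∧ 0 < J - S) := by
    have m := C.mA (J - S)
    have := sh J
    rcases p.hσ' with h | h | h
    · exact Or.inl (by omega)
    · exact Or.inr (Or.inl ⟨h.1, C.inj _ _ (by omega) (by omega)⟩)
    · exact Or.inr (Or.inr (by omega))
  replace sJ := PLift.up sJ
  have sg : ∀ i j i' j', i = i' - S → j = j' - S →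
      seg (fun t => [C.r t]) i j = seg (fun t => [C.r t]) i' j' := fun i j i' j' a b =>
    (seg_per (s := S) (fun l => by rw [hS, C.r_pers]) i j i' j' (by omega) (by omega)).symm
  obtain ⟨L, x, y, M1, M2, w⟩ := p.exists_wd _ fJ
  obtain ⟨R, aR⟩ := p.arcR
  have eg : ∀ t, J ≤ t → t ≤ C.B + C.Q → p.EG (C.f t).1 (C.f t).2 := fun t a b => by
    have s := C.side t
    have s' := C.side (t - 2 * C.Q)
    have e := C.per' t
    have st := C.strip t
    refine ⟨?_, ?_, ?_, fun i => ?_⟩
    · have := hl t a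
      have := C.mB t
      omega
    · by_cases c : t = J
      · rw [c]; omega
      · have := kJ.down
        omega
    · by_cases c : t = C.j
      · rw [c]
        have := p.hk
        clear s s' e st hJ sJ
        rcases hk with ⟨⟨-, rfl, -⟩ | h⟩ <;> omega
      · by_cases c' : t - 2 * C.Q = C.j
        · rw [c'] at e
          have := p.hk
          clear s s' st hJ sJ
          rcases hk with ⟨⟨-, rfl, -⟩ | h⟩ <;> omega
        · clear hk XJ Jj hJ sJ
          omega
    · have h1 := fr (t - 2 * C.Q * (i - 1))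
      have h2 : _ = _ - p.off (i - 1) ∧ _ := C.pers' (i - 1) t
      have h3 := p.off_succ (i - 1)
      rw [sub_add_cancel] at h3
      omega
  have ts : ∀ X Y, C.On J (C.B - C.Q) X Y ∨ (X = p.b - 2 * p.a ∧ p.a ≤ Y ∧ Y ≤ p.a + p.g) →
      p.ET X Y := by
    rintro X Y (⟨t, a, b, rfl, rfl⟩ | h)
    · have := hl t a
      have := C.mB t
      have := C.strip t
      exact ⟨by omega⟩
    · exact ⟨by omega⟩
  have on : ∀ X Y, C.On J (C.B - C.Q) X Y ∨ (X = p.b - 2 * p.a ∧ p.a ≤ Y ∧ Y ≤ p.a + p.g) →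
      X = 2 * p.b - 3 * p.a ∨ Y = 2 * p.a → C.On J (C.B - C.Q) X Y := by
    rintro X Y (h | h) g
    · exact h
    · have := p.hk
      clear hk hJ sJ
      exact ⟨J, le_rfl, by omega, by omega, by omega⟩
  have b1 : C.f (C.B - C.Q) = (2 * p.b - 3 * p.a, 2 * p.a) := by
    rw [C.fB1]; ext <;> simp only; ring
  have aZ := (C.arc (show J ≤ C.B - C.Q by omega)).mv rfl b1 fun _ _ h => h
  obtain ⟨T, kind, aT⟩ : ∃ T, ((p.k = 1 ∧ x = [] ∧ y ≠ [] ∧
      T = y ++ seg (fun t => [C.r t]) J (C.B - C.Q)) ∨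
      (p.k = 2 ∧ y = [] ∧ x ≠ [] ∧ T ≠ [] ∧ seg (fun t => [C.r t]) J (C.B - C.Q) = x ++ T) ∨
      (3 ≤ p.k ∧ x ≠ [] ∧ T = back 0 x ++ (y ++ seg (fun t => [C.r t]) J (C.B - C.Q)))) ∧
      CArc (p.b - 2 * p.a, p.a) T (2 * p.b - 3 * p.a, 2 * p.a) fun X Y =>
        C.On J (C.B - C.Q) X Y ∨ (X = p.b - 2 * p.a ∧ p.a ≤ Y ∧ Y ≤ p.a + p.g) := by
    have yz : p.k = 1 ∨ p.k = 4 → CArc (endP (-p.a, p.a) L)
        (y ++ seg (fun t => [C.r t]) J (C.B - C.Q)) (2 * p.b - 3 * p.a, 2 * p.a) fun X Y =>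
          p.Ey X Y ∨ C.On J (C.B - C.Q) X Y := fun k => by
      refine w.arcY.append aZ ?_
      rintro X Y h ⟨t, a, b, c, g⟩
      have := C.side t
      have := kJ.down k
      obtain rfl : t = J := by rcases h with h | h <;> omega
      omega
    rcases w.hx with ⟨k, hx, hy⟩ | ⟨k, hx, hy⟩ | ⟨k, hx⟩
    · refine ⟨_, Or.inl ⟨k, hx, hy, rfl⟩, (yz (.inl k)).mv ?_ rfl ?_⟩
      · rcases w.endL with h | h | h
        · exact h.2
        all_goals omega
      · rintro X Y ((h | h) | h)
        · exact .inr (by omega)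
        · omega
        · exact .inl h
    · by_cases k2 : p.k = 2
      · have pr := C.prev
        have := (kI.down (.inl k2)).1 k2
        obtain rfl : J = C.j - 1 := C.inj _ _ (by omega) (by omega)
        have s := C.step (C.j - 1)
        rw [sub_add_cancel, Prod.ext_iff] at s
        have r0 : C.r (C.j - 1) = 0 := by
          rcases dir_cases (C.r (C.j - 1)) with h | h | h | h
          · exact h
          all_goals
            rw [h] at s
            simp [dv] at s
            omega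
        have a := C.arc jB.le
        refine ⟨_, Or.inr (Or.inl ⟨k2, hy, by simp [hx], fun h => ?_, ?_⟩),
          a.mv (Prod.ext (by simp only; omega) (by simp only; omega)) b1
            fun X Y ⟨t, a, h⟩ => Or.inl ⟨t, by omega, h⟩⟩
        · have := a.1
          rw [h] at this
          have := C.inj _ _ (congrArg Prod.fst this) (congrArg Prod.snd this)
          omega
        · have := seg_one (fun t => [C.r t]) (C.j - 1)
          rw [sub_add_cancel] at this
          rw [seg_append _ (j := C.j) (by omega) jB.le, this, r0, hx]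
      · refine ⟨_, Or.inr (Or.inr ⟨by omega, by simp [hx], rfl⟩), ?_⟩
        rw [hx, hy, List.nil_append]
        have a : CArc (p.b - 2 * p.a, p.a) (back 0 [0]) (C.f J) fun X Y =>
            Y = p.a ∧ (X = p.b - 2 * p.a ∨ X = p.b - 2 * p.a - 1) :=
          (CArc.one _ 2).mv rfl (by ext <;> simp [dv] <;> omega) fun X Y h => by
            simp [dv] at h
            omega
        refine (a.append aZ ?_).mono ?_
        · rintro X Y h ⟨t, a, b, c, g⟩
          have := C.side t
          by_cases i : t = C.j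
          · rw [i] at g
            have := kI.down k
            omega
          · omega
        · rintro X Y (h | h)
          · by_cases i : X = p.b - 2 * p.a
            · exact Or.inr (by omega)
            · exact Or.inl ⟨J, le_rfl, by omega, by omega, by omega⟩
          · exact Or.inl h
    · have e : endP (-p.a, p.a) L = (p.b - 2 * p.a, p.a + p.N) := by
        rcases w.endL with h | h | h
        · omega
        · omega
        · exact h.2
      refine ⟨_, Or.inr (Or.inr ⟨by omega, hx, rfl⟩),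
        (w.arcX.back.append (yz (.inr k)) ?_).mono ?_⟩
      · rw [e]
        rintro X Y (h | h) ((g | g) | ⟨t, a, b, c, g⟩)
        · dsimp only; omega
        · omega
        · have := C.side t
          have := kJ.down (.inr k)
          obtain rfl : t = J := by omega
          have := p.hk
          omega
        all_goals omega
      · rintro X Y ((h | h) | (h | h) | h)
        · have := p.hk
          exact .inr (by omega)
        · omega
        · exact .inr (by omega)
        · omega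
        · exact .inl h
  have eJ : C.f (J - S + 2 * C.Q * p.κ) = C.f J := by rw [← hS, sub_add_cancel]
  refine ⟨{
    E := fun t => [C.r t]
    f := fun t => C.f (t + 2 * C.Q * p.κ)
    Q := C.Q
    B := C.B - 2 * C.Q * p.κ
    J := J - S
    L := L
    x := x
    y := y
    T := T
    M1 := M1
    M2 := M2
    R := 3 :: R
    TS := fun X Y => C.On J (C.B - C.Q) X Y ∨ (X = p.b - 2 * p.a ∧ p.a ≤ Y ∧ Y ≤ p.a + p.g)
    GS := C.On J (C.B + C.Q)
    sym := C.sym' p.κ
    hQ := hQ
    f0 := ?_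
    fQ := ?_
    fB := by rw [sub_add_cancel, C.fB]; ext <;> simp only; ring
    fB1 := by rw [sub_right_comm, sub_add_cancel, b1]
    hJ := by omega
    sJ := sJ.down
    fJ := eJ ▸ fJ
    kind := by rw [sg _ _ J (C.B - C.Q) rfl (by omega)]; exact kind
    L_ne := w.L_ne
    M1_ne := w.M1_ne
    M2_ne := w.M2_ne
    R_ne := by simp
    eM := w.eM
    R0 := ⟨_, rfl⟩
    arcL := w.arcL
    endL := w.endL
    arcS := w.arcS
    arcM := eJ ▸ w.arcM
    arcM1 := w.arcM1
    arcM2 := eJ ▸ w.arcM2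
    arcY := eJ ▸ w.arcY
    arcR := aR
    arcV := ?_
    arcG := ?_
    arcT := aT
    gs := ?_
    ts := ts
    fold1 := fun X Y h g e => ?_
    fold2 := fun X Y h g e => ?_ }⟩
  · have : _ = _ + p.off p.κ ∧ _ := C.pers p.κ 0
    exact Prod.ext (by simp only; omega) (by simp only; omega)
  · have : _ = _ + p.off p.κ ∧ _ := C.pers p.κ C.Q
    exact Prod.ext (by simp only; omega) (by simp only; omega)
  · rw [sg _ _ J (J + 2 * C.Q) rfl (by omega), eJ]
    refine (C.arc (by omega)).mv rfl (C.sym.wper J) ?_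
    rintro _ _ ⟨t, a, b, rfl, rfl⟩
    have e := C.per' t
    have s' := C.side (t - 2 * C.Q)
    have e1 := sh t
    refine ⟨eg t a (by omega), ?_, ?_, ?_, ?_⟩
    · by_cases c : t - 2 * C.Q = J
      · rw [c] at e; omega
      · omega
    · rcases hk with ⟨⟨-, -, -, h⟩ | h⟩
      · have := fun k => h k (t - 2 * C.Q)
        omega
      · omega
    · have := (C.nA (t - S)).2
      have := (C.nA (t - S - 2 * C.Q)).2
      have := C.per' (t - S)
      have := C.per (t - S)
      have := C.inj (t - S + 2 * C.Q) C.Q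
      omega
    · have := C.inj (t - S) 0
      have := C.mA (t - S)
      have := sJ.down
      omega
  · rw [sg _ _ J (C.B + C.Q) rfl (by omega), eJ]
    refine (C.arc (by omega)).mv rfl ?_ fun _ _ h => h
    have := C.per (C.B - C.Q)
    rw [show C.B - C.Q + 2 * C.Q = C.B + C.Q by ring, b1] at this
    exact Prod.ext (by simp only at this ⊢; omega) this.2
  · rintro _ _ ⟨t, a, b, rfl, rfl⟩
    exact eg t a b
  · obtain ⟨t, -, a, b⟩ := on _ _ h (Or.inr rfl)
    obtain ⟨t', -, a', b'⟩ := on _ _ g (Or.inl rfl)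
    have := C.fold (s := 2 * p.a - Y) a a' (by omega) (by omega)
    omega
  · obtain ⟨t, -, a, b⟩ := h
    obtain ⟨t', -, a', b'⟩ := on _ _ g (Or.inl rfl)
    have := C.per' t
    have := C.fold (t := t - 2 * C.Q) (s := 2 * p.a - Y) (by omega) a' (by omega) (by omega)
    omega

theorem exists_D8 (a b : ℤ) (ha : 16 ≤ a) (hab : 3 * a < b) (hc : IsCoprime a b)
    (he : a % 2 = 0) (ho : b % 2 = 1)
    (hb : 8 * b < a * a ∨ (4 * b < a * a ∧ (b - a) % a = a - 1))
    (hr : b < 5 * a ∨ 4 * ((b - a) % a) < a ∨ 3 * a < 4 * ((b - a) % a)) :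
    ∃ p : P8, p.a = a ∧ p.b = b ∧ Nonempty (D8 p) := by
  obtain ⟨C, μ, D, lo, hi, hD, hμ, free, near⟩ := exists_FC8 a (b - a) (by omega) (by omega)
    (by simpa [sub_eq_add_neg] using hc.add_mul_left_right (-1)) he (by omega)
  have hQ := C.hQ
  have hj := C.hj
  obtain ⟨κ, ρ, e, ρ0, ρ1⟩ : ∃ κ ρ, b - a = 2 * a * κ + ρ ∧ 0 ≤ ρ ∧ ρ < 2 * a :=
    ⟨(b - a) / (2 * a), (b - a) % (2 * a), (Int.mul_ediv_add_emod _ _).symm,
      Int.emod_nonneg _ (by omega), Int.emod_lt_of_pos _ (by omega)⟩
  have ev : 2 * a * κ % 2 = 0 := by rw [mul_assoc]; omega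
  have hm : (ρ < a ∧ (b - a) % a = ρ) ∨ (a ≤ ρ ∧ (b - a) % a = ρ - a) := by
    rcases lt_or_ge ρ a with h | h
    · refine .inl ⟨h, ?_⟩
      rw [e, show 2 * a * κ + ρ = ρ + a * (2 * κ) by ring, Int.add_mul_emod_self_left,
        Int.emod_eq_of_lt ρ0 h]
    · refine .inr ⟨h, ?_⟩
      rw [e, show 2 * a * κ + ρ = ρ - a + a * (2 * κ + 1) by ring, Int.add_mul_emod_self_left,
        Int.emod_eq_of_lt (by omega) (by omega)]
  generalize (b - a) % a = m at hm hμ hb hr
  have k1 : 1 ≤ κ := by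
    by_contra c
    have : 2 * a * κ ≤ 0 := by nlinarith
    omega
  have k2 : b < 5 * a → κ = 1 := fun h => by
    by_contra c
    have : 2 * a * 2 ≤ 2 * a * κ := mul_le_mul_of_nonneg_left (by omega) (by omega)
    omega
  have k3 : 16 * κ + 8 < a ∨ (8 * κ + 4 < a ∧ m = a - 1) := by
    rcases hb with h | h
    · left; nlinarith
    · exact .inr ⟨by nlinarith, h.2⟩
  have sc : 2 * a * (κ + 1) = 2 * a * κ + 2 * a := by ring
  -- the numbers of the design
  obtain ⟨N, c, e', hN, hce, hinc, fr⟩ : ∃ N c e' : ℤ,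
      (1 ≤ κ ∧ κ ≤ N ∧ N ≤ κ + 1 ∧ 3 * N + 6 ≤ a) ∧
      ((c = 1 ∧ e' = N + 3) ∨ (c = N + 2 ∧ e' = 0)) ∧
      ((N = κ ∧ 2 * a * N - a + e' + N < b - 2 * a - 1 ∧
        b - 2 * a < 2 * a * N + a - c - N + 1) ∨
      (2 * a * N - a - c - N + 1 < b - 2 * a ∧ b - 2 * a ≤ 2 * a * N - a + e' + N)) ∧
      ∀ t, a + N < (C.f t).2 ∨ (C.f t).1 < a - c - N + 1 ∨ a + e' + N < (C.f t).1 := by
    have fr : ∀ N c e' : ℤ, 1 ≤ N → 3 * N + 6 ≤ a → (c = 1 ∧ e' = N + 3 ∧ e' + 2 * N < a - lo ∧
        (c + 2 * N - 1 < a - hi ∨ (N = 1 ∧ hi ≤ a))) ∨ (c = N + 2 ∧ e' = 0 ∧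
        c + 2 * N - 1 < a - hi ∧ (e' + 2 * N < a - lo ∨ (N = 1 ∧ lo ≤ a))) →
        ∀ t, a + N < (C.f t).2 ∨ (C.f t).1 < a - c - N + 1 ∨ a + e' + N < (C.f t).1 :=
      fun N c e' h1 h2 h t => by
        have a1 := C.mA t
        have a2 := C.mA (t - 2 * C.Q)
        have a3 := C.per' t
        have a4 := free t
        have a5 := near t
        have a6 := C.strip t
        clear hb hr hm hμ k2 k3 he ho ev e sc
        obtain ⟨-, k4, k7, -, k13⟩ := a1
        obtain ⟨k17, -, -, k26, -⟩ := a2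
        obtain ⟨k33, -⟩ := a3
        clear a6
        rcases imp_iff_not_or.1 k4 with k5 | k6
        · rcases imp_iff_not_or.1 k17 with k18 | k19
          · rcases imp_iff_not_or.1 k7 with k8 | k9
            · rcases imp_iff_not_or.1 k13 with k14 | k15
              · omega
              · rcases imp_iff_not_or.1 k26 with k27 | k28
                · omega
                · rcases imp_iff_not_or.1 a4 with k36 | k37
                  · omega
                  · rcases imp_iff_not_or.1 a5 with k43 | k44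
                    · rcases imp_iff_not_or.1 k37 with k38 | k39
                      · omega
                      · rcases k39 with k40 | k41
                        · rcases h with ⟨k52, -, -, k55⟩ | ⟨k61, -, k63, -⟩
                          · rcases k55 with k56 | ⟨k58, -⟩
                            · omega
                            · refine .inr (.inl ?_); omega
                          · omega
                        · rcases h with ⟨-, k53, k54, -⟩ | ⟨-, k62, -, k64⟩
                          · refine .inl ?_; omega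
                          · rcases k64 with k65 | ⟨k67, k68⟩
                            · refine .inl ?_; omega
                            · refine .inl ?_; omega
                    · rcases imp_iff_not_or.1 k44 with k45 | k46
                      · omega
                      · rcases imp_iff_not_or.1 k37 with k38 | k39
                        · omega
                        · rcases k39 with k40 | k41
                          · rcases h with ⟨k52, -, -, k55⟩ | ⟨k61, -, k63, -⟩
                            · rcases k55 with k56 | ⟨k58, -⟩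
                              · omega
                              · refine .inl ?_; omega
                            · omega
                          · rcases h with ⟨-, k53, k54, -⟩ | ⟨-, k62, -, k64⟩
                            · refine .inl ?_; omega
                            · rcases k64 with k65 | ⟨k67, -⟩
                              · refine .inl ?_; omega
                              · refine .inl ?_; omega
            · rcases imp_iff_not_or.1 a4 with k36 | k37
              · omega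
              · rcases imp_iff_not_or.1 a5 with k43 | k44
                · omega
                · rcases imp_iff_not_or.1 k37 with k38 | k39
                  · omega
                  · rcases imp_iff_not_or.1 k44 with k45 | k46
                    · rcases k39 with k40 | k41
                      · rcases h with ⟨k52, -, -, k55⟩ | ⟨k61, -, k63, -⟩
                        · rcases k55 with k56 | ⟨k58, k59⟩
                          · refine .inl ?_; omega
                          · refine .inl ?_; omega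
                        · refine .inl ?_; omega
                      · rcases h with ⟨-, k53, k54, -⟩ | ⟨-, k62, -, k64⟩
                        · omega
                        · rcases k64 with k65 | ⟨k67, -⟩
                          · omega
                          · refine .inr (.inr ?_); omega
                    · rcases k39 with k40 | k41
                      · rcases h with ⟨k52, -, -, k55⟩ | ⟨k61, -, k63, -⟩
                        · rcases k55 with k56 | ⟨k58, -⟩
                          · refine .inl ?_; omega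
                          · refine .inl ?_; omega
                        · refine .inl ?_; omega
                      · rcases h with ⟨-, k53, k54, -⟩ | ⟨-, k62, -, k64⟩
                        · omega
                        · rcases k64 with k65 | ⟨k67, -⟩
                          · omega
                          · refine .inl ?_; omega
          · rcases h with ⟨-, k53, -⟩ | ⟨-, k62, -⟩
            · refine .inr (.inr ?_); omega
            · refine .inr (.inr ?_); omega
        · rcases h with ⟨k52, -⟩ | ⟨k61, -⟩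
          · refine .inr (.inl ?_); omega
          · refine .inr (.inl ?_); omega
    rcases hμ with hμ | hμ
    · exact ⟨κ, 1, κ + 3, by omega, .inl ⟨rfl, rfl⟩, by omega,
        fr _ _ _ k1 (by omega) (.inl (by omega))⟩
    by_cases g : 2 * a - ρ ≤ 2 * κ + 1
    · exact ⟨κ + 1, κ + 1 + 2, 0, by omega, .inr ⟨rfl, rfl⟩, .inr (by omega),
        fr _ _ _ (by omega) (by omega) (.inr (by omega))⟩
    · exact ⟨κ, κ + 2, 0, by omega, .inr ⟨rfl, rfl⟩, .inl (by omega),
        fr _ _ _ k1 (by omega) (.inr (by omega))⟩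
  have sj := (C.side C.j).2.1 rfl
  have st := C.strip C.j
  have hs : 2 * a * κ - a < b - 2 * a ∧ b - 2 * a < 2 * a * κ + a := by omega
  have eN : 2 * a * N = 2 * a * κ ∨ (N = κ + 1 ∧ 2 * a * N = 2 * a * κ + 2 * a) := by
    rcases (by omega : N = κ ∨ N = κ + 1) with rfl | rfl
    · exact .inl rfl
    · exact .inr ⟨rfl, sc⟩
  have lj : ∀ t, C.j ≤ t → b - 2 * a ≤ (C.f t).1 := fun t c => by
    have := C.side t
    omega
  rcases hinc with hinc | hinc
  swap
  · have h1 := fr (C.j - 2 * C.Q * (N - 1))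
    have h2 := C.pers' (N - 1) C.j
    rw [show 2 * a * (N - 1) = 2 * a * N - 2 * a by ring] at h2
    obtain ⟨σ, hσ⟩ : ∃ σ : ℤ, (σ = -1 ∧ b - 2 * a < 2 * a * κ) ∨
        (σ = 1 ∧ 2 * a * κ + 1 < b - 2 * a) := by
      by_cases g : b - 2 * a < 2 * a * κ
      · exact ⟨_, .inl ⟨rfl, g⟩⟩
      · exact ⟨_, .inr ⟨rfl, by omega⟩⟩
    exact ⟨⟨a, b, (C.f C.j).2 - a, b - 2 * a, 4, N, κ, c, e', σ, hN, ⟨he, ho⟩, hce, hs,
      .inr (.inr ⟨rfl, by omega, by omega, rfl⟩), .inr ⟨rfl, hinc⟩, by omega,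
      hσ.imp_right .inr⟩, rfl, rfl,
      mk8 _ C C.j (.inl ⟨.inr rfl, rfl, by simp only; omega, fun h => absurd h (by simp)⟩) lj fr⟩
  by_cases h : ∃ J, (C.f J).1 = b - 2 * a - 1 ∧ (C.f J).2 = a
  · obtain ⟨J, h1, h2⟩ := h
    have bar : C.Bar (b - 2 * a - μ) := by
      rcases hμ with hμ | hμ <;> rcases hm with hm | hm
      · have := C.bar2.shift (κ - 1)
        rwa [show a + 2 * a * (κ - 1) = b - 2 * a - μ by linarith [hμ.1, hm.2]] at this
      · have := C.bar1.shift κ
        rwa [show 0 + 2 * a * κ = b - 2 * a - μ by linarith [hμ.1, hm.2]] at this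
      · have := C.bar3.shift (-κ - 1)
        rwa [show 2 * (b - a) + 2 * a * (-κ - 1) = b - 2 * a - μ by linarith [hμ.1, hm.2]] at this
      · have := C.bar4.shift (-κ - 1)
        rwa [show 2 * (b - a) - a + 2 * a * (-κ - 1) = b - 2 * a - μ by
          linarith [hμ.1, hm.2]] at this
    obtain ⟨t0, bar⟩ := bar
    have Jt : t0 ≤ J := by
      have := bar J
      omega
    obtain ⟨k, k1, k2⟩ : ∃ k : ℤ, (k = 2 ∨ k = 3) ∧ (k = 2 ↔ (C.f C.j).2 = a) := by
      by_cases g : (C.f C.j).2 = a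
      · exact ⟨2, Or.inl rfl, iff_of_true rfl g⟩
      · exact ⟨3, Or.inr rfl, iff_of_false (by decide) g⟩
    obtain ⟨σ, hσ⟩ : ∃ σ : ℤ, (σ = -1 ∧ b - 2 * a < 2 * a * κ) ∨
        (σ = 0 ∧ b - 2 * a = 2 * a * κ + 1 ∧ (k = 2 ∨ k = 3)) ∨
        (σ = 1 ∧ 2 * a * κ + 1 < b - 2 * a) := by
      by_cases g : b - 2 * a < 2 * a * κ
      · exact ⟨_, .inl ⟨rfl, g⟩⟩
      by_cases g' : b - 2 * a = 2 * a * κ + 1
      · exact ⟨_, .inr (.inl ⟨rfl, g', k1⟩)⟩
      · exact ⟨_, .inr (.inr ⟨rfl, by omega⟩)⟩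
    exact ⟨⟨a, b, 0, b - 2 * a - μ, k, N, κ, c, e', σ, hN, ⟨he, ho⟩, hce, hs,
      .inr (.inl ⟨k1, rfl, by omega⟩), .inl ⟨by omega, hinc⟩, by omega, hσ⟩, rfl, rfl,
      mk8 _ C J (.inr ⟨k1, h1, h2, k2⟩) (fun t g => (bar t).1 (by omega)) fr⟩
  · have pr := C.prev
    have h0 : (C.f C.j).2 ≠ a := fun g => h ⟨C.j - 1, by omega, by omega⟩
    obtain ⟨σ, hσ⟩ : ∃ σ : ℤ, (σ = -1 ∧ b - 2 * a < 2 * a * κ) ∨
        (σ = 1 ∧ 2 * a * κ + 1 < b - 2 * a) := by
      by_cases g : b - 2 * a < 2 * a * κ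
      · exact ⟨_, .inl ⟨rfl, g⟩⟩
      · refine ⟨_, .inr ⟨rfl, ?_⟩⟩
        by_contra g'
        have := C.pers κ 0
        rw [C.f0] at this
        exact h ⟨_, by omega, this.2⟩
    exact ⟨⟨a, b, (C.f C.j).2 - a, b - 2 * a, 1, N, κ, c, e', σ, hN, ⟨he, ho⟩, hce, hs,
      .inl ⟨rfl, by omega, by omega, rfl⟩, .inl ⟨by simp, hinc⟩, by omega,
      hσ.imp_right .inr⟩, rfl, rfl,
      mk8 _ C C.j (.inl ⟨.inl rfl, rfl, by simp only; omega, fun _ t c g => h ⟨t, c, g⟩⟩) lj fr⟩

theorem twoPiece_helix (a b c : ℕ) (ha : 0 < a) (hab : 3 * a < b)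
    (h : a ^ 2 + b ^ 2 = c ^ 2) (hc : Nat.gcd a b = 1) (he : a % 2 = 0)
    (hr : b < 5 * a ∨ 4 * (b % a) < a ∨ 3 * a < 4 * (b % a)) :
    TwoPieceDissection a b c := by
  have ho : b % 2 = 1 := by
    by_contra g
    have := Nat.dvd_gcd (Nat.dvd_of_mod_eq_zero he) (Nat.dvd_of_mod_eq_zero (show b % 2 = 0 by omega))
    rw [hc] at this
    omega
  have hZ : (a : ℤ) * a + (b : ℤ) * b = (c : ℤ) * c := by
    have : a * a + b * b = c * c := by rw [← sq, ← sq, ← sq]; exact h
    exact_mod_cast this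
  have em : ((b : ℤ) - a) % a = (b % a : ℕ) := by
    rw [Int.sub_emod_right]; rfl
  obtain ⟨s, hs⟩ : ∃ s : ℤ, (a : ℤ) = 2 * s := ⟨a / 2, by omega⟩
  obtain ⟨r, hr'⟩ : ∃ r : ℤ, (b : ℤ) = 2 * r + 1 := ⟨b / 2, by omega⟩
  have cb : (b : ℤ) < c := by
    by_contra g
    have : (c : ℤ) * c ≤ b * b := by nlinarith
    have : (0 : ℤ) < a * a := by positivity
    omega
  have co : (c : ℤ) % 2 = 1 := by
    by_contra g
    obtain ⟨t, ht⟩ : ∃ t : ℤ, (c : ℤ) = 2 * t := ⟨c / 2, by omega⟩
    rw [hs, hr', ht] at hZ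
    have : 2 * (2 * (s * s) + 2 * (r * r) + 2 * r - 2 * (t * t)) = -1 := by linarith
    omega
  have hb : 8 * (b : ℤ) < a * a ∨ (4 * (b : ℤ) + 4 = a * a) := by
    rcases (by omega : (c : ℤ) = b + 2 ∨ (b : ℤ) + 4 ≤ c) with g | g
    · rw [g] at hZ; right; linarith
    · left; nlinarith
  have h4 : a % 4 = 0 := by
    by_contra g
    have h8 : (a ^ 2 + b ^ 2) % 8 = c ^ 2 % 8 := by rw [h]
    rw [Nat.add_mod, Nat.pow_mod a, Nat.pow_mod b, Nat.pow_mod c] at h8
    have ha8 : a % 8 = 2 ∨ a % 8 = 6 := by omega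
    have hb8 : b % 8 = 1 ∨ b % 8 = 3 ∨ b % 8 = 5 ∨ b % 8 = 7 := by omega
    have hc8 : c % 8 < 8 := Nat.mod_lt _ (by norm_num)
    generalize c % 8 = r at h8 hc8
    rcases ha8 with e | e <;> rcases hb8 with f | f | f | f <;> rw [e, f] at h8 <;>
      interval_cases r <;> simp at h8
  have h16 : (16 : ℤ) ≤ a := by
    by_contra g
    have : (a : ℤ) * a ≤ 12 * a := by nlinarith [show (a : ℤ) ≤ 12 by omega]
    omega
  obtain ⟨p, e1, e2, ⟨D⟩⟩ := exists_D8 a b h16 (by omega) (Nat.isCoprime_iff_coprime.2 hc)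
    (by omega) (by omega) (hb.imp_right fun g => ⟨by omega, by
      obtain ⟨u, hu⟩ : ∃ u : ℤ, (a : ℤ) = 4 * u := ⟨a / 4, by omega⟩
      have : (b : ℤ) - a = a - 1 + a * (u - 2) := by rw [hu] at g ⊢; linarith
      rw [this, Int.add_mul_emod_self_left, Int.emod_eq_of_lt (by omega) (by omega)]⟩)
    (by rw [em]; omega)
  exact D.twoPiece e1 e2 h

end NP
end Pool.Agent.Lib.MP_4a7072_co
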