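import Pool.Agent.Lib.MP_4a7072_co.HEnv

/-!
The vertices of the three lattices are marked or lie outside (design with long arms).
-/

set_option autoImplicit false
set_option linter.unnecessarySeqFocus false

namespace Pool.Agent.Lib.MP_4a7072_co
namespace NP
namespace P8

variable {p : P8} {X Y : ℤ}

/-! ### The small cube -/

theorem EM1.em (h : p.EM1 X Y) : p.EM X Y := by
  have := p.aux
  exact .inl (.inl ⟨0, le_rfl, by omega, by rw [off_zero, sub_zero]; exact h.1,
    by have := h.2; omega, by have := h.2; omega, by omega⟩)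

/-- The fourfold symmetric envelope of the small piece. -/
def E4 (p : P8) (X Y : ℤ) : Prop :=
  p.EQ X Y ∨ p.EQ Y (-X) ∨ p.EQ (-X) (-Y) ∨ p.EQ (-Y) X ∨
    (-p.a < X ∧ X < p.a ∧ -p.a < Y ∧ Y < p.a)

theorem E4.rot (h : p.E4 (-Y) X) : p.E4 X Y := by
  rcases h with h | h | h | h | h
  · exact .inr (.inr (.inr (.inl h)))
  · exact .inl (by simpa using h)
  · exact .inr (.inl (by simpa using h))
  · exact .inr (.inr (.inl h))
  · exact .inr (.inr (.inr (.inr (by omega))))

theorem EA.e4 (h : p.EA X Y) : p.E4 X Y := by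
  have := p.aux
  rcases h with (h | h | h | h | h | h | h) | h | h
  · exact .inl (.inl (.inr h))
  · exact .inl (.inr (.inl h))
  · exact .inl (.inr (.inr h))
  · exact .inr (.inl h)
  · exact .inr (.inr (.inl h.eq))
  · have := h.lin; exact .inr (.inr (.inr (.inr (by omega))))
  · have := h.lin; exact .inr (.inr (.inr (.inr (by omega))))
  · exact .inr (.inr (.inr (.inl (.inr (.inr h.em)))))
  · exact .inl (.inl (.inl h))

/-- There is a way out from the point. -/
def Esc (p : P8) (X Y : ℤ) : Prop :=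
  (∀ Y', Y ≤ Y' → ¬p.E4 X Y') ∨ (∀ Y', Y' ≤ Y → ¬p.E4 X Y') ∨ (∀ X', X ≤ X' → ¬p.E4 X' Y) ∨
    (¬p.E4 X Y ∧ ∀ Y', Y ≤ Y' → ¬p.E4 (X - 1) Y')

theorem Esc.out0 (h : p.Esc X Y) : OutE p.E4 X Y := by
  rcases h with h | h | h | ⟨h, g⟩
  · exact .rayN h
  · exact .rayS h
  · exact .rayE h
  · exact .step 2 h (.rayN fun Y' a => by
      simpa [dv, sub_eq_add_neg] using g Y' (by simpa [dv] using a))

theorem Esc.out1 (h : p.Esc X Y) : OutE p.E4 (-Y) X := by
  rcases h with h | h | h | ⟨h, g⟩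
  · exact .rayW fun Z a e => h (-Z) (by omega) (E4.rot (by simpa using e))
  · exact .rayE fun Z a e => h (-Z) (by omega) (E4.rot (by simpa using e))
  · exact .rayN fun Z a e => h Z a (E4.rot e)
  · exact .step 3 (fun e => h e.rot) (.rayW fun Z a e => g (-Z) (by simp [dv] at a; omega)
      (E4.rot (by simpa [dv, sub_eq_add_neg] using e)))

theorem Esc.out2 (h : p.Esc X Y) : OutE p.E4 (-X) (-Y) := by
  have r : ∀ {X Y}, p.E4 (-X) (-Y) → p.E4 X Y := fun e => E4.rot (E4.rot e)
  rcases h with h | h | h | ⟨h, g⟩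
  · exact .rayS fun Z a e => h (-Z) (by omega) (r (by simpa using e))
  · exact .rayN fun Z a e => h (-Z) (by omega) (r (by simpa using e))
  · exact .rayW fun Z a e => h (-Z) (by omega) (r (by simpa using e))
  · exact .step 0 (fun e => h (r e)) (.rayS fun Z a e => g (-Z) (by simp [dv] at a; omega)
      (r (sCg e (by show -X + 1 = -(X - 1); ring) (by ring))))

/-- In the upper right region only the upper quarter matters. -/
theorem E4.up (h : p.E4 X Y) (g : -1 ≤ X ∧ p.a ≤ Y) (g' : 2 * X ≤ p.a ∨ p.a < X ∨ p.a < Y) :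
    p.EQ X Y := by
  have := p.aux
  rcases h with h | h | h | h | h
  · exact h
  · have := h.lin; omega
  · have := h.lin; omega
  · have := h.lin
    have := h.left (by omega)
    unfold Pc at this
    omega
  · omega

theorem E4.right (h : p.E4 X Y) (g : 2 * p.a < X) : p.EQ X Y := by
  have := p.aux
  rcases h with h | h | h | h | h
  · exact h
  · have := h.lin; omega
  · have := h.lin; omega
  · have := h.lin; omega
  · omega

theorem EM.hole {j : ℤ} (h : p.EM (p.off j - p.a) Y) (hj : 1 ≤ j) : p.a < Y := by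
  have := p.aux; have := p.hc'; have := p.off_even j; have := p.hpar
  rcases h with (⟨i, h0, h1, h, h2⟩ | h) | h | h
  · have := p.off_rel i j
    rcases h with h | h | h | h <;> omega
  all_goals
    have := p.off_rel j p.N
    omega

theorem EM.valley {j : ℤ} (h : p.EM X Y) (hX : X = p.off j ∨ X = p.off j - 1) (hY : p.a ≤ Y) :
    X = p.b - 2 * p.a ∨ X = p.b - 2 * p.a - 1 := by
  have := p.aux
  rcases h with (⟨i, h0, h1, h, h2⟩ | h) | h | h
  · have := p.off_rel i j
    rcases h with h | h | h | h <;> omega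
  all_goals omega

theorem EM.top (h : p.EM X Y) (hY : 2 * p.a ≤ Y) : X = p.b - 2 * p.a := by
  have := p.aux
  rcases h with h | h | h
  · have := h.lin; omega
  · omega
  · omega

theorem arm (p : P8) (m n : ℤ) (hm : 0 ≤ m) (hn : 1 ≤ n) :
    ((m * p.a = p.a ∧ n * p.a = p.a) ∨ (m * p.a = p.off p.κ + p.a ∧ n * p.a = 2 * p.a) ∨
      (p.σ ≤ 0 ∧ m * p.a = p.off p.κ ∧ n * p.a = p.a) ∨
      (0 ≤ p.σ ∧ m * p.a = p.off p.κ + 2 * p.a ∧ n * p.a = p.a)) ∨ p.Esc (m * p.a) (n * p.a) := by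
  have u := p.aux
  have hs := p.hs'
  have hσ := p.hσ'
  have := p.hpar
  obtain ⟨j, hj, e⟩ : ∃ j, 0 ≤ j ∧ (m * p.a = p.off j ∨ (1 ≤ j ∧ m * p.a = p.off j - p.a)) := by
    obtain ⟨j, rfl | rfl⟩ : ∃ j, m = 2 * j ∨ m = 2 * j - 1 := ⟨(m + 1) / 2, by omega⟩
    · exact ⟨j, by omega, .inl (by simp only [off]; ring)⟩
    · exact ⟨j, by omega, .inr ⟨by omega, by simp only [off]; ring⟩⟩
  have ev := p.off_even j
  have r0 := p.off_rel j 0
  have z := p.off_zero
  have rk := p.off_rel j p.κ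
  generalize m * p.a = X at e ⊢
  rcases (by omega : n = 1 ∨ n = 2 ∨ 3 ≤ n) with rfl | rfl | hn
  · rw [one_mul]
    rcases e with rfl | ⟨h1, rfl⟩
    · by_cases c : j < p.κ ∨ (j = p.κ ∧ p.σ = 1)
      · have key : ∀ X Y, X = p.off j ∧ Y = p.a ∨ X = p.off j - 1 ∧ p.a ≤ Y → ¬p.E4 X Y := by
          intro X Y g h
          rcases h.up (by omega) (by omega) with h | h | h
          · have := h.valley (j := j - 1) (by have := p.off_succ (j - 1); rw [sub_add_cancel] at this; omega) (by omega)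
            omega
          · have := h.lin; have := h.d8; omega
          · have := h.valley (j := j) (by omega) (by omega)
            omega
        exact .inr (.inr (.inr (.inr ⟨key _ _ (by omega), fun Y' a => key _ _ (by omega)⟩)))
      by_cases c' : j = p.κ ∨ (j = p.κ + 1 ∧ 0 ≤ p.σ)
      · exact .inl (by omega)
      · refine .inr (.inr (.inr (.inl fun X' a h => ?_)))
        have := (h.right (by omega)).lin
        omega
    · by_cases c : j = 1
      · exact .inl (by omega)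
      refine .inr (.inr (.inl fun Y' a h => ?_))
      have r1 := p.off_rel j 1
      have := p.off_succ 0
      rw [zero_add] at this
      rcases h.right (by omega) with h | h | h
      · have e := p.off_succ (j - 1)
        rw [sub_add_cancel] at e
        have := EM.hole (j := j - 1) (sCg h (by omega) rfl) (by omega)
        omega
      · have := h.lin; have := h.fr j; omega
      · have := h.hole h1; omega
  · by_cases c : X = p.off p.κ + p.a
    · exact .inl (by omega)
    refine .inr (.inl fun Y' a h => ?_)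
    rcases h.up (by omega) (by omega) with h | h | h
    · have := h.top a; omega
    · have := h.lin; have := h.d5; have := h.d7; omega
    · have := h.top a; omega
  · have : 3 * p.a ≤ n * p.a := mul_le_mul_of_nonneg_right hn (by omega)
    refine .inr (.inl fun Y' a h => ?_)
    have := (h.up (by omega) (by omega)).lin
    omega

theorem aE (g : (1 ≤ X ∧ Y < 0) ∨ (p.a ≤ X ∧ Y ≤ 0)) : OutE p.EA X Y := by
  have := p.aux
  refine .rayE fun X' a h => ?_
  rcases h with h | ⟨h, h'⟩ | h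
  · have := h.hx; omega
  · unfold Pc at h; omega
  · have := h.lin; omega

theorem covA (p : P8) (m n : ℤ) : p.LA (m * p.a, n * p.a) ∨ OutE p.EA (m * p.a) (n * p.a) := by
  have := p.aux
  have E : ∀ {x y z w : ℤ}, x = z → y = w → ((x, y) : Pt) = (z, w) := fun a b => Prod.ext a b
  rcases (by omega : (0 ≤ m ∧ 1 ≤ n) ∨ (m ≤ -1 ∧ 0 ≤ n) ∨ (m ≤ 0 ∧ n ≤ -1) ∨ (1 ≤ m ∧ n ≤ 0) ∨
    (m = 0 ∧ n = 0)) with h | h | h | h | ⟨rfl, rfl⟩
  · refine (p.arm m n h.1 h.2).imp (fun g => ?_) fun g => g.out0.mono fun _ _ => EA.e4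
    rcases g with ⟨a, b⟩ | ⟨a, b⟩ | ⟨c, a, b⟩ | ⟨c, a, b⟩
    · exact .inr (.inl (E a b))
    · exact .inr (.inr (.inr (.inr (.inl (E a b)))))
    · exact .inr (.inr (.inr (.inr (.inr (.inr (.inr (.inl ⟨c, .inl (E a b)⟩)))))))
    · exact .inr (.inr (.inr (.inr (.inr (.inr (.inr (.inr ⟨c, .inl (E a b)⟩)))))))
  · refine (p.arm n (-m) h.2 (by omega)).imp (fun g => ?_) fun g => ?_
    · rw [neg_mul] at g
      rcases g with ⟨a, b⟩ | ⟨a, b⟩ | ⟨c, a, b⟩ | ⟨c, a, b⟩
      · exact .inr (.inr (.inl (E (by linarith) a)))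
      · exact .inr (.inr (.inr (.inr (.inr (.inl (E (by linarith) a))))))
      · exact .inr (.inr (.inr (.inr (.inr (.inr (.inr (.inl
          ⟨c, .inr (.inl (E (by linarith) a))⟩)))))))
      · exact .inr (.inr (.inr (.inr (.inr (.inr (.inr (.inr
          ⟨c, .inr (.inl (E (by linarith) a))⟩)))))))
    · have := g.out1
      rw [neg_mul, neg_neg] at this
      exact this.mono fun _ _ => EA.e4
  · refine (p.arm (-m) (-n) (by omega) (by omega)).imp (fun g => ?_) fun g => ?_
    · rw [neg_mul, neg_mul] at g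
      rcases g with ⟨a, b⟩ | ⟨a, b⟩ | ⟨c, a, b⟩ | ⟨c, a, b⟩
      · exact .inr (.inr (.inr (.inl (E (by linarith) (by linarith)))))
      · exact .inr (.inr (.inr (.inr (.inr (.inr (.inl (E (by linarith) (by linarith))))))))
      · exact .inr (.inr (.inr (.inr (.inr (.inr (.inr (.inl
          ⟨c, .inr (.inr (E (by linarith) (by linarith)))⟩)))))))
      · exact .inr (.inr (.inr (.inr (.inr (.inr (.inr (.inr
          ⟨c, .inr (.inr (E (by linarith) (by linarith)))⟩)))))))
    · have := g.out2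
      rw [neg_mul, neg_neg, neg_mul, neg_neg] at this
      exact this.mono fun _ _ => EA.e4
  · have h1 : 1 * p.a ≤ m * p.a := mul_le_mul_of_nonneg_right h.1 (by omega)
    have h2 : n * p.a ≤ 0 * p.a := mul_le_mul_of_nonneg_right h.2 (by omega)
    exact .inr (aE (by omega))
  · exact .inl (.inl (by simp))

theorem memA (p : P8) (W : Pt) (h : p.LA W) : ∃ m n : ℤ, W = (m * p.a, n * p.a) := by
  rcases h with h | h | h | h | h | h | h | ⟨-, h | h | h⟩ | ⟨-, h | h | h⟩ <;> subst h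
  exacts [⟨0, 0, by simp⟩, ⟨1, 1, by simp⟩, ⟨-1, 1, by simp⟩, ⟨-1, -1, by simp⟩,
    ⟨2 * p.κ + 1, 2, by ext <;> simp [off] <;> ring⟩,
    ⟨-2, 2 * p.κ + 1, by ext <;> simp [off] <;> ring⟩,
    ⟨-(2 * p.κ + 1), -2, by ext <;> simp [off] <;> ring⟩,
    ⟨2 * p.κ, 1, by ext <;> simp [off] <;> ring⟩, ⟨-1, 2 * p.κ, by ext <;> simp [off] <;> ring⟩,
    ⟨-(2 * p.κ), -1, by ext <;> simp [off] <;> ring⟩,
    ⟨2 * p.κ + 2, 1, by ext <;> simp [off] <;> ring⟩,
    ⟨-1, 2 * p.κ + 2, by ext <;> simp [off] <;> ring⟩,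
    ⟨-(2 * p.κ + 2), -1, by ext <;> simp [off] <;> ring⟩]

/-! ### The middle cube -/

theorem nb1 (h : p.Eq X Y) (hk : ¬p.k < 3) : ¬(X ≤ -2 * p.b ∧ Y = 0) := by
  have := p.aux
  rcases h with h | h | h | h | h | h | h | h <;> have := h.lin
  · omega
  · omega
  · have := fun e => h.right e; omega
  · have := h.d2; omega
  all_goals omega

theorem nb2 (h : p.Eq X Y) (hk : p.k ≠ 2) : ¬(X ≤ -2 * p.b ∧ Y = -2 * p.a) := by
  have := p.aux
  rcases h with h | h | h | h | h | h | h | h <;> have := h.lin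
  · omega
  · omega
  · omega
  · have := h.d2; omega
  all_goals omega

theorem nb4 (h : p.Eq X Y) : X ≤ -p.b → 2 * Y < 2 * p.b - p.a := by
  have := p.aux
  rcases h with h | h | h | h | h | h | h | h <;> have := h.lin <;> omega

theorem b0W (g : (X ≤ -p.b ∧ (p.b ≤ Y ∨ Y < -p.a - p.b)) ∨ X < -2 * p.b - 1 - p.N ∨
    (¬p.k < 3 ∧ X ≤ -2 * p.b ∧ Y = 0)) : ¬p.EB0 X Y := by
  have := p.aux
  rintro (h | h | h | h | h) <;> have := h.lin
  · have := nb1 h; omega
  all_goals omega

theorem b0S (g : (Y ≤ -p.b ∧ p.a + p.b < X) ∨ Y < -2 * p.b - 1 - p.N ∨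
    (¬p.k < 3 ∧ Y ≤ -2 * p.b ∧ X = 0) ∨ (p.k ≠ 2 ∧ Y ≤ -2 * p.b ∧ X = 2 * p.a) ∨
    (X ≤ -p.b ∧ Y < -p.a - p.b)) : ¬p.EB0 X Y := by
  have := p.aux
  rintro (h | h | h | h | h) <;> have := h.lin
  · omega
  · have := nb1 h; have := nb2 h; omega
  all_goals omega

theorem b0E (g : 2 * p.b + 1 + p.N < X ∨ (¬p.k < 3 ∧ 2 * p.b ≤ X ∧ Y = 0) ∨
    (p.k ≠ 2 ∧ 2 * p.b ≤ X ∧ Y = 2 * p.a) ∨ (Y ≤ -p.b ∧ p.a + p.b < X)) : ¬p.EB0 X Y := by
  have := p.aux
  rintro (h | h | h | h | h) <;> have := h.lin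
  · omega
  · omega
  · have := nb1 h; have := nb2 h; omega
  all_goals omega

theorem b0N (g : p.a + p.b < Y ∨ (X < -1 ∧ p.b ≤ Y) ∨ (X ≤ 0 ∧ p.b < Y) ∨
    (X = p.b - p.a ∧ p.a + p.b ≤ Y) ∨ (X ≤ -p.b ∧ 2 * p.b - p.a ≤ 2 * Y)) : ¬p.EB0 X Y := by
  have := p.aux
  rintro (h | h | h | h | h) <;> have := h.lin
  · have := nb4 h; omega
  all_goals omega

theorem covB (p : P8) (m n : ℤ) : p.LB (m * p.b, n * p.b) ∨
    OutE p.EB (p.a + 2 * p.b + m * p.b) (2 * p.a - p.b + n * p.b) := by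
  have := p.aux
  have l : ∀ {m c : ℤ}, m ≤ c → m * p.b ≤ c * p.b :=
    fun h => mul_le_mul_of_nonneg_right h (by omega)
  rcases (by omega : n ≤ -3 ∨ n = -2 ∨ n = -1 ∨ n = 0 ∨ n = 1 ∨ 2 ≤ n) with
    hn | rfl | rfl | rfl | rfl | hn <;>
  rcases (by omega : m ≤ -3 ∨ m = -2 ∨ m = -1 ∨ m = 0 ∨ m = 1 ∨ m = 2 ∨ 3 ≤ m) with
    hm | rfl | rfl | rfl | rfl | rfl | hm
  all_goals
    try have gn := l hn
    try have gm := l hm
  · exact .inr (.rayS fun _ _ => b0S (by omega))
  · exact .inr (.rayS fun _ _ => b0S (by omega))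
  · exact .inr (.rayS fun _ _ => b0S (by omega))
  · exact .inr (.rayS fun _ _ => b0S (by omega))
  · exact .inr (.rayS fun _ _ => b0S (by omega))
  · exact .inr (.rayS fun _ _ => b0S (by omega))
  · exact .inr (.rayS fun _ _ => b0S (by omega))
  · exact .inr (.rayW fun _ _ => b0W (by omega))
  · exact .inr (.rayW fun _ _ => b0W (by omega))
  · exact .inr (.rayW fun _ _ => b0W (by omega))
  · by_cases c : ¬p.k < 3
    · exact .inr (.rayS fun _ _ => b0S (by omega))
    · exact .inl (.inr (.inr (.inr (.inr (.inr (.inr (.inr (.inr (.inr (.inr (.inr ⟨not_not.1 c, (.inr (.inl (Prod.ext (by ring) (by ring))))⟩)))))))))))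
  · exact .inl (.inr (.inr (.inr (.inr (.inr (.inr (.inl (Prod.ext (by ring) (by ring)))))))))
  · exact .inr (.rayS fun _ _ => b0S (by omega))
  · exact .inr (.rayE fun _ _ => b0E (by omega))
  · exact .inr (.rayW fun _ _ => b0W (by omega))
  · exact .inl (.inr (.inr (.inr (.inr (.inr (.inl (Prod.ext (by ring) (by ring))))))))
  · exact .inl (.inr (.inr (.inr (.inr (.inr (.inr (.inr (.inr (.inl (Prod.ext (by ring) (by ring)))))))))))
  · exact .inl (.inr (.inr (.inl (Prod.ext (by ring) (by ring)))))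
  · exact .inl (.inr (.inr (.inr (.inr (.inr (.inr (.inr (.inr (.inr (.inl (Prod.ext (by ring) (by ring))))))))))))
  · exact .inr (.rayS fun _ _ => b0S (by omega))
  · exact .inr (.rayE fun _ _ => b0E (by omega))
  · exact .inr (.rayW fun _ _ => b0W (by omega))
  · by_cases c : ¬p.k < 3
    · exact .inr (.rayW fun _ _ => b0W (by omega))
    · exact .inl (.inr (.inr (.inr (.inr (.inr (.inr (.inr (.inr (.inr (.inr (.inr ⟨not_not.1 c, (.inl (Prod.ext (by ring) (by ring)))⟩)))))))))))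
  · exact .inl (.inr (.inl (Prod.ext (by ring) (by ring))))
  · exact .inl (.inl (Prod.ext (by ring) (by ring)))
  · exact .inl (.inr (.inr (.inr (.inl (Prod.ext (by ring) (by ring))))))
  · by_cases c : ¬p.k < 3
    · exact .inr (.rayE fun _ _ => b0E (by omega))
    · exact .inl (.inr (.inr (.inr (.inr (.inr (.inr (.inr (.inr (.inr (.inr (.inr ⟨not_not.1 c, (.inr (.inr (Prod.ext (by ring) (by ring))))⟩)))))))))))
  · exact .inr (.rayE fun _ _ => b0E (by omega))
  · exact .inr (.rayW fun _ _ => b0W (by omega))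
  · exact .inr (.rayW fun _ _ => b0W (by omega))
  · exact .inr (.rayW fun _ _ => b0W (by omega))
  · exact .inl (.inr (.inr (.inr (.inr (.inl (Prod.ext (by ring) (by ring)))))))
  · exact .inl (.inr (.inr (.inr (.inr (.inr (.inr (.inr (.inr (.inr (.inr (.inl (Prod.ext (by ring) (by ring)))))))))))))
  · exact .inl (.inr (.inr (.inr (.inr (.inr (.inr (.inr (.inl (Prod.ext (by ring) (by ring))))))))))
  · exact .inr (.rayE fun _ _ => b0E (by omega))
  · exact .inr (.rayN fun _ _ => b0N (by omega))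
  · exact .inr (.rayN fun _ _ => b0N (by omega))
  · exact .inr (.rayN fun _ _ => b0N (by omega))
  · exact .inr (.rayN fun _ _ => b0N (by omega))
  · exact .inr (.rayN fun _ _ => b0N (by omega))
  · exact .inr (.rayN fun _ _ => b0N (by omega))
  · exact .inr (.rayN fun _ _ => b0N (by omega))

theorem memB (p : P8) (W : Pt) (h : p.LB W) : ∃ m n : ℤ, W = (m * p.b, n * p.b) := by
  rcases h with h | h | h | h | h | h | h | h | h | h | h | ⟨-, h | h | h⟩ <;> subst h
  exacts [⟨0, 0, by simp⟩, ⟨-1, 0, by simp⟩, ⟨0, -1, by simp⟩, ⟨1, 0, by simp⟩, ⟨0, 1, by simp⟩,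
    ⟨-2, -1, by simp⟩, ⟨1, -2, by simp⟩, ⟨2, 1, by simp⟩, ⟨-1, -1, by simp⟩, ⟨1, -1, by simp⟩,
    ⟨1, 1, by simp⟩, ⟨-2, 0, by simp⟩, ⟨0, -2, by simp⟩, ⟨2, 0, by simp⟩]

/-! ### The large cube -/

theorem EQ.atb (h : p.EQ X Y) (g : p.b ≤ X) (hk : p.k ≠ 1) : p.a < Y := by
  have := p.aux
  have := p.hk
  rcases h with h | h | h
  · have := h.lin; have := fun e => h.right e; omega
  · have := h.d5; omega
  · have := h.lin; omega

theorem Eα.rough (h : p.Eα X Y) : p.EQ X Y ∨ p.EQ Y (-X) ∨ p.EQ (-X) (-Y) ∨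
    (0 ≤ X ∧ X < p.a ∧ -p.a < Y ∧ Y ≤ 0) := by
  have := p.aux
  rcases h with h | h | h | h | h | h | h
  · exact .inl (.inl (.inr h))
  · exact .inl (.inr (.inl h))
  · exact .inl (.inr (.inr h))
  · exact .inr (.inl h)
  · exact .inr (.inr (.inl h.eq))
  · have := h.lin; exact .inr (.inr (.inr (by omega)))
  · have := h.lin; exact .inr (.inr (.inr (by omega)))

theorem Eα.box (h : p.Eα X Y) : -p.b ≤ X ∧ X ≤ p.b ∧ -2 * p.a ≤ Y ∧ Y ≤ p.b := by
  have := p.aux
  rcases h.rough with h | h | h | h <;> first | omega | (have := h.lin; omega)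

theorem EB.box (h : p.EB X Y) : p.a - 1 - p.N ≤ X := by
  have := p.aux
  rcases h with h | h | h | h | h <;> have := h.lin <;> omega

theorem cW (g : X < -p.b ∨ (p.k ≠ 1 ∧ X = -p.b ∧ Y = -p.a)) : OutE p.EC X Y := by
  have := p.aux
  refine .rayW fun X' a h => ?_
  rcases h with h | h
  · have := h.box
    rcases h.rough with h | h | h | h
    · have := h.lin; omega
    · have := h.lin; omega
    · have := fun a b => h.atb a b; omega
    · omega
  · have := h.box; omega

theorem cS (g : (Y < -2 * p.a ∧ (X < p.a - 1 - p.N ∨ Y < 2 * p.a - 3 * p.b - 1 - p.N ∨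
    (X ≤ p.a + p.b ∧ Y < p.a - 2 * p.b))) ∨
    (p.k ≠ 2 ∧ X = 3 * p.a + 2 * p.b ∧ Y = 2 * p.a - 3 * p.b)) : OutE p.EC X Y := by
  have := p.aux
  refine .rayS fun Y' a h => ?_
  rcases h with h | h
  · have := h.box; omega
  · have := h.box
    exact b0S (by omega) h

theorem cE (g : p.a + 4 * p.b + 1 + p.N < X ∨ (2 * p.a + 3 * p.b < X ∧ Y ≤ 2 * p.a - 2 * p.b) ∨
    (p.k ≠ 2 ∧ X = p.a + 4 * p.b ∧ Y = 4 * p.a - p.b)) : OutE p.EC X Y := by
  have := p.aux
  refine .rayE fun X' a h => ?_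
  rcases h with h | h
  · have := h.box; omega
  · exact b0E (by omega) h

theorem cN (g : p.b < Y ∨ (p.b < X ∧ X < p.a + 2 * p.b - 1 ∧ 2 * p.a ≤ Y) ∨ (p.b < X ∧ 3 * p.a < Y) ∨
    (X = 3 * p.b ∧ Y = 3 * p.a) ∨ (p.k ≠ 1 ∧ X = -p.a ∧ Y = p.b)) : OutE p.EC X Y := by
  have := p.aux
  refine .rayN fun Y' a h => ?_
  rcases h with h | h
  · have := h.box
    rcases h.rough with h | h | h | h
    · have := h.lin; omega
    · have := fun a b => h.atb a b; omega
    · have := h.lin; omega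
    · omega
  · have := h.box
    exact b0N (by omega) h

theorem cM (g : X = 1 ∧ Y < 0) : OutE p.EC X Y := by
  have := p.aux
  refine .rayS fun Y' a h => ?_
  rcases h with h | h
  · have := h.hx; omega
  · have := h.box; omega

theorem c0 (hk : p.k ≠ 2) (g : X = p.a ∧ Y = -p.b) : OutE p.EC X Y := by
  have := p.aux
  refine .rayW fun X' a h => ?_
  rcases h with h | h | h | h | h | h
  · have := h.box; omega
  · rcases h with h | h | h | h | h | h | h | h <;> have := h.lin
    · omega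
    · omega
    · omega
    · have := h.d2; omega
    all_goals omega
  all_goals (have := h.lin; omega)

theorem covC (p : P8) (m n : ℤ) : p.LC (m * p.b - n * p.a, m * p.a + n * p.b) ∨
    OutE p.EC (m * p.b - n * p.a) (m * p.a + n * p.b) := by
  have := p.aux
  have l : ∀ {m c : ℤ}, m ≤ c → m * p.a ≤ c * p.a ∧ m * p.b - m * p.a ≤ c * p.b - c * p.a :=
    fun h => ⟨mul_le_mul_of_nonneg_right h (by omega), by nlinarith⟩
  rcases (by omega : n ≤ -4 ∨ n = -3 ∨ n = -2 ∨ n = -1 ∨ n = 0 ∨ n = 1 ∨ 2 ≤ n) with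
    hn | rfl | rfl | rfl | rfl | rfl | hn <;>
  rcases (by omega : m ≤ -2 ∨ m = -1 ∨ m = 0 ∨ m = 1 ∨ m = 2 ∨ m = 3 ∨ m = 4 ∨ 5 ≤ m) with
    hm | rfl | rfl | rfl | rfl | rfl | rfl | hm
  all_goals
    try have gn := l hn
    try have gm := l hm
  · exact .inr (cS (by omega))
  · exact .inr (cS (by omega))
  · exact .inr (cS (by omega))
  · exact .inr (cS (by omega))
  · exact .inr (cS (by omega))
  · exact .inr (cE (by omega))
  · exact .inr (cE (by omega))
  · exact .inr (cE (by omega))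
  · exact .inr (cS (by omega))
  · exact .inr (cS (by omega))
  · exact .inr (cS (by omega))
  · exact .inr (cS (by omega))
  · by_cases c : p.k = 2
    · exact .inl (.inr (.inr (.inr (.inr (.inr (.inr (.inr (.inr (.inr ⟨c, (.inr (.inl (Prod.ext (by ring) (by ring))))⟩)))))))))
    · exact .inr (cS (by omega))
  · exact .inr (cE (by omega))
  · exact .inr (cE (by omega))
  · exact .inr (cE (by omega))
  · exact .inr (cS (by omega))
  · exact .inr (cS (by omega))
  · exact .inr (cS (by omega))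
  · exact .inl (.inr (.inr (.inr (.inl (Prod.ext (by ring) (by ring))))))
  · exact .inl (.inr (.inr (.inr (.inr (.inr (.inl (Prod.ext (by ring) (by ring))))))))
  · exact .inl (.inr (.inr (.inr (.inr (.inr (.inr (.inr (.inl (Prod.ext (by ring) (by ring))))))))))
  · exact .inr (cE (by omega))
  · exact .inr (cE (by omega))
  · exact .inr (cS (by omega))
  · exact .inr (cS (by omega))
  · by_cases c : p.k = 2
    · exact .inl (.inr (.inr (.inr (.inr (.inr (.inr (.inr (.inr (.inr ⟨c, (.inl (Prod.ext (by ring) (by ring)))⟩)))))))))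
    · exact .inr (c0 c (by omega))
  · exact .inl (.inr (.inr (.inl (Prod.ext (by ring) (by ring)))))
  · exact .inl (.inr (.inr (.inr (.inr (.inl (Prod.ext (by ring) (by ring)))))))
  · exact .inl (.inr (.inr (.inr (.inr (.inr (.inr (.inl (Prod.ext (by ring) (by ring)))))))))
  · by_cases c : p.k = 2
    · exact .inl (.inr (.inr (.inr (.inr (.inr (.inr (.inr (.inr (.inr ⟨c, (.inr (.inr (Prod.ext (by ring) (by ring))))⟩)))))))))
    · exact .inr (cE (by omega))
  · exact .inr (cE (by omega))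
  · exact .inr (cW (by omega))
  · by_cases c : p.k = 1
    · exact .inl (.inr (.inr (.inr (.inr (.inr (.inr (.inr (.inr (.inl ⟨c, (.inr (Prod.ext (by ring) (by ring)))⟩)))))))))
    · exact .inr (cW (by omega))
  · exact .inl (.inl (Prod.ext (by ring) (by ring)))
  · exact .inl (.inr (.inl (Prod.ext (by ring) (by ring))))
  · exact .inr (cN (by omega))
  · exact .inr (cN (by omega))
  · exact .inr (cN (by omega))
  · exact .inr (cN (by omega))
  · exact .inr (cW (by omega))
  · exact .inr (cW (by omega))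
  · by_cases c : p.k = 1
    · exact .inl (.inr (.inr (.inr (.inr (.inr (.inr (.inr (.inr (.inl ⟨c, (.inl (Prod.ext (by ring) (by ring)))⟩)))))))))
    · exact .inr (cN (by omega))
  · exact .inr (cN (by omega))
  · exact .inr (cN (by omega))
  · exact .inr (cN (by omega))
  · exact .inr (cN (by omega))
  · exact .inr (cN (by omega))
  · exact .inr (cW (by omega))
  · exact .inr (cW (by omega))
  · exact .inr (cN (by omega))
  · exact .inr (cN (by omega))
  · exact .inr (cN (by omega))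
  · exact .inr (cN (by omega))
  · exact .inr (cN (by omega))
  · exact .inr (cN (by omega))

theorem memC (p : P8) (W : Pt) (h : p.LC W) :
    ∃ m n : ℤ, W = (m * p.b - n * p.a, m * p.a + n * p.b) := by
  rcases h with h | h | h | h | h | h | h | h | ⟨-, h | h⟩ | ⟨-, h | h | h⟩ <;> subst h
  exacts [⟨0, 0, by simp⟩, ⟨1, 0, by simp⟩, ⟨1, -1, by ext <;> simp <;> ring⟩,
    ⟨1, -2, by ext <;> simp <;> ring⟩, ⟨2, -1, by ext <;> simp <;> ring⟩,
    ⟨2, -2, by ext <;> simp <;> ring⟩, ⟨3, -1, by ext <;> simp <;> ring⟩,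
    ⟨3, -2, by ext <;> simp <;> ring⟩, ⟨0, 1, by simp⟩, ⟨-1, 0, by simp⟩, ⟨0, -1, by simp⟩,
    ⟨2, -3, by ext <;> simp <;> ring⟩, ⟨4, -1, by ext <;> simp <;> ring⟩]

end P8
end NP
end Pool.Agent.Lib.MP_4a7072_co
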