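import Pool.Agent.Lib.MP_4a7072_co.DBuild

/-!
The design for an even shorter leg with long arms: parameters, envelopes and data.
-/

set_option autoImplicit false

namespace Pool.Agent.Lib.MP_4a7072_co
namespace NP

/-- The numerical parameters of the design. -/
structure P8 where
  a : ℤ
  b : ℤ
  g : ℤ
  lam : ℤ
  k : ℤ
  N : ℤ
  κ : ℤ
  c : ℤ
  e : ℤ
  σ : ℤ
  hN : 1 ≤ κ ∧ κ ≤ N ∧ N ≤ κ + 1 ∧ 3 * N + 6 ≤ a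
  hpar : a % 2 = 0 ∧ b % 2 = 1
  hce : (c = 1 ∧ e = N + 3) ∨ (c = N + 2 ∧ e = 0)
  hs : 2 * a * κ - a < b - 2 * a ∧ b - 2 * a < 2 * a * κ + a
  hk : (k = 1 ∧ 0 < g ∧ g ≤ a ∧ lam = b - 2 * a) ∨ ((k = 2 ∨ k = 3) ∧ g = 0 ∧ lam < b - 2 * a) ∨
    (k = 4 ∧ N < g ∧ g ≤ a ∧ lam = b - 2 * a)
  hc : (k ≠ 4 ∧ N = κ ∧ 2 * a * N - a + e + N < b - 2 * a - 1 ∧
      b - 2 * a < 2 * a * N + a - c - N + 1) ∨
    (k = 4 ∧ 2 * a * N - a - c - N + 1 < b - 2 * a ∧ b - 2 * a ≤ 2 * a * N - a + e + N)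
  hl : 2 * (b - 2 * a - lam) < a
  hσ : (σ = -1 ∧ b - 2 * a < 2 * a * κ) ∨ (σ = 0 ∧ b - 2 * a = 2 * a * κ + 1 ∧ (k = 2 ∨ k = 3)) ∨
    (σ = 1 ∧ 2 * a * κ + 1 < b - 2 * a)

namespace P8

variable (p : P8)

/-- The multiples of the period. -/
def off (i : ℤ) : ℤ := 2 * p.a * i

/-- The four straight pieces of the winding number `i`. -/
def Pc (i u Y : ℤ) : Prop :=
  (Y = p.a + i ∧ -p.a - p.c - i + 1 ≤ u ∧ u ≤ -p.a + p.e + i ∧ (i ≠ 0 ∨ -p.a ≤ u)) ∨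
  (u = -p.a + p.e + i ∧ p.a - 1 - p.N + i ≤ Y ∧ Y ≤ p.a + i) ∨
  (Y = p.a - 1 - p.N + i ∧ -p.a + p.e + i ≤ u ∧ u ≤ p.a - p.c - i) ∨
  (u = p.a - p.c - i ∧ p.a - 1 - p.N + i ≤ Y ∧ Y ≤ p.a + i + 1 ∧ i < p.N)

/-- Points of the common part of `S` and `M`. -/
def EL (X Y : ℤ) : Prop :=
  (∃ i, 0 ≤ i ∧ i ≤ p.N ∧ p.Pc i (X - p.off i) Y ∧ (p.k = 4 ∨ X < p.b - 2 * p.a) ∧
    X ≤ p.b - 2 * p.a ∧ (p.k ≠ 4 ∨ i < p.N ∨ Y = p.a + p.N)) ∨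
  (p.k ≠ 4 ∧ Y = p.a ∧ (X = p.b - 2 * p.a - 1 ∨ (p.k = 1 ∧ X = p.b - 2 * p.a)))

/-- Points of the short end of `S`. -/
def Ex (X Y : ℤ) : Prop :=
  (X = p.b - 2 * p.a ∧ p.a ≤ Y ∧ (Y = p.a ∨ (p.k = 4 ∧ Y ≤ p.a + p.N))) ∨
    ((p.k = 2 ∨ p.k = 3) ∧ X = p.b - 2 * p.a - 1 ∧ Y = p.a)

/-- Points of the short end of `M`. -/
def Ey (X Y : ℤ) : Prop :=
  (X = p.b - 2 * p.a ∧ Y ≤ p.a + p.g ∧ ((p.k = 1 ∧ p.a ≤ Y) ∨ (p.k = 4 ∧ p.a + p.N ≤ Y))) ∨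
    ((p.k = 2 ∨ p.k = 3) ∧ X = p.b - 2 * p.a - 1 ∧ Y = p.a)

/-- Points of the path `S`. -/
def ES (X Y : ℤ) : Prop := p.EL X Y ∨ p.Ex X Y

/-- Points of the path `M`. -/
def EM (X Y : ℤ) : Prop := p.EL X Y ∨ p.Ey X Y

/-- Points of the second part of `M`. -/
def EM2 (X Y : ℤ) : Prop := p.EM X Y ∧ 0 ≤ X

/-- Points of the first part of `M`. -/
def EM1 (X Y : ℤ) : Prop := p.Pc 0 X Y ∧ X ≤ 0

/-- Points of the curve after the hub. -/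
structure EG (X Y : ℤ) : Prop where
  lin : p.lam ≤ X ∧ X ≤ 2 * p.b - p.a ∧ p.a ≤ Y ∧ Y ≤ 2 * p.a
  d1 : p.k = 2 ∨ p.k = 3 ∨ X ≠ p.b - 2 * p.a ∨ Y = p.a + p.g
  d2 : p.k = 2 ∨ Y ≠ p.a ∨ (X ≠ p.b - 2 * p.a ∧ X ≠ p.b)
  fr : ∀ i, p.a + p.N < Y ∨ X - p.off i < -p.a - p.c - p.N + 1 ∨ -p.a + p.e + p.N < X - p.off i

/-- Points of one period of the curve after the hub. -/
structure EV (X Y : ℤ) : Prop extends p.EG X Y where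
  d5 : X < p.b ∨ ((p.k = 1 ∨ p.k = 4) ∧ X = p.b ∧ Y = p.a + p.g)
  d6 : p.k ≠ 1 ∨ X ≠ p.b - 1 ∨ Y ≠ p.a
  d7 : Y ≠ 2 * p.a ∨ (X ≠ p.off p.κ - p.a ∧ X ≠ p.off p.κ ∧ X ≠ p.off p.κ + 2 * p.a)
  d8 : p.σ ≠ 1 ∨ (p.off p.κ ≤ X ∧ (X ≠ p.off p.κ ∨ Y ≠ p.a))

/-- Points of the path `T`. -/
structure ET (X Y : ℤ) : Prop where
  lin : p.lam ≤ X ∧ X ≤ 2 * p.b - 3 * p.a ∧ p.a ≤ Y ∧ Y ≤ 2 * p.a

/-- Points of the radial cut of the small piece. -/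
structure ER (X Y : ℤ) : Prop where
  lin : X = 0 ∧ 0 ≤ Y ∧ Y ≤ p.a - 1 - p.N

/-- Points of the radial cut of the larger piece. -/
structure EB1 (X Y : ℤ) : Prop where
  lin : -p.b ≤ X ∧ X ≤ 0 ∧ -1 ≤ Y ∧ Y ≤ 0
  d1 : Y = -1 ∨ X = -p.b ∨ X = 0

/-- A quarter of the small piece. -/
def EQ (X Y : ℤ) : Prop := p.EM (X - 2 * p.a) Y ∨ p.EV X Y ∨ p.EM X Y

/-- The last quarter of the small piece. -/
def EQ2 (X Y : ℤ) : Prop := p.EM (X - 2 * p.a) Y ∨ p.EV X Y ∨ p.EM2 X Y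

/-- The free part of the boundary of the small piece. -/
def Eα (X Y : ℤ) : Prop :=
  p.Ey (X - 2 * p.a) Y ∨ p.EV X Y ∨ p.EM X Y ∨ p.EQ Y (-X) ∨
    p.EQ2 (-X) (-Y) ∨ p.ER (-X) (-Y) ∨ p.ER (-Y) X

/-- The interface. -/
def Eπ (X Y : ℤ) : Prop := p.EM1 (-Y) X ∨ p.EL (X - 2 * p.a) Y

/-- A quarter of the larger piece (coordinates relative to its centre), given the sets of points
of `T` and of the curve after the hub. -/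
def Eq' (T G : ℤ → ℤ → Prop) (x y : ℤ) : Prop :=
  T (2 * p.b - 3 * p.a - y) (x + p.b + 2 * p.a) ∨ p.ES (x + 2 * p.b - p.a) (y - p.b + 2 * p.a) ∨
    p.EM (p.b - 2 * p.a - y) (x + 2 * p.b + p.a) ∨ G (p.b - 2 * p.a - y) (x + 2 * p.b + p.a) ∨
    T (-2 * p.a - x) (p.a - p.b - y) ∨ p.ES (-2 * p.a - y) (x + p.a + p.b) ∨
    p.ES (x - p.a + p.b) (y + 2 * p.a) ∨ T (p.b - 3 * p.a - y) (x + 2 * p.a)

/-- A quarter of the larger piece. -/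
def Eq (x y : ℤ) : Prop := p.Eq' p.ET p.EG x y

/-- The boundary of the larger piece, relative to its centre. -/
def EB0 (x y : ℤ) : Prop :=
  p.Eq x y ∨ p.Eq y (-x) ∨ p.Eq (-x) (-y) ∨ p.EB1 (-y) x ∨ p.EB1 x y

/-- The boundary of the larger piece. -/
def EB (X Y : ℤ) : Prop := p.EB0 (X - (p.a + 2 * p.b)) (Y - (2 * p.a - p.b))

/-- The boundary of the small piece. -/
def EA (X Y : ℤ) : Prop := p.Eα X Y ∨ p.Eπ X Y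

/-- The boundary of the union. -/
def EC (X Y : ℤ) : Prop := p.Eα X Y ∨ p.EB X Y

/-- The marked vertices of the small cube. -/
def LA (W : Pt) : Prop :=
  W = (0, 0) ∨ W = (p.a, p.a) ∨ W = (-p.a, p.a) ∨ W = (-p.a, -p.a) ∨
    W = (p.off p.κ + p.a, 2 * p.a) ∨ W = (-2 * p.a, p.off p.κ + p.a) ∨
    W = (-(p.off p.κ + p.a), -2 * p.a) ∨
    (p.σ ≤ 0 ∧ (W = (p.off p.κ, p.a) ∨ W = (-p.a, p.off p.κ) ∨ W = (-p.off p.κ, -p.a))) ∨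
    (0 ≤ p.σ ∧ (W = (p.off p.κ + 2 * p.a, p.a) ∨ W = (-p.a, p.off p.κ + 2 * p.a) ∨
      W = (-(p.off p.κ + 2 * p.a), -p.a)))

/-- The marked vertices of the middle cube, relative to the centre. -/
def LB (W : Pt) : Prop :=
  W = (0, 0) ∨ W = (-p.b, 0) ∨ W = (0, -p.b) ∨ W = (p.b, 0) ∨ W = (0, p.b) ∨
    W = (-2 * p.b, -p.b) ∨ W = (p.b, -2 * p.b) ∨ W = (2 * p.b, p.b) ∨ W = (-p.b, -p.b) ∨
    W = (p.b, -p.b) ∨ W = (p.b, p.b) ∨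
    (p.k < 3 ∧ (W = (-2 * p.b, 0) ∨ W = (0, -2 * p.b) ∨ W = (2 * p.b, 0)))

/-- The marked vertices of the large cube. -/
def LC (W : Pt) : Prop :=
  W = (0, 0) ∨ W = (p.b, p.a) ∨ W = (p.b + p.a, p.a - p.b) ∨
    W = (p.b + 2 * p.a, p.a - 2 * p.b) ∨ W = (2 * p.b + p.a, 2 * p.a - p.b) ∨
    W = (2 * p.b + 2 * p.a, 2 * p.a - 2 * p.b) ∨ W = (3 * p.b + p.a, 3 * p.a - p.b) ∨
    W = (3 * p.b + 2 * p.a, 3 * p.a - 2 * p.b) ∨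
    (p.k = 1 ∧ (W = (-p.a, p.b) ∨ W = (-p.b, -p.a))) ∨
    (p.k = 2 ∧ (W = (p.a, -p.b) ∨ W = (2 * p.b + 3 * p.a, 2 * p.a - 3 * p.b) ∨
      W = (4 * p.b + p.a, 4 * p.a - p.b)))

/-- The end of the common part of `S` and `M`. -/
def EndL (W : Pt) : Prop :=
  (p.k = 1 ∧ W = (p.b - 2 * p.a, p.a)) ∨ ((p.k = 2 ∨ p.k = 3) ∧ W = (p.b - 2 * p.a - 1, p.a)) ∨
    (p.k = 4 ∧ W = (p.b - 2 * p.a, p.a + p.N))

/-- The hub. -/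
def Hub (W : Pt) : Prop :=
  ((p.k = 1 ∨ p.k = 4) ∧ W = (p.b - 2 * p.a, p.a + p.g)) ∨
    ((p.k = 2 ∨ p.k = 3) ∧ W = (p.b - 2 * p.a - 1, p.a))

end P8

/-- The data of the design. -/
structure D8 (p : P8) where
  E : ℤ → List Dir
  f : ℤ → Pt
  Q : ℤ
  B : ℤ
  J : ℤ
  L : List Dir
  x : List Dir
  y : List Dir
  T : List Dir
  M1 : List Dir
  M2 : List Dir
  R : List Dir
  TS : ℤ → ℤ → Prop
  GS : ℤ → ℤ → Prop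
  sym : Sym 1 E f Q B (2 * p.a, 0)
  hQ : 2 ≤ Q
  f0 : f 0 = (p.off p.κ, p.a)
  fQ : f Q = (p.off p.κ + p.a, 2 * p.a)
  fB : f B = (2 * p.b - 2 * p.a, p.a)
  fB1 : f (B - Q) = (2 * p.b - 3 * p.a, 2 * p.a)
  hJ : -Q < J ∧ J < Q ∧ J < B - Q
  sJ : (p.σ = -1 ∧ J < 0) ∨ (p.σ = 0 ∧ J = 0) ∨ (p.σ = 1 ∧ 0 < J)
  fJ : p.Hub (f J)
  kind : (p.k = 1 ∧ x = [] ∧ y ≠ [] ∧ T = y ++ seg E J (B - Q)) ∨
    (p.k = 2 ∧ y = [] ∧ x ≠ [] ∧ T ≠ [] ∧ seg E J (B - Q) = x ++ T) ∨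
    (3 ≤ p.k ∧ x ≠ [] ∧ T = back 0 x ++ (y ++ seg E J (B - Q)))
  L_ne : L ≠ []
  M1_ne : M1 ≠ []
  M2_ne : M2 ≠ []
  R_ne : R ≠ []
  eM : L ++ y = M1 ++ M2
  R0 : ∃ R', R = 3 :: R'
  arcL : CArc (-p.a, p.a) L (endP (-p.a, p.a) L) p.EL
  endL : p.EndL (endP (-p.a, p.a) L)
  arcS : CArc (-p.a, p.a) (L ++ x) (p.b - 2 * p.a, p.a) p.ES
  arcM : CArc (-p.a, p.a) (L ++ y) (f J) p.EM
  arcM1 : CArc (-p.a, p.a) M1 (0, p.a - 1 - p.N) p.EM1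
  arcM2 : CArc (0, p.a - 1 - p.N) M2 (f J) p.EM2
  arcY : CArc (endP (-p.a, p.a) L) y (f J) p.Ey
  arcR : CArc (0, p.a - 1 - p.N) R (0, 0) p.ER
  arcV : CArc (f J) (seg E J (J + 2 * Q)) (f J + (2 * p.a, 0)) p.EV
  arcG : CArc (f J) (seg E J (B + Q)) (2 * p.b - p.a, 2 * p.a) GS
  arcT : CArc (p.b - 2 * p.a, p.a) T (2 * p.b - 3 * p.a, 2 * p.a) TS
  gs : ∀ X Y, GS X Y → p.EG X Y
  ts : ∀ X Y, TS X Y → p.ET X Y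
  fold1 : ∀ X Y, TS X (2 * p.a) → TS (2 * p.b - 3 * p.a) Y →
    X - Y = 2 * p.b - 5 * p.a → Y = 2 * p.a
  fold2 : ∀ X Y, GS X (2 * p.a) → TS (2 * p.b - 3 * p.a) Y →
    X - Y = 2 * p.b - 3 * p.a → Y = 2 * p.a

namespace D8

variable {p : P8} (D : D8 p)

/-- The path from `(-a, a)` to `(b - 2 a, a)`. -/
def S : List Dir := D.L ++ D.x

/-- The path from `(-a, a)` to the hub. -/
def M : List Dir := D.L ++ D.y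

/-- One period of the curve. -/
def V : List Dir := seg D.E D.J (D.J + 2 * D.Q)

/-- The curve from the hub to the first peak of the second kind. -/
def Z : List Dir := seg D.E D.J (D.B - D.Q)

/-- A quarter of the boundary of the small piece, from `(a, a)` to `(-a, a)`. -/
def qa : List Dir := D.M ++ back 0 D.V ++ back 0 D.M

/-- The free part of the boundary of the small piece. -/
def α : List Dir :=
  D.y ++ back 0 D.V ++ back 0 D.M ++ rot 1 D.qa ++ rot 2 (D.M ++ back 0 D.V ++ back 0 D.M2) ++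
    (rot 2 D.R ++ back 3 D.R)

/-- The interface. -/
def π : List Dir := back 3 D.M1 ++ D.L

/-- The last part of a quarter of the larger piece. -/
def tail : List Dir :=
  rot 3 (D.V ++ D.Z) ++ back 2 D.T ++ back 3 D.S ++ D.S ++ rot 3 D.T

/-- A quarter of the boundary of the larger piece. -/
def qb : List Dir := back 3 D.T ++ back 0 D.S ++ rot 3 D.M ++ D.tail

/-- The free part of the boundary of the larger piece. -/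
def β : List Dir :=
  rot 3 D.M2 ++ D.tail ++ rot 1 D.qb ++ rot 2 D.qb ++ (rot 3 (RB p.b) ++ back 0 (RB p.b)) ++
    (back 3 D.T ++ back 0 D.x)

/-- The first end of the interface. -/
def H : Pt := endP (-p.a, p.a) D.L + (2 * p.a, 0)

end D8

end NP
end Pool.Agent.Lib.MP_4a7072_co
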