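import Pool.Agent.Lib.MP_4a7072_co.HDefs

/-!
Intersections of the envelopes of the design with long arms.
-/

set_option autoImplicit false

namespace Pool.Agent.Lib.MP_4a7072_co
namespace NP
namespace P8

variable {p : P8} {X Y : ℤ}

theorem off_zero (p : P8) : p.off 0 = 0 := by simp [off]

theorem off_succ (p : P8) (i : ℤ) : p.off (i + 1) = p.off i + 2 * p.a := by
  simp only [off]; ring

theorem off_rel (p : P8) (i j : ℤ) : (i = j ∧ p.off i = p.off j) ∨
    (i = j + 1 ∧ p.off i = p.off j + 2 * p.a) ∨ (j = i + 1 ∧ p.off j = p.off i + 2 * p.a) ∨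
    (j + 2 ≤ i ∧ p.off j + 4 * p.a ≤ p.off i) ∨ (i + 2 ≤ j ∧ p.off i + 4 * p.a ≤ p.off j) := by
  have ha : 0 ≤ p.a := by have := p.hN; omega
  rcases (by omega : i = j ∨ i = j + 1 ∨ j = i + 1 ∨ j + 2 ≤ i ∨ i + 2 ≤ j) with h | h | h | h | h
  · exact .inl ⟨h, by rw [h]⟩
  · exact .inr (.inl ⟨h, by rw [h, off_succ]⟩)
  · exact .inr (.inr (.inl ⟨h, by rw [h, off_succ]⟩))
  · exact .inr (.inr (.inr (.inl ⟨h, by simp only [off]; nlinarith⟩)))
  · exact .inr (.inr (.inr (.inr ⟨h, by simp only [off]; nlinarith⟩)))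

theorem off_even (p : P8) (i : ℤ) : p.off i % 2 = 0 := by
  simp only [off, mul_assoc]; omega

theorem aux (p : P8) : 1 ≤ p.N ∧ 3 * p.N + 6 ≤ p.a ∧ 3 * p.a < p.b ∧ 0 ≤ p.g ∧ p.g ≤ p.a ∧
    p.lam ≤ p.b - 2 * p.a ∧ 2 * (p.b - 2 * p.a - p.lam) < p.a ∧ 1 ≤ p.c ∧ p.c ≤ p.N + 2 ∧
    0 ≤ p.e ∧ p.e ≤ p.N + 3 ∧ 1 ≤ p.k ∧ p.k ≤ 4 := by
  have h1 := p.hN; have h2 := p.hce; have h3 := p.hs; have h4 := p.hk; have h5 := p.hl
  have h6 := p.off_rel p.κ 1
  have h7 := p.off_succ 0
  rw [zero_add, off_zero] at h7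
  simp only [off] at h6 h7
  omega

theorem hs' (p : P8) : p.off p.κ - p.a < p.b - 2 * p.a ∧ p.b - 2 * p.a < p.off p.κ + p.a ∧
    2 * p.a ≤ p.off p.κ := by
  have h1 := p.hN
  have h6 := p.off_rel p.κ 1
  have h7 := p.off_succ 0
  rw [zero_add, off_zero] at h7
  exact ⟨p.hs.1, p.hs.2, by omega⟩

theorem hc' (p : P8) : (p.k ≠ 4 ∧ p.N = p.κ ∧ p.off p.N - p.a + p.e + p.N < p.b - 2 * p.a - 1 ∧
      p.b - 2 * p.a < p.off p.N + p.a - p.c - p.N + 1) ∨
    (p.k = 4 ∧ p.off p.N - p.a - p.c - p.N + 1 < p.b - 2 * p.a ∧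
      p.b - 2 * p.a ≤ p.off p.N - p.a + p.e + p.N) := p.hc

theorem hσ' (p : P8) : (p.σ = -1 ∧ p.b - 2 * p.a < p.off p.κ) ∨
    (p.σ = 0 ∧ p.b - 2 * p.a = p.off p.κ + 1 ∧ (p.k = 2 ∨ p.k = 3)) ∨
    (p.σ = 1 ∧ p.off p.κ + 1 < p.b - 2 * p.a) := p.hσ

/-! ### The long paths -/

theorem EL.lin (h : p.EL X Y) : -p.a ≤ X ∧ X ≤ p.b - 2 * p.a ∧ p.a - 1 - p.N ≤ Y ∧
    Y ≤ p.a + p.N := by
  have := p.aux
  rcases h with ⟨i, h0, h1, h, h2⟩ | h
  · have := p.off_rel i 0
    have := p.off_zero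
    rcases h with h | h | h | h <;> omega
  · omega

theorem EL.left (h : p.EL X Y) (g : X ≤ p.a) : p.Pc 0 X Y ∨ (Y = p.a + 1 ∧ p.a - p.c ≤ X) := by
  have := p.aux
  rcases h with ⟨i, h0, h1, h, h2⟩ | h
  · rcases h0.eq_or_lt with rfl | h3
    · rw [off_zero, sub_zero] at h
      exact .inl h
    · have := p.off_rel i 0
      have := p.off_zero
      clear h2
      refine .inr ?_
      rcases h with h | h | h | h <;> omega
  · exfalso
    have := p.hc'
    have := p.off_rel p.N 0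
    have := p.off_zero
    omega

theorem EL.right (h : p.EL X Y) (g : X = p.b - 2 * p.a) :
    (p.k = 1 ∧ Y = p.a) ∨ (p.k = 4 ∧ Y = p.a + p.N) := by
  have := p.aux
  rcases h with ⟨i, h0, h1, h, h2⟩ | h
  · have := p.off_rel i p.N
    have := p.hc'
    have k4 : p.k = 4 := by omega
    refine .inr ⟨k4, ?_⟩
    rcases h with h | h | h | h <;> omega
  · omega

theorem Ex.lin (h : p.Ex X Y) : p.b - 2 * p.a - 1 ≤ X ∧ X ≤ p.b - 2 * p.a ∧ p.a ≤ Y ∧
    Y ≤ p.a + p.N := by
  have := p.aux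
  rcases h with h | h <;> omega

theorem Ey.lin (h : p.Ey X Y) : p.b - 2 * p.a - 1 ≤ X ∧ X ≤ p.b - 2 * p.a ∧ p.a ≤ Y ∧
    Y ≤ 2 * p.a := by
  have := p.aux
  rcases h with h | h <;> omega

theorem ES.lin (h : p.ES X Y) : -p.a ≤ X ∧ X ≤ p.b - 2 * p.a ∧ p.a - 1 - p.N ≤ Y ∧
    Y ≤ p.a + p.N := by
  have := p.aux
  rcases h with h | h <;> have := h.lin <;> omega

theorem EM.lin (h : p.EM X Y) : -p.a ≤ X ∧ X ≤ p.b - 2 * p.a ∧ p.a - 1 - p.N ≤ Y ∧
    Y ≤ 2 * p.a := by
  have := p.aux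
  rcases h with h | h <;> have := h.lin <;> omega

theorem ES.left (h : p.ES X Y) (g : X < p.a) : p.Pc 0 X Y ∨ (Y = p.a + 1 ∧ p.a - p.c ≤ X) := by
  have := p.aux
  rcases h with h | h
  · exact h.left g.le
  · have := h.lin; omega

theorem EM.left (h : p.EM X Y) (g : X ≤ p.a) : p.Pc 0 X Y ∨ (Y = p.a + 1 ∧ p.a - p.c ≤ X) := by
  have := p.aux
  rcases h with h | h
  · exact h.left g
  · have := p.hc'
    have := p.off_rel p.N 0
    have := p.off_zero
    rcases h with h | h <;> omega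

theorem ES.right (h : p.ES X Y) (g : X = p.b - 2 * p.a) :
    p.a ≤ Y ∧ (Y = p.a ∨ p.lam = p.b - 2 * p.a) := by
  have := p.aux
  have := p.hk
  rcases h with h | h
  · have := h.right g; omega
  · rcases h with h | h <;> omega

theorem EM.right (h : p.EM X Y) (g : X = p.b - 2 * p.a) :
    (p.k = 1 ∧ p.a ≤ Y) ∨ (p.k = 4 ∧ p.a + p.N ≤ Y) := by
  have := p.aux
  rcases h with h | h
  · have := h.right g; omega
  · rcases h with h | h <;> omega

theorem l_y (h : p.EL X Y) (g : p.Ey X Y) : (p.k = 1 ∧ X = p.b - 2 * p.a ∧ Y = p.a) ∨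
    ((p.k = 2 ∨ p.k = 3) ∧ X = p.b - 2 * p.a - 1 ∧ Y = p.a) ∨
    (p.k = 4 ∧ X = p.b - 2 * p.a ∧ Y = p.a + p.N) := by
  rcases g with g | g
  · have := h.right g.1; omega
  · omega

theorem l_x (h : p.EL X Y) (g : p.Ex X Y) : (p.k = 1 ∧ X = p.b - 2 * p.a ∧ Y = p.a) ∨
    ((p.k = 2 ∨ p.k = 3) ∧ X = p.b - 2 * p.a - 1 ∧ Y = p.a) ∨
    (p.k = 4 ∧ X = p.b - 2 * p.a ∧ Y = p.a + p.N) := by
  rcases g with g | g
  · have := h.right g.1; omega
  · omega

/-- A path and its quarter turn about the starting point. -/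
theorem corner {u v : ℤ} (h : p.ES (u - p.a) (p.a + v)) (g : p.ES (-v - p.a) (p.a + u) ∨
    p.EM (-v - p.a) (p.a + u)) : u = 0 ∧ v = 0 := by
  have := p.aux
  have := p.hce
  have := h.lin
  have g' : 0 ≤ -v ∧ (p.Pc 0 (-v - p.a) (p.a + u) ∨
      (p.a + u = p.a + 1 ∧ p.a - p.c ≤ -v - p.a)) := by
    rcases g with g | g <;> have := g.lin
    · exact ⟨by omega, g.left (by omega)⟩
    · exact ⟨by omega, g.left (by omega)⟩
  have u0 : u = 0 := by
    unfold Pc at g'
    omega
  have := h.left (by omega)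
  unfold Pc at g' this
  omega

/-! ### The small piece -/

theorem m_g (h : p.EM X Y) (g : p.EG X Y) :
    ((p.k = 1 ∨ p.k = 4) ∧ X = p.b - 2 * p.a ∧ Y = p.a + p.g) ∨
      ((p.k = 2 ∨ p.k = 3) ∧ X = p.b - 2 * p.a - 1 ∧ Y = p.a) := by
  have := p.aux; have := g.lin
  rcases h with (⟨i, h0, h1, h, h2⟩ | h) | h | h
  · exfalso
    have := g.fr i
    have := g.fr (i + 1)
    have := p.off_succ i
    have hl := p.hk
    rcases h with h | h | h | h <;> omega
  all_goals
    have := p.hk; have := g.d1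
    omega

theorem m_v (h : p.EM (X - 2 * p.a) Y) (g : p.EV X Y) :
    ((p.k = 1 ∨ p.k = 4) ∧ X = p.b ∧ Y = p.a + p.g) ∨
      ((p.k = 2 ∨ p.k = 3) ∧ X = p.b - 1 ∧ Y = p.a) := by
  have := p.aux; have := g.lin
  rcases h with (⟨i, h0, h1, h, h2⟩ | h) | h | h
  · exfalso
    have := g.fr (i + 1)
    have := g.fr (i + 1 + 1)
    have := p.off_succ i
    have := p.off_succ (i + 1)
    clear h2
    rcases h with h | h | h | h <;> omega
  all_goals
    have := p.hk; have := g.d5; have := g.d6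
    omega

theorem m_m (h : p.EM (X - 2 * p.a) Y) (g : p.EM X Y) : False := by
  have := p.aux; have := g.lin
  rcases h with (⟨i, h0, h1, h, h2⟩ | h) | h
  · clear h2
    rcases g with (⟨j, g0, g1, g, g2⟩ | g) | g | g
    · have := p.off_rel (i + 1) j
      have := p.off_succ i
      clear g2
      rcases h with h | h | h | h <;> rcases g with g | g | g | g <;> omega
    all_goals
      have := p.hc'
      have := p.off_rel (i + 1) p.N
      have := p.off_succ i
      rcases h with h | h | h | h <;> omega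
  · omega
  · have := h.lin; omega

theorem EQ2.eq (h : p.EQ2 X Y) : p.EQ X Y := h.imp_right (Or.imp_right fun a => a.1)

theorem EQ.lin (h : p.EQ X Y) : -p.a ≤ X ∧ X ≤ p.b ∧ p.a - 1 - p.N ≤ Y ∧ Y ≤ 2 * p.a := by
  have := p.aux
  rcases h with h | h | h
  · have := h.lin; omega
  · have := h.lin; have := h.d5; omega
  · have := h.lin; omega

theorem EQ2.lin (h : p.EQ2 X Y) : 0 ≤ X ∧ (X = 0 → Y = p.a - 1 - p.N) := by
  have := p.aux
  rcases h with h | h | h
  · have := h.lin; omega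
  · have := h.lin; omega
  · refine ⟨h.2, fun e => ?_⟩
    have := h.1.left (by omega)
    unfold Pc at this
    omega

theorem EQ.left (h : p.EQ X Y) (g : 2 * X ≤ p.a) : p.Pc 0 X Y := by
  have := p.aux
  rcases h with h | h | h
  · have := h.lin; omega
  · have := h.lin; omega
  · exact (h.left (by omega)).resolve_right (by omega)

theorem q_q (h : p.EQ X Y) (g : p.EQ Y (-X)) : X = -p.a ∧ Y = p.a := by
  have := p.aux
  have := p.hce
  have := g.lin
  have := h.lin
  have h' := h.left (by omega)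
  unfold Pc at h'
  rcases g with g | g | g
  · have := g.lin
    have := g.left (by omega)
    unfold Pc at this
    omega
  · have := g.lin
    have := g.fr 1
    have := p.off_succ 0
    rw [zero_add, off_zero] at this
    omega
  · have := g.left (by omega)
    unfold Pc at this
    omega

/-- The first part of the free boundary of the small piece. -/
def E0 (p : P8) (X Y : ℤ) : Prop := p.Ey (X - 2 * p.a) Y ∨ p.EV X Y ∨ p.EM X Y

theorem E0.eq (h : p.E0 X Y) : p.EQ X Y := h.imp_left fun a => .inr a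

theorem α_π (h : p.Eα X Y) (g : p.Eπ X Y) :
    ((p.k = 1 ∧ X = p.b ∧ Y = p.a) ∨ ((p.k = 2 ∨ p.k = 3) ∧ X = p.b - 1 ∧ Y = p.a) ∨
      (p.k = 4 ∧ X = p.b ∧ Y = p.a + p.N)) ∨ (X = p.a - 1 - p.N ∧ Y = 0) := by
  have := p.aux
  have := p.hce
  rcases g with ⟨g, g'⟩ | g
  · unfold Pc at g
    refine .inr ?_
    have gb : p.a - 1 - p.N ≤ X ∧ X ≤ p.a ∧ Y ≤ p.a := by
      rcases g with g | g | g | g <;> omega
    rcases h with h | h | h | h | h | h | h
    · have := h.lin; clear g; omega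
    · exfalso
      have := h.lin
      have := h.fr 1
      have := p.off_succ 0
      rw [zero_add, off_zero] at this
      rcases g with g | g | g | g <;> omega
    · exfalso
      have := h.left gb.2.1
      unfold Pc at this
      rcases g with g | g | g | g <;> omega
    · have := h.lin; rcases g with g | g | g | g <;> omega
    · have := h.eq.lin; clear g; omega
    · have := h.lin; clear g; omega
    · have := h.lin; rcases g with g | g | g | g <;> omega
  · have := g.lin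
    rcases h with h | h | h | h | h | h | h
    · rcases l_y g h with e | e | e
      · exact .inl (.inl ⟨e.1, by omega, e.2.2⟩)
      · exact .inl (.inr (.inl ⟨e.1, by omega, e.2.2⟩))
      · exact .inl (.inr (.inr ⟨e.1, by omega, e.2.2⟩))
    · rcases m_v (.inl g) h with e | e
      · have := p.hk
        rcases g.right (by omega) with e' | e'
        · exact .inl (.inl ⟨e'.1, e.2.1, e'.2⟩)
        · exact .inl (.inr (.inr ⟨e'.1, e.2.1, e'.2⟩))
      · exact .inl (.inr (.inl e))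
    · exact (m_m (.inl g) h).elim
    · have := h.lin; omega
    · have := h.eq.lin; omega
    · have := h.lin; omega
    · have := h.lin; omega

/-! ### The larger piece -/

theorem Eq'.mono {T G T' G' : ℤ → ℤ → Prop} (h : p.Eq' T G X Y) (hT : ∀ X Y, T X Y → T' X Y)
    (hG : ∀ X Y, G X Y → G' X Y) : p.Eq' T' G' X Y := by
  rcases h with h | h | h | h | h | h | h | h
  · exact .inl (hT _ _ h)
  · exact .inr (.inl h)
  · exact .inr (.inr (.inl h))
  · exact .inr (.inr (.inr (.inl (hG _ _ h))))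
  · exact .inr (.inr (.inr (.inr (.inl (hT _ _ h)))))
  · exact .inr (.inr (.inr (.inr (.inr (.inl h)))))
  · exact .inr (.inr (.inr (.inr (.inr (.inr (.inl h))))))
  · exact .inr (.inr (.inr (.inr (.inr (.inr (.inr (hT _ _ h)))))))

theorem Eq.lin (h : p.Eq X Y) : -2 * p.b - 1 - p.N ≤ X ∧ X ≤ 0 ∧ -p.a - p.b ≤ Y ∧ Y < p.b ∧
    (X ≤ -p.b ∨ 2 * Y < -p.a) ∧ (X ≤ -p.b ∨ -p.b ≤ Y ∨ 2 * X < p.a - 2 * p.b) := by
  have := p.aux
  rcases h with h | h | h | h | h | h | h | h <;> have := h.lin <;> omega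

theorem Eα.hx (h : p.Eα X Y) : X ≤ p.b ∧ (p.a - 1 - p.N ≤ Y ∨ X ≤ 0 ∨
    (Y = 0 ∧ X ≤ p.a - 1 - p.N)) := by
  have := p.aux
  rcases h with h | h | h | h | h | h | h
  · have := h.lin; omega
  · have := h.lin; have := h.d5; omega
  · have := h.lin; omega
  · have := h.lin; omega
  · have := h.lin; omega
  · have := h.lin; omega
  · have := h.lin; omega

theorem Eα.atb (h : p.Eα X Y) (g : X = p.b) :
    (p.k = 1 ∧ p.a ≤ Y) ∨ (p.k = 4 ∧ p.a + p.N ≤ Y) := by
  have := p.aux
  have := p.hk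
  rcases h with h | h | h | h | h | h | h
  · rcases h with h | h <;> omega
  · have := h.d5; omega
  · have := h.lin; omega
  · have := h.lin; omega
  · have := h.lin; omega
  · have := h.lin; omega
  · have := h.lin; omega

theorem α_b (h : p.Eα X Y) (g : p.EB X Y) :
    ((p.k = 1 ∧ X = p.b ∧ Y = p.a) ∨ ((p.k = 2 ∨ p.k = 3) ∧ X = p.b - 1 ∧ Y = p.a) ∨
      (p.k = 4 ∧ X = p.b ∧ Y = p.a + p.N)) ∨ (X = p.a - 1 - p.N ∧ Y = 0) := by
  have := p.aux
  have hx := h.hx
  rcases g with g | g | g | g | g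
  · rcases g with g | g | g | g | g | g | g | g <;> have := g.lin
    · have := p.hk
      refine .inl ?_
      rcases h.atb (by omega) with e | e
      · exact .inl (by omega)
      · exact .inr (.inr (by omega))
    · rcases g with g | g
      · exact α_π h (.inr (sCg g (by ring) (by ring)))
      · refine .inl ?_
        rcases g with g | g
        · rcases h.atb (by omega) with e | e
          · exact .inl (by omega)
          · exact .inr (.inr (by omega))
        · exact .inr (.inl (by omega))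
    · have g' := g.left (by omega)
      by_cases c : 0 ≤ Y
      · exact α_π h (.inl ⟨sCg (g'.resolve_right (by omega)) (by ring) (by ring), by omega⟩)
      · exfalso; omega
    all_goals exfalso; omega
  · exfalso; have := g.lin; omega
  · exfalso; have := g.lin; omega
  · exfalso; have := g.lin; omega
  · exfalso; have := g.lin; omega

end P8
end NP
end Pool.Agent.Lib.MP_4a7072_co
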