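import Pool.Agent.Lib.MP_4a7072_co.HWords

/-!
The free regions near the periodic curve of unit steps.
-/

set_option autoImplicit false

namespace Pool.Agent.Lib.MP_4a7072_co
namespace NP

namespace WB0

variable {n m : ℤ} (W : WB0 1 n m)

/-- Bounds for the first coordinate on the first half period. -/
def Box (lo hi : ℤ) : Prop := ∀ l, 0 ≤ l → l ≤ W.q → -lo ≤ 2 * (W.w l).1 ∧ 2 * (W.w l).1 ≤ hi

theorem Box.mirror {W : WB0 1 n m} {lo hi : ℤ} (h : W.Box lo hi) (hn : n ≠ 2) :
    (W.mirror hn).Box hi lo := fun l a b => by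
  have h1 := h l a b
  have h2 := W.symA' a b
  change -hi ≤ 2 * -(W.w (-l)).2 ∧ 2 * -(W.w (-l)).2 ≤ lo
  omega

theorem transl {l : ℤ} (a : 0 ≤ l) (h0 : 0 ≤ W.β) (b : W.β + l ≤ W.q) :
    (W.w (2 * W.β + l)).1 = (W.w l).1 ∧ (W.w (2 * W.β + l)).2 = (W.w l).2 + 2 * m := by
  have h1 := W.symA' a (by omega)
  have h2 := W.symB' (i := W.β + l) (by omega) b
  rw [show W.β - (W.β + l) = -l by ring, show W.β + (W.β + l) = 2 * W.β + l by ring] at h2
  omega

theorem box_of (h0 : 0 < m) (h : 2 * m < n) {D : ℤ}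
    (hD : ∀ l, 0 ≤ l → l ≤ W.β → (W.w l).2 - (W.w l).1 ≤ D) : W.Box D (2 * m + D) := by
  have o := W.ord1 h0 h
  have D0 : 0 ≤ D := by
    have := hD 0 le_rfl (by omega)
    have := W.strip 0
    omega
  have : ∀ t : ℕ, ∀ l : ℤ, l ≤ t → 0 ≤ l → l ≤ W.q →
      -D ≤ 2 * (W.w l).1 ∧ 2 * (W.w l).1 ≤ 2 * m + D := by
    intro t
    induction t with
    | zero =>
      intro l a b c
      rw [show l = 0 by omega, W.w0]
      simp only
      omega
    | succ t ih =>
      intro l a b c
      by_cases d : l ≤ W.β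
      · have := hD l b d
        have := W.strip l
        have := (W.monoA l).1 b
        have := (W.monoB l).2.1 d
        omega
      by_cases g : l ≤ 2 * W.β
      · have h2 := W.symB' (i := l - W.β) (by omega) (by omega)
        rw [add_sub_cancel] at h2
        have := hD (W.β - (l - W.β)) (by omega) (by omega)
        have := W.strip (W.β - (l - W.β))
        have := (W.monoA (W.β - (l - W.β))).1 (by omega)
        have := (W.monoB (W.β - (l - W.β))).2.1 (by omega)
        omega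
      · have h2 := W.transl (l := l - 2 * W.β) (by omega) (by omega) (by omega)
        rw [add_sub_cancel] at h2
        have := ih (l - 2 * W.β) (by omega) (by omega) (by omega)
        omega
  exact fun l a b => this l.toNat l (by omega) a b

theorem deep (h0 : 0 < m) (h : 4 * m < n) {l : ℤ} (a : 0 ≤ l) (b : l ≤ W.β) :
    (W.w l).2 - (W.w l).1 ≤ n - 4 * m := by
  have o := W.ord1 h0 (by omega)
  have h1 := W.transl (l := W.β) (by omega) (by omega) (by omega)
  have h2 := (W.monoA (2 * W.β + W.β)).2.2.1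
  rw [W.wβ] at h1
  simp only at h1
  have h3 := W.transl (l := 0) le_rfl (by omega) (by omega)
  have h4 := W.transl (l := 2 * W.β + 0) (by omega) (by omega) (by omega)
  have h5 := (W.monoA (2 * W.β + (2 * W.β + 0))).2.2.1
  rw [W.w0] at h3
  simp only at h3
  have h6 := W.transl a (by omega) (by omega)
  have h7 := W.transl (l := 2 * W.β + l) (by omega) (by omega) (by omega)
  have := W.strip (2 * W.β + (2 * W.β + l))
  omega

theorem fc_free {lo hi : ℤ} (h : W.Box lo hi) (t : ℤ) (a : 0 ≤ t) (b : t ≤ 2 * (2 * W.q)) :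
    (W.fc t).1 - (W.fc t).2 ≤ hi - n ∨ 3 * n - lo ≤ (W.fc t).1 + (W.fc t).2 := by
  have g : ∀ l, W.q ≤ l → l ≤ 2 * W.q → 2 * n - lo ≤ 2 * (W.w l).2 := fun l c d => by
    have h1 := h (2 * W.q - l) (by omega) (by omega)
    have h2 := W.symA' (i := 2 * W.q - l) (by omega) (by omega)
    have h3 := W.per1 (-(2 * W.q - l))
    rw [show -(2 * W.q - l) + 2 * W.q = l by ring] at h3
    omega
  obtain ⟨l, rfl | rfl⟩ : ∃ l, t = 2 * l ∨ t = 2 * l + 1 := ⟨t / 2, by omega⟩
  · have := W.ev l
    by_cases c : l ≤ W.q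
    · have := h l (by omega) c; omega
    · have := g l (by omega) (by omega); omega
  · have := W.od l
    by_cases c : l < W.q
    · have := h l (by omega) (by omega)
      have := h (l + 1) (by omega) (by omega)
      omega
    · have := g l (by omega) (by omega)
      have := g (l + 1) (by omega) (by omega)
      omega

theorem fc_near (hn : 2 < n) (he : n % 2 = 0) (t : ℤ) (a : n - 1 ≤ (W.fc t).1)
    (b : (W.fc t).1 ≤ n + 1) : n + 1 < (W.fc t).2 := by
  by_contra c
  obtain ⟨l, rfl | rfl⟩ : ∃ l, t = 2 * l ∨ t = 2 * l + 1 := ⟨t / 2, by omega⟩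
  · have := W.ev l
    have := W.par rfl l
    have := W.strip l
    exact W.noA hn l (by omega) (by omega)
  · have := W.od l
    have := W.stc l
    have := W.par rfl l
    have := W.strip l
    have := W.strip (l + 1)
    by_cases g : (W.w l).1 + (W.w l).2 = n ∧ (W.w l).2 = (W.w l).1
    · exact W.noA hn l g.1 g.2
    · exact W.noA hn (l + 1) (by omega) (by omega)

end WB0

theorem WB0.exists_FC {a d : ℤ} (W : WB0 1 a d) (mir : W.Mir) (ha : 2 < a) (hd : a < d)
    (he : a % 2 = 0) (ho : d % 2 = 1) : ∃ C : FC a d, C.f = W.fc ∧ C.Q = 2 * W.q := by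
  have hq := W.qpos
  have cs : ∀ t : ℤ, ∃ l, t = 2 * l ∨ t = 2 * l + 1 := fun t => ⟨t / 2, by omega⟩
  have pβ := W.par1 W.β
  rw [W.wβ] at pβ
  simp only at pβ
  obtain ⟨l0, hl⟩ : ∃ l0, W.β - 2 * W.q = 2 * l0 + 1 := ⟨(W.β - 2 * W.q) / 2, by omega⟩
  have side := W.fc_side mir (by omega)
  have hj : (W.fc (W.β - 2 * W.q)).2 = a + (W.w l0).2 - (W.w l0).1 ∧
      (W.fc (W.β - 2 * W.q - 1)).1 = d - a - 1 ∧
      (W.fc (W.β - 2 * W.q - 1)).2 = a + (W.w l0).2 - (W.w l0).1 := by
    have h1 := (side _).2.1 rfl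
    have h2 := (side (W.β - 2 * W.q - 1)).1 (by omega)
    rw [hl] at h1 h2 ⊢
    rw [add_sub_cancel_right] at h2 ⊢
    have := W.ev l0
    have := W.od l0
    have := W.stc l0
    have := W.par rfl l0
    omega
  refine ⟨{
    r := fun t => W.d (t / 2)
    f := W.fc
    Q := 2 * W.q
    B := 2 * W.β
    j := W.β - 2 * W.q
    sym := W.fc_sym
    hQ := by omega
    step := W.fc_step
    inj := W.fc_inj
    f0 := ?_
    fQ := ?_
    fB := ?_
    fB1 := ?_
    strip := fun t => ?_
    mA := fun t => ?_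
    mB := fun t => ?_
    hj := by ring
    side := side
    prev := by omega
    nA := fun t => ⟨fun h => ⟨fun g => ?_, fun g => ?_⟩, fun h g => ?_⟩
    nB := fun t => ⟨fun h g => ?_, fun h g => ?_⟩
    high := fun h => by omega
    low := fun h => by omega
    dg := fun t b c => ?_
    peak := fun i b c => ?_ }, rfl, rfl⟩
  · have := W.fc_even 0
    rw [mul_zero] at this
    rw [this, WB0.cp, W.w0]
    simp
  · rw [W.fc_even, WB0.cp, W.wq]
    ext <;> simp; ring
  · rw [W.fc_even, WB0.cp, W.wβ]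
    ext <;> simp; ring
  · have := W.symB' W.qpos.le le_rfl
    have h := W.per1 (W.β - W.q)
    rw [show W.β - W.q + 2 * W.q = W.β + W.q by ring] at h
    rw [← mul_sub, W.fc_even, WB0.cp]
    ext <;> simp only <;> omega
  · obtain ⟨l, rfl | rfl⟩ := cs t
    · have := W.ev l
      have := W.strip l
      omega
    · have := W.od l
      have := W.strip l
      have := W.strip (l + 1)
      omega
  · obtain ⟨l, rfl | rfl⟩ := cs t
    · have := W.ev l
      have := W.monoA l
      omega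
    · have := (W.od l).1
      have := W.monoA l
      have := W.monoA (l + 1)
      refine ⟨fun _ => ?_, fun _ => ?_, fun _ => ?_, fun _ => ?_, fun _ => ?_⟩ <;> omega
  · obtain ⟨l, rfl | rfl⟩ := cs t
    · have := W.ev l
      have := W.monoB l
      omega
    · have := (W.od l).1
      have := W.monoB l
      have := W.monoB (l + 1)
      refine ⟨fun _ => ?_, fun _ => ?_, fun _ => ?_, fun _ => ?_, fun _ => ?_, fun _ => ?_⟩ <;>
        omega
  · obtain ⟨l, h1⟩ := W.fc_ee he t (by omega) (by omega)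
    exact W.noA ha l (by omega) (by omega)
  · obtain ⟨l, rfl | rfl⟩ := cs t
    · have := W.ev l
      have := W.par rfl l
      omega
    · have := W.od l
      have := W.stc l
      have := W.par rfl l
      rcases le_total (W.w l).1 (W.w (l + 1)).1 with c | c
      · exact W.noA ha l (by omega) (by omega)
      · exact W.noA ha (l + 1) (by omega) (by omega)
  · obtain ⟨l, h1⟩ := W.fc_ee he t (by omega) (by omega)
    have := W.kA l (by omega) (by omega)
    omega
  · obtain ⟨l, h1⟩ := W.fc_ee he t (by omega) (by omega)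
    exact W.noB ha l (by omega) (by omega)
  · obtain ⟨l, h1⟩ := W.fc_ee he t (by omega) (by omega)
    have := W.kB l (by omega) (by omega)
    omega
  · have := W.strip l0
    obtain ⟨l, rfl | rfl⟩ := cs t
    · have := W.ev l
      have := W.strip l
      omega
    · have := W.od l
      have := W.strip l
      have := W.strip (l + 1)
      omega
  · have h1 := W.fc_symB (i := 2 * W.q - i) (by omega) (by omega)
    have h2 := W.fc_per (2 * W.β - 2 * W.q - i)
    rw [show 2 * W.β - (2 * W.q - i) = 2 * W.β - 2 * W.q + i by ring,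
      show 2 * W.β + (2 * W.q - i) = 2 * W.β - 2 * W.q - i + 2 * (2 * W.q) by ring, h2] at h1
    simp only [Prod.fst_add, Prod.snd_add] at h1
    omega

/-- The curve of unit steps together with the free regions below it. -/
theorem exists_FC8 (a d : ℤ) (ha : 2 < a) (hd : a < d) (hc : IsCoprime a d) (he : a % 2 = 0)
    (ho : d % 2 = 1) : ∃ (C : FC a d) (μ D lo hi : ℤ),
      (0 < μ ∧ 2 * μ < a ∧ D < 2 * μ ∧ D ≤ a - 2 * μ ∧ (4 * μ < a → D ≤ a - 4 * μ)) ∧
      ((μ = d % a ∧ lo = D ∧ hi = 2 * μ + D) ∨ (μ = a - d % a ∧ lo = 2 * μ + D ∧ hi = D)) ∧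
      (∀ t, 0 ≤ t → t ≤ 2 * C.Q →
        (C.f t).1 - (C.f t).2 ≤ hi - a ∨ 3 * a - lo ≤ (C.f t).1 + (C.f t).2) ∧
      ∀ t, a - 1 ≤ (C.f t).1 → (C.f t).1 ≤ a + 1 → a + 1 < (C.f t).2 := by
  have wide : ∀ m, IsCoprime a m → 0 < m → 2 * m < a → ∃ (W : WB0 1 a m) (D : ℤ), W.Mir ∧
      W.Box D (2 * m + D) ∧ D < 2 * m ∧ D ≤ a - 2 * m ∧ (4 * m < a → D ≤ a - 4 * m) :=
    fun m c h0 h => by
      obtain ⟨⟨W, dep, big⟩, mir, -⟩ := exists_WM a m (by omega) c he
      refine ⟨W, min (2 * m - 1) (if 4 * m < a then a - 4 * m else a - 2 * m), mir,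
        W.box_of h0 h fun l b g => ?_, by omega, by omega, by omega⟩
      have := (dep h0 l b g).1
      have := (big h0 h).2.1 l b g
      have := fun h => W.deep h0 h b g
      omega
  have fin : ∀ {lo hi : ℤ}, (∃ W : WB0 1 a d, W.Mir ∧ W.Box lo hi) → ∃ C : FC a d,
      (∀ t, 0 ≤ t → t ≤ 2 * C.Q →
        (C.f t).1 - (C.f t).2 ≤ hi - a ∨ 3 * a - lo ≤ (C.f t).1 + (C.f t).2) ∧
      ∀ t, a - 1 ≤ (C.f t).1 → (C.f t).1 ≤ a + 1 → a + 1 < (C.f t).2 := fun ⟨W, mir, box⟩ => by
    obtain ⟨C, e1, e2⟩ := W.exists_FC mir ha hd he ho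
    refine ⟨C, ?_⟩
    rw [e1, e2]
    exact ⟨W.fc_free box, W.fc_near ha he⟩
  have h1 := Int.mul_ediv_add_emod d a
  have h2 := Int.emod_nonneg d (show a ≠ 0 by omega)
  have h3 := Int.emod_lt_of_pos d (show 0 < a by omega)
  have c0 : IsCoprime a (d % a) := by
    have := hc.add_mul_left_right (-(d / a))
    rwa [show d + a * -(d / a) = d % a by linarith] at this
  have m0 : d % a ≠ 0 := fun z => by
    rw [z, isCoprime_zero_right, Int.isUnit_iff] at c0
    omega
  have nm : 2 * (d % a) ≠ a := fun z => by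
    have := Int.isUnit_iff.1 (c0.isUnit_of_dvd' ⟨2, by omega⟩ dvd_rfl)
    omega
  rcases lt_or_gt_of_ne nm with g | g
  · obtain ⟨W, D, mir, box, hD⟩ := wide _ c0 (by omega) g
    have W' : ∃ W : WB0 1 a (d % a + d / a * a), W.Mir ∧ W.Box D (2 * (d % a) + D) :=
      ⟨_, mir.shift (d / a), box⟩
    rw [show d % a + d / a * a = d by linarith] at W'
    obtain ⟨C, h⟩ := fin W'
    exact ⟨C, _, D, _, _, ⟨by omega, g, hD⟩, .inl ⟨rfl, rfl, rfl⟩, h⟩
  · have c1 : IsCoprime a (a - d % a) := by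
      have := c0.neg_right.add_mul_left_right 1
      rwa [mul_one, neg_add_eq_sub] at this
    obtain ⟨W, D, mir, box, hD⟩ := wide _ c1 (by omega) (by omega)
    have W' : ∃ W : WB0 1 a (-(a - d % a) + (d / a + 1) * a),
        W.Mir ∧ W.Box (2 * (a - d % a) + D) D :=
      ⟨_, (mir.mirror (by omega)).shift (d / a + 1), box.mirror (by omega)⟩
    rw [show -(a - d % a) + (d / a + 1) * a = d by linarith] at W'
    obtain ⟨C, h⟩ := fin W'
    exact ⟨C, _, D, _, _, ⟨by omega, by omega, hD⟩, .inr ⟨rfl, rfl, rfl⟩, h⟩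

end NP
end Pool.Agent.Lib.MP_4a7072_co
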