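import Pool.Agent.Lib.MP_4a7072_co.HCov
import Pool.Agent.Lib.MP_4a7072_co.HTree

/-!
The three boundaries of the design with long arms are simple closed paths.
-/

set_option autoImplicit false
set_option linter.unnecessarySeqFocus false

namespace Pool.Agent.Lib.MP_4a7072_co
namespace NP

open RTree (endP_append edges_append)

theorem arcRB8 (p : P8) : CArc (-p.b, 0) (RB p.b) (0, 0) p.EB1 := by
  have := p.aux
  have h1 := CArc.one (-p.b, 0) 3
  have h2 := CArc.line ((-p.b, 0) + dv 3) 0 (n := p.b) (by omega)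
  have h3 := CArc.one ((-p.b, 0) + dv 3 + p.b • dv 0) 1
  refine ((h1.append h2 ?_).append h3 ?_).mv rfl (by ext <;> simp [dv]) ?_
  · rintro X Y a ⟨i, b⟩
    simp [dv] at a b ⊢
    omega
  · rintro X Y (a | ⟨i, a⟩) b <;> simp [dv] at a b ⊢ <;> omega
  · rintro X Y ((a | ⟨i, a⟩) | a) <;> simp [dv] at a <;> exact ⟨by omega, by omega⟩

namespace D8

variable {p : P8} (D : D8 p)

open P8

theorem fJ' : ((p.k = 1 ∨ p.k = 4) ∧ (D.f D.J).1 = p.b - 2 * p.a ∧ (D.f D.J).2 = p.a + p.g) ∨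
    ((p.k = 2 ∨ p.k = 3) ∧ (D.f D.J).1 = p.b - 2 * p.a - 1 ∧ (D.f D.J).2 = p.a) :=
  D.fJ.imp (fun h => ⟨h.1, by rw [h.2], by rw [h.2]⟩) fun h => ⟨h.1, by rw [h.2], by rw [h.2]⟩

theorem H' : (p.k = 1 ∧ D.H.1 = p.b ∧ D.H.2 = p.a) ∨
    ((p.k = 2 ∨ p.k = 3) ∧ D.H.1 = p.b - 1 ∧ D.H.2 = p.a) ∨
    (p.k = 4 ∧ D.H.1 = p.b ∧ D.H.2 = p.a + p.N) := by
  rw [H]
  rcases D.endL with ⟨h, e⟩ | ⟨h, e⟩ | ⟨h, e⟩ <;> rw [e]
  · exact .inl ⟨h, by simp, by simp⟩
  · exact .inr (.inl ⟨h, by simp; ring, by simp⟩)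
  · exact .inr (.inr ⟨h, by simp, by simp⟩)

/-! ### The small piece -/

theorem arcMV : CArc (p.a, p.a) (D.M ++ back 0 D.V) (D.f D.J)
    fun X Y => p.EM (X - 2 * p.a) Y ∨ p.EV X Y := by
  have fJ := D.fJ'
  have h1 : CArc (p.a, p.a) D.M (D.f D.J + (2 * p.a, 0)) fun X Y => p.EM (X - 2 * p.a) Y :=
    D.arcM.shift (2 * p.a, 0) (by ext <;> simp; ring) rfl fun X Y h => by simpa using h
  refine h1.append D.arcV.back fun X Y a b => ?_
  have := m_v a b
  simp only [Prod.fst_add, Prod.snd_add]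
  omega

theorem arcQa : CArc (p.a, p.a) D.qa (-p.a, p.a) p.EQ := by
  have fJ := D.fJ'
  refine (D.arcMV.append D.arcM.back ?_).mono fun X Y h => or_assoc.1 h
  rintro X Y (a | a) b
  · exact (m_m a b).elim
  · have := m_g b a.toEG; omega

theorem arcQ2 : CArc (p.a, p.a) (D.M ++ back 0 D.V ++ back 0 D.M2)
    (0, p.a - 1 - p.N) p.EQ2 := by
  have fJ := D.fJ'
  refine (D.arcMV.append D.arcM2.back ?_).mono fun X Y h => or_assoc.1 h
  rintro X Y (a | a) b
  · exact (m_m a b.1).elim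
  · have := m_g b.1 a.toEG; omega

theorem arc0 : CArc D.H (D.y ++ back 0 D.V ++ back 0 D.M) (-p.a, p.a) p.E0 := by
  have fJ := D.fJ'
  have h1 : CArc D.H D.y (D.f D.J + (2 * p.a, 0)) fun X Y => p.Ey (X - 2 * p.a) Y :=
    D.arcY.shift (2 * p.a, 0) rfl rfl fun X Y h => by simpa using h
  refine ((h1.append D.arcV.back fun X Y a b => ?_).append D.arcM.back ?_).mono
    fun X Y h => or_assoc.1 h
  · have := m_v (.inr a) b
    simp only [Prod.fst_add, Prod.snd_add]
    omega
  · rintro X Y (a | a) b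
    · exact (m_m (.inr a) b).elim
    · have := m_g b a.toEG; omega

theorem arcα : CArc D.H D.α (p.a - 1 - p.N, 0) p.Eα := by
  have := p.aux
  have h1 : CArc (-p.a, p.a) (rot 1 D.qa) (-p.a, -p.a) fun X Y => p.EQ Y (-X) :=
    D.arcQa.rot1 0 (by simp) (by simp) fun X Y h => by simpa using h
  have h2 : CArc (-p.a, -p.a) (rot 2 (D.M ++ back 0 D.V ++ back 0 D.M2))
      (0, -(p.a - 1 - p.N)) fun X Y => p.EQ2 (-X) (-Y) :=
    D.arcQ2.rot2 0 (by simp) (by ext <;> simp <;> ring) fun X Y h => by simpa using h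
  have h3 : CArc (0, -(p.a - 1 - p.N)) (rot 2 D.R) (0, 0) fun X Y => p.ER (-X) (-Y) :=
    D.arcR.rot2 0 (by ext <;> simp <;> ring) (by simp) fun X Y h => by simpa using h
  have h4 : CArc (0, 0) (back 3 D.R) (p.a - 1 - p.N, 0) fun X Y => p.ER (-Y) X :=
    D.arcR.backs 3 fun h => h.rot3 0 (by simp) (by ext <;> simp <;> ring)
      fun X Y h => by simpa using h
  refine (((D.arc0.append h1 fun X Y a b => q_q a.eq b).append h2 ?_).append
    (h3.append h4 fun X Y a b => ?_) ?_).mono ?_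
  · rintro X Y (a | a) b
    · have := a.eq.lin; have := b.eq.lin; omega
    · have := q_q a b.eq; dsimp only; omega
  · have := a.lin; have := b.lin; dsimp only; omega
  · rintro X Y ((a | a) | a) (b | b) <;> have := b.lin
    · have := a.eq.lin; omega
    · have := a.eq.lin; omega
    · have := a.lin
      have := a.left (by omega)
      unfold Pc at this
      omega
    · have := a.lin
      have := fun e => a.left e
      unfold Pc at this
      omega
    · have := a.eq.lin; have := a.lin; dsimp only; omega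
    · have := a.eq.lin; omega
  · rintro X Y ((((a | a | a) | a) | a) | a | a)
    · exact .inl a
    · exact .inr (.inl a)
    · exact .inr (.inr (.inl a))
    · exact .inr (.inr (.inr (.inl a)))
    · exact .inr (.inr (.inr (.inr (.inl a))))
    · exact .inr (.inr (.inr (.inr (.inr (.inl a)))))
    · exact .inr (.inr (.inr (.inr (.inr (.inr a)))))

theorem arcπ : CArc (p.a - 1 - p.N, 0) D.π D.H p.Eπ := by
  have := p.aux
  have h1 : CArc (p.a - 1 - p.N, 0) (back 3 D.M1) (p.a, p.a) fun X Y => p.EM1 (-Y) X :=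
    D.arcM1.backs 3 fun h => h.rot3 0 (by ext <;> simp <;> ring) (by simp)
      fun X Y h => by simpa using h
  have h2 : CArc (p.a, p.a) D.L D.H fun X Y => p.EL (X - 2 * p.a) Y :=
    D.arcL.shift (2 * p.a, 0) (by ext <;> simp; ring) rfl fun X Y h => by simpa using h
  refine h1.append h2 fun X Y a b => ?_
  have := p.hce
  have := b.lin
  have := a.2
  have a1 := a.1
  have b1 := b.left (by unfold Pc at a1; omega)
  unfold Pc at a1 b1
  dsimp only
  omega

/-! ### The larger piece -/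

theorem arcQb : CArc (-p.b, 0) D.qb (0, -p.b) (p.Eq' D.TS D.GS) := by
  have := p.aux
  have fJ := D.fJ'
  have h4 : CArc (-p.b, 0) (back 3 D.T) (-p.a - p.b, p.b - p.a)
      fun x y => D.TS (2 * p.b - 3 * p.a - y) (x + p.b + 2 * p.a) :=
    D.arcT.backs 3 fun h => h.rot3 (-p.b - 2 * p.a, 2 * p.b - 3 * p.a)
      (by ext <;> simp) (by ext <;> simp <;> ring) fun X Y h => sCg h rfl (by ring)
  have h5 : CArc (-p.a - p.b, p.b - p.a) (back 0 D.S) (-2 * p.b, p.b - p.a)
      fun x y => p.ES (x + 2 * p.b - p.a) (y - p.b + 2 * p.a) :=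
    D.arcS.back.shift (p.a - 2 * p.b, p.b - 2 * p.a) (by ext <;> simp <;> ring)
      (by ext <;> simp <;> ring) fun X Y h => sCg h (by ring) (by ring)
  have h6 : CArc (-2 * p.b, p.b - p.a) (rot 3 D.M)
      (-2 * p.b - p.a + (D.f D.J).2, p.b - 2 * p.a - (D.f D.J).1)
      fun x y => p.EM (p.b - 2 * p.a - y) (x + 2 * p.b + p.a) :=
    D.arcM.rot3 (-2 * p.b - p.a, p.b - 2 * p.a) (by ext <;> simp <;> ring) rfl
      fun X Y h => sCg h rfl (by ring)
  have h7 : CArc (-2 * p.b - p.a + (D.f D.J).2, p.b - 2 * p.a - (D.f D.J).1) (rot 3 (D.V ++ D.Z))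
      (p.a - 2 * p.b, -p.a - p.b) fun x y => D.GS (p.b - 2 * p.a - y) (x + 2 * p.b + p.a) :=
    (D.eU ▸ D.arcG).rot3 (-2 * p.b - p.a, p.b - 2 * p.a) rfl (by ext <;> simp <;> ring)
      fun X Y h => sCg h rfl (by ring)
  have h8 : CArc (p.a - 2 * p.b, -p.a - p.b) (back 2 D.T) (-p.b, -p.b)
      fun x y => D.TS (-2 * p.a - x) (p.a - p.b - y) :=
    D.arcT.backs 2 fun h => h.rot2 (-2 * p.a, p.a - p.b)
      (by ext <;> simp <;> ring) (by ext <;> simp <;> ring) fun X Y h => h
  have h1 : CArc (-p.b, -p.b) (back 3 D.S) (-p.b, -p.a)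
      fun x y => p.ES (-2 * p.a - y) (x + p.a + p.b) :=
    D.arcS.backs 3 fun h => h.rot3 (-p.a - p.b, -2 * p.a)
      (by ext <;> simp <;> ring) (by ext <;> simp <;> ring) fun X Y h => sCg h rfl (by ring)
  have h2 : CArc (-p.b, -p.a) D.S (-p.a, -p.a)
      fun x y => p.ES (x - p.a + p.b) (y + 2 * p.a) :=
    D.arcS.shift (p.a - p.b, -2 * p.a) (by ext <;> simp <;> ring)
      (by ext <;> simp <;> ring) fun X Y h => sCg h (by ring) (by ring)
  have h3 : CArc (-p.a, -p.a) (rot 3 D.T) (0, -p.b)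
      fun x y => D.TS (p.b - 3 * p.a - y) (x + 2 * p.a) :=
    D.arcT.rot3 (-2 * p.a, p.b - 3 * p.a) (by ext <;> simp <;> ring) (by ext <;> simp <;> ring)
      fun X Y h => sCg h rfl (by ring)
  refine (((h4.append h5 ?_).append h6 ?_).append
    ((((h7.append h8 ?_).append h1 ?_).append h2 ?_).append h3 ?_) ?_).mono ?_
  · intro X Y a b
    have := (D.ts _ _ a).lin; have := b.lin; have := fun e => b.right e
    dsimp only
    omega
  · rintro X Y (a | a) b
    · have := (D.ts _ _ a).lin; have := b.lin; omega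
    · have := corner (u := X + 2 * p.b) (v := Y - p.b + p.a) (sCg a (by ring) (by ring))
        (.inr (sCg b (by ring) (by ring)))
      dsimp only
      omega
  · intro X Y a b
    have := (D.gs _ _ a).lin; have := (D.ts _ _ b).lin
    have := D.fold2 (p.b - 2 * p.a - Y) (p.a - p.b - Y) (sCg a rfl (by omega))
      (sCg b (by omega) rfl) (by ring)
    dsimp only
    omega
  · rintro X Y (a | a) b <;> have := b.lin
    · have := (D.gs _ _ a).lin; omega
    · have := (D.ts _ _ a).lin; have := fun e => b.right e; dsimp only; omega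
  · rintro X Y ((a | a) | a) b <;> have := b.lin
    · have := (D.gs _ _ a).lin; omega
    · have := (D.ts _ _ a).lin; omega
    · have := corner (u := X + p.b) (v := Y + p.a) (sCg b (by ring) (by ring))
        (.inl (sCg a (by ring) (by ring)))
      dsimp only
      omega
  · rintro X Y (((a | a) | a) | a) b <;> have := (D.ts _ _ b).lin
    · have := (D.gs _ _ a).lin; omega
    · have := (D.ts _ _ a).lin; omega
    · have := a.lin; omega
    · have := a.lin; have := fun e => a.right e; dsimp only; omega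
  · rintro X Y ((a | a) | a) ((((b | b) | b) | b) | b)
    · have := (D.ts _ _ a).lin; have := (D.gs _ _ b).lin; omega
    · have := (D.ts _ _ a).lin; have := (D.ts _ _ b).lin; omega
    · have := (D.ts _ _ a).lin; have := b.lin; omega
    · have := (D.ts _ _ a).lin; have := b.lin; omega
    · have := (D.ts _ _ a).lin; have := (D.ts _ _ b).lin; omega
    · have := a.lin; have := (D.gs _ _ b).lin; omega
    · have := a.lin; have := (D.ts _ _ b).lin; omega
    · have := a.lin; have := b.lin; omega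
    · have := a.lin; have := b.lin; omega
    · have := a.lin; have := (D.ts _ _ b).lin; omega
    · have := m_g a (D.gs _ _ b); dsimp only; omega
    · have := a.lin; have := (D.ts _ _ b).lin; omega
    · have := a.lin; have := b.lin; omega
    · have := a.lin; have := b.lin; omega
    · have := a.lin; have := (D.ts _ _ b).lin; omega
  · rintro X Y (((a | a) | a) | (((a | a) | a) | a) | a)
    · exact .inl a
    · exact .inr (.inl a)
    · exact .inr (.inr (.inl a))
    · exact .inr (.inr (.inr (.inl a)))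
    · exact .inr (.inr (.inr (.inr (.inl a))))
    · exact .inr (.inr (.inr (.inr (.inr (.inl a)))))
    · exact .inr (.inr (.inr (.inr (.inr (.inr (.inl a))))))
    · exact .inr (.inr (.inr (.inr (.inr (.inr (.inr a))))))

variable {D} in
theorem qb_env {X Y : ℤ} (h : p.Eq' D.TS D.GS X Y) : p.Eq X Y := h.mono D.ts D.gs

variable {D} in
theorem qb_qb {X Y : ℤ} (h : p.Eq' D.TS D.GS X Y) (g : p.Eq' D.TS D.GS Y (-X)) :
    X = 0 ∧ Y = -p.b := by
  have := p.aux
  have hl := (qb_env h).lin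
  have gl := (qb_env g).lin
  have h1 : D.TS (2 * p.b - 3 * p.a + X) (Y + p.b + 2 * p.a) ∧ p.a - 2 * p.b < 2 * X ∨
      (Y ≤ -p.a - p.b ∧ p.a - p.b ≤ X) ∨ (Y < -p.b ∧ p.a - p.b ≤ X) := by
    rcases g with g | g | g | g | g | g | g | g
    · have := (D.ts _ _ g).lin
      exact .inl ⟨sCg g (by ring) rfl, by omega⟩
    · have := g.lin; omega
    · have := g.lin; omega
    · have := (D.gs _ _ g).lin; omega
    · have := (D.ts _ _ g).lin; omega
    · have := g.lin; omega
    · have := g.lin; omega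
    · have := (D.ts _ _ g).lin; omega
  rcases h1 with ⟨g, g'⟩ | g
  · have := (D.ts _ _ g).lin
    rcases h with h | h | h | h | h | h | h | h
    · have := (D.ts _ _ h).lin; omega
    · have := h.lin; omega
    · have := h.lin; omega
    · have := (D.gs _ _ h).lin; omega
    · have := (D.ts _ _ h).lin; omega
    · have := h.lin; omega
    · have := h.lin; omega
    · have := (D.ts _ _ h).lin
      have := D.fold1 (2 * p.b - 3 * p.a + X) (X + 2 * p.a) (sCg g rfl (by omega))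
        (sCg h (by omega) rfl) (by ring)
      omega
  · omega

theorem simpleB0 :
    Simple (-p.b, 0) (D.qb ++ rot 1 D.qb ++ rot 2 D.qb ++ (rot 3 (RB p.b) ++ back 0 (RB p.b))) ∧
    Ccw (-p.b, 0) (D.qb ++ rot 1 D.qb ++ rot 2 D.qb ++ (rot 3 (RB p.b) ++ back 0 (RB p.b))) ∧
    ∀ z ∈ verts (-p.b, 0) (D.qb ++ rot 1 D.qb ++ rot 2 D.qb ++ (rot 3 (RB p.b) ++ back 0 (RB p.b))),
      p.EB0 z.1 z.2 := by
  have := p.aux
  have h1 : CArc (0, -p.b) (rot 1 D.qb) (p.b, 0) fun X Y => p.Eq' D.TS D.GS Y (-X) :=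
    D.arcQb.rot1 0 (by simp) (by simp) fun X Y h => by simpa using h
  have h2 : CArc (p.b, 0) (rot 2 D.qb) (0, p.b) fun X Y => p.Eq' D.TS D.GS (-X) (-Y) :=
    D.arcQb.rot2 0 (by simp) (by simp) fun X Y h => by simpa using h
  have h3 : CArc (0, p.b) (rot 3 (RB p.b)) (0, 0) fun X Y => p.EB1 (-Y) X :=
    (arcRB8 p).rot3 0 (by simp) (by simp) fun X Y h => by simpa using h
  have h0 := (D.arcQb.append h1 fun X Y a b => qb_qb a b).append h2 (by
      rintro X Y (a | a) b
      · have := (qb_env a).lin; have := (qb_env b).lin; omega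
      · have := qb_qb a b; dsimp only; omega)
  obtain ⟨s, e⟩ := h0.simple
    (h3.append (arcRB8 p).back fun X Y a b => by
      have := a.lin; have := a.d1; have := b.lin; have := b.d1; dsimp only; omega) (by
      rintro X Y ((a | a) | a) (b | b) <;> have := (qb_env a).lin <;> have := b.lin <;>
        have := b.d1 <;> dsimp only
      · omega
      · rcases qb_env a with a | a | a | a | a | a | a | a <;> have := a.lin <;> omega
      · omega
      · omega
      · omega
      · omega) (by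
      simp only [List.length_append, length_rot, length_back, RB, List.length_singleton]
      omega)
  have e' : ∀ z ∈ verts (-p.b, 0)
      (D.qb ++ rot 1 D.qb ++ rot 2 D.qb ++ (rot 3 (RB p.b) ++ back 0 (RB p.b))),
      p.EB0 z.1 z.2 := fun z hz => by
    rcases e z hz with ((a | a) | a) | a | a
    · exact .inl (qb_env a)
    · exact .inr (.inl (qb_env a))
    · exact .inr (.inr (.inl (qb_env a)))
    · exact .inr (.inr (.inr (.inl a)))
    · exact .inr (.inr (.inr (.inr a)))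
  refine ⟨s, ccw_of_out (Q := (0, p.b)) (d := 2) (sMem_edges_right h0.1 List.mem_cons_self) ?_, e'⟩
  exact OutE.rayN (X := 0 + 0) (Y := p.b + 1) (fun _ _ => b0N (by omega)) _ _ s.1 e'

theorem simpleB : Simple (p.a - 1 - p.N, 0) (D.β ++ back 0 D.π) ∧
    Ccw (p.a - 1 - p.N, 0) (D.β ++ back 0 D.π) ∧
    ∀ z ∈ verts (p.a - 1 - p.N, 0) (D.β ++ back 0 D.π), p.EB z.1 z.2 := by
  obtain ⟨s, c, e⟩ := D.simpleB0
  have e1 : D.β ++ back 0 D.π = (rot 3 D.M2 ++ D.tail ++ rot 1 D.qb ++ rot 2 D.qb ++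
      (rot 3 (RB p.b) ++ back 0 (RB p.b))) ++ (back 3 D.T ++ back 0 D.S ++ rot 3 D.M1) := by
    simp [β, π, S, back_append, back_back]
  have e2 : D.qb ++ rot 1 D.qb ++ rot 2 D.qb ++ (rot 3 (RB p.b) ++ back 0 (RB p.b)) =
      (back 3 D.T ++ back 0 D.S ++ rot 3 D.M1) ++ (rot 3 D.M2 ++ D.tail ++ rot 1 D.qb ++
      rot 2 D.qb ++ (rot 3 (RB p.b) ++ back 0 (RB p.b))) := by
    nth_rw 1 [qb]
    rw [M, D.eM, rot_append]
    simp only [List.append_assoc]
  have e3 : (p.a - 1 - p.N, 0) = endP (-p.b, 0) (back 3 D.T ++ back 0 D.S ++ rot 3 D.M1) +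
      (p.a + 2 * p.b, 2 * p.a - p.b) := by
    have dS : dsp D.S = _ := D.arcS.dsp_eq
    simp only [endP_dsp, dsp_append, dsp_back, dsp_rot, dS, D.arcT.dsp_eq, D.arcM1.dsp_eq]
    ext <;> simp [rotP_zero, rotP_3] <;> ring
  rw [e2] at s c e
  rw [e1, e3]
  have s' := s.rotate
  obtain ⟨x, hx, c'⟩ := Ccw.rotate s.1 c
  refine ⟨⟨by rw [RTree.endP_add, s'.1], ?_, s'.2.2⟩, ⟨(x.1 + (p.a + 2 * p.b, 2 * p.a - p.b), x.2),
    ?_, ?_⟩, fun z hz => ?_⟩
  · rw [RTree.verts_add]
    exact s'.2.1.map (add_left_injective _)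
  · rw [RTree.edges_add]
    exact List.mem_map_of_mem hx
  · rwa [rc, lc_add, RTree.wind_add]
  · rw [RTree.verts_add] at hz
    obtain ⟨v, hv, rfl⟩ := List.mem_map.1 hz
    simpa [EB] using e v (((Jor.edges_rotate s.1).map _).subset hv)

theorem arcβ : CArc (p.a - 1 - p.N, 0) D.β D.H p.EB := by
  obtain ⟨s, -, e⟩ := D.simpleB
  refine (Simple.arc s (back_ne (List.append_ne_nil_of_right_ne_nil _ D.L_ne)) e).mv rfl ?_ fun _ _ h => h
  have := s.1
  rw [endP_append, endP_dsp, dsp_back, rotP_zero, D.arcπ.dsp_eq] at this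
  linear_combination (exp := 1) this

theorem edgeα : (((0, -(p.a - 1 - p.N)) : Pt), (1 : Dir)) ∈ edges D.H D.α := by
  have h := D.arcα.1
  have dR := D.arcR.dsp_eq
  obtain ⟨R', e⟩ := D.R0
  refine sMem_edges_right (Q := (0, -(p.a - 1 - p.N))) ?_ (by rw [e]; exact List.mem_cons_self)
  rw [α, endP_append, endP_dsp, dsp_append, dsp_rot, dsp_back, dR] at h
  rw [eq_sub_of_add_eq h]
  ext <;> simp [rotP_2, rotP_3] <;> ring

theorem length_α : 2 < D.α.length := by
  have h1 := List.length_pos_iff.2 D.R_ne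
  have h2 := List.length_pos_iff.2 D.M2_ne
  simp only [α, List.length_append, length_rot, length_back]
  omega

theorem simpleA : Simple D.H (D.α ++ D.π) ∧ Ccw D.H (D.α ++ D.π) ∧
    ∀ z ∈ verts D.H (D.α ++ D.π), p.EA z.1 z.2 := by
  have := p.aux
  have H := D.H'
  obtain ⟨s, e⟩ := D.arcα.simple D.arcπ (fun X Y a b => by
    have := α_π a b
    dsimp only
    omega) (by have := D.length_α; rw [List.length_append]; omega)
  refine ⟨s, ccw_of_out (sMem_edges_left D.edgeα _) ?_, e⟩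
  exact aE (X := 0 + 1) (Y := -(p.a - 1 - p.N) + 0) (by omega) _ _ s.1 e

theorem simpleC : Simple D.H (D.α ++ D.β) ∧ Ccw D.H (D.α ++ D.β) ∧
    ∀ z ∈ verts D.H (D.α ++ D.β), p.EC z.1 z.2 := by
  have := p.aux
  have H := D.H'
  obtain ⟨s, e⟩ := D.arcα.simple D.arcβ (fun X Y a b => by
    have := α_b a b
    dsimp only
    omega) (by have := D.length_α; rw [List.length_append]; omega)
  refine ⟨s, ccw_of_out (sMem_edges_left D.edgeα _) ?_, e⟩
  exact cM (X := 0 + 1) (Y := -(p.a - 1 - p.N) + 0) (by omega) _ _ s.1 e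

include D in
theorem twoPiece {a b c : ℕ} (ha : p.a = a) (hb : p.b = b) (h : a ^ 2 + b ^ 2 = c ^ 2) :
    TwoPieceDissection a b c := by
  have := p.aux
  have hZ : (a : ℤ) ^ 2 + (b : ℤ) ^ 2 = (c : ℤ) ^ 2 := by exact_mod_cast h
  let Λa : Lat := ⟨p.a, 0, a, by omega, le_rfl, by rw [ha]; ring⟩
  let Λb : Lat := ⟨p.b, 0, b, by omega, le_rfl, by rw [hb]; ring⟩
  let Λc : Lat := ⟨p.b, p.a, c, by omega, by omega, by rw [ha, hb]; linear_combination hZ⟩
  have nA : Net Λa 0 D.H (D.α ++ (D.π ++ [])) := by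
    obtain ⟨s, c, e⟩ := D.simpleA
    obtain ⟨K, t, hK⟩ := D.treeA (D7.dsp_zero s)
    rw [List.append_nil]
    refine ⟨s, c, K, t, fun W hW => ?_, ?_⟩
    · obtain ⟨m, n, rfl⟩ := p.memA W ((hK W).1 hW)
      exact ⟨(m, n), by ext <;> simp [Lat.gm, Λa] <;> ring⟩
    · rintro W ⟨⟨m, n⟩, hT⟩
      obtain rfl : W = (m * p.a, n * p.a) := by
        rw [eq_add_of_sub_eq hT]
        ext <;> simp [Lat.gm, Λa] <;> ring
      exact (p.covA m n).imp (hK _).2 fun h => h _ _ s.1 e
  have nB : Net Λb (p.a + 2 * p.b, 2 * p.a - p.b) (p.a - 1 - p.N, 0)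
      (D.β ++ (back 0 D.π ++ [])) := by
    obtain ⟨s, c, e⟩ := D.simpleB
    obtain ⟨K, t, hK⟩ := D.treeB (D7.dsp_zero s)
    rw [List.append_nil]
    refine ⟨s, c, K, t, fun W hW => ?_, ?_⟩
    · obtain ⟨m, n, e⟩ := p.memB _ ((hK W).1 hW)
      exact ⟨(m, n), by rw [e]; ext <;> simp [Lat.gm, Λb] <;> ring⟩
    · rintro W ⟨⟨m, n⟩, hT⟩
      obtain rfl : W = (p.a + 2 * p.b + m * p.b, 2 * p.a - p.b + n * p.b) := by
        rw [eq_add_of_sub_eq hT]
        ext <;> simp [Lat.gm, Λb] <;> ring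
      exact (p.covB m n).imp (fun h => (hK _).2 (by simpa using h)) fun h => h _ _ s.1 e
  have nC : Net Λc 0 D.H (D.α ++ D.β ++ []) := by
    obtain ⟨s, c, e⟩ := D.simpleC
    obtain ⟨K, t, hK⟩ := D.treeC
    rw [List.append_nil]
    refine ⟨s, c, K, t, fun W hW => ?_, ?_⟩
    · obtain ⟨m, n, rfl⟩ := p.memC W ((hK W).1 hW)
      exact ⟨(m, n), by ext <;> simp [Lat.gm, Λc] <;> ring⟩
    · rintro W ⟨⟨m, n⟩, hT⟩
      obtain rfl : W = (m * p.b - n * p.a, m * p.a + n * p.b) := by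
        rw [eq_add_of_sub_eq hT]
        ext <;> simp [Lat.gm, Λc] <;> ring
      exact (p.covC m n).imp (hK _).2 fun h => h _ _ s.1 e
  refine twoPiece_of_net (Λa := Λa) (Λb := Λb) (Λc := Λc) rfl rfl h nA nB nC rfl ?_ ?_
  · rw [D.arcα.1, D.arcπ.1, D.arcβ.1]
  · rw [endP_append, D.arcα.1, D.arcπ.1, D.arcβ.1]

end D8

end NP
end Pool.Agent.Lib.MP_4a7072_co
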