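import Pool.Agent.Lib.MP_4a7072_co.HSimple

/-!
The long paths of the design with long arms.
-/

set_option autoImplicit false
set_option linter.unnecessarySeqFocus false

namespace Pool.Agent.Lib.MP_4a7072_co
namespace NP

theorem runE {x x' y : ℤ} (h : x ≤ x') : CArc (x, y) (List.replicate (x' - x).toNat 0) (x', y)
    fun X Y => Y = y ∧ x ≤ X ∧ X ≤ x' :=
  (CArc.line _ 0 (n := x' - x) (by omega)).mv rfl (by ext <;> simp [dv]) fun X Y ⟨i, g⟩ => by
    simp [dv] at g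
    omega

theorem runN {x y y' : ℤ} (h : y ≤ y') : CArc (x, y) (List.replicate (y' - y).toNat 1) (x, y')
    fun X Y => X = x ∧ y ≤ Y ∧ Y ≤ y' :=
  (CArc.line _ 1 (n := y' - y) (by omega)).mv rfl (by ext <;> simp [dv]) fun X Y ⟨i, g⟩ => by
    simp [dv] at g
    omega

theorem runS {x y y' : ℤ} (h : y' ≤ y) : CArc (x, y) (List.replicate (y - y').toNat 3) (x, y')
    fun X Y => X = x ∧ y' ≤ Y ∧ Y ≤ y :=
  (CArc.line _ 3 (n := y - y') (by omega)).mv rfl (by ext <;> simp [dv]) fun X Y ⟨i, g⟩ => by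
    simp [dv] at g
    omega

theorem CArc.ne {P Q : Pt} {w : List Dir} {A : ℤ → ℤ → Prop} (h : CArc P w Q A)
    (g : P.1 ≠ Q.1 ∨ P.2 ≠ Q.2) : w ≠ [] := by
  rintro rfl
  have : P = Q := h.1
  rw [this] at g
  omega

namespace P8

variable (p : P8)

theorem arcM1 : ∃ w, CArc (-p.a, p.a) w (0, p.a - 1 - p.N) p.EM1 := by
  have := p.aux
  refine ⟨_, (((runE (x' := -p.a + p.e) (by omega)).append (runS (y' := p.a - 1 - p.N) (by omega))
    fun X Y a b => ?_).append (runE (by omega)) fun X Y a b => ?_).mono fun X Y h => ?_⟩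
  · dsimp only; omega
  · dsimp only; omega
  · unfold EM1 Pc; omega

theorem wind {n : ℤ} (h : 1 ≤ n) (hn : n ≤ p.N) :
    ∃ w, CArc (0, p.a - 1 - p.N) w (p.off n - p.a - p.c - n + 1, p.a + n) fun X Y =>
      (0 ≤ X ∧ (X ≠ 0 ∨ Y = p.a - 1 - p.N) ∧ X ≤ p.off n - p.a - p.c - n + 1 ∧
        (Y < p.a + n ∨ (Y = p.a + n ∧ X = p.off n - p.a - p.c - n + 1))) ∧
      ∃ i, 0 ≤ i ∧ i < n ∧ p.Pc i (X - p.off i) Y := by
  have := p.aux
  have z := p.off_zero
  induction n, h using Int.leInduction with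
  | base =>
    have := p.off_succ 0
    rw [zero_add] at this
    refine ⟨_, ((runE (x' := p.off 1 - p.a - p.c - 1 + 1) (by omega)).append (runN (by omega))
      fun X Y a b => ?_).mono fun X Y h => ⟨by omega, 0, le_rfl, one_pos, ?_⟩⟩
    · dsimp only; omega
    · unfold Pc; omega
  | succ n h ih =>
    obtain ⟨w, ih⟩ := ih (by omega)
    have := p.off_succ n
    have := p.off_rel n 0
    refine ⟨_, ((((ih.append (runE (x' := p.off n - p.a + p.e + n) (by omega))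
      fun X Y a b => ?_).append (runS (y' := p.a - 1 - p.N + n) (by omega))
      fun X Y a b => ?_).append (runE (x' := p.off (n + 1) - p.a - p.c - (n + 1) + 1) (by omega))
      fun X Y a b => ?_).append (runN (by omega)) fun X Y a b => ?_).mono ?_⟩
    · have := a.1; dsimp only; omega
    · rcases a with ⟨a, -⟩ | a <;> dsimp only <;> omega
    · rcases a with (⟨a, -⟩ | a) | a <;> dsimp only <;> omega
    · rcases a with ((⟨a, -⟩ | a) | a) | a <;> dsimp only <;> omega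
    · rintro X Y ((((⟨a, i, b, c, d⟩ | a) | a) | a) | a)
      · exact ⟨by omega, i, b, by omega, d⟩
      all_goals exact ⟨by omega, n, by omega, by omega, by unfold Pc; omega⟩

/-- The second part of the path `L`. -/
theorem arcL2 : ∃ w H, p.EndL H ∧ CArc (0, p.a - 1 - p.N) w H fun X Y =>
    p.EL X Y ∧ 0 ≤ X ∧ (X ≠ 0 ∨ Y = p.a - 1 - p.N) := by
  have := p.aux
  have hc := p.hc'
  have z := p.off_zero
  have r := p.off_rel p.N 0
  obtain ⟨w, h⟩ := p.wind (by omega) le_rfl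
  rcases hc with ⟨k, hc⟩ | ⟨k, hc⟩
  · have h1 := (((h.append (runE (x' := p.off p.N - p.a + p.e + p.N) (by omega))
      fun X Y a b => by have := a.1; dsimp only; omega).append (runS (y' := p.a - 1) (by omega))
      fun X Y a b => by rcases a with ⟨a, -⟩ | a <;> dsimp only <;> omega).append
      (runE (x' := p.b - 2 * p.a - 1) (by omega))
      fun X Y a b => by rcases a with (⟨a, -⟩ | a) | a <;> dsimp only <;> omega).append
      (runN (y' := p.a) (by omega))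
      fun X Y a b => by rcases a with ((⟨a, -⟩ | a) | a) | a <;> dsimp only <;> omega
    have h2 := h1.mono (B := fun X Y => (p.EL X Y ∧ 0 ≤ X ∧ (X ≠ 0 ∨ Y = p.a - 1 - p.N)) ∧
        X ≤ p.b - 2 * p.a - 1) (by
      rintro X Y ((((⟨a, i, b, c, d⟩ | a) | a) | a) | a)
      · exact ⟨⟨.inl ⟨i, b, by omega, d, by omega⟩, by omega⟩, by omega⟩
      · exact ⟨⟨.inl ⟨p.N, by omega, le_rfl, by unfold Pc; omega, by omega⟩, by omega⟩, by omega⟩
      · exact ⟨⟨.inl ⟨p.N, by omega, le_rfl, by unfold Pc; omega, by omega⟩, by omega⟩, by omega⟩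
      · exact ⟨⟨.inl ⟨p.N, by omega, le_rfl, by unfold Pc; omega, by omega⟩, by omega⟩, by omega⟩
      · by_cases c : Y = p.a
        · exact ⟨⟨.inr (by omega), by omega⟩, by omega⟩
        · exact ⟨⟨.inl ⟨p.N, by omega, le_rfl, by unfold Pc; omega, by omega⟩, by omega⟩,
            by omega⟩)
    by_cases k1 : p.k = 1
    · refine ⟨_, _, .inl ⟨k1, rfl⟩, (h2.append (runE (by omega)) fun X Y a b => ?_).mono ?_⟩
      · have := a.2; dsimp only; omega
      · rintro X Y (a | a)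
        · exact a.1
        · exact ⟨.inr (by omega), by omega⟩
    · exact ⟨_, _, .inr (.inl ⟨by omega, rfl⟩), h2.mono fun X Y a => a.1⟩
  · refine ⟨_, _, .inr (.inr ⟨k, rfl⟩), (h.append (runE (by omega)) fun X Y a b => ?_).mono ?_⟩
    · have := a.1; dsimp only; omega
    · rintro X Y (⟨a, i, b, c, d⟩ | a)
      · exact ⟨.inl ⟨i, b, by omega, d, by omega⟩, by omega⟩
      · exact ⟨.inl ⟨p.N, by omega, le_rfl, by unfold Pc; omega, by omega⟩, by omega⟩

/-- The long paths. -/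
structure Wd (H : Pt) (L x y M1 M2 : List Dir) : Prop where
  hx : (p.k = 1 ∧ x = [] ∧ y ≠ []) ∨ ((p.k = 2 ∨ p.k = 3) ∧ x = [0] ∧ y = []) ∨
    (p.k = 4 ∧ x ≠ [])
  L_ne : L ≠ []
  M1_ne : M1 ≠ []
  M2_ne : M2 ≠ []
  eM : L ++ y = M1 ++ M2
  arcL : CArc (-p.a, p.a) L (endP (-p.a, p.a) L) p.EL
  endL : p.EndL (endP (-p.a, p.a) L)
  arcS : CArc (-p.a, p.a) (L ++ x) (p.b - 2 * p.a, p.a) p.ES
  arcM : CArc (-p.a, p.a) (L ++ y) H p.EM
  arcM1 : CArc (-p.a, p.a) M1 (0, p.a - 1 - p.N) p.EM1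
  arcM2 : CArc (0, p.a - 1 - p.N) M2 H p.EM2
  arcX : CArc (endP (-p.a, p.a) L) x (p.b - 2 * p.a, p.a) p.Ex
  arcY : CArc (endP (-p.a, p.a) L) y H p.Ey

theorem exists_wd (H : Pt) (hH : p.Hub H) : ∃ L x y M1 M2, p.Wd H L x y M1 M2 := by
  have := p.aux
  have hk := p.hk
  obtain ⟨M1, m1⟩ := p.arcM1
  obtain ⟨w, G, eG, m2⟩ := p.arcL2
  have l : CArc (-p.a, p.a) (M1 ++ w) G p.EL := by
    refine (m1.append m2 fun X Y a b => ?_).mono ?_
    · have := a.2; have := b.2; dsimp only; omega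
    · rintro X Y (a | a)
      · exact .inl ⟨0, le_rfl, by omega, by rw [off_zero, sub_zero]; exact a.1,
          by have := a.2; omega, by have := a.2; omega, by omega⟩
      · exact a.1
  have G' : (p.k = 1 ∧ G.1 = p.b - 2 * p.a ∧ G.2 = p.a) ∨
      ((p.k = 2 ∨ p.k = 3) ∧ G.1 = p.b - 2 * p.a - 1 ∧ G.2 = p.a) ∨
      (p.k = 4 ∧ G.1 = p.b - 2 * p.a ∧ G.2 = p.a + p.N) := by
    rcases eG with ⟨k, rfl⟩ | ⟨k, rfl⟩ | ⟨k, rfl⟩
    · exact .inl ⟨k, rfl, rfl⟩
    · exact .inr (.inl ⟨k, rfl, rfl⟩)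
    · exact .inr (.inr ⟨k, rfl, rfl⟩)
  obtain ⟨x, y, hx, aX, aY⟩ : ∃ x y, ((p.k = 1 ∧ x = [] ∧ y ≠ []) ∨
      ((p.k = 2 ∨ p.k = 3) ∧ x = [0] ∧ y = []) ∨ (p.k = 4 ∧ x ≠ [])) ∧
      CArc G x (p.b - 2 * p.a, p.a) p.Ex ∧ CArc G y H p.Ey := by
    rcases eG with ⟨k, rfl⟩ | ⟨k, rfl⟩ | ⟨k, rfl⟩
    · obtain ⟨-, rfl⟩ := hH.resolve_right (by omega)
      have h := runN (x := p.b - 2 * p.a) (y := p.a) (y' := p.a + p.g) (by omega)
      exact ⟨[], _, .inl ⟨k, rfl, h.ne (by dsimp only; omega)⟩, Arc.nil (.inl ⟨rfl, le_rfl, .inl rfl⟩),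
        h.mono fun X Y a => .inl (by omega)⟩
    · obtain ⟨-, rfl⟩ := hH.resolve_left (by omega)
      refine ⟨[0], [], .inr (.inl ⟨k, rfl, rfl⟩), (CArc.one _ 0).mv rfl (by ext <;> simp [dv])
        fun X Y h => ?_, Arc.nil (.inr ⟨k, rfl, rfl⟩)⟩
      simp [dv] at h
      unfold Ex
      omega
    · obtain ⟨-, rfl⟩ := hH.resolve_right (by omega)
      have h := runS (x := p.b - 2 * p.a) (y := p.a + p.N) (y' := p.a) (by omega)
      exact ⟨_, _, .inr (.inr ⟨k, h.ne (by dsimp only; omega)⟩),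
        h.mono fun X Y a => .inl (by omega),
        (runN (by omega)).mono fun X Y a => .inl (by omega)⟩
  have aM2 : CArc (0, p.a - 1 - p.N) (w ++ y) H p.EM2 := by
    refine (m2.append aY fun X Y a b => ?_).mono ?_
    · have := l_y a.1 b; omega
    · rintro X Y (a | a)
      · exact ⟨.inl a.1, a.2.1⟩
      · exact ⟨.inr a, by have := a.lin; omega⟩
  refine ⟨M1 ++ w, x, y, M1, w ++ y, hx, l.ne (by dsimp only; omega), m1.ne (by dsimp only; omega),
    List.append_ne_nil_of_left_ne_nil (m2.ne (by dsimp only; omega)) _, List.append_assoc _ _ _,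
    l.mv rfl l.1.symm fun _ _ h => h, by rw [l.1]; exact eG,
    l.append aX fun X Y a b => ?_, l.append aY fun X Y a b => ?_, m1, aM2,
    aX.mv l.1.symm rfl fun _ _ h => h, aY.mv l.1.symm rfl fun _ _ h => h⟩
  · have := l_x a b; omega
  · have := l_y a b; omega

theorem arcR : ∃ R', CArc (0, p.a - 1 - p.N) (3 :: R') (0, 0) p.ER := by
  have := p.aux
  have h := runS (x := 0) (y := p.a - 1 - p.N) (y' := 0) (by omega)
  obtain ⟨n, e⟩ : ∃ n, (p.a - 1 - p.N - 0).toNat = n + 1 := ⟨(p.a - 2 - p.N).toNat, by omega⟩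
  rw [e, List.replicate_succ] at h
  exact ⟨_, h.mono fun X Y a => ⟨a⟩⟩

end P8

end NP
end Pool.Agent.Lib.MP_4a7072_co
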