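import Pool.Agent.Lib.MP_4a7072_co.NDefs

/-!
Simple paths, their shadows, and nets.
-/

set_option autoImplicit false

namespace Pool.Agent.Lib.MP_4a7072_co
namespace NP

open RTree (endP_append edges_append endP_back back_cons endP_add edges_add verts_add)

/-! ### Shadows -/

theorem psi_add {k : ℤ} (hk : 0 < k) (x y : ℤ) : psi k (x + k * y) = psi k x + 2 * y := by
  unfold psi
  rw [Int.add_mul_ediv_left _ _ hk.ne', Int.add_mul_emod_self_left]
  ring

theorem psi_zero (k : ℤ) : psi k 0 = 0 := by simp [psi]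

theorem psi_mul {k : ℤ} (hk : 0 < k) (y : ℤ) : psi k (k * y) = 2 * y := by
  have := psi_add hk 0 y
  rwa [zero_add, psi_zero, zero_add] at this

theorem psi_mid {k j : ℤ} (h0 : 0 < j) (h1 : j < k) (y : ℤ) : psi k (k * y + j) = 2 * y + 1 := by
  rw [add_comm, psi_add (h0.trans h1)]
  unfold psi
  rw [Int.ediv_eq_zero_of_lt h0.le h1, Int.emod_eq_of_lt h0.le h1, if_neg h0.ne']
  ring

/-- Every number is a multiple of `k` or lies strictly between two consecutive multiples. -/
theorem psi_cases {k : ℤ} (hk : 0 < k) (x : ℤ) :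
    ∃ y, (x = k * y ∧ psi k x = 2 * y) ∨ (k * y < x ∧ x < k * y + k ∧ psi k x = 2 * y + 1) := by
  have h1 := Int.mul_ediv_add_emod x k
  have h2 := Int.emod_nonneg x hk.ne'
  have h3 := Int.emod_lt_of_pos x hk
  refine ⟨x / k, ?_⟩
  unfold psi
  split_ifs with h <;> omega

theorem psi_eq {k x y : ℤ} (hk : 0 < k) (h : psi k x = 2 * y) : x = k * y := by
  obtain ⟨z, ⟨h1, h2⟩ | ⟨-, -, h2⟩⟩ := psi_cases hk x
  · rw [h1, show z = y by omega]
  · omega

theorem psi_odd {k x y : ℤ} (hk : 0 < k) (h : psi k x = 2 * y + 1) :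
    k * y < x ∧ x < k * y + k := by
  obtain ⟨z, ⟨-, h2⟩ | ⟨h0, h1, h2⟩⟩ := psi_cases hk x
  · omega
  · rw [← show z = y by omega]
    exact ⟨h0, h1⟩

theorem psi_neg {k : ℤ} (hk : 0 < k) (x : ℤ) : psi k (-x) = -psi k x := by
  obtain ⟨z, ⟨h1, h2⟩ | ⟨h0, h1, h2⟩⟩ := psi_cases hk x
  · rw [h2, h1, ← mul_neg, psi_mul hk]
    ring
  · have := psi_mid (k := k) (j := k * z + k - x) (by omega) (by omega) (-z - 1)
    rw [show k * (-z - 1) + (k * z + k - x) = -x by ring] at this
    omega

theorem psi_succ {k : ℤ} (hk : 2 ≤ k) (x : ℤ) :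
    psi k (x + 1) = psi k x ∨ psi k (x + 1) = psi k x + 1 := by
  have hk0 : 0 < k := by omega
  obtain ⟨z, ⟨h1, h2⟩ | ⟨h0, h1, h2⟩⟩ := psi_cases hk0 x
  · right
    rw [h2, h1, psi_mid one_pos (by omega)]
  · rcases eq_or_lt_of_le (show x + 1 ≤ k * z + k from h1) with h | h
    · right
      rw [h, show k * z + k = k * (z + 1) by ring, psi_mul hk0]
      omega
    · left
      have := psi_mid (k := k) (j := x + 1 - k * z) (by omega) (by omega) z
      rw [add_sub_cancel] at this
      omega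

theorem psi_pred {k : ℤ} (hk : 2 ≤ k) (x : ℤ) :
    psi k (x - 1) = psi k x ∨ psi k (x - 1) = psi k x - 1 := by
  have := psi_succ hk (x - 1)
  rw [sub_add_cancel] at this
  omega

theorem psi_mono {k : ℤ} (hk : 2 ≤ k) {x y : ℤ} (h : x ≤ y) : psi k x ≤ psi k y := by
  induction y, h using Int.leInduction with
  | base => exact le_rfl
  | succ y _ ih => have := psi_succ hk y; omega

theorem smul_eq_of_psi {k : ℤ} (hk : 0 < k) {v q : Pt} (h1 : psi k v.1 = 2 * q.1)
    (h2 : psi k v.2 = 2 * q.2) : v = k • q :=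
  Prod.ext (psi_eq hk h1) (psi_eq hk h2)

/-! ### Words -/

theorem rot_append (t : Dir) (u v : List Dir) : rot t (u ++ v) = rot t u ++ rot t v :=
  List.map_append

theorem rot_zero (w : List Dir) : rot 0 w = w := by simp [rot]

theorem rot_rot (s t : Dir) (w : List Dir) : rot s (rot t w) = rot (t + s) w := by
  simp [rot]

theorem back_append (t : Dir) (u v : List Dir) : back t (u ++ v) = back t v ++ back t u := by
  simp [back]

theorem back_back (s t : Dir) (w : List Dir) : back s (back t w) = rot (t + s) w := by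
  have e : ∀ d s t : Dir, d + 2 + t + 2 + s = d + (t + s) := by decide
  simp [back, rot, Function.comp_def, e]

theorem rot_back (s t : Dir) (w : List Dir) : rot s (back t w) = back (t + s) w := by
  simp [back, rot, Function.comp_def, add_assoc]

theorem back_rot (s t : Dir) (w : List Dir) : back s (rot t w) = back (t + s) w := by
  have e : ∀ d s t : Dir, d + t + 2 + s = d + 2 + (t + s) := by decide
  simp [back, rot, Function.comp_def, e]

theorem rot_replicate (t d : Dir) (n : ℕ) :
    rot t (List.replicate n d) = List.replicate n (d + t) := by simp [rot]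

theorem back_replicate (t d : Dir) (n : ℕ) :
    back t (List.replicate n d) = List.replicate n (d + 2 + t) := by simp [back]

theorem length_rot (t : Dir) (w : List Dir) : (rot t w).length = w.length := by simp [rot]

theorem length_back (t : Dir) (w : List Dir) : (back t w).length = w.length := by simp [back]

theorem seg_self (E : ℤ → List Dir) (i : ℤ) : seg E i i = [] := by simp [seg]

theorem seg_succ (E : ℤ → List Dir) {i j : ℤ} (h : i ≤ j) : seg E i (j + 1) = seg E i j ++ E j := by
  have e : (j + 1 - i).toNat = (j - i).toNat + 1 := by omega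
  rw [seg, e, List.range_succ, List.flatMap_append, List.flatMap_singleton,
    show i + ((j - i).toNat : ℕ) = j by omega]
  rfl

theorem seg_one (E : ℤ → List Dir) (i : ℤ) : seg E i (i + 1) = E i := by
  rw [seg_succ E le_rfl, seg_self, List.nil_append]

theorem seg_append (E : ℤ → List Dir) {i j l : ℤ} (h : i ≤ j) (h' : j ≤ l) :
    seg E i l = seg E i j ++ seg E j l := by
  induction l, h' using Int.leInduction with
  | base => rw [seg_self, List.append_nil]
  | succ l hl ih => rw [seg_succ E (h.trans hl), seg_succ E hl, ih, List.append_assoc]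

theorem seg_shift {E : ℤ → List Dir} {s : ℤ} (h : ∀ l, E (l + s) = E l) (i j : ℤ) :
    seg E (i + s) (j + s) = seg E i j := by
  simp only [seg, add_sub_add_right_eq_sub, add_right_comm i s, h]

/-- A centre of rotation of the sequence of words. -/
theorem seg_sym {E : ℤ → List Dir} {c n : ℤ} {s : Dir} (hn : 0 ≤ n)
    (h : ∀ t, 0 ≤ t → t < n → E (c + t) = back s (E (c - 1 - t))) :
    seg E c (c + n) = back s (seg E (c - n) c) := by
  induction n, hn using Int.leInduction with
  | base => simp [seg_self, back]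
  | succ n hn ih =>
    rw [← add_assoc, seg_succ E (by omega), ih fun t a b => h t a (by omega), h n hn (by omega),
      seg_append E (i := c - (n + 1)) (j := c - n) (by omega) (by omega), back_append,
      show c - n = c - (n + 1) + 1 by ring, seg_one, show c - (n + 1) = c - 1 - n by ring]

theorem endP_rot (t : Dir) (c P : Pt) (w : List Dir) :
    endP (rotP t P + c) (rot t w) = rotP t (endP P w) + c := by
  induction w generalizing P with
  | nil => rfl
  | cons d w ih =>
    change endP (rotP t P + c + dv (d + t)) (rot t w) = _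
    rw [add_right_comm, ← rotP_dv, ← rotP_add, ih]
    rfl

theorem endP_replicate (P : Pt) (d : Dir) (n : ℕ) :
    endP P (List.replicate n d) = P + (n : ℤ) • dv d := by
  induction n generalizing P with
  | zero => simp [endP]
  | succ n ih =>
    rw [List.replicate_succ, endP, ih, Nat.cast_succ, add_smul, one_smul]
    abel

/-! ### Arcs -/

/-- All points of the path, end point included. -/
def pts (P : Pt) (w : List Dir) : List Pt := verts P w ++ [endP P w]

theorem pts_nil (P : Pt) : pts P [] = [P] := rfl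

theorem pts_cons (P : Pt) (d : Dir) (w : List Dir) : pts P (d :: w) = P :: pts (P + dv d) w := rfl

theorem verts_append (P : Pt) (u v : List Dir) :
    verts P (u ++ v) = verts P u ++ verts (endP P u) v := by
  simp only [verts, edges_append, List.map_append]

theorem pts_append (P : Pt) (u v : List Dir) :
    pts P (u ++ v) = verts P u ++ pts (endP P u) v := by
  simp only [pts, verts_append, endP_append, List.append_assoc]

theorem start_mem_pts (P : Pt) (w : List Dir) : P ∈ pts P w := by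
  cases w <;> exact List.mem_cons_self

theorem pts_back (P : Pt) (w : List Dir) : pts (endP P w) (back 0 w) = (pts P w).reverse := by
  induction w generalizing P with
  | nil => rfl
  | cons d w ih =>
    rw [back_cons, pts_append, pts_cons P, List.reverse_cons, ← ih, endP, endP_back, pts,
      pts, endP_back]
    simp [verts, edges, endP, dv_add_two]

theorem pts_rot (t : Dir) (c P : Pt) (w : List Dir) :
    pts (rotP t P + c) (rot t w) = (pts P w).map fun z => rotP t z + c := by
  induction w generalizing P with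
  | nil => rfl
  | cons d w ih =>
    change _ :: pts (rotP t P + c + dv (d + t)) (rot t w) = _
    rw [add_right_comm, ← rotP_dv, ← rotP_add, ih]
    rfl

theorem arc_iff {P Q : Pt} {w : List Dir} {E : Pt → Prop} :
    Arc P w Q E ↔ endP P w = Q ∧ (pts P w).Nodup ∧ ∀ v ∈ pts P w, E v := by
  constructor <;> rintro ⟨rfl, h⟩ <;> exact ⟨rfl, h⟩

variable {P Q R : Pt} {u v w : List Dir} {E F : Pt → Prop}

theorem Arc.nil (h : E P) : Arc P [] P E :=
  ⟨rfl, List.nodup_singleton _, fun _ hv => List.mem_singleton.1 hv ▸ h⟩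

theorem Arc.mono (h : Arc P w Q E) (hE : ∀ z, E z → F z) : Arc P w Q F :=
  ⟨h.1, h.2.1, fun z hz => hE z (h.2.2 z hz)⟩

theorem Arc.start (h : Arc P w Q E) : E P := (arc_iff.1 h).2.2 _ (start_mem_pts _ _)

theorem Arc.stop (h : Arc P w Q E) : E Q := h.2.2 _ (List.mem_append_right _ List.mem_cons_self)

/-- The points of the arc are an admissible predicate. -/
theorem Arc.exact (h : Arc P w Q E) : Arc P w Q fun z => z ∈ pts P w ∧ E z := by
  rw [arc_iff] at h ⊢
  exact ⟨h.1, h.2.1, fun z hz => ⟨hz, h.2.2 z hz⟩⟩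

theorem Arc.append (h : Arc P u Q E) (h' : Arc Q v R F) (hd : ∀ z, E z → F z → z = Q) :
    Arc P (u ++ v) R fun z => E z ∨ F z := by
  obtain ⟨rfl, h1, h2⟩ := h
  obtain ⟨rfl, g1, g2⟩ := arc_iff.1 h'
  rw [arc_iff, pts_append]
  obtain ⟨n1, -, n2⟩ := List.nodup_append.1 h1
  refine ⟨endP_append _ _ _, List.nodup_append.2 ⟨n1, g1, fun a ha b hb e => ?_⟩, fun z hz => ?_⟩
  · subst e
    exact n2 a ha _ List.mem_cons_self (hd a (h2 a (List.mem_append_left _ ha)) (g2 a hb))
  · exact (List.mem_append.1 hz).imp (fun a => h2 z (List.mem_append_left _ a)) (g2 z)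

theorem Arc.left (h : Arc P (u ++ v) R E) : Arc P u (endP P u) E := by
  obtain ⟨-, h1, h2⟩ := arc_iff.1 h
  rw [pts_append] at h1 h2
  have s : (verts P u ++ [endP P u]).Sublist (verts P u ++ pts (endP P u) v) :=
    (List.singleton_sublist.2 (start_mem_pts _ _)).append_left _
  exact ⟨rfl, h1.sublist s, fun z hz => h2 z (s.subset hz)⟩

theorem Arc.right (h : Arc P (u ++ v) R E) :
    Arc (endP P u) v R fun z => E z ∧ z ∉ verts P u := by
  obtain ⟨h0, h1, h2⟩ := arc_iff.1 h
  rw [pts_append] at h1 h2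
  obtain ⟨-, n1, n2⟩ := List.nodup_append.1 h1
  exact arc_iff.2 ⟨by rw [← endP_append, h0], n1,
    fun z hz => ⟨h2 z (List.mem_append_right _ hz), fun a => n2 z a z hz rfl⟩⟩

theorem Arc.back (h : Arc P w Q E) : Arc Q (back 0 w) P E := by
  obtain ⟨rfl, h1, h2⟩ := arc_iff.1 h
  rw [arc_iff, pts_back]
  exact ⟨endP_back _ _, List.nodup_reverse.2 h1, fun z hz => h2 z (List.mem_reverse.1 hz)⟩

theorem rotP_neg_rotP (t : Dir) (z : Pt) : rotP (-t) (rotP t z) = z := by
  rw [rotP_rotP, add_neg_cancel, rotP_zero]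

theorem Arc.rot (h : Arc P w Q E) (t : Dir) (c : Pt) :
    Arc (rotP t P + c) (rot t w) (rotP t Q + c) fun z => E (rotP (-t) (z - c)) := by
  obtain ⟨rfl, h1, h2⟩ := arc_iff.1 h
  rw [arc_iff, pts_rot]
  refine ⟨endP_rot _ _ _ _, h1.map fun a b e => ?_, fun z hz => ?_⟩
  · rw [← rotP_neg_rotP t a, add_right_cancel e, rotP_neg_rotP]
  · obtain ⟨y, hy, rfl⟩ := List.mem_map.1 hz
    rw [add_sub_cancel_right, rotP_neg_rotP]
    exact h2 y hy

theorem Arc.shift (h : Arc P w Q E) (c : Pt) : Arc (P + c) w (Q + c) fun z => E (z - c) := by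
  have := h.rot 0 c
  rwa [rot_zero] at this

theorem Arc.line (P : Pt) (d : Dir) (n : ℕ) :
    Arc P (List.replicate n d) (P + (n : ℤ) • dv d)
      fun z => ∃ i : ℤ, 0 ≤ i ∧ i ≤ n ∧ z = P + i • dv d := by
  induction n with
  | zero => simpa using Arc.nil ⟨0, le_rfl, le_rfl, by simp⟩
  | succ n ih =>
    have h : Arc (P + (n : ℤ) • dv d) [d] (P + ((n + 1 : ℕ) : ℤ) • dv d)
        fun z => z = P + (n : ℤ) • dv d ∨ z = P + ((n + 1 : ℕ) : ℤ) • dv d := by
      refine ⟨by simp [endP, add_smul, add_assoc], ?_, by simp [verts, edges]⟩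
      rcases dir_cases d with rfl | rfl | rfl | rfl <;> simp [verts, edges, dv]
    rw [List.replicate_succ']
    refine (ih.append h ?_).mono ?_
    · rintro z ⟨i, h0, h1, rfl⟩ (e | e)
      · exact e
      · exfalso
        rcases dir_cases d with rfl | rfl | rfl | rfl <;> simp [dv] at e <;> omega
    · rintro z (⟨i, h0, h1, rfl⟩ | rfl | rfl)
      · exact ⟨i, h0, by omega, rfl⟩
      · exact ⟨n, by omega, by omega, rfl⟩
      · exact ⟨_, by omega, le_rfl, rfl⟩

theorem Arc.seg {c : ℤ → Pt} {W : ℤ → List Dir} {V : ℤ → Pt → Prop} {i j : ℤ} (hij : i ≤ j)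
    (h : ∀ l, i ≤ l → l < j → Arc (c l) (W l) (c (l + 1)) (V l))
    (hd : ∀ l l' z, i ≤ l → l < l' → l' < j → V l z → V l' z → z = c l')
    (hc : ∀ l, i < l → l < j → ¬V l (c i)) :
    Arc (c i) (seg W i j) (c j) fun z => z = c i ∨ ∃ l, i ≤ l ∧ l < j ∧ V l z := by
  induction j, hij using Int.leInduction with
  | base => rw [seg_self]; exact Arc.nil (Or.inl rfl)
  | succ j hj ih =>
    rw [seg_succ W hj]
    refine ((ih (fun l a b => h l a (by omega)) (fun l l' z a b d => hd l l' z a b (by omega))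
      fun l a b => hc l a (by omega)).append (h j hj (by omega)) ?_).mono ?_
    · rintro z (rfl | ⟨l, a, b, d⟩) e
      · rcases eq_or_lt_of_le hj with rfl | hlt
        · rfl
        · exact absurd e (hc j hlt (by omega))
      · exact hd l j z a b (by omega) d e
    · rintro z ((e | ⟨l, a, b, d⟩) | e)
      · exact Or.inl e
      · exact Or.inr ⟨l, a, by omega, d⟩
      · exact Or.inr ⟨j, hj, by omega, e⟩

theorem Arc.simple (h : Arc P u Q E) (h' : Arc Q v P F) (hd : ∀ z, E z → F z → z = P ∨ z = Q)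
    (hl : 2 < (u ++ v).length) : Simple P (u ++ v) ∧ ∀ z ∈ verts P (u ++ v), E z ∨ F z := by
  obtain ⟨rfl, h1, h2⟩ := h
  obtain ⟨g0, g1, g2⟩ := h'
  obtain ⟨n1, -, n2⟩ := List.nodup_append.1 h1
  obtain ⟨m1, -, m2⟩ := List.nodup_append.1 g1
  rw [Simple, verts_append]
  refine ⟨⟨by rw [endP_append, g0], List.nodup_append.2 ⟨n1, m1, fun a ha b hb e => ?_⟩, hl⟩,
    fun z hz => ?_⟩
  · subst e
    rcases hd a (h2 a (List.mem_append_left _ ha)) (g2 a (List.mem_append_left _ hb)) with e | e
    · exact m2 a hb _ List.mem_cons_self e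
    · exact n2 a ha _ List.mem_cons_self e
  · exact (List.mem_append.1 hz).imp (fun a => h2 z (List.mem_append_left _ a))
      fun a => g2 z (List.mem_append_left _ a)

/-! ### Arcs described by their shadows -/

section Shadow

variable {k : ℤ} {p q r : Pt} {A B : ℤ → ℤ → Prop}

theorem SArc.mono (h : SArc k p w q A) (hA : ∀ X Y, A X Y → B X Y) : SArc k p w q B :=
  Arc.mono h fun _ => hA _ _

theorem SArc.back (h : SArc k p w q A) : SArc k q (back 0 w) p A := Arc.back h

theorem SArc.append (hk : 0 < k) (h : SArc k p u q A) (h' : SArc k q v r B)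
    (hd : ∀ X Y, A X Y → B X Y → X = 2 * q.1 ∧ Y = 2 * q.2) :
    SArc k p (u ++ v) r fun X Y => A X Y ∨ B X Y :=
  Arc.append h h' fun _ a b => smul_eq_of_psi hk (hd _ _ a b).1 (hd _ _ a b).2

theorem SArc.cast {p' q' : Pt} (h : SArc k p w q A) (e : p = p') (e' : q = q') :
    SArc k p' w q' A := e ▸ e' ▸ h

theorem psi_sub {k : ℤ} (hk : 0 < k) (x y : ℤ) : psi k (x - k * y) = psi k x - 2 * y := by
  have := psi_add hk x (-y)
  rwa [mul_neg, mul_neg, ← sub_eq_add_neg, ← sub_eq_add_neg] at this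

theorem psi_sub' {k : ℤ} (hk : 0 < k) (x y : ℤ) : psi k (k * y - x) = 2 * y - psi k x := by
  rw [← neg_sub, psi_neg hk, psi_sub hk, neg_sub]

theorem rotP_smul (t : Dir) (k : ℤ) (z : Pt) : rotP t (k • z) = k • rotP t z := by
  rcases dir_cases t with rfl | rfl | rfl | rfl <;> ext <;> simp [rotP]

theorem SArc.shift (hk : 0 < k) (h : SArc k p w q A) (c : Pt) :
    SArc k (p + c) w (q + c) fun X Y => A (X - 2 * c.1) (Y - 2 * c.2) := by
  have := Arc.shift h (k • c)
  rw [← smul_add, ← smul_add] at this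
  refine this.mono fun z hz => ?_
  simpa only [Prod.fst_sub, Prod.snd_sub, Prod.smul_fst, Prod.smul_snd, smul_eq_mul, psi_sub hk]
    using hz

theorem SArc.rot1 (hk : 0 < k) (h : SArc k p w q A) (c : Pt) :
    SArc k (rotP 1 p + c) (rot 1 w) (rotP 1 q + c) fun X Y => A (Y - 2 * c.2) (2 * c.1 - X) := by
  have := Arc.rot h 1 (k • c)
  rw [rotP_smul, rotP_smul, ← smul_add, ← smul_add] at this
  refine this.mono fun z hz => ?_
  have e : rotP (-1) (z - k • c) = (z.2 - k * c.2, k * c.1 - z.1) := by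
    change rotP 3 _ = _
    ext <;> simp [rotP]
  simpa only [e, psi_sub hk, psi_sub' hk] using hz

theorem SArc.rot2 (hk : 0 < k) (h : SArc k p w q A) (c : Pt) :
    SArc k (rotP 2 p + c) (rot 2 w) (rotP 2 q + c) fun X Y => A (2 * c.1 - X) (2 * c.2 - Y) := by
  have := Arc.rot h 2 (k • c)
  rw [rotP_smul, rotP_smul, ← smul_add, ← smul_add] at this
  refine this.mono fun z hz => ?_
  have e : rotP (-2) (z - k • c) = (k * c.1 - z.1, k * c.2 - z.2) := by
    change rotP 2 _ = _
    ext <;> simp [rotP]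
  simpa only [e, psi_sub hk, psi_sub' hk] using hz

theorem SArc.rot3 (hk : 0 < k) (h : SArc k p w q A) (c : Pt) :
    SArc k (rotP 3 p + c) (rot 3 w) (rotP 3 q + c) fun X Y => A (2 * c.2 - Y) (X - 2 * c.1) := by
  have := Arc.rot h 3 (k • c)
  rw [rotP_smul, rotP_smul, ← smul_add, ← smul_add] at this
  refine this.mono fun z hz => ?_
  have e : rotP (-3) (z - k • c) = (k * c.2 - z.2, z.1 - k * c.1) := by
    change rotP 1 _ = _
    ext <;> simp [rotP]
  simpa only [e, psi_sub hk, psi_sub' hk] using hz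

theorem SArc.seg (hk : 0 < k) {c : ℤ → Pt} {W : ℤ → List Dir} {V : ℤ → ℤ → ℤ → Prop} {i j : ℤ}
    (hij : i ≤ j) (h : ∀ l, i ≤ l → l < j → SArc k (c l) (W l) (c (l + 1)) (V l))
    (hd : ∀ l l' X Y, i ≤ l → l < l' → l' < j → V l X Y → V l' X Y →
      X = 2 * (c l').1 ∧ Y = 2 * (c l').2)
    (hc : ∀ l, i < l → l < j → ¬V l (2 * (c i).1) (2 * (c i).2)) :
    SArc k (c i) (seg W i j) (c j) fun X Y =>
      (X = 2 * (c i).1 ∧ Y = 2 * (c i).2) ∨ ∃ l, i ≤ l ∧ l < j ∧ V l X Y := by
  refine (Arc.seg (c := fun l => k • c l) (V := fun l v => V l (psi k v.1) (psi k v.2)) hij h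
    (fun l l' z a b d e f => ?_) fun l a b => ?_).mono ?_
  · exact smul_eq_of_psi hk (hd _ _ _ _ a b d e f).1 (hd _ _ _ _ a b d e f).2
  · simpa only [Prod.smul_fst, Prod.smul_snd, smul_eq_mul, psi_mul hk] using hc l a b
  · rintro z (rfl | e)
    · exact Or.inl ⟨psi_mul hk _, psi_mul hk _⟩
    · exact Or.inr e

theorem SArc.simple (hk : 0 < k) (h : SArc k p u q A) (h' : SArc k q v p B)
    (hd : ∀ X Y, A X Y → B X Y → (X = 2 * p.1 ∧ Y = 2 * p.2) ∨ (X = 2 * q.1 ∧ Y = 2 * q.2))
    (hl : 2 < (u ++ v).length) : Simple (k • p) (u ++ v) ∧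
      ∀ z ∈ verts (k • p) (u ++ v), A (psi k z.1) (psi k z.2) ∨ B (psi k z.1) (psi k z.2) :=
  Arc.simple h h' (fun _ a b => (hd _ _ a b).imp (fun e => smul_eq_of_psi hk e.1 e.2)
    fun e => smul_eq_of_psi hk e.1 e.2) hl

end Shadow

end NP
end Pool.Agent.Lib.MP_4a7072_co
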