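import Pool.Agent.Lib.MP_4a7072_co.NWDefs

/-!
The connecting path: an explicit staircase in doubled coordinates, and its lift to scale `k`.
-/

set_option autoImplicit false

namespace Pool.Agent.Lib.MP_4a7072_co
namespace NP
namespace Stair

/-! ### Lifting a path along sections of the shadow map -/

section Lift

variable {k : ℤ} {f g : ℤ → ℤ}

theorem dv_cases (d : Dir) : ((dv d).1 = 1 ∧ (dv d).2 = 0) ∨ ((dv d).1 = 0 ∧ (dv d).2 = 1) ∨
    ((dv d).1 = -1 ∧ (dv d).2 = 0) ∨ ((dv d).1 = 0 ∧ (dv d).2 = -1) := by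
  revert d; decide

theorem sec_lt (hk : 2 ≤ k) (hf : ∀ x, psi k (f x) = x) {x y : ℤ} (h : x < y) : f x < f y := by
  by_contra c
  have := psi_mono hk (not_lt.1 c)
  rw [hf, hf] at this
  omega

theorem sec_le (hk : 2 ≤ k) (hf : ∀ x, psi k (f x) = x) {x y t : ℤ} (h : f x ≤ t) (h' : t ≤ f y) :
    x ≤ y := by
  have := psi_mono hk (h.trans h')
  rwa [hf, hf] at this

/-- The point `v` lies on the lift of the step `d` from `z`. -/
def On (f g : ℤ → ℤ) (z : Pt) (d : Dir) (v : Pt) : Prop :=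
  f (min z.1 (z.1 + (dv d).1)) ≤ v.1 ∧ v.1 ≤ f (max z.1 (z.1 + (dv d).1)) ∧
    g (min z.2 (z.2 + (dv d).2)) ≤ v.2 ∧ v.2 ≤ g (max z.2 (z.2 + (dv d).2))

theorem On.shadow (hk : 2 ≤ k) (hf : ∀ x, psi k (f x) = x) (hg : ∀ x, psi k (g x) = x)
    {z v : Pt} {d : Dir} (h : On f g z d v) :
    (psi k v.1, psi k v.2) = z ∨ (psi k v.1, psi k v.2) = z + dv d := by
  obtain ⟨h1, h2, h3, h4⟩ := h
  have a1 := psi_mono hk h1
  have a2 := psi_mono hk h2
  have a3 := psi_mono hk h3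
  have a4 := psi_mono hk h4
  rw [hf] at a1 a2
  rw [hg] at a3 a4
  have := dv_cases d
  simp only [Prod.ext_iff, Prod.fst_add, Prod.snd_add]
  omega

theorem meet_int {x y a b x' y' a' b' : ℤ}
    (c : (a = 1 ∧ b = 0) ∨ (a = 0 ∧ b = 1) ∨ (a = -1 ∧ b = 0) ∨ (a = 0 ∧ b = -1))
    (c' : (a' = 1 ∧ b' = 0) ∨ (a' = 0 ∧ b' = 1) ∨ (a' = -1 ∧ b' = 0) ∨ (a' = 0 ∧ b' = -1))
    (a1 : min x (x + a) ≤ max x' (x' + a')) (a2 : min x' (x' + a') ≤ max x (x + a))
    (a3 : min y (y + b) ≤ max y' (y' + b')) (a4 : min y' (y' + b') ≤ max y (y + b))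
    (n1 : ¬x = x' ∨ ¬y = y') (n2 : ¬x = x' + a' ∨ ¬y = y' + b') :
    (x + a = min x (x + a) ∨ x + a = min x' (x' + a')) ∧
      (x + a = max x (x + a) ∨ x + a = max x' (x' + a')) ∧
      (y + b = min y (y + b) ∨ y + b = min y' (y' + b')) ∧
      (y + b = max y (y + b) ∨ y + b = max y' (y' + b')) := by
  rcases c with ⟨rfl, rfl⟩ | ⟨rfl, rfl⟩ | ⟨rfl, rfl⟩ | ⟨rfl, rfl⟩ <;>
    rcases c' with ⟨rfl, rfl⟩ | ⟨rfl, rfl⟩ | ⟨rfl, rfl⟩ | ⟨rfl, rfl⟩ <;>
    simp only [add_zero, min_self, max_self, true_or, and_true, true_and] at a1 a2 a3 a4 n2 ⊢ <;>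
    omega

theorem On.meet (hk : 2 ≤ k) (hf : ∀ x, psi k (f x) = x) (hg : ∀ x, psi k (g x) = x)
    {z u v : Pt} {d e : Dir} (h : On f g z d v) (h' : On f g u e v) (n1 : z ≠ u)
    (n2 : z ≠ u + dv e) : v = (f (z + dv d).1, g (z + dv d).2) := by
  obtain ⟨h1, h2, h3, h4⟩ := h
  obtain ⟨g1, g2, g3, g4⟩ := h'
  have a1 := sec_le hk hf h1 g2
  have a2 := sec_le hk hf g1 h2
  have a3 := sec_le hk hg h3 g4
  have a4 := sec_le hk hg g3 h4
  simp only [ne_eq, Prod.ext_iff, Prod.fst_add, Prod.snd_add, not_and_or] at n1 n2 ⊢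
  obtain ⟨b1, b2, b3, b4⟩ := meet_int (dv_cases d) (dv_cases e) a1 a2 a3 a4 n1 n2
  refine ⟨le_antisymm ?_ ?_, le_antisymm ?_ ?_⟩
  · rcases b2 with b | b
    · exact h2.trans (congrArg f b).ge
    · exact g2.trans (congrArg f b).ge
  · rcases b1 with b | b
    · exact (congrArg f b).le.trans h1
    · exact (congrArg f b).le.trans g1
  · rcases b4 with b | b
    · exact h4.trans (congrArg g b).ge
    · exact g4.trans (congrArg g b).ge
  · rcases b3 with b | b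
    · exact (congrArg g b).le.trans h3
    · exact (congrArg g b).le.trans g3

theorem edge_pts {P : Pt} {w : List Dir} {e : Pt × Dir} (h : e ∈ edges P w) :
    e.1 ∈ pts P w ∧ e.1 + dv e.2 ∈ pts P w := by
  induction w generalizing P with
  | nil => cases h
  | cons d w ih =>
    rw [pts_cons]
    rcases List.mem_cons.1 h with rfl | h
    · exact ⟨List.mem_cons_self, List.mem_cons_of_mem _ (start_mem_pts _ _)⟩
    · exact ⟨List.mem_cons_of_mem _ (ih h).1, List.mem_cons_of_mem _ (ih h).2⟩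

/-- The point `v` lies on the lift of the path. -/
def Cov (f g : ℤ → ℤ) (z : Pt) (w : List Dir) (v : Pt) : Prop :=
  v = (f z.1, g z.2) ∨ ∃ e ∈ edges z w, On f g e.1 e.2 v

theorem Cov.shadow (hk : 2 ≤ k) (hf : ∀ x, psi k (f x) = x) (hg : ∀ x, psi k (g x) = x)
    {z v : Pt} {w : List Dir} (h : Cov f g z w v) : (psi k v.1, psi k v.2) ∈ pts z w := by
  rcases h with rfl | ⟨e, he, h⟩
  · simp only [hf, hg]
    exact start_mem_pts _ _
  · rcases h.shadow hk hf hg with c | c <;> rw [c]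
    · exact (edge_pts he).1
    · exact (edge_pts he).2

theorem lift_cons (hk : 2 ≤ k) (hf : ∀ x, psi k (f x) = x) (hg : ∀ x, psi k (g x) = x)
    {z Q : Pt} {d : Dir} {w w' : List Dir} {n : ℕ}
    (hn : (f z.1, g z.2) + (n : ℤ) • dv d = (f (z + dv d).1, g (z + dv d).2))
    (hz : z ∉ pts (z + dv d) w)
    (h : Arc (f (z + dv d).1, g (z + dv d).2) w' Q (Cov f g (z + dv d) w)) :
    Arc (f z.1, g z.2) (List.replicate n d ++ w') Q (Cov f g z (d :: w)) := by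
  have l := Arc.line (f z.1, g z.2) d n
  rw [hn] at l
  have l' : Arc (f z.1, g z.2) (List.replicate n d) (f (z + dv d).1, g (z + dv d).2)
      (On f g z d) := by
    refine l.mono ?_
    rintro v ⟨i, h0, h1, rfl⟩
    simp only [Prod.ext_iff, Prod.fst_add, Prod.snd_add, Prod.smul_fst, Prod.smul_snd,
      smul_eq_mul] at hn
    obtain ⟨n1, n2⟩ := hn
    unfold On
    simp only [Prod.fst_add, Prod.snd_add, Prod.smul_fst, Prod.smul_snd, smul_eq_mul]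
    rcases dv_cases d with ⟨a, b⟩ | ⟨a, b⟩ | ⟨a, b⟩ | ⟨a, b⟩ <;> rw [a] at n1 <;> rw [b] at n2 <;>
      rw [a, b]
    · rw [min_eq_left (by omega), max_eq_right (by omega), add_zero, min_self, max_self]
      omega
    · rw [add_zero, min_self, max_self, min_eq_left (by omega), max_eq_right (by omega)]
      omega
    · rw [min_eq_right (by omega), max_eq_left (by omega), add_zero, min_self, max_self]
      omega
    · rw [add_zero, min_self, max_self, min_eq_right (by omega), max_eq_left (by omega)]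
      omega
  refine (l'.append h ?_).mono ?_
  · rintro v a (b | ⟨e, he, b⟩)
    · exact b
    · exact a.meet hk hf hg b (fun c => hz (c ▸ (edge_pts he).1)) fun c =>
        hz (c ▸ (edge_pts he).2)
  · rintro v (a | rfl | ⟨e, he, b⟩)
    · exact Or.inr ⟨(z, d), List.mem_cons_self, a⟩
    · exact Or.inr ⟨(z, d), List.mem_cons_self, l'.stop⟩
    · exact Or.inr ⟨e, List.mem_cons_of_mem _ he, b⟩

theorem exists_len (hk : 2 ≤ k) (hf : ∀ x, psi k (f x) = x) (hg : ∀ x, psi k (g x) = x)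
    (z : Pt) (d : Dir) :
    ∃ n : ℕ, (f z.1, g z.2) + (n : ℤ) • dv d = (f (z + dv d).1, g (z + dv d).2) := by
  simp only [Prod.ext_iff, Prod.fst_add, Prod.snd_add, Prod.smul_fst, Prod.smul_snd, smul_eq_mul]
  rcases dv_cases d with ⟨a, b⟩ | ⟨a, b⟩ | ⟨a, b⟩ | ⟨a, b⟩ <;> rw [a, b] <;> simp only [add_zero]
  · have := sec_lt hk hf (show z.1 < z.1 + 1 by omega)
    exact ⟨(f (z.1 + 1) - f z.1).toNat, by omega, by omega⟩
  · have := sec_lt hk hg (show z.2 < z.2 + 1 by omega)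
    exact ⟨(g (z.2 + 1) - g z.2).toNat, by omega, by omega⟩
  · have := sec_lt hk hf (show z.1 + -1 < z.1 by omega)
    exact ⟨(f z.1 - f (z.1 + -1)).toNat, by omega, by omega⟩
  · have := sec_lt hk hg (show z.2 + -1 < z.2 by omega)
    exact ⟨(g z.2 - g (z.2 + -1)).toNat, by omega, by omega⟩

theorem lift (hk : 2 ≤ k) (hf : ∀ x, psi k (f x) = x) (hg : ∀ x, psi k (g x) = x)
    (w : List Dir) (z : Pt) (h : (pts z w).Nodup) :
    ∃ w', Arc (f z.1, g z.2) w' (f (endP z w).1, g (endP z w).2) (Cov f g z w) := by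
  induction w generalizing z with
  | nil => exact ⟨[], Arc.nil (Or.inl rfl)⟩
  | cons d w ih =>
    rw [pts_cons, List.nodup_cons] at h
    obtain ⟨w', hw⟩ := ih _ h.2
    obtain ⟨n, hn⟩ := exists_len hk hf hg z d
    exact ⟨_, lift_cons hk hf hg hn h.1 hw⟩

end Lift

/-- There is a simple path from `(x, y)` to `(x', y')` all of whose points satisfy `E`. -/
def Ar (x y x' y' : ℤ) (E : ℤ → ℤ → Prop) : Prop :=
  ∃ w, Arc (x, y) w (x', y') fun z => E z.1 z.2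

theorem lift_first {k : ℤ} {f g : ℤ → ℤ} (hk : 2 ≤ k) (hf : ∀ x, psi k (f x) = x)
    (hg : ∀ x, psi k (g x) = x) {x y x' y' : ℤ} {d : Dir} {n : ℕ} {E : ℤ → ℤ → Prop}
    (hn : (f x, g y) + (n : ℤ) • dv d = (f (x + (dv d).1), g (y + (dv d).2)))
    (h : Ar (x + (dv d).1) (y + (dv d).2) x' y' E) (hz : ¬E x y) :
    ∃ pi, Arc (f x, g y) (List.replicate n d ++ pi) (f x', g y') fun v =>
      (psi k v.1 = x ∧ psi k v.2 = y) ∨ E (psi k v.1) (psi k v.2) := by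
  obtain ⟨w, hw⟩ := h
  obtain ⟨h0, h1, h2⟩ := arc_iff.1 hw
  obtain ⟨w', hw'⟩ := lift hk hf hg w _ h1
  rw [h0] at hw'
  refine ⟨w', (lift_cons hk hf hg (z := (x, y)) (w := w) hn (fun c => hz (h2 _ c)) hw').mono ?_⟩
  intro v hv
  have := hv.shadow hk hf hg
  rw [pts_cons] at this
  rcases List.mem_cons.1 this with c | c
  · exact Or.inl (Prod.ext_iff.1 c)
  · exact Or.inr (h2 _ c)

/-- A section of the shadow map. -/
def phi (k h x : ℤ) : ℤ := k * (x / 2) + x % 2 * h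

theorem psi_phi {k h : ℤ} (h0 : 0 < h) (h1 : h < k) (x : ℤ) : psi k (phi k h x) = x := by
  unfold phi
  rcases Int.emod_two_eq_zero_or_one x with c | c <;> rw [c]
  · rw [zero_mul, add_zero, psi_mul (h0.trans h1)]
    omega
  · rw [one_mul, psi_mid h0 h1]
    omega

theorem phi_even (k h y : ℤ) : phi k h (2 * y) = k * y := by
  unfold phi
  rw [show 2 * y / 2 = y by omega, show 2 * y % 2 = 0 by omega]
  ring

theorem phi_odd (k h y : ℤ) : phi k h (2 * y + 1) = k * y + h := by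
  unfold phi
  rw [show (2 * y + 1) / 2 = y by omega, show (2 * y + 1) % 2 = 1 by omega]
  ring

/-! ### Paths described by their points -/

section Paths

variable {x y x' y' x'' y'' : ℤ} {A B : ℤ → ℤ → Prop}

theorem Ar.mono (h : Ar x y x' y' A) (hA : ∀ X Y, A X Y → B X Y) : Ar x y x' y' B :=
  h.imp fun _ hw => hw.mono fun _ => hA _ _

theorem Ar.cast {u v u' v' : ℤ} (h : Ar x y x' y' A) (e1 : x = u) (e2 : y = v) (e3 : x' = u')
    (e4 : y' = v') : Ar u v u' v' A := e1 ▸ e2 ▸ e3 ▸ e4 ▸ h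

theorem Ar.start (h : Ar x y x' y' A) : A x y := h.elim fun _ hw => hw.start

theorem Ar.stop (h : Ar x y x' y' A) : A x' y' := h.elim fun _ hw => hw.stop

theorem Ar.nil (h : A x y) : Ar x y x y A := ⟨[], Arc.nil h⟩

theorem Ar.trans (h : Ar x y x' y' A) (h' : Ar x' y' x'' y'' B)
    (hd : ∀ X Y, A X Y → B X Y → X = x' ∧ Y = y') :
    Ar x y x'' y'' fun X Y => A X Y ∨ B X Y := by
  obtain ⟨u, hu⟩ := h
  obtain ⟨v, hv⟩ := h'
  exact ⟨_, hu.append hv fun z a b => Prod.ext (hd _ _ a b).1 (hd _ _ a b).2⟩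

theorem Ar.shift (h : Ar x y x' y' A) (s t : ℤ) :
    Ar (x + s) (y + t) (x' + s) (y' + t) fun X Y => A (X - s) (Y - t) :=
  h.imp fun _ hw => hw.shift (s, t)

/-- A concrete short path. -/
theorem Ar.of (w : List Dir) (L : List Pt)
    (h : endP (x, y) w = (x', y') ∧ pts (x, y) w = L ∧ L.Nodup) (hA : ∀ z ∈ L, A z.1 z.2) :
    Ar x y x' y' A :=
  ⟨w, arc_iff.2 ⟨h.1, h.2.1 ▸ h.2.2, h.2.1 ▸ hA⟩⟩

theorem Ar.east (x y : ℤ) : Ar x y (x + 1) y fun X Y => (X = x ∨ X = x + 1) ∧ Y = y := by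
  have h : Ar 0 0 1 0 fun X Y => (X = 0 ∨ X = 1) ∧ Y = 0 :=
    Ar.of [0] [(0, 0), (1, 0)] (by decide) (by decide)
  exact ((h.shift x y).cast (by omega) (by omega) (by omega) (by omega)).mono fun X Y => by omega

theorem Ar.south (x y : ℤ) : Ar x y x (y - 1) fun X Y => X = x ∧ (Y = y ∨ Y = y - 1) := by
  have h : Ar 0 0 0 (-1) fun X Y => X = 0 ∧ (Y = 0 ∨ Y = -1) :=
    Ar.of [3] [(0, 0), (0, -1)] (by decide) (by decide)
  exact ((h.shift x y).cast (by omega) (by omega) (by omega) (by omega)).mono fun X Y => by omega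

/-- Two steps from `(x, y)` through `(x + s, y + t)` to `(x + s', y + t')`. -/
theorem Ar.two (d e : Dir) (s t s' t' : ℤ)
    (h : endP (0, 0) [d, e] = (s', t') ∧ pts (0, 0) [d, e] = [(0, 0), (s, t), (s', t')] ∧
      [((0, 0) : Pt), (s, t), (s', t')].Nodup) (x y : ℤ) :
    Ar x y (x + s') (y + t') fun X Y =>
      (X = x ∧ Y = y) ∨ (X = x + s ∧ Y = y + t) ∨ (X = x + s' ∧ Y = y + t') := by
  have h : Ar 0 0 s' t' fun X Y => (X = 0 ∧ Y = 0) ∨ (X = s ∧ Y = t) ∨ (X = s' ∧ Y = t') :=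
    Ar.of [d, e] _ h (by simp)
  exact ((h.shift x y).cast (by omega) (by omega) (by omega) (by omega)).mono fun X Y => by omega

theorem stairES (x y : ℤ) {n : ℤ} (hn : 0 ≤ n) :
    Ar x y (x + n) (y - n) fun X Y =>
      (X + Y = x + y ∧ y - x - 2 * n ≤ Y - X ∧ Y - X ≤ y - x) ∨
        (X + Y = x + y + 1 ∧ y - x - 2 * n + 1 ≤ Y - X ∧ Y - X ≤ y - x - 1) := by
  induction n, hn using Int.leInduction with
  | base => exact (Ar.nil (by omega)).cast rfl rfl (by omega) (by omega)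
  | succ n hn ih =>
    exact ((ih.trans (Ar.two 0 3 1 0 1 (-1) (by decide) _ _) fun X Y => by omega).cast rfl rfl
      (by omega) (by omega)).mono fun X Y => by omega

theorem stairEN (x y : ℤ) {n : ℤ} (hn : 0 ≤ n) :
    Ar x y (x + n) (y + n) fun X Y =>
      (Y - X = y - x ∧ x + y ≤ X + Y ∧ X + Y ≤ x + y + 2 * n) ∨
        (Y - X = y - x - 1 ∧ x + y + 1 ≤ X + Y ∧ X + Y ≤ x + y + 2 * n - 1) := by
  induction n, hn using Int.leInduction with
  | base => exact (Ar.nil (by omega)).cast rfl rfl (by omega) (by omega)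
  | succ n hn ih =>
    exact ((ih.trans (Ar.two 0 1 1 0 1 1 (by decide) _ _) fun X Y => by omega).cast rfl rfl
      (by omega) (by omega)).mono fun X Y => by omega

end Paths

/-! ### The tail -/

/-- The points of the tail, by the sum `S` and the difference `T` of the coordinates. -/
inductive Tl (a TG T1 T0 e0 S T : ℤ) : Prop
  | c1 : S = 2 * a + 2 ∧ T = TG → Tl a TG T1 T0 e0 S T
  | c2 : S = 2 * a + 3 ∧ T = TG - 1 → Tl a TG T1 T0 e0 S T
  | c3 : S = 2 * a + 4 ∧ T1 ≤ T ∧ T ≤ TG → Tl a TG T1 T0 e0 S T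
  | c4 : S = 2 * a + 5 ∧ T1 - 1 ≤ T ∧ T ≤ TG - 1 → Tl a TG T1 T0 e0 S T
  | c5 : S = 2 * a + 6 ∧ T0 ≤ T ∧ T ≤ T1 → Tl a TG T1 T0 e0 S T
  | c6 : S = 2 * a + 7 ∧ T0 - 1 ≤ T ∧ T ≤ T1 - 1 → Tl a TG T1 T0 e0 S T
  | c7 : 2 * a + 6 ≤ S ∧ S ≤ 4 * a - 2 ∧ T0 - 1 ≤ T ∧ T ≤ T0 → Tl a TG T1 T0 e0 S T
  | c8 : S = 4 * a - 1 ∧ T = T0 - 1 + 2 * e0 → Tl a TG T1 T0 e0 S T
  | c9 : S = 4 * a ∧ T = T0 → Tl a TG T1 T0 e0 S T

theorem tail {a TG T1 T0 e0 x y d1 d2 : ℤ} (ha : 5 ≤ a) (he : e0 = 0 ∨ e0 = 1)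
    (hs : x + y = 2 * a + 2) (ht : y - x = TG) (h1 : 0 ≤ d1) (h2 : 0 ≤ d2)
    (t1 : T1 = TG - 2 * d1) (t0 : T0 = T1 - 2 * d2) :
    Ar x y (x + a - 1 + d1 + d2) (y + a - 1 - d1 - d2) fun X Y =>
      Tl a TG T1 T0 e0 (X + Y) (Y - X) := by
  have a1 := (Ar.two 0 1 1 0 1 1 (by decide) x y).trans (stairES (x + 1) (y + 1) h1)
    fun X Y => by omega
  have a2 := a1.trans (Ar.two 0 1 1 0 1 1 (by decide) _ _) fun X Y => by omega
  have a3 := a2.trans (stairES _ _ h2) fun X Y => by omega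
  have a4 := a3.trans (stairEN _ _ (show 0 ≤ a - 4 by omega)) fun X Y => by omega
  have a5 : Ar x y (x + a - 2 + d1 + d2) (y + a - 2 - d1 - d2) fun X Y =>
      Tl a TG T1 T0 e0 (X + Y) (Y - X) ∧ X + Y ≤ 4 * a - 2 ∧
        (X + Y = 4 * a - 2 → Y - X = T0) := by
    refine (a4.cast rfl rfl (by omega) (by omega)).mono ?_
    rintro X Y (((((h | h | h) | h | h) | h | h | h) | h | h) | h | h)
    · exact ⟨.c1 (by omega), by omega⟩
    · exact ⟨.c2 (by omega), by omega⟩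
    · exact ⟨.c3 (by omega), by omega⟩
    · exact ⟨.c3 (by omega), by omega⟩
    · exact ⟨.c4 (by omega), by omega⟩
    · exact ⟨.c3 (by omega), by omega⟩
    · exact ⟨.c4 (by omega), by omega⟩
    · exact ⟨.c5 (by omega), by omega⟩
    · exact ⟨.c5 (by omega), by omega⟩
    · exact ⟨.c6 (by omega), by omega⟩
    · exact ⟨.c7 (by omega), by omega⟩
    · exact ⟨.c7 (by omega), by omega⟩
  rcases he with rfl | rfl
  · refine ((a5.trans (Ar.two 0 1 1 0 1 1 (by decide) _ _) ?_).cast rfl rfl (by omega)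
      (by omega)).mono ?_
    · rintro X Y ⟨-, h⟩ h'
      omega
    · rintro X Y (h | h | h | h)
      · exact h.1
      · exact .c7 (by omega)
      · exact .c8 (by omega)
      · exact .c9 (by omega)
  · refine ((a5.trans (Ar.two 1 0 0 1 1 1 (by decide) _ _) ?_).cast rfl rfl (by omega)
      (by omega)).mono ?_
    · rintro X Y ⟨-, h⟩ h'
      omega
    · rintro X Y (h | h | h | h)
      · exact h.1
      · exact .c7 (by omega)
      · exact .c8 (by omega)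
      · exact .c9 (by omega)

/-! ### The blocks -/

open Classical in
/-- The first coordinate of the starting point of a block. -/
noncomputable def su (e : ℤ) (s : Prop) : ℤ := if e = 0 then -1 else if s then -2 else 0

section Blocks

variable {e u v : ℤ} {s s' s'' : Prop}

theorem su_zero (s : Prop) : su 0 s = -1 := if_pos rfl

theorem su_pos (h : s) : su 1 s = -2 := by simp [su, h]

theorem su_neg (h : ¬s) : su 1 s = 0 := by simp [su, h]

theorem blk_ar (he : e = 0 ∨ e = 1) (s s' : Prop) :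
    Ar (su e s) (su e s + 2) (su e s' + 2) (su e s') (Blk e s s') := by
  rcases he with rfl | rfl
  · rw [su_zero, su_zero]
    by_cases h : s'
    · exact Ar.of [3, 3, 0, 0] [(-1, 1), (-1, 0), (-1, -1), (0, -1), (1, -1)] (by decide)
        (by simp [Blk, h])
    · exact Ar.of [0, 0, 3, 3] [(-1, 1), (0, 1), (1, 1), (1, 0), (1, -1)] (by decide)
        (by simp [Blk, h])
  · by_cases h : s <;> by_cases h' : s'
    · rw [su_pos h, su_pos h']
      exact Ar.of [0, 3, 3, 0] [(-2, 0), (-1, 0), (-1, -1), (-1, -2), (0, -2)] (by decide)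
        (by simp [Blk, h, h'])
    · rw [su_pos h, su_neg h']
      exact Ar.of [1, 0, 0, 0, 3, 0] [(-2, 0), (-2, 1), (-1, 1), (0, 1), (1, 1), (1, 0), (2, 0)]
        (by decide) (by simp [Blk, h, h'])
    · rw [su_neg h, su_pos h']
      exact Ar.of [3, 2, 3, 3, 3, 0] [(0, 2), (0, 1), (-1, 1), (-1, 0), (-1, -1), (-1, -2), (0, -2)]
        (by decide) (by simp [Blk, h, h'])
    · rw [su_neg h, su_neg h']
      exact Ar.of [0, 3, 3, 0] [(0, 2), (1, 2), (1, 1), (1, 0), (2, 0)] (by decide)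
        (by simp [Blk, h, h'])

theorem blk_meet (h : Blk e s s' u v) (h' : Blk e s' s'' (u - 2) (v + 2)) :
    u = su e s' + 2 ∧ v = su e s' := by
  have he : e = 0 ∨ e = 1 := h.imp And.left And.left
  revert h h'
  rcases he with rfl | rfl <;> by_cases h1 : s <;> by_cases h2 : s' <;> by_cases h3 : s'' <;>
    simp only [Blk, su, h1, h2, h3, true_and, false_and, not_true, not_false_iff, or_false,
      false_or, if_true, if_false, zero_ne_one, one_ne_zero] <;> omega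

theorem blk_lin (h : Blk e s s' u v) : -2 ≤ u ∧ u ≤ 2 ∧ -2 ≤ v ∧ v ≤ 2 ∧ -2 - e ≤ u + v ∧
    u + v ≤ 2 + e ∧ -2 ≤ v - u ∧ v - u ≤ 3 ∧ (v - u ≤ 2 ∨ u + v ≤ 1) ∧
    (e = 1 ∨ u % 2 = 1 ∨ v % 2 = 1) ∧ (e = 1 ∨ -1 ≤ v) := by
  have he : e = 0 ∨ e = 1 := h.imp And.left And.left
  revert h
  rcases he with rfl | rfl <;> by_cases h1 : s <;> by_cases h2 : s' <;>
    simp only [Blk, h1, h2, true_and, false_and, not_true, not_false_iff, or_false,
      false_or, zero_ne_one, one_ne_zero, true_or, and_true] <;> omega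

theorem blk_same (h : Blk e s s u v) : v - u ≤ 2 ∧ (-1 ≤ u ∨ (e = 1 ∧ s)) ∧ (v ≤ 1 ∨ ¬s) := by
  have he : e = 0 ∨ e = 1 := h.imp And.left And.left
  revert h
  rcases he with rfl | rfl <;> by_cases h1 : s <;>
    simp only [Blk, h1, true_and, false_and, not_true, not_false_iff, or_false, and_true,
      false_or, zero_ne_one, one_ne_zero, and_false, or_true] <;> omega

theorem blk_last (h : Blk 1 s s' u v) (h2 : ¬s') : 0 ≤ v ∧ (-1 ≤ v - u ∨ 2 ≤ u + v) := by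
  revert h
  by_cases h1 : s <;>
    simp only [Blk, h1, h2, true_and, false_and, not_true, not_false_iff, or_false,
      false_or, one_ne_zero] <;> omega

end Blocks

/-- The points of all blocks. -/
def Blks (a e : ℤ) (bk : ℤ → Prop) (N X Y : ℤ) : Prop :=
  ∃ i, 1 ≤ i ∧ i ≤ N ∧ Blk e (bk (max (i - 1) 1)) (bk i) (X - 2 * i) (Y - 2 * a + 2 * i)

theorem blks_ar (a : ℤ) {e N : ℤ} (he : e = 0 ∨ e = 1) (bk : ℤ → Prop) (h1 : 1 ≤ N) :
    Ar (su e (bk 1) + 2) (su e (bk 1) + 2 * a) (su e (bk N) + 2 * N + 2)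
      (su e (bk N) + 2 * a - 2 * N) (Blks a e bk N) := by
  induction N, h1 using Int.leInduction with
  | base =>
    refine (((blk_ar he (bk 1) (bk 1)).shift 2 (2 * a - 2)).cast rfl (by omega) (by omega)
      (by omega)).mono fun X Y h => ⟨1, le_rfl, le_rfl, ?_⟩
    rwa [show X - 2 * 1 = X - 2 by omega, show Y - 2 * a + 2 * 1 = Y - (2 * a - 2) by omega]
  | succ N h1 ih =>
    have b : Ar (su e (bk N) + 2 * N + 2) (su e (bk N) + 2 * a - 2 * N)
        (su e (bk (N + 1)) + 2 * (N + 1) + 2) (su e (bk (N + 1)) + 2 * a - 2 * (N + 1))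
        fun X Y => Blk e (bk N) (bk (N + 1)) (X - 2 * (N + 1)) (Y - 2 * a + 2 * (N + 1)) := by
      refine (((blk_ar he (bk N) (bk (N + 1))).shift (2 * (N + 1)) (2 * a - 2 * (N + 1))).cast
        (by omega) (by omega) (by omega) (by omega)).mono fun X Y h => ?_
      rwa [show Y - 2 * a + 2 * (N + 1) = Y - (2 * a - 2 * (N + 1)) by omega]
    refine (ih.trans b ?_).mono ?_
    · rintro X Y ⟨i, i1, i2, h⟩ h'
      have l := blk_lin h
      have l' := blk_lin h'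
      obtain rfl : i = N := by omega
      rw [show X - 2 * (i + 1) = X - 2 * i - 2 by omega,
        show Y - 2 * a + 2 * (i + 1) = Y - 2 * a + 2 * i + 2 by omega] at h'
      have := blk_meet h h'
      omega
    · rintro X Y (⟨i, i1, i2, h⟩ | h)
      · exact ⟨i, i1, by omega, h⟩
      · refine ⟨N + 1, by omega, le_rfl, ?_⟩
        rwa [add_sub_cancel_right, max_eq_left h1]

/-! ### The whole path -/

section Whole

variable {p : Par} {bk : ℤ → Prop} {N T1 X Y : ℤ}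

theorem blks_env (hTG : p.TG = 2 * p.a - 4 * N - 4 + 2 * p.e1) (hN : p.e1 = 1 → ¬bk N)
    (hf : p.f = 1 ↔ p.e1 = 1 ∧ bk 1) (h : Blks p.a p.e1 bk N X Y) :
    p.Ls X Y ∧ X + Y ≤ 2 * p.a + 2 + p.e1 ∧ p.TG + 2 * p.e0 ≤ Y - X ∧ Y - X ≤ 2 * p.a - 2 := by
  obtain ⟨i, i1, i2, h⟩ := h
  obtain ⟨l1, l2, l3, l4, l5, l6, l7, l8, l9, l10, l11⟩ := blk_lin h
  obtain ⟨m1, m2, m3, m4, m5, m6, m7, m8, m9, m10, m11, m12, m13⟩ := p.aux
  have m14 := p.hf
  have k1 : 2 ≤ i ∨ (i = 1 ∧ Y - X ≤ 2 * p.a - 2 ∧ (1 ≤ X ∨ p.f = 1) ∧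
      (Y < 2 * p.a ∨ p.f = 0)) := by
    rcases eq_or_lt_of_le i1 with rfl | c
    · obtain ⟨c1, c2, c3⟩ := blk_same (s := bk 1) h
      refine Or.inr ⟨rfl, by omega, c2.imp (by omega) hf.2, c3.imp (by omega) fun c => ?_⟩
      exact m14.resolve_right fun d => c (hf.1 d.1).2
    · exact Or.inl c
  have k2 : i < N ∨ p.e1 = 0 ∨ (i = N ∧ p.e1 = 1 ∧ 2 * p.a - 2 * N ≤ Y ∧
      (p.TG + 1 ≤ Y - X ∨ 2 * p.a + 2 ≤ X + Y)) := by
    rcases eq_or_lt_of_le i2 with rfl | c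
    · rcases p.he with e | e
      · rw [e.2] at h
        have := blk_last h (hN e.2)
        omega
      · exact Or.inr (Or.inl e.2)
    · exact Or.inl c
  refine ⟨⟨?_, ?_, ?_, ?_, ?_, ?_, ?_⟩, ?_⟩
  · clear l9 l10 l11 k1 k2 m14
    omega
  · clear l9 l10 k1 m14
    omega
  · clear l10 l11 k1 k2 m14
    omega
  · clear l9 l11 k1 k2 m14
    omega
  · clear l9 l10 l11 k1 k2 m14
    omega
  · clear l9 l10 l11 k2 m14
    omega
  · clear l9 l10 l11 k2 m14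
    omega
  · clear l9 l10 l11 k2 m14
    omega

/-- The points of the connecting path after the first one. -/
def Pth (p : Par) (bk : ℤ → Prop) (N T1 X Y : ℤ) : Prop :=
  (X = 1 - p.f ∧ Y = 2 * p.a - p.f) ∨ Blks p.a p.e1 bk N X Y ∨
    (p.e1 = 0 ∧ X + Y = 2 * p.a + 1 ∧ Y - X = p.TG + 1) ∨
    Tl p.a p.TG T1 (4 * p.a - 4 * p.x0) p.e0 (X + Y) (Y - X)

theorem tl_env (t1 : 4 * p.a - 4 * p.x0 ≤ T1 ∧ T1 ≤ p.TG)
    (h : Tl p.a p.TG T1 (4 * p.a - 4 * p.x0) p.e0 (X + Y) (Y - X)) :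
    2 * p.a + 2 ≤ X + Y ∧ X + Y ≤ 4 * p.a ∧ 4 * p.a - 4 * p.x0 - 1 ≤ Y - X ∧
      Y - X ≤ p.TG + p.e0 ∧ (X + Y ≤ 4 * p.a - 2 ∨ (X = 2 * p.x0 ∧ Y = 4 * p.a - 2 * p.x0) ∨
      (X = 2 * p.x0 - p.e0 ∧ Y = 4 * p.a - 2 * p.x0 - p.e1)) ∧
      (2 * p.a + 4 ≤ X + Y ∨ (X + Y = 2 * p.a + 2 ∧ Y - X = p.TG) ∨
        (X + Y = 2 * p.a + 3 ∧ Y - X = p.TG - 1)) := by
  obtain ⟨m1, m2, m3, m4, m5, m6, m7, m8, m9, m10, m11, m12, m13⟩ := p.aux
  rcases h with h | h | h | h | h | h | h | h | h <;> omega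

theorem pth_ar (h1 : 1 ≤ N) (hTG : p.TG = 2 * p.a - 4 * N - 4 + 2 * p.e1) (hN : p.e1 = 1 → ¬bk N)
    (hf : p.f = 1 ↔ p.e1 = 1 ∧ bk 1) {d1 d2 : ℤ} (g1 : 0 ≤ d1) (g2 : 0 ≤ d2)
    (t1 : T1 = p.TG - 2 * d1) (t0 : 4 * p.a - 4 * p.x0 = T1 - 2 * d2) :
    Ar (1 - p.f) (2 * p.a - p.f) (2 * p.x0) (2 * (2 * p.a - p.x0)) (Pth p bk N T1) := by
  obtain ⟨m1, m2, m3, m4, m5, m6, m7, m8, m9, m10, m11, m12, m13⟩ := p.aux
  have a1 : Ar (1 - p.f) (2 * p.a - p.f) (su p.e1 (bk 1) + 2) (su p.e1 (bk 1) + 2 * p.a)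
      fun X Y => (X = 1 - p.f ∧ Y = 2 * p.a - p.f) ∨
        (X = su p.e1 (bk 1) + 2 ∧ Y = su p.e1 (bk 1) + 2 * p.a) := by
    rcases p.he with e | e
    · rw [e.2]
      by_cases c : bk 1
      · rw [su_pos c, hf.2 ⟨e.2, c⟩]
        exact ((Ar.south _ _).cast rfl rfl (by omega) (by omega)).mono fun X Y => by omega
      · rw [su_neg c, p.hf.resolve_right fun d => c (hf.1 d.1).2]
        exact ((Ar.east _ _).cast rfl rfl (by omega) (by omega)).mono fun X Y => by omega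
    · rw [e.2, su_zero, show p.f = 0 by omega]
      exact ((Ar.south _ _).cast rfl rfl (by omega) (by omega)).mono fun X Y => by omega
  have a2 := blks_ar p.a (show p.e1 = 0 ∨ p.e1 = 1 by omega) bk h1
  have a3 : Ar (su p.e1 (bk N) + 2 * N + 2) (su p.e1 (bk N) + 2 * p.a - 2 * N) (2 * N + 3 - p.e1)
      (2 * p.a - 2 * N - 1 + p.e1) fun X Y =>
        (X = su p.e1 (bk N) + 2 * N + 2 ∧ Y = su p.e1 (bk N) + 2 * p.a - 2 * N) ∨
        (p.e1 = 0 ∧ X + Y = 2 * p.a + 1 ∧ Y - X = p.TG + 1) ∨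
        (p.e1 = 0 ∧ X + Y = 2 * p.a + 2 ∧ Y - X = p.TG) := by
    rcases p.he with e | e
    · rw [e.2, su_neg (hN e.2)]
      exact (Ar.nil (by omega)).cast rfl rfl (by omega) (by omega)
    · rw [hTG, e.2, su_zero]
      exact ((Ar.two 0 0 1 0 2 0 (by decide) _ _).cast rfl rfl (by omega) (by omega)).mono
        fun X Y => by omega
  have a4 := tail (x := 2 * N + 3 - p.e1) (y := 2 * p.a - 2 * N - 1 + p.e1) m1
    (show p.e0 = 0 ∨ p.e0 = 1 by omega) (by omega) (by omega) g1 g2 t1 t0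
  have b1 : Ar (1 - p.f) (2 * p.a - p.f) (su p.e1 (bk N) + 2 * N + 2)
      (su p.e1 (bk N) + 2 * p.a - 2 * N)
      fun X Y => (X = 1 - p.f ∧ Y = 2 * p.a - p.f) ∨ Blks p.a p.e1 bk N X Y := by
    refine (a1.trans a2 ?_).mono ?_
    · rintro X Y (h | h) h'
      · have := (blks_env hTG hN hf h').2
        omega
      · exact h
    · rintro X Y ((h | ⟨rfl, rfl⟩) | h)
      · exact Or.inl h
      · exact Or.inr a2.start
      · exact Or.inr h
  have b2 : Ar (1 - p.f) (2 * p.a - p.f) (2 * N + 3 - p.e1) (2 * p.a - 2 * N - 1 + p.e1)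
      fun X Y => (X = 1 - p.f ∧ Y = 2 * p.a - p.f) ∨ Blks p.a p.e1 bk N X Y ∨
      (p.e1 = 0 ∧ X + Y = 2 * p.a + 1 ∧ Y - X = p.TG + 1) ∨
      (p.e1 = 0 ∧ X + Y = 2 * p.a + 2 ∧ Y - X = p.TG) := by
    refine (b1.trans a3 ?_).mono ?_
    · rintro X Y h (h' | h')
      · exact h'
      · rcases h with h | h
        · omega
        · have := (blks_env hTG hN hf h).2
          omega
    · rintro X Y ((h | h) | ⟨rfl, rfl⟩ | h)
      · exact Or.inl h
      · exact Or.inr (Or.inl h)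
      · exact Or.inr (Or.inl a2.stop)
      · exact Or.inr (Or.inr h)
  refine ((b2.trans a4 ?_).cast rfl rfl (by omega) (by omega)).mono ?_
  · intro X Y h h'
    obtain ⟨c1, -, -, c2, -, c3⟩ := tl_env (by omega) h'
    rcases h with h | h | h | h
    · omega
    · have := (blks_env hTG hN hf h).2
      omega
    · omega
    · omega
  · rintro X Y ((h | h | h | h) | h)
    · exact Or.inl h
    · exact Or.inr (Or.inl h)
    · exact Or.inr (Or.inr (Or.inl h))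
    · exact Or.inr (Or.inr (Or.inr (.c1 h.2)))
    · exact Or.inr (Or.inr (Or.inr h))

theorem pth_ls (hTG : p.TG = 2 * p.a - 4 * N - 4 + 2 * p.e1) (hN : p.e1 = 1 → ¬bk N)
    (hf : p.f = 1 ↔ p.e1 = 1 ∧ bk 1) (t1 : 4 * p.a - 4 * p.x0 ≤ T1 ∧ T1 ≤ p.TG)
    (h : (X = 0 ∧ Y = 2 * p.a) ∨ Pth p bk N T1 X Y) : p.Ls X Y := by
  obtain ⟨m1, m2, m3, m4, m5, m6, m7, m8, m9, m10, m11, m12, m13⟩ := p.aux
  rcases h with h | h | h | h | h
  · constructor <;> omega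
  · constructor <;> omega
  · exact (blks_env hTG hN hf h).1
  · constructor <;> omega
  · obtain ⟨c1, c2, c3, c4, c5, -⟩ := tl_env t1 h
    refine ⟨?_, Or.inl c1, ?_, Or.inl c4, c5, ?_, ?_⟩ <;> clear c5 <;> omega

theorem pth_head (hTG : p.TG = 2 * p.a - 4 * N - 4 + 2 * p.e1) (hN : p.e1 = 1 → ¬bk N)
    (hf : p.f = 1 ↔ p.e1 = 1 ∧ bk 1) (h : (X = 0 ∧ Y = 2 * p.a) ∨ Pth p bk N T1 X Y) :
    (X + Y ≤ 2 * p.a + 3 ∧ p.TG ≤ Y - X ∧ Y - X ≤ 2 * p.a ∧
      (Y - X ≤ 2 * p.a - 2 ∨ X + Y ≤ 2 * p.a + 1) ∧ (2 * p.a + 2 ≤ X + Y ∨ p.TG + 1 ≤ Y - X)) ∨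
    Tl p.a p.TG T1 (4 * p.a - 4 * p.x0) p.e0 (X + Y) (Y - X) := by
  obtain ⟨m1, m2, m3, m4, m5, m6, m7, m8, m9, m10, m11, m12, m13⟩ := p.aux
  rcases h with h | h | h | h | h
  · exact Or.inl (by omega)
  · exact Or.inl (by omega)
  · obtain ⟨c1, c2⟩ := blks_env hTG hN hf h
    have := c1.d1
    exact Or.inl (by omega)
  · exact Or.inl (by omega)
  · exact Or.inr h

theorem pth_self (hTG : p.TG = 2 * p.a - 4 * N - 4 + 2 * p.e1) (hN : p.e1 = 1 → ¬bk N)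
    (hf : p.f = 1 ↔ p.e1 = 1 ∧ bk 1) (t1 : 4 * p.a - 4 * p.x0 ≤ T1 ∧ T1 ≤ p.TG)
    (t2 : p.TG - T1 ≤ 4 * p.a - 2 ∧ T1 - (4 * p.a - 4 * p.x0) ≤ 4 * p.a - 2)
    (h : (X = 0 ∧ Y = 2 * p.a) ∨ Pth p bk N T1 X Y)
    (h' : (X - 2 * p.a = 0 ∧ Y + 2 * p.a = 2 * p.a) ∨ Pth p bk N T1 (X - 2 * p.a) (Y + 2 * p.a)) :
    False := by
  obtain ⟨m1, m2, m3, m4, m5, m6, m7, m8, m9, m10, m11, m12, m13⟩ := p.aux
  rcases pth_head hTG hN hf h with c | c <;> rcases pth_head hTG hN hf h' with c' | c'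
  · omega
  · have := (tl_env t1 c').2.2.2.1
    omega
  · have := (tl_env t1 c).2.2.2.2.2
    omega
  · rcases c with c | c | c | c | c | c | c | c | c <;>
      rcases c' with c' | c' | c' | c' | c' | c' | c' | c' | c' <;> omega

end Whole

end Stair

open Stair in
theorem exists_pi {k : ℤ} (hk : 2 ≤ k) (p : Par) (bk : ℤ → Prop) (N : ℤ) (h1 : 1 ≤ N)
    (hTG : p.TG = 2 * p.a - 4 * N - 4 + 2 * p.e1) (hN : p.e1 = 1 → ¬bk N)
    (hf : p.f = 1 ↔ p.e1 = 1 ∧ bk 1) (hd : p.TG - (4 * p.a - 4 * p.x0) ≤ 8 * p.a - 4) :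
    ∃ (pi : List Dir) (Es : ℤ → ℤ → Prop),
      SArc k (0, p.a) (List.replicate (k - 1).toNat (if p.f = 1 then 3 else 0) ++ pi)
        (p.x0, 2 * p.a - p.x0) Es ∧
      (∀ X Y, Es X Y → p.Ls X Y) ∧ (∀ X Y, Es X Y → Es (X - 2 * p.a) (Y + 2 * p.a) → False) ∧
      ∀ X Y, Es X Y → Pis p bk N X Y := by
  obtain ⟨m1, m2, m3, m4, m5, m6, m7, m8, m9, m10, m11, m12, m13⟩ := p.aux
  obtain ⟨d1, d2, g1, g2, g3, g4, g5⟩ : ∃ d1 d2 : ℤ, 0 ≤ d1 ∧ 0 ≤ d2 ∧ d1 ≤ 2 * p.a - 1 ∧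
      d2 ≤ 2 * p.a - 1 ∧ 4 * p.a - 4 * p.x0 = p.TG - 2 * d1 - 2 * d2 :=
    ⟨min ((p.TG - (4 * p.a - 4 * p.x0)) / 2) (2 * p.a - 1),
      (p.TG - (4 * p.a - 4 * p.x0)) / 2 - min ((p.TG - (4 * p.a - 4 * p.x0)) / 2) (2 * p.a - 1),
      by omega⟩
  have A := pth_ar h1 hTG hN hf g1 g2 rfl g5
  have t1 : 4 * p.a - 4 * p.x0 ≤ p.TG - 2 * d1 ∧ p.TG - 2 * d1 ≤ p.TG := by omega
  have z : ¬Pth p bk N (p.TG - 2 * d1) 0 (2 * p.a) := by
    rintro (h | h | h | h)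
    · omega
    · have := (blks_env hTG hN hf h).2
      omega
    · omega
    · have := (tl_env t1 h).1
      omega
  have f0 : phi k (k - 1) 0 = 0 := by simp [phi]
  obtain ⟨pi, hp⟩ := lift_first hk (psi_phi (k := k) (h := k - 1) (by omega) (by omega))
    (psi_phi (k := k) (h := 1) (by omega) (by omega)) (x := 0) (y := 2 * p.a)
    (d := if p.f = 1 then 3 else 0) (n := (k - 1).toNat) (by
      rw [f0, phi_even, Int.toNat_of_nonneg (by omega)]
      split_ifs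
      · have e := phi_odd k 1 (p.a - 1)
        rw [show 2 * (p.a - 1) + 1 = 2 * p.a + -1 by ring] at e
        change _ = (phi k (k - 1) 0, phi k 1 (2 * p.a + -1))
        rw [f0, e]
        ext <;> simp [dv]
        ring
      · have e := phi_odd k (k - 1) 0
        change _ = (phi k (k - 1) (2 * 0 + 1), phi k 1 (2 * p.a + 0))
        rw [e, add_zero, phi_even]
        ext <;> simp [dv])
    (A.cast (by split_ifs <;> simp [dv] <;> omega) (by split_ifs <;> simp [dv] <;> omega) rfl rfl) z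
  rw [f0, phi_even, phi_even, phi_even] at hp
  refine ⟨pi, fun X Y => (X = 0 ∧ Y = 2 * p.a) ∨ Pth p bk N (p.TG - 2 * d1) X Y, ?_,
    fun X Y => pth_ls hTG hN hf t1, fun X Y => pth_self hTG hN hf t1 (by omega), ?_⟩
  · unfold SArc
    simpa only [Prod.smul_mk, smul_eq_mul, mul_zero] using hp
  · rintro X Y (h | h | h | h | h)
    · exact Or.inl h
    · exact Or.inr (Or.inl h)
    · exact Or.inr (Or.inr (Or.inl h))
    · exact Or.inr (Or.inr (Or.inr (by omega)))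
    · obtain ⟨c1, c2, -, c3, -⟩ := tl_env t1 h
      exact Or.inr (Or.inr (Or.inr (by omega)))

end NP
end Pool.Agent.Lib.MP_4a7072_co
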