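import Pool.Agent.Lib.MP_4a7072_co.NCurve
import Pool.Agent.Lib.MP_4a7072_co.NPi

/-!
Existence of the pinwheel design.
-/

set_option autoImplicit false

namespace Pool.Agent.Lib.MP_4a7072_co
namespace NP

open RTree (endP_append endP_back)

theorem mem_verts_replicate (d : Dir) (n : ℕ) (P : Pt) {i : ℤ} (h0 : 0 ≤ i) (h : i < n) :
    P + i • dv d ∈ verts P (List.replicate n d) := by
  induction n generalizing P i with
  | zero => omega
  | succ n ih =>
    rcases eq_or_lt_of_le h0 with rfl | h1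
    · rw [zero_smul, add_zero]
      exact List.mem_cons_self
    · have := ih (P + dv d) (i := i - 1) (by omega) (by omega)
      rw [sub_smul, one_smul, add_add_sub_cancel] at this
      exact List.mem_cons_of_mem _ this

theorem arc_swap {k f a : ℤ} (hk : 2 ≤ k) (hf : f = 0 ∨ f = 1) {u y : Pt} {eps pi : List Dir}
    {A B : ℤ → ℤ → Prop}
    (h1 : SArc k u (eps ++ back 0 (List.replicate (k - 1).toNat (if f = 1 then 3 else 0))) (0, a) A)
    (h2 : SArc k (0, a) (List.replicate (k - 1).toNat (if f = 1 then 3 else 0) ++ pi) y B)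
    (h : ∀ X Y, A X Y → B X Y → (X = 0 ∧ Y = 2 * a) ∨ (X = 1 - f ∧ Y = 2 * a - f)) :
    SArc k u (eps ++ pi) y fun X Y => B X Y ∨ A X Y := by
  have l := Arc.left h1
  have r := Arc.right h2
  have e := h1.1
  rw [endP_append] at e
  have e' := endP_back (endP (k • u) eps)
    (back 0 (List.replicate (k - 1).toNat (if f = 1 then 3 else 0)))
  rw [e, back_back, add_zero, rot_zero] at e'
  rw [← e'] at l
  refine (l.append r ?_).mono fun z hz => hz.elim Or.inr fun c => Or.inl c.1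
  rintro ⟨x, y⟩ c ⟨d, n⟩
  have m := fun i => mem_verts_replicate (if f = 1 then 3 else 0) (k - 1).toNat (k • (0, a)) (i := i)
  rw [endP_replicate]
  rw [Int.toNat_of_nonneg (by omega)] at m ⊢
  have hk0 : 0 < k := by omega
  rcases h _ _ c d with ⟨hx, hy⟩ | ⟨hx, hy⟩
  · have := psi_eq (y := 0) hk0 hx
    have := psi_eq hk0 hy
    exact absurd (by convert m 0 le_rfl (by omega) using 1; ext <;> simp <;> omega) n
  rcases hf with rfl | rfl
  · have := psi_odd (y := 0) hk0 hx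
    have := psi_eq (y := a) hk0 (by simpa using hy)
    by_cases g : x < k - 1
    · exact absurd (by convert m x (by omega) g using 1; ext <;> simp [dv]; omega) n
    · ext <;> simp [dv] <;> omega
  · have := psi_eq (y := 0) hk0 hx
    have := psi_odd (y := a - 1) hk0 (hy.trans (by ring))
    rw [mul_sub] at this
    by_cases g : k * a - y < k - 1
    · exact absurd (by convert m _ (by omega) g using 1; ext <;> simp [dv]; omega) n
    · ext <;> simp [dv] <;> omega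

theorem exists_eps {k : ℤ} (hk : 2 ≤ k) {p : Par} (W : WB0 p.e1 p.b p.a)
    (hf : p.f = 1 ↔ p.e1 = 1 ∧ bk W 1) : ∃ eps : List Dir, eps ≠ [] ∧
      W.aE 2 k (W.β + 1) (W.β - 1) =
        eps ++ back 0 (List.replicate (k - 1).toNat (if p.f = 1 then 3 else 0)) := by
  have u := p.hf
  rw [back_replicate, WB0.aE, fw, if_pos (show (W.β - 1 + (W.β + 1)) % 2 = 0 by omega)]
  rcases c1_last W p.he1 with ⟨e, -, h⟩ | ⟨e, -, h, b⟩ | ⟨e, -, h, b⟩ <;> rw [h]
  · refine ⟨[2], by simp, ?_⟩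
    rw [if_pos e, if_neg (by omega), show k.toNat = (k - 1).toNat + 1 by omega]
    rfl
  · rw [if_neg (by omega), if_neg fun c => b (hf.1 c).2]
    exact ⟨_, by simp, rfl⟩
  · rw [if_neg (by omega), if_pos (hf.2 ⟨e, b⟩)]
    exact ⟨_, by simp, rfl⟩

theorem des_of_curves {k : ℤ} (hk : 2 ≤ k) {p : Par} (W0 : WB0 p.e0 p.a (-p.b))
    (W1 : WB p.e1 p.b p.a) {j N : ℤ} (hj : 0 ≤ j) (hx : p.x0 = p.b - p.a * j)
    (h2 : ∀ z, 2 * p.b ≠ p.a * z) (h1 : 1 ≤ N) (hN : p.TG = 2 * p.a - 4 * N - 4 + 2 * p.e1)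
    (hf : p.f = 1 ↔ p.e1 = 1 ∧ bk W1.toWB0 1) (hd : p.TG - (4 * p.a - 4 * p.x0) ≤ 8 * p.a - 4)
    (hr : 2 * p.a < p.b → 3 * p.a + 1 + min (p.b - 2 * p.a) (2 * p.a - 1 - p.e1) ≤ 2 * p.x0) :
    Nonempty (Des k p) := by
  obtain ⟨pi, Es, aS, ls, self, pis⟩ := exists_pi hk p (bk W1.toWB0) N h1 hN (c1_not_bk W1 hN) hf hd
  obtain ⟨eps, eps_ne, last⟩ := exists_eps hk W1.toWB0 hf
  have u := p.aux
  have q0 := W0.qpos
  have q1 := W1.qpos
  have hqj : 0 ≤ 2 * W0.q * j := by positivity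
  have hJ : (p.x0 = p.b ∧ W0.β + W0.q + 2 * W0.q * j = W0.β + W0.q) ∨
      (p.x0 < p.b ∧ W0.β + 3 * W0.q ≤ W0.β + W0.q + 2 * W0.q * j) := by
    rcases eq_or_lt_of_le hj with rfl | h
    · exact Or.inl (by omega)
    · exact Or.inr ⟨by nlinarith, by nlinarith⟩
  have bd := c0_bounds W0 hx
  have yJ := c0_J W0 j
  rw [← hx] at yJ
  obtain ⟨iP, i1, i2⟩ : ∃ i, W0.β + W0.q + 2 * W0.q * j - 2 * W0.q < 2 * W0.q * i ∧
      2 * W0.q * i < W0.β + W0.q + 2 * W0.q * j := by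
    have a := Int.mul_ediv_add_emod (W0.β + W0.q + 2 * W0.q * j - 1) (2 * W0.q)
    have b := Int.emod_nonneg (W0.β + W0.q + 2 * W0.q * j - 1) (show 2 * W0.q ≠ 0 by omega)
    have c := Int.emod_lt_of_pos (W0.β + W0.q + 2 * W0.q * j - 1) (show 0 < 2 * W0.q by omega)
    refine ⟨(W0.β + W0.q + 2 * W0.q * j - 1) / (2 * W0.q), lt_of_le_of_ne (by omega) fun e => ?_,
      by omega⟩
    have d := c0_P W0 ((W0.β + W0.q + 2 * W0.q * j - 1) / (2 * W0.q) + 1)
    rw [mul_add, ← e, mul_one, sub_add_cancel, yJ] at d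
    simp only [Prod.ext_iff] at d
    omega
  obtain ⟨iM, i3, i4, i5⟩ : ∃ i, W0.β + W0.q + 2 * W0.q * j - 2 * W0.q < W0.q + 2 * W0.q * i ∧
      W0.q + 2 * W0.q * i < W0.β + W0.q + 2 * W0.q * j ∧
      (W0.q + 2 * W0.q * i = 2 * W0.q * iP + W0.q ∨ W0.q + 2 * W0.q * i = 2 * W0.q * iP - W0.q) := by
    rcases lt_trichotomy (W0.q + 2 * W0.q * iP) (W0.β + W0.q + 2 * W0.q * j) with h | h | h
    · exact ⟨iP, by omega⟩
    · have d := c0_M W0 iP
      rw [h, yJ] at d
      simp only [Prod.ext_iff] at d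
      exact absurd (by rw [mul_sub, mul_left_comm, mul_left_comm p.a]; omega) (h2 (2 * j - 2 * iP))
    · exact ⟨iP - 1, by rw [mul_sub]; omega⟩
  have id1 := c1_idx W1.toWB0 (by omega) p.hab
  have om : ∀ i j X Y, W1.β - 2 * W1.q ≤ i → i < j → j ≤ W1.β → On p.e1 (cw1 W1.toWB0) i j X Y →
      p.Om X Y := fun i j X Y a b c g => by
    obtain ⟨l, d, e, g⟩ := g.esh b
    exact c1_om W1 hr (by omega) (by omega) g
  have s2 : ∀ j X Y, W1.β - 2 * W1.q < j → Es (X - 2 * p.b) (Y - 2 * p.b) →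
      On p.e1 (cw1 W1.toWB0) (W1.β - 2 * W1.q) j X Y → X = 2 * p.b ∧ Y = 2 * p.a + 2 * p.b :=
    fun j X Y a b g => by
      obtain ⟨l, d, -, g⟩ := g.esh a
      have t : ∀ l, (cw1 W1.toWB0 (l + 2 * W1.q)).1 = (cw1 W1.toWB0 l).1 + -p.b ∧
          (cw1 W1.toWB0 (l + 2 * W1.q)).2 = (cw1 W1.toWB0 l).2 + -p.b := fun l => by
        have := cw1_eq W1.toWB0 l
        have := cw1_eq W1.toWB0 (l + 2 * W1.q)
        have := W1.per' 1 l
        rw [mul_one] at this
        omega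
      have g' := esh_move (X' := X - 2 * p.b) (Y' := Y - 2 * p.b) g (t l) (t (l + 1)) (by omega)
      rw [add_right_comm] at g'
      have := c1_s2 W1 hf (pis _ _ b) (by omega) g'
      omega
  have one : ∀ X Y, On p.e1 (cw1 W1.toWB0) (W1.β - 1) W1.β X Y →
      ESh p.e1 (cw1 W1.toWB0 (W1.β - 1)) (cw1 W1.toWB0 (W1.β - 1 + 1)) X Y := fun X Y g => by
    obtain ⟨l, d, e, g⟩ := g.esh (by omega)
    rwa [show l = W1.β - 1 by omega] at g
  have S0 : Sym k (W0.aE 1 k 0) (cw0 W0) W0.q W0.β (-p.a, p.a) := W0.sym 1 _ hk p.he0 0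
  exact ⟨{
    E0 := W0.aE 1 k 0, w0 := cw0 W0, q0 := W0.q, β0 := W0.β
    E1 := W1.aE 2 k (W1.β + 1), w1 := cw1 W1.toWB0, q1 := W1.q, β1 := W1.β
    J := W0.β + W0.q + 2 * W0.q * j, αP := 2 * W0.q * iP, αM := W0.q + 2 * W0.q * iM
    αN := if p.b < 2 * p.a then W1.q else -W1.q
    iP := iP, iM := iM
    arm := List.replicate (k - 1).toNat (if p.f = 1 then 3 else 0), pi := pi, eps := eps, Es := Es
    On0 := On p.e0 (cw0 W0), On1 := On p.e1 (cw1 W1.toWB0)
    hk := hk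
    S0 := S0
    S1 := W1.sym 2 _ hk p.he1 _
    b0 := c0_b W0
    c0 := by simpa using c0_J W0 0
    yJ := yJ
    hJ := by omega
    shP := S0.per_mul iP
    rP := ⟨i1, i2⟩
    rM := ⟨i3, i4⟩
    hM := i5
    wP := c0_P W0 iP
    wM := c0_M W0 iM
    tP := by
      have a := bd (2 * W0.q * iP)
      rw [c0_P] at a
      have b := a.2.2.2.2.2.1 i1.le
      have c := a.2.2.2.2.2.2.2 i2.le
      have d := h2 (2 * j - 2 * iP - 1)
      have e := h2 (2 * j - 2 * iP + 1)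
      rw [mul_sub, mul_sub, mul_left_comm, mul_left_comm p.a] at d
      rw [mul_add, mul_sub, mul_left_comm, mul_left_comm p.a] at e
      simp only at b c
      omega
    tM := by
      have a := bd (W0.q + 2 * W0.q * iM)
      rw [c0_M] at a
      have b := a.2.2.2.2.2.1 i3.le
      have c := a.2.2.2.2.2.2.2 i4.le
      have d := h2 (2 * j - 2 * iM - 2)
      have e := h2 (2 * j - 2 * iM)
      rw [mul_sub, mul_sub, mul_left_comm, mul_left_comm p.a] at d
      rw [mul_sub, mul_left_comm, mul_left_comm p.a] at e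
      simp only at b c
      omega
    a1 := c1_zero _
    b1 := c1_b _
    c1 := c1_c _
    r1 := by omega
    hN := by
      have := h2 4
      split_ifs with h
      · exact Or.inl ⟨h, id1.2.2.1 h, rfl, c1_q _⟩
      · exact Or.inr ⟨by omega, id1.2.2.2 (by omega), rfl, c1_nq _⟩
    arm_ne := by
      have : (k - 1).toNat ≠ 0 := by omega
      simpa using this
    eps_ne := eps_ne
    last := last
    arcS := aS
    arcE := by
      have a := W1.arc 2 (p.a, 2 * p.a) hk p.he1 (W1.β + 1) (W1.β - 1) (W1.β - 1 + 1) (by omega)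
      rw [seg_one, last, sub_add_cancel] at a
      refine arc_swap hk (by omega) (a.cast rfl (c1_b _)) aS fun X Y b c => ?_
      exact c1_s0 W1 (pis _ _ c) (by omega) (om _ _ _ _ (by omega) (by omega) le_rfl b) (one _ _ b)
    arc0 := W0.arc 1 _ hk p.he0 0
    arc1 := W1.arc 2 _ hk p.he1 _
    ls := ls
    self := self
    win := fun X Y => W0.on_box p.he0 1 _ (by omega) fun l a b =>
      ⟨(bd l).1, (bd l).2.1, (bd l).2.2.2.2.2.1 a, (bd l).2.2.2.2.2.2.2 b⟩
    mu := fun X Y => W0.on_box p.he0 1 _ (by omega) fun l a b =>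
      ⟨(bd l).1, (bd l).2.1, (bd l).2.2.1 a, (bd l).2.2.2.2.2.2.2 b⟩
    mid1 := fun X Y e g => Or.inl ⟨e, W0.on_box p.he0 1 _ (by omega) (fun l a b =>
      ⟨(bd l).1, (bd l).2.1, le_trans (by omega) ((bd l).2.2.2.2.2.1 a), (bd l).2.2.2.1 b⟩) g⟩
    mid2 := fun X Y e g => Or.inr ⟨e, W0.on_box p.he0 1 _ (by omega) (fun l a b =>
      ⟨(bd l).1, (bd l).2.1, (bd l).2.2.1 a, (bd l).2.2.2.2.2.2.1 b⟩) g⟩
    om := fun X Y => om _ _ X Y le_rfl (by omega) le_rfl
    om1 := fun X Y => om _ _ X Y le_rfl (by omega) (by omega)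
    om2 := fun X Y g => ⟨om _ _ X Y (by omega) (by omega) le_rfl g, by
      obtain ⟨-, a, b⟩ := c1_mid W1 hf
      have := (esh_near p.he1 (one _ _ g)).2.1 (2 * p.a + 4) (by omega)
        (by rw [sub_add_cancel, c1_b]; simp only; omega)
      omega⟩
    s1 := fun X Y a g => by
      have o := om _ _ X Y le_rfl (by omega) (by omega) g
      obtain ⟨l, -, e, g⟩ := g.esh (by omega)
      exact c1_s1 W1 hf (pis _ _ a) e o g
    s2 := fun X Y => s2 _ X Y (by omega)
    s3 := fun X Y => s2 _ X Y (by omega)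
    on11 := fun X Y g g' => by
      obtain ⟨l, -, e, g⟩ := g.esh (by omega)
      exact W1.esh_lt 2 _ p.he1 e g (one _ _ g')
    frot := fun X Y => c0_frot W0 (by omega) }⟩

theorem exists_des {k : ℤ} (hk : 2 ≤ k) (a b : ℤ) (ha : 5 ≤ a) (hab : a < b) (hc : IsCoprime a b)
    (hp : (a + b) % 2 = 1) : ∃ p : Par, p.a = a ∧ p.b = b ∧ Nonempty (Des k p) := by
  classical
  have h2 : ∀ z, 2 * b ≠ a * z := fun z e => by
    have := Int.le_of_dvd two_pos (hc.dvd_of_dvd_mul_right ⟨z, e⟩)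
    omega
  obtain ⟨W0⟩ := exists_WB (1 - a % 2) a (-b) (by omega) hc.neg_right (by omega)
  obtain ⟨W1⟩ := exists_WB (1 - b % 2) b a (by omega) hc.symm (by omega)
  obtain ⟨f, hf0, hf⟩ : ∃ f : ℤ, (f = 0 ∨ (f = 1 ∧ 1 - b % 2 = 1)) ∧
      (f = 1 ↔ 1 - b % 2 = 1 ∧ bk W1.toWB0 1) := by
    by_cases h : 1 - b % 2 = 1 ∧ bk W1.toWB0 1
    · exact ⟨1, Or.inr ⟨rfl, h.1⟩, iff_of_true rfl h⟩
    · exact ⟨0, Or.inl rfl, iff_of_false zero_ne_one h⟩
  rcases lt_trichotomy b (2 * a) with h | h | h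
  · exact ⟨⟨a, b, 1 - a % 2, 1 - b % 2, f, 2 * a - 2 * b - 2, b, ha, hab, by omega, by omega, hf0,
      by omega, by omega, by omega, by omega⟩, rfl, rfl,
      des_of_curves hk W0.toWB0 W1 (j := 0) (N := b / 2) le_rfl (by simp) h2 (by omega)
        (by simp only; omega) hf (by simp only; omega) (by simp only; omega)⟩
  · exact absurd (by omega) (h2 4)
  · obtain ⟨r, hr⟩ : ∃ r, r = min (b - 2 * a) (2 * a - 1 - (1 - b % 2)) := ⟨_, rfl⟩
    have e1 := Int.mul_ediv_add_emod (2 * b - 3 * a - r - 1) (2 * a)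
    have e2 := Int.emod_nonneg (2 * b - 3 * a - r - 1) (show 2 * a ≠ 0 by omega)
    have e3 := Int.emod_lt_of_pos (2 * b - 3 * a - r - 1) (show 0 < 2 * a by omega)
    have e4 := Int.ediv_nonneg (show 0 ≤ 2 * b - 3 * a - r - 1 by omega) (show 0 ≤ 2 * a by omega)
    generalize (2 * b - 3 * a - r - 1) / (2 * a) = j at e1 e4
    rw [mul_assoc] at e1
    have e5 : a * j = 0 ∨ a ≤ a * j := by
      rcases eq_or_lt_of_le e4 with rfl | g
      · exact Or.inl (mul_zero a)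
      · exact Or.inr (by nlinarith)
    exact ⟨⟨a, b, 1 - a % 2, 1 - b % 2, f, 2 * (1 - b % 2) - 2 * a, b - a * j, ha, hab, by omega,
      by omega, hf0, by omega, by omega, by omega, by omega⟩, rfl, rfl,
      des_of_curves hk W0.toWB0 W1 (j := j) (N := a - 1) e4 rfl h2 (by omega)
        (by simp only; omega) hf (by simp only; omega) (by simp only; omega)⟩

end NP
end Pool.Agent.Lib.MP_4a7072_co
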