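import Pool.Agent.Lib.MP_4a7072_co.NFine

/-!
The two curves of the design: envelopes, and their position relative to the connecting path.
-/

set_option autoImplicit false

namespace Pool.Agent.Lib.MP_4a7072_co
namespace NP

theorem On.esh {e i j X Y : ℤ} {w : ℤ → Pt} (h : i < j) (g : On e w i j X Y) :
    ∃ l, i ≤ l ∧ l < j ∧ ESh e (w l) (w (l + 1)) X Y :=
  g.elim (fun a => ⟨i, le_rfl, h, Or.inl a⟩) id

theorem esh_turn {e X Y X' Y' : ℤ} {u v u' v' B : Pt} (g : ESh e u v X Y)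
    (hu : u'.1 - B.1 = B.2 - u.2 ∧ u'.2 - B.2 = u.1 - B.1)
    (hv : v'.1 - B.1 = B.2 - v.2 ∧ v'.2 - B.2 = v.1 - B.1)
    (hX : X' - 2 * B.1 = 2 * B.2 - Y ∧ Y' - 2 * B.2 = X - 2 * B.1) : ESh e v' u' X' Y' := by
  rcases g with g | g | g | g | g
  · exact Or.inr (Or.inl (by omega))
  · exact Or.inl (by omega)
  · exact Or.inr (Or.inr (Or.inl (by omega)))
  · exact Or.inr (Or.inr (Or.inr (Or.inr (by omega))))
  · exact Or.inr (Or.inr (Or.inr (Or.inl (by omega))))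

theorem esh_move {e X Y X' Y' : ℤ} {u v u' v' : Pt} (g : ESh e u v X Y) {c d : ℤ}
    (hu : u'.1 = u.1 + c ∧ u'.2 = u.2 + d) (hv : v'.1 = v.1 + c ∧ v'.2 = v.2 + d)
    (hX : X' = X + 2 * c ∧ Y' = Y + 2 * d) : ESh e u' v' X' Y' := by
  rcases g with g | g | g | g | g
  · exact Or.inl (by omega)
  · exact Or.inr (Or.inl (by omega))
  · exact Or.inr (Or.inr (Or.inl (by omega)))
  · exact Or.inr (Or.inr (Or.inr (Or.inl (by omega))))
  · exact Or.inr (Or.inr (Or.inr (Or.inr (by omega))))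

theorem esh_close {e X Y x y : ℤ} {u v : Pt} (he : e = 0 ∨ e = 1) (h : Stp e u v)
    (g : ESh e u v X Y) (h0 : e = 0 → x % 2 = 1 ∧ y % 2 = 1)
    (h1 : e = 1 → x % 2 = 0 ∧ (2 * (u.1 + u.2) + x + y) % 4 = 0)
    (hs : x + y - e ≤ X + Y ∧ X + Y ≤ x + y + e ∧ y - x - e ≤ Y - X ∧ Y - X ≤ y - x + e) :
    (2 * u.1 = x ∧ 2 * u.2 = y) ∨ (2 * v.1 = x ∧ 2 * v.2 = y) := by
  rcases h.coord he with ⟨e0, c⟩ | ⟨e1, c, d⟩
  · have := h0 e0
    exfalso
    rcases g with g | g | g | g | g <;> omega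
  · have := h1 e1
    rcases g with g | g | g | g | g <;> omega

theorem Sym.per_mul {k q β : ℤ} {E : ℤ → List Dir} {w : ℤ → Pt} {τ : Pt} (S : Sym k E w q β τ)
    (s l : ℤ) : E (2 * q * s + l) = E l := by
  induction s with
  | zero => simp
  | succ s ih => rw [← ih, ← S.per (2 * q * s + l)]; congr 1; ring
  | pred s ih => rw [← ih, ← S.per]; congr 1; ring

namespace WB0

variable {e n m : ℤ} (W : WB0 e n m)

theorem wβq : (W.w (W.β + W.q)).1 = m ∧ (W.w (W.β + W.q)).2 = m + n ∧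
    (W.w (W.β - W.q)).1 = m - n ∧ (W.w (W.β - W.q)).2 = m := by
  have a := W.symB' W.qpos.le le_rfl
  have b := W.per (W.β - W.q)
  rw [show W.β - W.q + 2 * W.q = W.β + W.q by ring] at b
  simp only [Prod.ext_iff, Prod.fst_add, Prod.snd_add] at b
  omega

theorem per' (s l : ℤ) : (W.w (l + 2 * W.q * s)).1 = (W.w l).1 + n * s ∧
    (W.w (l + 2 * W.q * s)).2 = (W.w l).2 + n * s := by
  rw [per_mul W.per]
  simp [mul_comm]

theorem aw1 (Z : Pt) (l : ℤ) :
    (W.aw 1 Z l).1 = Z.1 - (W.w l).2 ∧ (W.aw 1 Z l).2 = Z.2 + (W.w l).1 := by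
  simp only [aw, rotP1, Prod.fst_add, Prod.snd_add]
  omega

theorem aw2 (Z : Pt) (l : ℤ) :
    (W.aw 2 Z l).1 = Z.1 - (W.w l).1 ∧ (W.aw 2 Z l).2 = Z.2 - (W.w l).2 := by
  simp only [aw, rotP2, Prod.fst_add, Prod.snd_add]
  omega

theorem on_box (he : e = 0 ∨ e = 1) (t : Dir) (Z : Pt) {i j s1 s2 t1 t2 X Y : ℤ} (h : i < j)
    (hb : ∀ l, i ≤ l → l ≤ j → s1 ≤ 2 * ((W.aw t Z l).1 + (W.aw t Z l).2) ∧
      2 * ((W.aw t Z l).1 + (W.aw t Z l).2) ≤ s2 ∧ t1 ≤ 2 * ((W.aw t Z l).2 - (W.aw t Z l).1) ∧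
      2 * ((W.aw t Z l).2 - (W.aw t Z l).1) ≤ t2) (g : On e (W.aw t Z) i j X Y) :
    Box s1 s2 t1 t2 e X Y := by
  obtain ⟨l, a, b, g⟩ := g.esh h
  exact esh_box he (W.aw_stp t Z l) g (hb l a b.le) (hb (l + 1) (by omega) b)

end WB0

section First

variable {p : Par} (W : WB0 p.e0 p.a (-p.b)) {j : ℤ}

theorem Par.he0 (p : Par) : p.e0 = 0 ∨ p.e0 = 1 := by have := p.he; omega

theorem Par.he1 (p : Par) : p.e1 = 0 ∨ p.e1 = 1 := by have := p.he; omega

/-- The first curve. -/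
def cw0 : ℤ → Pt := W.aw 1 (p.a, 2 * p.a)

theorem cw0_eq (l : ℤ) : (cw0 W l).1 = p.a - (W.w l).2 ∧ (cw0 W l).2 = 2 * p.a + (W.w l).1 :=
  W.aw1 _ l

theorem c0_bounds (hx : p.x0 = p.b - p.a * j) (l : ℤ) :
    4 * p.a ≤ 2 * ((cw0 W l).1 + (cw0 W l).2) ∧ 2 * ((cw0 W l).1 + (cw0 W l).2) ≤ 6 * p.a ∧
    (W.β ≤ l → 2 * p.a - 4 * p.b ≤ 2 * ((cw0 W l).2 - (cw0 W l).1)) ∧
    (l ≤ W.β → 2 * ((cw0 W l).2 - (cw0 W l).1) ≤ 2 * p.a - 4 * p.b) ∧
    (W.β + W.q ≤ l → 4 * p.a - 4 * p.b ≤ 2 * ((cw0 W l).2 - (cw0 W l).1)) ∧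
    (W.β + W.q + 2 * W.q * j - 2 * W.q ≤ l → -4 * p.x0 ≤ 2 * ((cw0 W l).2 - (cw0 W l).1)) ∧
    (l ≤ W.β + W.q + 2 * W.q * j - 2 * W.q → 2 * ((cw0 W l).2 - (cw0 W l).1) ≤ -4 * p.x0) ∧
    (l ≤ W.β + W.q + 2 * W.q * j → 2 * ((cw0 W l).2 - (cw0 W l).1) ≤ 4 * p.a - 4 * p.x0) := by
  have a := cw0_eq W l
  have b := W.strip l
  have c := W.monoB l
  have d : _ ∧ _ ∧ _ ∧ (l ≤ W.β + 2 * W.q * j - W.q → (W.w l).1 + (W.w l).2 ≤ _) ∧
    (l ≤ W.β + 2 * W.q * j + W.q → (W.w l).1 + (W.w l).2 ≤ _) ∧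
    (W.β + 2 * W.q * j - W.q ≤ l → _ ≤ (W.w l).1 + (W.w l).2) := (W.shift j).monoB l
  obtain ⟨-, -, -, d1, d2, d3⟩ := d
  obtain ⟨c1, c2, c3, -⟩ := c
  rw [mul_comm j] at d1 d2 d3
  refine ⟨by omega, by omega, fun h => ?_, fun h => ?_, fun h => ?_, fun h => ?_, fun h => ?_,
    fun h => ?_⟩
  · have := c1 h; omega
  · have := c2 h; omega
  · have := c3 h; omega
  · have := d3 (by omega); omega
  · have := d1 (by omega); omega
  · have := d2 (by omega); omega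

theorem c0_b : cw0 W W.β = (p.a + p.b, 2 * p.a - p.b) := by
  have a := cw0_eq W W.β
  rw [W.wβ] at a
  exact Prod.ext (by simp only at a ⊢; omega) (by simp only at a ⊢; omega)

theorem c0_J (s : ℤ) :
    cw0 W (W.β + W.q + 2 * W.q * s) = (p.b - p.a * s, 2 * p.a - (p.b - p.a * s)) := by
  have a := cw0_eq W (W.β + W.q + 2 * W.q * s)
  have b := W.per' s (W.β + W.q)
  have c := W.wβq
  exact Prod.ext (by simp only; omega) (by simp only; omega)

theorem c0_P (s : ℤ) : cw0 W (2 * W.q * s) = (p.a - p.a * s, 2 * p.a + p.a * s) := by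
  have a := cw0_eq W (2 * W.q * s)
  have b := W.per' s 0
  rw [zero_add, W.w0] at b
  exact Prod.ext (by simp only at b ⊢; omega) (by simp only at b ⊢; omega)

theorem c0_M (s : ℤ) : cw0 W (W.q + 2 * W.q * s) = (-(p.a * s), 2 * p.a + p.a * s) := by
  have a := cw0_eq W (W.q + 2 * W.q * s)
  have b := W.per' s W.q
  rw [W.wq] at b
  exact Prod.ext (by simp only at b ⊢; omega) (by simp only at b ⊢; omega)

theorem c0_frot {J X Y : ℤ} (hJ : W.β < J)
    (g : On p.e0 (cw0 W) W.β J (X - 2 * p.b) (Y - 2 * p.b))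
    (g' : On p.e0 (cw0 W) W.β J (6 * p.a + 2 * p.b - Y) (2 * p.a - 6 * p.b + X)) :
    X = 2 * p.a + 4 * p.b ∧ Y = 4 * p.a := by
  obtain ⟨l, a, -, g⟩ := g.esh hJ
  obtain ⟨l', a', -, g'⟩ := g'.esh hJ
  have hb := c0_b W
  by_cases h : l < W.β + W.q
  · have s : ∀ i, W.β ≤ i → i ≤ W.β + W.q →
        (cw0 W (2 * W.β - i)).1 - (p.a + p.b) = 2 * p.a - p.b - (cw0 W i).2 ∧
        (cw0 W (2 * W.β - i)).2 - (2 * p.a - p.b) = (cw0 W i).1 - (p.a + p.b) := fun i c d => by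
      have e1 := W.symB' (i := i - W.β) (by omega) (by omega)
      rw [add_sub_cancel, show W.β - (i - W.β) = 2 * W.β - i by ring] at e1
      have e2 := cw0_eq W i
      have e3 := cw0_eq W (2 * W.β - i)
      omega
    have t := esh_turn (B := (p.a + p.b, 2 * p.a - p.b)) (X' := 6 * p.a + 2 * p.b - Y)
      (Y' := 2 * p.a - 6 * p.b + X) g (s l a h.le) (s (l + 1) (by omega) h) (by simp only; omega)
    rw [show 2 * W.β - l = 2 * W.β - (l + 1) + 1 by ring] at t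
    obtain ⟨e1, e2⟩ : _ = 2 * (cw0 W l').1 ∧ _ = 2 * (cw0 W l').2 :=
      W.esh_lt 1 _ p.he0 (by omega) t g'
    rw [e1, e2] at t
    have := W.esh_vertex 1 _ p.he0 t
    obtain rfl : l' = W.β := by omega
    rw [hb] at e1 e2
    simp only at e1 e2
    omega
  · exfalso
    have u := p.ha
    have hp := p.hpar.1
    have n1 := esh_near p.he0 g
    have n2 := esh_near p.he0 g'
    have c := fun l => cw0_eq W l
    have m := fun l => W.monoB l
    have s := fun l => W.strip l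
    have k1 := n1.2.1 (6 * p.a) (by have := c l; have := s l; omega)
      (by have := c (l + 1); have := s (l + 1); omega)
    have k2 := n1.2.2 (4 * p.a - 4 * p.b) (by have := c l; have := (m l).2.2.1 (by omega); omega)
      (by have := c (l + 1); have := (m (l + 1)).2.2.1 (by omega); omega)
    have k3 := n2.1 (4 * p.a) (by have := c l'; have := s l'; omega)
      (by have := c (l' + 1); have := s (l' + 1); omega)
    have k4 := n2.2.2 (2 * p.a - 4 * p.b) (by have := c l'; have := (m l').1 a'; omega)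
      (by have := c (l' + 1); have := (m (l' + 1)).1 (by omega); omega)
    clear n1 n2
    rcases esh_close (x := p.a + 2 * p.b) (y := 3 * p.a - 2 * p.b) p.he0 (W.aw_stp 1 _ l') g'
      (fun e => by omega) (fun e => by
        have : ((cw0 W l').1 + (cw0 W l').2 + p.a + 2 * p.a) % 2 = 0 := W.aw_par 1 _ e l'
        change _ ∧ (2 * ((cw0 W l').1 + (cw0 W l').2) + _ + _) % 4 = 0
        omega) (by omega) with e | e
    · change 2 * (cw0 W l').1 = _ ∧ 2 * (cw0 W l').2 = _ at e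
      have := c l'
      have := W.kB l' (by omega) (by omega)
      omega
    · change 2 * (cw0 W (l' + 1)).1 = _ ∧ 2 * (cw0 W (l' + 1)).2 = _ at e
      have := c (l' + 1)
      have := W.kB (l' + 1) (by omega) (by omega)
      omega

end First

section Second

variable {e a b : ℤ}

/-- The second curve. -/
def cw1 (W : WB0 e b a) : ℤ → Pt := W.aw 2 (a, 2 * a)

/-- The point `(i, a - i)` lies on the second curve, before its second centre. -/
def bk (W : WB0 e b a) (i : ℤ) : Prop := ∃ l, l ≤ W.β ∧ cw1 W l = (i, a - i)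

variable (W : WB0 e b a)

theorem cw1_eq (l : ℤ) : (cw1 W l).1 = a - (W.w l).1 ∧ (cw1 W l).2 = 2 * a - (W.w l).2 :=
  W.aw2 _ l

theorem c1_b : cw1 W W.β = (0, a) := by
  have h := cw1_eq W W.β
  rw [W.wβ] at h
  exact Prod.ext (by simp only at h ⊢; omega) (by simp only at h ⊢; omega)

theorem c1_c : cw1 W (W.β - W.q) = (b, a) := by
  have h := cw1_eq W (W.β - W.q)
  have := W.wβq
  exact Prod.ext (by simp only; omega) (by simp only; omega)

theorem c1_zero : cw1 W 0 = (a, 2 * a) := by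
  have h := cw1_eq W 0
  rw [W.w0] at h
  exact Prod.ext (by simp only at h ⊢; omega) (by simp only at h ⊢; omega)

theorem c1_q : cw1 W W.q = (a, 2 * a - b) := by
  have h := cw1_eq W W.q
  rw [W.wq] at h
  exact Prod.ext (by simp only at h ⊢; omega) (by simp only at h ⊢; omega)

theorem c1_nq : cw1 W (-W.q) = (a + b, 2 * a) := by
  have h := cw1_eq W (-W.q)
  have g := W.symA' W.qpos.le le_rfl
  rw [W.wq] at g
  exact Prod.ext (by simp only at g ⊢; omega) (by simp only at g ⊢; omega)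

theorem c1_idx (ha : 0 < a) (hab : a < b) :
    0 < W.β ∧ W.β < 2 * W.q ∧ (b < 2 * a → W.q < W.β) ∧ (2 * a < b → W.β < W.q) := by
  have h := W.monoA W.β
  have g := (W.monoA (W.β - 2 * W.q)).1
  have f := W.perξ (W.β - 2 * W.q)
  rw [sub_add_cancel] at f
  rw [W.wβ] at h f
  simp only at h f
  omega

theorem c1_S (l : ℤ) : (l ≤ W.β → a ≤ (cw1 W l).1 + (cw1 W l).2) ∧
    (W.β ≤ l → (cw1 W l).1 + (cw1 W l).2 ≤ a) ∧
    (W.β - 2 * W.q ≤ l → (cw1 W l).1 + (cw1 W l).2 ≤ a + 2 * b) ∧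
    a - b ≤ (cw1 W l).2 - (cw1 W l).1 ∧ (cw1 W l).2 - (cw1 W l).1 ≤ a := by
  have h := cw1_eq W l
  have g := W.monoB l
  have f := (W.monoB (l + 2 * W.q)).1
  have s := W.strip l
  rw [W.perξ] at f
  refine ⟨fun c => ?_, fun c => ?_, fun c => ?_, by omega, by omega⟩
  · have := g.2.1 c; omega
  · have := g.1 c; omega
  · have := f (by omega); omega

theorem c1_inj {l l' : ℤ} (h : cw1 W l = cw1 W l') : l = l' := W.aw_inj 2 _ h

theorem c1_last (he : e = 0 ∨ e = 1) :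
    (e = 0 ∧ cw1 W (W.β - 1) = (1, a) ∧ W.d (W.β - 1) + 2 = 2) ∨
    (e = 1 ∧ cw1 W (W.β - 1) = (1, a + 1) ∧ W.d (W.β - 1) + 2 = 2 ∧ ¬bk W 1) ∨
    (e = 1 ∧ cw1 W (W.β - 1) = (1, a - 1) ∧ W.d (W.β - 1) + 2 = 1 ∧ bk W 1) := by
  have s : cw1 W (W.β - 1 + 1) = cw1 W (W.β - 1) + stepv e (W.d (W.β - 1) + 2) :=
    W.aw_step 2 _ _
  rw [sub_add_cancel, c1_b] at s
  have c := c1_S W (W.β - 1)
  have c1 := c.1 (by omega)
  have c2 := c.2.2.2.2
  clear c
  simp only [Prod.ext_iff, Prod.fst_add, Prod.snd_add] at s ⊢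
  rcases he with rfl | rfl <;> rcases dir_cases (W.d (W.β - 1) + 2) with h | h | h | h <;>
    rw [h] at s ⊢ <;> simp [stepv, dv] at s <;> try omega
  · exact Or.inl ⟨rfl, by omega, rfl⟩
  · exact Or.inr (Or.inr ⟨rfl, by omega, rfl, W.β - 1, by omega, Prod.ext (by omega) (by omega)⟩)
  · refine Or.inr (Or.inl ⟨rfl, by omega, rfl, ?_⟩)
    rintro ⟨l, h1, h2⟩
    have g := W.symB' zero_le_one W.qpos
    have g1 := cw1_eq W (W.β - 1)
    have g2 := cw1_eq W (W.β + 1)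
    have := c1_inj W (h2.trans (Prod.ext (by simp only; omega) (by simp only; omega) :
      _ = cw1 W (W.β + 1)))
    omega

end Second

section SecondPar

variable {p : Par} (W : WB p.e1 p.b p.a)

theorem c1_om
    (hr : 2 * p.a < p.b → 3 * p.a + 1 + min (p.b - 2 * p.a) (2 * p.a - 1 - p.e1) ≤ 2 * p.x0)
    {l X Y : ℤ} (h1 : W.β - 2 * W.q ≤ l) (h2 : l < W.β)
    (g : ESh p.e1 (cw1 W.toWB0 l) (cw1 W.toWB0 (l + 1)) X Y) : p.Om X Y := by
  have u := p.aux
  have n := esh_near p.he1 g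
  have c := fun l => cw1_eq W.toWB0 l
  have S := fun l => c1_S W.toWB0 l
  have dep : ∀ l, 0 ≤ l → l ≤ W.β → (W.w l).2 - (W.w l).1 ≤ 2 * p.a - 1 - p.e1 := fun l a b => by
    have := (W.dep (by omega) l a b).1
    rcases p.he1 with e | e
    · omega
    · have := W.par e l; omega
  have d3 : p.TG + p.e0 < Y - X ∨ 6 * p.a - p.e1 ≤ X + Y := by
    rcases p.hT with t | t
    · have := n.2.2 (2 * p.a - 2 * p.b) (by have := (S l).2.2.2.1; omega)
        (by have := (S (l + 1)).2.2.2.1; omega)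
      omega
    · by_cases h : l < 0
      · exact Or.inr (n.1 _ (by have := (W.monoA l).2.1 h.le; have := c l; omega)
          (by have := (W.monoA (l + 1)).2.1 h; have := c (l + 1); omega))
      · have := n.2.2 (2 - 2 * p.a + 2 * p.e1)
          (by have := dep l (by omega) h2.le; have := c l; omega)
          (by have := dep (l + 1) (by omega) h2; have := c (l + 1); omega)
        omega
  have st : Stp p.e1 (cw1 W.toWB0 l) (cw1 W.toWB0 (l + 1)) := W.aw_stp 2 _ l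
  refine ⟨esh_box p.he1 st g ?_ ?_, d3, ?_⟩
  · have := (S l).1 h2.le; have := (S l).2.2.1 h1; have := (S l).2.2.2; omega
  · have := (S (l + 1)).1 h2; have := (S (l + 1)).2.2.1 (by omega); have := (S (l + 1)).2.2.2
    omega
  rcases p.hT with t | t
  · have := n.2.2 (2 * p.a - 2 * p.b) (by have := (S l).2.2.2.1; omega)
      (by have := (S (l + 1)).2.2.2.1; omega)
    omega
  obtain ⟨b1, b2, b3⟩ := W.big (by omega) t.1
  have i := (c1_idx W.toWB0 (by omega) p.hab).1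
  have hr := hr t.1
  by_cases h : l < -(2 * W.β)
  · have far : ∀ l, l ≤ -(2 * W.β) → (W.w l).1 + (W.w l).2 ≤ -(2 * p.a) := fun l a => by
      by_cases g : l ≤ -W.q
      · have := (W.monoA l).2.2.2.1 g; omega
      · have := W.symA' (i := -l) (by omega) (by omega)
        rw [neg_neg] at this
        have := b3 (-l) (by omega) (by omega)
        omega
    exact Or.inr (n.1 _ (by have := far l h.le; have := c l; omega)
      (by have := far (l + 1) h; have := c (l + 1); omega))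
  · have near : ∀ l, -(2 * W.β) ≤ l → l ≤ W.β → (W.w l).2 - (W.w l).1 ≤
        2 * p.a + min (p.b - 2 * p.a) (2 * p.a - 1 - p.e1) := fun l a b => by
      by_cases g : 0 ≤ l
      · have := dep l g b; omega
      have := W.symA' (i := -l) (by omega) (by omega)
      rw [neg_neg] at this
      by_cases g' : -l ≤ W.β
      · have := (W.monoB (-l)).2.1 g'; omega
      have e := W.symB' (i := -l - W.β) (by omega) (by omega)
      rw [add_sub_cancel] at e
      have := dep (W.β - (-l - W.β)) (by omega) (by omega)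
      have := b2 (W.β - (-l - W.β)) (by omega) (by omega)
      omega
    have := n.2.2 (-2 * p.a - 2 * min (p.b - 2 * p.a) (2 * p.a - 1 - p.e1))
      (by have := near l (by omega) h2.le; have := c l; omega)
      (by have := near (l + 1) (by omega) h2; have := c (l + 1); omega)
    omega

theorem c1_not_bk {N : ℤ} (hN : p.TG = 2 * p.a - 4 * N - 4 + 2 * p.e1) (he : p.e1 = 1) :
    ¬bk W.toWB0 N := by
  rintro ⟨l, h1, h2⟩
  have u := p.aux
  have c := cw1_eq W.toWB0 l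
  rw [h2] at c
  simp only at c
  rcases p.hT with t | t
  · have := W.kB l (by omega) (by omega); omega
  · have h0 : 0 ≤ l := by
      by_contra h
      have := (W.monoA l).2.1 (by omega); omega
    have h3 : l ≠ W.β := by
      rintro rfl
      rw [c1_b] at h2
      simp only [Prod.ext_iff] at h2
      omega
    have := (W.dep (by omega) l h0 h1).2 (by omega) he (by omega)
    omega

theorem c1_blk {l i X Y : ℤ} {s s' : Prop} (g : ESh p.e1 (cw1 W.toWB0 l) (cw1 W.toWB0 (l + 1)) X Y)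
    (b : Blk p.e1 s s' (X - 2 * i) (Y - 2 * p.a + 2 * i)) :
    (s' ∧ ((cw1 W.toWB0 l = (i, p.a - i) ∧
        (cw1 W.toWB0 (l + 1)).1 + (cw1 W.toWB0 (l + 1)).2 < i + (p.a - i)) ∨
      (cw1 W.toWB0 (l + 1) = (i, p.a - i) ∧
        (cw1 W.toWB0 l).1 + (cw1 W.toWB0 l).2 < i + (p.a - i)))) ∨
    (¬s' ∧ ((cw1 W.toWB0 l = (i, p.a - i) ∧
        i + (p.a - i) < (cw1 W.toWB0 (l + 1)).1 + (cw1 W.toWB0 (l + 1)).2) ∨
      (cw1 W.toWB0 (l + 1) = (i, p.a - i) ∧
        i + (p.a - i) < (cw1 W.toWB0 l).1 + (cw1 W.toWB0 l).2))) ∨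
    (¬(s ↔ s') ∧ ((cw1 W.toWB0 l = (i - 1, p.a - i + 1) ∧ cw1 W.toWB0 (l + 1) = (i, p.a - i)) ∨
      (cw1 W.toWB0 l = (i, p.a - i) ∧ cw1 W.toWB0 (l + 1) = (i - 1, p.a - i + 1)))) :=
  blk_esh p.he1 (W.aw_stp 2 _ l) (fun e => by
    have : ((cw1 W.toWB0 l).1 + (cw1 W.toWB0 l).2 + p.a + 2 * p.a) % 2 = 0 := W.aw_par 2 _ e l
    omega) g (by rwa [show Y - 2 * (p.a - i) = Y - 2 * p.a + 2 * i by ring])

theorem c1_s0 {N l X Y : ℤ} (h : Pis p (bk W.toWB0) N X Y) (h2 : l < W.β) (o : p.Om X Y)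
    (g : ESh p.e1 (cw1 W.toWB0 l) (cw1 W.toWB0 (l + 1)) X Y) :
    (X = 0 ∧ Y = 2 * p.a) ∨ (X = 1 - p.f ∧ Y = 2 * p.a - p.f) := by
  rcases h with h | h | ⟨i, i1, -, h⟩ | h
  · exact Or.inl h
  · exact Or.inr h
  · exfalso
    have s1 := (c1_S W.toWB0 l).1 h2.le
    have s2 := (c1_S W.toWB0 (l + 1)).1 h2
    rcases c1_blk W g h with ⟨-, c⟩ | ⟨c, d | d⟩ | ⟨c, d⟩
    · omega
    · exact c ⟨l, h2.le, d.1⟩
    · exact c ⟨l + 1, h2, d.1⟩
    · rcases eq_or_lt_of_le i1 with rfl | i2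
      · exact c Iff.rfl
      rw [max_eq_left (by omega)] at c
      rw [show p.a - i + 1 = p.a - (i - 1) by ring] at d
      rcases d with d | d
      · exact c (iff_of_true ⟨l, h2.le, d.1⟩ ⟨l + 1, h2, d.2⟩)
      · exact c (iff_of_true ⟨l + 1, h2, d.2⟩ ⟨l, h2.le, d.1⟩)
  · have := o.d3
    have := p.aux
    omega

theorem c1_mid (hf : p.f = 1 ↔ p.e1 = 1 ∧ bk W.toWB0 1) :
    ESh p.e1 (cw1 W.toWB0 (W.β - 1)) (cw1 W.toWB0 (W.β - 1 + 1)) (1 - p.f) (2 * p.a - p.f) ∧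
      (cw1 W.toWB0 (W.β - 1)).1 = 1 ∧ (cw1 W.toWB0 (W.β - 1)).2 ≤ p.a + 1 := by
  rw [sub_add_cancel, c1_b]
  have u := p.hf
  rcases c1_last W.toWB0 p.he1 with ⟨e, h, -⟩ | ⟨e, h, -, b⟩ | ⟨e, h, -, b⟩ <;> rw [h] <;>
    refine ⟨?_, rfl, by simp only; omega⟩
  · exact Or.inr (Or.inr (Or.inl (by simp only; omega)))
  · have : p.f ≠ 1 := fun c => b (hf.1 c).2
    exact Or.inr (Or.inr (Or.inr (Or.inl (by simp only; omega))))
  · have := hf.2 ⟨e, b⟩
    exact Or.inr (Or.inr (Or.inr (Or.inr (by simp only; omega))))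

theorem c1_s1 (hf : p.f = 1 ↔ p.e1 = 1 ∧ bk W.toWB0 1) {N l X Y : ℤ}
    (h : Pis p (bk W.toWB0) N X Y) (h2 : l < W.β - 1) (o : p.Om X Y)
    (g : ESh p.e1 (cw1 W.toWB0 l) (cw1 W.toWB0 (l + 1)) X Y) : False := by
  rcases c1_s0 W h (by omega) o g with ⟨rfl, rfl⟩ | ⟨rfl, rfl⟩
  · have := W.esh_vertex 2 _ p.he1 (i := W.β) (l := l) (by
      change ESh _ _ _ (2 * (cw1 W.toWB0 W.β).1) (2 * (cw1 W.toWB0 W.β).2)
      rw [c1_b]
      exact g)
    omega
  · obtain ⟨m, m1, -⟩ := c1_mid W hf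
    have : _ = 2 * (cw1 W.toWB0 (W.β - 1)).1 ∧ _ := W.esh_lt 2 _ p.he1 h2 g m
    have := p.aux
    omega

theorem c1_s2 (hf : p.f = 1 ↔ p.e1 = 1 ∧ bk W.toWB0 1) {N l X Y : ℤ}
    (h : Pis p (bk W.toWB0) N X Y) (h2 : W.β ≤ l)
    (g : ESh p.e1 (cw1 W.toWB0 l) (cw1 W.toWB0 (l + 1)) X Y) : X = 0 ∧ Y = 2 * p.a := by
  have s1 := (c1_S W.toWB0 l).2.1 h2
  have s2 := (c1_S W.toWB0 (l + 1)).2.1 (by omega)
  have nb : ∀ i l, 1 ≤ i → W.β ≤ l → cw1 W.toWB0 l = (i, p.a - i) → ¬bk W.toWB0 i := by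
    rintro i l a b c ⟨l', d, e⟩
    obtain rfl := c1_inj _ (c.trans e.symm)
    obtain rfl : l = W.β := by omega
    rw [c1_b] at c
    simp only [Prod.ext_iff] at c
    omega
  rcases h with h | ⟨rfl, rfl⟩ | ⟨i, i1, -, h⟩ | h
  · exact h
  · have := W.esh_lt 2 _ p.he1 (show W.β - 1 < l by omega) (c1_mid W hf).1 g
    have := p.hf
    omega
  · exfalso
    rcases c1_blk W g h with ⟨c, d | d⟩ | ⟨-, c⟩ | ⟨c, d⟩
    · exact nb i l i1 h2 d.1 c
    · exact nb i (l + 1) i1 (by omega) d.1 c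
    · omega
    · rcases eq_or_lt_of_le i1 with rfl | i2
      · exact c Iff.rfl
      rw [max_eq_left (by omega)] at c
      rw [show p.a - i + 1 = p.a - (i - 1) by ring] at d
      rcases d with d | d
      · exact c (iff_of_false (nb _ l (by omega) h2 d.1) (nb i (l + 1) i1 (by omega) d.2))
      · exact c (iff_of_false (nb _ (l + 1) (by omega) (by omega) d.2) (nb i l i1 h2 d.1))
  · have := (esh_near p.he1 g).2.1 (2 * p.a) (by omega) (by omega)
    omega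

end SecondPar

end NP
end Pool.Agent.Lib.MP_4a7072_co
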