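import Mathlib

/-!
Linear envelopes of the pieces of the pinwheel design (doubled coordinates).
-/

set_option autoImplicit false

namespace Pool.Agent.Lib.MP_4a7072_co
namespace NP

/-- The numerical parameters of the design. -/
structure Par where
  a : ℤ
  b : ℤ
  e0 : ℤ
  e1 : ℤ
  f : ℤ
  TG : ℤ
  x0 : ℤ
  ha : 5 ≤ a
  hab : a < b
  he : (e0 = 0 ∧ e1 = 1) ∨ (e0 = 1 ∧ e1 = 0)
  hpar : (a + e0) % 2 = 1 ∧ (b + e1) % 2 = 1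
  hf : f = 0 ∨ (f = 1 ∧ e1 = 1)
  hT : (b < 2 * a ∧ TG = 2 * a - 2 * b - 2 ∧ x0 = b) ∨ (2 * a < b ∧ TG = 2 * e1 - 2 * a)
  hx : x0 = b ∨ x0 ≤ b - a
  hx1 : 4 * a - 4 * x0 ≤ TG
  hx2 : 2 * x0 < 7 * a

/-- A diagonal box, with bulges of size `e`. -/
structure Box (s1 s2 t1 t2 e X Y : ℤ) : Prop where
  lin : s1 - e ≤ X + Y ∧ X + Y ≤ s2 + e ∧ t1 - e ≤ Y - X ∧ Y - X ≤ t2 + e ∧
    s1 - t2 ≤ 2 * X ∧ 2 * X ≤ s2 - t1 ∧ s1 + t1 ≤ 2 * Y ∧ 2 * Y ≤ s2 + t2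
  d1 : (s1 ≤ X + Y ∧ X + Y ≤ s2) ∨ X % 2 = 0
  d2 : (t1 ≤ Y - X ∧ Y - X ≤ t2) ∨ Y % 2 = 0

/-- The point `(X, Y)` lies in a region that misses `E` and from every point of which one of two
fixed adjacent steps stays in the region. -/
def Esc (E : ℤ → ℤ → Prop) (X Y : ℤ) : Prop :=
  ∃ A : ℤ → ℤ → Prop, A X Y ∧ (∀ X Y, A X Y → ¬E X Y) ∧
    ((∀ X Y, A X Y → A (X + 1) Y ∨ A X (Y + 1)) ∨ (∀ X Y, A X Y → A X (Y + 1) ∨ A (X - 1) Y) ∨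
      (∀ X Y, A X Y → A (X - 1) Y ∨ A X (Y - 1)) ∨ ∀ X Y, A X Y → A X (Y - 1) ∨ A (X + 1) Y)

namespace Par

variable (p : Par)

theorem aux : 5 ≤ p.a ∧ p.a < p.b ∧ 4 * p.a - 4 * p.x0 ≤ p.TG ∧ 2 * p.x0 < 7 * p.a ∧
    0 ≤ p.e0 ∧ 0 ≤ p.e1 ∧ p.e0 + p.e1 = 1 ∧ p.x0 ≤ p.b ∧ p.a < p.x0 ∧
    -2 * p.a ≤ p.TG ∧ p.TG ≤ -4 ∧ 0 ≤ p.f ∧ p.f ≤ p.e1 := by
  have h1 := p.ha; have h2 := p.hab; have h3 := p.he; have h4 := p.hf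
  have h5 := p.hT; have h6 := p.hx; have h7 := p.hx1; have h8 := p.hx2
  omega

/-- Envelope of the path `σ`. -/
structure Ls (X Y : ℤ) : Prop where
  lin : 2 * p.a - 2 - p.e1 ≤ X + Y ∧ X + Y ≤ 4 * p.a ∧ 4 * p.a - 4 * p.x0 - 1 ≤ Y - X ∧
    Y - X ≤ 2 * p.a ∧ 0 ≤ X ∧ Y ≤ 2 * p.a
  d1 : 2 * p.a + 2 ≤ X + Y ∨ (1 + p.e1 ≤ Y ∧ p.TG + 1 ≤ Y - X)
  d2 : Y - X ≤ 2 * p.a - 2 ∨ X + Y ≤ 2 * p.a + 1
  d3 : Y - X ≤ p.TG + p.e0 ∨ (X + Y ≤ 2 * p.a + 2 + p.e1 ∧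
    (p.e1 = 1 ∨ X % 2 = 1 ∨ Y % 2 = 1 ∨ (X = 0 ∧ Y = 2 * p.a)))
  d4 : X + Y ≤ 4 * p.a - 2 ∨ (X = 2 * p.x0 ∧ Y = 4 * p.a - 2 * p.x0) ∨
    (X = 2 * p.x0 - p.e0 ∧ Y = 4 * p.a - 2 * p.x0 - p.e1)
  d5 : 1 ≤ X ∨ Y = 2 * p.a ∨ p.f = 1
  d6 : Y < 2 * p.a ∨ X = 0 ∨ p.f = 0

/-- Envelope of the window of the first curve. -/
def Win (X Y : ℤ) : Prop := Box (4 * p.a) (6 * p.a) (-4 * p.x0) (4 * p.a - 4 * p.x0) p.e0 X Y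

/-- Envelope of the part of the first curve that bounds the larger piece. -/
def Mu (X Y : ℤ) : Prop := Box (4 * p.a) (6 * p.a) (2 * p.a - 4 * p.b) (4 * p.a - 4 * p.x0) p.e0 X Y

/-- Envelope of the part of the first curve that bounds the union. -/
def Mid (X Y : ℤ) : Prop :=
  (p.x0 = p.b ∧ Box (4 * p.a) (6 * p.a) (-4 * p.b) (2 * p.a - 4 * p.b) p.e0 X Y) ∨
  (p.x0 < p.b ∧ Box (4 * p.a) (6 * p.a) (2 * p.a - 4 * p.b) (-4 * p.x0) p.e0 X Y)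

/-- Envelope of the window of the second curve. -/
structure Om (X Y : ℤ) : Prop
    extends Box (2 * p.a) (2 * p.a + 4 * p.b) (2 * p.a - 2 * p.b) (2 * p.a) p.e1 X Y where
  d3 : p.TG + p.e0 < Y - X ∨ 6 * p.a - p.e1 ≤ X + Y
  d4 : 4 * p.a - 4 * p.x0 + p.e0 < Y - X ∨ 10 * p.a - p.e1 ≤ X + Y

/-- Envelope of the radial cut of the small piece. -/
structure Ra (X Y : ℤ) : Prop where
  lin : -p.e1 ≤ X ∧ X ≤ 0 ∧ 0 ≤ Y ∧ Y ≤ 2 * p.a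
  d1 : X = -p.e1 ∨ Y = 0 ∨ Y = 2 * p.a

/-- Envelope of the radial cut of the larger piece. -/
structure Rb (X Y : ℤ) : Prop where
  lin : Y = 4 * p.a - 2 * p.b ∧ 2 * p.a + 2 * p.b ≤ X ∧ X ≤ 2 * p.a + 4 * p.b

/-- Envelope of a quarter of the small piece. -/
def Qa (X Y : ℤ) : Prop := p.Ls (X - 2 * p.a) (Y + 2 * p.a) ∨ p.Win X Y ∨ p.Ls X Y

/-- Envelope of a quarter of the larger piece. -/
def Qb (X Y : ℤ) : Prop :=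
  p.Mu (X - 2 * p.b) (Y - 2 * p.b) ∨ p.Ls (X - 2 * p.b) (Y - 2 * p.b) ∨ p.Om X Y ∨ p.Ls X Y ∨
    p.Mu X Y

/-- Both radial cuts of the small piece. -/
def RR (X Y : ℤ) : Prop := p.Ra X Y ∨ p.Ra Y (-X)

/-- Both radial cuts of the larger piece. -/
def RRb (X Y : ℤ) : Prop := p.Rb X Y ∨ p.Rb (6 * p.b - 2 * p.a + Y) (6 * p.a + 2 * p.b - X)

/-- A quarter of the larger piece without its last part. -/
def Qb2 (X Y : ℤ) : Prop :=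
  p.Mu (X - 2 * p.b) (Y - 2 * p.b) ∨ p.Ls (X - 2 * p.b) (Y - 2 * p.b) ∨ p.Om X Y ∨ p.Ls X Y

/-- The part of the boundary of the union that comes from the small piece. -/
def A1 (X Y : ℤ) : Prop :=
  p.RR X Y ∨ p.Qa (-X) (-Y) ∨ p.Qa (-Y) X ∨ p.Ls (X - 2 * p.a) (Y + 2 * p.a)

/-- The part of the boundary of the union that comes from the larger piece. -/
def A3 (X Y : ℤ) : Prop :=
  p.RRb X Y ∨ p.Qb (4 * p.a + 8 * p.b - X) (8 * p.a - 4 * p.b - Y) ∨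
    p.Qb (6 * p.a + 2 * p.b - Y) (2 * p.a - 6 * p.b + X) ∨
    p.Mu (X - 2 * p.b) (Y - 2 * p.b) ∨ p.Ls (X - 2 * p.b) (Y - 2 * p.b) ∨ p.Om X Y

/-- Envelope of the boundary of the small piece. -/
def EA (X Y : ℤ) : Prop := p.RR X Y ∨ p.Qa (-X) (-Y) ∨ p.Qa (-Y) X ∨ p.Qa X Y

/-- Envelope of the boundary of the larger piece. -/
def EB (X Y : ℤ) : Prop :=
  p.RRb X Y ∨ p.Qb (4 * p.a + 8 * p.b - X) (8 * p.a - 4 * p.b - Y) ∨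
    p.Qb (6 * p.a + 2 * p.b - Y) (2 * p.a - 6 * p.b + X) ∨ p.Qb X Y

/-- Envelope of the boundary of the union. -/
def EC (X Y : ℤ) : Prop := p.A1 X Y ∨ p.Mid X Y ∨ p.A3 X Y

end Par

end NP
end Pool.Agent.Lib.MP_4a7072_co
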