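import Pool.Agent.Lib.MP_4a7072_co.RTree
import Pool.Agent.Lib.MP_4a7072_co.NEnv

/-!
The pinwheel design for non-primitive triples: words, arcs, and the data of a design.
-/

set_option autoImplicit false

namespace Pool.Agent.Lib.MP_4a7072_co
namespace NP

/-- The word turned by `t` quarter turns. -/
def rot (t : Dir) (w : List Dir) : List Dir := w.map (· + t)

/-- The words `E i, …, E (j - 1)` one after the other. -/
def seg (E : ℤ → List Dir) (i j : ℤ) : List Dir :=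
  (List.range (j - i).toNat).flatMap fun t : ℕ => E (i + t)

/-- The shadow of a coordinate: `k y` goes to `2 y`, the numbers between `k y` and `k (y + 1)` go
to `2 y + 1`. -/
def psi (k x : ℤ) : ℤ := 2 * (x / k) + if x % k = 0 then 0 else 1

/-- A simple path from `P` to `Q` all of whose points satisfy `E`. -/
def Arc (P : Pt) (w : List Dir) (Q : Pt) (E : Pt → Prop) : Prop :=
  endP P w = Q ∧ (verts P w ++ [Q]).Nodup ∧ ∀ v ∈ verts P w ++ [Q], E v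

/-- A simple path from `k p` to `k q` whose shadow satisfies `E`. -/
def SArc (k : ℤ) (p : Pt) (w : List Dir) (q : Pt) (E : ℤ → ℤ → Prop) : Prop :=
  Arc (k • p) w (k • q) fun v => E (psi k v.1) (psi k v.2)

/-- The lattice point `W` lies outside the closed path. -/
def Out (P : Pt) (w : List Dir) (W : Pt) : Prop := W ∉ verts P w ∧ ∀ j, wind P w (lc W j) = 0

/-- The closed word `w`, read from a suitable starting point, is the contour of a tree with eight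
marked vertices, and the marked points are those of the list `L`. -/
def TreeOK (P : Pt) (w : List Dir) (L : List Pt) : Prop :=
  ∃ (u v : List Dir) (m : List (Dir × Bool)) (f l t : Dir) (θ : ℕ), w = u ++ v ∧
    m.map Prod.fst = v ++ u ∧ Tr m f l false t θ 8 ∧ ∀ W, W ∈ marked (endP P u) m ↔ W ∈ L

/-- The data that make the inside of a closed path a net of the cube. -/
def Net (Λ : Lat) (o P : Pt) (w : List Dir) : Prop :=
  Simple P w ∧ Ccw P w ∧ ∃ L, TreeOK P w L ∧ (∀ W ∈ L, Λ.IsV (W - o)) ∧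
    ∀ W, Λ.IsV (W - o) → W ∈ L ∨ Out P w W

/-- The words of a periodic curve with centres of rotation at the indices `0` and `β`. -/
structure Sym (k : ℤ) (E : ℤ → List Dir) (w : ℤ → Pt) (q β : ℤ) (τ : Pt) : Prop where
  qpos : 0 < q
  ne : ∀ l, E l ≠ []
  per : ∀ l, E (l + 2 * q) = E l
  symA : ∀ t, 0 ≤ t → t < q → E t = back 3 (E (-1 - t))
  symB : ∀ t, 0 ≤ t → t < q → E (β + t) = back 3 (E (β - 1 - t))
  pos : ∀ l, endP (k • w l) (E l) = k • w (l + 1)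
  wper : ∀ l, w (l + 2 * q) = w l + τ

/-- The data of a pinwheel design at scale `k`. -/
structure Des (k : ℤ) (p : Par) where
  E0 : ℤ → List Dir
  w0 : ℤ → Pt
  q0 : ℤ
  β0 : ℤ
  E1 : ℤ → List Dir
  w1 : ℤ → Pt
  q1 : ℤ
  β1 : ℤ
  J : ℤ
  αP : ℤ
  αM : ℤ
  αN : ℤ
  iP : ℤ
  iM : ℤ
  arm : List Dir
  pi : List Dir
  eps : List Dir
  Es : ℤ → ℤ → Prop
  On0 : ℤ → ℤ → ℤ → ℤ → Prop
  On1 : ℤ → ℤ → ℤ → ℤ → Prop
  hk : 2 ≤ k
  S0 : Sym k E0 w0 q0 β0 (-p.a, p.a)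
  S1 : Sym k E1 w1 q1 β1 (-p.b, -p.b)
  b0 : w0 β0 = (p.a + p.b, 2 * p.a - p.b)
  c0 : w0 (β0 + q0) = (p.b, 2 * p.a - p.b)
  yJ : w0 J = (p.x0, 2 * p.a - p.x0)
  hJ : (p.x0 = p.b ∧ J = β0 + q0) ∨ (p.x0 < p.b ∧ β0 + 2 * q0 ≤ J)
  shP : ∀ t, E0 (αP + t) = E0 t
  rP : J - 2 * q0 < αP ∧ αP < J
  rM : J - 2 * q0 < αM ∧ αM < J
  hM : αM = αP + q0 ∨ αM = αP - q0
  wP : w0 αP = (p.a - p.a * iP, 2 * p.a + p.a * iP)
  wM : w0 αM = (-(p.a * iM), 2 * p.a + p.a * iM)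
  tP : -4 * p.x0 < 2 * p.a + 4 * (p.a * iP) ∧ 2 * p.a + 4 * (p.a * iP) < 4 * p.a - 4 * p.x0
  tM : -4 * p.x0 < 4 * p.a + 4 * (p.a * iM) ∧ 4 * p.a + 4 * (p.a * iM) < 4 * p.a - 4 * p.x0
  a1 : w1 0 = (p.a, 2 * p.a)
  b1 : w1 β1 = (0, p.a)
  c1 : w1 (β1 - q1) = (p.b, p.a)
  r1 : β1 - 2 * q1 < 0 ∧ 0 < β1
  hN : (p.b < 2 * p.a ∧ q1 < β1 ∧ αN = q1 ∧ w1 αN = (p.a, 2 * p.a - p.b)) ∨
    (2 * p.a < p.b ∧ β1 < q1 ∧ αN = -q1 ∧ w1 αN = (p.a + p.b, 2 * p.a))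
  arm_ne : arm ≠ []
  eps_ne : eps ≠ []
  last : E1 (β1 - 1) = eps ++ back 0 arm
  arcS : SArc k (0, p.a) (arm ++ pi) (p.x0, 2 * p.a - p.x0) Es
  arcE : SArc k (w1 (β1 - 1)) (eps ++ pi) (p.x0, 2 * p.a - p.x0)
    fun X Y => Es X Y ∨ On1 (β1 - 1) β1 X Y
  arc0 : ∀ i j, i ≤ j → SArc k (w0 i) (seg E0 i j) (w0 j) (On0 i j)
  arc1 : ∀ i j, i ≤ j → SArc k (w1 i) (seg E1 i j) (w1 j) (On1 i j)
  ls : ∀ X Y, Es X Y → p.Ls X Y
  self : ∀ X Y, Es X Y → Es (X - 2 * p.a) (Y + 2 * p.a) → False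
  win : ∀ X Y, On0 (J - 2 * q0) J X Y → p.Win X Y
  mu : ∀ X Y, On0 β0 J X Y → p.Mu X Y
  mid1 : ∀ X Y, p.x0 = p.b → On0 (J - 2 * q0) β0 X Y → p.Mid X Y
  mid2 : ∀ X Y, p.x0 < p.b → On0 β0 (J - 2 * q0) X Y → p.Mid X Y
  om : ∀ X Y, On1 (β1 - 2 * q1) β1 X Y → p.Om X Y
  om1 : ∀ X Y, On1 (β1 - 2 * q1) (β1 - 1) X Y → p.Om X Y
  om2 : ∀ X Y, On1 (β1 - 1) β1 X Y → p.Om X Y ∧ X + Y ≤ 2 * p.a + 5
  s1 : ∀ X Y, Es X Y → On1 (β1 - 2 * q1) (β1 - 1) X Y → False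
  s2 : ∀ X Y, Es (X - 2 * p.b) (Y - 2 * p.b) → On1 (β1 - 2 * q1) β1 X Y →
    X = 2 * p.b ∧ Y = 2 * p.a + 2 * p.b
  s3 : ∀ X Y, Es (X - 2 * p.b) (Y - 2 * p.b) → On1 (β1 - 2 * q1) (β1 - 1) X Y →
    X = 2 * p.b ∧ Y = 2 * p.a + 2 * p.b
  on11 : ∀ X Y, On1 (β1 - 2 * q1) (β1 - 1) X Y → On1 (β1 - 1) β1 X Y →
    X = 2 * (w1 (β1 - 1)).1 ∧ Y = 2 * (w1 (β1 - 1)).2
  frot : ∀ X Y, On0 β0 J (X - 2 * p.b) (Y - 2 * p.b) →
    On0 β0 J (6 * p.a + 2 * p.b - Y) (2 * p.a - 6 * p.b + X) → X = 2 * p.a + 4 * p.b ∧ Y = 4 * p.a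

namespace Des

variable {k : ℤ} {p : Par} (D : Des k p)

/-- The path from the vertex `(0, a)` to the first curve. -/
def sig : List Dir := D.arm ++ D.pi

/-- A quarter of the boundary of the small piece, from `(a, 0)` to `(0, a)`. -/
def qa : List Dir := D.sig ++ seg D.E0 (D.J - 2 * D.q0) D.J ++ back 0 D.sig

/-- A quarter of the boundary of the larger piece, from `(a + 2 b, 2 a)` to `(a + b, 2 a - b)`. -/
def qb : List Dir :=
  seg D.E0 D.β0 D.J ++ back 0 D.sig ++ seg D.E1 (D.β1 - 2 * D.q1) (D.β1 - 1) ++ (D.eps ++ D.pi) ++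
    back 0 (seg D.E0 D.β0 D.J)

end Des

/-- The radial cut of the small piece, from `(0, a)` to the origin. -/
def Ra (k : ℤ) (p : Par) : List Dir :=
  List.replicate p.e1.toNat 2 ++ List.replicate (k * p.a).toNat 3 ++ List.replicate p.e1.toNat 0

/-- The radial cut of the larger piece, from `(a + b, 2 a - b)` to `(a + 2 b, 2 a - b)`. -/
def Rb (k : ℤ) (p : Par) : List Dir := List.replicate (k * p.b).toNat 0

namespace Des

variable {k : ℤ} {p : Par} (D : Des k p)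

/-- The boundary of the small piece, from `(-a, 0)`. -/
def wA : List Dir := rot 2 D.qa ++ rot 3 D.qa ++ D.qa ++ (Ra k p ++ back 1 (Ra k p))

/-- The boundary of the larger piece, from `(a + 2 b, 2 a - 2 b)`. -/
def wB : List Dir := rot 2 D.qb ++ rot 3 D.qb ++ D.qb ++ (Rb k p ++ back 1 (Rb k p))

/-- The index at which the two pieces separate along the first curve. -/
def M : ℤ := max (D.J - 2 * D.q0) D.β0

/-- The boundary of the union, first part, from `(0, a)`. -/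
def wC1 : List Dir := Ra k p ++ back 1 (Ra k p) ++ rot 2 D.qa ++ rot 3 D.qa ++ D.sig

/-- The boundary of the union, second part. -/
def wC2 : List Dir := seg D.E0 (D.J - 2 * D.q0) D.M ++ back 0 (seg D.E0 D.β0 D.M)

/-- The boundary of the union, third part. -/
def wC3 : List Dir :=
  Rb k p ++ back 1 (Rb k p) ++ rot 2 D.qb ++ rot 3 D.qb ++ seg D.E0 D.β0 D.J ++ back 0 D.sig ++
    seg D.E1 (D.β1 - 2 * D.q1) D.β1

/-- The boundary of the union, from `(0, a)`. -/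
def wC : List Dir := D.wC1 ++ D.wC2 ++ D.wC3

/-- The vertices of the small cube on the boundary of the small piece (divided by `k`). -/
def LA : List Pt :=
  [(0, 0), (p.a, 0), (0, p.a), (-p.a, 0), (0, -p.a), D.w0 D.αM, rotP 2 (D.w0 D.αM),
    rotP 3 (D.w0 D.αM), D.w0 D.αP, rotP 2 (D.w0 D.αP), rotP 3 (D.w0 D.αP)]

/-- The vertices of the middle cube on the boundary of the larger piece (divided by `k`). -/
def LB : List Pt :=
  [(p.a + 2 * p.b, 2 * p.a - p.b), (p.a + p.b, 2 * p.a - p.b), (p.a + 2 * p.b, 2 * p.a),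
    (p.a + 3 * p.b, 2 * p.a - p.b), (p.a + 2 * p.b, 2 * p.a - 2 * p.b), (p.a, 2 * p.a),
    (p.a + 4 * p.b, 2 * p.a - 2 * p.b), (p.a + 3 * p.b, 2 * p.a + p.b), D.w1 D.αN,
    (p.a + 2 * p.b, 2 * p.a - p.b) + rotP 2 (D.w1 D.αN - (p.a + 2 * p.b, 2 * p.a - p.b)),
    (p.a + 2 * p.b, 2 * p.a - p.b) + rotP 3 (D.w1 D.αN - (p.a + 2 * p.b, 2 * p.a - p.b))]

end Des

/-- The vertices of the large cube on the boundary of the union (divided by `k`). -/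
def LC (p : Par) : List Pt :=
  [(0, 0), (p.b, p.a), (2 * p.b, 2 * p.a), (3 * p.b, 3 * p.a), (p.a + 2 * p.b, 2 * p.a - p.b),
    (p.a + 3 * p.b, 3 * p.a - p.b), (2 * p.a + 2 * p.b, 2 * p.a - 2 * p.b),
    (2 * p.a + 3 * p.b, 3 * p.a - 2 * p.b)] ++
  if p.x0 = p.b then [(p.a + p.b, p.a - p.b), (-p.a - p.b, p.b - p.a), (p.a - p.b, -p.a - p.b)]
  else []

end NP
end Pool.Agent.Lib.MP_4a7072_co
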