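import Pool.Agent.Lib.MP_4a7072_co.NTree
import Pool.Agent.Lib.MP_4a7072_co.NSimple
import Pool.Agent.Lib.MP_4a7072_co.NReg
import Pool.Agent.Lib.MP_4a7072_co.NT345

/-!
A pinwheel design gives a two-piece dissection; all non-primitive triples.
-/

set_option autoImplicit false

namespace Pool.Agent.Lib.MP_4a7072_co
namespace NP

open RTree (endP_append)

theorem net_of {k : ℤ} (hk : 2 ≤ k) {Λ : Lat} {o P : Pt} {w : List Dir} {L : List Pt}
    {E : ℤ → ℤ → Prop} {α β : ℤ} (hp : Λ.p = k * β) (hq : Λ.q = k * α)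
    (hs : Simple (k • P) w ∧ Ccw (k • P) w ∧ ∀ z ∈ verts (k • P) w, E (psi k z.1) (psi k z.2))
    (ht : TreeOK (k • P) w (L.map (k • ·)))
    (h1 : ∀ W ∈ L, ∃ m n : ℤ, W = (o.1 + (m * β - n * α), o.2 + (m * α + n * β)))
    (h2 : ∀ m n : ℤ, (o.1 + (m * β - n * α), o.2 + (m * α + n * β)) ∈ L ∨
      Esc E (2 * (o.1 + (m * β - n * α))) (2 * (o.2 + (m * α + n * β)))) :
    Net Λ (k • o) (k • P) w := by
  refine ⟨hs.1, hs.2.1, _, ht, fun W hW => ?_, ?_⟩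
  · obtain ⟨V, hV, rfl⟩ := List.mem_map.1 hW
    obtain ⟨m, n, rfl⟩ := h1 V hV
    refine ⟨(m, n), ?_⟩
    ext <;> simp [Lat.gm, hp, hq] <;> ring
  · rintro W ⟨⟨m, n⟩, hT⟩
    have e : W = k • ((o.1 + (m * β - n * α), o.2 + (m * α + n * β)) : Pt) := by
      rw [eq_add_of_sub_eq hT]
      ext <;> simp [Lat.gm, hp, hq] <;> ring
    refine (h2 m n).imp (fun h => e ▸ List.mem_map_of_mem h) fun h => ?_
    refine out_of_esc hk hs.1.1 hs.2.2 ?_
    rw [e]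
    simpa only [Prod.smul_mk, smul_eq_mul, psi_mul (show 0 < k by omega)] using h

theorem mul_le_lin {a m c : ℤ} (ha : 0 ≤ a) (h : m ≤ c) : m * a ≤ c * a :=
  mul_le_mul_of_nonneg_right h ha

theorem mul_le_lin2 {a b m c : ℤ} (ha : 0 ≤ a) (hb : a ≤ b) (h : m ≤ c) :
    m * a ≤ c * a ∧ m * b - m * a ≤ c * b - c * a :=
  ⟨mul_le_lin ha h, by nlinarith⟩

/-! ### The vertices of the small cube -/

theorem sectorA {a x i j m n : ℤ} (ha : 5 ≤ a)
    (hi : -4 * x < 2 * a + 4 * (a * i) ∧ 2 * a + 4 * (a * i) < 4 * a - 4 * x)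
    (hj : -4 * x < 4 * a + 4 * (a * j) ∧ 4 * a + 4 * (a * j) < 4 * a - 4 * x)
    (hs : 1 ≤ m + n) (ht : n - m ≤ 0) {X Y : ℤ} (hX : X = 2 * (m * a)) (hY : Y = 2 * (n * a)) :
    (m = 1 ∧ n = 0) ∨ (m = -j ∧ n = 2 + j) ∨ (m = 1 - i ∧ n = 2 + i) ∨
      (6 * a + 2 ≤ (X + Y) ∧ (Y - X) ≤ 2 * a - 4) ∨
      (4 * a ≤ (X + Y) ∧ 4 * a - 4 * x + 2 ≤ (Y - X) ∧ (Y - X) ≤ 1) ∨
      (2 * a ≤ (X + Y) ∧ (Y - X) ≤ -4 * x - 2) ∨
      (2 * a - 1 ≤ (X + Y) ∧ (X + Y) ≤ 2 * a ∧ (Y - X) ≤ -6 * a) := by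
  have h0 : 0 ≤ a := by omega
  have t0 := mul_le_lin h0 (show n ≤ m by omega)
  rcases (by omega : 4 ≤ m + n ∨ m = 1 - n ∨ m = 2 - n ∨ m = 3 - n) with h | rfl | rfl | rfl
  · have := mul_le_lin h0 h
    rw [add_mul] at this
    omega
  · rw [sub_mul] at hX t0
    rcases (by omega : n = 0 ∨ n ≤ -1) with rfl | h
    · omega
    · have := mul_le_lin h0 h
      omega
  · rw [sub_mul] at hX t0
    rcases (by omega : n = 2 + j ∨ n ≤ 1 + j ∨ 3 + j ≤ n) with rfl | h | h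
    · omega
    all_goals
      have := mul_le_lin h0 h
      rw [add_mul, mul_comm j] at this
      omega
  · rw [sub_mul] at hX t0
    rcases (by omega : n = 2 + i ∨ n ≤ 1 + i ∨ 3 + i ≤ n) with rfl | h | h
    · omega
    all_goals
      have := mul_le_lin h0 h
      rw [add_mul, mul_comm i] at this
      omega

theorem Des.covA {k : ℤ} {p : Par} (D : Des k p) (m n : ℤ) :
    (m * p.a, n * p.a) ∈ D.LA ∨ Esc p.EA (2 * (m * p.a)) (2 * (n * p.a)) := by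
  have ha := p.ha
  have h0 : 0 ≤ p.a := by omega
  simp only [LA, D.wP, D.wM, rotP_2, rotP_3, List.mem_cons, Prod.mk.injEq]
  rcases (by omega : (1 ≤ m + n ∧ n - m ≤ 0) ∨ (1 ≤ -n + m ∧ m - -n ≤ 0) ∨
    (1 ≤ -m + -n ∧ -n - -m ≤ 0) ∨ (m = 0 ∧ n = 0) ∨ (m = 0 ∧ n = 1) ∨
    (1 ≤ n - m ∧ 0 ≤ m + n ∧ (2 ≤ n - m ∨ 2 ≤ m + n))) with h | h | h | h | h | h
  · rcases sectorA ha D.tP D.tM h.1 h.2 rfl rfl with
      ⟨rfl, rfl⟩ | ⟨rfl, rfl⟩ | ⟨rfl, rfl⟩ | h | h | h | h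
    · simp
    · exact .inl (.inr (.inr (.inr (.inr (.inr (.inl ⟨by ring, by ring⟩))))))
    · exact .inl (.inr (.inr (.inr (.inr (.inr (.inr (.inr (.inr (.inl ⟨by ring, by ring⟩)))))))))
    · exact .inr (p.esc_a01 h)
    · exact .inr (p.esc_a02 h)
    · exact .inr (p.esc_a03 h)
    · exact .inr (p.esc_a04 h)
  · rcases sectorA ha D.tP D.tM h.1 h.2 (X := -(2 * (n * p.a))) (by ring) rfl with
      ⟨h1, rfl⟩ | ⟨h1, rfl⟩ | ⟨h1, rfl⟩ | h | h | h | h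
    · obtain rfl : n = -1 := by omega
      simp
    · obtain rfl : n = D.iM := by omega
      exact .inl (.inr (.inr (.inr (.inr (.inr (.inr (.inr (.inl ⟨by ring, by ring⟩))))))))
    · obtain rfl : n = D.iP - 1 := by omega
      exact .inl (.inr (.inr (.inr (.inr (.inr (.inr (.inr (.inr (.inr (.inr (.inl
        ⟨by ring, by ring⟩)))))))))))
    · exact .inr (p.esc_a31 h)
    · exact .inr (p.esc_a32 h)
    · exact .inr (p.esc_a33 h)
    · exact .inr (p.esc_a34 h)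
  · rcases sectorA ha D.tP D.tM h.1 h.2 (X := -(2 * (m * p.a))) (Y := -(2 * (n * p.a)))
      (by ring) (by ring) with ⟨h1, h2⟩ | ⟨h1, h2⟩ | ⟨h1, h2⟩ | h | h | h | h
    · obtain rfl : m = -1 := by omega
      obtain rfl : n = 0 := by omega
      simp
    · obtain rfl : m = D.iM := by omega
      obtain rfl : n = -2 - D.iM := by omega
      exact .inl (.inr (.inr (.inr (.inr (.inr (.inr (.inl ⟨by ring, by ring⟩)))))))
    · obtain rfl : m = D.iP - 1 := by omega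
      obtain rfl : n = -2 - D.iP := by omega
      exact .inl (.inr (.inr (.inr (.inr (.inr (.inr (.inr (.inr (.inr (.inl
        ⟨by ring, by ring⟩))))))))))
    · exact .inr (p.esc_a21 h)
    · exact .inr (p.esc_a22 h)
    · exact .inr (p.esc_a23 h)
    · exact .inr (p.esc_a24 h)
  · obtain ⟨rfl, rfl⟩ := h
    simp
  · obtain ⟨rfl, rfl⟩ := h
    simp
  · obtain ⟨h1, h2, h3⟩ := h
    have g1 := mul_le_lin h0 h1
    have g2 := mul_le_lin h0 h2
    have g3 := h3.imp (mul_le_lin h0) (mul_le_lin h0)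
    rw [sub_mul] at g1 g3
    rw [add_mul] at g2 g3
    exact .inr (p.esc_a15 (by omega))

theorem Des.memA {k : ℤ} {p : Par} (D : Des k p) (W : Pt) (h : W ∈ D.LA) :
    ∃ m n : ℤ, W = (m * p.a, n * p.a) := by
  simp only [LA, D.wP, D.wM, rotP_2, rotP_3, List.mem_cons, List.not_mem_nil, or_false] at h
  rcases h with rfl | rfl | rfl | rfl | rfl | rfl | rfl | rfl | rfl | rfl | rfl
  · exact ⟨0, 0, by simp⟩
  · exact ⟨1, 0, by simp⟩
  · exact ⟨0, 1, by simp⟩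
  · exact ⟨-1, 0, by simp⟩
  · exact ⟨0, -1, by simp⟩
  · exact ⟨-D.iM, 2 + D.iM, Prod.ext (by ring) (by ring)⟩
  · exact ⟨D.iM, -2 - D.iM, Prod.ext (by ring) (by ring)⟩
  · exact ⟨2 + D.iM, D.iM, Prod.ext (by ring) (by ring)⟩
  · exact ⟨1 - D.iP, 2 + D.iP, Prod.ext (by ring) (by ring)⟩
  · exact ⟨D.iP - 1, -2 - D.iP, Prod.ext (by ring) (by ring)⟩
  · exact ⟨2 + D.iP, D.iP - 1, Prod.ext (by ring) (by ring)⟩

/-! ### The vertices of the middle cube -/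

theorem sectorB {a b m n : ℤ} (ha : 5 ≤ a) (hab : a < b) (hne : b < 2 * a ∨ 2 * a < b)
    (hs : m + n ≤ 0) (ht : 1 ≤ n - m) {X Y : ℤ} (hX : X = 2 * (a + 2 * b + m * b))
    (hY : Y = 2 * (2 * a - b + n * b)) :
    (m = -1 ∧ n = 0) ∨ (m = -2 ∧ n = 1) ∨ (b < 2 * a ∧ m = -2 ∧ n = 0) ∨
      (2 * a < b ∧ m = -1 ∧ n = 1) ∨
      (2 * a + 2 ≤ (Y - X) ∧ (X + Y) ≤ 6 * a + 4 * b - 2) ∨
      ((X + Y) ≤ 2 * a - 4 ∧ 2 * a - 4 * b ≤ (Y - X) ∧
        (2 * a - 4 * b + 2 ≤ (Y - X) ∨ (X + Y) ≤ 6 * a - 4 * b)) ∨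
      (2 * a < b ∧ (X + Y) ≤ 2 * a - 2 ∧ 2 * a - 2 * b ≤ (Y - X) ∧ (Y - X) ≤ 2 * a - 2 * b + 1) ∨
      (b < 2 * a ∧ X = 2 * a + 2 * b ∧ 4 * a ≤ Y) := by
  have h0 : 0 ≤ b := by omega
  have g1 := mul_le_lin h0 hs
  have g2 := mul_le_lin h0 ht
  rw [add_mul] at g1
  rw [sub_mul] at g2
  rcases (by omega : 4 ≤ n - m ∨ m + n ≤ -3 ∨ (m = -1 ∧ n = 0) ∨ (m = -2 ∧ n = 1) ∨
    (m = -2 ∧ n = 0) ∨ (m = -1 ∧ n = 1)) with h | h | h | h | ⟨rfl, rfl⟩ | ⟨rfl, rfl⟩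
  · have := mul_le_lin h0 h
    rw [sub_mul] at this
    exact .inr (.inr (.inr (.inr (.inl (by omega)))))
  · have := mul_le_lin h0 h
    rw [add_mul] at this
    exact .inr (.inr (.inr (.inr (.inr (.inl (by omega))))))
  · exact .inl h
  · exact .inr (.inl h)
  · omega
  · omega

theorem Des.covB {k : ℤ} {p : Par} (D : Des k p) (m n : ℤ) :
    (p.a + 2 * p.b + m * p.b, 2 * p.a - p.b + n * p.b) ∈ D.LB ∨
      Esc p.EB (2 * (p.a + 2 * p.b + m * p.b)) (2 * (2 * p.a - p.b + n * p.b)) := by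
  have ha := p.ha
  have hab := p.hab
  have h0 : 0 ≤ p.b := by omega
  have hne : p.b < 2 * p.a ∨ 2 * p.a < p.b := by have := p.hT; omega
  have hN : (p.b < 2 * p.a ∧ (D.w1 D.αN).1 = p.a ∧ (D.w1 D.αN).2 = 2 * p.a - p.b) ∨
      (2 * p.a < p.b ∧ (D.w1 D.αN).1 = p.a + p.b ∧ (D.w1 D.αN).2 = 2 * p.a) :=
    D.hN.imp (fun h => ⟨h.1, by rw [h.2.2.2], by rw [h.2.2.2]⟩)
      fun h => ⟨h.1, by rw [h.2.2.2], by rw [h.2.2.2]⟩
  simp only [LB, rotP_2, rotP_3, List.mem_cons, Prod.ext_iff, Prod.fst_add, Prod.snd_add,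
    Prod.fst_sub, Prod.snd_sub, List.not_mem_nil, or_false]
  rcases (by omega : (m + n ≤ 0 ∧ 1 ≤ n - m) ∨ (-n + m ≤ 0 ∧ 1 ≤ m - -n) ∨
    (-m + -n ≤ 0 ∧ 1 ≤ -n - -m) ∨ (m = 0 ∧ n = 0) ∨ (m = 0 ∧ n = -1) ∨
    (m + n ≤ -1 ∧ n - m ≤ 0 ∧ (m + n ≤ -2 ∨ n - m ≤ -3))) with h | h | h | h | h | h
  · rcases sectorB ha hab hne h.1 h.2 rfl rfl with
      ⟨rfl, rfl⟩ | ⟨rfl, rfl⟩ | ⟨h, rfl, rfl⟩ | ⟨h, rfl, rfl⟩ | h | h | h | h
    iterate 4
      · refine .inl ?_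
        repeat first | exact Or.inl (by omega) | refine Or.inr ?_
    · exact .inr (p.esc_b01 h)
    · exact .inr (p.esc_b02 h)
    · exact .inr (p.esc_b03 h)
    · exact .inr (p.esc_b04 h)
  · rcases sectorB ha hab hne h.1 h.2 (X := 6 * p.a + 2 * p.b - 2 * (2 * p.a - p.b + n * p.b))
      (Y := 2 * p.a - 6 * p.b + 2 * (p.a + 2 * p.b + m * p.b)) (by ring) (by ring) with
      ⟨h1, rfl⟩ | ⟨h1, rfl⟩ | ⟨h, h1, rfl⟩ | ⟨h, h1, rfl⟩ | h | h | h | h
    iterate 4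
      · obtain rfl := neg_inj.1 h1
        refine .inl ?_
        repeat first | exact Or.inl (by omega) | refine Or.inr ?_
        all_goals omega
    · exact .inr (p.esc_b31 h)
    · exact .inr (p.esc_b32 h)
    · exact .inr (p.esc_b33 h)
    · exact .inr (p.esc_b34 h)
  · rcases sectorB ha hab hne h.1 h.2 (X := 4 * p.a + 8 * p.b - 2 * (p.a + 2 * p.b + m * p.b))
      (Y := 8 * p.a - 4 * p.b - 2 * (2 * p.a - p.b + n * p.b)) (by ring) (by ring) with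
      ⟨h1, h2⟩ | ⟨h1, h2⟩ | ⟨h, h1, h2⟩ | ⟨h, h1, h2⟩ | h | h | h | h
    iterate 4
      · obtain rfl := neg_inj.1 h1
        obtain rfl := neg_eq_iff_eq_neg.1 h2
        refine .inl ?_
        repeat first | exact Or.inl (by omega) | refine Or.inr ?_
    · exact .inr (p.esc_b21 h)
    · exact .inr (p.esc_b22 h)
    · exact .inr (p.esc_b23 h)
    · exact .inr (p.esc_b24 h)
  · obtain ⟨rfl, rfl⟩ := h
    exact .inl (.inl (by omega))
  · obtain ⟨rfl, rfl⟩ := h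
    exact .inl (.inr (.inr (.inr (.inr (.inl (by omega))))))
  · obtain ⟨h1, h2, h3⟩ := h
    have g1 := mul_le_lin h0 h1
    have g2 := mul_le_lin h0 h2
    have g3 := h3.imp (mul_le_lin h0) (mul_le_lin h0)
    rw [sub_mul] at g2 g3
    rw [add_mul] at g1 g3
    exact .inr (p.esc_b15 (by omega))

theorem Des.memB {k : ℤ} {p : Par} (D : Des k p) (W : Pt) (h : W ∈ D.LB) :
    ∃ m n : ℤ, W = (p.a + 2 * p.b + m * p.b, 2 * p.a - p.b + n * p.b) := by
  obtain ⟨m, n, hN⟩ : ∃ m n : ℤ, D.w1 D.αN = (p.a + 2 * p.b + m * p.b, 2 * p.a - p.b + n * p.b) := by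
    rcases D.hN with h | h
    · exact ⟨-2, 0, h.2.2.2.trans (Prod.ext (by ring) (by ring))⟩
    · exact ⟨-1, 1, h.2.2.2.trans (Prod.ext (by ring) (by ring))⟩
  simp only [LB, hN, rotP_2, rotP_3, List.mem_cons, List.not_mem_nil, or_false, Prod.mk_sub_mk,
    Prod.mk_add_mk] at h
  rcases h with rfl | rfl | rfl | rfl | rfl | rfl | rfl | rfl | rfl | rfl | rfl
  · exact ⟨0, 0, Prod.ext (by ring) (by ring)⟩
  · exact ⟨-1, 0, Prod.ext (by ring) (by ring)⟩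
  · exact ⟨0, 1, Prod.ext (by ring) (by ring)⟩
  · exact ⟨1, 0, Prod.ext (by ring) (by ring)⟩
  · exact ⟨0, -1, Prod.ext (by ring) (by ring)⟩
  · exact ⟨-2, 1, Prod.ext (by ring) (by ring)⟩
  · exact ⟨2, -1, Prod.ext (by ring) (by ring)⟩
  · exact ⟨1, 2, Prod.ext (by ring) (by ring)⟩
  · exact ⟨m, n, rfl⟩
  · exact ⟨-m, -n, Prod.ext (by ring) (by ring)⟩
  · exact ⟨n, -m, Prod.ext (by ring) (by ring)⟩

/-! ### The vertices of the large cube -/

theorem mem_LC {p : Par} {W : Pt} : W ∈ LC p ↔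
    (W = (0, 0) ∨ W = (p.b, p.a) ∨ W = (2 * p.b, 2 * p.a) ∨ W = (3 * p.b, 3 * p.a) ∨
      W = (p.a + 2 * p.b, 2 * p.a - p.b) ∨ W = (p.a + 3 * p.b, 3 * p.a - p.b) ∨
      W = (2 * p.a + 2 * p.b, 2 * p.a - 2 * p.b) ∨ W = (2 * p.a + 3 * p.b, 3 * p.a - 2 * p.b)) ∨
    (p.x0 = p.b ∧ (W = (p.a + p.b, p.a - p.b) ∨ W = (-p.a - p.b, p.b - p.a) ∨
      W = (p.a - p.b, -p.a - p.b))) := by
  rw [LC, List.mem_append]
  split_ifs with h <;> simp [h]

theorem covC (p : Par) (m n : ℤ) : (m * p.b - n * p.a, m * p.a + n * p.b) ∈ LC p ∨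
    Esc p.EC (2 * (m * p.b - n * p.a)) (2 * (m * p.a + n * p.b)) := by
  have ha := p.ha
  have hab := p.hab
  have hx : p.x0 ≤ p.b := p.aux.2.2.2.2.2.2.2.1
  have hy : p.x0 = p.b ∨ (p.x0 < p.b ∧ 2 * p.a < p.b) := by have := p.hT; omega
  have hne : p.b < 2 * p.a ∨ 2 * p.a < p.b := by have := p.hT; omega
  have l : ∀ {m c : ℤ}, m ≤ c → m * p.a ≤ c * p.a ∧ m * p.b - m * p.a ≤ c * p.b - c * p.a :=
    fun h => mul_le_lin2 (by omega) hab.le h
  simp only [mem_LC, Prod.mk.injEq]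
  rcases (by omega : n ≤ -4 ∨ n = -3 ∨ n = -2 ∨ n = -1 ∨ n = 0 ∨ n = 1 ∨ 2 ≤ n) with
    hn | rfl | rfl | rfl | rfl | rfl | hn <;>
  rcases (by omega : m ≤ -2 ∨ m = -1 ∨ m = 0 ∨ m = 1 ∨ m = 2 ∨ m = 3 ∨ m = 4 ∨ 5 ≤ m) with
    hm | rfl | rfl | rfl | rfl | rfl | rfl | hm
  all_goals
    try have gn := l hn
    try have gm := l hm
    first
    | exact .inr (p.esc_c4 (by omega))
    | exact .inr (p.esc_c6 (by omega))
    | exact .inr (p.esc_c3 (by omega))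
    | exact .inr (p.esc_c7 (by omega))
    | exact .inr (p.esc_c1 (by omega))
    | exact .inr (p.esc_c2 (by omega))
    | exact .inr (p.esc_c5 (by omega))
    | exact .inr (p.esc_c9 (by omega))
    | exact .inr (p.esc_c8 (by omega))
    | exact .inl (.inl (by omega))
    | rcases hne with hne | hne <;> rcases hy with hy | hy <;> first
      | exact .inr (p.esc_c4 (by omega))
      | exact .inr (p.esc_c6 (by omega))
      | exact .inr (p.esc_c3 (by omega))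
      | exact .inr (p.esc_c7 (by omega))
      | exact .inr (p.esc_c1 (by omega))
      | exact .inr (p.esc_c2 (by omega))
      | exact .inr (p.esc_c5 (by omega))
      | exact .inr (p.esc_c9 (by omega))
      | exact .inr (p.esc_c8 (by omega))
      | exact .inr (p.esc_c10 (by omega))
      | exact .inr (p.esc_c11 (by omega))
      | exact .inr (p.esc_c12 (by omega))
      | exact .inl (.inr (by omega))

theorem memC (p : Par) (W : Pt) (h : W ∈ LC p) :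
    ∃ m n : ℤ, W = (m * p.b - n * p.a, m * p.a + n * p.b) := by
  rcases mem_LC.1 h with (rfl | rfl | rfl | rfl | rfl | rfl | rfl | rfl) | ⟨-, rfl | rfl | rfl⟩
  · exact ⟨0, 0, Prod.ext (by ring) (by ring)⟩
  · exact ⟨1, 0, Prod.ext (by ring) (by ring)⟩
  · exact ⟨2, 0, Prod.ext (by ring) (by ring)⟩
  · exact ⟨3, 0, Prod.ext (by ring) (by ring)⟩
  · exact ⟨2, -1, Prod.ext (by ring) (by ring)⟩
  · exact ⟨3, -1, Prod.ext (by ring) (by ring)⟩
  · exact ⟨2, -2, Prod.ext (by ring) (by ring)⟩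
  · exact ⟨3, -2, Prod.ext (by ring) (by ring)⟩
  · exact ⟨1, -1, Prod.ext (by ring) (by ring)⟩
  · exact ⟨-1, 1, Prod.ext (by ring) (by ring)⟩
  · exact ⟨-1, -1, Prod.ext (by ring) (by ring)⟩

/-! ### The dissection -/

theorem back00 (w : List Dir) : back 0 (back 0 w) = w := by
  rw [back_back]; exact rot_zero w

theorem dsp_back0 (w : List Dir) : dsp (back 0 w) = -dsp w := by
  rw [dsp_back, rotP_zero]

theorem Des.twoPiece {k a b c : ℕ} {p : Par} (D : Des k p) (ha : p.a = a) (hb : p.b = b)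
    (h : a ^ 2 + b ^ 2 = c ^ 2) : TwoPieceDissection (k * a) (k * b) (k * c) := by
  have hk := D.hk
  have h5 := p.ha
  have hab := p.hab
  have pa : 0 < (k : ℤ) * p.a := mul_pos (by omega) (by omega)
  have pb : 0 < (k : ℤ) * p.b := mul_pos (by omega) (by omega)
  have hZ : (a : ℤ) ^ 2 + (b : ℤ) ^ 2 = (c : ℤ) ^ 2 := by exact_mod_cast h
  let Λa : Lat := ⟨k * p.a, k * 0, k * a, pa, by simp, by rw [ha]; push_cast; ring⟩
  let Λb : Lat := ⟨k * p.b, k * 0, k * b, pb, by simp, by rw [hb]; push_cast; ring⟩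
  let Λc : Lat := ⟨k * p.b, k * p.a, k * c, pb, pa.le, by
    rw [ha, hb]; push_cast; linear_combination (k : ℤ) ^ 2 * hZ⟩
  have nA : Net Λa _ _ _ := net_of hk (o := (0, 0)) rfl rfl D.simpleA D.treeA
    (fun W hW => by simpa using D.memA W hW) fun m n => by simpa using D.covA m n
  have nB : Net Λb _ _ _ := net_of hk (o := (p.a + 2 * p.b, 2 * p.a - p.b)) rfl rfl D.simpleB
    D.treeB (fun W hW => by simpa using D.memB W hW) fun m n => by simpa using D.covB m n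
  have nC : Net Λc _ _ _ := net_of hk (o := (0, 0)) rfl rfl D.simpleC D.treeC
    (fun W hW => by simpa using memC p W hW) fun m n => by simpa using covC p m n
  have q0 := D.S0.qpos
  have q1 := D.S1.qpos
  have hJ := D.sβ_le
  have m1 : D.J - 2 * D.q0 ≤ D.M := le_max_left _ _
  have m2 : D.β0 ≤ D.M := le_max_right _ _
  have m3 : D.M ≤ D.J := max_le (by omega) hJ
  have eA : D.wA = (rot 2 D.qa ++ rot 3 D.qa ++ D.sig ++ seg D.E0 (D.J - 2 * D.q0) D.M) ++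
      ((seg D.E0 D.M D.J ++ back 0 D.pi) ++ (back 0 D.arm ++ (Ra k p ++ back 1 (Ra k p)))) := by
    have e : D.qa = D.sig ++ (seg D.E0 (D.J - 2 * D.q0) D.M ++ seg D.E0 D.M D.J) ++
        (back 0 D.pi ++ back 0 D.arm) := by
      rw [← seg_append _ m1 m3, ← back_append]; rfl
    rw [wA]
    nth_rw 3 [e]
    simp only [List.append_assoc]
  have eB : D.wB = (rot 2 D.qb ++ rot 3 D.qb ++ (seg D.E0 D.β0 D.J ++ back 0 D.sig) ++
      seg D.E1 (D.β1 - 2 * D.q1) (D.β1 - 1) ++ D.eps) ++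
      (back 0 (seg D.E0 D.M D.J ++ back 0 D.pi) ++
        (back 0 (seg D.E0 D.β0 D.M) ++ (Rb k p ++ back 1 (Rb k p)))) := by
    have e : D.qb = seg D.E0 D.β0 D.J ++ back 0 D.sig ++ seg D.E1 (D.β1 - 2 * D.q1) (D.β1 - 1) ++
        (D.eps ++ D.pi) ++ (back 0 (seg D.E0 D.M D.J) ++ back 0 (seg D.E0 D.β0 D.M)) := by
      rw [← back_append, ← seg_append _ m2 m3]; rfl
    rw [wB, back_append 0 (seg D.E0 D.M D.J), back00]
    nth_rw 3 [e]
    simp only [List.append_assoc]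
  have eC : D.wC = (D.wC1 ++ D.wC2 ++ (Rb k p ++ back 1 (Rb k p) ++ rot 2 D.qb ++ rot 3 D.qb ++
      seg D.E0 D.β0 D.J ++ back 0 D.sig ++ seg D.E1 (D.β1 - 2 * D.q1) (D.β1 - 1) ++ D.eps)) ++
      back 0 D.arm := by
    have e := seg_succ D.E1 (show D.β1 - 2 * D.q1 ≤ D.β1 - 1 by omega)
    rw [sub_add_cancel, D.last] at e
    rw [wC, wC3, e]
    simp only [List.append_assoc]
  rw [eA] at nA
  rw [eB] at nB
  rw [eC] at nC
  have tA := nA.1.1
  have tC := nC.1.1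
  rw [endP_append, endP_append, endP_dsp _ (back 0 D.arm ++ _), dsp_append, dsp_back0,
    (sArcRR hk p).dsp_eq] at tA
  rw [endP_append, endP_dsp _ (back 0 D.arm), dsp_back0] at tC
  have tB := D.S1.pos (D.β1 - 1)
  rw [sub_add_cancel, D.last, D.b1, endP_append, endP_dsp _ (back 0 D.arm), dsp_back0] at tB
  refine twoPiece_of_net (Λa := Λa) (Λb := Λb) (Λc := Λc) (mul_zero _) (mul_zero _) ?_ nA nB nC
    ?_ ?_ ?_
  · change (k * a) ^ 2 + (k * b) ^ 2 = (k * c) ^ 2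
    rw [mul_pow, mul_pow, mul_pow, ← mul_add, h]
  · simp only [wC1, wC2, List.append_assoc]
  · rw [endP_append, endP_append, endP_append, D.sArcQb23.1, D.sArcHd.1, ← D.sWβ,
      (D.arc1 _ _ (show D.β1 - 2 * D.q1 ≤ D.β1 - 1 by omega)).1]
    linear_combination (exp := 1) tB - tA
  · linear_combination (exp := 1) tC - tA

theorem _root_.Pool.Agent.Lib.MP_4a7072_co.TwoPieceDissection.symm {a b c : ℕ}
    (h : TwoPieceDissection a b c) : TwoPieceDissection b a c := by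
  obtain ⟨Sa, Sb, Sc, pa, pb, pc, ha, hb, hc, hcard, hU, hD, fc, fa, fb⟩ := h
  exact ⟨Sb, Sa, Sc, pb, pa, pc, hb, ha, hc, hcard, hU.trans (Set.union_comm _ _), hD.symm, fc,
    fb, fa⟩

theorem nonPrimitive_of (H : ∀ k : ℤ, 2 ≤ k → ∀ a b : ℤ, 5 ≤ a → a < b → IsCoprime a b →
      (a + b) % 2 = 1 → ∃ p : Par, p.a = a ∧ p.b = b ∧ Nonempty (Des k p))
    (a b c : ℕ) (ha : 0 < a) (hb : 0 < b) (h : a ^ 2 + b ^ 2 = c ^ 2) (hg : 1 < Nat.gcd a b) :
    TwoPieceDissection a b c := by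
  have key : ∀ k a b c : ℕ, 1 < k → 0 < a → a < b → Nat.Coprime a b → a ^ 2 + b ^ 2 = c ^ 2 →
      TwoPieceDissection (k * a) (k * b) (k * c) := by
    intro k a b c hk ha hab hco h
    have hc : b < c := by nlinarith
    have hpar : (a + b) % 2 = 1 := by
      rcases Nat.even_or_odd' a with ⟨x, rfl | rfl⟩ <;> rcases Nat.even_or_odd' b with ⟨y, rfl | rfl⟩
      · have := Nat.eq_one_of_dvd_coprimes hco (dvd_mul_right 2 x) (dvd_mul_right 2 y)
        omega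
      · omega
      · omega
      · exfalso
        rcases Nat.even_or_odd' c with ⟨z, rfl | rfl⟩
        · have : 4 * (x ^ 2 + x + y ^ 2 + y) + 2 = 4 * z ^ 2 := by linear_combination h
          omega
        · have : 4 * (x ^ 2 + x + y ^ 2 + y) + 2 = 4 * (z ^ 2 + z) + 1 := by linear_combination h
          omega
    rcases le_or_gt 5 a with h5 | h5
    · obtain ⟨p, e1, e2, ⟨D⟩⟩ := H k (by omega) a b (by omega) (by omega)
        (Nat.isCoprime_iff_coprime.2 hco) (by omega)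
      exact D.twoPiece e1 e2 h
    · have hb : b ≤ 7 := by nlinarith
      have hc' : c ≤ 9 := by nlinarith
      obtain ⟨rfl, rfl, rfl⟩ : a = 3 ∧ b = 4 ∧ c = 5 := by
        interval_cases a <;> interval_cases b <;> interval_cases c <;> simp at h ⊢
      exact Chk.T3_4_5.twoPiece.scale k (by omega)
  obtain ⟨a0, b0, hco, ea, eb⟩ := Nat.exists_coprime a b
  generalize Nat.gcd a b = g at hg ea eb
  subst ea eb
  obtain ⟨c0, rfl⟩ : g ∣ c := by
    rw [← Nat.pow_dvd_pow_iff two_ne_zero, ← h]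
    exact ⟨a0 ^ 2 + b0 ^ 2, by ring⟩
  have h0 : a0 ^ 2 + b0 ^ 2 = c0 ^ 2 :=
    Nat.eq_of_mul_eq_mul_left (show 0 < g ^ 2 by positivity) (by linear_combination h)
  have pa : 0 < a0 := Nat.pos_of_mul_pos_right ha
  have pb : 0 < b0 := Nat.pos_of_mul_pos_right hb
  rw [mul_comm a0, mul_comm b0]
  rcases lt_trichotomy a0 b0 with hl | rfl | hl
  · exact key g a0 b0 c0 hg pa hl hco h0
  · obtain rfl : a0 = 1 := by simpa using hco
    have : c0 ≤ 1 := by nlinarith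
    interval_cases c0 <;> simp at h0
  · exact (key g b0 a0 c0 hg pb hl hco.symm (by rw [add_comm, h0])).symm

end NP
end Pool.Agent.Lib.MP_4a7072_co
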