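import Pool.Agent.Lib.MP_4a7072_co.NArc

/-!
Points outside a closed path; nets fold into the cube; three nets give a dissection.
-/

set_option autoImplicit false

namespace Pool.Agent.Lib.MP_4a7072_co
namespace NP

open RTree (endP_append edges_append endP_back back_cons endP_add edges_add verts_add)

variable {P : Pt} {w : List Dir}

theorem Out.step (h : endP P w = P) {W : Pt} {d : Dir} (hW : W ∉ verts P w)
    (ho : Out P w (W + dv d)) : Out P w W :=
  ⟨hW, fun j => by rw [Jor.wind_around h hW j d, ← lc_next, ho.2]⟩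

theorem out_of_region (h : endP P w = P) (A : Pt → Prop) (d : Dir)
    (hA : ∀ W, A W → W ∉ verts P w) (hs : ∀ W, A W → A (W + dv d) ∨ A (W + dv (d + 1)))
    {W : Pt} (hW : A W) : Out P w W := by
  have key : ∀ n : ℕ, ∀ W, A W → 2 * (w.length : ℤ) + 4 - n ≤
      ((dv d).1 + (dv (d + 1)).1) * (W.1 - P.1) + ((dv d).2 + (dv (d + 1)).2) * (W.2 - P.2) →
      Out P w W := by
    intro n
    induction n with
    | zero =>
      intro W hW hb
      refine ⟨hA W hW, fun j => ?_⟩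
      by_contra hn
      have := Jor.wind_bound h hn
      rcases dir_cases d with rfl | rfl | rfl | rfl <;>
        rcases dir_cases j with rfl | rfl | rfl | rfl <;> simp [lc, dv] at this hb <;> omega
    | succ n ih =>
      intro W hW hb
      rcases hs W hW with h1 | h1 <;> refine Out.step h (hA W hW) (ih _ h1 ?_) <;>
        rcases dir_cases d with rfl | rfl | rfl | rfl <;> simp [dv] at hb ⊢ <;> omega
  exact key (2 * (w.length : ℤ) + 4 - (((dv d).1 + (dv (d + 1)).1) * (W.1 - P.1) +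
    ((dv d).2 + (dv (d + 1)).2) * (W.2 - P.2))).toNat W hW (by omega)

theorem out_of_esc {k : ℤ} (hk : 2 ≤ k) (h : endP P w = P) {E : ℤ → ℤ → Prop}
    (hE : ∀ z ∈ verts P w, E (psi k z.1) (psi k z.2)) {W : Pt}
    (hW : Esc E (psi k W.1) (psi k W.2)) : Out P w W := by
  obtain ⟨A, h1, h2, h3⟩ := hW
  have n : ∀ W : Pt, A (psi k W.1) (psi k W.2) → W ∉ verts P w := fun W a b => h2 _ _ a (hE W b)
  have e0 : ∀ W : Pt, A (psi k W.1) (psi k W.2) → A (psi k W.1 + 1) (psi k W.2) →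
      A (psi k (W + dv 0).1) (psi k (W + dv 0).2) := fun W a b => by
    rcases psi_succ hk W.1 with e | e <;> simpa [dv, e]
  have e1 : ∀ W : Pt, A (psi k W.1) (psi k W.2) → A (psi k W.1) (psi k W.2 + 1) →
      A (psi k (W + dv 1).1) (psi k (W + dv 1).2) := fun W a b => by
    rcases psi_succ hk W.2 with e | e <;> simpa [dv, e]
  have e2 : ∀ W : Pt, A (psi k W.1) (psi k W.2) → A (psi k W.1 - 1) (psi k W.2) →
      A (psi k (W + dv 2).1) (psi k (W + dv 2).2) := fun W a b => by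
    rcases psi_pred hk W.1 with e | e <;> simpa [dv, ← sub_eq_add_neg, e]
  have e3 : ∀ W : Pt, A (psi k W.1) (psi k W.2) → A (psi k W.1) (psi k W.2 - 1) →
      A (psi k (W + dv 3).1) (psi k (W + dv 3).2) := fun W a b => by
    rcases psi_pred hk W.2 with e | e <;> simpa [dv, ← sub_eq_add_neg, e]
  rcases h3 with s | s | s | s
  · exact out_of_region h _ 0 n (fun W a => (s _ _ a).imp (e0 W a) (e1 W a)) h1
  · exact out_of_region h _ 1 n (fun W a => (s _ _ a).imp (e1 W a) (e2 W a)) h1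
  · exact out_of_region h _ 2 n (fun W a => (s _ _ a).imp (e2 W a) (e3 W a)) h1
  · exact out_of_region h _ 3 n (fun W a => (s _ _ a).imp (e3 W a) (e0 W a)) h1

theorem ccw_of_out {Q : Pt} {d : Dir} (he : (Q, d) ∈ edges P w) (ho : Out P w (Q + dv (d + 3))) :
    Ccw P w :=
  ⟨(Q, d), he, by
    have := ho.2 d
    rwa [lc_add, ← rc_eq_add] at this⟩

theorem Out.rotate {u v : List Dir} (h : endP P (u ++ v) = P) {W : Pt} (ho : Out P (u ++ v) W) :
    Out (endP P u) (v ++ u) W :=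
  ⟨fun m => ho.1 (((Jor.edges_rotate h).map _).subset m), fun j => by
    rw [Jor.wind_rotate h, ho.2]⟩

theorem Out.sub {o W : Pt} (ho : Out (P + o) w (W + o)) : Out P w W :=
  ⟨fun m => ho.1 (by rw [verts_add]; exact List.mem_map_of_mem m), fun j => by
    have := ho.2 j
    rwa [lc_add, RTree.wind_add] at this⟩

open RTree in
theorem folds_zero {Λ : Lat} {m : List (Dir × Bool)} {f l k : Dir} {θ : ℕ}
    (hs : Simple P (m.map Prod.fst)) (hc : Ccw P (m.map Prod.fst)) (ht : Tr m f l false k θ 8)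
    (h1 : ∀ W ∈ marked P m, Λ.IsV W)
    (h2 : ∀ W, Λ.IsV W → W ∈ marked P m ∨ Out P (m.map Prod.fst) W) :
    FoldsInto (region (inside P (m.map Prod.fst))) (cubeSurface Λ.L) ∧
      (Λ.q = 0 → (inside P (m.map Prod.fst)).card = 6 * Λ.L ^ 2) := by
  have hp := ends_perm hs.1
  have hn := hp.nodup_iff.2 hs.2.1
  have esc : ∀ W, Out P (m.map Prod.fst) W → ∀ j, lc W j ∉ inside P (m.map Prod.fst) :=
    fun W hE j hj => by
      rw [mem_inside_iff hs.1, hE.2] at hj
      exact zero_ne_one hj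
  have hg : Good Λ P m := good_of P m hn h1 fun W hW hV => (h2 W hV).resolve_right
    fun hE => hE.1 (hp.subset hW)
  have hV : Λ.NoInnerV (inside P (m.map Prod.fst)) := fun W hW => by
    rcases h2 W hW with h | hE
    · obtain ⟨e, he, rfl⟩ := List.mem_map.1 (hp.subset ((marked_sublist _ _).subset h))
      exact ⟨e.2 - 1, ((isBd_inside_iff hs hc e).2 he).2⟩
    · exact ⟨0, esc W hE 0⟩
  obtain ⟨Φ, hD⟩ := exists_dev Λ _ (holeFree_inside hs hc) hV
  obtain ⟨-, ⟨σ, hσ⟩, hsum⟩ := main (jn_inside hs hc hD) ht P (List.Subset.refl _)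
    (List.Nodup.of_map _ hs.2.1) hg
  have hG : Λ.Glue (inside P (m.map Prod.fst)) Φ := by
    simp only [Lat.Glue, isBd_inside_iff hs hc]
    exact ⟨σ, fun e he => (hσ e he).1,
      fun e e' he he' h => by rw [← (hσ e he).2.1, h, (hσ e' he').2.1], fun e he => (hσ e he).2.2⟩
  have h24 := (ncard_corners (hn.sublist (marked_sublist P m)) h1 fun W d hW hd =>
    (h2 W hW).resolve_right fun hE => esc W hE d hd).trans hsum
  obtain ⟨hI, hS, hq⟩ := cover_once Λ _ Φ hD hG h24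
  exact ⟨foldsInto_of_dev Λ _ Φ hD (noPinch_inside hs hc) hV hI hS, hq⟩

theorem Net.folds {Λ : Lat} {o : Pt} (h : Net Λ o P w) :
    FoldsInto (region (inside P w)) (cubeSurface Λ.L) ∧
      (Λ.q = 0 → (inside P w).card = 6 * Λ.L ^ 2) := by
  obtain ⟨hs, hc, L, ⟨u, v, m, f, l, t, θ, rfl, hm, ht, hL⟩, h1, h2⟩ := h
  have s := hs.rotate
  have c := Ccw.rotate hs.1 hc
  have h3 : ∀ W, Λ.IsV (W - o) → W ∈ marked (endP P u) m ∨ Out (endP P u) (v ++ u) W :=
    fun W a => (h2 W a).imp (hL W).2 (Out.rotate hs.1)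
  have h4 : ∀ W ∈ marked (endP P u) m, Λ.IsV (W - o) := fun W a => h1 W ((hL W).1 a)
  rw [← inside_rotate hs.1]
  rw [← hm] at s c h3 ⊢
  obtain ⟨Q, hQ⟩ : ∃ Q, endP P u = Q + o := ⟨endP P u - o, (sub_add_cancel _ _).symm⟩
  rw [hQ] at s c h3 h4 ⊢
  have s' : Simple Q (m.map Prod.fst) := by
    obtain ⟨a, b, d⟩ := s
    rw [endP_add, add_left_inj] at a
    rw [verts_add] at b
    exact ⟨a, b.of_map _, d⟩
  have c' : Ccw Q (m.map Prod.fst) := by
    obtain ⟨e, he, hc⟩ := c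
    rw [edges_add] at he
    obtain ⟨e, he', rfl⟩ := List.mem_map.1 he
    refine ⟨e, he', ?_⟩
    rwa [rc, lc_add, RTree.wind_add] at hc
  obtain ⟨f1, f2⟩ := folds_zero (Λ := Λ) s' c' ht (fun W hW => by
      have := h4 (W + o) (by rw [RTree.marked_add]; exact List.mem_map_of_mem hW)
      rwa [add_sub_cancel_right] at this) fun W hW => by
    rcases h3 (W + o) (by rwa [add_sub_cancel_right]) with h | h
    · rw [RTree.marked_add] at h
      obtain ⟨W', h', e⟩ := List.mem_map.1 h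
      exact Or.inl (add_right_cancel e ▸ h')
    · exact Or.inr h.sub
  rw [inside_translate, Finset.card_image_of_injective _ (add_left_injective o)]
  exact ⟨f1.translate o, f2⟩

/-- Three nets whose boundaries are, cyclically, `π α`, `π⁻¹ β` and `α β`. -/
theorem twoPiece_of_net {Λa Λb Λc : Lat} (qa : Λa.q = 0) (qb : Λb.q = 0)
    (hL : Λa.L ^ 2 + Λb.L ^ 2 = Λc.L ^ 2) {oa ob oc Pa Pb Pc : Pt}
    {π a₁ a₂ b₁ b₂ c₁ c₂ : List Dir} (ha : Net Λa oa Pa (a₁ ++ (π ++ a₂)))
    (hb : Net Λb ob Pb (b₁ ++ (back 0 π ++ b₂))) (hc : Net Λc oc Pc (c₁ ++ c₂))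
    (e : c₂ ++ c₁ = (a₂ ++ a₁) ++ (b₂ ++ b₁)) (eb : endP Pb b₁ = endP (endP Pa a₁) π)
    (ec : endP Pc c₁ = endP (endP Pa a₁) π) : TwoPieceDissection Λa.L Λb.L Λc.L := by
  have fa := ha.folds
  have fb := hb.folds
  have fc := hc.folds
  have a1 := ha.1.rotate
  have a2 := Ccw.rotate ha.1.1 ha.2.1
  have b1 := hb.1.rotate
  have b2 := Ccw.rotate hb.1.1 hb.2.1
  have d1 := hc.1.rotate
  have d2 := Ccw.rotate hc.1.1 hc.2.1
  rw [← inside_rotate ha.1.1] at fa
  rw [← inside_rotate hb.1.1] at fb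
  rw [← inside_rotate hc.1.1] at fc
  rw [List.append_assoc] at a1 a2 b1 b2 fa fb
  rw [eb] at b1 b2 fb
  rw [ec, e] at d1 d2 fc
  obtain ⟨hu, hd⟩ := inside_union rfl a1 a2 b1 b2 d1 d2
  refine ⟨_, _, _, isPolyomino_inside a1 a2, isPolyomino_inside b1 b2, isPolyomino_inside d1 d2,
    holeFree_inside a1 a2, holeFree_inside b1 b2, holeFree_inside d1 d2, ?_, ?_,
    disjoint_interior_region hd, fc.1, fa.1, fb.1⟩
  · rw [hu, Finset.card_union_of_disjoint hd, fa.2 qa, fb.2 qb, ← hL, mul_add]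
  · rw [hu, region_union]

end NP
end Pool.Agent.Lib.MP_4a7072_co
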