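import Pool.Agent.Lib.MP_4a7072_co.NNet

/-!
The boundaries of the three pieces of the pinwheel design are contours of trees.
-/

set_option autoImplicit false
set_option linter.unnecessarySeqFocus false

namespace Pool.Agent.Lib.MP_4a7072_co
namespace NP

open RTree (endP_append endP_add marked_append marked_add back_cons)

/-! ### Displacements -/

/-- The displacement of a word. -/
def dsp (w : List Dir) : Pt := endP 0 w

theorem endP_dsp (P : Pt) (w : List Dir) : endP P w = P + dsp w := by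
  rw [dsp, add_comm, ← endP_add, zero_add]

theorem dsp_nil : dsp [] = 0 := rfl

theorem dsp_append (u v : List Dir) : dsp (u ++ v) = dsp u + dsp v := by
  rw [dsp, endP_append, endP_dsp]; rfl

theorem dsp_cons (g : Dir) (w : List Dir) : dsp (g :: w) = dv g + dsp w := by
  rw [dsp, endP, endP_dsp, zero_add]

theorem rotP_o (t : Dir) : rotP t 0 = 0 := by revert t; decide

theorem dsp_rot (t : Dir) (w : List Dir) : dsp (rot t w) = rotP t (dsp w) := by
  have := endP_rot t 0 0 w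
  rwa [rotP_o, add_zero, add_zero] at this

theorem dsp_back (t : Dir) (w : List Dir) : dsp (back t w) = -rotP t (dsp w) := by
  have e : ∀ t d : Dir, dv (d + 2 + t) = -rotP t (dv d) := by decide
  induction w with
  | nil => rw [dsp_nil, rotP_o]; rfl
  | cons d w ih =>
    rw [back_cons, dsp_append, ih, dsp_cons, dsp_cons, dsp_nil, rotP_add, e]
    abel

theorem rotP_1 (z : Pt) : rotP 1 z = (-z.2, z.1) := rfl
theorem rotP_2 (z : Pt) : rotP 2 z = (-z.1, -z.2) := rfl
theorem rotP_3 (z : Pt) : rotP 3 z = (z.2, -z.1) := rfl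

theorem back_ne {t : Dir} {w : List Dir} (h : w ≠ []) : back t w ≠ [] := by simpa [back] using h

theorem rot_ne {t : Dir} {w : List Dir} (h : w ≠ []) : rot t w ≠ [] := by simpa [rot] using h

theorem back13 (w : List Dir) : back 1 (back 3 w) = w := by
  rw [back_back]; exact rot_zero w

theorem back31 (w : List Dir) : back 3 (back 1 w) = w := by
  rw [back_back]; exact rot_zero w

/-! ### Trees with their marked points -/

theorem tr_rot (s : Dir) {m : List (Dir × Bool)} {f l t : Dir} {b : Bool} {θ n : ℕ}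
    (h : Tr m f l b t θ n) : Tr (m.map fun x => (x.1 + s, x.2)) (f + s) (l + s) b t θ n := by
  have e1 : ∀ f s : Dir, f - 1 + s = f + s - 1 := by decide
  have e2 : ∀ f c k s : Dir, f + c + k + s = f + s + c + k := by decide
  have e3 : ∀ f g s : Dir, ang (f + s) (g + s) = ang f g := by decide
  induction h with
  | leaf f b => simpa only [List.map_cons, List.map_nil, e1] using Tr.leaf (f + s) b
  | reg f b _ ih =>
    simpa only [List.map_cons, List.map_append, List.map_nil, e2] using Tr.reg (f + s) b ih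
  | vtx f b _ h ih =>
    simpa only [List.map_cons, List.map_append, List.map_nil, e2] using
      Tr.vtx (f + s) b ih (by rw [← e2, e3, e3, h])
  | cat _ _ ih ih' => simpa only [List.map_append, e3] using Tr.cat ih ih'

theorem marked_rot (s : Dir) (P : Pt) (m : List (Dir × Bool)) :
    marked (rotP s P) (m.map fun x => (x.1 + s, x.2)) = (marked P m).map (rotP s) := by
  induction m generalizing P with
  | nil => rfl
  | cons x m ih =>
    simp only [List.map_cons, marked, ← rotP_dv, ← rotP_add, ih]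
    split_ifs <;> rfl

theorem marked_o (P : Pt) (m : List (Dir × Bool)) : marked P m = (marked 0 m).map (· + P) := by
  rw [← marked_add, zero_add]

/-- A tree with unmarked root; `L` lists the marked points, the start being the origin. -/
def TU (w : List Dir) (L : List Pt) (t : Dir) (n : ℕ) : Prop :=
  ∃ (m : List (Dir × Bool)) (f l : Dir) (θ : ℕ), m.map Prod.fst = w ∧ marked 0 m = L ∧
    Tr m f l false t θ n

/-- A tree with a single branch at the root, first step `f`. -/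
def Br (f : Dir) (w : List Dir) (L : List Pt) (t : Dir) (n : ℕ) : Prop :=
  ∃ m : List (Dir × Bool), m.map Prod.fst ++ [f + 2 + t] = w ∧ marked 0 m = L ∧
    ∀ b, Tr (m ++ [(f + 2 + t, b)]) f (f + 2 + t) b t 0 n

/-- A tree with a single branch at the root. -/
def TB (w : List Dir) (L : List Pt) (t : Dir) (n : ℕ) : Prop := ∃ f, Br f w L t n

variable {w w' μ : List Dir} {L L' : List Pt} {t t' f : Dir} {n n' : ℕ}

theorem TB.tu (h : TB w L t n) : TU w L t n := by
  obtain ⟨f, m, rfl, rfl, h⟩ := h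
  exact ⟨_, _, _, _, by simp, by simp [marked_append, marked], h false⟩

theorem TU.cat (h : TU w L t n) (h' : TU w' L' t' n') :
    TU (w ++ w') (L ++ L'.map (· + dsp w)) (t + t') (n + n') := by
  obtain ⟨m, f, l, θ, rfl, rfl, h⟩ := h
  obtain ⟨m', f', l', θ', rfl, rfl, h'⟩ := h'
  exact ⟨_, _, _, _, List.map_append, by rw [marked_append, marked_o (endP _ _)]; rfl, h.cat h'⟩

theorem TU.rot (h : TU w L t n) (s : Dir) : TU (rot s w) (L.map (rotP s)) t n := by
  obtain ⟨m, f, l, θ, rfl, rfl, h⟩ := h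
  exact ⟨_, _, _, _, by simp [NP.rot], by rw [← marked_rot, rotP_o], tr_rot s h⟩

theorem Br.rot (h : Br f w L t n) (s : Dir) : Br (f + s) (rot s w) (L.map (rotP s)) t n := by
  have e : ∀ f t s : Dir, f + 2 + t + s = f + s + 2 + t := by decide
  obtain ⟨m, rfl, rfl, h⟩ := h
  exact ⟨m.map fun x => (x.1 + s, x.2), by simp [NP.rot, e], by rw [← marked_rot, rotP_o],
    fun b => by simpa only [List.map_append, List.map_cons, List.map_nil, e] using tr_rot s (h b)⟩

theorem TB.rot (h : TB w L t n) (s : Dir) : TB (rot s w) (L.map (rotP s)) t n :=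
  h.elim fun _ h => ⟨_, h.rot s⟩

theorem TU.step (h : TU w L t n) (g : Dir) :
    Br g (g :: w ++ [g + 2 + t]) (L.map (· + dv g)) t n := by
  obtain ⟨m, f, l, θ, rfl, rfl, h⟩ := h
  exact ⟨(g, false) :: m, rfl, by simp [marked, marked_o (dv g)], fun b => Tr.reg g b h⟩

theorem TU.zip (h : TU w L t n) (μ : List Dir) :
    TU (μ ++ w ++ back t μ) (L.map (· + dsp μ)) t n := by
  induction μ with
  | nil => simpa [back, dsp_nil] using h
  | cons g μ ih =>
    simpa [back_cons, dsp_cons, Function.comp_def, add_assoc, add_comm (dv g)] using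
      TB.tu ⟨_, ih.step g⟩

theorem TU.zipBr (h : TU w L t n) (g : Dir) (μ : List Dir) :
    Br g (g :: μ ++ w ++ back t (g :: μ)) (L.map (· + dsp (g :: μ))) t n := by
  simpa [back_cons, dsp_cons, Function.comp_def, add_assoc, add_comm (dv g)] using (h.zip μ).step g

theorem TU.zipB (h : TU w L t n) (hμ : μ ≠ []) :
    TB (μ ++ w ++ back t μ) (L.map (· + dsp μ)) t n := by
  obtain ⟨g, μ, rfl⟩ := List.exists_cons_of_ne_nil hμ
  exact ⟨g, h.zipBr g μ⟩

theorem TB.zip (h : TB w L t n) (μ : List Dir) :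
    TB (μ ++ w ++ back t μ) (L.map (· + dsp μ)) t n := by
  cases μ with
  | nil => simpa [back, dsp_nil] using h
  | cons g μ => exact ⟨g, h.tu.zipBr g μ⟩

theorem TB.leaf (hμ : μ ≠ []) : TB (μ ++ back 1 μ) [dsp μ] 1 1 := by
  have e : ∀ g : Dir, g + 2 + 1 = g - 1 := by decide
  obtain ⟨ν, g, rfl⟩ := (List.eq_nil_or_concat' μ).resolve_left hμ
  have h : TB [g, g + 2 + 1] [dv g] 1 1 :=
    ⟨g, [(g, true)], rfl, by simp [marked], fun b => by rw [e]; exact Tr.leaf g b⟩
  simpa [back, dsp_append, dsp_cons, dsp_nil, add_comm (dv g)] using h.zip ν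

theorem TB.vtx (h : TB w L t n) (hμ : μ ≠ []) :
    TB (μ ++ w ++ back (t + 1) μ) (dsp μ :: L.map (· + dsp μ) ++ [dsp μ + dsp w]) (t + 1)
      (n + 1) := by
  have e : ∀ g t : Dir, g + 2 + (t + 1) = g + 3 + t := by decide
  have e' : ∀ g f t : Dir, ang g f + 0 + ang (f + 2 + t) (g + 3 + t) = 3 := by decide
  obtain ⟨ν, g, rfl⟩ := (List.eq_nil_or_concat' μ).resolve_left hμ
  obtain ⟨f, m, rfl, rfl, h⟩ := h
  have h' : TB (g :: (m.map Prod.fst ++ [f + 2 + t]) ++ [g + 2 + (t + 1)])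
      (dv g :: (marked 0 m).map (· + dv g) ++ [dv g + dsp (m.map Prod.fst ++ [f + 2 + t])])
      (t + 1) (n + 1) :=
    ⟨g, (g, true) :: (m ++ [(f + 2 + t, true)]), by simp, by
      simp [marked, marked_append, marked_o (dv g), endP_dsp, dsp_append, dsp_cons, dsp_nil,
        add_comm], fun b => by rw [e]; exact Tr.vtx g b (h true) (e' g f t)⟩
  simpa [back, dsp_append, dsp_cons, dsp_nil, Function.comp_def, add_comm, add_left_comm,
    add_assoc] using h'.zip ν

/-- A vertex with three branches at right angles. -/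
theorem TU.core (h : TU w L 2 n) (hμ : μ ≠ []) :
    TU (back 3 μ ++ (NP.rot 2 (μ ++ w ++ back 2 μ) ++ NP.rot 3 (μ ++ w ++ back 2 μ)) ++ μ)
      ((0 :: (L.map (· + dsp μ)).map (rotP 2) ++ [rotP 2 (dsp (μ ++ w ++ back 2 μ))] ++
        ((L.map (· + dsp μ)).map (rotP 3) ++ [rotP 3 (dsp (μ ++ w ++ back 2 μ))]).map
          (· + rotP 2 (dsp (μ ++ w ++ back 2 μ)))).map (· + dsp (back 3 μ))) 1 (n + n + 1) := by
  have e : ∀ g : Dir, g + 2 + 3 + 3 + (2 + 2) = g := by decide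
  have e' : ∀ g : Dir, ang (g + 2 + 3) (g + 2) + (0 + ang (g + 2 + 2 + 2) (g + 3) + 0) +
      ang (g + 3 + 2 + 2) (g + 2 + 3 + 3 + (2 + 2)) = 3 := by decide
  obtain ⟨g, μ, rfl⟩ := List.exists_cons_of_ne_nil hμ
  have h1 := h.zipBr g μ
  simp only [← dsp_rot]
  generalize g :: μ ++ w ++ back 2 (g :: μ) = v at h1 ⊢
  generalize L.map (· + dsp (g :: μ)) = K at h1 ⊢
  obtain ⟨m, a1, a2, a3⟩ := h1.rot 2
  obtain ⟨m', b1, b2, b3⟩ := h1.rot 3
  rw [← a1, ← a2, ← b1, ← b2]
  have h2 := Tr.vtx (g + 2 + 3) false ((a3 true).cat (b3 true)) (e' g)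
  rw [e] at h2
  have h3 := TU.zip ⟨_, _, _, _, rfl, rfl, h2⟩ (back 3 μ)
  rw [back_back] at h3
  convert h3 using 1
  · simp [back_cons, rot_zero]
  · simp [marked, marked_append, marked_o (_ + _), endP_dsp, dsp_append, dsp_cons, dsp_nil,
      back_cons, marked_o (dv _), Function.comp_def, add_comm, add_left_comm, add_assoc]
  · rfl

theorem TU.ok {u v : List Dir} {P : Pt} (h : TU w' L t 8) (e : w = u ++ v) (e' : w' = v ++ u)
    (hL : ∀ W, W ∈ L.map (· + (P + dsp u)) ↔ W ∈ L') : TreeOK P w L' := by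
  obtain ⟨m, f, l, θ, h1, rfl, h⟩ := h
  exact ⟨u, v, m, f, l, t, θ, e, h1.trans e', h, by rwa [endP_dsp, marked_o]⟩

theorem TreeOK.cast {P P' : Pt} (h : TreeOK P w L) (e : P = P') (e' : w = w')
    (hL : ∀ W, W ∈ L ↔ W ∈ L') : TreeOK P' w' L' := by
  obtain ⟨u, v, m, f, l, t, θ, h1, h2, h3, h4⟩ := h
  exact ⟨u, v, m, f, l, t, θ, e' ▸ h1, h2, h3, fun W => e ▸ (h4 W).trans (hL W)⟩

/-! ### Pinwheels -/

/-- The point `W` turned about `O`. -/
def rho (O : Pt) (s : Dir) (W : Pt) : Pt := O + rotP s (W - O)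

theorem pin {μ o₁ o₂ R : List Dir} {O Z A B : Pt} (hμ : μ ≠ []) (hR : R ≠ []) (h1 : o₁ ≠ [])
    (h2 : o₂ ≠ []) (hO : Z + dsp R = O) (hA : rho O 3 Z + dsp μ + dsp o₁ = A)
    (hZ : A + dsp o₂ = Z + dsp μ)
    (h : (∃ X, X ≠ [] ∧ o₁ = X ++ back 1 (o₂ ++ X) ∧ rho O 3 Z + dsp μ + dsp X = B) ∨
      ∃ X, X ≠ [] ∧ o₂ = back 3 (X ++ o₁) ++ X ∧ A + dsp (back 3 (X ++ o₁)) = B) :
    TreeOK (rho O 1 Z) (rot 2 (μ ++ (o₁ ++ o₂) ++ back 0 μ) ++ rot 3 (μ ++ (o₁ ++ o₂) ++ back 0 μ) ++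
        (μ ++ (o₁ ++ o₂) ++ back 0 μ) ++ (R ++ back 1 R))
      [O, Z, rho O 1 Z, rho O 2 Z, rho O 3 Z, A, rho O 2 A, rho O 3 A, B, rho O 2 B,
        rho O 3 B] := by
  have TR := ((TB.leaf hR).vtx (back_ne (t := 0) hμ)).tu
  have T := (TB.leaf (back_ne (t := 0) hμ)).tu
  rcases h with ⟨X, hX, rfl, hB⟩ | ⟨X, hX, rfl, hB⟩
  · have TX := (TB.leaf hX).tu
    refine ((TR.cat (TX.rot 2)).cat ((T.cat (TX.rot 1)).core h2)).ok
      (u := rot 2 (μ ++ (X ++ back 1 (o₂ ++ X) ++ o₂) ++ back 0 μ) ++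
        rot 3 (μ ++ (X ++ back 1 (o₂ ++ X) ++ o₂) ++ back 0 μ) ++
        (μ ++ (X ++ back 1 (o₂ ++ X) ++ o₂))) (v := back 0 μ ++ (R ++ back 1 R))
      (by simp only [List.append_assoc]) (by
        simp [rot_append, back_append, back_back, rot_back, rot_rot, rot_zero])
      fun W => ?_
    rw [show List.map _ _ = [Z, O, rho O 1 Z, rho O 2 B, rho O 2 A, rho O 2 Z, rho O 3 B,
      rho O 3 A, rho O 3 Z, B, A] from ?_]
    · simp only [List.mem_cons, List.not_mem_nil]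
      tauto
    subst hO hA hB
    simp only [List.map_cons, List.map_nil, List.cons_append, List.nil_append,
      dsp_append, dsp_rot, dsp_back, rho, List.cons.injEq, Prod.ext_iff, rotP_zero, rotP_1, rotP_2,
      rotP_3, Prod.fst_add, Prod.snd_add, Prod.fst_sub, Prod.snd_sub, Prod.fst_neg, Prod.snd_neg,
      Prod.fst_zero, Prod.snd_zero, Fin.reduceAdd, and_true] at hZ ⊢
    omega
  · have TX := (TB.leaf (back_ne (t := 3) hX)).tu
    refine ((TR.cat ((TX.cat T).core (back_ne (t := 3) h1))).cat TX).ok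
      (u := rot 2 (μ ++ (o₁ ++ (back 3 (X ++ o₁) ++ X)) ++ back 0 μ) ++
        rot 3 (μ ++ (o₁ ++ (back 3 (X ++ o₁) ++ X)) ++ back 0 μ) ++
        (μ ++ (o₁ ++ (back 3 (X ++ o₁) ++ X)))) (v := back 0 μ ++ (R ++ back 1 R))
      (by simp only [List.append_assoc]) (by
        simp [rot_append, back_append, back_back, rot_back, rot_rot, rot_zero])
      fun W => ?_
    rw [show List.map _ _ = [Z, O, rho O 1 Z, rho O 2 A, rho O 2 B, rho O 2 Z, rho O 3 A,
      rho O 3 B, rho O 3 Z, A, B] from ?_]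
    · simp only [List.mem_cons, List.not_mem_nil]
      tauto
    subst hO hA hB
    simp only [List.map_cons, List.map_nil, List.cons_append, List.nil_append,
      dsp_append, dsp_rot, dsp_back, rho, List.cons.injEq, Prod.ext_iff, rotP_zero, rotP_1, rotP_2,
      rotP_3, Prod.fst_add, Prod.snd_add, Prod.fst_sub, Prod.snd_sub, Prod.fst_neg, Prod.snd_neg,
      Prod.fst_zero, Prod.snd_zero, Fin.reduceAdd, and_true] at hZ ⊢
    omega

/-! ### The union -/

theorem TB.gad {U : List Dir} (h : TB w L t n) (hU : U ≠ []) :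
    TU (back 3 U ++ U ++ w ++ NP.rot t (back 1 U ++ U))
      ((dsp U :: L.map (· + dsp U) ++ [dsp U + dsp w]).map (· + dsp (back 3 U))) (t + 1)
      (n + 1) := by
  have e : ∀ t : Dir, 3 + (t + 1) = t := by decide
  convert (h.vtx hU).tu.zip (back 3 U) using 1
  simp [rot_append, rot_back, back_back, e, add_comm 1 t]

theorem TU.gad {V o Y : List Dir} (h : TU w L t n) (hY : Y ≠ [])
    (e : V ++ o = Y ++ back 1 Y ++ V) :
    TU (back 3 (V ++ o) ++ (V ++ o) ++ w ++ NP.rot t o)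
      ((dsp Y :: L.map (· + dsp (V ++ o))).map (· + dsp (back 3 (V ++ o)))) (1 + t) (1 + n) := by
  have e' : ∀ t : Dir, 3 + (1 + t) = t := by decide
  have h1 := ((TB.leaf hY).tu.zip (back 3 V)).cat h
  rw [back13, List.append_assoc (back 3 V), ← e] at h1
  convert h1.zip (back 3 o) using 1
  · simp [back_append, back_back, e']
  · simp [back_append, dsp_append, Function.comp_def, add_comm, add_assoc]

theorem uni {arm π Z U o M R S : List Dir} {α β ξ : ℤ} (harm : arm ≠ []) (hZ : Z ≠ [])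
    (hR : R ≠ []) (hS : S ≠ []) (d1 : dsp arm + dsp π = (ξ, α - ξ))
    (d2 : dsp U = (ξ - α - β, β - ξ)) (d3 : dsp o = (-α, α))
    (d4 : dsp (back 3 (Z ++ back 0 arm)) = (0, -β)) (d5 : dsp R = (0, -α)) (d6 : dsp S = (β, 0))
    {qa qb : List Dir} (ea : qa = arm ++ π ++ o ++ back 0 (arm ++ π))
    (eb : qb = U ++ back 0 (arm ++ π) ++ (back 3 (Z ++ back 0 arm) ++ Z) ++ π ++ back 0 U)
    {K : List Pt} (h : (U ≠ [] ∧ o = back 1 U ++ U ∧ M = back 1 U ∧ ξ = β ∧
        K = [(α + β, α - β), (-α - β, β - α), (α - β, -α - β)]) ∨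
      ∃ V Y, Y ≠ [] ∧ U = V ++ o ∧ V ++ o = Y ++ back 1 Y ++ V ∧ M = back 0 V ∧ dsp Y = (-α, 0) ∧
        K = []) :
    TreeOK (0, α) (R ++ back 1 R ++ rot 2 qa ++ rot 3 qa ++ (arm ++ π) ++ M ++
        (S ++ back 1 S ++ rot 2 qb ++ rot 3 qb ++ U ++ back 0 (arm ++ π) ++
          (back 3 (Z ++ back 0 arm) ++ (Z ++ back 0 arm))))
      ([(0, 0), (β, α), (2 * β, 2 * α), (3 * β, 3 * α), (α + 2 * β, 2 * α - β),
        (α + 3 * β, 3 * α - β), (2 * α + 2 * β, 2 * α - 2 * β), (2 * α + 3 * β, 3 * α - 2 * β)] ++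
        K) := by
  have hs : arm ++ π ≠ [] := List.append_ne_nil_of_left_ne_nil harm _
  have T0 := ((TB.leaf (back_ne (t := 3) (List.append_ne_nil_of_left_ne_nil hZ (back 0 arm)))).tu.cat
    (TB.leaf hR).tu).zipB (back_ne (t := 0) hs)
  have F := fun {g K t n} (h : TU g K t n) =>
    ((((TB.leaf (back_ne (t := 3) hZ)).tu.rot 3).cat (h.zip (rot 3 π))).zip (rot 2 arm)).zipB
      (back_ne (t := 3) hs)
  subst ea eb
  rcases h with ⟨hU, rfl, rfl, rfl, rfl⟩ | ⟨V, Y, hY, rfl, e, rfl, d7, rfl⟩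
  · have T2 := (F (((F (T0.gad hU)).rot 1).gad hU)).rot 3
    refine ((TB.leaf hS).tu.cat (T2.vtx (rot_ne (t := 2) hU)).tu).ok rfl (by
      simp [rot_append, back_append, back_back, rot_back, back_rot, rot_rot, rot_zero])
      fun W => ?_
    rw [show List.map _ _ = [(α + 2 * ξ, 2 * α - ξ), (2 * α + 2 * ξ, 2 * α - 2 * ξ),
      (2 * α + 3 * ξ, 3 * α - 2 * ξ), (α + 3 * ξ, 3 * α - ξ), (3 * ξ, 3 * α), (2 * ξ, 2 * α), (ξ, α),
      (0, 0), (-α - ξ, ξ - α), (α - ξ, -α - ξ), (α + ξ, α - ξ)] from ?_]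
    · simp only [List.mem_cons, List.not_mem_nil, List.mem_append]
      tauto
    simp only [List.map_cons, List.map_nil, List.cons_append, List.nil_append,
      dsp_append, dsp_rot, dsp_back, List.cons.injEq, Prod.ext_iff, rotP_zero, rotP_1, rotP_2,
      rotP_3, Prod.fst_add, Prod.snd_add, Prod.fst_neg, Prod.snd_neg,
      Fin.reduceAdd, and_true] at d1 d2 d3 d4 d5 d6 ⊢
    omega
  · have T2 := (F (((F (T0.tu.gad hY e)).rot 1).tu.gad hY e)).rot 3
    have T3 := ((TB.leaf hS).tu.cat ((TB.leaf hY).tu.rot 2)).zip (back 0 V)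
    rw [back_back, List.append_assoc, List.append_assoc, show (0 + (1 + 1) : Dir) = 2 from rfl,
      ← rot_append, ← e] at T3
    refine (T2.tu.cat T3).ok
      (u := R ++ back 1 R ++ rot 2 (arm ++ π ++ o ++ back 0 (arm ++ π)) ++
        rot 3 (arm ++ π ++ o ++ back 0 (arm ++ π)) ++ (arm ++ π) ++ back 0 V ++
        (S ++ back 1 S ++ rot 2 (V ++ o)))
      (v := rot 2 (back 0 (arm ++ π) ++ (back 3 (Z ++ back 0 arm) ++ Z) ++ π ++ back 0 (V ++ o)) ++
        rot 3 (V ++ o ++ back 0 (arm ++ π) ++ (back 3 (Z ++ back 0 arm) ++ Z) ++ π ++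
          back 0 (V ++ o)) ++ (V ++ o) ++ back 0 (arm ++ π) ++
          (back 3 (Z ++ back 0 arm) ++ (Z ++ back 0 arm)))
      (by simp only [rot_append, List.append_assoc]) (by
        simp [rot_append, back_append, back_back, rot_back, back_rot, rot_rot, rot_zero])
      fun W => ?_
    rw [show List.map _ _ = [(2 * α + 3 * β, 3 * α - 2 * β), (α + 3 * β, 3 * α - β),
      (3 * β, 3 * α), (2 * β, 2 * α), (β, α), (0, 0), (α + 2 * β, 2 * α - β),
      (2 * α + 2 * β, 2 * α - 2 * β)] from ?_]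
    · simp only [List.mem_cons, List.not_mem_nil, List.mem_append]
      tauto
    simp only [List.map_cons, List.map_nil, List.cons_append, List.nil_append,
      dsp_append, dsp_rot, dsp_back, List.cons.injEq, Prod.ext_iff, rotP_zero, rotP_1, rotP_2,
      rotP_3, Prod.fst_add, Prod.snd_add, Prod.fst_neg, Prod.snd_neg,
      Fin.reduceAdd, and_true] at d1 d2 d3 d4 d5 d6 d7 ⊢
    omega

/-! ### The design -/

variable {k : ℤ} {p : Par}

theorem SArc.dsp_eq {x y : Pt} {E : ℤ → ℤ → Prop} (h : SArc k x w y E) : dsp w = k • y - k • x := by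
  have := h.1
  rw [endP_dsp] at this
  exact eq_sub_of_add_eq' this

theorem seg_ne {E : ℤ → List Dir} (h : ∀ l, E l ≠ []) {i j : ℤ} (hij : i < j) : seg E i j ≠ [] := by
  rw [seg_append E (j := i + 1) (by omega) hij, seg_one]
  exact List.append_ne_nil_of_left_ne_nil (h i) _

theorem seg_per {E : ℤ → List Dir} {s : ℤ} (h : ∀ l, E (l + s) = E l) (i j i' j' : ℤ)
    (hi : i' = i + s) (hj : j' = j + s) : seg E i' j' = seg E i j := by
  rw [hi, hj, seg_shift h]

theorem dsp_Ra (hk : 2 ≤ k) (p : Par) : dsp (Ra k p) = (0, -(k * p.a)) := by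
  have h : 0 ≤ k * p.a := mul_nonneg (by omega) (by have := p.ha; omega)
  simp only [Ra, dsp_append]
  simp only [dsp, endP_replicate, Int.toNat_of_nonneg h]
  ext <;> simp [dv]

theorem dsp_Rb (hk : 2 ≤ k) (p : Par) : dsp (Rb k p) = (k * p.b, 0) := by
  have h : 0 ≤ k * p.b := mul_nonneg (by omega) (by have := p.aux; omega)
  simp only [Rb, dsp, endP_replicate, Int.toNat_of_nonneg h]
  ext <;> simp [dv]

theorem Ra_ne (hk : 2 ≤ k) (p : Par) : Ra k p ≠ [] := by
  have h : 0 < k * p.a := mul_pos (by omega) (by have := p.ha; omega)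
  simp [Ra, h]

theorem Rb_ne (hk : 2 ≤ k) (p : Par) : Rb k p ≠ [] := by
  have h : 0 < k * p.b := mul_pos (by omega) (by have := p.aux; omega)
  simp [Rb, h]

namespace Des

variable (D : Des k p)

theorem wJ : D.w0 (D.J - 2 * D.q0) = (p.x0 + p.a, p.a - p.x0) := by
  have := D.S0.wper (D.J - 2 * D.q0)
  rw [sub_add_cancel, D.yJ] at this
  rw [eq_sub_of_add_eq this.symm]
  ext <;> simp <;> ring

theorem wβ : D.w1 (D.β1 - 2 * D.q1) = (p.b, p.a + p.b) := by
  have := D.S1.wper (D.β1 - 2 * D.q1)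
  rw [sub_add_cancel, D.b1] at this
  rw [eq_sub_of_add_eq this.symm]
  ext <;> simp

theorem treeA : TreeOK (k • ((-p.a, 0) : Pt)) D.wA (D.LA.map (k • ·)) := by
  have q0 := D.S0.qpos
  have rP := D.rP
  have rM := D.rM
  have s := seg_sym (E := D.E0) (c := D.αP) (s := 3) q0.le fun t h0 h1 => by
    rw [D.shP, D.S0.symA t h0 h1, ← D.shP (-1 - t)]
    congr 2
    ring
  have ds : dsp D.sig = _ := D.arcS.dsp_eq
  have d := fun i j h => (D.arc0 i j h).dsp_eq
  refine (pin (μ := D.sig) (o₁ := seg D.E0 (D.J - 2 * D.q0) D.αP) (o₂ := seg D.E0 D.αP D.J)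
    (R := Ra k p) (O := 0) (Z := k • ((0, p.a) : Pt)) (A := k • D.w0 D.αP) (B := k • D.w0 D.αM)
    (List.append_ne_nil_of_left_ne_nil D.arm_ne _) (Ra_ne D.hk p) (seg_ne D.S0.ne rP.1)
    (seg_ne D.S0.ne rP.2) ?_ ?_ ?_ ?_).cast ?_ ?_ fun W => ?_
  · rw [dsp_Ra D.hk]
    ext <;> simp
  · rw [ds, d _ _ rP.1.le, D.wJ]
    ext <;> simp [rho, rotP_3] <;> ring
  · rw [ds, d _ _ rP.2.le, D.yJ]
    abel
  · rcases D.hM with h | h
    · have e : seg D.E0 D.αP D.αM =
          back 3 (seg D.E0 D.αM D.J ++ seg D.E0 (D.J - 2 * D.q0) D.αP) := by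
        rw [h, s, seg_append D.E0 (j := D.J - 2 * D.q0) (by omega) rP.1.le,
          seg_per D.S0.per (D.αP - D.q0) (D.J - 2 * D.q0) (D.αP + D.q0) D.J (by ring) (by ring)]
      refine .inr ⟨seg D.E0 D.αM D.J, seg_ne D.S0.ne rM.2, ?_, ?_⟩
      · rw [← e, ← seg_append _ (by omega) rM.2.le]
      · rw [← e, d _ _ (by omega)]
        abel
    · refine .inl ⟨seg D.E0 (D.J - 2 * D.q0) D.αM, seg_ne D.S0.ne rM.1, ?_, ?_⟩
      · nth_rewrite 2 [← seg_per D.S0.per (D.J - 2 * D.q0) D.αM D.J (D.αP + D.q0) (by ring)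
          (by omega)]
        rw [← seg_append _ rP.2.le (by omega), s, back13, ← h, ← seg_append _ rM.1.le (by omega)]
      · rw [ds, d _ _ rM.1.le, D.wJ]
        ext <;> simp [rho, rotP_3] <;> ring
  · ext <;> simp [rho, rotP_1]
  · rw [← seg_append _ rP.1.le rP.2.le]
    rfl
  · have e : ∀ s z, rho 0 s (k • z) = k • rotP s z := fun s z => by
      rw [rho, zero_add, sub_zero, rotP_smul]
    have e0 : (0 : Pt) = k • ((0, 0) : Pt) := by ext <;> simp
    simp only [e, LA, List.map_cons, List.map_nil, List.mem_cons, List.not_mem_nil, ← e0,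
      show rotP 1 ((0, p.a) : Pt) = (-p.a, 0) from rfl,
      show rotP 2 ((0, p.a) : Pt) = (0, -p.a) from rfl,
      show rotP 3 ((0, p.a) : Pt) = (p.a, 0) from rfl]
    tauto

theorem treeB :
    TreeOK (k • ((p.a + 2 * p.b, 2 * p.a - 2 * p.b) : Pt)) D.wB (D.LB.map (k • ·)) := by
  have q0 := D.S0.qpos
  have q1 := D.S1.qpos
  have r1 := D.r1
  have hJ : D.β0 ≤ D.J := by have := D.hJ; omega
  have s := seg_sym (E := D.E1) (c := 0) (s := 3) q1.le fun t h0 h1 => by
    rw [zero_add, D.S1.symA t h0 h1]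
    congr 2
  rw [zero_add, zero_sub] at s
  have l : ∀ i, i < D.β1 → seg D.E1 i D.β1 = seg D.E1 i (D.β1 - 1) ++ (D.eps ++ back 0 D.arm) :=
    fun i h => by rw [← D.last, ← seg_succ _ (by omega), sub_add_cancel]
  have ds : dsp D.arm + dsp D.pi = _ := (dsp_append _ _).symm.trans D.arcS.dsp_eq
  have de : dsp D.eps + dsp D.pi = _ := (dsp_append _ _).symm.trans D.arcE.dsp_eq
  have d0 := (D.arc0 _ _ hJ).dsp_eq
  have d := fun i j h => (D.arc1 i j h).dsp_eq
  have dy : ∀ i, D.β1 - 2 * D.q1 ≤ i →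
      rho (k • ((p.a + 2 * p.b, 2 * p.a - p.b) : Pt)) 3 (k • ((p.a + p.b, 2 * p.a - p.b) : Pt)) +
      dsp (seg D.E0 D.β0 D.J ++ back 0 D.pi) +
      dsp (back 0 D.arm ++ seg D.E1 (D.β1 - 2 * D.q1) i) = k • D.w1 i := fun i h => by
    rw [dsp_append, dsp_append, dsp_back, dsp_back, d0, d _ _ h, eq_sub_of_add_eq ds, D.wβ, D.yJ,
      D.b0]
    ext <;> simp [rho, rotP_3, rotP_zero] <;> ring
  refine (pin (μ := seg D.E0 D.β0 D.J ++ back 0 D.pi)
    (o₁ := back 0 D.arm ++ seg D.E1 (D.β1 - 2 * D.q1) 0) (o₂ := seg D.E1 0 (D.β1 - 1) ++ D.eps)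
    (R := Rb k p) (O := k • ((p.a + 2 * p.b, 2 * p.a - p.b) : Pt))
    (Z := k • ((p.a + p.b, 2 * p.a - p.b) : Pt)) (A := k • D.w1 0) (B := k • D.w1 D.αN)
    (List.append_ne_nil_of_left_ne_nil (seg_ne D.S0.ne (by have := D.hJ; omega)) _) (Rb_ne D.hk p)
    (List.append_ne_nil_of_left_ne_nil (back_ne D.arm_ne) _)
    (List.append_ne_nil_of_right_ne_nil _ D.eps_ne) ?_ (dy 0 r1.1.le) ?_ ?_).cast ?_ ?_
    fun W => ?_
  · rw [dsp_Rb D.hk]
    ext <;> simp <;> ring
  · rw [dsp_append, dsp_append, dsp_back, d0, d _ _ (by omega), eq_sub_of_add_eq de, D.yJ, D.b0,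
      rotP_zero]
    abel
  · rcases D.hN with ⟨-, h, h', -⟩ | ⟨-, h, h', -⟩
    · have e : seg D.E1 0 D.q1 = back 3 (seg D.E1 D.q1 (D.β1 - 1) ++ D.eps ++
          (back 0 D.arm ++ seg D.E1 (D.β1 - 2 * D.q1) 0)) := by
        rw [s, seg_append D.E1 (j := D.β1 - 2 * D.q1) (by omega) r1.1.le,
          ← seg_per D.S1.per (-D.q1) (D.β1 - 2 * D.q1) D.q1 D.β1 (by ring) (by ring), l _ h]
        simp only [List.append_assoc]
      refine .inr ⟨seg D.E1 D.q1 (D.β1 - 1) ++ D.eps,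
        List.append_ne_nil_of_right_ne_nil _ D.eps_ne, ?_, ?_⟩
      · rw [← e, ← List.append_assoc, ← seg_append _ q1.le (by omega)]
      · rw [← e, d _ _ q1.le, h']
        abel
    · refine .inl ⟨back 0 D.arm ++ seg D.E1 (D.β1 - 2 * D.q1) (-D.q1),
        List.append_ne_nil_of_left_ne_nil (back_ne D.arm_ne) _, ?_, h' ▸ dy _ (by omega)⟩
      have e : seg D.E1 0 D.q1 = seg D.E1 0 (D.β1 - 1) ++ D.eps ++
          (back 0 D.arm ++ seg D.E1 (D.β1 - 2 * D.q1) (-D.q1)) := by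
        rw [seg_append D.E1 r1.2.le h.le, l _ r1.2,
          seg_per D.S1.per (D.β1 - 2 * D.q1) (-D.q1) D.β1 D.q1 (by ring) (by ring)]
        simp only [List.append_assoc]
      rw [← e, s, back13, List.append_assoc, ← seg_append _ (by omega) (by omega)]
  · ext <;> simp [rho, rotP_1] <;> ring
  · have e : seg D.E0 D.β0 D.J ++ back 0 D.pi ++ (back 0 D.arm ++ seg D.E1 (D.β1 - 2 * D.q1) 0 ++
        (seg D.E1 0 (D.β1 - 1) ++ D.eps)) ++ back 0 (seg D.E0 D.β0 D.J ++ back 0 D.pi) = D.qb := by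
      rw [qb, sig, seg_append D.E1 (l := D.β1 - 1) r1.1.le (by omega)]
      simp [back_append, back_back, rot_zero]
    rw [e]
    rfl
  · have e : ∀ O s z, rho (k • O) s (k • z) = k • (O + rotP s (z - O)) := fun O s z => by
      rw [rho, ← smul_sub, rotP_smul, smul_add]
    have e1 : ((p.a + 2 * p.b, 2 * p.a - p.b) : Pt) + rotP 1 ((p.a + p.b, 2 * p.a - p.b) -
        (p.a + 2 * p.b, 2 * p.a - p.b)) = (p.a + 2 * p.b, 2 * p.a - 2 * p.b) := by
      ext
      · simp [rotP_1]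
      · simp only [rotP_1, Prod.snd_add, Prod.fst_sub]
        ring
    have e2 : ((p.a + 2 * p.b, 2 * p.a - p.b) : Pt) + rotP 2 ((p.a + p.b, 2 * p.a - p.b) -
        (p.a + 2 * p.b, 2 * p.a - p.b)) = (p.a + 3 * p.b, 2 * p.a - p.b) := by
      ext <;> simp [rotP_2] <;> ring
    have e3 : ((p.a + 2 * p.b, 2 * p.a - p.b) : Pt) + rotP 3 ((p.a + p.b, 2 * p.a - p.b) -
        (p.a + 2 * p.b, 2 * p.a - p.b)) = (p.a + 2 * p.b, 2 * p.a) := by
      ext <;> simp [rotP_3] <;> ring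
    have e4 : ((p.a + 2 * p.b, 2 * p.a - p.b) : Pt) + rotP 2 ((p.a, 2 * p.a) -
        (p.a + 2 * p.b, 2 * p.a - p.b)) = (p.a + 4 * p.b, 2 * p.a - 2 * p.b) := by
      ext <;> simp [rotP_2] <;> ring
    have e5 : ((p.a + 2 * p.b, 2 * p.a - p.b) : Pt) + rotP 3 ((p.a, 2 * p.a) -
        (p.a + 2 * p.b, 2 * p.a - p.b)) = (p.a + 3 * p.b, 2 * p.a + p.b) := by
      ext <;> simp [rotP_3] <;> ring
    simp only [e, D.a1, e1, e2, e3, e4, e5, LB, List.map_cons, List.map_nil, List.mem_cons,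
      List.not_mem_nil]
    tauto

theorem treeC : TreeOK (k • ((0, p.a) : Pt)) D.wC ((LC p).map (k • ·)) := by
  have q0 := D.S0.qpos
  have q1 := D.S1.qpos
  have hJ : D.β0 + D.q0 ≤ D.J := by have := D.hJ; omega
  have s0 := seg_sym q0.le D.S0.symB
  have s1 := seg_sym q1.le D.S1.symB
  have l : seg D.E1 (D.β1 - D.q1) D.β1 =
      seg D.E1 (D.β1 - D.q1) (D.β1 - 1) ++ D.eps ++ back 0 D.arm := by
    rw [List.append_assoc, ← D.last, ← seg_succ _ (by omega), sub_add_cancel]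
  rw [seg_per D.S1.per (D.β1 - 2 * D.q1) (D.β1 - D.q1) D.β1 (D.β1 + D.q1) (by ring) (by ring),
    l] at s1
  have d := fun i j h => (D.arc0 i j h).dsp_eq
  refine (uni (arm := D.arm) (π := D.pi) (Z := seg D.E1 (D.β1 - D.q1) (D.β1 - 1) ++ D.eps)
    (U := seg D.E0 D.β0 D.J) (o := seg D.E0 (D.J - 2 * D.q0) D.J) (M := D.wC2) (R := Ra k p)
    (S := Rb k p) (α := k * p.a) (β := k * p.b) (ξ := k * p.x0) D.arm_ne
    (List.append_ne_nil_of_right_ne_nil _ D.eps_ne) (Ra_ne D.hk p) (Rb_ne D.hk p) ?_ ?_ ?_ ?_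
    (dsp_Ra D.hk p) (dsp_Rb D.hk p) (qa := D.qa) (qb := D.qb) rfl ?_
    (K := (if p.x0 = p.b then [((p.a + p.b, p.a - p.b) : Pt), (-p.a - p.b, p.b - p.a),
      (p.a - p.b, -p.a - p.b)] else []).map (k • ·)) ?_).cast ?_ ?_ fun W => ?_
  · rw [← dsp_append, D.arcS.dsp_eq]
    ext <;> simp <;> ring
  · rw [d _ _ (by omega), D.yJ, D.b0]
    ext <;> simp <;> ring
  · rw [d _ _ (by omega), D.yJ, D.wJ]
    ext <;> simp <;> ring
  · rw [← s1, (D.arc1 _ _ (by omega)).dsp_eq, D.c1, D.wβ]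
    ext <;> simp <;> ring
  · rw [← s1, qb, sig, seg_append D.E1 (j := D.β1 - D.q1) (l := D.β1 - 1) (by omega) (by omega)]
    simp only [List.append_assoc]
  · rcases D.hJ with ⟨h, h'⟩ | ⟨h, h'⟩
    · have e : seg D.E0 (D.J - 2 * D.q0) D.β0 = back 1 (seg D.E0 D.β0 D.J) := by
        rw [h', s0, back13]
        congr 1
        ring
      refine .inl ⟨seg_ne D.S0.ne (by omega), ?_, ?_, by rw [h], ?_⟩
      · rw [← e, ← seg_append _ (by omega) (by omega)]
      · rw [wC2, M, max_eq_right (by omega), seg_self, e]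
        exact List.append_nil _
      · rw [if_pos h]
        simp only [List.map_cons, List.map_nil, Prod.smul_mk, smul_eq_mul, mul_add, mul_sub,
          mul_neg]
    · refine .inr ⟨seg D.E0 D.β0 (D.J - 2 * D.q0), seg D.E0 D.β0 (D.β0 + D.q0),
        seg_ne D.S0.ne (by omega), seg_append _ (by omega) (by omega), ?_, ?_, ?_, ?_⟩
      · rw [← seg_append _ (by omega) (by omega),
          seg_append D.E0 (j := D.β0 + 2 * D.q0) (by omega) h',
          seg_per D.S0.per D.β0 (D.J - 2 * D.q0) _ D.J rfl (by ring),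
          seg_append D.E0 (j := D.β0 + D.q0) (l := D.β0 + 2 * D.q0) (by omega) (by omega),
          seg_per D.S0.per (D.β0 - D.q0) D.β0 (D.β0 + D.q0) _ (by ring) rfl,
          s0, back13]
      · rw [wC2, M, max_eq_left (by omega), seg_self, List.nil_append]
      · rw [d _ _ (by omega), D.c0, D.b0]
        ext <;> simp <;> ring
      · rw [if_neg h.ne, List.map_nil]
  · ext <;> simp
  · rw [← s1, ← l, ← seg_append _ (by omega) (by omega)]
    rfl
  · rw [LC, List.map_append]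
    simp only [List.map_cons, List.map_nil, Prod.smul_mk, smul_eq_mul, mul_add, mul_sub, mul_zero,
      mul_left_comm k]

end Des

end NP
end Pool.Agent.Lib.MP_4a7072_co
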