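import Pool.Agent.Lib.MP_4a7072_co.NNet

/-!
The periodic curves with four centres of rotation, and the connecting path.
-/

set_option autoImplicit false

namespace Pool.Agent.Lib.MP_4a7072_co
namespace NP

/-- A step of the coarse curve: a unit step for `e = 0`, a diagonal step otherwise. -/
def stepv (e : ℤ) (d : Dir) : Pt := if e = 0 then dv d else dv d + dv (d + 1)

/-- A simple periodic curve in the strip `0 ≤ y - x ≤ n` that is invariant, locally, under quarter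
turns about `(0, 0)` and `(m, m)`. -/
structure WB0 (e n m : ℤ) where
  w : ℤ → Pt
  d : ℤ → Dir
  q : ℤ
  β : ℤ
  qpos : 0 < q
  step : ∀ l, w (l + 1) = w l + stepv e (d l)
  w0 : w 0 = (0, 0)
  wq : w q = (0, n)
  wβ : w β = (m, m)
  per : ∀ l, w (l + 2 * q) = w l + (n, n)
  inj : ∀ l l', w l = w l' → l = l'
  strip : ∀ l, 0 ≤ (w l).2 - (w l).1 ∧ (w l).2 - (w l).1 ≤ n
  symA : ∀ i, 0 ≤ i → i ≤ q → w (-i) = rotP 1 (w i)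
  symB : ∀ i, 0 ≤ i → i ≤ q → w (β - i) - (m, m) = rotP 1 (w (β + i) - (m, m))
  kA : ∀ l, (w l).1 + (w l).2 = 0 → (w l).2 - (w l).1 = n → n = 2 ∧ l < 0
  kB : ∀ l, (w l).1 + (w l).2 = 2 * m → (w l).2 - (w l).1 = n → n = 2 ∧ β < l

/-- The curve with the bounds for the depth of its first arc. -/
structure WB (e n m : ℤ) extends WB0 e n m where
  dep : 0 < m → ∀ l, 0 ≤ l → l ≤ β → (w l).2 - (w l).1 < 2 * m ∧
    (l < β → e = 1 → (w l).1 + (w l).2 = 2 * m → (w l).2 - (w l).1 + 2 < 2 * m)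
  big : 0 < m → 2 * m < n → 2 * β < q ∧ (∀ l, 0 ≤ l → l ≤ β → (w l).2 - (w l).1 ≤ n - 2 * m) ∧
    ∀ l, 2 * β ≤ l → l ≤ q → 2 * m ≤ (w l).2 - (w l).1

/-- The points (relative to the doubled `i`-th point of the altitude) of the `i`-th block of the
connecting path; `s`, `s'` tell on which side the previous and the present point are passed. -/
def Blk (e : ℤ) (s s' : Prop) (u v : ℤ) : Prop :=
  (e = 0 ∧ ((u = -1 ∧ v = 1) ∨ (u = 1 ∧ v = -1) ∨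
    (s' ∧ ((u = -1 ∧ (v = 0 ∨ v = -1)) ∨ (u = 0 ∧ v = -1))) ∨
    (¬s' ∧ ((u = 1 ∧ (v = 0 ∨ v = 1)) ∨ (u = 0 ∧ v = 1))))) ∨
  (e = 1 ∧ ((s ∧ u = -2 ∧ v = 0) ∨ (¬s ∧ u = 0 ∧ v = 2) ∨
    (s' ∧ ((u = -1 ∧ -2 ≤ v ∧ v ≤ 0) ∨ (u = 0 ∧ v = -2))) ∨
    (¬s' ∧ ((u = 1 ∧ 0 ≤ v ∧ v ≤ 1) ∨ (u = 2 ∧ v = 0))) ∨ (¬s ∧ ¬s' ∧ u = 1 ∧ v = 2) ∨
    (¬s ∧ s' ∧ -1 ≤ u ∧ u ≤ 0 ∧ v = 1) ∨ (s ∧ ¬s' ∧ -2 ≤ u ∧ u ≤ 0 ∧ v = 1)))

/-- Where the shadow of the connecting path lies. -/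
def Pis (p : Par) (bk : ℤ → Prop) (N X Y : ℤ) : Prop :=
  (X = 0 ∧ Y = 2 * p.a) ∨ (X = 1 - p.f ∧ Y = 2 * p.a - p.f) ∨
  (∃ i, 1 ≤ i ∧ i ≤ N ∧ Blk p.e1 (bk (max (i - 1) 1)) (bk i) (X - 2 * i) (Y - 2 * p.a + 2 * i)) ∨
  (Y - X ≤ p.TG + p.e0 ∧ 2 * p.a + 1 + p.e1 ≤ X + Y ∧ X + Y ≤ 4 * p.a)

end NP
end Pool.Agent.Lib.MP_4a7072_co
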