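import Pool.Agent.Lib.MP_4a7072_co.FGen

/-!
Tools for curves made from two arcs in a band parallel to an axis.
-/

set_option autoImplicit false
set_option linter.unnecessarySeqFocus false
set_option linter.unusedSimpArgs false
set_option linter.unusedVariables false

namespace Pool.Agent.Lib.MP_4a7072_co
namespace NP

/-- Extension of a half period in a narrow rectangle to a periodic curve. -/
theorem extendQ {a q : ℤ} (hq : 0 < q) (F : ℤ → Pt) (F0 : F 0 = (0, 0))
    (Fq : F q = (0, 2 * a)) (st : ∀ i, 0 ≤ i → i < q → Stp 0 (F i) (F (i + 1)))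
    (box : ∀ i, 0 ≤ i → i ≤ q → -a < (F i).1 ∧ (F i).1 < a ∧ 0 ≤ (F i).2 ∧ (F i).2 ≤ 2 * a)
    (inj : ∀ i j, 0 ≤ i → i ≤ q → 0 ≤ j → j ≤ q → (F i).1 = (F j).1 → (F i).2 = (F j).2 → i = j)
    (cA : ∀ i j, 0 ≤ i → i ≤ q → 0 ≤ j → j ≤ q → (F i).1 = -(F j).2 → (F i).2 = (F j).1 → j = 0)
    (cM : ∀ i j, 0 ≤ i → i ≤ q → 0 ≤ j → j ≤ q → (F i).1 = 2 * a - (F j).2 →
      (F i).2 = (F j).1 + 2 * a → i = q) :
    ∃ C : UC (2 * a, 2 * a), C.q = q ∧ ∀ i, 0 ≤ i → i ≤ q → C.w i = F i := by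
  have hq2 : 0 < 2 * q := by omega
  have ha : 0 < a := by have := box 0 le_rfl hq.le; omega
  obtain ⟨n, hn⟩ : ∃ n, n = 2 * a := ⟨_, rfl⟩
  rw [← hn] at Fq cM box ⊢
  obtain ⟨G, hG⟩ : ∃ G : ℤ → Pt, G = fun r => if 0 ≤ r then F r else rotP 1 (F (-r)) := ⟨_, rfl⟩
  obtain ⟨w, hw⟩ : ∃ w : ℤ → Pt,
    w = fun l => G ((l + q) % (2 * q) - q) + ((l + q) / (2 * q)) • ((n, n) : Pt) := ⟨_, rfl⟩
  have per : ∀ l, w (l + 2 * q) = w l + (n, n) := fun l => by
    simp only [hw]
    rw [add_right_comm, Int.add_emod_right, Int.add_ediv_of_dvd_right dvd_rfl,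
      Int.ediv_self hq2.ne', add_smul, one_smul, add_assoc]
  have base : ∀ r, -q ≤ r → r < q → w r = G r := fun r a b => by
    simp only [hw]
    rw [Int.emod_eq_of_lt (by omega) (by omega), Int.ediv_eq_zero_of_lt (by omega) (by omega),
      add_sub_cancel_right, zero_smul, add_zero]
  have neg : ∀ i, 0 ≤ i → i ≤ q → w (-i) = rotP 1 (F i) := fun i a b => by
    rw [base _ (by omega) (by omega), hG]
    simp only [neg_neg]
    split_ifs with h
    · rw [show i = 0 by omega, neg_zero, F0]; rfl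
    · rfl
  have pos : ∀ i, 0 ≤ i → i ≤ q → w i = F i := fun i a b => by
    rcases eq_or_lt_of_le b with rfl | h
    · have := per (-i)
      rw [show -i + 2 * i = i by ring, neg i a b, Fq] at this
      rw [this, Fq]
      ext <;> simp [rotP1]
    · rw [base _ (by omega) h, hG]
      exact if_pos a
  have dec : ∀ l, ∃ r s, -q ≤ r ∧ r < q ∧ l = r + 2 * q * s := fun l => by
    have h1 := Int.mul_ediv_add_emod (l + q) (2 * q)
    have h2 := Int.emod_nonneg (l + q) hq2.ne'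
    have h3 := Int.emod_lt_of_pos (l + q) hq2
    exact ⟨(l + q) % (2 * q) - q, (l + q) / (2 * q), by omega, by omega, by omega⟩
  have val : ∀ r, -q ≤ r → r < q → (0 ≤ r ∧ w r = F r) ∨ (r < 0 ∧ w r = rotP 1 (F (-r))) :=
    fun r a b => by
      rcases le_or_gt 0 r with h | h
      · exact Or.inl ⟨h, pos r h b.le⟩
      · exact Or.inr ⟨h, by rw [← neg (-r) (by omega) (by omega), neg_neg]⟩
  have stp : ∀ l, Stp 0 (w l) (w (l + 1)) := fun l => by
    obtain ⟨r, s, a, b, rfl⟩ := dec l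
    rw [add_right_comm, per_mul per, per_mul per]
    refine Stp.add ?_ _
    rcases val r a b with ⟨c, d⟩ | ⟨c, d⟩
    · rw [d, pos _ (by omega) (by omega)]
      exact st r c b
    · have := neg (-(r + 1)) (by omega) (by omega)
      rw [neg_neg] at this
      rw [d, this]
      have s := (st (-(r + 1)) (by omega) (by omega)).symm.rot 1
      rwa [show -(r + 1) + 1 = -r by ring] at s
  have sA : ∀ i, 0 ≤ i → i ≤ q → (w (-i)).1 = -(w i).2 ∧ (w (-i)).2 = (w i).1 := fun i a b => by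
    rw [neg i a b, pos i a b]
    exact ⟨rfl, rfl⟩
  have w0 : w 0 = (0, 0) := (pos 0 le_rfl hq.le).trans F0
  refine ⟨⟨w, fun l => (stp l).choose, q, 0, hq, fun l => (stp l).choose_spec, w0, per,
    fun l l' h h' => ?_, sA, fun i a b => ?_⟩, rfl, pos⟩
  · obtain ⟨r, s, a, b, rfl⟩ := dec l
    obtain ⟨r', s', a', b', rfl⟩ := dec l'
    rw [per_mul per, per_mul per] at h h'
    have m1 : s' + 2 ≤ s → s' * n + 2 * n ≤ s * n := fun h => by nlinarith
    have m2 : s + 2 ≤ s' → s * n + 2 * n ≤ s' * n := fun h => by nlinarith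
    have m3 : s = s' + 1 → s * n = s' * n + n := fun h => by rw [h]; ring
    have m4 : s' = s + 1 → s' * n = s * n + n := fun h => by rw [h]; ring
    have m5 : s' = s → s' * n = s * n := fun h => by rw [h]
    suffices r = r' ∧ s = s' by rw [this.1, this.2]
    rcases val r a b with ⟨c, d⟩ | ⟨c, d⟩ <;> rcases val r' a' b' with ⟨c', d'⟩ | ⟨c', d'⟩ <;>
      rw [d, d'] at h h' <;>
      simp only [rotP1, Prod.fst_add, Prod.snd_add, Prod.smul_fst, Prod.smul_snd,
        smul_eq_mul] at h h'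
    · have := box r c b.le
      have := box r' c' b'.le
      have e : s = s' := by omega
      exact ⟨inj r r' c b.le c' b'.le (by omega) (by omega), e⟩
    · have := box r c b.le
      have := box (-r') (by omega) (by omega)
      have := cA r (-r') c b.le (by omega) (by omega)
      have := cM r (-r') c b.le (by omega) (by omega)
      omega
    · have := box r' c' b'.le
      have := box (-r) (by omega) (by omega)
      have := cA r' (-r) c' b'.le (by omega) (by omega)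
      have := cM r' (-r) c' b'.le (by omega) (by omega)
      omega
    · have := box (-r) (by omega) (by omega)
      have := box (-r') (by omega) (by omega)
      have e : s = s' := by omega
      have := inj (-r) (-r') (by omega) (by omega) (by omega) (by omega) (by omega) (by omega)
      exact ⟨by omega, e⟩
  · have := sA i a b
    rw [zero_sub, zero_add, w0]
    simp only
    omega

namespace UC

variable {τ : Pt} (C : UC τ)

/-- A left turn about the point with index `c`. -/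
theorem ZL {c n x y i j : ℤ} (hn : 0 ≤ n) (hi : i = c - n) (hj : j = c + n)
    (h : ∀ i, 0 ≤ i → i ≤ n →
      (C.w (c - i)).1 = x - (C.w (c + i)).2 ∧ (C.w (c - i)).2 = y + (C.w (c + i)).1) :
    C.Z c j = back 3 (C.Z i c) := by
  subst hi hj
  refine seg_sym hn fun t a b => ?_
  have h1 := h t a b.le
  have h2 := h (t + 1) (by omega) b
  have h3 := C.step' (c + t)
  have h4 := C.step' (c - 1 - t)
  rw [show c - 1 - t + 1 = c - t by ring] at h4
  rw [show c - (t + 1) = c - 1 - t by ring, ← add_assoc] at h2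
  have := dv_turn (C.d (c + t)) (C.d (c - 1 - t)) (by omega) (by omega)
  rw [E, E, this]
  exact congrArg (· :: []) ((by decide : ∀ d : Dir, d + 1 = d + 2 + 3) _)

/-- A right turn about the point with index `c`. -/
theorem ZR {c n x y i j : ℤ} (hn : 0 ≤ n) (hi : i = c - n) (hj : j = c + n)
    (h : ∀ i, 0 ≤ i → i ≤ n →
      (C.w (c + i)).1 = x - (C.w (c - i)).2 ∧ (C.w (c + i)).2 = y + (C.w (c - i)).1) :
    C.Z c j = back 1 (C.Z i c) := by
  subst hi hj
  refine seg_sym hn fun t a b => ?_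
  have h1 := h t a b.le
  have h2 := h (t + 1) (by omega) b
  have h3 := C.step' (c + t)
  have h4 := C.step' (c - 1 - t)
  rw [show c - 1 - t + 1 = c - t by ring] at h4
  rw [show c - (t + 1) = c - 1 - t by ring, ← add_assoc] at h2
  have := dv_turn (C.d (c - 1 - t)) (C.d (c + t)) (by omega) (by omega)
  rw [E, E, this]
  exact congrArg (· :: []) ((by decide : ∀ d : Dir, d = d + 1 + 2 + 1) _)

theorem Z_shift {γ g g' : ℤ}
    (h : ∀ l, (C.w (l + γ)).1 = (C.w l).1 + g ∧ (C.w (l + γ)).2 = (C.w l).2 + g')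
    {i j i' j' : ℤ} (hi : i' = i + γ) (hj : j' = j + γ) : C.Z i' j' = C.Z i j := by
  refine seg_per (fun l => ?_) i j i' j' hi hj
  have h1 := h l
  have h2 := h (l + 1)
  have h3 := C.step' l
  have h4 := C.step' (l + γ)
  rw [add_right_comm] at h2
  rw [E, E, dv_inj' (C.d (l + γ)) (C.d l) (Prod.ext (by omega) (by omega))]

theorem pers {n : ℤ} (C : UC (n, n)) (s l : ℤ) : (C.w (l + 2 * C.q * s)).1 = (C.w l).1 + s * n ∧
    (C.w (l + 2 * C.q * s)).2 = (C.w l).2 + s * n := by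
  rw [per_mul C.per]
  simp

end UC

namespace WD

variable {e n m : ℤ} (W : WD e n m)

theorem stp (l : ℤ) : Stp e (W.w l) (W.w (l + 1)) := ⟨_, W.step l⟩

theorem par (he : e = 1) (l : ℤ) : ((W.w l).1 + (W.w l).2) % 2 = 0 := by
  induction l with
  | zero => rw [W.w0]; rfl
  | succ l ih => have := (W.stp l).coord (Or.inr he); omega
  | pred l ih =>
    have := (W.stp (-(l : ℤ) - 1)).coord (Or.inr he)
    rw [sub_add_cancel] at this
    omega

theorem prs (s l : ℤ) : (W.w (l + 2 * W.q * s)).1 = (W.w l).1 + s * n ∧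
    (W.w (l + 2 * W.q * s)).2 = (W.w l).2 + s * n := by
  rw [per_mul W.per]
  simp

theorem pr1 (l : ℤ) : (W.w (l + 2 * W.q)).1 = (W.w l).1 + n ∧
    (W.w (l + 2 * W.q)).2 = (W.w l).2 + n := by
  rw [W.per]
  exact ⟨rfl, rfl⟩

theorem syA {i : ℤ} (h : 0 ≤ i) (h' : i ≤ W.q) :
    (W.w (-i)).1 = -(W.w i).2 ∧ (W.w (-i)).2 = (W.w i).1 := by
  rw [W.symA i h h']
  exact ⟨rfl, rfl⟩

theorem syB {i : ℤ} (h : 0 ≤ i) (h' : i ≤ W.q) :
    (W.w (W.β - i)).1 = 2 * m - (W.w (W.β + i)).2 ∧ (W.w (W.β - i)).2 = (W.w (W.β + i)).1 := by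
  have := W.symB i h h'
  simp only [Prod.ext_iff, rotP1, Prod.fst_sub, Prod.snd_sub] at this
  omega

/-- One period of the curve. -/
theorem one (l : ℤ) (h : -W.q ≤ l) (h' : l ≤ W.q) :
    (0 ≤ l ∧ 0 ≤ (W.w l).1 ∧ (W.w l).1 ≤ m ∧ 0 ≤ (W.w l).2 ∧ (W.w l).2 ≤ n ∧
      (l ≤ W.β → (W.w l).2 ≤ m)) ∨
    (l < 0 ∧ -n ≤ (W.w l).1 ∧ (W.w l).1 ≤ 0 ∧ 0 ≤ (W.w l).2 ∧ (W.w l).2 ≤ m ∧
      (l ≤ W.β - W.q → (W.w l).1 ≤ m - n)) := by
  rcases le_or_gt 0 l with c | c
  · have := W.box l c h'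
    exact .inl ⟨c, this.1, this.2.1, this.2.2.1, this.2.2.2.1, this.2.2.2.2.1⟩
  · have h1 := W.box (-l) (by omega) (by omega)
    have h2 := W.syA (i := -l) (by omega) (by omega)
    have h3 := h1.2.2.2.2.2.2.2
    rw [neg_neg] at h2
    refine .inr ⟨c, by omega, by omega, by omega, by omega, fun g => ?_⟩
    have := h3 (by omega)
    omega

theorem fwd (hn : m < n) (l : ℤ) (h : -W.q ≤ l) : -m ≤ (W.w l).2 - (W.w l).1 ∧
    (W.w l).2 - (W.w l).1 ≤ n + m ∧ -n ≤ (W.w l).1 ∧ 0 ≤ (W.w l).2 ∧ (0 ≤ l → 0 ≤ (W.w l).1) := by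
  have hq := W.hβ
  have h0 := W.one 0 (by omega) (by omega)
  obtain ⟨k, hk⟩ : ∃ k : ℕ, l ≤ k := ⟨l.toNat, by omega⟩
  induction k generalizing l with
  | zero =>
    have := W.one l h (by omega)
    omega
  | succ k ih =>
    rcases le_total l W.q with c | c
    · have := W.one l h c
      omega
    · have := ih (l - 2 * W.q) (by omega) (by omega)
      have g := W.pr1 (l - 2 * W.q)
      rw [sub_add_cancel] at g
      omega

theorem bwd (hn : m < n) (l : ℤ) (h : l ≤ W.q) : (W.w l).1 ≤ m ∧ (W.w l).2 ≤ n ∧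
    (l ≤ W.β → (W.w l).2 ≤ m) ∧ (l ≤ W.β - W.q → (W.w l).1 ≤ m - n) := by
  have hq := W.hβ
  have h0 := W.one 0 (by omega) (by omega)
  have hm := W.one W.β (by omega) (by omega)
  rw [W.wβ] at hm
  simp only at hm
  obtain ⟨k, hk⟩ : ∃ k : ℕ, -l ≤ k := ⟨(-l).toNat, by omega⟩
  induction k generalizing l with
  | zero =>
    have := W.one l (by omega) h
    omega
  | succ k ih =>
    rcases le_total (-W.q) l with c | c
    · have := W.one l c h
      omega
    · have := ih (l + 2 * W.q) (by omega) (by omega)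
      have g := W.pr1 l
      omega

end WD

/-- A path north and then west. -/
def nw (h w : ℤ) : List Dir := rot 1 (ea h) ++ rot 2 (ea w)

theorem nw_arc {h w x : ℤ} (h0 : 0 ≤ h) (w0 : 0 ≤ w) (hx : x = -w) : CArc (0, 0) (nw h w) (x, h)
    fun X Y => (X = 0 ∧ 0 ≤ Y ∧ Y ≤ h) ∨ (Y = h ∧ x ≤ X ∧ X ≤ 0) := by
  have h1 := (ea_arc h0).p1 (P' := (0, 0)) (Q' := (0, h)) 0 0 (by dsimp only; omega)
  have h2 := (ea_arc w0).p2 (P' := (0, h)) (Q' := (x, h)) 0 h (by dsimp only; omega)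
  refine (h1.append h2 fun X Y a b => ?_).mono fun X Y a => ?_
  · dsimp only at a b ⊢
    omega
  · omega

theorem nw_ne {h w : ℤ} (h0 : 0 < h) : nw h w ≠ [] :=
  List.append_ne_nil_of_left_ne_nil (rot_ne (ea_ne h0)) _

end NP
end Pool.Agent.Lib.MP_4a7072_co
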