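import Pool.Agent.Lib.MP_4a7072_co.QBase

/-!
The curve of the designs for an odd shorter leg `a`, `4 a < b` and `b % (2 a) < a`.
-/

set_option autoImplicit false
set_option linter.unnecessarySeqFocus false
set_option linter.unusedSimpArgs false
set_option linter.unusedVariables false
set_option linter.unreachableTactic false
set_option linter.unusedTactic false

namespace Pool.Agent.Lib.MP_4a7072_co
namespace NP

/-- The curve of the designs. -/
structure QA where
  a : ℤ
  n : ℤ
  t : ℤ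
  k : ℤ
  s : ℤ
  u : ℤ
  C : UC (2 * a, 2 * a)
  aux0' : 0 < n ∧ 0 ≤ t ∧ t < n ∧ 2 * n + 2 * t < a
  ord0' : 0 < s ∧ 2 * s < k ∧ 0 < u ∧ k + 2 * u < C.q
  wq : C.w C.q = (0, 2 * a)
  wk : C.w k = (0, a)
  wJ : C.w (k - s) = (-n, a - n)
  wX : C.w (k - 2 * s) = (0, a - 2 * n)
  ws : C.w s = (-n, n)
  wu : C.w (k + u) = (-n, a + n)
  wN : C.w (C.q - u) = (-n, 2 * a - n)
  eLo' : ∀ l, 0 ≤ l → l ≤ k → -n ≤ (C.w l).1 ∧ (C.w l).1 ≤ 0 ∧ 0 ≤ (C.w l).2 ∧ (C.w l).2 ≤ a ∧
    (l ≤ k - s → (C.w l).2 ≤ a - n) ∧ (k - s ≤ l → a - n ≤ (C.w l).2) ∧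
    (l ≤ k - 2 * s → (C.w l).2 ≤ a - 2 * n ∧ (-n < (C.w l).1 ∨ (C.w l).2 < a - 2 * n)) ∧
    (k - 2 * s ≤ l → a - 2 * n ≤ (C.w l).2) ∧ (l ≤ s → (C.w l).2 ≤ n) ∧ (s ≤ l → n ≤ (C.w l).2)
  eUp' : ∀ l, k ≤ l → l ≤ C.q → a ≤ (C.w l).1 + (C.w l).2 ∧ (C.w l).1 + (C.w l).2 ≤ 2 * a ∧
    a ≤ (C.w l).2 - (C.w l).1 ∧ (C.w l).2 - (C.w l).1 ≤ 2 * a ∧ -n - t ≤ (C.w l).1 ∧ (C.w l).1 ≤ t
  symH' : ∀ i, 0 ≤ i → i ≤ s → (C.w (k - s + i)).1 = a - 2 * n - (C.w (k - s - i)).2 ∧
    (C.w (k - s + i)).2 = a + (C.w (k - s - i)).1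
  symU' : ∀ i, 0 ≤ i → i ≤ u → (C.w (k + u + i)).1 = a - (C.w (k + u - i)).2 ∧
    (C.w (k + u + i)).2 = a + 2 * n + (C.w (k + u - i)).1
  symN' : ∀ i, 0 ≤ i → i ≤ u → (C.w (C.q - u + i)).1 = 2 * a - 2 * n - (C.w (C.q - u - i)).2 ∧
    (C.w (C.q - u + i)).2 = 2 * a + (C.w (C.q - u - i)).1
  perL' : ∀ l, -s ≤ l → l + 2 * s ≤ k → (C.w (l + 2 * s)).1 = (C.w l).1 ∧
    (C.w (l + 2 * s)).2 = (C.w l).2 + 2 * n
  perU' : ∀ l, k ≤ l → l + 2 * u ≤ C.q → (C.w (l + 2 * u)).1 = (C.w l).1 ∧
    (C.w (l + 2 * u)).2 = (C.w l).2 + 2 * n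
  cP' : ∀ l l', k - s ≤ l → l ≤ k → 0 ≤ l' → l' ≤ k - 2 * s →
    (C.w l).1 = a - 2 * n - (C.w l').2 → (C.w l).2 = a + (C.w l').1 → l = k

theorem exists_QA (a n : ℤ) (hn : 0 < n) (h2 : 2 * n < a) (ha : a % 2 = 1) (hc : IsCoprime a n) :
    ∃ D : QA, D.a = a ∧ D.n = n := by
  have c2 : IsCoprime (2 * n) a :=
    IsCoprime.mul_left ⟨-(a / 2), 1, by omega⟩ hc.symm
  have e1 := Int.mul_ediv_add_emod a (2 * n)
  have e2 := Int.emod_nonneg a (show 2 * n ≠ 0 by omega)
  have e3 := Int.emod_lt_of_pos a (show 0 < 2 * n by omega)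
  generalize a / (2 * n) = σ at e1
  generalize a % (2 * n) = r at e1 e2 e3
  have e4 : 2 * n * σ = 2 * (n * σ) := by ring
  have e5 : σ * (2 * n) = 2 * (n * σ) := by ring
  have hσ : 1 ≤ σ := by
    by_contra g
    have := mul_nonpos_of_nonneg_of_nonpos hn.le (show σ ≤ 0 by omega)
    omega
  have e6 : n ≤ n * σ := le_mul_of_one_le_right hn.le hσ
  have c3 : IsCoprime (2 * n) r := by
    have := c2.add_mul_left_right (-σ)
    rwa [show a + 2 * n * -σ = r by linear_combination -e1] at this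
  obtain ⟨G, -, -⟩ := exists_WS 1 (2 * n) a (by omega) c2 (.inr ⟨rfl, by omega⟩)
  obtain ⟨U⟩ := exists_WD 1 (2 * n) r (by omega) e3 c3 (.inr ⟨rfl, by omega⟩)
  obtain ⟨s, hs⟩ : ∃ s, s = G.q := ⟨_, rfl⟩
  obtain ⟨k, hk⟩ : ∃ k, k = G.β := ⟨_, rfl⟩
  obtain ⟨u, hu⟩ : ∃ u, u = U.q := ⟨_, rfl⟩
  obtain ⟨B, hB⟩ : ∃ B, B = U.β + 2 * U.q * σ := ⟨_, rfl⟩
  have s0 : 0 < s := hs ▸ G.qpos
  have u0 := U.hβ
  have B0 : U.β + 2 * u ≤ B := by
    have := le_mul_of_one_le_right (show 0 ≤ 2 * U.q by omega) hσ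
    omega
  have gper : ∀ j j', j' = j + 2 * s →
      (G.w j').1 = (G.w j).1 + 2 * n ∧ (G.w j').2 = (G.w j).2 + 2 * n := fun j j' h => by
    rw [h, hs]
    exact G.per1 j
  have gA : ∀ i j, j = -i → 0 ≤ i → i ≤ s → (G.w j).1 = -(G.w i).2 ∧ (G.w j).2 = (G.w i).1 :=
    fun i j h a b => by
      rw [h]
      exact G.symA' a (hs ▸ b)
  have gB : ∀ i j j', j = k - i → j' = k + i → 0 ≤ i → i ≤ s →
      (G.w j).1 = 2 * a - (G.w j').2 ∧ (G.w j).2 = (G.w j').1 := fun i j j' h h' a b => by
    rw [h, h', hk]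
    exact G.symB' a (hs ▸ b)
  have ginj : ∀ i j, (G.w i).1 = (G.w j).1 → (G.w i).2 = (G.w j).2 → i = j := fun i j a b =>
    G.inj i j (Prod.ext a b)
  have g0 : (G.w 0).1 = 0 ∧ (G.w 0).2 = 0 := by rw [G.w0]; exact ⟨rfl, rfl⟩
  have gs : (G.w s).1 = 0 ∧ (G.w s).2 = 2 * n := by rw [hs, G.wq]; exact ⟨rfl, rfl⟩
  have gk : (G.w k).1 = a ∧ (G.w k).2 = a := by rw [hk, G.wβ]; exact ⟨rfl, rfl⟩
  have gE : ∀ j, 0 ≤ (G.w j).2 - (G.w j).1 ∧ (G.w j).2 - (G.w j).1 ≤ 2 * n ∧
      ((G.w j).1 + (G.w j).2) % 2 = 0 ∧ (0 ≤ j → 0 ≤ (G.w j).1 + (G.w j).2) ∧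
      (j ≤ k → (G.w j).1 + (G.w j).2 ≤ 2 * a) := fun j => by
    have h1 := G.strip j
    exact ⟨h1.1, h1.2, G.par rfl j, (G.monoA j).1, fun h => (G.monoB j).2.1 (hk ▸ h)⟩
  have gF : ∀ j, (s ≤ j → 2 * n ≤ (G.w j).1 + (G.w j).2) ∧
      (j ≤ s → (G.w j).1 + (G.w j).2 ≤ 2 * n) ∧
      (2 * s ≤ j → 4 * n ≤ (G.w j).1 + (G.w j).2 ∧
        (4 * n < (G.w j).1 + (G.w j).2 ∨ (G.w j).2 - (G.w j).1 < 2 * n)) ∧
      (j ≤ 2 * s → (G.w j).1 + (G.w j).2 ≤ 4 * n) ∧
      (k - s ≤ j → 2 * a - 2 * n ≤ (G.w j).1 + (G.w j).2) ∧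
      (j ≤ k - s → (G.w j).1 + (G.w j).2 ≤ 2 * a - 2 * n) := fun j => by
    have h1 := G.monoA j
    have h2 := G.monoA (j - 2 * s)
    have h3 := G.monoB j
    have h4 := gper (j - 2 * s) j (by ring)
    have h5 := G.kA (j - 2 * s)
    have h6 := G.strip j
    rw [← hs] at h1 h2 h3
    rw [← hk] at h3
    refine ⟨h1.2.2.1, h1.2.2.2.2.1, fun h => ?_, fun h => ?_, h3.2.2.2.2.2, h3.2.2.2.1⟩
    · have := h2.1 (by omega)
      omega
    · have := h2.2.1 (by omega)
      omega
  have k0 : 2 * s < k := by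
    have := (gF k).2.2.2.1
    omega
  have uper : ∀ j j', j' = j + 2 * u →
      (U.w j').1 = (U.w j).1 + 2 * n ∧ (U.w j').2 = (U.w j).2 + 2 * n := fun j j' h => by
    rw [h, hu]
    exact U.pr1 j
  have uA : ∀ i j, j = -i → 0 ≤ i → i ≤ u → (U.w j).1 = -(U.w i).2 ∧ (U.w j).2 = (U.w i).1 :=
    fun i j h a b => by
      rw [h]
      exact U.syA a (hu ▸ b)
  have ush : ∀ j j', j' = j + (B - U.β) →
      (U.w j').1 = (U.w j).1 + (a - r) ∧ (U.w j').2 = (U.w j).2 + (a - r) := fun j j' h => by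
    have := U.prs σ j
    rw [h, hB, add_sub_cancel_left]
    omega
  have uB : ∀ i j j', j = B - i → j' = B + i → 0 ≤ i → i ≤ u →
      (U.w j).1 = 2 * a - (U.w j').2 ∧ (U.w j).2 = (U.w j').1 := fun i j j' h h' a b => by
    have := U.syB a (hu ▸ b)
    have := ush (U.β - i) j (by omega)
    have := ush (U.β + i) j' (by omega)
    omega
  have uinj : ∀ i j, (U.w i).1 = (U.w j).1 → (U.w i).2 = (U.w j).2 → i = j := fun i j a b =>
    U.inj i j (Prod.ext a b)
  have u1 : (U.w 0).1 = 0 ∧ (U.w 0).2 = 0 := by rw [U.w0]; exact ⟨rfl, rfl⟩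
  have u2 : (U.w u).1 = 0 ∧ (U.w u).2 = 2 * n := by rw [hu, U.wq]; exact ⟨rfl, rfl⟩
  have u3 : (U.w B).1 = a ∧ (U.w B).2 = a := by
    have := ush U.β B (by ring)
    rw [U.wβ] at this
    simp only at this
    omega
  have uE : ∀ j, 0 ≤ j → j ≤ B → -r ≤ (U.w j).2 - (U.w j).1 ∧ (U.w j).2 - (U.w j).1 ≤ 2 * n + r ∧
      0 ≤ (U.w j).1 ∧ 0 ≤ (U.w j).2 ∧ (U.w j).1 ≤ a ∧ (U.w j).2 ≤ a ∧
      ((U.w j).1 + (U.w j).2) % 2 = 0 ∧ (j ≤ B - u → (U.w j).1 ≤ a - 2 * n) := fun j h h' => by
    have h1 := U.fwd e3 j (by omega)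
    have h2 := U.bwd e3 (j - (B - U.β)) (by omega)
    have h3 := ush (j - (B - U.β)) j (by ring)
    have h4 := h1.2.2.2.2 h
    have h5 := h2.2.2.1 (by omega)
    refine ⟨h1.1, h1.2.1, h4, h1.2.2.2.1, by omega, by omega, U.par rfl j, fun g => ?_⟩
    have := h2.2.2.2 (by omega)
    omega
  obtain ⟨F, hF⟩ : ∃ F : ℤ → Pt, F = fun i => if i ≤ k then
      (((G.w (k - i)).1 - (G.w (k - i)).2) / 2, a - ((G.w (k - i)).1 + (G.w (k - i)).2) / 2) else
      (((U.w (i - k)).1 - (U.w (i - k)).2) / 2, a + ((U.w (i - k)).1 + (U.w (i - k)).2) / 2) :=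
    ⟨_, rfl⟩
  have lo : ∀ i j, i + j = k → i ≤ k → 2 * (F i).1 = (G.w j).1 - (G.w j).2 ∧
      2 * (F i).2 = 2 * a - (G.w j).1 - (G.w j).2 := fun i j e h => by
    have := (gE j).2.2.1
    simp only [hF, if_pos h, show k - i = j by omega]
    omega
  have up : ∀ i j, i = k + j → k ≤ i → 2 * (F i).1 = (U.w j).1 - (U.w j).2 ∧
      2 * (F i).2 = 2 * a + (U.w j).1 + (U.w j).2 := fun i j e h => by
    rcases h.eq_or_lt with g | g
    · have := lo i 0 (by omega) (by omega)
      rw [show j = 0 by omega]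
      omega
    · have := U.par rfl j
      simp only [hF, if_neg (not_le.2 g), show i - k = j by omega]
      omega
  have un : ∀ {v w : Pt}, (w.2 = v.2 ∧ (w.1 = v.1 + 1 ∨ w.1 = v.1 - 1)) ∨
      (w.1 = v.1 ∧ (w.2 = v.2 + 1 ∨ w.2 = v.2 - 1)) → Stp 0 v w := fun {v w} h => by
    rcases h with ⟨h, g | g⟩ | ⟨h, g | g⟩
    · exact ⟨0, Prod.ext (by simp [stepv, dv, g]) (by simp [stepv, dv, h])⟩
    · exact ⟨2, Prod.ext (by simp [stepv, dv, g, sub_eq_add_neg]) (by simp [stepv, dv, h])⟩
    · exact ⟨1, Prod.ext (by simp [stepv, dv, h]) (by simp [stepv, dv, g])⟩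
    · exact ⟨3, Prod.ext (by simp [stepv, dv, h]) (by simp [stepv, dv, g, sub_eq_add_neg])⟩
  have bl : ∀ i, 0 ≤ i → i ≤ k → -n ≤ (F i).1 ∧ (F i).1 ≤ 0 ∧ 0 ≤ (F i).2 ∧ (F i).2 ≤ a :=
    fun i h h' => by
      have := lo i (k - i) (by ring) h'
      have := gE (k - i)
      omega
  have bu : ∀ i, k ≤ i → i ≤ k + B → a ≤ (F i).1 + (F i).2 ∧ (F i).1 + (F i).2 ≤ 2 * a ∧
      a ≤ (F i).2 - (F i).1 ∧ (F i).2 - (F i).1 ≤ 2 * a ∧ -n - r / 2 ≤ (F i).1 ∧ (F i).1 ≤ r / 2 :=
    fun i h h' => by
      have := up i (i - k) (by ring) h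
      have := uE (i - k) (by omega) (by omega)
      omega
  obtain ⟨C, cq, cw⟩ := extendQ (a := a) (q := k + B) (by omega) F
    (by
      have := lo 0 k (by ring) (by omega)
      exact Prod.ext (by simp only; omega) (by simp only; omega))
    (by
      have := up (k + B) B rfl (by omega)
      exact Prod.ext (by simp only; omega) (by simp only; omega))
    (fun i h h' => by
      refine un ?_
      rcases lt_or_ge i k with g | g
      · have := lo i (k - (i + 1) + 1) (by ring) g.le
        have := lo (i + 1) (k - (i + 1)) (by ring) g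
        have := (G.stp (k - (i + 1))).coord (.inr rfl)
        omega
      · have := up i (i - k) (by ring) g
        have := up (i + 1) (i - k + 1) (by ring) (by omega)
        have := (U.stp (i - k)).coord (.inr rfl)
        omega)
    (fun i h h' => by
      rcases le_total i k with g | g
      · have := bl i h g
        omega
      · have := bu i g h'
        omega)
    (fun i j h h' g g' e e' => by
      rcases le_total i k with c | c <;> rcases le_total j k with d | d
      · have := lo i (k - i) (by ring) c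
        have := lo j (k - j) (by ring) d
        have := ginj (k - i) (k - j) (by omega) (by omega)
        omega
      · have := bl i h c
        have := bu j d g'
        have := lo i (k - i) (by ring) c
        have := up j (j - k) (by ring) d
        have := ginj (k - i) 0 (by omega) (by omega)
        have := uinj (j - k) 0 (by omega) (by omega)
        omega
      · have := bl j g d
        have := bu i c h'
        have := lo j (k - j) (by ring) d
        have := up i (i - k) (by ring) c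
        have := ginj (k - j) 0 (by omega) (by omega)
        have := uinj (i - k) 0 (by omega) (by omega)
        omega
      · have := up i (i - k) (by ring) c
        have := up j (j - k) (by ring) d
        have := uinj (i - k) (j - k) (by omega) (by omega)
        omega)
    (fun i j h h' g g' e e' => by
      have hj : j ≤ k := by
        by_contra c
        have := bu j (by omega) g'
        rcases le_total i k with d | d
        · have := bl i h d
          omega
        · have := bu i d h'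
          omega
      have := bl j g hj
      have hi : i ≤ k := by
        by_contra c
        have := bu i (by omega) h'
        omega
      have := bl i h hi
      have := lo i (k - i) (by ring) hi
      have := lo j (k - j) (by ring) hj
      rcases le_total j s with c | c
      · have := gB j (k - j) (k + j) rfl rfl g c
        have := ginj (k - i) (k + j) (by omega) (by omega)
        omega
      · have := (gF (k - j)).2.2.2.2.2 (by omega)
        have := G.kB (k - i) (by omega) (by omega)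
        omega)
    (fun i j h h' g g' e e' => by
      have hj : k ≤ j := by
        by_contra c
        have := bl j g (by omega)
        rcases le_total i k with d | d
        · have := bl i h d
          omega
        · have := bu i d h'
          omega
      have := bu j hj g'
      have hi : k ≤ i := by
        by_contra c
        have := bl i h (by omega)
        omega
      have := up i (i - k) (by ring) hi
      have := up j (j - k) (by ring) hj
      have h1 := uE (i - k) (by omega) (by omega)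
      have h2 := (uE (j - k) (by omega) (by omega)).2.2.2.2.2.1
      have h3 := h1.2.2.2.2.1
      have h4 := h1.2.2.2.2.2.2.2
      clear h1
      have := uB (k + B - i) (i - k) (B + (k + B - i)) (by ring) rfl (by omega) (by omega)
      have := uinj (j - k) (B + (k + B - i)) (by omega) (by omega)
      omega)
  have cl : ∀ i j, i + j = k → -s ≤ i → i ≤ k → 2 * (C.w i).1 = (G.w j).1 - (G.w j).2 ∧
      2 * (C.w i).2 = 2 * a - (G.w j).1 - (G.w j).2 := fun i j e h h' => by
    rcases le_total 0 i with g | g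
    · rw [cw i g (by omega)]
      exact lo i j e h'
    · have h1 := C.symA (-i) (by omega) (by omega)
      rw [neg_neg, cw (-i) (by omega) (by omega)] at h1
      have := lo (-i) (k + i) (by ring) (by omega)
      have := gB (-i) (k + i) j (by ring) (by omega) (by omega) (by omega)
      omega
  have cu : ∀ i j, i = k + j → k ≤ i → i ≤ k + B → 2 * (C.w i).1 = (U.w j).1 - (U.w j).2 ∧
      2 * (C.w i).2 = 2 * a + (U.w j).1 + (U.w j).2 := fun i j e h h' => by
    rw [cw i (by omega) h']
    exact up i j e h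
  refine ⟨⟨a, n, r / 2, k, s, u, C, by omega, by omega, ?_, ?_, ?_, ?_, ?_, ?_, ?_,
    fun l h h' => ?_, fun l h h' => ?_, fun i h h' => ?_, fun i h h' => ?_, fun i h h' => ?_,
    fun l h h' => ?_, fun l h h' => ?_, fun l l' h h' g g' e e' => ?_⟩, rfl, rfl⟩
  · have := cu C.q B (by omega) (by omega) (by omega)
    exact Prod.ext (by simp only; omega) (by simp only; omega)
  · have := cl k 0 (by ring) (by omega) le_rfl
    exact Prod.ext (by simp only; omega) (by simp only; omega)
  · have := cl (k - s) s (by ring) (by omega) (by omega)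
    exact Prod.ext (by simp only; omega) (by simp only; omega)
  · have := cl (k - 2 * s) (0 + 2 * s) (by ring) (by omega) (by omega)
    have := gper 0 _ rfl
    exact Prod.ext (by simp only; omega) (by simp only; omega)
  · have := cl s (k - s) (by ring) (by omega) (by omega)
    have := gB s _ _ rfl rfl (by omega) le_rfl
    have := gper (k - s) (k + s) (by ring)
    exact Prod.ext (by simp only; omega) (by simp only; omega)
  · have := cu (k + u) u rfl (by omega) (by omega)
    exact Prod.ext (by simp only; omega) (by simp only; omega)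
  · have := cu (C.q - u) (B - u) (by omega) (by omega) (by omega)
    have := uB u _ _ rfl rfl (by omega) le_rfl
    have := uper (B - u) (B + u) (by ring)
    exact Prod.ext (by simp only; omega) (by simp only; omega)
  · have := cl l (k - l) (by ring) (by omega) h'
    have h1 := gE (k - l)
    have h2 := gF (k - l)
    refine ⟨by omega, by omega, by omega, by omega, fun g => ?_, fun g => ?_, fun g => ?_,
      fun g => ?_, fun g => ?_, fun g => ?_⟩
    · have := h2.1 (by omega)
      omega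
    · have := h2.2.1 (by omega)
      omega
    · have := h2.2.2.1 (by omega)
      omega
    · have := h2.2.2.2.1 (by omega)
      omega
    · have := h2.2.2.2.2.1 (by omega)
      omega
    · have := h2.2.2.2.2.2 (by omega)
      omega
  · rw [cw l (by omega) (by omega)]
    exact bu l h (by omega)
  · have := cl (k - s + i) (s - i) (by ring) (by omega) (by omega)
    have := cl (k - s - i) (s + i) (by ring) (by omega) (by omega)
    have := gA (s - i) (i - s) (by ring) (by omega) (by omega)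
    have := gper (i - s) (s + i) (by ring)
    omega
  · have := cu (k + u + i) (u + i) (by ring) (by omega) (by omega)
    have := cu (k + u - i) (u - i) (by ring) (by omega) (by omega)
    have := uA (u - i) (i - u) (by ring) (by omega) (by omega)
    have := uper (i - u) (u + i) (by ring)
    omega
  · have := cu (C.q - u + i) (B - (u - i)) (by omega) (by omega) (by omega)
    have := cu (C.q - u - i) (B - u - i) (by omega) (by omega) (by omega)
    have := uB (u - i) _ _ rfl rfl (by omega) (by omega)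
    have := uper (B - u - i) (B + (u - i)) (by ring)
    omega
  · have := cl (l + 2 * s) (k - l - 2 * s) (by ring) (by omega) (by omega)
    have := cl l (k - l) (by ring) (by omega) (by omega)
    have := gper (k - l - 2 * s) (k - l) (by ring)
    omega
  · have := cu (l + 2 * u) (l - k + 2 * u) (by ring) (by omega) (by omega)
    have := cu l (l - k) (by ring) (by omega) (by omega)
    have := uper (l - k) _ rfl
    omega
  · have := cl l (k - l) (by ring) (by omega) (by omega)
    have := cl l' (k - l') (by ring) (by omega) (by omega)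
    have := gper (k - l' - 2 * s) (k - l') (by ring)
    have := gA (k - l) (l - k) (by ring) (by omega) (by omega)
    have := ginj (k - l' - 2 * s) (l - k) (by omega) (by omega)
    omega

end NP
end Pool.Agent.Lib.MP_4a7072_co
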