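import Pool.Agent.Lib.MP_4a7072_co.QCur

/-!
Envelopes and symmetries of the curve.
-/

set_option autoImplicit false
set_option linter.unnecessarySeqFocus false
set_option linter.unusedSimpArgs false
set_option linter.unusedVariables false
set_option linter.unreachableTactic false
set_option linter.unusedTactic false

namespace Pool.Agent.Lib.MP_4a7072_co
namespace NP

namespace QA

variable (D : QA)

theorem aux0 : 0 < D.n ∧ 0 ≤ D.t ∧ D.t < D.n ∧ 2 * D.n + 2 * D.t < D.a := D.aux0'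

theorem ord0 : 0 < D.s ∧ 2 * D.s < D.k ∧ 0 < D.u ∧ D.k + 2 * D.u < D.C.q := D.ord0'

theorem per (l l' : ℤ) (h : l' = l + 2 * D.C.q) :
    (D.C.w l').1 = (D.C.w l).1 + 2 * D.a ∧ (D.C.w l').2 = (D.C.w l).2 + 2 * D.a := by
  rw [h]
  exact D.C.per' l

theorem rt (l l' : ℤ) (h : l' = -l) (a : 0 ≤ l) (b : l ≤ D.C.q) :
    (D.C.w l').1 = -(D.C.w l).2 ∧ (D.C.w l').2 = (D.C.w l).1 := by
  rw [h]
  exact D.C.symA l a b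

theorem symH (i l l' : ℤ) (h : l = D.k - D.s + i) (h' : l' = D.k - D.s - i) (a : 0 ≤ i)
    (b : i ≤ D.s) : (D.C.w l).1 = D.a - 2 * D.n - (D.C.w l').2 ∧
      (D.C.w l).2 = D.a + (D.C.w l').1 := by
  rw [h, h']
  exact D.symH' i a b

theorem symU (i l l' : ℤ) (h : l = D.k + D.u + i) (h' : l' = D.k + D.u - i) (a : 0 ≤ i)
    (b : i ≤ D.u) : (D.C.w l).1 = D.a - (D.C.w l').2 ∧
      (D.C.w l).2 = D.a + 2 * D.n + (D.C.w l').1 := by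
  rw [h, h']
  exact D.symU' i a b

theorem perL (l l' : ℤ) (h : l' = l + 2 * D.s) (a : -D.s ≤ l) (b : l' ≤ D.k) :
    (D.C.w l').1 = (D.C.w l).1 ∧ (D.C.w l').2 = (D.C.w l).2 + 2 * D.n := by
  subst h
  exact D.perL' l a b

theorem perU (l l' : ℤ) (h : l' = l + 2 * D.u) (a : D.k ≤ l) (b : l' ≤ D.C.q) :
    (D.C.w l').1 = (D.C.w l).1 ∧ (D.C.w l').2 = (D.C.w l).2 + 2 * D.n := by
  subst h
  exact D.perU' l a b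

theorem eLO (l : ℤ) (h : 0 ≤ l) (h' : l ≤ D.k) : -D.n ≤ (D.C.w l).1 ∧ (D.C.w l).1 ≤ 0 ∧ 0 ≤ (D.C.w l).2 ∧ (D.C.w l).2 ≤ D.a := by
  have := D.eLo' l h h'
  exact ⟨this.1, this.2.1, this.2.2.1, this.2.2.2.1⟩

theorem eUP (l : ℤ) (h : D.k ≤ l) (h' : l ≤ D.C.q) : D.a ≤ (D.C.w l).1 + (D.C.w l).2 ∧ (D.C.w l).1 + (D.C.w l).2 ≤ 2 * D.a ∧ D.a ≤ (D.C.w l).2 - (D.C.w l).1 ∧ (D.C.w l).2 - (D.C.w l).1 ≤ 2 * D.a ∧ -D.n - D.t ≤ (D.C.w l).1 ∧ (D.C.w l).1 ≤ D.t := D.eUp' l h h'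

theorem eY (l : ℤ) (h : D.k - D.s ≤ l) (h' : l ≤ D.k) : -D.n ≤ (D.C.w l).1 ∧ (D.C.w l).1 ≤ 0 ∧ D.a - D.n ≤ (D.C.w l).2 ∧ (D.C.w l).2 ≤ D.a := by
  have := D.ord0
  have := D.eLo' l (by omega) h'
  exact ⟨this.1, this.2.1, this.2.2.2.2.2.1 h, this.2.2.2.1⟩

theorem eJ (l : ℤ) (h : 0 ≤ l) (h' : l ≤ D.k - D.s) :
    -D.n ≤ (D.C.w l).1 ∧ (D.C.w l).1 ≤ 0 ∧ 0 ≤ (D.C.w l).2 ∧ (D.C.w l).2 ≤ D.a - D.n := by
  have := D.ord0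
  have := D.eLo' l h (by omega)
  exact ⟨this.1, this.2.1, this.2.2.1, this.2.2.2.2.1 h'⟩

theorem eX2 (l : ℤ) (h : D.k - 2 * D.s ≤ l) (h' : l ≤ D.k) :
    -D.n ≤ (D.C.w l).1 ∧ (D.C.w l).1 ≤ 0 ∧ D.a - 2 * D.n ≤ (D.C.w l).2 ∧ (D.C.w l).2 ≤ D.a := by
  have := D.ord0
  have := D.eLo' l (by omega) h'
  exact ⟨this.1, this.2.1, this.2.2.2.2.2.2.2.1 h, this.2.2.2.1⟩

theorem eX (l : ℤ) (h : D.k - 2 * D.s ≤ l) (h' : l ≤ D.k - D.s) : -D.n ≤ (D.C.w l).1 ∧ (D.C.w l).1 ≤ 0 ∧ D.a - 2 * D.n ≤ (D.C.w l).2 ∧ (D.C.w l).2 ≤ D.a - D.n := by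
  have := D.ord0
  have := D.eX2 l h (by omega)
  have := D.eJ l (by omega) h'
  omega

theorem eG2 (l : ℤ) (h : 0 ≤ l) (h' : l ≤ D.k - 2 * D.s) : -D.n ≤ (D.C.w l).1 ∧ (D.C.w l).1 ≤ 0 ∧ 0 ≤ (D.C.w l).2 ∧ (D.C.w l).2 ≤ D.a - 2 * D.n ∧ (-D.n < (D.C.w l).1 ∨ (D.C.w l).2 < D.a - 2 * D.n) := by
  have := D.ord0
  have h1 := D.eLo' l h (by omega)
  have h2 := h1.2.2.2.2.2.2.1 h'
  exact ⟨h1.1, h1.2.1, h1.2.2.1, h2.1, h2.2⟩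

theorem eG (l : ℤ) (h : -D.s ≤ l) (h' : l ≤ D.k - 2 * D.s) : -D.n ≤ (D.C.w l).1 ∧ (D.C.w l).1 ≤ 0 ∧ -D.n ≤ (D.C.w l).2 ∧ (D.C.w l).2 ≤ D.a - 2 * D.n ∧ (-D.n < (D.C.w l).1 ∨ (D.C.w l).2 < D.a - 2 * D.n) := by
  have := D.aux0
  have := D.ord0
  rcases le_total 0 l with c | c
  · have := D.eG2 l c h'
    omega
  · have := D.rt (-l) l (by ring) (by omega) (by omega)
    have := D.eLO (-l) (by omega) (by omega)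
    have := (D.eLo' (-l) (by omega) (by omega)).2.2.2.2.2.2.2.2.1 (by omega)
    omega

theorem eA (l : ℤ) (h : D.k - 2 * D.C.q ≤ l) (h' : l ≤ -D.s) : (D.a ≤ ((D.C.w l).1 + 2 * D.a) + ((D.C.w l).2 + 2 * D.a) ∧ ((D.C.w l).1 + 2 * D.a) + ((D.C.w l).2 + 2 * D.a) ≤ 2 * D.a ∧ D.a ≤ ((D.C.w l).2 + 2 * D.a) - ((D.C.w l).1 + 2 * D.a) ∧ ((D.C.w l).2 + 2 * D.a) - ((D.C.w l).1 + 2 * D.a) ≤ 2 * D.a ∧ -D.n - D.t ≤ ((D.C.w l).1 + 2 * D.a) ∧ ((D.C.w l).1 + 2 * D.a) ≤ D.t) ∨ (D.a ≤ ((D.C.w l).2) + (-(D.C.w l).1) ∧ ((D.C.w l).2) + (-(D.C.w l).1) ≤ 2 * D.a ∧ D.a ≤ (-(D.C.w l).1) - ((D.C.w l).2) ∧ (-(D.C.w l).1) - ((D.C.w l).2) ≤ 2 * D.a ∧ -D.n - D.t ≤ ((D.C.w l).2) ∧ ((D.C.w l).2) ≤ D.t) ∨ (-D.a ≤ (D.C.w l).1 ∧ (D.C.w l).1 ≤ -D.n ∧ -D.n ≤ (D.C.w l).2 ∧ (D.C.w l).2 ≤ 0) := by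
  have := D.ord0
  rcases le_total l (-D.C.q) with c | c
  · have := D.per l (l + 2 * D.C.q) rfl
    have := D.eUP (l + 2 * D.C.q) (by omega) (by omega)
    exact .inl (by omega)
  have := D.rt (-l) l (by ring) (by omega) (by omega)
  rcases le_total l (-D.k) with e | e
  · have := D.eUP (-l) (by omega) (by omega)
    exact .inr (.inl (by omega))
  · have := D.eLO (-l) (by omega) (by omega)
    have := (D.eLo' (-l) (by omega) (by omega)).2.2.2.2.2.2.2.2.2 (by omega)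
    exact .inr (.inr (by omega))

theorem eFQ (l : ℤ) (h : D.C.q ≤ l) : -D.n ≤ (D.C.w l).2 - (D.C.w l).1 ∧ (D.C.w l).2 - (D.C.w l).1 ≤ 2 * D.a ∧ 0 ≤ (D.C.w l).1 ∧ 2 * D.a - D.n - D.t ≤ (D.C.w l).2 ∧ 2 * D.a ≤ (D.C.w l).1 + (D.C.w l).2 ∧ (2 * D.a - D.n ≤ (D.C.w l).2 ∨ (D.C.w l).1 - (D.C.w l).2 ≤ -D.a) := by
  have := D.aux0
  have := D.ord0
  obtain ⟨m, hm⟩ : ∃ m : ℕ, l ≤ m := ⟨l.toNat, by omega⟩
  induction m generalizing l with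
  | zero => omega
  | succ m ih =>
    have g := D.per (l - 2 * D.C.q) l (by ring)
    rcases le_total l (2 * D.C.q) with c | c
    · have := D.rt (2 * D.C.q - l) (l - 2 * D.C.q) (by ring) (by omega) (by omega)
      rcases le_total (2 * D.C.q - l) D.k with e | e
      · have := D.eLO (2 * D.C.q - l) (by omega) e
        omega
      · have := D.eUP (2 * D.C.q - l) e (by omega)
        omega
    rcases le_total (l - 2 * D.C.q) D.k with e | e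
    · have := D.eLO _ (by omega) e
      omega
    rcases le_total (l - 2 * D.C.q) D.C.q with f | f
    · have := D.eUP _ e f
      omega
    · have := ih _ f (by omega)
      omega

theorem eB0 (l : ℤ) (h : l ≤ 0) : -D.n ≤ (D.C.w l).2 - (D.C.w l).1 ∧ (D.C.w l).2 - (D.C.w l).1 ≤ 2 * D.a ∧ (D.C.w l).1 ≤ 0 ∧ (D.C.w l).2 ≤ D.t ∧ ((D.C.w l).2 ≤ 0 ∨ (D.C.w l).1 + (D.C.w l).2 ≤ -D.a) := by
  have := D.aux0
  have := D.ord0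
  obtain ⟨m, hm⟩ : ∃ m : ℕ, -l ≤ m := ⟨(-l).toNat, by omega⟩
  induction m generalizing l with
  | zero =>
    have := D.C.w0'
    rw [show l = 0 by omega]
    omega
  | succ m ih =>
    have g := D.per l (l + 2 * D.C.q) rfl
    rcases le_total (-D.C.q) l with c | c
    · have := D.rt (-l) l (by ring) (by omega) (by omega)
      rcases le_total (-l) D.k with e | e
      · have := D.eLO (-l) (by omega) e
        omega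
      · have := D.eUP (-l) e (by omega)
        omega
    rcases le_total D.k (l + 2 * D.C.q) with e | e
    · have := D.eUP _ e (by omega)
      omega
    rcases le_total 0 (l + 2 * D.C.q) with f | f
    · have := D.eLO _ f e
      omega
    · have := ih _ f (by omega)
      omega

variable {D} {i j i' j' X Y X1 Y1 X2 Y2 γ g : ℤ}

theorem onY (h : D.C.On (D.k - D.s) D.k X Y) : -D.n ≤ X ∧ X ≤ 0 ∧ D.a - D.n ≤ Y ∧ Y ≤ D.a := by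
  obtain ⟨l, h1, h2, rfl, rfl⟩ := h
  exact D.eY l h1 h2

theorem onX (h : D.C.On (D.k - 2 * D.s) (D.k - D.s) X Y) : -D.n ≤ X ∧ X ≤ 0 ∧ D.a - 2 * D.n ≤ Y ∧ Y ≤ D.a - D.n := by
  obtain ⟨l, h1, h2, rfl, rfl⟩ := h
  exact D.eX l h1 h2

theorem onG (h : D.C.On (-D.s) (D.k - 2 * D.s) X Y) : -D.n ≤ X ∧ X ≤ 0 ∧ -D.n ≤ Y ∧ Y ≤ D.a - 2 * D.n ∧ (-D.n < X ∨ Y < D.a - 2 * D.n) := by
  obtain ⟨l, h1, h2, rfl, rfl⟩ := h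
  exact D.eG l h1 h2

theorem onA (h : D.C.On (D.k - 2 * D.C.q) (-D.s) X Y) : (D.a ≤ (X + 2 * D.a) + (Y + 2 * D.a) ∧ (X + 2 * D.a) + (Y + 2 * D.a) ≤ 2 * D.a ∧ D.a ≤ (Y + 2 * D.a) - (X + 2 * D.a) ∧ (Y + 2 * D.a) - (X + 2 * D.a) ≤ 2 * D.a ∧ -D.n - D.t ≤ (X + 2 * D.a) ∧ (X + 2 * D.a) ≤ D.t) ∨ (D.a ≤ (Y) + (-X) ∧ (Y) + (-X) ≤ 2 * D.a ∧ D.a ≤ (-X) - (Y) ∧ (-X) - (Y) ≤ 2 * D.a ∧ -D.n - D.t ≤ (Y) ∧ (Y) ≤ D.t) ∨ (-D.a ≤ X ∧ X ≤ -D.n ∧ -D.n ≤ Y ∧ Y ≤ 0) := by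
  obtain ⟨l, h1, h2, rfl, rfl⟩ := h
  exact D.eA l h1 h2

theorem onQ (h : D.C.On (D.k - 2 * D.C.q) (D.k - 2 * D.s) X Y) : (D.a ≤ (X + 2 * D.a) + (Y + 2 * D.a) ∧ (X + 2 * D.a) + (Y + 2 * D.a) ≤ 2 * D.a ∧ D.a ≤ (Y + 2 * D.a) - (X + 2 * D.a) ∧ (Y + 2 * D.a) - (X + 2 * D.a) ≤ 2 * D.a ∧ -D.n - D.t ≤ (X + 2 * D.a) ∧ (X + 2 * D.a) ≤ D.t) ∨ (D.a ≤ (Y) + (-X) ∧ (Y) + (-X) ≤ 2 * D.a ∧ D.a ≤ (-X) - (Y) ∧ (-X) - (Y) ≤ 2 * D.a ∧ -D.n - D.t ≤ (Y) ∧ (Y) ≤ D.t) ∨ (-D.a ≤ X ∧ X ≤ -D.n ∧ -D.n ≤ Y ∧ Y ≤ 0) ∨ (-D.n ≤ X ∧ X ≤ 0 ∧ -D.n ≤ Y ∧ Y ≤ D.a - 2 * D.n ∧ (-D.n < X ∨ Y < D.a - 2 * D.n)) := by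
  obtain ⟨l, h1, h2, rfl, rfl⟩ := h
  rcases le_total l (-D.s) with c | c
  · exact (D.eA l h1 c).imp_right fun a => a.imp_right .inl
  · exact .inr (.inr (.inr (D.eG l c h2)))

theorem onFQ (h : D.C.On i j X Y) (hi : D.C.q ≤ i) : -D.n ≤ Y - X ∧ Y - X ≤ 2 * D.a ∧ 0 ≤ X ∧ 2 * D.a - D.n - D.t ≤ Y ∧ 2 * D.a ≤ X + Y ∧ (2 * D.a - D.n ≤ Y ∨ X - Y ≤ -D.a) := by
  obtain ⟨l, h1, h2, rfl, rfl⟩ := h
  exact D.eFQ l (by omega)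

theorem onFK (h : D.C.On i j X Y) (hi : D.k ≤ i) : (D.a ≤ X + Y ∧ X + Y ≤ 2 * D.a ∧ D.a ≤ Y - X ∧ Y - X ≤ 2 * D.a ∧ -D.n - D.t ≤ X ∧ X ≤ D.t) ∨ (-D.n ≤ Y - X ∧ Y - X ≤ 2 * D.a ∧ 0 ≤ X ∧ 2 * D.a - D.n - D.t ≤ Y ∧ 2 * D.a ≤ X + Y ∧ (2 * D.a - D.n ≤ Y ∨ X - Y ≤ -D.a)) := by
  obtain ⟨l, h1, h2, rfl, rfl⟩ := h
  rcases le_total l D.C.q with c | c
  · exact .inl (D.eUP l (by omega) c)
  · exact .inr (D.eFQ l c)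

theorem onF0 (h : D.C.On i j X Y) (hi : 0 ≤ i) : (-D.n ≤ X ∧ X ≤ 0 ∧ 0 ≤ Y ∧ Y ≤ D.a) ∨ (D.a ≤ X + Y ∧ X + Y ≤ 2 * D.a ∧ D.a ≤ Y - X ∧ Y - X ≤ 2 * D.a ∧ -D.n - D.t ≤ X ∧ X ≤ D.t) ∨ (-D.n ≤ Y - X ∧ Y - X ≤ 2 * D.a ∧ 0 ≤ X ∧ 2 * D.a - D.n - D.t ≤ Y ∧ 2 * D.a ≤ X + Y ∧ (2 * D.a - D.n ≤ Y ∨ X - Y ≤ -D.a)) := by
  obtain ⟨l, h1, h2, rfl, rfl⟩ := h
  rcases le_total l D.k with c | c
  · exact .inl (D.eLO l (by omega) c)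
  · exact .inr (onFK ⟨l, le_rfl, le_rfl, rfl, rfl⟩ c)

theorem onFJ (h : D.C.On i j X Y) (hi : D.k - D.s ≤ i) : (-D.n ≤ X ∧ X ≤ 0 ∧ D.a - D.n ≤ Y ∧ Y ≤ D.a) ∨ (D.a ≤ X + Y ∧ X + Y ≤ 2 * D.a ∧ D.a ≤ Y - X ∧ Y - X ≤ 2 * D.a ∧ -D.n - D.t ≤ X ∧ X ≤ D.t) ∨ (-D.n ≤ Y - X ∧ Y - X ≤ 2 * D.a ∧ 0 ≤ X ∧ 2 * D.a - D.n - D.t ≤ Y ∧ 2 * D.a ≤ X + Y ∧ (2 * D.a - D.n ≤ Y ∨ X - Y ≤ -D.a)) := by
  obtain ⟨l, h1, h2, rfl, rfl⟩ := h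
  rcases le_total l D.k with c | c
  · exact .inl (D.eY l (by omega) c)
  · exact .inr (onFK ⟨l, le_rfl, le_rfl, rfl, rfl⟩ c)

theorem onFX (h : D.C.On i j X Y) (hi : D.k - 2 * D.s ≤ i) : (-D.n ≤ X ∧ X ≤ 0 ∧ D.a - 2 * D.n ≤ Y ∧ Y ≤ D.a) ∨ (D.a ≤ X + Y ∧ X + Y ≤ 2 * D.a ∧ D.a ≤ Y - X ∧ Y - X ≤ 2 * D.a ∧ -D.n - D.t ≤ X ∧ X ≤ D.t) ∨ (-D.n ≤ Y - X ∧ Y - X ≤ 2 * D.a ∧ 0 ≤ X ∧ 2 * D.a - D.n - D.t ≤ Y ∧ 2 * D.a ≤ X + Y ∧ (2 * D.a - D.n ≤ Y ∨ X - Y ≤ -D.a)) := by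
  obtain ⟨l, h1, h2, rfl, rfl⟩ := h
  rcases le_total l D.k with c | c
  · exact .inl (D.eX2 l (by omega) c)
  · exact .inr (onFK ⟨l, le_rfl, le_rfl, rfl, rfl⟩ c)

theorem onB0 (h : D.C.On i j X Y) (hj : j ≤ 0) : -D.n ≤ Y - X ∧ Y - X ≤ 2 * D.a ∧ X ≤ 0 ∧ Y ≤ D.t ∧ (Y ≤ 0 ∨ X + Y ≤ -D.a) := by
  obtain ⟨l, h1, h2, rfl, rfl⟩ := h
  exact D.eB0 l (by omega)

theorem onBK (h : D.C.On i j X Y) (hj : j ≤ D.k) : (-D.n ≤ X ∧ X ≤ 0 ∧ 0 ≤ Y ∧ Y ≤ D.a) ∨ (-D.n ≤ Y - X ∧ Y - X ≤ 2 * D.a ∧ X ≤ 0 ∧ Y ≤ D.t ∧ (Y ≤ 0 ∨ X + Y ≤ -D.a)) := by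
  obtain ⟨l, h1, h2, rfl, rfl⟩ := h
  rcases le_total 0 l with c | c
  · exact .inl (D.eLO l c (by omega))
  · exact .inr (D.eB0 l c)

theorem onBJ (h : D.C.On i j X Y) (hj : j ≤ D.k - D.s) : (-D.n ≤ X ∧ X ≤ 0 ∧ 0 ≤ Y ∧ Y ≤ D.a - D.n) ∨ (-D.n ≤ Y - X ∧ Y - X ≤ 2 * D.a ∧ X ≤ 0 ∧ Y ≤ D.t ∧ (Y ≤ 0 ∨ X + Y ≤ -D.a)) := by
  obtain ⟨l, h1, h2, rfl, rfl⟩ := h
  rcases le_total 0 l with c | c
  · exact .inl (D.eJ l c (by omega))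
  · exact .inr (D.eB0 l c)

theorem onBQ (h : D.C.On i j X Y) (hj : j ≤ D.C.q) : (D.a ≤ X + Y ∧ X + Y ≤ 2 * D.a ∧ D.a ≤ Y - X ∧ Y - X ≤ 2 * D.a ∧ -D.n - D.t ≤ X ∧ X ≤ D.t) ∨ (-D.n ≤ X ∧ X ≤ 0 ∧ 0 ≤ Y ∧ Y ≤ D.a) ∨ (-D.n ≤ Y - X ∧ Y - X ≤ 2 * D.a ∧ X ≤ 0 ∧ Y ≤ D.t ∧ (Y ≤ 0 ∨ X + Y ≤ -D.a)) := by
  obtain ⟨l, h1, h2, rfl, rfl⟩ := h
  rcases le_total D.k l with c | c
  · exact .inl (D.eUP l c (by omega))
  · exact .inr (onBK ⟨l, le_rfl, le_rfl, rfl, rfl⟩ c)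

variable (D) in
/-- A shift of the index is a translation along the diagonal. -/
def Sh (γ g : ℤ) : Prop :=
  ∀ l, (D.C.w (l + γ)).1 = (D.C.w l).1 + g ∧ (D.C.w (l + γ)).2 = (D.C.w l).2 + g

theorem sh1 : D.Sh (2 * D.C.q) (2 * D.a) := fun l => D.per l _ rfl

theorem shm (s : ℤ) : D.Sh (2 * D.C.q * s) (s * (2 * D.a)) := fun l => D.C.pers s l

theorem Sh.add {γ' g' γ'' g'' : ℤ} (h : D.Sh γ g) (h' : D.Sh γ' g') (e : γ'' = γ + γ')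
    (e' : g'' = g + g') : D.Sh γ'' g'' := fun l => by
  have := h l
  have := h' (l + γ)
  rw [e, ← add_assoc]
  omega

theorem Sh.pt (h : D.Sh γ g) {l l' x y x' y' : ℤ} (e : l' = l + γ) (w : D.C.w l = (x, y))
    (hx : x' = x + g) (hy : y' = y + g) : D.C.w l' = (x', y') := by
  have := h l
  rw [w] at this
  rw [e, hx, hy]
  exact Prod.ext this.1 this.2

theorem Sh.pt' (h : D.Sh γ g) {l l' x y x' y' : ℤ} (e : l = l' + γ) (w : D.C.w l = (x, y))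
    (hx : x' = x - g) (hy : y' = y - g) : D.C.w l' = (x', y') := by
  have := h l'
  rw [← e, w] at this
  simp only at this
  exact Prod.ext (by simp only; omega) (by simp only; omega)

theorem Sh.sub (h : D.Sh γ g) (a : D.C.On i j X Y) : D.C.On (i - γ) (j - γ) (X - g) (Y - g) := by
  obtain ⟨l, h1, h2, rfl, rfl⟩ := a
  have := h (l - γ)
  rw [sub_add_cancel] at this
  exact ⟨l - γ, by omega, by omega, by omega, by omega⟩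

theorem Sh.plus (h : D.Sh γ g) (a : D.C.On i j X Y) : D.C.On (i + γ) (j + γ) (X + g) (Y + g) := by
  obtain ⟨l, h1, h2, rfl, rfl⟩ := a
  exact ⟨l + γ, by omega, by omega, h l⟩

theorem Sh.Z (h : D.Sh γ g) (hi : i' = i + γ) (hj : j' = j + γ) : D.C.Z i' j' = D.C.Z i j :=
  D.C.Z_shift h hi hj

theorem sV1 (a : D.C.On i j X1 Y1) (b : D.C.On i' j' X2 Y2) (c : j ≤ D.C.q) (c' : j' ≤ D.C.q)
    (e : X2 = 2 * D.a - Y1 ∧ Y2 = X1 + 2 * D.a) : X1 = 0 ∧ Y1 = 2 * D.a := by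
  have := D.aux0
  have := D.ord0
  have hb := onBQ b c'
  obtain ⟨l, a1, a2, rfl, rfl⟩ := a
  obtain ⟨l', b1, b2, rfl, rfl⟩ := b
  rcases le_total 0 l with g | g
  · have := D.rt l (-l) rfl g (by omega)
    have := D.per (-l) (2 * D.C.q - l) (by ring)
    have := D.C.inj l' (2 * D.C.q - l) (by omega) (by omega)
    rw [show l = D.C.q by omega, D.wq]
    exact ⟨rfl, rfl⟩
  · have := D.eB0 l g
    omega

theorem sV2 (a : D.C.On i j X1 Y1) (b : D.C.On i' j' X2 Y2) (c : D.C.q ≤ i) (c' : D.C.q ≤ i')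
    (e : X2 = 2 * D.a - Y1 ∧ Y2 = X1 + 2 * D.a) : X1 = 0 ∧ Y1 = 2 * D.a := by
  have := D.aux0
  have := D.ord0
  have ha := onFQ a c
  obtain ⟨l, a1, a2, rfl, rfl⟩ := a
  obtain ⟨l', b1, b2, rfl, rfl⟩ := b
  have := D.per (l' - 2 * D.C.q) l' (by ring)
  rcases le_total l' (2 * D.C.q) with g | g
  · have := D.rt (2 * D.C.q - l') (l' - 2 * D.C.q) (by ring) (by omega) (by omega)
    have := D.C.inj l (2 * D.C.q - l') (by omega) (by omega)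
    rw [show l = D.C.q by omega, D.wq]
    exact ⟨rfl, rfl⟩
  · have := onF0 (D := D) ⟨l' - 2 * D.C.q, le_rfl, le_rfl, rfl, rfl⟩ (by omega)
    omega

theorem sH1 (a : D.C.On i j X1 Y1) (b : D.C.On i' j' X2 Y2) (c : D.k - D.s ≤ i)
    (c' : D.k - D.s ≤ i') (e : X2 = D.a - 2 * D.n - Y1 ∧ Y2 = X1 + D.a) :
    X1 = -D.n ∧ Y1 = D.a - D.n := by
  have := D.aux0
  have ha := onFJ a c
  obtain ⟨l, a1, a2, rfl, rfl⟩ := a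
  obtain ⟨l', b1, b2, rfl, rfl⟩ := b
  rcases le_total l' D.k with g | g
  · have := D.symH (l' - (D.k - D.s)) l' _ (by ring) rfl (by omega) (by omega)
    have := D.C.inj l (D.k - D.s - (l' - (D.k - D.s))) (by omega) (by omega)
    rw [show l = D.k - D.s by omega, D.wJ]
    exact ⟨rfl, rfl⟩
  · have := onFK (D := D) ⟨l', le_rfl, le_rfl, rfl, rfl⟩ g
    omega

theorem sH2 (a : D.C.On i j X1 Y1) (b : D.C.On i' j' X2 Y2) (c : j ≤ D.k - D.s)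
    (c' : j' ≤ D.k - D.s) (e : X2 = D.a - 2 * D.n - Y1 ∧ Y2 = X1 + D.a) :
    X1 = -D.n ∧ Y1 = D.a - D.n := by
  have := D.aux0
  have hb := onBJ b c'
  obtain ⟨l, a1, a2, rfl, rfl⟩ := a
  obtain ⟨l', b1, b2, rfl, rfl⟩ := b
  rcases le_total (D.k - 2 * D.s) l with g | g
  · have := D.symH (D.k - D.s - l) _ l rfl (by ring) (by omega) (by omega)
    have := D.C.inj l' (D.k - D.s + (D.k - D.s - l)) (by omega) (by omega)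
    rw [show l = D.k - D.s by omega, D.wJ]
    exact ⟨rfl, rfl⟩
  rcases le_total 0 l with g' | g'
  · have := D.eG2 l g' g
    omega
  · have := D.eB0 l g'
    omega

theorem sP0 (a : D.C.On i j X1 Y1) (b : D.C.On i' j' X2 Y2) (c : j ≤ D.k - 2 * D.s)
    (c' : j' ≤ D.k) (e : X2 = D.a - 2 * D.n - Y1 ∧ Y2 = X1 + D.a) : X2 = 0 ∧ Y2 = D.a := by
  have := D.aux0
  have hb := onBK b c'
  obtain ⟨l, a1, a2, rfl, rfl⟩ := a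
  obtain ⟨l', b1, b2, rfl, rfl⟩ := b
  rcases le_total l 0 with g | g
  · have := D.eB0 l g
    omega
  have := D.eG2 l g (by omega)
  rcases le_total l' (D.k - D.s) with g' | g'
  · have := onBJ (D := D) ⟨l', le_rfl, le_rfl, rfl, rfl⟩ g'
    omega
  · rw [D.cP' l' l g' (by omega) g (by omega) (by omega) (by omega), D.wk]
    exact ⟨rfl, rfl⟩

variable (D)

theorem wpT : D.C.w (D.k - 2 * D.C.q) = (-2 * D.a, -D.a) :=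
  sh1.pt' (by ring) D.wk (by ring) (by ring)

theorem wneg {l x y x' y' : ℤ} (a : 0 ≤ l) (b : l ≤ D.C.q) (w : D.C.w l = (x, y)) (hx : x' = -y)
    (hy : y' = x) : D.C.w (-l) = (x', y') := by
  have := D.C.symA l a b
  rw [w] at this
  rw [hx, hy]
  exact Prod.ext this.1 this.2

theorem wV : D.C.w (-D.s) = (-D.n, -D.n) :=
  D.wneg (by have := D.ord0; omega) (by have := D.ord0; omega) D.ws rfl rfl

theorem wmk : D.C.w (-D.k) = (-D.a, 0) :=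
  D.wneg (by have := D.ord0; omega) (by have := D.ord0; omega) D.wk rfl rfl

theorem wmu : D.C.w (-(D.k + D.u)) = (-D.a - D.n, -D.n) :=
  D.wneg (by have := D.ord0; omega) (by have := D.ord0; omega) D.wu (by ring) rfl

theorem wNT : D.C.w (-D.C.q - D.u) = (-2 * D.a - D.n, -D.n) :=
  sh1.pt' (by ring) D.wN (by ring) (by ring)

theorem zH : D.C.Z (D.k - 2 * D.s) (D.k - D.s) = back 3 (D.C.Z (D.k - D.s) D.k) := by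
  have := D.ord0
  rw [D.C.ZR (c := D.k - D.s) (n := D.s) (i := D.k - 2 * D.s) (j := D.k) (by omega) (by ring)
    (by ring) D.symH', back31]

theorem zV : D.C.Z (-D.s) (D.k - 2 * D.s) = back 3 (D.C.Z (-D.k) (-D.s)) := by
  have := D.ord0
  refine D.C.ZL (n := D.k - D.s) (x := -2 * D.n) (y := 0) (by omega) (by ring) (by ring)
    fun i a b => ?_
  have := D.rt (D.s + i) (-D.s - i) (by ring) (by omega) (by omega)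
  have := D.perL (-D.s + i) (D.s + i) (by ring) (by omega) (by omega)
  omega

theorem zU : D.C.Z (-(D.k + 2 * D.u)) (-(D.k + D.u)) = back 1 (D.C.Z (-(D.k + D.u)) (-D.k)) := by
  have := D.ord0
  rw [D.C.ZL (c := -(D.k + D.u)) (n := D.u) (x := -D.a - 2 * D.n) (y := D.a)
    (i := -(D.k + 2 * D.u)) (j := -D.k) (by omega) (by ring) (by ring) fun i a b => ?_, back13]
  have := D.rt (D.k + D.u + i) (-(D.k + D.u) - i) (by ring) (by omega) (by omega)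
  have := D.rt (D.k + D.u - i) (-(D.k + D.u) + i) (by ring) (by omega) (by omega)
  have := D.symU' i a b
  omega

theorem zN : D.C.Z (-D.C.q - D.u) (-(D.k + 2 * D.u)) =
    back 1 (D.C.Z (D.k - 2 * D.C.q) (-D.C.q - D.u)) := by
  have := D.ord0
  refine D.C.ZR (n := D.C.q - D.u - D.k) (x := -2 * D.a - 2 * D.n) (y := 2 * D.a) (by omega)
    (by ring) (by ring) fun i a b => ?_
  have := D.per (-D.C.q - D.u - i) (D.C.q - D.u - i) (by ring)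
  rcases le_total i D.u with c | c
  · have := D.per (-D.C.q - D.u + i) (D.C.q - D.u + i) (by ring)
    have := D.symN' i a c
    omega
  · have := D.rt (D.C.q + D.u - i) (-D.C.q - D.u + i) (by ring) (by omega) (by omega)
    have := D.perU (D.C.q - D.u - i) (D.C.q + D.u - i) (by ring) (by omega) (by omega)
    omega

end QA

end NP
end Pool.Agent.Lib.MP_4a7072_co
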