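import Pool.Agent.Lib.MP_4a7072_co.QQSimple
import Pool.Agent.Lib.MP_4a7072_co.QQCov

/-!
The second design gives a dissection.
-/

set_option autoImplicit false
set_option linter.unnecessarySeqFocus false
set_option linter.unusedSimpArgs false
set_option linter.unusedVariables false
set_option linter.unreachableTactic false
set_option linter.unusedTactic false

namespace Pool.Agent.Lib.MP_4a7072_co
namespace NP


namespace QQ

variable (D : QQ)

open QA

theorem eL2 : D.L = back 1 D.T ++ D.T ++ D.N ++ D.M := by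
  have := D.ord
  have h := D.C.ZA D.C.qpos.le le_rfl
  rw [D.hδ.Z (i := -D.δ) (i' := 0) (j := D.C.q - D.δ) (by ring) (by ring),
    D.hδ.Z (i := -D.δ - D.C.q) (i' := -D.C.q) (j := -D.δ) (by ring) (by ring)] at h
  rw [T, h, back13, ← h, M, N, ← D.C.Z_append (by omega) (by omega),
    ← D.C.Z_append (by omega) (by omega), ← D.C.Z_append (by omega) (by omega), L]

theorem dM : dsp D.M = (D.g - D.n, D.f + D.g - D.n) := by
  rw [D.arcM.dsp_eq]
  ext <;> simp only [Prod.fst_sub, Prod.snd_sub] <;> omega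

theorem dN : dsp D.N = (D.b + D.n - D.a - D.g, D.b + D.n - 2 * D.a - D.f - D.g) := by
  rw [D.arcN.dsp_eq]
  ext <;> simp only [Prod.fst_sub, Prod.snd_sub] <;> omega

theorem dS : dsp D.S = (D.n - D.g, D.b + D.n - D.a - D.f - D.g) := by
  rw [D.arcLs.dsp_eq]
  ext <;> simp only [Prod.fst_sub, Prod.snd_sub] <;> omega

theorem dM1 : dsp D.M1 = (D.g, D.f + D.g - 2 * D.n) := by
  have := D.ord
  rw [M1, D.C.Z_dsp (by omega), D.wK, D.wX]
  ext <;> simp only [Prod.fst_sub, Prod.snd_sub] <;> omega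

theorem dT : dsp D.T = (0, 2 * D.a) := by
  have := D.ord
  rw [T, D.C.Z_dsp (by omega), D.wB, D.hδ.pt' (l := 0) (by ring) D.C.w0 rfl rfl]
  ext <;> simp only [Prod.fst_sub, Prod.snd_sub] <;> omega

theorem db : dsp (ea D.b) = (D.b, 0) := dsp_ea (by have := D.aux; omega)

theorem treeB : TreeOK (-2 * D.a, D.a - 2 * D.b) (D.wB3 ++ D.wRB) D.KB := by
  have := D.aux
  have := D.ord
  have nM : D.M ≠ [] := D.C.Z_ne (by omega)
  have nN : D.N ≠ [] := D.C.Z_ne (by omega)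
  have nY : D.Y ≠ [] := D.C.Z_ne (by omega)
  have nS : D.S ≠ [] := nw_ne (by omega)
  have na : ea D.a ≠ [] := ea_ne (by omega)
  have nb : ea D.b ≠ [] := ea_ne (by omega)
  refine (pinH (μ := rot 1 D.wU ++ rot 2 D.S) (o₁ := back 2 (D.T ++ D.N))
    (o₂ := back 3 ((rot 1 D.wS ++ back 2 D.M) ++ back 2 (D.T ++ D.N)) ++ (rot 1 D.wS ++ back 2 D.M))
    (R := rot 1 (ea D.b)) (q := D.qb) (O := (-2 * D.a - D.b, D.a - 2 * D.b)) (Z := (-2 * D.a, D.a - 2 * D.b)) (A := (D.b - 2 * D.a, D.a - D.b)) (B := (-2 * D.a, D.a - D.b)) (B' := (-2 * D.a, D.a - D.b))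
    (List.append_ne_nil_of_right_ne_nil _ (rot_ne nS)) (rot_ne nb) (by simp [back, nN]) (by simp [back, nM]) ?_ ?_ ?_ ?_
    (.inr (.inl ⟨_, by simp [back, nM], rfl, ?_, rfl⟩))).cast rfl ?_ fun W => ?_
  · simp [qb, wB1, wB2, wU, wS, eL2, rot_append, back_append, back_back, rot_back, back_rot, rot_rot, rot_zero, back_ea]
  · simp only [List.map_cons, List.map_nil, List.cons_append, List.nil_append, List.append_nil,
      dsp_append, dsp_rot, dsp_back, List.cons.injEq, Prod.ext_iff, rotP_zero, rotP_1, rotP_2,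
      rotP_3, Prod.fst_add, Prod.snd_add, Prod.fst_neg, Prod.snd_neg, dsp_nil, Prod.fst_zero,
      Prod.snd_zero, Prod.fst_sub, Prod.snd_sub, rho, Fin.reduceAdd, and_true, true_and, D.dM, D.dN, D.dT, D.dS, D.db, wU, wS]
    omega
  · simp only [List.map_cons, List.map_nil, List.cons_append, List.nil_append, List.append_nil,
      dsp_append, dsp_rot, dsp_back, List.cons.injEq, Prod.ext_iff, rotP_zero, rotP_1, rotP_2,
      rotP_3, Prod.fst_add, Prod.snd_add, Prod.fst_neg, Prod.snd_neg, dsp_nil, Prod.fst_zero,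
      Prod.snd_zero, Prod.fst_sub, Prod.snd_sub, rho, Fin.reduceAdd, and_true, true_and, D.dM, D.dN, D.dT, D.dS, D.db, wU, wS]
    omega
  · simp only [List.map_cons, List.map_nil, List.cons_append, List.nil_append, List.append_nil,
      dsp_append, dsp_rot, dsp_back, List.cons.injEq, Prod.ext_iff, rotP_zero, rotP_1, rotP_2,
      rotP_3, Prod.fst_add, Prod.snd_add, Prod.fst_neg, Prod.snd_neg, dsp_nil, Prod.fst_zero,
      Prod.snd_zero, Prod.fst_sub, Prod.snd_sub, rho, Fin.reduceAdd, and_true, true_and, D.dM, D.dN, D.dT, D.dS, D.db, wU, wS]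
    omega
  · simp only [List.map_cons, List.map_nil, List.cons_append, List.nil_append, List.append_nil,
      dsp_append, dsp_rot, dsp_back, List.cons.injEq, Prod.ext_iff, rotP_zero, rotP_1, rotP_2,
      rotP_3, Prod.fst_add, Prod.snd_add, Prod.fst_neg, Prod.snd_neg, dsp_nil, Prod.fst_zero,
      Prod.snd_zero, Prod.fst_sub, Prod.snd_sub, rho, Fin.reduceAdd, and_true, true_and, D.dM, D.dN, D.dT, D.dS, D.db, wU, wS]
    omega
  · simp [wB3, wRB, back_rot]
  · rw [show _ :: _ = D.KB from ?_]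
    simp only [List.map_cons, List.map_nil, List.cons_append, List.nil_append, List.append_nil,
      dsp_append, dsp_rot, dsp_back, List.cons.injEq, Prod.ext_iff, rotP_zero, rotP_1, rotP_2,
      rotP_3, Prod.fst_add, Prod.snd_add, Prod.fst_neg, Prod.snd_neg, dsp_nil, Prod.fst_zero,
      Prod.snd_zero, Prod.fst_sub, Prod.snd_sub, rho, Fin.reduceAdd, and_true, true_and, KB]
    omega

theorem treeC : TreeOK (-D.n, D.n - 2 * D.a) (D.α ++ D.β) D.KC := by
  have := D.aux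
  have := D.ord
  have nM : D.M ≠ [] := D.C.Z_ne (by omega)
  have nN : D.N ≠ [] := D.C.Z_ne (by omega)
  have nY : D.Y ≠ [] := D.C.Z_ne (by omega)
  have nS : D.S ≠ [] := nw_ne (by omega)
  have na : ea D.a ≠ [] := ea_ne (by omega)
  have nb : ea D.b ≠ [] := ea_ne (by omega)
  refine (((((((TB.leaf (rot_ne (t := 2) na)).tu.cat (((((((((TB.leaf (back_ne (t := 0) nY)).tu.zip (rot 1 D.M1)).zip (rot 1 D.S)).zip (back 0 D.S)).cat (((TB.leaf (back_ne (t := 2) nS)).tu.zip (rot 2 D.N)).zip (back 1 D.N))).zip (back 0 D.M1)).zip (rot 3 D.Y)).zip (back 0 D.Y)).zip (back 0 D.A))).zip (back 3 D.G)).cat ((((((((TB.leaf (back_ne (t := 1) nY)).tu.zip (rot 2 D.M1)).zip (rot 2 D.S)).zip (back 1 D.S)).cat (((TB.leaf (back_ne (t := 3) nS)).tu.zip (rot 3 D.N)).zip (back 2 D.N))).zip (back 1 D.M1)).zip (D.Y)).zip (back 1 D.Y))).zip (back 2 D.A)).zip (back 2 D.G)).cat ((((((((TB.leaf (back_ne (t := 2) nY)).tu.zip (rot 3 D.M1)).zip (rot 3 D.S)).zip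 (back 2 D.S)).cat (((TB.leaf (rot_ne (t := 1) nb)).tu.cat ((TB.leaf (back_ne (t := 1) nS)).tu.zip (rot 1 D.N))).zip (back 3 D.N))).zip (back 2 D.M1)).zip (rot 1 D.Y)).zip (back 2 D.Y))).ok
    (u := []) rfl (by
      simp [α, β, wA2, wC0, wC1, wC2, wRA, wRB, qb, wB1, wB2, wU, wS, eL, eQ, eO, eM, eX', rot_append, back_append, back_back, rot_back, back_rot, rot_rot, rot_zero, back_ea])
    fun W => ?_
  rw [show List.map _ _ = D.KC from ?_]
  simp only [List.map_cons, List.map_nil, List.cons_append, List.nil_append, List.append_nil,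
      dsp_append, dsp_rot, dsp_back, List.cons.injEq, Prod.ext_iff, rotP_zero, rotP_1, rotP_2,
      rotP_3, Prod.fst_add, Prod.snd_add, Prod.fst_neg, Prod.snd_neg, dsp_nil, Prod.fst_zero,
      Prod.snd_zero, Prod.fst_sub, Prod.snd_sub, rho, Fin.reduceAdd, and_true, true_and, D.dA, D.dG, D.dY, D.dM1, D.dN, D.dS, D.da, D.db, KC]
  omega

include D in
theorem twoPiece {a b c : ℕ} (ha : D.a = a) (hb : D.b = b) (h : a ^ 2 + b ^ 2 = c ^ 2) :
    TwoPieceDissection a b c := by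
  have := D.aux
  have hZ : (a : ℤ) ^ 2 + (b : ℤ) ^ 2 = (c : ℤ) ^ 2 := by exact_mod_cast h
  let Λa : Lat := ⟨D.a, 0, a, by omega, le_rfl, by rw [ha]; ring⟩
  let Λb : Lat := ⟨D.b, 0, b, by omega, le_rfl, by rw [hb]; ring⟩
  let Λc : Lat := ⟨D.a, D.b, c, by omega, by omega, by rw [ha, hb]; linear_combination hZ⟩
  have nA := D.toQA.net Λa rfl rfl
  have nB : Net Λb (-2 * D.a - D.b, D.a - 2 * D.b) _ _ := net_env D.sB0.1 D.sB2 D.sB0.2 D.treeB D.memB D.covB
  have nC : Net Λc (0, 0) _ ([] ++ _) := net_env D.sC0.1 D.sC2 D.sC0.2 D.treeC D.memC D.covC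
  rw [D.eB'] at nB
  refine twoPiece_of_net (Λa := Λa) (Λb := Λb) (Λc := Λc) rfl rfl h nA nB nC
    (List.append_nil _) ?_ ?_
  · rw [D.covC1.1, D.arcA1.1, D.arcIA.1]
  · rw [D.arcA1.1, D.arcIA.1]
    rfl

end QQ

theorem exists_QQ (a b n K : ℤ) (hn : 0 < n) (h2 : 2 * n < a) (ha : a % 2 = 1) (hc : IsCoprime a n)
    (hK : 2 ≤ K) (hb : b = a - n + K * (2 * a)) : ∃ D : QQ, D.a = a ∧ D.b = b := by
  obtain ⟨D, rfl, rfl⟩ := exists_QA a n hn h2 ha hc
  have hq := D.C.qpos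
  obtain ⟨j, hj, rfl | rfl⟩ : ∃ j, 1 ≤ j ∧ (K = 2 * j ∨ K = 2 * j + 1) := ⟨K / 2, by omega⟩
  all_goals
    have h1 := le_mul_of_one_le_left (show 0 ≤ 2 * D.a by omega) hj
    have h2 := le_mul_of_one_le_right (show 0 ≤ 2 * D.C.q by omega) hj
  · refine ⟨⟨D, b, j * (2 * D.a), 0, 2 * D.C.q * j, _, _, ⟨by rw [hb]; ring, h1, .inl rfl⟩,
      QA.shm j, ?_, h2, .inr ⟨rfl, rfl, rfl⟩⟩, rfl, rfl⟩
    exact (QA.shm j).add (QA.shm j) (by ring) (by rw [hb]; ring)
  · refine ⟨⟨D, b, j * (2 * D.a), D.a, 2 * D.C.q * j, _, _, ⟨by rw [hb]; ring, h1, .inr rfl⟩,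
      QA.shm j, ?_, h2, .inl ⟨rfl, rfl, rfl⟩⟩, rfl, rfl⟩
    exact (QA.shm j).add (QA.shm (j + 1)) (by ring) (by rw [hb]; ring)

end NP
end Pool.Agent.Lib.MP_4a7072_co
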