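import Pool.Agent.Lib.MP_4a7072_co.QPMain
import Pool.Agent.Lib.MP_4a7072_co.QQMain

/-!
Dissections for an odd shorter leg `a`, `4 a < b` and `b % (2 a) < a`.
-/

set_option autoImplicit false
set_option linter.unusedVariables false

namespace Pool.Agent.Lib.MP_4a7072_co
namespace NP

theorem twoPiece_PQ (a b c : ℕ) (hab : 4 * a < b) (hr : b % (2 * a) < a)
    (h : a ^ 2 + b ^ 2 = c ^ 2) (hc : Nat.Coprime a b) (ho : a % 2 = 1) (he : b % 2 = 0) :
    TwoPieceDissection a b c := by
  have hr' : (b : ℤ) % (2 * a) < a := by exact_mod_cast hr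
  have h1 := Int.mul_ediv_add_emod (b : ℤ) (2 * a)
  have h2 := Int.emod_nonneg (b : ℤ) (show 2 * (a : ℤ) ≠ 0 by omega)
  generalize (b : ℤ) / (2 * a) = K at h1
  generalize (b : ℤ) % (2 * a) = m at h1 h2 hr'
  obtain ⟨x, y, hc⟩ := Nat.isCoprime_iff_coprime.2 hc
  have e : 2 * (a : ℤ) * K = 2 * (a * K) := by ring
  have hK : 2 ≤ K := by
    by_contra g
    have := mul_le_mul_of_nonneg_left (show K ≤ 1 by omega) (show 0 ≤ (a : ℤ) by omega)
    omega
  have c1 : IsCoprime (a : ℤ) m := ⟨x + y * (2 * K), y, by linear_combination hc + y * h1⟩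
  have m0 : m ≠ 0 := by
    rintro rfl
    have a1 := Int.isUnit_iff.1 (isCoprime_zero_right.1 c1)
    obtain rfl : a = 1 := by omega
    have := Nat.pow_lt_pow_left (show b < b + 1 by omega) (two_ne_zero)
    have h3 : b < c := lt_of_pow_lt_pow_left₀ 2 (by omega) (by omega)
    have := Nat.pow_le_pow_left (show b + 1 ≤ c from h3) 2
    nlinarith
  rcases lt_or_ge (2 * m) a with g | g
  · obtain ⟨D, ha, hb⟩ := exists_QP a b m K (by omega) g (by omega) c1 hK (by linarith)
    exact D.twoPiece ha hb h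
  · have c2 : IsCoprime (a : ℤ) (a - m) := by
      have := c1.neg_right.add_mul_left_right 1
      rwa [mul_one, neg_add_eq_sub] at this
    obtain ⟨D, ha, hb⟩ := exists_QQ a b (a - m) K (by omega) (by omega) (by omega) c2 hK
      (by linarith)
    exact D.twoPiece ha hb h

end NP
end Pool.Agent.Lib.MP_4a7072_co
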