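import Pool.Agent.Lib.MP_4a7072_co.QEnv

/-!
The net of the smallest cube.
-/

set_option autoImplicit false
set_option linter.unnecessarySeqFocus false
set_option linter.unusedSimpArgs false
set_option linter.unusedVariables false
set_option linter.unreachableTactic false
set_option linter.unusedTactic false

namespace Pool.Agent.Lib.MP_4a7072_co
namespace NP


namespace QA

variable (D : QA)

/-- A part of the curve. -/
def A : List Dir := D.C.Z (D.k - 2 * D.C.q) (-D.s)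

/-- The points of a part of the curve. -/
def PA (X Y : ℤ) : Prop := D.C.On (D.k - 2 * D.C.q) (-D.s) X Y

variable {D} in
theorem PA.on {X Y : ℤ} (h : D.PA X Y) : D.C.On (D.k - 2 * D.C.q) (-D.s) X Y := h

theorem arcA : CArc (-2 * D.a, -D.a) D.A (-D.n, -D.n) D.PA :=
  (D.C.arc (by have := D.ord0; omega)).mv D.wpT D.wV fun _ _ h => h

variable {D} in
theorem PA.lin {X Y : ℤ} (h : D.PA X Y) :
    (D.a ≤ (X + 2 * D.a) + (Y + 2 * D.a) ∧ (X + 2 * D.a) + (Y + 2 * D.a) ≤ 2 * D.a ∧ D.a ≤ (Y + 2 * D.a) - (X + 2 * D.a) ∧ (Y + 2 * D.a) - (X + 2 * D.a) ≤ 2 * D.a ∧ -D.n - D.t ≤ (X + 2 * D.a) ∧ (X + 2 * D.a) ≤ D.t) ∨ (D.a ≤ (Y) + (-X) ∧ (Y) + (-X) ≤ 2 * D.a ∧ D.a ≤ (-X) - (Y) ∧ (-X) - (Y) ≤ 2 * D.a ∧ -D.n - D.t ≤ (Y) ∧ (Y) ≤ D.t) ∨ (-D.a ≤ X ∧ X ≤ -D.n ∧ -D.n ≤ Y ∧ Y ≤ 0) := by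
  exact onA h

/-- A part of the curve. -/
def G : List Dir := D.C.Z (-D.s) (D.k - 2 * D.s)

/-- The points of a part of the curve. -/
def PG (X Y : ℤ) : Prop := D.C.On (-D.s) (D.k - 2 * D.s) X Y

variable {D} in
theorem PG.on {X Y : ℤ} (h : D.PG X Y) : D.C.On (-D.s) (D.k - 2 * D.s) X Y := h

theorem arcG : CArc (-D.n, -D.n) D.G (0, D.a - 2 * D.n) D.PG :=
  (D.C.arc (by have := D.ord0; omega)).mv D.wV D.wX fun _ _ h => h

variable {D} in
theorem PG.lin {X Y : ℤ} (h : D.PG X Y) :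
    -D.n ≤ X ∧ X ≤ 0 ∧ -D.n ≤ Y ∧ Y ≤ D.a - 2 * D.n ∧ (-D.n < X ∨ Y < D.a - 2 * D.n) := by
  exact onG h

/-- A part of the curve. -/
def Q : List Dir := D.C.Z (D.k - 2 * D.C.q) (D.k - 2 * D.s)

/-- The points of a part of the curve. -/
def PQ (X Y : ℤ) : Prop := D.C.On (D.k - 2 * D.C.q) (D.k - 2 * D.s) X Y

variable {D} in
theorem PQ.on {X Y : ℤ} (h : D.PQ X Y) : D.C.On (D.k - 2 * D.C.q) (D.k - 2 * D.s) X Y := h

theorem arcQ : CArc (-2 * D.a, -D.a) D.Q (0, D.a - 2 * D.n) D.PQ :=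
  (D.C.arc (by have := D.ord0; omega)).mv D.wpT D.wX fun _ _ h => h

variable {D} in
theorem PQ.lin {X Y : ℤ} (h : D.PQ X Y) :
    (D.a ≤ (X + 2 * D.a) + (Y + 2 * D.a) ∧ (X + 2 * D.a) + (Y + 2 * D.a) ≤ 2 * D.a ∧ D.a ≤ (Y + 2 * D.a) - (X + 2 * D.a) ∧ (Y + 2 * D.a) - (X + 2 * D.a) ≤ 2 * D.a ∧ -D.n - D.t ≤ (X + 2 * D.a) ∧ (X + 2 * D.a) ≤ D.t) ∨ (D.a ≤ (Y) + (-X) ∧ (Y) + (-X) ≤ 2 * D.a ∧ D.a ≤ (-X) - (Y) ∧ (-X) - (Y) ≤ 2 * D.a ∧ -D.n - D.t ≤ (Y) ∧ (Y) ≤ D.t) ∨ (-D.a ≤ X ∧ X ≤ -D.n ∧ -D.n ≤ Y ∧ Y ≤ 0) ∨ (-D.n ≤ X ∧ X ≤ 0 ∧ -D.n ≤ Y ∧ Y ≤ D.a - 2 * D.n ∧ (-D.n < X ∨ Y < D.a - 2 * D.n)) := by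
  exact onQ h

/-- A part of the curve. -/
def Y : List Dir := D.C.Z (D.k - D.s) D.k

/-- The points of a part of the curve. -/
def PY (X Y : ℤ) : Prop := D.C.On (D.k - D.s) D.k X Y

variable {D} in
theorem PY.on {X Y : ℤ} (h : D.PY X Y) : D.C.On (D.k - D.s) D.k X Y := h

theorem arcY : CArc (-D.n, D.a - D.n) D.Y (0, D.a) D.PY :=
  (D.C.arc (by have := D.ord0; omega)).mv D.wJ D.wk fun _ _ h => h

variable {D} in
theorem PY.lin {X Y : ℤ} (h : D.PY X Y) :
    -D.n ≤ X ∧ X ≤ 0 ∧ D.a - D.n ≤ Y ∧ Y ≤ D.a := by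
  exact onY h

/-- A part of the curve. -/
def X : List Dir := D.C.Z (D.k - 2 * D.s) (D.k - D.s)

/-- The points of a part of the curve. -/
def PX (X Y : ℤ) : Prop := D.C.On (D.k - 2 * D.s) (D.k - D.s) X Y

variable {D} in
theorem PX.on {X Y : ℤ} (h : D.PX X Y) : D.C.On (D.k - 2 * D.s) (D.k - D.s) X Y := h

theorem arcX : CArc (0, D.a - 2 * D.n) D.X (-D.n, D.a - D.n) D.PX :=
  (D.C.arc (by have := D.ord0; omega)).mv D.wX D.wJ fun _ _ h => h

variable {D} in
theorem PX.lin {X Y : ℤ} (h : D.PX X Y) :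
    -D.n ≤ X ∧ X ≤ 0 ∧ D.a - 2 * D.n ≤ Y ∧ Y ≤ D.a - D.n := by
  exact onX h

/-- The points of a path. -/
def La (X Y : ℤ) : Prop := 0 ≤ X ∧ X ≤ D.a ∧ Y = 0

variable {D} in
theorem La.lin {X Y : ℤ} (h : D.La X Y) : 0 ≤ X ∧ X ≤ D.a ∧ Y = 0 := h

theorem arcLa : CArc (0, 0) (ea D.a) (D.a, 0) D.La := by
  have := D.aux0
  exact ea_arc (by omega)

/-- A part of a boundary: its points. -/
def RA (X Y : ℤ) : Prop :=
  D.La (D.a - X) (0 - Y) ∨
    D.La (D.a - Y) (X - 0)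

/-- A part of a boundary: its word. -/
def wRA : List Dir :=
  rot 2 (ea D.a) ++ back 3 (ea D.a)

variable {D} in
theorem RA.lin {X Y : ℤ} (h : D.RA X Y) :
    X ≤ D.a ∧ -X ≤ 0 ∧ Y ≤ D.a ∧ -Y ≤ 0 ∧ X + Y ≤ D.a ∧ -X - Y ≤ 0 ∧ Y - X ≤ D.a ∧ X - Y ≤ D.a := by
  have := D.aux0
  rcases h with h | h
  · have := h.lin; omega
  · have := h.lin; omega

/-- A part of a boundary: its points. -/
def A3 (X Y : ℤ) : Prop :=
  ((D.PA (X - D.n) (Y - (D.a + D.n)) ∨
    D.PQ (Y - D.n) ((-D.a - D.n) - X)) ∨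
    D.PQ ((-D.n) - X) ((-D.a - D.n) - Y)) ∨
    D.PG ((-D.n) - Y) (X - (D.a + D.n))

/-- A part of a boundary: its word. -/
def wA3 : List Dir :=
  back 0 D.A ++ back 1 D.Q ++ back 2 D.Q ++ back 3 D.G

variable {D} in
theorem A3.lin {X Y : ℤ} (h : D.A3 X Y) :
    X ≤ 2 * D.a + D.t ∧ -X ≤ 2 * D.a + D.t ∧ Y ≤ D.a + D.n + D.t ∧ -Y ≤ 2 * D.a + D.t ∧ X + Y ≤ 2 * D.a - D.n - 1 ∧ -X - Y ≤ 3 * D.a ∧ Y - X ≤ 3 * D.a ∧ X - Y ≤ 3 * D.a := by
  have := D.aux0
  rcases h with ((h | h) | h) | h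
  · have := h.lin; omega
  · have := h.lin; omega
  · have := h.lin; omega
  · have := h.lin; omega

/-- A part of a boundary: its points. -/
def A2 (X Y : ℤ) : Prop :=
  (D.PQ ((-D.n) - X) ((-D.a - D.n) - Y) ∨
    D.PG ((-D.n) - Y) (X - (D.a + D.n))) ∨
    D.RA X Y

/-- A part of a boundary: its word. -/
def wA2 : List Dir :=
  back 2 D.Q ++ back 3 D.G ++ D.wRA

variable {D} in
theorem A2.lin {X Y : ℤ} (h : D.A2 X Y) :
    X ≤ 2 * D.a + D.t ∧ -X ≤ D.n ∧ Y ≤ D.a ∧ -Y ≤ 2 * D.a - D.n ∧ X + Y ≤ 2 * D.a - D.n - 1 ∧ -X - Y ≤ 2 * D.a ∧ Y - X ≤ D.a ∧ X - Y ≤ 3 * D.a := by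
  have := D.aux0
  rcases h with (h | h) | h
  · have := h.lin; omega
  · have := h.lin; omega
  · have := h.lin; omega

/-- A part of a boundary: its points. -/
def AL (X Y : ℤ) : Prop :=
  D.A2 X Y ∨
    D.PA (X - D.n) (Y - (D.a + D.n))

/-- A part of a boundary: its word. -/
def α : List Dir :=
  D.wA2 ++ back 0 D.A

variable {D} in
theorem AL.lin {X Y : ℤ} (h : D.AL X Y) :
    X ≤ 2 * D.a + D.t ∧ -X ≤ 2 * D.a + D.t ∧ Y ≤ D.a + D.n + D.t ∧ -Y ≤ 2 * D.a - D.n ∧ X + Y ≤ 2 * D.a - D.n - 1 ∧ -X - Y ≤ 2 * D.a ∧ Y - X ≤ 3 * D.a ∧ X - Y ≤ 3 * D.a := by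
  have := D.aux0
  rcases h with h | h
  · have := h.lin; omega
  · have := h.lin; omega

/-- A part of a boundary: its points. -/
def EA (X Y : ℤ) : Prop :=
  D.A3 X Y ∨
    D.RA X Y

variable {D} in
theorem EA.lin {X Y : ℤ} (h : D.EA X Y) :
    X ≤ 2 * D.a + D.t ∧ -X ≤ 2 * D.a + D.t ∧ Y ≤ D.a + D.n + D.t ∧ -Y ≤ 2 * D.a + D.t ∧ X + Y ≤ 2 * D.a - D.n - 1 ∧ -X - Y ≤ 3 * D.a ∧ Y - X ≤ 3 * D.a ∧ X - Y ≤ 3 * D.a := by
  have := D.aux0
  rcases h with h | h
  · have := h.lin; omega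
  · have := h.lin; omega

/-- The marked points. -/
def KA : List Pt :=
  [(D.a, 0), (0, 0), (0, D.a), (-D.a, 0), (0, -D.a), (-2 * D.a, D.a), (-D.a, -2 * D.a), (2 * D.a, -D.a), (-D.a, D.a), (-D.a, -D.a), (D.a, -D.a), (-D.a, D.a), (-D.a, -D.a), (D.a, -D.a)]

theorem arcRA : CArc (D.a, 0) D.wRA (0, D.a) D.RA := by
  have := D.aux0
  have h0 := D.arcLa.p2 (P' := (D.a, 0)) (Q' := (0, 0)) D.a 0 (by dsimp only; omega)
  have h1 := D.arcLa.b3 (Q' := (0, 0)) (P' := (0, D.a)) 0 D.a (by dsimp only; omega)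
  refine h0.append h1 ?_
  · intro X Y a b
    show X = 0 ∧ Y = 0
    have := a.lin; have := b.lin; omega

theorem arcA3 : CArc (0, D.a) D.wA3 (D.a, 0) D.A3 := by
  have := D.aux0
  have h0 := D.arcA.b0 (Q' := (0, D.a)) (P' := (D.n - 2 * D.a, D.n)) D.n (D.a + D.n) (by dsimp only; omega)
  have h1 := D.arcQ.b1 (Q' := (D.n - 2 * D.a, D.n)) (P' := (-D.n, D.n - 2 * D.a)) (-D.a - D.n) D.n (by dsimp only; omega)
  have h2 := D.arcQ.b2 (Q' := (-D.n, D.n - 2 * D.a)) (P' := (2 * D.a - D.n, -D.n)) (-D.n) (-D.a - D.n) (by dsimp only; omega)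
  have h3 := D.arcG.b3 (Q' := (2 * D.a - D.n, -D.n)) (P' := (D.a, 0)) (D.a + D.n) (-D.n) (by dsimp only; omega)
  refine ((h0.append h1 ?_).append h2 ?_).append h3 ?_
  · intro X Y a b
    show X = D.n - 2 * D.a ∧ Y = D.n
    have := a.lin; have := b.lin; omega
  · intro X Y a b
    show X = -D.n ∧ Y = D.n - 2 * D.a
    rcases a with a | a
    · have := a.lin; have := b.lin; omega
    · have := a.lin; have := b.lin; omega
  · intro X Y a b
    show X = 2 * D.a - D.n ∧ Y = -D.n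
    rcases a with (a | a) | a
    · have := a.lin; have := b.lin; omega
    · have := a.lin; have := b.lin; omega
    · have := a.lin; have := b.lin; omega

theorem sA0 : Simple (0, D.a) (D.wA3 ++ D.wRA) ∧
    ∀ z ∈ verts (0, D.a) (D.wA3 ++ D.wRA), D.EA z.1 z.2 := by
  have := D.aux0
  refine D.arcA3.simple D.arcRA (fun X Y a b => ?_) (by
    have := length_ea (n := D.a) (by omega)
    simp only [wRA, List.length_append, length_rot, length_back]
    omega)
  show (X = 0 ∧ Y = D.a) ∨ (X = D.a ∧ Y = 0)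
  rcases a with ((a | a) | a) | a
  · have := a.lin; have := b.lin; omega
  · have := a.lin; have := b.lin; omega
  · have := a.lin; have := b.lin; omega
  · have := a.lin; have := b.lin; omega

theorem sA1 : OutE D.EA D.a 1 := by
  have := D.aux0
  refine .rayE fun V _ h => ?_
  rcases h with h | h
  · rcases h with ((h | h) | h) | h
    · have := h.lin; omega
    · have := h.lin; omega
    · have := h.lin; omega
    · have := h.lin; omega
  · have := h.lin; omega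

theorem sA2 : Ccw (0, D.a) (D.wA3 ++ D.wRA) := by
  have := D.aux0
  exact ccw_env (Q := (D.a, 0)) (d := 2) D.sA0.1 D.sA0.2 (sMem_edges_right D.arcA3.1 (sMem_edges_left (edge_ea _ 2 (by omega)) _))
    D.sA1 (by ext <;> simp [dv] <;> omega)

theorem covA2 : Cov (-D.n, D.n - 2 * D.a) D.wA2 (0, D.a) D.A2 := by
  have := D.aux0
  have h0 := (D.arcQ.b2 (Q' := (-D.n, D.n - 2 * D.a)) (P' := (2 * D.a - D.n, -D.n)) (-D.n) (-D.a - D.n) (by dsimp only; omega)).cov
  have h1 := (D.arcG.b3 (Q' := (2 * D.a - D.n, -D.n)) (P' := (D.a, 0)) (D.a + D.n) (-D.n) (by dsimp only; omega)).cov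
  have h2 := (D.arcRA).cov
  exact (h0.append h1).append h2

theorem eQ : D.Q = D.A ++ D.G := by
  have := D.ord0
  exact D.C.Z_append (by omega) (by omega)

theorem eX' : D.X = back 3 D.Y := D.zH

theorem arcA1 : CArc (0, D.a) (back 0 D.A) (D.n - 2 * D.a, D.n) fun X Y => D.PA (X - D.n) (Y - (D.a + D.n)) := by
  have := D.aux0
  exact D.arcA.b0 (Q' := (0, D.a)) (P' := (D.n - 2 * D.a, D.n)) D.n (D.a + D.n) (by dsimp only; omega)

theorem arcIA : CArc (D.n - 2 * D.a, D.n) (back 1 D.Q) (-D.n, D.n - 2 * D.a) fun X Y => D.PQ (Y - D.n) ((-D.a - D.n) - X) := by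
  have := D.aux0
  exact D.arcQ.b1 (Q' := (D.n - 2 * D.a, D.n)) (P' := (-D.n, D.n - 2 * D.a)) (-D.a - D.n) D.n (by dsimp only; omega)

theorem eA' : D.wA3 ++ D.wRA = back 0 D.A ++ (back 1 D.Q ++ D.wA2) := by
  simp [wA3, wA2]

theorem π_ne : back 1 D.Q ≠ [] := by
  have := D.ord0
  exact back_ne (D.C.Z_ne (by omega))

theorem arcAL : CArc (-D.n, D.n - 2 * D.a) D.α (D.n - 2 * D.a, D.n) D.AL :=
  Simple.rest (D.eA' ▸ D.sA0.1) D.π_ne D.covA2 D.arcA1.cov D.arcIA.1

theorem covA (m n : ℤ) : (0 + (m * D.a - n * 0), 0 + (m * 0 + n * D.a)) ∈ D.KA ∨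
    OutE D.EA (0 + (m * D.a - n * 0)) (0 + (m * 0 + n * D.a)) := by
  have := D.aux0
  have l : ∀ {m c : ℤ}, m ≤ c → 1 * (m * D.a) ≤ 1 * (c * D.a) := fun h =>
    by linarith [mul_le_mul_of_nonneg_right h (show 0 ≤ D.a by omega)]
  rcases (by omega : n ≤ -3 ∨ n = -2 ∨ n = -1 ∨ n = 0 ∨ n = 1 ∨ 2 ≤ n) with hn | rfl | rfl | rfl | rfl | hn <;>
  rcases (by omega : m ≤ -3 ∨ m = -2 ∨ m = -1 ∨ m = 0 ∨ m = 1 ∨ m = 2 ∨ 3 ≤ m) with hm | rfl | rfl | rfl | rfl | rfl | hm
  all_goals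
    try have gn := l hn
    try have gm := l hm
  · refine .inr ?_
    refine .rayE fun V _ h => ?_
    have := h.lin; omega
  · refine .inr ?_
    refine .rayE fun V _ h => ?_
    have := h.lin; omega
  · refine .inr ?_
    refine .rayE fun V _ h => ?_
    have := h.lin; omega
  · refine .inr ?_
    refine .rayE fun V _ h => ?_
    have := h.lin; omega
  · refine .inr ?_
    refine .rayE fun V _ h => ?_
    have := h.lin; omega
  · refine .inr ?_
    refine .rayE fun V _ h => ?_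
    have := h.lin; omega
  · refine .inr ?_
    refine .rayE fun V _ h => ?_
    have := h.lin; omega
  · refine .inr ?_
    refine .rayN fun V _ h => ?_
    have := h.lin; omega
  · refine .inr ?_
    refine .rayW fun V _ h => ?_
    have := h.lin; omega
  · exact .inl (.tail _ (.tail _ (.tail _ (.tail _ (.tail _ (.tail _ (mem_hd (by omega) (by omega))))))))
  · refine .inr ?_
    refine .rayE fun V _ h => ?_
    rcases h with h | h
    · rcases h with ((h | h) | h) | h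
      · have := h.lin; omega
      · have := h.lin; omega
      · have := h.lin; omega
      · have := h.lin; omega
    · have := h.lin; omega
  · refine .inr ?_
    refine .rayE fun V _ h => ?_
    rcases h with h | h
    · rcases h with ((h | h) | h) | h
      · have := h.lin; omega
      · have := h.lin; omega
      · have := h.lin; omega
      · have := h.lin; omega
    · have := h.lin; omega
  · refine .inr ?_
    refine .rayE fun V _ h => ?_
    have := h.lin; omega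
  · refine .inr ?_
    refine .rayE fun V _ h => ?_
    have := h.lin; omega
  · refine .inr ?_
    refine .rayN fun V _ h => ?_
    have := h.lin; omega
  · refine .inr ?_
    refine .rayW fun V _ h => ?_
    rcases h with h | h
    · rcases h with ((h | h) | h) | h
      · have := h.lin; omega
      · have := h.lin; omega
      · have := h.lin; omega
      · have := h.lin; omega
    · have := h.lin; omega
  · exact .inl (.tail _ (.tail _ (.tail _ (.tail _ (.tail _ (.tail _ (.tail _ (.tail _ (.tail _ (mem_hd (by omega) (by omega)))))))))))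
  · exact .inl (.tail _ (.tail _ (.tail _ (.tail _ (mem_hd (by omega) (by omega))))))
  · exact .inl (.tail _ (.tail _ (.tail _ (.tail _ (.tail _ (.tail _ (.tail _ (.tail _ (.tail _ (.tail _ (mem_hd (by omega) (by omega))))))))))))
  · exact .inl (.tail _ (.tail _ (.tail _ (.tail _ (.tail _ (.tail _ (.tail _ (mem_hd (by omega) (by omega)))))))))
  · refine .inr ?_
    refine .rayE fun V _ h => ?_
    have := h.lin; omega
  · refine .inr ?_
    refine .rayN fun V _ h => ?_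
    have := h.lin; omega
  · refine .inr ?_
    refine .rayW fun V _ h => ?_
    rcases h with h | h
    · rcases h with ((h | h) | h) | h
      · have := h.lin; omega
      · have := h.lin; omega
      · have := h.lin; omega
      · have := h.lin; omega
    · have := h.lin; omega
  · exact .inl (.tail _ (.tail _ (.tail _ (mem_hd (by omega) (by omega)))))
  · exact .inl (.tail _ (mem_hd (by omega) (by omega)))
  · exact .inl (mem_hd (by omega) (by omega))
  · refine .inr ?_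
    refine .rayE fun V _ h => ?_
    have := h.lin; omega
  · refine .inr ?_
    refine .rayE fun V _ h => ?_
    have := h.lin; omega
  · refine .inr ?_
    refine .rayN fun V _ h => ?_
    have := h.lin; omega
  · exact .inl (.tail _ (.tail _ (.tail _ (.tail _ (.tail _ (mem_hd (by omega) (by omega)))))))
  · exact .inl (.tail _ (.tail _ (.tail _ (.tail _ (.tail _ (.tail _ (.tail _ (.tail _ (mem_hd (by omega) (by omega))))))))))
  · exact .inl (.tail _ (.tail _ (mem_hd (by omega) (by omega))))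
  · refine .inr ?_
    refine .rayE fun V _ h => ?_
    have := h.lin; omega
  · refine .inr ?_
    refine .rayE fun V _ h => ?_
    have := h.lin; omega
  · refine .inr ?_
    refine .rayE fun V _ h => ?_
    have := h.lin; omega
  · refine .inr ?_
    refine .rayE fun V _ h => ?_
    have := h.lin; omega
  · refine .inr ?_
    refine .rayE fun V _ h => ?_
    have := h.lin; omega
  · refine .inr ?_
    refine .rayE fun V _ h => ?_
    have := h.lin; omega
  · refine .inr ?_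
    refine .rayE fun V _ h => ?_
    have := h.lin; omega
  · refine .inr ?_
    refine .rayE fun V _ h => ?_
    have := h.lin; omega
  · refine .inr ?_
    refine .rayE fun V _ h => ?_
    have := h.lin; omega
  · refine .inr ?_
    refine .rayE fun V _ h => ?_
    have := h.lin; omega

theorem memA : ∀ W ∈ D.KA, ∃ m n : ℤ, W.1 = 0 + (m * D.a - n * 0) ∧ W.2 = 0 + (m * 0 + n * D.a) := by
  have := D.aux0
  intro W h
  simp only [KA, List.mem_cons, List.not_mem_nil, or_false] at h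
  rcases h with rfl | rfl | rfl | rfl | rfl | rfl | rfl | rfl | rfl | rfl | rfl | rfl | rfl | rfl
  · exact ⟨1, 0, by dsimp only; omega, by dsimp only; omega⟩
  · exact ⟨0, 0, by dsimp only; omega, by dsimp only; omega⟩
  · exact ⟨0, 1, by dsimp only; omega, by dsimp only; omega⟩
  · exact ⟨-1, 0, by dsimp only; omega, by dsimp only; omega⟩
  · exact ⟨0, -1, by dsimp only; omega, by dsimp only; omega⟩
  · exact ⟨-2, 1, by dsimp only; omega, by dsimp only; omega⟩
  · exact ⟨-1, -2, by dsimp only; omega, by dsimp only; omega⟩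
  · exact ⟨2, -1, by dsimp only; omega, by dsimp only; omega⟩
  · exact ⟨-1, 1, by dsimp only; omega, by dsimp only; omega⟩
  · exact ⟨-1, -1, by dsimp only; omega, by dsimp only; omega⟩
  · exact ⟨1, -1, by dsimp only; omega, by dsimp only; omega⟩
  · exact ⟨-1, 1, by dsimp only; omega, by dsimp only; omega⟩
  · exact ⟨-1, -1, by dsimp only; omega, by dsimp only; omega⟩
  · exact ⟨1, -1, by dsimp only; omega, by dsimp only; omega⟩

/-- A part of the curve. -/
def μ0 : List Dir := D.C.Z (-D.k) (-D.s)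

/-- A part of the curve. -/
def X0 : List Dir := D.C.Z (-(D.k + D.u)) (-D.k)

/-- A part of the curve. -/
def Z0 : List Dir := D.C.Z (D.k - 2 * D.C.q) (-D.C.q - D.u)

theorem eA0 : D.A = D.Z0 ++ back 1 D.Z0 ++ back 1 D.X0 ++ D.X0 ++ D.μ0 := by
  have := D.ord0
  rw [Z0, X0, μ0, ← D.zN, ← D.zU, ← D.C.Z_append (by omega) (by omega),
    ← D.C.Z_append (by omega) (by omega), ← D.C.Z_append (by omega) (by omega),
    ← D.C.Z_append (by omega) (by omega), A]

theorem eG0 : D.G = back 3 D.μ0 := D.zV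

theorem dμ : dsp D.μ0 = (D.a - D.n, -D.n) := by
  have := D.ord0
  rw [μ0, D.C.Z_dsp (by omega), D.wV, D.wmk]
  ext <;> simp only [Prod.fst_sub, Prod.snd_sub] <;> omega

theorem dX0 : dsp D.X0 = (D.n, D.n) := by
  have := D.ord0
  rw [X0, D.C.Z_dsp (by omega), D.wmu, D.wmk]
  ext <;> simp only [Prod.fst_sub, Prod.snd_sub] <;> omega

theorem dZ0 : dsp D.Z0 = (-D.n, D.a - D.n) := by
  have := D.ord0
  rw [Z0, D.C.Z_dsp (by omega), D.wNT, D.wpT]
  ext <;> simp only [Prod.fst_sub, Prod.snd_sub] <;> omega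

theorem dA : dsp D.A = (2 * D.a - D.n, D.a - D.n) := by
  rw [D.arcA.dsp_eq]
  ext <;> simp only [Prod.fst_sub, Prod.snd_sub] <;> omega

theorem dG : dsp D.G = (D.n, D.a - D.n) := by
  rw [D.arcG.dsp_eq]
  ext <;> simp only [Prod.fst_sub, Prod.snd_sub] <;> omega

theorem dY : dsp D.Y = (D.n, D.n) := by
  rw [D.arcY.dsp_eq]
  ext <;> simp only [Prod.fst_sub, Prod.snd_sub] <;> omega

theorem da : dsp (ea D.a) = (D.a, 0) := dsp_ea (by have := D.aux0; omega)

theorem treeA : TreeOK (0, D.a) (D.wA3 ++ D.wRA) D.KA := by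
  have := D.aux0
  have := D.ord0
  have nμ : D.μ0 ≠ [] := D.C.Z_ne (by omega)
  have nX : D.X0 ≠ [] := D.C.Z_ne (by omega)
  have nZ : D.Z0 ≠ [] := D.C.Z_ne (by omega)
  have na : ea D.a ≠ [] := ea_ne (by omega)
  refine (pinH (μ := back 0 D.μ0) (o₁ := back 0 D.X0 ++ back 1 (back 0 D.Z0 ++ back 0 D.X0))
    (o₂ := back 0 D.Z0)
    (R := rot 2 (ea D.a)) (q := back 0 D.A ++ back 1 D.G) (O := (0, 0)) (Z := (0, D.a)) (A := (-2 * D.a, D.a)) (B := (-D.a, D.a)) (B' := (-D.a, D.a))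
    (back_ne nμ) (rot_ne na) (List.append_ne_nil_of_left_ne_nil (back_ne nX) _) (back_ne nZ) ?_ ?_ ?_ ?_
    (.inl ⟨_, back_ne nX, rfl, ?_, rfl⟩)).cast rfl ?_ fun W => ?_
  · simp [eA0, eG0, rot_append, back_append, back_back, rot_back, back_rot, rot_rot, rot_zero, back_ea]
  · simp only [List.map_cons, List.map_nil, List.cons_append, List.nil_append, List.append_nil,
      dsp_append, dsp_rot, dsp_back, List.cons.injEq, Prod.ext_iff, rotP_zero, rotP_1, rotP_2,
      rotP_3, Prod.fst_add, Prod.snd_add, Prod.fst_neg, Prod.snd_neg, dsp_nil, Prod.fst_zero,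
      Prod.snd_zero, Prod.fst_sub, Prod.snd_sub, rho, Fin.reduceAdd, and_true, true_and, D.dμ, D.dX0, D.dZ0, D.da]
    omega
  · simp only [List.map_cons, List.map_nil, List.cons_append, List.nil_append, List.append_nil,
      dsp_append, dsp_rot, dsp_back, List.cons.injEq, Prod.ext_iff, rotP_zero, rotP_1, rotP_2,
      rotP_3, Prod.fst_add, Prod.snd_add, Prod.fst_neg, Prod.snd_neg, dsp_nil, Prod.fst_zero,
      Prod.snd_zero, Prod.fst_sub, Prod.snd_sub, rho, Fin.reduceAdd, and_true, true_and, D.dμ, D.dX0, D.dZ0, D.da]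
    omega
  · simp only [List.map_cons, List.map_nil, List.cons_append, List.nil_append, List.append_nil,
      dsp_append, dsp_rot, dsp_back, List.cons.injEq, Prod.ext_iff, rotP_zero, rotP_1, rotP_2,
      rotP_3, Prod.fst_add, Prod.snd_add, Prod.fst_neg, Prod.snd_neg, dsp_nil, Prod.fst_zero,
      Prod.snd_zero, Prod.fst_sub, Prod.snd_sub, rho, Fin.reduceAdd, and_true, true_and, D.dμ, D.dX0, D.dZ0, D.da]
    omega
  · simp only [List.map_cons, List.map_nil, List.cons_append, List.nil_append, List.append_nil,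
      dsp_append, dsp_rot, dsp_back, List.cons.injEq, Prod.ext_iff, rotP_zero, rotP_1, rotP_2,
      rotP_3, Prod.fst_add, Prod.snd_add, Prod.fst_neg, Prod.snd_neg, dsp_nil, Prod.fst_zero,
      Prod.snd_zero, Prod.fst_sub, Prod.snd_sub, rho, Fin.reduceAdd, and_true, true_and, D.dμ, D.dX0, D.dZ0, D.da]
    omega
  · simp [wA3, wRA, eQ, rot_append, back_append, back_back, rot_back, back_rot, rot_rot, rot_zero, back_ea]
  · rw [show _ :: _ = D.KA from ?_]
    simp only [List.map_cons, List.map_nil, List.cons_append, List.nil_append, List.append_nil,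
      dsp_append, dsp_rot, dsp_back, List.cons.injEq, Prod.ext_iff, rotP_zero, rotP_1, rotP_2,
      rotP_3, Prod.fst_add, Prod.snd_add, Prod.fst_neg, Prod.snd_neg, dsp_nil, Prod.fst_zero,
      Prod.snd_zero, Prod.fst_sub, Prod.snd_sub, rho, Fin.reduceAdd, and_true, true_and, KA]
    omega

theorem net (Λ : Lat) (hp : Λ.p = D.a) (hq : Λ.q = 0) :
    Net Λ (0, 0) (0, D.a) (back 0 D.A ++ (back 1 D.Q ++ D.wA2)) := by
  rw [← D.eA']
  refine net_env D.sA0.1 D.sA2 D.sA0.2 D.treeA ?_ ?_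
  · rw [hp, hq]
    exact D.memA
  · rw [hp, hq]
    exact D.covA

end QA

end NP
end Pool.Agent.Lib.MP_4a7072_co
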