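import Pool.Agent.Lib.MP_4a7072_co.QPDefs

/-!
The vertices of the lattices are marked or lie outside.
-/

set_option autoImplicit false
set_option linter.unnecessarySeqFocus false
set_option linter.unusedSimpArgs false
set_option linter.unusedVariables false
set_option linter.unreachableTactic false
set_option linter.unusedTactic false

namespace Pool.Agent.Lib.MP_4a7072_co
namespace NP


namespace QP

variable (D : QP)

open QA

theorem covB (m n : ℤ) : ((D.a - 2 * D.b) + (m * D.b - n * 0), (-2 * D.a - D.b) + (m * 0 + n * D.b)) ∈ D.KB ∨
    OutE D.EB ((D.a - 2 * D.b) + (m * D.b - n * 0)) ((-2 * D.a - D.b) + (m * 0 + n * D.b)) := by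
  have := D.aux
  have l : ∀ {m c : ℤ}, m ≤ c → 1 * (m * D.b) ≤ 1 * (c * D.b) := fun h =>
    by linarith [mul_le_mul_of_nonneg_right h (show 0 ≤ D.b by omega)]
  rcases (by omega : n ≤ -3 ∨ n = -2 ∨ n = -1 ∨ n = 0 ∨ n = 1 ∨ n = 2 ∨ 3 ≤ n) with hn | rfl | rfl | rfl | rfl | rfl | hn <;>
  rcases (by omega : m ≤ -3 ∨ m = -2 ∨ m = -1 ∨ m = 0 ∨ m = 1 ∨ 2 ≤ m) with hm | rfl | rfl | rfl | rfl | hm
  all_goals
    try have gn := l hn
    try have gm := l hm
  · refine .inr ?_
    refine .rayE fun V _ h => ?_
    have := h.lin; omega
  · refine .inr ?_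
    refine .rayE fun V _ h => ?_
    have := h.lin; omega
  · refine .inr ?_
    refine .rayE fun V _ h => ?_
    have := h.lin; omega
  · refine .inr ?_
    refine .rayE fun V _ h => ?_
    have := h.lin; omega
  · refine .inr ?_
    refine .rayE fun V _ h => ?_
    have := h.lin; omega
  · refine .inr ?_
    refine .rayE fun V _ h => ?_
    have := h.lin; omega
  · refine .inr ?_
    refine .rayN fun V _ h => ?_
    have := h.lin; omega
  · refine .inr ?_
    refine .rayW fun V _ h => ?_
    have := h.lin; omega
  · exact .inl (.tail _ (.tail _ (.tail _ (.tail _ (.tail _ (.tail _ (.tail _ (mem_hd (by omega) (by omega)))))))))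
  · refine .inr ?_
    refine .rayE fun V _ h => ?_
    rcases h with h | h
    · rcases h with (h | h) | h
      · have := h.lin; omega
      · have := h.lin; omega
      · have := h.lin; omega
    · have := h.lin; omega
  · refine .inr ?_
    refine .rayE fun V _ h => ?_
    have := h.lin; omega
  · refine .inr ?_
    refine .rayE fun V _ h => ?_
    have := h.lin; omega
  · refine .inr ?_
    refine .rayN fun V _ h => ?_
    have := h.lin; omega
  · refine .inr ?_
    refine .rayW fun V _ h => ?_
    rcases h with h | h
    · rcases h with (h | h) | h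
      · have := h.lin; omega
      · have := h.lin; omega
      · have := h.lin; omega
    · have := h.lin; omega
  · exact .inl (.tail _ (.tail _ (.tail _ (.tail _ (.tail _ (.tail _ (.tail _ (.tail _ (.tail _ (.tail _ (mem_hd (by omega) (by omega))))))))))))
  · exact .inl (mem_hd (by omega) (by omega))
  · refine .inr ?_
    refine .rayE fun V _ h => ?_
    rcases h with h | h
    · rcases h with (h | h) | h
      · have := h.lin; omega
      · have := h.lin; omega
      · have := h.lin; omega
    · have := h.lin; omega
  · refine .inr ?_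
    refine .rayE fun V _ h => ?_
    have := h.lin; omega
  · refine .inr ?_
    refine .rayN fun V _ h => ?_
    have := h.lin; omega
  · refine .inr ?_
    refine .rayW fun V _ h => ?_
    rcases h with h | h
    · rcases h with (h | h) | h
      · have := h.lin; omega
      · have := h.lin; omega
      · have := h.lin; omega
    · have := h.lin; omega
  · exact .inl (.tail _ (.tail _ (.tail _ (.tail _ (mem_hd (by omega) (by omega))))))
  · exact .inl (.tail _ (mem_hd (by omega) (by omega)))
  · exact .inl (.tail _ (.tail _ (mem_hd (by omega) (by omega))))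
  · refine .inr ?_
    refine .rayE fun V _ h => ?_
    have := h.lin; omega
  · refine .inr ?_
    refine .rayN fun V _ h => ?_
    have := h.lin; omega
  · exact .inl (.tail _ (.tail _ (.tail _ (.tail _ (.tail _ (.tail _ (mem_hd (by omega) (by omega))))))))
  · exact .inl (.tail _ (.tail _ (.tail _ (.tail _ (.tail _ (.tail _ (.tail _ (.tail _ (.tail _ (mem_hd (by omega) (by omega)))))))))))
  · exact .inl (.tail _ (.tail _ (.tail _ (mem_hd (by omega) (by omega)))))
  · exact .inl (.tail _ (.tail _ (.tail _ (.tail _ (.tail _ (.tail _ (.tail _ (.tail _ (mem_hd (by omega) (by omega))))))))))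
  · refine .inr ?_
    refine .rayE fun V _ h => ?_
    have := h.lin; omega
  · refine .inr ?_
    refine .rayN fun V _ h => ?_
    have := h.lin; omega
  · refine .inr ?_
    refine .rayN fun V _ h => ?_
    have := h.lin; omega
  · refine .inr ?_
    refine .rayN fun V _ h => ?_
    rcases h with h | h
    · rcases h with (h | h) | h
      · have := h.lin; omega
      · have := h.lin; omega
      · have := h.lin; omega
    · have := h.lin; omega
  · refine .inr ?_
    refine .rayN fun V _ h => ?_
    rcases h with h | h
    · rcases h with (h | h) | h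
      · have := h.lin; omega
      · have := h.lin; omega
      · have := h.lin; omega
    · have := h.lin; omega
  · exact .inl (.tail _ (.tail _ (.tail _ (.tail _ (.tail _ (mem_hd (by omega) (by omega)))))))
  · refine .inr ?_
    refine .rayE fun V _ h => ?_
    have := h.lin; omega
  · refine .inr ?_
    refine .rayE fun V _ h => ?_
    have := h.lin; omega
  · refine .inr ?_
    refine .rayE fun V _ h => ?_
    have := h.lin; omega
  · refine .inr ?_
    refine .rayE fun V _ h => ?_
    have := h.lin; omega
  · refine .inr ?_
    refine .rayE fun V _ h => ?_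
    have := h.lin; omega
  · refine .inr ?_
    refine .rayE fun V _ h => ?_
    have := h.lin; omega
  · refine .inr ?_
    refine .rayE fun V _ h => ?_
    have := h.lin; omega

theorem memB : ∀ W ∈ D.KB, ∃ m n : ℤ, W.1 = (D.a - 2 * D.b) + (m * D.b - n * 0) ∧ W.2 = (-2 * D.a - D.b) + (m * 0 + n * D.b) := by
  have := D.aux
  intro W h
  simp only [KB, List.mem_cons, List.not_mem_nil, or_false] at h
  rcases h with rfl | rfl | rfl | rfl | rfl | rfl | rfl | rfl | rfl | rfl | rfl | rfl | rfl | rfl
  · exact ⟨0, -1, by dsimp only; omega, by dsimp only; omega⟩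
  · exact ⟨0, 0, by dsimp only; omega, by dsimp only; omega⟩
  · exact ⟨1, 0, by dsimp only; omega, by dsimp only; omega⟩
  · exact ⟨0, 1, by dsimp only; omega, by dsimp only; omega⟩
  · exact ⟨-1, 0, by dsimp only; omega, by dsimp only; omega⟩
  · exact ⟨1, 2, by dsimp only; omega, by dsimp only; omega⟩
  · exact ⟨-2, 1, by dsimp only; omega, by dsimp only; omega⟩
  · exact ⟨-1, -2, by dsimp only; omega, by dsimp only; omega⟩
  · exact ⟨1, 1, by dsimp only; omega, by dsimp only; omega⟩
  · exact ⟨-1, 1, by dsimp only; omega, by dsimp only; omega⟩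
  · exact ⟨-1, -1, by dsimp only; omega, by dsimp only; omega⟩
  · exact ⟨1, 1, by dsimp only; omega, by dsimp only; omega⟩
  · exact ⟨-1, 1, by dsimp only; omega, by dsimp only; omega⟩
  · exact ⟨-1, -1, by dsimp only; omega, by dsimp only; omega⟩

theorem covC (m n : ℤ) : (0 + (m * D.b - n * D.a), 0 + (m * D.a + n * D.b)) ∈ D.KC ∨
    OutE D.EC (0 + (m * D.b - n * D.a)) (0 + (m * D.a + n * D.b)) := by
  have := D.aux
  have l : ∀ {m c : ℤ}, m ≤ c → 1 * (m * D.a) ≤ 1 * (c * D.a) ∧ 1 * (m * D.b) + (-4) * (m * D.a) ≤ 1 * (c * D.b) + (-4) * (c * D.a) := fun h =>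
    ⟨by linarith [mul_le_mul_of_nonneg_right h (show 0 ≤ D.a by omega)], by linarith [mul_le_mul_of_nonneg_right h (show 0 ≤ D.b - 4 * D.a by omega)]⟩
  rcases (by omega : n ≤ -3 ∨ n = -2 ∨ n = -1 ∨ n = 0 ∨ 1 ≤ n) with hn | rfl | rfl | rfl | hn <;>
  rcases (by omega : m ≤ -4 ∨ m = -3 ∨ m = -2 ∨ m = -1 ∨ m = 0 ∨ 1 ≤ m) with hm | rfl | rfl | rfl | rfl | hm
  all_goals
    try have gn := l hn
    try have gm := l hm
  · refine .inr ?_
    refine .rayE fun V _ h => ?_
    have := h.lin; omega
  · refine .inr ?_
    refine .rayE fun V _ h => ?_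
    have := h.lin; omega
  · refine .inr ?_
    refine .rayE fun V _ h => ?_
    have := h.lin; omega
  · refine .inr ?_
    refine .rayE fun V _ h => ?_
    have := h.lin; omega
  · refine .inr ?_
    refine .rayE fun V _ h => ?_
    have := h.lin; omega
  · refine .inr ?_
    refine .rayE fun V _ h => ?_
    have := h.lin; omega
  · refine .inr ?_
    refine .rayW fun V _ h => ?_
    have := h.lin; omega
  · exact .inl (.tail _ (.tail _ (.tail _ (.tail _ (.tail _ (mem_hd (by omega) (by omega)))))))
  · refine .inr ?_
    refine .rayE fun V _ h => ?_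
    rcases h with h | h
    · have := h.lin; omega
    · rcases h with h | h
      · rcases h with ((h | h) | h) | h
        · have := h.lin; omega
        · have := h.lin; omega
        · have := h.lin; omega
        · have := h.lin; omega
      · have := h.lin; omega
  · refine .inr ?_
    refine .rayE fun V _ h => ?_
    rcases h with h | h
    · have := h.lin; omega
    · rcases h with h | h
      · have := h.lin; omega
      · have := h.lin; omega
  · refine .inr ?_
    refine .rayE fun V _ h => ?_
    have := h.lin; omega
  · refine .inr ?_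
    refine .rayE fun V _ h => ?_
    have := h.lin; omega
  · refine .inr ?_
    refine .rayW fun V _ h => ?_
    rcases h with h | h
    · have := h.lin; omega
    · rcases h with h | h
      · rcases h with ((h | h) | h) | h
        · have := h.lin; omega
        · have := h.lin; omega
        · have := h.lin; omega
        · have := h.lin; omega
      · have := h.lin; omega
  · exact .inl (.tail _ (.tail _ (.tail _ (.tail _ (mem_hd (by omega) (by omega))))))
  · exact .inl (.tail _ (.tail _ (.tail _ (.tail _ (.tail _ (.tail _ (mem_hd (by omega) (by omega))))))))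
  · exact .inl (.tail _ (.tail _ (.tail _ (.tail _ (.tail _ (.tail _ (.tail _ (mem_hd (by omega) (by omega)))))))))
  · refine .inr ?_
    refine .rayE fun V _ h => ?_
    rcases h with h | h
    · have := h.lin; omega
    · have := h.lin; omega
  · refine .inr ?_
    refine .rayE fun V _ h => ?_
    have := h.lin; omega
  · refine .inr ?_
    refine .rayN fun V _ h => ?_
    have := h.lin; omega
  · exact .inl (.tail _ (.tail _ (.tail _ (mem_hd (by omega) (by omega)))))
  · exact .inl (.tail _ (.tail _ (mem_hd (by omega) (by omega))))
  · exact .inl (.tail _ (mem_hd (by omega) (by omega)))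
  · exact .inl (mem_hd (by omega) (by omega))
  · refine .inr ?_
    refine .rayE fun V _ h => ?_
    have := h.lin; omega
  · refine .inr ?_
    refine .rayN fun V _ h => ?_
    have := h.lin; omega
  · refine .inr ?_
    refine .rayN fun V _ h => ?_
    have := h.lin; omega
  · refine .inr ?_
    refine .rayN fun V _ h => ?_
    rcases h with h | h
    · have := h.lin; omega
    · rcases h with h | h
      · rcases h with ((h | h) | h) | h
        · have := h.lin; omega
        · have := h.lin; omega
        · have := h.lin; omega
        · have := h.lin; omega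
      · have := h.lin; omega
  · refine .inr ?_
    refine .rayE fun V _ h => ?_
    have := h.lin; omega
  · refine .inr ?_
    refine .rayE fun V _ h => ?_
    have := h.lin; omega
  · refine .inr ?_
    refine .rayE fun V _ h => ?_
    have := h.lin; omega

theorem memC : ∀ W ∈ D.KC, ∃ m n : ℤ, W.1 = 0 + (m * D.b - n * D.a) ∧ W.2 = 0 + (m * D.a + n * D.b) := by
  have := D.aux
  intro W h
  simp only [KC, List.mem_cons, List.not_mem_nil, or_false] at h
  rcases h with rfl | rfl | rfl | rfl | rfl | rfl | rfl | rfl
  · exact ⟨0, 0, by dsimp only; omega, by dsimp only; omega⟩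
  · exact ⟨-1, 0, by dsimp only; omega, by dsimp only; omega⟩
  · exact ⟨-2, 0, by dsimp only; omega, by dsimp only; omega⟩
  · exact ⟨-3, 0, by dsimp only; omega, by dsimp only; omega⟩
  · exact ⟨-3, -1, by dsimp only; omega, by dsimp only; omega⟩
  · exact ⟨-3, -2, by dsimp only; omega, by dsimp only; omega⟩
  · exact ⟨-2, -1, by dsimp only; omega, by dsimp only; omega⟩
  · exact ⟨-1, -1, by dsimp only; omega, by dsimp only; omega⟩

end QP

end NP
end Pool.Agent.Lib.MP_4a7072_co
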