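import Pool.Agent.Lib.MP_4a7072_co.QPDefs

/-!
The boundaries of the first design are simple closed paths.
-/

set_option autoImplicit false
set_option linter.unnecessarySeqFocus false
set_option linter.unusedSimpArgs false
set_option linter.unusedVariables false
set_option linter.unreachableTactic false
set_option linter.unusedTactic false

namespace Pool.Agent.Lib.MP_4a7072_co
namespace NP


namespace QP

variable (D : QP)

open QA

theorem arcUU : CArc (D.b - D.a - D.n, D.a - D.n) D.wU (D.b - 2 * D.a - D.n, D.b - D.n) D.UU := by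
  have := D.aux
  have h0 := D.arcLs.p0 (P' := (D.b - D.a - D.n, D.a - D.n)) (Q' := (D.g, D.f + D.g)) (D.b - D.a - D.n) (D.a - D.n) (by dsimp only; omega)
  have h1 := D.arcN
  refine h0.append h1 ?_
  · intro X Y a b
    show X = D.g ∧ Y = D.f + D.g
    have ha := a.lin; have hb := b.lin
    obtain ⟨k1, k2, k3, k4, k5, -⟩ := this
    obtain ⟨k20, k64⟩ := hb
    rcases ha with ⟨k12, -⟩ | ⟨k16, k17, -⟩
    · rcases k64 with ⟨-, -, -, -, -, k71⟩ | ⟨-, k74, -⟩ | ⟨-, -, k80, -⟩ <;> lia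
    · rcases k20 with ⟨k22, k23⟩ | ⟨k46, k47⟩
      · rcases k23 with ⟨-, k26, -⟩ | ⟨-, -, k32, -⟩ | ⟨-, -, -, k40, -⟩ <;> lia
      · rcases k47 with ⟨-, -, k51, -⟩ | ⟨-, -, -, k59, -⟩ <;> lia

theorem arcSX : CArc (-D.n, D.a - D.n) D.wS (D.b - D.a - D.n, D.a - D.n) D.SX := by
  have := D.aux
  have h0 := D.arcM
  have h1 := D.arcLs.b0 (Q' := (D.g, D.f + D.g)) (P' := (D.b - D.a - D.n, D.a - D.n)) (D.b - D.a - D.n) (D.a - D.n) (by dsimp only; omega)
  refine h0.append h1 ?_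
  · intro X Y a b
    show X = D.g ∧ Y = D.f + D.g
    have ha := a.lin; have hb := b.lin
    obtain ⟨k1, k2, -, k4, k5, -⟩ := this
    obtain ⟨k11, k33⟩ := ha
    rcases hb with ⟨k61, k62, k63⟩ | ⟨k65, k66, -⟩
    · rcases k11 with ⟨-, k14, -⟩ | ⟨-, -, -, -, -, k23⟩ | ⟨k25, -, -, k28, -⟩ <;> lia
    · rcases k33 with ⟨-, -, -, k38, -⟩ | ⟨k44, k45⟩
      · lia
      · rcases k45 with ⟨-, k48, -⟩ | ⟨-, -, k54, k55, -⟩ <;> lia

theorem arcB1 : CArc (D.b, 0) D.wB1 (2 * D.b - D.a, D.b) D.B1 := by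
  have := D.aux
  have h0 := D.arcUU.b1 (Q' := (D.b, 0)) (P' := (2 * D.b - D.a, D.a)) (2 * D.b - D.n) (2 * D.a + D.n - D.b) (by dsimp only; omega)
  have h1 := D.arcSX.b0 (Q' := (2 * D.b - D.a, D.a)) (P' := (D.b, D.a)) (D.b + D.n) D.n (by dsimp only; omega)
  have h2 := D.arcSX.p1 (P' := (D.b, D.a)) (Q' := (D.b, D.b)) (D.a + D.b - D.n) (D.a + D.n) (by dsimp only; omega)
  have h3 := D.arcSX.b2 (Q' := (D.b, D.b)) (P' := (2 * D.b - D.a, D.b)) (2 * D.b - D.a - D.n) (D.a + D.b - D.n) (by dsimp only; omega)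
  refine ((h0.append h1 ?_).append h2 ?_).append h3 ?_
  · intro X Y a b
    show X = 2 * D.b - D.a ∧ Y = D.a
    rcases b with b | b
    · have ha := a.lin; have hb := b.lin
      obtain ⟨k1, k2, k3, k4, k5, -⟩ := this
      obtain ⟨k11, -, -, -, k15, -⟩ := ha
      obtain ⟨k20, -⟩ := hb
      rcases k20 with ⟨-, k23, k24, -⟩ | ⟨k27, -, -, -, -, k32⟩ | ⟨k34, -, -, -, k38, -⟩ <;> lia
    · have ha := a.lin; have hb := b.lin
      obtain ⟨k1, -, -, -, k5, -⟩ := this
      obtain ⟨k11, -, -, k14, k15, -, -, k18⟩ := ha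
      rcases hb with ⟨k21, k22, -⟩ | ⟨k25, -⟩ <;> lia
  · intro X Y a b
    show X = D.b ∧ Y = D.a
    rcases a with a | a
    · have ha := a.lin; have hb := b.lin
      obtain ⟨k1, k2, -, k4, k5, -⟩ := this
      obtain ⟨k11, -, k13, -, k15, -, k17, -⟩ := ha
      obtain ⟨-, -, -, k23, -, k25, -⟩ := hb
      lia
    · rcases a with a | a
      · rcases b with b | b
        · have := D.sMM b a (by omega); lia
        · have ha := a.lin; have hb := b.lin
          obtain ⟨k1, k2, k3, k4, k5, k6, -⟩ := this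
          obtain ⟨-, k33⟩ := ha
          rcases k33 with ⟨k35, -, k37, k38, k39, -⟩ | ⟨k44, k45⟩
          · rcases hb with ⟨k61, -, k63⟩ | ⟨k65, k66, k67⟩ <;> lia
          · rcases k45 with ⟨k47, -, -, k50⟩ | ⟨-, k53, k54, k55, -⟩
            · rcases hb with ⟨k61, -⟩ | ⟨k65, k66, -⟩ <;> lia
            · rcases hb with ⟨k61, k62, k63⟩ | ⟨k65, k66, -⟩ <;> lia
      · have ha := a.lin; have hb := b.lin
        obtain ⟨k1, k2, -, k4, k5, k6, -⟩ := this
        obtain ⟨k20, -, k22, k23, -, k25, -⟩ := hb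
        rcases ha with ⟨k12, k13, k14⟩ | ⟨k16, k17, -⟩ <;> lia
  · intro X Y a b
    show X = D.b ∧ Y = D.b
    rcases a with (a | a) | a
    · have ha := a.lin; have hb := b.lin
      obtain ⟨-, k2, k3, k4, k5, k6, -⟩ := this
      obtain ⟨k11, k12, -, -, k15, -⟩ := ha
      obtain ⟨-, -, -, -, k24, -, k26, -⟩ := hb
      lia
    · rcases a with a | a
      · rcases b with b | b
        · have ha := a.lin; have hb := b.lin
          obtain ⟨k1, k2, k3, k4, k5, -⟩ := this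
          obtain ⟨-, k33⟩ := ha
          obtain ⟨-, k82⟩ := hb
          rcases k33 with ⟨k35, -, -, -, k39, -⟩ | ⟨k44, k45⟩
          · rcases k82 with ⟨-, -, -, -, k88, -⟩ | ⟨k93, -⟩ <;> lia
          · rcases k45 with ⟨-, k48, k49, k50⟩ | ⟨-, k53, k54, k55, -⟩
            · rcases k82 with ⟨k84, -, -, -, k88, -⟩ | ⟨-, k94⟩
              · lia
              · rcases k94 with ⟨-, k97, -⟩ | ⟨-, -, -, k104, -⟩ <;> lia
            · rcases k82 with ⟨k84, -, k86, -⟩ | ⟨-, k94⟩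
              · lia
              · rcases k94 with ⟨-, -, k98, k99⟩ | ⟨-, -, -, k104, -⟩ <;> lia
        · have ha := a.lin; have hb := b.lin
          obtain ⟨k1, k2, k3, k4, k5, -⟩ := this
          obtain ⟨-, k33⟩ := ha
          rcases k33 with ⟨k35, -, k37, -, k39, -⟩ | ⟨k44, k45⟩
          · rcases hb with ⟨k61, -, k63⟩ | ⟨k65, k66, -⟩ <;> lia
          · rcases k45 with ⟨-, -, -, k50⟩ | ⟨-, k53, -, k55, -⟩
            · rcases hb with ⟨k61, -, k63⟩ | ⟨k65, -⟩ <;> lia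
            · rcases hb with ⟨k61, -, k63⟩ | ⟨k65, k66, -⟩ <;> lia
      · rcases b with b | b
        · have ha := a.lin; have hb := b.lin
          obtain ⟨k1, k2, k3, k4, k5, -⟩ := this
          obtain ⟨-, k42⟩ := hb
          rcases k42 with ⟨k44, -, k46, -, k48, -⟩ | ⟨k53, k54⟩
          · rcases ha with ⟨k12, -, k14⟩ | ⟨k16, k17, -⟩ <;> lia
          · rcases k54 with ⟨-, -, -, k59⟩ | ⟨-, k62, -, k64, -⟩
            · rcases ha with ⟨k12, -, k14⟩ | ⟨k16, -⟩ <;> lia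
            · rcases ha with ⟨k12, -, k14⟩ | ⟨k16, k17, -⟩ <;> lia
        · have ha := a.lin; have hb := b.lin
          obtain ⟨k1, k2, -, k4, k5, k6, -⟩ := this
          rcases ha with ⟨k12, k13, k14⟩ | ⟨k16, -⟩
          · rcases hb with ⟨k21, k22, -⟩ | ⟨k25, k26, -⟩ <;> lia
          · rcases hb with ⟨k21, -, k23⟩ | ⟨k25, -⟩ <;> lia
    · rcases a with a | a
      · have ha := a.lin; have hb := b.lin
        obtain ⟨k1, k2, k3, k4, k5, -⟩ := this
        obtain ⟨k11, -⟩ := ha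
        obtain ⟨k60, -, -, -, k64, -, -, k67⟩ := hb
        rcases k11 with ⟨-, k14, k15, -⟩ | ⟨k18, -, -, -, -, k23⟩ | ⟨k25, -, -, -, k29, -⟩ <;> lia
      · have ha := a.lin; have hb := b.lin
        obtain ⟨k1, k2, -, k4, k5, k6, -⟩ := this
        obtain ⟨k20, -, -, k23, k24, -, -, k27⟩ := hb
        rcases ha with ⟨k12, k13, -⟩ | ⟨k16, k17, -⟩ <;> lia

theorem arcB2 : CArc (2 * D.b - D.a, D.b) D.wB2 (0, D.b) D.B2 := by
  have := D.aux
  have h0 := D.arcL.p1 (P' := (2 * D.b - D.a, D.b)) (Q' := (D.b - 2 * D.a, 2 * D.b)) (2 * D.b - 2 * D.a - D.n) (2 * D.a + D.b + D.n) (by dsimp only; omega)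
  have h1 := D.arcUU.b0 (Q' := (D.b - 2 * D.a, 2 * D.b)) (P' := (D.b - D.a, D.a + D.b)) D.n (D.b + D.n) (by dsimp only; omega)
  have h2 := D.arcUU.p1 (P' := (D.b - D.a, D.a + D.b)) (Q' := (0, D.b)) (D.b - D.n) (2 * D.a + D.n) (by dsimp only; omega)
  refine (h0.append h1 ?_).append h2 ?_
  · intro X Y a b
    show X = D.b - 2 * D.a ∧ Y = 2 * D.b
    rcases b with b | b
    · have ha := a.lin; have hb := b.lin
      obtain ⟨k1, k2, k3, k4, k5, k6, -⟩ := this
      obtain ⟨k11, k33⟩ := ha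
      rcases hb with ⟨k56, k57, k58⟩ | ⟨k60, k61, k62⟩
      · rcases k33 with ⟨k35, -, k37, -⟩ | ⟨k42, -⟩ | ⟨-, -, -, k50, -⟩ <;> lia
      · rcases k11 with ⟨-, k14, -⟩ | ⟨-, -, k20, k21, k22, k23⟩ | ⟨-, k26, -, k28, -⟩ <;> lia
    · have := D.sBQ a.on b.on (by omega); lia
  · intro X Y a b
    show X = D.b - D.a ∧ Y = D.a + D.b
    rcases a with a | a
    · have ha := a.lin; have hb := b.lin
      obtain ⟨-, k2, k3, k4, k5, k6, -⟩ := this
      obtain ⟨k11, -⟩ := ha
      obtain ⟨k55, k56, k57, k58, k59, k60, -, k62⟩ := hb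
      rcases k11 with ⟨-, -, k15, k16⟩ | ⟨-, -, -, k21, k22, k23⟩ | ⟨-, k26, k27, -⟩ <;> lia
    · rcases a with a | a
      · have ha := a.lin; have hb := b.lin
        obtain ⟨k1, -, -, -, k5, -⟩ := this
        obtain ⟨k20, -, -, k23, k24, -, -, k27⟩ := hb
        rcases ha with ⟨k12, k13, -⟩ | ⟨k16, -⟩ <;> lia
      · have ha := a.lin; have hb := b.lin
        obtain ⟨k1, k2, -, k4, k5, -⟩ := this
        obtain ⟨k11, -⟩ := ha
        obtain ⟨-, -, -, -, k81, -, -, k84⟩ := hb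
        rcases k11 with ⟨k13, k14⟩ | ⟨k37, k38⟩
        · rcases k14 with ⟨k16, -, k18, -⟩ | ⟨-, -, k23, k24, -⟩ | ⟨k28, k29, -, -, k32, -⟩ <;> lia
        · rcases k38 with ⟨-, -, k42, k43, -⟩ | ⟨-, -, -, -, k51, -⟩ <;> lia

theorem arcQB : CArc (D.b, 0) D.qb (0, D.b) D.QB := by
  have := D.aux
  have h0 := D.arcB1
  have h1 := D.arcB2
  refine h0.append h1 ?_
  · intro X Y a b
    show X = 2 * D.b - D.a ∧ Y = D.b
    rcases a with ((a | a) | a) | a
    · have ha := a.lin; have hb := b.lin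
      obtain ⟨k1, k2, -, k4, k5, -⟩ := this
      obtain ⟨k11, -, k13, -, k15, -, k17, -⟩ := ha
      obtain ⟨-, -, -, -, -, -, -, k27⟩ := hb
      lia
    · have ha := a.lin; have hb := b.lin
      obtain ⟨k1, k2, -, k4, k5, -⟩ := this
      obtain ⟨-, -, k13, -⟩ := ha
      obtain ⟨-, -, -, k23, -⟩ := hb
      lia
    · rcases b with (b | b) | b
      · have ha := a.lin; have hb := b.lin
        obtain ⟨k1, k2, -, k4, k5, k6, k7⟩ := this
        obtain ⟨k11, -, -, k14, k15, -, -, k18⟩ := ha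
        obtain ⟨k20, -⟩ := hb
        rcases k20 with ⟨k22, -, -, k25⟩ | ⟨-, k28, -, k30, k31, -⟩ | ⟨-, -, k36, -⟩
        · lia
        · rcases k7 with k8 | k9 <;> lia
        · lia
      · have ha := a.lin; have hb := b.lin
        obtain ⟨k1, k2, -, k4, k5, -⟩ := this
        obtain ⟨k11, -⟩ := ha
        obtain ⟨-, -, -, k23, -⟩ := hb
        lia
      · rcases a with a | a
        · have ha := a.lin; have hb := b.lin
          obtain ⟨-, k2, k3, k4, k5, -⟩ := this
          obtain ⟨-, k33⟩ := ha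
          obtain ⟨-, k61, -⟩ := hb
          rcases k33 with ⟨k35, -, -, k38, -⟩ | ⟨k44, k45⟩
          · lia
          · rcases k45 with ⟨-, k48, -⟩ | ⟨-, -, k54, -⟩ <;> lia
        · rcases b with b | b
          · have ha := a.lin; have hb := b.lin
            obtain ⟨k1, k2, -, k4, k5, -⟩ := this
            rcases ha with ⟨k12, -, k14⟩ | ⟨k16, -, k18⟩
            · rcases hb with ⟨k21, -⟩ | ⟨k25, -, k27⟩ <;> lia
            · rcases hb with ⟨k21, -, k23⟩ | ⟨k25, -⟩ <;> lia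
          · have ha := a.lin; have hb := b.lin
            obtain ⟨k1, k2, k3, k4, k5, k6, k7⟩ := this
            obtain ⟨k20, k64⟩ := hb
            rcases ha with ⟨k12, k13, k14⟩ | ⟨k16, k17, -⟩
            · rcases k64 with ⟨k66, k67, -⟩ | ⟨-, -, k75, -⟩ | ⟨k78, -⟩
              · lia
              · rcases k7 with k8 | k9 <;> lia
              · rcases k7 with k8 | k9 <;> lia
            · rcases k20 with ⟨k22, k23⟩ | ⟨k46, k47⟩
              · rcases k23 with ⟨-, k26, k27, k28⟩ | ⟨k30, k31, -, -, k34, k35⟩ | ⟨-, -, -, k40, -⟩ <;> lia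
              · rcases k47 with ⟨k49, k50, k51, -, k53, -⟩ | ⟨-, -, -, k59, -⟩ <;> lia
    · rcases b with (b | b) | b
      · rcases a with a | a
        · have := D.sML a b (by omega); lia
        · have ha := a.lin; have hb := b.lin
          obtain ⟨k1, k2, k3, k4, k5, k6, k7⟩ := this
          obtain ⟨k20, -⟩ := hb
          rcases ha with ⟨k12, k13, k14⟩ | ⟨k16, k17, k18⟩
          · rcases k20 with ⟨k22, -, -, k25⟩ | ⟨-, k28, -, -, k31, k32⟩ | ⟨-, -, k36, -⟩
            · lia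
            · rcases k7 with k8 | k9 <;> lia
            · lia
          · rcases k20 with ⟨-, -, -, k25⟩ | ⟨-, -, k29, k30, k31, -⟩ | ⟨-, -, k36, -, k38, -⟩ <;> lia
      · have ha := a.lin; have hb := b.lin
        obtain ⟨k1, k2, -, k4, k5, -⟩ := this
        obtain ⟨-, -, -, k14, -⟩ := ha
        obtain ⟨-, -, -, k23, -⟩ := hb
        lia
      · have ha := a.lin; have hb := b.lin
        obtain ⟨k1, k2, -, k4, k5, -⟩ := this
        obtain ⟨k11, -⟩ := ha
        obtain ⟨-, -, -, k23, -⟩ := hb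
        lia

variable {D} in
theorem qqb {X1 Y1 X2 Y2 : ℤ} (a : D.QB X1 Y1) (b : D.QB X2 Y2)
    (e : X2 = Y1 ∧ Y2 = -X1) :
    X1 = 0 ∧ Y1 = D.b := by
  have := D.aux
  rcases a with a | a
  · have ha := a.lin; have hb := b.lin
    obtain ⟨k1, k2, k3, k4, k5, -⟩ := this
    obtain ⟨k11, k12⟩ := e
    obtain ⟨-, k15, k16, -, -, k19, -⟩ := ha
    obtain ⟨-, -, -, k26, -, k28, -⟩ := hb
    lia
  · rcases b with b | b
    · rcases b with ((b | b) | b) | b
      · rcases a with (a | a) | a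
        · have ha := a.lin; have hb := b.lin
          obtain ⟨k1, k2, -, k4, k5, k6, -⟩ := this
          obtain ⟨k11, k12⟩ := e
          obtain ⟨k14, -⟩ := ha
          obtain ⟨k58, k59, -, k61, -, k63, k64, k65⟩ := hb
          rcases k14 with ⟨k16, -, -, k19⟩ | ⟨-, k22, -, k24, -⟩ | ⟨-, k29, -⟩ <;> lia
        · rcases a with a | a
          · rcases b with b | b
            · have ha := a.lin; have hb := b.lin
              obtain ⟨k1, k2, -, k4, k5, k6, -⟩ := this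
              obtain ⟨k11, k12⟩ := e
              rcases ha with ⟨k15, k16, k17⟩ | ⟨k19, k20, -⟩
              · rcases hb with ⟨k24, -⟩ | ⟨k28, k29, -⟩ <;> lia
              · rcases hb with ⟨k24, -⟩ | ⟨k28, -⟩ <;> lia
            · have ha := a.lin; have hb := b.lin
              obtain ⟨k1, k2, k3, k4, k5, -⟩ := this
              obtain ⟨k11, k12⟩ := e
              obtain ⟨k23, k67⟩ := hb
              rcases ha with ⟨k15, k16, k17⟩ | ⟨k19, k20, -⟩
              · rcases k67 with ⟨k69, -, k71, -⟩ | ⟨k76, -⟩ | ⟨-, k82, -, k84, -⟩ <;> lia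
              · rcases k23 with ⟨k25, k26⟩ | ⟨k49, k50⟩
                · rcases k26 with ⟨-, -, k30, -⟩ | ⟨-, -, -, k36, k37, k38⟩ | ⟨k40, k41, k42, -⟩ <;> lia
                · rcases k50 with ⟨k52, -, -, -, -, k57⟩ | ⟨-, -, k61, -⟩ <;> lia
          · rcases b with b | b
            · have ha := a.lin; have hb := b.lin
              obtain ⟨k1, k2, k3, k4, k5, -⟩ := this
              obtain ⟨k11, k12⟩ := e
              obtain ⟨k14, k58⟩ := ha
              rcases hb with ⟨k81, k82, k83⟩ | ⟨k85, k86, -⟩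
              · rcases k58 with ⟨k60, -, k62, -, -, k65⟩ | ⟨k67, -, -, k70⟩ | ⟨-, k73, -, k75, -⟩ <;> lia
              · rcases k14 with ⟨k16, k17⟩ | ⟨k40, k41⟩
                · rcases k17 with ⟨-, -, k21, -⟩ | ⟨-, -, -, k27, k28, k29⟩ | ⟨k31, k32, k33, -⟩ <;> lia
                · rcases k41 with ⟨k43, -, -, -, -, k48⟩ | ⟨-, -, k52, -⟩ <;> lia
            · have ha := a.lin; have hb := b.lin
              obtain ⟨k1, k2, k3, k4, k5, -⟩ := this
              obtain ⟨k11, k12⟩ := e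
              obtain ⟨k14, -⟩ := ha
              obtain ⟨k80, -⟩ := hb
              rcases k14 with ⟨k16, k17⟩ | ⟨k40, k41⟩
              · rcases k17 with ⟨k19, -, k21, k22⟩ | ⟨k24, k25, k26, k27, k28, -⟩ | ⟨k31, k32, k33, k34, -⟩
                · rcases k80 with ⟨-, k83⟩ | ⟨k106, -⟩
                  · rcases k83 with ⟨-, -, k87, -⟩ | ⟨-, -, k92, -, k94, -⟩ | ⟨k97, -, k99, -⟩ <;> lia
                  · lia
                · rcases k80 with ⟨-, k83⟩ | ⟨k106, -⟩
                  · rcases k83 with ⟨k85, -⟩ | ⟨-, k91, k92, -, k94, -⟩ | ⟨-, -, -, -, k101, -⟩ <;> lia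
                  · lia
                · rcases k80 with ⟨-, k83⟩ | ⟨k106, -⟩
                  · rcases k83 with ⟨k85, -, k87, k88⟩ | ⟨k90, -, -, k93, -⟩ | ⟨-, -, k99, -⟩ <;> lia
                  · lia
              · rcases k41 with ⟨k43, k44, k45, k46, k47, k48⟩ | ⟨-, k51, k52, k53, -⟩
                · rcases k80 with ⟨k82, -⟩ | ⟨-, k107⟩
                  · lia
                  · rcases k107 with ⟨k109, -, k111, -⟩ | ⟨-, -, -, -, k120, -⟩ <;> lia
                · rcases k80 with ⟨k82, -⟩ | ⟨-, k107⟩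
                  · lia
                  · rcases k107 with ⟨k109, -, -, k112, -⟩ | ⟨-, -, k118, -⟩ <;> lia
        · rcases a with a | a
          · have ha := a.lin; have hb := b.lin
            obtain ⟨-, k2, k3, k4, k5, k6, -⟩ := this
            obtain ⟨k11, k12⟩ := e
            obtain ⟨k23, k24, -, -, -, -, k29, -⟩ := hb
            rcases ha with ⟨k15, -, k17⟩ | ⟨k19, k20, k21⟩ <;> lia
          · rcases b with b | b
            · have ha := a.lin; have hb := b.lin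
              obtain ⟨k1, k2, k3, k4, k5, k6, -⟩ := this
              obtain ⟨k11, k12⟩ := e
              obtain ⟨-, k58⟩ := ha
              rcases hb with ⟨k81, -⟩ | ⟨k85, k86, k87⟩
              · rcases k58 with ⟨-, k61, -, -, k64, -⟩ | ⟨-, -, k69, k70⟩ | ⟨-, k73, k74, -⟩ <;> lia
              · rcases k58 with ⟨-, k61, k62, -⟩ | ⟨-, k68, -⟩ | ⟨k72, k73, -, k75, -⟩ <;> lia
            · have := D.sBQ b.on a.on (by omega); lia
      · have ha := a.lin; have hb := b.lin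
        obtain ⟨k1, k2, -, k4, k5, -⟩ := this
        obtain ⟨k11, k12⟩ := e
        obtain ⟨-, k15, -, -, -, -, k20, -⟩ := ha
        obtain ⟨-, -, -, k26, -, k28, -⟩ := hb
        lia
      · have ha := a.lin; have hb := b.lin
        obtain ⟨k1, k2, -, k4, k5, -⟩ := this
        obtain ⟨k11, k12⟩ := e
        obtain ⟨-, k15, -, -, -, k19, k20, -⟩ := ha
        obtain ⟨-, -, -, k26, -, k28, k29, -⟩ := hb
        lia
      · have ha := a.lin; have hb := b.lin
        obtain ⟨-, -, -, k4, k5, -⟩ := this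
        obtain ⟨k11, k12⟩ := e
        obtain ⟨-, k15, -, k17, -, k19, k20, -⟩ := ha
        obtain ⟨k23, -, k25, -, -, -, k29, -⟩ := hb
        lia
    · have ha := a.lin; have hb := b.lin
      obtain ⟨k1, k2, -, k4, k5, -⟩ := this
      obtain ⟨k11, k12⟩ := e
      obtain ⟨-, -, -, -, -, k19, -⟩ := ha
      obtain ⟨-, -, -, -, -, -, -, k30⟩ := hb
      lia

theorem arcB3 : CArc (D.a - D.b, -2 * D.a - D.b) D.wB3 (D.a - 2 * D.b, -2 * D.a - 2 * D.b) D.B3 := by
  have := D.aux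
  have h0 := D.arcQB.p0 (P' := (D.a - D.b, -2 * D.a - D.b)) (Q' := (D.a - 2 * D.b, -2 * D.a)) (D.a - 2 * D.b) (-2 * D.a - D.b) (by dsimp only; omega)
  have h1 := D.arcQB.p1 (P' := (D.a - 2 * D.b, -2 * D.a)) (Q' := (D.a - 3 * D.b, -2 * D.a - D.b)) (D.a - 2 * D.b) (-2 * D.a - D.b) (by dsimp only; omega)
  have h2 := D.arcQB.p2 (P' := (D.a - 3 * D.b, -2 * D.a - D.b)) (Q' := (D.a - 2 * D.b, -2 * D.a - 2 * D.b)) (D.a - 2 * D.b) (-2 * D.a - D.b) (by dsimp only; omega)
  refine (h0.append h1 ?_).append h2 ?_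
  · intro X Y a b
    show X = D.a - 2 * D.b ∧ Y = -2 * D.a
    have := qqb a b (by omega); lia
  · intro X Y a b
    show X = D.a - 3 * D.b ∧ Y = -2 * D.a - D.b
    rcases a with a | a
    · have ha := a.lin; have hb := b.lin
      obtain ⟨k1, k2, k3, k4, k5, k6, -⟩ := this
      obtain ⟨-, k12, -, -, -, k16, k17, -⟩ := ha
      obtain ⟨-, k21, -, k23, -⟩ := hb
      lia
    · have := qqb a b (by omega); lia

theorem arcRB : CArc (D.a - 2 * D.b, -2 * D.a - 2 * D.b) D.wRB (D.a - D.b, -2 * D.a - D.b) D.RB := by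
  have := D.aux
  have h0 := D.arcLb.p1 (P' := (D.a - 2 * D.b, -2 * D.a - 2 * D.b)) (Q' := (D.a - 2 * D.b, -2 * D.a - D.b)) (D.a - 2 * D.b) (-2 * D.a - 2 * D.b) (by dsimp only; omega)
  have h1 := D.arcLb.b2 (Q' := (D.a - 2 * D.b, -2 * D.a - D.b)) (P' := (D.a - D.b, -2 * D.a - D.b)) (D.a - D.b) (-2 * D.a - D.b) (by dsimp only; omega)
  refine h0.append h1 ?_
  · intro X Y a b
    show X = D.a - 2 * D.b ∧ Y = -2 * D.a - D.b
    have ha := a.lin; have hb := b.lin
    obtain ⟨-, k12, k13⟩ := ha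
    obtain ⟨-, -, k17⟩ := hb
    clear this
    lia

theorem sB0 : Simple (D.a - D.b, -2 * D.a - D.b) (D.wB3 ++ D.wRB) ∧
    ∀ z ∈ verts (D.a - D.b, -2 * D.a - D.b) (D.wB3 ++ D.wRB), D.EB z.1 z.2 := by
  have := D.aux
  refine D.arcB3.simple D.arcRB (fun X Y a b => ?_) (by
    have := length_ea (n := D.b) (by omega)
    simp only [wRB, List.length_append, length_rot, length_back]
    omega)
  show (X = D.a - D.b ∧ Y = -2 * D.a - D.b) ∨ (X = D.a - 2 * D.b ∧ Y = -2 * D.a - 2 * D.b)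
  rcases a with (a | a) | a
  · have ha := a.lin; have hb := b.lin
    obtain ⟨-, -, -, -, -, k16, -⟩ := ha
    obtain ⟨k20, -, k22, -, k24, -⟩ := hb
    clear this
    refine .inl ?_; lia
  · have ha := a.lin; have hb := b.lin
    obtain ⟨k1, -, -, k4, k5, -⟩ := this
    obtain ⟨k11, k12, -, -, -, k16, k17, -⟩ := ha
    obtain ⟨-, k21, k22, k23, -, k25, -⟩ := hb
    lia
  · have ha := a.lin; have hb := b.lin
    obtain ⟨-, k12, -, -, -, k16, -⟩ := ha
    obtain ⟨-, k21, -, k23, -⟩ := hb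
    clear this
    refine .inr ?_; lia

theorem sB1 : OutE D.EB (D.a - 2 * D.b + 1) (-2 * D.a - 2 * D.b) := by
  have := D.aux
  refine .rayE fun V _ h => ?_
  rcases h with h | h
  · rcases h with (h | h) | h
    · have := h.lin; lia
    · have := h.lin; lia
    · have := h.lin; lia
  · have := h.lin; lia

theorem sB2 : Ccw (D.a - D.b, -2 * D.a - D.b) (D.wB3 ++ D.wRB) := by
  have := D.aux
  exact ccw_env (Q := (D.a - 2 * D.b, -2 * D.a - 2 * D.b)) (d := 1) D.sB0.1 D.sB0.2 (sMem_edges_right D.arcB3.1 (sMem_edges_left (edge_ea _ 1 (by omega)) _))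
    D.sB1 (by ext <;> simp [dv] <;> omega)

theorem covC1 : Cov (D.a - D.b, -2 * D.a - D.b) D.wC1 (-D.n, D.n - 2 * D.a) D.C1 := by
  have := D.aux
  have h0 := (D.arcB1.p0 (P' := (D.a - D.b, -2 * D.a - D.b)) (Q' := (0, -2 * D.a)) (D.a - 2 * D.b) (-2 * D.a - D.b) (by dsimp only; omega)).cov
  have h1 := (D.arcY.p1 (P' := (0, -2 * D.a)) (Q' := (-D.n, D.n - 2 * D.a)) (D.a - D.n) (D.n - 2 * D.a) (by dsimp only; omega)).cov
  exact h0.append h1

theorem covC0 : Cov (D.n - 2 * D.a, D.n) D.wC0 (D.a - 2 * D.b, -2 * D.a) D.C0 := by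
  have := D.aux
  have h0 := (D.arcO.p1 (P' := (D.n - 2 * D.a, D.n)) (Q' := (-D.a - D.b, D.b - 2 * D.a)) (-D.a - D.n) D.n (by dsimp only; omega)).cov
  have h1 := (D.arcUU.b0 (Q' := (-D.a - D.b, D.b - 2 * D.a)) (P' := (-D.b, -D.a)) (D.a + D.n - 2 * D.b) (D.n - 2 * D.a) (by dsimp only; omega)).cov
  have h2 := (D.arcUU.p1 (P' := (-D.b, -D.a)) (Q' := (D.a - 2 * D.b, -2 * D.a)) (D.a - D.b - D.n) (D.n - D.b) (by dsimp only; omega)).cov
  exact (h0.append h1).append h2

theorem covC2 : Cov (D.n - 2 * D.a, D.n) D.wC2 (D.a - D.b, -2 * D.a - D.b) D.C2 := by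
  have := D.aux
  have h0 := D.covC0
  have h1 := (D.arcQB.p1 (P' := (D.a - 2 * D.b, -2 * D.a)) (Q' := (D.a - 3 * D.b, -2 * D.a - D.b)) (D.a - 2 * D.b) (-2 * D.a - D.b) (by dsimp only; omega)).cov
  have h2 := (D.arcQB.p2 (P' := (D.a - 3 * D.b, -2 * D.a - D.b)) (Q' := (D.a - 2 * D.b, -2 * D.a - 2 * D.b)) (D.a - 2 * D.b) (-2 * D.a - D.b) (by dsimp only; omega)).cov
  have h3 := (D.arcRB).cov
  exact ((h0.append h1).append h2).append h3

theorem eM : D.M = D.Y ++ D.M1 := by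
  have := D.ord
  exact D.C.Z_append (by omega) (by omega)

theorem eO : D.O = back 3 D.Y ++ D.M ++ D.N := by
  have := D.ord
  rw [← D.eX', O, D.C.Z_append (j := D.K) (by omega) (by omega),
    D.C.Z_append (j := D.k - D.s) (by omega) (by omega)]
  rfl

theorem eL : D.L = D.Y ++ D.Q ++ D.O := by
  have := D.ord
  rw [L, D.C.Z_append (j := D.k - 2 * D.s) (by omega) (by omega),
    D.C.Z_append (j := D.k - 2 * D.C.q) (by omega) (by omega),
    ← D.C.Z_per (i' := D.k - D.s) (j' := D.k) (by ring) (by ring)]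
  rfl

theorem eB' : D.wB3 ++ D.wRB = D.wC1 ++ (back 0 (back 1 D.Q) ++ D.wC2) := by
  simp [wB3, wC1, wC2, wC0, qb, wB2, eL, rot_append, back_back]

theorem arcBE : CArc (D.n - 2 * D.a, D.n) D.β (-D.n, D.n - 2 * D.a) D.BE :=
  Simple.rest (D.eB' ▸ D.sB0.1) (back_ne D.π_ne) D.covC2 D.covC1 D.arcIA.back.1

theorem sC0 : Simple (-D.n, D.n - 2 * D.a) (D.α ++ D.β) ∧
    ∀ z ∈ verts (-D.n, D.n - 2 * D.a) (D.α ++ D.β), D.EC z.1 z.2 := by
  have := D.aux
  refine D.arcAL.simple D.arcBE (fun X Y a b => ?_) (by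
    have := length_ea (n := D.a) (by omega)
    simp only [α, wA2, wRA, List.length_append, length_rot, length_back]
    omega)
  show (X = -D.n ∧ Y = D.n - 2 * D.a) ∨ (X = D.n - 2 * D.a ∧ Y = D.n)
  rcases b with b | b
  · rcases b with ((b | b) | b) | b
    · rcases a with a | a
      · have ha := a.lin; have hb := b.lin
        obtain ⟨k1, k2, -, k4, k5, -⟩ := this
        obtain ⟨-, k12, -⟩ := ha
        obtain ⟨k20, -⟩ := hb
        lia
      · rcases b with (b | b) | b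
        · have ha := a.lin; have hb := b.lin
          obtain ⟨k1, k2, k3, k4, k5, -⟩ := this
          obtain ⟨k31, -⟩ := hb
          rcases ha with ⟨k12, -, -, k15, -⟩ | ⟨-, k20, -, k22, k23, -⟩ | ⟨k26, k27, k28, k29⟩
          · rcases k31 with ⟨-, k34, k35, -⟩ | ⟨-, -, k40, -⟩ | ⟨-, -, k47, k48, -⟩
            · refine .inr ?_; lia
            · lia
            · lia
          · rcases k31 with ⟨-, k34, k35, -⟩ | ⟨-, k39, k40, -⟩ | ⟨-, -, -, -, k49, -⟩ <;> lia
          · rcases k31 with ⟨-, k34, -⟩ | ⟨k38, -⟩ | ⟨-, -, k47, k48, -⟩ <;> lia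
        · have ha := a.lin; have hb := b.lin
          obtain ⟨k1, k2, k3, k4, k5, -⟩ := this
          obtain ⟨-, -, k33, -, k35, -, -, k38⟩ := hb
          rcases ha with ⟨-, -, k14, -, k16, -⟩ | ⟨-, k20, -, -, k23, k24⟩ | ⟨k26, -⟩ <;> lia
        · have ha := a.lin; have hb := b.lin
          obtain ⟨k1, -, -, -, k5, k6, -⟩ := this
          obtain ⟨-, -, k33, k34, -, k36, -⟩ := hb
          rcases ha with ⟨-, -, -, k15, -⟩ | ⟨-, k20, -⟩ | ⟨k26, -⟩ <;> lia
    · have ha := a.lin; have hb := b.lin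
      obtain ⟨-, k2, k3, k4, k5, -⟩ := this
      obtain ⟨-, -, -, -, -, k16, -⟩ := ha
      obtain ⟨k20, -, -, -, -, k25, -⟩ := hb
      lia
    · have ha := a.lin; have hb := b.lin
      obtain ⟨-, -, k3, k4, k5, -⟩ := this
      obtain ⟨k11, k12, -, k14, -⟩ := ha
      obtain ⟨k20, -, -, -, -, k25, -⟩ := hb
      lia
    · have ha := a.lin; have hb := b.lin
      obtain ⟨k1, -, -, -, k5, -⟩ := this
      obtain ⟨-, -, -, k14, -, -, -, k18⟩ := ha
      obtain ⟨-, -, k22, -, -, -, k26, -⟩ := hb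
      lia
  · rcases a with a | a
    · rcases b with b | b
      · have ha := a.lin; have hb := b.lin
        obtain ⟨k1, -, -, -, k5, -⟩ := this
        obtain ⟨-, k12, -, k14, -, k16, -⟩ := ha
        obtain ⟨-, -, k22, -, k24, -⟩ := hb
        lia
      · rcases a with (a | a) | a
        · have := D.sP a b (by omega); lia
        · have ha := a.lin; have hb := b.lin
          obtain ⟨k1, k2, -, k4, k5, -⟩ := this
          obtain ⟨-, k12, k13, k14, -⟩ := ha
          obtain ⟨-, k20, -⟩ := hb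
          lia
        · have ha := a.lin; have hb := b.lin
          obtain ⟨k1, k2, -, k4, k5, -⟩ := this
          obtain ⟨-, -, -, k14, -⟩ := ha
          obtain ⟨-, k21, -⟩ := hb
          lia
    · have ha := a.lin; have hb := b.lin
      obtain ⟨k1, k2, k3, k4, k5, -⟩ := this
      obtain ⟨k31, -, k33, -, k35, -⟩ := hb
      rcases ha with ⟨k12, -⟩ | ⟨-, k20, -, k22, k23, -⟩ | ⟨k26, -, k28, -⟩ <;> lia

theorem sC1 : OutE D.EC (D.a - 2 * D.b + 1) (-2 * D.a - 2 * D.b) := by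
  have := D.aux
  refine .rayE fun V _ h => ?_
  rcases h with h | h
  · have := h.lin; lia
  · rcases h with h | h
    · rcases h with ((h | h) | h) | h
      · have := h.lin; lia
      · have := h.lin; lia
      · have := h.lin; lia
      · have := h.lin; lia
    · have := h.lin; lia

theorem sC2 : Ccw (-D.n, D.n - 2 * D.a) (D.α ++ D.β) := by
  have := D.aux
  exact ccw_env (Q := (D.a - 2 * D.b, -2 * D.a - 2 * D.b)) (d := 1) D.sC0.1 D.sC0.2 (sMem_edges_right D.arcAL.1 (sMem_edges_left (sMem_edges_right ((D.covC0.append (D.arcQB.p1 (P' := (D.a - 2 * D.b, -2 * D.a)) (Q' := (D.a - 3 * D.b, -2 * D.a - D.b)) (D.a - 2 * D.b) (-2 * D.a - D.b) (by dsimp only; omega)).cov).append (D.arcQB.p2 (P' := (D.a - 3 * D.b, -2 * D.a - D.b)) (Q' := (D.a - 2 * D.b, -2 * D.a - 2 * D.b)) (D.a - 2 * D.b) (-2 * D.a - D.b) (by dsimp only; omega)).cov).1 (sMem_edges_left (edge_ea _ 1 (by omega)) _)) _))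
    D.sC1 (by ext <;> simp [dv] <;> omega)

end QP

end NP
end Pool.Agent.Lib.MP_4a7072_co
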