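import Pool.Agent.Lib.MP_4a7072_co.QNetA

/-!
The second design: words and envelopes.
-/

set_option autoImplicit false
set_option linter.unnecessarySeqFocus false
set_option linter.unusedSimpArgs false
set_option linter.unusedVariables false
set_option linter.unreachableTactic false
set_option linter.unusedTactic false

namespace Pool.Agent.Lib.MP_4a7072_co
namespace NP

/-- The data of the design. -/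
structure QQ extends QA where
  b : ℤ
  g : ℤ
  f : ℤ
  γ : ℤ
  K : ℤ
  δ : ℤ
  aux1 : b = a - n + 2 * g + 2 * f ∧ 2 * a ≤ g ∧ (f = 0 ∨ f = a)
  hγ : toQA.Sh γ g
  hδ : toQA.Sh δ (b - a + n)
  hK : 2 * C.q ≤ γ ∧ ((f = a ∧ K = -γ ∧ δ = 2 * γ + 2 * C.q) ∨ (f = 0 ∧ K = k - γ ∧ δ = 2 * γ))


namespace QQ

variable (D : QQ)

open QA

theorem aux : 0 < D.n ∧ 0 ≤ D.t ∧ D.t < D.n ∧ 2 * D.n + 2 * D.t < D.a ∧ D.b = D.a - D.n + 2 * D.g + 2 * D.f ∧ 2 * D.a ≤ D.g ∧ (D.f = 0 ∨ D.f = D.a) := by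
  obtain ⟨h1, h2, h3, h4⟩ := D.aux0
  exact ⟨h1, h2, h3, h4, D.aux1⟩

theorem ord : 0 < D.s ∧ 2 * D.s < D.k ∧ D.k < D.C.q ∧ D.K < D.k - 2 * D.s ∧ D.C.q - D.δ < D.K := by
  have := D.ord0
  have := D.hK
  omega

theorem hδ2 : D.Sh (D.δ + 2 * D.C.q) (D.b + D.a + D.n) := D.hδ.add sh1 rfl (by ring)

theorem wK : D.C.w D.K = (-D.g, D.a - D.f - D.g) := by
  rcases D.hK.2 with h | h
  · exact D.hγ.pt' (l := 0) (by omega) D.C.w0 (by omega) (by omega)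
  · exact D.hγ.pt' (by omega) D.wk (by omega) (by omega)

theorem wB : D.C.w (D.C.q - D.δ) = (D.a - D.b - D.n, 3 * D.a - D.b - D.n) :=
  D.hδ.pt' (by ring) D.wq (by ring) (by ring)

theorem wBT : D.C.w (-D.δ - D.C.q) = (-D.a - D.b - D.n, D.a - D.b - D.n) :=
  D.hδ2.pt' (by ring) D.wq (by ring) (by ring)

/-- A part of the curve. -/
def M : List Dir := D.C.Z D.K (D.k - D.s)

/-- The points of a part of the curve. -/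
def PM (X Y : ℤ) : Prop := D.C.On D.K (D.k - D.s) X Y

variable {D} in
theorem PM.on {X Y : ℤ} (h : D.PM X Y) : D.C.On D.K (D.k - D.s) X Y := h

theorem arcM : CArc (-D.g, D.a - D.f - D.g) D.M (-D.n, D.a - D.n) D.PM :=
  (D.C.arc (by have := D.ord; omega)).mv D.wK D.wJ fun _ _ h => h

variable {D} in
theorem PM.lin {X Y : ℤ} (h : D.PM X Y) :
    ((-D.n ≤ X ∧ X ≤ 0 ∧ 0 ≤ Y ∧ Y ≤ D.a - D.n) ∨ (-D.n ≤ Y - X ∧ Y - X ≤ 2 * D.a ∧ X ≤ 0 ∧ Y ≤ D.t ∧ (Y ≤ 0 ∨ X + Y ≤ -D.a))) ∧ ((D.f = D.a ∧ ((-D.n ≤ (X + D.g) ∧ (X + D.g) ≤ 0 ∧ 0 ≤ (Y + D.g) ∧ (Y + D.g) ≤ D.a) ∨ (D.a ≤ (X + D.g) + (Y + D.g) ∧ (X + D.g) + (Y + D.g) ≤ 2 * D.a ∧ D.a ≤ (Y + D.g) - (X + D.g) ∧ (Y + D.g) - (X + D.g) ≤ 2 * D.a ∧ -D.n - D.t ≤ (X + D.g) ∧ (X + D.g) ≤ D.t) ∨ (-D.n ≤ (Y + D.g) - (X + D.g) ∧ (Y + D.g) - (X + D.g) ≤ 2 * D.a ∧ 0 ≤ (X + D.g)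 ∧ 2 * D.a - D.n - D.t ≤ (Y + D.g) ∧ 2 * D.a ≤ (X + D.g) + (Y + D.g) ∧ (2 * D.a - D.n ≤ (Y + D.g) ∨ (X + D.g) - (Y + D.g) ≤ -D.a)))) ∨ (D.f = 0 ∧ ((D.a ≤ (X + D.g) + (Y + D.g) ∧ (X + D.g) + (Y + D.g) ≤ 2 * D.a ∧ D.a ≤ (Y + D.g) - (X + D.g) ∧ (Y + D.g) - (X + D.g) ≤ 2 * D.a ∧ -D.n - D.t ≤ (X + D.g) ∧ (X + D.g) ≤ D.t) ∨ (-D.n ≤ (Y + D.g) - (X + D.g) ∧ (Y + D.g) - (X + D.g) ≤ 2 * D.a ∧ 0 ≤ (X + D.g) ∧ 2 * D.a - D.n - D.t ≤ (Y + D.g) ∧ 2 * D.a ≤ (X + D.g) + (Y + D.g) ∧ (2 * D.a - D.n ≤ (Y + D.g) ∨ (X + D.g) - (Y + D.g) ≤ -D.a))))) := by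
  refine ⟨onBJ h le_rfl, D.hK.2.imp (fun e => ⟨e.1, ?_⟩) fun e => ⟨e.1, ?_⟩⟩
  · exact onF0 (D.hγ.plus h) (by omega)
  · exact onFK (D.hγ.plus h) (by omega)

/-- A part of the curve. -/
def N : List Dir := D.C.Z (D.C.q - D.δ) D.K

/-- The points of a part of the curve. -/
def PN (X Y : ℤ) : Prop := D.C.On (D.C.q - D.δ) D.K X Y

variable {D} in
theorem PN.on {X Y : ℤ} (h : D.PN X Y) : D.C.On (D.C.q - D.δ) D.K X Y := h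

theorem arcN : CArc (D.a - D.b - D.n, 3 * D.a - D.b - D.n) D.N (-D.g, D.a - D.f - D.g) D.PN :=
  (D.C.arc (by have := D.ord; omega)).mv D.wB D.wK fun _ _ h => h

variable {D} in
theorem PN.lin {X Y : ℤ} (h : D.PN X Y) :
    ((D.f = D.a ∧ -D.n ≤ (Y + D.g) - (X + D.g) ∧ (Y + D.g) - (X + D.g) ≤ 2 * D.a ∧ (X + D.g) ≤ 0 ∧ (Y + D.g) ≤ D.t ∧ ((Y + D.g) ≤ 0 ∨ (X + D.g) + (Y + D.g) ≤ -D.a)) ∨ (D.f = 0 ∧ ((-D.n ≤ (X + D.g) ∧ (X + D.g) ≤ 0 ∧ 0 ≤ (Y + D.g) ∧ (Y + D.g) ≤ D.a) ∨ (-D.n ≤ (Y + D.g) - (X + D.g) ∧ (Y + D.g) - (X + D.g) ≤ 2 * D.a ∧ (X + D.g) ≤ 0 ∧ (Y + D.g) ≤ D.t ∧ ((Y + D.g) ≤ 0 ∨ (X + D.g) + (Y + D.g) ≤ -D.a))))) ∧ (-D.n ≤ (Y + (D.b - D.a + D.n)) - (X + (D.b - D.a + D.n)) ∧ (Y + (D.b - D.a + D.n)) - (X + (D.b - D.a + D.n)) ≤ 2 * D.a ∧ 0 ≤ (X + (D.b - D.a + D.n)) ∧ 2 * D.a - D.n - D.t ≤ (Y + (D.b -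 D.a + D.n)) ∧ 2 * D.a ≤ (X + (D.b - D.a + D.n)) + (Y + (D.b - D.a + D.n)) ∧ (2 * D.a - D.n ≤ (Y + (D.b - D.a + D.n)) ∨ (X + (D.b - D.a + D.n)) - (Y + (D.b - D.a + D.n)) ≤ -D.a)) := by
  refine ⟨D.hK.2.imp (fun e => ⟨e.1, ?_⟩) fun e => ⟨e.1, ?_⟩, onFQ (D.hδ.plus h) (by omega)⟩
  · exact onB0 (D.hγ.plus h) (by omega)
  · exact onBK (D.hγ.plus h) (by omega)

/-- A part of the curve. -/
def L : List Dir := D.C.Z (-D.δ - D.C.q) (D.k - D.s)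

/-- The points of a part of the curve. -/
def PL (X Y : ℤ) : Prop := D.C.On (-D.δ - D.C.q) (D.k - D.s) X Y

variable {D} in
theorem PL.on {X Y : ℤ} (h : D.PL X Y) : D.C.On (-D.δ - D.C.q) (D.k - D.s) X Y := h

theorem arcL : CArc (-D.a - D.b - D.n, D.a - D.b - D.n) D.L (-D.n, D.a - D.n) D.PL :=
  (D.C.arc (by have := D.ord; omega)).mv D.wBT D.wJ fun _ _ h => h

variable {D} in
theorem PL.lin {X Y : ℤ} (h : D.PL X Y) :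
    ((-D.n ≤ X ∧ X ≤ 0 ∧ 0 ≤ Y ∧ Y ≤ D.a - D.n) ∨ (-D.n ≤ Y - X ∧ Y - X ≤ 2 * D.a ∧ X ≤ 0 ∧ Y ≤ D.t ∧ (Y ≤ 0 ∨ X + Y ≤ -D.a))) ∧ (-D.n ≤ (Y + (D.b + D.a + D.n)) - (X + (D.b + D.a + D.n)) ∧ (Y + (D.b + D.a + D.n)) - (X + (D.b + D.a + D.n)) ≤ 2 * D.a ∧ 0 ≤ (X + (D.b + D.a + D.n)) ∧ 2 * D.a - D.n - D.t ≤ (Y + (D.b + D.a + D.n)) ∧ 2 * D.a ≤ (X + (D.b + D.a + D.n)) + (Y + (D.b + D.a + D.n)) ∧ (2 * D.a - D.n ≤ (Y + (D.b + D.a + D.n)) ∨ (X + (D.b + D.a + D.n)) - (Y + (D.b + D.a + D.n)) ≤ -D.a)) := by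
  exact ⟨onBJ h le_rfl, onFQ (D.hδ2.plus h) (by omega)⟩

/-- A part of the curve. -/
def O : List Dir := D.C.Z (-D.δ - D.C.q) (D.k - 2 * D.C.q)

/-- The points of a part of the curve. -/
def PO (X Y : ℤ) : Prop := D.C.On (-D.δ - D.C.q) (D.k - 2 * D.C.q) X Y

variable {D} in
theorem PO.on {X Y : ℤ} (h : D.PO X Y) : D.C.On (-D.δ - D.C.q) (D.k - 2 * D.C.q) X Y := h

theorem arcO : CArc (-D.a - D.b - D.n, D.a - D.b - D.n) D.O (-2 * D.a, -D.a) D.PO :=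
  (D.C.arc (by have := D.ord; omega)).mv D.wBT D.wpT fun _ _ h => h

variable {D} in
theorem PO.lin {X Y : ℤ} (h : D.PO X Y) :
    ((-D.n ≤ (X + 2 * D.a) ∧ (X + 2 * D.a) ≤ 0 ∧ 0 ≤ (Y + 2 * D.a) ∧ (Y + 2 * D.a) ≤ D.a) ∨ (-D.n ≤ (Y + 2 * D.a) - (X + 2 * D.a) ∧ (Y + 2 * D.a) - (X + 2 * D.a) ≤ 2 * D.a ∧ (X + 2 * D.a) ≤ 0 ∧ (Y + 2 * D.a) ≤ D.t ∧ ((Y + 2 * D.a) ≤ 0 ∨ (X + 2 * D.a) + (Y + 2 * D.a) ≤ -D.a))) ∧ (-D.n ≤ (Y + (D.b + D.a + D.n)) - (X + (D.b + D.a + D.n)) ∧ (Y + (D.b + D.a + D.n)) - (X + (D.b + D.a + D.n)) ≤ 2 * D.a ∧ 0 ≤ (X + (D.b + D.a + D.n)) ∧ 2 * D.a - D.n - D.t ≤ (Y + (D.b + D.a + D.n)) ∧ 2 * D.a ≤ (X + (D.b + D.a + D.n)) + (Y + (D.b + D.a + D.n)) ∧ (2 * D.a - D.n ≤ (Y + (D.b + D.a + D.n)) ∨ (X + (D.b + D.a + D.n)) - (Y + (D.b + D.a + D.n)) ≤ -D.a)) := by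
  exact ⟨onBK (sh1.plus h) (by omega), onFQ (D.hδ2.plus h) (by omega)⟩

/-- A part of the curve. -/
def M1 : List Dir := D.C.Z D.K (D.k - 2 * D.s)

/-- A part of the curve. -/
def T : List Dir := D.C.Z (-D.δ) (D.C.q - D.δ)

/-- The leg. -/
def S : List Dir := nw (D.b + D.n - D.a - D.f - D.g) (D.g - D.n)

/-- The points of a path. -/
def Ls (X Y : ℤ) : Prop := (X = 0 ∧ 0 ≤ Y ∧ Y ≤ D.b + D.n - D.a - D.f - D.g) ∨ (Y = D.b + D.n - D.a - D.f - D.g ∧ D.n - D.g ≤ X ∧ X ≤ 0)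

variable {D} in
theorem Ls.lin {X Y : ℤ} (h : D.Ls X Y) : (X = 0 ∧ 0 ≤ Y ∧ Y ≤ D.b + D.n - D.a - D.f - D.g) ∨ (Y = D.b + D.n - D.a - D.f - D.g ∧ D.n - D.g ≤ X ∧ X ≤ 0) := h

theorem arcLs : CArc (0, 0) D.S (D.n - D.g, D.b + D.n - D.a - D.f - D.g) D.Ls := by
  have := D.aux
  exact nw_arc (by omega) (by omega) (by omega)

/-- The points of a path. -/
def Lb (X Y : ℤ) : Prop := 0 ≤ X ∧ X ≤ D.b ∧ Y = 0

variable {D} in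
theorem Lb.lin {X Y : ℤ} (h : D.Lb X Y) : 0 ≤ X ∧ X ≤ D.b ∧ Y = 0 := h

theorem arcLb : CArc (0, 0) (ea D.b) (D.b, 0) D.Lb := by
  have := D.aux
  exact ea_arc (by omega)

theorem sNN {X1 Y1 X2 Y2 : ℤ} (a : D.PN X1 Y1) (b : D.PN X2 Y2)
    (e : X2 = 4 * D.a - 2 * D.b - 2 * D.n - Y1 ∧ Y2 = 2 * D.a + X1) :
    X1 = D.a - D.b - D.n ∧ Y1 = 3 * D.a - D.b - D.n := by
  have := sV2 (D.hδ.plus a) (D.hδ.plus b) (by omega) (by omega) (by omega)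
  omega

theorem sNL {j X1 Y1 X2 Y2 : ℤ} (a : D.PN X1 Y1) (b : D.C.On (-D.δ - D.C.q) j X2 Y2)
    (e : X2 = 2 * D.a - 2 * D.b - 2 * D.n - Y1 ∧ Y2 = X1) :
    X1 = D.a - D.b - D.n ∧ Y1 = 3 * D.a - D.b - D.n := by
  have := sV2 (D.hδ.plus a) (D.hδ2.plus b) (by omega) (by omega) (by omega)
  omega

theorem sH {i i' X1 Y1 X2 Y2 : ℤ} (a : D.C.On i (D.k - D.s) X1 Y1) (b : D.C.On i' (D.k - D.s) X2 Y2)
    (e : X2 = D.a - 2 * D.n - Y1 ∧ Y2 = D.a + X1) :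
    X1 = -D.n ∧ Y1 = D.a - D.n := by
  exact sH2 a b le_rfl le_rfl (by omega)

theorem sP {X1 Y1 X2 Y2 : ℤ} (a : D.PQ X1 Y1) (b : D.PO X2 Y2)
    (e : X2 = -D.a - 2 * D.n - Y1 ∧ Y2 = X1 - D.a) :
    X2 = -2 * D.a ∧ Y2 = -D.a := by
  have := sP0 a (sh1.plus b) le_rfl (by omega) (by omega)
  omega

/-- A part of a boundary: its points. -/
def UU (X Y : ℤ) : Prop :=
  D.PN X Y ∨
    D.Ls (X - (-D.n)) (Y - (2 * D.a - D.b - D.n))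

/-- A part of a boundary: its word. -/
def wU : List Dir :=
  D.N ++ back 0 D.S

variable {D} in
theorem UU.lin {X Y : ℤ} (h : D.UU X Y) :
    X ≤ -D.n ∧ -X ≤ D.b + D.n - D.a ∧ Y ≤ D.a - D.g ∧ -Y ≤ D.b + D.n - 2 * D.a ∧ X + Y ≤ D.a - D.f - D.g - D.n ∧ -X - Y ≤ 2 * D.b + 2 * D.n - 4 * D.a ∧ Y - X ≤ 2 * D.a ∧ X - Y ≤ D.b - 2 * D.a := by
  have := D.aux
  rcases h with h | h
  · have := h.lin; omega
  · have := h.lin; omega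

/-- A part of a boundary: its points. -/
def SX (X Y : ℤ) : Prop :=
  D.Ls (X - (-D.n)) (Y - (2 * D.a - D.b - D.n)) ∨
    D.PM X Y

/-- A part of a boundary: its word. -/
def wS : List Dir :=
  D.S ++ D.M

variable {D} in
theorem SX.lin {X Y : ℤ} (h : D.SX X Y) :
    X ≤ 0 ∧ -X ≤ D.g + D.n + D.t ∧ Y ≤ D.a - D.n ∧ -Y ≤ D.b + D.n - 2 * D.a ∧ X + Y ≤ D.a - D.n ∧ -X - Y ≤ D.b + 2 * D.n - 2 * D.a ∧ Y - X ≤ 2 * D.a ∧ X - Y ≤ D.b - 2 * D.a := by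
  have := D.aux
  rcases h with h | h
  · have := h.lin; omega
  · have := h.lin; omega

/-- A part of a boundary: its points. -/
def B1 (X Y : ℤ) : Prop :=
  (D.UU (Y - (D.b + D.n - D.a)) ((3 * D.a - D.n) - X) ∨
    D.UU ((D.a + D.b - D.n) - X) ((D.a - D.n) - Y)) ∨
    D.PL (Y - (2 * D.b + D.n - D.a)) ((D.a + D.b - D.n) - X)

/-- A part of a boundary: its word. -/
def wB1 : List Dir :=
  rot 1 D.wU ++ back 2 D.wU ++ rot 1 D.L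

variable {D} in
theorem B1.lin {X Y : ℤ} (h : D.B1 X Y) :
    X ≤ 2 * D.b + D.n + D.t ∧ -X ≤ D.n - 2 * D.a - D.g ∧ Y ≤ 2 * D.b + D.n - D.a ∧ -Y ≤ 0 ∧ X + Y ≤ 3 * D.b + D.n ∧ -X - Y ≤ -D.b ∧ Y - X ≤ D.b + D.n - D.a ∧ X - Y ≤ 2 * D.a + D.b := by
  have := D.aux
  rcases h with (h | h) | h
  · have := h.lin; omega
  · have := h.lin; omega
  · have := h.lin; omega

/-- A part of a boundary: its points. -/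
def B2 (X Y : ℤ) : Prop :=
  ((D.SX (X - (D.b + D.n)) (Y - (2 * D.b + D.n - 2 * D.a)) ∨
    D.SX (Y - (D.b + D.n)) ((2 * D.a - D.n) - X)) ∨
    D.SX ((D.a - D.n) - X) ((D.a + D.b - D.n) - Y)) ∨
    D.UU (Y - (2 * D.b + D.n - D.a)) ((3 * D.a - D.b - D.n) - X)

/-- A part of a boundary: its word. -/
def wB2 : List Dir :=
  back 0 D.wS ++ rot 1 D.wS ++ back 2 D.wS ++ back 1 D.wU

variable {D} in
theorem B2.lin {X Y : ℤ} (h : D.B2 X Y) :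
    X ≤ D.b + D.n ∧ -X ≤ D.b + D.n - 2 * D.a - D.g ∧ Y ≤ 2 * D.b - D.a ∧ -Y ≤ D.g + D.t - D.b ∧ X + Y ≤ 3 * D.b + D.n - D.a ∧ -X - Y ≤ -D.b ∧ Y - X ≤ 3 * D.b + D.n - 3 * D.a - D.f - D.g ∧ X - Y ≤ 0 := by
  have := D.aux
  rcases h with ((h | h) | h) | h
  · have := h.lin; omega
  · have := h.lin; omega
  · have := h.lin; omega
  · have := h.lin; omega

/-- A part of a boundary: its points. -/
def QB (X Y : ℤ) : Prop :=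
  D.B1 X Y ∨
    D.B2 X Y

/-- A part of a boundary: its word. -/
def qb : List Dir :=
  D.wB1 ++ D.wB2

variable {D} in
theorem QB.lin {X Y : ℤ} (h : D.QB X Y) :
    X ≤ 2 * D.b + D.n + D.t ∧ -X ≤ D.b + D.n - 2 * D.a - D.g ∧ Y ≤ 2 * D.b + D.n - D.a ∧ -Y ≤ 0 ∧ X + Y ≤ 3 * D.b + D.n ∧ -X - Y ≤ -D.b ∧ Y - X ≤ 3 * D.b + D.n - 3 * D.a - D.f - D.g ∧ X - Y ≤ 2 * D.a + D.b := by
  have := D.aux
  rcases h with h | h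
  · have := h.lin; omega
  · have := h.lin; omega

/-- A part of a boundary: its points. -/
def B3 (X Y : ℤ) : Prop :=
  (D.QB (X - (-2 * D.a - D.b)) (Y - (D.a - 2 * D.b)) ∨
    D.QB (Y - (D.a - 2 * D.b)) ((-2 * D.a - D.b) - X)) ∨
    D.QB ((-2 * D.a - D.b) - X) ((D.a - 2 * D.b) - Y)

/-- A part of a boundary: its word. -/
def wB3 : List Dir :=
  D.qb ++ rot 1 D.qb ++ rot 2 D.qb

variable {D} in
theorem B3.lin {X Y : ℤ} (h : D.B3 X Y) :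
    X ≤ D.b + D.n + D.t - 2 * D.a ∧ -X ≤ 2 * D.a + 3 * D.b + D.n + D.t ∧ Y ≤ D.a + D.n + D.t ∧ -Y ≤ 4 * D.b + D.n - 2 * D.a ∧ X + Y ≤ D.n - D.a ∧ -X - Y ≤ D.a + 6 * D.b + D.n ∧ Y - X ≤ 3 * D.a + 2 * D.b + D.n ∧ X - Y ≤ 4 * D.b + D.n - 6 * D.a - D.f - D.g := by
  have := D.aux
  rcases h with (h | h) | h
  · have := h.lin; omega
  · have := h.lin; omega
  · have := h.lin; omega

/-- A part of a boundary: its points. -/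
def RB (X Y : ℤ) : Prop :=
  D.Lb (Y - (D.a - 3 * D.b)) ((-2 * D.a - D.b) - X) ∨
    D.Lb ((-2 * D.a) - X) ((D.a - 2 * D.b) - Y)

/-- A part of a boundary: its word. -/
def wRB : List Dir :=
  rot 1 (ea D.b) ++ back 2 (ea D.b)

variable {D} in
theorem RB.lin {X Y : ℤ} (h : D.RB X Y) :
    X ≤ -2 * D.a ∧ -X ≤ 2 * D.a + D.b ∧ Y ≤ D.a - 2 * D.b ∧ -Y ≤ 3 * D.b - D.a ∧ X + Y ≤ -D.a - 2 * D.b ∧ -X - Y ≤ D.a + 4 * D.b ∧ Y - X ≤ 3 * D.a - D.b ∧ X - Y ≤ 2 * D.b - 3 * D.a := by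
  have := D.aux
  rcases h with h | h
  · have := h.lin; omega
  · have := h.lin; omega

/-- A part of a boundary: its points. -/
def C1 (X Y : ℤ) : Prop :=
  (D.UU (Y - (D.n - D.b)) ((D.a - D.b - D.n) - X) ∨
    D.UU ((-D.a - D.n) - X) ((2 * D.a - 2 * D.b - D.n) - Y)) ∨
    D.PO (Y - D.n) ((-D.a - D.n) - X)

/-- A part of a boundary: its word. -/
def wC1 : List Dir :=
  rot 1 D.wU ++ back 2 D.wU ++ rot 1 D.O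

variable {D} in
theorem C1.lin {X Y : ℤ} (h : D.C1 X Y) :
    X ≤ D.b + D.n + D.t - 2 * D.a ∧ -X ≤ D.b + D.n - D.g ∧ Y ≤ D.n - 2 * D.a ∧ -Y ≤ 2 * D.b - D.a ∧ X + Y ≤ D.n - D.a ∧ -X - Y ≤ D.a + 2 * D.b ∧ Y - X ≤ 2 * D.n - 2 * D.a ∧ X - Y ≤ 2 * D.b - D.a := by
  have := D.aux
  rcases h with (h | h) | h
  · have := h.lin; omega
  · have := h.lin; omega
  · have := h.lin; omega

/-- A part of a boundary: its points. -/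
def C0 (X Y : ℤ) : Prop :=
  D.PX (Y - D.n) ((-D.a - D.n) - X) ∨
    D.B2 (X - (-2 * D.a - D.b)) (Y - (D.a - 2 * D.b))

/-- A part of a boundary: its word. -/
def wC0 : List Dir :=
  rot 1 D.X ++ D.wB2

variable {D} in
theorem C0.lin {X Y : ℤ} (h : D.C0 X Y) :
    X ≤ D.n - 2 * D.a ∧ -X ≤ 2 * D.b + D.n - D.g ∧ Y ≤ D.n ∧ -Y ≤ D.b + D.g + D.t - D.a ∧ X + Y ≤ 2 * D.n - 2 * D.a ∧ -X - Y ≤ D.a + 2 * D.b ∧ Y - X ≤ 2 * D.b + D.n - D.f - D.g ∧ X - Y ≤ D.b - 3 * D.a := by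
  have := D.aux
  rcases h with h | h
  · have := h.lin; omega
  · have := h.lin; omega

/-- A part of a boundary: its points. -/
def C2 (X Y : ℤ) : Prop :=
  ((D.C0 X Y ∨
    D.QB (Y - (D.a - 2 * D.b)) ((-2 * D.a - D.b) - X)) ∨
    D.QB ((-2 * D.a - D.b) - X) ((D.a - 2 * D.b) - Y)) ∨
    D.RB X Y

/-- A part of a boundary: its word. -/
def wC2 : List Dir :=
  D.wC0 ++ rot 1 D.qb ++ rot 2 D.qb ++ D.wRB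

variable {D} in
theorem C2.lin {X Y : ℤ} (h : D.C2 X Y) :
    X ≤ D.n - 2 * D.a ∧ -X ≤ 2 * D.a + 3 * D.b + D.n + D.t ∧ Y ≤ D.a + D.n + D.t ∧ -Y ≤ 4 * D.b + D.n - 2 * D.a ∧ X + Y ≤ 2 * D.n - 2 * D.a ∧ -X - Y ≤ D.a + 6 * D.b + D.n ∧ Y - X ≤ 3 * D.a + 2 * D.b + D.n ∧ X - Y ≤ 4 * D.b + D.n - 6 * D.a - D.f - D.g := by
  have := D.aux
  rcases h with ((h | h) | h) | h
  · have := h.lin; omega
  · have := h.lin; omega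
  · have := h.lin; omega
  · have := h.lin; omega

/-- A part of a boundary: its points. -/
def BE (X Y : ℤ) : Prop :=
  D.C2 X Y ∨
    D.C1 X Y

/-- A part of a boundary: its word. -/
def β : List Dir :=
  D.wC2 ++ D.wC1

variable {D} in
theorem BE.lin {X Y : ℤ} (h : D.BE X Y) :
    X ≤ D.b + D.n + D.t - 2 * D.a ∧ -X ≤ 2 * D.a + 3 * D.b + D.n + D.t ∧ Y ≤ D.a + D.n + D.t ∧ -Y ≤ 4 * D.b + D.n - 2 * D.a ∧ X + Y ≤ D.n - D.a ∧ -X - Y ≤ D.a + 6 * D.b + D.n ∧ Y - X ≤ 3 * D.a + 2 * D.b + D.n ∧ X - Y ≤ 4 * D.b + D.n - 6 * D.a - D.f - D.g := by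
  have := D.aux
  rcases h with h | h
  · have := h.lin; omega
  · have := h.lin; omega

/-- A part of a boundary: its points. -/
def EB (X Y : ℤ) : Prop :=
  D.B3 X Y ∨
    D.RB X Y

variable {D} in
theorem EB.lin {X Y : ℤ} (h : D.EB X Y) :
    X ≤ D.b + D.n + D.t - 2 * D.a ∧ -X ≤ 2 * D.a + 3 * D.b + D.n + D.t ∧ Y ≤ D.a + D.n + D.t ∧ -Y ≤ 4 * D.b + D.n - 2 * D.a ∧ X + Y ≤ D.n - D.a ∧ -X - Y ≤ D.a + 6 * D.b + D.n ∧ Y - X ≤ 3 * D.a + 2 * D.b + D.n ∧ X - Y ≤ 4 * D.b + D.n - 6 * D.a - D.f - D.g := by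
  have := D.aux
  rcases h with h | h
  · have := h.lin; omega
  · have := h.lin; omega

/-- A part of a boundary: its points. -/
def EC (X Y : ℤ) : Prop :=
  D.AL X Y ∨
    D.BE X Y

variable {D} in
theorem EC.lin {X Y : ℤ} (h : D.EC X Y) :
    X ≤ D.b + D.n + D.t - 2 * D.a ∧ -X ≤ 2 * D.a + 3 * D.b + D.n + D.t ∧ Y ≤ D.a + D.n + D.t ∧ -Y ≤ 4 * D.b + D.n - 2 * D.a ∧ X + Y ≤ 2 * D.a - D.n - 1 ∧ -X - Y ≤ D.a + 6 * D.b + D.n ∧ Y - X ≤ 3 * D.a + 2 * D.b + D.n ∧ X - Y ≤ 4 * D.b + D.n - 6 * D.a - D.f - D.g := by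
  have := D.aux
  rcases h with h | h
  · have := h.lin; omega
  · have := h.lin; omega

/-- The marked points. -/
def KB : List Pt :=
  [(-2 * D.a - D.b, D.a - 3 * D.b), (-2 * D.a - D.b, D.a - 2 * D.b), (-2 * D.a, D.a - 2 * D.b), (-2 * D.a - D.b, D.a - D.b), (-2 * D.a - 2 * D.b, D.a - 2 * D.b), (D.b - 2 * D.a, D.a - D.b), (-2 * D.a - 2 * D.b, D.a), (-2 * D.a - 3 * D.b, D.a - 3 * D.b), (-2 * D.a, D.a - D.b), (-2 * D.a - 2 * D.b, D.a - D.b), (-2 * D.a - 2 * D.b, D.a - 3 * D.b), (-2 * D.a, D.a - D.b), (-2 * D.a - 2 * D.b, D.a - D.b), (-2 * D.a - 2 * D.b, D.a - 3 * D.b)]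

/-- The marked points. -/
def KC : List Pt :=
  [(0, 0), (-D.a - D.b, D.a - D.b), (-D.a - 2 * D.b, 2 * D.a - D.b), (-2 * D.a - 2 * D.b, 2 * D.a - 2 * D.b), (-3 * D.a - 2 * D.b, 2 * D.a - 3 * D.b), (-3 * D.a - D.b, D.a - 3 * D.b), (-2 * D.a - D.b, D.a - 2 * D.b), (-D.a, -D.b)]

end QQ

end NP
end Pool.Agent.Lib.MP_4a7072_co
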