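import Pool.Agent.Lib.MP_4a7072_co.QQDefs

/-!
The boundaries of the second design are simple closed paths.
-/

set_option autoImplicit false
set_option linter.unnecessarySeqFocus false
set_option linter.unusedSimpArgs false
set_option linter.unusedVariables false
set_option linter.unreachableTactic false
set_option linter.unusedTactic false

namespace Pool.Agent.Lib.MP_4a7072_co
namespace NP


namespace QQ

variable (D : QQ)

open QA

theorem arcUU : CArc (D.a - D.b - D.n, 3 * D.a - D.b - D.n) D.wU (-D.n, 2 * D.a - D.b - D.n) D.UU := by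
  have := D.aux
  have h0 := D.arcN
  have h1 := D.arcLs.b0 (Q' := (-D.g, D.a - D.f - D.g)) (P' := (-D.n, 2 * D.a - D.b - D.n)) (-D.n) (2 * D.a - D.b - D.n) (by dsimp only; omega)
  refine h0.append h1 ?_
  · intro X Y a b
    show X = -D.g ∧ Y = D.a - D.f - D.g
    have := a.lin; have := b.lin; omega

theorem arcSX : CArc (-D.n, 2 * D.a - D.b - D.n) D.wS (-D.n, D.a - D.n) D.SX := by
  have := D.aux
  have h0 := D.arcLs.p0 (P' := (-D.n, 2 * D.a - D.b - D.n)) (Q' := (-D.g, D.a - D.f - D.g)) (-D.n) (2 * D.a - D.b - D.n) (by dsimp only; omega)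
  have h1 := D.arcM
  refine h0.append h1 ?_
  · intro X Y a b
    show X = -D.g ∧ Y = D.a - D.f - D.g
    have := a.lin; have := b.lin; omega

theorem arcB1 : CArc (D.b, 0) D.wB1 (D.b, 2 * D.b - D.a) D.B1 := by
  have := D.aux
  have h0 := D.arcUU.p1 (P' := (D.b, 0)) (Q' := (D.a + D.b, D.b - D.a)) (3 * D.a - D.n) (D.b + D.n - D.a) (by dsimp only; omega)
  have h1 := D.arcUU.b2 (Q' := (D.a + D.b, D.b - D.a)) (P' := (2 * D.b, D.b - 2 * D.a)) (D.a + D.b - D.n) (D.a - D.n) (by dsimp only; omega)
  have h2 := D.arcL.p1 (P' := (2 * D.b, D.b - 2 * D.a)) (Q' := (D.b, 2 * D.b - D.a)) (D.a + D.b - D.n) (2 * D.b + D.n - D.a) (by dsimp only; omega)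
  refine (h0.append h1 ?_).append h2 ?_
  · intro X Y a b
    show X = D.a + D.b ∧ Y = D.b - D.a
    rcases a with a | a
    · have := a.lin; have := b.lin; omega
    · have := a.lin; have := b.lin; omega
  · intro X Y a b
    show X = 2 * D.b ∧ Y = D.b - 2 * D.a
    rcases a with a | a
    · have := a.lin; have := b.lin; omega
    · rcases a with a | a
      · have := D.sNL a b.on (by omega); omega
      · have := a.lin; have := b.lin; omega

theorem arcB2 : CArc (D.b, 2 * D.b - D.a) D.wB2 (0, D.b) D.B2 := by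
  have := D.aux
  have h0 := D.arcSX.b0 (Q' := (D.b, 2 * D.b - D.a)) (P' := (D.b, D.b)) (D.b + D.n) (2 * D.b + D.n - 2 * D.a) (by dsimp only; omega)
  have h1 := D.arcSX.p1 (P' := (D.b, D.b)) (Q' := (D.a, D.b)) (2 * D.a - D.n) (D.b + D.n) (by dsimp only; omega)
  have h2 := D.arcSX.b2 (Q' := (D.a, D.b)) (P' := (D.a, 2 * D.b - D.a)) (D.a - D.n) (D.a + D.b - D.n) (by dsimp only; omega)
  have h3 := D.arcUU.b1 (Q' := (D.a, 2 * D.b - D.a)) (P' := (0, D.b)) (3 * D.a - D.b - D.n) (2 * D.b + D.n - D.a) (by dsimp only; omega)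
  refine ((h0.append h1 ?_).append h2 ?_).append h3 ?_
  · intro X Y a b
    show X = D.b ∧ Y = D.b
    rcases a with a | a
    · have := a.lin; have := b.lin; omega
    · have := a.lin; have := b.lin; omega
  · intro X Y a b
    show X = D.a ∧ Y = D.b
    rcases a with a | a
    · rcases a with a | a
      · have := a.lin; have := b.lin; omega
      · have := a.lin; have := b.lin; omega
    · rcases a with a | a
      · have := a.lin; have := b.lin; omega
      · rcases b with b | b
        · have := a.lin; have := b.lin; omega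
        · have := D.sH b.on a.on (by omega); omega
  · intro X Y a b
    show X = D.a ∧ Y = 2 * D.b - D.a
    rcases a with (a | a) | a
    · have := a.lin; have := b.lin; omega
    · have := a.lin; have := b.lin; omega
    · rcases b with b | b
      · have := a.lin; have := b.lin; omega
      · have := a.lin; have := b.lin; omega

theorem arcQB : CArc (D.b, 0) D.qb (0, D.b) D.QB := by
  have := D.aux
  have h0 := D.arcB1
  have h1 := D.arcB2
  refine h0.append h1 ?_
  · intro X Y a b
    show X = D.b ∧ Y = 2 * D.b - D.a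
    rcases b with ((b | b) | b) | b
    · rcases a with (a | a) | a
      · have := a.lin; have := b.lin; omega
      · have := a.lin; have := b.lin; omega
      · rcases b with b | b
        · have := a.lin; have := b.lin; omega
        · have := D.sH a.on b.on (by omega); omega
    · rcases a with (a | a) | a
      · rcases a with a | a
        · have := a.lin; have := b.lin; omega
        · rcases b with b | b
          · have := a.lin; have := b.lin; omega
          · have := a.lin; have := b.lin; omega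
      · have := a.lin; have := b.lin; omega
      · have := a.lin; have := b.lin; omega
    · have := a.lin; have := b.lin; omega
    · have := a.lin; have := b.lin; omega

variable {D} in
theorem qqb {X1 Y1 X2 Y2 : ℤ} (a : D.QB X1 Y1) (b : D.QB X2 Y2)
    (e : X2 = Y1 ∧ Y2 = -X1) :
    X1 = 0 ∧ Y1 = D.b := by
  have := D.aux
  rcases a with a | a
  · have := a.lin; have := b.lin; omega
  · rcases b with b | b
    · rcases a with ((a | a) | a) | a
      · have := a.lin; have := b.lin; omega
      · have := a.lin; have := b.lin; omega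
      · have := a.lin; have := b.lin; omega
      · rcases b with (b | b) | b
        · rcases a with a | a
          · rcases b with b | b
            · have := D.sNN b a (by omega); omega
            · have := a.lin; have := b.lin; omega
          · have := a.lin; have := b.lin; omega
        · rcases a with a | a
          · rcases b with b | b
            · have := a.lin; have := b.lin; omega
            · have := a.lin; have := b.lin; omega
          · rcases b with b | b
            · have := a.lin; have := b.lin; omega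
            · have := a.lin; have := b.lin; omega
        · have := a.lin; have := b.lin; omega
    · have := a.lin; have := b.lin; omega

theorem arcB3 : CArc (-2 * D.a, D.a - 2 * D.b) D.wB3 (-2 * D.a - D.b, D.a - 3 * D.b) D.B3 := by
  have := D.aux
  have h0 := D.arcQB.p0 (P' := (-2 * D.a, D.a - 2 * D.b)) (Q' := (-2 * D.a - D.b, D.a - D.b)) (-2 * D.a - D.b) (D.a - 2 * D.b) (by dsimp only; omega)
  have h1 := D.arcQB.p1 (P' := (-2 * D.a - D.b, D.a - D.b)) (Q' := (-2 * D.a - 2 * D.b, D.a - 2 * D.b)) (-2 * D.a - D.b) (D.a - 2 * D.b) (by dsimp only; omega)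
  have h2 := D.arcQB.p2 (P' := (-2 * D.a - 2 * D.b, D.a - 2 * D.b)) (Q' := (-2 * D.a - D.b, D.a - 3 * D.b)) (-2 * D.a - D.b) (D.a - 2 * D.b) (by dsimp only; omega)
  refine (h0.append h1 ?_).append h2 ?_
  · intro X Y a b
    show X = -2 * D.a - D.b ∧ Y = D.a - D.b
    have := qqb a b (by omega); omega
  · intro X Y a b
    show X = -2 * D.a - 2 * D.b ∧ Y = D.a - 2 * D.b
    rcases a with a | a
    · have := a.lin; have := b.lin; omega
    · have := qqb a b (by omega); omega

theorem arcRB : CArc (-2 * D.a - D.b, D.a - 3 * D.b) D.wRB (-2 * D.a, D.a - 2 * D.b) D.RB := by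
  have := D.aux
  have h0 := D.arcLb.p1 (P' := (-2 * D.a - D.b, D.a - 3 * D.b)) (Q' := (-2 * D.a - D.b, D.a - 2 * D.b)) (-2 * D.a - D.b) (D.a - 3 * D.b) (by dsimp only; omega)
  have h1 := D.arcLb.b2 (Q' := (-2 * D.a - D.b, D.a - 2 * D.b)) (P' := (-2 * D.a, D.a - 2 * D.b)) (-2 * D.a) (D.a - 2 * D.b) (by dsimp only; omega)
  refine h0.append h1 ?_
  · intro X Y a b
    show X = -2 * D.a - D.b ∧ Y = D.a - 2 * D.b
    have := a.lin; have := b.lin; omega

theorem sB0 : Simple (-2 * D.a, D.a - 2 * D.b) (D.wB3 ++ D.wRB) ∧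
    ∀ z ∈ verts (-2 * D.a, D.a - 2 * D.b) (D.wB3 ++ D.wRB), D.EB z.1 z.2 := by
  have := D.aux
  refine D.arcB3.simple D.arcRB (fun X Y a b => ?_) (by
    have := length_ea (n := D.b) (by omega)
    simp only [wRB, List.length_append, length_rot, length_back]
    omega)
  show (X = -2 * D.a ∧ Y = D.a - 2 * D.b) ∨ (X = -2 * D.a - D.b ∧ Y = D.a - 3 * D.b)
  rcases a with (a | a) | a
  · have := a.lin; have := b.lin; omega
  · have := a.lin; have := b.lin; omega
  · have := a.lin; have := b.lin; omega

theorem sB1 : OutE D.EB (-2 * D.a - D.b + 1) (D.a - 3 * D.b) := by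
  have := D.aux
  refine .rayE fun V _ h => ?_
  rcases h with h | h
  · rcases h with (h | h) | h
    · have := h.lin; omega
    · have := h.lin; omega
    · have := h.lin; omega
  · have := h.lin; omega

theorem sB2 : Ccw (-2 * D.a, D.a - 2 * D.b) (D.wB3 ++ D.wRB) := by
  have := D.aux
  exact ccw_env (Q := (-2 * D.a - D.b, D.a - 3 * D.b)) (d := 1) D.sB0.1 D.sB0.2 (sMem_edges_right D.arcB3.1 (sMem_edges_left (edge_ea _ 1 (by omega)) _))
    D.sB1 (by ext <;> simp [dv] <;> omega)

theorem covC1 : Cov (-2 * D.a, D.a - 2 * D.b) D.wC1 (-D.n, D.n - 2 * D.a) D.C1 := by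
  have := D.aux
  have h0 := (D.arcUU.p1 (P' := (-2 * D.a, D.a - 2 * D.b)) (Q' := (-D.a, -D.b)) (D.a - D.b - D.n) (D.n - D.b) (by dsimp only; omega)).cov
  have h1 := (D.arcUU.b2 (Q' := (-D.a, -D.b)) (P' := (D.b - 2 * D.a, -D.a - D.b)) (-D.a - D.n) (2 * D.a - 2 * D.b - D.n) (by dsimp only; omega)).cov
  have h2 := (D.arcO.p1 (P' := (D.b - 2 * D.a, -D.a - D.b)) (Q' := (-D.n, D.n - 2 * D.a)) (-D.a - D.n) D.n (by dsimp only; omega)).cov
  exact (h0.append h1).append h2

theorem covC0 : Cov (D.n - 2 * D.a, D.n) D.wC0 (-2 * D.a - D.b, D.a - D.b) D.C0 := by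
  have := D.aux
  have h0 := (D.arcX.p1 (P' := (D.n - 2 * D.a, D.n)) (Q' := (-2 * D.a, 0)) (-D.a - D.n) D.n (by dsimp only; omega)).cov
  have h1 := (D.arcB2.p0 (P' := (-2 * D.a, 0)) (Q' := (-2 * D.a - D.b, D.a - D.b)) (-2 * D.a - D.b) (D.a - 2 * D.b) (by dsimp only; omega)).cov
  exact h0.append h1

theorem covC2 : Cov (D.n - 2 * D.a, D.n) D.wC2 (-2 * D.a, D.a - 2 * D.b) D.C2 := by
  have := D.aux
  have h0 := D.covC0
  have h1 := (D.arcQB.p1 (P' := (-2 * D.a - D.b, D.a - D.b)) (Q' := (-2 * D.a - 2 * D.b, D.a - 2 * D.b)) (-2 * D.a - D.b) (D.a - 2 * D.b) (by dsimp only; omega)).cov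
  have h2 := (D.arcQB.p2 (P' := (-2 * D.a - 2 * D.b, D.a - 2 * D.b)) (Q' := (-2 * D.a - D.b, D.a - 3 * D.b)) (-2 * D.a - D.b) (D.a - 2 * D.b) (by dsimp only; omega)).cov
  have h3 := (D.arcRB).cov
  exact ((h0.append h1).append h2).append h3

theorem eM : D.M = D.M1 ++ back 3 D.Y := by
  have := D.ord
  rw [← D.eX']
  exact D.C.Z_append (by omega) (by omega)

theorem eO : D.O = D.N ++ D.M ++ D.Y := by
  have := D.ord
  rw [O, ← D.C.Z_per (i' := D.C.q - D.δ) (j' := D.k) (by ring) (by ring),
    D.C.Z_append (j := D.k - D.s) (by omega) (by omega),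
    D.C.Z_append (j := D.K) (by omega) (by omega)]
  rfl

theorem eL : D.L = D.O ++ D.Q ++ D.X := by
  have := D.ord
  rw [L, D.C.Z_append (j := D.k - 2 * D.s) (by omega) (by omega),
    D.C.Z_append (j := D.k - 2 * D.C.q) (by omega) (by omega)]
  rfl

theorem eB' : D.wB3 ++ D.wRB = D.wC1 ++ (back 0 (back 1 D.Q) ++ D.wC2) := by
  simp [wB3, wC1, wC2, wC0, qb, wB1, eL, rot_append, back_back]

theorem arcBE : CArc (D.n - 2 * D.a, D.n) D.β (-D.n, D.n - 2 * D.a) D.BE :=
  Simple.rest (D.eB' ▸ D.sB0.1) (back_ne D.π_ne) D.covC2 D.covC1 D.arcIA.back.1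

theorem sC0 : Simple (-D.n, D.n - 2 * D.a) (D.α ++ D.β) ∧
    ∀ z ∈ verts (-D.n, D.n - 2 * D.a) (D.α ++ D.β), D.EC z.1 z.2 := by
  have := D.aux
  refine D.arcAL.simple D.arcBE (fun X Y a b => ?_) (by
    have := length_ea (n := D.a) (by omega)
    simp only [α, wA2, wRA, List.length_append, length_rot, length_back]
    omega)
  show (X = -D.n ∧ Y = D.n - 2 * D.a) ∨ (X = D.n - 2 * D.a ∧ Y = D.n)
  rcases b with b | b
  · rcases b with ((b | b) | b) | b
    · rcases a with a | a
      · have := a.lin; have := b.lin; omega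
      · have := a.lin; have := b.lin; omega
    · have := a.lin; have := b.lin; omega
    · have := a.lin; have := b.lin; omega
    · have := a.lin; have := b.lin; omega
  · rcases a with a | a
    · rcases a with (a | a) | a
      · rcases b with (b | b) | b
        · have := a.lin; have := b.lin; omega
        · have := a.lin; have := b.lin; omega
        · have := D.sP a b (by omega); omega
      · have := a.lin; have := b.lin; omega
      · have := a.lin; have := b.lin; omega
    · have := a.lin; have := b.lin; omega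

theorem sC1 : OutE D.EC (-2 * D.a - D.b + 1) (D.a - 3 * D.b) := by
  have := D.aux
  refine .rayE fun V _ h => ?_
  rcases h with h | h
  · have := h.lin; omega
  · rcases h with h | h
    · rcases h with ((h | h) | h) | h
      · have := h.lin; omega
      · have := h.lin; omega
      · have := h.lin; omega
      · have := h.lin; omega
    · have := h.lin; omega

theorem sC2 : Ccw (-D.n, D.n - 2 * D.a) (D.α ++ D.β) := by
  have := D.aux
  exact ccw_env (Q := (-2 * D.a - D.b, D.a - 3 * D.b)) (d := 1) D.sC0.1 D.sC0.2 (sMem_edges_right D.arcAL.1 (sMem_edges_left (sMem_edges_right ((D.covC0.append (D.arcQB.p1 (P' := (-2 * D.a - D.b, D.a - D.b)) (Q' := (-2 * D.a - 2 * D.b, D.a - 2 * D.b)) (-2 * D.a - D.b) (D.a - 2 * D.b) (by dsimp only; omega)).cov).append (D.arcQB.p2 (P' := (-2 * D.a - 2 * D.b, D.a - 2 * D.b)) (Q' := (-2 * D.a - D.b, D.a - 3 * D.b)) (-2 * D.a - D.b) (D.a - 2 * D.b) (by dsimp only; omega)).cov).1 (sMem_edges_left (edge_ea _ 1 (by omega)) _)) _))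
    D.sC1 (by ext <;> simp [dv] <;> omega)

end QQ

end NP
end Pool.Agent.Lib.MP_4a7072_co
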