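import Pool.Agent.Lib.MP_4a7072_co.Fold

/-!
Scaling a two-piece dissection by a positive integer.
-/

set_option autoImplicit false

namespace Pool.Agent.Lib.MP_4a7072_co

open Set

theorem EdgeAdj.symm' {c d : ℤ × ℤ} (h : EdgeAdj c d) : EdgeAdj d c := by
  unfold EdgeAdj at *
  rw [abs_sub_comm d.1, abs_sub_comm d.2]; exact h

/-- Joined by a chain inside `A`. -/
def Joined' (A : Set (ℤ × ℤ)) (c d : ℤ × ℤ) : Prop :=
  Relation.ReflTransGen (fun x y => x ∈ A ∧ y ∈ A ∧ EdgeAdj x y) c d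

theorem Joined'.symm {A : Set (ℤ × ℤ)} {c d : ℤ × ℤ} (h : Joined' A c d) : Joined' A d c := by
  unfold Joined' at *
  induction h with
  | refl => exact Relation.ReflTransGen.refl
  | tail _ hbc ih => exact Relation.ReflTransGen.head ⟨hbc.2.1, hbc.1, hbc.2.2.symm'⟩ ih

theorem Joined'.trans {A : Set (ℤ × ℤ)} {c d e : ℤ × ℤ} (h : Joined' A c d) (h' : Joined' A d e) :
    Joined' A c e := Relation.ReflTransGen.trans h h'

theorem Joined'.refl (A : Set (ℤ × ℤ)) (c : ℤ × ℤ) : Joined' A c c := Relation.ReflTransGen.refl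

theorem Joined'.single {A : Set (ℤ × ℤ)} {c d : ℤ × ℤ} (hc : c ∈ A) (hd : d ∈ A)
    (h : EdgeAdj c d) : Joined' A c d := Relation.ReflTransGen.single ⟨hc, hd, h⟩

theorem edgeConnected_of_base {A : Set (ℤ × ℤ)} (b : ℤ × ℤ) (h : ∀ c ∈ A, Joined' A c b) :
    EdgeConnected A := fun c hc d hd => (h c hc).trans (h d hd).symm

theorem joined_horizontal {A : Set (ℤ × ℤ)} (x y : ℤ) (n : ℕ)
    (h : ∀ i : ℤ, x ≤ i → i ≤ x + n → (i, y) ∈ A) : Joined' A (x, y) (x + n, y) := by
  induction n with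
  | zero => simpa using Joined'.refl A (x, y)
  | succ n ih =>
    refine (ih fun i h1 h2 => h i h1 (by push_cast; omega)).trans
      (Joined'.single (h _ (by omega) (by push_cast; omega)) (h _ (by omega) le_rfl) ?_)
    unfold EdgeAdj
    push_cast
    simp

theorem joined_vertical {A : Set (ℤ × ℤ)} (x y : ℤ) (n : ℕ)
    (h : ∀ i : ℤ, y ≤ i → i ≤ y + n → (x, i) ∈ A) : Joined' A (x, y) (x, y + n) := by
  induction n with
  | zero => simpa using Joined'.refl A (x, y)
  | succ n ih =>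
    refine (ih fun i h1 h2 => h i h1 (by push_cast; omega)).trans
      (Joined'.single (h _ (by omega) (by push_cast; omega)) (h _ (by omega) le_rfl) ?_)
    unfold EdgeAdj
    push_cast
    simp

theorem joined_h {A : Set (ℤ × ℤ)} (x x' y : ℤ)
    (h : ∀ i : ℤ, min x x' ≤ i → i ≤ max x x' → (i, y) ∈ A) : Joined' A (x, y) (x', y) := by
  rcases le_total x x' with hx | hx
  · obtain ⟨n, rfl⟩ := Int.le.dest hx
    exact joined_horizontal x y n fun i h1 h2 => h i (by omega) (by omega)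
  · obtain ⟨n, rfl⟩ := Int.le.dest hx
    exact (joined_horizontal x' y n fun i h1 h2 => h i (by omega) (by omega)).symm

theorem joined_v {A : Set (ℤ × ℤ)} (x y y' : ℤ)
    (h : ∀ i : ℤ, min y y' ≤ i → i ≤ max y y' → (x, i) ∈ A) : Joined' A (x, y) (x, y') := by
  rcases le_total y y' with hx | hx
  · obtain ⟨n, rfl⟩ := Int.le.dest hx
    exact joined_vertical x y n fun i h1 h2 => h i (by omega) (by omega)
  · obtain ⟨n, rfl⟩ := Int.le.dest hx
    exact (joined_vertical x y' n fun i h1 h2 => h i (by omega) (by omega)).symm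

theorem ediv_eq_iff' {k : ℤ} (hk : 0 < k) (a q : ℤ) : a / k = q ↔ k * q ≤ a ∧ a < k * q + k := by
  constructor
  · rintro rfl
    have h1 := Int.mul_ediv_add_emod a k
    have h2 := Int.emod_nonneg a hk.ne'
    have h3 := Int.emod_lt_of_pos a hk
    constructor <;> linarith
  · rintro ⟨h1, h2⟩
    apply le_antisymm
    · have : a / k < q + 1 := (Int.ediv_lt_iff_lt_mul hk).2 (by linarith)
      omega
    · exact (Int.le_ediv_iff_mul_le hk).2 (by linarith)

/-- Each cell replaced by a `k × k` block of cells. -/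
def scaleSet (k : ℤ) (A : Set (ℤ × ℤ)) : Set (ℤ × ℤ) := {d | (d.1 / k, d.2 / k) ∈ A}

theorem mem_scaleSet_of {k : ℤ} (hk : 0 < k) {A : Set (ℤ × ℤ)} {c : ℤ × ℤ} (hc : c ∈ A)
    {x y : ℤ} (h1 : k * c.1 ≤ x) (h2 : x < k * c.1 + k) (h3 : k * c.2 ≤ y) (h4 : y < k * c.2 + k) :
    (x, y) ∈ scaleSet k A := by
  show (x / k, y / k) ∈ A
  rw [(ediv_eq_iff' hk x c.1).2 ⟨h1, h2⟩, (ediv_eq_iff' hk y c.2).2 ⟨h3, h4⟩]
  exact hc

theorem joined_in_block {k : ℤ} (hk : 0 < k) {A : Set (ℤ × ℤ)} {c : ℤ × ℤ} (hc : c ∈ A)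
    {x y : ℤ} (h1 : k * c.1 ≤ x) (h2 : x < k * c.1 + k) (h3 : k * c.2 ≤ y) (h4 : y < k * c.2 + k) :
    Joined' (scaleSet k A) (x, y) (k * c.1, k * c.2) :=
  (joined_h x (k * c.1) y fun _ a b => mem_scaleSet_of hk hc (by omega) (by omega) h3 h4).trans
    (joined_v (k * c.1) y (k * c.2) fun _ a b =>
      mem_scaleSet_of hk hc le_rfl (by omega) (by omega) (by omega))

theorem edgeConnected_scaleSet {k : ℤ} (hk : 0 < k) {A : Set (ℤ × ℤ)} (hA : EdgeConnected A) :
    EdgeConnected (scaleSet k A) := by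
  have step : ∀ c d : ℤ × ℤ, c ∈ A → d ∈ A → EdgeAdj c d →
      Joined' (scaleSet k A) (k * c.1, k * c.2) (k * d.1, k * d.2) := by
    have r : ∀ c : ℤ × ℤ, c ∈ A → (c.1 + 1, c.2) ∈ A →
        Joined' (scaleSet k A) (k * c.1, k * c.2) (k * (c.1 + 1), k * c.2) := by
      intro c hc hd
      refine joined_h _ _ _ fun i a b => ?_
      have e : k * (c.1 + 1) = k * c.1 + k := by ring
      rcases lt_or_ge i (k * c.1 + k) with h | h
      · exact mem_scaleSet_of hk hc (by omega) h le_rfl (by omega)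
      · exact mem_scaleSet_of hk hd (by simp only; omega) (by simp only; omega) le_rfl
          (by simp only; omega)
    have u : ∀ c : ℤ × ℤ, c ∈ A → (c.1, c.2 + 1) ∈ A →
        Joined' (scaleSet k A) (k * c.1, k * c.2) (k * c.1, k * (c.2 + 1)) := by
      intro c hc hd
      refine joined_v _ _ _ fun i a b => ?_
      have e : k * (c.2 + 1) = k * c.2 + k := by ring
      rcases lt_or_ge i (k * c.2 + k) with h | h
      · exact mem_scaleSet_of hk hc le_rfl (by omega) (by omega) h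
      · exact mem_scaleSet_of hk hd le_rfl (by simp only; omega) (by simp only; omega)
          (by simp only; omega)
    rintro ⟨c1, c2⟩ ⟨d1, d2⟩ hc hd h
    unfold EdgeAdj at h
    simp only at h
    have : (d1 = c1 + 1 ∧ d2 = c2) ∨ (c1 = d1 + 1 ∧ d2 = c2) ∨ (d1 = c1 ∧ d2 = c2 + 1) ∨
        (d1 = c1 ∧ c2 = d2 + 1) := by
      rcases abs_cases (c1 - d1) with a | a <;> rcases abs_cases (c2 - d2) with b | b <;> omega
    rcases this with ⟨rfl, rfl⟩ | ⟨rfl, rfl⟩ | ⟨rfl, rfl⟩ | ⟨rfl, rfl⟩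
    · exact r _ hc hd
    · exact (r _ hd hc).symm
    · exact u _ hc hd
    · exact (u _ hd hc).symm
  have chain : ∀ c d : ℤ × ℤ, Joined' A c d →
      Joined' (scaleSet k A) (k * c.1, k * c.2) (k * d.1, k * d.2) := by
    intro c d h
    unfold Joined' at h
    induction h with
    | refl => exact Joined'.refl _ _
    | tail _ hbc ih => exact ih.trans (step _ _ hbc.1 hbc.2.1 hbc.2.2)
  rintro ⟨x, y⟩ hc ⟨x', y'⟩ hd
  have a1 := (ediv_eq_iff' hk x (x / k)).1 rfl
  have a2 := (ediv_eq_iff' hk y (y / k)).1 rfl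
  have b1 := (ediv_eq_iff' hk x' (x' / k)).1 rfl
  have b2 := (ediv_eq_iff' hk y' (y' / k)).1 rfl
  exact ((joined_in_block hk (c := (x / k, y / k)) hc a1.1 a1.2 a2.1 a2.2).trans
    (chain _ _ (hA _ hc _ hd))).trans
    (joined_in_block hk (c := (x' / k, y' / k)) hd b1.1 b1.2 b2.1 b2.2).symm

/-- The finite version of `scaleSet`. -/
noncomputable def scale (k : ℤ) (S : Finset (ℤ × ℤ)) : Finset (ℤ × ℤ) :=
  S.biUnion fun c => Finset.Ico (k * c.1) (k * c.1 + k) ×ˢ Finset.Ico (k * c.2) (k * c.2 + k)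

theorem mem_scale {k : ℤ} (hk : 0 < k) {S : Finset (ℤ × ℤ)} {d : ℤ × ℤ} :
    d ∈ scale k S ↔ (d.1 / k, d.2 / k) ∈ S := by
  unfold scale
  simp only [Finset.mem_biUnion, Finset.mem_product, Finset.mem_Ico]
  constructor
  · rintro ⟨c, hc, h1, h2⟩
    rw [(ediv_eq_iff' hk _ c.1).2 h1, (ediv_eq_iff' hk _ c.2).2 h2]
    exact hc
  · intro h
    exact ⟨_, h, (ediv_eq_iff' hk _ _).1 rfl, (ediv_eq_iff' hk _ _).1 rfl⟩

theorem coe_scale {k : ℤ} (hk : 0 < k) (S : Finset (ℤ × ℤ)) :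
    (scale k S : Set (ℤ × ℤ)) = scaleSet k S := by
  ext d
  simp only [Finset.mem_coe, mem_scale hk, scaleSet, mem_ofPred_eq]

theorem card_scale (k : ℕ) (hk : 0 < k) (S : Finset (ℤ × ℤ)) :
    (scale k S).card = k ^ 2 * S.card := by
  have hk' : (0 : ℤ) < k := by exact_mod_cast hk
  unfold scale
  rw [Finset.card_biUnion]
  · simp [Finset.card_product, Int.card_Ico, sq, mul_comm]
  · intro c _ d _ hcd
    rw [Function.onFun, Finset.disjoint_left]
    intro x hx hx'
    simp only [Finset.mem_product, Finset.mem_Ico] at hx hx'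
    apply hcd
    exact Prod.ext (((ediv_eq_iff' hk' _ _).2 hx.1).symm.trans ((ediv_eq_iff' hk' _ _).2 hx'.1))
      (((ediv_eq_iff' hk' _ _).2 hx.2).symm.trans ((ediv_eq_iff' hk' _ _).2 hx'.2))

theorem isPolyomino_scale {k : ℤ} (hk : 0 < k) {S : Finset (ℤ × ℤ)} (h : IsPolyomino S) :
    IsPolyomino (scale k S) := by
  refine ⟨?_, ?_⟩
  · obtain ⟨c, hc⟩ := h.1
    refine ⟨(k * c.1, k * c.2), (mem_scale hk).2 ?_⟩
    simp only [Int.mul_ediv_cancel_left _ hk.ne']
    exact hc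
  · rw [coe_scale hk]; exact edgeConnected_scaleSet hk h.2

theorem holeFree_scale {k : ℤ} (hk : 0 < k) {S : Finset (ℤ × ℤ)} (h : HoleFree S) :
    HoleFree (scale k S) := by
  unfold HoleFree
  rw [coe_scale hk]
  exact edgeConnected_scaleSet hk h

theorem exists_int_between (m : ℤ) (k : ℤ) (hk : 0 < k) (x : ℝ) (h1 : (m : ℝ) ≤ x)
    (h2 : x ≤ (m : ℝ) + k) : ∃ i : ℤ, m ≤ i ∧ i < m + k ∧ (i : ℝ) ≤ x ∧ x ≤ (i : ℝ) + 1 := by
  rcases eq_or_lt_of_le h2 with h | h
  · exact ⟨m + k - 1, by omega, by omega, by push_cast; linarith, by push_cast; linarith⟩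
  · refine ⟨⌊x⌋, Int.le_floor.2 h1, Int.floor_lt.2 (by push_cast; exact h), Int.floor_le x,
      (Int.lt_floor_add_one x).le⟩

theorem mem_region_scale {k : ℤ} (hk : 0 < k) {S : Finset (ℤ × ℤ)}
    {p : EuclideanSpace ℝ (Fin 2)} : p ∈ region (scale k S) ↔ (k : ℝ)⁻¹ • p ∈ region S := by
  have hkR : (0 : ℝ) < k := by exact_mod_cast hk
  constructor
  · intro hp
    obtain ⟨d, hd, h1, h2, h3, h4⟩ := exists_cell_of_mem_region hp
    refine mem_region ((mem_scale hk).1 hd) ?_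
    have a := (ediv_eq_iff' hk d.1 (d.1 / k)).1 rfl
    have b := (ediv_eq_iff' hk d.2 (d.2 / k)).1 rfl
    have a1 : (k : ℝ) * (d.1 / k : ℤ) ≤ d.1 := by exact_mod_cast a.1
    have a2 : (d.1 : ℝ) + 1 ≤ (k : ℝ) * (d.1 / k : ℤ) + k := by exact_mod_cast a.2
    have b1 : (k : ℝ) * (d.2 / k : ℤ) ≤ d.2 := by exact_mod_cast b.1
    have b2 : (d.2 : ℝ) + 1 ≤ (k : ℝ) * (d.2 / k : ℤ) + k := by exact_mod_cast b.2
    refine ⟨?_, ?_, ?_, ?_⟩ <;> simp only [PiLp.smul_apply, smul_eq_mul]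
    · rw [le_inv_mul_iff₀ hkR]; linarith
    · rw [inv_mul_le_iff₀ hkR]; linarith
    · rw [le_inv_mul_iff₀ hkR]; linarith
    · rw [inv_mul_le_iff₀ hkR]; linarith
  · intro hp
    obtain ⟨c, hc, h1, h2, h3, h4⟩ := exists_cell_of_mem_region hp
    simp only [PiLp.smul_apply, smul_eq_mul] at h1 h2 h3 h4
    rw [le_inv_mul_iff₀ hkR] at h1 h3
    rw [inv_mul_le_iff₀ hkR] at h2 h4
    obtain ⟨i, i1, i2, i3, i4⟩ := exists_int_between (k * c.1) k hk (p 0) (by push_cast; linarith)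
      (by push_cast; linarith)
    obtain ⟨j, j1, j2, j3, j4⟩ := exists_int_between (k * c.2) k hk (p 1) (by push_cast; linarith)
      (by push_cast; linarith)
    refine mem_region (c := (i, j)) ((mem_scale hk).2 ?_) ⟨i3, i4, j3, j4⟩
    simp only
    rw [(ediv_eq_iff' hk i c.1).2 ⟨i1, i2⟩, (ediv_eq_iff' hk j c.2).2 ⟨j1, j2⟩]
    exact hc

theorem region_scale {k : ℤ} (hk : 0 < k) (S : Finset (ℤ × ℤ)) :
    region (scale k S) = (fun p => (k : ℝ)⁻¹ • p) ⁻¹' region S := by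
  ext p; exact mem_region_scale hk

theorem interior_preimage_smul {r : ℝ} (hr : r ≠ 0) (P : Set (EuclideanSpace ℝ (Fin 2))) :
    interior ((fun p => r • p) ⁻¹' P) = (fun p => r • p) ⁻¹' interior P :=
  ((Homeomorph.smulOfNeZero r hr).preimage_interior P).symm

theorem var_smul {E : Type*} [NormedAddCommGroup E] [NormedSpace ℝ E] (r : ℝ) (g : ℝ → E)
    (s : Set ℝ) : eVariationOn (fun t => r • g t) s = ‖r‖ₑ * eVariationOn g s := by
  unfold eVariationOn
  rw [ENNReal.mul_iSup]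
  congr 1
  ext p
  rw [Finset.mul_sum]
  refine Finset.sum_congr rfl fun i _ => ?_
  rw [edist_smul₀]
  rfl

theorem FoldsInto.scale {P : Set (EuclideanSpace ℝ (Fin 2))} {L : ℝ} {r : ℝ} (hr : 0 < r)
    (h : FoldsInto P (cubeSurface L)) :
    FoldsInto ((fun p => r⁻¹ • p) ⁻¹' P) (cubeSurface (r * L)) := by
  obtain ⟨f, hf, himg, hlen, hinj⟩ := h
  refine ⟨fun p => r • f (r⁻¹ • p), ?_, ?_, ?_, ?_⟩
  · have h1 : ContinuousOn (f ∘ fun p => r⁻¹ • p) ((fun p => r⁻¹ • p) ⁻¹' P) :=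
      hf.comp (continuous_const_smul r⁻¹).continuousOn fun p hp => hp
    exact h1.fun_const_smul r
  · ext z
    constructor
    · rintro ⟨p, hp, rfl⟩
      have : f (r⁻¹ • p) ∈ cubeSurface L := himg ▸ mem_image_of_mem f hp
      obtain ⟨h1, k, h2⟩ := this
      refine ⟨fun k => ?_, k, ?_⟩
      · simp only [PiLp.smul_apply, smul_eq_mul]
        exact ⟨mul_nonneg hr.le (h1 k).1, mul_le_mul_of_nonneg_left (h1 k).2 hr.le⟩
      · simp only [PiLp.smul_apply, smul_eq_mul]
        rcases h2 with h | h <;> simp [h]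
    · rintro ⟨h1, k, h2⟩
      have : r⁻¹ • z ∈ cubeSurface L := by
        refine ⟨fun k => ?_, k, ?_⟩
        · simp only [PiLp.smul_apply, smul_eq_mul]
          exact ⟨mul_nonneg (inv_nonneg.2 hr.le) (h1 k).1, (inv_mul_le_iff₀ hr).2 (h1 k).2⟩
        · simp only [PiLp.smul_apply, smul_eq_mul]
          rcases h2 with h | h
          · left; simp [h]
          · right; rw [h]; field_simp
      rw [← himg] at this
      obtain ⟨p, hp, hpz⟩ := this
      refine ⟨r • p, ?_, ?_⟩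
      · simpa [smul_smul, inv_mul_cancel₀ hr.ne'] using hp
      · simp [smul_smul, inv_mul_cancel₀ hr.ne', hpz, mul_inv_cancel₀ hr.ne']
  · intro γ hγ hm
    have := hlen (fun t => r⁻¹ • γ t) (hγ.fun_const_smul _) (fun t ht => hm ht)
    have e1 : ((fun p => r • f (r⁻¹ • p)) ∘ γ) = fun t => r • (f ∘ fun t => r⁻¹ • γ t) t := rfl
    rw [e1, var_smul, this, var_smul, ← mul_assoc, ← enorm_mul, mul_inv_cancel₀ hr.ne']
    simp
  · intro x hx y hy hxy
    rw [interior_preimage_smul (inv_ne_zero hr.ne')] at hx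
    have := hinj _ hx _ hy (smul_right_injective _ hr.ne' hxy)
    exact smul_right_injective _ (inv_ne_zero hr.ne') this

theorem TwoPieceDissection.scale {a b c : ℕ} (h : TwoPieceDissection a b c) (k : ℕ)
    (hk : 0 < k) : TwoPieceDissection (k * a) (k * b) (k * c) := by
  obtain ⟨Sa, Sb, Sc, pa, pb, pc, ha, hb, hc, hcard, hU, hD, fc, fa, fb⟩ := h
  have hk' : (0 : ℤ) < k := by exact_mod_cast hk
  have hkR : (0 : ℝ) < ((k : ℤ) : ℝ) := by exact_mod_cast hk
  refine ⟨Pool.Agent.Lib.MP_4a7072_co.scale k Sa, Pool.Agent.Lib.MP_4a7072_co.scale k Sb,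
    Pool.Agent.Lib.MP_4a7072_co.scale k Sc, isPolyomino_scale hk' pa, isPolyomino_scale hk' pb,
    isPolyomino_scale hk' pc, holeFree_scale hk' ha, holeFree_scale hk' hb, holeFree_scale hk' hc,
    ?_, ?_, ?_, ?_, ?_, ?_⟩
  · rw [card_scale k hk, hcard]; ring
  · rw [region_scale hk', region_scale hk', region_scale hk', hU, preimage_union]
  · rw [region_scale hk', region_scale hk', interior_preimage_smul (inv_ne_zero hkR.ne'),
      interior_preimage_smul (inv_ne_zero hkR.ne')]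
    exact hD.preimage _
  · rw [region_scale hk']; simpa using fc.scale hkR
  · rw [region_scale hk']; simpa using fa.scale hkR
  · rw [region_scale hk']; simpa using fb.scale hkR

theorem region_union (S T : Finset (ℤ × ℤ)) : region (S ∪ T) = region S ∪ region T := by
  unfold region
  exact Finset.set_biUnion_union S T unitSq

theorem disjoint_interior_region {S T : Finset (ℤ × ℤ)} (h : Disjoint S T) :
    Disjoint (interior (region S)) (interior (region T)) := by
  rw [Set.disjoint_left]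
  intro p hS hT
  obtain ⟨c, hc, hp⟩ := exists_cell_of_mem_region (interior_subset hS)
  exact Finset.disjoint_left.1 h hc (cell_mem_of_mem_interior hT c hp)

end Pool.Agent.Lib.MP_4a7072_co
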