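import Pool.Agent.Lib.MP_4a7072_co.RDefs
import Pool.Agent.Lib.MP_4a7072_co.Scale

/-!
Basic facts about the rotated lattice: big faces of adjacent cells, transport of orientations,
turning around a lattice point.
-/

set_option autoImplicit false

namespace Pool.Agent.Lib.MP_4a7072_co

/-- Zero or a unit vector. -/
def Cr0 (δ : Pt) : Prop := δ = (0, 0) ∨ δ = (1, 0) ∨ δ = (-1, 0) ∨ δ = (0, 1) ∨ δ = (0, -1)

theorem dir_cases (k : Dir) : k = 0 ∨ k = 1 ∨ k = 2 ∨ k = 3 := by revert k; decide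

theorem dir_a11 (k : Dir) : k + 1 + 1 = k + 2 := by revert k; decide
theorem dir_a21 (k : Dir) : k + 2 + 1 = k + 3 := by revert k; decide
theorem dir_a31 (k : Dir) : k + 3 + 1 = k := by revert k; decide
theorem dir_a22 (k : Dir) : k + 2 + 2 = k := by revert k; decide

theorem roll_zero (g : Ori) : roll g (0, 0) = g := by simp [roll]

theorem roll_roll_neg {δ : Pt} (h : Cr0 δ) (g : Ori) : roll (roll g δ) (-δ) = g := by
  rcases h with rfl | rfl | rfl | rfl | rfl <;> revert g <;> decide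

theorem roll_neg_roll {δ : Pt} (h : Cr0 δ) (g : Ori) : roll (roll g (-δ)) δ = g := by
  rcases h with rfl | rfl | rfl | rfl | rfl <;> revert g <;> decide

theorem roll_roll_sub {δ ε : Pt} (h : Cr0 δ) (h' : Cr0 ε) (h'' : Cr0 (ε - δ)) (g : Ori) :
    roll (roll g δ) (ε - δ) = roll g ε := by
  rcases h with rfl | rfl | rfl | rfl | rfl <;> rcases h' with rfl | rfl | rfl | rfl | rfl <;>
    first
    | (exfalso; revert h''; unfold Cr0; decide)
    | (revert g; decide)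

theorem roll_spin {δ : Pt} (h : Cr0 δ) (k : Dir) (g : Ori) :
    roll (spin k g) (rotP k δ) = spin k (roll g δ) := by
  rcases h with rfl | rfl | rfl | rfl | rfl <;> revert k g <;> decide

theorem spin_zero (g : Ori) : spin 0 g = g := rfl

theorem spin_spin (k l : Dir) (g : Ori) : spin l (spin k g) = spin (k + l) g := by
  revert k l g; decide

theorem spin_eq_self {k : Dir} {g : Ori} (h : spin k g = g) : k = 0 := by
  revert k g; decide

theorem rotP_zero (z : Pt) : rotP 0 z = z := rfl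
theorem rotC_zero (z : Pt) : rotC 0 z = z := rfl

theorem rotP_add (k : Dir) (z w : Pt) : rotP k (z + w) = rotP k z + rotP k w := by
  rcases dir_cases k with rfl | rfl | rfl | rfl <;> ext <;> simp [rotP] <;> ring

theorem rotP_sub (k : Dir) (z w : Pt) : rotP k (z - w) = rotP k z - rotP k w := by
  rcases dir_cases k with rfl | rfl | rfl | rfl <;> ext <;> simp [rotP] <;> ring

theorem rotP_rotP (k l : Dir) (z : Pt) : rotP l (rotP k z) = rotP (k + l) z := by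
  rcases dir_cases k with rfl | rfl | rfl | rfl <;> rcases dir_cases l with rfl | rfl | rfl | rfl <;>
    ext <;> simp [rotP]

theorem rotC_rotC (k l : Dir) (z : Pt) : rotC l (rotC k z) = rotC (k + l) z := by
  rcases dir_cases k with rfl | rfl | rfl | rfl <;> rcases dir_cases l with rfl | rfl | rfl | rfl <;>
    ext <;> simp [rotC]

theorem rotC_add (k : Dir) (c z : Pt) : rotC k (c + z) = rotC k c + rotP k z := by
  rcases dir_cases k with rfl | rfl | rfl | rfl <;> ext <;> simp [rotP, rotC] <;> ring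

theorem rotC_sub (k : Dir) (c d : Pt) : rotC k c - rotC k d = rotP k (c - d) := by
  rcases dir_cases k with rfl | rfl | rfl | rfl <;> ext <;> simp [rotP, rotC] <;> ring

theorem rotP_dv (k l : Dir) : rotP k (dv l) = dv (l + k) := by revert k l; decide

theorem dv_add_two (k : Dir) : dv (k + 2) = -dv k := by revert k; decide

theorem lc_add (Q z : Pt) (k : Dir) : lc (Q + z) k = lc Q k + z := by
  rcases dir_cases k with rfl | rfl | rfl | rfl <;> ext <;> simp [lc] <;> ring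

theorem lc_rot (k l : Dir) (Q : Pt) : lc (rotP k Q) (l + k) = rotC k (lc Q l) := by
  rcases dir_cases k with rfl | rfl | rfl | rfl <;> rcases dir_cases l with rfl | rfl | rfl | rfl <;>
    ext <;> simp [lc, rotP, rotC]

theorem lc_eq (Q : Pt) (k : Dir) : lc Q k = rotC k (0, 0) + Q := by
  rcases dir_cases k with rfl | rfl | rfl | rfl <;> ext <;> simp [lc, rotC] <;> ring

theorem rc_eq (Q : Pt) (k : Dir) : rc Q k = lc Q (k + 3) := by
  unfold rc; congr 1; revert k; decide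

theorem lc_rev (Q : Pt) (k : Dir) : lc (Q + dv k) (k + 2) = rc Q k := by
  rcases dir_cases k with rfl | rfl | rfl | rfl <;> ext <;> simp [lc, rc, dv] <;> ring

theorem rc_rev (Q : Pt) (k : Dir) : rc (Q + dv k) (k + 2) = lc Q k := by
  rcases dir_cases k with rfl | rfl | rfl | rfl <;> ext <;> simp [lc, rc, dv] <;> ring

theorem lc_next (Q : Pt) (k : Dir) : lc (Q + dv k) (k + 1) = lc Q k := by
  rcases dir_cases k with rfl | rfl | rfl | rfl <;> ext <;> simp [lc, dv] <;> ring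

theorem lc_succ (Q : Pt) (k : Dir) : lc Q (k + 1) = lc Q k + dv (k + 2) := by
  rcases dir_cases k with rfl | rfl | rfl | rfl <;> ext <;> simp [lc, dv] <;> ring

theorem rc_eq_add (Q : Pt) (k : Dir) : rc Q k = lc Q k + dv (k + 3) := by
  rcases dir_cases k with rfl | rfl | rfl | rfl <;> ext <;> simp [lc, rc, dv] <;> ring

theorem edgeAdj_iff (c d : Pt) : EdgeAdj c d ↔ ∃ k, d = c + dv k := by
  constructor
  · intro h
    unfold EdgeAdj at h
    have : (d.1 = c.1 + 1 ∧ d.2 = c.2) ∨ (d.1 = c.1 ∧ d.2 = c.2 + 1) ∨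
        (d.1 = c.1 - 1 ∧ d.2 = c.2) ∨ (d.1 = c.1 ∧ d.2 = c.2 - 1) := by
      rcases abs_cases (c.1 - d.1) with h1 | h1 <;> rcases abs_cases (c.2 - d.2) with h2 | h2 <;>
        omega
    rcases this with ⟨a, b⟩ | ⟨a, b⟩ | ⟨a, b⟩ | ⟨a, b⟩
    · exact ⟨0, by ext <;> simp [dv, a, b]⟩
    · exact ⟨1, by ext <;> simp [dv, a, b]⟩
    · exact ⟨2, by ext <;> simp [dv, a, b]; ring⟩
    · exact ⟨3, by ext <;> simp [dv, a, b]; ring⟩
  · rintro ⟨k, rfl⟩
    rcases dir_cases k with rfl | rfl | rfl | rfl <;> simp [EdgeAdj, dv]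

theorem edgeAdj_add_dv (c : Pt) (k : Dir) : EdgeAdj c (c + dv k) := (edgeAdj_iff _ _).2 ⟨k, rfl⟩

theorem edgeAdj_lc_succ (Q : Pt) (k : Dir) : EdgeAdj (lc Q k) (lc Q (k + 1)) := by
  rw [lc_succ]; exact edgeAdj_add_dv _ _

theorem edgeAdj_lc_rc (Q : Pt) (k : Dir) : EdgeAdj (lc Q k) (rc Q k) := by
  rw [rc_eq_add]; exact edgeAdj_add_dv _ _

theorem odd_comb_ne (n : ℕ) : ∀ p q m A B : ℤ, p ^ 2 + q ^ 2 = (n : ℤ) ^ 2 → 0 < n →
    (2 * A + 1) * p + (2 * B + 1) * q ≠ 2 * (n : ℤ) ^ 2 * m := by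
  induction n using Nat.strong_induction_on with
  | _ n ih =>
    intro p q m A B h hn heq
    obtain ⟨p', hp | hp⟩ := Int.even_or_odd' p <;> obtain ⟨q', hq | hq⟩ := Int.even_or_odd' q
    · subst hp hq
      obtain ⟨n', hn' | hn'⟩ := Nat.even_or_odd' n
      · subst hn'
        push_cast at h heq
        refine ih n' (by omega) p' q' (2 * m) A B (by linarith) (by omega) (by linarith)
      · subst hn'
        push_cast at h
        have : 4 * (p' ^ 2 + q' ^ 2 - (n' : ℤ) ^ 2 - n') = 1 := by linarith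
        omega
    · subst hp hq
      have : 2 * ((n : ℤ) ^ 2 * m - ((2 * A + 1) * p' + (2 * B + 1) * q' + B)) = 1 := by linarith
      omega
    · subst hp hq
      have : 2 * ((n : ℤ) ^ 2 * m - ((2 * A + 1) * p' + (2 * B + 1) * q' + A)) = 1 := by linarith
      omega
    · subst hp hq
      obtain ⟨n', hn' | hn'⟩ := Int.even_or_odd' (n : ℤ)
      · rw [hn'] at h
        have : 4 * (n' ^ 2 - p' ^ 2 - p' - q' ^ 2 - q') = 2 := by linarith
        omega
      · rw [hn'] at h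
        have : 4 * (p' ^ 2 + p' + q' ^ 2 + q' - n' ^ 2 - n') = -1 := by linarith
        omega

namespace Lat

variable (Λ : Lat)

/-- The norm of the edge vector. -/
def N : ℤ := (Λ.L : ℤ) ^ 2

/-- First coordinate along the big lattice, times `L`. -/
def U (s : Pt) : ℤ := Λ.p * s.1 + Λ.q * s.2

/-- Second coordinate along the big lattice, times `L`. -/
def V (s : Pt) : ℤ := Λ.p * s.2 - Λ.q * s.1

end Lat

/-- Twice the centre of a cell. -/
def ctr (c : Pt) : Pt := (2 * c.1 + 1, 2 * c.2 + 1)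

namespace Lat

variable (Λ : Lat)

theorem N_eq : Λ.N = Λ.p ^ 2 + Λ.q ^ 2 := Λ.h.symm

theorem N_pos : 0 < Λ.N := by
  rw [N_eq]; have := Λ.hp; positivity

theorem L_pos : 0 < Λ.L := by
  have := Λ.N_pos
  unfold N at this
  rcases Nat.eq_zero_or_pos Λ.L with h | h
  · rw [h] at this; simp at this
  · exact h

theorem p_add_q_le : Λ.p + Λ.q ≤ Λ.N := by
  rw [N_eq]; have := Λ.hp; have := Λ.hq; nlinarith [sq_nonneg (Λ.q - 1), sq_nonneg Λ.q,
    Int.le_self_sq Λ.p, Int.le_self_sq Λ.q]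

theorem face_eq (c : Pt) : Λ.face c = (Λ.U (ctr c) / (2 * Λ.N), Λ.V (ctr c) / (2 * Λ.N)) := by
  unfold face U V ctr N; ext <;> simp only <;> congr 1 <;> ring

theorem U_gm (T : Pt) : Λ.U (Λ.gm T) = Λ.N * T.1 := by rw [N_eq]; unfold U gm; ring
theorem V_gm (T : Pt) : Λ.V (Λ.gm T) = Λ.N * T.2 := by rw [N_eq]; unfold V gm; ring

theorem UV_dot (s t : Pt) : Λ.U s * Λ.U t + Λ.V s * Λ.V t = Λ.N * (s.1 * t.1 + s.2 * t.2) := by
  rw [N_eq]; unfold U V; ring

theorem eq_gm_of_UV {W T : Pt} (h1 : Λ.U W = Λ.N * T.1) (h2 : Λ.V W = Λ.N * T.2) :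
    W = Λ.gm T := by
  have hN := Λ.N_pos
  have e := Λ.N_eq
  unfold U at h1; unfold V at h2
  ext
  · apply mul_left_cancel₀ hN.ne'
    simp only [gm]
    linear_combination Λ.p * h1 - Λ.q * h2 + W.1 * e
  · apply mul_left_cancel₀ hN.ne'
    simp only [gm]
    linear_combination Λ.q * h1 + Λ.p * h2 + W.2 * e

/-- The centre of a cell lies strictly inside its big face. -/
theorem face_bounds (c : Pt) :
    2 * Λ.N * (Λ.face c).1 < Λ.U (ctr c) ∧ Λ.U (ctr c) < 2 * Λ.N * ((Λ.face c).1 + 1) ∧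
    2 * Λ.N * (Λ.face c).2 < Λ.V (ctr c) ∧ Λ.V (ctr c) < 2 * Λ.N * ((Λ.face c).2 + 1) := by
  have hN : 0 < 2 * Λ.N := by have := Λ.N_pos; omega
  rw [face_eq]
  have a1 := Int.mul_ediv_self_le (x := Λ.U (ctr c)) hN.ne'
  have a2 := Int.lt_mul_ediv_self_add (x := Λ.U (ctr c)) hN
  have b1 := Int.mul_ediv_self_le (x := Λ.V (ctr c)) hN.ne'
  have b2 := Int.lt_mul_ediv_self_add (x := Λ.V (ctr c)) hN
  have n1 : Λ.U (ctr c) ≠ 2 * Λ.N * (Λ.U (ctr c) / (2 * Λ.N)) := by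
    have := odd_comb_ne Λ.L Λ.p Λ.q (Λ.U (ctr c) / (2 * Λ.N)) c.1 c.2 Λ.h Λ.L_pos
    intro h; apply this; unfold U ctr N at *; simp only at *; linarith
  have n2 : Λ.V (ctr c) ≠ 2 * Λ.N * (Λ.V (ctr c) / (2 * Λ.N)) := by
    have := odd_comb_ne Λ.L Λ.p Λ.q (Λ.V (ctr c) / (2 * Λ.N)) c.2 (-c.1 - 1) Λ.h Λ.L_pos
    intro h; apply this; unfold V ctr N at *; simp only at *; linarith
  refine ⟨lt_of_le_of_ne a1 n1.symm, by linarith, lt_of_le_of_ne b1 n2.symm, by linarith⟩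

theorem face_unique {c F : Pt} (h1 : 2 * Λ.N * F.1 ≤ Λ.U (ctr c))
    (h2 : Λ.U (ctr c) ≤ 2 * Λ.N * (F.1 + 1)) (h3 : 2 * Λ.N * F.2 ≤ Λ.V (ctr c))
    (h4 : Λ.V (ctr c) ≤ 2 * Λ.N * (F.2 + 1)) : Λ.face c = F := by
  obtain ⟨a1, a2, a3, a4⟩ := Λ.face_bounds c
  have hN : 0 < 2 * Λ.N := by have := Λ.N_pos; omega
  have e1 : F.1 < (Λ.face c).1 + 1 := lt_of_mul_lt_mul_left (by linarith) hN.le
  have e2 : (Λ.face c).1 < F.1 + 1 := lt_of_mul_lt_mul_left (by linarith) hN.le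
  have e3 : F.2 < (Λ.face c).2 + 1 := lt_of_mul_lt_mul_left (by linarith) hN.le
  have e4 : (Λ.face c).2 < F.2 + 1 := lt_of_mul_lt_mul_left (by linarith) hN.le
  ext <;> omega

theorem face_add_gm (c T : Pt) : Λ.face (c + Λ.gm T) = Λ.face c + T := by
  obtain ⟨a1, a2, a3, a4⟩ := Λ.face_bounds c
  have u : Λ.U (ctr (c + Λ.gm T)) = Λ.U (ctr c) + 2 * Λ.N * T.1 := by
    have := Λ.U_gm T; unfold U ctr at *; simp only [Prod.fst_add, Prod.snd_add]; linarith
  have v : Λ.V (ctr (c + Λ.gm T)) = Λ.V (ctr c) + 2 * Λ.N * T.2 := by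
    have := Λ.V_gm T; unfold V ctr at *; simp only [Prod.fst_add, Prod.snd_add]; linarith
  apply face_unique <;> simp only [u, v, Prod.fst_add, Prod.snd_add] <;> linarith

theorem face_rotC (k : Dir) (c : Pt) : Λ.face (rotC k c) = rotC k (Λ.face c) := by
  obtain ⟨a1, a2, a3, a4⟩ := Λ.face_bounds c
  unfold U ctr at a1 a2
  unfold V ctr at a3 a4
  simp only at a1 a2 a3 a4
  rcases dir_cases k with rfl | rfl | rfl | rfl
  · rfl
  all_goals apply face_unique <;> simp [U, V, ctr, rotC] <;> linarith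

theorem face_act (k : Dir) (c T : Pt) :
    Λ.face (rotC k c + Λ.gm T) = rotC k (Λ.face c) + T := by rw [face_add_gm, face_rotC]

theorem rotP_gm (k : Dir) (T : Pt) : rotP k (Λ.gm T) = Λ.gm (rotP k T) := by
  rcases dir_cases k with rfl | rfl | rfl | rfl <;> ext <;> simp [rotP, gm] <;> ring

theorem gm_add (T T' : Pt) : Λ.gm (T + T') = Λ.gm T + Λ.gm T' := by
  ext <;> simp [gm] <;> ring

theorem gm_neg (T : Pt) : Λ.gm (-T) = -Λ.gm T := by
  ext <;> simp [gm] <;> ring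

theorem gm_zero : Λ.gm 0 = 0 := by ext <;> simp [gm]

theorem isV_act (k : Dir) (T W : Pt) : Λ.IsV (rotP k W + Λ.gm T) ↔ Λ.IsV W := by
  constructor
  · rintro ⟨T', h⟩
    refine ⟨rotP (-k) (T' + -T), ?_⟩
    rw [← rotP_gm, gm_add, gm_neg, ← h, add_neg_cancel_right, rotP_rotP, add_neg_cancel, rotP_zero]
  · rintro ⟨T', rfl⟩
    exact ⟨rotP k T' + T, by rw [gm_add, rotP_gm]⟩

/-- Two points `s`, `t` (doubled coordinates) that see every lattice point under an angle of at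
most a right angle do not lie in diagonally opposite big faces. -/
theorem cr0_of_dot {s t F G : Pt}
    (s1 : 2 * Λ.N * F.1 < Λ.U s) (s2 : Λ.U s < 2 * Λ.N * (F.1 + 1))
    (s3 : 2 * Λ.N * F.2 < Λ.V s) (s4 : Λ.V s < 2 * Λ.N * (F.2 + 1))
    (t1 : 2 * Λ.N * G.1 ≤ Λ.U t) (t2 : Λ.U t ≤ 2 * Λ.N * (G.1 + 1))
    (t3 : 2 * Λ.N * G.2 ≤ Λ.V t) (t4 : Λ.V t ≤ 2 * Λ.N * (G.2 + 1))
    (hu : |Λ.U s - Λ.U t| ≤ 2 * Λ.N) (hv : |Λ.V s - Λ.V t| ≤ 2 * Λ.N)
    (hd : ∀ W : Pt, 0 ≤ (s.1 - 2 * W.1) * (t.1 - 2 * W.1) + (s.2 - 2 * W.2) * (t.2 - 2 * W.2))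
    (hne : ∀ T : Pt, ¬(Λ.U t = 2 * Λ.N * T.1 ∧ Λ.V t = 2 * Λ.N * T.2)) : Cr0 (G - F) := by
  have hN := Λ.N_pos
  have hN2 : 0 < 2 * Λ.N := by omega
  obtain ⟨hu1, hu2⟩ := abs_le.1 hu
  obtain ⟨hv1, hv2⟩ := abs_le.1 hv
  have e1 : G.1 < F.1 + 2 := lt_of_mul_lt_mul_left (by linarith) hN2.le
  have e2 : F.1 < G.1 + 2 := lt_of_mul_lt_mul_left (by linarith) hN2.le
  have e3 : G.2 < F.2 + 2 := lt_of_mul_lt_mul_left (by linarith) hN2.le
  have e4 : F.2 < G.2 + 2 := lt_of_mul_lt_mul_left (by linarith) hN2.le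
  have key : ∀ T : Pt, 0 ≤ (Λ.U s - 2 * Λ.N * T.1) * (Λ.U t - 2 * Λ.N * T.1) +
      (Λ.V s - 2 * Λ.N * T.2) * (Λ.V t - 2 * Λ.N * T.2) := by
    intro T
    have h := Λ.UV_dot (s.1 - 2 * (Λ.gm T).1, s.2 - 2 * (Λ.gm T).2)
      (t.1 - 2 * (Λ.gm T).1, t.2 - 2 * (Λ.gm T).2)
    have u := Λ.U_gm T
    have v := Λ.V_gm T
    have r1 : ∀ z : Pt, Λ.U (z.1 - 2 * (Λ.gm T).1, z.2 - 2 * (Λ.gm T).2)
        = Λ.U z - 2 * Λ.N * T.1 := by
      intro z; unfold U at *; simp only; linarith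
    have r2 : ∀ z : Pt, Λ.V (z.1 - 2 * (Λ.gm T).1, z.2 - 2 * (Λ.gm T).2)
        = Λ.V z - 2 * Λ.N * T.2 := by
      intro z; unfold V at *; simp only; linarith
    rw [r1, r1, r2, r2] at h
    rw [h]
    exact mul_nonneg hN.le (hd (Λ.gm T))
  have diag : G.1 = F.1 ∨ G.2 = F.2 := by
    by_contra hc
    push Not at hc
    obtain ⟨c1, c2⟩ := hc
    have k := key (max F.1 G.1, max F.2 G.2)
    apply hne (max F.1 G.1, max F.2 G.2)
    simp only at k ⊢
    rcases lt_or_gt_of_ne c1 with d1 | d1 <;> rcases lt_or_gt_of_ne c2 with d2 | d2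
    · have f1 : F.1 = G.1 + 1 := by omega
      have f2 : F.2 = G.2 + 1 := by omega
      rw [max_eq_left d1.le, max_eq_left d2.le] at k ⊢
      rw [← f1] at t2; rw [← f2] at t4
      constructor <;> nlinarith
    · have f1 : F.1 = G.1 + 1 := by omega
      have f2 : G.2 = F.2 + 1 := by omega
      rw [max_eq_left d1.le, max_eq_right d2.le] at k ⊢
      rw [← f1] at t2; rw [← f2] at s4
      constructor <;> nlinarith
    · have f1 : G.1 = F.1 + 1 := by omega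
      have f2 : F.2 = G.2 + 1 := by omega
      rw [max_eq_right d1.le, max_eq_left d2.le] at k ⊢
      rw [← f1] at s2; rw [← f2] at t4
      constructor <;> nlinarith
    · have f1 : G.1 = F.1 + 1 := by omega
      have f2 : G.2 = F.2 + 1 := by omega
      rw [max_eq_right d1.le, max_eq_right d2.le] at k ⊢
      rw [← f1] at s2; rw [← f2] at s4
      constructor <;> nlinarith
  unfold Cr0
  simp only [Prod.ext_iff, Prod.fst_sub, Prod.snd_sub]
  omega

theorem cr0_face_adj {c d : Pt} (h : EdgeAdj c d) : Cr0 (Λ.face d - Λ.face c) := by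
  obtain ⟨a1, a2, a3, a4⟩ := Λ.face_bounds c
  obtain ⟨b1, b2, b3, b4⟩ := Λ.face_bounds d
  have hp := Λ.hp
  have hq := Λ.hq
  have hpq := Λ.p_add_q_le
  have hN2 : 0 < 2 * Λ.N := by have := Λ.N_pos; omega
  obtain ⟨k, rfl⟩ := (edgeAdj_iff _ _).1 h
  refine Λ.cr0_of_dot a1 a2 a3 a4 b1.le b2.le b3.le b4.le ?_ ?_ ?_ ?_
  · rcases dir_cases k with rfl | rfl | rfl | rfl <;> rw [abs_le] <;>
      simp [U, ctr, dv] <;> constructor <;> linarith
  · rcases dir_cases k with rfl | rfl | rfl | rfl <;> rw [abs_le] <;>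
      simp [V, ctr, dv] <;> constructor <;> linarith
  · intro W
    have o1 : 1 ≤ (2 * (c.1 - W.1) + 1) ^ 2 := by
      have : 2 * (c.1 - W.1) + 1 ≠ 0 := by omega
      exact Int.add_one_le_of_lt (a := 0) (by positivity)
    have o2 : 1 ≤ (2 * (c.2 - W.2) + 1) ^ 2 := by
      have : 2 * (c.2 - W.2) + 1 ≠ 0 := by omega
      exact Int.add_one_le_of_lt (a := 0) (by positivity)
    rcases dir_cases k with rfl | rfl | rfl | rfl <;> simp [ctr, dv]
    · nlinarith [sq_nonneg (c.1 - W.1 + 1)]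
    · nlinarith [sq_nonneg (c.2 - W.2 + 1)]
    · nlinarith [sq_nonneg (c.1 - W.1)]
    · nlinarith [sq_nonneg (c.2 - W.2)]
  · rintro T ⟨h1, -⟩
    rw [h1] at b1 b2
    have e1 := lt_of_mul_lt_mul_left b1 hN2.le
    have e2 := lt_of_mul_lt_mul_left b2 hN2.le
    omega

/-- The big face with lower left corner nearest below the lattice point `W`. -/
def faceP (W : Pt) : Pt := (Λ.U W / Λ.N, Λ.V W / Λ.N)

theorem cr0_faceP {W : Pt} (hW : ¬Λ.IsV W) (k : Dir) :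
    Cr0 (Λ.faceP W - Λ.face (lc W k)) := by
  obtain ⟨a1, a2, a3, a4⟩ := Λ.face_bounds (lc W k)
  have hp := Λ.hp
  have hq := Λ.hq
  have hpq := Λ.p_add_q_le
  have hN := Λ.N_pos
  have u1 := Int.mul_ediv_self_le (x := Λ.U W) hN.ne'
  have u2 := Int.lt_mul_ediv_self_add (x := Λ.U W) hN
  have v1 := Int.mul_ediv_self_le (x := Λ.V W) hN.ne'
  have v2 := Int.lt_mul_ediv_self_add (x := Λ.V W) hN
  have eu : Λ.U (2 * W.1, 2 * W.2) = 2 * Λ.U W := by unfold U; ring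
  have ev : Λ.V (2 * W.1, 2 * W.2) = 2 * Λ.V W := by unfold V; ring
  refine Λ.cr0_of_dot (t := (2 * W.1, 2 * W.2)) a1 a2 a3 a4 ?_ ?_ ?_ ?_ ?_ ?_ ?_ ?_
  · rw [eu]; simp only [faceP]; linarith
  · rw [eu]; simp only [faceP]; linarith
  · rw [ev]; simp only [faceP]; linarith
  · rw [ev]; simp only [faceP]; linarith
  · rcases dir_cases k with rfl | rfl | rfl | rfl <;> rw [abs_le] <;>
      simp [U, ctr, lc] <;> constructor <;> linarith
  · rcases dir_cases k with rfl | rfl | rfl | rfl <;> rw [abs_le] <;>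
      simp [V, ctr, lc] <;> constructor <;> linarith
  · intro X
    have o : ∀ x : ℤ, 0 ≤ x * (x + 1) := fun x => by nlinarith [sq_nonneg (2 * x + 1), Int.le_self_sq x, Int.le_self_sq (-x)]
    have o1 := o (2 * (W.1 - X.1))
    have o2 := o (2 * (W.2 - X.2))
    have o3 := o (2 * (X.1 - W.1))
    have o4 := o (2 * (X.2 - W.2))
    rcases dir_cases k with rfl | rfl | rfl | rfl <;> simp [ctr, lc] <;> nlinarith
  · rintro T ⟨h1, h2⟩
    rw [eu] at h1; rw [ev] at h2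
    exact hW ⟨T, Λ.eq_gm_of_UV (by linarith) (by linarith)⟩

theorem Cr0.neg {δ : Pt} (h : Cr0 δ) : Cr0 (-δ) := by
  rcases h with rfl | rfl | rfl | rfl | rfl <;> unfold Cr0 <;> decide

theorem tr_tr {c d : Pt} (h : EdgeAdj c d) (g : Ori) : Λ.tr d c (Λ.tr c d g) = g := by
  unfold tr
  rw [← neg_sub (Λ.face d) (Λ.face c)]
  exact roll_roll_neg (Λ.cr0_face_adj h) g

theorem tr_act {c d : Pt} (h : EdgeAdj c d) (k : Dir) (T : Pt) (g : Ori) :
    Λ.tr (rotC k c + Λ.gm T) (rotC k d + Λ.gm T) (spin k g) = spin k (Λ.tr c d g) := by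
  unfold tr
  rw [face_act, face_act, add_sub_add_right_eq_sub, rotC_sub]
  exact roll_spin (Λ.cr0_face_adj h) k g

/-- Transport once around a lattice point that is not a vertex of the cube is trivial. -/
theorem tr_loop {W : Pt} (hW : ¬Λ.IsV W) (k : Dir) (g : Ori) :
    Λ.tr (lc W (k + 3)) (lc W k) (Λ.tr (lc W (k + 2)) (lc W (k + 3))
      (Λ.tr (lc W (k + 1)) (lc W (k + 2)) (Λ.tr (lc W k) (lc W (k + 1)) g))) = g := by
  have c : ∀ l, Cr0 (Λ.face (lc W l) - Λ.faceP W) := fun l => by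
    rw [← neg_sub]; exact Cr0.neg (Λ.cr0_faceP hW l)
  have step : ∀ l h, Λ.tr (lc W l) (lc W (l + 1)) (roll h (Λ.face (lc W l) - Λ.faceP W)) =
      roll h (Λ.face (lc W (l + 1)) - Λ.faceP W) := by
    intro l h
    have e : Λ.face (lc W (l + 1)) - Λ.face (lc W l) =
        (Λ.face (lc W (l + 1)) - Λ.faceP W) - (Λ.face (lc W l) - Λ.faceP W) := by abel
    unfold tr
    rw [e]
    exact roll_roll_sub (c l) (c (l + 1)) (e ▸ Λ.cr0_face_adj (edgeAdj_lc_succ W l)) h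
  have e0 := roll_neg_roll (c k) g
  have e1 : k + 2 = k + 1 + 1 := (dir_a11 k).symm
  have e2 : k + 3 = k + 2 + 1 := (dir_a21 k).symm
  have e3 : k = k + 3 + 1 := (dir_a31 k).symm
  rw [← e0, step]
  conv_lhs => rw [e1, step, ← e1, e2, step, ← e2]
  have := step (k + 3) (roll g (-(Λ.face (lc W k) - Λ.faceP W)))
  rw [← e3] at this
  rw [this]

theorem face_zero : Λ.face (0, 0) = (0, 0) ∨ Λ.face (0, 0) = (0, -1) := by
  have hp := Λ.hp
  have hq := Λ.hq
  have hpq := Λ.p_add_q_le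
  rcases le_total Λ.q Λ.p with h | h
  · left; apply face_unique <;> simp [U, V, ctr] <;> linarith
  · right; apply face_unique <;> simp [U, V, ctr] <;> linarith

theorem rotE_four {s : ESt} (h : ¬Λ.IsV s.1) : Λ.rotE^[4] s = s := by
  obtain ⟨W, k, g⟩ := s
  have e1 := dir_a11 k
  have e2 := dir_a21 k
  have e3 := dir_a31 k
  simp only [Function.iterate_succ, Function.iterate_zero, Function.comp, id, rotE, e1, e2, e3]
  rw [Λ.tr_loop h]

theorem rotE_three {s : ESt} (h : Λ.IsV s.1) : Λ.EqvE 3 s (Λ.rotE^[3] s) := by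
  obtain ⟨W, k, g⟩ := s
  obtain ⟨T, rfl⟩ := h
  have e1 : k + 1 + 1 = k + 2 := by revert k; decide
  have e2 : k + 2 + 1 = k + 3 := by revert k; decide
  simp only [Function.iterate_succ, Function.iterate_zero, Function.comp, id, rotE, e1, e2]
  refine ⟨⟨T + -rotP 3 T, ?_⟩, rfl, ?_⟩
  · simp only; rw [gm_add, gm_neg, rotP_gm]; abel
  · simp only [tr, lc_eq, face_act, add_sub_add_right_eq_sub]
    rcases Λ.face_zero with h | h <;> rw [h] <;> revert k g <;> decide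

theorem revE_revE (s : ESt) : Λ.revE (Λ.revE s) = s := by
  obtain ⟨W, k, g⟩ := s
  have e : k + 2 + 2 = k := by revert k; decide
  simp only [revE, lc_rev, rc_rev, e, Λ.tr_tr (edgeAdj_lc_rc W k)]
  rw [dv_add_two]; simp

theorem EqvE.refl (s : ESt) : Λ.EqvE 0 s s :=
  ⟨⟨0, by rw [gm_zero, rotP_zero, add_zero]⟩, (add_zero _).symm, rfl⟩

variable {Λ}

theorem EqvE.trans {k l : Dir} {s t u : ESt} (h : Λ.EqvE k s t) (h' : Λ.EqvE l t u) :
    Λ.EqvE (k + l) s u := by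
  obtain ⟨⟨T, h1⟩, h2, h3⟩ := h
  obtain ⟨⟨T', g1⟩, g2, g3⟩ := h'
  refine ⟨⟨rotP l T + T', ?_⟩, by rw [g2, h2, add_assoc], by rw [g3, h3, spin_spin]⟩
  rw [g1, h1, rotP_add, rotP_rotP, rotP_gm, gm_add, add_assoc]

theorem EqvE.symm {k : Dir} {s t : ESt} (h : Λ.EqvE k s t) : Λ.EqvE (-k) t s := by
  obtain ⟨⟨T, h1⟩, h2, h3⟩ := h
  refine ⟨⟨-rotP (-k) T, ?_⟩, by rw [h2]; simp, by rw [h3, spin_spin]; simp [spin_zero]⟩
  rw [h1, rotP_add, rotP_rotP, rotP_gm, gm_neg]; simp [rotP_zero]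

theorem EqvE.isV {k : Dir} {s t : ESt} (h : Λ.EqvE k s t) : Λ.IsV t.1 ↔ Λ.IsV s.1 := by
  obtain ⟨⟨T, h1⟩, -, -⟩ := h
  rw [h1, isV_act]

theorem EqvE.rotE {k : Dir} {s t : ESt} (h : Λ.EqvE k s t) :
    Λ.EqvE k (Λ.rotE s) (Λ.rotE t) := by
  obtain ⟨⟨T, h1⟩, h2, h3⟩ := h
  refine ⟨⟨T, h1⟩, by simp only [Lat.rotE, h2]; abel, ?_⟩
  simp only [Lat.rotE, h1, h2, h3]
  rw [add_right_comm s.2.1 k 1, lc_add, lc_add, lc_rot, lc_rot, Λ.tr_act (edgeAdj_lc_succ _ _)]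

theorem EqvE.iter {k : Dir} {s t : ESt} (h : Λ.EqvE k s t) (n : ℕ) :
    Λ.EqvE k (Λ.rotE^[n] s) (Λ.rotE^[n] t) := by
  induction n generalizing s t with
  | zero => exact h
  | succ n ih => exact ih h.rotE

theorem EqvE.revE {k : Dir} {s t : ESt} (h : Λ.EqvE k s t) :
    Λ.EqvE k (Λ.revE s) (Λ.revE t) := by
  obtain ⟨⟨T, h1⟩, h2, h3⟩ := h
  refine ⟨⟨T, ?_⟩, by simp only [Lat.revE, h2]; abel, ?_⟩
  · simp only [Lat.revE, h1, h2, rotP_add, rotP_dv]; abel
  · simp only [Lat.revE, h1, h2, h3, rc_eq]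
    rw [add_right_comm s.2.1 k 3, lc_add, lc_add, lc_rot, lc_rot, ← rc_eq,
      Λ.tr_act (edgeAdj_lc_rc _ _)]

theorem EqvE.eqvC {k : Dir} {s t : ESt} (h : Λ.EqvE k s t) :
    Λ.EqvC k (lc s.1 s.2.1) s.2.2 (lc t.1 t.2.1) t.2.2 := by
  obtain ⟨⟨T, h1⟩, h2, h3⟩ := h
  exact ⟨⟨T, by rw [h1, h2, lc_add, lc_rot]⟩, h3⟩

theorem iter_fst (s : ESt) (n : ℕ) : (Λ.rotE^[n] s).1 = s.1 := by
  induction n generalizing s with
  | zero => rfl
  | succ n ih => rw [Function.iterate_succ, Function.comp, ih]; rfl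

end Lat

end Pool.Agent.Lib.MP_4a7072_co
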