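import Pool.Agent.Lib.MP_4a7072_co.RBase

/-!
Counting fibres: a glued development with 24 corners covers every cell of the cube exactly once.
-/

set_option autoImplicit false

namespace Pool.Agent.Lib.MP_4a7072_co

open Finset

theorem cnt_lc_sub (d : Pt) (m : Dir) : lc (d - rotC m (0, 0)) m = d := by
  rw [lc_eq]; abel

theorem cnt_lc_inj {Q Q' : Pt} {m : Dir} (h : lc Q m = lc Q' m) : Q = Q' := by
  rw [lc_eq, lc_eq] at h; exact add_left_cancel h

theorem cnt_eqvC_refl (Λ : Lat) (c : Pt) (g : Ori) : Λ.EqvC 0 c g c g :=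
  ⟨⟨0, by rw [Λ.gm_zero, rotC_zero, add_zero]⟩, rfl⟩

theorem cnt_eqvC_trans {Λ : Lat} {k l : Dir} {c d e : Pt} {g g' g'' : Ori}
    (h : Λ.EqvC k c g d g') (h' : Λ.EqvC l d g' e g'') : Λ.EqvC (k + l) c g e g'' := by
  obtain ⟨⟨T, h1⟩, h3⟩ := h
  obtain ⟨⟨T', g1⟩, g3⟩ := h'
  refine ⟨⟨rotP l T + T', ?_⟩, by rw [g3, h3, spin_spin]⟩
  rw [g1, h1, rotC_add, rotC_rotC, Λ.rotP_gm, Λ.gm_add, add_assoc]

theorem cnt_eqvC_symm {Λ : Lat} {k : Dir} {c d : Pt} {g g' : Ori}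
    (h : Λ.EqvC k c g d g') : Λ.EqvC (-k) d g' c g := by
  obtain ⟨⟨T, h1⟩, h3⟩ := h
  refine ⟨⟨-rotP (-k) T, ?_⟩, by rw [h3, spin_spin]; simp [spin_zero]⟩
  rw [h1, rotC_add, rotC_rotC, Λ.rotP_gm, Λ.gm_neg]; simp [rotC_zero]

theorem cnt_eqvE_of {Λ : Lat} {k m : Dir} {Q Q' : Pt} {g g' : Ori}
    (h : Λ.EqvC k (lc Q m) g (lc Q' (m + k)) g') : Λ.EqvE k (Q, m, g) (Q', m + k, g') := by
  obtain ⟨⟨T, h1⟩, h3⟩ := h
  refine ⟨⟨T, cnt_lc_inj (m := m + k) ?_⟩, rfl, h3⟩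
  rw [lc_add, lc_rot]; exact h1

open Classical in
/-- The cells of `S` that cover the cell `c` of the cube in orientation `g`. -/
noncomputable def fib (Λ : Lat) (S : Finset Pt) (Φ : Pt → Ori) (c : Pt) (g : Ori) :
    Finset (Pt × Dir) :=
  (S ×ˢ univ).filter fun x => Λ.EqvC x.2 c g x.1 (Φ x.1)

variable {Λ : Lat} {S : Finset Pt} {Φ : Pt → Ori}

theorem mem_fib {c : Pt} {g : Ori} {x : Pt × Dir} :
    x ∈ fib Λ S Φ c g ↔ x.1 ∈ S ∧ Λ.EqvC x.2 c g x.1 (Φ x.1) := by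
  simp [fib]

theorem fib_le_of_eqv {k : Dir} {c d : Pt} {g g' : Ori} (h : Λ.EqvC k c g d g') :
    (fib Λ S Φ d g').card ≤ (fib Λ S Φ c g).card := by
  refine card_le_card_of_injOn (fun x => (x.1, k + x.2)) (fun x hx => ?_) fun x _ y _ hxy => ?_
  · have hx := mem_fib.1 hx
    exact mem_fib.2 ⟨hx.1, cnt_eqvC_trans h hx.2⟩
  · simp only [Prod.mk.injEq, add_right_inj] at hxy
    exact Prod.ext hxy.1 hxy.2

theorem fib_eqv {k : Dir} {c d : Pt} {g g' : Ori} (h : Λ.EqvC k c g d g') :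
    (fib Λ S Φ c g).card = (fib Λ S Φ d g').card :=
  le_antisymm (fib_le_of_eqv (cnt_eqvC_symm h)) (fib_le_of_eqv h)

/-- Crossing an edge: an injective map on the edges whose left cell is in `S`. -/
theorem exists_cross (hD : Λ.Dev S Φ) (hG : Λ.Glue S Φ) : ∃ ρ : Pt × Dir → Pt × Dir,
    (∀ e, lc e.1 e.2 ∈ S → lc (ρ e).1 (ρ e).2 ∈ S ∧
      ∃ k, Λ.EqvE k (Λ.revE (est Φ e)) (est Φ (ρ e))) ∧
    ∀ e e', lc e.1 e.2 ∈ S → lc e'.1 e'.2 ∈ S → ρ e = ρ e' → e = e' := by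
  classical
  obtain ⟨σ, h1, h2, h3⟩ := hG
  refine ⟨fun e => if rc e.1 e.2 ∈ S then (e.1 + dv e.2, e.2 + 2) else σ e, fun e he => ?_,
    fun e e' he he' h => ?_⟩
  · by_cases hr : rc e.1 e.2 ∈ S
    · simp only [if_pos hr, lc_rev]
      refine ⟨hr, 0, ?_⟩
      have : est Φ (e.1 + dv e.2, e.2 + 2) = Λ.revE (est Φ e) := by
        simp only [est, Lat.revE, lc_rev]
        rw [hD _ he _ hr (edgeAdj_lc_rc _ _)]
      rw [this]
      exact Lat.EqvE.refl _ _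
    · simp only [if_neg hr]
      exact ⟨(h1 e ⟨he, hr⟩).1, h3 e ⟨he, hr⟩⟩
  · by_cases hr : rc e.1 e.2 ∈ S <;> by_cases hr' : rc e'.1 e'.2 ∈ S
    · simp only [if_pos hr, if_pos hr', Prod.mk.injEq] at h
      have h4 : e.2 = e'.2 := add_right_cancel h.2
      refine Prod.ext ?_ h4
      have h5 := h.1
      rw [h4] at h5
      exact add_right_cancel h5
    · simp only [if_pos hr, if_neg hr'] at h
      have h4 := (h1 e' ⟨he', hr'⟩).2
      rw [← h] at h4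
      simp only [rc_rev] at h4
      exact (h4 he).elim
    · simp only [if_neg hr, if_pos hr'] at h
      have h4 := (h1 e ⟨he, hr⟩).2
      rw [h] at h4
      simp only [rc_rev] at h4
      exact (h4 he').elim
    · simp only [if_neg hr, if_neg hr'] at h
      exact h2 e e' ⟨he, hr⟩ ⟨he', hr'⟩ h

theorem fib_le_edge (hD : Λ.Dev S Φ) (hG : Λ.Glue S Φ) (Q : Pt) (m : Dir) (g : Ori) :
    (fib Λ S Φ (lc Q m) g).card ≤
      (fib Λ S Φ (rc Q m) (Λ.tr (lc Q m) (rc Q m) g)).card := by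
  obtain ⟨ρ, h1, h2⟩ := exists_cross hD hG
  refine card_le_card_of_injOn (fun x =>
    (lc (ρ (x.1 - rotC (m + x.2) (0, 0), m + x.2)).1 (ρ (x.1 - rotC (m + x.2) (0, 0), m + x.2)).2,
      (ρ (x.1 - rotC (m + x.2) (0, 0), m + x.2)).2 - (m + 2))) (fun x hx => ?_)
    fun x hx y hy hxy => ?_
  · have hx := mem_fib.1 hx
    obtain ⟨h3, k, h4⟩ := h1 (x.1 - rotC (m + x.2) (0, 0), m + x.2)
      (by simp only [cnt_lc_sub]; exact hx.1)
    have h5 : Λ.EqvE x.2 (Q, m, g) (est Φ (x.1 - rotC (m + x.2) (0, 0), m + x.2)) := by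
      refine cnt_eqvE_of ?_
      simp only [cnt_lc_sub]
      exact hx.2
    have h6 := h5.revE.trans h4
    have h7 := h6.eqvC
    have h8 := h6.2.1
    simp only [Lat.revE, est, lc_rev] at h7 h8
    refine mem_fib.2 ⟨h3, ?_⟩
    simp only
    rw [show (ρ (x.1 - rotC (m + x.2) (0, 0), m + x.2)).2 - (m + 2) = x.2 + k by
      rw [h8]; abel]
    exact h7
  · have hx := mem_fib.1 hx
    have hy := mem_fib.1 hy
    simp only [Prod.mk.injEq, sub_left_inj] at hxy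
    obtain ⟨h3, h4⟩ := hxy
    rw [h4] at h3
    have h5 := h2 _ _ (by simp only [cnt_lc_sub]; exact hx.1)
      (by simp only [cnt_lc_sub]; exact hy.1) (Prod.ext (cnt_lc_inj h3) h4)
    simp only [Prod.mk.injEq, add_right_inj] at h5
    refine Prod.ext ?_ h5.2
    have h6 := h5.1
    rw [h5.2] at h6
    exact sub_left_inj.1 h6

theorem fib_le_adj (hD : Λ.Dev S Φ) (hG : Λ.Glue S Φ) {c d : Pt} (h : EdgeAdj c d) (g : Ori) :
    (fib Λ S Φ c g).card ≤ (fib Λ S Φ d (Λ.tr c d g)).card := by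
  obtain ⟨j, rfl⟩ := (edgeAdj_iff _ _).1 h
  have h1 := fib_le_edge hD hG (c - rotC (j + 1) (0, 0)) (j + 1) g
  rw [rc_eq_add, cnt_lc_sub, (by decide : ∀ j : Dir, j + 1 + 3 = j)] at h1
  exact h1

theorem fib_adj (hD : Λ.Dev S Φ) (hG : Λ.Glue S Φ) {c d : Pt} (h : EdgeAdj c d) (g : Ori) :
    (fib Λ S Φ c g).card = (fib Λ S Φ d (Λ.tr c d g)).card := by
  refine le_antisymm (fib_le_adj hD hG h g) ?_
  have h' : EdgeAdj d c := by unfold EdgeAdj at *; rw [abs_sub_comm d.1, abs_sub_comm d.2]; exact h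
  have h1 := fib_le_adj hD hG h' (Λ.tr c d g)
  rwa [Λ.tr_tr h] at h1

/-- Rolling east as a permutation of the orientations. -/
def rollE : Equiv.Perm Ori where
  toFun g := roll g (1, 0)
  invFun g := roll g (-1, 0)
  left_inv := by decide
  right_inv := by decide

theorem roll_eq_zpow {δ : Pt} (h : Cr0 δ) (h0 : δ.2 = 0) (g : Ori) :
    roll g δ = (rollE ^ δ.1) g := by
  rcases h with rfl | rfl | rfl | rfl | rfl
  · simp [roll_zero]
  · simp [rollE]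
  · rw [show ((-1, 0) : Pt).1 = -1 from rfl, zpow_neg_one]; rfl
  · simp at h0
  · simp at h0

theorem face_snd_unique (Λ : Lat) {c : Pt} {t : ℤ} (h3 : 2 * Λ.N * t ≤ Λ.V (ctr c))
    (h4 : Λ.V (ctr c) ≤ 2 * Λ.N * (t + 1)) : (Λ.face c).2 = t := by
  obtain ⟨a1, a2, -, -⟩ := Λ.face_bounds c
  exact congrArg Prod.snd (Λ.face_unique (F := ((Λ.face c).1, t)) a1.le a2.le h3 h4)

theorem fib_strip_step (hD : Λ.Dev S Φ) (hG : Λ.Glue S Φ) {c d e : Pt} (h : EdgeAdj c d)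
    (h1 : (Λ.face d).2 = (Λ.face c).2)
    (h2 : ∀ g, (fib Λ S Φ d g).card =
      (fib Λ S Φ e ((rollE ^ ((Λ.face e).1 - (Λ.face d).1)) g)).card) (g : Ori) :
    (fib Λ S Φ c g).card = (fib Λ S Φ e ((rollE ^ ((Λ.face e).1 - (Λ.face c).1)) g)).card := by
  rw [fib_adj hD hG h, h2, Lat.tr, roll_eq_zpow (Λ.cr0_face_adj h) (sub_eq_zero.2 h1),
    ← Equiv.Perm.mul_apply, ← zpow_add, Prod.fst_sub, sub_add_sub_cancel]

/-- A staircase inside a row of big faces. -/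
theorem fib_strip (hD : Λ.Dev S Φ) (hG : Λ.Glue S Φ) (e : Pt) (n : ℕ) : ∀ (c : Pt) (a b : ℕ),
    a + b = n → e = c + ((a : ℤ), (b : ℤ)) → (Λ.face e).2 = (Λ.face c).2 → ∀ g,
    (fib Λ S Φ c g).card = (fib Λ S Φ e ((rollE ^ ((Λ.face e).1 - (Λ.face c).1)) g)).card := by
  induction n with
  | zero =>
    intro c a b hn he _ g
    obtain rfl : a = 0 := by omega
    obtain rfl : b = 0 := by omega
    obtain rfl : e = c := by rw [he]; ext <;> simp
    simp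
  | succ n ih =>
    intro c a b hn he hf g
    obtain ⟨-, -, c3, c4⟩ := Λ.face_bounds c
    obtain ⟨-, -, e3, e4⟩ := Λ.face_bounds e
    rw [hf] at e3 e4
    have hp := Λ.hp
    have hq := Λ.hq
    have hpq := Λ.p_add_q_le
    have ve : Λ.V (ctr e) = Λ.V (ctr c) + 2 * (Λ.p * b - Λ.q * a) := by
      rw [he]; simp only [Lat.V, ctr, Prod.fst_add, Prod.snd_add]; ring
    have vx : Λ.V (ctr (c + dv 0)) = Λ.V (ctr c) - 2 * Λ.q := by
      simp [Lat.V, ctr, dv]; ring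
    have vy : Λ.V (ctr (c + dv 1)) = Λ.V (ctr c) + 2 * Λ.p := by
      simp [Lat.V, ctr, dv]; ring
    have sx : 0 < a → 2 * Λ.N * (Λ.face c).2 ≤ Λ.V (ctr c) - 2 * Λ.q →
        (fib Λ S Φ c g).card =
          (fib Λ S Φ e ((rollE ^ ((Λ.face e).1 - (Λ.face c).1)) g)).card := fun ha h1 => by
      obtain ⟨a, rfl⟩ : ∃ a', a = a' + 1 := ⟨a - 1, by omega⟩
      have h2 : (Λ.face (c + dv 0)).2 = (Λ.face c).2 :=
        face_snd_unique Λ (by rw [vx]; exact h1) (by rw [vx]; linarith)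
      refine fib_strip_step hD hG (edgeAdj_add_dv c 0) h2
        (ih _ a b (by omega) ?_ (hf.trans h2.symm)) g
      rw [he]; ext <;> simp [dv]; ring
    have sy : 0 < b → Λ.V (ctr c) + 2 * Λ.p ≤ 2 * Λ.N * ((Λ.face c).2 + 1) →
        (fib Λ S Φ c g).card =
          (fib Λ S Φ e ((rollE ^ ((Λ.face e).1 - (Λ.face c).1)) g)).card := fun hb h1 => by
      obtain ⟨b, rfl⟩ : ∃ b', b = b' + 1 := ⟨b - 1, by omega⟩
      have h2 : (Λ.face (c + dv 1)).2 = (Λ.face c).2 :=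
        face_snd_unique Λ (by rw [vy]; linarith) (by rw [vy]; exact h1)
      refine fib_strip_step hD hG (edgeAdj_add_dv c 1) h2
        (ih _ a b (by omega) ?_ (hf.trans h2.symm)) g
      rw [he]; ext <;> simp [dv]; ring
    rcases Nat.eq_zero_or_pos a with rfl | ha
    · refine sy (by omega) ?_
      have h1 : (1 : ℤ) ≤ b := by omega
      have h2 := mul_le_mul_of_nonneg_left h1 hp.le
      simp only [Nat.cast_zero, mul_zero, sub_zero] at ve
      linarith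
    rcases Nat.eq_zero_or_pos b with rfl | hb
    · refine sx ha ?_
      have h1 : (1 : ℤ) ≤ a := by omega
      have h2 := mul_le_mul_of_nonneg_left h1 hq
      simp only [Nat.cast_zero, mul_zero, zero_sub] at ve
      linarith
    rcases le_total (2 * Λ.N * (Λ.face c).2) (Λ.V (ctr c) - 2 * Λ.q) with h1 | h1
    · exact sx ha h1
    · exact sy hb (by linarith)

theorem fib_rollE (hD : Λ.Dev S Φ) (hG : Λ.Glue S Φ) (c : Pt) (g : Ori) :
    (fib Λ S Φ c g).card = (fib Λ S Φ c (roll g (1, 0))).card := by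
  have h1 := fib_strip hD hG (c + Λ.gm (1, 0)) _ c Λ.p.toNat Λ.q.toNat rfl
    (by rw [Int.toNat_of_nonneg Λ.hp.le, Int.toNat_of_nonneg Λ.hq]; simp [Lat.gm])
    (by rw [Λ.face_add_gm]; simp) g
  rw [Λ.face_add_gm] at h1
  simp only [Prod.fst_add, add_sub_cancel_left, zpow_one] at h1
  rw [h1]
  exact (fib_eqv (k := 0) ⟨⟨(1, 0), rfl⟩, rfl⟩).symm

theorem fib_rollN (hD : Λ.Dev S Φ) (hG : Λ.Glue S Φ) (c : Pt) (g : Ori) :
    (fib Λ S Φ c g).card = (fib Λ S Φ c (spin 3 (roll (spin 1 g) (1, 0)))).card := by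
  have h1 : ∀ g, (fib Λ S Φ c g).card = (fib Λ S Φ (rotC 1 c) (spin 1 g)).card := fun g =>
    fib_eqv (k := 1) ⟨⟨0, by rw [Λ.gm_zero, add_zero]⟩, rfl⟩
  rw [h1, fib_rollE hD hG, h1, spin_spin]
  rfl

/-- A base orientation. -/
def ori0 : Ori := ⟨((0, true), (1, true)), by decide⟩

theorem ori_word : ∀ g : Ori, ∃ a b c : Fin 4, g = (fun g => roll g (1, 0))^[a.val]
    ((fun g => spin 3 (roll (spin 1 g) (1, 0)))^[b.val] ((fun g => roll g (1, 0))^[c.val] ori0)) := by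
  decide +kernel

theorem cnt_iter {f : Ori → Ori} {n : Ori → ℕ} (h : ∀ g, n g = n (f g)) (a : ℕ) (g : Ori) :
    n (f^[a] g) = n g := by
  induction a with
  | zero => rfl
  | succ a ih => rw [Function.iterate_succ_apply', ← h, ih]

theorem fib_ori (hD : Λ.Dev S Φ) (hG : Λ.Glue S Φ) (c : Pt) (g : Ori) :
    (fib Λ S Φ c g).card = (fib Λ S Φ c ori0).card := by
  obtain ⟨a, b, d, rfl⟩ := ori_word g
  rw [cnt_iter (n := fun g => (fib Λ S Φ c g).card) (fib_rollE hD hG c),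
    cnt_iter (n := fun g => (fib Λ S Φ c g).card) (fib_rollN hD hG c),
    cnt_iter (n := fun g => (fib Λ S Φ c g).card) (fib_rollE hD hG c)]

theorem fib_const (hD : Λ.Dev S Φ) (hG : Λ.Glue S Φ) (c : Pt) (g : Ori) :
    (fib Λ S Φ c g).card = (fib Λ S Φ (0, 0) ori0).card := by
  have st : ∀ c j, (fib Λ S Φ (c + dv j) ori0).card = (fib Λ S Φ c ori0).card := fun c j => by
    rw [fib_adj hD hG (edgeAdj_add_dv c j), fib_ori hD hG (c + dv j) (Λ.tr _ _ _)]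
  have hx : ∀ x y : ℤ, (fib Λ S Φ (x, y) ori0).card = (fib Λ S Φ (0, y) ori0).card := by
    intro x y
    induction x using Int.induction_on with
    | zero => rfl
    | succ i ih => rw [← ih, ← st ((i : ℤ), y) 0]; simp [dv]
    | pred i ih => rw [← ih, ← st (-(i : ℤ), y) 2]; simp [dv, sub_eq_add_neg]
  have hy : ∀ y : ℤ, (fib Λ S Φ (0, y) ori0).card = (fib Λ S Φ (0, 0) ori0).card := by
    intro y
    induction y using Int.induction_on with
    | zero => rfl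
    | succ i ih => rw [← ih, ← st (0, (i : ℤ)) 1]; simp [dv]
    | pred i ih => rw [← ih, ← st (0, -(i : ℤ)) 3]; simp [dv, sub_eq_add_neg]
  rw [fib_ori hD hG, ← hy c.2, ← hx c.1 c.2]

theorem spin_eq_iff (k : Dir) (g g' : Ori) : spin (-k) g' = g ↔ g' = spin k g := by
  constructor
  · rintro rfl; rw [spin_spin, neg_add_cancel, spin_zero]
  · rintro rfl; rw [spin_spin, add_neg_cancel, spin_zero]

theorem card_ori : Fintype.card Ori = 24 := by decide +kernel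

theorem corners_ncard (Λ : Lat) (S : Finset Pt) (Φ : Pt → Ori) :
    (Λ.corners S).ncard = ∑ g, (fib Λ S Φ (0, 0) g).card := by
  classical
  have h1 : Λ.corners S = (fun x : Pt × Dir => (x.1 - rotC x.2 (0, 0), x.2)) ''
      ↑((S ×ˢ (univ : Finset Dir)).filter fun x => ∃ T, x.1 = rotC x.2 (0, 0) + Λ.gm T) := by
    ext e
    simp only [Lat.corners, Set.mem_ofPred_eq, Set.mem_image, coe_filter, mem_product, mem_univ,
      and_true]
    constructor
    · rintro ⟨⟨T, h1⟩, h2⟩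
      refine ⟨(lc e.1 e.2, e.2), ⟨h2, T, by rw [lc_eq, h1]⟩, ?_⟩
      rw [lc_eq, add_sub_cancel_left]
    · rintro ⟨x, ⟨h2, T, h1⟩, rfl⟩
      exact ⟨⟨T, by simp only; rw [h1, add_sub_cancel_left]⟩, by simp only [cnt_lc_sub]; exact h2⟩
  have h2 : Function.Injective fun x : Pt × Dir => (x.1 - rotC x.2 (0, 0), x.2) := by
    intro x y h
    simp only [Prod.mk.injEq] at h
    refine Prod.ext ?_ h.2
    have h3 := h.1
    rw [h.2] at h3
    exact sub_left_inj.1 h3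
  rw [h1, Set.ncard_image_of_injective _ h2, Set.ncard_coe_finset,
    card_eq_sum_card_fiberwise (f := fun x => spin (-x.2) (Φ x.1)) (t := univ)
      fun _ _ => mem_coe.2 (mem_univ _)]
  refine sum_congr rfl fun g _ => congrArg card ?_
  ext x
  simp only [mem_filter, mem_product, mem_univ, and_true, mem_fib, Lat.EqvC, spin_eq_iff,
    and_assoc]

theorem card_box (Λ : Lat) (hq : Λ.q = 0) (S : Finset Pt) (Φ : Pt → Ori) :
    S.card * 4 = ∑ y ∈ (Ico (0 : ℤ) Λ.L ×ˢ Ico (0 : ℤ) Λ.L) ×ˢ (univ : Finset Ori),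
      (fib Λ S Φ y.1 y.2).card := by
  classical
  have hL : (0 : ℤ) < Λ.L := by exact_mod_cast Λ.L_pos
  have hp : Λ.p = Λ.L := by
    have h := Λ.h
    rw [hq] at h
    exact (pow_left_inj₀ Λ.hp.le hL.le two_ne_zero).1 (by linarith)
  have h1 : S.card * 4 = (S ×ˢ (univ : Finset Dir)).card := by simp
  rw [h1, card_eq_sum_card_fiberwise (f := fun x : Pt × Dir =>
    ((((rotC (-x.2) x.1).1 % Λ.L, (rotC (-x.2) x.1).2 % Λ.L) : Pt), spin (-x.2) (Φ x.1)))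
    (t := (Ico (0 : ℤ) Λ.L ×ˢ Ico (0 : ℤ) Λ.L) ×ˢ (univ : Finset Ori)) fun x _ => by
      simp [Int.emod_nonneg _ hL.ne', Int.emod_lt_of_pos _ hL]]
  refine sum_congr rfl fun y hy => congrArg card ?_
  simp only [mem_product, mem_Ico, mem_univ, and_true] at hy
  obtain ⟨⟨y1, y2⟩, y3, y4⟩ := hy
  ext x
  simp only [mem_filter, mem_product, mem_univ, and_true, mem_fib]
  refine and_congr_right fun _ => ⟨fun h => ?_, fun h => ?_⟩
  · have h2 : Λ.EqvC (-x.2) x.1 (Φ x.1) y.1 y.2 := by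
      rw [← h]
      refine ⟨⟨(-((rotC (-x.2) x.1).1 / Λ.L), -((rotC (-x.2) x.1).2 / Λ.L)), ?_⟩, rfl⟩
      ext <;> simp [Lat.gm, hp, hq, Int.emod_def, sub_eq_add_neg]
    simpa using cnt_eqvC_symm h2
  · obtain ⟨⟨T, h2⟩, h3⟩ := cnt_eqvC_symm h
    have h4 : rotC (-x.2) x.1 = y.1 - Λ.gm T := by rw [h2, add_sub_cancel_right]
    rw [h4, ← h3]
    refine Prod.ext (Prod.ext ?_ ?_) rfl
    · simp [Lat.gm, hp, hq, Int.emod_eq_of_lt y1 y2]
    · simp [Lat.gm, hp, hq, Int.emod_eq_of_lt y3 y4]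

theorem cover_once (Λ : Lat) (S : Finset Pt) (Φ : Pt → Ori) (hD : Λ.Dev S Φ) (hG : Λ.Glue S Φ)
    (h24 : (Λ.corners S).ncard = 24) :
    (∀ c ∈ S, ∀ d ∈ S, ∀ k, Λ.EqvC k c (Φ c) d (Φ d) → c = d ∧ k = 0) ∧
    (∀ c g, ∃ d ∈ S, ∃ k, Λ.EqvC k c g d (Φ d)) ∧
    (Λ.q = 0 → S.card = 6 * Λ.L ^ 2) := by
  have h1 : ∀ c g, (fib Λ S Φ c g).card = 1 := by
    rw [corners_ncard Λ S Φ] at h24
    simp only [fib_const hD hG (0, 0), sum_const, card_univ, card_ori, smul_eq_mul] at h24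
    intro c g
    rw [fib_const hD hG]
    omega
  refine ⟨fun c hc d hd k h => ?_, fun c g => ?_, fun hq => ?_⟩
  · have h2 := card_le_one.1 (h1 c (Φ c)).le (c, 0) (mem_fib.2 ⟨hc, cnt_eqvC_refl Λ _ _⟩) (d, k)
      (mem_fib.2 ⟨hd, h⟩)
    exact ⟨congrArg Prod.fst h2, (congrArg Prod.snd h2).symm⟩
  · obtain ⟨x, hx⟩ := card_pos.1 (h1 c g).ge
    exact ⟨x.1, (mem_fib.1 hx).1, x.2, (mem_fib.1 hx).2⟩
  · have h2 := card_box Λ hq S Φ
    simp only [h1, sum_const, card_product, Int.card_Ico, sub_zero, Int.toNat_natCast, card_univ,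
      card_ori, smul_eq_mul] at h2
    rw [sq]
    omega

end Pool.Agent.Lib.MP_4a7072_co
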