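import Pool.Agent.Lib.MP_4a7072_co.Defs

/-!
Definitions for folding a polyomino bounded by a lattice curve into a cube whose edge vector is a
Gaussian integer `p + q i` (rotated lattice).
-/

set_option autoImplicit false

namespace Pool.Agent.Lib.MP_4a7072_co

/-- Lattice points, and cells (named by the lower left corner). -/
abbrev Pt := ℤ × ℤ

/-- Directions: east, north, west, south. -/
abbrev Dir := Fin 4

/-- The unit vector of a direction. -/
def dv (k : Dir) : Pt := ![(1, 0), (0, 1), (-1, 0), (0, -1)] k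

/-- Rotation of a point about the origin by `k` quarter turns. -/
def rotP (k : Dir) (z : Pt) : Pt := ![z, (-z.2, z.1), (-z.1, -z.2), (z.2, -z.1)] k

/-- Rotation of a cell about the origin by `k` quarter turns. -/
def rotC (k : Dir) (c : Pt) : Pt :=
  ![c, (-c.2 - 1, c.1), (-c.1 - 1, -c.2 - 1), (c.2, -c.1 - 1)] k

/-- The cell on the left of the edge that starts at `Q` in direction `k`. -/
def lc (Q : Pt) (k : Dir) : Pt :=
  ![Q, (Q.1 - 1, Q.2), (Q.1 - 1, Q.2 - 1), (Q.1, Q.2 - 1)] k

/-- The cell on the right of the edge that starts at `Q` in direction `k`. -/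
def rc (Q : Pt) (k : Dir) : Pt := lc Q (k - 1)

/-! ### Orientations of the cube -/

/-- A signed coordinate axis of space. -/
abbrev Ax := Fin 3 × Bool

/-- The opposite axis. -/
def Ax.neg (a : Ax) : Ax := (a.1, !a.2)

/-- The cross product of two different signed axes. -/
def Ax.cr (a b : Ax) : Ax :=
  if b.1 = a.1 + 1 then (a.1 + 2, a.2 == b.2) else (a.1 + 1, a.2 != b.2)

/-- The unit vector of a signed axis (`true` is the positive sign). -/
def Ax.vec (a : Ax) (i : Fin 3) : ℤ := if i = a.1 then (if a.2 then 1 else -1) else 0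

/-- An orientation of the cube: the images of east and north. There are 24. -/
abbrev Ori := {m : Ax × Ax // m.1.1 ≠ m.2.1}

theorem Ax.cr_ne_left : ∀ a b : Ax, a.1 ≠ b.1 → a.1 ≠ (Ax.cr a b).1 := by decide
theorem Ax.cr_ne_right : ∀ a b : Ax, a.1 ≠ b.1 → (Ax.cr a b).1 ≠ b.1 := by decide

/-- The inner normal of the face on which the cube stands. -/
def Ori.e3 (g : Ori) : Ax := Ax.cr g.1.1 g.1.2

/-- Rolling to the neighbouring big face at offset `δ` (no change unless `δ` is a unit vector). -/
def roll (g : Ori) (δ : Pt) : Ori :=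
  if δ = (1, 0) then ⟨(g.e3, g.1.2), Ax.cr_ne_right _ _ g.2⟩
  else if δ = (-1, 0) then ⟨(g.e3.neg, g.1.2), Ax.cr_ne_right _ _ g.2⟩
  else if δ = (0, 1) then ⟨(g.1.1, g.e3), Ax.cr_ne_left _ _ g.2⟩
  else if δ = (0, -1) then ⟨(g.1.1, g.e3.neg), Ax.cr_ne_left _ _ g.2⟩
  else g

/-- The change of orientation that compensates one quarter turn of the plane. -/
def spin1 (g : Ori) : Ori := ⟨(g.1.2.neg, g.1.1), fun h => g.2 h.symm⟩

/-- The change of orientation that compensates `k` quarter turns of the plane. -/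
def spin (k : Dir) (g : Ori) : Ori := spin1^[k.val] g

/-! ### The lattice of cube vertices -/

/-- The edge vector `p + q i` of a cube of side `L`. -/
structure Lat where
  p : ℤ
  q : ℤ
  L : ℕ
  hp : 0 < p
  hq : 0 ≤ q
  h : p ^ 2 + q ^ 2 = (L : ℤ) ^ 2

namespace Lat

variable (Λ : Lat)

/-- Multiplication by `p + q i`. -/
def gm (T : Pt) : Pt := (Λ.p * T.1 - Λ.q * T.2, Λ.q * T.1 + Λ.p * T.2)

/-- `W` is a vertex of the big lattice. -/
def IsV (W : Pt) : Prop := ∃ T, W = Λ.gm T

/-- The big face that contains the centre of the cell `c`. -/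
def face (c : Pt) : Pt :=
  (((2 * c.1 + 1) * Λ.p + (2 * c.2 + 1) * Λ.q) / (2 * (Λ.L : ℤ) ^ 2),
    ((2 * c.2 + 1) * Λ.p - (2 * c.1 + 1) * Λ.q) / (2 * (Λ.L : ℤ) ^ 2))

/-- Transport of an orientation from the cell `c` to the adjacent cell `d`. -/
def tr (c d : Pt) (g : Ori) : Ori := roll g (Λ.face d - Λ.face c)

/-- `Φ` is a development of the cube on `S`. -/
def Dev (S : Finset Pt) (Φ : Pt → Ori) : Prop :=
  ∀ c ∈ S, ∀ d ∈ S, EdgeAdj c d → Φ d = Λ.tr c d (Φ c)

/-- No vertex of the big lattice is an inner point of `S`. -/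
def NoInnerV (S : Finset Pt) : Prop := ∀ W, Λ.IsV W → ∃ k, lc W k ∉ S

/-- The cell `c` with orientation `g` and the cell `d` with orientation `g'` are the same cell of
the cube, turned by `k`. -/
def EqvC (k : Dir) (c : Pt) (g : Ori) (d : Pt) (g' : Ori) : Prop :=
  (∃ T, d = rotC k c + Λ.gm T) ∧ g' = spin k g

end Lat

/-- No two cells of `S` touch in a corner only. -/
def NoPinch (S : Finset Pt) : Prop :=
  ∀ W k, lc W k ∈ S → lc W (k + 2) ∈ S → lc W (k + 1) ∈ S ∨ lc W (k + 3) ∈ S

/-- A directed edge with an orientation of the cube on its left cell. -/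
abbrev ESt := Pt × Dir × Ori

namespace Lat

variable (Λ : Lat)

/-- Turn the edge counterclockwise about its starting point. -/
def rotE (s : ESt) : ESt := (s.1, s.2.1 + 1, Λ.tr (lc s.1 s.2.1) (lc s.1 (s.2.1 + 1)) s.2.2)

/-- Reverse the edge. -/
def revE (s : ESt) : ESt :=
  (s.1 + dv s.2.1, s.2.1 + 2, Λ.tr (lc s.1 s.2.1) (rc s.1 s.2.1) s.2.2)

/-- The two edge states are the same directed edge of the cube, turned by `k`. -/
def EqvE (k : Dir) (s t : ESt) : Prop :=
  (∃ T, t.1 = rotP k s.1 + Λ.gm T) ∧ t.2.1 = s.2.1 + k ∧ t.2.2 = spin k s.2.2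

end Lat

/-- The directed edge `e` is a boundary edge of `S` with `S` on its left. -/
def IsBd (S : Finset Pt) (e : Pt × Dir) : Prop := lc e.1 e.2 ∈ S ∧ rc e.1 e.2 ∉ S

/-- The state of a directed edge in the development `Φ`. -/
def est (Φ : Pt → Ori) (e : Pt × Dir) : ESt := (e.1, e.2, Φ (lc e.1 e.2))

/-- The boundary edges of `S` are glued in pairs by the development. -/
def Lat.Glue (Λ : Lat) (S : Finset Pt) (Φ : Pt → Ori) : Prop :=
  ∃ σ : Pt × Dir → Pt × Dir, (∀ e, IsBd S e → IsBd S (σ e)) ∧
    (∀ e e', IsBd S e → IsBd S e' → σ e = σ e' → e = e') ∧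
    ∀ e, IsBd S e → ∃ k, Λ.EqvE k (Λ.revE (est Φ e)) (est Φ (σ e))

/-- The corners of cells of `S` at vertices of the big lattice. -/
def Lat.corners (Λ : Lat) (S : Finset Pt) : Set (Pt × Dir) := {e | Λ.IsV e.1 ∧ lc e.1 e.2 ∈ S}

/-! ### Lattice curves -/

/-- The end point of the lattice path that starts at `P` with steps `w`. -/
def endP : Pt → List Dir → Pt
  | P, [] => P
  | P, k :: w => endP (P + dv k) w

/-- The directed edges of the path. -/
def edges : Pt → List Dir → List (Pt × Dir)
  | _, [] => []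
  | P, k :: w => (P, k) :: edges (P + dv k) w

/-- The starting points of the edges of the path. -/
def verts (P : Pt) (w : List Dir) : List Pt := (edges P w).map Prod.fst

/-- Contribution of a directed edge to the winding number about the cell `c`. -/
def cross (c : Pt) (e : Pt × Dir) : ℤ :=
  if e.2 = 0 ∧ e.1.1 = c.1 ∧ e.1.2 ≤ c.2 then 1
  else if e.2 = 2 ∧ e.1.1 = c.1 + 1 ∧ e.1.2 ≤ c.2 then -1 else 0

/-- The winding number of the path about the cell `c`. -/
def wind (P : Pt) (w : List Dir) (c : Pt) : ℤ := ((edges P w).map (cross c)).sum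

/-- The cells inside the closed path. -/
noncomputable def inside (P : Pt) (w : List Dir) : Finset Pt :=
  (Finset.Icc (P.1 - w.length - 1) (P.1 + w.length) ×ˢ
    Finset.Icc (P.2 - w.length - 1) (P.2 + w.length)).filter (fun c => wind P w c = 1)

/-- A simple closed path. -/
def Simple (P : Pt) (w : List Dir) : Prop := endP P w = P ∧ (verts P w).Nodup ∧ 2 < w.length

/-- The closed path runs counterclockwise. -/
def Ccw (P : Pt) (w : List Dir) : Prop := ∃ e ∈ edges P w, wind P w (rc e.1 e.2) = 0

/-- The ray from `W` in direction `k` misses the path. -/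
def Escapes (P : Pt) (w : List Dir) (W : Pt) (k : Dir) : Prop :=
  ∀ t : ℕ, W + (t : ℤ) • dv k ∉ verts P w

/-- The reversed path, turned by `k`. -/
def back (k : Dir) (w : List Dir) : List Dir := (w.map (fun d => d + 2 + k)).reverse

/-- The inner angle, in quarter turns, between a step `k` and the next step `l`. -/
def ang (k l : Dir) : ℕ := (k + 2 - l).val

/-- `Tr w f l b k θ n`: the marked word `w` (a step, and a mark telling that its end point is a
vertex of the cube), with first step `f` and last step `l`, is the contour of a plane tree seen from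
its root. The root has mark `b`, the end of the word is the start turned by `k`, the word uses the
angle `θ` at the root, and `n` tree vertices other than the root are marked. -/
inductive Tr : List (Dir × Bool) → Dir → Dir → Bool → Dir → ℕ → ℕ → Prop
  | leaf (f : Dir) (b : Bool) : Tr [(f, true), (f - 1, b)] f (f - 1) b 1 0 1
  | reg (f : Dir) (b : Bool) {w : List (Dir × Bool)} {f' l' k : Dir} {θ n : ℕ} :
      Tr w f' l' false k θ n →
      Tr ((f, false) :: w ++ [(f + 2 + k, b)]) f (f + 2 + k) b k 0 n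
  | vtx (f : Dir) (b : Bool) {w : List (Dir × Bool)} {f' l' k : Dir} {θ n : ℕ} :
      Tr w f' l' true k θ n → ang f f' + θ + ang l' (f + 3 + k) = 3 →
      Tr ((f, true) :: w ++ [(f + 3 + k, b)]) f (f + 3 + k) b (k + 1) 0 (n + 1)
  | cat {w w' : List (Dir × Bool)} {f l f' l' k k' : Dir} {b : Bool} {θ θ' n n' : ℕ} :
      Tr w f l b k θ n → Tr w' f' l' b k' θ' n' →
      Tr (w ++ w') f l' b (k + k') (θ + ang l f' + θ') (n + n')

/-- The end points of the marked steps. -/
def marked : Pt → List (Dir × Bool) → List Pt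
  | _, [] => []
  | P, x :: w => if x.2 then (P + dv x.1) :: marked (P + dv x.1) w else marked (P + dv x.1) w

/-- The data that make the inside of the closed path `w` from `P` a net of the cube whose vertices
develop to `o + (p + q i) ℤ[i]`. -/
structure IsNet (Λ : Lat) (o P : Pt) (w : List Dir) : Prop where
  simple : Simple P w
  ccw : Ccw P w
  tree : ∃ (m : List (Dir × Bool)) (f l k : Dir) (θ : ℕ), m.map Prod.fst = w ∧
    Tr m f l false k θ 8 ∧ (∀ W ∈ marked P m, Λ.IsV (W - o)) ∧
    ∀ W, Λ.IsV (W - o) → W ∈ marked P m ∨ ∃ d, Escapes P w W d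

end Pool.Agent.Lib.MP_4a7072_co
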