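import Pool.Agent.Lib.MP_4a7072_co.RBase
import Pool.Agent.Lib.MP_4a7072_co.Fold

/-!
The real geometry of the folding map on a rotated lattice.
-/

set_option autoImplicit false

namespace Pool.Agent.Lib.MP_4a7072_co

open Set

namespace RGeo

abbrev P2 := EuclideanSpace ℝ (Fin 2)
abbrev P3 := EuclideanSpace ℝ (Fin 3)

/-! ### The cube -/

/-- Scalar product of two signed axes. -/
def dot (a b : Ax) : ℤ := a.vec 0 * b.vec 0 + a.vec 1 * b.vec 1 + a.vec 2 * b.vec 2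

theorem dot_ori : ∀ g : Ori, dot g.1.1 g.1.1 = 1 ∧ dot g.1.2 g.1.2 = 1 ∧ dot g.1.1 g.1.2 = 0 := by
  decide

theorem ax_cases : ∀ (g : Ori) (a : Ax),
    (dot g.1.1 a = 0 ∧ dot g.1.2 a = 0 ∧ dot g.e3 a = 1 ∧ g.e3 = a) ∨
    (dot g.1.1 a = 0 ∧ dot g.1.2 a = 0 ∧ dot g.e3 a = -1) ∨
    (dot g.1.1 a = 1 ∧ dot g.1.2 a = 0 ∧ dot g.e3 a = 0 ∧ (roll g (-1, 0)).e3 = a) ∨
    (dot g.1.1 a = -1 ∧ dot g.1.2 a = 0 ∧ dot g.e3 a = 0 ∧ (roll g (1, 0)).e3 = a) ∨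
    (dot g.1.1 a = 0 ∧ dot g.1.2 a = 1 ∧ dot g.e3 a = 0 ∧ (roll g (0, -1)).e3 = a) ∨
    (dot g.1.1 a = 0 ∧ dot g.1.2 a = -1 ∧ dot g.e3 a = 0 ∧ (roll g (0, 1)).e3 = a) := by
  decide

theorem dot_e3 : ∀ g : Ori, dot g.1.1 g.e3 = 0 ∧ dot g.1.2 g.e3 = 0 ∧ dot g.e3 g.e3 = 1 := by
  decide

theorem vec_cases : ∀ (g : Ori) (i : Fin 3),
    ((g.1.1.vec i = 1 ∨ g.1.1.vec i = -1) ∧ g.1.2.vec i = 0 ∧ g.e3.vec i = 0) ∨
    (g.1.1.vec i = 0 ∧ (g.1.2.vec i = 1 ∨ g.1.2.vec i = -1) ∧ g.e3.vec i = 0) ∨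
    (g.1.1.vec i = 0 ∧ g.1.2.vec i = 0 ∧ (g.e3.vec i = 1 ∨ g.e3.vec i = -1)) := by
  decide

theorem vec_e3 : ∀ g : Ori, g.1.1.vec g.e3.1 = 0 ∧ g.1.2.vec g.e3.1 = 0 ∧
    (g.e3.vec g.e3.1 = 1 ∨ g.e3.vec g.e3.1 = -1) := by
  decide

theorem exists_spin : ∀ g g' : Ori, g.e3 = g'.e3 → ∃ k, g' = spin k g := by decide

theorem vec_roll : ∀ (g : Ori) (i : Fin 3),
    ((roll g (1, 0)).1.1.vec i = g.e3.vec i ∧ (roll g (1, 0)).1.2.vec i = g.1.2.vec i ∧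
      (roll g (1, 0)).e3.vec i = -g.1.1.vec i) ∧
    ((roll g (-1, 0)).1.1.vec i = -g.e3.vec i ∧ (roll g (-1, 0)).1.2.vec i = g.1.2.vec i ∧
      (roll g (-1, 0)).e3.vec i = g.1.1.vec i) ∧
    ((roll g (0, 1)).1.1.vec i = g.1.1.vec i ∧ (roll g (0, 1)).1.2.vec i = g.e3.vec i ∧
      (roll g (0, 1)).e3.vec i = -g.1.2.vec i) ∧
    ((roll g (0, -1)).1.1.vec i = g.1.1.vec i ∧ (roll g (0, -1)).1.2.vec i = -g.e3.vec i ∧
      (roll g (0, -1)).e3.vec i = g.1.2.vec i) := by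
  decide

theorem vec_spin : ∀ (g : Ori) (i : Fin 3),
    ((spin 1 g).1.1.vec i = -g.1.2.vec i ∧ (spin 1 g).1.2.vec i = g.1.1.vec i ∧
      (spin 1 g).e3.vec i = g.e3.vec i) ∧
    ((spin 2 g).1.1.vec i = -g.1.1.vec i ∧ (spin 2 g).1.2.vec i = -g.1.2.vec i ∧
      (spin 2 g).e3.vec i = g.e3.vec i) ∧
    ((spin 3 g).1.1.vec i = g.1.2.vec i ∧ (spin 3 g).1.2.vec i = -g.1.1.vec i ∧
      (spin 3 g).e3.vec i = g.e3.vec i) := by
  decide

theorem exists_ori : ∀ (k : Fin 3) (b : Bool), ∃ (g : Ori) (i j : Fin 3),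
    g.1.1.vec i = 1 ∧ g.1.2.vec i = 0 ∧ g.e3.vec i = 0 ∧
    g.1.1.vec j = 0 ∧ g.1.2.vec j = 1 ∧ g.e3.vec j = 0 ∧
    g.1.1.vec k = 0 ∧ g.1.2.vec k = 0 ∧ g.e3.vec k = (if b then 1 else -1) ∧
    ∀ l, l = i ∨ l = j ∨ l = k := by
  decide

theorem cr0_rot {δ : Pt} (h : Cr0 δ) (k : Dir) : Cr0 (rotP k δ) := by
  rcases h with rfl | rfl | rfl | rfl | rfl <;> unfold Cr0 <;> revert k <;> decide

theorem roll_inj {δ : Pt} (h : Cr0 δ) {g g' : Ori} (e : roll g δ = roll g' δ) : g = g' := by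
  rw [← roll_roll_neg h g, e, roll_roll_neg h]

variable (Λ : Lat)

/-- The point of the face of the cube given by `g` with coordinates `s, t ∈ [-N, N]`. -/
noncomputable def B (g : Ori) (s t : ℝ) : P3 :=
  WithLp.toLp 2 fun i =>
    (Λ.N + s * g.1.1.vec i + t * g.1.2.vec i - Λ.N * g.e3.vec i) / (2 * Λ.L)

theorem B_apply (g : Ori) (s t : ℝ) (i : Fin 3) : B Λ g s t i =
    (Λ.N + s * g.1.1.vec i + t * g.1.2.vec i - Λ.N * g.e3.vec i) / (2 * Λ.L) := rfl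

theorem Lpos : (0 : ℝ) < Λ.L := by exact_mod_cast Λ.L_pos

theorem Npos : (0 : ℝ) < Λ.N := by exact_mod_cast Λ.N_pos

theorem N_L : (Λ.N : ℝ) = (Λ.L : ℝ) ^ 2 := by unfold Lat.N; push_cast; rfl

theorem N_pq : (Λ.N : ℝ) = (Λ.p : ℝ) ^ 2 + (Λ.q : ℝ) ^ 2 := by exact_mod_cast Λ.N_eq

theorem B_mem (g : Ori) {s t : ℝ} (hs : |s| ≤ Λ.N) (ht : |t| ≤ Λ.N) :
    B Λ g s t ∈ cubeSurface Λ.L := by
  have hL := Lpos Λ
  have hN := N_L Λ
  obtain ⟨s1, s2⟩ := abs_le.1 hs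
  obtain ⟨t1, t2⟩ := abs_le.1 ht
  refine ⟨fun i => ?_, g.e3.1, ?_⟩
  · rw [B_apply, le_div_iff₀ (by positivity), div_le_iff₀ (by positivity)]
    rcases vec_cases g i with ⟨h | h, h', h''⟩ | ⟨h, h' | h', h''⟩ | ⟨h, h', h'' | h''⟩ <;>
      rw [h, h', h''] <;> push_cast <;> constructor <;> nlinarith
  · obtain ⟨h, h', h'' | h''⟩ := vec_e3 g
    · left; rw [B_apply, h, h', h'']; simp
    · right; rw [B_apply, h, h', h'', hN]; push_cast; field_simp; ring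

theorem exists_B {y : P3} (hy : y ∈ cubeSurface Λ.L) :
    ∃ (g : Ori) (s t : ℝ), |s| ≤ Λ.N ∧ |t| ≤ Λ.N ∧ B Λ g s t = y := by
  have hL := Lpos Λ
  have hN := N_L Λ
  obtain ⟨h1, k, hk⟩ := hy
  have bd : ∀ i, |2 * Λ.L * y i - Λ.N| ≤ Λ.N := fun i => by
    rw [abs_le]; constructor <;> nlinarith [(h1 i).1, (h1 i).2]
  rcases hk with hk | hk
  · obtain ⟨g, i, j, a1, a2, a3, b1, b2, b3, c1, c2, c3, h⟩ := exists_ori k true
    refine ⟨g, _, _, bd i, bd j, ?_⟩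
    ext l
    rw [B_apply]
    rcases h l with rfl | rfl | rfl
    · rw [a1, a2, a3]; push_cast; field_simp; ring
    · rw [b1, b2, b3]; push_cast; field_simp; ring
    · rw [c1, c2, c3, hk]; simp
  · obtain ⟨g, i, j, a1, a2, a3, b1, b2, b3, c1, c2, c3, h⟩ := exists_ori k false
    refine ⟨g, _, _, bd i, bd j, ?_⟩
    ext l
    rw [B_apply]
    rcases h l with rfl | rfl | rfl
    · rw [a1, a2, a3]; push_cast; field_simp; ring
    · rw [b1, b2, b3]; push_cast; field_simp; ring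
    · rw [c1, c2, c3, hk, hN]; simp; field_simp; ring

theorem B_dot (g : Ori) (s t : ℝ) (a : Ax) :
    (2 * Λ.L * B Λ g s t 0 - Λ.N) * a.vec 0 + (2 * Λ.L * B Λ g s t 1 - Λ.N) * a.vec 1 +
      (2 * Λ.L * B Λ g s t 2 - Λ.N) * a.vec 2 =
      s * dot g.1.1 a + t * dot g.1.2 a - Λ.N * dot g.e3 a := by
  have hL := Lpos Λ
  simp only [B_apply, dot]
  push_cast
  field_simp
  ring

/-! ### The plane -/

noncomputable def RU (z : P2) : ℝ := Λ.p * z 0 + Λ.q * z 1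
noncomputable def RV (z : P2) : ℝ := Λ.p * z 1 - Λ.q * z 0
noncomputable def sc (G : Pt) (z : P2) : ℝ := 2 * RU Λ z - 2 * Λ.N * G.1 - Λ.N
noncomputable def tc (G : Pt) (z : P2) : ℝ := 2 * RV Λ z - 2 * Λ.N * G.2 - Λ.N

/-- The closed big face. -/
def InF (G : Pt) (z : P2) : Prop := |sc Λ G z| ≤ Λ.N ∧ |tc Λ G z| ≤ Λ.N

/-- The point is a vertex of the big lattice. -/
def Vx (z : P2) : Prop := ∃ T : Pt, RU Λ z = Λ.N * T.1 ∧ RV Λ z = Λ.N * T.2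

/-- The isometry from the plane to the plane of a face of the cube. -/
noncomputable def A (g : Ori) (G : Pt) (z : P2) : P3 := B Λ g (sc Λ G z) (tc Λ G z)

theorem inF_iff (G : Pt) (z : P2) : InF Λ G z ↔ Λ.N * G.1 ≤ RU Λ z ∧ RU Λ z ≤ Λ.N * (G.1 + 1) ∧
    Λ.N * G.2 ≤ RV Λ z ∧ RV Λ z ≤ Λ.N * (G.2 + 1) := by
  simp only [InF, sc, tc, abs_le]
  constructor
  · rintro ⟨⟨a, b⟩, c, d⟩
    exact ⟨by linarith, by linarith, by linarith, by linarith⟩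
  · rintro ⟨a, b, c, d⟩
    exact ⟨⟨by linarith, by linarith⟩, by linarith, by linarith⟩

theorem isClosed_inF (G : Pt) : IsClosed {z | InF Λ G z} := by
  have h1 : Continuous fun z => |sc Λ G z| := by unfold sc RU; fun_prop
  have h2 : Continuous fun z => |tc Λ G z| := by unfold tc RV; fun_prop
  exact (isClosed_le h1 continuous_const).inter (isClosed_le h2 continuous_const)

theorem A_edist (g : Ori) (G : Pt) (z w : P2) : edist (A Λ g G z) (A Λ g G w) = edist z w := by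
  rw [edist_dist, edist_dist, EuclideanSpace.dist_eq, EuclideanSpace.dist_eq]
  congr 2
  have hL := Lpos Λ
  obtain ⟨h1, h2, h3⟩ := dot_ori g
  unfold dot at h1 h2 h3
  have h1' := congrArg (Int.cast : ℤ → ℝ) h1
  have h2' := congrArg (Int.cast : ℤ → ℝ) h2
  have h3' := congrArg (Int.cast : ℤ → ℝ) h3
  push_cast at h1' h2' h3'
  have h4 := (N_L Λ).symm.trans (N_pq Λ)
  simp only [Fin.sum_univ_three, Fin.sum_univ_two, Real.dist_eq, sq_abs, A, B_apply]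
  have e : ∀ i, (Λ.N + sc Λ G z * g.1.1.vec i + tc Λ G z * g.1.2.vec i - Λ.N * g.e3.vec i) /
      (2 * Λ.L) - (Λ.N + sc Λ G w * g.1.1.vec i + tc Λ G w * g.1.2.vec i - Λ.N * g.e3.vec i) /
      (2 * Λ.L) = ((RU Λ z - RU Λ w) * g.1.1.vec i + (RV Λ z - RV Λ w) * g.1.2.vec i) / Λ.L :=
    fun i => by unfold sc tc; field_simp; ring
  simp only [e, div_pow]
  rw [← add_div, ← add_div, div_eq_iff (by positivity), h4]
  unfold RU RV
  linear_combination (Λ.p * z 0 + Λ.q * z 1 - (Λ.p * w 0 + Λ.q * w 1)) ^ 2 * h1' +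
    (Λ.p * z 1 - Λ.q * z 0 - (Λ.p * w 1 - Λ.q * w 0)) ^ 2 * h2' +
    2 * (Λ.p * z 0 + Λ.q * z 1 - (Λ.p * w 0 + Λ.q * w 1)) *
      (Λ.p * z 1 - Λ.q * z 0 - (Λ.p * w 1 - Λ.q * w 0)) * h3'

theorem A_inj (g : Ori) (G : Pt) {z w : P2} (h : A Λ g G z = A Λ g G w) : z = w := by
  have := A_edist Λ g G z w
  rw [h, edist_self] at this
  exact edist_eq_zero.1 this.symm

/-- On a common edge of two faces the two isometries agree. -/
theorem A_roll (g : Ori) {G δ : Pt} (hδ : Cr0 δ) {z : P2} (h : InF Λ G z) (h' : InF Λ (G + δ) z) :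
    A Λ (roll g δ) (G + δ) z = A Λ g G z := by
  rw [inF_iff] at h h'
  obtain ⟨a1, a2, a3, a4⟩ := h
  obtain ⟨b1, b2, b3, b4⟩ := h'
  ext i
  obtain ⟨⟨r1, r2, r3⟩, ⟨r4, r5, r6⟩, ⟨r7, r8, r9⟩, r10, r11, r12⟩ := vec_roll g i
  rcases hδ with rfl | rfl | rfl | rfl | rfl
  · rw [roll_zero, show G + (0, 0) = G from add_zero G]
  all_goals
    simp only [A, B_apply, sc, tc, r1, r2, r3, r4, r5, r6, r7, r8, r9, r10, r11, r12,
      Prod.fst_add, Prod.snd_add] at *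
    push_cast at *
    congr 1
  · have : RU Λ z = Λ.N * (G.1 + 1) := by linarith
    rw [this]; ring
  · have : RU Λ z = Λ.N * G.1 := by linarith
    rw [this]; ring
  · have : RV Λ z = Λ.N * (G.2 + 1) := by linarith
    rw [this]; ring
  · have : RV Λ z = Λ.N * G.2 := by linarith
    rw [this]; ring

theorem two_faces {F δ ε : Pt} (hδ : Cr0 δ) (hε : Cr0 ε) {z : P2} (h : InF Λ (F + δ) z)
    (h' : InF Λ (F + ε) z) : δ = ε ∨ InF Λ F z := by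
  have hN := Npos Λ
  rw [inF_iff] at *
  obtain ⟨a1, a2, a3, a4⟩ := h
  obtain ⟨b1, b2, b3, b4⟩ := h'
  rcases hδ with rfl | rfl | rfl | rfl | rfl <;> rcases hε with rfl | rfl | rfl | rfl | rfl <;>
    first
    | exact Or.inl rfl
    | (simp only [Prod.fst_add, Prod.snd_add] at *
       push_cast at *
       exact Or.inr ⟨by linarith, by linarith, by linarith, by linarith⟩)

theorem near {c : Pt} {z : P2} (hz : z ∈ unitSq c) :
    |(Λ.U (ctr c) : ℝ) - 2 * RU Λ z| ≤ Λ.N ∧ |(Λ.V (ctr c) : ℝ) - 2 * RV Λ z| ≤ Λ.N := by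
  obtain ⟨h1, h2, h3, h4⟩ := hz
  have hp : (0 : ℝ) ≤ Λ.p := by exact_mod_cast Λ.hp.le
  have hq : (0 : ℝ) ≤ Λ.q := by exact_mod_cast Λ.hq
  have hpq : (Λ.p : ℝ) + Λ.q ≤ Λ.N := by exact_mod_cast Λ.p_add_q_le
  simp only [Lat.U, Lat.V, ctr, RU, RV, abs_le]
  push_cast
  refine ⟨⟨?_, ?_⟩, ?_, ?_⟩ <;>
    nlinarith [mul_nonneg hp (sub_nonneg.2 h1), mul_nonneg hp (sub_nonneg.2 h2),
      mul_nonneg hp (sub_nonneg.2 h3), mul_nonneg hp (sub_nonneg.2 h4),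
      mul_nonneg hq (sub_nonneg.2 h1), mul_nonneg hq (sub_nonneg.2 h2),
      mul_nonneg hq (sub_nonneg.2 h3), mul_nonneg hq (sub_nonneg.2 h4)]

theorem face_real (c : Pt) :
    2 * (Λ.N : ℝ) * (Λ.face c).1 < Λ.U (ctr c) ∧ (Λ.U (ctr c) : ℝ) < 2 * Λ.N * ((Λ.face c).1 + 1) ∧
    2 * (Λ.N : ℝ) * (Λ.face c).2 < Λ.V (ctr c) ∧
      (Λ.V (ctr c) : ℝ) < 2 * Λ.N * ((Λ.face c).2 + 1) := by
  exact_mod_cast Λ.face_bounds c

theorem int_lt {a b : ℤ} (h : (Λ.N : ℝ) * a < Λ.N * b) : a < b := by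
  exact_mod_cast lt_of_mul_lt_mul_left h (Npos Λ).le

theorem vx_inF {c : Pt} {z : P2} (hz : z ∈ unitSq c) (hv : Vx Λ z) : InF Λ (Λ.face c) z := by
  obtain ⟨T, h1, h2⟩ := hv
  obtain ⟨a1, a2, a3, a4⟩ := face_real Λ c
  obtain ⟨b1, b2⟩ := near Λ hz
  have hN := Npos Λ
  rw [abs_le] at b1 b2
  have e1 : (Λ.face c).1 < T.1 + 1 := int_lt Λ (by push_cast; linarith)
  have e2 : T.1 < (Λ.face c).1 + 2 := int_lt Λ (by push_cast; linarith)
  have e3 : (Λ.face c).2 < T.2 + 1 := int_lt Λ (by push_cast; linarith)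
  have e4 : T.2 < (Λ.face c).2 + 2 := int_lt Λ (by push_cast; linarith)
  have f1 : ((Λ.face c).1 : ℝ) ≤ T.1 := by exact_mod_cast Int.lt_add_one_iff.1 e1
  have f2 : (T.1 : ℝ) ≤ (Λ.face c).1 + 1 := by exact_mod_cast (by omega : T.1 ≤ (Λ.face c).1 + 1)
  have f3 : ((Λ.face c).2 : ℝ) ≤ T.2 := by exact_mod_cast Int.lt_add_one_iff.1 e3
  have f4 : (T.2 : ℝ) ≤ (Λ.face c).2 + 1 := by exact_mod_cast (by omega : T.2 ≤ (Λ.face c).2 + 1)
  rw [inF_iff, h1, h2]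
  exact ⟨by gcongr, by gcongr, by gcongr, by gcongr⟩

theorem side {c W : ℤ} {x : ℝ} (h1 : (c : ℝ) ≤ x) (h2 : x ≤ c + 1) :
    0 ≤ (2 * (c : ℝ) + 1 - 2 * W) * (2 * x - 2 * W) := by
  rcases le_or_gt W c with h | h
  · have : (W : ℝ) ≤ c := by exact_mod_cast h
    exact mul_nonneg (by linarith) (by linarith)
  · have : (c : ℝ) + 1 ≤ W := by exact_mod_cast h
    exact mul_nonneg_of_nonpos_of_nonpos (by linarith) (by linarith)

theorem both_zero {a b c d : ℝ} (h : 0 ≤ a * b + c * d) (ha : a ≠ 0) (hc : c ≠ 0)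
    (h1 : a * b ≤ 0) (h2 : c * d ≤ 0) : b = 0 ∧ d = 0 :=
  ⟨(mul_eq_zero.1 (by linarith : a * b = 0)).resolve_left ha,
    (mul_eq_zero.1 (by linarith : c * d = 0)).resolve_left hc⟩

theorem cr0_real {c G : Pt} {z : P2} (hz : z ∈ unitSq c) (hG : InF Λ G z) (hv : ¬Vx Λ z) :
    Cr0 (G - Λ.face c) := by
  obtain ⟨a1, a2, a3, a4⟩ := face_real Λ c
  obtain ⟨b1, b2⟩ := near Λ hz
  obtain ⟨t1, t2, t3, t4⟩ := (inF_iff Λ G z).1 hG
  have hN := Npos Λ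
  rw [abs_le] at b1 b2
  generalize Λ.face c = F at *
  have e1 : G.1 < F.1 + 2 := int_lt Λ (by push_cast; linarith)
  have e2 : F.1 < G.1 + 2 := int_lt Λ (by push_cast; linarith)
  have e3 : G.2 < F.2 + 2 := int_lt Λ (by push_cast; linarith)
  have e4 : F.2 < G.2 + 2 := int_lt Λ (by push_cast; linarith)
  have key : ∀ T : Pt, 0 ≤ ((Λ.U (ctr c) : ℝ) - 2 * Λ.N * T.1) * (2 * RU Λ z - 2 * Λ.N * T.1) +
      ((Λ.V (ctr c) : ℝ) - 2 * Λ.N * T.2) * (2 * RV Λ z - 2 * Λ.N * T.2) := fun T => by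
    have h := mul_nonneg hN.le (add_nonneg (side (W := (Λ.gm T).1) hz.1 hz.2.1)
      (side (W := (Λ.gm T).2) hz.2.2.1 hz.2.2.2))
    refine h.trans_eq ?_
    simp only [Lat.U, Lat.V, ctr, RU, RV, Lat.gm, N_pq]
    push_cast
    ring
  have diag : G.1 = F.1 ∨ G.2 = F.2 := by
    by_contra hc
    push Not at hc
    have one : ∀ {g f : ℤ} {s t : ℝ}, g ≠ f → g < f + 2 → f < g + 2 → 2 * (Λ.N : ℝ) * f < s →
        s < 2 * Λ.N * (f + 1) → Λ.N * g ≤ t → t ≤ Λ.N * (g + 1) → ∃ m : ℤ,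
          s - 2 * Λ.N * m ≠ 0 ∧ (s - 2 * Λ.N * m) * (2 * t - 2 * Λ.N * m) ≤ 0 := by
      intro g f s t h0 h1 h2 s1 s2 t1 t2
      rcases lt_or_gt_of_ne h0 with d | d
      · obtain rfl : f = g + 1 := by omega
        push_cast at s1
        exact ⟨g + 1, by push_cast; linarith,
          mul_nonpos_of_nonneg_of_nonpos (by push_cast; linarith) (by push_cast; linarith)⟩
      · obtain rfl : g = f + 1 := by omega
        push_cast at t1
        exact ⟨f + 1, by push_cast; linarith,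
          mul_nonpos_of_nonpos_of_nonneg (by push_cast; linarith) (by push_cast; linarith)⟩
    obtain ⟨m, m1, m2⟩ := one hc.1 e1 e2 a1 a2 t1 t2
    obtain ⟨m', m3, m4⟩ := one hc.2 e3 e4 a3 a4 t3 t4
    obtain ⟨k1, k2⟩ := both_zero (key (m, m')) m1 m3 m2 m4
    exact hv ⟨(m, m'), by linarith, by linarith⟩
  unfold Cr0
  simp only [Prod.ext_iff, Prod.fst_sub, Prod.snd_sub]
  omega

theorem exists_inF (z : P2) : ∃ G, InF Λ G z := by
  have hN := Npos Λ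
  refine ⟨(⌊RU Λ z / Λ.N⌋, ⌊RV Λ z / Λ.N⌋), (inF_iff Λ _ z).2 ⟨?_, ?_, ?_, ?_⟩⟩
  · exact (le_div_iff₀' hN).1 (Int.floor_le _)
  · exact (div_le_iff₀' hN).1 (Int.lt_floor_add_one _).le
  · exact (le_div_iff₀' hN).1 (Int.floor_le _)
  · exact (div_le_iff₀' hN).1 (Int.lt_floor_add_one _).le

theorem cr0_self (F : Pt) : Cr0 (F - F) := Or.inl (sub_self F)

theorem exists_face {c : Pt} {z : P2} (hz : z ∈ unitSq c) :
    ∃ G, InF Λ G z ∧ Cr0 (G - Λ.face c) := by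
  by_cases hv : Vx Λ z
  · exact ⟨_, vx_inF Λ hz hv, cr0_self _⟩
  · obtain ⟨G, hG⟩ := exists_inF Λ z
    exact ⟨G, hG, cr0_real Λ hz hG hv⟩

theorem vx_mem {z : P2} {T : Pt} (h1 : RU Λ z = Λ.N * T.1) (h2 : RV Λ z = Λ.N * T.2) (k : Dir) :
    z ∈ unitSq (lc (Λ.gm T) k) := by
  have hN := Npos Λ
  have e := N_pq Λ
  unfold RU at h1
  unfold RV at h2
  have x0 : z 0 = (Λ.gm T).1 := mul_left_cancel₀ hN.ne' (by
    simp only [Lat.gm]; push_cast; linear_combination Λ.p * h1 - Λ.q * h2 + z 0 * e)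
  have x1 : z 1 = (Λ.gm T).2 := mul_left_cancel₀ hN.ne' (by
    simp only [Lat.gm]; push_cast; linear_combination Λ.q * h1 + Λ.p * h2 + z 1 * e)
  rcases dir_cases k with rfl | rfl | rfl | rfl <;> simp [unitSq, lc, x0, x1]

theorem exists_cell {z : P2} (hz : InF Λ (0, 0) z) :
    ∃ c, z ∈ unitSq c ∧ Cr0 ((0, 0) - Λ.face c) := by
  by_cases hv : Vx Λ z
  · obtain ⟨⟨a, b⟩, h1, h2⟩ := hv
    obtain ⟨t1, t2, t3, t4⟩ := (inF_iff Λ _ z).1 hz
    have hN := Npos Λ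
    rw [h1] at t1 t2
    rw [h2] at t3 t4
    have e1 : -1 < a := int_lt Λ (by push_cast at *; linarith)
    have e2 : a < 2 := int_lt Λ (by push_cast at *; linarith)
    have e3 : -1 < b := int_lt Λ (by push_cast at *; linarith)
    have e4 : b < 2 := int_lt Λ (by push_cast at *; linarith)
    suffices h : ∃ k, (0, 0) - (rotC k (Λ.face (0, 0)) + (a, b)) = (0, 0) by
      obtain ⟨k, hk⟩ := h
      exact ⟨_, vx_mem Λ h1 h2 k, Or.inl (by rw [lc_eq, Λ.face_act, hk])⟩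
    rcases Λ.face_zero with h | h <;> rw [h] <;> interval_cases a <;> interval_cases b <;> decide
  · have h : z ∈ unitSq (⌊z 0⌋, ⌊z 1⌋) := ⟨Int.floor_le _, (Int.lt_floor_add_one _).le,
      Int.floor_le _, (Int.lt_floor_add_one _).le⟩
    exact ⟨_, h, cr0_real Λ h hz hv⟩

theorem exists_A {y : P3} (hy : y ∈ cubeSurface Λ.L) :
    ∃ g z, InF Λ (0, 0) z ∧ A Λ g (0, 0) z = y := by
  obtain ⟨g, s, t, hs, ht, rfl⟩ := exists_B Λ hy
  have hN := Npos Λ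
  have e := N_pq Λ
  obtain ⟨z, h1, h2⟩ : ∃ z, sc Λ (0, 0) z = s ∧ tc Λ (0, 0) z = t := by
    refine ⟨WithLp.toLp 2 ![(Λ.p * (s + Λ.N) - Λ.q * (t + Λ.N)) / (2 * Λ.N),
      (Λ.q * (s + Λ.N) + Λ.p * (t + Λ.N)) / (2 * Λ.N)], ?_, ?_⟩
    · simp only [sc, RU, Matrix.cons_val_zero, Matrix.cons_val_one]
      field_simp
      push_cast
      linear_combination (-(s + Λ.N)) * e
    · simp only [tc, RV, Matrix.cons_val_zero, Matrix.cons_val_one]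
      field_simp
      push_cast
      linear_combination (-(t + Λ.N)) * e
  exact ⟨g, z, ⟨h1 ▸ hs, h2 ▸ ht⟩, by rw [A, h1, h2]⟩

/-! ### Symmetries -/

/-- Rotation by `k` quarter turns followed by a translation of the big lattice. -/
noncomputable def ph (k : Dir) (T : Pt) (z : P2) : P2 :=
  WithLp.toLp 2 ![![z 0, -z 1, -z 0, z 1] k + (Λ.gm T).1, ![z 1, z 0, -z 1, -z 0] k + (Λ.gm T).2]

theorem ph_mem (k : Dir) (T c : Pt) (z : P2) :
    ph Λ k T z ∈ unitSq (rotC k c + Λ.gm T) ↔ z ∈ unitSq c := by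
  rcases dir_cases k with rfl | rfl | rfl | rfl <;>
    simp only [unitSq, ph, rotC, mem_ofPred_eq, Matrix.cons_val, Prod.fst_add, Prod.snd_add] <;>
    push_cast <;> constructor <;> rintro ⟨a, b, c, d⟩ <;>
    exact ⟨by linarith, by linarith, by linarith, by linarith⟩

theorem ph_st (k : Dir) (T G : Pt) (z : P2) :
    sc Λ (rotC k G + T) (ph Λ k T z) = ![sc Λ G z, -tc Λ G z, -sc Λ G z, tc Λ G z] k ∧
    tc Λ (rotC k G + T) (ph Λ k T z) = ![tc Λ G z, sc Λ G z, -tc Λ G z, -sc Λ G z] k := by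
  rcases dir_cases k with rfl | rfl | rfl | rfl <;>
    simp [ph, sc, tc, RU, RV, rotC, Lat.gm, N_pq] <;> constructor <;> ring

theorem ph_inF (k : Dir) (T : Pt) {G : Pt} {z : P2} (h : InF Λ G z) :
    InF Λ (rotC k G + T) (ph Λ k T z) := by
  obtain ⟨h1, h2⟩ := ph_st Λ k T G z
  rw [InF, h1, h2]
  rcases dir_cases k with rfl | rfl | rfl | rfl <;> simp [h.1, h.2]

theorem ph_A (k : Dir) (T G : Pt) (g : Ori) (z : P2) :
    A Λ (spin k g) (rotC k G + T) (ph Λ k T z) = A Λ g G z := by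
  obtain ⟨h1, h2⟩ := ph_st Λ k T G z
  ext i
  obtain ⟨⟨r1, r2, r3⟩, ⟨r4, r5, r6⟩, r7, r8, r9⟩ := vec_spin g i
  rw [A, h1, h2, A, B_apply, B_apply]
  congr 1
  rcases dir_cases k with rfl | rfl | rfl | rfl
  · rfl
  all_goals simp [r1, r2, r3, r4, r5, r6, r7, r8, r9]
  all_goals ring

theorem ph_id {T : Pt} (h : Λ.gm T = 0) (z : P2) : ph Λ 0 T z = z := by
  ext i; fin_cases i <;> simp [ph, h]

/-! ### The folding map -/

theorem cells {c d : Pt} {z : P2} (hc : z ∈ unitSq c) (hd : z ∈ unitSq d) :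
    c = d ∨ EdgeAdj c d ∨ ∃ W k, c = lc W k ∧ d = lc W (k + 2) ∧ ∀ l, z ∈ unitSq (lc W l) := by
  obtain ⟨a1, a2, a3, a4⟩ := hc
  obtain ⟨b1, b2, b3, b4⟩ := hd
  have e1 : c.1 ≤ d.1 + 1 := by exact_mod_cast a1.trans b2
  have e2 : d.1 ≤ c.1 + 1 := by exact_mod_cast b1.trans a2
  have e3 : c.2 ≤ d.2 + 1 := by exact_mod_cast a3.trans b4
  have e4 : d.2 ≤ c.2 + 1 := by exact_mod_cast b3.trans a4
  have corner : ∀ W : Pt, z 0 = W.1 → z 1 = W.2 → ∀ l, z ∈ unitSq (lc W l) := fun W x0 x1 l => by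
    rcases dir_cases l with rfl | rfl | rfl | rfl <;> simp [unitSq, lc, x0, x1]
  obtain ⟨c1, c2⟩ := c
  obtain ⟨d1, d2⟩ := d
  simp only at *
  rcases (by omega : d1 = c1 ∨ d1 = c1 + 1 ∨ c1 = d1 + 1) with rfl | rfl | rfl <;>
    rcases (by omega : d2 = c2 ∨ d2 = c2 + 1 ∨ c2 = d2 + 1) with rfl | rfl | rfl <;>
    push_cast at *
  · exact Or.inl rfl
  · exact Or.inr (Or.inl (by simp [EdgeAdj]))
  · exact Or.inr (Or.inl (by simp [EdgeAdj]))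
  · exact Or.inr (Or.inl (by simp [EdgeAdj]))
  · exact Or.inr (Or.inr ⟨(c1 + 1, c2 + 1), 2, by simp [lc], rfl,
      corner _ (by push_cast; linarith) (by push_cast; linarith)⟩)
  · exact Or.inr (Or.inr ⟨(c1 + 1, d2 + 1), 1, by simp [lc], by simp [lc],
      corner _ (by push_cast; linarith) (by push_cast; linarith)⟩)
  · exact Or.inr (Or.inl (by simp [EdgeAdj]))
  · exact Or.inr (Or.inr ⟨(d1 + 1, c2 + 1), 3, by simp [lc], by simp [lc],
      corner _ (by push_cast; linarith) (by push_cast; linarith)⟩)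
  · exact Or.inr (Or.inr ⟨(d1 + 1, d2 + 1), 0, rfl, by simp [lc],
      corner _ (by push_cast; linarith) (by push_cast; linarith)⟩)

/-- An equivalence relation that holds for adjacent cells through `z` holds for all of them. -/
theorem conn {S : Finset Pt} (hP : NoPinch S) {z : P2} {α : Type} (F : Pt → α)
    (h : ∀ c ∈ S, ∀ d ∈ S, z ∈ unitSq c → z ∈ unitSq d → EdgeAdj c d → F c = F d)
    {c d : Pt} (hc : c ∈ S) (hd : d ∈ S) (zc : z ∈ unitSq c) (zd : z ∈ unitSq d) : F c = F d := by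
  rcases cells zc zd with rfl | e | ⟨W, k, rfl, rfl, hW⟩
  · rfl
  · exact h c hc d hd zc zd e
  · rcases hP W k hc hd with m | m
    · refine (h _ hc _ m zc (hW _) (edgeAdj_lc_succ W k)).trans (h _ m _ hd (hW _) zd ?_)
      rw [← dir_a11]; exact edgeAdj_lc_succ W _
    · refine (h _ hc _ m zc (hW _) ?_).trans (h _ m _ hd (hW _) zd ?_)
      · conv_lhs => rw [← dir_a31 k]
        exact (edgeAdj_lc_succ W _).symm'
      · rw [← dir_a21]; exact (edgeAdj_lc_succ W _).symm'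

/-- The orientation on the big face `G` induced by the cell `c`. -/
def sheet (Φ : Pt → Ori) (c G : Pt) : Ori := roll (Φ c) (G - Λ.face c)

theorem sheet_next (Φ : Pt → Ori) {c G H : Pt} (h1 : Cr0 (G - Λ.face c)) (h2 : Cr0 (H - Λ.face c))
    (h3 : Cr0 (H - G)) : roll (sheet Λ Φ c G) (H - G) = sheet Λ Φ c H := by
  have e : H - G = (H - Λ.face c) - (G - Λ.face c) := by abel
  rw [e] at h3 ⊢
  exact roll_roll_sub h1 h2 h3 _

theorem sheet_adj {S : Finset Pt} {Φ : Pt → Ori} (hD : Λ.Dev S Φ) {c d G : Pt} (hc : c ∈ S)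
    (hd : d ∈ S) (e : EdgeAdj c d) (h1 : Cr0 (G - Λ.face c)) (h2 : Cr0 (G - Λ.face d)) :
    sheet Λ Φ c G = sheet Λ Φ d G := by
  rw [sheet, sheet, hD c hc d hd e]
  exact (sheet_next Λ Φ (Λ.cr0_face_adj e) h1 h2).symm

theorem val_unique (Φ : Pt → Ori) {c G H : Pt} {z : P2} (g1 : InF Λ G z)
    (g2 : Cr0 (G - Λ.face c)) (h1 : InF Λ H z) (h2 : Cr0 (H - Λ.face c)) :
    A Λ (sheet Λ Φ c G) G z = A Λ (sheet Λ Φ c H) H z := by
  rw [← add_sub_cancel (Λ.face c) G] at g1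
  rw [← add_sub_cancel (Λ.face c) H] at h1
  rcases two_faces Λ g2 h2 g1 h1 with e | e
  · rw [sub_left_injective e]
  · have a := A_roll Λ (Φ c) g2 e g1
    have b := A_roll Λ (Φ c) h2 e h1
    rw [add_sub_cancel] at a b
    exact a.trans b.symm

open Classical in
/-- The image of `z` seen from the cell `c`. -/
noncomputable def val (Φ : Pt → Ori) (z : P2) (c : Pt) : P3 :=
  if h : ∃ G, InF Λ G z ∧ Cr0 (G - Λ.face c) then A Λ (sheet Λ Φ c h.choose) h.choose z else 0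

theorem val_eq (Φ : Pt → Ori) {c G : Pt} {z : P2} (g1 : InF Λ G z) (g2 : Cr0 (G - Λ.face c)) :
    val Λ Φ z c = A Λ (sheet Λ Φ c G) G z := by
  have h : ∃ G, InF Λ G z ∧ Cr0 (G - Λ.face c) := ⟨G, g1, g2⟩
  rw [val, dif_pos h]
  exact val_unique Λ Φ h.choose_spec.1 h.choose_spec.2 g1 g2

open Classical in
/-- The folding map. -/
noncomputable def fm (S : Finset Pt) (Φ : Pt → Ori) (z : P2) : P3 :=
  if h : ∃ c ∈ S, z ∈ unitSq c then val Λ Φ z h.choose else 0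

variable {S : Finset Pt} {Φ : Pt → Ori} (hD : Λ.Dev S Φ) (hP : NoPinch S)
include hD hP

theorem fm_eq {c G : Pt} {z : P2} (hc : c ∈ S) (zc : z ∈ unitSq c) (g1 : InF Λ G z)
    (g2 : Cr0 (G - Λ.face c)) : fm Λ S Φ z = A Λ (sheet Λ Φ c G) G z := by
  have h : ∃ c ∈ S, z ∈ unitSq c := ⟨c, hc, zc⟩
  rw [fm, dif_pos h, ← val_eq Λ Φ g1 g2]
  refine conn hP (val Λ Φ z) (fun c hc d hd zc zd e => ?_) h.choose_spec.1 hc h.choose_spec.2 zc
  obtain ⟨G, h1, h2, h3⟩ : ∃ G, InF Λ G z ∧ Cr0 (G - Λ.face c) ∧ Cr0 (G - Λ.face d) := by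
    by_cases hv : Vx Λ z
    · exact ⟨_, vx_inF Λ zd hv, Λ.cr0_face_adj e, cr0_self _⟩
    · obtain ⟨G, hG⟩ := exists_inF Λ z
      exact ⟨G, hG, cr0_real Λ zc hG hv, cr0_real Λ zd hG hv⟩
  rw [val_eq Λ Φ h1 h2, val_eq Λ Φ h1 h3, sheet_adj Λ hD hc hd e h2 h3]

theorem sheet_eq {c d G : Pt} {z : P2} (hv : ¬Vx Λ z) (hG : InF Λ G z) (hc : c ∈ S) (hd : d ∈ S)
    (zc : z ∈ unitSq c) (zd : z ∈ unitSq d) : sheet Λ Φ c G = sheet Λ Φ d G :=
  conn hP (fun c => sheet Λ Φ c G) (fun _ hc _ hd zc zd e =>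
    sheet_adj Λ hD hc hd e (cr0_real Λ zc hG hv) (cr0_real Λ zd hG hv)) hc hd zc zd

omit hD hP in
theorem same_face {c : Pt} {x : P2} (hv : ¬Vx Λ x) (xc : x ∈ unitSq c) {G : Pt} (hG : InF Λ G x)
    {g' : Ori} {s t : ℝ} (h : A Λ (sheet Λ Φ c G) G x = B Λ g' s t) :
    ∃ H, InF Λ H x ∧ (sheet Λ Φ c H).e3 = g'.e3 := by
  have hN := Npos Λ
  have e := B_dot Λ (sheet Λ Φ c G) (sc Λ G x) (tc Λ G x) g'.e3
  obtain ⟨d1, d2, d3⟩ := dot_e3 g'
  rw [← A, h, B_dot, d1, d2, d3] at e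
  have step : ∀ δ, Cr0 δ → InF Λ (G + δ) x → (roll (sheet Λ Φ c G) δ).e3 = g'.e3 →
      ∃ H, InF Λ H x ∧ (sheet Λ Φ c H).e3 = g'.e3 := fun δ h1 h2 h3 => by
    refine ⟨G + δ, h2, ?_⟩
    rw [← sheet_next Λ Φ (cr0_real Λ xc hG hv) (cr0_real Λ xc h2 hv) (by rwa [add_sub_cancel_left]),
      add_sub_cancel_left, h3]
  obtain ⟨t1, t2, t3, t4⟩ := (inF_iff Λ G x).1 hG
  unfold sc tc at e
  rcases ax_cases (sheet Λ Φ c G) g'.e3 with ⟨a, b, c, d⟩ | ⟨a, b, c⟩ | ⟨a, b, c, d⟩ |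
    ⟨a, b, c, d⟩ | ⟨a, b, c, d⟩ | ⟨a, b, c, d⟩ <;> rw [a, b, c] at e <;> push_cast at e
  · exact ⟨G, hG, d⟩
  · linarith
  all_goals
    refine step _ (by unfold Cr0; decide) ((inF_iff Λ _ x).2 ?_) d
    simp only [Prod.fst_add, Prod.snd_add]
    push_cast
    exact ⟨by linarith, by linarith, by linarith, by linarith⟩

end RGeo

open RGeo in
theorem foldsInto_of_dev (Λ : Lat) (S : Finset Pt) (Φ : Pt → Ori) (hD : Λ.Dev S Φ)
    (hP : NoPinch S) (hV : Λ.NoInnerV S)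
    (hI : ∀ c ∈ S, ∀ d ∈ S, ∀ k, Λ.EqvC k c (Φ c) d (Φ d) → c = d ∧ k = 0)
    (hS : ∀ c g, ∃ d ∈ S, ∃ k, Λ.EqvC k c g d (Φ d)) :
    FoldsInto (region S) (cubeSurface Λ.L) := by
  let I : Finset (Pt × Pt) := S ×ˢ {(0, 0), (1, 0), (-1, 0), (0, 1), (0, -1)}
  have hI' : ∀ k : Pt × Pt, k ∈ I ↔ k.1 ∈ S ∧ Cr0 k.2 := fun k => by simp [I, Cr0]
  let C : Pt × Pt → Set P2 := fun k => unitSq k.1 ∩ {z | InF Λ (Λ.face k.1 + k.2) z}
  have hC : ∀ k, IsClosed (C k) := fun k => (isClosed_unitSq _).inter (isClosed_inF Λ _)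
  have hU : region S = ⋃ k ∈ I, C k := by
    ext z
    simp only [mem_iUnion, hI']
    constructor
    · intro hz
      obtain ⟨c, hc, zc⟩ := exists_cell_of_mem_region hz
      obtain ⟨G, h1, h2⟩ := exists_face Λ zc
      exact ⟨(c, G - Λ.face c), ⟨hc, h2⟩, zc, by simpa using h1⟩
    · rintro ⟨k, hk, hz⟩
      exact mem_region hk.1 hz.1
  have hiso : ∀ k ∈ I, ∀ x ∈ C k, ∀ y ∈ C k, edist (fm Λ S Φ x) (fm Λ S Φ y) = edist x y :=
    fun k hk x hx y hy => by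
      obtain ⟨h1, h2⟩ := (hI' k).1 hk
      rw [← add_sub_cancel_left (Λ.face k.1) k.2] at h2
      rw [fm_eq Λ hD hP h1 hx.1 hx.2 h2, fm_eq Λ hD hP h1 hy.1 hy.2 h2, A_edist]
  refine ⟨fm Λ S Φ, hU ▸ continuousOn_of_pieces _ C hC I hiso, Subset.antisymm ?_ fun y hy => ?_,
    fun γ hγ hm => var_comp_eq_of_pieces _ C hC I hiso γ hγ (hU ▸ hm), fun x hx y hy hxy => ?_⟩
  · rintro _ ⟨z, hz, rfl⟩
    obtain ⟨c, hc, zc⟩ := exists_cell_of_mem_region hz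
    obtain ⟨G, h1, h2⟩ := exists_face Λ zc
    rw [fm_eq Λ hD hP hc zc h1 h2]
    exact B_mem Λ _ h1.1 h1.2
  · obtain ⟨g, z, hz, rfl⟩ := exists_A Λ hy
    obtain ⟨c, zc, h0⟩ := exists_cell Λ hz
    obtain ⟨d, hd, k, ⟨T, rfl⟩, h2⟩ := hS c (roll g (-((0, 0) - Λ.face c)))
    have e : rotC k (0, 0) + T - Λ.face (rotC k c + Λ.gm T) = rotP k ((0, 0) - Λ.face c) := by
      rw [Λ.face_act, add_sub_add_right_eq_sub, rotC_sub]
    have zd := (ph_mem Λ k T c z).2 zc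
    refine ⟨_, mem_region hd zd, ?_⟩
    rw [fm_eq Λ hD hP hd zd (ph_inF Λ k T hz) (e ▸ cr0_rot h0 k), sheet, e, h2, roll_spin h0,
      roll_neg_roll h0, ph_A]
  · have hv : ¬Vx Λ x := by
      rintro ⟨T, h1, h2⟩
      obtain ⟨k, hk⟩ := hV _ ⟨T, rfl⟩
      exact hk (cell_mem_of_mem_interior hx _ (vx_mem Λ h1 h2 k))
    obtain ⟨c, hc, xc⟩ := exists_cell_of_mem_region (interior_subset hx)
    obtain ⟨d, hd, yd⟩ := exists_cell_of_mem_region hy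
    obtain ⟨G₀, g0⟩ := exists_inF Λ x
    obtain ⟨G', h1, h2⟩ := exists_face Λ yd
    rw [fm_eq Λ hD hP hd yd h1 h2] at hxy
    obtain ⟨G, g1, g2⟩ := same_face Λ hv xc g0
      ((fm_eq Λ hD hP hc xc g0 (cr0_real Λ xc g0 hv)).symm.trans hxy.symm)
    obtain ⟨k, hk⟩ := exists_spin _ _ g2
    obtain ⟨T, rfl⟩ : ∃ T, G' = rotC k G + T := ⟨G' - rotC k G, by abel⟩
    rw [fm_eq Λ hD hP hc xc g1 (cr0_real Λ xc g1 hv), ← ph_A Λ k T G, ← hk] at hxy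
    obtain rfl := A_inj Λ _ _ hxy
    obtain ⟨c', rfl⟩ : ∃ c', d = rotC k c' + Λ.gm T :=
      ⟨rotC (-k) (d - Λ.gm T), by rw [rotC_rotC, neg_add_cancel, rotC_zero, sub_add_cancel]⟩
    have xc' := (ph_mem Λ k T c' x).1 yd
    have hc' := cell_mem_of_mem_interior hx _ xc'
    have h3 := cr0_real Λ xc' g1 hv
    have e : rotC k G + T - Λ.face (rotC k c' + Λ.gm T) = rotP k (G - Λ.face c') := by
      rw [Λ.face_act, add_sub_add_right_eq_sub, rotC_sub]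
    rw [sheet_eq Λ hD hP hv g1 hc hc' xc xc', sheet, sheet, e, ← roll_spin h3] at hk
    obtain ⟨e1, rfl⟩ := hI c' hc' _ hd k ⟨⟨T, rfl⟩, roll_inj (cr0_rot h3 k) hk⟩
    exact ph_id Λ (by simpa [rotC_zero] using e1) x

theorem FoldsInto.translate {S : Finset Pt} {Q : Set (EuclideanSpace ℝ (Fin 3))}
    (h : FoldsInto (region S) Q) (t : Pt) : FoldsInto (region (S.image (· + t))) Q := by
  obtain ⟨f, hf, himg, hlen, hinj⟩ := h
  let v : RGeo.P2 := WithLp.toLp 2 ![-(t.1 : ℝ), -(t.2 : ℝ)]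
  have hsq : ∀ c z, z ∈ unitSq (c + t) ↔ z + v ∈ unitSq c := fun c z => by
    simp only [unitSq, v, mem_ofPred_eq, PiLp.add_apply, Matrix.cons_val, Prod.fst_add,
      Prod.snd_add]
    push_cast
    constructor <;> rintro ⟨a, b, c, d⟩ <;>
      exact ⟨by linarith, by linarith, by linarith, by linarith⟩
  have e : region (S.image (· + t)) = (· + v) ⁻¹' region S := by
    ext z
    constructor
    · intro hz
      obtain ⟨c, hc, zc⟩ := exists_cell_of_mem_region hz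
      obtain ⟨d, hd, rfl⟩ := Finset.mem_image.1 hc
      exact mem_region hd ((hsq d z).1 zc)
    · intro hz
      obtain ⟨c, hc, zc⟩ := exists_cell_of_mem_region hz
      exact mem_region (Finset.mem_image_of_mem _ hc) ((hsq c z).2 zc)
  rw [e]
  refine ⟨fun p => f (p + v), hf.comp (continuous_add_const v).continuousOn fun p hp => hp, ?_,
    fun γ hγ hm => ?_, fun x hx y hy hxy => ?_⟩
  · rw [← himg]
    exact (image_comp f (· + v) _).trans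
      (by rw [image_preimage_eq _ (add_right_surjective v)])
  · refine (hlen (fun s => γ s + v) (hγ.add continuousOn_const) fun s hs => hm hs).trans ?_
    simp only [eVariationOn, edist_add_right]
  · rw [← show (· + v) ⁻¹' interior (region S) = interior ((· + v) ⁻¹' region S) from
      (Homeomorph.addRight v).preimage_interior _] at hx
    exact add_right_cancel (hinj _ hx _ hy hxy)

end Pool.Agent.Lib.MP_4a7072_co
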