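import Pool.Agent.Lib.MP_4a7072_co.RBase

/-!
The discrete Jordan curve theorem for simple closed lattice paths, through winding numbers.
-/

set_option autoImplicit false

namespace Pool.Agent.Lib.MP_4a7072_co

namespace Jor

/-! ### Lists of steps -/

theorem endP_append (P : Pt) (u v : List Dir) : endP P (u ++ v) = endP (endP P u) v := by
  induction u generalizing P with
  | nil => rfl
  | cons k u ih => exact ih _

theorem edges_append (P : Pt) (u v : List Dir) :
    edges P (u ++ v) = edges P u ++ edges (endP P u) v := by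
  induction u generalizing P with
  | nil => rfl
  | cons k u ih => simp only [List.cons_append, edges, endP, ih]

theorem wind_nil (P c : Pt) : wind P [] c = 0 := rfl

theorem wind_cons (P : Pt) (k : Dir) (w : List Dir) (c : Pt) :
    wind P (k :: w) c = cross c (P, k) + wind (P + dv k) w c := by
  simp only [wind, edges, List.map_cons, List.sum_cons]

theorem wind_append (P : Pt) (u v : List Dir) (c : Pt) :
    wind P (u ++ v) c = wind P u c + wind (endP P u) v c := by
  simp only [wind, edges_append, List.map_append, List.sum_append]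

theorem cross_rev (c Q : Pt) (k : Dir) : cross c (Q + dv k, k + 2) = -cross c (Q, k) := by
  rcases dir_cases k with rfl | rfl | rfl | rfl <;> simp [cross, dv]
  · split_ifs <;> omega
  · split_ifs <;> omega

theorem add_dv_rev (Q : Pt) (k : Dir) : Q + dv k + dv (k + 2) = Q := by
  rw [dv_add_two, add_neg_cancel_right]

theorem back_cons (k : Dir) (w : List Dir) : back 0 (k :: w) = back 0 w ++ [k + 2] := by
  simp only [back, List.map_cons, List.reverse_cons, add_zero]

theorem endP_back (P : Pt) (w : List Dir) : endP (endP P w) (back 0 w) = P := by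
  induction w generalizing P with
  | nil => rfl
  | cons k w ih =>
    rw [back_cons, endP_append, show endP P (k :: w) = endP (P + dv k) w from rfl, ih]
    exact add_dv_rev P k

theorem wind_back (P : Pt) (w : List Dir) (c : Pt) :
    wind (endP P w) (back 0 w) c = -wind P w c := by
  induction w generalizing P with
  | nil => rfl
  | cons k w ih =>
    rw [back_cons, wind_append, endP, ih, endP_back, wind_cons, wind_cons, wind_nil, cross_rev]
    ring

theorem edges_rotate {P : Pt} {u v : List Dir} (h : endP P (u ++ v) = P) :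
    (edges (endP P u) (v ++ u)).Perm (edges P (u ++ v)) := by
  rw [edges_append, edges_append, ← endP_append, h]
  exact List.perm_append_comm

theorem endP_rotate {P : Pt} {u v : List Dir} (h : endP P (u ++ v) = P) :
    endP (endP P u) (v ++ u) = endP P u := by
  rw [endP_append, ← endP_append P u v, h]

theorem wind_rotate {P : Pt} {u v : List Dir} (h : endP P (u ++ v) = P) (c : Pt) :
    wind (endP P u) (v ++ u) c = wind P (u ++ v) c := ((edges_rotate h).map _).sum_eq

theorem telescope (h : Pt → ℤ) (P : Pt) (w : List Dir) :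
    ((edges P w).map fun e => h (e.1 + dv e.2) - h e.1).sum = h (endP P w) - h P := by
  induction w generalizing P with
  | nil => simp [edges, endP]
  | cons k w ih => simp only [edges, endP, List.map_cons, List.sum_cons, ih]; ring

theorem edge_bound {P : Pt} {w : List Dir} {e : Pt × Dir} (he : e ∈ edges P w) :
    P.1 - w.length < e.1.1 ∧ e.1.1 < P.1 + w.length ∧ P.2 - w.length < e.1.2 ∧
      e.1.2 < P.2 + w.length := by
  induction w generalizing P with
  | nil => simp [edges] at he
  | cons k w ih =>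
    rw [edges, List.mem_cons] at he
    rw [List.length_cons]
    rcases he with rfl | he
    · simp only; omega
    · have := ih he
      rcases dir_cases k with rfl | rfl | rfl | rfl <;> simp [dv] at this <;> omega

theorem ends_eq (P : Pt) (w : List Dir) :
    P :: (edges P w).map (fun e => e.1 + dv e.2) = verts P w ++ [endP P w] := by
  induction w generalizing P with
  | nil => rfl
  | cons k w ih =>
    simp only [edges, verts, endP, List.map_cons, List.cons_append] at ih ⊢
    rw [ih]

theorem ends_perm {P : Pt} {w : List Dir} (h : endP P w = P) :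
    ((edges P w).map fun e => e.1 + dv e.2).Perm (verts P w) := by
  have := ends_eq P w
  rw [h] at this
  refine List.Perm.cons_inv (a := P) ?_
  rw [this]
  exact List.perm_append_singleton _ _

theorem exists_split {P : Pt} {w : List Dir} {e : Pt × Dir} (he : e ∈ edges P w) :
    ∃ u v, w = u ++ e.2 :: v ∧ endP P u = e.1 := by
  induction w generalizing P with
  | nil => simp [edges] at he
  | cons k w ih =>
    rw [edges, List.mem_cons] at he
    rcases he with rfl | he
    · exact ⟨[], w, rfl, rfl⟩
    · obtain ⟨u, v, h1, h2⟩ := ih he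
      exact ⟨k :: u, v, by rw [h1]; rfl, h2⟩

theorem edges_ind (R : Pt × Dir → Prop) (P : Pt) (w : List Dir)
    (h : ∀ e ∈ edges P w, ∀ f ∈ edges P w, f.1 = e.1 + dv e.2 → (R e ↔ R f)) :
    ∀ e ∈ edges P w, ∀ f ∈ edges P w, R e ↔ R f := by
  induction w generalizing P with
  | nil => simp [edges]
  | cons k w ih =>
    have h1 := ih (P + dv k) fun e he f hf =>
      h e (List.mem_cons_of_mem _ he) f (List.mem_cons_of_mem _ hf)
    have h2 : ∀ f ∈ edges (P + dv k) w, R (P, k) ↔ R f := by
      intro f hf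
      cases w with
      | nil => simp [edges] at hf
      | cons l w =>
        have m : (P + dv k, l) ∈ edges (P + dv k) (l :: w) := List.mem_cons_self
        exact (h (P, k) List.mem_cons_self _ (List.mem_cons_of_mem _ m) rfl).trans (h1 _ m f hf)
    intro e he f hf
    rcases List.mem_cons.1 he with rfl | he <;> rcases List.mem_cons.1 hf with rfl | hf
    · rfl
    · exact h2 f hf
    · exact (h2 e he).symm
    · exact h1 e he f hf

/-! ### Jumps of the winding number -/

theorem cross_jump (Q : Pt) (k : Dir) : ∃ h : Pt → ℤ, ∀ e : Pt × Dir,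
    cross (lc Q k) e - cross (rc Q k) e = (if e = (Q, k) then 1 else 0) -
      (if e = (Q + dv k, k + 2) then 1 else 0) + (h (e.1 + dv e.2) - h e.1) := by
  obtain ⟨a, b⟩ := Q
  rcases dir_cases k with rfl | rfl | rfl | rfl
  · refine ⟨fun _ => 0, fun ⟨⟨x, y⟩, l⟩ => ?_⟩
    rcases dir_cases l with rfl | rfl | rfl | rfl <;> simp [cross, lc, rc, dv] <;>
      split_ifs <;> omega
  · refine ⟨fun z => if z.1 = a ∧ z.2 ≤ b then 1 else 0, fun ⟨⟨x, y⟩, l⟩ => ?_⟩
    rcases dir_cases l with rfl | rfl | rfl | rfl <;> simp [cross, lc, rc, dv] <;>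
      split_ifs <;> omega
  · refine ⟨fun _ => 0, fun ⟨⟨x, y⟩, l⟩ => ?_⟩
    rcases dir_cases l with rfl | rfl | rfl | rfl <;> simp [cross, lc, rc, dv] <;>
      split_ifs <;> omega
  · refine ⟨fun z => if z.1 = a ∧ z.2 < b then -1 else 0, fun ⟨⟨x, y⟩, l⟩ => ?_⟩
    rcases dir_cases l with rfl | rfl | rfl | rfl <;> simp [cross, lc, rc, dv] <;>
      split_ifs <;> omega

theorem wind_jump {P : Pt} {w : List Dir} (hP : endP P w = P) (Q : Pt) (k : Dir) :
    wind P w (lc Q k) - wind P w (rc Q k) =
      (edges P w).count (Q, k) - (edges P w).count (Q + dv k, k + 2) := by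
  obtain ⟨h, hh⟩ := cross_jump Q k
  have key : ∀ E : List (Pt × Dir), (E.map (cross (lc Q k))).sum - (E.map (cross (rc Q k))).sum =
      E.count (Q, k) - E.count (Q + dv k, k + 2) +
        (E.map fun e => h (e.1 + dv e.2) - h e.1).sum := by
    intro E
    induction E with
    | nil => simp
    | cons e E ih =>
      have := hh e
      simp only [List.map_cons, List.sum_cons, List.count_cons, beq_iff_eq]
      push_cast
      linarith
  rw [wind, wind, key, telescope, hP, sub_self, add_zero]

theorem wind_bound {P : Pt} {w : List Dir} (hP : endP P w = P) {c : Pt} (h : wind P w c ≠ 0) :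
    (P.1 - w.length - 1 ≤ c.1 ∧ c.1 ≤ P.1 + w.length) ∧
      P.2 - w.length - 1 ≤ c.2 ∧ c.2 ≤ P.2 + w.length := by
  have h1 : ∃ e ∈ edges P w, cross c e ≠ 0 := by
    by_contra hc
    push Not at hc
    exact h (List.sum_eq_zero fun x hx => by
      obtain ⟨e, he, rfl⟩ := List.mem_map.1 hx
      exact hc e he)
  obtain ⟨e, he, h2⟩ := h1
  have h3 := edge_bound he
  have h4 : c.2 ≤ P.2 + w.length := by
    by_contra hc
    apply h
    have t := telescope (fun z => if c.1 < z.1 then 1 else 0) P w
    rw [hP, sub_self] at t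
    rw [wind, ← t]
    congr 1
    refine List.map_congr_left fun ⟨⟨x, y⟩, l⟩ hf => ?_
    have h5 := edge_bound hf
    rcases dir_cases l with rfl | rfl | rfl | rfl <;> simp [cross, dv] at h5 ⊢ <;>
      split_ifs <;> omega
  unfold cross at h2
  split_ifs at h2 <;> omega

/-- The cells `c` and `d` share an edge that is not used by the path. -/
def Free (P : Pt) (w : List Dir) (c d : Pt) : Prop :=
  ∃ Q k, c = lc Q k ∧ d = rc Q k ∧ (Q, k) ∉ edges P w ∧ (Q + dv k, k + 2) ∉ edges P w

theorem Free.symm {P : Pt} {w : List Dir} {c d : Pt} (h : Free P w c d) : Free P w d c := by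
  obtain ⟨Q, k, rfl, rfl, h1, h2⟩ := h
  refine ⟨Q + dv k, k + 2, (lc_rev Q k).symm, (rc_rev Q k).symm, h2, ?_⟩
  rwa [add_dv_rev, dir_a22]

theorem Free.adj {P : Pt} {w : List Dir} {c d : Pt} (h : Free P w c d) : EdgeAdj c d := by
  obtain ⟨Q, k, rfl, rfl, -⟩ := h
  exact edgeAdj_lc_rc Q k

theorem Free.wind_eq {P : Pt} {w : List Dir} (hP : endP P w = P) {c d : Pt} (h : Free P w c d) :
    wind P w c = wind P w d := by
  obtain ⟨Q, k, rfl, rfl, h1, h2⟩ := h
  have := wind_jump hP Q k
  rw [List.count_eq_zero.2 h1, List.count_eq_zero.2 h2] at this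
  omega

/-- The cells `c` and `d` are joined without crossing the path. -/
def Conn (P : Pt) (w : List Dir) : Pt → Pt → Prop := Relation.ReflTransGen (Free P w)

theorem Conn.refl (P : Pt) (w : List Dir) (c : Pt) : Conn P w c c := Relation.ReflTransGen.refl

theorem Conn.trans {P : Pt} {w : List Dir} {c d e : Pt} (h : Conn P w c d) (h' : Conn P w d e) :
    Conn P w c e := Relation.ReflTransGen.trans h h'

theorem Free.conn {P : Pt} {w : List Dir} {c d : Pt} (h : Free P w c d) : Conn P w c d :=
  Relation.ReflTransGen.single h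

theorem Conn.symm {P : Pt} {w : List Dir} {c d : Pt} (h : Conn P w c d) : Conn P w d c := by
  induction h with
  | refl => exact Conn.refl _ _ _
  | tail _ h ih => exact h.symm.conn.trans ih

theorem Conn.wind_eq {P : Pt} {w : List Dir} (hP : endP P w = P) {c d : Pt} (h : Conn P w c d) :
    wind P w c = wind P w d := by
  induction h with
  | refl => rfl
  | tail _ h ih => exact ih.trans (h.wind_eq hP)

theorem Conn.path {P : Pt} {w : List Dir} (hP : endP P w = P) {A : Set Pt}
    (hA : ∀ c d, wind P w c = wind P w d → c ∈ A → d ∈ A) {c d : Pt} (hc : c ∈ A)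
    (h : Conn P w c d) : Relation.ReflTransGen (fun x y => x ∈ A ∧ y ∈ A ∧ EdgeAdj x y) c d := by
  induction h with
  | refl => exact Relation.ReflTransGen.refl
  | tail h1 h ih =>
    have m := hA _ _ (Conn.wind_eq hP h1) hc
    exact ih.tail ⟨m, hA _ _ (h.wind_eq hP) m, h.adj⟩

/-! ### Simple closed paths -/

variable {P : Pt} {w : List Dir}

theorem simple_rotate {u v : List Dir} (h : Simple P (u ++ v)) : Simple (endP P u) (v ++ u) :=
  ⟨endP_rotate h.1, ((edges_rotate h.1).map _).nodup_iff.2 h.2.1, by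
    have := h.2.2
    simp only [List.length_append] at this ⊢
    omega⟩

theorem out_unique (hs : Simple P w) {Q : Pt} {k l : Dir} (h1 : (Q, k) ∈ edges P w)
    (h2 : (Q, l) ∈ edges P w) : k = l :=
  congrArg Prod.snd (List.inj_on_of_nodup_map hs.2.1 h1 h2 rfl)

theorem in_unique (hs : Simple P w) {e f : Pt × Dir} (h1 : e ∈ edges P w) (h2 : f ∈ edges P w)
    (h : e.1 + dv e.2 = f.1 + dv f.2) : e = f :=
  List.inj_on_of_nodup_map ((ends_perm hs.1).nodup_iff.2 hs.2.1) h1 h2 h

theorem not_rev (hs : Simple P w) {Q : Pt} {k : Dir} (h1 : (Q, k) ∈ edges P w) :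
    (Q + dv k, k + 2) ∉ edges P w := by
  intro h2
  obtain ⟨u, v, rfl, rfl⟩ := exists_split h1
  have hr := simple_rotate hs
  have h3 := (edges_rotate hs.1).mem_iff.2 h2
  simp only at hr h3
  generalize endP P u = Q at hr h3
  rw [List.cons_append] at hr h3
  generalize v ++ u = r at hr h3
  match r, hr, h3 with
  | [], hr, _ => simpa using hr.2.2
  | [_], hr, _ => simpa using hr.2.2
  | l :: m :: r, hr, h3 =>
    have e := out_unique hr h3 (List.mem_cons_of_mem _ List.mem_cons_self)
    subst e
    have := hr.2.1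
    simp only [verts, edges, List.map_cons, add_dv_rev, List.nodup_cons, List.mem_cons, true_or,
      or_true, not_true_eq_false, false_and] at this

theorem wind_edge (hs : Simple P w) {e : Pt × Dir} (he : e ∈ edges P w) :
    wind P w (lc e.1 e.2) = wind P w (rc e.1 e.2) + 1 := by
  have := wind_jump hs.1 e.1 e.2
  rw [List.count_eq_zero.2 (not_rev hs he),
    List.count_eq_one_of_mem (List.Nodup.of_map _ hs.2.1) he] at this
  omega

theorem corner (hs : Simple P w) {Q : Pt} {k l : Dir} (h1 : (Q, k) ∈ edges P w)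
    (h2 : (Q + dv k, l) ∈ edges P w) (t : Dir) :
    (t.val < ang k l → Conn P w (lc (Q + dv k) l) (lc (Q + dv k) (l + t))) ∧
      (ang k l ≤ t.val → Conn P w (rc (Q + dv k) l) (lc (Q + dv k) (l + t))) := by
  have hne : l ≠ k + 2 := fun e => not_rev hs h1 (e ▸ h2)
  have F : ∀ s, s ≠ l → s ≠ k + 2 → Conn P w (lc (Q + dv k) s) (lc (Q + dv k) (s + 3)) := by
    intro s a b
    refine Free.conn ⟨_, s, rfl, (rc_eq _ _).symm, fun h => a (out_unique hs h h2), fun h => b ?_⟩
    have := congrArg Prod.snd (in_unique hs h h1 (add_dv_rev _ _))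
    simp only at this
    rw [← this, dir_a22]
  rw [rc_eq]
  generalize Q + dv k = W at F
  have r := Conn.refl P w
  have e1 : ∀ l : Dir, l + 1 + 3 = l := by decide
  have e2 : ∀ l : Dir, l + 2 + 3 = l + 1 := by decide
  have e3 : ∀ l : Dir, l + 3 + 3 = l + 2 := by decide
  have e4 : ∀ l : Dir, l + 1 ≠ l ∧ l + 2 ≠ l ∧ l + 3 ≠ l := by decide
  have F1 := F (l + 1) (e4 l).1
  have F2 := F (l + 2) (e4 l).2.1
  have F3 := F (l + 3) (e4 l).2.2
  rw [e1] at F1
  rw [e2] at F2
  rw [e3] at F3
  have hc : (k + 2 = l + 1 ∧ ang k l = 1) ∨ (k + 2 = l + 2 ∧ ang k l = 2) ∨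
      (k + 2 = l + 3 ∧ ang k l = 3) := by
    clear F1 F2 F3 F h1 h2
    revert k l
    decide
  have n12 : ∀ l : Dir, l + 1 ≠ l + 2 := by decide
  have n13 : ∀ l : Dir, l + 1 ≠ l + 3 := by decide
  have n23 : ∀ l : Dir, l + 2 ≠ l + 3 := by decide
  rcases hc with ⟨a, b⟩ | ⟨a, b⟩ | ⟨a, b⟩ <;> rw [a] at F1 F2 F3 <;> rw [b] <;>
    rcases dir_cases t with rfl | rfl | rfl | rfl <;>
    refine ⟨fun h => ?_, fun h => ?_⟩ <;> first | exact absurd h (by decide) | skip
  · rw [add_zero]; exact r _
  · exact (F3 (n13 l).symm).trans (F2 (n12 l).symm)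
  · exact F3 (n13 l).symm
  · exact r _
  · rw [add_zero]; exact r _
  · exact (F1 (n12 l)).symm
  · exact F3 (n23 l).symm
  · exact r _
  · rw [add_zero]; exact r _
  · exact (F1 (n13 l)).symm
  · exact ((F2 (n23 l)).trans (F1 (n13 l))).symm
  · exact r _

theorem conn_left (hs : Simple P w) {e f : Pt × Dir} (he : e ∈ edges P w) (hf : f ∈ edges P w) :
    Conn P w (lc e.1 e.2) (lc f.1 f.2) := by
  refine (edges_ind (fun f => Conn P w (lc e.1 e.2) (lc f.1 f.2)) P w ?_ e he f hf).1
    (Conn.refl _ _ _)
  rintro ⟨Q, k⟩ h1 ⟨W, l⟩ h2 e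
  simp only at e
  subst e
  have hne : l ≠ k + 2 := fun e => not_rev hs h1 (e ▸ h2)
  have c := (corner hs h1 h2 (k + 1 - l)).1 (by clear h1 h2; revert k l; decide)
  rw [add_sub_cancel, lc_next] at c
  exact ⟨fun h => h.trans c.symm, fun h => h.trans c⟩

theorem conn_right (hs : Simple P w) {e f : Pt × Dir} (he : e ∈ edges P w) (hf : f ∈ edges P w) :
    Conn P w (rc e.1 e.2) (rc f.1 f.2) := by
  refine (edges_ind (fun f => Conn P w (rc e.1 e.2) (rc f.1 f.2)) P w ?_ e he f hf).1
    (Conn.refl _ _ _)
  rintro ⟨Q, k⟩ h1 ⟨W, l⟩ h2 e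
  simp only at e
  subst e
  have c := (corner hs h1 h2 (k + 2 - l)).2 le_rfl
  rw [add_sub_cancel, lc_rev] at c
  exact ⟨fun h => h.trans c.symm, fun h => h.trans c⟩

theorem grid_ind (R : Pt → Prop) (h : ∀ c k, R (c + dv k) → R c) {c₀ : Pt} (h0 : R c₀) (c : Pt) :
    R c := by
  have key : ∀ x y : ℤ, R (c₀.1 + x, c₀.2 + y) := by
    intro x y
    induction x with
    | zero =>
      induction y with
      | zero => simpa using h0
      | succ y ih => exact h _ 3 (by convert ih using 1; ext <;> simp [dv]; ring)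
      | pred y ih => exact h _ 1 (by convert ih using 1; ext <;> simp [dv]; ring)
    | succ x ih => exact h _ 2 (by convert ih using 1; ext <;> simp [dv]; ring)
    | pred x ih => exact h _ 0 (by convert ih using 1; ext <;> simp [dv]; ring)
  simpa using key (c.1 - c₀.1) (c.2 - c₀.2)

theorem conn_or (hs : Simple P w) {e : Pt × Dir} (he : e ∈ edges P w) (c : Pt) :
    Conn P w c (lc e.1 e.2) ∨ Conn P w c (rc e.1 e.2) := by
  refine grid_ind (fun c => Conn P w c (lc e.1 e.2) ∨ Conn P w c (rc e.1 e.2)) (fun c k h => ?_)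
    (Or.inl (Conn.refl _ _ _)) c
  have e1 : lc (c - rotC (k + 1) (0, 0)) (k + 1) = c := by rw [lc_eq, add_sub_cancel]
  have e3 : ∀ k : Dir, k + 1 + 3 = k := by decide
  have e2 : rc (c - rotC (k + 1) (0, 0)) (k + 1) = c + dv k := by rw [rc_eq_add, e1, e3]
  generalize c - rotC (k + 1) (0, 0) = Q at e1 e2
  by_cases a : (Q, k + 1) ∈ edges P w
  · exact Or.inl (e1 ▸ conn_left hs a he)
  by_cases b : (Q + dv (k + 1), k + 1 + 2) ∈ edges P w
  · have := conn_right hs b he
    simp only [rc_rev, e1] at this
    exact Or.inr this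
  have f : Conn P w c (c + dv k) := Free.conn ⟨Q, k + 1, e1.symm, e2.symm, a, b⟩
  exact h.imp f.trans f.trans

theorem wind_right (hs : Simple P w) (hc : Ccw P w) {e : Pt × Dir} (he : e ∈ edges P w) :
    wind P w (rc e.1 e.2) = 0 := by
  obtain ⟨f, hf, h⟩ := hc
  rw [(conn_right hs he hf).wind_eq hs.1, h]

theorem wind_left (hs : Simple P w) (hc : Ccw P w) {e : Pt × Dir} (he : e ∈ edges P w) :
    wind P w (lc e.1 e.2) = 1 := by
  rw [wind_edge hs he, wind_right hs hc he, zero_add]

theorem wind_around (h : endP P w = P) {W : Pt} (hW : W ∉ verts P w) (k l : Dir) :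
    wind P w (lc W k) = wind P w (lc W l) := by
  have F : ∀ s, wind P w (lc W s) = wind P w (lc W (s + 3)) := fun s => by
    refine Free.wind_eq h ⟨W, s, rfl, (rc_eq _ _).symm, fun m => hW (List.mem_map_of_mem m),
      fun m => hW ((ends_perm h).mem_iff.1 ?_)⟩
    exact List.mem_map.2 ⟨_, m, add_dv_rev _ _⟩
  have F0 : wind P w (lc W 0) = wind P w (lc W 3) := F 0
  have F1 : wind P w (lc W 1) = wind P w (lc W 0) := F 1
  have F2 : wind P w (lc W 2) = wind P w (lc W 1) := F 2
  rcases dir_cases k with rfl | rfl | rfl | rfl <;> rcases dir_cases l with rfl | rfl | rfl | rfl <;>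
    omega

theorem wind_translate (P t : Pt) (w : List Dir) (c : Pt) :
    wind (P + t) w (c + t) = wind P w c := by
  induction w generalizing P with
  | nil => rfl
  | cons k w ih =>
    rw [wind_cons, wind_cons, add_right_comm, ih]
    congr 1
    simp only [cross, Prod.fst_add, Prod.snd_add, add_left_inj, add_le_add_iff_right,
      add_right_comm c.1 t.1 1]

end Jor

open Jor

theorem mem_inside_iff {P : Pt} {w : List Dir} (h : endP P w = P) (c : Pt) :
    c ∈ inside P w ↔ wind P w c = 1 := by
  simp only [inside, Finset.mem_filter, Finset.mem_product, Finset.mem_Icc]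
  exact ⟨fun h => h.2, fun h1 => ⟨wind_bound h (by omega), h1⟩⟩

theorem wind_zero_or_one {P : Pt} {w : List Dir} (hs : Simple P w) (hc : Ccw P w) (c : Pt) :
    wind P w c = 0 ∨ wind P w c = 1 := by
  obtain ⟨e, he, -⟩ := id hc
  rcases conn_or hs he c with h | h
  · exact Or.inr ((h.wind_eq hs.1).trans (wind_left hs hc he))
  · exact Or.inl ((h.wind_eq hs.1).trans (wind_right hs hc he))

theorem isBd_inside_iff {P : Pt} {w : List Dir} (hs : Simple P w) (hc : Ccw P w) (e : Pt × Dir) :
    IsBd (inside P w) e ↔ e ∈ edges P w := by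
  rw [IsBd, mem_inside_iff hs.1, mem_inside_iff hs.1]
  constructor
  · rintro ⟨h1, h2⟩
    have h3 := wind_zero_or_one hs hc (rc e.1 e.2)
    have h4 := wind_jump hs.1 e.1 e.2
    exact List.count_pos_iff.1 (show 0 < (edges P w).count (e.1, e.2) by omega)
  · intro he
    exact ⟨wind_left hs hc he, by rw [wind_right hs hc he]; omega⟩

theorem isPolyomino_inside {P : Pt} {w : List Dir} (hs : Simple P w) (hc : Ccw P w) :
    IsPolyomino (inside P w) := by
  obtain ⟨e, he, -⟩ := id hc
  refine ⟨⟨_, (mem_inside_iff hs.1 _).2 (wind_left hs hc he)⟩, fun c h1 d h2 => ?_⟩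
  have key : ∀ c ∈ inside P w, Conn P w c (lc e.1 e.2) := fun c h =>
    (conn_or hs he c).resolve_right fun h' => by
      have := h'.wind_eq hs.1
      rw [wind_right hs hc he, (mem_inside_iff hs.1 c).1 h] at this
      omega
  refine ((key c h1).trans (key d h2).symm).path hs.1 (fun c d e h => ?_) h1
  rw [Finset.mem_coe, mem_inside_iff hs.1] at h ⊢
  rw [← e, h]

theorem holeFree_inside {P : Pt} {w : List Dir} (hs : Simple P w) (hc : Ccw P w) :
    HoleFree (inside P w) := by
  obtain ⟨e, he, -⟩ := id hc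
  intro c h1 d h2
  have key : ∀ c, c ∉ inside P w → Conn P w c (rc e.1 e.2) := fun c h =>
    (conn_or hs he c).resolve_left fun h' =>
      h ((mem_inside_iff hs.1 c).2 ((h'.wind_eq hs.1).trans (wind_left hs hc he)))
  refine ((key c h1).trans (key d h2).symm).path hs.1 (fun c d e h => ?_) h1
  rw [Set.mem_compl_iff, Finset.mem_coe, mem_inside_iff hs.1] at h ⊢
  rwa [← e]

theorem noPinch_inside {P : Pt} {w : List Dir} (hs : Simple P w) (hc : Ccw P w) :
    NoPinch (inside P w) := by
  intro W k h1 h2
  by_contra h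
  rw [not_or] at h
  have e : ∀ k : Dir, k + 2 + 3 = k + 1 ∧ k ≠ k + 2 := by decide
  have a := (isBd_inside_iff hs hc (W, k)).1 ⟨h1, by rw [rc_eq]; exact h.2⟩
  have b := (isBd_inside_iff hs hc (W, k + 2)).1 ⟨h2, by rw [rc_eq, (e k).1]; exact h.1⟩
  exact (e k).2 (out_unique hs a b)

theorem corner_inside {P : Pt} {w : List Dir} (hs : Simple P w) (hc : Ccw P w) {Q : Pt}
    {k l : Dir} (h1 : (Q, k) ∈ edges P w) (h2 : (Q + dv k, l) ∈ edges P w) (t : Dir) :
    lc (Q + dv k) (l + t) ∈ inside P w ↔ t.val < ang k l := by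
  have c := corner hs h1 h2 t
  rw [mem_inside_iff hs.1]
  constructor
  · intro h
    by_contra h'
    have := (c.2 (not_lt.1 h')).wind_eq hs.1
    have r : wind P w (rc (Q + dv k) l) = 0 := wind_right hs hc h2
    omega
  · intro h
    exact ((c.1 h).wind_eq hs.1).symm.trans (wind_left hs hc h2)

theorem wind_eq_zero_of_escapes {P : Pt} {w : List Dir} (h : endP P w = P) {W : Pt} {d : Dir}
    (hE : Escapes P w W d) (k : Dir) : wind P w (lc W k) = 0 := by
  have key : ∀ t : ℕ, wind P w (lc W k) = wind P w (lc (W + (t : ℤ) • dv d) d) := by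
    intro t
    induction t with
    | zero =>
      have := hE 0
      simp only [Nat.cast_zero, zero_smul, add_zero] at this ⊢
      exact wind_around h this _ _
    | succ t ih =>
      rw [ih, wind_around h (hE (t + 1)) d (d + 1), Nat.cast_succ, add_smul, one_smul,
        ← add_assoc, lc_next]
  by_contra hn
  obtain ⟨t, ht⟩ : ∃ t, t = (W.1 - P.1).natAbs + (W.2 - P.2).natAbs + w.length + 3 := ⟨_, rfl⟩
  rw [key t] at hn
  have := wind_bound h hn
  rcases dir_cases d with rfl | rfl | rfl | rfl <;> simp [lc, dv] at this <;> omega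

theorem ccw_of_escapes {P : Pt} {w : List Dir} (h : endP P w = P) {Q : Pt} {k d : Dir}
    (he : (Q, k) ∈ edges P w) (hE : Escapes P w (Q + dv (k + 3)) d) : Ccw P w :=
  ⟨(Q, k), he, by
    have := wind_eq_zero_of_escapes h hE k
    rwa [lc_add, ← rc_eq_add] at this⟩

theorem inside_translate (P t : Pt) (w : List Dir) :
    inside (P + t) w = (inside P w).image (· + t) := by
  ext c
  obtain ⟨c, rfl⟩ : ∃ d, c = d + t := ⟨c - t, (sub_add_cancel _ _).symm⟩
  rw [Finset.mem_image]
  simp only [add_left_inj, exists_eq_right]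
  simp only [inside, Finset.mem_filter, Finset.mem_product, Finset.mem_Icc, wind_translate,
    Prod.fst_add, Prod.snd_add]
  omega

theorem inside_union {P Q : Pt} {π α β : List Dir} (hQ : endP P π = Q)
    (ha : Simple P (π ++ α)) (ha' : Ccw P (π ++ α))
    (hb : Simple Q (back 0 π ++ β)) (hb' : Ccw Q (back 0 π ++ β))
    (hc : Simple Q (α ++ β)) (hc' : Ccw Q (α ++ β)) :
    inside Q (α ++ β) = inside P (π ++ α) ∪ inside Q (back 0 π ++ β) ∧
      Disjoint (inside P (π ++ α)) (inside Q (back 0 π ++ β)) := by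
  subst hQ
  have e : endP (endP P π) α = P := by rw [← endP_append]; exact ha.1
  have key : ∀ c, wind (endP P π) (α ++ β) c =
      wind P (π ++ α) c + wind (endP P π) (back 0 π ++ β) c := fun c => by
    rw [wind_append, wind_append, wind_append, wind_back, endP_back, e]; ring
  have a := wind_zero_or_one ha ha'
  have b := wind_zero_or_one hb hb'
  have c := wind_zero_or_one hc hc'
  constructor
  · ext x
    rw [Finset.mem_union, mem_inside_iff ha.1, mem_inside_iff hb.1, mem_inside_iff hc.1]
    have := key x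
    have := a x
    have := b x
    have := c x
    omega
  · rw [Finset.disjoint_left]
    intro x h1 h2
    rw [mem_inside_iff ha.1] at h1
    rw [mem_inside_iff hb.1] at h2
    have := key x
    have := c x
    omega

theorem inside_rotate {P : Pt} {u v : List Dir} (h : endP P (u ++ v) = P) :
    inside (endP P u) (v ++ u) = inside P (u ++ v) := by
  ext c
  rw [mem_inside_iff h, mem_inside_iff (endP_rotate h), wind_rotate h]

theorem Simple.rotate {P : Pt} {u v : List Dir} (h : Simple P (u ++ v)) :
    Simple (endP P u) (v ++ u) := simple_rotate h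

theorem Ccw.rotate {P : Pt} {u v : List Dir} (h0 : endP P (u ++ v) = P) (h : Ccw P (u ++ v)) :
    Ccw (endP P u) (v ++ u) := by
  obtain ⟨e, he, h⟩ := h
  exact ⟨e, (edges_rotate h0).mem_iff.2 he, by rw [wind_rotate h0, h]⟩

end Pool.Agent.Lib.MP_4a7072_co
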