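import Pool.Agent.Lib.MP_4a7072_co.RBase

/-!
Trivial monodromy on a set of cells without holes. A flat connection on `S` extends to a flat
connection on `S` with one more cell as long as the new cell has a neighbour outside; filling up to
a rectangle reduces the existence of a parallel section to rectangles.
-/

set_option autoImplicit false

namespace Pool.Agent.Lib.MP_4a7072_co

namespace Mono

variable {G : Type} [Group G]

/-- The connection with horizontal labels `h` and vertical labels `v` is flat on `S`. -/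
def Flat (S : Finset Pt) (h v : Pt → G) : Prop :=
  ∀ x y : ℤ, (x, y) ∈ S → (x + 1, y) ∈ S → (x, y + 1) ∈ S → (x + 1, y + 1) ∈ S →
    v (x + 1, y) * h (x, y) = h (x, y + 1) * v (x, y)

/-- `Φ` is a parallel section on `S`. -/
def Sec (S : Finset Pt) (h v Φ : Pt → G) : Prop :=
  ∀ x y : ℤ, (x, y) ∈ S → ((x + 1, y) ∈ S → Φ (x + 1, y) = h (x, y) * Φ (x, y)) ∧
    ((x, y + 1) ∈ S → Φ (x, y + 1) = v (x, y) * Φ (x, y))

/-- Every flat connection on `S` has a parallel section. -/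
def Good (G : Type) [Group G] (S : Finset Pt) : Prop :=
  ∀ h v : Pt → G, Flat S h v → ∃ Φ, Sec S h v Φ

theorem stair (S : Finset Pt) :
    (∀ x y : ℤ, (x + 1, y) ∈ S → (x, y + 1) ∈ S → (x + 1, y + 1) ∈ S → (x, y) ∈ S) → Good G S := by
  induction S using Finset.induction_on_max_value (fun c : Pt => c.1 + c.2) with
  | empty => exact fun _ _ _ _ => ⟨1, fun _ _ h => absurd h (Finset.notMem_empty _)⟩
  | insert c s hc hm ih =>
    obtain ⟨a, b⟩ := c
    intro hP h v hF
    have m := fun z : Pt => Finset.mem_insert_of_mem (s := s) (a := z) (b := (a, b))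
    have m0 := Finset.mem_insert_self (a, b) s
    have ne : ∀ z ∈ s, z ≠ (a, b) := fun z hz e => hc (e ▸ hz)
    obtain ⟨Φ, hΦ⟩ := ih (fun x y h1 h2 h3 => by
      refine (Finset.mem_insert.1 (hP x y (m _ h1) (m _ h2) (m _ h3))).resolve_left fun e => ?_
      have := hm _ h1
      simp only [Prod.mk.injEq] at e this
      omega) h v fun x y h0 h1 h2 h3 => hF x y (m _ h0) (m _ h1) (m _ h2) (m _ h3)
    refine ⟨Function.update Φ (a, b) (if (a - 1, b) ∈ s then h (a - 1, b) * Φ (a - 1, b)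
      else v (a, b - 1) * Φ (a, b - 1)), fun x y k0 => ?_⟩
    rcases Finset.mem_insert.1 k0 with e | h0
    · have no : ∀ z ∈ insert (a, b) s, z.1 + z.2 ≤ x + y := fun z hz => by
        simp only [Prod.mk.injEq] at e
        rcases Finset.mem_insert.1 hz with rfl | hz
        · omega
        · have := hm z hz
          omega
      exact ⟨fun h1 => by have := no _ h1; omega, fun h1 => by have := no _ h1; omega⟩
    rw [Function.update_of_ne (ne _ h0)]
    refine ⟨fun k1 => ?_, fun k1 => ?_⟩ <;> rcases Finset.mem_insert.1 k1 with e | h1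
    · obtain ⟨rfl, rfl⟩ := Prod.mk.inj e
      simp [h0]
    · rw [Function.update_of_ne (ne _ h1), (hΦ x y h0).1 h1]
    · obtain ⟨rfl, rfl⟩ := Prod.mk.inj e
      rw [Function.update_self, add_sub_cancel_right]
      split_ifs with h2
      · obtain ⟨x, rfl⟩ : ∃ x', x = x' + 1 := ⟨x - 1, by ring⟩
        rw [add_sub_cancel_right] at h2 ⊢
        have h3 : (x, y) ∈ s := (Finset.mem_insert.1 (hP x y (m _ h0) (m _ h2) m0)).resolve_left
          (by simp)
        rw [(hΦ x y h3).1 h0, (hΦ x y h3).2 h2, ← mul_assoc, ← mul_assoc,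
          hF x y (m _ h3) (m _ h0) (m _ h2) m0]
      · rfl
    · rw [Function.update_of_ne (ne _ h1), (hΦ x y h0).2 h1]

theorem step {S : Finset Pt} {c d : Pt} (hc : c ∉ S) (hd : d ∉ S) (hcd : EdgeAdj c d)
    (hG : Good G (insert c S)) : Good G S := by
  obtain ⟨a, b⟩ := c
  obtain ⟨a, rfl⟩ : ∃ x, a = x + 1 := ⟨a - 1, by ring⟩
  obtain ⟨b, rfl⟩ : ∃ x, b = x + 1 := ⟨b - 1, by ring⟩
  intro h v hF
  obtain ⟨e, n, w, s, h1, h2, h3, h4⟩ : ∃ e n w s : G,
      ((a + 1 + 1, b + 1) ∈ S → (a + 1, b + 1 + 1) ∈ S →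
        v (a + 1 + 1, b + 1) * e = h (a + 1, b + 1 + 1) * n) ∧
      ((a, b + 1) ∈ S → (a + 1, b + 1 + 1) ∈ S → n * w = h (a, b + 1 + 1) * v (a, b + 1)) ∧
      ((a, b + 1) ∈ S → (a + 1, b) ∈ S → s * h (a, b) = w * v (a, b)) ∧
      ((a + 1 + 1, b + 1) ∈ S → (a + 1, b) ∈ S → v (a + 1 + 1, b) * h (a + 1, b) = e * s) := by
    obtain ⟨k, rfl⟩ := (edgeAdj_iff _ _).1 hcd
    rcases dir_cases k with rfl | rfl | rfl | rfl <;> simp [dv] at hd
    · exact ⟨1, h (a, b + 1 + 1) * v (a, b + 1), 1, v (a, b) * (h (a, b))⁻¹, by simp [hd]⟩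
    · exact ⟨v (a + 1 + 1, b) * h (a + 1, b), 1, h (a, b) * (v (a, b))⁻¹, 1, by simp [hd]⟩
    · exact ⟨1, (h (a + 1, b + 1 + 1))⁻¹ * v (a + 1 + 1, b + 1), 1,
        v (a + 1 + 1, b) * h (a + 1, b), by simp [hd]⟩
    · exact ⟨(v (a + 1 + 1, b + 1))⁻¹ * h (a + 1, b + 1 + 1), 1,
        h (a, b + 1 + 1) * v (a, b + 1), 1, by simp [hd]⟩
  have ne : ∀ z ∈ S, z ≠ (a + 1, b + 1) := fun z hz e => hc (e ▸ hz)
  have uh : ∀ x y : ℤ, (x, y) ∈ S → (x + 1, y) ∈ S →
      Function.update (Function.update h (a + 1, b + 1) e) (a, b + 1) w (x, y) = h (x, y) :=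
    fun x y h0 h1 => by
      rw [Function.update_of_ne fun e => ne _ h1 (by cases e; rfl), Function.update_of_ne (ne _ h0)]
  have uv : ∀ x y : ℤ, (x, y) ∈ S → (x, y + 1) ∈ S →
      Function.update (Function.update v (a + 1, b + 1) n) (a + 1, b) s (x, y) = v (x, y) :=
    fun x y h0 h1 => by
      rw [Function.update_of_ne fun e => ne _ h1 (by cases e; rfl), Function.update_of_ne (ne _ h0)]
  obtain ⟨Φ, hΦ⟩ := hG (Function.update (Function.update h (a + 1, b + 1) e) (a, b + 1) w)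
    (Function.update (Function.update v (a + 1, b + 1) n) (a + 1, b) s) fun x y m0 m1 m2 m3 => by
      rw [Finset.mem_insert, Prod.mk.injEq] at m0 m1 m2 m3
      rcases m0 with ⟨rfl, rfl⟩ | m0
      · have m1 := m1.resolve_left (by omega)
        have m2 := m2.resolve_left (by omega)
        have m3 := m3.resolve_left (by omega)
        rw [uv _ _ m1 m3, uh _ _ m2 m3]
        simpa using h1 m1 m2
      rcases m1 with ⟨e1, rfl⟩ | m1
      · obtain rfl : x = a := by omega
        have m2 := m2.resolve_left (by omega)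
        have m3 := m3.resolve_left (by omega)
        rw [uv _ _ m0 m2, uh _ _ m2 m3]
        simpa using h2 m0 m3
      rcases m2 with ⟨rfl, e1⟩ | m2
      · obtain rfl : y = b := by omega
        have m3 := m3.resolve_left (by omega)
        rw [uv _ _ m1 m3, uh _ _ m0 m1]
        simpa using h4 m3 m0
      rcases m3 with ⟨e1, e2⟩ | m3
      · obtain rfl : x = a := by omega
        obtain rfl : y = b := by omega
        rw [uv _ _ m0 m2, uh _ _ m0 m1]
        simpa using h3 m2 m1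
      rw [uv _ _ m0 m2, uh _ _ m0 m1, uv _ _ m1 m3, uh _ _ m2 m3]
      exact hF x y m0 m1 m2 m3
  refine ⟨Φ, fun x y h0 => ⟨fun h1 => ?_, fun h1 => ?_⟩⟩
  · rw [(hΦ x y (Finset.mem_insert_of_mem h0)).1 (Finset.mem_insert_of_mem h1), uh x y h0 h1]
  · rw [(hΦ x y (Finset.mem_insert_of_mem h0)).2 (Finset.mem_insert_of_mem h1), uv x y h0 h1]

theorem good_of_holeFree {S : Finset Pt} (hF : HoleFree S) : Good G S := by
  obtain ⟨lo, hlo⟩ := S.bddBelow
  obtain ⟨hi, hhi⟩ := S.bddAbove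
  obtain ⟨o, ho⟩ := Infinite.exists_notMem_finset (Finset.Icc lo hi)
  have key : ∀ U : Finset Pt, S ⊆ U → o ∉ U → Good G U → Good G S := fun U => by
    induction U using Finset.strongInduction with
    | H U ih =>
      intro h1 h2 h3
      rcases h1.eq_or_ssubset with rfl | h4
      · exact h3
      obtain ⟨t, t1, t2⟩ := Finset.exists_of_ssubset h4
      obtain ⟨c, c1, c2, d, d1, d2⟩ : ∃ c ∈ U, c ∉ S ∧ ∃ d ∉ U, EdgeAdj c d := by
        by_contra hn
        refine h2 ?_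
        have := hF t t2 o fun h => h2 (h1 h)
        clear h2 ho ih
        induction this with
        | refl => exact t1
        | tail _ h ih => exact not_not.1 fun h' => hn ⟨_, ih, h.1, _, h', h.2.2⟩
      refine ih (U.erase c) (Finset.erase_ssubset c1) (Finset.subset_erase.2 ⟨h1, c2⟩)
        (fun h => h2 (Finset.mem_of_mem_erase h)) (step (Finset.notMem_erase c U)
          (fun h => d1 (Finset.mem_of_mem_erase h)) d2 ?_)
      rwa [Finset.insert_erase c1]
  refine key _ (fun c hc => Finset.mem_Icc.2 ⟨hlo hc, hhi hc⟩) ho (stair _ fun x y => ?_)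
  simp only [Finset.mem_Icc, Prod.le_def]
  omega

theorem adj_symm {c d : Pt} (h : EdgeAdj c d) : EdgeAdj d c := by
  unfold EdgeAdj at *
  rwa [abs_sub_comm d.1, abs_sub_comm d.2]

/-- Transport between adjacent cells as a permutation. -/
def trP (Λ : Lat) {c d : Pt} (h : EdgeAdj c d) : Equiv.Perm Ori :=
  ⟨Λ.tr c d, Λ.tr d c, Λ.tr_tr h, Λ.tr_tr (adj_symm h)⟩

theorem adj_h (c : Pt) : EdgeAdj c (c.1 + 1, c.2) := by simp [EdgeAdj]

theorem adj_v (c : Pt) : EdgeAdj c (c.1, c.2 + 1) := by simp [EdgeAdj]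

end Mono

open Mono in
theorem exists_dev (Λ : Lat) (S : Finset Pt) (hF : HoleFree S) (hV : Λ.NoInnerV S) :
    ∃ Φ, Λ.Dev S Φ := by
  obtain ⟨Φ, hΦ⟩ := good_of_holeFree hF (fun c => trP Λ (adj_h c)) (fun c => trP Λ (adj_v c))
    fun x y m0 m1 m2 m3 => by
      have hW : ¬Λ.IsV (x + 1, y + 1) := fun h => by
        obtain ⟨k, hk⟩ := hV _ h
        rcases dir_cases k with rfl | rfl | rfl | rfl <;> simp [lc, m0, m1, m2, m3] at hk
      ext1 g
      have e : Λ.tr (x + 1 - 1, y + 1) (x + 1 - 1, y + 1 - 1) (Λ.tr (x + 1, y + 1) (x + 1 - 1, y + 1)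
          (Λ.tr (x + 1, y + 1 - 1) (x + 1, y + 1) (Λ.tr (x + 1 - 1, y + 1 - 1) (x + 1, y + 1 - 1)
            g))) = g := Λ.tr_loop hW 2 g
      simp only [add_sub_cancel_right] at e
      exact ((trP Λ (adj_h (x, y + 1)) * trP Λ (adj_v (x, y))).symm_apply_eq.1 e)
  refine ⟨fun c => Φ c ⟨((0, true), (1, true)), by decide⟩, fun c hc d hd h => ?_⟩
  obtain ⟨k, rfl⟩ := (edgeAdj_iff _ _).1 h
  obtain ⟨x, y⟩ := c
  rcases dir_cases k with rfl | rfl | rfl | rfl <;> simp [dv] at hd ⊢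
  · rw [(hΦ x y hc).1 hd]; rfl
  · rw [(hΦ x y hc).2 hd]; rfl
  · obtain ⟨x, rfl⟩ : ∃ x', x = x' + 1 := ⟨x - 1, by ring⟩
    rw [add_neg_cancel_right] at hd ⊢
    rw [(hΦ x y hd).1 hc]
    exact (Λ.tr_tr (adj_h (x, y)) _).symm
  · obtain ⟨y, rfl⟩ : ∃ y', y = y' + 1 := ⟨y - 1, by ring⟩
    rw [add_neg_cancel_right] at hd ⊢
    rw [(hΦ x y hd).2 hc]
    exact (Λ.tr_tr (adj_v (x, y)) _).symm

end Pool.Agent.Lib.MP_4a7072_co
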