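import Pool.Agent.Lib.MP_4a7072_co.RGeo
import Pool.Agent.Lib.MP_4a7072_co.RCount
import Pool.Agent.Lib.MP_4a7072_co.RMono
import Pool.Agent.Lib.MP_4a7072_co.RJordan

/-!
Nets described by the contour of a plane tree fold into the cube.
-/

set_option autoImplicit false

namespace Pool.Agent.Lib.MP_4a7072_co

namespace RTree

theorem ang_val : ∀ k : Dir, ang k (k + 0) = 2 ∧ ang k (k + 1) = 1 ∧ ang k (k + 2) = 0 ∧
    ang k (k + 3) = 3 ∧ ang k (k - 1) = 3 := by decide

theorem ang_card : ∀ k l : Dir,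
    (Finset.univ.filter fun d : Dir => (d - l).val < ang k l).card = ang k l := by decide

theorem endP_append (P : Pt) (u v : List Dir) : endP P (u ++ v) = endP (endP P u) v := by
  induction u generalizing P with
  | nil => rfl
  | cons k u ih => exact ih _

theorem edges_append (P : Pt) (u v : List Dir) :
    edges P (u ++ v) = edges P u ++ edges (endP P u) v := by
  induction u generalizing P with
  | nil => rfl
  | cons k u ih => exact congrArg (List.cons _) (ih _)

theorem marked_append (P : Pt) (u v : List (Dir × Bool)) :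
    marked P (u ++ v) = marked P u ++ marked (endP P (u.map Prod.fst)) v := by
  induction u generalizing P with
  | nil => rfl
  | cons x u ih =>
    simp only [List.cons_append, marked, ih, List.map_cons, endP]
    split_ifs <;> rfl

theorem back_cons (k d : Dir) (w : List Dir) : back k (d :: w) = back k w ++ [d + 2 + k] := by
  simp [back]

theorem endP_back (P : Pt) (w : List Dir) : endP (endP P w) (back 0 w) = P := by
  induction w generalizing P with
  | nil => rfl
  | cons d w ih =>
    rw [endP, back_cons, endP_append, ih]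
    simp [endP, dv_add_two]

theorem endP_add (P t : Pt) (w : List Dir) : endP (P + t) w = endP P w + t := by
  induction w generalizing P with
  | nil => rfl
  | cons d w ih => rw [endP, endP, add_right_comm, ih]

theorem edges_add (P t : Pt) (w : List Dir) :
    edges (P + t) w = (edges P w).map fun e => (e.1 + t, e.2) := by
  induction w generalizing P with
  | nil => rfl
  | cons d w ih => rw [edges, edges, add_right_comm, ih, List.map_cons]

theorem verts_add (P t : Pt) (w : List Dir) : verts (P + t) w = (verts P w).map (· + t) := by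
  simp [verts, edges_add, Function.comp_def]

theorem marked_add (P t : Pt) (w : List (Dir × Bool)) :
    marked (P + t) w = (marked P w).map (· + t) := by
  induction w generalizing P with
  | nil => rfl
  | cons d w ih =>
    simp only [marked, add_right_comm P t, ih]
    split_ifs <;> rfl

theorem wind_add (P t : Pt) (w : List Dir) (c : Pt) : wind (P + t) w (c + t) = wind P w c := by
  simp only [wind, edges_add, List.map_map]
  refine congrArg List.sum (List.map_congr_left fun e _ => ?_)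
  simp only [Function.comp, cross, Prod.fst_add, Prod.snd_add, add_left_inj,
    add_le_add_iff_right, add_right_comm c.1 t.1 1]

theorem isNet_zero {Λ : Lat} {o P : Pt} {w : List Dir} (h : IsNet Λ o (P + o) w) :
    IsNet Λ 0 P w := by
  obtain ⟨⟨h1, h2, h3⟩, ⟨e, he, hc⟩, m, f, l, k, θ, hm, ht, h4, h5⟩ := h
  refine ⟨⟨?_, ?_, h3⟩, ?_, m, f, l, k, θ, hm, ht, fun W hW => ?_, fun W hW => ?_⟩
  · rwa [endP_add, add_left_inj] at h1
  · rw [verts_add] at h2
    exact h2.of_map _
  · rw [edges_add] at he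
    obtain ⟨e, he', rfl⟩ := List.mem_map.1 he
    refine ⟨e, he', ?_⟩
    rwa [rc, lc_add, wind_add] at hc
  · have := h4 (W + o) (by rw [marked_add]; exact List.mem_map_of_mem hW)
    rwa [add_sub_cancel_right, ← sub_zero W] at this
  · rcases h5 (W + o) (by rwa [add_sub_cancel_right, ← sub_zero W]) with h | ⟨d, h⟩
    · rw [marked_add] at h
      obtain ⟨W', h', e⟩ := List.mem_map.1 h
      exact Or.inl (add_right_cancel e ▸ h')
    · refine Or.inr ⟨d, fun t ht => h t ?_⟩
      rw [verts_add, add_right_comm]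
      exact List.mem_map_of_mem ht

/-- The end points of the edges. -/
def ends (P : Pt) (w : List Dir) : List Pt := (edges P w).map fun e => e.1 + dv e.2

theorem verts_ends (P : Pt) (w : List Dir) : verts P w ++ [endP P w] = P :: ends P w := by
  induction w generalizing P with
  | nil => rfl
  | cons d w ih => exact congrArg (List.cons P) (ih _)

theorem ends_perm {P : Pt} {w : List Dir} (h : endP P w = P) : (ends P w).Perm (verts P w) := by
  have h1 := verts_ends P w
  rw [h] at h1
  exact (h1 ▸ List.perm_append_singleton P (verts P w) : (P :: ends P w).Perm _).cons_inv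

theorem marked_sublist (P : Pt) (m : List (Dir × Bool)) :
    (marked P m).Sublist (ends P (m.map Prod.fst)) := by
  induction m generalizing P with
  | nil => exact List.Sublist.slnil
  | cons x m ih =>
    simp only [marked]
    split_ifs
    · exact (ih _).cons_cons _
    · exact (ih _).cons _

variable {Λ : Lat}

/-- The marked end points are exactly the vertices. -/
def Good (Λ : Lat) : Pt → List (Dir × Bool) → Prop
  | _, [] => True
  | P, x :: w => (Λ.IsV (P + dv x.1) ↔ x.2 = true) ∧ Good Λ (P + dv x.1) w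

theorem good_append (P : Pt) (u v : List (Dir × Bool)) :
    Good Λ P (u ++ v) ↔ Good Λ P u ∧ Good Λ (endP P (u.map Prod.fst)) v := by
  induction u generalizing P with
  | nil => simp [Good, endP]
  | cons x u ih => simp only [List.cons_append, Good, ih, List.map_cons, endP, and_assoc]

theorem good_of (P : Pt) (m : List (Dir × Bool)) (hn : (ends P (m.map Prod.fst)).Nodup)
    (h1 : ∀ W ∈ marked P m, Λ.IsV W)
    (h2 : ∀ W ∈ ends P (m.map Prod.fst), Λ.IsV W → W ∈ marked P m) : Good Λ P m := by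
  induction m generalizing P with
  | nil => trivial
  | cons x m ih =>
    have e : ends P ((x :: m).map Prod.fst) =
        (P + dv x.1) :: ends (P + dv x.1) (m.map Prod.fst) := rfl
    rw [e] at hn h2
    obtain ⟨n1, n2⟩ := List.nodup_cons.1 hn
    by_cases hx : x.2 = true
    · simp only [marked, if_pos hx] at h1 h2
      refine ⟨iff_of_true (h1 _ List.mem_cons_self) hx, ih _ n2
        (fun W hW => h1 W (List.mem_cons_of_mem _ hW)) fun W hW hV => ?_⟩
      rcases List.mem_cons.1 (h2 W (List.mem_cons_of_mem _ hW) hV) with rfl | h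
      · exact absurd hW n1
      · exact h
    · simp only [marked, if_neg hx] at h1 h2
      exact ⟨iff_of_false (fun hV => n1 ((marked_sublist _ _).subset
        (h2 _ List.mem_cons_self hV))) hx,
        ih _ n2 h1 fun W hW hV => h2 W (List.mem_cons_of_mem _ hW) hV⟩

theorem tr_first {m : List (Dir × Bool)} {f l k : Dir} {b : Bool} {θ n : ℕ}
    (h : Tr m f l b k θ n) (Q : Pt) : (Q, f) ∈ edges Q (m.map Prod.fst) := by
  induction h with
  | leaf => exact List.mem_cons_self
  | reg => exact List.mem_cons_self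
  | vtx => exact List.mem_cons_self
  | cat _ _ ih _ =>
    rw [List.map_append, edges_append]
    exact List.mem_append_left _ ih

theorem tr_last {m : List (Dir × Bool)} {f l k : Dir} {b : Bool} {θ n : ℕ}
    (h : Tr m f l b k θ n) {Q : Pt} (hg : Good Λ Q m) :
    Λ.IsV (endP Q (m.map Prod.fst)) ↔ b = true := by
  induction h generalizing Q with
  | leaf => exact hg.2.1
  | reg =>
    rw [List.map_append, endP_append]
    exact ((good_append _ _ _).1 hg).2.1
  | vtx =>
    rw [List.map_append, endP_append]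
    exact ((good_append _ _ _).1 hg).2.1
  | cat _ _ _ ih =>
    rw [List.map_append, endP_append]
    exact ih ((good_append _ _ _).1 hg).2

/-- The edges in `A` are glued in pairs. -/
def Pair (Λ : Lat) (Φ : Pt → Ori) (A : List (Pt × Dir)) : Prop :=
  ∃ σ : Pt × Dir → Pt × Dir, ∀ e ∈ A, σ e ∈ A ∧ σ (σ e) = e ∧
    ∃ k, Λ.EqvE k (Λ.revE (est Φ e)) (est Φ (σ e))

variable {Φ : Pt → Ori}

theorem Pair.append {A B : List (Pt × Dir)} (hA : Pair Λ Φ A) (hB : Pair Λ Φ B)
    (h : (A ++ B).Nodup) : Pair Λ Φ (A ++ B) := by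
  obtain ⟨σ, hσ⟩ := hA
  obtain ⟨τ, hτ⟩ := hB
  have hd : ∀ e ∈ B, e ∉ A := fun e he he' => (List.nodup_append.1 h).2.2 e he' e he rfl
  refine ⟨fun e => if e ∈ A then σ e else τ e, fun e he => ?_⟩
  rcases List.mem_append.1 he with he | he
  · obtain ⟨h1, h2, h3⟩ := hσ e he
    simp only [if_pos he, if_pos h1]
    exact ⟨List.mem_append_left _ h1, h2, h3⟩
  · obtain ⟨h1, h2, h3⟩ := hτ e he
    simp only [if_neg (hd e he), if_neg (hd _ h1)]
    exact ⟨List.mem_append_right _ h1, h2, h3⟩

theorem pair_two {a b : Pt × Dir} {k : Dir} (h : Λ.EqvE k (Λ.revE (est Φ a)) (est Φ b)) :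
    Pair Λ Φ [a, b] := by
  refine ⟨Equiv.swap a b, fun e he => ?_⟩
  have h' := h.symm.revE
  rw [Lat.revE_revE] at h'
  rcases List.mem_pair.1 he with rfl | rfl
  · exact ⟨by simp, by simp, k, by simpa using h⟩
  · exact ⟨by simp, by simp, -k, by simpa using h'⟩

theorem Pair.wrap {A : List (Pt × Dir)} (hA : Pair Λ Φ A) {a b : Pt × Dir} {k : Dir}
    (h : Λ.EqvE k (Λ.revE (est Φ a)) (est Φ b)) (hn : (a :: A ++ [b]).Nodup) :
    Pair Λ Φ (a :: A ++ [b]) := by
  have hp : (a :: A ++ [b]).Perm ([a, b] ++ A) := (List.perm_append_singleton b A).cons a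
  obtain ⟨σ, hσ⟩ := (pair_two h).append hA (hp.nodup_iff.1 hn)
  exact ⟨σ, fun e he => ⟨hp.mem_iff.2 (hσ e (hp.mem_iff.1 he)).1, (hσ e (hp.mem_iff.1 he)).2⟩⟩

theorem iter_dir (s : ESt) (n : ℕ) : (Λ.rotE^[n] s).2.1.val = (s.2.1.val + n) % 4 := by
  induction n with
  | zero => exact (Nat.mod_eq_of_lt s.2.1.is_lt).symm
  | succ n ih =>
    rw [Function.iterate_succ_apply']
    change ((Λ.rotE^[n] s).2.1 + 1 : Fin 4).val = _
    rw [Fin.val_add, ih]
    omega

theorem iter_eq {s : ESt} {n : ℕ} (hV : ¬Λ.IsV s.1) (h : (Λ.rotE^[n] s).2.1 = s.2.1) :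
    Λ.rotE^[n] s = s := by
  have h1 := iter_dir (Λ := Λ) s n
  have h2 := s.2.1.is_lt
  rw [h] at h1
  obtain ⟨j, rfl⟩ : 4 ∣ n := by omega
  rw [Function.iterate_mul]
  exact Function.iterate_fixed (Λ.rotE_four hV) j

/-- What is known at a junction of two edges of the curve. -/
def Jn (Λ : Lat) (Φ : Pt → Ori) (cnt : Pt → ℕ) (E : List (Pt × Dir)) : Prop :=
  ∀ Q k l, (Q, k) ∈ E → (Q + dv k, l) ∈ E →
    Λ.revE (est Φ (Q, k)) = Λ.rotE^[ang k l] (est Φ (Q + dv k, l)) ∧ cnt (Q + dv k) = ang k l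

variable {cnt : Pt → ℕ} {E : List (Pt × Dir)}

theorem wrap_aux (hJ : Jn Λ Φ cnt E) {Q R : Pt} {f f' l' d k : Dir} {θ : ℕ} (h1 : (Q, f) ∈ E)
    (h2 : (Q + dv f, f') ∈ E) (h3 : (R, l') ∈ E) (h4 : (R + dv l', d) ∈ E)
    (h : Λ.EqvE k (est Φ (Q + dv f, f')) (Λ.rotE^[θ] (Λ.revE (est Φ (R, l'))))) :
    Λ.EqvE k (Λ.revE (est Φ (Q, f)))
      (Λ.rotE^[ang f f' + θ + ang l' d] (est Φ (R + dv l', d))) := by
  rw [(hJ _ _ _ h1 h2).1, Function.iterate_add_apply, Function.iterate_add_apply,
    ← (hJ _ _ _ h3 h4).1]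
  exact h.iter _

theorem flip {s t : ESt} {k : Dir} (h : Λ.EqvE k (Λ.revE s) t) :
    Λ.EqvE k s (Λ.rotE^[0] (Λ.revE t)) := by
  have h' := h.revE
  rwa [Lat.revE_revE] at h'

theorem main (hJ : Jn Λ Φ cnt E) {m : List (Dir × Bool)} {f l k : Dir} {b : Bool} {θ n : ℕ}
    (h : Tr m f l b k θ n) : ∀ Q : Pt, edges Q (m.map Prod.fst) ⊆ E →
      (edges Q (m.map Prod.fst)).Nodup → Good Λ Q m →
      (∃ R, (R, l) ∈ edges Q (m.map Prod.fst) ∧ R + dv l = endP Q (m.map Prod.fst) ∧
        Λ.EqvE k (est Φ (Q, f)) (Λ.rotE^[θ] (Λ.revE (est Φ (R, l))))) ∧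
      Pair Λ Φ (edges Q (m.map Prod.fst)) ∧
      ((marked Q m).map cnt).sum =
        3 * n + if b = true then θ + cnt (endP Q (m.map Prod.fst)) else 0 := by
  induction h with
  | leaf f b =>
    intro Q hE _ hg
    have a3 := (ang_val f).2.2.2.2
    obtain ⟨j1, j2⟩ := hJ Q f (f - 1) (hE List.mem_cons_self)
      (hE (List.mem_cons_of_mem _ List.mem_cons_self))
    rw [a3] at j1 j2
    have h1 := (Λ.rotE_three (s := est Φ (Q + dv f, f - 1)) (hg.1.2 rfl)).symm
    rw [← j1] at h1
    refine ⟨⟨Q + dv f, List.mem_cons_of_mem _ List.mem_cons_self, rfl, flip h1⟩, pair_two h1, ?_⟩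
    cases b <;> simp [marked, endP, j2]
  | @reg f b w f' l' k θ n ht ih =>
    intro Q hE hn hg
    have e : edges Q (((f, false) :: w ++ [(f + 2 + k, b)]).map Prod.fst) =
        (Q, f) :: edges (Q + dv f) (w.map Prod.fst) ++
          [(endP (Q + dv f) (w.map Prod.fst), f + 2 + k)] := by
      rw [List.map_append, edges_append]
      rfl
    rw [e] at hE hn ⊢
    have g := ((good_append _ _ _).1 hg).1.2
    have hE' : edges (Q + dv f) (w.map Prod.fst) ⊆ E := fun x hx =>
      hE (List.mem_append_left _ (List.mem_cons_of_mem _ hx))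
    obtain ⟨⟨R, r1, r2, r3⟩, hp, hs⟩ := ih _ hE' (List.nodup_cons.1 hn.of_append_left).2 g
    have h1 := wrap_aux hJ (hE (List.mem_append_left _ List.mem_cons_self)) (hE' (tr_first ht _))
      (hE' r1) (r2 ▸ hE (List.mem_append_right _ List.mem_cons_self)) r3
    rw [r2, iter_eq (fun hV => by simpa using (tr_last ht g).1 hV) h1.2.1] at h1
    refine ⟨⟨_, List.mem_append_right _ List.mem_cons_self, ?_, flip h1⟩, hp.wrap h1 hn, ?_⟩
    · rw [List.map_append, endP_append]
      rfl
    · rw [marked_append, List.map_append, List.sum_append, List.map_append, endP_append]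
      cases b <;> simp [marked, endP, hs]
  | @vtx f b w f' l' k θ n ht ha ih =>
    intro Q hE hn hg
    have e : edges Q (((f, true) :: w ++ [(f + 3 + k, b)]).map Prod.fst) =
        (Q, f) :: edges (Q + dv f) (w.map Prod.fst) ++
          [(endP (Q + dv f) (w.map Prod.fst), f + 3 + k)] := by
      rw [List.map_append, edges_append]
      rfl
    rw [e] at hE hn ⊢
    have g := ((good_append _ _ _).1 hg).1.2
    have hE' : edges (Q + dv f) (w.map Prod.fst) ⊆ E := fun x hx =>
      hE (List.mem_append_left _ (List.mem_cons_of_mem _ hx))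
    obtain ⟨⟨R, r1, r2, r3⟩, hp, hs⟩ := ih _ hE' (List.nodup_cons.1 hn.of_append_left).2 g
    have m1 := hE (List.mem_append_left _ List.mem_cons_self)
    have m2 := hE' (tr_first ht _)
    have m4 : (R + dv l', f + 3 + k) ∈ E := r2 ▸ hE (List.mem_append_right _ List.mem_cons_self)
    have h0 := wrap_aux hJ m1 m2 (hE' r1) m4 r3
    have c1 := (hJ _ _ _ m1 m2).2
    have c2 := (hJ _ _ _ (hE' r1) m4).2
    rw [ha, r2] at h0
    rw [r2] at c2
    have h1 := h0.trans (Λ.rotE_three
      (s := est Φ (endP (Q + dv f) (w.map Prod.fst), f + 3 + k)) ((tr_last ht g).2 rfl)).symm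
    refine ⟨⟨_, List.mem_append_right _ List.mem_cons_self, ?_, flip h1⟩, hp.wrap h1 hn, ?_⟩
    · rw [List.map_append, endP_append]
      rfl
    · rw [marked_append, List.map_append, List.sum_append, List.map_append, endP_append]
      cases b <;> simp [marked, endP, hs, c1, c2] <;> omega
  | @cat w w' f l f' l' k k' b θ θ' n n' _ ht' ih ih' =>
    intro Q hE hn hg
    rw [List.map_append, edges_append] at hE hn ⊢
    rw [good_append] at hg
    have hE1 := (List.append_subset.1 hE).1
    have hE2 := (List.append_subset.1 hE).2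
    obtain ⟨⟨R, r1, r2, r3⟩, hp, hs⟩ := ih _ hE1 hn.of_append_left hg.1
    obtain ⟨⟨R', r1', r2', r3'⟩, hp', hs'⟩ := ih' _ hE2 hn.of_append_right hg.2
    obtain ⟨j1, j2⟩ := hJ R l f' (hE1 r1) (r2 ▸ hE2 (tr_first ht' _))
    rw [r2] at j1 j2
    refine ⟨⟨R', List.mem_append_right _ r1', by rw [endP_append, r2'], ?_⟩,
      hp.append hp' hn, ?_⟩
    · rw [j1, ← Function.iterate_add_apply] at r3
      rw [Function.iterate_add_apply]
      exact r3.trans (r3'.iter _)
    · rw [marked_append, List.map_append, List.sum_append, hs, hs', endP_append, j2]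
      split_ifs <;> omega

theorem rot_step {S : Finset Pt} (hD : Λ.Dev S Φ) {W : Pt} {l : Dir} (h : lc W l ∈ S)
    (h' : lc W (l + 1) ∈ S) : Λ.rotE (est Φ (W, l)) = est Φ (W, l + 1) := by
  simp only [Lat.rotE, est, hD _ h _ h' (edgeAdj_lc_succ W l)]

theorem rev_eq (Q : Pt) (k : Dir) :
    Λ.revE (est Φ (Q, k)) = Λ.rotE (est Φ (Q + dv k, k + 1)) := by
  simp only [Lat.rotE, Lat.revE, est, dir_a11, lc_next, lc_rev]

/-- The number of cells of `S` at a lattice point. -/
def cntS (S : Finset Pt) (W : Pt) : ℕ := (Finset.univ.filter fun d : Dir => lc W d ∈ S).card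

theorem jn_inside {P : Pt} {w : List Dir} (hs : Simple P w) (hc : Ccw P w)
    (hD : Λ.Dev (inside P w) Φ) : Jn Λ Φ (cntS (inside P w)) (edges P w) := by
  intro Q k l h1 h2
  have c := corner_inside hs hc h1 h2
  have c0 := (c 0).1 (by rw [add_zero]; exact ((isBd_inside_iff hs hc _).2 h2).1)
  constructor
  · obtain ⟨a, rfl⟩ : ∃ a, l = k + a := ⟨l - k, by simp⟩
    rw [rev_eq]
    rcases dir_cases a with rfl | rfl | rfl | rfl
    · have e : ang k (k + 0) = 2 := (ang_val k).1
      rw [e] at c ⊢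
      have := rot_step hD ((c 0).2 (by decide)) (by rw [add_zero]; exact (c 1).2 (by decide))
      simp only [add_zero] at this ⊢
      rw [← this]
      rfl
    · have e : ang k (k + 1) = 1 := (ang_val k).2.1
      rw [e]
      rfl
    · have e : ang k (k + 2) = 0 := (ang_val k).2.2.1
      rw [e] at c0
      exact absurd c0 (by decide)
    · have e : ang k (k + 3) = 3 := (ang_val k).2.2.2.1
      rw [e] at c ⊢
      have m0 := (c 0).2 (by decide)
      have m1 := (c 1).2 (by decide)
      have m2 := (c 2).2 (by decide)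
      rw [add_zero] at m0
      rw [← dir_a11, dir_a31] at m2
      have s1 := rot_step hD m0 m1
      rw [dir_a31] at m1 s1
      rw [← rot_step hD m1 m2, ← s1]
      rfl
  · have e : ∀ d, lc (Q + dv k) d ∈ inside P w ↔ (d - l).val < ang k l := fun d => by
      rw [← c, add_sub_cancel]
    simp only [cntS, e]
    exact ang_card k l

theorem ncard_corners {S : Finset Pt} {M : List Pt} (hM : M.Nodup) (h1 : ∀ W ∈ M, Λ.IsV W)
    (h2 : ∀ W d, Λ.IsV W → lc W d ∈ S → W ∈ M) :
    (Λ.corners S).ncard = (M.map (cntS S)).sum := by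
  have e : Λ.corners S = ((M.toFinset ×ˢ Finset.univ).filter
      fun e : Pt × Dir => lc e.1 e.2 ∈ S : Finset (Pt × Dir)) := by
    ext e
    simp only [Lat.corners, Set.mem_ofPred_eq, Finset.coe_filter, Finset.mem_product,
      List.mem_toFinset, Finset.mem_univ, and_true]
    exact ⟨fun h => ⟨h2 _ _ h.1 h.2, h.2⟩, fun h => ⟨h1 _ h.1, h.2⟩⟩
  rw [e, Set.ncard_coe_finset, ← List.sum_toFinset _ hM, Finset.card_filter, Finset.sum_product]
  simp only [cntS, Finset.card_filter]

theorem folds_zero {P : Pt} {w : List Dir} (h : IsNet Λ 0 P w) :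
    FoldsInto (region (inside P w)) (cubeSurface Λ.L) ∧
      (Λ.q = 0 → (inside P w).card = 6 * Λ.L ^ 2) := by
  obtain ⟨hs, hc, m, f, l, k, θ, rfl, ht, h1, h2⟩ := h
  simp only [sub_zero] at h1 h2
  have hp := ends_perm hs.1
  have hn := hp.nodup_iff.2 hs.2.1
  have esc : ∀ W d, Escapes P (m.map Prod.fst) W d → ∀ j, lc W j ∉ inside P (m.map Prod.fst) :=
    fun W d hE j hj => by
      rw [mem_inside_iff hs.1, wind_eq_zero_of_escapes hs.1 hE] at hj
      exact zero_ne_one hj
  have hg : Good Λ P m := good_of P m hn h1 fun W hW hV => (h2 W hV).resolve_right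
    fun ⟨d, hE⟩ => hE 0 (by simpa using hp.subset hW)
  have hV : Λ.NoInnerV (inside P (m.map Prod.fst)) := fun W hW => by
    rcases h2 W hW with h | ⟨d, hE⟩
    · obtain ⟨e, he, rfl⟩ := List.mem_map.1 (hp.subset ((marked_sublist _ _).subset h))
      exact ⟨e.2 - 1, ((isBd_inside_iff hs hc e).2 he).2⟩
    · exact ⟨0, esc W d hE 0⟩
  obtain ⟨Φ, hD⟩ := exists_dev Λ _ (holeFree_inside hs hc) hV
  obtain ⟨-, ⟨σ, hσ⟩, hsum⟩ := main (jn_inside hs hc hD) ht P (List.Subset.refl _)
    (List.Nodup.of_map _ hs.2.1) hg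
  have hG : Λ.Glue (inside P (m.map Prod.fst)) Φ := by
    simp only [Lat.Glue, isBd_inside_iff hs hc]
    exact ⟨σ, fun e he => (hσ e he).1,
      fun e e' he he' h => by rw [← (hσ e he).2.1, h, (hσ e' he').2.1], fun e he => (hσ e he).2.2⟩
  have h24 := (ncard_corners (hn.sublist (marked_sublist P m)) h1 fun W d hW hd =>
    (h2 W hW).resolve_right fun ⟨j, hE⟩ => esc W j hE d hd).trans hsum
  obtain ⟨hI, hS, hq⟩ := cover_once Λ _ Φ hD hG h24
  exact ⟨foldsInto_of_dev Λ _ Φ hD (noPinch_inside hs hc) hV hI hS, hq⟩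

theorem of_net {o P : Pt} {w u v : List Dir} (e : w = u ++ v) (c : endP P w = P)
    (h : IsNet Λ o (endP P u) (v ++ u)) :
    Simple P w ∧ Ccw P w ∧ inside (endP P u) (v ++ u) = inside P w := by
  subst e
  have h1 := h.simple.rotate
  have h2 := Ccw.rotate h.simple.1 h.ccw
  rw [← endP_append, c] at h1 h2
  exact ⟨h1, h2, inside_rotate c⟩

end RTree

theorem IsNet.folds {Λ : Lat} {o P : Pt} {w : List Dir} (h : IsNet Λ o P w) :
    FoldsInto (region (inside P w)) (cubeSurface Λ.L) ∧
      (Λ.q = 0 → (inside P w).card = 6 * Λ.L ^ 2) := by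
  obtain ⟨P, rfl⟩ : ∃ P', P = P' + o := ⟨P - o, (sub_add_cancel _ _).symm⟩
  obtain ⟨h1, h2⟩ := RTree.folds_zero (RTree.isNet_zero h)
  rw [inside_translate, Finset.card_image_of_injective _ (add_left_injective o)]
  exact ⟨h1.translate o, h2⟩

/-- zipping a path: `μ`, then a subtree, then `μ` backwards turned by `k`. -/
theorem Tr.zip {w : List (Dir × Bool)} {f l k : Dir} {θ n : ℕ} (h : Tr w f l false k θ n)
    (f₀ : Dir) (μ : List Dir) :
    Tr ((f₀ :: μ).map (·, false) ++ w ++ (back k (f₀ :: μ)).map (·, false))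
      f₀ (f₀ + 2 + k) false k 0 n := by
  induction μ generalizing f₀ with
  | nil => exact Tr.reg f₀ false h
  | cons g μ ih =>
    have := Tr.reg f₀ false (ih g)
    rw [RTree.back_cons k f₀]
    simpa only [List.map_cons, List.map_append, List.map_nil, List.cons_append,
      List.append_assoc] using this

/-- Three nets `u₁ ++ v₁`, `u₂ ++ v₂`, `u₃ ++ v₃` (each read from a starting point of its own)
whose boundaries are `π α`, `π⁻¹ β` and `α β`. -/
theorem twoPiece_of_nets {Λa Λb Λc : Lat} (qa : Λa.q = 0) (qb : Λb.q = 0)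
    (hL : Λa.L ^ 2 + Λb.L ^ 2 = Λc.L ^ 2) {oa ob oc P Q : Pt} {π α β : List Dir}
    (hQ : endP P π = Q) {u₁ v₁ u₂ v₂ u₃ v₃ : List Dir} (e₁ : π ++ α = u₁ ++ v₁)
    (e₂ : back 0 π ++ β = u₂ ++ v₂) (e₃ : α ++ β = u₃ ++ v₃)
    (c₁ : endP P (π ++ α) = P) (c₂ : endP Q (back 0 π ++ β) = Q)
    (ha : IsNet Λa oa (endP P u₁) (v₁ ++ u₁)) (hb : IsNet Λb ob (endP Q u₂) (v₂ ++ u₂))
    (hc : IsNet Λc oc (endP Q u₃) (v₃ ++ u₃)) : TwoPieceDissection Λa.L Λb.L Λc.L := by
  have c₃ : endP Q (α ++ β) = Q := by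
    have h1 := c₁
    have h2 := c₂
    rw [RTree.endP_append, hQ] at h1
    rw [RTree.endP_append] at h2 ⊢
    rw [h1]
    rwa [show endP Q (back 0 π) = P from hQ ▸ RTree.endP_back P π] at h2
  obtain ⟨a1, a2, a3⟩ := RTree.of_net e₁ c₁ ha
  obtain ⟨b1, b2, b3⟩ := RTree.of_net e₂ c₂ hb
  obtain ⟨d1, d2, d3⟩ := RTree.of_net e₃ c₃ hc
  have fa := ha.folds
  have fb := hb.folds
  have fc := hc.folds
  rw [a3] at fa
  rw [b3] at fb
  rw [d3] at fc
  obtain ⟨hu, hd⟩ := inside_union hQ a1 a2 b1 b2 d1 d2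
  refine ⟨_, _, _, isPolyomino_inside a1 a2, isPolyomino_inside b1 b2, isPolyomino_inside d1 d2,
    holeFree_inside a1 a2, holeFree_inside b1 b2, holeFree_inside d1 d2, ?_, ?_,
    disjoint_interior_region hd, fc.1, fa.1, fb.1⟩
  · rw [hu, Finset.card_union_of_disjoint hd, fa.2 qa, fb.2 qb, ← hL, mul_add]
  · rw [hu, region_union]

end Pool.Agent.Lib.MP_4a7072_co
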