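import Pool.Agent.Lib.MP_4a7072_co.NT345
import Pool.Agent.Lib.MP_4a7072_co.FAll
import Pool.Agent.Lib.MP_4a7072_co.F5Main
import Pool.Agent.Lib.MP_4a7072_co.GBuild
import Pool.Agent.Lib.MP_4a7072_co.QMain

/-!
The dissection for every primitive triple whose shorter leg is odd.
-/

set_option autoImplicit false

namespace Pool.Agent.Lib.MP_4a7072_co
namespace NP

theorem four_dvd_of_odd {a b c : ℕ} (h : a ^ 2 + b ^ 2 = c ^ 2) (ho : a % 2 = 1) : b % 4 = 0 := by
  have h8 : (a ^ 2 + b ^ 2) % 8 = c ^ 2 % 8 := by rw [h]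
  rw [Nat.add_mod, Nat.pow_mod a, Nat.pow_mod b, Nat.pow_mod c] at h8
  have ha8 : a % 8 = 1 ∨ a % 8 = 3 ∨ a % 8 = 5 ∨ a % 8 = 7 := by omega
  have hb8 : b % 8 < 8 := Nat.mod_lt _ (by norm_num)
  have hc8 : c % 8 < 8 := Nat.mod_lt _ (by norm_num)
  have e : b % 4 = b % 8 % 4 := by omega
  rw [e]
  generalize b % 8 = s at h8 hb8
  generalize c % 8 = r at h8 hc8
  rcases ha8 with e | e | e | e <;> rw [e] at h8 <;> interval_cases s <;> interval_cases r <;>
    simp at h8 ⊢

theorem twoPiece_odd (a b c : ℕ) (hab : a < b) (h : a ^ 2 + b ^ 2 = c ^ 2)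
    (hc : Nat.gcd a b = 1) (ho : a % 2 = 1) : TwoPieceDissection a b c := by
  have h4 := four_dvd_of_odd h ho
  by_cases h34 : 3 * b = 4 * a
  · obtain ⟨t, rfl⟩ : ∃ t, a = 3 * t := ⟨a / 3, by omega⟩
    obtain rfl : b = 4 * t := by omega
    obtain rfl : t = 1 := by
      rw [Nat.gcd_mul_right] at hc
      simpa using hc
    obtain rfl : c = 5 := by nlinarith
    exact Chk.T3_4_5.twoPiece
  rcases lt_trichotomy b (2 * a) with g | g | g
  · exact twoPiece_IE a b c hab g h34 h hc ho h4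
  · omega
  rcases lt_trichotomy b (3 * a) with g3 | g3 | g3
  · have e : b % (4 * a) = b := Nat.mod_eq_of_lt (by omega)
    exact twoPiece_S1 a b c h hc ho (by omega) (by omega)
  · omega
  have ev : b % (2 * a) % 2 = 0 := by
    rw [Nat.mod_mod_of_dvd b (Dvd.intro a rfl)]
    omega
  rcases lt_trichotomy a (b % (2 * a)) with r | r | r
  · exact twoPiece_529 a b c g3 r h hc ho (by omega)
  · omega
  refine twoPiece_PQ a b c ?_ r h hc ho (by omega)
  by_contra g4
  rcases (by omega : b = 4 * a ∨ b < 4 * a) with g4 | g4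
  · rw [g4, Nat.gcd_mul_left_right] at hc
    subst hc
    rw [g4] at h
    have : c < 5 := by nlinarith
    interval_cases c <;> simp at h
  · have e : b % (2 * a) = b - 2 * a := by
      rw [Nat.mod_eq_sub_mod (by omega), Nat.mod_eq_of_lt (by omega)]
    omega

end NP
end Pool.Agent.Lib.MP_4a7072_co
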