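import Pool.Agent.Lib.MP_4a7072_co.QBase
import Pool.Agent.Lib.MP_4a7072_co.DFine

/-!
Tools for the design in which the small piece is a strip of three periods.
-/

set_option autoImplicit false
set_option linter.unnecessarySeqFocus false
set_option linter.unusedSimpArgs false
set_option linter.unusedVariables false

namespace Pool.Agent.Lib.MP_4a7072_co
namespace NP

open RTree (endP_append endP_add marked_append marked_add back_cons)

section

variable {ν ν' w w' : List Dir} {L L' : List Pt} {t t' : Dir} {n n' : ℕ}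

/-- A tree with a single branch at the root that starts like `ν`. -/
def BH (ν w : List Dir) (L : List Pt) (t : Dir) (n : ℕ) : Prop :=
  ∃ f ν', ν = f :: ν' ∧ Br f w L t n

theorem TU.zipH (h : TU w L t n) (hν : ν ≠ []) :
    BH ν (ν ++ w ++ back t ν) (L.map (· + dsp ν)) t n := by
  obtain ⟨g, μ, rfl⟩ := List.exists_cons_of_ne_nil hν
  exact ⟨g, μ, rfl, h.zipBr g μ⟩

theorem BH.leaf (hν : ν ≠ []) : BH ν (ν ++ back 1 ν) [dsp ν] 1 1 := by
  have e : ∀ g : Dir, g + 2 + 1 = g - 1 := by decide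
  obtain ⟨g, μ, rfl⟩ := List.exists_cons_of_ne_nil hν
  refine ⟨g, μ, rfl, ?_⟩
  rcases eq_or_ne μ [] with rfl | hμ
  · exact ⟨[(g, true)], rfl, by simp [marked, dsp_cons, dsp_nil], fun b => by
      rw [e]; exact Tr.leaf g b⟩
  · simpa [back, dsp_cons, dsp_nil, add_comm] using (TB.leaf hμ).tu.zipBr g []

/-- A vertex with three branches at right angles. -/
theorem BH.tri (h : BH ν w L t n) (h' : BH ν' w' L' t' n') (e : ν' = rot (3 + t) ν) :
    TB (back 1 ν ++ (w ++ w') ++ rot (t + t' + 2) ν)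
      ((0 :: L ++ [dsp w] ++ (L' ++ [dsp w']).map (· + dsp w)).map (· + dsp (back 1 ν)))
      (t + t' + 1) (n + n' + 1) := by
  have e1 : ∀ g t t' : Dir, g + 2 + 1 + 3 + (t + t') = g + (t + t' + 2) := by decide
  have e2 : ∀ g t t' : Dir, ang (g + 2 + 1) g + (0 + ang (g + 2 + t) (g + (3 + t)) + 0) +
      ang (g + (3 + t) + 2 + t') (g + 2 + 1 + 3 + (t + t')) = 3 := by decide
  have e3 : ∀ g t t' : Dir, g + (t + t' + 2) = g + 2 + 1 + 2 + (t + t' + 1) := by decide
  have e4 : ∀ t t' : Dir, 1 + (t + t' + 1) = t + t' + 2 := by decide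
  obtain ⟨g, μ, rfl, m, rfl, rfl, a3⟩ := h
  obtain ⟨g', μ', e', m', rfl, rfl, b3⟩ := h'
  obtain rfl : g' = g + (3 + t) := by
    rw [e'] at e
    exact (List.cons.inj e).1
  have h2 : TB ((g + 2 + 1) :: ((m.map Prod.fst ++ [g + 2 + t]) ++
      (m'.map Prod.fst ++ [g + (3 + t) + 2 + t'])) ++ [g + (t + t' + 2)])
      ((0 :: marked 0 m ++ [dsp (m.map Prod.fst ++ [g + 2 + t])] ++ (marked 0 m' ++
        [dsp (m'.map Prod.fst ++ [g + (3 + t) + 2 + t'])]).map
          (· + dsp (m.map Prod.fst ++ [g + 2 + t]))).map (· + dv (g + 2 + 1)))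
      (t + t' + 1) (n + n' + 1) := by
    refine ⟨g + 2 + 1, (g + 2 + 1, true) :: (m ++ [(g + 2 + t, true)] ++
      (m' ++ [(g + (3 + t) + 2 + t', true)])), by simp [← e3], ?_, fun b => ?_⟩
    · simp [marked, marked_append, marked_o (_ + _), endP_dsp, dsp_append, dsp_cons, dsp_nil,
        marked_o (dv _), Function.comp_def, add_comm, add_left_comm, add_assoc]
    · have := Tr.vtx (g + 2 + 1) b ((a3 true).cat (b3 true)) (e2 g t t')
      rwa [e1, e3] at this
  have h3 := h2.zip (back 1 μ)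
  rw [back_back, e4] at h3
  convert h3 using 1
  · simp [back_cons, rot]
  · simp [back_cons, dsp_append, dsp_cons, dsp_nil, Function.comp_def, add_comm, add_left_comm,
      add_assoc]

end

/-- Extension of a half period in a square to a periodic curve. -/
theorem extendA {n q : ℤ} (hq : 0 < q) (hn : 0 < n) (F : ℤ → Pt) (F0 : F 0 = (0, 0))
    (Fq : F q = (n, n)) (st : ∀ i, 0 ≤ i → i < q → Stp 0 (F i) (F (i + 1)))
    (box : ∀ i, 0 ≤ i → i ≤ q → 0 ≤ (F i).1 ∧ (F i).1 ≤ n)
    (inj : ∀ i j, 0 ≤ i → i ≤ q → 0 ≤ j → j ≤ q → (F i).1 = (F j).1 → (F i).2 = (F j).2 → i = j)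
    (box2 : ∀ i, 0 ≤ i → i ≤ q → 0 ≤ (F i).2 ∧ (F i).2 ≤ n)
    (cA : ∀ i j, 0 ≤ i → i ≤ q → 0 ≤ j → j ≤ q → (F i).1 = -(F j).2 → (F i).2 = (F j).1 → j = 0)
    (cM : ∀ i j, 0 ≤ i → i ≤ q → 0 ≤ j → j ≤ q → (F i).1 = 2 * n - (F j).2 →
      (F i).2 = (F j).1 → i = q) :
    ∃ C : UC (2 * n, 0), C.q = q ∧ ∀ i, 0 ≤ i → i ≤ q → C.w i = F i := by
  have hq2 : 0 < 2 * q := by omega
  obtain ⟨G, hG⟩ : ∃ G : ℤ → Pt, G = fun r => if 0 ≤ r then F r else rotP 1 (F (-r)) := ⟨_, rfl⟩
  obtain ⟨w, hw⟩ : ∃ w : ℤ → Pt,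
    w = fun l => G ((l + q) % (2 * q) - q) + ((l + q) / (2 * q)) • ((2 * n, 0) : Pt) := ⟨_, rfl⟩
  have per : ∀ l, w (l + 2 * q) = w l + (2 * n, 0) := fun l => by
    simp only [hw]
    rw [add_right_comm, Int.add_emod_right, Int.add_ediv_of_dvd_right dvd_rfl,
      Int.ediv_self hq2.ne', add_smul, one_smul, add_assoc]
  have base : ∀ r, -q ≤ r → r < q → w r = G r := fun r a b => by
    simp only [hw]
    rw [Int.emod_eq_of_lt (by omega) (by omega), Int.ediv_eq_zero_of_lt (by omega) (by omega),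
      add_sub_cancel_right, zero_smul, add_zero]
  have neg : ∀ i, 0 ≤ i → i ≤ q → w (-i) = rotP 1 (F i) := fun i a b => by
    rw [base _ (by omega) (by omega), hG]
    simp only [neg_neg]
    split_ifs with h
    · rw [show i = 0 by omega, neg_zero, F0]; rfl
    · rfl
  have pos : ∀ i, 0 ≤ i → i ≤ q → w i = F i := fun i a b => by
    rcases eq_or_lt_of_le b with rfl | h
    · have := per (-i)
      rw [show -i + 2 * i = i by ring, neg i a b, Fq] at this
      rw [this, Fq]
      ext <;> simp [rotP1]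
      ring
    · rw [base _ (by omega) h, hG]
      exact if_pos a
  have dec : ∀ l, ∃ r s, -q ≤ r ∧ r < q ∧ l = r + 2 * q * s := fun l => by
    have h1 := Int.mul_ediv_add_emod (l + q) (2 * q)
    have h2 := Int.emod_nonneg (l + q) hq2.ne'
    have h3 := Int.emod_lt_of_pos (l + q) hq2
    exact ⟨(l + q) % (2 * q) - q, (l + q) / (2 * q), by omega, by omega, by omega⟩
  have val : ∀ r, -q ≤ r → r < q → (0 ≤ r ∧ w r = F r) ∨ (r < 0 ∧ w r = rotP 1 (F (-r))) :=
    fun r a b => by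
      rcases le_or_gt 0 r with h | h
      · exact Or.inl ⟨h, pos r h b.le⟩
      · exact Or.inr ⟨h, by rw [← neg (-r) (by omega) (by omega), neg_neg]⟩
  have stp : ∀ l, Stp 0 (w l) (w (l + 1)) := fun l => by
    obtain ⟨r, s, a, b, rfl⟩ := dec l
    rw [add_right_comm, per_mul per, per_mul per]
    refine Stp.add ?_ _
    rcases val r a b with ⟨c, d⟩ | ⟨c, d⟩
    · rw [d, pos _ (by omega) (by omega)]
      exact st r c b
    · have := neg (-(r + 1)) (by omega) (by omega)
      rw [neg_neg] at this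
      rw [d, this]
      have s := (st (-(r + 1)) (by omega) (by omega)).symm.rot 1
      rwa [show -(r + 1) + 1 = -r by ring] at s
  have sA : ∀ i, 0 ≤ i → i ≤ q → (w (-i)).1 = -(w i).2 ∧ (w (-i)).2 = (w i).1 := fun i a b => by
    rw [neg i a b, pos i a b]
    exact ⟨rfl, rfl⟩
  have w0 : w 0 = (0, 0) := (pos 0 le_rfl hq.le).trans F0
  refine ⟨⟨w, fun l => (stp l).choose, q, 0, hq, fun l => (stp l).choose_spec, w0, per,
    fun l l' h h' => ?_, sA, fun i a b => ?_⟩, rfl, pos⟩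
  · obtain ⟨r, s, a, b, rfl⟩ := dec l
    obtain ⟨r', s', a', b', rfl⟩ := dec l'
    rw [per_mul per, per_mul per] at h h'
    have m1 : s' + 2 ≤ s → s' * (2 * n) + 4 * n ≤ s * (2 * n) := fun h => by nlinarith
    have m2 : s + 2 ≤ s' → s * (2 * n) + 4 * n ≤ s' * (2 * n) := fun h => by nlinarith
    have m3 : s = s' + 1 → s * (2 * n) = s' * (2 * n) + 2 * n := fun h => by rw [h]; ring
    have m4 : s' = s + 1 → s' * (2 * n) = s * (2 * n) + 2 * n := fun h => by rw [h]; ring
    have m5 : s' = s → s' * (2 * n) = s * (2 * n) := fun h => by rw [h]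
    suffices r = r' ∧ s = s' by rw [this.1, this.2]
    rcases val r a b with ⟨c, d⟩ | ⟨c, d⟩ <;> rcases val r' a' b' with ⟨c', d'⟩ | ⟨c', d'⟩ <;>
      rw [d, d'] at h h' <;>
      simp only [rotP1, Prod.fst_add, Prod.snd_add, Prod.smul_fst, Prod.smul_snd,
        smul_eq_mul, mul_zero, add_zero] at h h'
    · have := box r c b.le
      have := box r' c' b'.le
      have e : s = s' := by omega
      exact ⟨inj r r' c b.le c' b'.le (by omega) (by omega), e⟩
    · have := box r c b.le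
      have := box2 (-r') (by omega) (by omega)
      have := cA r (-r') c b.le (by omega) (by omega)
      have := cM r (-r') c b.le (by omega) (by omega)
      omega
    · have := box r' c' b'.le
      have := box2 (-r) (by omega) (by omega)
      have := cA r' (-r) c' b'.le (by omega) (by omega)
      have := cM r' (-r) c' b'.le (by omega) (by omega)
      omega
    · have := box2 (-r) (by omega) (by omega)
      have := box2 (-r') (by omega) (by omega)
      have e : s = s' := by omega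
      have := inj (-r) (-r') (by omega) (by omega) (by omega) (by omega) (by omega) (by omega)
      exact ⟨by omega, e⟩
  · have := sA i a b
    rw [zero_sub, zero_add, w0]
    simp only
    omega

namespace UC

variable {n : ℤ} (C : UC (n, 0))

/-- The shift of the index by `γ` moves the curve by `g` to the east. -/
def Sh (γ g : ℤ) : Prop :=
  ∀ l, (C.w (l + γ)).1 = (C.w l).1 + g ∧ (C.w (l + γ)).2 = (C.w l).2

theorem shm (s : ℤ) : C.Sh (2 * C.q * s) (s * n) := fun l => by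
  rw [per_mul C.per]
  simp

theorem shk (s : ℤ) {γ g : ℤ} (e : γ = 2 * C.q * s) (e' : g = s * n) : C.Sh γ g :=
  e ▸ e' ▸ C.shm s

theorem dec (l : ℤ) : ∃ r s, -C.q ≤ r ∧ r < C.q ∧ l = r + 2 * C.q * s := by
  have hq := C.qpos
  have h1 := Int.mul_ediv_add_emod (l + C.q) (2 * C.q)
  have h2 := Int.emod_nonneg (l + C.q) (show 2 * C.q ≠ 0 by omega)
  have h3 := Int.emod_lt_of_pos (l + C.q) (show 0 < 2 * C.q by omega)
  exact ⟨(l + C.q) % (2 * C.q) - C.q, (l + C.q) / (2 * C.q), by omega, by omega, by omega⟩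

variable {C} {γ g i j i' j' X Y : ℤ}

theorem Sh.at (h : C.Sh γ g) (l l' : ℤ) (e : l' = l + γ) :
    (C.w l').1 = (C.w l).1 + g ∧ (C.w l').2 = (C.w l).2 := e ▸ h l

theorem Sh.pt (h : C.Sh γ g) {l l' x y x' : ℤ} (e : l' = l + γ) (w : C.w l = (x, y))
    (hx : x' = x + g) : C.w l' = (x', y) := by
  have := h.at l l' e
  rw [w] at this
  exact Prod.ext (this.1.trans hx.symm) this.2

theorem Sh.pt' (h : C.Sh γ g) {l l' x y x' : ℤ} (e : l = l' + γ) (w : C.w l = (x, y))
    (hx : x = x' + g) : C.w l' = (x', y) := by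
  have := h.at l' l e
  rw [w] at this
  exact Prod.ext (by simp only at this ⊢; omega) this.2.symm

theorem Sh.Z (h : C.Sh γ g) (hi : i' = i + γ) (hj : j' = j + γ) : C.Z i' j' = C.Z i j :=
  C.Z_shift (g := g) (g' := 0) (fun l => by have := h l; omega) hi hj

end UC

/-- A curve made of straight pieces. -/
structure KC (a : ℤ) where
  C : UC (2 * a, 0)
  ha : 4 ≤ a
  hq : C.q = 2 * a
  val : ∀ i, 0 ≤ i → i ≤ 2 * a → (i = 0 ∧ (C.w i).1 = 0 ∧ (C.w i).2 = 0) ∨
    (1 ≤ i ∧ i ≤ a ∧ (C.w i).1 = 1 ∧ (C.w i).2 = i - 1) ∨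
    (a ≤ i ∧ i < 2 * a ∧ (C.w i).1 = i - a + 1 ∧ (C.w i).2 = a - 1) ∨
    (i = 2 * a ∧ (C.w i).1 = a ∧ (C.w i).2 = a)

theorem exists_KC {a : ℤ} (ha : 4 ≤ a) : Nonempty (KC a) := by
  obtain ⟨F, hF⟩ : ∃ F : ℤ → Pt, F = fun i => if i ≤ 0 then (0, 0) else if i ≤ a then (1, i - 1)
    else if i < 2 * a then (i - a + 1, a - 1) else (a, a) := ⟨_, rfl⟩
  have v : ∀ i, 0 ≤ i → i ≤ 2 * a → (i = 0 ∧ (F i).1 = 0 ∧ (F i).2 = 0) ∨
      (1 ≤ i ∧ i ≤ a ∧ (F i).1 = 1 ∧ (F i).2 = i - 1) ∨
      (a ≤ i ∧ i < 2 * a ∧ (F i).1 = i - a + 1 ∧ (F i).2 = a - 1) ∨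
      (i = 2 * a ∧ (F i).1 = a ∧ (F i).2 = a) := fun i h h' => by
    simp only [hF]
    split_ifs <;> dsimp only <;> omega
  have un : ∀ {v w : Pt}, (w.2 = v.2 ∧ w.1 = v.1 + 1) ∨ (w.1 = v.1 ∧ w.2 = v.2 + 1) →
      Stp 0 v w := fun {v w} h => by
    rcases h with ⟨h, g⟩ | ⟨h, g⟩
    · exact ⟨0, Prod.ext (by simp [stepv, dv, g]) (by simp [stepv, dv, h])⟩
    · exact ⟨1, Prod.ext (by simp [stepv, dv, h]) (by simp [stepv, dv, g])⟩
  obtain ⟨C, hq, hw⟩ := extendA (n := a) (q := 2 * a) (by omega) (by omega) F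
    (by have := v 0 (by omega) (by omega); exact Prod.ext (by simp only; omega) (by simp only; omega))
    (by have := v (2 * a) (by omega) (by omega)
        exact Prod.ext (by simp only; omega) (by simp only; omega))
    (fun i h h' => un (by
      have := v i h h'.le
      have := v (i + 1) (by omega) (by omega)
      omega))
    (fun i h h' => by have := v i h h'; omega)
    (fun i j h h' g g' => by have := v i h h'; have := v j g g'; omega)
    (fun i h h' => by have := v i h h'; omega)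
    (fun i j h h' g g' => by have := v i h h'; have := v j g g'; omega)
    (fun i j h h' g g' => by have := v i h h'; have := v j g g'; omega)
  exact ⟨⟨C, ha, hq, fun i h h' => by rw [hw i h h']; exact v i h h'⟩⟩

namespace KC

variable {a : ℤ} (K : KC a)

theorem sh (s : ℤ) {γ g : ℤ} (e : γ = 4 * a * s) (e' : g = 2 * a * s) : K.C.Sh γ g :=
  K.C.shk s (by rw [e, K.hq]; ring) (by rw [e']; ring)

theorem neg (i : ℤ) (h : -2 * a ≤ i) (h' : i ≤ 0) :
    (i = 0 ∧ (K.C.w i).1 = 0 ∧ (K.C.w i).2 = 0) ∨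
    (-a ≤ i ∧ i ≤ -1 ∧ (K.C.w i).1 = i + 1 ∧ (K.C.w i).2 = 1) ∨
    (-2 * a < i ∧ i ≤ -a ∧ (K.C.w i).1 = 1 - a ∧ (K.C.w i).2 = -i - a + 1) ∨
    (i = -2 * a ∧ (K.C.w i).1 = -a ∧ (K.C.w i).2 = a) := by
  have := K.C.symA (-i) (by omega) (by rw [K.hq]; omega)
  rw [neg_neg] at this
  have := K.val (-i) (by omega) (by omega)
  omega

theorem one (l : ℤ) : ∃ r s, -2 * a ≤ r ∧ r < 2 * a ∧ l = r + 4 * a * s ∧
    K.C.Sh (4 * a * s) (2 * a * s) := by
  obtain ⟨r, s, h1, h2, h3⟩ := K.C.dec l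
  rw [K.hq] at h1 h2 h3
  exact ⟨r, s, by omega, h2, by rw [h3]; ring, K.sh s rfl rfl⟩

theorem strip (l : ℤ) : 0 ≤ (K.C.w l).2 ∧ (K.C.w l).2 ≤ a := by
  have := K.ha
  obtain ⟨r, s, h1, h2, h3, h4⟩ := K.one l
  have := h4.at r l h3
  rcases le_total 0 r with c | c
  · have := K.val r c h2.le
    omega
  · have := K.neg r h1 c
    omega

theorem mono1 (l : ℤ) : (K.C.w l).1 ≤ (K.C.w (l + 1)).1 := by
  have := K.ha
  obtain ⟨r, s, h1, h2, h3, h4⟩ := K.one l
  have := h4.at r l h3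
  have := h4.at (r + 1) (l + 1) (by omega)
  rcases le_or_gt 0 r with c | c
  · have := K.val r c h2.le
    have := K.val (r + 1) (by omega) (by omega)
    omega
  · have := K.neg r h1 c.le
    have := K.neg (r + 1) (by omega) (by omega)
    omega

theorem mono {l l' : ℤ} (h : l ≤ l') : (K.C.w l).1 ≤ (K.C.w l').1 := by
  induction l', h using Int.leInduction with
  | base => exact le_rfl
  | succ j hj ih => exact ih.trans (K.mono1 j)

theorem bot (l : ℤ) (h : (K.C.w l).2 = 0) :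
    ∃ s, (K.C.w l).1 = 2 * a * s ∨ (K.C.w l).1 = 2 * a * s + 1 := by
  have := K.ha
  obtain ⟨r, s, h1, h2, h3, h4⟩ := K.one l
  have := h4.at r l h3
  refine ⟨s, ?_⟩
  rcases le_total 0 r with c | c
  · have := K.val r c h2.le
    omega
  · have := K.neg r h1 c
    omega

theorem top (l : ℤ) (h : (K.C.w l).2 = a) :
    ∃ s, (K.C.w l).1 = 2 * a * s - a ∨ (K.C.w l).1 = 2 * a * s - a + 1 := by
  have := K.ha
  obtain ⟨r, s, h1, h2, h3, h4⟩ := K.one l
  have := h4.at r l h3
  refine ⟨s, ?_⟩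
  rcases le_total 0 r with c | c
  · have := K.val r c h2.le
    omega
  · have := K.neg r h1 c
    omega

include K in
theorem mul_cases (s k : ℤ) : 2 * a * s ≤ 2 * a * k ∨ 2 * a * k + 2 * a ≤ 2 * a * s := by
  have := K.ha
  rcases le_or_gt s k with c | c
  · exact .inl (by nlinarith)
  · exact .inr (by nlinarith)

/-- The index `i` belongs to the only point of the curve in its column. -/
def Col (i x y : ℤ) : Prop :=
  K.C.w i = (x, y) ∧ ∀ l, (l < i → (K.C.w l).1 < x) ∧ (i < l → x < (K.C.w l).1)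

theorem col_of {i x y : ℤ} (h : K.C.w i = (x, y)) (h1 : (K.C.w (i - 1)).1 < x)
    (h2 : x < (K.C.w (i + 1)).1) : K.Col i x y :=
  ⟨h, fun l => ⟨fun c => (K.mono (by omega)).trans_lt h1, fun c => h2.trans_le (K.mono (by omega))⟩⟩

theorem col_hi {x : ℤ} (h : 2 ≤ x) (h' : x < a) : K.Col (x + a - 1) x (a - 1) := by
  have := K.val (x + a - 1) (by omega) (by omega)
  have := K.val (x + a - 1 - 1) (by omega) (by omega)
  have := K.val (x + a - 1 + 1) (by omega) (by omega)
  exact K.col_of (Prod.ext (by simp only; omega) (by simp only; omega)) (by omega) (by omega)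

theorem col_lo {x : ℤ} (h : 2 - a ≤ x) (h' : x < 0) : K.Col (x - 1) x 1 := by
  have := K.neg (x - 1) (by omega) (by omega)
  have := K.neg (x - 1 - 1) (by omega) (by omega)
  have := K.neg (x - 1 + 1) (by omega) (by omega)
  exact K.col_of (Prod.ext (by simp only; omega) (by simp only; omega)) (by omega) (by omega)

variable {K}

theorem Col.shift {i x y γ g i' x' : ℤ} (h : K.Col i x y) (s : K.C.Sh γ g) (e : i' = i + γ)
    (e' : x' = x + g) : K.Col i' x' y :=
  ⟨s.pt e h.1 e', fun l => by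
    have := s.at (l - γ) l (by ring)
    have := h.2 (l - γ)
    omega⟩

theorem Col.eq {i x y : ℤ} (h : K.Col i x y) (l : ℤ) : (i ≤ l → x ≤ (K.C.w l).1) ∧
    (l ≤ i → (K.C.w l).1 ≤ x) ∧ ((K.C.w l).1 = x → (K.C.w l).2 = y) ∧
    (x < (K.C.w l).1 → i < l) := by
  have := h.2 l
  rcases eq_or_ne l i with rfl | c
  · rw [h.1]
    simp
  · omega

end KC

/-- The curve with four centres of rotation in the strip `0 ≤ y ≤ a`. -/
structure ZC (a t : ℤ) where
  C : UC (2 * a, 0)
  wq : C.w C.q = (a, a)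
  wβ : C.w C.β = (t, 0)
  strip : ∀ l, 0 ≤ (C.w l).2 ∧ (C.w l).2 ≤ a
  mA : ∀ l, (0 ≤ l → 0 ≤ (C.w l).1) ∧ (l ≤ 0 → (C.w l).1 ≤ 0) ∧ (l ≤ C.q → (C.w l).1 ≤ a) ∧
    (-C.q ≤ l → -a ≤ (C.w l).1)
  mB : ∀ l, (C.β ≤ l → t ≤ (C.w l).1) ∧ (l ≤ C.β → (C.w l).1 ≤ t) ∧
    (l ≤ C.β - C.q → (C.w l).1 ≤ t - a) ∧ (C.β - C.q ≤ l → t - a ≤ (C.w l).1)
  nA : ∀ l, (C.w l).2 = a → (C.w l).1 ≠ 0
  nB : ∀ l, ((C.w l).2 = 0 → (C.w l).1 ≠ t - a) ∧
    ((C.w l).2 = a → (C.w l).1 ≠ t ∧ (C.w l).1 ≠ t + 1)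

theorem exists_ZC (a d : ℤ) (ha : 2 < a) (hc : IsCoprime a d) (he : a % 2 = 0) :
    Nonempty (ZC a (2 * d)) := by
  obtain ⟨⟨W, -, -⟩⟩ := exists_WB 1 a d (by omega) hc (.inr ⟨rfl, he⟩)
  have hq := W.qpos
  have cs : ∀ t : ℤ, ∃ l, t = 2 * l ∨ t = 2 * l + 1 := fun t => ⟨t / 2, by omega⟩
  have wβ : W.fc (2 * W.β) = (2 * d, a) := by
    rw [W.fc_even, WB0.cp, W.wβ]
    ext <;> simp; ring
  refine ⟨{
    C := {
      w := fun l => W.fc l - (0, a)
      d := fun t => W.d (t / 2)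
      q := 2 * W.q
      β := 2 * W.β
      qpos := by omega
      step := fun l => by rw [W.fc_step]; abel
      w0 := ?_
      per := fun l => by rw [W.fc_per]; abel
      inj := fun l l' h h' => W.fc_inj l l' (by simpa using h) (by simpa using h')
      symA := fun i h h' => ?_
      symB := fun i h h' => ?_ }
    wq := ?_
    wβ := ?_
    strip := fun t => ?_
    mA := fun t => ?_
    mB := fun t => ?_
    nA := fun t h g => ?_
    nB := fun t => ⟨fun h g => ?_, fun h => ⟨fun g => ?_, fun g => ?_⟩⟩ }⟩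
  all_goals try simp only [Prod.fst_sub, Prod.snd_sub] at *
  · have := W.fc_even 0
    rw [mul_zero] at this
    rw [this, WB0.cp, W.w0]
    ext <;> simp
  · obtain ⟨l, rfl | rfl⟩ := cs i
    · have := W.ev l
      have := W.ev (-l)
      have := W.symA' (i := l) (by omega) (by omega)
      rw [← mul_neg]
      omega
    · have e1 := W.od l
      have e := W.od (-(l + 1))
      have := W.symA' (i := l) (by omega) (by omega)
      have := W.symA' (i := l + 1) (by omega) (by omega)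
      rw [show -(l + 1) + 1 = -l by ring] at e
      rw [show -(2 * l + 1) = 2 * (-(l + 1)) + 1 by ring]
      omega
  · have := W.fc_symB h h'
    rw [wβ]
    simp only
    omega
  · rw [W.fc_even, WB0.cp, W.wq]
    ext <;> simp
  · rw [wβ]
    ext <;> simp
  · obtain ⟨l, rfl | rfl⟩ := cs t
    · have := W.ev l
      have := W.strip l
      omega
    · have := W.od l
      have := W.strip l
      have := W.strip (l + 1)
      omega
  · obtain ⟨l, rfl | rfl⟩ := cs t
    · have := W.ev l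
      have := W.monoA l
      omega
    · have := (W.od l).1
      have := W.monoA l
      have := W.monoA (l + 1)
      refine ⟨fun _ => ?_, fun _ => ?_, fun _ => ?_, fun _ => ?_⟩ <;> omega
  · obtain ⟨l, rfl | rfl⟩ := cs t
    · have := W.ev l
      have := W.monoB l
      omega
    · have := (W.od l).1
      have := W.monoB l
      have := W.monoB (l + 1)
      refine ⟨fun _ => ?_, fun _ => ?_, fun _ => ?_, fun _ => ?_⟩ <;> omega
  · obtain ⟨l, h1⟩ := W.fc_ee he t (by omega) (by omega)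
    have := W.kA l (by omega) (by omega)
    omega
  · obtain ⟨l, h1⟩ := W.fc_ee he t (by omega) (by omega)
    exact W.noB ha l (by omega) (by omega)
  · obtain ⟨l, h1⟩ := W.fc_ee he t (by omega) (by omega)
    have := W.kB l (by omega) (by omega)
    omega
  · obtain ⟨l, rfl | rfl⟩ := cs t
    · have := W.ev l
      have := W.par rfl l
      omega
    · have := W.od l
      have := W.stc l
      have := W.par rfl l
      have := W.strip l
      have := W.strip (l + 1)
      rcases le_total (W.w l).1 (W.w (l + 1)).1 with c | c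
      · have := W.kB l (by omega) (by omega)
        omega
      · have := W.kB (l + 1) (by omega) (by omega)
        omega

end NP
end Pool.Agent.Lib.MP_4a7072_co
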