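import Pool.Agent.Lib.MP_4a7072_co.ZBase

/-!
The strip design: the two curves and the three strands.
-/

set_option autoImplicit false
set_option linter.unnecessarySeqFocus false
set_option linter.unusedSimpArgs false
set_option linter.unusedVariables false
set_option linter.unreachableTactic false
set_option linter.unusedTactic false

namespace Pool.Agent.Lib.MP_4a7072_co
namespace NP

theorem KC.upto {a : ℤ} (K : KC a) (l : ℤ) (h : l ≤ -2 * a) :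
    (K.C.w l).1 ≤ -a ∧ ((K.C.w l).2 < a ∨ (K.C.w l).1 = -a ∨ (K.C.w l).1 ≤ 1 - 3 * a) := by
  have := K.ha
  have := (K.sh 1 (γ := 4 * a) (g := 2 * a) (by ring) (by ring)).at l _ rfl
  rcases le_total 0 (l + 4 * a) with c | c
  · have := K.val _ c (by omega)
    omega
  rcases le_total (-2 * a) (l + 4 * a) with e | e
  · have := K.neg _ e c
    omega
  · have := K.mono e
    have := K.neg _ le_rfl (by omega)
    omega

/-- The data of the design. -/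
structure ZD where
  a : ℤ
  b : ℤ
  t : ℤ
  u : ℤ
  g : ℤ
  Z : ZC a t
  K : KC a
  i : ℤ
  J : ℤ
  γ : ℤ
  aux : 4 ≤ a ∧ 5 * a < b ∧ 2 ≤ t ∧ t + 4 ≤ 2 * a ∧ 0 < u ∧ u < a ∧ 0 < g ∧ g < a
  cM : K.Col i (a - t) u
  hM : (t + 2 ≤ a ∧ u = a - 1 ∧ i = 2 * a - t - 1) ∨ (a + 2 ≤ t ∧ u = 1 ∧ i = a - t - 1)
  cJ : K.Col J (b - t) g
  hγ : K.C.Sh γ (2 * b - t)


namespace ZD

variable (D : ZD)

theorem k1 : D.K.C.Sh (4 * D.a) (2 * D.a) := D.K.sh 1 (by ring) (by ring)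

theorem cM1 : D.K.Col (D.i + 4 * D.a) (3 * D.a - D.t) D.u := D.cM.shift D.k1 rfl (by ring)

theorem cM2 : D.K.Col (D.i + 8 * D.a) (5 * D.a - D.t) D.u :=
  D.cM1.shift D.k1 (by ring) (by ring)

theorem cM3 : D.K.Col (D.i + 12 * D.a) (7 * D.a - D.t) D.u :=
  D.cM2.shift D.k1 (by ring) (by ring)

theorem km : D.K.C.w (-2 * D.a) = (-D.a, D.a) := by
  have := D.aux
  have := D.K.neg _ le_rfl (by omega)
  exact Prod.ext (by simp only; omega) (by simp only; omega)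

theorem kp : D.K.C.w (2 * D.a) = (D.a, D.a) := D.k1.pt (by ring) D.km (by ring)

theorem kT : D.K.C.w (D.γ - 2 * D.a) = (2 * D.b - D.a - D.t, D.a) := D.hγ.pt (by ring) D.km (by ring)

theorem ord : 0 < D.a ∧ 0 < D.Z.C.q ∧ D.i + 8 * D.a < D.J ∧ D.J < D.γ - 2 * D.a := by
  have := D.aux
  have h1 := D.cM2.eq D.J
  have h2 := D.cJ.eq (D.γ - 2 * D.a)
  rw [D.cJ.1] at h1
  rw [D.kT] at h2
  exact ⟨by omega, D.Z.C.qpos, h1.2.2.2 (by simp only; omega), h2.2.2.2 (by simp only; omega)⟩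

theorem z1 : D.Z.C.Sh (2 * D.Z.C.q) (2 * D.a) := D.Z.C.shk 1 (by ring) (by ring)

theorem zm : D.Z.C.w (-D.Z.C.q) = (-D.a, D.a) := D.z1.pt' (by ring) D.Z.wq (by ring)

theorem z3 : D.Z.C.w (3 * D.Z.C.q) = (3 * D.a, D.a) := D.z1.pt (by ring) D.Z.wq (by ring)

theorem z5 : D.Z.C.w (5 * D.Z.C.q) = (5 * D.a, D.a) := D.z1.pt (by ring) D.z3 (by ring)

theorem zl (l : ℤ) : (0 ≤ (D.Z.C.w l).2 ∧ (D.Z.C.w l).2 ≤ D.a) ∧
    (-D.Z.C.q ≤ l → -D.a ≤ (D.Z.C.w l).1) ∧ (0 ≤ l → 0 ≤ (D.Z.C.w l).1) ∧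
    (l ≤ 0 → (D.Z.C.w l).1 ≤ 0) ∧ (l ≤ D.Z.C.q → (D.Z.C.w l).1 ≤ D.a) ∧
    (l ≤ 3 * D.Z.C.q → (D.Z.C.w l).1 ≤ 3 * D.a) ∧ (l ≤ 5 * D.Z.C.q → (D.Z.C.w l).1 ≤ 5 * D.a) := by
  have h := D.Z.mA l
  have := D.z1.at (l - 2 * D.Z.C.q) l (by ring)
  have := D.z1.at (l - 4 * D.Z.C.q) (l - 2 * D.Z.C.q) (by ring)
  have := (D.Z.mA (l - 2 * D.Z.C.q)).2.2.1
  have := (D.Z.mA (l - 4 * D.Z.C.q)).2.2.1
  exact ⟨D.Z.strip l, h.2.2.2, h.1, h.2.1, h.2.2.1, by omega, by omega⟩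

theorem v0 (l : ℤ) (h : D.i ≤ l) : 0 < (D.K.C.w l).2 ∨ D.a - D.t + D.u < (D.K.C.w l).1 := by
  have := D.aux
  have := D.hM
  have := D.K.strip l
  have := (D.cM.eq l).1 h
  by_cases c : (D.K.C.w l).2 = 0
  · obtain ⟨s, hs⟩ := D.K.bot l c
    have := D.K.mul_cases s 0
    have := D.K.mul_cases s (-1)
    omega
  · omega

/-- A part of a curve. -/
def V0 : List Dir := D.K.C.Z D.i D.J

/-- The points of a part of a curve. -/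
def PV0 (X Y : ℤ) : Prop := D.K.C.On D.i D.J X Y

variable {D} in
theorem PV0.on {X Y : ℤ} (h : D.PV0 X Y) : D.K.C.On D.i D.J X Y := h

theorem arcV0 : CArc (D.a - D.t, D.u) D.V0 (D.b - D.t, D.g) D.PV0 :=
  (D.K.C.arc (by have := D.ord; omega)).mv D.cM.1 D.cJ.1 fun _ _ h => h

variable {D} in
theorem PV0.lin {X Y : ℤ} (h : D.PV0 X Y) :
    0 ≤ Y ∧ Y ≤ D.a ∧ D.a - D.t ≤ X ∧ (D.a - D.t < X ∨ Y = D.u) ∧ X ≤ D.b - D.t ∧ (X < D.b - D.t ∨ Y = D.g) ∧ (0 < Y ∨ D.a + D.u - D.t < X) := by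
  have := D.aux
  obtain ⟨l, h1, h2, rfl, rfl⟩ := h
  have := D.K.strip l
  have := D.cM.eq l
  have := D.cJ.eq l
  have := D.v0 l h1
  omega

/-- A part of a curve. -/
def V1 : List Dir := D.K.C.Z (D.i + 4 * D.a) D.J

/-- The points of a part of a curve. -/
def PV1 (X Y : ℤ) : Prop := D.K.C.On (D.i + 4 * D.a) D.J X Y

variable {D} in
theorem PV1.on {X Y : ℤ} (h : D.PV1 X Y) : D.K.C.On (D.i + 4 * D.a) D.J X Y := h

theorem arcV1 : CArc (3 * D.a - D.t, D.u) D.V1 (D.b - D.t, D.g) D.PV1 :=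
  (D.K.C.arc (by have := D.ord; omega)).mv D.cM1.1 D.cJ.1 fun _ _ h => h

variable {D} in
theorem PV1.lin {X Y : ℤ} (h : D.PV1 X Y) :
    0 ≤ Y ∧ Y ≤ D.a ∧ 3 * D.a - D.t ≤ X ∧ (3 * D.a - D.t < X ∨ Y = D.u) ∧ X ≤ D.b - D.t ∧ (X < D.b - D.t ∨ Y = D.g) := by
  have := D.aux
  obtain ⟨l, h1, h2, rfl, rfl⟩ := h
  have := D.K.strip l
  have := D.cM1.eq l
  have := D.cJ.eq l
  omega

/-- A part of a curve. -/
def V2 : List Dir := D.K.C.Z (D.i + 8 * D.a) D.J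

/-- The points of a part of a curve. -/
def PV2 (X Y : ℤ) : Prop := D.K.C.On (D.i + 8 * D.a) D.J X Y

variable {D} in
theorem PV2.on {X Y : ℤ} (h : D.PV2 X Y) : D.K.C.On (D.i + 8 * D.a) D.J X Y := h

theorem arcV2 : CArc (5 * D.a - D.t, D.u) D.V2 (D.b - D.t, D.g) D.PV2 :=
  (D.K.C.arc (by have := D.ord; omega)).mv D.cM2.1 D.cJ.1 fun _ _ h => h

variable {D} in
theorem PV2.lin {X Y : ℤ} (h : D.PV2 X Y) :
    0 ≤ Y ∧ Y ≤ D.a ∧ 5 * D.a - D.t ≤ X ∧ (5 * D.a - D.t < X ∨ Y = D.u) ∧ X ≤ D.b - D.t ∧ (X < D.b - D.t ∨ Y = D.g) := by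
  have := D.aux
  obtain ⟨l, h1, h2, rfl, rfl⟩ := h
  have := D.K.strip l
  have := D.cM2.eq l
  have := D.cJ.eq l
  omega

/-- A part of a curve. -/
def T : List Dir := D.K.C.Z D.J (D.γ - 2 * D.a)

/-- The points of a part of a curve. -/
def PT (X Y : ℤ) : Prop := D.K.C.On D.J (D.γ - 2 * D.a) X Y

variable {D} in
theorem PT.on {X Y : ℤ} (h : D.PT X Y) : D.K.C.On D.J (D.γ - 2 * D.a) X Y := h

theorem arcT : CArc (D.b - D.t, D.g) D.T (2 * D.b - D.a - D.t, D.a) D.PT :=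
  (D.K.C.arc (by have := D.ord; omega)).mv D.cJ.1 D.kT fun _ _ h => h

variable {D} in
theorem PT.lin {X Y : ℤ} (h : D.PT X Y) :
    0 ≤ Y ∧ Y ≤ D.a ∧ D.b - D.t ≤ X ∧ (D.b - D.t < X ∨ Y = D.g) ∧ X ≤ 2 * D.b - D.a - D.t ∧ (Y < D.a ∨ X = 2 * D.b - D.a - D.t ∨ X ≤ 2 * D.b - 3 * D.a - D.t + 1) := by
  have := D.aux
  obtain ⟨l, h1, h2, rfl, rfl⟩ := h
  have := D.K.strip l
  have := D.cJ.eq l
  have := D.hγ.at (l - D.γ) l (by ring)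
  have := D.K.upto (l - D.γ) (by omega)
  omega

/-- A part of a curve. -/
def H : List Dir := D.K.C.Z (-2 * D.a) (2 * D.a)

/-- The points of a part of a curve. -/
def PH (X Y : ℤ) : Prop := D.K.C.On (-2 * D.a) (2 * D.a) X Y

variable {D} in
theorem PH.on {X Y : ℤ} (h : D.PH X Y) : D.K.C.On (-2 * D.a) (2 * D.a) X Y := h

theorem arcH : CArc (-D.a, D.a) D.H (D.a, D.a) D.PH :=
  (D.K.C.arc (by have := D.ord; omega)).mv D.km D.kp fun _ _ h => h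

variable {D} in
theorem PH.lin {X Y : ℤ} (h : D.PH X Y) :
    0 ≤ Y ∧ Y ≤ D.a ∧ -D.a ≤ X ∧ (-D.a < X ∨ Y = D.a) ∧ X ≤ D.a ∧ (Y < D.a ∨ X = D.a ∨ X ≤ 1 - D.a) := by
  have := D.aux
  obtain ⟨l, h1, h2, rfl, rfl⟩ := h
  have := D.K.val l
  have := D.K.neg l
  omega

/-- A part of a curve. -/
def W : List Dir := D.K.C.Z D.i (D.i + 12 * D.a)

/-- The points of a part of a curve. -/
def PW (X Y : ℤ) : Prop := D.K.C.On D.i (D.i + 12 * D.a) X Y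

variable {D} in
theorem PW.on {X Y : ℤ} (h : D.PW X Y) : D.K.C.On D.i (D.i + 12 * D.a) X Y := h

theorem arcW : CArc (D.a - D.t, D.u) D.W (7 * D.a - D.t, D.u) D.PW :=
  (D.K.C.arc (by have := D.ord; omega)).mv D.cM.1 D.cM3.1 fun _ _ h => h

variable {D} in
theorem PW.lin {X Y : ℤ} (h : D.PW X Y) :
    0 ≤ Y ∧ Y ≤ D.a ∧ D.a - D.t ≤ X ∧ (D.a - D.t < X ∨ Y = D.u) ∧ X ≤ 7 * D.a - D.t ∧ (X < 7 * D.a - D.t ∨ Y = D.u) := by
  have := D.aux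
  obtain ⟨l, h1, h2, rfl, rfl⟩ := h
  have := D.K.strip l
  have := D.cM.eq l
  have := D.cM3.eq l
  omega

/-- A part of a curve. -/
def Z1 : List Dir := D.Z.C.Z (-D.Z.C.q) 0

/-- The points of a part of a curve. -/
def PZ1 (X Y : ℤ) : Prop := D.Z.C.On (-D.Z.C.q) 0 X Y

variable {D} in
theorem PZ1.on {X Y : ℤ} (h : D.PZ1 X Y) : D.Z.C.On (-D.Z.C.q) 0 X Y := h

theorem arcZ1 : CArc (-D.a, D.a) D.Z1 (0, 0) D.PZ1 :=
  (D.Z.C.arc (by have := D.ord; omega)).mv D.zm D.Z.C.w0 fun _ _ h => h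

variable {D} in
theorem PZ1.lin {X Y : ℤ} (h : D.PZ1 X Y) :
    0 ≤ Y ∧ Y ≤ D.a ∧ -D.a ≤ X ∧ X ≤ 0 := by
  have := D.aux
  obtain ⟨l, h1, h2, rfl, rfl⟩ := h
  have := D.zl l
  omega

/-- A part of a curve. -/
def Z2 : List Dir := D.Z.C.Z (-D.Z.C.q) D.Z.C.q

/-- The points of a part of a curve. -/
def PZ2 (X Y : ℤ) : Prop := D.Z.C.On (-D.Z.C.q) D.Z.C.q X Y

variable {D} in
theorem PZ2.on {X Y : ℤ} (h : D.PZ2 X Y) : D.Z.C.On (-D.Z.C.q) D.Z.C.q X Y := h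

theorem arcZ2 : CArc (-D.a, D.a) D.Z2 (D.a, D.a) D.PZ2 :=
  (D.Z.C.arc (by have := D.ord; omega)).mv D.zm D.Z.wq fun _ _ h => h

variable {D} in
theorem PZ2.lin {X Y : ℤ} (h : D.PZ2 X Y) :
    0 ≤ Y ∧ Y ≤ D.a ∧ -D.a ≤ X ∧ X ≤ D.a := by
  have := D.aux
  obtain ⟨l, h1, h2, rfl, rfl⟩ := h
  have := D.zl l
  omega

/-- A part of a curve. -/
def Z4 : List Dir := D.Z.C.Z (-D.Z.C.q) (3 * D.Z.C.q)

/-- The points of a part of a curve. -/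
def PZ4 (X Y : ℤ) : Prop := D.Z.C.On (-D.Z.C.q) (3 * D.Z.C.q) X Y

variable {D} in
theorem PZ4.on {X Y : ℤ} (h : D.PZ4 X Y) : D.Z.C.On (-D.Z.C.q) (3 * D.Z.C.q) X Y := h

theorem arcZ4 : CArc (-D.a, D.a) D.Z4 (3 * D.a, D.a) D.PZ4 :=
  (D.Z.C.arc (by have := D.ord; omega)).mv D.zm D.z3 fun _ _ h => h

variable {D} in
theorem PZ4.lin {X Y : ℤ} (h : D.PZ4 X Y) :
    0 ≤ Y ∧ Y ≤ D.a ∧ -D.a ≤ X ∧ X ≤ 3 * D.a := by
  have := D.aux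
  obtain ⟨l, h1, h2, rfl, rfl⟩ := h
  have := D.zl l
  omega

/-- A part of a curve. -/
def Z3 : List Dir := D.Z.C.Z 0 (3 * D.Z.C.q)

/-- The points of a part of a curve. -/
def PZ3 (X Y : ℤ) : Prop := D.Z.C.On 0 (3 * D.Z.C.q) X Y

variable {D} in
theorem PZ3.on {X Y : ℤ} (h : D.PZ3 X Y) : D.Z.C.On 0 (3 * D.Z.C.q) X Y := h

theorem arcZ3 : CArc (0, 0) D.Z3 (3 * D.a, D.a) D.PZ3 :=
  (D.Z.C.arc (by have := D.ord; omega)).mv D.Z.C.w0 D.z3 fun _ _ h => h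

variable {D} in
theorem PZ3.lin {X Y : ℤ} (h : D.PZ3 X Y) :
    0 ≤ Y ∧ Y ≤ D.a ∧ 0 ≤ X ∧ X ≤ 3 * D.a := by
  have := D.aux
  obtain ⟨l, h1, h2, rfl, rfl⟩ := h
  have := D.zl l
  omega

/-- A part of a curve. -/
def Z5 : List Dir := D.Z.C.Z 0 (5 * D.Z.C.q)

/-- The points of a part of a curve. -/
def PZ5 (X Y : ℤ) : Prop := D.Z.C.On 0 (5 * D.Z.C.q) X Y

variable {D} in
theorem PZ5.on {X Y : ℤ} (h : D.PZ5 X Y) : D.Z.C.On 0 (5 * D.Z.C.q) X Y := h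

theorem arcZ5 : CArc (0, 0) D.Z5 (5 * D.a, D.a) D.PZ5 :=
  (D.Z.C.arc (by have := D.ord; omega)).mv D.Z.C.w0 D.z5 fun _ _ h => h

variable {D} in
theorem PZ5.lin {X Y : ℤ} (h : D.PZ5 X Y) :
    0 ≤ Y ∧ Y ≤ D.a ∧ 0 ≤ X ∧ X ≤ 5 * D.a := by
  have := D.aux
  obtain ⟨l, h1, h2, rfl, rfl⟩ := h
  have := D.zl l
  omega

/-- The points of a path. -/
def La (X Y : ℤ) : Prop := 0 ≤ X ∧ X ≤ D.a ∧ Y = 0

variable {D} in
theorem La.lin {X Y : ℤ} (h : D.La X Y) : 0 ≤ X ∧ X ≤ D.a ∧ Y = 0 := h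

theorem arcLa : CArc (0, 0) (ea D.a) (D.a, 0) D.La := by
  have := D.aux
  exact ea_arc (by omega)

/-- The points of a path. -/
def Lu (X Y : ℤ) : Prop := 0 ≤ X ∧ X ≤ D.u ∧ Y = 0

variable {D} in
theorem Lu.lin {X Y : ℤ} (h : D.Lu X Y) : 0 ≤ X ∧ X ≤ D.u ∧ Y = 0 := h

theorem arcLu : CArc (0, 0) (ea D.u) (D.u, 0) D.Lu := by
  have := D.aux
  exact ea_arc (by omega)

/-- The points of a path. -/
def Lg (X Y : ℤ) : Prop := 0 ≤ X ∧ X ≤ D.g ∧ Y = 0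

variable {D} in
theorem Lg.lin {X Y : ℤ} (h : D.Lg X Y) : 0 ≤ X ∧ X ≤ D.g ∧ Y = 0 := h

theorem arcLg : CArc (0, 0) (ea D.g) (D.g, 0) D.Lg := by
  have := D.aux
  exact ea_arc (by omega)

/-- The points of a path. -/
def Lh (X Y : ℤ) : Prop := 0 ≤ X ∧ X ≤ D.a - D.g ∧ Y = 0

variable {D} in
theorem Lh.lin {X Y : ℤ} (h : D.Lh X Y) : 0 ≤ X ∧ X ≤ D.a - D.g ∧ Y = 0 := h

theorem arcLh : CArc (0, 0) (ea (D.a - D.g)) (D.a - D.g, 0) D.Lh := by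
  have := D.aux
  exact ea_arc (by omega)

theorem sWZ {i j i' j' X1 Y1 X2 Y2 : ℤ} (a : D.K.C.On i j X1 Y1) (b : D.Z.C.On i' j' X2 Y2)
    (e : X2 = X1 + D.t - 2 * D.a ∧ Y2 = Y1 + D.a) :
    False := by
  have := D.aux
  obtain ⟨l, a1, a2, rfl, rfl⟩ := a
  obtain ⟨l', b1, b2, rfl, rfl⟩ := b
  have := D.K.strip l
  have := D.Z.strip l'
  obtain ⟨s, hs⟩ := D.K.bot l (by omega)
  have := (D.Z.C.shm (1 - s)).at l' _ rfl
  have := (D.Z.nB (l' + 2 * D.Z.C.q * (1 - s))).2 (by omega)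
  have : (1 - s) * (2 * D.a) = 2 * D.a - 2 * D.a * s := by ring
  omega

theorem sT {i j i' j' X1 Y1 X2 Y2 : ℤ} (a : D.Z.C.On i j X1 Y1) (b : D.Z.C.On i' j' X2 Y2)
    (c : -D.Z.C.q ≤ i) (c' : -D.Z.C.q ≤ i')
    (e : X1 = -Y2 ∧ Y1 = X2 + 2 * D.a) :
    X1 = -D.a ∧ Y1 = D.a := by
  have := D.aux
  obtain ⟨l, a1, a2, rfl, rfl⟩ := a
  obtain ⟨l', b1, b2, rfl, rfl⟩ := b
  have := D.zl l
  have := D.zl l'
  rcases le_total l 0 with g | g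
  · have h := D.Z.C.symA (-l) (by omega) (by omega)
    rw [neg_neg] at h
    have := D.z1.at (-l - 2 * D.Z.C.q) (-l) (by ring)
    have := D.Z.C.inj l' (-l - 2 * D.Z.C.q) (by omega) (by omega)
    rw [show l = -D.Z.C.q by omega, D.zm]
    exact ⟨rfl, rfl⟩
  · exact (D.Z.nA l (by omega) (by omega)).elim

theorem s15 {X1 Y1 X2 Y2 : ℤ} (a : D.PZ1 X1 Y1) (b : D.PZ5 X2 Y2)
    (e : X1 = X2 ∧ Y1 = Y2) :
    X1 = 0 ∧ Y1 = 0 := by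
  have := D.aux
  obtain ⟨rfl, rfl⟩ := e
  have h := a.on.meet b.on
  rwa [D.Z.C.w0] at h

theorem sZB {i j X1 Y1 : ℤ} (a : D.Z.C.On i j X1 Y1)
    (e : Y1 = 0) :
    X1 ≠ D.t - D.a ∧ X1 ≠ D.t + D.a ∧ X1 ≠ D.t + 3 * D.a := by
  have := D.aux
  obtain ⟨l, a1, a2, rfl, rfl⟩ := a
  have := D.z1.at (l - 2 * D.Z.C.q) l (by ring)
  have := D.z1.at (l - 4 * D.Z.C.q) (l - 2 * D.Z.C.q) (by ring)
  have := (D.Z.nB l).1 e
  have := (D.Z.nB (l - 2 * D.Z.C.q)).1 (by omega)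
  have := (D.Z.nB (l - 4 * D.Z.C.q)).1 (by omega)
  omega

theorem sWT {i j X1 Y1 : ℤ} (a : D.K.C.On i j X1 Y1)
    (e : Y1 = D.a) :
    X1 ≠ 0 ∧ X1 ≠ 2 * D.a ∧ X1 ≠ 4 * D.a ∧ X1 ≠ 6 * D.a := by
  have := D.aux
  obtain ⟨l, a1, a2, rfl, rfl⟩ := a
  obtain ⟨s, hs⟩ := D.K.top l e
  have := D.K.mul_cases s 0
  have := D.K.mul_cases s 1
  have := D.K.mul_cases s 2
  have := D.K.mul_cases s 3
  omega

theorem sJ {i j X1 Y1 : ℤ} (a : D.K.C.On i j X1 Y1)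
    (e : X1 = D.b - D.t + 2 * D.a) :
    Y1 = D.g := by
  have := D.aux
  obtain ⟨l, a1, a2, rfl, rfl⟩ := a
  exact ((D.cJ.shift D.k1 rfl rfl).eq l).2.2.1 e

/-- A part of a boundary: its points. -/
def U0 (X Y : ℤ) : Prop :=
  D.Lu (Y - D.a) ((-D.a) - X) ∨
    D.PV0 (X - (D.t - 2 * D.a)) (Y - D.a)

/-- A part of a boundary: its word. -/
def wU0 : List Dir :=
  rot 1 (ea D.u) ++ D.V0

variable {D} in
theorem U0.lin {X Y : ℤ} (h : D.U0 X Y) :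
    -D.a ≤ X ∧ X ≤ D.b - 2 * D.a ∧ (X < D.b - 2 * D.a ∨ Y = D.a + D.g) ∧ 0 ≤ Y ∧ Y ≤ 2 * D.a ∧ (-D.a < X ∨ Y < 2 * D.a) ∧ (D.a ≤ Y ∨ X ≤ 3 * D.a) := by
  have := D.aux
  rcases h with h | h
  · have := h.lin; omega
  · have := h.lin; omega

theorem arcU0 : CArc (-D.a, D.a) (D.wU0) (D.b - 2 * D.a, D.a + D.g) (D.U0) := by
  have := D.aux
  have h0 := D.arcLu.p1 (P' := (-D.a, D.a)) (Q' := (-D.a, D.a + D.u)) (-D.a) D.a (by dsimp only; omega)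
  have h1 := D.arcV0.p0 (P' := (-D.a, D.a + D.u)) (Q' := (D.b - 2 * D.a, D.a + D.g)) (D.t - 2 * D.a) D.a (by dsimp only; omega)
  refine h0.append h1 ?_
  · intro X Y a b
    show X = -D.a ∧ Y = D.a + D.u
    have := a.lin; have := b.lin; omega

variable {D} in
theorem rU0 {X1 Y1 X2 Y2 : ℤ} (a : D.U0 X1 Y1) (b : D.U0 X2 Y2)
    (e : X1 = -Y2 ∧ Y1 = X2 + 2 * D.a) :
    X1 = -D.a ∧ Y1 = D.a := by
  have := D.aux
  rcases b with b | b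
  · have := a.lin; have := b.lin; omega
  · rcases a with a | a
    · have := a.lin; have := b.lin; omega
    · have := a.lin; have := b.lin; omega

/-- A part of a boundary: its points. -/
def U1 (X Y : ℤ) : Prop :=
  (D.PZ2 X Y ∨
    D.Lu (Y - D.a) (D.a - X)) ∨
    D.PV1 (X - (D.t - 2 * D.a)) (Y - D.a)

/-- A part of a boundary: its word. -/
def wU1 : List Dir :=
  D.Z2 ++ rot 1 (ea D.u) ++ D.V1

variable {D} in
theorem U1.lin {X Y : ℤ} (h : D.U1 X Y) :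
    -D.a ≤ X ∧ X ≤ D.b - 2 * D.a ∧ (X < D.b - 2 * D.a ∨ Y = D.a + D.g) ∧ 0 ≤ Y ∧ Y ≤ 2 * D.a ∧ (-D.a < X ∨ Y < 2 * D.a) ∧ (D.a ≤ Y ∨ X ≤ 3 * D.a) := by
  have := D.aux
  rcases h with (h | h) | h
  · have := h.lin; omega
  · have := h.lin; omega
  · have := h.lin; omega

theorem arcU1 : CArc (-D.a, D.a) (D.wU1) (D.b - 2 * D.a, D.a + D.g) (D.U1) := by
  have := D.aux
  have h0 := D.arcZ2
  have h1 := D.arcLu.p1 (P' := (D.a, D.a)) (Q' := (D.a, D.a + D.u)) D.a D.a (by dsimp only; omega)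
  have h2 := D.arcV1.p0 (P' := (D.a, D.a + D.u)) (Q' := (D.b - 2 * D.a, D.a + D.g)) (D.t - 2 * D.a) D.a (by dsimp only; omega)
  refine (h0.append h1 ?_).append h2 ?_
  · intro X Y a b
    show X = D.a ∧ Y = D.a
    have := a.lin; have := b.lin; omega
  · intro X Y a b
    show X = D.a ∧ Y = D.a + D.u
    rcases a with a | a
    · have := a.lin; have := b.lin; omega
    · have := a.lin; have := b.lin; omega

variable {D} in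
theorem rU1 {X1 Y1 X2 Y2 : ℤ} (a : D.U1 X1 Y1) (b : D.U1 X2 Y2)
    (e : X1 = -Y2 ∧ Y1 = X2 + 2 * D.a) :
    X1 = -D.a ∧ Y1 = D.a := by
  have := D.aux
  rcases a with (a | a) | a
  · rcases b with (b | b) | b
    · have := D.sT a.on b.on (by omega) (by omega) (by omega); omega
    · have := a.lin; have := b.lin; omega
    · have := a.lin; have := b.lin; omega
  · have := a.lin; have := b.lin; omega
  · have := a.lin; have := b.lin; omega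

/-- A part of a boundary: its points. -/
def U2 (X Y : ℤ) : Prop :=
  (D.PZ4 X Y ∨
    D.Lu (Y - D.a) ((3 * D.a) - X)) ∨
    D.PV2 (X - (D.t - 2 * D.a)) (Y - D.a)

/-- A part of a boundary: its word. -/
def wU2 : List Dir :=
  D.Z4 ++ rot 1 (ea D.u) ++ D.V2

variable {D} in
theorem U2.lin {X Y : ℤ} (h : D.U2 X Y) :
    -D.a ≤ X ∧ X ≤ D.b - 2 * D.a ∧ (X < D.b - 2 * D.a ∨ Y = D.a + D.g) ∧ 0 ≤ Y ∧ Y ≤ 2 * D.a ∧ (-D.a < X ∨ Y < 2 * D.a) ∧ (D.a ≤ Y ∨ X ≤ 3 * D.a) := by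
  have := D.aux
  rcases h with (h | h) | h
  · have := h.lin; omega
  · have := h.lin; omega
  · have := h.lin; omega

theorem arcU2 : CArc (-D.a, D.a) (D.wU2) (D.b - 2 * D.a, D.a + D.g) (D.U2) := by
  have := D.aux
  have h0 := D.arcZ4
  have h1 := D.arcLu.p1 (P' := (3 * D.a, D.a)) (Q' := (3 * D.a, D.a + D.u)) (3 * D.a) D.a (by dsimp only; omega)
  have h2 := D.arcV2.p0 (P' := (3 * D.a, D.a + D.u)) (Q' := (D.b - 2 * D.a, D.a + D.g)) (D.t - 2 * D.a) D.a (by dsimp only; omega)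
  refine (h0.append h1 ?_).append h2 ?_
  · intro X Y a b
    show X = 3 * D.a ∧ Y = D.a
    have := a.lin; have := b.lin; omega
  · intro X Y a b
    show X = 3 * D.a ∧ Y = D.a + D.u
    rcases a with a | a
    · have := a.lin; have := b.lin; omega
    · have := a.lin; have := b.lin; omega

variable {D} in
theorem rU2 {X1 Y1 X2 Y2 : ℤ} (a : D.U2 X1 Y1) (b : D.U2 X2 Y2)
    (e : X1 = -Y2 ∧ Y1 = X2 + 2 * D.a) :
    X1 = -D.a ∧ Y1 = D.a := by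
  have := D.aux
  rcases a with (a | a) | a
  · rcases b with (b | b) | b
    · have := D.sT a.on b.on (by omega) (by omega) (by omega); omega
    · have := a.lin; have := b.lin; omega
    · have := a.lin; have := b.lin; omega
  · have := a.lin; have := b.lin; omega
  · have := a.lin; have := b.lin; omega

/-- A strand: an arc along the strip. -/
structure Str where
  w : List Dir
  P : ℤ → ℤ → Prop
  arc : CArc (-D.a, D.a) w (D.b - 2 * D.a, D.a + D.g) P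
  lin' : ∀ {X Y}, P X Y → -D.a ≤ X ∧ X ≤ D.b - 2 * D.a ∧ (X < D.b - 2 * D.a ∨ Y = D.a + D.g) ∧ 0 ≤ Y ∧ Y ≤ 2 * D.a ∧ (-D.a < X ∨ Y < 2 * D.a) ∧ (D.a ≤ Y ∨ X ≤ 3 * D.a)
  top : ∀ {X Y}, P X Y → Y < 2 * D.a ∨ ∃ i j, D.K.C.On i j (X - (D.t - 2 * D.a)) (Y - D.a)
  rt' : ∀ {X1 Y1 X2 Y2}, P X1 Y1 → P X2 Y2 → X1 = -Y2 ∧ Y1 = X2 + 2 * D.a → X1 = -D.a ∧ Y1 = D.a

variable {D} in
theorem Str.P.lin {U : D.Str} {X Y : ℤ} (h : U.P X Y) :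
    -D.a ≤ X ∧ X ≤ D.b - 2 * D.a ∧ (X < D.b - 2 * D.a ∨ Y = D.a + D.g) ∧ 0 ≤ Y ∧ Y ≤ 2 * D.a ∧ (-D.a < X ∨ Y < 2 * D.a) ∧ (D.a ≤ Y ∨ X ≤ 3 * D.a) := U.lin' h

variable {D} in
theorem Str.rt {U : D.Str} {X1 Y1 X2 Y2 : ℤ} (a : U.P X1 Y1) (b : U.P X2 Y2)
    (e : X1 = -Y2 ∧ Y1 = X2 + 2 * D.a) : X1 = -D.a ∧ Y1 = D.a := U.rt' a b e

variable {D} in
theorem Str.sl {U : D.Str} {i j X1 Y1 X2 Y2 : ℤ} (a : U.P X1 Y1) (b : D.K.C.On i j X2 Y2)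
    (e : X1 + X2 = 2 * D.b - D.t - 2 * D.a ∧ Y1 + Y2 = 3 * D.a) : False := by
  have := D.aux
  obtain ⟨l', b1, b2, rfl, rfl⟩ := b
  have := D.K.strip l'
  obtain ⟨_, _, l, -, -, a1, a2⟩ := (U.top a).resolve_left (by omega)
  have := D.K.strip l
  obtain ⟨s, hs⟩ := D.K.top l (by omega)
  obtain ⟨s', hs'⟩ := D.K.top l' (by omega)
  have := D.hγ.at 0 D.γ (by ring)
  have := D.K.C.w0'
  obtain ⟨k, hk⟩ := D.K.bot D.γ (by omega)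
  have := D.K.mul_cases k (s + s' - 1)
  have : 2 * D.a * (s + s' - 1) = 2 * D.a * s + 2 * D.a * s' - 2 * D.a := by ring
  omega

theorem top0 {X Y : ℤ} (h : D.U0 X Y) :
    Y < 2 * D.a ∨ ∃ i j, D.K.C.On i j (X - (D.t - 2 * D.a)) (Y - D.a) := by
  have := D.aux
  rcases h with h | h
  · have := h.lin
    exact .inl (by omega)
  · exact .inr ⟨_, _, h⟩

/-- A strand. -/
def s0 : D.Str := ⟨D.wU0, D.U0, D.arcU0, U0.lin, D.top0, rU0⟩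

theorem top1 {X Y : ℤ} (h : D.U1 X Y) :
    Y < 2 * D.a ∨ ∃ i j, D.K.C.On i j (X - (D.t - 2 * D.a)) (Y - D.a) := by
  have := D.aux
  rcases h with (h | h) | h
  · have := h.lin
    exact .inl (by omega)
  · have := h.lin
    exact .inl (by omega)
  · exact .inr ⟨_, _, h⟩

/-- A strand. -/
def s1 : D.Str := ⟨D.wU1, D.U1, D.arcU1, U1.lin, D.top1, rU1⟩

theorem top2 {X Y : ℤ} (h : D.U2 X Y) :
    Y < 2 * D.a ∨ ∃ i j, D.K.C.On i j (X - (D.t - 2 * D.a)) (Y - D.a) := by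
  have := D.aux
  rcases h with (h | h) | h
  · have := h.lin
    exact .inl (by omega)
  · have := h.lin
    exact .inl (by omega)
  · exact .inr ⟨_, _, h⟩

/-- A strand. -/
def s2 : D.Str := ⟨D.wU2, D.U2, D.arcU2, U2.lin, D.top2, rU2⟩

theorem up0 {X Y : ℤ} (h : D.s0.P X Y) : D.a ≤ Y := by
  rcases h with h | h <;> have := h.lin <;> omega

end ZD

end NP
end Pool.Agent.Lib.MP_4a7072_co
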