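import Pool.Agent.Lib.MP_4a7072_co.ZCur

/-!
The strip design: words and envelopes.
-/

set_option autoImplicit false
set_option linter.unnecessarySeqFocus false
set_option linter.unusedSimpArgs false
set_option linter.unusedVariables false
set_option linter.unreachableTactic false
set_option linter.unusedTactic false

namespace Pool.Agent.Lib.MP_4a7072_co
namespace NP


namespace ZD

variable (D : ZD)
variable (U V U' V' : D.Str)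

/-- A part of a boundary: its points. -/
def AL (X Y : ℤ) : Prop :=
  (D.PW (X - (D.t - 2 * D.a)) (Y - D.a) ∨
    D.Lu ((D.a + D.u) - Y) (X - (-D.a))) ∨
    D.PZ1 X Y

/-- A part of a boundary: its word. -/
def α : List Dir :=
  back 0 D.W ++ rot 3 (ea D.u) ++ D.Z1

variable {D} in
theorem AL.lin {X Y : ℤ} (h : D.AL X Y) :
    X ≤ 5 * D.a ∧ -X ≤ D.a ∧ Y ≤ 2 * D.a ∧ -Y ≤ 0 ∧ X + Y ≤ 7 * D.a - 1 ∧ -X - Y ≤ D.a ∧ Y - X ≤ 3 * D.a - 1 ∧ X - Y ≤ 4 * D.a - 1 := by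
  have := D.aux
  rcases h with (h | h) | h
  · have := h.lin; omega
  · have := h.lin; omega
  · have := h.lin; omega

/-- A part of a boundary: its points. -/
def PI (X Y : ℤ) : Prop :=
  D.PZ5 X Y ∨
    D.Lu (Y - D.a) ((5 * D.a) - X)

/-- A part of a boundary: its word. -/
def π : List Dir :=
  D.Z5 ++ rot 1 (ea D.u)

variable {D} in
theorem PI.lin {X Y : ℤ} (h : D.PI X Y) :
    X ≤ 5 * D.a ∧ -X ≤ 0 ∧ Y ≤ D.a + D.u ∧ -Y ≤ 0 ∧ X + Y ≤ 6 * D.a + D.u ∧ -X - Y ≤ 0 ∧ Y - X ≤ D.a ∧ X - Y ≤ 5 * D.a := by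
  have := D.aux
  rcases h with h | h
  · have := h.lin; omega
  · have := h.lin; omega

/-- A part of a boundary: its points. -/
def EA (X Y : ℤ) : Prop :=
  D.AL X Y ∨
    D.PI X Y

variable {D} in
theorem EA.lin {X Y : ℤ} (h : D.EA X Y) :
    X ≤ 5 * D.a ∧ -X ≤ D.a ∧ Y ≤ 2 * D.a ∧ -Y ≤ 0 ∧ X + Y ≤ 7 * D.a - 1 ∧ -X - Y ≤ D.a ∧ Y - X ≤ 3 * D.a - 1 ∧ X - Y ≤ 5 * D.a := by
  have := D.aux
  rcases h with h | h
  · have := h.lin; omega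
  · have := h.lin; omega

/-- A part of a boundary: its points. -/
def Sa (X Y : ℤ) : Prop :=
  ((((D.Lg ((D.g - D.a) - Y) (X - (-D.a)) ∨
    D.Lg ((D.g - D.a) - X) ((-D.a) - Y)) ∨
    D.PT ((D.b - D.a - D.t) - Y) (X - (-D.a))) ∨
    D.PT (X - (D.a + D.t - 2 * D.b)) (Y - (-D.a - D.b))) ∨
    D.Lg ((D.g - D.a - D.b) - Y) (X - (D.a - D.b))) ∨
    D.Lg (X - (D.a - D.b - D.g)) (Y - (-D.a - D.b))

/-- A part of a boundary: its word. -/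
def wSa : List Dir :=
  rot 3 (ea D.g) ++ back 2 (ea D.g) ++ rot 3 D.T ++ back 0 D.T ++ rot 3 (ea D.g) ++ back 0 (ea D.g)

variable {D} in
theorem Sa.lin {X Y : ℤ} (h : D.Sa X Y) :
    X ≤ 0 ∧ -X ≤ D.b + D.g - D.a ∧ Y ≤ D.g - D.a ∧ -Y ≤ D.a + D.b ∧ X + Y ≤ -D.a - 1 ∧ -X - Y ≤ 2 * D.b + D.g ∧ Y - X ≤ D.g ∧ X - Y ≤ D.a + D.b := by
  have := D.aux
  rcases h with ((((h | h) | h) | h) | h) | h
  · have := h.lin; omega
  · have := h.lin; omega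
  · have := h.lin; omega
  · have := h.lin; omega
  · have := h.lin; omega
  · have := h.lin; omega

/-- A part of a boundary: its points. -/
def Sb (X Y : ℤ) : Prop :=
  ((U.P (Y - (D.a - 2 * D.b)) ((2 * D.a - D.b) - X) ∨
    U.P (X - (2 * D.a - D.b)) (Y - (-D.a - 2 * D.b))) ∨
    D.PT (X - (D.t - D.b)) (Y - (-2 * D.b))) ∨
    D.PH (X - D.b) (Y - (-2 * D.b))

/-- A part of a boundary: its word. -/
def wSb : List Dir :=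
  back 1 U.w ++ U.w ++ D.T ++ D.H

variable {D U} in
theorem Sb.lin {X Y : ℤ} (h : D.Sb U X Y) :
    X ≤ D.a + D.b ∧ -X ≤ D.b ∧ Y ≤ -D.a - D.b ∧ -Y ≤ D.a + 2 * D.b ∧ X + Y ≤ 2 * D.a - D.b ∧ -X - Y ≤ 3 * D.b ∧ Y - X ≤ -D.a - 1 ∧ X - Y ≤ D.a + 3 * D.b := by
  have := D.aux
  rcases h with ((h | h) | h) | h
  · have := h.lin; omega
  · have := h.lin; omega
  · have := h.lin; omega
  · have := h.lin; omega

/-- A part of a boundary: its points. -/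
def Sc (X Y : ℤ) : Prop :=
  (((D.PT ((-D.t) - Y) (X - D.b) ∨
    D.Lg ((D.b + D.g) - X) ((-D.b) - Y)) ∨
    D.Lg ((D.g - D.b) - Y) (X - D.b)) ∨
    V.P (X - (2 * D.a)) (Y - (-D.a - D.b))) ∨
    V.P (Y - (D.a - D.b)) ((2 * D.a) - X)

/-- A part of a boundary: its word. -/
def wSc : List Dir :=
  back 3 D.T ++ rot 2 (ea D.g) ++ back 3 (ea D.g) ++ back 0 V.w ++ rot 1 V.w

variable {D V} in
theorem Sc.lin {X Y : ℤ} (h : D.Sc V X Y) :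
    X ≤ D.a + D.b ∧ -X ≤ 0 ∧ Y ≤ -D.a ∧ -Y ≤ 2 * D.b - D.a ∧ X + Y ≤ D.a - 1 ∧ -X - Y ≤ D.b ∧ Y - X ≤ -D.a - 1 ∧ X - Y ≤ 3 * D.b := by
  have := D.aux
  rcases h with (((h | h) | h) | h) | h
  · have := h.lin; omega
  · have := h.lin; omega
  · have := h.lin; omega
  · have := h.lin; omega
  · have := h.lin; omega

/-- A part of a boundary: its points. -/
def Se (X Y : ℤ) : Prop :=
  (D.Sa X Y ∨
    D.Sb U X Y) ∨
    D.Sc V X Y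

/-- A part of a boundary: its word. -/
def wSe : List Dir :=
  D.wSa ++ (D.wSb U) ++ (D.wSc V)

variable {D U V} in
theorem Se.lin {X Y : ℤ} (h : D.Se U V X Y) :
    X ≤ D.a + D.b ∧ -X ≤ D.b ∧ Y ≤ D.g - D.a ∧ -Y ≤ D.a + 2 * D.b ∧ X + Y ≤ D.a - 1 ∧ -X - Y ≤ 3 * D.b ∧ Y - X ≤ D.g ∧ X - Y ≤ D.a + 3 * D.b := by
  have := D.aux
  rcases h with (h | h) | h
  · have := h.lin; omega
  · have := h.lin; omega
  · have := h.lin; omega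

/-- A part of a boundary: its points. -/
def B3 (X Y : ℤ) : Prop :=
  (D.Se D.s2 D.s1 ((2 * D.a - D.b) - Y) (X - (D.a + 2 * D.b)) ∨
    D.Se D.s1 D.s0 (X - (D.a + 2 * D.b)) (Y - (2 * D.a - D.b))) ∨
    D.Se D.s0 D.s2 (Y - (2 * D.a - D.b)) ((D.a + 2 * D.b) - X)

/-- A part of a boundary: its word. -/
def wB3 : List Dir :=
  rot 3 (D.wSe D.s2 D.s1) ++ (D.wSe D.s1 D.s0) ++ rot 1 (D.wSe D.s0 D.s2)

variable {D} in
theorem B3.lin {X Y : ℤ} (h : D.B3 X Y) :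
    X ≤ 2 * D.a + 4 * D.b ∧ -X ≤ 0 ∧ Y ≤ 3 * D.a ∧ -Y ≤ 3 * D.b - D.a ∧ X + Y ≤ 4 * D.a + 4 * D.b ∧ -X - Y ≤ 2 * D.b - 2 * D.a ∧ Y - X ≤ D.a ∧ X - Y ≤ 6 * D.b := by
  have := D.aux
  rcases h with (h | h) | h
  · have := h.lin; omega
  · have := h.lin; omega
  · have := h.lin; omega

/-- A part of a boundary: its points. -/
def RB (X Y : ℤ) : Prop :=
  ((D.Lh ((3 * D.a - D.b - D.g) - Y) (X - (2 * D.a + 2 * D.b)) ∨
    D.La ((2 * D.a + 2 * D.b) - X) ((2 * D.a - D.b) - Y)) ∨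
    D.La (Y - (2 * D.a - D.b)) ((D.a + 2 * D.b) - X)) ∨
    D.Lh ((D.a + 2 * D.b) - X) ((3 * D.a - D.b) - Y)

/-- A part of a boundary: its word. -/
def wRB : List Dir :=
  rot 3 (ea (D.a - D.g)) ++ rot 2 (ea D.a) ++ rot 1 (ea D.a) ++ rot 2 (ea (D.a - D.g))

variable {D} in
theorem RB.lin {X Y : ℤ} (h : D.RB X Y) :
    X ≤ 2 * D.a + 2 * D.b ∧ -X ≤ -2 * D.b - D.g ∧ Y ≤ 3 * D.a - D.b ∧ -Y ≤ D.b - 2 * D.a ∧ X + Y ≤ 5 * D.a + D.b - D.g ∧ -X - Y ≤ -3 * D.a - D.b ∧ Y - X ≤ 3 * D.a - 3 * D.b - D.g ∧ X - Y ≤ 3 * D.b := by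
  have := D.aux
  rcases h with ((h | h) | h) | h
  · have := h.lin; omega
  · have := h.lin; omega
  · have := h.lin; omega
  · have := h.lin; omega

/-- A part of a boundary: its points. -/
def C1 (X Y : ℤ) : Prop :=
  D.Sa ((2 * D.a - D.b) - Y) (X - (D.a + 2 * D.b)) ∨
    D.PV2 (X - D.t) (Y - D.a)

/-- A part of a boundary: its word. -/
def wC1 : List Dir :=
  rot 3 D.wSa ++ back 0 D.V2

variable {D} in
theorem C1.lin {X Y : ℤ} (h : D.C1 X Y) :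
    X ≤ 2 * D.b + D.g ∧ -X ≤ -5 * D.a ∧ Y ≤ 2 * D.a ∧ -Y ≤ D.b - 2 * D.a ∧ X + Y ≤ 3 * D.a + D.b + D.g ∧ -X - Y ≤ -2 * D.a ∧ Y - X ≤ -3 * D.a - 1 ∧ X - Y ≤ 3 * D.b - 2 * D.a - 1 := by
  have := D.aux
  rcases h with h | h
  · have := h.lin; omega
  · have := h.lin; omega

/-- A part of a boundary: its points. -/
def G0 (X Y : ℤ) : Prop :=
  (((D.PZ3 X Y ∨
    D.Lu (Y - D.a) ((3 * D.a) - X)) ∨
    D.PV2 (X - (D.t - 2 * D.a)) (Y - D.a)) ∨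
    D.PT (X - (D.t - 2 * D.a)) (Y - D.a)) ∨
    D.PH (X - (2 * D.b - 2 * D.a)) (Y - D.a)

/-- A part of a boundary: its word. -/
def wG0 : List Dir :=
  D.Z3 ++ rot 1 (ea D.u) ++ D.V2 ++ D.T ++ D.H

variable {D} in
theorem G0.lin {X Y : ℤ} (h : D.G0 X Y) :
    X ≤ 2 * D.b - D.a ∧ -X ≤ 0 ∧ Y ≤ 2 * D.a ∧ -Y ≤ 0 ∧ X + Y ≤ D.a + 2 * D.b ∧ -X - Y ≤ 0 ∧ Y - X ≤ D.a ∧ X - Y ≤ 2 * D.b - 2 * D.a := by
  have := D.aux
  rcases h with (((h | h) | h) | h) | h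
  · have := h.lin; omega
  · have := h.lin; omega
  · have := h.lin; omega
  · have := h.lin; omega
  · have := h.lin; omega

/-- A part of a boundary: its points. -/
def C2 (X Y : ℤ) : Prop :=
  (((D.G0 (0 - Y) (X - 0) ∨
    D.Sc D.s1 ((2 * D.a - D.b) - Y) (X - (D.a + 2 * D.b))) ∨
    D.Se D.s1 D.s0 (X - (D.a + 2 * D.b)) (Y - (2 * D.a - D.b))) ∨
    D.Se D.s0 D.s2 (Y - (2 * D.a - D.b)) ((D.a + 2 * D.b) - X)) ∨
    D.RB X Y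

/-- A part of a boundary: its word. -/
def wC2 : List Dir :=
  rot 3 D.wG0 ++ rot 3 (D.wSc D.s1) ++ (D.wSe D.s1 D.s0) ++ rot 1 (D.wSe D.s0 D.s2) ++ D.wRB

variable {D} in
theorem C2.lin {X Y : ℤ} (h : D.C2 X Y) :
    X ≤ 2 * D.a + 4 * D.b ∧ -X ≤ 0 ∧ Y ≤ 3 * D.a ∧ -Y ≤ 3 * D.b - D.a ∧ X + Y ≤ 4 * D.a + 4 * D.b ∧ -X - Y ≤ 2 * D.b - 2 * D.a ∧ Y - X ≤ 0 ∧ X - Y ≤ 6 * D.b := by
  have := D.aux
  rcases h with (((h | h) | h) | h) | h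
  · have := h.lin; omega
  · have := h.lin; omega
  · have := h.lin; omega
  · have := h.lin; omega
  · have := h.lin; omega

/-- A part of a boundary: its points. -/
def BE (X Y : ℤ) : Prop :=
  D.C2 X Y ∨
    D.C1 X Y

/-- A part of a boundary: its word. -/
def β : List Dir :=
  D.wC2 ++ D.wC1

variable {D} in
theorem BE.lin {X Y : ℤ} (h : D.BE X Y) :
    X ≤ 2 * D.a + 4 * D.b ∧ -X ≤ 0 ∧ Y ≤ 3 * D.a ∧ -Y ≤ 3 * D.b - D.a ∧ X + Y ≤ 4 * D.a + 4 * D.b ∧ -X - Y ≤ 2 * D.b - 2 * D.a ∧ Y - X ≤ 0 ∧ X - Y ≤ 6 * D.b := by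
  have := D.aux
  rcases h with h | h
  · have := h.lin; omega
  · have := h.lin; omega

/-- A part of a boundary: its points. -/
def EB (X Y : ℤ) : Prop :=
  D.B3 X Y ∨
    D.RB X Y

variable {D} in
theorem EB.lin {X Y : ℤ} (h : D.EB X Y) :
    X ≤ 2 * D.a + 4 * D.b ∧ -X ≤ 0 ∧ Y ≤ 3 * D.a ∧ -Y ≤ 3 * D.b - D.a ∧ X + Y ≤ 4 * D.a + 4 * D.b ∧ -X - Y ≤ 2 * D.b - 2 * D.a ∧ Y - X ≤ D.a ∧ X - Y ≤ 6 * D.b := by
  have := D.aux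
  rcases h with h | h
  · have := h.lin; omega
  · have := h.lin; omega

/-- A part of a boundary: its points. -/
def EC (X Y : ℤ) : Prop :=
  D.AL X Y ∨
    D.BE X Y

variable {D} in
theorem EC.lin {X Y : ℤ} (h : D.EC X Y) :
    X ≤ 2 * D.a + 4 * D.b ∧ -X ≤ D.a ∧ Y ≤ 3 * D.a ∧ -Y ≤ 3 * D.b - D.a ∧ X + Y ≤ 4 * D.a + 4 * D.b ∧ -X - Y ≤ 2 * D.b - 2 * D.a ∧ Y - X ≤ 3 * D.a - 1 ∧ X - Y ≤ 6 * D.b := by
  have := D.aux
  rcases h with h | h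
  · have := h.lin; omega
  · have := h.lin; omega

/-- The marked points. -/
def KA1 : List Pt :=
  [(4 * D.a + D.t, D.a), (3 * D.a + D.t, 2 * D.a), (2 * D.a + D.t, D.a), (D.a + D.t, 2 * D.a), (D.t, D.a), (D.t - D.a, 2 * D.a), (D.t - D.a, D.a), (D.t, 0), (D.a + D.t, D.a), (2 * D.a + D.t, 0), (3 * D.a + D.t, D.a), (4 * D.a + D.t, 0)]

/-- The marked points. -/
def KA2 : List Pt :=
  [(3 * D.a + D.t, 2 * D.a), (2 * D.a + D.t, D.a), (D.a + D.t, 2 * D.a), (D.t, D.a), (D.t - D.a, 2 * D.a), (D.t - 2 * D.a, D.a), (D.t - 2 * D.a, 0), (D.t - D.a, D.a), (D.t, 0), (D.a + D.t, D.a), (2 * D.a + D.t, 0), (3 * D.a + D.t, D.a)]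

/-- The marked points. -/
def KB : List Pt :=
  [(D.a + D.b, 2 * D.a - D.b), (D.a, 2 * D.a - 2 * D.b), (D.a + D.b, 2 * D.a - 2 * D.b), (D.a + 2 * D.b, 2 * D.a - 2 * D.b), (D.a + 3 * D.b, 2 * D.a - 3 * D.b), (D.a + 3 * D.b, 2 * D.a - 2 * D.b), (D.a + 3 * D.b, 2 * D.a - D.b), (D.a + 4 * D.b, 2 * D.a), (D.a + 3 * D.b, 2 * D.a), (D.a + 2 * D.b, 2 * D.a - D.b)]

/-- The marked points. -/
def KC : List Pt :=
  [(0, 0), (D.a + D.b, D.a - D.b), (2 * D.a + D.b, D.a - 2 * D.b), (3 * D.a + D.b, D.a - 3 * D.b), (2 * D.a + 2 * D.b, 2 * D.a - 2 * D.b), (2 * D.a + 3 * D.b, 3 * D.a - 2 * D.b), (D.a + 3 * D.b, 3 * D.a - D.b), (D.a + 2 * D.b, 2 * D.a - D.b), (D.b, D.a)]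

end ZD

end NP
end Pool.Agent.Lib.MP_4a7072_co
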