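import Pool.Agent.Lib.MP_4a7072_co.ZTree
import Pool.Agent.Lib.MP_4a7072_co.ZCov

/-!
The strip design gives a dissection.
-/

set_option autoImplicit false
set_option linter.unnecessarySeqFocus false
set_option linter.unusedSimpArgs false
set_option linter.unusedVariables false
set_option linter.unreachableTactic false
set_option linter.unusedTactic false

namespace Pool.Agent.Lib.MP_4a7072_co
namespace NP


namespace ZD

variable (D : ZD)

theorem twoPiece {a b c : ℕ} (ha : D.a = a) (hb : D.b = b) (h : a ^ 2 + b ^ 2 = c ^ 2) :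
    TwoPieceDissection a b c := by
  have := D.aux
  have hZ : (a : ℤ) ^ 2 + (b : ℤ) ^ 2 = (c : ℤ) ^ 2 := by exact_mod_cast h
  let Λa : Lat := ⟨D.a, 0, a, by omega, le_rfl, by rw [ha]; ring⟩
  let Λb : Lat := ⟨D.b, 0, b, by omega, le_rfl, by rw [hb]; ring⟩
  let Λc : Lat := ⟨D.b, D.a, c, by omega, by omega, by rw [ha, hb]; linear_combination hZ⟩
  have nA : Net Λa (D.t, 0) (5 * D.a, D.a + D.u) (D.α ++ D.π) := by
    rcases D.hM with e | e
    · exact net_env D.sA0.1 D.sA2 D.sA0.2 (D.treeA1 (by omega)) D.memA1 (D.covA1 (by omega))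
    · exact net_env D.sA0.1 D.sA2 D.sA0.2 (D.treeA2 (by omega)) D.memA2 (D.covA2 (by omega))
  have nB : Net Λb (D.a + 2 * D.b, 2 * D.a - D.b) _ _ := net_env D.sB0.1 D.sB2 D.sB0.2 D.treeB D.memB D.covB
  have nC : Net Λc (0, 0) _ ([] ++ _) := net_env D.sC0.1 D.sC2 D.sC0.2 D.treeC D.memC D.covC
  rw [D.eB'] at nB
  rw [← List.append_nil D.π] at nA
  refine twoPiece_of_net (Λa := Λa) (Λb := Λb) (Λc := Λc) rfl rfl h nA nB nC
    (List.append_nil _) ?_ ?_
  · rw [D.covC1.1, D.arcAL.1, D.arcPI.1]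
  · rw [D.arcAL.1, D.arcPI.1]
    rfl

end ZD

theorem exists_ZD (a b k r : ℤ) (ha : 4 ≤ a) (he : a % 2 = 0) (hb : 5 * a < b) (e : b = a * k + r)
    (h0 : 0 < r) (h2 : r + 2 ≤ a) (hc : IsCoprime a r) : ∃ D : ZD, D.a = a ∧ D.b = b := by
  obtain ⟨Z⟩ := exists_ZC a r (by omega) hc he
  obtain ⟨K⟩ := exists_KC ha
  have hr : 2 * r ≠ a := by
    rintro rfl
    obtain ⟨x, y, h⟩ := hc
    have := Int.eq_one_or_neg_one_of_mul_eq_one (u := r) (v := 2 * x + y) (by linear_combination h)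
    omega
  obtain ⟨u, i, cM, hM⟩ : ∃ u i, K.Col i (a - 2 * r) u ∧
      ((2 * r + 2 ≤ a ∧ u = a - 1 ∧ i = 2 * a - 2 * r - 1) ∨
        (a + 2 ≤ 2 * r ∧ u = 1 ∧ i = a - 2 * r - 1)) := by
    rcases lt_or_gt_of_ne hr with c | c
    · exact ⟨_, _, K.col_hi (by omega) (by omega), .inl ⟨by omega, rfl, by ring⟩⟩
    · exact ⟨_, _, K.col_lo (by omega) (by omega), .inr ⟨by omega, rfl, rfl⟩⟩
  obtain ⟨g, J, cJ, hg⟩ : ∃ g J, K.Col J (b - 2 * r) g ∧ 0 < g ∧ g < a := by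
    obtain ⟨j, rfl | rfl⟩ : ∃ j, k = 2 * j ∨ k = 2 * j + 1 := ⟨k / 2, by omega⟩
    · exact ⟨_, _, (K.col_lo (x := -r) (by omega) (by omega)).shift (K.sh j rfl rfl) rfl
        (by rw [e]; ring), by omega⟩
    · exact ⟨_, _, (K.col_hi (x := a - r) (by omega) (by omega)).shift (K.sh j rfl rfl) rfl
        (by rw [e]; ring), by omega⟩
  exact ⟨⟨a, b, 2 * r, u, g, Z, K, i, J, _, by omega, cM, hM, cJ,
    K.sh k rfl (by rw [e]; ring)⟩, rfl, rfl⟩

/-- Dissections for an even shorter leg `a`, `5 a < b` and `b % a ≠ a - 1`. -/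
theorem twoPiece_strip (a b c : ℕ) (ha : 0 < a) (hab : 5 * a < b) (h : a ^ 2 + b ^ 2 = c ^ 2)
    (hc : Nat.Coprime a b) (he : a % 2 = 0) (hr : b % a ≠ a - 1) : TwoPieceDissection a b c := by
  have h1 := Nat.div_add_mod b a
  have h2 := Nat.mod_lt b ha
  have c1 : Nat.Coprime a (b % a) := by
    rw [Nat.Coprime, Nat.gcd_comm, ← Nat.gcd_rec]
    exact hc
  have h0 : b % a ≠ 0 := fun g => by
    rw [g, Nat.coprime_zero_right] at c1
    omega
  obtain ⟨D, e1, e2⟩ := exists_ZD a b (b / a : ℕ) (b % a : ℕ) (by omega) (by omega) (by omega)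
    (by exact_mod_cast h1.symm) (by omega) (by omega) (Nat.isCoprime_iff_coprime.2 c1)
  exact D.twoPiece e1 e2 h

end NP
end Pool.Agent.Lib.MP_4a7072_co
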