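import Pool.Agent.Lib.MP_4a7072_co.ZDefs

/-!
The boundaries of the strip design are simple closed paths.
-/

set_option autoImplicit false
set_option linter.unnecessarySeqFocus false
set_option linter.unusedSimpArgs false
set_option linter.unusedVariables false
set_option linter.unreachableTactic false
set_option linter.unusedTactic false

namespace Pool.Agent.Lib.MP_4a7072_co
namespace NP


namespace ZD

variable (D : ZD)
variable (U V U' V' : D.Str)

theorem arcSa : CArc (-D.a, D.g - D.a) (D.wSa) (D.a - D.b - D.g, -D.a - D.b) (D.Sa) := by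
  have := D.aux
  have h0 := D.arcLg.p3 (P' := (-D.a, D.g - D.a)) (Q' := (-D.a, -D.a)) (-D.a) (D.g - D.a) (by dsimp only; omega)
  have h1 := D.arcLg.b2 (Q' := (-D.a, -D.a)) (P' := (D.g - D.a, -D.a)) (D.g - D.a) (-D.a) (by dsimp only; omega)
  have h2 := D.arcT.p3 (P' := (D.g - D.a, -D.a)) (Q' := (0, -D.b)) (-D.a) (D.b - D.a - D.t) (by dsimp only; omega)
  have h3 := D.arcT.b0 (Q' := (0, -D.b)) (P' := (D.a - D.b, D.g - D.a - D.b)) (D.a + D.t - 2 * D.b) (-D.a - D.b) (by dsimp only; omega)
  have h4 := D.arcLg.p3 (P' := (D.a - D.b, D.g - D.a - D.b)) (Q' := (D.a - D.b, -D.a - D.b)) (D.a - D.b) (D.g - D.a - D.b) (by dsimp only; omega)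
  have h5 := D.arcLg.b0 (Q' := (D.a - D.b, -D.a - D.b)) (P' := (D.a - D.b - D.g, -D.a - D.b)) (D.a - D.b - D.g) (-D.a - D.b) (by dsimp only; omega)
  refine ((((h0.append h1 ?_).append h2 ?_).append h3 ?_).append h4 ?_).append h5 ?_
  · intro X Y a b
    show X = -D.a ∧ Y = -D.a
    have := a.lin; have := b.lin; omega
  · intro X Y a b
    show X = D.g - D.a ∧ Y = -D.a
    rcases a with a | a
    · have := a.lin; have := b.lin; omega
    · have := a.lin; have := b.lin; omega
  · intro X Y a b
    show X = 0 ∧ Y = -D.b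
    rcases a with (a | a) | a
    · have := a.lin; have := b.lin; omega
    · have := a.lin; have := b.lin; omega
    · have := a.lin; have := b.lin; omega
  · intro X Y a b
    show X = D.a - D.b ∧ Y = D.g - D.a - D.b
    rcases a with ((a | a) | a) | a
    · have := a.lin; have := b.lin; omega
    · have := a.lin; have := b.lin; omega
    · have := a.lin; have := b.lin; omega
    · have := a.lin; have := b.lin; omega
  · intro X Y a b
    show X = D.a - D.b ∧ Y = -D.a - D.b
    rcases a with (((a | a) | a) | a) | a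
    · have := a.lin; have := b.lin; omega
    · have := a.lin; have := b.lin; omega
    · have := a.lin; have := b.lin; omega
    · have := a.lin; have := b.lin; omega
    · have := a.lin; have := b.lin; omega

theorem arcSb : CArc (D.a - D.b - D.g, -D.a - D.b) (D.wSb U) (D.a + D.b, D.a - 2 * D.b) (D.Sb U) := by
  have := D.aux
  have h0 := U.arc.b1 (Q' := (D.a - D.b - D.g, -D.a - D.b)) (P' := (D.a - D.b, -2 * D.b)) (2 * D.a - D.b) (D.a - 2 * D.b) (by dsimp only; omega)
  have h1 := U.arc.p0 (P' := (D.a - D.b, -2 * D.b)) (Q' := (0, D.g - 2 * D.b)) (2 * D.a - D.b) (-D.a - 2 * D.b) (by dsimp only; omega)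
  have h2 := D.arcT.p0 (P' := (0, D.g - 2 * D.b)) (Q' := (D.b - D.a, D.a - 2 * D.b)) (D.t - D.b) (-2 * D.b) (by dsimp only; omega)
  have h3 := D.arcH.p0 (P' := (D.b - D.a, D.a - 2 * D.b)) (Q' := (D.a + D.b, D.a - 2 * D.b)) D.b (-2 * D.b) (by dsimp only; omega)
  refine ((h0.append h1 ?_).append h2 ?_).append h3 ?_
  · intro X Y a b
    show X = D.a - D.b ∧ Y = -2 * D.b
    have := Str.rt b a (by omega); omega
  · intro X Y a b
    show X = 0 ∧ Y = D.g - 2 * D.b
    rcases a with a | a
    · have := a.lin; have := b.lin; omega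
    · have := a.lin; have := b.lin; omega
  · intro X Y a b
    show X = D.b - D.a ∧ Y = D.a - 2 * D.b
    rcases a with (a | a) | a
    · have := a.lin; have := b.lin; omega
    · have := a.lin; have := b.lin; omega
    · have := a.lin; have := b.lin; omega

theorem arcSc : CArc (D.a + D.b, D.a - 2 * D.b) (D.wSc V) (D.a - D.g, -D.a) (D.Sc V) := by
  have := D.aux
  have h0 := D.arcT.b3 (Q' := (D.a + D.b, D.a - 2 * D.b)) (P' := (D.b + D.g, -D.b)) D.b (-D.t) (by dsimp only; omega)
  have h1 := D.arcLg.p2 (P' := (D.b + D.g, -D.b)) (Q' := (D.b, -D.b)) (D.b + D.g) (-D.b) (by dsimp only; omega)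
  have h2 := D.arcLg.b3 (Q' := (D.b, -D.b)) (P' := (D.b, D.g - D.b)) D.b (D.g - D.b) (by dsimp only; omega)
  have h3 := V.arc.b0 (Q' := (D.b, D.g - D.b)) (P' := (D.a, -D.b)) (2 * D.a) (-D.a - D.b) (by dsimp only; omega)
  have h4 := V.arc.p1 (P' := (D.a, -D.b)) (Q' := (D.a - D.g, -D.a)) (2 * D.a) (D.a - D.b) (by dsimp only; omega)
  refine (((h0.append h1 ?_).append h2 ?_).append h3 ?_).append h4 ?_
  · intro X Y a b
    show X = D.b + D.g ∧ Y = -D.b
    have := a.lin; have := b.lin; omega
  · intro X Y a b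
    show X = D.b ∧ Y = -D.b
    rcases a with a | a
    · have := a.lin; have := b.lin; omega
    · have := a.lin; have := b.lin; omega
  · intro X Y a b
    show X = D.b ∧ Y = D.g - D.b
    rcases a with (a | a) | a
    · have := a.lin; have := b.lin; omega
    · have := a.lin; have := b.lin; omega
    · have := a.lin; have := b.lin; omega
  · intro X Y a b
    show X = D.a ∧ Y = -D.b
    rcases a with ((a | a) | a) | a
    · have := a.lin; have := b.lin; omega
    · have := a.lin; have := b.lin; omega
    · have := a.lin; have := b.lin; omega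
    · have := Str.rt a b (by omega); omega

theorem arcSe : CArc (-D.a, D.g - D.a) (D.wSe U V) (D.a - D.g, -D.a) (D.Se U V) := by
  have := D.aux
  have h0 := D.arcSa
  have h1 := (D.arcSb U)
  have h2 := (D.arcSc V)
  refine (h0.append h1 ?_).append h2 ?_
  · intro X Y a b
    show X = D.a - D.b - D.g ∧ Y = -D.a - D.b
    rcases b with ((b | b) | b) | b
    · have := a.lin; have := b.lin; omega
    · have := a.lin; have := b.lin; omega
    · have := a.lin; have := b.lin; omega
    · have := a.lin; have := b.lin; omega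
  · intro X Y a b
    show X = D.a + D.b ∧ Y = D.a - 2 * D.b
    rcases a with a | a
    · rcases b with (((b | b) | b) | b) | b
      · have := a.lin; have := b.lin; omega
      · have := a.lin; have := b.lin; omega
      · have := a.lin; have := b.lin; omega
      · have := a.lin; have := b.lin; omega
      · rcases a with ((((a | a) | a) | a) | a) | a
        · have := a.lin; have := b.lin; omega
        · have := a.lin; have := b.lin; omega
        · exact (Str.sl b a.on (by omega)).elim
        · have := a.lin; have := b.lin; omega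
        · have := a.lin; have := b.lin; omega
        · have := a.lin; have := b.lin; omega
    · rcases b with (((b | b) | b) | b) | b
      · rcases a with ((a | a) | a) | a
        · have := a.lin; have := b.lin; omega
        · have := a.lin; have := b.lin; omega
        · have := a.lin; have := b.lin; omega
        · have := a.lin; have := b.lin; omega
      · have := a.lin; have := b.lin; omega
      · have := a.lin; have := b.lin; omega
      · rcases a with ((a | a) | a) | a
        · have := a.lin; have := b.lin; omega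
        · have := a.lin; have := b.lin; omega
        · have := a.lin; have := b.lin; omega
        · have := a.lin; have := b.lin; omega
      · have := a.lin; have := b.lin; omega

variable {D U V U' V'} in
theorem pS1 {X1 Y1 X2 Y2 : ℤ} (a : D.Se U V X1 Y1) (b : D.Se U' V' X2 Y2)
    (e : X2 = Y1 ∧ Y2 = -X1) :
    X1 = D.a - D.g ∧ Y1 = -D.a := by
  have := D.aux
  rcases a with (a | a) | a
  · have := a.lin; have := b.lin; omega
  · have := a.lin; have := b.lin; omega
  · rcases b with (b | b) | b
    · rcases b with ((((b | b) | b) | b) | b) | b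
      · rcases a with (((a | a) | a) | a) | a
        · have := a.lin; have := b.lin; omega
        · have := a.lin; have := b.lin; omega
        · have := a.lin; have := b.lin; omega
        · have := a.lin; have := b.lin; omega
        · have := a.lin; have := b.lin; omega
      · rcases a with (((a | a) | a) | a) | a
        · have := a.lin; have := b.lin; omega
        · have := a.lin; have := b.lin; omega
        · have := a.lin; have := b.lin; omega
        · have := a.lin; have := b.lin; omega
        · have := a.lin; have := b.lin; omega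
      · rcases a with (((a | a) | a) | a) | a
        · have := a.lin; have := b.lin; omega
        · have := a.lin; have := b.lin; omega
        · have := a.lin; have := b.lin; omega
        · have := a.lin; have := b.lin; omega
        · have := a.lin; have := b.lin; omega
      · have := a.lin; have := b.lin; omega
      · have := a.lin; have := b.lin; omega
      · have := a.lin; have := b.lin; omega
    · have := a.lin; have := b.lin; omega
    · have := a.lin; have := b.lin; omega

variable {D U V U' V'} in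
theorem pS2 {X1 Y1 X2 Y2 : ℤ} (a : D.Se U V X1 Y1) (b : D.Se U' V' X2 Y2)
    (e : X2 = -X1 ∧ Y2 = -Y1) :
    False := by
  have := D.aux
  have := a.lin; have := b.lin; omega

theorem arcB3 : CArc (2 * D.b + D.g, 3 * D.a - D.b) (D.wB3) (2 * D.a + 2 * D.b, 3 * D.a - D.b - D.g) (D.B3) := by
  have := D.aux
  have h0 := (D.arcSe D.s2 D.s1).p3 (P' := (2 * D.b + D.g, 3 * D.a - D.b)) (Q' := (2 * D.b, D.a + D.g - D.b)) (D.a + 2 * D.b) (2 * D.a - D.b) (by dsimp only; omega)
  have h1 := (D.arcSe D.s1 D.s0).p0 (P' := (2 * D.b, D.a + D.g - D.b)) (Q' := (2 * D.a + 2 * D.b - D.g, D.a - D.b)) (D.a + 2 * D.b) (2 * D.a - D.b) (by dsimp only; omega)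
  have h2 := (D.arcSe D.s0 D.s2).p1 (P' := (2 * D.a + 2 * D.b - D.g, D.a - D.b)) (Q' := (2 * D.a + 2 * D.b, 3 * D.a - D.b - D.g)) (D.a + 2 * D.b) (2 * D.a - D.b) (by dsimp only; omega)
  refine (h0.append h1 ?_).append h2 ?_
  · intro X Y a b
    show X = 2 * D.b ∧ Y = D.a + D.g - D.b
    have := pS1 a b (by omega); omega
  · intro X Y a b
    show X = 2 * D.a + 2 * D.b - D.g ∧ Y = D.a - D.b
    rcases a with a | a
    · have := a.lin; have := b.lin; omega
    · have := pS1 a b (by omega); omega

theorem arcRB : CArc (2 * D.a + 2 * D.b, 3 * D.a - D.b - D.g) (D.wRB) (2 * D.b + D.g, 3 * D.a - D.b) (D.RB) := by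
  have := D.aux
  have h0 := D.arcLh.p3 (P' := (2 * D.a + 2 * D.b, 3 * D.a - D.b - D.g)) (Q' := (2 * D.a + 2 * D.b, 2 * D.a - D.b)) (2 * D.a + 2 * D.b) (3 * D.a - D.b - D.g) (by dsimp only; omega)
  have h1 := D.arcLa.p2 (P' := (2 * D.a + 2 * D.b, 2 * D.a - D.b)) (Q' := (D.a + 2 * D.b, 2 * D.a - D.b)) (2 * D.a + 2 * D.b) (2 * D.a - D.b) (by dsimp only; omega)
  have h2 := D.arcLa.p1 (P' := (D.a + 2 * D.b, 2 * D.a - D.b)) (Q' := (D.a + 2 * D.b, 3 * D.a - D.b)) (D.a + 2 * D.b) (2 * D.a - D.b) (by dsimp only; omega)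
  have h3 := D.arcLh.p2 (P' := (D.a + 2 * D.b, 3 * D.a - D.b)) (Q' := (2 * D.b + D.g, 3 * D.a - D.b)) (D.a + 2 * D.b) (3 * D.a - D.b) (by dsimp only; omega)
  refine ((h0.append h1 ?_).append h2 ?_).append h3 ?_
  · intro X Y a b
    show X = 2 * D.a + 2 * D.b ∧ Y = 2 * D.a - D.b
    have := a.lin; have := b.lin; omega
  · intro X Y a b
    show X = D.a + 2 * D.b ∧ Y = 2 * D.a - D.b
    rcases a with a | a
    · have := a.lin; have := b.lin; omega
    · have := a.lin; have := b.lin; omega
  · intro X Y a b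
    show X = D.a + 2 * D.b ∧ Y = 3 * D.a - D.b
    rcases a with (a | a) | a
    · have := a.lin; have := b.lin; omega
    · have := a.lin; have := b.lin; omega
    · have := a.lin; have := b.lin; omega

theorem arcAL : CArc (5 * D.a, D.a + D.u) (D.α) (0, 0) (D.AL) := by
  have := D.aux
  have h0 := D.arcW.b0 (Q' := (5 * D.a, D.a + D.u)) (P' := (-D.a, D.a + D.u)) (D.t - 2 * D.a) D.a (by dsimp only; omega)
  have h1 := D.arcLu.p3 (P' := (-D.a, D.a + D.u)) (Q' := (-D.a, D.a)) (-D.a) (D.a + D.u) (by dsimp only; omega)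
  have h2 := D.arcZ1
  refine (h0.append h1 ?_).append h2 ?_
  · intro X Y a b
    show X = -D.a ∧ Y = D.a + D.u
    have := a.lin; have := b.lin; omega
  · intro X Y a b
    show X = -D.a ∧ Y = D.a
    rcases a with a | a
    · exact (D.sWZ a.on b.on (by omega)).elim
    · have := a.lin; have := b.lin; omega

theorem arcPI : CArc (0, 0) (D.π) (5 * D.a, D.a + D.u) (D.PI) := by
  have := D.aux
  have h0 := D.arcZ5
  have h1 := D.arcLu.p1 (P' := (5 * D.a, D.a)) (Q' := (5 * D.a, D.a + D.u)) (5 * D.a) D.a (by dsimp only; omega)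
  refine h0.append h1 ?_
  · intro X Y a b
    show X = 5 * D.a ∧ Y = D.a
    have := a.lin; have := b.lin; omega

theorem nW : D.W ≠ [] := D.K.C.Z_ne (by have := D.ord; omega)

theorem nZ : D.Z1 ≠ [] := D.Z.C.Z_ne (by have := D.ord; omega)

theorem sA0 : Simple (5 * D.a, D.a + D.u) (D.α ++ D.π) ∧
    ∀ z ∈ verts (5 * D.a, D.a + D.u) (D.α ++ D.π), D.EA z.1 z.2 := by
  have := D.aux
  refine D.arcAL.simple D.arcPI (fun X Y a b => ?_) (by
    have := length_ea (n := D.u) (by omega)
    have := D.nZ
    have := List.length_pos_iff.2 D.nW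
    have := List.length_pos_iff.2 D.nZ
    simp only [α, List.length_append, length_rot, length_back]
    omega)
  show (X = 5 * D.a ∧ Y = D.a + D.u) ∨ (X = 0 ∧ Y = 0)
  rcases a with (a | a) | a
  · rcases b with b | b
    · exact (D.sWZ a.on b.on (by omega)).elim
    · have := a.lin; have := b.lin; omega
  · have := a.lin; have := b.lin; omega
  · rcases b with b | b
    · have := D.s15 a b (by omega); omega
    · have := a.lin; have := b.lin; omega

theorem sA1 : OutE D.EA (-D.a - 1) (D.a + D.u) := by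
  have := D.aux
  refine .rayN fun V _ h => ?_
  have := h.lin; omega

theorem sA2 : Ccw (5 * D.a, D.a + D.u) (D.α ++ D.π) := by
  have := D.aux
  exact ccw_env (Q := (-D.a, D.a + D.u)) (d := 3) D.sA0.1 D.sA0.2 (sMem_edges_left (sMem_edges_left (sMem_edges_right (D.arcW.b0 (Q' := (5 * D.a, D.a + D.u)) (P' := (-D.a, D.a + D.u)) (D.t - 2 * D.a) D.a (by dsimp only; omega)).1 (edge_ea _ 3 (by omega))) _) _)
    D.sA1 (by ext <;> simp [dv] <;> omega)

theorem sB0 : Simple (2 * D.b + D.g, 3 * D.a - D.b) (D.wB3 ++ D.wRB) ∧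
    ∀ z ∈ verts (2 * D.b + D.g, 3 * D.a - D.b) (D.wB3 ++ D.wRB), D.EB z.1 z.2 := by
  have := D.aux
  refine D.arcB3.simple D.arcRB (fun X Y a b => ?_) (by
    have := length_ea (n := D.a) (by omega)
    simp only [wRB, List.length_append, length_rot, length_back]
    omega)
  show (X = 2 * D.b + D.g ∧ Y = 3 * D.a - D.b) ∨ (X = 2 * D.a + 2 * D.b ∧ Y = 3 * D.a - D.b - D.g)
  rcases a with (a | a) | a
  · rcases a with (a | a) | a
    · rcases b with ((b | b) | b) | b
      · have := a.lin; have := b.lin; omega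
      · have := a.lin; have := b.lin; omega
      · have := a.lin; have := b.lin; omega
      · have := a.lin; have := b.lin; omega
    · have := a.lin; have := b.lin; omega
    · have := a.lin; have := b.lin; omega
  · have := a.lin; have := b.lin; omega
  · rcases a with (a | a) | a
    · have := a.lin; have := b.lin; omega
    · have := a.lin; have := b.lin; omega
    · rcases a with (((a | a) | a) | a) | a
      · have := a.lin; have := b.lin; omega
      · have := a.lin; have := b.lin; omega
      · have := a.lin; have := b.lin; omega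
      · have := a.lin; have := b.lin; omega
      · have := a.lin; have := b.lin; omega

theorem sB1 : OutE D.EB (2 * D.a + 2 * D.b - 1) (3 * D.a - D.b - D.g) := by
  have := D.aux
  refine .rayN fun V _ h => ?_
  rcases h with h | h
  · rcases h with (h | h) | h
    · have := h.lin; omega
    · have := h.lin; omega
    · rcases h with (h | h) | h
      · have := h.lin; omega
      · have := h.lin; omega
      · have := h.lin; omega
  · rcases h with ((h | h) | h) | h
    · have := h.lin; omega
    · have := h.lin; omega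
    · have := h.lin; omega
    · have := h.lin; omega

theorem sB2 : Ccw (2 * D.b + D.g, 3 * D.a - D.b) (D.wB3 ++ D.wRB) := by
  have := D.aux
  exact ccw_env (Q := (2 * D.a + 2 * D.b, 3 * D.a - D.b - D.g)) (d := 3) D.sB0.1 D.sB0.2 (sMem_edges_right D.arcB3.1 (sMem_edges_left (sMem_edges_left (sMem_edges_left (edge_ea _ 3 (by omega)) _) _) _))
    D.sB1 (by ext <;> simp [dv] <;> omega)

theorem arcG0 : CArc (0, 0) (D.wG0) (2 * D.b - D.a, 2 * D.a) (D.G0) := by
  have := D.aux
  have h0 := D.arcZ3
  have h1 := D.arcLu.p1 (P' := (3 * D.a, D.a)) (Q' := (3 * D.a, D.a + D.u)) (3 * D.a) D.a (by dsimp only; omega)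
  have h2 := D.arcV2.p0 (P' := (3 * D.a, D.a + D.u)) (Q' := (D.b - 2 * D.a, D.a + D.g)) (D.t - 2 * D.a) D.a (by dsimp only; omega)
  have h3 := D.arcT.p0 (P' := (D.b - 2 * D.a, D.a + D.g)) (Q' := (2 * D.b - 3 * D.a, 2 * D.a)) (D.t - 2 * D.a) D.a (by dsimp only; omega)
  have h4 := D.arcH.p0 (P' := (2 * D.b - 3 * D.a, 2 * D.a)) (Q' := (2 * D.b - D.a, 2 * D.a)) (2 * D.b - 2 * D.a) D.a (by dsimp only; omega)
  refine (((h0.append h1 ?_).append h2 ?_).append h3 ?_).append h4 ?_
  · intro X Y a b
    show X = 3 * D.a ∧ Y = D.a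
    have := a.lin; have := b.lin; omega
  · intro X Y a b
    show X = 3 * D.a ∧ Y = D.a + D.u
    rcases a with a | a
    · have := a.lin; have := b.lin; omega
    · have := a.lin; have := b.lin; omega
  · intro X Y a b
    show X = D.b - 2 * D.a ∧ Y = D.a + D.g
    rcases a with (a | a) | a
    · have := a.lin; have := b.lin; omega
    · have := a.lin; have := b.lin; omega
    · have := a.lin; have := b.lin; omega
  · intro X Y a b
    show X = 2 * D.b - 3 * D.a ∧ Y = 2 * D.a
    rcases a with ((a | a) | a) | a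
    · have := a.lin; have := b.lin; omega
    · have := a.lin; have := b.lin; omega
    · have := a.lin; have := b.lin; omega
    · have := a.lin; have := b.lin; omega

theorem covC1 : Cov (2 * D.b + D.g, 3 * D.a - D.b) (D.wC1) (5 * D.a, D.a + D.u) (D.C1) := by
  have := D.aux
  have h0 := (D.arcSa.p3 (P' := (2 * D.b + D.g, 3 * D.a - D.b)) (Q' := (D.b, D.a + D.g)) (D.a + 2 * D.b) (2 * D.a - D.b) (by dsimp only; omega)).cov
  have h1 := (D.arcV2.b0 (Q' := (D.b, D.a + D.g)) (P' := (5 * D.a, D.a + D.u)) D.t D.a (by dsimp only; omega)).cov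
  exact h0.append h1

theorem covC2 : Cov (0, 0) (D.wC2) (2 * D.b + D.g, 3 * D.a - D.b) (D.C2) := by
  have := D.aux
  have h0 := (D.arcG0.p3 (P' := (0, 0)) (Q' := (2 * D.a, D.a - 2 * D.b)) 0 0 (by dsimp only; omega)).cov
  have h1 := ((D.arcSc D.s1).p3 (P' := (2 * D.a, D.a - 2 * D.b)) (Q' := (2 * D.b, D.a + D.g - D.b)) (D.a + 2 * D.b) (2 * D.a - D.b) (by dsimp only; omega)).cov
  have h2 := ((D.arcSe D.s1 D.s0).p0 (P' := (2 * D.b, D.a + D.g - D.b)) (Q' := (2 * D.a + 2 * D.b - D.g, D.a - D.b)) (D.a + 2 * D.b) (2 * D.a - D.b) (by dsimp only; omega)).cov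
  have h3 := ((D.arcSe D.s0 D.s2).p1 (P' := (2 * D.a + 2 * D.b - D.g, D.a - D.b)) (Q' := (2 * D.a + 2 * D.b, 3 * D.a - D.b - D.g)) (D.a + 2 * D.b) (2 * D.a - D.b) (by dsimp only; omega)).cov
  have h4 := (D.arcRB).cov
  exact (((h0.append h1).append h2).append h3).append h4

theorem eZ4 : D.Z4 = D.Z1 ++ D.Z3 := by
  have := D.ord
  exact D.Z.C.Z_append (by omega) (by omega)

theorem eZ0 : D.Z.C.Z 0 D.Z.C.q = back 3 D.Z1 := D.Z.C.ZA D.Z.C.qpos.le le_rfl

theorem eZ5 : D.Z5 = back 3 D.Z1 ++ D.Z4 := by
  have := D.ord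
  rw [← D.eZ0, Z4, ← D.Z.C.Z_per (i := -D.Z.C.q) (j := 3 * D.Z.C.q) (i' := D.Z.C.q)
    (j' := 5 * D.Z.C.q) (by ring) (by ring)]
  exact D.Z.C.Z_append (by omega) (by omega)

theorem eS2 : D.wSb D.s2 = back 1 (D.Z4 ++ rot 1 (ea D.u) ++ D.V2) ++ (D.Z1 ++ D.wG0) := by
  show back 1 D.wU2 ++ D.wU2 ++ D.T ++ D.H = _
  simp [wU2, wG0, eZ4]

theorem eB' : D.wB3 ++ D.wRB = D.wC1 ++ (back 0 D.π ++ D.wC2) := by
  simp [wB3, wC1, wC2, wSe, π, eS2, eZ5, rot_append, back_append, back_back, rot_back, back_rot, rot_rot, rot_zero, back_ea]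

theorem arcBE : CArc (0, 0) D.β (5 * D.a, D.a + D.u) D.BE :=
  Simple.rest (D.eB' ▸ D.sB0.1) (back_ne (by simp [π, eZ5, back, D.nZ])) D.covC2 D.covC1
    D.arcPI.back.1

theorem sC0 : Simple (5 * D.a, D.a + D.u) (D.α ++ D.β) ∧
    ∀ z ∈ verts (5 * D.a, D.a + D.u) (D.α ++ D.β), D.EC z.1 z.2 := by
  have := D.aux
  refine D.arcAL.simple D.arcBE (fun X Y a b => ?_) (by
    have := length_ea (n := D.u) (by omega)
    have := D.nZ
    have := List.length_pos_iff.2 D.nW
    have := List.length_pos_iff.2 D.nZ
    simp only [α, List.length_append, length_rot, length_back]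
    omega)
  show (X = 5 * D.a ∧ Y = D.a + D.u) ∨ (X = 0 ∧ Y = 0)
  rcases b with b | b
  · rcases b with (((b | b) | b) | b) | b
    · rcases a with (a | a) | a
      · have := a.lin; have := b.lin; omega
      · have := a.lin; have := b.lin; omega
      · have := a.lin; have := b.lin; omega
    · have := a.lin; have := b.lin; omega
    · have := a.lin; have := b.lin; omega
    · have := a.lin; have := b.lin; omega
    · have := a.lin; have := b.lin; omega
  · rcases b with b | b
    · have := a.lin; have := b.lin; omega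
    · have := a.lin; have := b.lin; omega

theorem sC1 : OutE D.EC (-D.a - 1) (D.a + D.u) := by
  have := D.aux
  refine .rayN fun V _ h => ?_
  have := h.lin; omega

theorem sC2 : Ccw (5 * D.a, D.a + D.u) (D.α ++ D.β) := by
  have := D.aux
  exact ccw_env (Q := (-D.a, D.a + D.u)) (d := 3) D.sC0.1 D.sC0.2 (sMem_edges_left (sMem_edges_left (sMem_edges_right (D.arcW.b0 (Q' := (5 * D.a, D.a + D.u)) (P' := (-D.a, D.a + D.u)) (D.t - 2 * D.a) D.a (by dsimp only; omega)).1 (edge_ea _ 3 (by omega))) _) _)
    D.sC1 (by ext <;> simp [dv] <;> omega)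

end ZD

end NP
end Pool.Agent.Lib.MP_4a7072_co
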