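import Pool.Agent.Lib.MP_4a7072_co.ZSimple

/-!
The trees of the strip design.
-/

set_option autoImplicit false
set_option linter.unnecessarySeqFocus false
set_option linter.unusedSimpArgs false
set_option linter.unusedVariables false
set_option linter.unreachableTactic false
set_option linter.unusedTactic false

namespace Pool.Agent.Lib.MP_4a7072_co
namespace NP

theorem UC.six {τ : Pt} (C : UC τ) {c i m j : ℤ} {s : Dir} (h1 : c ≤ i) (h2 : i ≤ m)
    (hm : m = c + C.q) (hj : j = i + 6 * C.q) (h : C.Z m (m + C.q) = back s (C.Z c m)) :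
    C.Z i j = C.Z i m ++ back s (C.Z c i ++ C.Z i m) ++ (C.Z c i ++ C.Z i m) ++
      back s (C.Z c i ++ C.Z i m) ++ (C.Z c i ++ C.Z i m) ++ back s (C.Z c i ++ C.Z i m) ++
      C.Z c i := by
  have := C.qpos
  have p1 : C.Z (m + C.q) (m + 2 * C.q) = C.Z c m := C.Z_per (by omega) rfl
  have p2 : C.Z (m + 2 * C.q) (m + 3 * C.q) = C.Z m (m + C.q) := C.Z_per rfl (by omega)
  have p3 : C.Z (m + 3 * C.q) (m + 4 * C.q) = C.Z c m := (C.Z_per (by omega) (by omega)).trans p1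
  have p4 : C.Z (m + 4 * C.q) (m + 5 * C.q) = C.Z m (m + C.q) :=
    (C.Z_per (by omega) (by omega)).trans p2
  have p5 : C.Z (m + 5 * C.q) j = C.Z c i :=
    ((C.Z_per (i := m + 3 * C.q) (j := j - 2 * C.q) (by omega) (by omega)).trans
      (C.Z_per (i := m + C.q) (j := j - 4 * C.q) (by omega) (by omega))).trans
      (C.Z_per (by omega) (by omega))
  rw [← C.Z_append h1 h2, ← h, C.Z_append (i := i) (j := m + 5 * C.q) (by omega) (by omega),
    C.Z_append (i := i) (j := m + 4 * C.q) (by omega) (by omega),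
    C.Z_append (i := i) (j := m + 3 * C.q) (by omega) (by omega),
    C.Z_append (i := i) (j := m + 2 * C.q) (by omega) (by omega),
    C.Z_append (i := i) (j := m + C.q) (by omega) (by omega),
    C.Z_append (i := i) (j := m) (l := m + C.q) (by omega) (by omega), p1, p2, p3, p4, p5]


namespace ZD

variable (D : ZD)

/-- A part of a curve. -/
def F : List Dir := D.K.C.Z (-2 * D.a) 0

theorem k0 : D.K.C.Z 0 (2 * D.a) = back 3 D.F := by
  have := D.ord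
  have h := D.K.C.ZA (i := 2 * D.a) (by omega) D.K.hq.ge
  rwa [← neg_mul] at h

theorem eH : D.H = D.F ++ back 3 D.F := by
  have := D.ord
  rw [← D.k0]
  exact D.K.C.Z_append (by omega) (by omega)

theorem eK {x y : ℤ} (e : y = x + 4 * D.a) (h : y ≤ D.J) :
    D.K.C.Z y D.J ++ (D.T ++ D.H) = D.K.C.Z x D.J ++ D.T := by
  have := D.ord
  rw [H, T, ← D.hγ.Z (i := -2 * D.a) (j := 2 * D.a) (i' := D.γ - 2 * D.a)
    (j' := D.γ + 2 * D.a) (by ring) (by ring),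
    ← D.K.C.Z_append (by omega) (by omega), ← D.K.C.Z_append h (by omega),
    ← D.K.C.Z_append (by omega) (by omega)]
  exact D.k1.Z e (by ring)

theorem eV2 : D.V2 ++ (D.T ++ D.H) = D.V1 ++ D.T := D.eK (by ring) D.ord.2.2.1.le

theorem eV1 : D.V1 ++ (D.T ++ D.H) = D.V0 ++ D.T := D.eK rfl (by have := D.ord; omega)

theorem eV0 : D.V0 ++ (D.T ++ D.H) = D.W ++ (D.V2 ++ D.T) := by
  have := D.ord
  rw [V0, D.eK (x := D.i - 4 * D.a) (by ring) (by omega), ← List.append_assoc, W, V2,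
    D.k1.Z (i := D.i - 4 * D.a) (j := D.i + 8 * D.a) (i' := D.i) (j' := D.i + 12 * D.a) (by ring)
      (by ring),
    ← D.K.C.Z_append (by omega) (by omega)]

theorem eZ2 : D.Z2 = D.Z1 ++ back 3 D.Z1 := by
  have := D.ord
  rw [← D.eZ0]
  exact D.Z.C.Z_append (by omega) (by omega)

theorem eZ3 : D.Z3 = back 3 D.Z1 ++ D.Z2 := by
  have := D.ord
  rw [← D.eZ0, Z2, ← D.Z.C.Z_per (i := -D.Z.C.q) (j := D.Z.C.q) (i' := D.Z.C.q)
    (j' := 3 * D.Z.C.q) (by ring) (by ring)]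
  exact D.Z.C.Z_append (by omega) (by omega)

theorem eG0 : D.wG0 = back 3 D.Z1 ++ (D.s1.w ++ D.T) := by
  show _ = _ ++ (D.wU1 ++ _)
  simp [wG0, wU1, eZ3, eV2]

theorem eS1 : D.wSb D.s1 = back 1 D.s1.w ++ (D.Z1 ++ back 3 D.Z1 ++ D.s0.w ++ D.T) := by
  rw [wSb, List.append_assoc, List.append_assoc]
  congr 1
  show D.wU1 ++ _ = _ ++ D.wU0 ++ _
  simp [wU0, wU1, eZ2, eV1]

theorem eS0 : D.wSb D.s0 = back 1 D.s0.w ++ (rot 1 (ea D.u) ++ D.W ++ D.V2 ++ D.T) := by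
  rw [wSb, List.append_assoc, List.append_assoc]
  congr 1
  show D.wU0 ++ _ = _
  simp [wU0, eV0]

variable {D} in
theorem Str.ne (U : D.Str) : U.w ≠ [] := fun h => by
  have := D.aux
  have e := U.arc.1
  rw [h] at e
  have := congrArg Prod.fst e
  simp only [endP] at this
  omega

variable {D} in
theorem Str.ds (U : D.Str) : dsp U.w = (D.b - D.a, D.g) := by
  rw [U.arc.dsp_eq]
  ext <;> simp only [Prod.fst_sub, Prod.snd_sub] <;> omega

theorem dT : dsp D.T = (D.b - D.a, D.a - D.g) := by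
  rw [D.arcT.dsp_eq]
  ext <;> simp only [Prod.fst_sub, Prod.snd_sub] <;> omega

theorem dW : dsp D.W = (6 * D.a, 0) := by
  rw [D.arcW.dsp_eq]
  ext <;> simp only [Prod.fst_sub, Prod.snd_sub] <;> omega

theorem dV2 : dsp D.V2 = (D.b - 5 * D.a, D.g - D.u) := by
  rw [D.arcV2.dsp_eq]
  ext <;> simp only [Prod.fst_sub, Prod.snd_sub] <;> omega

theorem dZ1 : dsp D.Z1 = (D.a, -D.a) := by
  rw [D.arcZ1.dsp_eq]
  ext <;> simp only [Prod.fst_sub, Prod.snd_sub] <;> omega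

theorem dF : dsp D.F = (D.a, -D.a) := by
  have := D.ord
  rw [F, D.K.C.Z_dsp (by omega), D.km, D.K.C.w0]
  ext <;> simp only [Prod.fst_sub, Prod.snd_sub] <;> omega

theorem da : dsp (ea D.a) = (D.a, 0) := dsp_ea (by have := D.aux; omega)

theorem du : dsp (ea D.u) = (D.u, 0) := dsp_ea (by have := D.aux; omega)

theorem dg : dsp (ea D.g) = (D.g, 0) := dsp_ea (by have := D.aux; omega)

theorem dh : dsp (ea (D.a - D.g)) = (D.a - D.g, 0) := dsp_ea (by have := D.aux; omega)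

theorem treeB : TreeOK (2 * D.b + D.g, 3 * D.a - D.b) (D.wB3 ++ D.wRB) D.KB := by
  have := D.aux
  have := D.ord
  have nT : D.T ≠ [] := D.K.C.Z_ne (by omega)
  have nF : D.F ≠ [] := D.K.C.Z_ne (by omega)
  have na : ea D.a ≠ [] := ea_ne (by omega)
  have ng : ea D.g ≠ [] := ea_ne (by omega)
  refine (((((TB.leaf (rot_ne (t := 2) nT)).tu.zip (back 1 (ea D.g))).zip (rot 2 (ea D.g))).cat (((((((((TB.leaf (rot_ne (t := 1) ng)).tu.cat (((((TB.leaf (rot_ne (t := 3) nT)).tu.zip (back 2 (ea D.g))).zip (rot 3 (ea D.g))).zip (D.s1.w)).zip (back 3 D.s1.w))).zip (back 2 D.T)).zipH (back_ne (t := 2) nF)).tri ((((TB.leaf (rot_ne (t := 2) ng)).tu.cat (((((TB.leaf nT).tu.zip (back 3 (ea D.g))).zip ((ea D.g))).zip (rot 1 D.s0.w)).zip (back 0 D.s0.w))).zip (back 3 D.T)).zipH (back_ne (t := 3) nF)) (by simp [rot_append, back_append, back_back, rot_back, back_rot, rot_rot, rot_zero, back_ea])).tu.zip (rot 3 D.T)).cat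 (TB.leaf (rot_ne (t := 3) ng)).tu).zip (rot 3 D.s2.w)).zip (back 0 D.s2.w))).cat ((TB.leaf (rot_ne (t := 2) na)).tu.zip (rot 3 (ea (D.a - D.g))))).ok
    (u := []) rfl (by
      simp [wB3, wRB, wSe, wSa, wSb, wSc, eH, rot_append, back_append, back_back, rot_back, back_rot, rot_rot, rot_zero, back_ea])
    fun W => ?_
  rw [show List.map _ _ = D.KB from ?_]
  simp only [List.map_cons, List.map_nil, List.cons_append, List.nil_append, List.append_nil,
      dsp_append, dsp_rot, dsp_back, List.cons.injEq, Prod.ext_iff, rotP_zero, rotP_1, rotP_2,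
      rotP_3, Prod.fst_add, Prod.snd_add, Prod.fst_neg, Prod.snd_neg, dsp_nil, Prod.fst_zero,
      Prod.snd_zero, Prod.fst_sub, Prod.snd_sub, Fin.reduceAdd, and_true, true_and, Str.ds, D.dT, D.dF, D.da, D.dg, D.dh, KB]
  omega

theorem treeC : TreeOK (5 * D.a, D.a + D.u) (D.α ++ D.β) D.KC := by
  have := D.aux
  have := D.ord
  have nZ : D.Z1 ≠ [] := D.nZ
  have n0 : D.s0.w ≠ [] := D.s0.ne
  have n1 : D.s1.w ≠ [] := D.s1.ne
  have n2 : D.s2.w ≠ [] := D.s2.ne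
  have na : ea D.a ≠ [] := ea_ne (by omega)
  have ng : ea D.g ≠ [] := ea_ne (by omega)
  refine (((((((((((((TB.leaf (back_ne (t := 3) n1)).tu.zip (back 2 (ea D.g))).zip (rot 1 (ea D.g))).zip (back 2 D.T)).zip (rot 3 D.T)).cat (TB.leaf (rot_ne (t := 3) ng)).tu).zip (rot 3 D.s1.w)).zipB (back_ne (t := 2) nZ)).vtx nZ).tu.cat (((((((TB.leaf (back_ne (t := 0) n0)).tu.zip (back 3 (ea D.g))).zip (rot 2 (ea D.g))).zip (back 3 D.T)).zip (D.T)).cat (TB.leaf ng).tu).zip (D.s0.w))).zip (rot 3 (ea D.u))).zip (back 0 D.W)).cat ((((((((TB.leaf (back_ne (t := 1) n2)).tu.cat ((TB.leaf (rot_ne (t := 2) na)).tu.zip (rot 3 (ea (D.a - D.g))))).zip (back 0 (ea D.g))).zip (rot 3 (ea D.g))).zip (back 0 D.T)).zip (rot 1 D.T)).cat (TB.leaf (rot_ne (t := 2) ng)).tu).zip (rot 1 D.V2))).ok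
    (u := []) rfl (by
      simp [α, β, wC1, wC2, wRB, wSe, wSa, wSc, eG0, eS1, eS0, rot_append, back_append, back_back, rot_back, back_rot, rot_rot, rot_zero, back_ea])
    fun W => ?_
  rw [show List.map _ _ = D.KC from ?_]
  simp only [List.map_cons, List.map_nil, List.cons_append, List.nil_append, List.append_nil,
      dsp_append, dsp_rot, dsp_back, List.cons.injEq, Prod.ext_iff, rotP_zero, rotP_1, rotP_2,
      rotP_3, Prod.fst_add, Prod.snd_add, Prod.fst_neg, Prod.snd_neg, dsp_nil, Prod.fst_zero,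
      Prod.snd_zero, Prod.fst_sub, Prod.snd_sub, Fin.reduceAdd, and_true, true_and, Str.ds, D.dT, D.dW, D.dV2, D.dZ1, D.da, D.du, D.dg, D.dh, KC]
  omega

theorem eA : D.α ++ D.π = back 0 D.W ++ rot 3 (ea D.u) ++
    D.Z.C.Z (-D.Z.C.q) (5 * D.Z.C.q) ++ rot 1 (ea D.u) := by
  have := D.ord
  rw [D.Z.C.Z_append (j := 0) (by omega) (by omega)]
  simp [α, π, Z1, Z5]

theorem zb1 : D.Z.C.w (D.Z.C.β - D.Z.C.q) = (D.t - D.a, D.a) := by
  have h := D.Z.C.symB _ D.Z.C.qpos.le le_rfl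
  have := D.z1.at (D.Z.C.β - D.Z.C.q) (D.Z.C.β + D.Z.C.q) (by ring)
  rw [D.Z.wβ] at h
  exact Prod.ext (by simp only at h ⊢; omega) (by simp only at h ⊢; omega)

theorem zb2 : D.Z.C.w (D.Z.C.β - 2 * D.Z.C.q) = (D.t - 2 * D.a, 0) :=
  D.z1.pt' (by ring) D.Z.wβ (by ring)

theorem zb3 : D.Z.C.w (D.Z.C.β - 3 * D.Z.C.q) = (D.t - 3 * D.a, D.a) :=
  D.z1.pt' (by ring) D.zb1 (by ring)

theorem ord1 (hc : D.t < D.a) : 0 < D.Z.C.β ∧ D.Z.C.β < D.Z.C.q ∧ 0 < D.i ∧ D.i < 2 * D.a := by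
  have := D.aux
  have := D.hM
  have h1 := D.zl D.Z.C.β
  have h2 := D.zl (D.Z.C.β - 2 * D.Z.C.q)
  rw [D.Z.wβ] at h1
  rw [D.zb2] at h2
  simp only at h1 h2
  omega

theorem ord2 (hc : D.a < D.t) :
    D.Z.C.q < D.Z.C.β ∧ D.Z.C.β < 2 * D.Z.C.q ∧ -2 * D.a < D.i ∧ D.i < 0 := by
  have := D.aux
  have := D.hM
  have h1 := D.zl D.Z.C.β
  have h2 := D.zl (D.Z.C.β - 2 * D.Z.C.q)
  rw [D.Z.wβ] at h1
  rw [D.zb2] at h2
  simp only at h1 h2
  omega

/-- A part of a curve. -/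
def X1 : List Dir := D.Z.C.Z (D.Z.C.β - 2 * D.Z.C.q) (-D.Z.C.q)

theorem dX1 (hc : D.t < D.a) : dsp D.X1 = (D.a - D.t, D.a) := by
  have := D.ord1 hc
  rw [X1, D.Z.C.Z_dsp (by omega), D.zb2, D.zm]
  ext <;> simp only [Prod.fst_sub, Prod.snd_sub] <;> omega

/-- A part of a curve. -/
def X2 : List Dir := D.Z.C.Z (-D.Z.C.q) (D.Z.C.β - D.Z.C.q)

theorem dX2 (hc : D.t < D.a) : dsp D.X2 = (D.t, 0) := by
  have := D.ord1 hc
  rw [X2, D.Z.C.Z_dsp (by omega), D.zm, D.zb1]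
  ext <;> simp only [Prod.fst_sub, Prod.snd_sub] <;> omega

/-- A part of a curve. -/
def Y1 : List Dir := D.K.C.Z D.i (2 * D.a)

theorem dY1 (hc : D.t < D.a) : dsp D.Y1 = (D.t, D.a - D.u) := by
  have := D.ord1 hc
  rw [Y1, D.K.C.Z_dsp (by omega), D.cM.1, D.kp]
  ext <;> simp only [Prod.fst_sub, Prod.snd_sub] <;> omega

/-- A part of a curve. -/
def Y2 : List Dir := D.K.C.Z 0 D.i

theorem dY2 (hc : D.t < D.a) : dsp D.Y2 = (D.a - D.t, D.u) := by
  have := D.ord1 hc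
  rw [Y2, D.K.C.Z_dsp (by omega), D.K.C.w0, D.cM.1]
  ext <;> simp only [Prod.fst_sub, Prod.snd_sub] <;> omega

theorem eX1 (hc : D.t < D.a) : D.Z.C.Z (-D.Z.C.q) (5 * D.Z.C.q) =
    D.X2 ++ back 1 (D.X1 ++ D.X2) ++ (D.X1 ++ D.X2) ++
      back 1 (D.X1 ++ D.X2) ++ (D.X1 ++ D.X2) ++ back 1 (D.X1 ++ D.X2) ++ D.X1 := by
  have := D.ord1 hc
  refine D.Z.C.six (by omega) (by omega) (by ring) (by ring) ?_
  refine ((D.Z.C.Z_per (by ring) (by ring)).symm.trans (D.Z.C.ZBQ D.Z.C.qpos.le le_rfl)).trans ?_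
  exact congrArg _ (D.Z.C.Z_per (by ring) (by ring))

theorem eY1 (hc : D.t < D.a) : D.W =
    D.Y1 ++ back 1 (D.Y2 ++ D.Y1) ++ (D.Y2 ++ D.Y1) ++
      back 1 (D.Y2 ++ D.Y1) ++ (D.Y2 ++ D.Y1) ++ back 1 (D.Y2 ++ D.Y1) ++ D.Y2 := by
  have := D.ord1 hc
  refine D.K.C.six (by omega) (by omega) (by rw [D.K.hq]; ring) (by rw [D.K.hq]; ring) ?_
  have h := D.K.C.ZQ D.K.C.qpos.le le_rfl
  rw [sub_self, D.K.hq] at h
  rw [D.K.hq, h]

theorem treeA1 (hc : D.t < D.a) : TreeOK (5 * D.a, D.a + D.u) (D.α ++ D.π) D.KA1 := by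
  have := D.aux
  have := D.ord
  have := D.ord1 hc
  have nX1 : D.X1 ≠ [] := D.Z.C.Z_ne (by omega)
  have nX2 : D.X2 ≠ [] := D.Z.C.Z_ne (by omega)
  have nY1 : D.Y1 ≠ [] := D.K.C.Z_ne (by omega)
  have nY2 : D.Y2 ≠ [] := D.K.C.Z_ne (by omega)
  refine (((TB.leaf (back_ne (t := 0) nY2)).tu.cat (((TB.leaf (back_ne (t := 0) nY2)).tu.zipH (back_ne (t := 0) nY1)).tri ((TB.leaf (back_ne (t := 0) nY2)).tu.zipH (back_ne (t := 0) nY1)) (by simp [rot_append, back_append, back_back, rot_back, back_rot, rot_rot, rot_zero, back_ea])).tu).cat (((TB.leaf nX2).tu.cat (((TB.leaf nX2).tu.zipH nX1).tri ((TB.leaf nX2).tu.zipH nX1) (by simp [rot_append, back_append, back_back, rot_back, back_rot, rot_rot, rot_zero, back_ea])).tu).zip (rot 3 (ea D.u)))).ok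
    (u := []) rfl (by
      simp [eA, D.eX1 hc, D.eY1 hc, rot_append, back_append, back_back, rot_back, back_rot, rot_rot, rot_zero, back_ea])
    fun W => ?_
  rw [show List.map _ _ = D.KA1 from ?_]
  simp only [List.map_cons, List.map_nil, List.cons_append, List.nil_append, List.append_nil,
      dsp_append, dsp_rot, dsp_back, List.cons.injEq, Prod.ext_iff, rotP_zero, rotP_1, rotP_2,
      rotP_3, Prod.fst_add, Prod.snd_add, Prod.fst_neg, Prod.snd_neg, dsp_nil, Prod.fst_zero,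
      Prod.snd_zero, Prod.fst_sub, Prod.snd_sub, Fin.reduceAdd, and_true, true_and, D.dX1 hc, D.dX2 hc, D.dY1 hc, D.dY2 hc, D.du, KA1]
  omega

/-- A part of a curve. -/
def X3 : List Dir := D.Z.C.Z (D.Z.C.β - 3 * D.Z.C.q) (-D.Z.C.q)

theorem dX3 (hc : D.a < D.t) : dsp D.X3 = (2 * D.a - D.t, 0) := by
  have := D.ord2 hc
  rw [X3, D.Z.C.Z_dsp (by omega), D.zb3, D.zm]
  ext <;> simp only [Prod.fst_sub, Prod.snd_sub] <;> omega

/-- A part of a curve. -/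
def X4 : List Dir := D.Z.C.Z (-D.Z.C.q) (D.Z.C.β - 2 * D.Z.C.q)

theorem dX4 (hc : D.a < D.t) : dsp D.X4 = (D.t - D.a, -D.a) := by
  have := D.ord2 hc
  rw [X4, D.Z.C.Z_dsp (by omega), D.zm, D.zb2]
  ext <;> simp only [Prod.fst_sub, Prod.snd_sub] <;> omega

/-- A part of a curve. -/
def Y3 : List Dir := D.K.C.Z D.i 0

theorem dY3 (hc : D.a < D.t) : dsp D.Y3 = (D.t - D.a, -D.u) := by
  have := D.ord2 hc
  rw [Y3, D.K.C.Z_dsp (by omega), D.cM.1, D.K.C.w0]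
  ext <;> simp only [Prod.fst_sub, Prod.snd_sub] <;> omega

/-- A part of a curve. -/
def Y4 : List Dir := D.K.C.Z (-2 * D.a) D.i

theorem dY4 (hc : D.a < D.t) : dsp D.Y4 = (2 * D.a - D.t, D.u - D.a) := by
  have := D.ord2 hc
  rw [Y4, D.K.C.Z_dsp (by omega), D.km, D.cM.1]
  ext <;> simp only [Prod.fst_sub, Prod.snd_sub] <;> omega

theorem eX2 (hc : D.a < D.t) : D.Z.C.Z (-D.Z.C.q) (5 * D.Z.C.q) =
    D.X4 ++ back 3 (D.X3 ++ D.X4) ++ (D.X3 ++ D.X4) ++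
      back 3 (D.X3 ++ D.X4) ++ (D.X3 ++ D.X4) ++ back 3 (D.X3 ++ D.X4) ++ D.X3 := by
  have := D.ord2 hc
  refine D.Z.C.six (by omega) (by omega) (by ring) (by ring) ?_
  refine ((D.Z.C.Z_per (by ring) (by ring)).symm.trans (D.Z.C.ZB D.Z.C.qpos.le le_rfl)).trans ?_
  exact congrArg _ (D.Z.C.Z_per (by ring) (by ring))

theorem eY2 (hc : D.a < D.t) : D.W =
    D.Y3 ++ back 3 (D.Y4 ++ D.Y3) ++ (D.Y4 ++ D.Y3) ++
      back 3 (D.Y4 ++ D.Y3) ++ (D.Y4 ++ D.Y3) ++ back 3 (D.Y4 ++ D.Y3) ++ D.Y4 := by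
  have := D.ord2 hc
  refine D.K.C.six (by omega) (by omega) (by rw [D.K.hq]; ring) (by rw [D.K.hq]; ring) ?_
  rw [zero_add, D.K.hq, D.k0, F]

theorem treeA2 (hc : D.a < D.t) : TreeOK (5 * D.a, D.a + D.u) (D.α ++ D.π) D.KA2 := by
  have := D.aux
  have := D.ord
  have := D.ord2 hc
  have nX1 : D.X3 ≠ [] := D.Z.C.Z_ne (by omega)
  have nX2 : D.X4 ≠ [] := D.Z.C.Z_ne (by omega)
  have nY1 : D.Y3 ≠ [] := D.K.C.Z_ne (by omega)
  have nY2 : D.Y4 ≠ [] := D.K.C.Z_ne (by omega)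
  refine (((((TB.leaf (rot_ne (t := 3) nY1)).tu.zipH (rot_ne (t := 3) nY2)).tri ((TB.leaf (rot_ne (t := 3) nY1)).tu.zipH (rot_ne (t := 3) nY2)) (by simp [rot_append, back_append, back_back, rot_back, back_rot, rot_rot, rot_zero, back_ea])).tu.cat (TB.leaf (rot_ne (t := 3) nY1)).tu).cat (((((TB.leaf (back_ne (t := 3) nX1)).tu.zipH (back_ne (t := 3) nX2)).tri ((TB.leaf (back_ne (t := 3) nX1)).tu.zipH (back_ne (t := 3) nX2)) (by simp [rot_append, back_append, back_back, rot_back, back_rot, rot_rot, rot_zero, back_ea])).tu.cat (TB.leaf (back_ne (t := 3) nX1)).tu).zip (rot 3 (ea D.u)))).ok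
    (u := []) rfl (by
      simp [eA, D.eX2 hc, D.eY2 hc, rot_append, back_append, back_back, rot_back, back_rot, rot_rot, rot_zero, back_ea])
    fun W => ?_
  rw [show List.map _ _ = D.KA2 from ?_]
  simp only [List.map_cons, List.map_nil, List.cons_append, List.nil_append, List.append_nil,
      dsp_append, dsp_rot, dsp_back, List.cons.injEq, Prod.ext_iff, rotP_zero, rotP_1, rotP_2,
      rotP_3, Prod.fst_add, Prod.snd_add, Prod.fst_neg, Prod.snd_neg, dsp_nil, Prod.fst_zero,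
      Prod.snd_zero, Prod.fst_sub, Prod.snd_sub, Fin.reduceAdd, and_true, true_and, D.dX3 hc, D.dX4 hc, D.dY3 hc, D.dY4 hc, D.du, KA2]
  omega

end ZD

end NP
end Pool.Agent.Lib.MP_4a7072_co
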